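import Mathlib

-- part MP_a59382_lc.H11.Dio
section

/-!
Polynomial functions and diophantine predicates over a field `K` in which a binary form
`x ^ N - c * y ^ N` has only the trivial zero.
-/

set_option autoImplicit false

namespace Pool.Agent.MP_a59382_lc.H11

open MvPolynomial

variable {K : Type} [Field K]

/-- `g` is a polynomial function of its coordinates. -/
def PF {α : Type} (g : (α → K) → K) : Prop :=
  ∃ f : MvPolynomial α K, ∀ v, g v = eval v f

namespace PF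

variable {α β : Type}

theorem const (c : K) : PF (fun _ : α → K => c) := ⟨C c, fun v => by simp⟩

theorem var (a : α) : PF (fun v : α → K => v a) := ⟨X a, fun v => by simp⟩

theorem add {g h : (α → K) → K} (hg : PF g) (hh : PF h) : PF (fun v => g v + h v) := by
  obtain ⟨f, hf⟩ := hg
  obtain ⟨f', hf'⟩ := hh
  exact ⟨f + f', fun v => by simp [hf, hf']⟩

theorem sub {g h : (α → K) → K} (hg : PF g) (hh : PF h) : PF (fun v => g v - h v) := by
  obtain ⟨f, hf⟩ := hg
  obtain ⟨f', hf'⟩ := hh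
  exact ⟨f - f', fun v => by simp [hf, hf']⟩

theorem mul {g h : (α → K) → K} (hg : PF g) (hh : PF h) : PF (fun v => g v * h v) := by
  obtain ⟨f, hf⟩ := hg
  obtain ⟨f', hf'⟩ := hh
  exact ⟨f * f', fun v => by simp [hf, hf']⟩

theorem pow {g : (α → K) → K} (hg : PF g) (n : ℕ) : PF (fun v => g v ^ n) := by
  obtain ⟨f, hf⟩ := hg
  exact ⟨f ^ n, fun v => by simp [hf]⟩

theorem sum {ι : Type} (s : Finset ι) {g : ι → (α → K) → K} (hg : ∀ i, PF (g i)) :
    PF (fun v => ∑ i ∈ s, g i v) := by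
  choose f hf using hg
  exact ⟨∑ i ∈ s, f i, fun v => by simp [hf]⟩

theorem prod {ι : Type} (s : Finset ι) {g : ι → (α → K) → K} (hg : ∀ i, PF (g i)) :
    PF (fun v => ∏ i ∈ s, g i v) := by
  choose f hf using hg
  exact ⟨∏ i ∈ s, f i, fun v => by simp [hf]⟩

theorem comp {g : (β → K) → K} (hg : PF g) {h : β → (α → K) → K} (hh : ∀ b, PF (h b)) :
    PF (fun v => g (fun b => h b v)) := by
  obtain ⟨f, hf⟩ := hg
  choose f' hf' using hh
  refine ⟨bind₁ f' f, fun v => ?_⟩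
  have e : (fun b => h b v) = fun b => eval v (f' b) := funext fun b => hf' b v
  simp only [hf, e]
  have := aeval_bind₁ v f' f
  simpa [aeval_eq_eval] using this.symm

end PF

/-- `S` is defined by one existentially quantified polynomial equation. -/
def Dio {α : Type} (S : (α → K) → Prop) : Prop :=
  ∃ (β : Type) (_ : Finite β) (g : (α ⊕ β → K) → K), PF g ∧
    ∀ v, S v ↔ ∃ z : β → K, g (Sum.elim v z) = 0

/-- There is an anisotropic binary form `x ^ N - c * y ^ N`. -/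
def Aniso (K : Type) [Field K] : Prop :=
  ∃ (N : ℕ) (c : K), 0 < N ∧ ∀ x y : K, x ^ N - c * y ^ N = 0 → x = 0 ∧ y = 0

namespace Dio

variable {α β : Type}

theorem congr {S S' : (α → K) → Prop} (h : Dio S) (e : ∀ v, S' v ↔ S v) : Dio S' := by
  have : S' = S := funext fun v => propext (e v)
  rwa [this]

theorem eq {g h : (α → K) → K} (hg : PF g) (hh : PF h) : Dio (fun v => g v = h v) := by
  refine ⟨Empty, inferInstance, fun w => g (fun a => w (Sum.inl a)) - h (fun a => w (Sum.inl a)),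
    (hg.comp fun a => PF.var _).sub (hh.comp fun a => PF.var _), fun v => ?_⟩
  simp [sub_eq_zero]

theorem top : Dio (fun _ : α → K => True) :=
  (eq (PF.const (0 : K)) (PF.const 0)).congr fun _ => by simp

theorem bot : Dio (fun _ : α → K => False) :=
  (eq (PF.const (0 : K)) (PF.const 1)).congr fun _ => by simp

private theorem pair {S S' : (α → K) → Prop} (h : Dio S) (h' : Dio S') :
    ∃ (β : Type) (_ : Finite β) (g g' : (α ⊕ β → K) → K), PF g ∧ PF g' ∧
      ∀ v, ((S v ∧ S' v) ↔ ∃ z : β → K, g (Sum.elim v z) = 0 ∧ g' (Sum.elim v z) = 0) ∧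
        ((S v ∨ S' v) ↔ ∃ z : β → K, g (Sum.elim v z) = 0 ∨ g' (Sum.elim v z) = 0) := by
  obtain ⟨β, _, g, hg, hS⟩ := h
  obtain ⟨β', _, g', hg', hS'⟩ := h'
  refine ⟨β ⊕ β', inferInstance, fun w => g (fun x => w (Sum.map id Sum.inl x)),
    fun w => g' (fun x => w (Sum.map id Sum.inr x)), hg.comp fun _ => PF.var _,
    hg'.comp fun _ => PF.var _, fun v => ?_⟩
  have e1 : ∀ z : β ⊕ β' → K, (fun x => Sum.elim v z (Sum.map id Sum.inl x)) =
      Sum.elim v (fun b => z (Sum.inl b)) := fun z => funext fun x => by cases x <;> rfl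
  have e2 : ∀ z : β ⊕ β' → K, (fun x => Sum.elim v z (Sum.map id Sum.inr x)) =
      Sum.elim v (fun b => z (Sum.inr b)) := fun z => funext fun x => by cases x <;> rfl
  simp only [e1, e2, hS, hS']
  constructor
  · constructor
    · rintro ⟨⟨z, hz⟩, ⟨z', hz'⟩⟩
      exact ⟨Sum.elim z z', hz, hz'⟩
    · rintro ⟨z, hz, hz'⟩
      exact ⟨⟨_, hz⟩, ⟨_, hz'⟩⟩
  · constructor
    · rintro (⟨z, hz⟩ | ⟨z', hz'⟩)
      · exact ⟨Sum.elim z 0, Or.inl hz⟩
      · exact ⟨Sum.elim 0 z', Or.inr hz'⟩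
    · rintro ⟨z, hz | hz'⟩
      · exact Or.inl ⟨_, hz⟩
      · exact Or.inr ⟨_, hz'⟩

theorem and (hK : Aniso K) {S S' : (α → K) → Prop} (h : Dio S) (h' : Dio S') :
    Dio (fun v => S v ∧ S' v) := by
  obtain ⟨N, c, hN, hc⟩ := hK
  obtain ⟨β, _, g, g', hg, hg', hS⟩ := pair h h'
  refine ⟨β, inferInstance, fun w => g w ^ N - c * g' w ^ N,
    (hg.pow N).sub ((PF.const c).mul (hg'.pow N)), fun v => ?_⟩
  beta_reduce
  rw [(hS v).1]
  refine exists_congr fun z => ⟨fun h => ?_, fun h => hc _ _ h⟩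
  simp [h.1, h.2, hN.ne']

theorem or {S S' : (α → K) → Prop} (h : Dio S) (h' : Dio S') :
    Dio (fun v => S v ∨ S' v) := by
  obtain ⟨β, _, g, g', hg, hg', hS⟩ := pair h h'
  refine ⟨β, inferInstance, fun w => g w * g' w, hg.mul hg', fun v => ?_⟩
  beta_reduce
  rw [(hS v).2]
  simp [mul_eq_zero]

theorem comp {S : (β → K) → Prop} (h : Dio S) {f : β → (α → K) → K} (hf : ∀ b, PF (f b)) :
    Dio (fun v => S (fun b => f b v)) := by
  obtain ⟨γ, _, g, hg, hS⟩ := h
  refine ⟨γ, inferInstance,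
    fun w => g (fun x => Sum.elim (fun b => f b (fun a => w (Sum.inl a)))
      (fun c => w (Sum.inr c)) x), hg.comp fun x => ?_, fun v => ?_⟩
  · cases x with
    | inl b => exact (hf b).comp fun a => PF.var _
    | inr c => exact PF.var _
  · exact hS _

theorem ex [Finite β] {S : (α → K) → (β → K) → Prop}
    (h : Dio (fun w : α ⊕ β → K => S (fun a => w (Sum.inl a)) (fun b => w (Sum.inr b)))) :
    Dio (fun v => ∃ z, S v z) := by
  obtain ⟨γ, _, g, hg, hS⟩ := h
  refine ⟨β ⊕ γ, inferInstance, fun w => g (fun x => w (Equiv.sumAssoc α β γ x)),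
    hg.comp fun _ => PF.var _, fun v => ?_⟩
  have e : ∀ z : β ⊕ γ → K, (fun x => Sum.elim v z (Equiv.sumAssoc α β γ x)) =
      Sum.elim (Sum.elim v (fun b => z (Sum.inl b))) (fun c => z (Sum.inr c)) :=
    fun z => funext fun x => by rcases x with (a | b) | c <;> rfl
  simp only [e]
  constructor
  · rintro ⟨z, hz⟩
    obtain ⟨y, hy⟩ := (hS (Sum.elim v z)).1 hz
    exact ⟨Sum.elim z y, hy⟩
  · rintro ⟨z, hz⟩
    exact ⟨_, (hS (Sum.elim v fun b => z (Sum.inl b))).2 ⟨_, hz⟩⟩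

theorem ex1 {S : (α → K) → K → Prop}
    (h : Dio (fun w : α ⊕ Unit → K => S (fun a => w (Sum.inl a)) (w (Sum.inr ())))) :
    Dio (fun v => ∃ z, S v z) :=
  (ex (S := fun v (z : Unit → K) => S v (z ())) h).congr fun _ =>
    ⟨fun ⟨z, hz⟩ => ⟨fun _ => z, hz⟩, fun ⟨z, hz⟩ => ⟨z (), hz⟩⟩

theorem all (hK : Aniso K) {ι : Type} (s : Finset ι) {S : ι → (α → K) → Prop}
    (h : ∀ i, Dio (S i)) : Dio (fun v => ∀ i ∈ s, S i v) := by
  classical
  induction s using Finset.induction_on with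
  | empty => exact top.congr fun v => by simp
  | insert a s _ ih => exact (and hK (h a) ih).congr fun v => by simp

theorem all' (hK : Aniso K) {ι : Type} [Finite ι] {S : ι → (α → K) → Prop}
    (h : ∀ i, Dio (S i)) : Dio (fun v => ∀ i, S i v) := by
  have := Fintype.ofFinite ι
  exact (all hK Finset.univ h).congr fun v => by simp

theorem any {ι : Type} (s : Finset ι) {S : ι → (α → K) → Prop}
    (h : ∀ i, Dio (S i)) : Dio (fun v => ∃ i ∈ s, S i v) := by
  classical
  induction s using Finset.induction_on with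
  | empty => exact bot.congr fun v => by simp
  | insert a s _ ih => exact (or (h a) ih).congr fun v => by simp

theorem ne {g : (α → K) → K} (hg : PF g) : Dio (fun v => g v ≠ 0) := by
  have : Dio (fun v => ∃ z : K, g v * z = 1) :=
    ex1 (eq ((hg.comp fun a => PF.var _).mul (PF.var _)) (PF.const _))
  refine this.congr fun v => ⟨fun h => ⟨(g v)⁻¹, mul_inv_cancel₀ h⟩, ?_⟩
  rintro ⟨z, hz⟩ h0
  simp [h0] at hz

/-- The normal form used in the statement. -/
theorem out {S : (α → K) → Prop} (h : Dio S) :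
    ∃ (n : ℕ) (f : MvPolynomial (α ⊕ Fin n) K), ∀ v,
      (∃ z : Fin n → K, eval (Sum.elim v z) f = 0) ↔ S v := by
  obtain ⟨β, _, g, hg, hS⟩ := h
  obtain ⟨n, ⟨e⟩⟩ := Finite.exists_equiv_fin β
  obtain ⟨f, hf⟩ := hg.comp (α := α ⊕ Fin n) (h := fun x w => w (Sum.map id e x))
    fun _ => PF.var _
  refine ⟨n, f, fun v => ?_⟩
  rw [hS]
  have e1 : ∀ z : Fin n → K, (fun x => Sum.elim v z (Sum.map id e x)) =
      Sum.elim v (fun b => z (e b)) := fun z => funext fun x => by cases x <;> rfl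
  simp only [← hf, e1]
  constructor
  · rintro ⟨z, hz⟩
    exact ⟨_, hz⟩
  · rintro ⟨z, hz⟩
    exact ⟨fun i => z (e.symm i), by simpa using hz⟩

end Dio

/-- A diophantine subset of `K`. -/
def Dio1 (P : K → Prop) : Prop := Dio (fun v : Unit → K => P (v ()))

theorem Dio1.app {α : Type} {P : K → Prop} (h : Dio1 P) {g : (α → K) → K} (hg : PF g) :
    Dio (fun v => P (g v)) :=
  Dio.comp (S := fun v : Unit → K => P (v ())) h (f := fun _ => g) fun _ => hg

theorem Dio1.congr {P P' : K → Prop} (h : Dio1 P) (e : ∀ x, P' x ↔ P x) : Dio1 P' :=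
  Dio.congr h fun _ => e _

end Pool.Agent.MP_a59382_lc.H11

end

-- part MP_a59382_lc.H11.Sys
section

/-!
An axiomatic description of the places of a global function field with a separating element `t`,
and first consequences.
-/

set_option autoImplicit false

namespace Pool.Agent.MP_a59382_lc.H11

open WithZero
open scoped WithZero

variable {K : Type} [Field K]

/-- The element with `Q`-th power components `c`. -/
def cs (Q : ℕ) (t : K) (c : Fin Q → K) : K := ∑ d : Fin Q, c d ^ Q * t ^ (d : ℕ)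

/-- What is used about the family of all places. -/
structure Sys (q : ℕ) (t : K) {ι : Type} (val : ι → Valuation K ℤᵐ⁰) : Prop where
  two_le : 2 ≤ q
  frob : ∀ (k : ℕ) (x y : K), (x + y) ^ q ^ k = x ^ q ^ k + y ^ q ^ k
  supp : ∀ y : K, y ≠ 0 → {i | val i y ≠ 1}.Finite
  span : ∀ (Q k : ℕ), Q = q ^ k → ∀ y : K, ∃ c : Fin Q → K, y = cs Q t c
  indep : ∀ (Q k : ℕ), Q = q ^ k → ∀ c : Fin Q → K, cs Q t c = 0 → c = 0
  comp : ∀ (Q k : ℕ), Q = q ^ k → ∃ γ : ι → ℕ, {i | γ i ≠ 0}.Finite ∧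
    ∀ (i : ι) (m : ℤ) (c : Fin Q → K), val i (cs Q t c) ≤ exp ((Q : ℤ) * m) →
      ∀ d, val i (c d) ≤ exp (m + γ i)
  fin : ∀ A : ι → ℕ, {i | A i ≠ 0}.Finite → {y : K | ∀ i, val i y ≤ exp (A i : ℤ)}.Finite

section Val

variable (v : Valuation K ℤᵐ⁰)

theorem ex_exp {y : K} (hy : y ≠ 0) : ∃ n : ℤ, v y = exp n :=
  ⟨log (v y), (exp_log ((Valuation.ne_zero_iff v).2 hy)).symm⟩

theorem ex_pole {y : K} (hy : 1 < v y) : ∃ n : ℕ, 1 ≤ n ∧ v y = exp (n : ℤ) := by
  have h0 : y ≠ 0 := by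
    rintro rfl
    simp at hy
  obtain ⟨n, hn⟩ := ex_exp v h0
  rw [hn, ← exp_zero, exp_lt_exp] at hy
  exact ⟨n.toNat, by omega, by rw [hn, Int.toNat_of_nonneg hy.le]⟩

theorem ex_le (y : K) : ∃ n : ℕ, v y ≤ exp (n : ℤ) := by
  by_cases h : 1 < v y
  · obtain ⟨n, -, hn⟩ := ex_pole v h
    exact ⟨n, hn.le⟩
  · exact ⟨0, by simpa using h⟩

theorem le_exp_neg_one {y : K} (hy : v y < 1) : v y ≤ exp (-1 : ℤ) := by
  by_cases h0 : y = 0
  · simp [h0]
  obtain ⟨n, hn⟩ := ex_exp v h0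
  rw [hn, ← exp_zero, exp_lt_exp] at hy
  rw [hn, exp_le_exp]
  omega

theorem pow_exp (n : ℤ) (k : ℕ) : (exp n : ℤᵐ⁰) ^ k = exp ((k : ℤ) * n) := by
  rw [← exp_nsmul, nsmul_eq_mul]

theorem val_pow_le {y : K} {n : ℤ} (h : v y ≤ exp n) (k : ℕ) :
    v (y ^ k) ≤ exp ((k : ℤ) * n) := by
  rw [map_pow, ← pow_exp]
  exact pow_le_pow_left₀ zero_le h k

theorem val_mul_le {x y : K} {m n : ℤ} (hx : v x ≤ exp m) (hy : v y ≤ exp n) :
    v (x * y) ≤ exp (m + n) := by
  rw [map_mul, exp_add]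
  exact mul_le_mul' hx hy

theorem one_le_exp (n : ℕ) : (1 : ℤᵐ⁰) ≤ exp (n : ℤ) := by
  rw [← exp_zero, exp_le_exp]
  omega

theorem exp_mono {a : ℤᵐ⁰} {m n : ℤ} (h : a ≤ exp m) (hmn : m ≤ n) : a ≤ exp n :=
  h.trans (exp_le_exp.2 hmn)

/-- Poles of `u ^ Q - u`. -/
theorem as_pole {u : K} {Q : ℕ} (hQ : 2 ≤ Q) (h : 1 < v (u ^ Q - u)) :
    ∃ n : ℕ, 1 ≤ n ∧ v u = exp (n : ℤ) ∧ v (u ^ Q - u) = exp ((Q : ℤ) * n) := by
  have hu : 1 < v u := by
    by_contra hu
    rw [not_lt] at hu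
    refine absurd h (not_lt.2 (v.map_sub_le ?_ hu))
    rw [map_pow]
    exact pow_le_one₀ zero_le hu
  obtain ⟨n, hn, e⟩ := ex_pole v hu
  refine ⟨n, hn, e, ?_⟩
  have e2 : v (u ^ Q) = exp ((Q : ℤ) * n) := by rw [map_pow, e, pow_exp]
  rw [v.map_sub_eq_of_lt_left, e2]
  rw [e2, e, exp_lt_exp]
  have : (2 : ℤ) ≤ Q := by exact_mod_cast hQ
  have : (1 : ℤ) ≤ n := by exact_mod_cast hn
  nlinarith

theorem as_val {u : K} {Q n : ℕ} (hQ : 2 ≤ Q) (hn : 1 ≤ n) (e : v u = exp (n : ℤ)) :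
    v (u ^ Q - u) = exp ((Q : ℤ) * n) := by
  have e2 : v (u ^ Q) = exp ((Q : ℤ) * n) := by rw [map_pow, e, pow_exp]
  rw [v.map_sub_eq_of_lt_left, e2]
  rw [e2, e, exp_lt_exp]
  have : (2 : ℤ) ≤ Q := by exact_mod_cast hQ
  have : (1 : ℤ) ≤ n := by exact_mod_cast hn
  nlinarith

end Val

theorem ex_ceil (n : ℤ) {Q : ℕ} (hQ : 0 < Q) :
    ∃ m : ℤ, n ≤ (Q : ℤ) * m ∧ (Q : ℤ) * m < n + Q := by
  have hQ' : (0 : ℤ) < Q := by exact_mod_cast hQ
  refine ⟨(n + Q - 1) / Q, ?_, ?_⟩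
  · have := Int.mul_ediv_add_emod (n + Q - 1) Q
    have := Int.emod_lt_of_pos (n + Q - 1) hQ'
    omega
  · have := Int.mul_ediv_add_emod (n + Q - 1) Q
    have := Int.emod_nonneg (n + Q - 1) hQ'.ne'
    omega

theorem bdd_of_supp {ι : Type} {A : ι → ℕ} (h : {i | A i ≠ 0}.Finite) : ∃ B, ∀ i, A i ≤ B := by
  obtain ⟨B, hB⟩ := (h.image A).bddAbove
  refine ⟨B, fun i => ?_⟩
  by_cases hi : A i = 0
  · omega
  · exact hB ⟨i, hi, rfl⟩

theorem cs_single {Q : ℕ} (t x : K) (d : Fin Q) :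
    cs Q t (Pi.single d x) = x ^ Q * t ^ (d : ℕ) := by
  unfold cs
  rw [Finset.sum_eq_single d]
  · simp
  · intro b _ hb
    have : Q ≠ 0 := d.pos.ne'
    simp [hb, this]
  · simp

theorem cs_smul {Q : ℕ} (t x : K) (c : Fin Q → K) :
    cs Q t (fun d => x * c d) = x ^ Q * cs Q t c := by
  unfold cs
  rw [Finset.mul_sum]
  refine Finset.sum_congr rfl fun d _ => ?_
  rw [mul_pow, mul_assoc]

theorem cs_zero {Q : ℕ} (t : K) : cs Q t (0 : Fin Q → K) = 0 := by
  unfold cs
  refine Finset.sum_eq_zero fun d _ => ?_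
  have : Q ≠ 0 := d.pos.ne'
  simp [this]

theorem cs_add' {Q : ℕ} (t : K) (hQ : ∀ x y : K, (x + y) ^ Q = x ^ Q + y ^ Q)
    (c c' : Fin Q → K) : cs Q t (c + c') = cs Q t c + cs Q t c' := by
  unfold cs
  rw [← Finset.sum_add_distrib]
  refine Finset.sum_congr rfl fun d _ => ?_
  rw [Pi.add_apply, hQ, add_mul]

namespace Sys

variable {q : ℕ} {t : K} {ι : Type} {val : ι → Valuation K ℤᵐ⁰} (S : Sys q t val)
include S

theorem pow_pos (k : ℕ) : 0 < q ^ k := Nat.pow_pos (by have := S.two_le; omega)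

theorem frob_sub (k : ℕ) (x y : K) : (x - y) ^ q ^ k = x ^ q ^ k - y ^ q ^ k := by
  have := S.frob k (x - y) y
  rw [sub_add_cancel] at this
  rw [this, add_sub_cancel_right]

theorem frob_neg (k : ℕ) (x : K) : (-x) ^ q ^ k = -x ^ q ^ k := by
  have := S.frob_sub k 0 x
  rwa [zero_sub, zero_pow (S.pow_pos k).ne', zero_sub] at this

theorem frob_inj (k : ℕ) {x y : K} (h : x ^ q ^ k = y ^ q ^ k) : x = y := by
  have := S.frob_sub k x y
  rw [h, sub_self] at this
  exact sub_eq_zero.1 (pow_eq_zero_iff (S.pow_pos k).ne' |>.1 this)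

theorem cs_add {Q k : ℕ} (hQ : Q = q ^ k) (c c' : Fin Q → K) :
    cs Q t (c + c') = cs Q t c + cs Q t c' :=
  cs_add' t (fun x y => hQ ▸ S.frob k x y) c c'

theorem cs_inj {Q k : ℕ} (hQ : Q = q ^ k) {c c' : Fin Q → K} (h : cs Q t c = cs Q t c') :
    c = c' := by
  have := S.cs_add hQ (c - c') c'
  rw [sub_add_cancel, h, right_eq_add] at this
  exact sub_eq_zero.1 (S.indep Q k hQ _ this)

theorem not_pow (y : K) : t ≠ y ^ q := by
  intro h
  have h2 := S.two_le
  have e : cs q t (Pi.single ⟨1, by omega⟩ 1) = cs q t (Pi.single ⟨0, by omega⟩ y) := by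
    rw [cs_single, cs_single]
    simpa using h
  have := congrFun (S.cs_inj (pow_one q).symm e) ⟨1, by omega⟩
  simp at this

theorem t_ne : t ≠ 0 := by
  have := S.not_pow 0
  rwa [zero_pow (by have := S.two_le; omega)] at this

theorem aniso : Aniso K := by
  have h2 := S.two_le
  refine ⟨q, t, by omega, fun x y h => ?_⟩
  by_cases hy : y = 0
  · subst hy
    rw [zero_pow (by omega), mul_zero, sub_zero] at h
    exact ⟨pow_eq_zero_iff (by omega) |>.1 h, rfl⟩
  · refine absurd ?_ (S.not_pow (x / y))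
    rw [div_pow, eq_div_iff (pow_ne_zero _ hy)]
    exact (sub_eq_zero.1 h).symm

theorem bdd (y : K) : ∃ B : ℕ, ∀ i, val i y ≤ exp (B : ℤ) := by
  classical
  by_cases hy : y = 0
  · exact ⟨0, fun i => by simp [hy]⟩
  choose n hn using fun i => ex_le (val i) y
  obtain ⟨B, hB⟩ := bdd_of_supp (A := fun i => if val i y = 1 then 0 else n i)
    ((S.supp y hy).subset fun i hi h => by simp [h] at hi)
  refine ⟨B, fun i => ?_⟩
  have := hB i
  by_cases h : val i y = 1
  · rw [h]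
    exact one_le_exp B
  · simp only [h, if_false] at this
    exact exp_mono (hn i) (by exact_mod_cast this)

theorem bdd_below {L : Set K} (hL : L.Finite) :
    ∃ B : ℕ, ∀ g ∈ L, g ≠ 0 → ∀ i, exp (-(B : ℤ)) ≤ val i g := by
  choose n hn using fun g : K => S.bdd g⁻¹
  obtain ⟨B, hB⟩ := (hL.image n).bddAbove
  refine ⟨B, fun g hg h0 i => ?_⟩
  obtain ⟨m, hm⟩ := ex_exp (val i) h0
  have h1 := hn g i
  have h2 : n g ≤ B := hB ⟨g, hg, rfl⟩
  rw [map_inv₀, hm, ← exp_neg, exp_le_exp] at h1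
  rw [hm, exp_le_exp]
  omega

/-- Elements without poles are fixed by a power of Frobenius. -/
theorem const_fix : ∃ r : ℕ, 0 < r ∧ ∀ k, r ∣ k → ∀ y : K, (∀ i, val i y ≤ 1) → y ^ q ^ k = y := by
  have hfin : {y : K | ∀ i, val i y ≤ 1}.Finite := by
    simpa using S.fin (fun _ => 0) (by simp)
  have := hfin.to_subtype
  let f : {y : K | ∀ i, val i y ≤ 1} → {y : K | ∀ i, val i y ≤ 1} := fun y =>
    ⟨y.1 ^ q, fun i => by
      rw [map_pow]
      exact pow_le_one₀ zero_le (y.2 i)⟩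
  have hf : Function.Injective f := fun x y h => by
    apply Subtype.ext
    apply S.frob_inj 1
    rw [pow_one]
    exact congrArg Subtype.val h
  let e : Equiv.Perm {y : K | ∀ i, val i y ≤ 1} :=
    Equiv.ofBijective f (Finite.injective_iff_bijective.1 hf)
  have he : ∀ (k : ℕ) (y : {y : K | ∀ i, val i y ≤ 1}), ((e ^ k) y).1 = y.1 ^ q ^ k := by
    intro k
    induction k with
    | zero => intro y; simp
    | succ k ih =>
      intro y
      rw [pow_succ', Equiv.Perm.mul_apply, pow_succ, pow_mul, ← ih]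
      rfl
  refine ⟨orderOf e, orderOf_pos e, fun k hk y hy => ?_⟩
  rw [← he k ⟨y, hy⟩, orderOf_dvd_iff_pow_eq_one.1 hk]
  rfl

/-- The component bound for an arbitrary pole order. -/
theorem comp' {Q k : ℕ} (hQ : Q = q ^ k) : ∃ γ : ι → ℕ, {i | γ i ≠ 0}.Finite ∧
    (∀ (i : ι) (m : ℤ) (c : Fin Q → K), val i (cs Q t c) ≤ exp ((Q : ℤ) * m) →
      ∀ d, val i (c d ^ Q) ≤ exp (Q * m + Q * γ i)) ∧
    ∀ (i : ι) (n : ℤ) (c : Fin Q → K), val i (cs Q t c) ≤ exp n →
      ∀ d, val i (c d ^ Q) ≤ exp (n + Q + Q * γ i) := by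
  obtain ⟨γ, hγ, h⟩ := S.comp Q k hQ
  have h1 : ∀ (i : ι) (m : ℤ) (c : Fin Q → K), val i (cs Q t c) ≤ exp ((Q : ℤ) * m) →
      ∀ d, val i (c d ^ Q) ≤ exp (Q * m + Q * γ i) := fun i m c hc d => by
    rw [← mul_add]
    exact val_pow_le _ (h i m c hc d) Q
  refine ⟨γ, hγ, h1, fun i n c hc d => ?_⟩
  obtain ⟨m, h2, h3⟩ := ex_ceil n (Q := Q) (hQ ▸ S.pow_pos k)
  exact exp_mono (h1 i m c (exp_mono hc h2) d) (by omega)

end Sys

end Pool.Agent.MP_a59382_lc.H11

end

-- part MP_a59382_lc.H11.Frob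
section

/-!
The powers `t ^ q ^ n` with `n` in a residue class modulo `k` form a diophantine set
(the argument of Pheidas, for an arbitrary global function field).
-/

set_option autoImplicit false

namespace Pool.Agent.MP_a59382_lc.H11

open WithZero
open scoped WithZero

variable {K : Type} [Field K]

/-- `a` has the form `u ^ Q - u`. -/
def AS (Q : ℕ) (a : K) : Prop := ∃ u : K, a = u ^ Q - u

/-- The two Artin-Schreier conditions. -/
def Phi (Q : ℕ) (τ x : K) : Prop := x ≠ 0 ∧ AS Q (x - τ) ∧ AS Q (x⁻¹ - τ⁻¹)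

theorem dio_AS (Q : ℕ) : Dio1 (AS (K := K) Q) :=
  Dio.ex1 (Dio.eq (PF.var _) (((PF.var _).pow Q).sub (PF.var _)))

theorem dio_Phi (hK : Aniso K) (Q : ℕ) (τ : K) : Dio1 (Phi Q τ) := by
  have : Dio (fun v : Unit → K => AS Q (v () - τ) ∧ ∃ z : K, v () * z = 1 ∧ AS Q (z - τ⁻¹)) :=
    Dio.and hK ((dio_AS Q).app ((PF.var _).sub (PF.const _)))
      (Dio.ex1 (Dio.and hK (Dio.eq ((PF.var _).mul (PF.var _)) (PF.const _))
        ((dio_AS Q).app ((PF.var _).sub (PF.const _)))))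
  refine this.congr fun v => ⟨fun h => ⟨h.2.1, (v ())⁻¹, mul_inv_cancel₀ h.1, h.2.2⟩, ?_⟩
  rintro ⟨h1, z, hz, h2⟩
  refine ⟨left_ne_zero_of_mul_eq_one hz, h1, ?_⟩
  rwa [← eq_inv_of_mul_eq_one_right hz]

namespace Sys

variable {q : ℕ} {t : K} {ι : Type} {val : ι → Valuation K ℤᵐ⁰} (S : Sys q t val)
include S

theorem as_zero (k : ℕ) : AS (q ^ k) (0 : K) := ⟨0, by rw [zero_pow (S.pow_pos k).ne', sub_zero]⟩

theorem as_add {k : ℕ} {a b : K} (ha : AS (q ^ k) a) (hb : AS (q ^ k) b) : AS (q ^ k) (a + b) := by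
  obtain ⟨u, rfl⟩ := ha
  obtain ⟨w, rfl⟩ := hb
  exact ⟨u + w, by rw [S.frob]; ring⟩

theorem as_sub {k : ℕ} {a b : K} (ha : AS (q ^ k) a) (hb : AS (q ^ k) b) : AS (q ^ k) (a - b) := by
  obtain ⟨u, rfl⟩ := ha
  obtain ⟨w, rfl⟩ := hb
  exact ⟨u - w, by rw [S.frob_sub]; ring⟩

theorem as_iter (k a : ℕ) (z : K) : AS (q ^ k) (z ^ q ^ (k * a) - z) := by
  induction a with
  | zero => simpa using S.as_zero k
  | succ a ih =>
    have := S.as_add ih ⟨z ^ q ^ (k * a), rfl⟩
    convert this using 1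
    rw [← pow_mul, ← pow_add, Nat.mul_succ]
    ring

theorem as_root {k : ℕ} (hk : 0 < k) {y : K} (h : AS (q ^ k) (y ^ q)) : AS (q ^ k) y := by
  obtain ⟨u, hu⟩ := h
  obtain ⟨k, rfl⟩ : ∃ k', k = k' + 1 := ⟨k - 1, by omega⟩
  have h1 : u = (u ^ q ^ k - y) ^ q ^ 1 := by
    rw [S.frob_sub, ← pow_mul, ← pow_add, pow_one, hu]
    ring
  refine ⟨u ^ q ^ k - y, S.frob_inj 1 ?_⟩
  rw [S.frob_sub 1 ((u ^ q ^ k - y) ^ q ^ (k + 1)), ← h1, ← pow_mul, mul_comm, pow_mul, ← h1,
    pow_one, hu]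

theorem phi_shift {k : ℕ} (a : ℕ) {τ x : K} :
    Phi (q ^ k) (τ ^ q ^ (k * a)) x ↔ Phi (q ^ k) τ x := by
  have h1 := S.as_iter k a τ
  have h2 := S.as_iter k a τ⁻¹
  rw [inv_pow] at h2
  constructor
  · rintro ⟨h0, h, h'⟩
    exact ⟨h0, by simpa using S.as_add h h1, by simpa using S.as_add h' h2⟩
  · rintro ⟨h0, h, h'⟩
    exact ⟨h0, by simpa using S.as_sub h h1, by simpa using S.as_sub h' h2⟩

theorem phi_root {k : ℕ} (hk : 0 < k) {τ x : K} (h : Phi (q ^ k) (τ ^ q) (x ^ q)) :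
    Phi (q ^ k) τ x := by
  obtain ⟨h0, h, h'⟩ := h
  have e := S.frob_sub 1 x τ
  have e' := S.frob_sub 1 x⁻¹ τ⁻¹
  rw [pow_one] at e e'
  refine ⟨fun hx => h0 (by rw [hx, zero_pow (by have := S.two_le; omega)]),
    S.as_root hk (by rwa [e]), S.as_root hk (by rwa [e', inv_pow, inv_pow])⟩

/-- Away from the zeros and poles of `t` the order of a solution is divisible by `q`. -/
theorem phi_ord {k j : ℕ} (hk : 0 < k) {x : K} (h : Phi (q ^ k) (t ^ q ^ j) x) {i : ι}
    (hi : val i t = 1) : ∃ m : ℤ, val i x = exp ((q : ℤ) * m) := by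
  obtain ⟨h0, ⟨u, hu⟩, ⟨w, hw⟩⟩ := h
  obtain ⟨k, rfl⟩ : ∃ k', k = k' + 1 := ⟨k - 1, by omega⟩
  have hQ : 2 ≤ q ^ (k + 1) := by
    have := S.pow_pos k
    have := S.two_le
    rw [pow_succ]
    nlinarith
  have hτ : val i (t ^ q ^ j) = 1 := by rw [map_pow, hi, one_pow]
  rcases lt_trichotomy (val i x) 1 with hx | hx | hx
  · have hx' : 1 < val i x⁻¹ := by
      rw [map_inv₀]
      exact one_lt_inv_iff₀.2 ⟨zero_lt_iff.2 ((Valuation.ne_zero_iff _).2 h0), hx⟩
    have e : val i (x⁻¹ - (t ^ q ^ j)⁻¹) = val i x⁻¹ :=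
      (val i).map_sub_eq_of_lt_left (by rw [map_inv₀, hτ, inv_one]; exact hx')
    obtain ⟨n, -, -, hn⟩ := as_pole (val i) hQ (u := w) (by rw [← hw, e]; exact hx')
    rw [← hw, e, map_inv₀, inv_eq_iff_eq_inv, ← exp_neg] at hn
    refine ⟨-(q ^ k * n), ?_⟩
    rw [hn]
    congr 1
    push_cast
    ring
  · exact ⟨0, by simpa using hx⟩
  · have e : val i (x - t ^ q ^ j) = val i x :=
      (val i).map_sub_eq_of_lt_left (by rw [hτ]; exact hx)
    obtain ⟨n, -, -, hn⟩ := as_pole (val i) hQ (u := u) (by rw [← hu, e]; exact hx)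
    rw [← hu, e] at hn
    refine ⟨q ^ k * n, ?_⟩
    rw [hn]
    congr 1
    push_cast
    ring

theorem comp_rhs {k : ℕ} (hk : 0 < k) (j : ℕ) (u : K) :
    ∃ e : Fin q → K, u ^ q ^ k + t ^ q ^ j = cs q t e ∧
      ∀ l : Fin q, (l : ℕ) ≠ 0 → e l = 0 ∨ e l = 1 := by
  have h2 := S.two_le
  obtain ⟨k, rfl⟩ : ∃ k', k = k' + 1 := ⟨k - 1, by omega⟩
  cases j with
  | zero =>
    refine ⟨Pi.single ⟨0, by omega⟩ (u ^ q ^ k) + Pi.single ⟨1, by omega⟩ 1, ?_, fun l hl => ?_⟩
    · rw [S.cs_add (pow_one q).symm, cs_single, cs_single, ← pow_mul, ← pow_succ]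
      simp
    · have : l ≠ ⟨0, by omega⟩ := fun h => hl (by rw [h])
      by_cases h1 : l = ⟨1, by omega⟩
      · right
        rw [Pi.add_apply, Pi.single_eq_of_ne this, h1]
        simp
      · left
        rw [Pi.add_apply, Pi.single_eq_of_ne this, Pi.single_eq_of_ne h1]
        simp
  | succ j =>
    refine ⟨Pi.single ⟨0, by omega⟩ (u ^ q ^ k + t ^ q ^ j), ?_, fun l hl => ?_⟩
    · have := S.frob 1 (u ^ q ^ k) (t ^ q ^ j)
      rw [pow_one] at this
      rw [cs_single, this, ← pow_mul, ← pow_mul, ← pow_succ, ← pow_succ]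
      simp
    · have : l ≠ ⟨0, by omega⟩ := fun h => hl (by rw [h])
      left
      rw [Pi.single_eq_of_ne this]

/-- For a solution that is not a `q`-th power, the poles of `x` are hardly larger than those
of `u`. -/
theorem star : ∃ C : ℕ, ∀ (k j : ℕ), 0 < k → ∀ x u : K, Phi (q ^ k) (t ^ q ^ j) x →
    x - t ^ q ^ j = u ^ q ^ k - u → (∀ y, x ≠ y ^ q) →
      ∀ (i : ι) (μ : ℕ), val i u ≤ exp (μ : ℤ) → val i x ≤ exp ((μ : ℤ) + C) := by
  classical
  have h2 := S.two_le
  obtain ⟨γ, hγ, hc1, hc2⟩ := S.comp' (pow_one q).symm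
  obtain ⟨G, hG⟩ := bdd_of_supp hγ
  have hA : {i | q * γ i + (if val i t = 1 then 0 else q) ≠ 0}.Finite := by
    refine (hγ.union (S.supp t S.t_ne)).subset fun i hi => ?_
    by_contra hn
    simp only [Set.mem_union, Set.mem_ofPred_eq, not_or, not_not] at hn
    simp [hn.1, hn.2] at hi
  obtain ⟨B, hB⟩ := S.bdd_below (S.fin _ hA)
  refine ⟨q + q * G + B, fun k j hk x u hx hu hn i μ hμ => ?_⟩
  obtain ⟨c, hc⟩ := S.span q 1 (pow_one q).symm x
  obtain ⟨c', hc'⟩ := S.span q 1 (pow_one q).symm u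
  obtain ⟨e, he, he'⟩ := S.comp_rhs hk j u
  have hsum : c + c' = e := by
    apply S.cs_inj (pow_one q).symm
    rw [S.cs_add (pow_one q).symm, ← hc, ← hc', ← he]
    linear_combination hu
  obtain ⟨l, hl, hl0⟩ : ∃ l : Fin q, (l : ℕ) ≠ 0 ∧ c l ≠ 0 := by
    by_contra hcon
    push Not at hcon
    apply hn (c ⟨0, by omega⟩)
    have : c = Pi.single ⟨0, by omega⟩ (c ⟨0, by omega⟩) := by
      funext d
      by_cases hd : d = ⟨0, by omega⟩
      · rw [hd, Pi.single_eq_same]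
      · rw [Pi.single_eq_of_ne hd]
        exact hcon d fun h => hd (Fin.ext h)
    rw [hc, this, cs_single]
    simp
  have hg : ∀ i', val i' (c l ^ q * x⁻¹) ≤
      exp ((q * γ i' + (if val i' t = 1 then 0 else q) : ℕ) : ℤ) := by
    intro i'
    by_cases ht : val i' t = 1
    · obtain ⟨m, hm⟩ := S.phi_ord hk hx ht
      have h3 := hc1 i' m c (by rw [← hc, hm]) l
      have h4 : val i' x⁻¹ ≤ exp (-((q : ℤ) * m)) := by rw [map_inv₀, hm, exp_neg]
      refine exp_mono (val_mul_le _ h3 h4) ?_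
      simp [ht]
    · obtain ⟨m, hm⟩ := ex_exp (val i') hx.1
      have h3 := hc2 i' m c (by rw [← hc, hm]) l
      have h4 : val i' x⁻¹ ≤ exp (-m) := by rw [map_inv₀, hm, exp_neg]
      refine exp_mono (val_mul_le _ h3 h4) ?_
      simp only [ht, if_false]
      push_cast
      omega
  have hlow := hB _ hg (mul_ne_zero (pow_ne_zero _ hl0) (inv_ne_zero hx.1)) i
  have hup : val i (c l ^ q) ≤ exp ((μ : ℤ) + q + q * γ i) := by
    have h3 := hc2 i μ c' (by rw [← hc']; exact hμ) l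
    have h4 : c l = e l - c' l := by rw [← hsum]; simp
    have h5 := S.frob_sub 1 (e l) (c' l)
    rw [pow_one] at h5
    rw [h4, h5]
    refine (val i).map_sub_le ?_ h3
    have h6 : val i (e l ^ q) ≤ 1 := by
      rcases he' l hl with h | h
      · simp [h, show q ≠ 0 by omega]
      · simp [h]
    refine h6.trans ?_
    rw [← exp_zero, exp_le_exp]
    positivity
  obtain ⟨m, hm⟩ := ex_exp (val i) hx.1
  have h4 : val i x⁻¹ ≤ exp (-m) := by rw [map_inv₀, hm, exp_neg]
  have h5 := hlow.trans (val_mul_le _ hup h4)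
  rw [exp_le_exp] at h5
  rw [hm, exp_le_exp]
  have h6 : (q : ℤ) * γ i ≤ q * G := by exact_mod_cast Nat.mul_le_mul_left q (hG i)
  push_cast
  omega

theorem exact_of_star {C E k j : ℕ} (hE : ∀ i, val i t ≤ exp (E : ℤ))
    (hfix : ∀ y : K, (∀ i, val i y ≤ 1) → y ^ q ^ k = y) (hj : j < k)
    (hk : (E + C) * E + C + 1 < q ^ k) {x u : K} (hu : x - t ^ q ^ j = u ^ q ^ k - u)
    (hs : ∀ (i : ι) (μ : ℕ), val i u ≤ exp (μ : ℤ) → val i x ≤ exp ((μ : ℤ) + C)) :
    x = t ^ q ^ j := by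
  have h2 := S.two_le
  have hQ : 2 ≤ q ^ k := by omega
  have hτ : ∀ i, val i (t ^ q ^ j) ≤ exp (((q ^ j : ℕ) : ℤ) * E) := fun i =>
    val_pow_le _ (hE i) _
  have step3 : ∀ (i : ι) (μ : ℕ), 1 ≤ μ → val i u = exp (μ : ℤ) → q ^ k * μ ≤ q ^ j * E := by
    intro i μ hμ e
    by_contra hlt
    rw [not_le] at hlt
    have e1 := as_val (val i) hQ hμ e
    have e2 : val i x = exp (((q ^ k : ℕ) : ℤ) * μ) := by
      have : x = u ^ q ^ k - u + t ^ q ^ j := by linear_combination hu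
      rw [this, (val i).map_add_eq_of_lt_left, e1]
      rw [e1]
      refine (hτ i).trans_lt (exp_lt_exp.2 ?_)
      exact_mod_cast hlt
    have h3 := hs i μ e.le
    rw [e2, exp_le_exp] at h3
    have h4 : q ^ k * μ ≤ μ + C := by exact_mod_cast h3
    nlinarith
  have hjk : q ^ j ≤ q ^ k := Nat.pow_le_pow_right (by omega) hj.le
  have huE : ∀ i, val i u ≤ exp (E : ℤ) := by
    intro i
    by_cases h : 1 < val i u
    · obtain ⟨μ, hμ, e⟩ := ex_pole _ h
      have h3 := step3 i μ hμ e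
      rw [e, exp_le_exp]
      have : q ^ k * μ ≤ q ^ k * E := h3.trans (Nat.mul_le_mul_right E hjk)
      exact_mod_cast Nat.le_of_mul_le_mul_left this (by omega)
    · exact (not_lt.1 h).trans (one_le_exp E)
  obtain ⟨a, rfl⟩ : ∃ a, k = j + (a + 1) := ⟨k - j - 1, by omega⟩
  have hz : (t + u ^ q ^ (a + 1)) ^ q ^ j = x + u := by
    rw [S.frob, ← pow_mul, ← pow_add, add_comm (a + 1) j]
    linear_combination -hu
  obtain ⟨i, hi⟩ : ∃ i, 1 < val i (t + u ^ q ^ (a + 1)) := by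
    by_contra hcon
    push Not at hcon
    have h3 := hfix _ hcon
    apply S.not_pow ((t + u ^ q ^ (a + 1)) ^ q ^ (j + a) - u ^ q ^ a)
    have h4 := S.frob_sub 1 ((t + u ^ q ^ (a + 1)) ^ q ^ (j + a)) (u ^ q ^ a)
    rw [pow_one] at h4
    rw [h4, ← pow_mul, ← pow_mul, ← pow_succ, ← pow_succ, add_assoc, h3]
    ring
  obtain ⟨ρ, hρ, e⟩ := ex_pole _ hi
  have h3 : val i (x + u) ≤ exp ((E : ℤ) + C) :=
    (val i).map_add_le (hs i E (huE i)) (exp_mono (huE i) (by omega))
  rw [← hz, map_pow, e, pow_exp, exp_le_exp] at h3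
  have h4 : q ^ j * ρ ≤ E + C := by exact_mod_cast h3
  have h5 : q ^ j ≤ E + C := by nlinarith
  have h6 : ∀ i, val i u ≤ 1 := by
    intro i'
    by_contra h
    obtain ⟨μ, hμ, e'⟩ := ex_pole _ (not_le.1 h)
    have h7 := step3 i' μ hμ e'
    have h8 : q ^ j * E ≤ (E + C) * E := Nat.mul_le_mul_right E h5
    nlinarith
  rw [hfix u h6, sub_self] at hu
  exact sub_eq_zero.1 hu

/-- The set of powers `t ^ q ^ n` with `n` in a residue class modulo `k`. -/
theorem phi_iff : ∃ r : ℕ, 0 < r ∧ ∀ k, 0 < k → r ∣ k → ∀ j < k, ∀ x : K,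
    Phi (q ^ k) (t ^ q ^ j) x ↔ ∃ n, n % k = j ∧ x = t ^ q ^ n := by
  obtain ⟨C, hC⟩ := S.star
  obtain ⟨E, hE⟩ := S.bdd t
  obtain ⟨r, hr, hfix⟩ := S.const_fix
  have h2 := S.two_le
  refine ⟨r * ((E + C) * E + C + 1), by positivity, fun k hk hrk => ?_⟩
  have hfix' := hfix k (dvd_trans (dvd_mul_right _ _) hrk)
  have hk' : (E + C) * E + C + 1 < q ^ k := by
    have h3 : (E + C) * E + C + 1 ≤ k := Nat.le_of_dvd hk (dvd_trans (dvd_mul_left _ _) hrk)
    exact h3.trans_lt (Nat.lt_pow_self (by omega))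
  have base : ∀ j < k, ∀ x : K, Phi (q ^ k) (t ^ q ^ j) x →
      ((∀ y, x ≠ y ^ q) ∨ ∀ i, val i x ≤ 1) → x = t ^ q ^ j := by
    intro j hj x hx h
    obtain ⟨u, hu⟩ := hx.2.1
    refine S.exact_of_star hE hfix' hj hk' hu fun i μ hμ => ?_
    rcases h with h | h
    · exact hC k j hk x u hx hu h i μ hμ
    · refine (h i).trans ?_
      rw [← exp_zero, exp_le_exp]
      positivity
  have key : ∀ (i : ι) (n : ℕ), ∀ j < k, ∀ x : K, 1 ≤ n → val i x = exp (n : ℤ) →
      Phi (q ^ k) (t ^ q ^ j) x → ∃ n, n % k = j ∧ x = t ^ q ^ n := by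
    intro i n
    induction n using Nat.strong_induction_on with
    | _ n ih =>
      intro j hj x hn e hx
      by_cases h : ∀ y, x ≠ y ^ q
      · exact ⟨j, Nat.mod_eq_of_lt hj, base j hj x hx (Or.inl h)⟩
      push Not at h
      obtain ⟨y, rfl⟩ := h
      have hy : 1 < val i y := by
        by_contra hy
        have : val i (y ^ q) ≤ 1 := by
          rw [map_pow]
          exact pow_le_one₀ zero_le (not_lt.1 hy)
        rw [e, ← exp_zero, exp_le_exp] at this
        omega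
      obtain ⟨n', hn', e'⟩ := ex_pole _ hy
      have hlt : n' < n := by
        rw [map_pow, e', pow_exp, exp_inj] at e
        have : q * n' = n := by exact_mod_cast e
        nlinarith
      obtain ⟨j', hj', hjj, hx'⟩ : ∃ j' < k, (j' + 1) % k = j ∧
          Phi (q ^ k) ((t ^ q ^ j') ^ q) (y ^ q) := by
        cases j with
        | zero =>
          refine ⟨k - 1, by omega, by rw [Nat.sub_add_cancel hk, Nat.mod_self], ?_⟩
          rw [← pow_mul, ← pow_succ, Nat.sub_add_cancel hk]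
          have := (S.phi_shift (k := k) 1 (τ := t) (x := y ^ q)).2 (by simpa using hx)
          simpa using this
        | succ j =>
          refine ⟨j, by omega, Nat.mod_eq_of_lt hj, ?_⟩
          rwa [← pow_mul, ← pow_succ]
      obtain ⟨m, hm, rfl⟩ := ih n' hlt j' hj' y hn' e' (S.phi_root hk hx')
      refine ⟨m + 1, ?_, by rw [← pow_mul, ← pow_succ]⟩
      rw [← hjj, ← hm, Nat.mod_add_mod]
  intro j hj x
  constructor
  · intro hx
    by_cases h : ∀ i, val i x ≤ 1
    · exact ⟨j, Nat.mod_eq_of_lt hj, base j hj x hx (Or.inr h)⟩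
    · push Not at h
      obtain ⟨i, hi⟩ := h
      obtain ⟨n, hn, e⟩ := ex_pole _ hi
      exact key i n j hj x hn e hx
  · rintro ⟨n, hn, rfl⟩
    have e : t ^ q ^ n = (t ^ q ^ j) ^ q ^ (k * (n / k)) := by
      rw [← pow_mul, ← pow_add, ← hn, Nat.mod_add_div]
    rw [← S.phi_shift (n / k), ← e]
    exact ⟨pow_ne_zero _ S.t_ne, by simpa using S.as_zero k, by simpa using S.as_zero k⟩

/-- The powers `t ^ q ^ n` with `n` in a union of residue classes form a diophantine set. -/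
theorem dio_pow : ∃ r : ℕ, 0 < r ∧ ∀ k, 0 < k → r ∣ k → ∀ A : ℕ → Prop,
    Dio1 (fun x : K => ∃ n, A (n % k) ∧ x = t ^ q ^ n) := by
  classical
  obtain ⟨r, hr, h⟩ := S.phi_iff
  refine ⟨r, hr, fun k hk hrk A => ?_⟩
  have := Dio.any ((Finset.range k).filter A)
    (S := fun j (v : Unit → K) => Phi (q ^ k) (t ^ q ^ j) (v ())) fun j => dio_Phi S.aniso _ _
  refine this.congr fun v => ⟨?_, ?_⟩
  · rintro ⟨n, hn, e⟩
    have hlt := Nat.mod_lt n hk
    exact ⟨n % k, by simp [hlt, hn], (h k hk hrk _ hlt _).2 ⟨n, rfl, e⟩⟩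
  · rintro ⟨j, hj, hx⟩
    simp only [Finset.mem_filter, Finset.mem_range] at hj
    obtain ⟨n, hn, e⟩ := (h k hk hrk j hj.1 _).1 hx
    exact ⟨n, hn ▸ hj.2, e⟩

end Sys

end Pool.Agent.MP_a59382_lc.H11

end

-- part MP_a59382_lc.H11.Machine
section

/-!
Digit machines. The equation `cs Q t y = a + ∑ d ∈ s, T ^ d * y d` bounds the poles of the
unknowns `y d`; on powers of `t` it removes the last base `Q` digit `d` of the exponent and
multiplies by `T ^ d`. Two such equations produce every polynomial in `t`.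
-/

set_option autoImplicit false

namespace Pool.Agent.MP_a59382_lc.H11

open WithZero
open scoped WithZero

variable {K : Type} [Field K]

/-- `m` has `k` digits in base `Q`, none of them equal to `μ`. -/
def Ok (Q μ : ℕ) : ℕ → ℕ → Prop
  | 0, m => m = 0
  | k + 1, m => m % Q ≠ μ ∧ Ok Q μ k (m / Q)

theorem ok_cons {Q μ k d m : ℕ} (hd : d < Q) (hμ : d ≠ μ) (h : Ok Q μ k m) :
    Ok Q μ (k + 1) (d + Q * m) := by
  refine ⟨?_, ?_⟩
  · rwa [Nat.add_mul_mod_self_left, Nat.mod_eq_of_lt hd]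
  · rwa [Nat.add_mul_div_left _ _ (by omega), Nat.div_eq_of_lt hd, zero_add]

theorem ok_append {Q μ l b : ℕ} (hQ : 0 < Q) (hb : Ok Q μ l b) :
    ∀ k a, Ok Q μ k a → Ok Q μ (l + k) (a + Q ^ k * b) := by
  intro k
  induction k with
  | zero =>
    intro a ha
    rw [show a = 0 from ha]
    simpa using hb
  | succ k ih =>
    intro a ha
    have := ok_cons (Nat.mod_lt a hQ) ha.1 (ih _ ha.2)
    have e : a % Q + Q * (a / Q + Q ^ k * b) = a + Q ^ (k + 1) * b := by
      have := Nat.mod_add_div a Q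
      rw [mul_add, ← add_assoc, this]
      ring
    rwa [e] at this

theorem ok_split {Q : ℕ} (hQ : 4 ≤ Q) : ∀ n e, e < Q ^ n →
    ∃ e' e'', e = e' + e'' ∧ Ok Q 2 n e' ∧ Ok Q (Q - 1) n e' ∧ Ok Q (Q - 1) n e'' := by
  intro n
  induction n with
  | zero =>
    intro e he
    exact ⟨0, 0, by simpa using he, rfl, rfl, rfl⟩
  | succ n ih =>
    intro e he
    obtain ⟨a, b, hab, h1, h2, h3⟩ := ih (e / Q)
      (Nat.div_lt_of_lt_mul (by rwa [pow_succ'] at he))
    have hd := Nat.mod_lt e (show 0 < Q by omega)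
    refine ⟨min (e % Q) 1 + Q * a, (e % Q - min (e % Q) 1) + Q * b, ?_,
      ok_cons (by omega) (by omega) h1, ok_cons (by omega) (by omega) h2,
      ok_cons (by omega) (by omega) h3⟩
    have := Nat.mod_add_div e Q
    rw [hab, mul_add] at this
    omega

/-- One step of the machine. -/
def step (Q : ℕ) (T : K) (s : Finset (Fin Q)) (y : Fin Q → K) : K := ∑ d ∈ s, T ^ (d : ℕ) * y d

theorem step_add {Q : ℕ} (T : K) (s : Finset (Fin Q)) (y y' : Fin Q → K) :
    step Q T s (y + y') = step Q T s y + step Q T s y' := by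
  simp [step, mul_add, Finset.sum_add_distrib]

theorem step_smul {Q : ℕ} (T x : K) (s : Finset (Fin Q)) (y : Fin Q → K) :
    step Q T s (fun d => x * y d) = x * step Q T s y := by
  unfold step
  rw [Finset.mul_sum]
  exact Finset.sum_congr rfl fun d _ => by ring

theorem step_single {Q : ℕ} (T x : K) (μ d : Fin Q) :
    step Q T (Finset.univ.erase μ) (Pi.single d x) = if d = μ then 0 else T ^ (d : ℕ) * x := by
  unfold step
  split_ifs with h
  · refine Finset.sum_eq_zero fun b hb => ?_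
    rw [Pi.single_eq_of_ne (h ▸ Finset.ne_of_mem_erase hb), mul_zero]
  · rw [Finset.sum_eq_single d]
    · simp
    · intro b _ hb
      simp [hb]
    · simp [h]

theorem run {Q : ℕ} (t : K) (hadd : ∀ x y : K, (x + y) ^ Q = x ^ Q + y ^ Q) (μ : Fin Q) :
    ∀ k c m w : ℕ, Ok Q μ k m → ∃ y : Fin Q → K, y μ = t ^ (w + Q ^ c * m) ∧
      cs Q t y = t ^ (m + μ * Q ^ k + Q ^ (k + 1) * w) +
        step Q (t ^ Q ^ (c + k)) (Finset.univ.erase μ) y := by
  intro k
  induction k with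
  | zero =>
    intro c m w hm
    rw [show m = 0 from hm]
    refine ⟨Pi.single μ (t ^ w), by simp, ?_⟩
    rw [cs_single, step_single, if_pos rfl, ← pow_mul, ← pow_add]
    simp only [pow_zero, mul_one, zero_add, pow_one, add_zero]
    congr 1
    ring
  | succ k ih =>
    intro c m w hm
    have hQ : 0 < Q := μ.pos
    obtain ⟨y, hy, e⟩ := ih (c + 1) (m / Q) (w + m % Q * Q ^ c) hm.2
    have hd : (⟨m % Q, Nat.mod_lt m hQ⟩ : Fin Q) ≠ μ := fun h => hm.1 (congrArg Fin.val h)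
    have hm' := Nat.mod_add_div m Q
    refine ⟨y + Pi.single ⟨m % Q, Nat.mod_lt m hQ⟩
      (t ^ (m / Q + μ * Q ^ k + Q ^ (k + 1) * w)), ?_, ?_⟩
    · rw [Pi.add_apply, Pi.single_eq_of_ne hd.symm, add_zero, hy]
      congr 1
      calc w + m % Q * Q ^ c + Q ^ (c + 1) * (m / Q)
          = w + Q ^ c * (m % Q + Q * (m / Q)) := by ring
        _ = _ := by rw [hm']
    · rw [cs_add' t hadd, cs_single, step_add, step_single, if_neg hd, e,
        show c + 1 + k = c + (k + 1) by ring]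
      have e1 : t ^ (m / Q + μ * Q ^ k + Q ^ (k + 1) * (w + m % Q * Q ^ c)) =
          (t ^ Q ^ (c + (k + 1))) ^ (m % Q) * t ^ (m / Q + μ * Q ^ k + Q ^ (k + 1) * w) := by
        rw [← pow_mul, ← pow_add]
        congr 1
        ring
      have e2 : (t ^ (m / Q + μ * Q ^ k + Q ^ (k + 1) * w)) ^ Q * t ^ (m % Q) =
          t ^ (m + μ * Q ^ (k + 1) + Q ^ (k + 1 + 1) * w) := by
        rw [← pow_mul, ← pow_add]
        congr 1
        calc (m / Q + μ * Q ^ k + Q ^ (k + 1) * w) * Q + m % Q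
            = (m % Q + Q * (m / Q)) + μ * Q ^ (k + 1) + Q ^ (k + 1 + 1) * w := by ring
          _ = _ := by rw [hm']
      simp only []
      rw [e1, e2]
      ring

/-- `f` is an output of the pair of machines. -/
def Sol (Q : ℕ) (μ₁ μ₂ : Fin Q) (t T T₁ f : K) : Prop :=
  ∃ z : Fin Q → K, ∃ y : Fin Q → K, cs Q t z = step Q T₁ Finset.univ z ∧
    cs Q t y = z μ₁ + step Q T (Finset.univ.erase μ₂) y ∧ y μ₂ = f

theorem sol_zero {Q : ℕ} (μ₁ μ₂ : Fin Q) (t T T₁ : K) : Sol Q μ₁ μ₂ t T T₁ 0 :=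
  ⟨0, 0, by simp [cs_zero, step], by simp [cs_zero, step], rfl⟩

theorem sol_add {Q : ℕ} {μ₁ μ₂ : Fin Q} {t T T₁ f g : K}
    (hadd : ∀ x y : K, (x + y) ^ Q = x ^ Q + y ^ Q)
    (hf : Sol Q μ₁ μ₂ t T T₁ f) (hg : Sol Q μ₁ μ₂ t T T₁ g) : Sol Q μ₁ μ₂ t T T₁ (f + g) := by
  obtain ⟨z, y, h1, h2, h3⟩ := hf
  obtain ⟨z', y', h1', h2', h3'⟩ := hg
  refine ⟨z + z', y + y', ?_, ?_, by rw [Pi.add_apply, h3, h3']⟩
  · rw [cs_add' t hadd, step_add, h1, h1']
  · rw [cs_add' t hadd, step_add, h2, h2', Pi.add_apply]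
    ring

theorem sol_smul {Q : ℕ} {μ₁ μ₂ : Fin Q} {t T T₁ f c : K} (hc : c ^ Q = c)
    (hf : Sol Q μ₁ μ₂ t T T₁ f) : Sol Q μ₁ μ₂ t T T₁ (c * f) := by
  obtain ⟨z, y, h1, h2, h3⟩ := hf
  refine ⟨fun d => c * z d, fun d => c * y d, ?_, ?_, by rw [← h3]⟩
  · rw [cs_smul, step_smul, h1, hc]
  · rw [cs_smul, step_smul, h2, hc]
    ring

theorem sol_pow {Q : ℕ} (hQ : 4 ≤ Q) (t : K) (hadd : ∀ x y : K, (x + y) ^ Q = x ^ Q + y ^ Q)
    {n e : ℕ} (he : e < Q ^ n) :
    Sol Q ⟨Q - 1, by omega⟩ ⟨2, by omega⟩ t (t ^ Q ^ n) (t ^ Q ^ (n + 1 + n)) (t ^ e) := by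
  obtain ⟨a, b, rfl, h1, h2, h3⟩ := ok_split hQ n e he
  have h4 : Ok Q (Q - 1) (n + 1 + n) (a + Q ^ n * (2 + Q * b)) :=
    ok_append (by omega) (ok_cons (by omega) (by omega) h3) n a h2
  obtain ⟨z, hz, ez⟩ := run t hadd ⟨Q - 1, by omega⟩ (n + 1 + n) 0 _ 0 h4
  obtain ⟨y, hy, ey⟩ := run t hadd ⟨2, by omega⟩ n 0 a b h1
  refine ⟨z, y, ?_, ?_, ?_⟩
  · rw [ez, zero_add]
    unfold step
    rw [← Finset.add_sum_erase Finset.univ _ (Finset.mem_univ (⟨Q - 1, by omega⟩ : Fin Q)), hz,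
      ← pow_mul, ← pow_add]
    congr 2
    simp only []
    ring
  · rw [ey, zero_add, hz]
    congr 2
    simp only []
    ring
  · rw [hy]
    congr 1
    ring

theorem sol_poly {F : Type} [Field F] (φ : Polynomial F →+* K) {Q : ℕ} (hQ : 4 ≤ Q) {t : K}
    (ht : φ Polynomial.X = t) (hadd : ∀ x y : K, (x + y) ^ Q = x ^ Q + y ^ Q)
    (hF : ∀ c : F, φ (Polynomial.C c) ^ Q = φ (Polynomial.C c)) (f : Polynomial F) :
    ∃ n, Sol Q ⟨Q - 1, by omega⟩ ⟨2, by omega⟩ t (t ^ Q ^ n) (t ^ Q ^ (n + 1 + n)) (φ f) := by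
  refine ⟨f.natDegree + 1, ?_⟩
  conv => enter [7]; rw [f.as_sum_range_C_mul_X_pow, map_sum]
  refine Finset.sum_induction _ _ (fun a b ha hb => sol_add hadd ha hb) (sol_zero _ _ _ _ _)
    fun e he => ?_
  rw [map_mul, map_pow, ht]
  refine sol_smul (hF _) (sol_pow hQ t hadd ?_)
  exact (Finset.mem_range.1 he).trans (Nat.lt_pow_self (by omega))

theorem dio_sol (hK : Aniso K) {α : Type} {Q : ℕ} (μ₁ μ₂ : Fin Q) (t : K)
    {T T₁ f : (α → K) → K} (hT : PF T) (hT₁ : PF T₁) (hf : PF f) :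
    Dio (fun v => Sol Q μ₁ μ₂ t (T v) (T₁ v) (f v)) := by
  unfold Sol cs step
  refine Dio.ex (Dio.ex (Dio.and hK (Dio.eq ?_ ?_) (Dio.and hK (Dio.eq ?_ ?_) (Dio.eq ?_ ?_))))
  · exact PF.sum _ fun d => ((PF.var _).pow _).mul (PF.const _)
  · exact PF.sum _ fun d => ((hT₁.comp fun a => PF.var _).pow _).mul (PF.var _)
  · exact PF.sum _ fun d => ((PF.var _).pow _).mul (PF.const _)
  · exact (PF.var _).add (PF.sum _ fun d => ((hT.comp fun a => PF.var _).pow _).mul (PF.var _))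
  · exact PF.var _
  · exact hf.comp fun a => PF.var _

namespace Sys

variable {q : ℕ} {t : K} {ι : Type} {val : ι → Valuation K ℤᵐ⁰} (S : Sys q t val)
include S

/-- The machine equation bounds the poles of the unknowns. -/
theorem sound {Q k : ℕ} (hQ : Q = q ^ k) (h2 : 2 ≤ Q) : ∃ β : ℕ, ∀ (i : ι) (T a : K)
    (s : Finset (Fin Q)) (y : Fin Q → K), val i T ≤ 1 → val i a ≤ exp (β : ℤ) →
      cs Q t y = a + step Q T s y → ∀ d, val i (y d) ≤ exp (β : ℤ) := by
  obtain ⟨γ, hγ, hc⟩ := S.comp Q k hQ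
  obtain ⟨G, hG⟩ := bdd_of_supp hγ
  refine ⟨2 * G + 1, fun i T a s y hT ha e => ?_⟩
  have key : ∀ M : ℕ, (∀ d, val i (y d) ≤ exp (M : ℤ)) →
      ∀ d, val i (y d) ≤ exp ((2 * G + 1 : ℕ) : ℤ) := by
    intro M
    induction M using Nat.strong_induction_on with
    | _ M ih =>
      intro hM
      by_cases hle : M ≤ 2 * G + 1
      · exact fun d => exp_mono (hM d) (by exact_mod_cast hle)
      refine ih (M - 1) (by omega) fun d => ?_
      have h3 : val i (cs Q t y) ≤ exp (M : ℤ) := by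
        rw [e]
        refine (val i).map_add_le (exp_mono ha (by omega)) ?_
        refine (val i).map_sum_le fun b _ => ?_
        rw [map_mul, map_pow]
        exact (mul_le_mul' (pow_le_one₀ zero_le hT) (hM b)).trans (one_mul _).le
      have h4 : (M : ℤ) ≤ (Q : ℤ) * ((M - 1 - G : ℕ) : ℤ) := by
        have : M ≤ Q * (M - 1 - G) := by
          have : 2 * (M - 1 - G) ≤ Q * (M - 1 - G) := Nat.mul_le_mul_right _ h2
          omega
        exact_mod_cast this
      have h5 := hG i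
      exact exp_mono (hc i _ y (exp_mono h3 h4) d) (by omega)
  choose n hn using fun d => ex_le (val i) (y d)
  obtain ⟨M, hM⟩ := (Set.finite_range n).bddAbove
  refine key M fun d => exp_mono (hn d) ?_
  exact_mod_cast hM ⟨d, rfl⟩

/-- A diophantine set that contains all polynomials in `t` and consists of elements that are
integral wherever `t` is. -/
theorem dio_int {F : Type} [Field F] (φ : Polynomial F →+* K) (ht : φ Polynomial.X = t)
    (hF : ∀ c : F, φ (Polynomial.C c) ^ q = φ (Polynomial.C c)) :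
    ∃ X : K → Prop, Dio1 X ∧ (∀ f : Polynomial F, X (φ f)) ∧
      ∀ y, X y → ∀ i, val i t ≤ 1 → val i y ≤ 1 := by
  obtain ⟨r, hr, hD⟩ := S.dio_pow
  have h2 := S.two_le
  have hQ : 4 ≤ q ^ 2 := by nlinarith
  obtain ⟨β, hβ⟩ := S.sound (Q := q ^ 2) rfl (by omega)
  have hD' : Dio1 (fun x : K => ∃ n, x = t ^ q ^ n) :=
    (hD r hr dvd_rfl fun _ => True).congr fun x => by simp
  refine ⟨fun f => ∃ T : K, ∃ T₁ : K, (∃ n, T = t ^ q ^ n) ∧ (∃ n, T₁ = t ^ q ^ n) ∧
    Sol (q ^ 2) ⟨q ^ 2 - 1, by omega⟩ ⟨2, by omega⟩ t T T₁ (f ^ (β + 1)), ?_, ?_, ?_⟩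
  · exact Dio.ex1 (Dio.ex1 (Dio.and S.aniso (hD'.app (PF.var _)) (Dio.and S.aniso
      (hD'.app (PF.var _)) (dio_sol S.aniso _ _ t (PF.var _) (PF.var _) ((PF.var _).pow _)))))
  · intro f
    obtain ⟨n, hn⟩ := sol_poly φ hQ ht (S.frob 2)
      (fun c : F => by rw [sq, pow_mul, hF, hF]) (f ^ (β + 1))
    rw [map_pow] at hn
    exact ⟨_, _, ⟨2 * n, by rw [← pow_mul]⟩, ⟨2 * (n + 1 + n), by rw [← pow_mul]⟩, hn⟩
  · rintro f ⟨T, T₁, ⟨n, rfl⟩, ⟨n', rfl⟩, z, y, h3, h4, h5⟩ i hi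
    have hT : ∀ n, val i (t ^ q ^ n) ≤ 1 := fun n => by
      rw [map_pow]
      exact pow_le_one₀ zero_le hi
    have h6 := hβ i _ 0 _ z (hT n') (by simp) (by rw [zero_add]; exact h3)
    have h7 := hβ i _ _ _ y (hT n) (h6 _) h4 ⟨2, by omega⟩
    by_contra hlt
    obtain ⟨m, hm, e⟩ := ex_pole _ (not_le.1 hlt)
    rw [h5, map_pow, e, pow_exp, exp_le_exp] at h7
    have : (β + 1) * m ≤ β := by exact_mod_cast h7
    nlinarith

/-- A uniform bound for the order of vanishing of `t ^ q ^ c - t`. -/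
theorem theta_low : ∃ N : ℕ, ∀ (i : ι) (c : ℕ), 0 < c →
    exp (-(N : ℤ)) ≤ val i (t ^ q ^ c - t) := by
  obtain ⟨γ, hγ, hc⟩ := S.comp q 1 (pow_one q).symm
  obtain ⟨G, hG⟩ := bdd_of_supp hγ
  have h2 := S.two_le
  refine ⟨q * (G + 1), fun i c h0 => ?_⟩
  obtain ⟨c, rfl⟩ : ∃ c', c = c' + 1 := ⟨c - 1, by omega⟩
  by_contra hlt
  have e : t ^ q ^ (c + 1) - t =
      cs q t (Pi.single ⟨0, by omega⟩ (t ^ q ^ c) + Pi.single ⟨1, by omega⟩ (-1)) := by
    have := S.frob_neg 1 1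
    rw [pow_one] at this
    rw [S.cs_add (pow_one q).symm, cs_single, cs_single, this, ← pow_mul, ← pow_succ]
    simp [sub_eq_add_neg]
  have h3 := hc i (-(G + 1)) _ (by
    rw [← e]
    refine exp_mono (not_le.1 hlt).le ?_
    push_cast
    linarith) ⟨1, by omega⟩
  have h4 : (⟨1, by omega⟩ : Fin q) ≠ ⟨0, by omega⟩ := by simp
  rw [Pi.add_apply, Pi.single_eq_of_ne h4, Pi.single_eq_same, zero_add, Valuation.map_neg,
    map_one, ← exp_zero, exp_le_exp] at h3
  have := hG i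
  omega

end Sys

end Pool.Agent.MP_a59382_lc.H11

end

-- part MP_a59382_lc.H11.Comp
section

/-!
Components with respect to the basis `1, t, ..., t ^ (Q - 1)` of `K` over `K ^ Q`.
-/

set_option autoImplicit false

namespace Pool.Agent.MP_a59382_lc.H11

open WithZero Polynomial IsDedekindDomain
open scoped WithZero

section General

variable {K : Type} [Field K]

theorem sum_pow' {Q : ℕ} (hQ : Q ≠ 0) (hadd : ∀ x y : K, (x + y) ^ Q = x ^ Q + y ^ Q) {J : Type}
    (s : Finset J) (f : J → K) : (∑ j ∈ s, f j) ^ Q = ∑ j ∈ s, f j ^ Q := by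
  classical
  induction s using Finset.induction_on with
  | empty => simp [hQ]
  | insert a s ha ih => rw [Finset.sum_insert ha, Finset.sum_insert ha, hadd, ih]

theorem cs_map {L : Type} [Field L] (φ : L →+* K) {Q : ℕ} (t : L) (c : Fin Q → L) :
    φ (cs Q t c) = cs Q (φ t) (fun d => φ (c d)) := by
  simp [cs]

theorem cs_basis {L : Type} [Field L] (φ : L →+* K) {Q : ℕ} (hQ : Q ≠ 0)
    (hadd : ∀ x y : K, (x + y) ^ Q = x ^ Q + y ^ Q) (t : L) {J : Type} [Fintype J]
    (a : Fin Q → J → L) (b : J → K) :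
    cs Q (φ t) (fun d => ∑ j, φ (a d j) * b j) = ∑ j, φ (cs Q t fun d => a d j) * b j ^ Q := by
  simp only [cs, sum_pow' hQ hadd, map_sum, Finset.sum_mul, map_mul, map_pow]
  rw [Finset.sum_comm]
  refine Finset.sum_congr rfl fun j _ => Finset.sum_congr rfl fun d _ => ?_
  ring

theorem cs_poly {F : Type} [Field F] (φ : F[X] →+* K) {Q : ℕ} (hQ : Q ≠ 0)
    (hadd : ∀ x y : K, (x + y) ^ Q = x ^ Q + y ^ Q)
    (hF : ∀ c : F, φ (C c) ^ Q = φ (C c)) (f : F[X]) :
    ∃ h : Fin Q → F[X], φ f = cs Q (φ X) (fun d => φ (h d)) := by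
  induction f using Polynomial.induction_on' with
  | add f g hf hg =>
    obtain ⟨h, e⟩ := hf
    obtain ⟨h', e'⟩ := hg
    refine ⟨h + h', ?_⟩
    rw [map_add, e, e', ← cs_add' _ hadd]
    congr 1
    funext d
    simp
  | monomial n c =>
    have hd : n % Q < Q := Nat.mod_lt n (Nat.pos_of_ne_zero hQ)
    refine ⟨Pi.single ⟨n % Q, hd⟩ (C c * X ^ (n / Q)), ?_⟩
    have e : (fun d => φ ((Pi.single ⟨n % Q, hd⟩ (C c * X ^ (n / Q)) : Fin Q → F[X]) d)) =
        Pi.single ⟨n % Q, hd⟩ (φ (C c * X ^ (n / Q))) := by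
      funext d
      by_cases h : d = ⟨n % Q, hd⟩
      · rw [h, Pi.single_eq_same, Pi.single_eq_same]
      · rw [Pi.single_eq_of_ne h, Pi.single_eq_of_ne h, map_zero]
    rw [e, cs_single, ← C_mul_X_pow_eq_monomial, map_mul, map_mul, map_pow, map_pow, mul_pow, hF,
      ← pow_mul, mul_assoc, ← pow_add, Nat.div_add_mod']

/-- At a simple pole of `t` the terms of `cs` cannot cancel. -/
theorem term_le (w : Valuation K ℤᵐ⁰) {t : K} (ht : w t = exp (1 : ℤ)) {Q : ℕ}
    (c : Fin Q → K) (d : Fin Q) : w (c d ^ Q * t ^ (d : ℕ)) ≤ w (cs Q t c) := by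
  obtain ⟨d₀, -, h0⟩ := Finset.exists_max_image Finset.univ
    (fun b : Fin Q => w (c b ^ Q * t ^ (b : ℕ))) ⟨d, Finset.mem_univ _⟩
  have hv : ∀ (b : Fin Q) (m : ℤ), w (c b) = exp m →
      w (c b ^ Q * t ^ (b : ℕ)) = exp ((Q : ℤ) * m + (b : ℕ)) := by
    intro b m hm
    rw [map_mul, map_pow, map_pow, hm, ht, pow_exp, pow_exp, ← exp_add, mul_one]
  have hQ : Q ≠ 0 := d.pos.ne'
  by_cases hc : c d₀ = 0
  · refine (h0 d (Finset.mem_univ _)).trans ?_
    simp [hc, hQ]
  obtain ⟨m, hm⟩ := ex_exp w hc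
  refine (h0 d (Finset.mem_univ _)).trans (le_of_eq ?_)
  symm
  refine w.map_sum_eq_of_lt (Finset.mem_univ d₀) fun b hb => ?_
  have hb' : b ≠ d₀ := by simpa using hb
  refine lt_of_le_of_ne (h0 b (Finset.mem_univ _)) fun e => hb' ?_
  by_cases hc' : c b = 0
  · rw [hv d₀ m hm, hc', zero_pow hQ, zero_mul, map_zero] at e
    exact absurd e.symm exp_ne_zero
  obtain ⟨m', hm'⟩ := ex_exp w hc'
  rw [hv d₀ m hm, hv b m' hm', exp_inj] at e
  have h1 : ((b : ℕ) : ℤ) % Q = ((d₀ : ℕ) : ℤ) % Q := by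
    rw [← Int.mul_add_emod_self_left (Q : ℤ) m' _, e, Int.mul_add_emod_self_left]
  have h2 : (b : ℕ) % Q = (d₀ : ℕ) % Q := by exact_mod_cast h1
  rw [Nat.mod_eq_of_lt b.2, Nat.mod_eq_of_lt d₀.2] at h2
  exact Fin.ext h2

theorem comp_le_one (w : Valuation K ℤᵐ⁰) {t : K} (ht : w t = exp (1 : ℤ)) {Q : ℕ}
    (c : Fin Q → K) (h : w (cs Q t c) ≤ 1) (d : Fin Q) : w (c d) ≤ 1 := by
  have h1 := (term_le w ht c d).trans h
  by_contra hlt
  obtain ⟨n, hn, e⟩ := ex_pole w (not_le.1 hlt)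
  rw [map_mul, map_pow, map_pow, e, ht, pow_exp, pow_exp, ← exp_add, ← exp_zero,
    exp_le_exp] at h1
  have h2 : (0 : ℤ) < Q := by exact_mod_cast d.pos
  have h3 : (1 : ℤ) ≤ n := by exact_mod_cast hn
  have h4 : (0 : ℤ) ≤ (d : ℕ) := by positivity
  nlinarith

theorem indep_of_val (w : Valuation K ℤᵐ⁰) {t : K} (ht : w t = exp (1 : ℤ)) {Q : ℕ}
    (c : Fin Q → K) (h : cs Q t c = 0) : c = 0 := by
  funext d
  have h1 := term_le w ht c d
  have h2 : t ≠ 0 := by
    rintro rfl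
    rw [map_zero] at ht
    exact absurd ht.symm exp_ne_zero
  rw [h, map_zero, le_zero_iff, Valuation.zero_iff, mul_eq_zero] at h1
  rcases h1 with h1 | h1
  · exact pow_eq_zero_iff d.pos.ne' |>.1 h1
  · exact absurd h1 (pow_ne_zero _ h2)

end General

section Local

variable {K : Type} [Field K] {O : Type} [CommRing O] [IsDedekindDomain O] [Algebra O K]
  [IsFractionRing O K]

theorem supp_finite {y : K} (hy : y ≠ 0) :
    {v : HeightOneSpectrum O | v.valuation K y ≠ 1}.Finite := by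
  obtain ⟨a, b, hb, rfl⟩ := IsFractionRing.div_surjective (A := O) y
  have hb0 : b ≠ 0 := nonZeroDivisors.ne_zero hb
  have ha0 : a ≠ 0 := by
    rintro rfl
    simp at hy
  have key : ∀ r : O, r ≠ 0 → {v : HeightOneSpectrum O | r ∈ v.asIdeal}.Finite := fun r hr =>
    (Ideal.finite_factors (I := Ideal.span {r}) (by simpa using hr)).subset fun v hv =>
      Ideal.dvd_span_singleton.2 hv
  refine ((key a ha0).union (key b hb0)).subset fun v hv => ?_
  by_contra hn
  simp only [Set.mem_union, Set.mem_ofPred_eq, not_or] at hn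
  apply hv
  rw [map_div₀, (v.valuation_eq_one_iff_notMem (K := K)).2 hn.1,
    (v.valuation_eq_one_iff_notMem (K := K)).2 hn.2, div_one]

theorem val_le_one (v : HeightOneSpectrum O) (r : O) : v.valuation K (algebraMap O K r) ≤ 1 :=
  v.valuation_le_one r

theorem val_lt_one (v : HeightOneSpectrum O) (r : O) :
    v.valuation K (algebraMap O K r) < 1 ↔ r ∈ v.asIdeal :=
  v.valuation_lt_one_iff_mem r

/-- The components of a locally integral element have bounded denominators. -/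
theorem local_comp {R : Type} [CommRing R] [Algebra R O] [Module.Finite R O] {Q : ℕ} (hQ : Q ≠ 0)
    {t : K} (hadd : ∀ x y : K, (x + y) ^ Q = x ^ Q + y ^ Q)
    (hspan : ∀ y : K, ∃ c : Fin Q → K, y = cs Q t c)
    (hind : ∀ c : Fin Q → K, cs Q t c = 0 → c = 0)
    (hR : ∀ a : R, ∃ c : Fin Q → O, algebraMap O K (algebraMap R O a) =
      cs Q t fun d => algebraMap O K (c d)) :
    ∃ γ : HeightOneSpectrum O → ℕ, {v | γ v ≠ 0}.Finite ∧
      ∀ (v : HeightOneSpectrum O) (m : ℤ) (c : Fin Q → K),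
        v.valuation K (cs Q t c) ≤ exp ((Q : ℤ) * m) →
          ∀ d, v.valuation K (c d) ≤ exp (m + γ v) := by
  classical
  obtain ⟨n, ω, hω⟩ := Module.Finite.exists_fin (R := R) (M := O)
  choose W hW using fun j => hspan (algebraMap O K (ω j))
  obtain ⟨δ, hδ⟩ := IsLocalization.exist_integer_multiples_of_finite (nonZeroDivisors O)
    (fun x : Fin n × Fin Q × Fin 2 => W x.1 x.2.1 * t ^ (x.2.2 : ℕ))
  have hδ0 : algebraMap O K δ ≠ 0 := IsFractionRing.to_map_ne_zero_of_mem_nonZeroDivisors δ.2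
  let Good : K → Prop := fun y => ∃ c : Fin Q → K, y = cs Q t c ∧
    ∀ d, algebraMap O K δ * c d ∈ (algebraMap O K).range
  have g0 : Good 0 := ⟨0, (cs_zero t).symm, fun d => by simp⟩
  have gadd : ∀ x y, Good x → Good y → Good (x + y) := by
    rintro _ _ ⟨c, rfl, hc⟩ ⟨c', rfl, hc'⟩
    refine ⟨c + c', (cs_add' t hadd _ _).symm, fun d => ?_⟩
    rw [Pi.add_apply, mul_add]
    exact add_mem (hc d) (hc' d)
  have gterm : ∀ (a : O) (j : Fin n) (d d' : Fin Q),
      Good (algebraMap O K a ^ Q * t ^ (d : ℕ) * (W j d' ^ Q * t ^ (d' : ℕ))) := by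
    intro a j d d'
    have h1 : ((d : ℕ) + d') % Q < Q := Nat.mod_lt _ d.pos
    have h2 : ((d : ℕ) + d') / Q < 2 := Nat.div_lt_of_lt_mul (by omega)
    refine ⟨Pi.single ⟨_, h1⟩ (algebraMap O K a * (W j d' * t ^ (((d : ℕ) + d') / Q))), ?_,
      fun b => ?_⟩
    · rw [cs_single, mul_pow, mul_pow, ← pow_mul, mul_assoc _ (_ * _) (t ^ _),
        mul_assoc _ (t ^ _) (t ^ _), ← pow_add, Nat.div_add_mod', pow_add]
      ring
    · by_cases hb : b = ⟨_, h1⟩
      · rw [hb, Pi.single_eq_same, mul_left_comm]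
        refine mul_mem ⟨a, rfl⟩ ?_
        have := hδ (j, d', ⟨_, h2⟩)
        rwa [Algebra.smul_def] at this
      · rw [Pi.single_eq_of_ne hb, mul_zero]
        exact zero_mem _
  have gO : ∀ o : O, Good (algebraMap O K o) := by
    intro o
    obtain ⟨a, rfl⟩ := (Submodule.mem_span_range_iff_exists_fun R).1
      (hω ▸ Submodule.mem_top : o ∈ Submodule.span R (Set.range ω))
    rw [map_sum]
    refine Finset.sum_induction _ _ gadd g0 fun j _ => ?_
    obtain ⟨c, hc⟩ := hR (a j)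
    rw [Algebra.smul_def, map_mul, hc, hW j, cs, cs, Finset.sum_mul_sum]
    exact Finset.sum_induction _ _ gadd g0 fun d _ =>
      Finset.sum_induction _ _ gadd g0 fun d' _ => gterm _ _ _ _
  have hinj : ∀ c c' : Fin Q → K, cs Q t c = cs Q t c' → c = c' := by
    intro c c' h
    have := cs_add' t hadd (c - c') c'
    rw [sub_add_cancel, h, right_eq_add] at this
    exact sub_eq_zero.1 (hind _ this)
  have key : ∀ (v : HeightOneSpectrum O) (c : Fin Q → K), v.valuation K (cs Q t c) ≤ 1 →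
      ∀ d, v.valuation K (algebraMap O K δ * c d) ≤ 1 := by
    intro v c hc d
    obtain ⟨o, s, hs⟩ := v.exists_primeCompl_mul_eq_of_integer _ hc
    obtain ⟨c', hc', h'⟩ := gO (o * s ^ (Q - 1))
    have e : c' = fun d => algebraMap O K s * c d := by
      apply hinj
      rw [← hc', cs_smul, map_mul, map_pow, ← hs, mul_assoc, ← pow_succ',
        Nat.sub_add_cancel (Nat.pos_of_ne_zero hQ), mul_comm]
    obtain ⟨r, hr⟩ := h' d
    have h1 := val_le_one (K := K) v r
    rw [hr, e, mul_left_comm, map_mul, (v.valuation_eq_one_iff_notMem (K := K)).2 s.2,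
      one_mul] at h1
    exact h1
  have hγ : ∀ v : HeightOneSpectrum O, ∃ g : ℕ,
      v.valuation K (algebraMap O K δ) = exp (-(g : ℤ)) := by
    intro v
    obtain ⟨m, hm⟩ := ex_exp (v.valuation K) hδ0
    have := val_le_one (K := K) v δ
    rw [hm, ← exp_zero, exp_le_exp] at this
    exact ⟨(-m).toNat, by rw [hm, Int.toNat_of_nonneg (by omega), neg_neg]⟩
  choose γ hγ using hγ
  refine ⟨γ, (supp_finite hδ0).subset fun v hv h => ?_, fun v m c hc d => ?_⟩
  · rw [hγ, ← exp_zero, exp_inj] at h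
    exact hv (by omega)
  · obtain ⟨π, hπ⟩ := v.valuation_surjective K (exp (-m))
    have h1 := key v (fun d => π * c d) (by
      rw [cs_smul, map_mul, map_pow, hπ, pow_exp]
      refine (mul_le_mul' le_rfl hc).trans ?_
      rw [← exp_add]
      simp) d
    by_cases h0 : c d = 0
    · simp [h0]
    obtain ⟨k, hk⟩ := ex_exp (v.valuation K) h0
    rw [map_mul, map_mul, hγ, hπ, hk, ← exp_add, ← exp_add, ← exp_zero, exp_le_exp] at h1
    rw [hk, exp_le_exp]
    omega

end Local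

end Pool.Agent.MP_a59382_lc.H11

end

-- part MP_a59382_lc.H11.Places
section

/-!
The finite and infinite places of a global function field satisfy the axioms `Sys`.
-/

set_option autoImplicit false
set_option linter.unusedSectionVars false

namespace Pool.Agent.MP_a59382_lc.H11

open WithZero Polynomial IsDedekindDomain
open scoped WithZero

theorem bdd' {K : Type} [Field K] {ι : Type} {val : ι → Valuation K ℤᵐ⁰}
    (hs : ∀ y : K, y ≠ 0 → {i | val i y ≠ 1}.Finite) (y : K) :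
    ∃ B : ℕ, ∀ i, val i y ≤ exp (B : ℤ) := by
  classical
  by_cases hy : y = 0
  · exact ⟨0, fun i => by simp [hy]⟩
  choose n hn using fun i => ex_le (val i) y
  obtain ⟨B, hB⟩ := bdd_of_supp (A := fun i => if val i y = 1 then 0 else n i)
    ((hs y hy).subset fun i hi h => by simp [h] at hi)
  refine ⟨B, fun i => ?_⟩
  have := hB i
  by_cases h : val i y = 1
  · rw [h]
    exact one_le_exp B
  · simp only [h, if_false] at this
    exact exp_mono (hn i) (by exact_mod_cast this)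

theorem finite_sum {ι ι' : Type} {p : ι ⊕ ι' → Prop} (h : {i | p (Sum.inl i)}.Finite)
    (h' : {i | p (Sum.inr i)}.Finite) : {i | p i}.Finite := by
  refine ((h.image Sum.inl).union (h'.image Sum.inr)).subset fun i hi => ?_
  cases i with
  | inl i => exact Or.inl ⟨i, hi, rfl⟩
  | inr i => exact Or.inr ⟨i, hi, rfl⟩

section Base

variable (F : Type) [Field F]

/-- The valuation at infinity. -/
noncomputable def winf : Valuation (RatFunc F) ℤᵐ⁰ :=
  @RatFunc.inftyValuation F _ (Classical.decEq _)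

theorem winf_X : winf F RatFunc.X = exp (1 : ℤ) :=
  @RatFunc.inftyValuation.X F _ (Classical.decEq _)

theorem winf_poly {a : F[X]} (ha : a ≠ 0) :
    winf F (algebraMap F[X] (RatFunc F) a) = exp (a.natDegree : ℤ) :=
  @RatFunc.inftyValuation.polynomial F _ (Classical.decEq _) a ha

theorem winf_nontrivial : Valuation.IsNontrivial (winf F) :=
  ⟨RatFunc.X, by rw [winf_X]; simp⟩

/-- The valuation ring at infinity. -/
abbrev Rinf : Type := (winf F).valuationSubring

theorem rinf_dvr : IsDiscreteValuationRing (Rinf F) := by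
  have := winf_nontrivial F
  infer_instance

theorem finite_deg [Finite F] (n : ℕ) : {a : F[X] | a.natDegree ≤ n}.Finite := by
  have : Finite (degreeLT F (n + 1)) := Finite.of_equiv _ (degreeLTEquiv F (n + 1)).toEquiv.symm
  refine (Set.toFinite (degreeLT F (n + 1) : Set F[X])).subset fun a ha => ?_
  rw [SetLike.mem_coe, mem_degreeLT]
  refine degree_le_natDegree.trans_lt ?_
  exact_mod_cast Nat.lt_succ_of_le ha

variable {F}

theorem span_ratFunc {Q : ℕ} (hQ : Q ≠ 0)
    (hadd : ∀ x y : RatFunc F, (x + y) ^ Q = x ^ Q + y ^ Q) (hF : ∀ c : F, c ^ Q = c)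
    (y : RatFunc F) : ∃ c : Fin Q → RatFunc F, y = cs Q RatFunc.X c := by
  obtain ⟨h, e⟩ := cs_poly (algebraMap F[X] (RatFunc F)) hQ hadd
    (fun c => by rw [← map_pow, ← map_pow, hF]) (y.num * y.denom ^ (Q - 1))
  have h0 : algebraMap F[X] (RatFunc F) y.denom ≠ 0 :=
    RatFunc.algebraMap_ne_zero (RatFunc.denom_ne_zero y)
  refine ⟨fun d => (algebraMap F[X] (RatFunc F) y.denom)⁻¹ * algebraMap F[X] (RatFunc F) (h d), ?_⟩
  rw [cs_smul, ← RatFunc.algebraMap_X, ← e, map_mul, map_pow]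
  obtain ⟨Q, rfl⟩ : ∃ Q', Q = Q' + 1 := ⟨Q - 1, by omega⟩
  conv_lhs => rw [← RatFunc.num_div_denom y]
  rw [Nat.add_sub_cancel, inv_pow, pow_succ]
  field_simp

end Base

section Places

variable (F K : Type) [Field F] [Field K] [Algebra F[X] K] [Algebra (RatFunc F) K]
  [IsScalarTower F[X] (RatFunc F) K] [FunctionField F K] [Algebra.IsSeparable (RatFunc F) K]

/-- The ring of elements without poles above infinity. -/
abbrev Oinf : Type := integralClosure (Rinf F) K

theorem oinf_dedekind : IsDedekindDomain (Oinf F K) :=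
  have := rinf_dvr F
  integralClosure.isDedekindDomain (Rinf F) (RatFunc F) K

theorem oinf_frac : IsFractionRing (Oinf F K) K :=
  integralClosure.isFractionRing_of_finite_extension (RatFunc F) K

theorem oinf_finite : Module.Finite (Rinf F) (Oinf F K) :=
  have := rinf_dvr F
  IsIntegralClosure.finite (Rinf F) (RatFunc F) K _

theorem map_X : algebraMap (RatFunc F) K RatFunc.X = algebraMap F[X] K X := by
  rw [← RatFunc.algebraMap_X, ← IsScalarTower.algebraMap_apply]

theorem inf_pole [IsDedekindDomain (Oinf F K)] [IsFractionRing (Oinf F K) K]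
    (v : HeightOneSpectrum (Oinf F K)) :
    v.valuation K (algebraMap (RatFunc F) K RatFunc.X⁻¹) < 1 := by
  have hs : winf F RatFunc.X⁻¹ = exp (-1 : ℤ) := by rw [map_inv₀, winf_X, exp_neg]
  let s : Rinf F := ⟨RatFunc.X⁻¹, by
    rw [Valuation.mem_valuationSubring_iff, hs, ← exp_zero, exp_le_exp]
    omega⟩
  obtain ⟨a, ha, ha0⟩ := Submodule.exists_mem_ne_zero_of_ne_bot
    (Ideal.under_ne_bot (Rinf F) v.ne_bot)
  obtain ⟨m, hm⟩ := ex_exp (winf F) (y := a.1) fun h => ha0 (Subtype.ext h)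
  have hm0 : m ≤ 0 := by
    have := (Valuation.mem_valuationSubring_iff _ _).1 a.2
    rwa [hm, ← exp_zero, exp_le_exp] at this
  let c : Rinf F := ⟨RatFunc.X⁻¹ ^ (-m).toNat * a.1⁻¹, by
    rw [Valuation.mem_valuationSubring_iff, map_mul, map_pow, map_inv₀ _ a.1, hs, hm, pow_exp,
      ← exp_neg, ← exp_add, ← exp_zero, exp_le_exp]
    omega⟩
  have e : s ^ (-m).toNat = c * a := by
    apply Subtype.ext
    have : a.1 ≠ 0 := fun h => ha0 (Subtype.ext h)
    simp only [s, c, SubmonoidClass.coe_pow, MulMemClass.coe_mul]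
    rw [mul_assoc, inv_mul_cancel₀ this, mul_one]
  have hp : (Ideal.under (Rinf F) v.asIdeal).IsPrime := by
    have := v.isPrime
    infer_instance
  have h1 : s ∈ Ideal.under (Rinf F) v.asIdeal :=
    hp.mem_of_pow_mem _ (e ▸ Ideal.mul_mem_left _ c ha)
  exact (val_lt_one (K := K) v _).2 h1

theorem fin_places [Finite F] [IsDedekindDomain (Oinf F K)] [IsFractionRing (Oinf F K) K]
    (A : HeightOneSpectrum (FunctionField.ringOfIntegers F K) → ℕ) (hA : {v | A v ≠ 0}.Finite)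
    (B : ℕ) : {y : K | (∀ v : HeightOneSpectrum (FunctionField.ringOfIntegers F K),
      v.valuation K y ≤ exp (A v : ℤ)) ∧
      ∀ v : HeightOneSpectrum (Oinf F K), v.valuation K y ≤ exp (B : ℤ)}.Finite := by
  classical
  have := rinf_dvr F
  obtain ⟨B₀, hB₀⟩ := bdd_of_supp hA
  have hg : ∀ v : HeightOneSpectrum (FunctionField.ringOfIntegers F K), ∃ g : F[X], g ≠ 0 ∧
      v.valuation K (algebraMap F[X] K g) < 1 := by
    intro v
    have : Algebra.IsIntegral F[X] (FunctionField.ringOfIntegers F K) :=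
      IsIntegralClosure.isIntegral_algebra F[X] K
    obtain ⟨a, ha, ha0⟩ := Submodule.exists_mem_ne_zero_of_ne_bot
      (Ideal.under_ne_bot F[X] v.ne_bot)
    exact ⟨a, ha0, (val_lt_one (K := K) v _).2 ha⟩
  choose g hg0 hg using hg
  have hle : ∀ (v : HeightOneSpectrum (FunctionField.ringOfIntegers F K)) (a : F[X]),
      v.valuation K (algebraMap F[X] K a) ≤ 1 := fun v a =>
    val_le_one (K := K) v (algebraMap F[X] _ a)
  obtain ⟨δ, hδ0, hδ⟩ : ∃ δ : F[X], δ ≠ 0 ∧
      ∀ v : HeightOneSpectrum (FunctionField.ringOfIntegers F K),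
        v.valuation K (algebraMap F[X] K δ) ≤ exp (-(A v : ℤ)) := by
    refine ⟨(∏ v ∈ hA.toFinset, g v) ^ B₀,
      pow_ne_zero _ (Finset.prod_ne_zero_iff.2 fun v _ => hg0 v), fun v => ?_⟩
    by_cases hv : A v = 0
    · simpa [hv] using hle v ((∏ v ∈ hA.toFinset, g v) ^ B₀)
    · have h1 : v.valuation K (algebraMap F[X] K (∏ v ∈ hA.toFinset, g v)) ≤ exp (-1 : ℤ) := by
        rw [← Finset.mul_prod_erase _ _ (hA.mem_toFinset.2 hv), map_mul, map_mul]
        exact (mul_le_mul' (le_exp_neg_one _ (hg v)) (hle v _)).trans (mul_one _).le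
      rw [map_pow]
      refine exp_mono (val_pow_le _ h1 B₀) ?_
      have := hB₀ v
      omega
  obtain ⟨s, b, hb⟩ := FiniteDimensional.exists_is_basis_integral F[X] (RatFunc F) K
  choose n hn using fun j : s => bdd' (val := fun v : HeightOneSpectrum (Oinf F K) =>
    v.valuation K) (fun y hy => supp_finite hy) (algebraMap F[X] K δ * b j)
  have hδK : algebraMap F[X] K δ ≠ 0 := fun h =>
    hδ0 (FunctionField.algebraMap_injective F K (by rw [h, map_zero]))
  have hinj : Function.Injective fun (y : K) (j : s) =>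
      Algebra.trace (RatFunc F) K (y * (algebraMap F[X] K δ * b j)) := by
    intro y y' h
    have h1 : (y - y') * algebraMap F[X] K δ = 0 := by
      apply (traceForm_nondegenerate (RatFunc F) K).1
      intro x
      have : Algebra.traceForm (RatFunc F) K ((y - y') * algebraMap F[X] K δ) = 0 := by
        refine b.ext fun j => ?_
        have := congrFun h j
        simp only at this
        rw [Algebra.traceForm_apply, mul_assoc, sub_mul, map_sub, this, sub_self]
        rfl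
      rw [this]
      rfl
    exact sub_eq_zero.1 ((mul_eq_zero.1 h1).resolve_right hδK)
  refine (Set.Finite.preimage hinj.injOn (Set.Finite.pi' fun j : s =>
    (finite_deg F (B + n j)).image (algebraMap F[X] (RatFunc F)))).subset ?_
  rintro y ⟨hy, hy'⟩ j
  have h1 : IsIntegral F[X] (y * algebraMap F[X] K δ) := by
    obtain ⟨o, ho⟩ := HeightOneSpectrum.mem_integers_of_valuation_le_one
      (R := FunctionField.ringOfIntegers F K) K (y * algebraMap F[X] K δ) fun v => by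
        simpa using val_mul_le _ (hy v) (hδ v)
    rw [← ho]
    exact o.2
  obtain ⟨a, ha⟩ := IsIntegrallyClosed.isIntegral_iff.1
    (Algebra.isIntegral_trace (L := RatFunc F) (h1.mul (hb j)))
  rw [mul_assoc] at ha
  refine ⟨a, ?_, ha⟩
  have h2 : IsIntegral (Rinf F) (algebraMap (RatFunc F) K RatFunc.X⁻¹ ^ (B + n j) *
      (y * (algebraMap F[X] K δ * b j))) := by
    obtain ⟨o, ho⟩ := HeightOneSpectrum.mem_integers_of_valuation_le_one
      (R := Oinf F K) K (algebraMap (RatFunc F) K RatFunc.X⁻¹ ^ (B + n j) *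
        (y * (algebraMap F[X] K δ * b j))) fun v => by
        have := val_mul_le _ (val_pow_le _ (le_exp_neg_one _ (inf_pole F K v)) (B + n j))
          (val_mul_le _ (hy' v) (hn j v))
        rw [← exp_zero]
        refine exp_mono this ?_
        push_cast
        omega
    rw [← ho]
    exact o.2
  obtain ⟨r, hr⟩ := IsIntegrallyClosed.isIntegral_iff.1
    (Algebra.isIntegral_trace (L := RatFunc F) h2)
  rw [← map_pow, ← Algebra.smul_def, map_smul, ← ha, smul_eq_mul] at hr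
  have h3 := (Valuation.mem_valuationSubring_iff _ _).1 r.2
  by_cases ha0 : a = 0
  · simp [ha0]
  have h4 : (r : RatFunc F) = RatFunc.X⁻¹ ^ (B + n j) * algebraMap F[X] (RatFunc F) a := hr
  rw [h4, map_mul, map_pow, map_inv₀, winf_X, winf_poly F ha0, ← exp_neg, pow_exp, ← exp_add,
    ← exp_zero, exp_le_exp] at h3
  show a.natDegree ≤ B + n j
  push_cast at h3
  omega

theorem exists_sys [Finite F] : ∃ (ι' : Type) (val' : ι' → Valuation K ℤᵐ⁰),
    (∀ i, 1 < val' i (algebraMap F[X] K X)) ∧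
    Sys (Nat.card F) (algebraMap F[X] K X) (Sum.elim
      (fun v : HeightOneSpectrum (FunctionField.ringOfIntegers F K) => v.valuation K) val') := by
  classical
  have := Fintype.ofFinite F
  have := oinf_dedekind F K
  have := oinf_frac F K
  have := oinf_finite F K
  obtain ⟨p, hp, n, hpp, hq⟩ := FiniteField.card' F
  rw [← Nat.card_eq_fintype_card] at hq
  have : ExpChar F p := ExpChar.prime hpp
  have : ExpChar (RatFunc F) p := expChar_of_injective_algebraMap (algebraMap F _).injective p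
  have : ExpChar K p := expChar_of_injective_algebraMap (algebraMap (RatFunc F) K).injective p
  have h2 : 2 ≤ Nat.card F := Finite.one_lt_card
  have hpow : ∀ k : ℕ, Nat.card F ^ k = p ^ ((n : ℕ) * k) := fun k => by rw [hq, ← pow_mul]
  have hne : ∀ k : ℕ, Nat.card F ^ k ≠ 0 := fun k => pow_ne_zero _ (by omega)
  have haddK : ∀ (k : ℕ) (x y : K), (x + y) ^ Nat.card F ^ k =
      x ^ Nat.card F ^ k + y ^ Nat.card F ^ k := fun k x y => by
    rw [hpow]
    exact add_pow_expChar_pow x y p _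
  have haddL : ∀ (k : ℕ) (x y : RatFunc F), (x + y) ^ Nat.card F ^ k =
      x ^ Nat.card F ^ k + y ^ Nat.card F ^ k := fun k x y => by
    rw [hpow]
    exact add_pow_expChar_pow x y p _
  have hF : ∀ (k : ℕ) (c : F), c ^ Nat.card F ^ k = c := fun k c => by
    rw [Nat.card_eq_fintype_card]
    exact FiniteField.pow_card_pow k c
  let b := Module.finBasis (RatFunc F) K
  have hspan : ∀ (k : ℕ) (y : K), ∃ c : Fin (Nat.card F ^ k) → K,
      y = cs _ (algebraMap F[X] K X) c := by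
    intro k y
    obtain ⟨a, ha⟩ := (Submodule.mem_span_range_iff_exists_fun (RatFunc F)).1
      (Field.span_map_pow_expChar_pow_eq_top_of_isSeparable p (n * k) b.span_eq ▸
        Submodule.mem_top : y ∈ Submodule.span (RatFunc F) (Set.range (b · ^ p ^ (n * k))))
    choose c hc using fun j => span_ratFunc (hne k) (haddL k) (hF k) (a j)
    refine ⟨fun d => ∑ j, algebraMap (RatFunc F) K (c j d) * b j, ?_⟩
    rw [← map_X, cs_basis _ (hne k) (haddK k), ← ha]
    refine Finset.sum_congr rfl fun j _ => ?_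
    rw [Algebra.smul_def, ← hpow, hc j]
  have hind : ∀ (k : ℕ) (c : Fin (Nat.card F ^ k) → K),
      cs _ (algebraMap F[X] K X) c = 0 → c = 0 := by
    intro k c h
    have e : c = fun d => ∑ j, algebraMap (RatFunc F) K (b.repr (c d) j) * b j := by
      funext d
      conv_lhs => rw [← b.sum_repr (c d)]
      simp only [Algebra.smul_def]
    rw [e, ← map_X, cs_basis _ (hne k) (haddK k)] at h
    have h1 := Fintype.linearIndependent_iff.1
      (b.linearIndependent.map_pow_expChar_pow_of_isSeparable p (n * k))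
      (fun j => cs _ RatFunc.X fun d => b.repr (c d) j)
      (by simpa only [Algebra.smul_def, ← hpow] using h)
    funext d
    rw [e]
    refine Finset.sum_eq_zero fun j _ => ?_
    have := congrFun (indep_of_val (winf F) (winf_X F) _ (h1 j)) d
    simp only [Pi.zero_apply] at this
    rw [this, map_zero, zero_mul]
  refine ⟨HeightOneSpectrum (Oinf F K), fun v => v.valuation K, fun v => ?_,
    h2, haddK, fun y hy => finite_sum (supp_finite hy) (supp_finite hy), ?_, ?_, ?_, ?_⟩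
  · have h1 := inf_pole F K v
    rw [map_inv₀, map_inv₀, map_X] at h1
    have h0 : v.valuation K (algebraMap F[X] K X) ≠ 0 := (Valuation.ne_zero_iff _).2 fun h =>
      X_ne_zero (FunctionField.algebraMap_injective F K (by rw [h, map_zero]))
    exact (inv_lt_one₀ (zero_lt_iff.2 h0)).1 h1
  · rintro _ k rfl
    exact hspan k
  · rintro _ k rfl
    exact hind k
  · rintro _ k rfl
    obtain ⟨γ, hγ, h⟩ := local_comp (O := FunctionField.ringOfIntegers F K) (R := F[X]) (hne k)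
      (haddK k) (hspan k) (hind k) fun a => by
        obtain ⟨h, e⟩ := cs_poly (algebraMap F[X] K) (hne k) (haddK k)
          (fun c => by rw [← map_pow, ← map_pow, hF]) a
        exact ⟨fun d => algebraMap F[X] _ (h d), e⟩
    obtain ⟨γ', hγ', h'⟩ := local_comp (O := Oinf F K) (R := Rinf F) (hne k)
      (haddK k) (hspan k) (hind k) fun a => by
        obtain ⟨c, hc⟩ := span_ratFunc (hne k) (haddL k) (hF k) a.1
        have h1 := comp_le_one (winf F) (winf_X F) c
          (hc ▸ (Valuation.mem_valuationSubring_iff _ _).1 a.2)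
        refine ⟨fun d => algebraMap (Rinf F) _
          ⟨c d, (Valuation.mem_valuationSubring_iff _ _).2 (h1 d)⟩, ?_⟩
        have := congrArg (algebraMap (RatFunc F) K) hc
        rw [cs_map, map_X] at this
        exact this
    refine ⟨Sum.elim γ γ', finite_sum hγ hγ', fun i => ?_⟩
    cases i with
    | inl v => exact h v
    | inr v => exact h' v
  · intro A hA
    obtain ⟨B, hB⟩ := bdd_of_supp hA
    refine (fin_places F K (fun v => A (Sum.inl v))
      (hA.preimage Sum.inl_injective.injOn) B).subset fun y hy => ⟨fun v => hy (Sum.inl v),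
        fun v => exp_mono (hy (Sum.inr v)) ?_⟩
    exact_mod_cast hB _

end Places

end Pool.Agent.MP_a59382_lc.H11

end

-- part MP_a59382_lc.H11.Rel
section

/-!
The ring of integers of a global function field and the pole relation are diophantine.
-/

set_option autoImplicit false
set_option linter.unusedSectionVars false

namespace Pool.Agent.MP_a59382_lc.H11

open WithZero Polynomial IsDedekindDomain
open scoped WithZero

theorem not_pow_dvd_lcm {l a : ℕ} (hl : l.Prime) (ha : 0 < a) (s : Finset ℕ)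
    (h : ∀ d ∈ s, ¬ l ^ a ∣ d) : ¬ l ^ a ∣ s.lcm id := by
  induction s using Finset.induction_on with
  | empty =>
    intro h1
    have := Nat.le_of_dvd one_pos (show l ^ a ∣ 1 from h1)
    have := Nat.one_lt_pow ha.ne' hl.one_lt
    omega
  | insert d s _ ih =>
    have h1 := h d (Finset.mem_insert_self _ _)
    have h2 := ih fun x hx => h x (Finset.mem_insert_of_mem hx)
    have hd : d ≠ 0 := fun e => h1 (e ▸ dvd_zero _)
    have hs : s.lcm id ≠ 0 := fun e => h2 (e ▸ dvd_zero _)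
    rw [Finset.lcm_insert, lcm_eq_nat_lcm, id, hl.pow_dvd_iff_le_factorization
      (Nat.lcm_ne_zero hd hs), Nat.factorization_lcm hd hs, Finsupp.sup_apply, le_sup_iff]
    rw [hl.pow_dvd_iff_le_factorization hd] at h1
    rw [hl.pow_dvd_iff_le_factorization hs] at h2
    tauto

theorem ex_deg {e : ℕ} (he : e ≠ 0) (D : Finset ℕ) (h : ∀ d ∈ D, ¬ e ∣ d) :
    ∃ s : ℕ → ℕ, (∀ l ∈ e.primeFactors, ¬ e ∣ s l) ∧ ∀ d ∈ D, ∃ l ∈ e.primeFactors, d ∣ s l := by
  refine ⟨fun l => (D.filter fun d => ¬ l ^ e.factorization l ∣ d).lcm id, fun l hl h1 => ?_,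
    fun d hd => ?_⟩
  · have hp := Nat.prime_of_mem_primeFactors hl
    exact not_pow_dvd_lcm hp (hp.factorization_pos_of_dvd he (Nat.dvd_of_mem_primeFactors hl)) _
      (fun d hd => (Finset.mem_filter.1 hd).2) ((Nat.ordProj_dvd e l).trans h1)
  · have h1 := h d hd
    rw [Nat.dvd_iff_prime_pow_dvd_dvd] at h1
    push Not at h1
    obtain ⟨l, k, hl, h2, h3⟩ := h1
    have hk : k ≠ 0 := by
      rintro rfl
      simp at h3
    refine ⟨l, Nat.mem_primeFactors.2 ⟨hl, (dvd_pow_self l hk).trans h2, he⟩,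
      Finset.dvd_lcm (f := id) (Finset.mem_filter.2 ⟨hd, fun h4 => h3 ?_⟩)⟩
    exact (pow_dvd_pow l ((hl.pow_dvd_iff_le_factorization he).1 h2)).trans h4

namespace Sys

variable {K : Type} [Field K] {q : ℕ} {t : K} {ι : Type} {val : ι → Valuation K ℤᵐ⁰}
  (S : Sys q t val)
include S

theorem theta_ne {c : ℕ} (hc : 0 < c) : t ^ q ^ c - t ≠ 0 := by
  obtain ⟨c, rfl⟩ : ∃ c', c = c' + 1 := ⟨c - 1, by omega⟩
  intro h
  apply S.not_pow (t ^ q ^ c)
  rw [← pow_mul, ← pow_succ]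
  exact (sub_eq_zero.1 h).symm

/-- A diophantine relation certifying that every zero of `W` is a zero of `θ`. -/
theorem dio_rad : ∃ Rad : K → K → Prop,
    (∀ {α : Type} {g h : (α → K) → K}, PF g → PF h → Dio fun v => Rad (g v) (h v)) ∧
    (∀ θ W, Rad θ W → ∀ i, val i W < 1 → val i θ < 1) ∧
    ∀ s b : ℕ, 0 < s → ∃ s' b', 0 < s' ∧ s ∣ s' ∧ b ≤ b' ∧
      Rad (t ^ q ^ s' - t) ((t ^ q ^ s' - t) ^ q ^ b') := by
  obtain ⟨r, hr, hD⟩ := S.dio_pow
  obtain ⟨N, hN⟩ := S.theta_low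
  have h2 := S.two_le
  obtain ⟨k, hk, hrk, hNk⟩ : ∃ k, 0 < k ∧ r ∣ k ∧ N + 1 < q ^ k :=
    ⟨r * (N + 1), by positivity, dvd_mul_right _ _,
      (Nat.le_mul_of_pos_left _ hr).trans_lt (Nat.lt_pow_self (by omega))⟩
  have hD' := hD k hk hrk fun j => j = 0
  refine ⟨fun θ W => ∃ T : K, ∃ T' : K, ∃ z : K, ∃ z' : K,
    (∃ n, n % k = 0 ∧ T = t ^ q ^ n) ∧ (∃ n, n % k = 0 ∧ T' = t ^ q ^ n) ∧ W = T - T' ∧
      W * z = 1 ∧ θ * z' = 1 ∧ AS (q ^ k) (z - z'), ?_, ?_, ?_⟩
  · intro α g h hg hh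
    have A := S.aniso
    refine Dio.ex1 (Dio.ex1 (Dio.ex1 (Dio.ex1 (Dio.and A (hD'.app (PF.var _)) (Dio.and A
      (hD'.app (PF.var _)) (Dio.and A (Dio.eq ?_ ((PF.var _).sub (PF.var _))) (Dio.and A
      (Dio.eq (PF.mul ?_ (PF.var _)) (PF.const _)) (Dio.and A
      (Dio.eq (PF.mul ?_ (PF.var _)) (PF.const _))
      ((dio_AS _).app ((PF.var _).sub (PF.var _)))))))))))
    · exact hh.comp fun a => PF.var _
    · exact hh.comp fun a => PF.var _
    · exact hg.comp fun a => PF.var _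
  · rintro θ W ⟨_, _, z, z', ⟨n, hn, rfl⟩, ⟨n', hn', rfl⟩, hW, hz, hz', hAS⟩ i hi
    have hW0 : W ≠ 0 := left_ne_zero_of_mul_eq_one hz
    obtain ⟨ζ, a, hζ, hlow⟩ : ∃ (ζ : K) (a : ℕ), W = ζ ^ q ^ (k * a) ∧
        exp (-(N : ℤ)) ≤ val i ζ := by
      obtain ⟨a, rfl⟩ := Nat.dvd_of_mod_eq_zero hn
      obtain ⟨a', rfl⟩ := Nat.dvd_of_mod_eq_zero hn'
      rcases lt_trichotomy (k * a) (k * a') with h | h | h
      · obtain ⟨c, hc⟩ : ∃ c, k * a' = c + k * a := ⟨k * a' - k * a, by omega⟩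
        refine ⟨-(t ^ q ^ c - t), a, ?_, by rw [Valuation.map_neg]; exact hN i c (by omega)⟩
        rw [S.frob_neg, S.frob_sub, ← pow_mul, ← pow_add, hW, hc]
        ring
      · rw [h, sub_self] at hW
        exact absurd hW hW0
      · obtain ⟨c, hc⟩ : ∃ c, k * a = c + k * a' := ⟨k * a - k * a', by omega⟩
        refine ⟨t ^ q ^ c - t, a', ?_, hN i c (by omega)⟩
        rw [S.frob_sub, ← pow_mul, ← pow_add, hW, hc]
    have hζ0 : ζ ≠ 0 := by
      rintro rfl
      rw [map_zero, le_zero_iff] at hlow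
      exact exp_ne_zero hlow
    have hζ1 : val i ζ < 1 := by
      by_contra h
      rw [hζ, map_pow] at hi
      exact absurd (one_le_pow₀ (not_lt.1 h)) (not_le.2 hi)
    have e1 : z = ζ⁻¹ ^ q ^ (k * a) := by
      rw [inv_pow, ← hζ]
      exact eq_inv_of_mul_eq_one_right hz
    obtain ⟨u, hu⟩ : AS (q ^ k) (ζ⁻¹ - z') := by
      have := S.as_sub hAS (S.as_iter k a ζ⁻¹)
      rw [e1] at this
      convert this using 1
      ring
    by_contra hθ
    have h3 : val i z' ≤ 1 := by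
      rw [eq_inv_of_mul_eq_one_right hz', map_inv₀]
      exact inv_le_one_of_one_le₀ (not_lt.1 hθ)
    have h4 : 1 < val i ζ⁻¹ := by
      rw [map_inv₀]
      exact one_lt_inv_iff₀.2 ⟨zero_lt_iff.2 ((Valuation.ne_zero_iff _).2 hζ0), hζ1⟩
    have h5 : val i (ζ⁻¹ - z') = val i ζ⁻¹ := (val i).map_sub_eq_of_lt_left (h3.trans_lt h4)
    obtain ⟨m, hm, -, h6⟩ := as_pole (val i) (Q := q ^ k) (by omega) (u := u)
      (by rw [← hu, h5]; exact h4)
    rw [← hu, h5, map_inv₀, inv_eq_iff_eq_inv, ← exp_neg] at h6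
    rw [h6, exp_le_exp, neg_le_neg_iff] at hlow
    have h7 : q ^ k * m ≤ N := by exact_mod_cast hlow
    nlinarith
  · intro s b hs
    have h0 := S.theta_ne (c := k * s) (by positivity)
    refine ⟨k * s, k * b, by positivity, dvd_mul_left _ _, Nat.le_mul_of_pos_left _ hk,
      t ^ q ^ (k * s + k * b), t ^ q ^ (k * b), (t ^ q ^ (k * s) - t)⁻¹ ^ q ^ (k * b),
      (t ^ q ^ (k * s) - t)⁻¹, ⟨_, by rw [← mul_add, Nat.mul_mod_right], rfl⟩,
      ⟨_, Nat.mul_mod_right _ _, rfl⟩, ?_, ?_, mul_inv_cancel₀ h0, S.as_iter k b _⟩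
    · rw [S.frob_sub, ← pow_mul, ← pow_add]
    · rw [← mul_pow, mul_inv_cancel₀ h0, one_pow]

/-- A diophantine set of elements vanishing only at places whose degree is not divisible
by `e`. -/
theorem dio_non {e : ℕ} (he : e ≠ 0) : ∃ Non : K → Prop, Dio1 Non ∧
    (∀ δ, Non δ → ∀ i, val i δ < 1 → ∃ s, ¬ e ∣ s ∧ val i (t ^ q ^ s - t) < 1) ∧
    ∀ D : Finset ℕ, (∀ d ∈ D, ¬ e ∣ d) → ∃ δ, Non δ ∧ ∀ i, val i t ≤ 1 → val i δ ≤ 1 ∧
      ∀ d ∈ D, (∀ s, d ∣ s → val i (t ^ q ^ s - t) < 1) → val i δ < 1 := by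
  classical
  obtain ⟨r, hr, hD⟩ := S.dio_pow
  have hD' : Dio1 fun x : K => ∃ n, ¬ e ∣ n ∧ x = t ^ q ^ n :=
    (hD (r * e) (by positivity) (dvd_mul_right _ _) fun j => ¬ e ∣ j).congr fun x => by
      simp only [Nat.dvd_mod_iff (dvd_mul_left e r)]
  refine ⟨fun δ => ∃ T : e.primeFactors → K, (∀ l, ∃ n, ¬ e ∣ n ∧ T l = t ^ q ^ n) ∧
    δ = ∏ l, (T l - t), ?_, ?_, ?_⟩
  · exact Dio.ex (Dio.and S.aniso (Dio.all' S.aniso fun l => hD'.app (PF.var _))
      (Dio.eq (PF.var _) (PF.prod _ fun l => (PF.var _).sub (PF.const _))))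
  · rintro _ ⟨T, hT, rfl⟩ i hi
    by_contra hcon
    push Not at hcon
    rw [map_prod] at hi
    refine absurd (Finset.one_le_prod' fun l _ => ?_) (not_le.2 hi)
    obtain ⟨n, hn, e⟩ := hT l
    rw [e]
    exact hcon n hn
  · intro D hD
    obtain ⟨s, h1, h2⟩ := ex_deg he D hD
    refine ⟨_, ⟨fun l => t ^ q ^ s l, fun l => ⟨_, h1 l l.2, rfl⟩, rfl⟩, fun i hi => ?_⟩
    have h3 : ∀ n, val i (t ^ q ^ n - t) ≤ 1 := fun n =>
      (val i).map_sub_le (by rw [map_pow]; exact pow_le_one₀ zero_le hi) hi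
    refine ⟨by rw [map_prod]; exact Finset.prod_le_one' fun l _ => h3 _, fun d hd h4 => ?_⟩
    obtain ⟨l, hl, h5⟩ := h2 d hd
    rw [← Finset.mul_prod_erase _ _ (Finset.mem_univ (⟨l, hl⟩ : e.primeFactors)), map_mul,
      map_prod]
    exact (mul_le_of_le_one_right' (Finset.prod_le_one' fun l _ => h3 _)).trans_lt (h4 _ h5)

end Sys

section Dedekind

variable {K : Type} [Field K] {O : Type} [CommRing O] [IsDedekindDomain O] [Algebra O K]
  [IsFractionRing O K]

theorem mem_of_val (hO : ¬ IsField O) (I : Ideal O) (w : O)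
    (h : ∀ v : HeightOneSpectrum O, ∃ x ∈ I,
      v.valuation K (algebraMap O K w) ≤ v.valuation K (algebraMap O K x)) : w ∈ I := by
  by_contra hw
  have hJ : I.colon {w} ≠ ⊤ := fun e => hw (by
    have : (1 : O) ∈ I.colon {w} := e ▸ Submodule.mem_top
    simpa using Submodule.mem_colon_singleton.1 this)
  obtain ⟨M, hM, hle⟩ := Ideal.exists_le_maximal _ hJ
  let v : HeightOneSpectrum O := ⟨M, hM.isPrime, Ring.ne_bot_of_isMaximal_of_not_isField hM hO⟩
  obtain ⟨x, hx, hv⟩ := h v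
  have hinj := IsFractionRing.injective O K
  by_cases hx0 : algebraMap O K x = 0
  · rw [hx0, map_zero, le_zero_iff, Valuation.zero_iff, map_eq_zero_iff _ hinj] at hv
    exact hw (hv ▸ I.zero_mem)
  obtain ⟨n, s, hs⟩ := v.exists_primeCompl_mul_eq_of_integer
    (algebraMap O K w / algebraMap O K x) (by
      rw [map_div₀]
      exact div_le_one_of_le₀ hv zero_le)
  refine s.2 (hle (Submodule.mem_colon_singleton.2 ?_))
  have : (s : O) * w = n * x := by
    apply hinj
    rw [map_mul, map_mul, ← hs]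
    field_simp
  rw [smul_eq_mul, this]
  exact I.mul_mem_left _ hx

theorem exists_den (hO : ¬ IsField O) (a : K) : ∃ x y : O,
    algebraMap O K x * a ∈ (algebraMap O K).range ∧ algebraMap O K y * a ∈ (algebraMap O K).range ∧
      algebraMap O K x + algebraMap O K y * a = 1 := by
  let J : Ideal O :=
    { carrier := {z | ∃ x y : O, algebraMap O K x * a ∈ (algebraMap O K).range ∧
        algebraMap O K y * a ∈ (algebraMap O K).range ∧
          algebraMap O K x + algebraMap O K y * a = algebraMap O K z}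
      add_mem' := by
        rintro z z' ⟨x, y, h1, h2, h3⟩ ⟨x', y', h1', h2', h3'⟩
        refine ⟨x + x', y + y', ?_, ?_, ?_⟩
        · rw [map_add, add_mul]
          exact add_mem h1 h1'
        · rw [map_add, add_mul]
          exact add_mem h2 h2'
        · rw [map_add, map_add, map_add, ← h3, ← h3']
          ring
      zero_mem' := ⟨0, 0, by simp, by simp, by simp⟩
      smul_mem' := by
        rintro c z ⟨x, y, h1, h2, h3⟩
        refine ⟨c * x, c * y, ?_, ?_, ?_⟩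
        · rw [map_mul, mul_assoc]
          exact mul_mem ⟨c, rfl⟩ h1
        · rw [map_mul, mul_assoc]
          exact mul_mem ⟨c, rfl⟩ h2
        · rw [smul_eq_mul, map_mul, map_mul, map_mul, ← h3]
          ring }
  obtain ⟨x, y, h1, h2, h3⟩ : (1 : O) ∈ J := by
    refine mem_of_val (K := K) hO J 1 fun v => ?_
    obtain ⟨n, d, h⟩ := v.exists_primeCompl_mul_eq_or_mul_eq a
    refine ⟨d, ?_, by rw [(v.valuation_eq_one_iff_notMem (K := K)).2 d.2, map_one, map_one]⟩
    rcases h with h | h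
    · exact ⟨d, 0, ⟨n, by rw [← h, mul_comm]⟩, by simp, by simp⟩
    · exact ⟨0, n, by simp, ⟨d, by rw [← h, mul_comm]⟩, by rw [← h, map_zero, zero_add, mul_comm]⟩
  exact ⟨x, y, h1, h2, by rw [h3, map_one]⟩

theorem range_le_one {y : K} (h : y ∈ (algebraMap O K).range) (v : HeightOneSpectrum O) :
    v.valuation K y ≤ 1 := by
  obtain ⟨o, rfl⟩ := h
  exact val_le_one v o

end Dedekind

theorem lt_one_of_mul {K : Type} [Field K] (v : Valuation K ℤᵐ⁰) {x a : K} (h : v (x * a) ≤ 1)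
    (ha : 1 < v a) : v x < 1 := by
  by_contra hx
  rw [map_mul] at h
  exact absurd h (not_le.2 (ha.trans_le (le_mul_of_one_le_left' (not_lt.1 hx))))

theorem one_lt_of_add {K : Type} [Field K] (v : Valuation K ℤᵐ⁰) {x y a : K} (h : x + y * a = 1)
    (hx : v x < 1) (hy : v y < 1) : 1 < v a := by
  by_contra ha
  have : v (x + y * a) < 1 := v.map_add_lt hx (by
    rw [map_mul]
    exact (mul_le_of_le_one_right' (not_lt.1 ha)).trans_lt hy)
  rw [h, map_one] at this
  exact lt_irrefl _ this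

theorem mul_lt_one' {K : Type} [Field K] (v : Valuation K ℤᵐ⁰) {x y : K} (hx : v x ≤ 1)
    (hy : v y < 1) : v (x * y) < 1 := by
  rw [map_mul]
  exact (mul_le_of_le_one_left' hx).trans_lt hy

section Main

variable (F K : Type) [Field F] [Finite F] [Field K] [Algebra F[X] K] [Algebra (RatFunc F) K]
  [IsScalarTower F[X] (RatFunc F) K] [FunctionField F K] [Algebra.IsSeparable (RatFunc F) K]

theorem exists_prime_below (v : HeightOneSpectrum (FunctionField.ringOfIntegers F K)) :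
    ∃ P : F[X], Irreducible P ∧
      algebraMap F[X] (FunctionField.ringOfIntegers F K) P ∈ v.asIdeal := by
  have : Algebra.IsIntegral F[X] (FunctionField.ringOfIntegers F K) :=
    IsIntegralClosure.isIntegral_algebra F[X] K
  have := v.isPrime
  obtain ⟨P, h1, h2⟩ := Ideal.IsPrime.exists_mem_prime_of_ne_bot
    (inferInstance : (Ideal.under F[X] v.asIdeal).IsPrime) (Ideal.under_ne_bot F[X] v.ne_bot)
  exact ⟨P, h2.irreducible, h1⟩

theorem theta_lt_iff (v : HeightOneSpectrum (FunctionField.ringOfIntegers F K)) {P : F[X]}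
    (hP : Irreducible P) (hv : algebraMap F[X] (FunctionField.ringOfIntegers F K) P ∈ v.asIdeal)
    (s : ℕ) : v.valuation K (algebraMap F[X] K X ^ Nat.card F ^ s - algebraMap F[X] K X) < 1 ↔
      P.natDegree ∣ s := by
  rw [hP.natDegree_dvd_iff_dvd_X_pow_card_pow_sub_X, ← map_pow, ← map_sub,
    IsScalarTower.algebraMap_apply F[X] (FunctionField.ringOfIntegers F K) K, val_lt_one]
  constructor
  · intro h
    by_contra hn
    obtain ⟨a, b, hab⟩ := hP.coprime_iff_not_dvd.2 hn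
    apply v.isPrime.ne_top
    rw [Ideal.eq_top_iff_one, ← map_one (algebraMap F[X] _), ← hab, map_add, map_mul, map_mul]
    exact add_mem (Ideal.mul_mem_left _ _ hv) (Ideal.mul_mem_left _ _ h)
  · rintro ⟨c, hc⟩
    rw [hc, map_mul]
    exact Ideal.mul_mem_right _ _ hv

theorem dio_ringOfIntegers :
    Dio1 fun y : K => y ∈ (algebraMap (FunctionField.ringOfIntegers F K) K).range := by
  obtain ⟨ι', val', hinf, S⟩ := exists_sys F K
  have := Fintype.ofFinite F
  obtain ⟨Y, hY, h1, h2⟩ := S.dio_int (algebraMap F[X] K) rfl fun c => by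
    rw [← map_pow, ← map_pow, Nat.card_eq_fintype_card, FiniteField.pow_card]
  obtain ⟨n, ω, hω⟩ := Module.Finite.exists_fin (R := F[X])
    (M := FunctionField.ringOfIntegers F K)
  have : Dio fun v : Unit → K => ∃ f : Fin n → K, (∀ j, Y (f j)) ∧
      v () = ∑ j, f j * algebraMap _ K (ω j) :=
    Dio.ex (Dio.and S.aniso (Dio.all' S.aniso fun j => hY.app (PF.var _))
      (Dio.eq (PF.var _) (PF.sum _ fun j => (PF.var _).mul (PF.const _))))
  refine this.congr fun v => ⟨?_, ?_⟩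
  · rintro ⟨o, ho⟩
    obtain ⟨a, rfl⟩ := (Submodule.mem_span_range_iff_exists_fun F[X]).1
      (hω ▸ Submodule.mem_top : o ∈ Submodule.span F[X] (Set.range ω))
    refine ⟨fun j => algebraMap F[X] K (a j), fun j => h1 _, ?_⟩
    rw [← ho, map_sum]
    refine Finset.sum_congr rfl fun j _ => ?_
    rw [Algebra.smul_def, map_mul, ← IsScalarTower.algebraMap_apply]
  · rintro ⟨f, hf, e⟩
    rw [e]
    refine sum_mem fun j _ => mul_mem ?_ ⟨_, rfl⟩
    exact HeightOneSpectrum.mem_integers_of_valuation_le_one K _ fun w =>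
      h2 _ (hf j) (Sum.inl w) (val_le_one (K := K) w (algebraMap F[X] _ X))

theorem dio_pole {e : ℕ} (he : e ≠ 0) : Dio fun w : Fin 2 → K =>
    ∀ v : HeightOneSpectrum (FunctionField.ringOfIntegers F K),
      (∃ P : F[X], Irreducible P ∧ e ∣ P.natDegree ∧
        algebraMap F[X] (FunctionField.ringOfIntegers F K) P ∈ v.asIdeal) →
      1 < v.valuation K (w 0) → 1 < v.valuation K (w 1) := by
  classical
  obtain ⟨ι', val', hinf, S⟩ := exists_sys F K
  obtain ⟨Rad, hR1, hR2, hR3⟩ := S.dio_rad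
  obtain ⟨Non, hN1, hN2, hN3⟩ := S.dio_non he
  obtain ⟨N, hN⟩ := S.theta_low
  have hI := dio_ringOfIntegers F K
  have hO := FunctionField.ringOfIntegers.not_isField F K
  set O := FunctionField.ringOfIntegers F K
  set t := algebraMap F[X] K X with ht
  have A := S.aniso
  let In : K → K → K → K → Prop := fun x y z w => ∃ c : Fin 3 → K,
    (∀ j, c j ∈ (algebraMap O K).range) ∧ w = c 0 * x + c 1 * y + c 2 * z
  have hIn : ∀ {α : Type} {x y z w : (α → K) → K}, PF x → PF y → PF z → PF w →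
      Dio fun v => In (x v) (y v) (z v) (w v) := fun hx hy hz hw =>
    Dio.ex (Dio.and A (Dio.all' A fun j => hI.app (PF.var _))
      (Dio.eq (hw.comp fun a => PF.var _)
        ((((PF.var _).mul (hx.comp fun a => PF.var _)).add
          ((PF.var _).mul (hy.comp fun a => PF.var _))).add
          ((PF.var _).mul (hz.comp fun a => PF.var _)))))
  have hIn1 : ∀ (v : HeightOneSpectrum O) (x y z w : K), In x y z w → v.valuation K x < 1 →
      v.valuation K y < 1 → v.valuation K z < 1 → v.valuation K w < 1 := by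
    rintro v x y z _ ⟨c, hc, rfl⟩ hx hy hz
    exact (v.valuation K).map_add_lt ((v.valuation K).map_add_lt
      (mul_lt_one' _ (range_le_one (hc 0) v) hx) (mul_lt_one' _ (range_le_one (hc 1) v) hy))
      (mul_lt_one' _ (range_le_one (hc 2) v) hz)
  have hIn2 : ∀ x y z w : K, x ∈ (algebraMap O K).range → y ∈ (algebraMap O K).range →
      z ∈ (algebraMap O K).range → (∀ v : HeightOneSpectrum O,
        v.valuation K w ≤ v.valuation K x ∨ v.valuation K w ≤ v.valuation K y ∨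
          v.valuation K w ≤ v.valuation K z) → In x y z w := by
    rintro _ _ _ w ⟨x, rfl⟩ ⟨y, rfl⟩ ⟨z, rfl⟩ h
    obtain ⟨w, rfl⟩ := HeightOneSpectrum.mem_integers_of_valuation_le_one (R := O) K w
      fun v => by
        rcases h v with h | h | h <;> exact h.trans (val_le_one v _)
    have := mem_of_val (K := K) hO (Ideal.span {x, y, z}) w fun v => by
      rcases h v with h | h | h
      · exact ⟨x, Ideal.subset_span (by simp), h⟩
      · exact ⟨y, Ideal.subset_span (by simp), h⟩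
      · exact ⟨z, Ideal.subset_span (by simp), h⟩
    obtain ⟨a, r, hr, rfl⟩ := Ideal.mem_span_insert.1 this
    obtain ⟨b, c, rfl⟩ := Ideal.mem_span_pair.1 hr
    refine ⟨![algebraMap O K a, algebraMap O K b, algebraMap O K c], fun j => ?_, ?_⟩
    · fin_cases j <;> exact ⟨_, rfl⟩
    · simp [add_assoc]
  have : Dio fun w : Fin 2 → K => ∃ c : Fin 7 → K,
      c 0 * w 0 ∈ (algebraMap O K).range ∧ c 1 * w 0 ∈ (algebraMap O K).range ∧
        c 2 + c 3 * w 1 = 1 ∧ Rad (c 4) (c 5) ∧ Non (c 6) ∧ In (c 0) (c 1) 0 (c 5) ∧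
          In (c 0) (c 1) (c 4) ((c 2 * c 6) ^ N) ∧ In (c 0) (c 1) (c 4) ((c 3 * c 6) ^ N) :=
    Dio.ex (Dio.and A (hI.app ((PF.var _).mul (PF.var _))) (Dio.and A
      (hI.app ((PF.var _).mul (PF.var _))) (Dio.and A
      (Dio.eq ((PF.var _).add ((PF.var _).mul (PF.var _))) (PF.const _)) (Dio.and A
      (hR1 (PF.var _) (PF.var _)) (Dio.and A (hN1.app (PF.var _)) (Dio.and A
      (hIn (PF.var _) (PF.var _) (PF.const _) (PF.var _)) (Dio.and A
      (hIn (PF.var _) (PF.var _) (PF.var _) (((PF.var _).mul (PF.var _)).pow N))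
      (hIn (PF.var _) (PF.var _) (PF.var _) (((PF.var _).mul (PF.var _)).pow N)))))))))
  refine this.congr fun w => ⟨fun h => ?_, ?_⟩
  · obtain ⟨x', y', a1, a2, a3⟩ := exists_den (O := O) hO (w 0)
    obtain ⟨x, y, b1, b2, b3⟩ := exists_den (O := O) hO (w 1)
    choose P hP hPv using exists_prime_below F K
    have hfin : {v : HeightOneSpectrum O | 1 < v.valuation K (w 0)}.Finite := by
      by_cases h0 : w 0 = 0
      · simp [h0]
      · exact (supp_finite h0).subset fun v hv => ne_of_gt hv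
    obtain ⟨B, hB⟩ := S.bdd_below (L := {algebraMap O K x', algebraMap O K y'}) (Set.toFinite _)
    obtain ⟨s, b, hs, hs', hb, hRad⟩ := hR3 (∏ v ∈ hfin.toFinset, (P v).natDegree) B
      (Finset.prod_pos fun v _ => (hP v).natDegree_pos)
    obtain ⟨δ, hδ, hδ'⟩ := hN3 ((hfin.toFinset.image fun v => (P v).natDegree).filter
      fun d => ¬ e ∣ d) fun d hd => (Finset.mem_filter.1 hd).2
    have htv : ∀ v : HeightOneSpectrum O, v.valuation K t ≤ 1 := fun v =>
      val_le_one (K := K) v (algebraMap F[X] _ X)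
    have hθ : ∀ v : HeightOneSpectrum O, v.valuation K (t ^ Nat.card F ^ s - t) ≤ 1 := fun v =>
      (v.valuation K).map_sub_le (by rw [map_pow]; exact pow_le_one₀ zero_le (htv v)) (htv v)
    have hone : ∀ (v : HeightOneSpectrum O) (u z : K), ¬ 1 < v.valuation K (w 0) →
        v.valuation K u ≤ 1 → v.valuation K u ≤ v.valuation K (algebraMap O K x') ∨
          v.valuation K u ≤ v.valuation K (algebraMap O K y') ∨
            v.valuation K u ≤ v.valuation K z := by
      intro v u z hv hu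
      by_contra hcon
      push Not at hcon
      exact hv (one_lt_of_add _ a3 (hcon.1.trans_le hu) (hcon.2.1.trans_le hu))
    have hlast : ∀ x : O, algebraMap O K x * w 1 ∈ (algebraMap O K).range →
        In (algebraMap O K x') (algebraMap O K y') (t ^ Nat.card F ^ s - t)
          ((algebraMap O K x * δ) ^ N) := by
      intro x hx
      refine hIn2 _ _ _ _ ⟨_, rfl⟩ ⟨_, rfl⟩
        (HeightOneSpectrum.mem_integers_of_valuation_le_one K _ hθ) fun v => ?_
      obtain ⟨d1, d2⟩ := hδ' (Sum.inl v) (htv v)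
      by_cases hv : 1 < v.valuation K (w 0)
      · refine Or.inr (Or.inr (le_trans ?_ (hN (Sum.inl v) s hs)))
        have h1 : v.valuation K (algebraMap O K x * δ) < 1 := by
          by_cases hd : e ∣ (P v).natDegree
          · rw [mul_comm]
            exact mul_lt_one' _ d1 (lt_one_of_mul _ (range_le_one hx v)
              (h v ⟨P v, hP v, hd, hPv v⟩ hv))
          · refine mul_lt_one' _ (val_le_one v x) (d2 (P v).natDegree ?_ fun n hn => ?_)
            · exact Finset.mem_filter.2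
                ⟨Finset.mem_image_of_mem _ (hfin.mem_toFinset.2 hv), hd⟩
            · exact (theta_lt_iff F K v (hP v) (hPv v) n).2 hn
        simpa using val_pow_le _ (le_exp_neg_one _ h1) N
      · refine hone v _ _ hv ?_
        rw [map_pow, map_mul]
        exact pow_le_one₀ zero_le (mul_le_one' (val_le_one v x) d1)
    refine ⟨![algebraMap O K x', algebraMap O K y', algebraMap O K x, algebraMap O K y,
      t ^ Nat.card F ^ s - t, (t ^ Nat.card F ^ s - t) ^ Nat.card F ^ b, δ],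
      a1, a2, b3, hRad, hδ, ?_, hlast x b1, hlast y b2⟩
    refine hIn2 _ _ _ _ ⟨_, rfl⟩ ⟨_, rfl⟩ (zero_mem _) fun v => ?_
    by_cases hv : 1 < v.valuation K (w 0)
    · have h1 : v.valuation K (t ^ Nat.card F ^ s - t) < 1 :=
        (theta_lt_iff F K v (hP v) (hPv v) s).2
          ((Finset.dvd_prod_of_mem _ (hfin.mem_toFinset.2 hv)).trans hs')
      have h2 : v.valuation K ((t ^ Nat.card F ^ s - t) ^ Nat.card F ^ b) ≤ exp (-(B : ℤ)) := by
        refine exp_mono (val_pow_le _ (le_exp_neg_one _ h1) _) ?_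
        have : b < Nat.card F ^ b := Nat.lt_pow_self S.two_le
        omega
      by_cases hx : algebraMap O K x' = 0
      · refine Or.inr (Or.inl (h2.trans (hB _ (by simp)
          (fun hy : algebraMap O K y' = 0 => ?_) (Sum.inl v))))
        rw [hx, hy] at a3
        simp at a3
      · exact Or.inl (h2.trans (hB _ (by simp) hx (Sum.inl v)))
    · refine hone v _ _ hv ?_
      show v.valuation K ((t ^ Nat.card F ^ s - t) ^ Nat.card F ^ b) ≤ 1
      rw [map_pow]
      exact pow_le_one₀ zero_le (hθ v)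
  · rintro ⟨c, h0, h1, h2, h3, h4, h5, h6, h7⟩ v ⟨P, hP, hd, hPv⟩ hv
    have a0 := lt_one_of_mul _ (range_le_one h0 v) hv
    have a1 := lt_one_of_mul _ (range_le_one h1 v) hv
    have a4 : v.valuation K (c 4) < 1 :=
      hR2 _ _ h3 (Sum.inl v) (hIn1 v _ _ _ _ h5 a0 a1 (by simp))
    have a6 : 1 ≤ v.valuation K (c 6) := by
      by_contra hlt
      obtain ⟨s, hs, h⟩ := hN2 _ h4 (Sum.inl v) (not_le.1 hlt)
      exact hs (hd.trans ((theta_lt_iff F K v hP hPv s).1 h))
    have key : ∀ x : K, In (c 0) (c 1) (c 4) ((x * c 6) ^ N) → v.valuation K x < 1 := by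
      intro x hx
      have := hIn1 v _ _ _ _ hx a0 a1 a4
      by_contra hlt
      rw [map_pow, map_mul] at this
      exact absurd (one_le_pow₀ (one_le_mul (not_lt.1 hlt) a6)) (not_le.2 this)
    exact one_lt_of_add _ h2 (key _ h6) (key _ h7)

theorem dio_pole_mod (m : ℕ) : Dio fun w : Fin 2 → K =>
    ∀ v : HeightOneSpectrum (FunctionField.ringOfIntegers F K),
      (∃ P : F[X], Irreducible P ∧ Nat.card F ^ P.natDegree ≡ 1 [MOD m] ∧
        algebraMap F[X] (FunctionField.ringOfIntegers F K) P ∈ v.asIdeal) →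
      1 < v.valuation K (w 0) → 1 < v.valuation K (w 1) := by
  have h : ∀ d, Nat.card F ^ d ≡ 1 [MOD m] ↔ orderOf (Nat.card F : ZMod m) ∣ d := fun d => by
    rw [orderOf_dvd_iff_pow_eq_one, ← ZMod.natCast_eq_natCast_iff, Nat.cast_pow, Nat.cast_one]
  simp only [h]
  by_cases he : orderOf (Nat.card F : ZMod m) = 0
  · refine Dio.top.congr fun w => ⟨fun _ => trivial, ?_⟩
    rintro - v ⟨P, hP, hd, -⟩
    rw [he, zero_dvd_iff] at hd
    exact absurd hd hP.natDegree_pos.ne'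
  · exact dio_pole F K he

end Main

end Pool.Agent.MP_a59382_lc.H11

end
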