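import Mathlib
import Pool.Agent.MP_a59382_lc.Deriv

-- part MP_a59382_lc.Padic
section

/-!
Every number field embeds in the field of p-adic numbers for infinitely many primes p = 1 mod 4,
with a given finite set of elements becoming p-adic integers.
-/

set_option autoImplicit false
set_option linter.style.haveILetI false

namespace Pool.Agent.MP_a59382_lc

open Polynomial

lemma schur (m : ℤ[X]) (hm : 0 < m.natDegree) (N : ℕ) (hN : N ≠ 0) :
    ∃ p : ℕ, p.Prime ∧ ¬ p ∣ N ∧ ∃ r : ℤ, (p : ℤ) ∣ m.eval r := by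
  by_cases hc : m.coeff 0 = 0
  · obtain ⟨p, hp, hpp⟩ := Nat.exists_infinite_primes (N + 1)
    refine ⟨p, hpp, fun h => ?_, 0, by rw [← coeff_zero_eq_eval_zero, hc]; simp⟩
    have := Nat.le_of_dvd (Nat.pos_of_ne_zero hN) h
    omega
  set c := m.coeff 0 with hcdef
  have h1 : m - C c ≠ 0 := by
    intro h
    rw [sub_eq_zero] at h
    rw [h, natDegree_C] at hm
    exact lt_irrefl _ hm
  have h2 : m + C c ≠ 0 := by
    intro h
    rw [add_eq_zero_iff_eq_neg, ← C_neg] at h
    rw [h, natDegree_C] at hm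
    exact lt_irrefl _ hm
  have hfin := finite_setOfPred_isRoot (mul_ne_zero h1 h2)
  have hinj : Function.Injective fun t : ℤ => c * N * t := by
    intro s t hst
    exact mul_left_cancel₀ (mul_ne_zero hc (by exact_mod_cast hN)) hst
  obtain ⟨t, ht⟩ := (hfin.preimage hinj.injOn).exists_notMem
  simp only [Set.mem_preimage, Set.mem_ofPred_eq, IsRoot, eval_mul, eval_sub, eval_add, eval_C,
    mul_eq_zero, not_or] at ht
  have he : m.eval (c * N * t) = c * (1 + N * t * m.divX.eval (c * N * t)) := by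
    conv_lhs => rw [← divX_mul_X_add m]
    simp only [eval_add, eval_mul, eval_X, eval_C, ← hcdef]
    ring
  set u := 1 + N * t * m.divX.eval (c * N * t) with hu
  have hu1 : u.natAbs ≠ 1 := by
    intro h
    rcases Int.natAbs_eq_iff.1 h with h | h
    · apply ht.1; rw [he, h]; simp
    · apply ht.2; rw [he, h]; simp
  obtain ⟨p, hp, hpu⟩ := Nat.exists_prime_and_dvd hu1
  have hpu' : (p : ℤ) ∣ u := Int.natCast_dvd.2 hpu
  refine ⟨p, hp, fun h => ?_, c * N * t, by rw [he]; exact hpu'.mul_left _⟩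
  have h3 : (p : ℤ) ∣ N * t * m.divX.eval (c * N * t) :=
    ((Int.natCast_dvd_natCast.2 h).mul_right _).mul_right _
  have h4 : (p : ℤ) ∣ 1 := (dvd_add_left h3).1 hpu'
  exact hp.one_lt.ne' (by exact_mod_cast Int.eq_one_of_dvd_one (by positivity) h4)

lemma emb0 (L : Type*) [Field L] [NumberField L] (N : ℕ) (hN : N ≠ 0) :
    ∃ p : ℕ, ∃ _ : Fact p.Prime, ¬ p ∣ N ∧ Nonempty (L →+* ℚ_[p]) := by
  obtain ⟨α, hα⟩ := Field.exists_primitive_element ℚ L
  have halg : IsAlgebraic ℤ α :=
    (IsFractionRing.isAlgebraic_iff ℤ ℚ L).2 (Algebra.IsAlgebraic.isAlgebraic α)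
  obtain ⟨y, hy, hint⟩ := halg.exists_integral_multiple
  set γ := y • α with hγ
  have hγtop : IntermediateField.adjoin ℚ {γ} = ⊤ := by
    rw [eq_top_iff, ← hα, IntermediateField.adjoin_simple_le_iff]
    have h1 : γ ∈ IntermediateField.adjoin ℚ {γ} := IntermediateField.mem_adjoin_simple_self _ _
    have h2 : α = (y : ℚ)⁻¹ • γ := by
      have : (y : ℚ) ≠ 0 := by exact_mod_cast hy
      rw [hγ, ← Int.cast_smul_eq_zsmul ℚ, smul_smul, inv_mul_cancel₀ this, one_smul]
    rw [h2]
    exact IntermediateField.smul_mem _ h1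
  set m := minpoly ℤ γ with hm
  have hmap : minpoly ℚ γ = m.map (algebraMap ℤ ℚ) :=
    minpoly.isIntegrallyClosed_eq_field_fractions' ℚ hint
  have hsep : (minpoly ℚ γ).Separable := Algebra.IsSeparable.isSeparable ℚ γ
  obtain ⟨a, b, hab⟩ := (separable_def' _).1 hsep
  obtain ⟨da, hda, ha⟩ := IsLocalization.integerNormalization_spec (nonZeroDivisors ℤ) a
  obtain ⟨db, hdb, hb⟩ := IsLocalization.integerNormalization_spec (nonZeroDivisors ℤ) b
  set a0 := IsLocalization.integerNormalization (nonZeroDivisors ℤ) a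
  set b0 := IsLocalization.integerNormalization (nonZeroDivisors ℤ) b
  have hbez : C db * a0 * m + C da * b0 * derivative m = C (da * db) := by
    apply Polynomial.map_injective (algebraMap ℤ ℚ) (algebraMap ℤ ℚ).injective_int
    simp only [Polynomial.map_add, Polynomial.map_mul, map_C, ha, hb, ← derivative_map, ← hmap,
      zsmul_eq_mul, map_mul]
    simp only [algebraMap_int_eq, eq_intCast, map_intCast]
    linear_combination (da * db : ℚ[X]) * hab
  have hd0 : (da * db).natAbs ≠ 0 := by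
    simpa using ⟨nonZeroDivisors.ne_zero hda, nonZeroDivisors.ne_zero hdb⟩
  obtain ⟨p, hp, hpN, r, hr⟩ := schur m (minpoly.natDegree_pos hint) (N * (da * db).natAbs)
    (mul_ne_zero hN hd0)
  haveI : Fact p.Prime := ⟨hp⟩
  refine ⟨p, this, fun h => hpN (h.mul_right _), ?_⟩
  have hnd : ¬ (p : ℤ) ∣ (derivative m).eval r := by
    intro h
    apply hpN
    apply Dvd.dvd.mul_left
    rw [← Int.natCast_dvd]
    have := congrArg (eval r) hbez
    simp only [eval_add, eval_mul, eval_C] at this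
    rw [← this]
    exact dvd_add (hr.mul_left _) (h.mul_left _)
  have e1 : ∀ f : ℤ[X], f.aeval (r : ℤ_[p]) = ((f.eval r : ℤ) : ℤ_[p]) := by
    intro f
    have := aeval_algebraMap_apply ℤ_[p] r f
    simpa using this
  have hnorm : ‖m.aeval (r : ℤ_[p])‖ < ‖m.derivative.aeval (r : ℤ_[p])‖ ^ 2 := by
    rw [e1, e1]
    have h1 : ‖((m.eval r : ℤ) : ℤ_[p])‖ < 1 := (PadicInt.norm_int_lt_one_iff_dvd _).2 hr
    have h2 : ‖(((derivative m).eval r : ℤ) : ℤ_[p])‖ = 1 :=
      le_antisymm (PadicInt.norm_le_one _)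
        (not_lt.1 fun h => hnd ((PadicInt.norm_int_lt_one_iff_dvd _).1 h))
    rw [h2]; simpa using h1
  obtain ⟨z, hz, -⟩ := hensels_lemma hnorm
  have hz' : aeval (z : ℚ_[p]) (minpoly ℚ γ) = 0 := by
    rw [hmap, aeval_map_algebraMap]
    have := aeval_algebraMap_apply ℚ_[p] z m
    rw [hz, map_zero] at this
    exact this
  have hintQ : IsIntegral ℚ γ := Algebra.IsIntegral.isIntegral γ
  let pb := IntermediateField.adjoin.powerBasis hintQ
  have hz'' : aeval (z : ℚ_[p]) (minpoly ℚ pb.gen) = 0 := by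
    have : minpoly ℚ pb.gen = minpoly ℚ γ := IntermediateField.minpoly_gen ℚ γ
    rw [this]
    exact hz'
  let f := pb.lift (z : ℚ_[p]) hz''
  let e : L ≃ₐ[ℚ] IntermediateField.adjoin ℚ {γ} :=
    (IntermediateField.topEquiv.symm).trans (IntermediateField.equivOfEq hγtop.symm)
  exact ⟨(f.comp e.toAlgHom).toRingHom⟩

lemma norm_le_one_of_isIntegral {L : Type*} [CommRing L] {p : ℕ} [Fact p.Prime]
    (ι : L →+* ℚ_[p]) {x : L} (hx : IsIntegral ℤ x) : ‖ι x‖ ≤ 1 := by
  have h1 : IsIntegral ℤ (ι x) := hx.map ι.toIntAlgHom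
  have h2 : IsIntegral ℤ_[p] (ι x) := h1.tower_top
  obtain ⟨y, hy⟩ := IsIntegrallyClosed.isIntegral_iff.1 h2
  rw [← hy]
  exact y.2

theorem emb (L : Type*) [Field L] [NumberField L] (s : Finset L) (N : ℕ) (hN : N ≠ 0) :
    ∃ p : ℕ, ∃ _ : Fact p.Prime, p % 4 = 1 ∧ ¬ p ∣ N ∧ ∃ ι : L →+* ℚ_[p], ∀ x ∈ s, ‖ι x‖ ≤ 1 := by
  have h1 : ∀ x : L, ∃ y : ℤ, y ≠ 0 ∧ IsIntegral ℤ (y • x) := fun x =>
    ((IsFractionRing.isAlgebraic_iff ℤ ℚ L).2
      (Algebra.IsAlgebraic.isAlgebraic x)).exists_integral_multiple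
  choose y hy0 hy using h1
  let f : L[X] := X ^ 2 + 1
  let L' := f.SplittingField
  haveI : NumberField L' := NumberField.of_module_finite L L'
  have hf : (f.map (algebraMap L L')).degree ≠ 0 := by
    have : (f.map (algebraMap L L')) = X ^ 2 + C 1 := by simp [f]
    rw [this, degree_X_pow_add_C (by norm_num)]
    norm_num
  obtain ⟨i, hi⟩ := (SplittingField.splits f).exists_eval_eq_zero hf
  have hi' : i ^ 2 + 1 = 0 := by simpa [f] using hi
  obtain ⟨p, hp, hpN, ⟨κ⟩⟩ := emb0 L' (2 * N * ∏ x ∈ s, (y x).natAbs)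
    (mul_ne_zero (mul_ne_zero two_ne_zero hN) (Finset.prod_ne_zero_iff.2 fun x _ => by
      simpa using hy0 x))
  refine ⟨p, hp, ?_, fun h => hpN ((h.mul_left _).mul_right _), κ.comp (algebraMap L L'), ?_⟩
  · have hii : IsIntegral ℤ i := ⟨X ^ 2 + 1, by monicity!, by simpa using hi'⟩
    let j : ℤ_[p] := ⟨κ i, norm_le_one_of_isIntegral κ hii⟩
    have hj : j ^ 2 + 1 = 0 := by
      apply Subtype.ext
      have := congrArg κ hi'
      simp only [map_add, map_pow, map_one, map_zero] at this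
      rw [PadicInt.coe_add, PadicInt.coe_pow]
      exact this
    have hj' := congrArg (PadicInt.toZMod (p := p)) hj
    simp only [map_add, map_pow, map_one, map_zero] at hj'
    have h3 : p % 4 ≠ 3 := ZMod.mod_four_ne_three_of_sq_eq_neg_one (y := PadicInt.toZMod j)
      (by linear_combination hj')
    have h2 : p ≠ 2 := by
      rintro rfl
      exact hpN ((dvd_mul_right 2 N).mul_right _)
    have h4 := hp.out.eq_two_or_odd.resolve_left h2
    omega
  · intro x hx
    have h2 := norm_le_one_of_isIntegral (κ.comp (algebraMap L L')) (hy x)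
    have h3 : ‖((y x : ℤ) : ℚ_[p])‖ = 1 := by
      refine le_antisymm (Padic.norm_int_le_one _) (not_lt.1 fun h => hpN ?_)
      rw [Padic.norm_intCast_lt_one_iff] at h
      exact ((Int.natCast_dvd.1 h).trans (Finset.dvd_prod_of_mem (fun x => (y x).natAbs) hx)).mul_left _
    rw [zsmul_eq_mul, map_mul, map_intCast, norm_mul, h3, one_mul] at h2
    exact h2

/-- All embeddings into p-adic fields with p = 1 mod 4 send the element to an integer. -/
def PInt {K : Type*} [Field K] (x : K) : Prop :=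
  ∀ (p : ℕ) [Fact p.Prime], p % 4 = 1 → ∀ κ : K →+* ℚ_[p], ‖κ x‖ ≤ 1

open NumberField IsDedekindDomain in
theorem pInt_of_valuation {K : Type*} [Field K] [NumberField K] {x : K}
    (h : ∀ v : HeightOneSpectrum (𝓞 K), (∃ p : ℕ, p.Prime ∧ p % 4 = 1 ∧ (p : 𝓞 K) ∈ v.asIdeal) →
      v.valuation K x ≤ 1) : PInt x := by
  intro p hp hp4 κ
  let ψ : 𝓞 K →+* ℤ_[p] := (κ.comp (algebraMap (𝓞 K) K)).codRestrict (PadicInt.subring p)
    (fun y => norm_le_one_of_isIntegral (κ.comp (algebraMap (𝓞 K) K))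
      (RingOfIntegers.isIntegral y))
  have hψ : ∀ y, ((ψ y : ℤ_[p]) : ℚ_[p]) = κ (algebraMap (𝓞 K) K y) := fun y => rfl
  have hpm : (p : 𝓞 K) ∈ (IsLocalRing.maximalIdeal ℤ_[p]).comap ψ := by
    rw [Ideal.mem_comap, map_natCast, PadicInt.maximalIdeal_eq_span_p]
    exact Ideal.mem_span_singleton_self _
  let v : HeightOneSpectrum (𝓞 K) := ⟨(IsLocalRing.maximalIdeal ℤ_[p]).comap ψ, inferInstance,
    fun h0 => by
      rw [h0, Ideal.mem_bot] at hpm
      exact hp.out.ne_zero (by exact_mod_cast hpm)⟩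
  obtain ⟨n, d, hnd⟩ := v.exists_primeCompl_mul_eq_of_integer x (h v ⟨p, hp.out, hp4, hpm⟩)
  have hd : ‖ψ d‖ = 1 := by
    have := d.2
    change ¬ ψ d ∈ IsLocalRing.maximalIdeal ℤ_[p] at this
    rw [IsLocalRing.mem_maximalIdeal, PadicInt.mem_nonunits] at this
    exact le_antisymm (PadicInt.norm_le_one _) (not_lt.1 this)
  have h1 := congrArg (fun z => ‖κ z‖) hnd
  simp only [map_mul, norm_mul, ← hψ] at h1
  rw [PadicInt.norm_def] at hd
  rw [hd, mul_one] at h1
  rw [h1]
  exact (ψ n).2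

end Pool.Agent.MP_a59382_lc

end

-- part MP_a59382_lc.Vertex
section

/-!
A cubic hypersurface with a moving point and without horizontal rational curves of degree at most
three is a cone.  The moving point is encoded by a derivation.
-/

set_option autoImplicit false

namespace Pool.Agent.MP_a59382_lc

section Vertex

variable {E U : Type*} [Field E] [AddCommGroup U] [Module E U]

/-- The determinant of the two linear forms at two vectors. -/
def br (a w : U →ₗ[E] E) (x y : U) : E := a x * w y - a y * w x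

/-- Symmetry of a trilinear form. -/
structure IsSym (T : U →ₗ[E] U →ₗ[E] U →ₗ[E] E) : Prop where
  s12 : ∀ x y z, T x y z = T y x z
  s23 : ∀ x y z, T x y z = T x z y

/-- No horizontal rational curve of degree at most three. -/
def NoCurve (T : U →ₗ[E] U →ₗ[E] U →ₗ[E] E) (a w : U →ₗ[E] E) : Prop :=
  ∀ c0 c1 c2 c3 : U,
    (∀ s : Fin 10, T (c0 + ((s : ℕ) : E) • c1 + ((s : ℕ) : E) ^ 2 • c2 + ((s : ℕ) : E) ^ 3 • c3)
      (c0 + ((s : ℕ) : E) • c1 + ((s : ℕ) : E) ^ 2 • c2 + ((s : ℕ) : E) ^ 3 • c3)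
      (c0 + ((s : ℕ) : E) • c1 + ((s : ℕ) : E) ^ 2 • c2 + ((s : ℕ) : E) ^ 3 • c3) = 0) →
    br a w c0 (c0 + c1 + c2 + c3) = 0

variable {T : U →ₗ[E] U →ₗ[E] U →ₗ[E] E} {a w : U →ₗ[E] E}

lemma IsSym.cube2 (hT : IsSym T) (x y : U) (s t : E) :
    T (s • x + t • y) (s • x + t • y) (s • x + t • y) =
      s ^ 3 * T x x x + 3 * s ^ 2 * t * T x x y + 3 * s * t ^ 2 * T x y y + t ^ 3 * T y y y := by
  have h1 : T x y x = T x x y := hT.s23 _ _ _
  have h2 : T y x x = T x x y := by rw [hT.s12 y x x, h1]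
  have h3 : T y x y = T x y y := hT.s12 _ _ _
  have h4 : T y y x = T x y y := by rw [hT.s23 y y x, h3]
  simp only [map_add, map_smul, LinearMap.add_apply, LinearMap.smul_apply, smul_eq_mul,
    h1, h2, h3, h4]
  ring

lemma NoCurve.line (hN : NoCurve T a w) (hT : IsSym T) {x y : U} (h1 : T x x x = 0)
    (h2 : T x x y = 0) (h3 : T x y y = 0) (h4 : T y y y = 0) : br a w x y = 0 := by
  have := hN x y 0 0 (by
    intro s
    have := hT.cube2 x y 1 ((s : ℕ) : E)
    simp only [one_smul] at this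
    simp only [smul_zero, add_zero, this, h1, h2, h3, h4]
    ring)
  simp only [br, add_zero, map_add] at this ⊢
  linear_combination this

/-- The residual point of a tangent line. -/
def res (T : U →ₗ[E] U →ₗ[E] U →ₗ[E] E) (p x : U) : U := T x x x • p + (-3 * T p x x) • x

lemma NoCurve.tangent (hN : NoCurve T a w) (hT : IsSym T) {p x y : U} (h1 : T p p p = 0)
    (h2 : T p p x = 0) (h3 : T p p y = 0) : br a w (res T p x) (res T p y) = 0 := by
  obtain ⟨h, rfl⟩ : ∃ h, y = x + h := ⟨y - x, by abel⟩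
  have h3' : T p p h = 0 := by
    rw [map_add, h2, zero_add] at h3; exact h3
  have e1 : T x h x = T x x h := hT.s23 _ _ _
  have e2 : T h x x = T x x h := by rw [hT.s12 h x x, e1]
  have e3 : T h x h = T x h h := hT.s12 _ _ _
  have e4 : T h h x = T x h h := by rw [hT.s23 h h x, e3]
  have e5 : T p h x = T p x h := hT.s23 _ _ _
  have key : ∀ s : E, res T p x + s • ((3 * T x x h) • p + (-6 * T p x h) • x + (-3 * T p x x) • h)
      + s ^ 2 • ((3 * T x h h) • p + (-3 * T p h h) • x + (-6 * T p x h) • h)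
      + s ^ 3 • ((T h h h) • p + (-3 * T p h h) • h) = res T p (x + s • h) := by
    intro s
    simp only [res, map_add, map_smul, LinearMap.add_apply, LinearMap.smul_apply, smul_eq_mul,
      e1, e2, e3, e4, e5]
    module
  have := hN (res T p x) ((3 * T x x h) • p + (-6 * T p x h) • x + (-3 * T p x x) • h)
    ((3 * T x h h) • p + (-3 * T p h h) • x + (-6 * T p x h) • h)
    ((T h h h) • p + (-3 * T p h h) • h) (by
      intro s
      rw [key, res, hT.cube2, h1]
      have : T p p (x + ((s : ℕ) : E) • h) = 0 := by simp [h2, h3']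
      rw [this]; ring)
  have k1 := key 1
  simp only [one_pow, one_smul] at k1
  rw [k1] at this
  exact this

/-- The third point on a chord whose second point is on the cubic. -/
def chord (T : U →ₗ[E] U →ₗ[E] U →ₗ[E] E) (p x : U) : U := T p x x • p + (- T p p x) • x

lemma NoCurve.chords (hN : NoCurve T a w) (hT : IsSym T) {p x h : U} (h1 : T p p p = 0)
    (h2 : T x x x = 0) (h3 : T x x h = 0) (h4 : T x h h = 0) (h5 : T h h h = 0) :
    br a w (chord T p x) (chord T p (x + h)) = 0 := by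
  have e5 : T p h x = T p x h := hT.s23 _ _ _
  have key : ∀ s : E, chord T p x + s • ((2 * T p x h) • p + (- T p p h) • x + (- T p p x) • h)
      + s ^ 2 • ((T p h h) • p + (- T p p h) • h)
      + s ^ 3 • (0 : U) = chord T p (x + s • h) := by
    intro s
    simp only [chord, map_add, map_smul, LinearMap.add_apply, LinearMap.smul_apply, smul_eq_mul,
      e5]
    module
  have := hN (chord T p x) ((2 * T p x h) • p + (- T p p h) • x + (- T p p x) • h)
    ((T p h h) • p + (- T p p h) • h) 0 (by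
      intro s
      rw [key, chord, hT.cube2, h1]
      have := hT.cube2 x h 1 ((s : ℕ) : E)
      simp only [one_smul] at this
      rw [this, h2, h3, h4, h5]; ring)
  have k1 := key 1
  simp only [one_pow, one_smul] at k1
  rw [k1] at this
  exact this

lemma IsSym.polar3 [CharZero E] (hT : IsSym T) (M : Submodule E U) (hM : ∀ x ∈ M, T x x x = 0)
    {x y z : U} (hx : x ∈ M) (hy : y ∈ M) (hz : z ∈ M) : T x y z = 0 := by
  have h1 := hM _ (M.add_mem (M.add_mem hx hy) hz)
  have h2 := hM _ (M.add_mem hx hy)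
  have h3 := hM _ (M.add_mem hx hz)
  have h4 := hM _ (M.add_mem hy hz)
  have h5 := hM _ hx
  have h6 := hM _ hy
  have h7 := hM _ hz
  have e1 : T x z y = T x y z := hT.s23 _ _ _
  have e2 : T y x z = T x y z := hT.s12 _ _ _
  have e3 : T y z x = T x y z := by rw [hT.s23 y z x, e2]
  have e4 : T z x y = T x y z := by rw [hT.s12 z x y, e1]
  have e5 : T z y x = T x y z := by rw [hT.s12 z y x, e3]
  simp only [map_add, LinearMap.add_apply, e1, e2, e3, e4, e5] at h1 h2 h3 h4
  have : (6 : E) * T x y z = 0 := by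
    linear_combination h1 - h2 - h3 - h4 + h5 + h6 + h7
  simpa using this

lemma IsSym.polar2 [CharZero E] (hT : IsSym T) (M : Submodule E U) (p : U)
    (hM : ∀ x ∈ M, T p x x = 0) {x y : U} (hx : x ∈ M) (hy : y ∈ M) : T p x y = 0 := by
  have h1 := hM _ (M.add_mem hx hy)
  have h2 := hM _ hx
  have h3 := hM _ hy
  have e1 : T p y x = T p x y := hT.s23 _ _ _
  simp only [map_add, LinearMap.add_apply, e1] at h1
  have : (2 : E) * T p x y = 0 := by linear_combination h1 - h2 - h3
  simpa using this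

/-- A connection-like structure: a derivation on scalars and on vectors for which the
trilinear form and the two linear forms are constant. -/
structure IsDer (T : U →ₗ[E] U →ₗ[E] U →ₗ[E] E) (a w : U →ₗ[E] E) (D : E → E) (d : U → U) :
    Prop where
  zero : D 0 = 0
  tri : ∀ x y z, D (T x y z) = T (d x) y z + T x (d y) z + T x y (d z)
  ha : ∀ x, D (a x) = a (d x)
  hw : ∀ x, D (w x) = w (d x)

/-- `br` as a linear form in the second variable. -/
def brL (a w : U →ₗ[E] E) (x : U) : U →ₗ[E] E := a x • w - w x • a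

lemma brL_apply (x y : U) : brL a w x y = br a w x y := by
  simp [brL, br]; ring

theorem vertex [CharZero E] (hT : IsSym T) (hN : NoCurve T a w) {D : E → E} {d : U → U}
    (hD : IsDer T a w D d) {P : U} (hP : T P P P = 0) (hb : br a w P (d P) ≠ 0)
    {y : U} (hya : a y = 0) (hyw : w y = 0) (hyL : T P P y = 0) (x x' : U) : T y x x' = 0 := by
  have der : ∀ x y z, T x y z = 0 → T (d x) y z + T x (d y) z + T x y (d z) = 0 := by
    intro x y z h
    rw [← hD.tri, h, hD.zero]
  have s12 := hT.s12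
  have s23 := hT.s23
  have s13 : ∀ x y z, T x y z = T z y x := fun x y z => by rw [s12, s23, s12]
  set P1 := d P with hP1
  have hL1 : T P P P1 = 0 := by
    have := der P P P hP
    rw [s13 P1 P P, s23 P P1 P] at this
    have h3 : (3 : E) * T P P P1 = 0 := by linear_combination this
    simpa using h3
  set q := T P P1 P1 with hq
  have hq0 : q ≠ 0 := by
    intro hq0
    set P2 := d P1 with hP2
    have hL2 : T P P P2 = 0 := by
      have := der P P P1 hL1
      rw [s12 P1 P P1] at this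
      linear_combination this - 2 * hq0
    by_cases hF : T P1 P1 P1 = 0
    · exact hb (hN.line hT hP hL1 hq0 hF)
    have key : ∀ s : E, (2 * s * T P P1 P2 + s ^ 2 * T P P2 P2) *
        (br a w P P1 + s * br a w P P2) = 0 := by
      intro s
      have h1 := hN.tangent hT (p := P) (x := P1) (y := P1 + s • P2) hP hL1 (by simp [hL1, hL2])
      have e : T P P2 P1 = T P P1 P2 := s23 _ _ _
      have h2 : T P (P1 + s • P2) (P1 + s • P2) = 2 * s * T P P1 P2 + s ^ 2 * T P P2 P2 := by
        simp only [map_add, map_smul, LinearMap.add_apply, LinearMap.smul_apply, smul_eq_mul, e,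
          ← hq, hq0]
        ring
      simp only [res, h2, ← hq, hq0] at h1
      simp only [br, map_add, map_smul, smul_eq_mul] at h1 ⊢
      have h3 : (-3 * T P1 P1 P1) * ((2 * s * T P P1 P2 + s ^ 2 * T P P2 P2) *
          (a P * w P1 - a P1 * w P + s * (a P * w P2 - a P2 * w P))) = 0 := by
        linear_combination h1
      rcases mul_eq_zero.1 h3 with h | h
      · exact absurd (by simpa using h) hF
      · exact h
    have hu : T P P1 P2 = 0 := by
      have h : (12 : E) * (T P P1 P2 * br a w P P1) = 0 := by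
        linear_combination 18 * key 1 - 9 * key 2 + 2 * key 3
      simpa [hb] using h
    have := der P P1 P1 hq0
    rw [s23 P P2 P1, hu] at this
    exact hF (by linear_combination this)
  -- the residual point
  obtain ⟨κ, hκ⟩ : ∃ κ : E, T P1 P1 P1 + 3 * κ * q = 0 :=
    ⟨-T P1 P1 P1 / (3 * q), by field_simp; ring⟩
  set r := P1 + κ • P with hr
  have hPPr : T P P r = 0 := by simp [hr, hL1, hP]
  have hPrr : T P r r = q := by
    have e : T P P1 P = 0 := by rw [s23, hL1]
    simp [hr, hL1, hP, e, hq]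
  have hrrr : T r r r = 0 := by
    have := hT.cube2 P1 P 1 κ
    simp only [one_smul] at this
    rw [hr, this, hP, s13 P1 P1 P, s13 P1 P P, hL1, ← hq]
    linear_combination hκ
  have hbr : br a w P r ≠ 0 := by
    have : br a w P r = br a w P P1 := by simp [hr, br]; ring
    rwa [this]
  have hP1r : P1 = r - κ • P := by simp [hr]
  let M : Submodule E U := LinearMap.ker (T P P) ⊓ LinearMap.ker (brL a w r)
  have memM : ∀ x, x ∈ M ↔ T P P x = 0 ∧ br a w r x = 0 := by
    intro x; simp [M, brL_apply]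
  let Λ : Submodule E U := LinearMap.ker (T P P) ⊓ LinearMap.ker a ⊓ LinearMap.ker w
  have memΛ : ∀ x, x ∈ Λ ↔ T P P x = 0 ∧ a x = 0 ∧ w x = 0 := by
    intro x; simp [Λ, and_assoc]
  have ΛM : ∀ x ∈ Λ, x ∈ M := by
    intro x hx
    rw [memΛ] at hx
    rw [memM]
    exact ⟨hx.1, by simp [br, hx.2.1, hx.2.2]⟩
  have rM : r ∈ M := by rw [memM]; exact ⟨hPPr, by simp [br]⟩
  have hM0 : ∀ x ∈ M, T x x x = 0 := by
    intro x hx
    rw [memM] at hx
    have h1 := hN.tangent hT (p := P) (x := r) (y := x) hP hPPr hx.1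
    have h2 := hx.2
    simp only [res, hrrr, hPrr, br, map_add, map_smul, smul_eq_mul] at h1 h2 hbr
    have h3 : (3 * q * (a P * w r - a r * w P)) * T x x x = 0 := by
      linear_combination h1 - 9 * q * T P x x * h2
    rcases mul_eq_zero.1 h3 with h | h
    · exact absurd h (mul_ne_zero (mul_ne_zero (by norm_num) hq0) hbr)
    · exact h
  have hM : ∀ x ∈ M, ∀ y ∈ M, ∀ z ∈ M, T x y z = 0 :=
    fun x hx y hy z hz => hT.polar3 M hM0 hx hy hz
  set r1 := d r with hr1
  have hLr1 : T P P r1 = -2 * q := by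
    have := der P P r hPPr
    rw [← hP1, s12 P1 P r, hP1r] at this
    simp only [map_sub, map_smul, LinearMap.sub_apply, LinearMap.smul_apply, smul_eq_mul, hPrr,
      hPPr] at this
    linear_combination this
  have hrrr1 : T r r r1 = 0 := by
    have := der r r r hrrr
    rw [s13 r1 r r, s23 r r1 r] at this
    have h3 : (3 : E) * T r r r1 = 0 := by linear_combination this
    simpa using h3
  have hbr' : br a w r P ≠ 0 := by
    have : br a w r P = - br a w P r := by simp [br]
    rw [this]; exact neg_ne_zero.2 hbr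
  have dec : ∀ x, ∃ c c' : E, ∃ m ∈ M, x = c • r1 + c' • P + m := by
    intro x
    refine ⟨T P P x / (-2 * q), (br a w r x - T P P x / (-2 * q) * br a w r r1) / br a w r P,
      x - (T P P x / (-2 * q)) • r1 -
        ((br a w r x - T P P x / (-2 * q) * br a w r r1) / br a w r P) • P, ?_, by abel⟩
    rw [memM]
    constructor
    · simp only [map_sub, map_smul, smul_eq_mul, hLr1, hP]
      field_simp
      ring
    · rw [← brL_apply]
      simp only [map_sub, map_smul, smul_eq_mul, brL_apply]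
      field_simp
      ring
  have decM : ∀ m ∈ M, ∃ ρ : E, ∃ y ∈ Λ, m = ρ • r + y := by
    intro m hm
    rw [memM] at hm
    refine ⟨br a w P m / br a w P r, m - (br a w P m / br a w P r) • r, ?_, by abel⟩
    rw [memΛ]
    have h2 := hm.2
    refine ⟨by simp [hm.1, hPPr], ?_, ?_⟩
    · simp only [map_sub, map_smul, smul_eq_mul]
      field_simp
      simp only [br] at h2 ⊢
      linear_combination (- a P) * h2
    · simp only [map_sub, map_smul, smul_eq_mul]
      field_simp
      simp only [br] at h2 ⊢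
      linear_combination (- w P) * h2
  have iso : ∀ y ∈ Λ, ∀ c : E, T P r y = c * q → T P y y = c ^ 2 * q → c = 0 := by
    intro y hy c h1 h2
    have hm : y - c • r ∈ M := M.sub_mem (ΛM y hy) (M.smul_mem c rM)
    have h3 := hN.line hT hP ((memM _).1 hm).1 (by
      have e : T P y r = T P r y := s23 _ _ _
      simp only [map_sub, map_smul, LinearMap.sub_apply, LinearMap.smul_apply, smul_eq_mul, e,
        h1, h2, hPrr]
      ring) (hM0 _ hm)
    rw [memΛ] at hy
    simp only [br, map_sub, map_smul, smul_eq_mul, hy.2.1, hy.2.2] at h3 hbr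
    have h4 : c * (a P * w r - a r * w P) = 0 := by linear_combination -h3
    exact (mul_eq_zero.1 h4).resolve_right hbr
  have dΛ : ∀ y ∈ Λ, a (d y) = 0 ∧ w (d y) = 0 ∧ T P P (d y) = -2 * T P r y := by
    intro y hy
    rw [memΛ] at hy
    refine ⟨by rw [← hD.ha, hy.2.1, hD.zero], by rw [← hD.hw, hy.2.2, hD.zero], ?_⟩
    have := der P P y hy.1
    rw [← hP1, s12 P1 P y, hP1r] at this
    simp only [map_sub, map_smul, LinearMap.sub_apply, LinearMap.smul_apply, smul_eq_mul,
      hy.1] at this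
    linear_combination this
  have key : ∀ y ∈ Λ, ∃ c : E, ∃ m ∈ M, d y = c • r1 + m ∧ T P r y = c * q ∧ T r1 r y = 0 ∧
      T r1 y y = 0 := by
    intro y hy
    obtain ⟨c, c', m, hm, hd⟩ := dec (d y)
    obtain ⟨h1, h2, h3⟩ := dΛ y hy
    have yM := ΛM y hy
    have hc : T P r y = c * q := by
      rw [hd] at h3
      simp only [map_add, map_smul, smul_eq_mul, hLr1, hP, ((memM _).1 hm).1] at h3
      have : (2 : E) * (T P r y - c * q) = 0 := by linear_combination h3
      have := (mul_eq_zero.1 this).resolve_left (by norm_num)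
      linear_combination this
    have hl : c * br a w r r1 + c' * br a w r P = 0 := by
      have h4 : br a w r (d y) = 0 := by simp [br, h1, h2]
      rw [hd, ← brL_apply] at h4
      simp only [map_add, map_smul, smul_eq_mul, brL_apply, ((memM _).1 hm).2] at h4
      linear_combination h4
    have e1 := der r r y (hM r rM r rM y yM)
    have e2 := der r y y (hM r rM y yM y yM)
    have e3 := der y y y (hM y yM y yM y yM)
    rw [← hr1, s12 r r1 y, hd] at e1
    rw [← hr1, s23 r (d y) y, hd] at e2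
    rw [s13 (d y) y y, s23 y (d y) y, hd] at e3
    simp only [map_add, map_smul, smul_eq_mul, hrrr1, hM r rM r rM m hm, hM r rM y yM m hm,
      hM y yM y yM m hm] at e1 e2 e3
    rw [s13 r r P, hPrr] at e1
    rw [s13 r y r1, s23 r1 y r, s13 r y P, s23 P y r, hc] at e2
    rw [s13 y y r1, s13 y y P] at e3
    have hc' : c' = 0 := by
      by_contra hc'
      have h5 : c' * (T P y y - c ^ 2 * q) = 0 := by
        linear_combination (1 / 3 : E) * e3 - c * e2 + c ^ 2 * e1
      have h6 := (mul_eq_zero.1 h5).resolve_left hc'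
      have h7 := iso y hy c hc (by linear_combination h6)
      rw [h7] at hl
      simp only [zero_mul, zero_add] at hl
      exact hbr' ((mul_eq_zero.1 hl).resolve_left hc')
    have h8 : T r1 r y = 0 := by
      rw [hc'] at e1
      have : (2 : E) * T r1 r y = 0 := by linear_combination e1
      simpa using this
    refine ⟨c, m, hm, by rw [hd, hc']; simp, hc, h8, ?_⟩
    rw [hc', h8] at e2
    linear_combination e2
  have hB : ∀ x ∈ M, ∀ y ∈ M, T r1 x y = 0 := by
    intro x hx y hy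
    refine hT.polar2 M r1 ?_ hx hy
    intro m hm
    obtain ⟨ρ, y, hy, rfl⟩ := decM m hm
    obtain ⟨c, m, -, -, -, h1, h2⟩ := key y hy
    have e : T r1 y r = 0 := by rw [s23, h1]
    have e' : T r1 r r = 0 := by rw [s13, hrrr1]
    simp [h1, h2, e, e']
  obtain ⟨c2, η, m2, hm2, hd2⟩ := dec (d r1)
  have hrr1r1 : 2 * T r r1 r1 + η * q = 0 := by
    have := der r r r1 hrrr1
    rw [← hr1, s12 r1 r r1, hd2] at this
    simp only [map_add, map_smul, smul_eq_mul, hrrr1, hM r rM r rM m2 hm2] at this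
    rw [s13 r r P, hPrr] at this
    linear_combination this
  have hη : η ≠ 0 := by
    intro hη
    have h1 : T r r1 r1 = 0 := by
      rw [hη] at hrr1r1
      simpa using hrr1r1
    have h2 : T r1 r1 r1 = 0 := by
      have := der r r1 r1 h1
      rw [← hr1, s23 r (d r1) r1, hd2, hη] at this
      have e : T r r1 m2 = 0 := by rw [s12, hB r rM m2 hm2]
      simp only [map_add, map_smul, smul_eq_mul, h1, e] at this
      linear_combination this
    have k1 := hN.chords hT (p := P) (x := r) (h := r1) hP hrrr hrrr1 h1 h2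
    have k2 := hN.chords hT (p := P) (x := r) (h := (2 : E) • r1) hP hrrr (by simp [hrrr1])
      (by simp [h1]) (by simp [h2])
    simp only [chord, br, map_add, map_smul, smul_eq_mul, hPrr, hPPr, hLr1] at k1 k2 hbr
    have h3 : (4 * q ^ 2) * (a P * w r - a r * w P) = 0 := by
      linear_combination 4 * k1 - k2
    exact hbr ((mul_eq_zero.1 h3).resolve_left (mul_ne_zero (by norm_num) (pow_ne_zero _ hq0)))
  have key2 : ∀ y ∈ Λ, T P r y = 0 ∧ T P y y = 0 ∧ T r1 r1 y = 0 := by
    intro y hy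
    have yM := ΛM y hy
    obtain ⟨c, m, hm, hd, hc, h1, h2⟩ := key y hy
    have e1 := der r r1 y (by rw [s12, h1])
    rw [← hr1, hd, hd2] at e1
    have f1 : T r r1 m = 0 := by rw [s12, hB r rM m hm]
    have f2 : T r r1 y = 0 := by rw [s12, h1]
    have f3 : T r P y = c * q := by rw [s12, hc]
    simp only [map_add, map_smul, LinearMap.add_apply, LinearMap.smul_apply, smul_eq_mul, f1, f2,
      f3, hM r rM m2 hm2 y yM] at e1
    have e2 := der y y r1 (by rw [s13, h2])
    rw [s12 (d y) y r1, hd, hd2] at e2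
    have f4 : T y m r1 = 0 := by rw [s13, hB m hm y yM]
    have f5 : T y y r1 = 0 := by rw [s13, h2]
    have f6 : T y r1 r1 = T r1 r1 y := s13 _ _ _
    have f7 : T y y P = T P y y := s13 _ _ _
    simp only [map_add, map_smul, LinearMap.add_apply, LinearMap.smul_apply, smul_eq_mul, f4, f5,
      f6, f7, hM y yM y yM m2 hm2] at e2
    have h5 : η * (T P y y - c ^ 2 * q) = 0 := by
      linear_combination e2 - 2 * c * e1 + c ^ 2 * hrr1r1
    have h6 := (mul_eq_zero.1 h5).resolve_left hη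
    have h7 := iso y hy c hc (by linear_combination h6)
    rw [h7] at hc h6 e1
    refine ⟨by simpa using hc, by simpa using h6, by simpa using e1⟩
  have hy : y ∈ Λ := (memΛ y).2 ⟨hyL, hya, hyw⟩
  have yM := ΛM y hy
  have g1 : ∀ m ∈ M, T y P m = 0 := by
    intro m hm
    obtain ⟨ρ, y2, hy2, rfl⟩ := decM m hm
    have e1 : T y P r = 0 := by rw [s12, s23, (key2 y hy).1]
    have e2 : T y P y2 = 0 := by
      rw [s12]; exact hT.polar2 Λ P (fun z hz => (key2 z hz).2.1) hy hy2
    simp [e1, e2]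
  have g2 : T y P r1 = 0 := by
    have := der P r y (key2 y hy).1
    obtain ⟨h1, h2, h3⟩ := dΛ y hy
    have hdy : d y ∈ Λ := (memΛ _).2 ⟨by rw [h3, (key2 y hy).1]; simp, h1, h2⟩
    rw [← hP1, ← hr1, (key2 _ hdy).1, hP1r] at this
    simp only [map_sub, map_smul, LinearMap.sub_apply, LinearMap.smul_apply, smul_eq_mul,
      hM r rM r rM y yM, (key2 y hy).1] at this
    rw [s12, s23]
    linear_combination this
  have g3 : T y r1 r1 = 0 := by rw [s13, (key2 y hy).2.2]
  have g4 : T y P P = 0 := by rw [s13, hyL]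
  have g5 : ∀ m ∈ M, T y r1 m = 0 := fun m hm => by rw [s12, hB y yM m hm]
  obtain ⟨c, c', m, hm, rfl⟩ := dec x
  obtain ⟨e, e', n, hn, rfl⟩ := dec x'
  have g6 : T y r1 P = 0 := by rw [s23, g2]
  have g7 : T y m r1 = 0 := by rw [s23, g5 m hm]
  have g8 : T y m P = 0 := by rw [s23, g1 m hm]
  simp [g1 n hn, g2, g3, g4, g5 n hn, g6, g7, g8, hM y yM m hm n hn]

end Vertex

end Pool.Agent.MP_a59382_lc

end

-- part MP_a59382_lc.RC
section

/-!
A rational function all of whose values are integral at the primes above p = 1 mod 4 is constant.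
-/

set_option autoImplicit false
set_option linter.style.haveILetI false

namespace Pool.Agent.MP_a59382_lc

open Polynomial

lemma norm_eval_le {L : Type*} [CommRing L] {p : ℕ} [Fact p.Prime] (ι : L →+* ℚ_[p])
    (f : L[X]) (hf : ∀ c ∈ f.coeffs, ‖ι c‖ ≤ 1) {x : L} (hx : ‖ι x‖ ≤ 1) :
    ‖ι (f.eval x)‖ ≤ 1 := by
  have : f.eval x ∈ (PadicInt.subring p).comap ι := by
    rw [eval_eq_sum_range]
    refine Subring.sum_mem _ fun i _ => Subring.mul_mem _ ?_ (Subring.pow_mem _ hx _)
    by_cases h : f.coeff i = 0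
    · rw [h]; exact Subring.zero_mem _
    · exact hf _ (coeff_mem_coeffs h)
  exact this

lemma exists_int_near {p : ℕ} [Fact p.Prime] {x : ℚ_[p]} (hx : ‖x‖ ≤ 1) :
    ∃ n : ℤ, ∀ j : ℤ, ‖((n + p * j : ℤ) : ℚ_[p]) - x‖ < 1 := by
  let y : ℤ_[p] := ⟨x, hx⟩
  refine ⟨y.zmodRepr, fun j => ?_⟩
  have h1 : ‖y - y.zmodRepr‖ < 1 := PadicInt.norm_sub_zmodRepr_lt_one y
  have h2 : ‖((p * j : ℤ) : ℚ_[p])‖ < 1 := Padic.norm_intCast_lt_one_iff.2 (dvd_mul_right _ _)
  have h3 : ((y.zmodRepr + p * j : ℤ) : ℚ_[p]) - x =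
      ((p * j : ℤ) : ℚ_[p]) + - ((y - y.zmodRepr : ℤ_[p]) : ℚ_[p]) := by
    rw [PadicInt.coe_sub]
    push_cast
    change _ = _ + - (x - _)
    ring
  rw [h3]
  refine lt_of_le_of_lt (Padic.nonarchimedean _ _) (max_lt h2 ?_)
  rw [norm_neg]
  exact h1

lemma norm_add_lt {p : ℕ} [Fact p.Prime] {x y : ℚ_[p]} (hx : ‖x‖ < 1) (hy : ‖y‖ < 1) :
    ‖x + y‖ < 1 :=
  lt_of_le_of_lt (Padic.nonarchimedean _ _) (max_lt hx hy)

lemma norm_mul_lt {p : ℕ} [Fact p.Prime] {x y : ℚ_[p]} (hx : ‖x‖ ≤ 1) (hy : ‖y‖ < 1) :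
    ‖x * y‖ < 1 := by
  rw [norm_mul]
  exact mul_lt_one_of_nonneg_of_lt_one_right hx (norm_nonneg _) hy

theorem const_of_pInt {K : Type*} [Field K] [NumberField K] (α ω : K[X])
    (h : ∀ s, ω.eval s ≠ 0 → PInt (α.eval s / ω.eval s)) (s1 s2 : K) :
    α.eval s1 * ω.eval s2 = α.eval s2 * ω.eval s1 := by
  classical
  by_cases hω : ω = 0
  · simp [hω]
  obtain ⟨g, α0, ω0, rfl, rfl, hc⟩ : ∃ g α0 ω0, α = g * α0 ∧ ω = g * ω0 ∧ IsUnit (gcd α0 ω0) :=
    ⟨_, extract_gcd α ω⟩
  obtain ⟨u, v, huv⟩ := (gcd_isUnit_iff _ _).1 hc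
  have hfin := finite_setOfPred_isRoot hω
  have h' : ∀ s, (g * ω0).eval s ≠ 0 → PInt (α0.eval s / ω0.eval s) := by
    intro s hs
    have := h s hs
    rw [eval_mul] at hs
    rwa [eval_mul, eval_mul, mul_div_mul_left _ _ (left_ne_zero_of_mul hs)] at this
  by_cases hd : ω0.natDegree = 0
  · obtain ⟨c, rfl⟩ : ∃ c, ω0 = C c := ⟨_, eq_C_of_natDegree_eq_zero hd⟩
    by_cases hd2 : α0.natDegree = 0
    · rw [eq_C_of_natDegree_eq_zero hd2]
      simp only [eval_mul, eval_C]
      ring
    exfalso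
    have hα : α0 ≠ 0 := by rintro rfl; simp at hd2
    have hc0 : c ≠ 0 := by rintro rfl; simp at hω
    obtain ⟨p, hp, hp4, -, ι, hι⟩ := emb K
      (insert c (insert α0.leadingCoeff⁻¹ α0.reverse.divX.coeffs)) 1 one_ne_zero
    have hp0 : (p : K) ≠ 0 := by exact_mod_cast hp.out.ne_zero
    have hinj : Function.Injective fun k : ℕ => ((p : K) ^ (k + 1))⁻¹ := by
      intro k l hkl
      have h1 : (p : K) ^ (k + 1) = (p : K) ^ (l + 1) := inv_injective hkl
      have h2 : p ^ (k + 1) = p ^ (l + 1) := by exact_mod_cast h1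
      have := Nat.pow_right_injective hp.out.two_le h2
      omega
    obtain ⟨k, hk⟩ := (hfin.preimage hinj.injOn).exists_notMem
    set t := (p : K) ^ (k + 1) with ht
    have ht0 : t ≠ 0 := pow_ne_zero _ hp0
    have h1 := h' t⁻¹ hk p hp4 ι
    have ht1 : ‖ι t‖ < 1 := by
      rw [ht, map_pow, map_natCast, norm_pow]
      exact pow_lt_one₀ (norm_nonneg _) Padic.norm_p_lt_one (by omega)
    letI : Invertible t⁻¹ := invertibleOfNonzero (inv_ne_zero ht0)
    have h2 := eval₂_reverse_mul_pow (RingHom.id K) t⁻¹ α0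
    rw [invOf_eq_inv, inv_inv, eval₂_id, eval₂_id] at h2
    have h3 : α0.reverse.eval t = α0.reverse.divX.eval t * t + α0.leadingCoeff := by
      conv_lhs => rw [← divX_mul_X_add α0.reverse]
      simp
    obtain ⟨d, hd3⟩ : ∃ d, α0.natDegree = d + 1 := ⟨α0.natDegree - 1, by omega⟩
    have hl : α0.leadingCoeff ≠ 0 := leadingCoeff_ne_zero.2 hα
    have h4 : (1 : K) = α0.leadingCoeff⁻¹ * (c * (α0.eval t⁻¹ / c) * t ^ d * t +
        - (α0.reverse.divX.eval t) * t) := by
      rw [← h2, h3, hd3, inv_pow]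
      field_simp
      ring
    have h5 := congrArg (fun z => ‖ι z‖) h4
    simp only [map_one, norm_one, map_mul, map_add, map_neg] at h5
    rw [eval_C] at h1
    have h6 : ‖ι (α0.reverse.divX.eval t)‖ ≤ 1 :=
      norm_eval_le ι _ (fun c hc => hι _ (by simp [hc])) ht1.le
    refine absurd h5 (ne_of_gt ?_)
    refine norm_mul_lt (hι _ (by simp)) (norm_add_lt (norm_mul_lt ?_ ht1) (norm_mul_lt ?_ ht1))
    · rw [norm_mul, norm_mul, map_pow, norm_pow]
      exact mul_le_one₀ (mul_le_one₀ (hι _ (by simp)) (norm_nonneg _) h1) (by positivity)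
        (pow_le_one₀ (norm_nonneg _) ht1.le)
    · rwa [norm_neg]
  · exfalso
    let L := ω0.SplittingField
    haveI : NumberField L := NumberField.of_module_finite K L
    have hf : (ω0.map (algebraMap K L)).degree ≠ 0 := by
      rw [degree_map]
      intro h0
      exact hd (natDegree_eq_zero_iff_degree_le_zero.2 h0.le)
    obtain ⟨θ, hθ⟩ := (SplittingField.splits ω0).exists_eval_eq_zero hf
    obtain ⟨ω1, hω1⟩ := dvd_iff_isRoot.2 hθ
    obtain ⟨p, hp, hp4, -, ι, hι⟩ := emb L (insert θ (ω1.coeffs ∪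
      ((u.map (algebraMap K L)).coeffs ∪ (v.map (algebraMap K L)).coeffs))) 1 one_ne_zero
    obtain ⟨n, hn⟩ := exists_int_near (hι θ (by simp))
    have hinj : Function.Injective fun j : ℤ => ((n + p * j : ℤ) : K) := by
      intro k l hkl
      have h1 : n + p * k = n + p * l := Int.cast_injective (α := K) hkl
      exact mul_left_cancel₀ (by exact_mod_cast hp.out.ne_zero) (add_left_cancel h1)
    obtain ⟨j, hj⟩ := (hfin.preimage hinj.injOn).exists_notMem
    set m : ℤ := n + p * j with hm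
    have h1 := h' (m : K) hj p hp4 (ι.comp (algebraMap K L))
    have hj' : ω0.eval (m : K) ≠ 0 := by
      intro h0
      apply hj
      simp only [Set.mem_preimage, Set.mem_ofPred_eq, IsRoot, eval_mul]
      rw [← hm, h0, mul_zero]
    have ev : ∀ f : K[X], algebraMap K L (f.eval (m : K)) = (f.map (algebraMap K L)).eval (m : L) := by
      intro f
      rw [eval_map, ← map_intCast (algebraMap K L), eval₂_at_apply]
    have hm1 : ‖ι (m : L)‖ ≤ 1 := by rw [map_intCast]; exact Padic.norm_int_le_one _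
    have h2 : ‖ι (algebraMap K L (ω0.eval (m : K)))‖ < 1 := by
      rw [ev, hω1, eval_mul, mul_comm, map_mul]
      refine norm_mul_lt (norm_eval_le ι _ (fun c hc => hι _ (by simp [hc])) hm1) ?_
      have := hn j
      rw [← hm] at this
      simpa using this
    have h3 : (1 : K) = u.eval (m : K) * (α0.eval (m : K) / ω0.eval (m : K)) * ω0.eval (m : K) +
        v.eval (m : K) * ω0.eval (m : K) := by
      have := congrArg (eval (m : K)) huv
      simp only [eval_add, eval_mul, eval_one] at this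
      rw [← this]
      field_simp
    have h5 := congrArg (fun z => ‖ι (algebraMap K L z)‖) h3
    simp only [map_one, norm_one, map_mul, map_add] at h5
    refine absurd h5 (ne_of_gt ?_)
    refine norm_add_lt (norm_mul_lt ?_ h2) (norm_mul_lt ?_ h2)
    · rw [norm_mul]
      refine mul_le_one₀ ?_ (norm_nonneg _) h1
      rw [ev]
      exact norm_eval_le ι _ (fun c hc => hι _ (by simp [hc])) hm1
    · rw [ev]
      exact norm_eval_le ι _ (fun c hc => hι _ (by simp [hc])) hm1

/-- Outside any finite set there is an element that is not integral. -/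
theorem exists_not_pInt {K : Type*} [Field K] [NumberField K] {S : Set K} (hS : S.Finite) :
    ∃ s, s ∉ S ∧ ¬ PInt s := by
  classical
  by_contra hcon
  push Not at hcon
  let A : K[X] := ∏ x ∈ hS.toFinset, (X - C x)
  have hA : ∀ s, A.eval s ≠ 0 ↔ s ∉ S := by
    intro s
    simp only [A, eval_prod, eval_sub, eval_X, eval_C, ne_eq, Finset.prod_eq_zero_iff, sub_eq_zero,
      Set.Finite.mem_toFinset]
    simp
  have h := const_of_pInt (X * A) A (by
    intro s hs
    rw [eval_mul, eval_X, mul_div_assoc, div_self hs, mul_one]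
    exact hcon s ((hA s).1 hs))
  obtain ⟨s1, hs1⟩ := hS.exists_notMem
  obtain ⟨s2, hs2⟩ := (hS.insert s1).exists_notMem
  simp only [Set.mem_insert_iff, not_or] at hs2
  have h1 := h s1 s2
  simp only [eval_mul, eval_X] at h1
  have h2 : (s1 - s2) * (A.eval s1 * A.eval s2) = 0 := by linear_combination h1
  rcases mul_eq_zero.1 h2 with h3 | h3
  · exact hs2.1 (sub_eq_zero.1 h3).symm
  · exact mul_ne_zero ((hA _).2 hs1) ((hA _).2 hs2.2) h3

theorem noCurve_of_pInt {K U : Type*} [Field K] [NumberField K] [AddCommGroup U] [Module K U]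
    {T : U →ₗ[K] U →ₗ[K] U →ₗ[K] K} {a w : U →ₗ[K] K}
    (h : ∀ x, T x x x = 0 → w x = 1 → PInt (a x)) : NoCurve T a w := by
  intro c0 c1 c2 c3 hc
  let c : Fin 4 → U := ![c0, c1, c2, c3]
  let γ : K → U := fun s => ∑ i : Fin 4, s ^ (i : ℕ) • c i
  have hγ : ∀ s, γ s = c0 + s • c1 + s ^ 2 • c2 + s ^ 3 • c3 := by
    intro s
    simp [γ, c, Fin.sum_univ_four]
  let F : K[X] := ∑ i : Fin 4, ∑ j : Fin 4, ∑ k : Fin 4,
    C (T (c i) (c j) (c k)) * X ^ ((i : ℕ) + j + k)
  have hF : ∀ s, F.eval s = T (γ s) (γ s) (γ s) := by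
    intro s
    simp only [F, γ, eval_finsetSum, eval_mul, eval_C, eval_pow, eval_X, map_sum, map_smul,
      LinearMap.sum_apply, LinearMap.smul_apply, smul_eq_mul, Finset.mul_sum]
    rw [Finset.sum_comm]
    rw [Finset.sum_congr rfl (fun j _ => Finset.sum_comm)]
    rw [Finset.sum_comm]
    refine Finset.sum_congr rfl fun i _ => Finset.sum_congr rfl fun j _ =>
      Finset.sum_congr rfl fun k _ => by ring
  have hdeg : F.natDegree < 10 := by
    refine Nat.lt_succ_of_le ?_
    refine natDegree_sum_le_of_forall_le _ _ fun i _ => natDegree_sum_le_of_forall_le _ _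
      fun j _ => natDegree_sum_le_of_forall_le _ _ fun k _ => ?_
    refine (natDegree_C_mul_X_pow_le _ _).trans ?_
    omega
  have hF0 : F = 0 := by
    refine eq_zero_of_natDegree_lt_card_of_eval_eq_zero F (f := fun s : Fin 10 => ((s : ℕ) : K))
      (fun s t hst => Fin.ext (Nat.cast_injective (R := K) hst)) (fun s => ?_) (by simpa using hdeg)
    rw [hF, hγ]
    exact hc s
  let P : (U →ₗ[K] K) → K[X] := fun l => ∑ i : Fin 4, C (l (c i)) * X ^ (i : ℕ)
  have hP : ∀ l s, (P l).eval s = l (γ s) := by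
    intro l s
    simp only [P, γ, eval_finsetSum, eval_mul, eval_C, eval_pow, eval_X, map_sum, map_smul,
      smul_eq_mul]
    exact Finset.sum_congr rfl fun i _ => by ring
  have key := const_of_pInt (P a) (P w) (by
    intro s hs
    rw [hP] at hs
    rw [hP, hP]
    have := h ((w (γ s))⁻¹ • γ s) (by
      have h0 : T (γ s) (γ s) (γ s) = 0 := by rw [← hF, hF0, eval_zero]
      simp [h0]) (by simp [hs])
    rwa [map_smul, smul_eq_mul, mul_comm, ← div_eq_mul_inv] at this) 0 1
  rw [hP, hP, hP, hP, hγ, hγ] at key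
  simp only [zero_smul, add_zero, one_smul, one_pow, ne_eq, OfNat.ofNat_ne_zero,
    not_false_eq_true, zero_pow] at key
  rw [br]
  linear_combination key

end Pool.Agent.MP_a59382_lc

end

-- part MP_a59382_lc.Plane0
section

/-!
Small sets, and plane cubics through the point at infinity of the fibre direction.
-/

set_option autoImplicit false
set_option linter.style.haveILetI false

namespace Pool.Agent.MP_a59382_lc

open Polynomial

/-- A set is small if it contains only finitely many integers of some residue class, for moduli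
coprime to any given number. -/
def Small {K : Type*} [Field K] (D : Set K) : Prop :=
  ∀ N : ℕ, N ≠ 0 → ∃ M : ℕ, M ≠ 0 ∧ M.Coprime N ∧
    ∃ r : ℤ, {n : ℤ | n ≡ r [ZMOD M] ∧ (n : K) ∈ D}.Finite

section

variable {K : Type*} [Field K]

lemma Small.of_finite [CharZero K] {D : Set K} (h : D.Finite) : Small D := by
  intro N _
  refine ⟨1, one_ne_zero, Nat.coprime_one_left N, 0, ?_⟩
  exact (h.preimage (Int.cast_injective (α := K)).injOn).subset fun n hn => hn.2

lemma Small.mono {D D' : Set K} (h : Small D') (hD : D ⊆ D') : Small D := by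
  intro N hN
  obtain ⟨M, h1, h2, r, h3⟩ := h N hN
  exact ⟨M, h1, h2, r, h3.subset fun n hn => ⟨hn.1, hD hn.2⟩⟩

lemma Small.union {D D' : Set K} (h : Small D) (h' : Small D') : Small (D ∪ D') := by
  intro N hN
  obtain ⟨M, h1, h2, r, h3⟩ := h N hN
  obtain ⟨M', h1', h2', r', h3'⟩ := h' (N * M) (mul_ne_zero hN h1)
  have hc : IsCoprime (M : ℤ) (M' : ℤ) :=
    Nat.isCoprime_iff_coprime.2 (Nat.Coprime.coprime_mul_left_right h2').symm
  obtain ⟨u, v, huv⟩ := hc
  refine ⟨M * M', mul_ne_zero h1 h1',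
    Nat.Coprime.mul_left h2 (Nat.Coprime.coprime_mul_right_right h2'), r * v * M' + r' * u * M, ?_⟩
  refine (h3.union h3').subset fun n hn => ?_
  obtain ⟨k, hk⟩ := hn.1.dvd
  push_cast at hk
  rcases hn.2 with h | h
  · refine Or.inl ⟨Int.modEq_iff_dvd.2 ⟨M' * k + r * u - r' * u, ?_⟩, h⟩
    linear_combination hk - r * huv
  · refine Or.inr ⟨Int.modEq_iff_dvd.2 ⟨M * k + r' * v - r * v, ?_⟩, h⟩
    linear_combination hk - r' * huv

lemma Small.iUnion [CharZero K] {ι : Type*} (s : Finset ι) (D : ι → Set K)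
    (h : ∀ i, Small (D i)) : Small (⋃ i ∈ s, D i) := by
  classical
  induction s using Finset.induction_on with
  | empty => simpa using Small.of_finite Set.finite_empty
  | insert i s _ ih =>
    rw [Finset.set_biUnion_insert]
    exact (h i).union ih

lemma Small.exists_int {D : Set K} (h : Small D) : ∃ n : ℤ, (n : K) ∉ D := by
  by_contra hcon
  push Not at hcon
  obtain ⟨M, h1, -, r, h3⟩ := h 1 one_ne_zero
  have hinj : Function.Injective fun j : ℤ => r + M * j := by
    intro k l hkl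
    exact mul_left_cancel₀ (by exact_mod_cast h1) (add_left_cancel hkl)
  refine Set.infinite_of_injective_forall_mem hinj (fun j => ?_) h3
  exact ⟨Int.modEq_iff_dvd.2 ⟨-j, by ring⟩, hcon _⟩

lemma exists_sq_mul_squarefree (f : K[X]) (hf : f ≠ 0) :
    ∃ S f0 : K[X], f = S ^ 2 * f0 ∧ Squarefree f0 := by
  induction h : f.natDegree using Nat.strong_induction_on generalizing f with
  | _ n ih =>
    by_cases hs : Squarefree f
    · exact ⟨1, f, by simp, hs⟩
    simp only [Squarefree, not_forall] at hs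
    obtain ⟨x, ⟨g, hg⟩, hx⟩ := hs
    have hx0 : x ≠ 0 := by rintro rfl; simp [hf] at hg
    have hg0 : g ≠ 0 := by rintro rfl; simp [hf] at hg
    have hxd : 0 < x.natDegree := natDegree_pos_iff_degree_pos.2 (degree_pos_of_ne_zero_of_nonunit hx0 hx)
    have hd : g.natDegree < n := by
      rw [← h, hg, natDegree_mul (mul_ne_zero hx0 hx0) hg0, natDegree_mul hx0 hx0]
      omega
    obtain ⟨S, f0, h1, h2⟩ := ih _ hd g hg0 rfl
    exact ⟨x * S, f0, by rw [hg, h1]; ring, h2⟩

end

lemma not_sq_of_norm {p : ℕ} [Fact p.Prime] (y : ℚ_[p]) : ‖y ^ 2‖ ≠ (p : ℝ)⁻¹ := by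
  intro h
  have hp : (1 : ℝ) < p := by exact_mod_cast (Fact.out : p.Prime).one_lt
  have hy : y ≠ 0 := by
    rintro rfl
    simp only [ne_eq, OfNat.ofNat_ne_zero, not_false_eq_true, zero_pow, norm_zero] at h
    exact absurd h (ne_of_lt (by positivity))
  rw [norm_pow, Padic.norm_eq_zpow_neg_valuation hy, ← zpow_natCast, ← zpow_mul,
    ← zpow_neg_one] at h
  have := zpow_right_injective₀ (by positivity) hp.ne' h
  omega

lemma small_of_squarefree {K : Type*} [Field K] [NumberField K] (f : K[X]) (hf : Squarefree f)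
    (hd : f.natDegree ≠ 0) : Small {a | IsSquare (f.eval a)} := by
  classical
  intro N hN
  let L := f.SplittingField
  haveI : NumberField L := NumberField.of_module_finite K L
  have hf1 : (f.map (algebraMap K L)).degree ≠ 0 := by
    rw [degree_map]
    intro h0
    exact hd (natDegree_eq_zero_iff_degree_le_zero.2 h0.le)
  obtain ⟨θ, hθ⟩ := (SplittingField.splits f).exists_eval_eq_zero hf1
  obtain ⟨f1, hf1⟩ := dvd_iff_isRoot.2 hθ
  have hsq : Squarefree (f.map (algebraMap K L)) :=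
    ((PerfectField.separable_iff_squarefree.2 hf).map).squarefree
  have he : f1.eval θ ≠ 0 := by
    intro h
    obtain ⟨f2, hf2⟩ := dvd_iff_isRoot.2 h
    exact not_isUnit_X_sub_C θ (hsq _ ⟨f2, by rw [hf1, hf2, mul_assoc]⟩)
  set e := f1.eval θ with hedef
  have hf2 : f1 = C e + (X - C θ) * (f1 /ₘ (X - C θ)) := by
    rw [hedef, ← modByMonic_X_sub_C_eq_C_eval, modByMonic_add_div]
  set f2 := f1 /ₘ (X - C θ)
  obtain ⟨p, hp, -, hpN, ι, hι⟩ := emb L (insert θ (insert e (insert e⁻¹ f2.coeffs))) N hN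
  refine ⟨p ^ 2, pow_ne_zero _ hp.out.ne_zero,
    ((Nat.Prime.coprime_iff_not_dvd hp.out).2 hpN).pow_left _, ?_⟩
  let y : ℤ_[p] := ⟨ι θ, hι θ (by simp)⟩
  obtain ⟨t, ht⟩ := Ideal.mem_span_singleton'.1 (PadicInt.appr_spec 2 y)
  refine ⟨y.appr 2 + p, ?_⟩
  refine Set.finite_empty.subset ?_
  rintro n ⟨h1, z, hz⟩
  exfalso
  obtain ⟨k, hk⟩ := h1.dvd
  have hn : (n : ℤ_[p]) - y = p * (1 + p * (-k - t)) := by
    have h2 : (n : ℤ_[p]) = y.appr 2 + p - p ^ 2 * k := by
      have : n = y.appr 2 + p - (p ^ 2 : ℕ) * k := by linear_combination -hk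
      rw [this]; push_cast; ring
    rw [h2]
    linear_combination ht
  have hu : ‖((1 + p * (-k - t) : ℤ_[p]) : ℚ_[p])‖ = 1 := by
    rw [PadicInt.coe_add, Padic.add_eq_max_of_ne]
    · simp only [PadicInt.coe_one, norm_one, max_eq_left_iff]
      exact (p * (-k - t) : ℤ_[p]).2
    · simp only [PadicInt.coe_one, norm_one]
      refine ne_of_gt ?_
      rw [mul_comm, PadicInt.coe_mul]
      exact norm_mul_lt (-k - t : ℤ_[p]).2 (Padic.norm_p_lt_one (p := p))
  have hn' : ‖(n : ℚ_[p]) - ι θ‖ = (p : ℝ)⁻¹ := by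
    have := congrArg (fun x : ℤ_[p] => ‖(x : ℚ_[p])‖) hn
    simp only [PadicInt.coe_sub, PadicInt.coe_mul, norm_mul, hu, PadicInt.coe_intCast,
      PadicInt.coe_natCast, Padic.norm_p, mul_one] at this
    exact this
  have hp1 : (p : ℝ)⁻¹ < 1 := by
    rw [← Padic.norm_p]; exact Padic.norm_p_lt_one
  have ev : algebraMap K L (f.eval (n : K)) = (f.map (algebraMap K L)).eval (n : L) := by
    rw [eval_map, ← map_intCast (algebraMap K L), eval₂_at_apply]
  have hιn : ι (n : L) = n := map_intCast ι n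
  have hm1 : ‖ι (n : L)‖ ≤ 1 := by rw [hιn]; exact Padic.norm_int_le_one _
  have he1 : ‖ι e‖ = 1 := by
    refine le_antisymm (hι _ (by simp)) ?_
    have h3 := hι e⁻¹ (by simp)
    rw [map_inv₀, norm_inv] at h3
    have h4 : 0 < ‖ι e‖ := by simpa using he
    rwa [inv_le_one₀ h4] at h3
  have h5 : ‖ι (f1.eval (n : L))‖ = 1 := by
    rw [hf2]
    simp only [eval_add, eval_C, eval_mul, eval_sub, eval_X, map_add, map_mul, map_sub, hιn]
    have h6 : ‖((n : ℚ_[p]) - ι θ) * ι (f2.eval (n : L))‖ < 1 := by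
      rw [mul_comm]
      exact norm_mul_lt (norm_eval_le ι _ (fun c hc => hι _ (by simp [hc])) hm1) (hn' ▸ hp1)
    rw [Padic.add_eq_max_of_ne (by rw [he1]; exact h6.ne'), he1]
    exact max_eq_left h6.le
  apply not_sq_of_norm (ι (algebraMap K L z))
  rw [← map_pow, ← map_pow, pow_two, ← hz, ev, hf1, eval_mul, map_mul, norm_mul, h5, mul_one]
  simpa [hιn] using hn'

/-- A plane cubic. -/
def gc {R : Type*} [CommRing R] (c : Fin 10 → R) (a z : R) : R :=
  c 0 * z ^ 3 + (c 1 * a + c 2) * z ^ 2 + (c 3 * a ^ 2 + c 4 * a + c 5) * z +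
    (c 6 * a ^ 3 + c 7 * a ^ 2 + c 8 * a + c 9)

lemma map_gc {R S F : Type*} [CommRing R] [CommRing S] [FunLike F R S] [RingHomClass F R S]
    (φ : F) (c : Fin 10 → R) (a z : R) :
    φ (gc c a z) = gc (fun i => φ (c i)) (φ a) (φ z) := by
  simp [gc]

theorem small_plane0 {K : Type*} [Field K] [NumberField K] (c : Fin 10 → K) (h0 : c 0 = 0)
    (hX : ∀ a z, gc c a z = 0 → PInt a) : Small {a | ∃ z, gc c a z = 0} := by
  let A : K[X] := C (c 1) * X + C (c 2)
  let B : K[X] := C (c 3) * X ^ 2 + C (c 4) * X + C (c 5)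
  let Γ : K[X] := C (c 6) * X ^ 3 + C (c 7) * X ^ 2 + C (c 8) * X + C (c 9)
  have hg : ∀ a z, gc c a z = A.eval a * z ^ 2 + B.eval a * z + Γ.eval a := by
    intro a z
    simp [gc, A, B, Γ, h0]
  by_cases hA : A = 0
  · by_cases hB : B = 0
    · by_cases hΓ : Γ = 0
      · obtain ⟨s, -, hs⟩ := exists_not_pInt (K := K) Set.finite_empty
        exact absurd (hX s 0 (by simp [hg, hA, hB, hΓ])) hs
      · refine Small.of_finite ((finite_setOfPred_isRoot hΓ).subset ?_)
        rintro a ⟨z, hz⟩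
        simpa [hg, hA, hB] using hz
    · obtain ⟨s, hs1, hs⟩ := exists_not_pInt (finite_setOfPred_isRoot hB)
      have hs2 : B.eval s ≠ 0 := hs1
      refine absurd (hX s (- Γ.eval s / B.eval s) ?_) hs
      rw [hg, hA]
      field_simp
      simp
  have hsq : ∀ S : K[X], B ^ 2 - 4 * A * Γ ≠ S ^ 2 := by
    intro S hS
    obtain ⟨s, hs1, hs⟩ := exists_not_pInt (finite_setOfPred_isRoot hA)
    have hs2 : A.eval s ≠ 0 := hs1
    refine absurd (hX s ((- B.eval s + S.eval s) / (2 * A.eval s)) ?_) hs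
    have := congrArg (eval s) hS
    simp only [eval_sub, eval_pow, eval_mul, eval_ofNat] at this
    rw [hg]
    field_simp
    linear_combination - this
  obtain ⟨S, f, hf, hsf⟩ := exists_sq_mul_squarefree (B ^ 2 - 4 * A * Γ)
    (by simpa using hsq 0)
  have hS : S ≠ 0 := by
    rintro rfl
    exact hsq 0 (by simpa using hf)
  have hsub : {a | ∃ z, gc c a z = 0} ⊆ {a | S.IsRoot a} ∪ {a | IsSquare (f.eval a)} := by
    rintro a ⟨z, hz⟩
    by_cases h : S.eval a = 0
    · exact Or.inl h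
    refine Or.inr ⟨(2 * A.eval a * z + B.eval a) / S.eval a, ?_⟩
    have := congrArg (eval a) hf
    simp only [eval_sub, eval_pow, eval_mul, eval_ofNat] at this
    rw [hg] at hz
    field_simp
    linear_combination - this - 4 * A.eval a * hz
  refine Small.mono ((Small.of_finite (finite_setOfPred_isRoot hS)).union ?_) hsub
  by_cases hd : f.natDegree = 0
  · obtain ⟨e, rfl⟩ : ∃ e, f = C e := ⟨_, eq_C_of_natDegree_eq_zero hd⟩
    refine Small.of_finite (Set.finite_empty.subset ?_)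
    rintro a ⟨y, hy⟩
    rw [eval_C] at hy
    exact hsq (S * C y) (by rw [hf, hy, C_mul]; ring)
  · exact small_of_squarefree f hsf hd

end Pool.Agent.MP_a59382_lc

end

-- part MP_a59382_lc.PlaneCore
section

/-!
The chord argument modulo a prime for plane cubics that are monic in the fibre variable.
-/

set_option autoImplicit false
set_option linter.style.haveILetI false

namespace Pool.Agent.MP_a59382_lc

open Polynomial

section Coeffs

variable {R : Type*} [CommRing R]

/-- Coefficient of the cube on a line. -/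
def Cf (c : Fin 10 → R) (m : R) : R := c 0 * m ^ 3 + c 1 * m ^ 2 + c 3 * m + c 6

/-- Coefficient of the square on a line. -/
def Af (c : Fin 10 → R) (m n : R) : R :=
  3 * c 0 * m ^ 2 * n + 2 * c 1 * m * n + c 2 * m ^ 2 + c 3 * n + c 4 * m + c 7

/-- Linear coefficient on a line. -/
def Bf (c : Fin 10 → R) (m n : R) : R :=
  3 * c 0 * m * n ^ 2 + c 1 * n ^ 2 + 2 * c 2 * m * n + c 4 * n + c 5 * m + c 8

/-- Constant coefficient on a line. -/
def Gf (c : Fin 10 → R) (n : R) : R := c 0 * n ^ 3 + c 2 * n ^ 2 + c 5 * n + c 9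

/-- Partial derivative in the fibre variable. -/
def gz (c : Fin 10 → R) (a z : R) : R :=
  3 * c 0 * z ^ 2 + 2 * (c 1 * a + c 2) * z + (c 3 * a ^ 2 + c 4 * a + c 5)

/-- Partial derivative in the base variable. -/
def ga (c : Fin 10 → R) (a z : R) : R :=
  c 1 * z ^ 2 + (2 * c 3 * a + c 4) * z + (3 * c 6 * a ^ 2 + 2 * c 7 * a + c 8)

lemma gc_line (c : Fin 10 → R) (m n s : R) :
    gc c s (m * s + n) = Cf c m * s ^ 3 + Af c m n * s ^ 2 + Bf c m n * s + Gf c n := by
  simp only [gc, Cf, Af, Bf, Gf]; ring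

variable {S F : Type*} [CommRing S] [FunLike F R S] [RingHomClass F R S] (φ : F)

lemma map_Cf (c : Fin 10 → R) (m : R) : φ (Cf c m) = Cf (fun i => φ (c i)) (φ m) := by
  simp [Cf]

lemma map_Af (c : Fin 10 → R) (m n : R) :
    φ (Af c m n) = Af (fun i => φ (c i)) (φ m) (φ n) := by
  simp [Af, map_ofNat]

lemma map_Bf (c : Fin 10 → R) (m n : R) :
    φ (Bf c m n) = Bf (fun i => φ (c i)) (φ m) (φ n) := by
  simp [Bf, map_ofNat]

lemma map_Gf (c : Fin 10 → R) (n : R) : φ (Gf c n) = Gf (fun i => φ (c i)) (φ n) := by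
  simp [Gf]

lemma map_gz (c : Fin 10 → R) (m n : R) :
    φ (gz c m n) = gz (fun i => φ (c i)) (φ m) (φ n) := by
  simp [gz, map_ofNat]

lemma map_ga (c : Fin 10 → R) (m n : R) :
    φ (ga c m n) = ga (fun i => φ (c i)) (φ m) (φ n) := by
  simp [ga, map_ofNat]

end Coeffs

lemma finite_bad {K : Type*} [Field K] (c : Fin 10 → K) (h0 : c 0 = 1)
    (hNL : ∀ m n : K, ¬ ∀ s, gc c s (m * s + n) = 0) (a1 z1 : K) :
    {a2 : K | ∃ z2 m, gc c a2 z2 = 0 ∧ z1 - z2 = m * (a1 - a2) ∧ Cf c m = 0}.Finite := by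
  have h1 : {m : K | Cf c m = 0}.Finite := by
    have hne : (X ^ 3 + C (c 1) * X ^ 2 + C (c 3) * X + C (c 6) : K[X]) ≠ 0 :=
      Monic.ne_zero (by monicity!)
    refine (finite_setOfPred_isRoot hne).subset fun m hm => ?_
    simpa [Cf, h0] using hm
  have h2 : ∀ m : K, {s : K | gc c s (m * s + (z1 - m * a1)) = 0}.Finite := by
    intro m
    set n := z1 - m * a1
    let P : K[X] := C (Cf c m) * X ^ 3 + C (Af c m n) * X ^ 2 + C (Bf c m n) * X + C (Gf c n)
    have hP : ∀ s, P.eval s = gc c s (m * s + n) := by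
      intro s
      simp [P, gc_line]
    have hne : P ≠ 0 := by
      intro h
      exact hNL m n fun s => by rw [← hP, h, eval_zero]
    refine (finite_setOfPred_isRoot hne).subset fun s hs => ?_
    simpa [hP] using hs
  refine (h1.biUnion fun m _ => h2 m).subset ?_
  rintro a2 ⟨z2, m, h3, h4, h5⟩
  simp only [Set.mem_iUnion]
  refine ⟨m, h5, ?_⟩
  have : m * a2 + (z1 - m * a1) = z2 := by linear_combination h4
  simpa [this] using h3

theorem core {K : Type*} [Field K] [CharZero K] {p : ℕ} [Fact p.Prime] (O : Subring K)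
    (ρ : O →+* ZMod p) (V1 : ∀ x : O, ρ x ≠ 0 → (x : K)⁻¹ ∈ O)
    (V2 : ∀ x : K, x ∉ O → ∃ y : O, (y : K) = x⁻¹ ∧ ρ y = 0)
    (c : Fin 10 → O) (h0 : c 0 = 1)
    (hX : ∀ a z : K, gc (fun i => (c i : K)) a z = 0 → a ∈ O)
    (hNL : ∀ m n : K, ¬ ∀ s, gc (fun i => (c i : K)) s (m * s + n) = 0)
    (l μ : ZMod p) (hC : Cf (fun i => ρ (c i)) l = 0)
    (hBez : ∀ n, Af (fun i => ρ (c i)) l n = 0 → Bf (fun i => ρ (c i)) l n = 0 →
      Gf (fun i => ρ (c i)) n ≠ 0)
    (hμ : ∀ r, gc (fun i => ρ (c i)) r (l * r + μ) = 0 →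
      gz (fun i => ρ (c i)) r (l * r + μ) ≠ 0 ∧
      ga (fun i => ρ (c i)) r (l * r + μ) + l * gz (fun i => ρ (c i)) r (l * r + μ) = 0) :
    ∃ r : ℤ, {n : ℤ | n ≡ r [ZMOD p] ∧ ∃ z, gc (fun i => (c i : K)) n z = 0}.Finite := by
  by_contra hcon
  push Not at hcon
  set cK : Fin 10 → K := fun i => (c i : K) with hcK
  set cb : Fin 10 → ZMod p := fun i => ρ (c i) with hcb
  have h0K : cK 0 = 1 := by simp [hcK, h0]
  have hgO : ∀ a z : O, ((gc c a z : O) : K) = gc cK a z := fun a z => map_gc O.subtype c a z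
  have hint : ∀ (a : O) (z : K), gc cK a z = 0 → z ∈ O := by
    intro a z hz
    by_contra hzO
    obtain ⟨u, hu, hu0⟩ := V2 z hzO
    have hz0 : z ≠ 0 := by rintro rfl; exact hzO O.zero_mem
    have h1 : (1 + (c 1 * a + c 2) * u + (c 3 * a ^ 2 + c 4 * a + c 5) * u ^ 2 +
        (c 6 * a ^ 3 + c 7 * a ^ 2 + c 8 * a + c 9) * u ^ 3 : O) = 0 := by
      apply Subtype.ext
      push_cast
      rw [hu]
      simp only [gc, h0K] at hz
      simp only [hcK] at hz
      field_simp
      linear_combination hz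
    have h2 := congrArg ρ h1
    simp [hu0] at h2
  have slope : ∀ a1 z1 a2 z2 m : O, gc cK a1 z1 = 0 → gc cK a2 z2 = 0 → (a1 : K) ≠ a2 →
      (z1 : K) - z2 = m * (a1 - a2) → ρ m = l → Cf cK m = 0 := by
    intro a1 z1 a2 z2 m h1 h2 hne hm hml
    by_contra hC0
    set n : O := z1 - m * a1 with hn
    have hnK : (n : K) = z1 - m * a1 := by simp [hn]
    have e1 : (z1 : K) = m * a1 + n := by rw [hnK]; ring
    have e2 : (z2 : K) = m * a2 + n := by rw [hnK]; linear_combination -hm
    rw [e1, gc_line] at h1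
    rw [e2, gc_line] at h2
    obtain ⟨s, hs⟩ : ∃ s : K, Af cK m n = - Cf cK m * (a1 + a2 + s) :=
      ⟨- Af cK m n / Cf cK m - a1 - a2, by field_simp; ring⟩
    have hB : Bf cK m n = Cf cK m * (a1 * a2 + a1 * s + a2 * s) := by
      apply mul_left_cancel₀ (sub_ne_zero.2 hne)
      linear_combination h1 - h2 - ((a1 : K) ^ 2 - a2 ^ 2) * hs
    have hG : Gf cK n = - Cf cK m * (a1 * a2 * s) := by
      linear_combination h1 - (a1 : K) ^ 2 * hs - (a1 : K) * hB
    have hsO : s ∈ O := hX s (m * s + n) (by rw [gc_line, hs, hB, hG]; ring)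
    lift s to O using hsO
    have hs' : Af c m n = - Cf c m * (a1 + a2 + s) := by
      apply Subtype.ext
      have := map_Af O.subtype c m n
      have h' := map_Cf O.subtype c m
      simp only [Subring.subtype_apply] at this h'
      push_cast
      rw [this, h']
      exact hs
    have hB' : Bf c m n = Cf c m * (a1 * a2 + a1 * s + a2 * s) := by
      apply Subtype.ext
      have := map_Bf O.subtype c m n
      have h' := map_Cf O.subtype c m
      simp only [Subring.subtype_apply] at this h'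
      push_cast
      rw [this, h']
      exact hB
    have hG' : Gf c n = - Cf c m * (a1 * a2 * s) := by
      apply Subtype.ext
      have := map_Gf O.subtype c n
      have h' := map_Cf O.subtype c m
      simp only [Subring.subtype_apply] at this h'
      push_cast
      rw [this, h']
      exact hG
    have k1 := congrArg ρ hs'
    have k2 := congrArg ρ hB'
    have k3 := congrArg ρ hG'
    rw [map_Af, map_mul, map_neg, map_Cf, hml, hC] at k1
    rw [map_Bf, map_mul, map_Cf, hml, hC] at k2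
    rw [map_Gf, map_mul, map_neg, map_Cf, hml, hC] at k3
    exact hBez (ρ n) (by simpa using k1) (by simpa using k2) (by simpa using k3)
  have classes : ∀ r : ZMod p, ∃ ζ : ZMod p,
      {n : ℤ | ∃ z : O, (n : ZMod p) = r ∧ gc cK n z = 0 ∧ ρ z = ζ}.Infinite := by
    intro r
    by_contra hfin
    push Not at hfin
    obtain ⟨r', rfl⟩ := ZMod.intCast_surjective r
    refine hcon r' ((Set.finite_iUnion hfin).subset ?_)
    rintro n ⟨h1, z, hz⟩
    simp only [Set.mem_iUnion]
    have hzO := hint (n : O) z (by simpa using hz)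
    exact ⟨ρ ⟨z, hzO⟩, ⟨z, hzO⟩, (ZMod.intCast_eq_intCast_iff _ _ _).2 h1, hz, rfl⟩
  choose ζ hζ using classes
  have two : ∀ r r' : ZMod p, ∃ (n n' : ℤ) (z z' : O), (n : ZMod p) = r ∧ gc cK n z = 0 ∧
      ρ z = ζ r ∧ (n' : ZMod p) = r' ∧ gc cK n' z' = 0 ∧ ρ z' = ζ r' ∧ (n : K) ≠ n' ∧
      ∀ m : O, (z : K) - z' = m * (n - n') → ρ m ≠ l := by
    intro r r'
    obtain ⟨n, z, h1, h2, h3⟩ := (hζ r).nonempty
    have hfin := ((finite_bad cK h0K hNL n z).insert (n : K)).preimage
      (Int.cast_injective (α := K)).injOn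
    obtain ⟨n', ⟨z', h4, h5, h6⟩, h7⟩ := (hζ r').exists_notMem_finite hfin
    simp only [Set.mem_preimage, Set.mem_insert_iff, not_or] at h7
    refine ⟨n, n', z, z', h1, h2, h3, h4, h5, h6, fun h => h7.1 h.symm, fun m hm hml => h7.2 ?_⟩
    exact ⟨z', m, h5, hm, slope (n : O) z (n' : O) z' m (by simpa using h2) (by simpa using h5)
      (by simpa using fun h => h7.1 (by rw [h])) (by simpa using hm) hml⟩
  have hinj : Function.Injective fun r => ζ r - l * r := by
    intro r r' hrr
    by_contra hne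
    obtain ⟨n, n', z, z', h1, h2, h3, h4, h5, h6, h7, h8⟩ := two r r'
    have hu : ρ ((n : O) - n') ≠ 0 := by
      simp only [map_sub, map_intCast, h1, h4]
      exact sub_ne_zero.2 hne
    have hv := V1 _ hu
    have hnn : (n : K) - n' ≠ 0 := sub_ne_zero.2 h7
    let u : O := ⟨_, hv⟩
    have hu1 : u * ((n : O) - n') = 1 := by
      apply Subtype.ext
      simp only [u]
      push_cast
      field_simp
    refine h8 ((z - z') * u) ?_ ?_
    · simp only [u]
      push_cast
      field_simp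
    · have := congrArg ρ hu1
      simp only [map_mul, map_sub, map_intCast, h1, h4, map_one] at this
      simp only [map_mul, map_sub, h3, h6]
      simp only at hrr
      linear_combination ρ u * hrr + l * this
  obtain ⟨r, hr⟩ := Finite.injective_iff_surjective.1 hinj μ
  simp only at hr
  obtain ⟨n, n', z, z', h1, h2, h3, h4, h5, h6, h7, h8⟩ := two r r
  have hζr : ζ r = l * r + μ := by linear_combination hr
  have hgb : gc cb r (l * r + μ) = 0 := by
    have e : gc c (n : O) z = 0 := by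
      apply Subtype.ext
      rw [hgO]
      simpa using h2
    have := congrArg ρ e
    rwa [map_gc, map_intCast, h1, h3, hζr, map_zero] at this
  obtain ⟨hz0, hza⟩ := hμ r hgb
  let Gz : O := c 0 * (z' ^ 2 + z' * z + z ^ 2) + (c 1 * n' + c 2) * (z' + z) +
    (c 3 * n' ^ 2 + c 4 * n' + c 5)
  let Ga : O := c 1 * z ^ 2 + (c 3 * (n' + n) + c 4) * z + c 6 * (n' ^ 2 + n' * n + n ^ 2) +
    c 7 * (n' + n) + c 8
  have hGz : ρ Gz = gz cb r (l * r + μ) := by
    simp only [Gz, map_add, map_mul, map_pow, map_intCast, h1, h3, h4, h6, hζr, gz, hcb]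
    ring
  have hGa : ρ Ga = ga cb r (l * r + μ) := by
    simp only [Ga, map_add, map_mul, map_pow, map_intCast, h1, h3, h4, h6, hζr, ga, hcb]
    ring
  have hv := V1 Gz (by rwa [hGz])
  have hGz0 : (Gz : K) ≠ 0 := by
    intro h
    have : Gz = 0 := Subtype.ext h
    rw [this, map_zero] at hGz
    exact hz0 hGz.symm
  let u : O := ⟨_, hv⟩
  have hu1 : u * Gz = 1 := by
    apply Subtype.ext
    simp only [u]
    push_cast
    field_simp
  have htay : ((z : K) - z') * Gz + (n - n') * Ga = 0 := by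
    simp only [Gz, Ga]
    push_cast
    simp only [gc, hcK] at h2 h5
    linear_combination h2 - h5
  refine h8 (- Ga * u) ?_ ?_
  · simp only [u]
    push_cast
    field_simp
    linear_combination htay
  · have := congrArg ρ hu1
    simp only [map_mul, map_one, hGz] at this
    simp only [map_mul, map_neg, hGa]
    linear_combination - ρ u * hza + l * this

end Pool.Agent.MP_a59382_lc

end

-- part MP_a59382_lc.PlaneAlg
section

/-!
Plane cubics monic in the fibre variable: lines and singular points over the algebraic closure.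
-/

set_option autoImplicit false
set_option linter.style.haveILetI false
set_option linter.unusedSectionVars false

namespace Pool.Agent.MP_a59382_lc

open Polynomial

lemma quad_zero {K : Type*} [Field K] [CharZero K] {u0 u1 u2 v0 v1 v2 : K}
    (h : ∀ s t : K, (u2 * s ^ 2 + u1 * s + u0) * (t ^ 3 + v2 * t ^ 2 + v1 * t + v0) =
      (u2 * t ^ 2 + u1 * t + u0) * (s ^ 3 + v2 * s ^ 2 + v1 * s + v0)) :
    u0 = 0 ∧ u1 = 0 ∧ u2 = 0 := by
  have h1 : ∀ s : K, u2 * s ^ 2 + u1 * s + u0 = 0 := by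
    intro s
    have : (6 : K) * (u2 * s ^ 2 + u1 * s + u0) = 0 := by
      linear_combination h s 3 - 3 * h s 2 + 3 * h s 1 - h s 0
    exact (mul_eq_zero.1 this).resolve_left (by norm_num)
  have e0 : u0 = 0 := by simpa using h1 0
  have e1 : (2 : K) * u1 = 0 := by linear_combination h1 1 - h1 (-1)
  have e1' : u1 = 0 := by simpa using e1
  exact ⟨e0, e1', by linear_combination h1 1 - e0 - e1'⟩

lemma dbl {K : Type*} [Field K] [CharZero K] {C A B G s t : K} (hst : s ≠ t)
    (h1 : C * s ^ 3 + A * s ^ 2 + B * s + G = 0) (h2 : C * t ^ 3 + A * t ^ 2 + B * t + G = 0)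
    (h3 : 3 * C * s ^ 2 + 2 * A * s + B = 0) (h4 : 3 * C * t ^ 2 + 2 * A * t + B = 0) :
    C = 0 ∧ A = 0 ∧ B = 0 ∧ G = 0 := by
  have hne : s - t ≠ 0 := sub_ne_zero.2 hst
  have hC : C = 0 := by
    have : C * (s - t) ^ 3 = 0 := by
      linear_combination (s - t) * (h3 + h4) - 2 * (h1 - h2)
    exact (mul_eq_zero.1 this).resolve_right (pow_ne_zero _ hne)
  subst hC
  have hA : A = 0 := by
    have : A * (2 * (s - t)) = 0 := by linear_combination h3 - h4
    exact (mul_eq_zero.1 this).resolve_right (mul_ne_zero two_ne_zero hne)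
  subst hA
  have hB : B = 0 := by linear_combination h3
  subst hB
  exact ⟨rfl, rfl, rfl, by linear_combination h1⟩

lemma deriv_line {R : Type*} [CommRing R] (c : Fin 10 → R) (m n s : R) :
    3 * Cf c m * s ^ 2 + 2 * Af c m n * s + Bf c m n =
      ga c s (m * s + n) + m * gz c s (m * s + n) := by
  simp only [Cf, Af, Bf, ga, gz]; ring

section

variable {K : Type*} [Field K] [NumberField K] {c : Fin 10 → K}

lemma noLineK (hX : ∀ a z, gc c a z = 0 → PInt a) (m n : K) : ¬ ∀ s, gc c s (m * s + n) = 0 := by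
  intro h
  obtain ⟨s, -, hs⟩ := exists_not_pInt (K := K) Set.finite_empty
  exact hs (hX _ _ (h s))

variable {Ω : Type*} [Field Ω] [Algebra K Ω] [IsGalois K Ω]

lemma exists_move {x y : Ω} (h : ¬ ∃ a b : K, x = algebraMap K Ω a ∧ y = algebraMap K Ω b) :
    ∃ σ : Ω ≃ₐ[K] Ω, σ x ≠ x ∨ σ y ≠ y := by
  by_contra hcon
  push Not at hcon
  obtain ⟨a, ha⟩ := (InfiniteGalois.mem_range_algebraMap_iff_fixed x).2 fun σ => (hcon σ).1
  obtain ⟨b, hb⟩ := (InfiniteGalois.mem_range_algebraMap_iff_fixed y).2 fun σ => (hcon σ).2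
  exact h ⟨a, b, ha.symm, hb.symm⟩

lemma noLine (h0 : c 0 = 1) (hX : ∀ a z, gc c a z = 0 → PInt a)
    (hinf : {a | ∃ z, gc c a z = 0}.Infinite) (l n : Ω) :
    ¬ ∀ s, gc (fun i => algebraMap K Ω (c i)) s (l * s + n) = 0 := by
  intro h
  set f := algebraMap K Ω with hf
  set cΩ : Fin 10 → Ω := fun i => f (c i) with hcΩ
  have hg : ∀ a z : K, f (gc c a z) = gc cΩ (f a) (f z) := fun a z => map_gc f c a z
  have rat : ∀ (S : Set K) (l n : K), S.Finite → ¬ ∀ s, s ∉ S → gc cΩ (f s) (f l * f s + f n) = 0 := by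
    intro S l n hS h
    obtain ⟨s, hs1, hs⟩ := exists_not_pInt hS
    refine hs (hX s (l * s + n) (f.injective ?_))
    rw [hg, map_zero, map_add, map_mul]
    exact h s hs1
  by_cases hr : ∃ a b : K, l = f a ∧ n = f b
  · obtain ⟨a, b, rfl, rfl⟩ := hr
    exact rat ∅ a b Set.finite_empty fun s _ => h _
  obtain ⟨σ, hσ⟩ := exists_move hr
  have h' : ∀ s, gc cΩ s (σ l * s + σ n) = 0 := by
    intro s
    have := congrArg σ (h (σ.symm s))
    rw [map_gc] at this
    simpa [hcΩ, hf] using this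
  let S : Set K := {a | l * f a + n = σ l * f a + σ n}
  have hS : S.Finite := by
    refine Set.Subsingleton.finite ?_
    intro a ha b hb
    by_contra hab
    have h1 : (σ l - l) * (f a - f b) = 0 := by
      simp only [S, Set.mem_ofPred_eq] at ha hb
      linear_combination hb - ha
    have h2 : σ l = l := sub_eq_zero.1 ((mul_eq_zero.1 h1).resolve_right
      (sub_ne_zero.2 fun h => hab (f.injective h)))
    have h3 : σ n = n := by
      simp only [S, Set.mem_ofPred_eq, h2] at ha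
      linear_combination -ha
    rcases hσ with h | h
    · exact h h2
    · exact h h3
  let L : Fin 3 → Ω := ![l, σ l, - cΩ 1 - l - σ l]
  let N : Fin 3 → Ω := ![n, σ n, - cΩ 2 - n - σ n]
  have h0' : cΩ 0 = 1 := by simp [hcΩ, h0]
  have fac : ∀ a ∉ S, ∀ z, gc cΩ (f a) z = ∏ j, (z - (L j * f a + N j)) := by
    intro a ha z
    have e1 := h (f a)
    have e2 := h' (f a)
    have hne : (l * f a + n) - (σ l * f a + σ n) ≠ 0 := sub_ne_zero.2 ha
    simp only [Fin.prod_univ_three, L, N, Matrix.cons_val_zero, Matrix.cons_val_one,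
      Matrix.cons_val]
    set r1 := l * f a + n with hr1
    set r2 := σ l * f a + σ n with hr2
    have e3 : (- cΩ 1 - l - σ l) * f a + (- cΩ 2 - n - σ n) = - (cΩ 1 * f a + cΩ 2) - r1 - r2 := by
      rw [hr1, hr2]; ring
    rw [e3]
    simp only [gc, h0'] at e1 e2 ⊢
    apply mul_left_cancel₀ hne
    linear_combination (z - r2) * e1 - (z - r1) * e2
  have hj : ∃ j, {a : K | ∃ z : K, f z = L j * f a + N j}.Infinite := by
    by_contra hcon
    push Not at hcon
    refine hinf ((hS.union (Set.finite_iUnion hcon)).subset ?_)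
    rintro a ⟨z, hz⟩
    by_cases ha : a ∈ S
    · exact Or.inl ha
    have h1 := fac a ha (f z)
    rw [← hg, hz, map_zero, eq_comm, Finset.prod_eq_zero_iff] at h1
    obtain ⟨j, -, hj⟩ := h1
    exact Or.inr (Set.mem_iUnion.2 ⟨j, z, sub_eq_zero.1 hj⟩)
  obtain ⟨j, hj⟩ := hj
  obtain ⟨a, ⟨z, hz⟩, b, ⟨y, hy⟩, hab⟩ := hj.nontrivial
  have hab' : f a - f b ≠ 0 := sub_ne_zero.2 fun h => hab (f.injective h)
  have hL : L j = f ((z - y) / (a - b)) := by
    rw [map_div₀, map_sub, map_sub, hz, hy]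
    field_simp
    ring
  have hN : N j = f (z - (z - y) / (a - b) * a) := by
    rw [map_sub, map_mul, ← hL, hz]
    ring
  refine rat S ((z - y) / (a - b)) (z - (z - y) / (a - b) * a) hS fun s hs => ?_
  rw [← hL, ← hN, fac s hs]
  exact Finset.prod_eq_zero (Finset.mem_univ j) (sub_self _)

variable [IsAlgClosed Ω]

lemma exists_root3 (a b d : Ω) : ∃ x : Ω, x ^ 3 + a * x ^ 2 + b * x + d = 0 := by
  have hd : (X ^ 3 + C a * X ^ 2 + C b * X + C d : Polynomial Ω).degree = 3 := by compute_degree!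
  obtain ⟨x, hx⟩ := IsAlgClosed.exists_root _ (by rw [hd]; norm_num)
  exact ⟨x, by simpa using hx⟩

lemma noSingAff (h0 : c 0 = 1) (hX : ∀ a z, gc c a z = 0 → PInt a)
    (hinf : {a | ∃ z, gc c a z = 0}.Infinite) (α ζ : Ω)
    (h1 : gc (fun i => algebraMap K Ω (c i)) α ζ = 0)
    (h2 : ga (fun i => algebraMap K Ω (c i)) α ζ = 0)
    (h3 : gz (fun i => algebraMap K Ω (c i)) α ζ = 0) : False := by
  haveI : CharZero Ω := charZero_of_injective_algebraMap (algebraMap K Ω).injective
  set f := algebraMap K Ω with hf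
  set cΩ : Fin 10 → Ω := fun i => f (c i) with hcΩ
  have h0' : cΩ 0 = 1 := by simp [hcΩ, h0]
  by_cases hr : ∃ a b : K, α = f a ∧ ζ = f b
  · obtain ⟨a, b, rfl, rfl⟩ := hr
    have k1 : gc c a b = 0 := f.injective (by rw [map_gc, map_zero]; exact h1)
    have k2 : ga c a b = 0 := f.injective (by rw [map_ga, map_zero]; exact h2)
    have k3 : gz c a b = 0 := f.injective (by rw [map_gz, map_zero]; exact h3)
    set u2 := 3 * b + c 1 * a + c 2 with hu2
    set u1 := 2 * c 1 * b + 2 * c 3 * a + c 4 with hu1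
    set u0 := c 3 * b + 3 * c 6 * a + c 7 with hu0
    have tay : ∀ m t : K, gc c (a + t) (b + m * t) =
        (m ^ 3 + c 1 * m ^ 2 + c 3 * m + c 6) * t ^ 3 + (u2 * m ^ 2 + u1 * m + u0) * t ^ 2 := by
      intro m t
      simp only [gc, ga, gz, h0] at k1 k2 k3 ⊢
      rw [hu2, hu1, hu0]
      linear_combination k1 + t * k2 + m * t * k3
    have key := const_of_pInt
      (C a * (X ^ 3 + C (c 1) * X ^ 2 + C (c 3) * X + C (c 6)) - (C u2 * X ^ 2 + C u1 * X + C u0))
      (X ^ 3 + C (c 1) * X ^ 2 + C (c 3) * X + C (c 6)) (by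
        intro m hm
        simp only [eval_add, eval_sub, eval_mul, eval_pow, eval_X, eval_C] at hm ⊢
        have := hX _ _ ((tay m (-(u2 * m ^ 2 + u1 * m + u0) /
          (m ^ 3 + c 1 * m ^ 2 + c 3 * m + c 6))).trans (by field_simp; ring))
        rwa [sub_div, mul_div_assoc, div_self hm, mul_one, sub_eq_add_neg, ← neg_div])
    obtain ⟨e0, e1, e2⟩ := quad_zero (u0 := u0) (u1 := u1) (u2 := u2) (v0 := c 6) (v1 := c 3)
      (v2 := c 1) (by
        intro s t
        have := key s t
        simp only [eval_add, eval_sub, eval_mul, eval_pow, eval_X, eval_C] at this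
        linear_combination - this)
    obtain ⟨l, hl⟩ := exists_root3 (cΩ 1) (cΩ 3) (cΩ 6)
    refine noLine h0 hX hinf l (f b - l * f a) fun s => ?_
    have e0' := congrArg f e0
    have e1' := congrArg f e1
    have e2' := congrArg f e2
    simp only [hu0, hu1, hu2, map_add, map_mul, map_ofNat, map_zero] at e0' e1' e2'
    simp only [gc, ga, gz, hcΩ, h0, map_one] at h1 h2 h3 hl ⊢
    linear_combination h1 + (s - f a) * h2 + l * (s - f a) * h3 + (s - f a) ^ 3 * hl +
      (s - f a) ^ 2 * (l ^ 2 * e2' + l * e1' + e0')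
  obtain ⟨σ, hσ⟩ := exists_move hr
  have hcσ : (fun i => σ (cΩ i)) = cΩ := by
    funext i
    simp [hcΩ, hf]
  have k1 := congrArg σ h1
  have k2 := congrArg σ h2
  have k3 := congrArg σ h3
  rw [map_gc, hcσ, map_zero] at k1
  rw [map_ga, hcσ, map_zero] at k2
  rw [map_gz, hcσ, map_zero] at k3
  by_cases hα : σ α = α
  · have hζ : σ ζ ≠ ζ := hσ.resolve_left (fun h => h hα)
    rw [hα] at k1 k3
    simp only [gc, gz, h0'] at h1 h3 k1 k3
    exact one_ne_zero (dbl hζ k1 h1 k3 h3).1
  · have hne : σ α - α ≠ 0 := sub_ne_zero.2 hα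
    set m := (σ ζ - ζ) / (σ α - α) with hm
    set n := ζ - m * α with hn
    have e1 : ζ = m * α + n := by rw [hn]; ring
    have e2 : σ ζ = m * σ α + n := by rw [hn, hm]; field_simp; ring
    obtain ⟨g1, g2, g3, g4⟩ := dbl (C := Cf cΩ m) (A := Af cΩ m n) (B := Bf cΩ m n)
      (G := Gf cΩ n) hα (by rw [← gc_line, ← e2, k1]) (by rw [← gc_line, ← e1, h1])
      (by rw [deriv_line, ← e2, k2, k3]; simp) (by rw [deriv_line, ← e1, h2, h3]; simp)
    exact noLine h0 hX hinf m n fun s => by rw [gc_line, g1, g2, g3, g4]; simp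

lemma noSingInf (h0 : c 0 = 1) (hX : ∀ a z, gc c a z = 0 → PInt a)
    (hinf : {a | ∃ z, gc c a z = 0}.Infinite) (l : Ω)
    (h1 : Cf (fun i => algebraMap K Ω (c i)) l = 0)
    (h2 : ∀ n, Af (fun i => algebraMap K Ω (c i)) l n = 0) : False := by
  haveI : CharZero Ω := charZero_of_injective_algebraMap (algebraMap K Ω).injective
  set f := algebraMap K Ω with hf
  set cΩ : Fin 10 → Ω := fun i => f (c i) with hcΩ
  have h0' : cΩ 0 = 1 := by simp [hcΩ, h0]
  by_cases hr : ∃ a b : K, l = f a ∧ l = f b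
  · obtain ⟨m, -, rfl, -⟩ := hr
    have k1 : Cf c m = 0 := f.injective (by rw [map_Cf, map_zero]; exact h1)
    have k2 : ∀ n, Af c m n = 0 := fun n => f.injective (by rw [map_Af, map_zero]; exact h2 _)
    have key := const_of_pInt (- (X ^ 3 + C (c 2) * X ^ 2 + C (c 5) * X + C (c 9)))
      (C (3 * m + c 1) * X ^ 2 + C (2 * c 2 * m + c 4) * X + C (c 5 * m + c 8)) (by
        intro n hn
        simp only [eval_add, eval_neg, eval_mul, eval_pow, eval_X, eval_C] at hn ⊢
        refine hX _ (m * (-(n ^ 3 + c 2 * n ^ 2 + c 5 * n + c 9) /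
          ((3 * m + c 1) * n ^ 2 + (2 * c 2 * m + c 4) * n + (c 5 * m + c 8))) + n) ?_
        rw [gc_line, k1, k2]
        have e1 : Bf c m n = (3 * m + c 1) * n ^ 2 + (2 * c 2 * m + c 4) * n + (c 5 * m + c 8) := by
          simp only [Bf, h0]; ring
        rw [e1, mul_div_cancel₀ _ hn]
        simp only [Gf, h0]
        ring)
    obtain ⟨e0, e1, e2⟩ := quad_zero (u0 := c 5 * m + c 8) (u1 := 2 * c 2 * m + c 4)
      (u2 := 3 * m + c 1) (v0 := c 9) (v1 := c 5) (v2 := c 2) (by
        intro s t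
        have := key s t
        simp only [eval_add, eval_neg, eval_mul, eval_pow, eval_X, eval_C] at this
        linear_combination this)
    obtain ⟨n, hn⟩ := exists_root3 (cΩ 2) (cΩ 5) (cΩ 9)
    refine noLine h0 hX hinf (f m) n fun s => ?_
    rw [gc_line, h1, h2]
    have e0' := congrArg f e0
    have e1' := congrArg f e1
    have e2' := congrArg f e2
    simp only [map_add, map_mul, map_ofNat, map_zero] at e0' e1' e2'
    simp only [Bf, Gf, hcΩ, h0, map_one] at hn ⊢
    linear_combination hn + s * (n ^ 2 * e2' + n * e1' + e0')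
  obtain ⟨σ, hσ⟩ := exists_move hr
  have hl : σ l ≠ l := by simpa using hσ
  have hcσ : (fun i => σ (cΩ i)) = cΩ := by
    funext i
    simp [hcΩ, hf]
  have h3 : 3 * cΩ 0 * l ^ 2 + 2 * cΩ 1 * l + cΩ 3 = 0 := by
    have e1 := h2 1
    have e0 := h2 0
    simp only [Af] at e1 e0
    linear_combination e1 - e0
  have k1 := congrArg σ h1
  have k3 := congrArg σ h3
  rw [map_Cf, hcσ, map_zero] at k1
  have hc' : ∀ i, σ (cΩ i) = cΩ i := fun i => congrFun hcσ i
  simp only [map_add, map_mul, map_pow, map_ofNat, hc', map_zero] at k3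
  simp only [Cf] at k1 h1
  exact one_ne_zero (h0' ▸ (dbl hl k1 h1 k3 h3).1)

end

end Pool.Agent.MP_a59382_lc

end

-- part MP_a59382_lc.Plane1
section

/-!
Plane cubics: the projection of the rational points is small.
-/

set_option autoImplicit false
set_option linter.style.haveILetI false
set_option linter.unusedSectionVars false

namespace Pool.Agent.MP_a59382_lc

open Polynomial

lemma line_of_const_disc {K : Type*} [Field K] [CharZero K] {A1 m0 β B1 B0 c2 c5 c9 n s μ : K}
    (hA : A1 ≠ 0) (d4 : β ^ 2 - 4 * A1 = 0) (d3 : 2 * β * B1 + 4 * A1 * m0 - 4 * A1 * c2 = 0)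
    (d2 : B1 ^ 2 + 2 * β * B0 + 4 * A1 * m0 * c2 - 4 * A1 * c5 = 0)
    (d1 : 2 * B1 * B0 + 4 * A1 * m0 * c5 - 4 * A1 * c9 = 0) (hn : β * n = - β * m0 - B1)
    (hμ : μ = - β / 2 * s + n) :
    A1 * (μ - m0) * s ^ 2 + (β * μ ^ 2 + B1 * μ + B0) * s + (μ ^ 3 + c2 * μ ^ 2 + c5 * μ + c9)
      = 0 := by
  have hb : β * (μ + m0) + B1 = - 2 * A1 * s := by
    rw [hμ]; linear_combination hn - s / 2 * d4
  have key : (β * (μ + m0) + B1) * ((β * μ ^ 2 + B1 * μ + B0) + (β * m0 ^ 2 + B1 * m0 + B0)) -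
      4 * A1 * (μ ^ 3 + c2 * μ ^ 2 + c5 * μ + c9) = 0 := by
    linear_combination (μ ^ 3 + μ ^ 2 * m0 + μ * m0 ^ 2 + m0 ^ 3) * d4 +
      (μ ^ 2 + μ * m0 + m0 ^ 2) * d3 + (μ + m0) * d2 + d1
  apply mul_left_cancel₀ (mul_ne_zero (by norm_num : (4 : K) ≠ 0) hA)
  linear_combination ((β * μ ^ 2 + B1 * μ + B0) + (β * m0 ^ 2 + B1 * m0 + B0) +
    2 * A1 * s * (μ - m0)) * hb - key

section

variable {K : Type*} [Field K] [NumberField K] {c : Fin 10 → K}
variable {Ω : Type*} [Field Ω] [Algebra K Ω] [IsGalois K Ω] [IsAlgClosed Ω]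

lemma certificate (h0 : c 0 = 1) (hX : ∀ a z, gc c a z = 0 → PInt a)
    (hinf : {a | ∃ z, gc c a z = 0}.Infinite) (cΩ : Fin 10 → Ω)
    (hcΩ : cΩ = fun i => algebraMap K Ω (c i)) :
    ∃ l μ α a' g' u0 u1 u2 v w : Ω, Cf cΩ l = 0 ∧
      (∀ n, (u2 * n ^ 2 + u1 * n + u0) * Af cΩ l n + v * Bf cΩ l n + w * Gf cΩ n = 1) ∧
      ((Af cΩ l μ = 0 ∧ Bf cΩ l μ = 0) ∨ (Af cΩ l μ * a' = 1 ∧
        Bf cΩ l μ = - 2 * Af cΩ l μ * α ∧ Gf cΩ μ = Af cΩ l μ * α ^ 2 ∧
        gz cΩ α (l * α + μ) * g' = 1)) := by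
  haveI : CharZero Ω := charZero_of_injective_algebraMap (algebraMap K Ω).injective
  have h0' : cΩ 0 = 1 := by simp [hcΩ, h0]
  obtain ⟨l, hl⟩ := exists_root3 (cΩ 1) (cΩ 3) (cΩ 6)
  have hC : Cf cΩ l = 0 := by simpa [Cf, h0'] using hl
  have NL := noLine (Ω := Ω) h0 hX hinf
  have NI := noSingInf (Ω := Ω) h0 hX hinf l
  have NA := noSingAff (Ω := Ω) h0 hX hinf
  rw [← hcΩ] at NL NI NA
  set A1 := 3 * l ^ 2 + 2 * cΩ 1 * l + cΩ 3 with hA1
  set A0 := cΩ 2 * l ^ 2 + cΩ 4 * l + cΩ 7 with hA0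
  set B2 := 3 * l + cΩ 1 with hB2
  set B1 := 2 * cΩ 2 * l + cΩ 4 with hB1
  set B0 := cΩ 5 * l + cΩ 8 with hB0
  have hA : ∀ n, Af cΩ l n = A1 * n + A0 := by
    intro n; simp only [Af, h0', hA1, hA0]; ring
  have hB : ∀ n, Bf cΩ l n = B2 * n ^ 2 + B1 * n + B0 := by
    intro n; simp only [Bf, h0', hB2, hB1, hB0]; ring
  have hG : ∀ n, Gf cΩ n = n ^ 3 + cΩ 2 * n ^ 2 + cΩ 5 * n + cΩ 9 := by
    intro n; simp only [Gf, h0']; ring
  have hAA : A1 = 0 → A0 ≠ 0 := fun h1 h2 => NI hC fun n => by rw [hA, h1, h2]; simp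
  have bez : ∃ u0 u1 u2 v w : Ω, ∀ n, (u2 * n ^ 2 + u1 * n + u0) * Af cΩ l n + v * Bf cΩ l n +
      w * Gf cΩ n = 1 := by
    by_cases h1 : A1 = 0
    · refine ⟨A0⁻¹, 0, 0, 0, 0, fun n => ?_⟩
      have := hAA h1
      rw [hA, h1]
      field_simp
      ring
    obtain ⟨m0, hm0⟩ : ∃ m0, A0 = - A1 * m0 := ⟨- A0 / A1, by field_simp⟩
    by_cases h2 : Bf cΩ l m0 = 0
    · have h3 : Gf cΩ m0 ≠ 0 := by
        intro h3
        refine NL l m0 fun s => ?_
        rw [gc_line, hC, h2, h3, hA, hm0]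
        ring
      refine ⟨- (Gf cΩ m0)⁻¹ * (m0 ^ 2 + cΩ 2 * m0 + cΩ 5) / A1,
        - (Gf cΩ m0)⁻¹ * (m0 + cΩ 2) / A1, - (Gf cΩ m0)⁻¹ / A1, 0, (Gf cΩ m0)⁻¹, fun n => ?_⟩
      rw [hA, hm0, hG n]
      field_simp
      rw [hG m0]
      ring
    · refine ⟨- (Bf cΩ l m0)⁻¹ * (B2 * m0 + B1) / A1, - (Bf cΩ l m0)⁻¹ * B2 / A1, 0,
        (Bf cΩ l m0)⁻¹, 0, fun n => ?_⟩
      rw [hA, hm0, hB n]
      field_simp
      rw [hB m0]
      ring
  obtain ⟨u0, u1, u2, v, w, hbez⟩ := bez
  have root : ∃ μ, Bf cΩ l μ ^ 2 - 4 * Af cΩ l μ * Gf cΩ μ = 0 := by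
    set d4 := B2 ^ 2 - 4 * A1 with hd4
    set d3 := 2 * B2 * B1 - 4 * A0 - 4 * A1 * cΩ 2 with hd3
    set d2 := B1 ^ 2 + 2 * B2 * B0 - 4 * A0 * cΩ 2 - 4 * A1 * cΩ 5 with hd2
    set d1 := 2 * B1 * B0 - 4 * A0 * cΩ 5 - 4 * A1 * cΩ 9 with hd1
    set d0 := B0 ^ 2 - 4 * A0 * cΩ 9 with hd0
    let P : Polynomial Ω := C d4 * X ^ 4 + C d3 * X ^ 3 + C d2 * X ^ 2 + C d1 * X + C d0
    by_cases hP : P.degree = 0
    · exfalso
      have hP' := eq_C_of_degree_eq_zero hP
      have e4 : d4 = 0 := by simpa [P, coeff_X, coeff_C] using congrArg (coeff · 4) hP'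
      have e3 : d3 = 0 := by simpa [P, coeff_X, coeff_C] using congrArg (coeff · 3) hP'
      have e2 : d2 = 0 := by simpa [P, coeff_X, coeff_C] using congrArg (coeff · 2) hP'
      have e1 : d1 = 0 := by simpa [P, coeff_X, coeff_C] using congrArg (coeff · 1) hP'
      have h1 : A1 ≠ 0 := by
        intro h1
        have hb : B2 = 0 := by
          rw [hd4, h1] at e4
          simpa using e4
        rw [hd3, h1, hb] at e3
        exact hAA h1 (by simpa using e3)
      have hb : B2 ≠ 0 := by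
        intro hb
        rw [hd4, hb] at e4
        exact h1 (by simpa using e4)
      obtain ⟨m0, hm0⟩ : ∃ m0, A0 = - A1 * m0 := ⟨- A0 / A1, by field_simp⟩
      refine NL (l - B2 / 2) (- m0 - B1 / B2) fun s => ?_
      have e : (l - B2 / 2) * s + (- m0 - B1 / B2) = l * s + (- B2 / 2 * s + (- m0 - B1 / B2)) := by
        ring
      rw [e, gc_line, hC, hA, hB, hG, hm0]
      have := line_of_const_disc (A1 := A1) (m0 := m0) (β := B2) (B1 := B1) (B0 := B0)
        (c2 := cΩ 2) (c5 := cΩ 5) (c9 := cΩ 9) (n := - m0 - B1 / B2) (s := s) h1 e4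
        (by rw [hd3, hm0] at e3; linear_combination e3)
        (by rw [hd2, hm0] at e2; linear_combination e2)
        (by rw [hd1, hm0] at e1; linear_combination e1) (by field_simp) rfl
      linear_combination this
    · obtain ⟨μ, hμ⟩ := IsAlgClosed.exists_root P hP
      refine ⟨μ, ?_⟩
      simp only [P, IsRoot, eval_add, eval_mul, eval_C, eval_pow, eval_X] at hμ
      rw [hA, hB, hG]
      rw [hd4, hd3, hd2, hd1, hd0] at hμ
      linear_combination hμ
  obtain ⟨μ, hμ⟩ := root
  by_cases hAμ : Af cΩ l μ = 0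
  · refine ⟨l, μ, 0, 0, 0, u0, u1, u2, v, w, hC, hbez, Or.inl ⟨hAμ, ?_⟩⟩
    rw [hAμ] at hμ
    simpa using hμ
  obtain ⟨α, hα⟩ : ∃ α, Bf cΩ l μ = - 2 * Af cΩ l μ * α :=
    ⟨- Bf cΩ l μ / (2 * Af cΩ l μ), by field_simp⟩
  have hΓ : Gf cΩ μ = Af cΩ l μ * α ^ 2 := by
    apply mul_left_cancel₀ (mul_ne_zero (by norm_num : (4 : Ω) ≠ 0) hAμ)
    rw [hα] at hμ
    linear_combination - hμ
  have hz : gz cΩ α (l * α + μ) ≠ 0 := by
    intro hz
    refine NA α (l * α + μ) ?_ ?_ hz
    · rw [gc_line, hC, hα, hΓ]; ring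
    · have := deriv_line cΩ l μ α
      rw [hz, hC, hα] at this
      linear_combination - this
  exact ⟨l, μ, α, (Af cΩ l μ)⁻¹, (gz cΩ α (l * α + μ))⁻¹, u0, u1, u2, v, w, hC, hbez,
    Or.inr ⟨mul_inv_cancel₀ hAμ, hα, hΓ, mul_inv_cancel₀ hz⟩⟩

end

lemma exists_reduction {K : Type*} [Field K] [NumberField K] {Ω : Type*} [Field Ω] [Algebra K Ω]
    [Algebra.IsAlgebraic K Ω] (s : Finset Ω) (N : ℕ) (hN : N ≠ 0) :
    ∃ p : ℕ, ∃ _ : Fact p.Prime, ¬ p ∣ N ∧ ∃ (R : Subring Ω) (ρ : R →+* ZMod p),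
      (∀ x ∈ s, x ∈ R) ∧ (∀ x : R, ρ x ≠ 0 → (x : Ω)⁻¹ ∈ R) ∧
      (∀ x : K, algebraMap K Ω x ∉ R → ∃ y : R, (y : Ω) = (algebraMap K Ω x)⁻¹ ∧ ρ y = 0) ∧
      ∀ x : K, PInt x → algebraMap K Ω x ∈ R := by
  classical
  let L := IntermediateField.adjoin K (s : Set Ω)
  haveI : FiniteDimensional K L := IntermediateField.finiteDimensional_adjoin
    fun x _ => Algebra.IsIntegral.isIntegral x
  haveI : NumberField L := NumberField.of_module_finite K L
  let j : s → L := fun x => ⟨x, IntermediateField.subset_adjoin K _ x.2⟩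
  obtain ⟨p, hp, hp4, hpN, ι, hι⟩ := emb L (Finset.univ.image j) N hN
  let O : Subring L := (PadicInt.subring p).comap ι
  let f : L →+* Ω := L.val.toRingHom
  have hf : Function.Injective f := f.injective
  let e := O.equivMapOfInjective f hf
  let ψ : O →+* ℤ_[p] := (ι.comp O.subtype).codRestrict (PadicInt.subring p) fun x => x.2
  have hψ : ∀ x : O, ((ψ x : ℤ_[p]) : ℚ_[p]) = ι x := fun x => rfl
  have hρ : ∀ x : O, PadicInt.toZMod (ψ x) = 0 ↔ ‖ι x‖ < 1 := by
    intro x
    rw [← RingHom.mem_ker, PadicInt.ker_toZMod, IsLocalRing.mem_maximalIdeal,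
      PadicInt.mem_nonunits]
    rfl
  refine ⟨p, hp, hpN, O.map f, (PadicInt.toZMod.comp ψ).comp e.symm.toRingHom, ?_, ?_, ?_, ?_⟩
  · intro x hx
    exact ⟨j ⟨x, hx⟩, hι _ (Finset.mem_image_of_mem _ (Finset.mem_univ _)), rfl⟩
  · intro x hx
    obtain ⟨y, rfl⟩ := e.surjective x
    have hx' : PadicInt.toZMod (ψ y) ≠ 0 := by simpa using hx
    rw [Ne, hρ, not_lt] at hx'
    refine ⟨(y : L)⁻¹, ?_, by rw [map_inv₀]; rfl⟩
    change ‖ι (y : L)⁻¹‖ ≤ 1
    rw [map_inv₀, norm_inv]
    exact inv_le_one_of_one_le₀ hx'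
  · intro x hx
    have h1 : 1 < ‖ι (algebraMap K L x)‖ := by
      by_contra h
      exact hx ⟨algebraMap K L x, not_lt.1 h, rfl⟩
    have h2 : ‖ι (algebraMap K L x)⁻¹‖ < 1 := by
      rw [map_inv₀, norm_inv]
      exact inv_lt_one_of_one_lt₀ h1
    refine ⟨e ⟨(algebraMap K L x)⁻¹, h2.le⟩, ?_, ?_⟩
    · change f (algebraMap K L x)⁻¹ = _
      rw [map_inv₀]; rfl
    · have := (hρ ⟨(algebraMap K L x)⁻¹, h2.le⟩).2 h2
      simpa using this
  · intro x hx
    exact ⟨algebraMap K L x, hx p hp4 (ι.comp (algebraMap K L)), rfl⟩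

theorem small_plane1 {K : Type*} [Field K] [NumberField K] (c : Fin 10 → K) (h0 : c 0 = 1)
    (hX : ∀ a z, gc c a z = 0 → PInt a) : Small {a | ∃ z, gc c a z = 0} := by
  classical
  by_cases hinf : {a | ∃ z, gc c a z = 0}.Finite
  · exact Small.of_finite hinf
  intro N hN
  let Ω := AlgebraicClosure K
  obtain ⟨l, μ, α, a', g', u0, u1, u2, v, w, hC, hbez, hcase⟩ :=
    certificate (Ω := Ω) h0 hX hinf _ rfl
  obtain ⟨p, hp, hpN, R, ρ, hs, V1, V2, hP⟩ := exists_reduction (K := K) (Ω := Ω)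
    ({l, μ, α, a', g', u0, u1, u2, v, w} ∪ Finset.univ.image fun i => algebraMap K Ω (c i)) N hN
  refine ⟨p, hp.out.ne_zero, (Nat.Prime.coprime_iff_not_dvd hp.out).2 hpN, ?_⟩
  have m1 : l ∈ R := hs _ (by simp)
  have m2 : μ ∈ R := hs _ (by simp)
  have m3 : α ∈ R := hs _ (by simp)
  have m4 : a' ∈ R := hs _ (by simp)
  have m5 : g' ∈ R := hs _ (by simp)
  have m6 : u0 ∈ R := hs _ (by simp)
  have m7 : u1 ∈ R := hs _ (by simp)
  have m8 : u2 ∈ R := hs _ (by simp)
  have m9 : v ∈ R := hs _ (by simp)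
  have m10 : w ∈ R := hs _ (by simp)
  have mc : ∀ i, algebraMap K Ω (c i) ∈ R := fun i => hs _ (by simp)
  clear hs
  lift l to R using m1
  lift μ to R using m2
  lift α to R using m3
  lift a' to R using m4
  lift g' to R using m5
  lift u0 to R using m6
  lift u1 to R using m7
  lift u2 to R using m8
  lift v to R using m9
  lift w to R using m10
  let O : Subring K := R.comap (algebraMap K Ω)
  let φ : O →+* R := ((algebraMap K Ω).comp O.subtype).codRestrict R fun x => x.2
  let cO : Fin 10 → O := fun i => ⟨c i, mc i⟩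
  let cR : Fin 10 → R := fun i => φ (cO i)
  have eA : ∀ x y : R, ((Af cR x y : R) : Ω) = Af (fun i => algebraMap K Ω (c i)) x y :=
    fun x y => map_Af R.subtype cR x y
  have eB : ∀ x y : R, ((Bf cR x y : R) : Ω) = Bf (fun i => algebraMap K Ω (c i)) x y :=
    fun x y => map_Bf R.subtype cR x y
  have eC : ∀ x : R, ((Cf cR x : R) : Ω) = Cf (fun i => algebraMap K Ω (c i)) x :=
    fun x => map_Cf R.subtype cR x
  have eG : ∀ x : R, ((Gf cR x : R) : Ω) = Gf (fun i => algebraMap K Ω (c i)) x :=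
    fun x => map_Gf R.subtype cR x
  have ez : ∀ x y : R, ((gz cR x y : R) : Ω) = gz (fun i => algebraMap K Ω (c i)) x y :=
    fun x y => map_gz R.subtype cR x y
  set cb : Fin 10 → ZMod p := fun i => ρ (cR i) with hcb
  have hCb : Cf cb (ρ l) = 0 := by
    have : Cf cR l = 0 := Subtype.ext (by rw [eC]; exact hC)
    rw [← map_Cf ρ, this, map_zero]
  have hbezb : ∀ n, Af cb (ρ l) n = 0 → Bf cb (ρ l) n = 0 → Gf cb n ≠ 0 := by
    intro n h1 h2 h3
    obtain ⟨n, rfl⟩ := ZMod.intCast_surjective n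
    have : (u2 * n ^ 2 + u1 * n + u0) * Af cR l n + v * Bf cR l n + w * Gf cR n = 1 := by
      apply Subtype.ext
      push_cast
      rw [eA, eB, eG]
      simpa using hbez n
    have := congrArg ρ this
    simp only [map_add, map_mul, map_Af ρ, map_Bf ρ, map_Gf ρ, map_intCast, ← hcb, h1, h2, h3,
      map_one] at this
    simp at this
  refine core O (ρ.comp φ) ?_ ?_ cO (Subtype.ext h0) (fun a z h => hP _ (hX a z h))
    (noLineK hX) (ρ l) (ρ μ) hCb hbezb ?_
  · intro x hx
    have := V1 _ hx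
    change algebraMap K Ω (x : K)⁻¹ ∈ R
    rw [map_inv₀]
    exact this
  · intro x hx
    obtain ⟨y, hy1, hy2⟩ := V2 x hx
    have hm : x⁻¹ ∈ O := by
      change algebraMap K Ω x⁻¹ ∈ R
      rw [map_inv₀, ← hy1]
      exact y.2
    refine ⟨⟨_, hm⟩, rfl, ?_⟩
    have : φ ⟨_, hm⟩ = y := Subtype.ext (by rw [hy1, ← map_inv₀]; rfl)
    rw [RingHom.comp_apply, this, hy2]
  · intro r hr
    change gc cb r _ = 0 at hr
    change gz cb r _ ≠ 0 ∧ ga cb r _ + _ * gz cb r _ = 0
    rw [gc_line, hCb] at hr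
    rcases hcase with ⟨h1, h2⟩ | ⟨h1, h2, h3, h4⟩
    · have k1 : Af cR l μ = 0 := Subtype.ext (by rw [eA]; exact h1)
      have k2 : Bf cR l μ = 0 := Subtype.ext (by rw [eB]; exact h2)
      have k1' := congrArg ρ k1
      have k2' := congrArg ρ k2
      rw [map_Af, map_zero] at k1'
      rw [map_Bf, map_zero] at k2'
      rw [k1', k2'] at hr
      exact absurd (by simpa using hr) (hbezb _ k1' k2')
    · have k1 : Af cR l μ * a' = 1 := Subtype.ext (by push_cast; rw [eA]; exact h1)
      have k2 : Bf cR l μ = - 2 * Af cR l μ * α := Subtype.ext (by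
        push_cast; rw [eA, eB]; exact h2)
      have k3 : Gf cR μ = Af cR l μ * α ^ 2 := Subtype.ext (by push_cast; rw [eA, eG]; exact h3)
      have k4 : gz cR α (l * α + μ) * g' = 1 := Subtype.ext (by push_cast; rw [ez]; exact h4)
      have k1' := congrArg ρ k1
      have k2' := congrArg ρ k2
      have k3' := congrArg ρ k3
      have k4' := congrArg ρ k4
      simp only [map_mul, map_Af ρ, map_Bf ρ, map_Gf ρ, map_gz ρ, map_one, map_neg, map_ofNat,
        map_pow, map_add, ← hcb] at k1' k2' k3' k4'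
      have hr' : r = ρ α := by
        have : (r - ρ α) ^ 2 = 0 := by
          rw [k2', k3'] at hr
          linear_combination ρ a' * hr - (r - ρ α) ^ 2 * k1'
        exact sub_eq_zero.1 (pow_eq_zero_iff two_ne_zero |>.1 this)
      rw [hr']
      refine ⟨left_ne_zero_of_mul_eq_one k4', ?_⟩
      rw [← deriv_line, hCb, k2']
      ring

theorem small_plane {K : Type*} [Field K] [NumberField K] (c : Fin 10 → K)
    (hX : ∀ a z, gc c a z = 0 → PInt a) : Small {a | ∃ z, gc c a z = 0} := by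
  by_cases h0 : c 0 = 0
  · exact small_plane0 c h0 hX
  have h : ∀ a z, gc (fun i => (c 0)⁻¹ * c i) a z = 0 ↔ gc c a z = 0 := by
    intro a z
    have : gc (fun i => (c 0)⁻¹ * c i) a z = (c 0)⁻¹ * gc c a z := by
      simp only [gc]; ring
    rw [this]
    simp [h0]
  have := small_plane1 (fun i => (c 0)⁻¹ * c i) (inv_mul_cancel₀ h0)
    (fun a z hz => hX a z ((h a z).1 hz))
  simpa only [h] using this

end Pool.Agent.MP_a59382_lc

end

-- part MP_a59382_lc.Ultra
section

/-!
Passing to an ultrapower: a cubic with points in infinitely many fibres and without horizontal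
rational curves of degree at most three is a cone with a vertex in the fibre direction.
-/

set_option autoImplicit false
set_option linter.style.haveILetI false

namespace Pool.Agent.MP_a59382_lc

open Filter Polynomial

section Coord

variable {E : Type*} [Field E] {ι : Type*} [Fintype ι]

/-- The trilinear form with given coefficients. -/
noncomputable def triOf (c : ι → ι → ι → E) : (ι → E) →ₗ[E] (ι → E) →ₗ[E] (ι → E) →ₗ[E] E :=
  ∑ i, ∑ j, ∑ k, c i j k • (LinearMap.proj i : (ι → E) →ₗ[E] E).smulRight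
    ((LinearMap.proj j : (ι → E) →ₗ[E] E).smulRight (LinearMap.proj k : (ι → E) →ₗ[E] E))

lemma triOf_apply (c : ι → ι → ι → E) (x y z : ι → E) :
    triOf c x y z = ∑ i, ∑ j, ∑ k, c i j k * (x i * y j * z k) := by
  simp [triOf, LinearMap.sum_apply, mul_assoc]

/-- The linear form with given coefficients. -/
noncomputable def linOf (c : ι → E) : (ι → E) →ₗ[E] E :=
  ∑ i, c i • (LinearMap.proj i : (ι → E) →ₗ[E] E)

lemma linOf_apply (c : ι → E) (x : ι → E) : linOf c x = ∑ i, c i * x i := by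
  simp [linOf, LinearMap.sum_apply]

end Coord

variable {K U : Type*} [Field K] [AddCommGroup U] [Module K U]

lemma tri_expand {ι : Type*} [Fintype ι] (b : Module.Basis ι K U)
    (T : U →ₗ[K] U →ₗ[K] U →ₗ[K] K) (x y z : U) :
    T x y z = ∑ i, ∑ j, ∑ k, T (b i) (b j) (b k) * (b.repr x i * b.repr y j * b.repr z k) := by
  conv_lhs => rw [← b.sum_repr x, ← b.sum_repr y, ← b.sum_repr z]
  simp only [map_sum, map_smul, LinearMap.sum_apply, LinearMap.smul_apply, smul_eq_mul,
    Finset.mul_sum]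
  rw [Finset.sum_comm]
  rw [Finset.sum_congr rfl (fun j _ => Finset.sum_comm)]
  rw [Finset.sum_comm]
  refine Finset.sum_congr rfl fun i _ => Finset.sum_congr rfl fun j _ =>
    Finset.sum_congr rfl fun k _ => by ring

lemma lin_expand {ι : Type*} [Fintype ι] (b : Module.Basis ι K U)
    (a : U →ₗ[K] K) (x : U) : a x = ∑ i, a (b i) * b.repr x i := by
  conv_lhs => rw [← b.sum_repr x]
  simp only [map_sum, map_smul, smul_eq_mul]
  exact Finset.sum_congr rfl fun i _ => by ring

theorem exists_vertex [CharZero K] {ι : Type} [Fintype ι] (b : Module.Basis ι K U)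
    {T : U →ₗ[K] U →ₗ[K] U →ₗ[K] K}
    {a w : U →ₗ[K] K} (hT : IsSym T) (hN : NoCurve T a w)
    (hinf : {t | ∃ x, T x x x = 0 ∧ w x = 1 ∧ a x = t}.Infinite)
    {l1 l2 : U} (h1a : a l1 = 0) (h1w : w l1 = 0) (h2a : a l2 = 0) (h2w : w l2 = 0)
    (hind : ∀ s t : K, s • l1 + t • l2 = 0 → s = 0 ∧ t = 0) :
    ∃ y : U, y ≠ 0 ∧ a y = 0 ∧ w y = 0 ∧ ∀ x x', T y x x' = 0 := by
  classical
  let E := Germ (hyperfilter ℕ : Filter ℕ) K
  let π : (ℕ → K) →+* E := Germ.coeRingHom _
  have hπ0 : ∀ f : ℕ → K, π f = 0 ↔ ∀ᶠ n in (hyperfilter ℕ : Filter ℕ), f n = 0 := by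
    intro f
    exact Germ.coe_eq (l := (hyperfilter ℕ : Filter ℕ)) (f := f) (g := 0)
  have hπs : ∀ e : E, ∃ f, π f = e := fun e => Germ.inductionOn e fun f => ⟨f, rfl⟩
  let φ : K →+* E := π.comp (Pi.constRingHom ℕ K)
  have hφ : ∀ k, φ k = π (fun _ => k) := fun k => rfl
  haveI : CharZero E := charZero_of_injective_ringHom φ.injective
  let G : (ℕ → U) → (ι → E) := fun u i => π (fun n => b.repr (u n) i)
  have Gs : ∀ X : ι → E, ∃ u, G u = X := by
    intro X
    choose f hf using fun i => hπs (X i)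
    refine ⟨fun n => b.equivFun.symm (fun i => f i n), ?_⟩
    funext i
    simp only [G]
    rw [← hf i]
    congr 1
    funext n
    exact congrFun (b.equivFun.apply_symm_apply (fun i => f i n)) i
  have Gadd : ∀ u v, G u + G v = G (fun n => u n + v n) := by
    intro u v
    funext i
    simp only [G, Pi.add_apply, ← map_add]
    congr 1
    funext n
    simp
  have Gsmul : ∀ (s : K) u, φ s • G u = G (fun n => s • u n) := by
    intro s u
    funext i
    simp only [G, Pi.smul_apply, smul_eq_mul, hφ, ← map_mul]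
    congr 1
    funext n
    simp
  let TE := triOf (fun i j k => φ (T (b i) (b j) (b k)))
  let lE : (U →ₗ[K] K) → ((ι → E) →ₗ[E] E) := fun a => linOf (fun i => φ (a (b i)))
  have GT : ∀ u v z, TE (G u) (G v) (G z) = π (fun n => T (u n) (v n) (z n)) := by
    intro u v z
    simp only [TE, triOf_apply, G, hφ, ← map_mul, ← map_sum]
    congr 1
    funext n
    rw [tri_expand b T]
    simp [Finset.sum_apply]
  have Gl : ∀ (a : U →ₗ[K] K) u, lE a (G u) = π (fun n => a (u n)) := by
    intro a u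
    simp only [lE, linOf_apply, G, hφ, ← map_mul, ← map_sum]
    congr 1
    funext n
    rw [lin_expand b a]
    simp [Finset.sum_apply]
  have hTE : IsSym TE := by
    constructor
    · intro x y z
      obtain ⟨u, rfl⟩ := Gs x
      obtain ⟨v, rfl⟩ := Gs y
      obtain ⟨t, rfl⟩ := Gs z
      rw [GT, GT]
      congr 1
      funext n
      exact hT.s12 _ _ _
    · intro x y z
      obtain ⟨u, rfl⟩ := Gs x
      obtain ⟨v, rfl⟩ := Gs y
      obtain ⟨t, rfl⟩ := Gs z
      rw [GT, GT]
      congr 1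
      funext n
      exact hT.s23 _ _ _
  have hNE : NoCurve TE (lE a) (lE w) := by
    intro c0 c1 c2 c3 h
    obtain ⟨u0, rfl⟩ := Gs c0
    obtain ⟨u1, rfl⟩ := Gs c1
    obtain ⟨u2, rfl⟩ := Gs c2
    obtain ⟨u3, rfl⟩ := Gs c3
    have h' : ∀ s : Fin 10, ∀ᶠ n in (hyperfilter ℕ : Filter ℕ),
        T (u0 n + ((s : ℕ) : K) • u1 n + ((s : ℕ) : K) ^ 2 • u2 n + ((s : ℕ) : K) ^ 3 • u3 n)
        (u0 n + ((s : ℕ) : K) • u1 n + ((s : ℕ) : K) ^ 2 • u2 n + ((s : ℕ) : K) ^ 3 • u3 n)
        (u0 n + ((s : ℕ) : K) • u1 n + ((s : ℕ) : K) ^ 2 • u2 n + ((s : ℕ) : K) ^ 3 • u3 n)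
          = 0 := by
      intro s
      have hs := h s
      rw [← map_natCast φ, ← map_pow, ← map_pow, Gsmul, Gsmul, Gsmul, Gadd, Gadd, Gadd, GT,
        hπ0] at hs
      exact hs
    rw [← eventually_all] at h'
    rw [Gadd, Gadd, Gadd, br, Gl, Gl, Gl, Gl, ← map_mul, ← map_mul, ← map_sub, hπ0]
    filter_upwards [h'] with n hn
    exact hN _ _ _ _ hn
  -- the generic point
  let e := hinf.natEmbedding
  choose P hP using fun n => (e n).2
  have hinj : Function.Injective fun n => a (P n) := by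
    intro m n hmn
    apply e.injective
    apply Subtype.ext
    rw [← (hP m).2.2, ← (hP n).2.2]
    exact hmn
  obtain ⟨D, Dadd, Dmul, Dconst, Dt⟩ := exists_derivation φ (π fun n => a (P n)) (by
    intro p hp
    by_contra hp0
    have h1 : p.eval₂ φ (π fun n => a (P n)) = π (fun n => p.eval (a (P n))) := by
      have : (fun n => p.eval (a (P n))) =
          p.eval₂ (Pi.constRingHom ℕ K) (fun n => a (P n)) := by
        funext n
        have := Polynomial.hom_eval₂ p (Pi.constRingHom ℕ K) (Pi.evalRingHom (fun _ => K) n)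
          (fun n => a (P n))
        exact this.symm
      rw [this, Polynomial.hom_eval₂]
    rw [h1, hπ0] at hp
    have h2 : {n | p.eval (a (P n)) = 0}.Finite :=
      (Polynomial.finite_setOfPred_isRoot hp0).preimage hinj.injOn
    exact h2.notMem_hyperfilter hp)
  have D0 : D 0 = 0 := by simpa using Dconst 0
  have Dsum : ∀ (s : Finset ι) (f : ι → E), D (∑ i ∈ s, f i) = ∑ i ∈ s, D (f i) := by
    intro s f
    induction s using Finset.induction_on with
    | empty => simpa using D0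
    | insert i s hi ih => rw [Finset.sum_insert hi, Finset.sum_insert hi, Dadd, ih]
  let d : (ι → E) → (ι → E) := fun x i => D (x i)
  have Dl : ∀ (a : U →ₗ[K] K) x, D (lE a x) = lE a (d x) := by
    intro a x
    simp only [lE, linOf_apply, Dsum, Dmul, Dconst, d, zero_mul, zero_add]
  have hD : IsDer TE (lE a) (lE w) D d := by
    refine ⟨D0, fun x y z => ?_, Dl a, Dl w⟩
    simp only [TE, triOf_apply, Dsum, Dmul, Dconst, d, zero_mul, zero_add,
      ← Finset.sum_add_distrib]
    refine Finset.sum_congr rfl fun i _ => Finset.sum_congr rfl fun j _ =>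
      Finset.sum_congr rfl fun k _ => by ring
  have hPE : TE (G P) (G P) (G P) = 0 := by
    rw [GT, hπ0]
    exact Eventually.of_forall fun n => (hP n).1
  have hwP : lE w (G P) = φ 1 := by
    rw [Gl, hφ]
    congr 1
    funext n
    exact (hP n).2.1
  have hb : br (lE a) (lE w) (G P) (d (G P)) ≠ 0 := by
    rw [br, ← Dl, ← Dl, hwP, Dconst, Gl, Dt]
    simp
  have hv := fun y h1 h2 h3 => vertex hTE hNE hD hPE hb (y := y) h1 h2 h3
  have Gc : ∀ (a : U →ₗ[K] K) x, lE a (G fun _ => x) = φ (a x) := fun a x => by rw [Gl, hφ]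
  have GTc : ∀ x y z, TE (G fun _ => x) (G fun _ => y) (G fun _ => z) = φ (T x y z) :=
    fun x y z => by rw [GT, hφ]
  obtain ⟨u, v, huv, hL⟩ : ∃ u v : E, (u ≠ 0 ∨ v ≠ 0) ∧
      TE (G P) (G P) (u • (G fun _ => l1) + v • (G fun _ => l2)) = 0 := by
    by_cases h : TE (G P) (G P) (G fun _ => l1) = 0
    · exact ⟨1, 0, Or.inl one_ne_zero, by simp [h]⟩
    · refine ⟨- TE (G P) (G P) (G fun _ => l2), TE (G P) (G P) (G fun _ => l1), Or.inr h, ?_⟩
      simp only [map_add, map_smul, smul_eq_mul]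
      ring
  have hrel : ∀ x x', u * φ (T l1 x x') + v * φ (T l2 x x') = 0 := by
    intro x x'
    have := hv _ (by simp [Gc, h1a, h2a]) (by simp [Gc, h1w, h2w]) hL (G fun _ => x)
      (G fun _ => x')
    simpa only [map_add, map_smul, LinearMap.add_apply, LinearMap.smul_apply, smul_eq_mul,
      GTc] using this
  by_cases h : ∀ x x', T l1 x x' = 0
  · refine ⟨l1, fun h0 => ?_, h1a, h1w, h⟩
    have := (hind 1 0 (by simp [h0])).1
    exact one_ne_zero this
  push Not at h
  obtain ⟨x0, x0', h0⟩ := h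
  have h0' : φ (T l1 x0 x0') ≠ 0 := by simpa using h0
  have hv0 : v ≠ 0 := by
    intro hv0
    have := hrel x0 x0'
    rw [hv0, zero_mul, add_zero] at this
    rcases huv with h | h
    · exact mul_ne_zero h h0' this
    · exact h hv0
  refine ⟨(-T l2 x0 x0') • l1 + T l1 x0 x0' • l2, fun hz => h0 (hind _ _ hz).2,
    by simp [h1a, h2a], by simp [h1w, h2w], fun x x' => ?_⟩
  apply φ.injective
  simp only [map_add, map_smul, LinearMap.add_apply, LinearMap.smul_apply, smul_eq_mul, map_mul,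
    map_neg, map_zero]
  apply mul_left_cancel₀ hv0
  linear_combination φ (T l1 x0 x0') * hrel x x' - φ (T l1 x x') * hrel x0 x0'

end Pool.Agent.MP_a59382_lc

end
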