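import Mathlib
import Pool.Agent.MP_a59382_lc.Mg.Ultra

/-!
The projection of the rational points of a cubic hypersurface is small as soon as it consists of
elements that are integral above all primes p = 1 mod 4.
-/

set_option autoImplicit false
set_option linter.style.haveILetI false

namespace Pool.Agent.MP_a59382_lc

universe u

theorem small_cubic {K : Type*} [Field K] [NumberField K] (n : ℕ) :
    ∀ (U : Type u) [AddCommGroup U] [Module K U] [FiniteDimensional K U],
      Module.finrank K U = n → ∀ (T : U →ₗ[K] U →ₗ[K] U →ₗ[K] K) (a w : U →ₗ[K] K), IsSym T →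
      (∀ x, T x x x = 0 → w x = 1 → PInt (a x)) →
      Small {t | ∃ x, T x x x = 0 ∧ w x = 1 ∧ a x = t} := by
  induction n using Nat.strong_induction_on with
  | _ n ih =>
  intro U _ _ _ hn T a w hT hX
  by_cases hinf : {t | ∃ x, T x x x = 0 ∧ w x = 1 ∧ a x = t}.Finite
  · exact Small.of_finite hinf
  by_cases h2 : ∃ l1 l2 : U, a l1 = 0 ∧ w l1 = 0 ∧ a l2 = 0 ∧ w l2 = 0 ∧
      ∀ s t : K, s • l1 + t • l2 = 0 → s = 0 ∧ t = 0
  · obtain ⟨l1, l2, h1a, h1w, h2a, h2w, hind⟩ := h2
    obtain ⟨y, hy0, hya, hyw, hy⟩ := exists_vertex (Module.finBasis K U) hT (noCurve_of_pInt hX)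
      hinf h1a h1w h2a h2w hind
    obtain ⟨χ, hχ⟩ := Module.Projective.exists_dual_eq_one K hy0
    let U' := LinearMap.ker χ
    have hlt : Module.finrank K U' < n := by
      rw [← hn]
      refine Submodule.finrank_lt fun h => ?_
      have : y ∈ U' := h ▸ Submodule.mem_top
      rw [LinearMap.mem_ker, hχ] at this
      exact one_ne_zero this
    let T' : U' →ₗ[K] U' →ₗ[K] U' →ₗ[K] K :=
      (T.compr₂ (LinearMap.lcomp K K U'.subtype)).compl₁₂ U'.subtype U'.subtype
    have hT' : ∀ x y z : U', T' x y z = T x y z := fun x y z => rfl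
    have := ih _ hlt U' rfl T' (a.comp U'.subtype) (w.comp U'.subtype)
      ⟨fun x y z => hT.s12 _ _ _, fun x y z => hT.s23 _ _ _⟩ (fun x h1 h2 => hX x h1 h2)
    refine this.mono ?_
    rintro t ⟨x, h1, h2, h3⟩
    refine ⟨⟨x + (- χ x) • y, by simp [U', hχ]⟩, ?_, by simp [h2, hyw], by simp [h3, hya]⟩
    rw [hT']
    have := hT.cube2 x y 1 (- χ x)
    rw [one_smul] at this
    have e1 : T x x y = 0 := by rw [hT.s23, hT.s12, hy]
    have e2 : T x y y = 0 := by rw [hT.s12, hy]
    rw [this, h1, e1, e2, hy]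
    ring
  obtain ⟨e, hea, hew, he⟩ : ∃ e : U, a e = 0 ∧ w e = 0 ∧
      ∀ l, a l = 0 → w l = 0 → ∃ z : K, l = z • e := by
    by_cases h : ∃ e : U, a e = 0 ∧ w e = 0 ∧ e ≠ 0
    · obtain ⟨e, h1, h3, h4⟩ := h
      refine ⟨e, h1, h3, fun l hla hlw => ?_⟩
      by_contra hcon
      refine h2 ⟨e, l, h1, h3, hla, hlw, fun s t hst => ?_⟩
      have ht : t = 0 := by
        by_contra ht
        refine hcon ⟨- s / t, ?_⟩
        apply smul_right_injective U ht
        simp only [smul_smul]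
        rw [mul_div_cancel₀ _ ht, neg_smul]
        exact eq_neg_of_add_eq_zero_right hst
      rw [ht, zero_smul, add_zero] at hst
      exact ⟨(smul_eq_zero.1 hst).resolve_right h4, ht⟩
    · push Not at h
      exact ⟨0, by simp, by simp, fun l h1 h3 => ⟨0, by simp [h l h1 h3]⟩⟩
  obtain ⟨_, ⟨P1, -, hw1, rfl⟩, _, ⟨P2, -, hw2, rfl⟩, hne⟩ := Set.Infinite.nontrivial hinf
  have hne' : a P2 - a P1 ≠ 0 := sub_ne_zero.2 hne.symm
  obtain ⟨ua, haa, hwa⟩ : ∃ ua : U, a ua = 1 ∧ w ua = 0 :=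
    ⟨(a P2 - a P1)⁻¹ • (P2 - P1), by simp [inv_mul_cancel₀ hne'], by simp [hw1, hw2]⟩
  obtain ⟨uw, haw, hww⟩ : ∃ uw : U, a uw = 0 ∧ w uw = 1 :=
    ⟨P1 - a P1 • ua, by simp [haa], by simp [hw1, hwa]⟩
  let c : Fin 10 → K := ![T e e e, 3 * T ua e e, 3 * T uw e e, 3 * T ua ua e, 6 * T uw ua e,
    3 * T uw uw e, T ua ua ua, 3 * T uw ua ua, 3 * T uw uw ua, T uw uw uw]
  have hg : ∀ t z : K, gc c t z =
      T (uw + t • ua + z • e) (uw + t • ua + z • e) (uw + t • ua + z • e) := by
    intro t z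
    have s12 := hT.s12
    have s23 := hT.s23
    have s13 : ∀ x y z, T x y z = T z y x := fun x y z => by rw [s12, s23, s12]
    simp only [gc, c, map_add, map_smul, LinearMap.add_apply, LinearMap.smul_apply, smul_eq_mul,
      Matrix.cons_val, s23 uw e ua, s12 ua uw e, s13 e ua uw, s13 e ua ua, s23 ua e ua,
      s13 e e ua, s12 e ua e, s13 e e uw, s12 e uw e, s13 e uw uw, s23 uw e uw,
      s13 ua ua uw, s12 ua uw ua, s13 ua uw uw, s23 uw ua uw, s12 e uw ua, s13 ua e uw]
    ring
  refine (small_plane c fun t z h => ?_).mono ?_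
  · rw [hg] at h
    have := hX _ h (by simp [hww, hwa, hew])
    simpa [haw, haa, hea] using this
  · rintro t ⟨x, h1, h3, rfl⟩
    obtain ⟨z, hz⟩ := he (x - uw - a x • ua) (by simp [haw, haa]) (by simp [h3, hww, hwa])
    refine ⟨z, ?_⟩
    rw [hg, ← hz]
    have : uw + a x • ua + (x - uw - a x • ua) = x := by abel
    rw [this, h1]

section Cubic

variable {K U : Type*} [Field K] [AddCommGroup U] [Module K U]

/-- A function that agrees with a cubic form on the affine hyperplane `w = 1`. -/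
def IsCubic (w : U →ₗ[K] K) (h : U → K) : Prop :=
  ∃ T : U →ₗ[K] U →ₗ[K] U →ₗ[K] K, IsSym T ∧ ∀ x, w x = 1 → T x x x = h x

variable {w : U →ₗ[K] K}

lemma IsCubic.sum {ι : Type*} (s : Finset ι) (h : ι → U → K) (hs : ∀ i ∈ s, IsCubic w (h i)) :
    IsCubic w fun x => ∑ i ∈ s, h i x := by
  classical
  induction s using Finset.induction_on with
  | empty => exact ⟨0, ⟨fun _ _ _ => rfl, fun _ _ _ => rfl⟩, fun x _ => by simp⟩
  | insert i s hi ih =>
    obtain ⟨T1, h1, h1'⟩ := hs i (Finset.mem_insert_self _ _)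
    obtain ⟨T2, h2, h2'⟩ := ih fun j hj => hs j (Finset.mem_insert_of_mem hj)
    refine ⟨T1 + T2, ⟨fun x y z => ?_, fun x y z => ?_⟩, fun x hx => ?_⟩
    · simp only [LinearMap.add_apply, h1.s12 x y z, h2.s12 x y z]
    · simp only [LinearMap.add_apply, h1.s23 x y z, h2.s23 x y z]
    · simp only [LinearMap.add_apply, h1' x hx, h2' x hx, Finset.sum_insert hi]

lemma IsCubic.prod3 [CharZero K] (k : K) (l1 l2 l3 : U →ₗ[K] K) {h : U → K}
    (hh : ∀ x, w x = 1 → h x = k * (l1 x * l2 x * l3 x)) : IsCubic w h := by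
  let m : (U →ₗ[K] K) → (U →ₗ[K] K) → (U →ₗ[K] K) → (U →ₗ[K] U →ₗ[K] U →ₗ[K] K) :=
    fun a b c => a.smulRight (b.smulRight c)
  refine ⟨(k / 6) • (m l1 l2 l3 + m l1 l3 l2 + m l2 l1 l3 + m l2 l3 l1 + m l3 l1 l2 + m l3 l2 l1),
    ⟨fun x y z => ?_, fun x y z => ?_⟩, fun x hx => ?_⟩
  · simp only [m, LinearMap.add_apply, LinearMap.smul_apply, LinearMap.smulRight_apply,
      smul_eq_mul]
    ring
  · simp only [m, LinearMap.add_apply, LinearMap.smul_apply, LinearMap.smulRight_apply,
      smul_eq_mul]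
    ring
  · simp only [m, LinearMap.add_apply, LinearMap.smul_apply, LinearMap.smulRight_apply,
      smul_eq_mul, hh x hx]
    ring

lemma IsCubic.multiset [CharZero K] (k : K) (m : Multiset (U →ₗ[K] K)) (hm : m.card ≤ 3) :
    IsCubic w fun x => k * (m.map fun l => l x).prod := by
  induction m using Quotient.inductionOn with
  | _ l =>
  match l, hm with
  | [], _ => exact IsCubic.prod3 k w w w fun x hx => by simp [hx]
  | [a], _ => exact IsCubic.prod3 k a w w fun x hx => by simp [hx]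
  | [a, b], _ => exact IsCubic.prod3 k a b w fun x hx => by simp [hx]
  | [a, b, c], _ => exact IsCubic.prod3 k a b c fun x hx => by simp [mul_assoc]
  | _ :: _ :: _ :: _ :: _, hm => simp at hm; omega

lemma IsCubic.mvPolynomial [CharZero K] {σ : Type*} [DecidableEq σ] (j : σ) (wt : σ → ℕ)
    (hwt : ∀ i, i ≠ j → wt i = 1) (f : MvPolynomial σ K) (hf : f.weightedTotalDegree wt ≤ 3)
    (L : σ → U →ₗ[K] K) (hL : L j = 0) :
    IsCubic w fun x => MvPolynomial.eval (fun i => L i x) f := by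
  have h1 : ∀ x, MvPolynomial.eval (fun i => L i x) f = ∑ s ∈ f.support,
      (f.coeff s * 0 ^ s j) * ((((s.erase j).toMultiset.map L).map fun l => l x).prod) := by
    intro x
    rw [MvPolynomial.eval_eq]
    refine Finset.sum_congr rfl fun s _ => ?_
    have := Finsupp.mul_prod_erase' s j (fun i k => (L i x) ^ k) (fun i => pow_zero _)
    have h2 : ∀ t : σ →₀ ℕ, ((t.toMultiset.map L).map fun l => l x).prod =
        t.prod fun i k => (L i x) ^ k := by
      intro t
      induction t using Finsupp.induction_linear with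
      | zero => simp
      | add f g hf hg =>
        rw [Finsupp.prod_add_index' (fun _ => pow_zero _) (fun _ _ _ => pow_add _ _ _), ← hf, ← hg]
        simp
      | single i k => simp [Multiset.map_nsmul, Multiset.prod_nsmul]
    rw [h2, mul_assoc]
    rw [hL] at this
    congr 1
    exact this.symm
  simp only [h1]
  refine IsCubic.sum _ _ fun s hs => IsCubic.multiset _ _ ?_
  refine le_trans ?_ ((MvPolynomial.le_weightedTotalDegree wt hs).trans hf)
  rw [Multiset.card_map, Finsupp.card_toMultiset, Finsupp.weight_apply, Finsupp.sum, Finsupp.sum,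
    Finsupp.support_erase]
  refine le_trans (le_of_eq ?_) (Finset.sum_le_sum_of_subset (Finset.erase_subset j _))
  refine Finset.sum_congr rfl fun i hi => ?_
  have := Finset.ne_of_mem_erase hi
  simp [hwt i this, Finsupp.erase_ne this]

end Cubic

theorem small_poly {K : Type} [Field K] [NumberField K] {n : ℕ}
    (f : MvPolynomial (Fin 2 ⊕ Fin n) K)
    (hf : f.weightedTotalDegree (Sum.elim ![1, 0] fun _ => 1) ≤ 3)
    (hX : ∀ a z, MvPolynomial.eval (Sum.elim ![a, 0] z) f = 0 → PInt a) :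
    Small {a : K | ∃ z : Fin n → K, MvPolynomial.eval (Sum.elim ![a, 0] z) f = 0} := by
  classical
  let U := K × K × (Fin n → K)
  let w : U →ₗ[K] K := LinearMap.fst K K _
  let a : U →ₗ[K] K := (LinearMap.fst K K _).comp (LinearMap.snd K K _)
  let L : Fin 2 ⊕ Fin n → U →ₗ[K] K := Sum.elim ![a, 0] fun i =>
    (LinearMap.proj i).comp ((LinearMap.snd K K _).comp (LinearMap.snd K K _))
  obtain ⟨T, hT, hTx⟩ := IsCubic.mvPolynomial (w := w) (Sum.inl 1) _ (by
    rintro (i | i) hi
    · fin_cases i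
      · rfl
      · exact absurd rfl hi
    · rfl) f hf L rfl
  have hL : ∀ x : U, (fun i => L i x) = Sum.elim ![x.2.1, 0] x.2.2 := by
    intro x
    funext i
    rcases i with i | i
    · fin_cases i <;> rfl
    · rfl
  replace hTx : ∀ x, w x = 1 → T x x x = MvPolynomial.eval (fun i => L i x) f := hTx
  refine (small_cubic _ U rfl T a w hT fun x h1 h2 => ?_).mono ?_
  · rw [hTx x h2, hL] at h1
    exact hX _ _ h1
  · rintro t ⟨z, hz⟩
    refine ⟨(1, t, z), ?_, rfl, rfl⟩
    rw [hTx _ rfl, hL]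
    exact hz

end Pool.Agent.MP_a59382_lc
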