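import Pool.Agent.MP_48b1c3_nt.Mg.H91_RDef

/-! Definitions for the analytic part: Hecke characters of infinite order, equidistribution. -/

set_option autoImplicit false

namespace Pool.Agent.MP_a59382_lc.V3

open Finset NumberField Filter Pool.Agent.MP_48b1c3_nt.H91

variable {k : Type} [Field k] [NumberField k]

/-- archimedean characters -/
noncomputable def ar (t : (k →+* ℂ) → ℝ) (m : (k →+* ℂ) → ℤ) (z : (k →+* ℂ) → ℂ) : ℂ :=
  ∏ φ, Complex.exp (Complex.I * (t φ * Real.log ‖z φ‖ : ℝ)) * (z φ / ‖z φ‖) ^ m φ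

/-- the vector of the conjugates, divided by `X` -/
noncomputable def sc (X : ℝ) (a : 𝓞 k) : (k →+* ℂ) → ℂ := fun φ => φ a / X

/-- the point of the real algebra with given coordinates in the integral basis -/
noncomputable def emb (x : Ix k → ℝ) : (k →+* ℂ) → ℂ :=
  fun φ => ∑ i, (x i : ℂ) * φ (RingOfIntegers.basis k i)

/-- Hecke characters modulo `q` with archimedean type `(t, m)` -/
structure GC (q : ℕ) (t : (k →+* ℂ) → ℝ) (m : (k →+* ℂ) → ℤ) (F : Ideal (𝓞 k) → ℂ) : Prop where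
  pos : 0 < q
  sum : ∑ φ, t φ = 0
  le : ∀ I, ‖F I‖ ≤ 1
  one : F ⊤ = 1
  mul : ∀ I J, F (I * J) = F I * F J
  cop : ∀ I, F I ≠ 0 → Cop q I
  per : ∀ (a a' b : Ideal (𝓞 k)) (α α' : 𝓞 k), a * b = Ideal.span {α} →
    a' * b = Ideal.span {α'} → ((q * Ideal.absNorm b : ℕ) : 𝓞 k) ∣ α - α' → 0 < nm α * nm α' →
      F a * ar t m (sc 1 α') = F a' * ar t m (sc 1 α)

/-- `F` is not the principal character modulo `q` -/
def NP (q : ℕ) (F : Ideal (𝓞 k) → ℂ) : Prop := ∃ I, I ≠ ⊥ ∧ Cop q I ∧ F I ≠ 1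

/-- the archimedean type has size at most `T` -/
def Sz (T : ℝ) (t : (k →+* ℂ) → ℝ) (m : (k →+* ℂ) → ℤ) : Prop :=
  ∀ φ, |t φ| ≤ T ∧ |(m φ : ℝ)| ≤ T

/-- the logarithm of the norm on the ideals of prime norm -/
noncomputable def pw (I : Ideal (𝓞 k)) : ℝ :=
  if (Ideal.absNorm I).Prime then Real.log (Ideal.absNorm I) else 0

/-- weighted sums over the ideals with norm in `(y, z]` -/
noncomputable def sI (wt : Ideal (𝓞 k) → ℝ) (F : Ideal (𝓞 k) → ℂ) (y z : ℕ) : ℂ :=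
  ∑ n ∈ Ioc y z, ∑ I ∈ idN k n, wt I * F I

/-- the theorem of Siegel and Walfisz for the weight `wt` with densities `α` -/
def GS (wt : Ideal (𝓞 k) → ℝ) (α : ℕ → ℝ) : Prop :=
  ∀ (A B : ℕ) (R : ℝ), ∀ᶠ x : ℝ in atTop, ∀ (q : ℕ) (t : (k →+* ℂ) → ℝ) (m : (k →+* ℂ) → ℤ)
    (F : Ideal (𝓞 k) → ℂ) (y z : ℕ), BB k ∣ q → (q : ℝ) ≤ Real.log x ^ B →
      Sz (Real.log x ^ B) t m → GC q t m F → x ≤ y → y ≤ z → z ≤ R * x →
        (NP q F → ‖sI wt F y z‖ ≤ x / Real.log x ^ A) ∧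
          (¬ NP q F → ‖sI wt F y z - (α q * ((z : ℝ) - y) : ℝ)‖ ≤ x / Real.log x ^ A)

/-- Lipschitz weights with compact support in the totally positive component -/
structure Wt (R L : ℝ) (Φ : ((k →+* ℂ) → ℂ) → ℝ) : Prop where
  le : ∀ z, |Φ z| ≤ 1
  lip : ∀ z w, |Φ z - Φ w| ≤ L * ‖z - w‖
  supp : ∀ z, Φ z ≠ 0 → ∀ φ, 1 / R ≤ ‖z φ‖ ∧ ‖z φ‖ ≤ R ∧
    (ComplexEmbedding.IsReal φ → 0 < (z φ).re)

/-- periodic modulo `q` and bounded by one -/
def Pe (q : ℕ) (η : 𝓞 k → ℝ) : Prop :=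
  (∀ a b, (q : 𝓞 k) ∣ a - b → η a = η b) ∧ ∀ a, |η a| ≤ 1

/-- the mean over the residue classes modulo `q` -/
noncomputable def av (q : ℕ) (η : 𝓞 k → ℝ) : ℝ :=
  (∑ a ∈ cb (Ix k) q, η (el k a)) / (q : ℝ) ^ dg k

open scoped Classical in
/-- the indicator of the units modulo `p` -/
noncomputable def un (p : ℕ) (a : 𝓞 k) : ℝ := if IsCoprime a (p : 𝓞 k) then 1 else 0

variable (k) in
/-- the proportion of the units modulo `p` -/
noncomputable def Vp (p : ℕ) : ℝ := av (k := k) p (un p)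

/-- the local densities at the primes that divide `q` but not `W` -/
noncomputable def mu (W q : ℕ) (a : 𝓞 k) : ℝ :=
  ∏ p ∈ q.primeFactors.filter fun p => ¬ p ∣ W, un p a / Vp k p

/-- the weights `lam` are equidistributed in the class of `a₀` modulo `W` with density `c` -/
def Eqd (lam : 𝓞 k → ℝ) (W : ℕ) (a₀ : 𝓞 k) (c : ℝ) : Prop :=
  ∀ (A B : ℕ) (R : ℝ), ∀ᶠ X : ℝ in atTop, ∀ (q : ℕ) (η : 𝓞 k → ℝ)
    (Φ : ((k →+* ℂ) → ℂ) → ℝ), 0 < q → W ∣ q → (q : ℝ) ≤ Real.log X ^ B → Pe q η →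
      (∀ a, η a ≠ 0 → (W : 𝓞 k) ∣ a - a₀) → Wt R (Real.log X ^ B) Φ →
        |∑' a, lam a * η a * Φ (sc X a) -
          c * X ^ dg k * av q (fun a => mu W q a * η a) * ∫ x, Φ (emb x)| ≤
            X ^ dg k / Real.log X ^ A

/-- nonnegative weights of logarithmic size on the elements of prime norm -/
def Lm (lam : 𝓞 k → ℝ) : Prop :=
  ∃ C : ℝ, ∀ a, 0 ≤ lam a ∧ lam a ≤ C * Real.log (nm a).natAbs ∧
    (lam a ≠ 0 → (nm a).natAbs.Prime)

variable (k) in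
open scoped Classical in
/-- the weight of the ideals of `Ω` with a generator in the class of `P₀` and of norm `a` -/
noncomputable def nl {Ω : Type} [Field Ω] [NumberField Ω] [Algebra k Ω]
    (wt : Ideal (𝓞 Ω) → ℝ) (W : ℕ) (P₀ : 𝓞 Ω) (a : 𝓞 k) : ℝ :=
  ∑ I ∈ (idN Ω (nm a).natAbs).filter fun I => ∃ P : 𝓞 Ω, I = Ideal.span {P} ∧
    (W : 𝓞 Ω) ∣ P - P₀ ∧ RingOfIntegers.norm k P = a, wt I

end Pool.Agent.MP_a59382_lc.V3
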