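import Pool.Agent.MP_a59382_lc.Mg.V3_PellDef
import Pool.Agent.MP_a59382_lc.V3.KDef

attribute [-instance] MonTypeEquivalenceMon.monMonoid
  Algebra.IsAlgebraic.isPurelyInseparable_of_isSepClosed NormedAlgebra.toAlgebra
  ContinuousSemilinearMapClass.toSemilinearMapClass BialgHomClass.toAlgHomClass NormedSpace.toModule
  IdemSemiring.toSemiring RKHS.instFunLike instNonUnitalAlgHomClassOfNonUnitalAlgEquivClass
  LieAdmissibleAlgebra.toModule LieAlgebra.toModule IsPurelyInseparable.instOfHasExponent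
  NonUnitalAlgHomClass.instLinearMapClass RightPreLieAlgebra.toModule LeftPreLieAlgebra.toModule
  RingHomClass.toLinearMapClassRat littleWedderburn instIsRightCancelAddOfAddRightReflectLE
  BialgHomClass.toMonoidHomClass Fintype.decidableForallFintype instCharZeroOfIsSemireal
  CoalgHomClass.toSemilinearMapClass SemilinearIsometryClass.toSemilinearMapClass
  ValuationClass.toMonoidWithZeroHomClass
  NonUnitalAlgHomClass.instSemilinearMapClassOfNonUnitalAlgSemiHomClassToMonoidHomRingHom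
  NormMulClass.toNoZeroDivisors MonoidWithZero.toMonoid Bialgebra.toAlgebra BooleanRing.toRing
  CommMonTypeEquivalenceCommMon.commMonCommMonoid CompletePartialOrder.toPartialOrder
  SemilatticeInf.toPartialOrder

/-! The two subfields of index two of the cyclotomic field of conductor `2 ^ m`. -/

set_option autoImplicit false

namespace Pool.Agent.MP_a59382_lc.V3

open Finset NumberField Pool.Agent.MP_48b1c3_nt.H91

theorem fl_sq {v x u : ℕ} (j : ℕ) (hu : Odd u) (h : x = 1 + 2 ^ (v + 2) * u) :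
    ∃ w, Odd w ∧ x ^ 2 ^ j = 1 + 2 ^ (v + 2 + j) * w := by
  induction j with
  | zero => exact ⟨u, hu, by simpa using h⟩
  | succ j ih =>
    obtain ⟨w, hw, e⟩ := ih
    refine ⟨w + 2 * (2 ^ (v + j) * w ^ 2), hw.add_even (even_two_mul _), ?_⟩
    rw [pow_succ 2 j, pow_mul, e]
    ring

theorem fl_five (j : ℕ) : ∃ w, Odd w ∧ 5 ^ 2 ^ j = 1 + 2 ^ (j + 2) * w := by
  obtain ⟨w, hw, e⟩ := fl_sq (v := 0) (x := 5) j odd_one (by norm_num)
  exact ⟨w, hw, by rw [e, zero_add, add_comm 2 j]⟩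

theorem fl_pas {k Q : ℕ} (hQ : Odd Q) (h1 : ¬ Q ≡ 1 [MOD 2 ^ (k + 4)])
    (h2 : ¬ 2 ^ (k + 3) ∣ Q + 1) : ∃ i w, 0 < i ∧ Odd w ∧ Q ^ i = 1 + 2 ^ (k + 3) * w := by
  obtain ⟨r, rfl⟩ := hQ
  by_cases h3 : 2 ^ (k + 2) ∣ r
  · obtain ⟨w, rfl⟩ := h3
    refine ⟨1, w, one_pos, ?_, by ring⟩
    rw [← Nat.not_even_iff_odd]
    rintro ⟨w', rfl⟩
    exact h1 ((Nat.modEq_iff_dvd' (by omega)).2 ⟨w', by rw [Nat.add_sub_cancel]; ring⟩).symm
  · have h4 : r * (r + 1) ≠ 0 := by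
      rintro h
      rcases Nat.mul_eq_zero.1 h with h | h
      · exact h3 (h ▸ dvd_zero _)
      · omega
    obtain ⟨v, u, hu, e⟩ := Nat.exists_eq_two_pow_mul_odd h4
    have h5 : v ≤ k + 1 := by
      by_contra h6
      have h7 : 2 ^ (k + 2) ∣ r * (r + 1) := e ▸ (pow_dvd_pow 2 (by omega)).mul_right u
      rcases Nat.even_or_odd r with h8 | h8
      · exact h3 ((Nat.Coprime.pow_left _ (Nat.coprime_two_left.2 h8.add_one)).dvd_of_dvd_mul_right
          h7)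
      · obtain ⟨c, hc⟩ := (Nat.Coprime.pow_left _ (Nat.coprime_two_left.2 h8)).dvd_of_dvd_mul_left
          h7
        exact h2 ⟨c, by rw [pow_succ]; linarith only [hc]⟩
    obtain ⟨j, hj⟩ := Nat.exists_eq_add_of_le h5
    obtain ⟨w, hw, e'⟩ := fl_sq (v := v) (x := (2 * r + 1) ^ 2) j hu (by
      rw [pow_add 2 v 2]; linarith only [e])
    refine ⟨2 * 2 ^ j, w, by positivity, hw, ?_⟩
    rw [pow_mul, e', show v + 2 + j = k + 3 by omega]

section Pow

variable {L : Type} [Field L] {z : L} {n : ℕ}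

theorem fl_ne (hz : z ^ 2 ^ n = -1) : z ≠ 0 := by
  rintro rfl
  rw [zero_pow (by positivity)] at hz
  exact one_ne_zero (neg_eq_zero.1 hz.symm)

theorem fl_odd (hz : z ^ 2 ^ n = -1) {w : ℕ} (hw : Odd w) : z ^ (1 + 2 ^ n * w) = -z := by
  rw [pow_add, pow_mul, hz, hw.neg_one_pow]
  ring

theorem fl_even (hz : z ^ 2 ^ n = -1) (w : ℕ) : z ^ (2 ^ (n + 1) * w) = 1 := by
  rw [pow_mul, pow_succ, pow_mul, hz]
  simp only [even_two, Even.neg_pow, one_pow]

theorem fl_inv (hz : z ^ 2 ^ n = -1) {Q : ℕ} (h : 2 ^ (n + 1) ∣ Q + 1) : z ^ Q = z⁻¹ := by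
  obtain ⟨w, e⟩ := h
  refine eq_inv_of_mul_eq_one_left ?_
  rw [← pow_succ, e, fl_even hz]

theorem fl_ninv (hz : z ^ 2 ^ n = -1) {Q : ℕ} (h : Q + 1 ≡ 2 ^ n [MOD 2 ^ (n + 1)]) :
    z ^ Q = -z⁻¹ := by
  have h1 : z ^ 2 ^ (n + 1) = 1 := by simpa only [mul_one] using fl_even hz 1
  have h2 : z ^ (Q + 1) = -1 := by
    rw [pow_eq_pow_mod _ h1, h, ← pow_eq_pow_mod _ h1, hz]
  rw [← neg_eq_iff_eq_neg]
  refine eq_inv_of_mul_eq_one_left ?_
  rw [neg_mul, ← pow_succ, h2, neg_neg]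

theorem fl_spec {Q : ℕ} (h : 2 ^ n ∣ Q + 1) (h' : ¬ 2 ^ (n + 1) ∣ Q + 1) :
    Q + 1 ≡ 2 ^ n [MOD 2 ^ (n + 1)] := by
  obtain ⟨w, e⟩ := h
  rcases Nat.even_or_odd' w with ⟨c, rfl | rfl⟩
  · exact absurd ⟨c, by rw [e]; ring⟩ h'
  · rw [e]
    exact ((Nat.modEq_iff_dvd' (by linarith only [Nat.zero_le (2 ^ n * c)])).2
      ⟨c, Nat.sub_eq_of_eq_add (by ring)⟩).symm

theorem fl_shift (hz : z ^ 2 ^ (n + 2) = -1) (i : ℕ) : z ^ 5 ^ (2 ^ n + i) = -z ^ 5 ^ i := by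
  obtain ⟨w, hw, e⟩ := fl_five n
  rw [pow_add, pow_mul, e, fl_odd hz hw, Odd.neg_pow (Odd.pow (by decide))]

theorem fl_T (j : ℕ) : ∀ (z : L) (x : ℤ), z ^ 2 ^ (j + 1) = -1 → x % 4 = 3 →
    ∃ y : ℤ, y % 4 = 3 ∧ ∏ i ∈ range (2 ^ j), ((x : L) - (z ^ 5 ^ i + (z ^ 5 ^ i)⁻¹)) = y := by
  induction j with
  | zero =>
    intro z x hz hx
    refine ⟨x, hx, ?_⟩
    have h0 := fl_ne hz
    have h1 : z⁻¹ = -z := (eq_inv_of_mul_eq_one_left (by linear_combination -hz)).symm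
    simp [h1]
  | succ j ih =>
    intro z x hz hx
    obtain ⟨y, hy, e⟩ := ih (z ^ 2) (x ^ 2 - 2) (by rw [← pow_mul, ← pow_succ', hz]) (by
      obtain ⟨c, rfl⟩ : ∃ c, x = 4 * c + 3 := ⟨x / 4, by omega⟩
      rw [show (4 * c + 3) ^ 2 - 2 = 3 + 4 * (4 * c ^ 2 + 6 * c + 1) by ring]
      omega)
    refine ⟨y, hy, ?_⟩
    rw [← e, pow_succ 2 j, mul_two, prod_range_add, ← prod_mul_distrib]
    refine prod_congr rfl fun i _ => ?_
    have h0 : z ^ 5 ^ i ≠ 0 := pow_ne_zero _ (fl_ne hz)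
    rw [fl_shift hz, ← pow_mul z 2, mul_comm 2, pow_mul]
    push_cast
    field_simp
    ring

theorem fl_of {x y : L} (h : IsIntegral ℤ x) (e : y = x) : IsIntegral ℤ y := e ▸ h

theorem fl_two {x : L} (hx : IsIntegral ℤ x) {N : ℕ} (h : x ^ N = -1) :
    ∃ y, IsIntegral ℤ y ∧ (x - 1) * y = 2 := by
  refine ⟨-∑ i ∈ range N, x ^ i, (IsIntegral.sum _ fun i _ => hx.pow i).neg, ?_⟩
  rw [mul_neg, mul_geom_sum, h]
  ring

theorem fl_frob {z : L} [CharZero L] (hz : IsIntegral ℤ z) (g : L ≃ₐ[ℚ] L) {Q : ℕ}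
    (hQ : Q.Prime) (i : ℕ) (hg : g z = z ^ Q ^ i) {a : L} (ha : a ∈ Algebra.adjoin ℤ {z}) :
    ∃ b, IsIntegral ℤ b ∧ g a = a ^ Q ^ i + Q * b := by
  have hI : ∀ x ∈ Algebra.adjoin ℤ {z}, IsIntegral ℤ x := fun x hx =>
    IsIntegral.of_mem_of_fg _ hz.fg_adjoin_singleton x hx
  induction ha using Algebra.adjoin_induction with
  | mem x hx => exact ⟨0, isIntegral_zero, by rw [hx, hg, mul_zero, add_zero]⟩
  | algebraMap r =>
    have := Fact.mk hQ
    obtain ⟨c, hc⟩ : (Q : ℤ) ∣ r - r ^ Q ^ i := by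
      rw [← ZMod.intCast_zmod_eq_zero_iff_dvd]
      push_cast
      rw [ZMod.pow_card_pow, sub_self]
    refine ⟨c, isIntegral_algebraMap (x := c), ?_⟩
    have h1 := congrArg (Int.cast : ℤ → L) hc
    push_cast at h1
    simp only [algebraMap_int_eq, eq_intCast, map_intCast]
    linear_combination h1
  | add x y hx hy ihx ihy =>
    obtain ⟨b, hb, e⟩ := ihx
    obtain ⟨c, hc, e'⟩ := ihy
    obtain ⟨r, hr⟩ := exists_add_pow_prime_pow_eq hQ (⟨x, hI x hx⟩ : integralClosure ℤ L)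
      ⟨y, hI y hy⟩ i
    have h1 : (x + y) ^ Q ^ i = x ^ Q ^ i + y ^ Q ^ i + Q * x * y * r := by
      simpa only [RingOfIntegers.mk_add_mk, SubmonoidClass.mk_pow, AddMemClass.coe_add, SubmonoidClass.coe_pow, MulMemClass.coe_mul, SubringClass.coe_natCast] using congrArg Subtype.val hr
    refine ⟨b + c - x * y * r, (hb.add hc).sub (((hI x hx).mul (hI y hy)).mul r.2), ?_⟩
    rw [map_add, e, e', h1]
    ring
  | mul x y hx hy ihx ihy =>
    obtain ⟨b, hb, e⟩ := ihx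
    obtain ⟨c, hc, e'⟩ := ihy
    refine ⟨b * y ^ Q ^ i + x ^ Q ^ i * c + Q * b * c, ((hb.mul ((hI y hy).pow _)).add
      (((hI x hx).pow _).mul hc)).add (((isIntegral_natCast Q).mul hb).mul hc), ?_⟩
    rw [map_mul, e, e', mul_pow]
    ring

end Pow

/-- the data of the cyclotomic field of conductor `2 ^ (k + 4)` -/
structure Cy (k : ℕ) (L : Type) [Field L] [NumberField L] where
  /-- the root of unity -/
  z : L
  /-- complex conjugation -/
  c : L ≃ₐ[ℚ] L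
  /-- the automorphism that raises the root to the fifth power -/
  s : L ≃ₐ[ℚ] L
  hz : z ^ 2 ^ (k + 3) = -1
  int : IsIntegral ℤ z
  adj : ∀ a, IsIntegral ℤ a → a ∈ Algebra.adjoin ℤ {z}
  ext : ∀ φ ψ : L →+* ℂ, φ z = ψ z → φ = ψ
  hc : c z = z⁻¹
  hs : s z = z ^ 5
  rank : Module.finrank ℚ L = 2 ^ (k + 3)
  ab : IsAbelianGalois ℚ L

theorem fl_cy (k : ℕ) (L : Type) [Field L] [NumberField L]
    [IsCyclotomicExtension {2 ^ (k + 4)} ℚ L] : Nonempty (Cy k L) := by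
  have hp : 0 < 2 ^ (k + 4) := by positivity
  have hz := IsCyclotomicExtension.zeta_spec (2 ^ (k + 4)) ℚ L
  have hi := Polynomial.cyclotomic.irreducible_rat hp
  have ex : ∀ a, Odd a → ∃ g : L ≃ₐ[ℚ] L, g (IsCyclotomicExtension.zeta (2 ^ (k + 4)) ℚ L) =
      IsCyclotomicExtension.zeta (2 ^ (k + 4)) ℚ L ^ a := fun a ha =>
    ⟨_, IsCyclotomicExtension.fromZetaAut_spec
      (hz.pow_of_coprime a (Nat.Coprime.pow_right _ (Nat.coprime_two_right.2 ha))) hi⟩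
  have h1 : IsCyclotomicExtension.zeta (2 ^ (k + 4)) ℚ L ^ 2 ^ (k + 3) = -1 :=
    (hz.pow hp (pow_succ 2 (k + 3))).eq_neg_one_of_two_right
  obtain ⟨c, hc⟩ := ex (2 ^ (k + 4) - 1) (Nat.Even.sub_odd hp (by simp only [Nat.even_pow, even_two, ne_eq, Nat.add_eq_zero_iff, OfNat.ofNat_ne_zero, and_false, not_false_eq_true, and_self]) odd_one)
  obtain ⟨s, hs⟩ := ex 5 (by decide)
  refine ⟨⟨_, c, s, h1, hz.isIntegral hp, fun a ha => ?_, fun φ ψ h => ?_, ?_, hs, ?_,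
    IsCyclotomicExtension.isAbelianGalois {2 ^ (k + 4)} ℚ L⟩⟩
  · obtain ⟨y, rfl⟩ :=
      (IsCyclotomicExtension.Rat.isIntegralClosure_adjoin_singleton hz).isIntegral_iff.1 ha
    exact y.2
  · have h2 : φ.toRatAlgHom = ψ.toRatAlgHom := (hz.powerBasis ℚ).algHom_ext (by simpa using h)
    ext x
    exact AlgHom.congr_fun h2 x
  · rw [hc, fl_inv h1 (by rw [Nat.sub_add_cancel hp])]
  · rw [IsCyclotomicExtension.finrank L hi, Nat.totient_prime_pow_succ Nat.prime_two]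
    simp

theorem fl_ex (k : ℕ) : ∃ (L : Type) (_ : Field L) (_ : NumberField L), Nonempty (Cy k L) :=
  ⟨CyclotomicField (2 ^ (k + 4)) ℚ, inferInstance, inferInstance,
    @fl_cy k _ _ _ (CyclotomicField.isCyclotomicExtension (2 ^ (k + 4)) ℚ)⟩

theorem fl_fix {L : Type} [Field L] [NumberField L] {h : L ≃ₐ[ℚ] L} (h1 : h ≠ 1)
    (h2 : h ^ 2 = 1) : ∃ (F : Type) (_ : Field F) (_ : NumberField F) (_ : Algebra F L),
      Module.finrank F L = 2 ∧ ∀ x, h x = x ↔ ∃ a, algebraMap F L a = x := by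
  refine ⟨IntermediateField.fixedField (Subgroup.zpowers h), inferInstance, inferInstance,
    inferInstance, ?_, fun x => ⟨fun H => ⟨⟨x, ?_⟩, rfl⟩, ?_⟩⟩
  · rw [IntermediateField.finrank_fixedField_eq_card, Nat.card_zpowers, orderOf_eq_prime h2 h1]
  · rw [IntermediateField.mem_fixedField_iff]
    exact fun g hg =>
      (Subgroup.zpowers_le.2 (show h ∈ MulAction.stabilizer (L ≃ₐ[ℚ] L) x from H)) hg
  · rintro ⟨a, rfl⟩
    exact (IntermediateField.mem_fixedField_iff _ _).1 a.2 h (Subgroup.mem_zpowers h)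

theorem fl_int {L F : Type} [Field L] [Field F] [Algebra F L] {x : F} :
    IsIntegral ℤ (algebraMap F L x) ↔ IsIntegral ℤ x :=
  isIntegral_algHom_iff (algebraMap F L).toIntAlgHom (algebraMap F L).injective

theorem fl_res {L F : Type} [Field L] [NumberField L] [Field F] [NumberField F] [Algebra F L]
    [IsGalois ℚ F] (g : L ≃ₐ[ℚ] L) (a : F) :
    algebraMap F L (AlgEquiv.restrictNormalHom F g a) = g (algebraMap F L a) :=
  AlgEquiv.restrictNormal_commutes g F a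

theorem fl_nm {K : Type} [Field K] [NumberField K] [IsGalois ℚ K] (a : 𝓞 K) :
    ((nm a : ℤ) : K) = ∏ g : K ≃ₐ[ℚ] K, g a := by
  rw [← Algebra.norm_eq_prod_automorphisms, ← Algebra.coe_norm_int]
  simp

theorem fl_half {K : Type} [Field K] [NumberField K] [IsCMField K] [IsGalois ℚ K] (a : 𝓞 K) :
    ∃ δ : 𝓞 K, δ * cO δ = (nm a : ℤ) := by
  classical
  let c : K ≃ₐ[ℚ] K := (IsCMField.complexConj K).restrictScalars ℚ
  let e := Fintype.equivFin (K ≃ₐ[ℚ] K)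
  have h1 : ∀ g, c * (c * g) = g := fun g => AlgEquiv.ext fun x =>
    IsCMField.complexConj_apply_apply K _
  have h2 : ∀ g, e (c * g) ≠ e g := fun g h => IsCMField.complexConj_ne_one K
    (AlgEquiv.ext fun x => AlgEquiv.congr_fun (mul_eq_right.1 (e.injective h)) x)
  refine ⟨⟨∏ g with e g < e (c * g), g a, IsIntegral.prod _ fun g _ =>
    a.isIntegral_coe.map (g : K →+* K).toIntAlgHom⟩, RingOfIntegers.coe_injective ?_⟩
  rw [map_intCast, fl_nm, ← prod_filter_mul_prod_filter_not univ fun g => e g < e (c * g), map_mul]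
  refine congrArg₂ _ rfl ?_
  change c (∏ g with e g < e (c * g), g a) = _
  rw [map_prod]
  refine prod_nbij' (c * ·) (c * ·) (fun g hg => ?_) (fun g hg => ?_) (fun g _ => h1 g)
    (fun g _ => h1 g) fun g _ => rfl
  · simpa only [not_lt, mem_filter, mem_univ, h1, true_and] using (mem_filter.1 hg).2.le
  · simpa only [mem_filter, mem_univ, h1, true_and] using lt_of_le_of_ne (not_lt.1 (mem_filter.1 hg).2) (h2 g)

namespace Cy

variable {k : ℕ} {L : Type} [Field L] [NumberField L] (C : Cy k L)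

theorem ne : C.z ≠ 0 := fl_ne C.hz

theorem aext {g h : L ≃ₐ[ℚ] L} (e : g C.z = h C.z) : g = h := by
  obtain ⟨φ⟩ : Nonempty (L →+* ℂ) := inferInstance
  ext x
  exact φ.injective (RingHom.congr_fun
    (C.ext (φ.comp (g : L →+* L)) (φ.comp (h : L →+* L)) (congrArg φ e)) x)

theorem iinv : IsIntegral ℤ C.z⁻¹ := by
  rw [← C.hc]
  exact C.int.map (C.c : L →+* L).toIntAlgHom

theorem nrm (φ : L →+* ℂ) {x : L} {N : ℕ} (hx : x ^ (N + 1) = -1) : ‖φ x‖ = 1 := by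
  have h := congrArg (fun y => ‖φ y‖) hx
  simp only [map_pow, norm_pow, map_neg, map_one, norm_neg, norm_one] at h
  exact (pow_eq_one_iff_of_nonneg (norm_nonneg _) (Nat.succ_ne_zero N)).1 h

theorem nz (φ : L →+* ℂ) : ‖φ C.z‖ = 1 := by
  obtain ⟨N, hN⟩ := Nat.exists_eq_succ_of_ne_zero (show 2 ^ (k + 3) ≠ 0 by positivity)
  exact nrm φ (N := N) (by rw [← C.hz, hN])

theorem conj (φ : L →+* ℂ) (x : L) : φ (C.c x) = starRingEnd ℂ (φ x) :=
  RingHom.congr_fun (C.ext (φ.comp (C.c : L →+* L)) ((starRingEnd ℂ).comp φ) (by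
    change φ (C.c C.z) = starRingEnd ℂ (φ C.z)
    rw [C.hc, map_inv₀, Complex.inv_eq_conj (C.nz φ)])) x

theorem cc (x : L) : C.c (C.c x) = x :=
  AlgEquiv.congr_fun (C.aext (g := C.c * C.c) (h := 1) (by simp [C.hc])) x

theorem spow (i : ℕ) : (C.s ^ i) C.z = C.z ^ 5 ^ i := by
  induction i with
  | zero => simp
  | succ i ih => rw [pow_succ', AlgEquiv.mul_apply, ih, map_pow, C.hs, ← pow_mul, ← pow_succ']

theorem tau : (C.s ^ 2 ^ (k + 1)) C.z = -C.z := by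
  obtain ⟨w, hw, e⟩ := fl_five (k + 1)
  rw [C.spow, e, fl_odd C.hz hw]

theorem sone : C.s ^ 2 ^ (k + 2) = 1 := by
  obtain ⟨w, -, e⟩ := fl_five (k + 2)
  refine C.aext ?_
  rw [C.spow, e, pow_add C.z, fl_even C.hz]
  simp

theorem zsq : C.z ^ 2 ≠ 1 := fun h => by
  have h1 := C.hz
  rw [pow_succ', pow_mul, h, one_pow] at h1
  norm_num at h1

theorem zsq' : C.z ^ 2 ≠ -1 := fun h => by
  have h1 := C.hz
  rw [pow_succ', pow_mul, h, Even.neg_one_pow (by simp only [Nat.even_pow, even_two, ne_eq, Nat.add_eq_zero_iff, OfNat.ofNat_ne_zero, and_false, not_false_eq_true, and_self])] at h1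
  norm_num at h1

section Sub

variable {F : Type} [Field F] [NumberField F] [Algebra F L]

theorem frob (g : L ≃ₐ[ℚ] L) {Q : ℕ} (hQ : Q.Prime) (i : ℕ) (hg : g C.z = C.z ^ Q ^ i) {a a' : F}
    (ha : IsIntegral ℤ a) (e : algebraMap F L a' = g (algebraMap F L a)) :
    ∃ b : F, IsIntegral ℤ b ∧ a' = a ^ Q ^ i + Q * b := by
  obtain ⟨b, hb, e'⟩ := fl_frob C.int g hQ i hg (C.adj _ (fl_int.2 ha))
  have h0 : (Q : L) ≠ 0 := Nat.cast_ne_zero.2 hQ.ne_zero
  have h1 : (Q : F) ≠ 0 := Nat.cast_ne_zero.2 hQ.ne_zero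
  refine ⟨(a' - a ^ Q ^ i) / Q, (fl_int (L := L)).1 ?_, by field_simp; ring⟩
  refine fl_of hb ?_
  rw [map_div₀, map_sub, map_pow, map_natCast, e, e']
  field_simp
  ring

include C in
theorem rk (hr : Module.finrank F L = 2) : Module.finrank ℚ F = 2 ^ (k + 2) := by
  have h3 := Module.finrank_mul_finrank ℚ F L
  rw [hr, C.rank, pow_succ] at h3
  omega

theorem gen (hr : Module.finrank F L = 2) [IsGalois ℚ F] {x : F} (h0 : x ≠ 0)
    (hx : (C.s ^ 2 ^ (k + 1)) (algebraMap F L x) = -algebraMap F L x) :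
    orderOf (AlgEquiv.restrictNormalHom F C.s) = 2 ^ (k + 2) ∧
      ∀ g, g ∈ Subgroup.zpowers (AlgEquiv.restrictNormalHom F C.s) := by
  have h3 : orderOf (AlgEquiv.restrictNormalHom F C.s) = 2 ^ (k + 2) := by
    refine orderOf_eq_prime_pow (fun e => h0 ?_) (by rw [← map_pow, C.sone, map_one])
    rw [← fl_res, map_pow, e, AlgEquiv.one_apply, ← map_neg] at hx
    have h4 : 2 * x = 0 := by linear_combination (algebraMap F L).injective hx
    simpa using h4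
  refine ⟨h3, ?_⟩
  rw [← Subgroup.eq_top_iff', ← Subgroup.card_eq_iff_eq_top, Nat.card_zpowers, h3,
    IsGalois.card_aut_eq_finrank, C.rk hr]

end Sub

/-- a primitive fourth root of unity -/
def i : L := C.z ^ 2 ^ (k + 2)

theorem isq : C.i ^ 2 = -1 := by rw [i, ← pow_mul, ← pow_succ, C.hz]

theorem iint : IsIntegral ℤ C.i := C.int.pow _

theorem ci : C.c C.i = -C.i := by
  rw [i, map_pow, C.hc, inv_pow]
  exact (eq_inv_of_mul_eq_one_left (by have := C.isq; rw [i] at this; linear_combination -this)).symm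

theorem ti {g : L ≃ₐ[ℚ] L} (hg : g C.z = -C.z) : g C.i = C.i := by
  rw [i, map_pow, hg, Even.neg_pow (by simp only [Nat.even_pow, even_two, ne_eq, Nat.add_eq_zero_iff, OfNat.ofNat_ne_zero, and_false, not_false_eq_true, and_self])]

theorem pas {Q : ℕ} (hQ : Q.Prime) (h2 : Q ≠ 2) (h1 : ¬ Q ≡ 1 [MOD 2 ^ (k + 4)])
    (h3 : ¬ 2 ^ (k + 3) ∣ Q + 1) : ∃ i, 0 < i ∧ Q ^ i % 4 = 1 ∧ C.z ^ Q ^ i = -C.z := by
  obtain ⟨i, w, hi, hw, e⟩ := fl_pas (hQ.odd_of_ne_two h2) h1 h3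
  refine ⟨i, hi, ?_, by rw [e, fl_odd C.hz hw]⟩
  rw [e, show 2 ^ (k + 3) * w = 4 * (2 ^ (k + 1) * w) by ring]
  omega

include C in
theorem pell : ∃ (K : Type) (_ : Field K) (_ : NumberField K), Nonempty (Pell (k + 4) K) := by
  have := C.ab
  have h0 := C.ne
  obtain ⟨φ⟩ : Nonempty (L →+* ℂ) := inferInstance
  obtain ⟨F, _, _, _, hk, hF⟩ := fl_fix (h := C.c) (fun h => C.zsq (by
    have h1 := C.hc
    rw [h, AlgEquiv.one_apply] at h1
    rw [sq]
    nth_rewrite 1 [h1]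
    exact inv_mul_cancel₀ h0)) (AlgEquiv.ext C.cc)
  have := IsAbelianGalois.tower_bot ℚ F L
  have hc : ∀ a, C.c (algebraMap F L a) = algebraMap F L a := fun a => (hF _).2 ⟨a, rfl⟩
  have hz1 : C.z - 1 ≠ 0 := fun h => C.zsq (by rw [sub_eq_zero.1 h, one_pow])
  have hz2 : C.z + 1 ≠ 0 := fun h => C.zsq (by rw [eq_neg_of_add_eq_zero_left h]; norm_num)
  have hη0 : C.z + C.z⁻¹ ≠ 0 := fun h => C.zsq' (by
    field_simp at h
    linear_combination h)
  obtain ⟨η, eη⟩ := (hF (C.z + C.z⁻¹)).1 (by simp [C.hc, add_comm])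
  obtain ⟨v, ev⟩ := (hF (C.i * (C.z + 1) / (C.z - 1))).1 (by
    have h3 : 1 - C.z ≠ 0 := fun h => hz1 (by linear_combination -h)
    simp only [map_div₀, map_mul, map_add, map_sub, map_one, C.hc, C.ci]
    field_simp
    ring)
  have hη : (C.s ^ 2 ^ (k + 1)) (algebraMap F L η) = -algebraMap F L η := by
    simp only [eη, map_add, map_inv₀, C.tau, inv_neg]
    ring
  have h3 : η ≠ 0 := fun h => hη0 (by rw [← eη, h, map_zero])
  obtain ⟨ho, hg⟩ := C.gen hk h3 hη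
  have hτ : ∀ a, algebraMap F L ((AlgEquiv.restrictNormalHom F C.s ^ 2 ^ (k + 1)) a) =
      (C.s ^ 2 ^ (k + 1)) (algebraMap F L a) := fun a => by rw [← map_pow, fl_res]
  have hr : ComplexEmbedding.IsReal (φ.comp (algebraMap F L)) :=
    ComplexEmbedding.isReal_iff.2 (RingHom.ext fun x => by
      change starRingEnd ℂ (φ (algebraMap F L x)) = φ (algebraMap F L x)
      rw [← C.conj, hc])
  refine ⟨F, inferInstance, inferInstance, ⟨⟨k + 1, AlgEquiv.restrictNormalHom F C.s, η, v,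
    hr.embedding, inferInstance, fun g => ?_, by rw [← pow_succ', ← ho, pow_orderOf_eq_one],
    fl_int.1 (eη ▸ C.int.add C.iinv), (algebraMap F L).injective (by rw [hτ, hη, map_neg]), ?_,
    fun g => ?_, (fl_int (L := L)).1 ?_, (algebraMap F L).injective ?_, fun Q hQ => ?_,
    fun q hq h a ha => ?_⟩⟩⟩
  · obtain ⟨i, hi⟩ := mem_powers_iff_mem_zpowers.2 (hg g)
    exact ⟨i, hi.symm⟩
  · refine ⟨1, 2 / η, (fl_int (L := L)).1 ?_, by field_simp⟩
    obtain ⟨y, hy, e⟩ := fl_two (x := -C.z ^ 2) (C.int.pow 2).neg (N := 2 ^ (k + 2)) (by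
      rw [Even.neg_pow (by simp only [Nat.even_pow, even_two, ne_eq, Nat.add_eq_zero_iff, OfNat.ofNat_ne_zero, and_false, not_false_eq_true, and_self]), ← pow_mul, ← pow_succ', C.hz])
    refine fl_of (C.int.mul hy).neg ?_
    rw [map_div₀, eη, map_ofNat, div_eq_iff hη0, ← e]
    field_simp
    ring
  · obtain ⟨g, rfl⟩ := AlgEquiv.restrictNormalHom_surjective L g
    rw [← Real.norm_eq_abs, ← Complex.norm_real, hr.coe_embedding_apply, RingHom.comp_apply,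
      fl_res]
    have h4 : ‖φ (g C.z)‖ = 1 := C.nz (φ.comp (g : L →+* L))
    simp only [eη, map_add, map_inv₀]
    refine (norm_add_le _ _).trans ?_
    rw [norm_inv, h4]
    norm_num
  · have h4 := mul_geom_sum C.z (1 + 2 ^ (k + 3) * 1)
    rw [fl_odd C.hz odd_one] at h4
    refine fl_of (C.iint.mul (IsIntegral.sum (s := range (1 + 2 ^ (k + 3) * 1)) _
      fun j _ => C.int.pow j)).neg ?_
    rw [ev, div_eq_iff hz1]
    linear_combination C.i * h4
  · have h4 : -C.z - 1 ≠ 0 := fun h => hz2 (by linear_combination -h)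
    simp only [hτ, ev, map_div₀, map_mul, map_add, map_sub, map_one, map_neg, C.tau, C.ti C.tau]
    field_simp
    linear_combination (-(C.z + 1) * (C.z - 1)) * C.isq
  · obtain ⟨hQ, h3, h4, h5⟩ := hQ
    by_cases h6 : 2 ^ (k + 3) ∣ Q + 1
    · refine ⟨Q ^ 1, by simpa using hQ.two_le, fun a ha =>
        C.frob (C.s ^ 2 ^ (k + 1) * C.c) hQ 1 ?_ ha ?_⟩
      · rw [pow_one, fl_ninv C.hz (fl_spec h6 h5), AlgEquiv.mul_apply, C.hc, map_inv₀, C.tau,
          inv_neg]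
      · rw [hτ, AlgEquiv.mul_apply, hc]
    · obtain ⟨i, hi, -, e⟩ := C.pas hQ h3 h4 h6
      exact ⟨Q ^ i, Nat.one_lt_pow hi.ne' hQ.one_lt, fun a ha =>
        C.frob (C.s ^ 2 ^ (k + 1)) hQ i (C.tau.trans e.symm) ha (hτ a)⟩
  · obtain ⟨b, hb, e⟩ := C.frob C.c hq 1 (by rw [pow_one, fl_inv C.hz h, C.hc]) (a' := a) ha
      (hc a).symm
    exact ⟨-b, hb.neg, by rw [pow_one] at e; linear_combination -e⟩

include C in
theorem fk : ∃ (K : Type) (_ : Field K) (_ : NumberField K) (_ : IsCMField K),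
    4 ≤ dg K ∧ Nonempty (FK K (k + 4)) := by
  classical
  have := C.ab
  have h0 := C.ne
  obtain ⟨φ⟩ : Nonempty (L →+* ℂ) := inferInstance
  obtain ⟨h, hh⟩ : ∃ h : L ≃ₐ[ℚ] L, h C.z = -C.z⁻¹ := ⟨C.s ^ 2 ^ (k + 1) * C.c, by
    rw [AlgEquiv.mul_apply, C.hc, map_inv₀, C.tau, inv_neg]⟩
  have hθ0 : C.z - C.z⁻¹ ≠ 0 := fun h => C.zsq (by
    field_simp at h
    linear_combination h)
  obtain ⟨F, _, _, _, hk, hF⟩ := fl_fix (h := h) (fun e => C.zsq' (by
    rw [e, AlgEquiv.one_apply] at hh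
    field_simp at hh
    linear_combination hh)) (C.aext (by simp only [sq, AlgEquiv.mul_apply, hh, map_neg, map_inv₀, inv_neg, inv_inv, neg_neg, AlgEquiv.one_apply]))
  have := IsAbelianGalois.tower_bot ℚ F L
  let j : 𝓞 F →+* L := (algebraMap F L).comp (algebraMap (𝓞 F) F)
  have hj : Function.Injective j := (algebraMap F L).injective.comp RingOfIntegers.coe_injective
  have hf : ∀ a, h (algebraMap F L a) = algebraMap F L a := fun a => (hF _).2 ⟨a, rfl⟩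
  have hO : ∀ x, h x = x → IsIntegral ℤ x → ∃ a, j a = x := fun x h1 h2 => by
    obtain ⟨a, rfl⟩ := (hF x).1 h1
    exact ⟨⟨a, fl_int.1 h2⟩, rfl⟩
  have hev : ∀ n, Even (2 ^ (n + 1)) := fun n => by simp only [Nat.even_pow, even_two, ne_eq, Nat.add_eq_zero_iff, one_ne_zero, and_false, not_false_eq_true, and_self]
  have hi : h C.i = -C.i := by rw [← C.ci, i, map_pow, map_pow, hh, C.hc, (hev _).neg_pow]
  have ht : IsIntegral ℤ (2 / (C.z - C.z⁻¹)) := by
    obtain ⟨y, hy, e⟩ := fl_two (C.int.pow 2) (N := 2 ^ (k + 2)) (by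
      rw [← pow_mul, ← pow_succ', C.hz])
    refine fl_of (C.int.mul hy) ?_
    rw [div_eq_iff hθ0, ← e]
    field_simp
  have hθ : h (C.z - C.z⁻¹) = C.z - C.z⁻¹ := by
    simp only [map_sub, map_inv₀, hh, inv_neg, inv_inv]
    ring
  have hcθ : C.c (C.z - C.z⁻¹) = -(C.z - C.z⁻¹) := by
    simp only [map_sub, map_inv₀, C.hc, inv_inv, neg_sub]
  obtain ⟨θ, eθ⟩ := hO _ hθ (C.int.sub C.iinv)
  obtain ⟨t, et⟩ := hO _ (by rw [map_div₀, hθ, map_ofNat]) ht
  obtain ⟨u, eu⟩ := hO ((C.i * (C.z + C.z⁻¹) + 2) / (C.z - C.z⁻¹)) (by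
      rw [map_div₀, hθ]
      simp only [map_add, map_mul, map_inv₀, hh, hi, map_ofNat, inv_neg, inv_inv]
      ring)
    (fl_of ((C.iint.mul (isIntegral_one.add (C.iinv.mul ht))).add ht) (by
      rw [div_eq_iff hθ0]
      linear_combination (-(C.i * C.z⁻¹) - 1) * div_mul_cancel₀ 2 hθ0))
  obtain ⟨s, es⟩ := hO (C.z ^ 2 ^ (k + 1) + C.z⁻¹ ^ 2 ^ (k + 1)) (by
      simp only [map_add, map_pow, map_inv₀, hh, inv_neg, inv_inv, (hev _).neg_pow, add_comm])
    ((C.int.pow _).add (C.iinv.pow _))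
  have : IsTotallyComplex F := ⟨fun w => InfinitePlace.not_isReal_iff_isComplex.1 fun hw => by
    have h1 := C.conj (ComplexEmbedding.lift L w.embedding) (algebraMap F L θ)
    have h2 : starRingEnd ℂ (w.embedding θ) = w.embedding θ := RingHom.congr_fun
      (ComplexEmbedding.isReal_iff.1 (InfinitePlace.isReal_iff.1 hw)) θ
    rw [ComplexEmbedding.lift_algebraMap_apply, h2] at h1
    have h3 : C.c (j θ) = j θ := (ComplexEmbedding.lift L w.embedding).injective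
      (h1.trans (ComplexEmbedding.lift_algebraMap_apply L w.embedding θ).symm)
    rw [eθ, hcθ] at h3
    exact hθ0 (by linear_combination (-1 / 2 : L) * h3)⟩
  have hc : ∀ a, algebraMap F L (cK a) = C.c (algebraMap F L a) := fun a => φ.injective (by
    rw [C.conj]
    exact IsCMField.complexEmbedding_complexConj F (φ.comp (algebraMap F L)) a)
  have hcO : ∀ a, j (cO a) = C.c (j a) := fun a => hc a
  have hd : ∀ (g : L ≃ₐ[ℚ] L) {Q : ℕ} (n : ℕ), Q.Prime → g C.z = C.z ^ Q ^ n → ∀ a a' : 𝓞 F,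
      j a' = g (j a) → (Q : 𝓞 F) ∣ a' - a ^ Q ^ n := fun g Q n hQ hg a a' e => by
    obtain ⟨b, hb, e'⟩ := C.frob g hQ n hg a.isIntegral_coe e
    refine ⟨⟨b, hb⟩, RingOfIntegers.coe_injective ?_⟩
    rw [map_sub, map_pow, map_mul, map_natCast]
    exact sub_eq_of_eq_add' e'
  have hp : ∀ {Q : ℕ} (n : ℕ), Q.Prime → C.z ^ Q ^ n = -C.z → ∀ a : 𝓞 F,
      (Q : 𝓞 F) ∣ cO a - a ^ Q ^ n := fun n hQ e a =>
    hd (C.c * h) n hQ (by simp only [AlgEquiv.mul_apply, hh, map_neg, map_inv₀, C.hc, inv_inv, e]) a _ (by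
      rw [hcO, AlgEquiv.mul_apply]
      exact congrArg _ (hf a).symm)
  have h3 : (θ : F) ≠ 0 := fun e => hθ0 (by
    rw [← eθ]
    exact (congrArg (algebraMap F L) e).trans (map_zero _))
  have hz := mul_inv_cancel₀ h0
  have hq := C.isq
  refine ⟨F, inferInstance, inferInstance, inferInstance, ?_, ⟨⟨θ, t, u, s, by omega,
    inferInstance, fl_half, hj (by rw [hcO, map_neg, eθ, hcθ]),
    hj (by rw [map_mul, eθ, et, map_ofNat, mul_div_cancel₀ _ hθ0]), ?_, ?_, hj ?_, hj ?_, hj ?_,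
    fun Q hQ h2 => ?_, fun Q hQ => ?_, fun Q hQ a => ?_, fun Q hQ h2 h4 h5 => ?_⟩⟩⟩
  · rw [dg, C.rk hk, pow_add]
    have := Nat.one_le_two_pow (n := k)
    omega
  · rintro ⟨a, ha⟩
    have h4 : a ≠ 0 := fun e => h3 (by rw [ha, e, mul_zero])
    have h5 : C.z - C.z⁻¹ = algebraMap F L a * algebraMap F L a := by
      rw [← map_mul, ← ha, ← eθ]
      rfl
    have h6 : algebraMap F L a ≠ 0 := (map_ne_zero _).2 h4
    have h7 := hf (cK a / a)
    rw [map_div₀, hc] at h7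
    rw [h5, map_mul] at hcθ
    have h8 : (C.c (algebraMap F L a) / algebraMap F L a) ^ 2 = C.i ^ 2 := by
      rw [hq, div_pow, div_eq_iff (pow_ne_zero _ h6)]
      linear_combination hcθ
    have h9 : C.i ≠ 0 := pow_ne_zero _ h0
    rcases sq_eq_sq_iff_eq_or_eq_neg.1 h8 with e | e
    · rw [e, hi] at h7
      exact h9 (by linear_combination (-1 / 2 : L) * h7)
    · rw [e, map_neg, hi] at h7
      exact h9 (by linear_combination (1 / 2 : L) * h7)
  · obtain ⟨ho, hg⟩ := C.gen hk h3 (by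
      change (C.s ^ 2 ^ (k + 1)) (j θ) = -j θ
      simp only [eθ, map_sub, map_inv₀, C.tau, inv_neg]
      ring)
    obtain ⟨y, hy, e⟩ := fl_T (k + 1) (C.z ^ 2) 3 (by rw [← pow_mul, ← pow_succ', C.hz]) rfl
    have h4 := congrArg (algebraMap F L) (fl_nm (1 - θ))
    rw [map_intCast, ← IsCyclic.image_range_orderOf hg, prod_image (by
      rw [coe_range]
      exact pow_injOn_Iio_orderOf), ho, map_prod, pow_succ 2 (k + 1), mul_two, prod_range_add,
      ← prod_mul_distrib] at h4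
    rw [← hy]
    refine congrArg (· % 4) (Int.cast_injective (α := L) ?_)
    rw [h4, ← e]
    refine prod_congr rfl fun n _ => ?_
    have h5 : algebraMap F L (algebraMap (𝓞 F) F θ) = C.z - C.z⁻¹ := eθ
    have h6 : C.z ^ 5 ^ n ≠ 0 := pow_ne_zero _ h0
    simp only [← map_pow, fl_res, h5, map_sub, map_one, map_inv₀, C.spow]
    rw [fl_shift C.hz, ← pow_mul C.z 2, mul_comm 2, pow_mul]
    push_cast
    field_simp
    ring
  · simp only [map_add, map_pow, map_neg, map_ofNat, hcO, eu, map_div₀, map_mul, hcθ, C.ci, C.hc,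
      map_inv₀, inv_inv, div_pow]
    rw [neg_sq, ← add_div, div_eq_iff (pow_ne_zero _ hθ0)]
    linear_combination 2 * (C.z + C.z⁻¹) ^ 2 * hq - 8 * hz
  · simp only [map_add, map_pow, map_zero, map_one, map_ofNat, hcO, eu, et, map_div₀, map_mul, hcθ,
      C.ci, C.hc, map_inv₀, inv_inv]
    rw [div_neg, mul_neg, div_mul_div_comm, div_pow, ← sq (C.z - C.z⁻¹), ← mul_div_assoc, ← neg_div,
      ← add_div, div_add_one (pow_ne_zero _ hθ0), div_eq_zero_iff]
    exact Or.inl (by linear_combination (C.z + C.z⁻¹) ^ 2 * hq - 4 * hz)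
  · have h4 : C.i = (C.z ^ 2 ^ (k + 1)) ^ 2 := by rw [← pow_mul, ← pow_succ, i]
    have h5 := mul_inv_cancel₀ (pow_ne_zero (2 ^ (k + 1)) h0)
    rw [map_pow, es, map_ofNat, inv_pow]
    rw [h4] at hq
    generalize C.z ^ 2 ^ (k + 1) = w at hq h5
    linear_combination w⁻¹ ^ 2 * hq + (2 - w ^ 2 * (w * w⁻¹ + 1)) * h5
  · refine ⟨(2 ^ (k + 4)).totient, Nat.totient_pos.2 (by positivity), fun a => ?_⟩
    rw [← dvd_neg, neg_sub]
    refine hd 1 _ hQ ?_ a a rfl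
    have h1 : C.z ^ 2 ^ (k + 4) = 1 := by simpa only [mul_one] using fl_even C.hz 1
    rw [pow_eq_pow_mod _ h1, Nat.ModEq.pow_totient
      (Nat.Coprime.pow_right _ (Nat.coprime_two_right.2 (hQ.odd_of_ne_two h2))),
      ← pow_eq_pow_mod _ h1, pow_one, AlgEquiv.one_apply]
  · obtain ⟨hQ, h2, h4, h5⟩ := hQ
    obtain ⟨n, hn, e, e'⟩ := C.pas hQ h2 (fun e => h4 (e.of_dvd (pow_dvd_pow 2 (by omega)))) h5
    exact ⟨n, hn, e, hp n hQ e'⟩
  · rw [← dvd_neg, neg_sub, ← pow_one Q]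
    simpa only [pow_one] using hd h 1 hQ.1 (by rw [pow_one, fl_ninv C.hz hQ.2, hh]) a a (hf a).symm
  · by_cases h6 : 2 ^ (k + 3) ∣ Q + 1
    · refine ⟨1, one_pos, fun a => hd C.c 1 hQ ?_ a _ (hcO a)⟩
      rw [pow_one, C.hc, fl_inv C.hz (by_contra fun h7 => h5 ⟨hQ, fl_spec h6 h7⟩)]
    · obtain ⟨n, hn, -, e'⟩ := C.pas hQ h2 h4 h6
      exact ⟨n, hn, hp n hQ e'⟩

end Cy

theorem exists_FK {m : ℕ} (hm : 4 ≤ m) : ∃ (K : Type) (_ : Field K) (_ : NumberField K)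
    (_ : IsCMField K), 4 ≤ dg K ∧ Nonempty (FK K m) := by
  obtain ⟨k, rfl⟩ := Nat.exists_eq_add_of_le' hm
  obtain ⟨L, _, _, ⟨C⟩⟩ := fl_ex k
  exact C.fk

theorem exists_Pell {m : ℕ} (hm : 4 ≤ m) : ∃ (K : Type) (_ : Field K) (_ : NumberField K),
    Nonempty (Pell m K) := by
  obtain ⟨k, rfl⟩ := Nat.exists_eq_add_of_le' hm
  obtain ⟨L, _, _, ⟨C⟩⟩ := fl_ex k
  exact C.pell

end Pool.Agent.MP_a59382_lc.V3
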