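import Mathlib
import Pool.Agent.MP_a59382_lc.H18.Fw
import Pool.Agent.Lib.HasseMinkowski.Main

attribute [-instance] ContinuousMonoidHom.instCoeOutOfMonoidHomClassOfContinuousMapClass
  ContinuousSemilinearMapClass.toSemilinearMapClass MonTypeEquivalenceMon.monMonoid
  NormedAlgebra.toAlgebra RKHS.instFunLike instCoeTCOfCoe AddQuantale.instAddLeftMono
  CoalgHomClass.toSemilinearMapClass Fintype.decidableForallFintype
  IsOrderedRing.toIsStrictOrderedRing SetLike.GradeZero.instSemiring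
  Group.IsPerfect.subsingleton_of_isMulCommutative SemilinearIsometryClass.toSemilinearMapClass
  instNonUnitalAlgHomClassOfNonUnitalAlgEquivClass AddQuantale.instAddRightMono
  CompletePartialOrder.toPartialOrder SetLike.GradeZero.instRing RingHomClass.toLinearMapClassNNRat
  instCoeTOfCoeDep IsometryClass.instCoeOutIsometryEquiv BialgHomClass.toMonoidHomClass
  IdemSemiring.toCanonicallyOrderedAdd NormedSpace.toModule SetLike.GradeZero.instCommSemiring
  IdemSemiring.toSemiring ContinuousAddMonoidHom.instCoeOutOfAddMonoidHomClassOfContinuousMapClass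
  littleWedderburn HomeomorphClass.instCoeOutHomeomorph
  NonUnitalAlgHomClass.instSemilinearMapClassOfNonUnitalAlgSemiHomClassToMonoidHomRingHom
  IsOrderedCancelAddMonoid.toIsCancelAdd RingHomClass.toLinearMapClassRat
  instCoeHTCTOfCoeTailOfCoeHTC BialgHomClass.toAlgHomClass instCharZeroOfIsSemireal
  TestFunctionClass.toDFunLike AddGroupConeClass.toAddSubmonoidClass Quantale.instMulRightMono
  NeZero.of_gt' AlgHomClass.linearMapClass MonoidHomClass.toMulHomClass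
  ContDiffMapSupportedInClass.toDFunLike Bialgebra.toAlgebra instCoeTCOfCoe_1 BooleanRing.toRing
  LieAdmissibleAlgebra.toModule instCoeHTCT NormedField.toField MulCharClass.toMonoidHomClass
  instCoeHTC instCoeTC CategoryTheory.Limits.Concrete.instUniqueToTypeTerminal Invertible.toNeZero
  MulDistribMulActionSemiHomClass.toMonoidHomClass NonUnitalAlgHomClass.toNonUnitalRingHomClass

-- part MP_a59382_lc.H26.Unit
section

/-! Pade approximants for the equation `x + y = 1`. -/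

set_option autoImplicit false

namespace Pool.Agent.MP_a59382_lc.H26

open Polynomial Finset

/-- `p` has coefficients of total size at most `L` -/
def Bd (p : ℤ[X]) (L : ℕ) : Prop :=
  ∃ q : ℕ[X], (∀ i, |p.coeff i| ≤ q.coeff i) ∧ q.eval 1 ≤ L

theorem Bd.mono {p : ℤ[X]} {L L' : ℕ} (h : Bd p L) (hL : L ≤ L') : Bd p L' :=
  h.imp fun _ h => ⟨h.1, h.2.trans hL⟩

theorem Bd.add {p r : ℤ[X]} {L M : ℕ} (h : Bd p L) (h' : Bd r M) : Bd (p + r) (L + M) := by
  obtain ⟨q, h1, h2⟩ := h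
  obtain ⟨s, h3, h4⟩ := h'
  refine ⟨q + s, fun i => ?_, by rw [eval_add]; omega⟩
  rw [coeff_add, coeff_add, Nat.cast_add]
  exact (abs_add_le _ _).trans (add_le_add (h1 i) (h3 i))

theorem Bd.mul {p r : ℤ[X]} {L M : ℕ} (h : Bd p L) (h' : Bd r M) : Bd (p * r) (L * M) := by
  obtain ⟨q, h1, h2⟩ := h
  obtain ⟨s, h3, h4⟩ := h'
  refine ⟨q * s, fun i => ?_, by rw [eval_mul]; exact Nat.mul_le_mul h2 h4⟩
  rw [coeff_mul, coeff_mul, Nat.cast_sum]
  refine (abs_sum_le_sum_abs _ _).trans (sum_le_sum fun x _ => ?_)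
  rw [abs_mul, Nat.cast_mul]
  exact mul_le_mul (h1 _) (h3 _) (abs_nonneg _) (Nat.cast_nonneg _)

theorem Bd.const (a : ℤ) : Bd (C a) a.natAbs := by
  refine ⟨C a.natAbs, fun i => ?_, by simp only [eq_natCast, eval_natCast, Nat.cast_id, Std.le_refl]⟩
  rw [coeff_C, coeff_C]
  split_ifs <;> simp

theorem Bd.X' : Bd X 1 := by
  refine ⟨X, fun i => ?_, by simp⟩
  rw [coeff_X, coeff_X]
  split_ifs <;> simp

theorem Bd.one : Bd 1 1 := by simpa using Bd.const 1

theorem Bd.neg {p : ℤ[X]} {L : ℕ} (h : Bd p L) : Bd (-p) L :=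
  h.imp fun _ h => ⟨fun i => by simpa only [coeff_neg, abs_neg] using h.1 i, h.2⟩

theorem Bd.pow {p : ℤ[X]} {L : ℕ} (h : Bd p L) : ∀ n, Bd (p ^ n) (L ^ n)
  | 0 => by simpa using Bd.one
  | n + 1 => by simpa [pow_succ] using (h.pow n).mul h

theorem Bd.one_sub : Bd (1 - X) 2 := by simpa [sub_eq_add_neg] using Bd.one.add Bd.X'.neg

theorem Bd.sum {s : Finset ℕ} {f : ℕ → ℤ[X]} {L : ℕ} (h : ∀ i ∈ s, Bd (f i) L) :
    Bd (∑ i ∈ s, f i) (#s * L) := by
  induction s using Finset.induction_on with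
  | empty => simpa using Bd.const 0
  | insert a s ha ih =>
    rw [sum_insert ha, card_insert_of_notMem ha, add_mul, one_mul, add_comm (#s * L)]
    exact (h a (mem_insert_self _ _)).add (ih fun i hi => h i (mem_insert_of_mem hi))

theorem Bd.deriv {p : ℤ[X]} {L n : ℕ} (h : Bd p L) (hn : p.natDegree ≤ n) :
    Bd (derivative p) (n * L) := by
  obtain ⟨q, h1, h2⟩ := h
  refine ⟨C n * divX q, fun i => ?_, ?_⟩
  · rw [coeff_derivative, coeff_C_mul, coeff_divX, abs_mul, Nat.cast_mul, mul_comm]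
    by_cases hi : i + 1 ≤ n
    · refine mul_le_mul ?_ (h1 _) (abs_nonneg _) (Nat.cast_nonneg _)
      rw [abs_of_nonneg (by positivity)]
      exact_mod_cast hi
    · rw [coeff_eq_zero_of_natDegree_lt (by omega : p.natDegree < i + 1), abs_zero, mul_zero]
      positivity
  · have h3 := congrArg (eval 1) (divX_mul_X_add q)
    simp only [eval_add, eval_mul, eval_X, mul_one, eval_C] at h3
    rw [eval_mul, eval_C]
    exact Nat.mul_le_mul_left _ (by omega)

theorem Bd.sum_coeff {p : ℤ[X]} {L : ℕ} (h : Bd p L) (n : ℕ) :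
    ∑ i ∈ range n, (p.coeff i).natAbs ≤ L := by
  obtain ⟨q, h1, h2⟩ := h
  refine le_trans ?_ h2
  rw [eval_eq_sum_range' (n := q.natDegree + 1 + n) (by omega)]
  refine (sum_le_sum_of_subset (range_subset_range.2 (by omega : n ≤ q.natDegree + 1 + n))).trans
    (sum_le_sum fun i _ => ?_)
  have := h1 i
  rw [← Int.natCast_natAbs] at this
  simpa only [one_pow, mul_one, ge_iff_le] using (by exact_mod_cast this : (p.coeff i).natAbs ≤ q.coeff i)

/-- the coefficients of the approximant -/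
def pc (N i : ℕ) : ℤ := (-1) ^ i * ((N + i).choose i * (3 * N + 1).choose (N - i) : ℕ)

/-- the approximant, evaluated at the polynomial `Y` -/
noncomputable def pA (N : ℕ) (Y : ℤ[X]) : ℤ[X] := ∑ i ∈ range (N + 1), C (pc N i) * Y ^ i

theorem pc_abs (N i : ℕ) (hi : i ≤ N) : (pc N i).natAbs ≤ 2 ^ (5 * N + 1) := by
  rw [pc, Int.natAbs_mul, Int.natAbs_pow, Int.natAbs_neg, Int.natAbs_one, one_pow, one_mul,
    Int.natAbs_natCast]
  calc _ ≤ 2 ^ (N + i) * 2 ^ (3 * N + 1) :=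
        Nat.mul_le_mul (Nat.choose_le_two_pow _ _) (Nat.choose_le_two_pow _ _)
    _ ≤ _ := by
        rw [← pow_add]
        exact Nat.pow_le_pow_right (by norm_num) (by omega)

theorem pA_bd (N : ℕ) {Y : ℤ[X]} (hY : Bd Y 2) : Bd (pA N Y) (2 ^ (7 * N + 1)) := by
  have h : Bd (pA N Y) (#(range (N + 1)) * (2 ^ (5 * N + 1) * 2 ^ N)) :=
    Bd.sum fun i hi => ((Bd.const _).mul (hY.pow i)).mono (by
      have hi' := Nat.lt_succ_iff.1 (mem_range.1 hi)
      exact Nat.mul_le_mul (pc_abs N i hi') (Nat.pow_le_pow_right (by norm_num) hi'))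
  refine h.mono ?_
  rw [card_range, show 7 * N + 1 = N + (5 * N + 1 + N) by ring, pow_add 2 N, ← pow_add]
  exact Nat.mul_le_mul_right _ Nat.lt_two_pow_self

theorem pA_deg (N : ℕ) {Y : ℤ[X]} (hY : Y.natDegree ≤ 1) : (pA N Y).natDegree ≤ N := by
  refine natDegree_sum_le_of_forall_le _ _ fun i hi => (natDegree_C_mul_le _ _).trans ?_
  have hi' := Nat.lt_succ_iff.1 (mem_range.1 hi)
  exact natDegree_pow_le.trans (by nlinarith)

theorem pc_fac (N i : ℕ) (hi : i ≤ N) :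
    (N + i).choose i * (3 * N + 1).choose (N - i) * (2 * N + 1 + i).descFactorial (N + 1) *
      (N.factorial * N.factorial) = N.choose i * (3 * N + 1).factorial := by
  obtain ⟨j, rfl⟩ := Nat.exists_eq_add_of_le hi
  have h1 := Nat.add_choose_mul_factorial_mul_factorial (i + j) i
  have h2 := Nat.add_choose_mul_factorial_mul_factorial (2 * (i + j) + 1 + i) j
  have h3 := Nat.add_choose_mul_factorial_mul_factorial j i
  have h4 := Nat.factorial_mul_descFactorial (n := 2 * (i + j) + 1 + i) (k := i + j + 1) (by omega)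
  rw [show 2 * (i + j) + 1 + i - (i + j + 1) = i + j + i by omega] at h4
  rw [show 2 * (i + j) + 1 + i + j = 3 * (i + j) + 1 by ring] at h2
  rw [add_comm j i] at h3
  rw [Nat.add_sub_cancel_left, ← h2, ← h4, ← h1]
  nth_rewrite 2 [← h3]
  ring

theorem pA_iter (N : ℕ) : C ((N.factorial * N.factorial : ℕ) : ℤ) *
    derivative^[N + 1] (pA N X * X ^ (2 * N + 1)) =
      C ((3 * N + 1).factorial : ℤ) * (X ^ N * (1 - X) ^ N) := by
  rw [pA, sum_mul, iterate_derivative_sum, sub_eq_neg_add, add_pow, mul_sum, mul_sum, mul_sum]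
  refine sum_congr rfl fun i hi => ?_
  have hi' := Nat.lt_succ_iff.1 (mem_range.1 hi)
  have h := congrArg (fun n : ℕ => (n : ℤ[X])) (pc_fac N i hi')
  rw [mul_assoc, ← pow_add, iterate_derivative_C_mul, iterate_derivative_X_pow_eq_natCast_mul,
    show i + (2 * N + 1) - (N + 1) = N + i by omega, add_comm i, pc, neg_pow (X : ℤ[X])]
  simp only [Nat.cast_mul, map_mul, map_pow, map_neg, map_one, map_natCast, one_pow] at h ⊢
  linear_combination (-1) ^ i * X ^ (N + i) * h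

theorem pA_comp (N : ℕ) : (pA N X * X ^ (2 * N + 1)).comp (1 - X) =
    pA N (1 - X) * (1 - X) ^ (2 * N + 1) := by
  simp [pA, Polynomial.sum_comp]

theorem pC_deg (N : ℕ) : (pA N X * X ^ (2 * N + 1) +
    (-1) ^ N * pA N (1 - X) * (1 - X) ^ (2 * N + 1)).natDegree ≤ N := by
  have h1 := pA_iter N
  have h2 := congrArg (fun p : ℤ[X] => p.comp (1 - X)) h1
  simp only [mul_comp, C_comp, pow_comp, X_comp, sub_comp, one_comp, sub_sub_cancel] at h2
  have h3 : C ((N.factorial * N.factorial : ℕ) : ℤ) * derivative^[N + 1]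
      (pA N X * X ^ (2 * N + 1) + (-1) ^ N * pA N (1 - X) * (1 - X) ^ (2 * N + 1)) = 0 := by
    have e : ((-1) ^ N : ℤ[X]) = C ((-1) ^ N) := by simp only [Int.reduceNeg, eq_intCast, Int.cast_pow, Int.cast_neg, Int.cast_one]
    rw [iterate_map_add, mul_assoc, ← pA_comp, e, iterate_derivative_C_mul,
      iterate_derivative_comp_one_sub_X, ← e, mul_add, h1]
    have e2 : ((-1) ^ N * (-1) ^ N : ℤ[X]) = 1 := by rw [← mul_pow]; simp
    linear_combination (-((-1) ^ N * (-1) ^ N)) * h2 -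
      C ((3 * N + 1).factorial : ℤ) * (X ^ N * (1 - X) ^ N) * e2
  rw [mul_eq_zero, C_eq_zero] at h3
  have h4 := h3.resolve_left (by positivity)
  by_contra hlt
  set p := pA N X * X ^ (2 * N + 1) + (-1) ^ N * pA N (1 - X) * (1 - X) ^ (2 * N + 1)
  have h5 := congrArg (fun r : ℤ[X] => r.coeff (p.natDegree - (N + 1))) h4
  simp only [coeff_iterate_derivative, coeff_zero] at h5
  rw [Nat.sub_add_cancel (by omega), smul_eq_zero, coeff_natDegree, leadingCoeff_eq_zero,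
    Nat.descFactorial_eq_zero_iff_lt] at h5
  rcases h5 with h | h
  · omega
  · rw [h] at hlt
    simp at hlt

theorem pA_ne (N : ℕ) : pA N X ≠ 0 := fun h => by
  have := congrArg (eval 0) h
  rw [pA, eval_finsetSum, sum_range_succ'] at this
  simp only [pc, Int.reduceNeg, Nat.cast_mul, eq_intCast, Int.cast_mul, Int.cast_pow, Int.cast_neg, Int.cast_one, Int.cast_natCast, eval_mul, eval_pow, eval_neg, eval_one, eval_natCast, eval_X, ne_eq, Nat.add_eq_zero_iff, one_ne_zero, and_false, not_false_eq_true, zero_pow, mul_zero, sum_const_zero, pow_zero, add_zero, Nat.choose_zero_right, tsub_zero, one_mul, map_natCast, mul_one, zero_add, eval_zero, Int.natCast_eq_zero, Nat.choose_eq_zero_iff] at this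
  omega

theorem wr_ne {F G : ℤ[X]} (hG : G ≠ 0) (h : G.natDegree < F.natDegree) :
    derivative F * G - F * derivative G ≠ 0 := fun h0 => by
  have hF : F ≠ 0 := fun e => by simp [e] at h
  have h1 := congrArg (fun r : ℤ[X] => (X * r).coeff (F.natDegree + G.natDegree)) h0
  have k : ∀ p : ℤ[X], (X * derivative p).natDegree ≤ p.natDegree ∧
      (X * derivative p).coeff p.natDegree = p.natDegree * p.leadingCoeff := fun p => by
    rcases Nat.eq_zero_or_pos p.natDegree with e | e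
    · simp [derivative_of_natDegree_zero e, e]
    · refine ⟨natDegree_mul_le.trans ?_, ?_⟩
      · have := natDegree_derivative_le p
        rw [natDegree_X]
        omega
      · obtain ⟨m, hm⟩ : ∃ m, p.natDegree = m + 1 := ⟨_, (Nat.succ_pred_eq_of_pos e).symm⟩
        rw [leadingCoeff, hm, coeff_X_mul, coeff_derivative]
        push_cast
        ring
  simp only [mul_zero, coeff_zero] at h1
  rw [show X * (derivative F * G - F * derivative G) =
    X * derivative F * G - F * (X * derivative G) by ring, coeff_sub,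
    coeff_mul_add_eq_of_natDegree_le (k F).1 le_rfl,
    coeff_mul_add_eq_of_natDegree_le le_rfl (k G).1, (k F).2, (k G).2, coeff_natDegree,
    coeff_natDegree] at h1
  have h2 : ((F.natDegree : ℤ) - G.natDegree) * F.leadingCoeff * G.leadingCoeff = 0 := by
    linear_combination h1
  simp only [mul_eq_zero, leadingCoeff_eq_zero, hF, hG, or_false] at h2
  omega

theorem pade (N : ℕ) : ∃ (A B D : Fin 2 → ℤ[X]) (c : ℤ), c ≠ 0 ∧
    (∀ j, A j * X ^ (2 * N) + B j * (1 - X) ^ (2 * N) = D j) ∧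
    (∀ j, (A j).natDegree ≤ N + 1 ∧ (B j).natDegree ≤ N + 1 ∧ (D j).natDegree ≤ N + 1) ∧
    (∀ j, Bd (A j) (2 ^ (12 * N + 4)) ∧ Bd (B j) (2 ^ (12 * N + 4)) ∧
      Bd (D j) (2 ^ (12 * N + 4))) ∧
    A 1 * D 0 - A 0 * D 1 = C c * (1 - X) ^ (2 * N) := by
  have dX : (1 - X : ℤ[X]).natDegree ≤ 1 := by compute_degree
  have a1 := pA_deg N (Y := X) natDegree_X_le
  have a2 := pA_bd N (Bd.X'.mono (by norm_num))
  have a3 := pA_ne N
  have d1 := pC_deg N
  have b1 : ((-1) ^ N * pA N (1 - X)).natDegree ≤ N := by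
    rcases neg_one_pow_eq_or ℤ[X] N with e | e <;> simpa [e] using pA_deg N dX
  have b2 : Bd ((-1) ^ N * pA N (1 - X)) (2 ^ (7 * N + 1)) := by
    rcases neg_one_pow_eq_or ℤ[X] N with e | e
    · simpa [e] using pA_bd N Bd.one_sub
    · simpa [e] using (pA_bd N Bd.one_sub).neg
  generalize pA N X = a at *
  generalize (-1) ^ N * pA N (1 - X) = b at *
  obtain ⟨d, hd⟩ : ∃ d, d = a * X ^ (2 * N + 1) + b * (1 - X) ^ (2 * N + 1) := ⟨_, rfl⟩
  rw [← hd] at d1
  have p2 : ∀ {m n : ℕ}, m ≤ n → 2 ^ m ≤ 2 ^ n := fun h => Nat.pow_le_pow_right (by norm_num) h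
  have n2 : N ≤ 2 ^ N := Nat.lt_two_pow_self.le
  have n3 : 2 * N + 1 ≤ 2 ^ (2 * N + 1) := Nat.lt_two_pow_self.le
  have d2 : Bd d (2 ^ (9 * N + 3)) := by
    rw [hd]
    refine ((a2.mul ((Bd.X'.mono (by norm_num : 1 ≤ 2)).pow _)).add
      (b2.mul (Bd.one_sub.pow _))).mono (le_of_eq ?_)
    ring
  have k : ∀ {p Y : ℤ[X]}, Bd p (2 ^ (7 * N + 1)) → p.natDegree ≤ N → Bd Y 2 → ∀ e : ℤ,
      e.natAbs = 2 * N + 1 → Bd (derivative p * Y + C e * p) (2 ^ (12 * N + 4)) :=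
    fun {p Y} h1 h2 h3 e he => (((h1.deriv h2).mul h3).add ((Bd.const e).mul h1)).mono (by
      rw [he]
      calc _ ≤ 2 ^ N * 2 ^ (7 * N + 1) * 2 + 2 ^ (2 * N + 1) * 2 ^ (7 * N + 1) := by gcongr
        _ = 2 ^ (8 * N + 2) + 2 ^ (9 * N + 2) := by ring
        _ ≤ 2 ^ (12 * N + 3) + 2 ^ (12 * N + 3) := add_le_add (p2 (by omega)) (p2 (by omega))
        _ = _ := by ring)
  have k2 : ∀ {p Y : ℤ[X]}, p.natDegree ≤ N → Y.natDegree ≤ 1 → ∀ e : ℤ,
      (derivative p * Y + C e * p).natDegree ≤ N + 1 := fun {p Y} h1 h2 e => by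
    have := natDegree_derivative_le p
    exact natDegree_add_le_of_degree_le (natDegree_mul_le.trans (by omega))
      ((natDegree_C_mul_le _ _).trans (by omega))
  have hd' : derivative d = (derivative a * X + C (2 * N + 1 : ℤ) * a) * X ^ (2 * N) +
      (derivative b * (1 - X) + C (-(2 * N + 1) : ℤ) * b) * (1 - X) ^ (2 * N) := by
    rw [hd]
    simp only [derivative_mul, derivative_pow_succ, derivative_X, derivative_sub,
      derivative_one, map_neg, map_add, map_mul, map_natCast, map_one, Nat.cast_mul,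
      Nat.cast_ofNat, map_ofNat]
    ring
  have d0 : d ≠ 0 := fun e => by
    have h1 : (1 - X : ℤ[X]) ^ (2 * N + 1) ∣ a * X ^ (2 * N + 1) :=
      ⟨-b, by linear_combination e - hd⟩
    have h2 : IsCoprime ((1 - X : ℤ[X]) ^ (2 * N + 1)) (X ^ (2 * N + 1)) :=
      IsCoprime.pow ⟨1, 1, by ring⟩
    have h3 := natDegree_le_of_dvd (h2.dvd_of_dvd_mul_right h1) a3
    have h4 : (1 - X : ℤ[X]).natDegree = 1 := by compute_degree!
    rw [natDegree_pow, h4] at h3
    omega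
  have w0 := wr_ne (F := a * X ^ (2 * N + 1)) d0 (by
    rw [natDegree_mul_X_pow _ a3]
    omega)
  obtain ⟨W, hW⟩ : ∃ W, W = (derivative a * X + C (2 * N + 1 : ℤ) * a) * d -
    a * X * derivative d := ⟨_, rfl⟩
  have w1 : derivative (a * X ^ (2 * N + 1)) * d - a * X ^ (2 * N + 1) * derivative d =
      W * X ^ (2 * N) := by
    rw [hW]
    simp only [derivative_mul, derivative_pow_succ, derivative_X, map_add, map_mul, map_natCast,
      map_one, Nat.cast_mul, Nat.cast_ofNat, map_ofNat]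
    ring
  have w2 : W.natDegree ≤ 2 * N := by
    have h1 : (derivative a * X + C (2 * N + 1 : ℤ) * a).natDegree ≤ N := by
      refine natDegree_add_le_of_degree_le ?_ ((natDegree_C_mul_le _ _).trans a1)
      rcases Nat.eq_zero_or_pos a.natDegree with e | e
      · simp [derivative_of_natDegree_zero e]
      · have := natDegree_derivative_le a
        exact natDegree_mul_le.trans (by rw [natDegree_X]; omega)
    have h2 : (X * derivative d).natDegree ≤ N := by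
      rcases Nat.eq_zero_or_pos d.natDegree with e | e
      · simp [derivative_of_natDegree_zero e]
      · have := natDegree_derivative_le d
        exact natDegree_mul_le.trans (by rw [natDegree_X]; omega)
    rw [hW, mul_assoc a]
    exact (natDegree_sub_le _ _).trans (max_le (natDegree_mul_le.trans (by omega))
      (natDegree_mul_le.trans (by omega)))
  have w3 : (1 - X : ℤ[X]) ^ (2 * N) ∣ W := by
    have h2 : IsCoprime ((1 - X : ℤ[X]) ^ (2 * N)) (X ^ (2 * N)) := IsCoprime.pow ⟨1, 1, by ring⟩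
    refine h2.dvd_of_dvd_mul_right ⟨b * (1 - X) * derivative d -
      (derivative b * (1 - X) + C (-(2 * N + 1) : ℤ) * b) * d, ?_⟩
    rw [hW]
    linear_combination derivative d * hd - d * hd'
  obtain ⟨V, hV⟩ := w3
  have V0 : V ≠ 0 := fun e => w0 (by rw [w1, hV, e]; simp)
  have V1 : V.natDegree = 0 := by
    have h4 : (1 - X : ℤ[X]).natDegree = 1 := by compute_degree!
    have h5 : (1 - X : ℤ[X]) ≠ 0 := fun e => by simp [e] at h4
    rw [hV, natDegree_mul (pow_ne_zero _ h5) V0, natDegree_pow, h4] at w2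
    omega
  obtain ⟨c, rfl⟩ := natDegree_eq_zero.1 V1
  refine ⟨![a * X, derivative a * X + C (2 * N + 1 : ℤ) * a],
    ![b * (1 - X), derivative b * (1 - X) + C (-(2 * N + 1) : ℤ) * b], ![d, derivative d], c,
    fun e => V0 (by simp [e]), Fin.forall_fin_two.2 ⟨?_, hd'.symm⟩,
    Fin.forall_fin_two.2 ⟨⟨?_, ?_, by simpa only [Fin.isValue, Matrix.cons_val_zero, Nat.succ_eq_add_one] using d1.trans N.le_succ⟩, k2 a1 natDegree_X_le _,
      k2 b1 dX _, ?_⟩, Fin.forall_fin_two.2 ⟨⟨?_, ?_, d2.mono (p2 (by omega))⟩,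
      k a2 a1 (Bd.X'.mono (by norm_num)) _ (by omega), k b2 b1 Bd.one_sub _ (by omega), ?_⟩, ?_⟩
  · rw [hd]
    simp only [Matrix.cons_val_zero]
    ring
  · exact natDegree_mul_le.trans (add_le_add a1 natDegree_X_le)
  · exact natDegree_mul_le.trans (add_le_add b1 dX)
  · exact (natDegree_derivative_le d).trans (by omega)
  · exact (a2.mul Bd.X').mono (by rw [mul_one]; exact p2 (by omega))
  · exact (b2.mul Bd.one_sub).mono (by rw [← pow_succ]; exact p2 (by omega))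
  · refine (d2.deriv d1).mono ((Nat.mul_le_mul_right _ n2).trans ?_)
    rw [← pow_add]
    exact p2 (by omega)
  · rw [mul_comm (C c), ← hV, hW]
    rfl

end Pool.Agent.MP_a59382_lc.H26

/-! The unit equation has finitely many solutions (proof of Beukers and Schlickewei). -/

namespace Pool.Agent.MP_a59382_lc.H26

open Polynomial Finset Height Height.AdmissibleAbsValues Real

variable {K : Type*} [Field K]

theorem abv_int (v : AbsoluteValue K ℝ) (a : ℤ) : v a ≤ a.natAbs := by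
  rw [← v.apply_natAbs_eq]
  exact v.apply_nat_le_self _

theorem abv_pow_le (v : AbsoluteValue K ℝ) (x : K) {i n : ℕ} (h : i ≤ n) :
    v x ^ i ≤ max (v (x ^ n)) 1 := by
  rw [map_pow]
  rcases le_total (v x) 1 with h1 | h1
  · exact (pow_le_one₀ (v.nonneg _) h1).trans (le_max_right _ _)
  · exact (pow_le_pow_right₀ h1 h).trans (le_max_left _ _)

theorem abv_arch (v : AbsoluteValue K ℝ) (x : K) {p : ℤ[X]} {L n : ℕ} (h : Bd p L)
    (hn : p.natDegree ≤ n) : v (aeval x p) ≤ L * max (v (x ^ n)) 1 := by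
  rw [aeval_eq_sum_range' (Nat.lt_succ_of_le hn)]
  refine (v.sum_le _ _).trans ((sum_le_sum (g := fun i => ((p.coeff i).natAbs : ℝ) *
    max (v (x ^ n)) 1) fun i hi => ?_).trans ?_)
  · rw [zsmul_eq_mul, map_mul, map_pow]
    exact mul_le_mul (abv_int v _) (abv_pow_le v x (Nat.lt_succ_iff.1 (mem_range.1 hi)))
      (by positivity) (by positivity)
  · rw [← sum_mul]
    exact mul_le_mul_of_nonneg_right (by exact_mod_cast h.sum_coeff _) (by positivity)

theorem abv_non {v : AbsoluteValue K ℝ} (hv : IsNonarchimedean v) (x : K) {p : ℤ[X]} {n : ℕ}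
    (hn : p.natDegree ≤ n) : v (aeval x p) ≤ max (v (x ^ n)) 1 := by
  rw [aeval_eq_sum_range' (Nat.lt_succ_of_le hn)]
  refine (hv.apply_sum_le_sup nonempty_range_add_one).trans (sup'_le _ _ fun i hi => ?_)
  rw [zsmul_eq_mul, map_mul, map_pow]
  exact (mul_le_of_le_one_left (by positivity) hv.apply_intCast_le_one).trans
    (abv_pow_le v x (Nat.lt_succ_iff.1 (mem_range.1 hi)))

variable [AdmissibleAbsValues K]

theorem le_of_loc {y : Fin 2 → K} (hy : y ≠ 0) {L : ℝ} (w : Fin 3 → K)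
    (h1 : ∀ v ∈ archAbsVal (K := K), ∀ i, v (y i) ≤ L * ∏ k, max (v (w k)) 1)
    (h2 : ∀ v ∈ nonarchAbsVal (K := K), ∀ i, v (y i) ≤ ∏ k, max (v (w k)) 1) :
    mulHeight y ≤ L ^ totalWeight K * ∏ k, mulHeight₁ (w k) := by
  simp only [mulHeight_eq hy, mulHeight₁_eq, totalWeight]
  rw [prod_mul_distrib, ← Multiset.prod_replicate, ← Multiset.map_const,
    ← finprod_prod_comm _ _ (by fun_prop), ← Multiset.prod_map_prod, ← mul_assoc,
    ← Multiset.prod_map_mul]
  have n0 : ∀ v : AbsoluteValue K ℝ, 0 ≤ ⨆ i, v (y i) := fun v =>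
    Real.iSup_nonneg_of_nonnegHomClass v _
  have h3 := Multiset.prod_map_le_prod_map₀ (s := archAbsVal (K := K)) (fun v => ⨆ i, v (y i))
    (fun v => L * ∏ k, max (v (w k)) 1) (fun v _ => n0 v) fun v hv => ciSup_le (h1 v hv)
  have h4 := Multiset.prod_map_nonneg (s := archAbsVal (K := K)) (f := fun v => ⨆ i, v (y i))
    fun v _ => n0 v
  exact mul_le_mul h3 (finprod_le_finprod (by fun_prop) (fun v => n0 v) (by fun_prop)
    fun v => ciSup_le (h2 v v.2)) (finprod_nonneg fun v => n0 v) (h4.trans h3)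

theorem posLog_le (x : K) {v : AbsoluteValue K ℝ}
    (hv : v ∈ archAbsVal (K := K) ∨ v ∈ nonarchAbsVal (K := K)) :
    log⁺ (v x) ≤ logHeight₁ x := by
  rw [logHeight₁_eq]
  have h1 : ∀ a ∈ (archAbsVal (K := K)).map fun v => log⁺ (v x), 0 ≤ a := fun a ha => by
    obtain ⟨w, -, rfl⟩ := Multiset.mem_map.1 ha
    exact posLog_nonneg
  rcases hv with hv | hv
  · exact le_add_of_le_of_nonneg (Multiset.single_le_sum h1 _ (Multiset.mem_map_of_mem _ hv))
      (finsum_nonneg fun _ => posLog_nonneg)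
  · refine le_add_of_nonneg_of_le (Multiset.sum_nonneg h1) ?_
    rcases eq_or_ne x 0 with rfl | hx
    · simp
    · refine single_le_finsum (f := fun v : nonarchAbsVal (K := K) => log⁺ (v.val x)) ⟨v, hv⟩
        ((hasFiniteMulSupport hx).subset fun w hw e => hw ?_) fun _ => posLog_nonneg
      simp only at e ⊢
      rw [e, posLog_one]

theorem abs_log_le (x : K) {v : AbsoluteValue K ℝ}
    (hv : v ∈ archAbsVal (K := K) ∨ v ∈ nonarchAbsVal (K := K)) :
    |log (v x)| ≤ logHeight₁ x := by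
  have h1 := posLog_le x hv
  have h2 := posLog_le x⁻¹ hv
  rw [logHeight₁_inv, map_inv₀, posLog, log_inv] at h2
  exact abs_le.2 ⟨neg_le.1 ((le_max_right _ _).trans h2), (le_max_right _ _).trans h1⟩

theorem unit_le {x : K} (s : Finset (nonarchAbsVal (K := K))) {r : ℝ} (hr : 0 ≤ r)
    (h1 : ∀ v ∈ archAbsVal (K := K), |log (v x)| ≤ r) (h2 : ∀ v ∈ s, |log (v.val x)| ≤ r)
    (h3 : ∀ v, v ∉ s → v.val x = 1) : logHeight₁ x ≤ (totalWeight K + #s : ℕ) * r := by
  have k : ∀ t : ℝ, |log t| ≤ r → log⁺ t ≤ r := fun t h => max_le hr ((le_abs_self _).trans h)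
  rw [logHeight₁_eq, Nat.cast_add, add_mul, finsum_eq_sum_of_support_subset (s := s) _
    fun v hv => by_contra fun h => hv (by simp only [h3 v h, posLog_one])]
  refine add_le_add ?_ ?_
  · have := Multiset.sum_le_card_nsmul ((archAbsVal (K := K)).map fun v => log⁺ (v x)) r
      fun a ha => by
        obtain ⟨w, hw, rfl⟩ := Multiset.mem_map.1 ha
        exact k _ (h1 w hw)
    rwa [Multiset.card_map, nsmul_eq_mul] at this
  · have := sum_le_card_nsmul s _ r fun v hv => k _ (h2 v hv)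
    rwa [nsmul_eq_mul] at this

theorem cramer {x u α β : K} {n L : ℕ} {A B D : ℤ[X]} (hA : Bd A L) (hB : Bd B L) (hD : Bd D L)
    (dA : A.natDegree ≤ n) (dB : B.natDegree ≤ n) (dD : D.natDegree ≤ n)
    (e : aeval x A * α * u + aeval x B * β * (1 - u) = aeval x D)
    (hne : aeval x A * α ≠ aeval x B * β) :
    mulHeight₁ u ≤ (2 * L) ^ totalWeight K * (mulHeight₁ x ^ n * mulHeight₁ α * mulHeight₁ β) := by
  have h0 := sub_ne_zero.2 hne
  have e2 : u = (aeval x D - aeval x B * β) / (aeval x A * α - aeval x B * β) := by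
    rw [eq_div_iff h0]
    linear_combination e
  have k : ∀ (v : AbsoluteValue K ℝ) (M : ℝ), 0 ≤ M → (∀ p ∈ [A, B, D], v (aeval x p) ≤
      M * max (v (x ^ n)) 1) → ∀ z ∈ [aeval x A * α, aeval x B * β, aeval x D],
        v z ≤ M * ∏ k, max (v (![x ^ n, α, β] k)) 1 := by
    intro v M hM h z hz
    have a1 := le_max_right (v α) 1
    have b1 := le_max_right (v β) 1
    have m0 : 0 ≤ M * max (v (x ^ n)) 1 := by positivity
    simp only [Fin.prod_univ_three, Matrix.cons_val_zero, Matrix.cons_val_one, Matrix.cons_val,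
      ← mul_assoc]
    simp only [List.mem_cons, List.not_mem_nil, or_false] at hz
    rcases hz with rfl | rfl | rfl
    · rw [map_mul]
      exact (mul_le_mul (h A (by simp)) (le_max_left _ 1) (v.nonneg _) m0).trans
        (le_mul_of_one_le_right (by positivity) b1)
    · rw [map_mul]
      exact mul_le_mul ((h B (by simp)).trans (le_mul_of_one_le_right m0 a1)) (le_max_left _ 1)
        (v.nonneg _) (by positivity)
    · exact ((h D (by simp)).trans (le_mul_of_one_le_right m0 a1)).trans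
        (le_mul_of_one_le_right (by positivity) b1)
  rw [e2, mulHeight₁_div_eq_mulHeight]
  refine (le_of_loc (L := 2 * L) (fun h => h0 (congrFun h 1)) ![x ^ n, α, β] ?_ ?_).trans
    (by simp [Fin.prod_univ_three, mulHeight₁_pow])
  · intro v _
    have h := k v L (by positivity) (by
      simp only [List.mem_cons, List.not_mem_nil, or_false]
      rintro p (rfl | rfl | rfl)
      exacts [abv_arch v x hA dA, abv_arch v x hB dB, abv_arch v x hD dD])
    have k2 : ∀ a b : K, v (a - b) ≤ v a + v b := fun a b => by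
      simpa only [sub_eq_add_neg, map_neg_eq_map] using v.add_le a (-b)
    refine Fin.forall_fin_two.2 ⟨(k2 _ _).trans ?_, (k2 _ _).trans ?_⟩
    · linarith only [h (aeval x D) (by simp), h (aeval x B * β) (by simp)]
    · linarith only [h (aeval x A * α) (by simp), h (aeval x B * β) (by simp)]
  · intro v hv
    have hv' := isNonarchimedean v hv
    have h := k v 1 zero_le_one (by
      simp only [List.mem_cons, List.not_mem_nil, or_false, one_mul]
      rintro p (rfl | rfl | rfl)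
      exacts [abv_non hv' x dA, abv_non hv' x dB, abv_non hv' x dD])
    simp only [one_mul] at h
    have k2 : ∀ a b : K, v (a - b) ≤ max (v a) (v b) := fun a b => by
      simpa only [sub_eq_add_neg, le_sup_iff, map_neg_eq_map] using hv' a (-b)
    exact Fin.forall_fin_two.2 ⟨(k2 _ _).trans (max_le (h _ (by simp)) (h _ (by simp))),
      (k2 _ _).trans (max_le (h _ (by simp)) (h _ (by simp)))⟩

theorem gap [CharZero K] {x u : K} (x1 : x ≠ 1) (u0 : u ≠ 0) (u1 : u ≠ 1) (N : ℕ) :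
    logHeight₁ u ≤ totalWeight K * (12 * N + 5) + (N + 1) * logHeight₁ x +
      logHeight₁ (x ^ (2 * N) / u) + logHeight₁ ((1 - x) ^ (2 * N) / (1 - u)) := by
  obtain ⟨A, B, D, c, hc, h1, h2, h3, h4⟩ := pade N
  have x1' := sub_ne_zero.2 x1.symm
  have u1' := sub_ne_zero.2 u1.symm
  have e : ∀ j, aeval x (A j) * (x ^ (2 * N) / u) * u +
      aeval x (B j) * ((1 - x) ^ (2 * N) / (1 - u)) * (1 - u) = aeval x (D j) := fun j => by
    rw [← h1 j, mul_assoc, mul_assoc, div_mul_cancel₀ _ u0, div_mul_cancel₀ _ u1']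
    simp only [map_add, map_mul, map_pow, aeval_X, aeval_sub, map_one]
  obtain ⟨j, hj⟩ : ∃ j, aeval x (A j) * (x ^ (2 * N) / u) ≠
      aeval x (B j) * ((1 - x) ^ (2 * N) / (1 - u)) := by
    by_contra hn
    simp only [not_exists, not_not] at hn
    have h5 := congrArg (aeval x) h4
    simp only [map_sub, map_mul, map_pow, map_one, aeval_X, eq_intCast, map_intCast] at h5
    have d : ∀ j, aeval x (D j) = aeval x (A j) * (x ^ (2 * N) / u) := fun j => by
      linear_combination (u - 1) * hn j - e j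
    rw [d 0, d 1] at h5
    exact mul_ne_zero (Int.cast_ne_zero.2 hc) (pow_ne_zero (2 * N) x1')
      (by linear_combination -h5)
  have h := log_le_log (mulHeight₁_pos u) (cramer (h3 j).1 (h3 j).2.1 (h3 j).2.2 (h2 j).1
    (h2 j).2.1 (h2 j).2.2 (e j) hj)
  have p := mulHeight₁_pos (K := K)
  rw [log_mul (by positivity) (by have := p; positivity), log_mul (by have := p; positivity)
    (p _).ne', log_mul (by have := p; positivity) (p _).ne', log_pow, log_pow] at h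
  have l2 : log (2 * ((2 ^ (12 * N + 4) : ℕ) : ℝ)) ≤ 12 * N + 5 := by
    rw [Nat.cast_pow, Nat.cast_ofNat, ← pow_succ', log_pow]
    push_cast
    have := log_two_lt_d9
    nlinarith only [this]
  simp only [logHeight₁_eq_log_mulHeight₁]
  have := mul_le_mul_of_nonneg_left l2 (Nat.cast_nonneg (α := ℝ) (totalWeight K))
  push_cast at h this ⊢
  linarith

theorem near {a b g h ρ : ℝ} {N : ℕ} (hρ : 0 < ρ) (g0 : 0 < g) (h0 : 0 < h) (ha : |a| ≤ 2 * g)
    (h1 : 2 * N * g ≤ h) (h2 : h ≤ 2 * (N + 1) * g) (e : ⌊ρ * (a / g)⌋ = ⌊ρ * (b / h)⌋) :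
    |(2 * N : ℕ) * a - b| ≤ (2 * (N + 1) / ρ + 4) * g := by
  have h3 := Int.abs_sub_lt_one_of_floor_eq_floor e
  rw [← mul_sub, abs_mul, abs_of_pos hρ, ← lt_div_iff₀' hρ] at h3
  have h4 : (2 * N : ℕ) * a - b = h * (a / g - b / h) - (h - 2 * N * g) * (a / g) := by
    push_cast
    field_simp
    ring
  have h5 : |a / g| ≤ 2 := by rwa [abs_div, abs_of_pos g0, div_le_iff₀ g0]
  rw [h4]
  refine (abs_sub _ _).trans ?_
  rw [abs_mul, abs_mul, abs_of_pos h0, abs_of_nonneg (sub_nonneg.2 h1)]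
  have h6 : h * |a / g - b / h| ≤ 2 * (N + 1) * g * (1 / ρ) :=
    mul_le_mul h2 h3.le (abs_nonneg _) (by positivity)
  have h7 : (h - 2 * N * g) * |a / g| ≤ 2 * g * 2 :=
    mul_le_mul (by linarith only [h2]) h5 (abs_nonneg _) (by positivity)
  have h8 : 2 * (N + 1) * g * (1 / ρ) = 2 * (N + 1) / ρ * g := by ring
  linarith only [h6, h7, h8]

theorem unit_finite [CharZero K] (hN : ∀ B, {x : K | logHeight₁ x ≤ B}.Finite)
    (s : Finset (nonarchAbsVal (K := K))) :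
    {u : K | u ≠ 0 ∧ u ≠ 1 ∧ ∀ v, v ∉ s → v.val u = 1 ∧ v.val (1 - u) = 1}.Finite := by
  classical
  set d := totalWeight K with hd
  set D := d + #s with hD
  set ρ : ℝ := 16 * (D + 1) with hρ
  have ρ0 : 0 < ρ := by positivity
  set I := (archAbsVal (K := K)).toFinset ∪ s.image Subtype.val with hI
  have hI1 : ∀ v ∈ I, v ∈ archAbsVal (K := K) ∨ v ∈ nonarchAbsVal (K := K) := fun v hv => by
    rcases mem_union.1 hv with h | h
    · exact .inl (Multiset.mem_toFinset.1 h)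
    · obtain ⟨w, -, rfl⟩ := mem_image.1 h
      exact .inr w.2
  set U := {u : K | (u ≠ 0 ∧ u ≠ 1 ∧ ∀ v, v ∉ s → v.val u = 1 ∧ v.val (1 - u) = 1) ∧
    52 * (d : ℝ) + 1 < logHeight₁ u} with hU
  have d0 : (0 : ℝ) ≤ d := Nat.cast_nonneg _
  have b : ∀ u ∈ U, ∀ v ∈ I, |log (v u)| ≤ 2 * logHeight₁ u ∧
      |log (v (1 - u))| ≤ 2 * logHeight₁ u := fun u hu v hv => by
    have h1 := abs_log_le u (hI1 v hv)
    have h2 := abs_log_le (1 - u) (hI1 v hv)
    have h3 := logHeight₁_sub_le 1 u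
    have h4 := mul_le_mul_of_nonneg_left (log_two_lt_d9.le.trans (by norm_num : _ ≤ (1 : ℝ))) d0
    rw [logHeight₁_one] at h3
    constructor <;> linarith only [hu.2, h1, h2, h3, h4]
  refine ((hN (52 * d + 1)).union (?_ : U.Finite)).subset fun u hu =>
    (le_or_gt (logHeight₁ u) (52 * d + 1)).imp id fun h => ⟨hu, h⟩
  refine Set.Finite.of_finite_fibers (fun (u : K) (v : I) =>
    (⌊ρ * (log (v.val u) / logHeight₁ u)⌋, ⌊ρ * (log (v.val (1 - u)) / logHeight₁ u)⌋)) ?_ ?_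
  · refine (Set.Finite.pi' (t := fun _ : I => Set.Icc ⌊-(ρ * 2)⌋ ⌊ρ * 2⌋ ×ˢ
      Set.Icc ⌊-(ρ * 2)⌋ ⌊ρ * 2⌋) fun _ => (Set.finite_Icc _ _).prod (Set.finite_Icc _ _)).subset ?_
    rintro _ ⟨u, hu, rfl⟩ v
    have h0 : 0 < logHeight₁ u := by linarith only [hu.2]
    have k : ∀ a : ℝ, |a| ≤ 2 * logHeight₁ u →
        ⌊ρ * (a / logHeight₁ u)⌋ ∈ Set.Icc ⌊-(ρ * 2)⌋ ⌊ρ * 2⌋ := fun a ha => by
      have h5 : |ρ * (a / logHeight₁ u)| ≤ ρ * 2 := by
        rw [abs_mul, abs_of_pos ρ0, abs_div, abs_of_pos h0]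
        exact mul_le_mul_of_nonneg_left ((div_le_iff₀ h0).2 ha) ρ0.le
      exact ⟨Int.floor_le_floor (abs_le.1 h5).1, Int.floor_le_floor (abs_le.1 h5).2⟩
    exact ⟨k _ (b u hu v v.2).1, k _ (b u hu v v.2).2⟩
  rintro _ ⟨x, hx, rfl⟩
  refine (hN (2 * (32 * D + 8) * logHeight₁ x)).subset ?_
  rintro u ⟨hu, e⟩
  by_contra hlt
  simp only [Set.mem_ofPred_eq, not_le] at hlt
  have g0 : 0 < logHeight₁ x := by linarith only [hx.2]
  have h0 : 0 < logHeight₁ u := by linarith only [hu.2]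
  obtain ⟨N, hN1, hN2, hN3⟩ : ∃ N : ℕ, 2 * N * logHeight₁ x ≤ logHeight₁ u ∧
      logHeight₁ u ≤ 2 * (N + 1) * logHeight₁ x ∧ 32 * (D : ℝ) + 8 ≤ N := by
    refine ⟨⌊logHeight₁ u / (2 * logHeight₁ x)⌋₊, ?_, ?_, ?_⟩
    · have := (le_div_iff₀ (by positivity)).1
        (Nat.floor_le (a := logHeight₁ u / (2 * logHeight₁ x)) (by positivity))
      linarith only [this]
    · have := (div_lt_iff₀ (by positivity)).1
        (Nat.lt_floor_add_one (logHeight₁ u / (2 * logHeight₁ x)))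
      linarith only [this]
    · have : ((32 * D + 8 : ℕ) : ℝ) ≤ logHeight₁ u / (2 * logHeight₁ x) := by
        rw [le_div_iff₀ (by positivity)]
        push_cast
        linarith only [hlt]
      exact_mod_cast Nat.le_floor this
  have k : ∀ a c : K, a ≠ 0 → c ≠ 0 → (∀ v, v ∉ s → v.val a = 1 ∧ v.val c = 1) →
      (∀ v ∈ I, |log (v a)| ≤ 2 * logHeight₁ x ∧
        ⌊ρ * (log (v a) / logHeight₁ x)⌋ = ⌊ρ * (log (v c) / logHeight₁ u)⌋) →
      logHeight₁ (a ^ (2 * N) / c) ≤ D * ((2 * (N + 1) / ρ + 4) * logHeight₁ x) := by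
    intro a c a0 c0 h1 h2
    have h3 : ∀ v ∈ I, |log (v (a ^ (2 * N) / c))| ≤ (2 * (N + 1) / ρ + 4) * logHeight₁ x := by
      intro v hv
      rw [map_div₀, map_pow, log_div (pow_ne_zero _ (v.ne_zero a0)) (v.ne_zero c0), log_pow]
      exact near ρ0 g0 h0 (h2 v hv).1 hN1 hN2 (h2 v hv).2
    exact unit_le s (by positivity)
      (fun v hv => h3 v (mem_union_left _ (Multiset.mem_toFinset.2 hv)))
      (fun v hv => h3 v (mem_union_right _ (mem_image_of_mem _ hv))) fun v hv => by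
        rw [map_div₀, map_pow, (h1 v hv).1, (h1 v hv).2, one_pow, div_one]
  have k1 := k x u hx.1.1 hu.1.1 (fun v hv => ⟨(hx.1.2.2 v hv).1, (hu.1.2.2 v hv).1⟩)
    fun v hv => ⟨(b x hx v hv).1, (congrArg Prod.fst (congrFun e ⟨v, hv⟩)).symm⟩
  have k2 := k (1 - x) (1 - u) (sub_ne_zero.2 hx.1.2.1.symm) (sub_ne_zero.2 hu.1.2.1.symm)
    (fun v hv => ⟨(hx.1.2.2 v hv).2, (hu.1.2.2 v hv).2⟩)
    fun v hv => ⟨(b x hx v hv).2, (congrArg Prod.snd (congrFun e ⟨v, hv⟩)).symm⟩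
  have k3 := gap hx.1.2.1 hu.1.1 hu.1.2.1 N
  have D0 : (0 : ℝ) ≤ D := Nat.cast_nonneg _
  have k4 : D * (2 * (N + 1) / ρ + 4) ≤ (2 * N + 1) / 8 := by
    have : D * (2 * (N + 1) / ρ) ≤ (N + 1) / 8 := by
      rw [← mul_div_assoc, div_le_div_iff₀ ρ0 (by norm_num), hρ]
      linarith only [hN3]
    linarith only [hN3, this]
  have k5 := mul_le_mul_of_nonneg_right k4 g0.le
  have k6 := mul_le_mul_of_nonneg_left hx.2.le (Nat.cast_nonneg (α := ℝ) N)
  rw [← hd] at k3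
  linarith only [mul_nonneg (by linarith only [hN3] : (0 : ℝ) ≤ N - 8) g0.le, mul_nonneg (by linarith only [hN3] : (0 : ℝ) ≤ N - 8) d0, g0, hN1, hN3, k1, k2, k3, k5, k6]

theorem val_neg_iff {p : ℕ} (hp : p.Prime) (x : ℚ) : padicValRat p x < 0 ↔ p ∣ x.den := by
  have := Fact.mk hp
  rw [padicValRat_def, padicValInt]
  constructor
  · intro h
    by_contra hd
    rw [padicValNat.eq_zero_of_not_dvd hd] at h
    omega
  · intro h
    have h1 : ¬ p ∣ x.num.natAbs := fun h1 =>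
      hp.one_lt.ne' (Nat.eq_one_of_dvd_coprimes x.reduced h1 h)
    have h2 := one_le_padicValNat_of_dvd x.den_nz h
    rw [padicValNat.eq_zero_of_not_dvd h1]
    omega

theorem val_pos_iff {p : ℕ} (hp : p.Prime) {x : ℚ} (hx : x ≠ 0) :
    0 < padicValRat p x ↔ (p : ℤ) ∣ x.num := by
  have := Fact.mk hp
  rw [← neg_lt_zero, ← padicValRat.inv, val_neg_iff hp, Rat.den_inv_of_ne_zero hx,
    Int.natCast_dvd]

theorem abv_rat {K : Type*} [Field K] [CharZero K] (v : AbsoluteValue K ℝ) {x : ℚ} (hx : x ≠ 0)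
    (h : ∀ p : ℕ, p.Prime → padicValRat p x ≠ 0 → v p = 1) : v x = 1 := by
  have k : ∀ n : ℕ, n ≠ 0 → (∀ p : ℕ, p.Prime → p ∣ n → v p = 1) → v n = 1 := by
    intro n
    induction n using induction_on_primes with
    | zero => simp only [ne_eq, not_true_eq_false, dvd_zero, forall_const, CharP.cast_eq_zero, AbsoluteValue.map_zero, zero_ne_one, imp_false, not_forall, Classical.not_imp, IsEmpty.forall_iff]
    | one => simp only [ne_eq, one_ne_zero, not_false_eq_true, Nat.dvd_one, Nat.cast_one, AbsoluteValue.map_one, implies_true, imp_self]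
    | prime_mul p a hp ih =>
      intro h0 h1
      rw [Nat.cast_mul, map_mul, h1 p hp (dvd_mul_right _ _), one_mul]
      exact ih (right_ne_zero_of_mul h0) fun q hq h2 => h1 q hq (h2.mul_left _)
  rw [Rat.cast_def, map_div₀, ← v.apply_natAbs_eq, k _ (by simpa using hx) fun p hp h1 =>
    h p hp ((val_pos_iff hp hx).2 (Int.natCast_dvd.2 h1)).ne', k _ x.den_nz fun p hp h1 =>
    h p hp ((val_neg_iff hp x).2 h1).ne, div_one]

open IntermediateField in
theorem sq_finite (F : Finset ℕ) (δ : ℚ) : {x : ℚ | x ≠ 0 ∧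
    (∀ p : ℕ, p.Prime → p ∉ F → padicValRat p x = 0) ∧ ∃ w : ℚ, x + 1 = δ * w ^ 2}.Finite := by
  obtain ⟨η, hη⟩ := IsAlgClosed.exists_pow_nat_eq (δ : ℂ) two_pos
  have : NumberField ℚ⟮η⟯ :=
    { to_finiteDimensional := adjoin.finiteDimensional
        (IsIntegral.of_pow two_pos (hη ▸ isIntegral_algebraMap (R := ℚ) (x := δ))) }
  obtain ⟨θ, hθ⟩ : ∃ θ : ℚ⟮η⟯, θ ^ 2 = δ :=
    ⟨⟨η, mem_adjoin_simple_self ℚ η⟩, Subtype.ext (by simpa using hη)⟩
  have n0 : ((2 * ∏ p ∈ F.filter Nat.Prime, p : ℕ) : ℚ⟮η⟯) ≠ 0 := Nat.cast_ne_zero.2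
    (mul_ne_zero two_ne_zero (prod_ne_zero_iff.2 fun p hp => (mem_filter.1 hp).2.ne_zero))
  have hf := hasFiniteMulSupport n0
  refine Set.Finite.of_finite_image (f := fun x : ℚ => (x : ℚ⟮η⟯)) ?_ Rat.cast_injective.injOn
  refine ((unit_finite (NumberField.finite_setOfPred_logHeight₁_le _) hf.toFinset).image
    fun u => -4 * (u * (1 - u))).subset ?_
  rintro _ ⟨x, ⟨x0, h1, w, h2⟩, rfl⟩
  have h3 : (x : ℚ⟮η⟯) + 1 = θ ^ 2 * w ^ 2 := by
    rw [hθ]
    exact_mod_cast h2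
  have h4 : -4 * ((1 + θ * w) / 2 * (1 - (1 + θ * w) / 2)) = x := by linear_combination -h3
  have x0' : (x : ℚ⟮η⟯) ≠ 0 := by exact_mod_cast x0
  generalize (1 + θ * w) / 2 = u at h4
  refine ⟨u, ⟨fun e => x0' (by rw [← h4, e]; simp), fun e => x0' (by rw [← h4, e]; simp),
    fun v hv => ?_⟩, h4⟩
  have hv' := isNonarchimedean v.val v.2
  have h5 : v.val ((2 * ∏ p ∈ F.filter Nat.Prime, p : ℕ) : ℚ⟮η⟯) = 1 := by simpa only [Nat.cast_mul, Nat.cast_ofNat, Nat.cast_prod, AbsoluteValue.map_mul, map_prod, Set.Finite.mem_toFinset, Function.mem_mulSupport, ne_eq, Decidable.not_not] using hv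
  have h6 : ∀ p : ℕ, p ∣ 2 * ∏ p ∈ F.filter Nat.Prime, p → v.val p = 1 := by
    rintro p ⟨m, hm⟩
    rw [hm, Nat.cast_mul, map_mul] at h5
    have a1 : v.val p ≤ 1 := hv'.apply_natCast_le_one
    have a2 : v.val m ≤ 1 := hv'.apply_natCast_le_one
    nlinarith only [v.val.nonneg p, h5, a1, a2]
  have h7 : v.val u * v.val (1 - u) = 1 := by
    have a1 := abv_rat v.val x0 fun p hp h => h6 p (Dvd.dvd.mul_left (dvd_prod_of_mem _
      (mem_filter.2 ⟨by_contra fun h' => h (h1 p hp h'), hp⟩)) _)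
    have a2 : v.val 2 = 1 := by simpa using h6 2 (dvd_mul_right _ _)
    rwa [← h4, map_mul, map_mul, show (-4 : ℚ⟮η⟯) = -(2 * 2) by norm_num, v.val.map_neg, map_mul,
      a2, one_mul, one_mul] at a1
  have k : ∀ a b : ℚ⟮η⟯, a + b = 1 → v.val a * v.val b = 1 → v.val a ≤ 1 := fun a b e1 e2 => by
    by_contra hlt
    have a1 := hv' 1 (-b)
    rw [← e1, add_neg_cancel_right, e1, map_one, v.val.map_neg, le_max_iff] at a1
    rcases a1 with a1 | a1
    · exact hlt a1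
    · nlinarith only [e2, hlt, a1]
  have a1 := k u (1 - u) (by ring) h7
  have a2 := k (1 - u) u (by ring) (by rw [mul_comm, h7])
  constructor <;> nlinarith only [v.val.nonneg u, v.val.nonneg (1 - u), h7, a1, a2]

end Pool.Agent.MP_a59382_lc.H26

end

-- part MP_a59382_lc.V3.Rat
section

/-! Subrings of the rationals, Legendre symbols, conics and basic diophantine relations. -/

set_option autoImplicit false

namespace Pool.Agent.MP_a59382_lc.V3

open Finset Pool.Agent.Lib.HasseMinkowski H26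

/-- the rationals whose denominators have all prime factors in `S` -/
def RS (S : Set ℕ) : Subring ℚ where
  carrier := {x | ∀ p : ℕ, p.Prime → p ∣ x.den → p ∈ S}
  mul_mem' {a b} ha hb p hp h :=
    ((Nat.Prime.dvd_mul hp).1 (h.trans (Rat.mul_den_dvd a b))).elim (ha p hp) (hb p hp)
  one_mem' p hp h := absurd (Nat.dvd_one.1 h) hp.one_lt.ne'
  add_mem' {a b} ha hb p hp h :=
    ((Nat.Prime.dvd_mul hp).1 (h.trans (Rat.add_den_dvd a b))).elim (ha p hp) (hb p hp)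
  zero_mem' p hp h := absurd (Nat.dvd_one.1 h) hp.one_lt.ne'
  neg_mem' {_} ha p hp h := ha p hp h

/-- an integer in the square class of `z` -/
def iq (z : ℚ) : ℤ := z.num * z.den

/-- the Legendre symbol of the part of `z` prime to `p` -/
noncomputable def lg (p : ℕ) (z : ℚ) : ℤ := lam p (iq z)

/-- `z` has odd valuation at `p` -/
def Od (p : ℕ) (z : ℚ) : Prop := Odd (padicValRat p z)

/-- the conic `d s ^ 2 + z t ^ 2 = r ^ 2` has a rational point -/
def Nm (d z : ℚ) : Prop :=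
  ∃ r s t : ℚ, (r ≠ 0 ∨ s ≠ 0 ∨ t ≠ 0) ∧ d * s ^ 2 + z * t ^ 2 = r ^ 2

/-- units of the ring -/
def Un (S : Set ℕ) (z : ℚ) : Prop := ∃ z' ∈ RS S, z * z' = 1

/-- divisibility in the ring -/
def Dv (S : Set ℕ) (a b : ℚ) : Prop := ∃ z ∈ RS S, b = a * z

theorem iq_ne {z : ℚ} (hz : z ≠ 0) : iq z ≠ 0 :=
  mul_ne_zero (Rat.num_ne_zero.2 hz) (by exact_mod_cast z.den_nz)

theorem iq_cast (z : ℚ) : (iq z : ℚ) = z * (z.den : ℚ) ^ 2 := by
  rw [iq, Int.cast_mul, ← Rat.mul_den_eq_num z, Int.cast_natCast]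
  ring

theorem iq_int (a : ℤ) : iq a = a := by simp [iq]

theorem od_iq {p : ℕ} (hp : p.Prime) {z : ℚ} (hz : z ≠ 0) :
    Od p z ↔ Odd (padicValInt p (iq z)) := by
  have := Fact.mk hp
  have h : (padicValInt p (iq z) : ℤ) = padicValRat p z + 2 * padicValRat p (z.den : ℚ) := by
    have d0 : (z.den : ℚ) ≠ 0 := by exact_mod_cast z.den_nz
    rw [← padicValRat.of_int, iq_cast, padicValRat.mul hz (pow_ne_zero _ d0), padicValRat.pow]
    rfl
  rw [← Int.odd_coe_nat, h, Od, Int.odd_iff, Int.odd_iff]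
  omega

theorem iq_mul (φ : ℤ → ℤ) (hm : ∀ a b, a ≠ 0 → b ≠ 0 → φ (a * b) = φ a * φ b)
    (hs : ∀ a, a ≠ 0 → φ a * φ a = 1) {z w : ℚ} (hz : z ≠ 0) (hw : w ≠ 0) :
    φ (iq (z * w)) = φ (iq z) * φ (iq w) := by
  have k : ∀ a c : ℤ, a ≠ 0 → c ≠ 0 → φ (a * (c * c)) = φ a := fun a c ha hc => by
    rw [hm _ _ ha (mul_ne_zero hc hc), hm _ _ hc hc, hs c hc, mul_one]
  have d : ∀ x : ℚ, (x.den : ℤ) ≠ 0 := fun x => by exact_mod_cast x.den_nz
  have e : iq (z * w) * ((z.den * w.den) * (z.den * w.den)) =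
      iq z * iq w * ((z * w).den * (z * w).den) := by
    apply Int.cast_injective (α := ℚ)
    push_cast
    simp only [iq_cast]
    ring
  rw [← hm _ _ (iq_ne hz) (iq_ne hw), ← k _ _ (iq_ne (mul_ne_zero hz hw))
    (mul_ne_zero (d z) (d w)), e, k _ _ (mul_ne_zero (iq_ne hz) (iq_ne hw)) (d _)]

theorem mul_ind (φ : ℤ → ℤ) (hm : ∀ a b, a ≠ 0 → b ≠ 0 → φ (a * b) = φ a * φ b)
    (hs : ∀ a, a ≠ 0 → φ a * φ a = 1) {z : ℚ} (hz : z ≠ 0) (hneg : z < 0 → φ (-1) = 1)
    (h : ∀ l : ℕ, l.Prime → Od l z → φ l = 1) : φ (iq z) = 1 := by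
  have h1 : φ 1 = 1 := by
    have := hm 1 1 one_ne_zero one_ne_zero
    rw [mul_one, hs 1 one_ne_zero] at this
    exact this
  have k : ∀ n : ℕ, n ≠ 0 → (∀ l : ℕ, l.Prime → Odd (padicValNat l n) → φ l = 1) → φ n = 1 := by
    intro n
    induction n using Nat.recOnPrimePow with
    | zero => simp
    | one => exact fun _ _ => h1
    | prime_pow_mul a p e hp ha he ih =>
      intro _ h2
      have := Fact.mk hp
      have a0 : a ≠ 0 := fun e => ha (e ▸ dvd_zero p)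
      have p0 : (p : ℤ) ≠ 0 := by exact_mod_cast hp.ne_zero
      have h3 : ∀ m : ℕ, φ (p ^ m) = φ p ^ m := fun m => by
        induction m with
        | zero => simpa using h1
        | succ m ih => rw [pow_succ, hm _ _ (pow_ne_zero _ p0) p0, ih, pow_succ]
      have v : ∀ l : ℕ, l.Prime → padicValNat l (p ^ e * a) =
          padicValNat l (p ^ e) + padicValNat l a := fun l hl => by
        have := Fact.mk hl
        exact padicValNat.mul (pow_ne_zero _ hp.ne_zero) a0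
      rw [Nat.cast_mul, Nat.cast_pow, hm _ _ (pow_ne_zero _ p0) (by exact_mod_cast a0), h3,
        ih a0 fun l hl ho => h2 l hl ?_, mul_one]
      · rcases Nat.even_or_odd e with ⟨m, rfl⟩ | ho
        · rw [← two_mul, pow_mul, sq, hs _ p0, one_pow]
        · rw [h2 p hp (by rwa [v p hp, padicValNat.prime_pow, padicValNat.eq_zero_of_not_dvd ha,
            add_zero]), one_pow]
      · have hne : l ≠ p := by
          rintro rfl
          simp [padicValNat.eq_zero_of_not_dvd ha] at ho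
        rwa [v l hl, padicValNat.eq_zero_of_not_dvd (fun h4 => hne
          ((Nat.prime_dvd_prime_iff_eq hl hp).1 (hl.dvd_of_dvd_pow h4))), zero_add]
  have h2 := k (iq z).natAbs (Int.natAbs_ne_zero.2 (iq_ne hz)) fun l hl ho =>
    h l hl ((od_iq hl hz).2 ho)
  rcases Int.natAbs_eq (iq z) with e | e
  · rw [e, h2]
  · have h3 : (iq z : ℚ) < 0 := by exact_mod_cast (by have := iq_ne hz; omega : iq z < 0)
    rw [iq_cast] at h3
    rw [e, ← neg_one_mul, hm _ _ (by norm_num) (by simpa using iq_ne hz), h2,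
      hneg (neg_of_mul_neg_left h3 (by positivity)), mul_one]

theorem lam_mul {p : ℕ} (hp : p.Prime) (a b : ℤ) (ha : a ≠ 0) (hb : b ≠ 0) :
    lam p (a * b) = lam p a * lam p b := by
  obtain ⟨k, u, rfl, hu⟩ := exists_decomp hp ha
  obtain ⟨l, v, rfl, hv⟩ := exists_decomp hp hb
  rw [mul_mul_mul_comm, ← pow_add, lam_decomp hp _ hu, lam_decomp hp _ hv,
    lam_decomp hp _ (not_dvd_mul hp hu hv), jacobiSym.mul_left]

theorem lam_pm {p : ℕ} (hp : p.Prime) (a : ℤ) (ha : a ≠ 0) : lam p a = 1 ∨ lam p a = -1 := by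
  obtain ⟨k, u, rfl, hu⟩ := exists_decomp hp ha
  rw [lam_decomp hp _ hu]
  exact jacobiSym.eq_one_or_neg_one (gcd_eq_one hp hu)

theorem lam_sq {p : ℕ} (hp : p.Prime) (a : ℤ) (ha : a ≠ 0) : lam p a * lam p a = 1 := by
  rcases lam_pm hp a ha with e | e <;> rw [e] <;> norm_num

theorem lam_unit {p : ℕ} (hp : p.Prime) {a : ℤ} (ha : ¬ (p : ℤ) ∣ a) :
    lam p a = jacobiSym a p := by simpa using lam_decomp hp 0 ha

theorem lam_self {p : ℕ} (hp : p.Prime) : lam p p = 1 := by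
  simpa using lam_decomp hp 1 (not_dvd_one hp)

theorem lg_mul {p : ℕ} (hp : p.Prime) {z w : ℚ} (hz : z ≠ 0) (hw : w ≠ 0) :
    lg p (z * w) = lg p z * lg p w := iq_mul _ (lam_mul hp) (lam_sq hp) hz hw

theorem lg_pm {p : ℕ} (hp : p.Prime) {z : ℚ} (hz : z ≠ 0) : lg p z = 1 ∨ lg p z = -1 :=
  lam_pm hp _ (iq_ne hz)

theorem lg_int {p : ℕ} (hp : p.Prime) {a : ℤ} (ha : ¬ (p : ℤ) ∣ a) :
    lg p a = jacobiSym a p := by rw [lg, iq_int, lam_unit hp ha]

theorem lg_near {p : ℕ} (hp : p.Prime) {z : ℚ} (h : 0 < padicValRat p (z - 1)) :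
    z ≠ 0 ∧ padicValRat p z = 0 ∧ lg p z = 1 := by
  have := Fact.mk hp
  have h0 : z - 1 ≠ 0 := fun e => by simp [e] at h
  have h1 := (val_pos_iff hp h0).1 h
  have h2 : ¬ p ∣ z.den := fun h2 => by
    have := (val_neg_iff hp (z - 1)).2 (by simpa using h2)
    omega
  have h3 : (z - 1).num = z.num - z.den := by
    have e : ((z - 1).num : ℚ) = z.num - z.den := by
      rw [← Rat.mul_den_eq_num, ← Rat.mul_den_eq_num]
      simp [sub_mul]
    exact_mod_cast e
  have h4 : ¬ (p : ℤ) ∣ z.den := fun h4 => h2 (Int.natCast_dvd_natCast.1 h4)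
  rw [h3] at h1
  have h5 : ¬ (p : ℤ) ∣ z.num := fun h5 => h4 (by simpa only [sub_sub_cancel] using dvd_sub h5 h1)
  have z0 : z ≠ 0 := fun e => h5 (by simp [e])
  refine ⟨z0, le_antisymm (not_lt.1 fun h6 => h5 ((val_pos_iff hp z0).1 h6))
    (not_lt.1 fun h6 => h2 ((val_neg_iff hp z).1 h6)), ?_⟩
  rw [lg, iq, lam_unit hp (not_dvd_mul hp h5 h4), jacobiSym.mod_left' (a₂ := z.den ^ 2),
    jacobiSym.sq_one' (gcd_eq_one hp h4)]
  exact (Int.emod_emod_of_dvd _ dvd_rfl).symm.trans ((Int.emod_emod_of_dvd _ dvd_rfl).trans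
    (Int.modEq_iff_dvd.2 (by simpa only [sq, ← sub_mul] using (dvd_sub_comm.1 h1).mul_right _)))

theorem nm_iff {d z : ℚ} : Nm d z ↔ Solv (iq d) (iq z) := by
  have a : (d.den : ℚ) ≠ 0 := by exact_mod_cast d.den_nz
  have b : (z.den : ℚ) ≠ 0 := by exact_mod_cast z.den_nz
  constructor
  · rintro ⟨r, s, t, h0, e⟩
    obtain ⟨⟨m, hm⟩, h⟩ := IsLocalization.exist_integer_multiples_of_finite (nonZeroDivisors ℤ)
      (![s / d.den, t / z.den, r] : Fin 3 → ℚ)
    obtain ⟨x, hx⟩ := h 0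
    obtain ⟨y, hy⟩ := h 1
    obtain ⟨w, hw⟩ := h 2
    have m0 : (m : ℚ) ≠ 0 := by exact_mod_cast nonZeroDivisors.ne_zero hm
    simp only [eq_intCast, Matrix.cons_val_zero, Matrix.cons_val_one, Matrix.cons_val,
      zsmul_eq_mul] at hx hy hw
    refine ⟨x, y, w, ?_, Int.cast_injective (α := ℚ) ?_⟩
    · simp only [← Int.cast_ne_zero (α := ℚ), hx, hy, hw]
      rcases h0 with h | h | h
      · exact .inr (.inr (mul_ne_zero m0 h))
      · exact .inl (mul_ne_zero m0 (div_ne_zero h a))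
      · exact .inr (.inl (mul_ne_zero m0 (div_ne_zero h b)))
    · push_cast
      rw [iq_cast, iq_cast, hx, hy, hw]
      field_simp
      linear_combination e
  · rintro ⟨x, y, w, h0, e⟩
    refine ⟨w, x * d.den, y * z.den, ?_, ?_⟩
    · rcases h0 with h | h | h
      · exact .inr (.inl (mul_ne_zero (by exact_mod_cast h) a))
      · exact .inr (.inr (mul_ne_zero (by exact_mod_cast h) b))
      · exact .inl (by exact_mod_cast h)
    · have := congrArg (Int.cast : ℤ → ℚ) e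
      push_cast at this
      rw [iq_cast, iq_cast] at this
      linear_combination this

theorem lam_pow_even {p : ℕ} (hp : p.Prime) {a : ℤ} (ha : a ≠ 0) {n : ℕ} (hn : ¬ Odd n) :
    lam p a ^ n = 1 := by
  rcases lam_pm hp a ha with e | e
  · rw [e, one_pow]
  · rw [e, (Nat.not_odd_iff_even.1 hn).neg_one_pow]

theorem hs_even {p : ℕ} (hp : p.Prime) (h2 : p ≠ 2) {a b : ℤ} (hb : b ≠ 0)
    (h : ¬ Odd (padicValInt p a)) : hs p a b = lam p a ^ padicValInt p b := by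
  have h1 : jacobiSym (-1) p ^ (padicValInt p a * padicValInt p b) = 1 := by
    rcases jacobiSym.eq_one_or_neg_one (gcd_eq_one hp (not_dvd_neg_one hp)) with e | e
    · rw [e, one_pow]
    · rw [e, ((Nat.not_odd_iff_even.1 h).mul_right _).neg_one_pow]
  rw [hs, if_pos ⟨hp, h2⟩, h1, lam_pow_even hp hb h, one_mul, mul_one]

theorem nm_lg {d z : ℚ} (h : Nm d z) (hd : d ≠ 0) (hz : z ≠ 0) {p : ℕ} (hp : p.Prime)
    (h2 : p ≠ 2) (h3 : Od p z) (h4 : ¬ Od p d) : lg p d = 1 := by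
  have h5 := hs_one_of_solv p (iq_ne hd) (iq_ne hz) (nm_iff.1 h)
  rw [hs_even hp h2 (iq_ne hz) (mt (od_iq hp hd).2 h4)] at h5
  refine (lg_pm hp hd).resolve_right fun e => ?_
  rw [show lam p (iq d) = -1 from e, ((od_iq hp hz).1 h3).neg_one_pow] at h5
  omega

theorem nm_pos {d z : ℚ} (h : Nm d z) (hd : d < 0) (hz : z ≠ 0) : 0 < z := by
  obtain ⟨r, s, t, h0, e⟩ := h
  refine lt_of_le_of_ne (not_lt.1 fun h1 => ?_) hz.symm
  have a := mul_nonneg (neg_pos.2 hd).le (sq_nonneg s)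
  have b := mul_nonneg (neg_pos.2 h1).le (sq_nonneg t)
  rcases h0 with h | h | h
  · linarith only [sq_pos_of_ne_zero h, e, a, b]
  · linarith only [mul_pos (neg_pos.2 hd) (sq_pos_of_ne_zero h), sq_nonneg r, e, b]
  · linarith only [mul_pos (neg_pos.2 h1) (sq_pos_of_ne_zero h), sq_nonneg r, e, a]

theorem nm_of {d z : ℚ} (hd : d ≠ 0) (hz : z ≠ 0) (h0 : 0 < d ∨ 0 < z)
    (h1 : ∀ p : ℕ, p.Prime → p ≠ 2 → Od p z → ¬ Od p d ∧ lg p d = 1)
    (h2 : ∀ p : ℕ, p.Prime → p ≠ 2 → Od p d → lg p z = 1) : Nm d z := by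
  have k : ∀ x : ℚ, 0 < x → ¬ iq x < 0 := fun x hx => not_lt.2
    (mul_nonneg (Rat.num_nonneg.2 hx.le) (Int.natCast_nonneg _))
  refine nm_iff.2 (legendre _ _ _ le_rfl (iq_ne hd) (iq_ne hz) (fun p => ?_)
    fun h => h0.elim (fun e => k d e h.1) fun e => k z e h.2)
  by_cases hp : p.Prime ∧ p ≠ 2
  swap
  · exact hs_of_not hp _ _
  by_cases hz1 : Od p z
  · obtain ⟨a, b⟩ := h1 p hp.1 hp.2 hz1
    rw [hs_even hp.1 hp.2 (iq_ne hz) (mt (od_iq hp.1 hd).2 a), show lam p (iq d) = 1 from b,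
      one_pow]
  · rw [hs_symm, hs_even hp.1 hp.2 (iq_ne hd) (mt (od_iq hp.1 hz).2 hz1)]
    by_cases hd1 : Od p d
    · rw [show lam p (iq z) = 1 from h2 p hp.1 hp.2 hd1, one_pow]
    · exact lam_pow_even hp.1 (iq_ne hz) (mt (od_iq hp.1 hd).2 hd1)

theorem lam_neg_one {p : ℕ} (hp : p.Prime) (h4 : p % 4 = 1) : lam p (-1) = 1 := by
  rw [lam_unit hp (not_dvd_neg_one hp), jacobiSym.at_neg_one (Nat.odd_iff.2 (by omega)),
    ZMod.χ₄_nat_one_mod_four h4]

theorem lg_ex {p : ℕ} (hp : p.Prime) (h4 : p % 4 = 1) {z : ℚ} (hz : z ≠ 0) (h : lg p z = -1) :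
    ∃ l : ℕ, l.Prime ∧ l ≠ p ∧ Od l z ∧ jacobiSym l p = -1 := by
  by_contra hn
  have h1 : lg p z = 1 := mul_ind _ (lam_mul hp) (lam_sq hp) hz (fun _ => lam_neg_one hp h4)
    fun l hl ho => by
      rcases eq_or_ne l p with rfl | hne
      · exact lam_self hp
      · refine (lam_pm hp l (by exact_mod_cast hl.ne_zero)).resolve_right fun e => ?_
        rw [lam_unit hp (not_dvd_prime hp hl hne.symm)] at e
        exact hn ⟨l, hl, hne, ho, e⟩
  omega

theorem od_nat {p n : ℕ} (hp : p.Prime) (h : Od p n) : p ∣ n := by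
  have := Fact.mk hp
  by_contra hn
  rw [Od, padicValRat.of_nat, padicValNat.eq_zero_of_not_dvd hn] at h
  simp at h

theorem od_neg {p : ℕ} {z : ℚ} : Od p (-z) ↔ Od p z := by rw [Od, Od, padicValRat.neg]

theorem od_mul {p : ℕ} (hp : p.Prime) {z w : ℚ} (hz : z ≠ 0) (hw : w ≠ 0) :
    Od p (z * w) ↔ ¬ (Od p z ↔ Od p w) := by
  have := Fact.mk hp
  simp only [Od, padicValRat.mul hz hw, Int.odd_iff]
  omega

theorem val_prod {p : ℕ} (hp : p.Prime) {B : Finset ℕ} (hB : ∀ q ∈ B, q.Prime) :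
    padicValRat p ((∏ q ∈ B, q : ℕ) : ℚ) = if p ∈ B then 1 else 0 := by
  have := Fact.mk hp
  induction B using Finset.induction_on with
  | empty => simp
  | insert q B hq ih =>
    have h1 := hB q (mem_insert_self _ _)
    have h2 : ∀ r ∈ B, r.Prime := fun r hr => hB r (mem_insert_of_mem hr)
    rw [prod_insert hq, Nat.cast_mul, padicValRat.mul (by exact_mod_cast h1.ne_zero)
      (Nat.cast_ne_zero.2 (prod_ne_zero_iff.2 fun r hr => (h2 r hr).ne_zero)), ih h2]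
    rcases eq_or_ne p q with rfl | hne
    · simp [hq]
    · rw [padicValRat.of_nat, padicValNat.eq_zero_of_not_dvd fun h =>
        hne ((Nat.prime_dvd_prime_iff_eq hp h1).1 h)]
      simp [hne]

theorem sq_decomp {y : ℚ} (hy : 0 < y) {A : Finset ℕ} (hA : ∀ p ∈ A, p.Prime)
    (h : ∀ p : ℕ, p.Prime → Od p y → p ∈ A) :
    ∃ B ⊆ A, ∃ w : ℚ, y = ((∏ p ∈ B, p : ℕ) : ℚ) * w ^ 2 := by
  classical
  have hB : ∀ q ∈ A.filter fun p => Od p y, q.Prime := fun q hq => hA q (mem_filter.1 hq).1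
  have g0 : (0 : ℚ) < (∏ p ∈ A.filter fun p => Od p y, p : ℕ) :=
    Nat.cast_pos.2 (prod_pos fun q hq => (hB q hq).pos)
  obtain ⟨w, hw⟩ := isSquare_of_even (div_pos hy g0) fun p hp => by
    have := Fact.mk hp
    rw [padicValRat.div hy.ne' g0.ne', val_prod hp hB]
    split_ifs with e
    · exact Odd.sub_odd (mem_filter.1 e).2 odd_one
    · rw [sub_zero, ← Int.not_odd_iff_even]
      exact fun ho => e (mem_filter.2 ⟨h p hp ho, ho⟩)
  exact ⟨_, filter_subset _ _, w, by rw [sq, ← hw, mul_div_cancel₀ _ g0.ne']⟩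

theorem mem_RS {S : Set ℕ} {x : ℚ} :
    x ∈ RS S ↔ ∀ p : ℕ, p.Prime → p ∉ S → 0 ≤ padicValRat p x :=
  forall₂_congr fun p hp => by rw [← val_neg_iff hp, ← not_imp_not, not_lt]

theorem un_val {S : Set ℕ} {z : ℚ} (hz : z ∈ RS S) (h : Un S z) :
    z ≠ 0 ∧ ∀ p : ℕ, p.Prime → p ∉ S → padicValRat p z = 0 := by
  obtain ⟨w, hw, e⟩ := h
  have z0 := left_ne_zero_of_mul_eq_one e
  refine ⟨z0, fun p hp hS => ?_⟩
  have := Fact.mk hp
  have h1 := congrArg (padicValRat p) e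
  rw [padicValRat.mul z0 (right_ne_zero_of_mul_eq_one e), padicValRat.one] at h1
  have h2 := mem_RS.1 hz p hp hS
  have h3 := mem_RS.1 hw p hp hS
  omega

theorem un_of_val {S : Set ℕ} {z : ℚ} (hz : z ≠ 0)
    (h : ∀ p : ℕ, p.Prime → p ∉ S → padicValRat p z = 0) : z ∈ RS S ∧ Un S z :=
  ⟨mem_RS.2 fun p hp hS => (h p hp hS).ge, z⁻¹, mem_RS.2 fun p hp hS => by
    have := Fact.mk hp
    rw [padicValRat.inv, h p hp hS, neg_zero], mul_inv_cancel₀ hz⟩

theorem dvd_of_free {S : Set ℕ} {r n : ℤ} (hr : ∀ p : ℕ, p.Prime → p ∈ S → ¬ (p : ℤ) ∣ r)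
    {z : ℚ} (hz : z ∈ RS S) (h : (n : ℚ) = r * z) : r ∣ n := by
  have h1 : IsCoprime r z.den := by
    rw [Int.isCoprime_iff_gcd_eq_one, Int.gcd, Int.natAbs_natCast]
    exact Nat.Coprime.symm (Nat.coprime_of_dvd fun p hp h2 h3 =>
      hr p hp (hz p hp h2) (Int.natCast_dvd.2 h3))
  refine h1.dvd_of_dvd_mul_right ⟨z.num, Int.cast_injective (α := ℚ) ?_⟩
  push_cast
  rw [h, ← Rat.mul_den_eq_num, mul_assoc]

theorem lk_od {p n : ℕ} (hp : p.Prime) (hn : n.Prime) (h : Od p n) : p = n :=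
  (Nat.prime_dvd_prime_iff_eq hp hn).1 (od_nat hp h)

theorem lk_one {x : ℚ} (h0 : 0 < x) (h : ∀ p : ℕ, p.Prime → padicValRat p x = 0) : x = 1 := by
  have h1 : x.den = 1 := Nat.eq_one_iff_not_exists_prime_dvd.2 fun p hp e =>
    ((val_neg_iff hp x).2 e).ne (h p hp)
  have h2 : x.num.natAbs = 1 := Nat.eq_one_iff_not_exists_prime_dvd.2 fun p hp e =>
    ((val_pos_iff hp h0.ne').2 (Int.natCast_dvd.2 e)).ne' (h p hp)
  have h3 := Rat.num_pos.2 h0
  rw [← Rat.num_div_den x, h1, show x.num = 1 by omega]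
  simp

theorem lk_fin {z : ℚ} (hz : z ≠ 0) : {p : ℕ | p.Prime ∧ Od p z}.Finite := by
  refine (Set.finite_Iic (iq z).natAbs).subset fun p hp => ?_
  have := Fact.mk hp.1
  refine Nat.le_of_dvd (Int.natAbs_pos.2 (iq_ne hz)) (by_contra fun e => ?_)
  have h := (od_iq hp.1 hz).1 hp.2
  rw [padicValInt, padicValNat.eq_zero_of_not_dvd e] at h
  simp at h

open H18

theorem D1_crt {n l : ℤ} (hn : n ≠ 0) (hl : Odd l) : ∃ y : ℤ, n ∣ (2 * y + 1) * (l * y + 1) := by
  obtain ⟨a, m, ⟨k, hk⟩, h⟩ := Nat.exists_eq_two_pow_mul_odd (Int.natAbs_ne_zero.2 hn)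
  obtain ⟨j, hj⟩ := hl
  obtain ⟨u, v, huv⟩ : IsCoprime l (2 ^ a) :=
    IsCoprime.pow_right ⟨1, -j, by rw [hj]; ring⟩
  obtain ⟨s, t, hst⟩ : IsCoprime (2 * (k : ℤ) + 1) (2 ^ a) :=
    IsCoprime.pow_right ⟨1, -k, by ring⟩
  refine ⟨-u * s * (2 * k + 1) + k * t * 2 ^ a, Int.natAbs_dvd.1 ?_⟩
  rw [h, hk]
  push_cast
  rw [mul_comm]
  refine mul_dvd_mul ⟨1 - 2 * k * s - 2 * u * s, ?_⟩ ⟨v + l * u * t + l * k * t, ?_⟩
  · linear_combination (2 * k) * hst
  · linear_combination (-1) * huv - l * u * hst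

theorem dio_ne {S : Set ℕ} {l : ℕ} (hl : l.Prime) (hl2 : l ≠ 2) (h2 : 2 ∉ S) (hlS : l ∉ S) :
    Dio (RS S) fun z : RS S => z ≠ 0 := by
  have : Dio (RS S) fun z : RS S =>
      ∃ w : RS S × RS S, z * w.1 = (2 * w.2 + 1) * (l * w.2 + 1) :=
    .ex (.eq (by fun_prop) (by fun_prop))
  have l0 : (l : ℚ) ≠ 0 := by exact_mod_cast hl.ne_zero
  refine this.congr fun z => ⟨fun hz => ?_, ?_⟩
  · have hz' : (z : ℚ) ≠ 0 := fun h => hz (Subtype.ext h)
    obtain ⟨y, w, hw⟩ := D1_crt (l := l) (Rat.num_ne_zero.2 hz')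
      (by exact_mod_cast hl.odd_of_ne_two hl2)
    refine ⟨((((z : ℚ).den : ℤ) * w : ℤ), (y : ℤ)), Subtype.ext ?_⟩
    have h1 : ((2 * y + 1) * (l * y + 1) : ℚ) = (z : ℚ).num * w := by exact_mod_cast hw
    have h2 := Rat.mul_den_eq_num (z : ℚ)
    change (z : ℚ) * ((((z : ℚ).den : ℤ) * w : ℤ) : ℚ) = (2 * (y : ℚ) + 1) * (l * y + 1)
    push_cast
    linear_combination w * h2 - h1
  · rintro ⟨⟨w, y⟩, h⟩ rfl
    have h1 : (0 : ℚ) = (2 * (y : ℚ) + 1) * (l * y + 1) :=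
      (zero_mul (w : ℚ)).symm.trans (congrArg Subtype.val h)
    have hy := y.2
    rcases mul_eq_zero.1 h1.symm with h3 | h3
    · have e : (y : ℚ) = -1 / 2 := by linarith only [h3]
      rw [e] at hy
      exact h2 (hy 2 Nat.prime_two (by norm_num))
    · have e : (y : ℚ) = -(l : ℚ)⁻¹ := by
        field_simp
        linarith only [h3]
      rw [e] at hy
      exact hlS (hy l hl (by simp [hl.ne_zero]))

theorem dio_le (S : Set ℕ) : Dio (RS S) fun z : RS S × RS S => (z.1 : ℚ) ≤ z.2 := by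
  have : Dio (RS S) fun z : RS S × RS S => ∃ w : (RS S × RS S) × RS S × RS S,
      z.2 = z.1 + (w.1.1 ^ 2 + w.1.2 ^ 2 + w.2.1 ^ 2 + w.2.2 ^ 2) :=
    .ex (.eq (by fun_prop) (by fun_prop))
  refine this.congr fun z => ⟨fun hz => ?_, ?_⟩
  · have hm : (z.2 : ℚ) - z.1 ∈ RS S := sub_mem z.2.2 z.1.2
    generalize he : (z.2 : ℚ) - z.1 = x at hm
    have hx : 0 ≤ x := by linarith
    obtain ⟨a, b, c, d, h⟩ := Nat.sum_four_squares (x.num.natAbs * x.den)
    have hd : ∀ a : ℕ, (a : ℚ) / x.den ∈ RS S := fun a p hp h => hm p hp (by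
      have := Rat.den_dvd a x.den
      rw [Rat.divInt_eq_div, Int.cast_natCast, Int.cast_natCast] at this
      exact h.trans (Int.natCast_dvd_natCast.1 this))
    refine ⟨((⟨_, hd a⟩, ⟨_, hd b⟩), ⟨_, hd c⟩, ⟨_, hd d⟩), Subtype.ext ?_⟩
    have h1 : ((a ^ 2 + b ^ 2 + c ^ 2 + d ^ 2 : ℕ) : ℤ) = x.num * x.den := by
      rw [h]
      push_cast
      rw [abs_of_nonneg (Rat.num_nonneg.2 hx)]
    have h2 : (a : ℚ) ^ 2 + b ^ 2 + c ^ 2 + d ^ 2 = x.num * x.den := by exact_mod_cast h1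
    have h3 := Rat.mul_den_eq_num x
    have h4 : (x.den : ℚ) ≠ 0 := by exact_mod_cast x.den_nz
    push_cast
    field_simp
    linear_combination (x.den : ℚ) ^ 2 * he + x.den * h3 - h2
  · rintro ⟨w, h⟩
    have := congrArg Subtype.val h
    push_cast at this
    rw [this]
    exact le_add_of_nonneg_right (by positivity)

theorem dio_nm {S : Set ℕ} (hS : Dio (RS S) fun z : RS S => z ≠ 0) :
    Dio (RS S) fun z : RS S × RS S => Nm z.1 z.2 := by
  have : Dio (RS S) fun z : RS S × RS S => ∃ w : RS S × RS S × RS S,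
      w.1 ^ 2 + w.2.1 ^ 2 + w.2.2 ^ 2 ≠ 0 ∧ z.1 * w.2.1 ^ 2 + z.2 * w.2.2 ^ 2 = w.1 ^ 2 :=
    .ex (.and (hS.comp (by fun_prop)) (.eq (by fun_prop) (by fun_prop)))
  refine this.congr fun z => ⟨?_, ?_⟩
  · rintro ⟨r, s, t, h0, h⟩
    have hD : ((r.den : ℚ) * s.den * t.den) ≠ 0 := by positivity
    have m1 : r * (r.den * s.den * t.den) ∈ RS S := by
      rw [mul_assoc (r.den : ℚ), ← mul_assoc, Rat.mul_den_eq_num]
      exact mul_mem (intCast_mem _ _) (mul_mem (natCast_mem _ _) (natCast_mem _ _))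
    have m2 : s * (r.den * s.den * t.den) ∈ RS S := by
      rw [mul_comm (r.den : ℚ), mul_assoc (s.den : ℚ), ← mul_assoc, Rat.mul_den_eq_num]
      exact mul_mem (intCast_mem _ _) (mul_mem (natCast_mem _ _) (natCast_mem _ _))
    have m3 : t * (r.den * s.den * t.den) ∈ RS S := by
      rw [mul_comm _ (t.den : ℚ), ← mul_assoc, Rat.mul_den_eq_num]
      exact mul_mem (intCast_mem _ _) (mul_mem (natCast_mem _ _) (natCast_mem _ _))
    generalize ((r.den : ℚ) * s.den * t.den) = D at hD m1 m2 m3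
    refine ⟨(⟨_, m1⟩, ⟨_, m2⟩, ⟨_, m3⟩), fun e => ?_, Subtype.ext ?_⟩
    · have e' := congrArg Subtype.val e
      push_cast at e'
      have : 0 < (r * D) ^ 2 + (s * D) ^ 2 + (t * D) ^ 2 := by
        rcases h0 with h0 | h0 | h0 <;> positivity
      exact this.ne' e'
    · push_cast
      linear_combination D ^ 2 * h
  · rintro ⟨⟨r, s, t⟩, h0, h⟩
    refine ⟨r, s, t, ?_, by exact_mod_cast congrArg Subtype.val h⟩
    by_contra hc
    push Not at hc
    exact h0 (Subtype.ext (by simp only [Subring.coe_add, SubmonoidClass.coe_pow, hc.1, ne_eq, OfNat.ofNat_ne_zero, not_false_eq_true, zero_pow, hc.2.1, add_zero, hc.2.2, ZeroMemClass.coe_zero]))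

/-- rational valued functions that come from polynomial maps over the ring -/
def D1_QF (S : Set ℕ) {Γ : Type} [Ctx (RS S) Γ] (F : Γ → ℚ) : Prop :=
  ∃ f : Γ → RS S, PF (RS S) f ∧ ∀ g, F g = f g

theorem D1_coe {S : Set ℕ} {Γ : Type} [Ctx (RS S) Γ] {f : Γ → RS S} (hf : PF (RS S) f) :
    D1_QF S fun g => (f g : ℚ) := ⟨f, hf, fun _ => rfl⟩

theorem D1_const {S : Set ℕ} {Γ : Type} [Ctx (RS S) Γ] {c : ℚ} (hc : c ∈ RS S) :
    D1_QF S fun _ : Γ => c := ⟨fun _ => ⟨c, hc⟩, PF.const _, fun _ => rfl⟩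

theorem D1_add {S : Set ℕ} {Γ : Type} [Ctx (RS S) Γ] {F H : Γ → ℚ} (hF : D1_QF S F)
    (hH : D1_QF S H) : D1_QF S fun g => F g + H g := by
  obtain ⟨f, hf, e⟩ := hF
  obtain ⟨h, hh, e'⟩ := hH
  exact ⟨_, hf.add hh, fun g => by simp [e, e']⟩

theorem D1_sub {S : Set ℕ} {Γ : Type} [Ctx (RS S) Γ] {F H : Γ → ℚ} (hF : D1_QF S F)
    (hH : D1_QF S H) : D1_QF S fun g => F g - H g := by
  obtain ⟨f, hf, e⟩ := hF
  obtain ⟨h, hh, e'⟩ := hH
  exact ⟨_, hf.sub hh, fun g => by simp [e, e']⟩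

theorem D1_mul {S : Set ℕ} {Γ : Type} [Ctx (RS S) Γ] {F H : Γ → ℚ} (hF : D1_QF S F)
    (hH : D1_QF S H) : D1_QF S fun g => F g * H g := by
  obtain ⟨f, hf, e⟩ := hF
  obtain ⟨h, hh, e'⟩ := hH
  exact ⟨_, hf.mul hh, fun g => by simp [e, e']⟩

theorem D1_neg {S : Set ℕ} {Γ : Type} [Ctx (RS S) Γ] {F : Γ → ℚ} (hF : D1_QF S F) :
    D1_QF S fun g => -F g := by
  obtain ⟨f, hf, e⟩ := hF
  exact ⟨_, (PF.const 0).sub hf, fun g => by simp [e]⟩

theorem D1_pow {S : Set ℕ} {Γ : Type} [Ctx (RS S) Γ] {F : Γ → ℚ} {n : ℕ} (hF : D1_QF S F) :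
    D1_QF S fun g => F g ^ n := by
  obtain ⟨f, hf, e⟩ := hF
  exact ⟨_, hf.pow n, fun g => by simp [e]⟩

theorem D1_two {S : Set ℕ} {Γ : Type} [Ctx (RS S) Γ] {F H : Γ → ℚ} (P : ℚ → ℚ → Prop)
    (hP : Dio (RS S) fun z : RS S × RS S => P z.1 z.2) (hF : D1_QF S F) (hH : D1_QF S H) :
    Dio (RS S) fun g => P (F g) (H g) := by
  obtain ⟨f, hf, e⟩ := hF
  obtain ⟨h, hh, e'⟩ := hH
  exact (hP.comp (hf.mk hh)).congr fun g => by rw [e, e']

theorem D1_ex {S : Set ℕ} {Γ : Type} [Ctx (RS S) Γ] {P : Γ → ℚ → Prop}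
    (h : Dio (RS S) fun x : Γ × RS S => P x.1 x.2) : Dio (RS S) fun g => ∃ c ∈ RS S, P g c :=
  (Dio.ex (S := fun g (c : RS S) => P g c) h).congr fun _ =>
    ⟨fun ⟨c, hc, h⟩ => ⟨⟨c, hc⟩, h⟩, fun ⟨c, h⟩ => ⟨c, c.2, h⟩⟩

theorem D1_eq {S : Set ℕ} {Γ : Type} [Ctx (RS S) Γ] {F H : Γ → ℚ} (hF : D1_QF S F)
    (hH : D1_QF S H) : Dio (RS S) fun g => F g = H g :=
  D1_two (fun a b => a = b) ((Dio.eq PF.fst PF.snd).congr fun _ => Subtype.ext_iff.symm) hF hH

theorem D1_le {S : Set ℕ} {Γ : Type} [Ctx (RS S) Γ] {F H : Γ → ℚ} (hF : D1_QF S F)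
    (hH : D1_QF S H) : Dio (RS S) fun g => F g ≤ H g :=
  D1_two (fun a b => a ≤ b) (dio_le S) hF hH

theorem D1_ne {S : Set ℕ} (hS : Dio (RS S) fun z : RS S => z ≠ 0) {Γ : Type} [Ctx (RS S) Γ] {F : Γ → ℚ}
    (hF : D1_QF S F) : Dio (RS S) fun g => F g ≠ 0 :=
  D1_two (fun a _ => a ≠ 0) ((hS.comp PF.fst).congr fun _ => by simp) hF hF

theorem D1_un {S : Set ℕ} {Γ : Type} [Ctx (RS S) Γ] {F : Γ → ℚ} (hF : D1_QF S F) :
    Dio (RS S) fun g => Un S (F g) :=
  D1_two (fun a _ => Un S a) (D1_ex (D1_eq (D1_mul (D1_coe (by fun_prop)) (D1_coe (by fun_prop)))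
    (D1_const (one_mem _)))) hF hF

theorem D1_dv {S : Set ℕ} {Γ : Type} [Ctx (RS S) Γ] {F H : Γ → ℚ} (hF : D1_QF S F)
    (hH : D1_QF S H) : Dio (RS S) fun g => Dv S (F g) (H g) :=
  D1_two (Dv S) (D1_ex (D1_eq (D1_coe (by fun_prop))
    (D1_mul (D1_coe (by fun_prop)) (D1_coe (by fun_prop))))) hF hH

theorem D2_nonneg : Dio ℤ fun x : ℤ => 0 ≤ x := by
  have h : Dio ℤ fun x : ℤ => ∃ z : Fin 4 → ℤ, x = z 0 ^ 2 + z 1 ^ 2 + z 2 ^ 2 + z 3 ^ 2 :=
    .ex (.eq (by fun_prop) (by fun_prop))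
  refine h.congr fun x => ⟨fun hx => ?_, ?_⟩
  · obtain ⟨a, b, c, d, h4⟩ := Nat.sum_four_squares x.toNat
    refine ⟨![a, b, c, d], ?_⟩
    rw [← Int.toNat_of_nonneg hx, ← h4]
    simp
  · rintro ⟨z, rfl⟩
    positivity

theorem D2_poly {γ : Type} {f : (γ → ℕ) → ℤ} (hf : IsPoly f) :
    ∃ (s : Finset γ) (F : (s → ℤ) → ℤ), PF ℤ F ∧ ∀ x, f x = F fun i => x i := by
  classical
  induction hf with
  | proj i =>
    exact ⟨{i}, fun z => z ⟨i, Finset.mem_singleton_self i⟩, by fun_prop, fun _ => rfl⟩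
  | const n => exact ⟨∅, fun _ => n, by fun_prop, fun _ => rfl⟩
  | sub _ _ h1 h2 =>
    obtain ⟨s, F, a1, b1⟩ := h1
    obtain ⟨t, G, a2, b2⟩ := h2
    exact ⟨s ∪ t, fun z => F (fun i => z ⟨i, Finset.mem_union_left _ i.2⟩) -
      G (fun i => z ⟨i, Finset.mem_union_right _ i.2⟩),
      (a1.comp (by fun_prop)).sub (a2.comp (by fun_prop)),
      fun x => congrArg₂ (· - ·) (b1 x) (b2 x)⟩
  | mul _ _ h1 h2 =>
    obtain ⟨s, F, a1, b1⟩ := h1
    obtain ⟨t, G, a2, b2⟩ := h2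
    exact ⟨s ∪ t, fun z => F (fun i => z ⟨i, Finset.mem_union_left _ i.2⟩) *
      G (fun i => z ⟨i, Finset.mem_union_right _ i.2⟩),
      (a1.comp (by fun_prop)).mul (a2.comp (by fun_prop)),
      fun x => congrArg₂ (· * ·) (b1 x) (b2 x)⟩

theorem D2_conv {α : Type} [Finite α] {S : Set (α → ℕ)} (h : Dioph S) :
    Dio ℤ fun v : α → ℤ => (∀ a, 0 ≤ v a) ∧ (fun a => (v a).toNat) ∈ S := by
  classical
  obtain ⟨β, p, hp⟩ := h
  obtain ⟨s, F, hF, hpF⟩ := D2_poly p.isPoly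
  have h2 : Dio ℤ fun v : α → ℤ => (∀ a, 0 ≤ v a) ∧ ∃ z : s → ℤ, (∀ i, 0 ≤ z i) ∧
      (∀ q : {q : s × α // (q.1 : α ⊕ β) = Sum.inl q.2}, z q.1.1 = v q.1.2) ∧ F z = 0 :=
    .and (.all fun a => D2_nonneg.comp (by fun_prop)) (.ex (.and
      (.all fun i => D2_nonneg.comp (by fun_prop)) (.and
      (.all fun q => .eq (by fun_prop) (by fun_prop)) (.eq (hF.comp (by fun_prop)) (by fun_prop)))))
  refine h2.congr fun v => and_congr_right fun hv => (hp _).trans ⟨?_, ?_⟩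
  · rintro ⟨t, ht⟩
    refine ⟨fun i => (Sum.elim (fun a => (v a).toNat) t i : ℕ), fun i => Int.natCast_nonneg _,
      ?_, (hpF _).symm.trans ht⟩
    rintro ⟨⟨i, a⟩, hq⟩
    have hq' : (i : α ⊕ β) = Sum.inl a := hq
    show ((Sum.elim (fun a => (v a).toNat) t i : ℕ) : ℤ) = v a
    rw [hq', Sum.elim_inl, Int.toNat_of_nonneg (hv a)]
  · rintro ⟨z, h0, h1, h2⟩
    refine ⟨fun b => if hb : Sum.inr b ∈ s then (z ⟨_, hb⟩).toNat else 0, ?_⟩
    refine (hpF _).trans ((congrArg F (funext ?_)).trans h2)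
    rintro ⟨a | b, hi⟩
    · have := h1 ⟨(⟨Sum.inl a, hi⟩, a), rfl⟩
      show (((v a).toNat : ℕ) : ℤ) = _
      rw [Int.toNat_of_nonneg (hv a)]
      exact this.symm
    · show (((if hb : Sum.inr b ∈ s then (z ⟨_, hb⟩).toNat else 0 : ℕ)) : ℤ) = _
      rw [dif_pos hi, Int.toNat_of_nonneg (h0 _)]

theorem D3_pol {S : Set ℕ} {Γ : Type} [Ctx (RS S) Γ] {f : Γ → RS S} (hf : Pol f) :
    ∃ (N : ℤ) (F : MvPolynomial (Ctx.ι (RS S) Γ) ℤ), N ≠ 0 ∧
      ∀ g, MvPolynomial.aeval (fun j => (cd (RS S) g j : ℚ)) F = N * (f g : ℚ) := by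
  induction hf with
  | const c =>
    exact ⟨(c : ℚ).den, .C (c : ℚ).num, Int.natCast_ne_zero.2 (c : ℚ).den_nz, fun _ => by simp⟩
  | var j => exact ⟨1, .X j, one_ne_zero, fun _ => by simp⟩
  | add _ _ h1 h2 =>
    obtain ⟨N1, F1, a1, b1⟩ := h1
    obtain ⟨N2, F2, a2, b2⟩ := h2
    refine ⟨N1 * N2, .C N2 * F1 + .C N1 * F2, mul_ne_zero a1 a2, fun g => ?_⟩
    simp only [map_add, map_mul, b1, b2, eq_intCast, map_intCast]
    push_cast
    ring
  | mul _ _ h1 h2 =>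
    obtain ⟨N1, F1, a1, b1⟩ := h1
    obtain ⟨N2, F2, a2, b2⟩ := h2
    refine ⟨N1 * N2, F1 * F2, mul_ne_zero a1 a2, fun g => ?_⟩
    simp only [map_mul, b1, b2]
    push_cast
    ring

theorem dio_out {S : Set ℕ} {P : (Fin 2 → RS S) → Prop} (h : Dio (RS S) P) :
    ∃ (n : ℕ) (f : MvPolynomial (Fin 2 ⊕ Fin n) ℤ), ∀ v : Fin 2 → RS S,
      (∃ z : Fin n → ℚ, (∀ i, z i ∈ RS S) ∧
        MvPolynomial.aeval (Sum.elim (fun i => (v i : ℚ)) z) f = 0) ↔ P v := by
  obtain ⟨Δ, _, κ, _, p, hp, hS⟩ := h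
  have := Fintype.ofFinite κ
  choose N F hN hF using fun k => D3_pol (pf_iff.1 (hp k))
  obtain ⟨n, ⟨e⟩⟩ := Finite.exists_equiv_fin (Ctx.ι (RS S) Δ)
  let r : Ctx.ι (RS S) ((Fin 2 → RS S) × Δ) → Fin 2 ⊕ Fin n := Sum.map Prod.fst e
  have key : ∀ (v : Fin 2 → RS S) (d : Δ), MvPolynomial.aeval
      (Sum.elim (fun i => (v i : ℚ)) fun i => (cd (RS S) d (e.symm i) : ℚ))
        (MvPolynomial.rename r (∑ k, F k ^ 2)) = 0 ↔ ∀ k, p k (v, d) = 0 := fun v d => by
    have e1 : (Sum.elim (fun i => (v i : ℚ)) fun i => (cd (RS S) d (e.symm i) : ℚ)) ∘ r =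
        fun j => (cd (RS S) (v, d) j : ℚ) := by
      funext j
      rcases j with ⟨s, ⟨⟩⟩ | j
      · rfl
      · exact congrArg (fun i => (cd (RS S) d i : ℚ)) (e.symm_apply_apply j)
    rw [MvPolynomial.aeval_rename, e1, map_sum,
      sum_eq_zero_iff_of_nonneg fun k _ => by rw [map_pow]; exact sq_nonneg _]
    simp only [mem_univ, map_pow, hF, ne_eq, OfNat.ofNat_ne_zero, not_false_eq_true, pow_eq_zero_iff, mul_eq_zero, Int.cast_eq_zero, hN, ZeroMemClass.coe_eq_zero, false_or, forall_const]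
  refine ⟨n, MvPolynomial.rename r (∑ k, F k ^ 2), fun v => ?_⟩
  rw [hS]
  constructor
  · rintro ⟨z, h1, h2⟩
    refine ⟨(cd (RS S)).symm fun j => ⟨z (e j), h1 _⟩, (key _ _).1 ?_⟩
    simpa only [Equiv.apply_symm_apply, map_sum, map_pow] using h2
  · rintro ⟨d, hd⟩
    exact ⟨_, fun i => (cd (RS S) d (e.symm i)).2, (key v d).2 hd⟩

end Pool.Agent.MP_a59382_lc.V3

end

-- part MP_a59382_lc.V3.Ring
section

/-! The ring of integers of a number field with the primes of `S` inverted, in coordinates. -/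

set_option autoImplicit false

namespace Pool.Agent.MP_a59382_lc.V3

open Finset NumberField H18

/-- nonzero natural numbers with all prime factors in `S` -/
def Sm (S : Set ℕ) (N : ℕ) : Prop := N ≠ 0 ∧ ∀ p : ℕ, p.Prime → p ∣ N → p ∈ S

theorem Sm.one (S : Set ℕ) : Sm S 1 :=
  ⟨one_ne_zero, fun _ hp h => absurd (Nat.dvd_one.1 h) hp.one_lt.ne'⟩

theorem Sm.mul {S : Set ℕ} {M N : ℕ} (hM : Sm S M) (hN : Sm S N) : Sm S (M * N) :=
  ⟨mul_ne_zero hM.1 hN.1, fun p hp h =>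
    ((Nat.Prime.dvd_mul hp).1 h).elim (hM.2 p hp) (hN.2 p hp)⟩

theorem Sm.den {S : Set ℕ} {q : ℚ} (h : q ∈ RS S) : Sm S q.den := ⟨q.den_nz, h⟩

theorem Sm.div_mem {S : Set ℕ} {N : ℕ} (hN : Sm S N) (a : ℤ) : (a : ℚ) / N ∈ RS S :=
  fun p hp h => hN.2 p hp (by
    have := Rat.den_dvd a N
    rw [Rat.divInt_eq_div, Int.cast_natCast] at this
    exact h.trans (Int.natCast_dvd_natCast.1 this))

/-- the elements of `K` that become integral after multiplication by a product of primes of `S` -/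
def AS (S : Set ℕ) (K : Type) [Field K] : Subring K where
  carrier := {x | ∃ N : ℕ, Sm S N ∧ IsIntegral ℤ ((N : K) * x)}
  mul_mem' := by
    rintro x y ⟨M, hM, hx⟩ ⟨N, hN, hy⟩
    refine ⟨M * N, hM.mul hN, ?_⟩
    rw [Nat.cast_mul, mul_mul_mul_comm]
    exact hx.mul hy
  one_mem' := ⟨1, .one S, by simpa using isIntegral_one⟩
  add_mem' := by
    rintro x y ⟨M, hM, hx⟩ ⟨N, hN, hy⟩
    refine ⟨M * N, hM.mul hN, ?_⟩
    rw [show ((M * N : ℕ) : K) * (x + y) = N * (M * x) + M * (N * y) by push_cast; ring]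
    exact ((isIntegral_natCast N).mul hx).add ((isIntegral_natCast M).mul hy)
  zero_mem' := ⟨1, .one S, by simpa using isIntegral_zero⟩
  neg_mem' := by
    rintro x ⟨M, hM, hx⟩
    exact ⟨M, hM, by simpa only [mul_neg, IsIntegral.neg_iff] using hx.neg⟩

variable {S : Set ℕ} {K : Type} [Field K]

theorem mem_AS {x : K} : x ∈ AS S K ↔ ∃ N : ℕ, Sm S N ∧ IsIntegral ℤ ((N : K) * x) := Iff.rfl

theorem AS.of_int {x : K} (h : IsIntegral ℤ x) : x ∈ AS S K := ⟨1, .one S, by simpa using h⟩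

theorem AS.coe (x : 𝓞 K) : (x : K) ∈ AS S K := AS.of_int x.isIntegral_coe

theorem AS.mono {T : Set ℕ} (h : S ⊆ T) {x : K} (hx : x ∈ AS S K) : x ∈ AS T K := by
  obtain ⟨N, hN, hx⟩ := hx
  exact ⟨N, ⟨hN.1, fun p hp e => h (hN.2 p hp e)⟩, hx⟩

theorem AS.map {L F : Type} [Field L] [FunLike F K L] [RingHomClass F K L] (σ : F) {x : K}
    (h : x ∈ AS S K) : σ x ∈ AS S L := by
  obtain ⟨N, hN, hx⟩ := h
  exact ⟨N, hN, by simpa only [RingHom.toIntAlgHom_coe, RingHom.coe_coe, map_mul, map_natCast] using hx.map (σ : K →+* L).toIntAlgHom⟩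

variable [NumberField K]

theorem AS.rat {q : ℚ} : (q : K) ∈ AS S K ↔ q ∈ RS S := by
  constructor
  · rintro ⟨N, hN, h⟩
    have h1 : IsIntegral ℤ ((N : ℚ) * q) := by
      rw [← isIntegral_algebraMap_iff (algebraMap ℚ K).injective]
      simpa using h
    obtain ⟨a, ha⟩ := IsIntegrallyClosed.isIntegral_iff.1 h1
    have h2 : (N : ℚ) ≠ 0 := Nat.cast_ne_zero.2 hN.1
    rw [show q = (a : ℚ) / N by rw [eq_div_iff h2, mul_comm, ← ha]; simp]
    exact hN.div_mem a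
  · intro h
    refine ⟨q.den, .den h, ?_⟩
    have : ((q.den : ℕ) : K) * q = (q.num : ℤ) := by
      rw [mul_comm]
      exact_mod_cast congrArg (Rat.cast : ℚ → K) (Rat.mul_den_eq_num q)
    rw [this]
    exact isIntegral_intCast _

/-- every element of the field is an element of the ring divided by a positive integer -/
theorem AS.frac (S : Set ℕ) (x : K) : ∃ D : ℕ, D ≠ 0 ∧ (D : K) * x ∈ AS S K := by
  obtain ⟨D, h0, h⟩ := exists_integral_multiples ℤ ℚ ({x} : Finset K)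
  refine ⟨D.natAbs, Int.natAbs_ne_zero.2 h0, AS.of_int ?_⟩
  have h1 := h x (mem_singleton_self x)
  rw [zsmul_eq_mul] at h1
  rw [← Int.cast_natCast]
  rcases Int.natAbs_eq_iff.1 (rfl : D.natAbs = D.natAbs) with e | e
  · rwa [← e]
  · rw [e, Int.natAbs_neg, Int.natAbs_natCast]
    rw [e] at h1
    simpa using h1.neg

variable (K) in
/-- the index set of the integral basis -/
abbrev Ix : Type := Module.Free.ChooseBasisIndex ℤ (𝓞 K)

/-- the coordinates in the integral basis -/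
noncomputable def co (x : K) (i : Ix K) : ℚ := (integralBasis K).repr x i

theorem co_sum (x : K) : ∑ i, (co x i : K) * integralBasis K i = x := by
  simpa only [co, integralBasis_apply, Algebra.smul_def, eq_ratCast] using (integralBasis K).sum_repr x

theorem co_add (x y : K) (i : Ix K) : co (x + y) i = co x i + co y i := by simp [co]

theorem co_sub (x y : K) (i : Ix K) : co (x - y) i = co x i - co y i := by simp [co]

theorem co_rat (q : ℚ) (x : K) (i : Ix K) : co ((q : K) * x) i = q * co x i := by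
  rw [← Rat.smul_def]
  simp [co]

theorem co_ext {x y : K} (h : ∀ i, co x i = co y i) : x = y :=
  (integralBasis K).ext_elem h

theorem co_lin (L : K →ₗ[ℚ] K) (x : K) (i : Ix K) :
    co (L x) i = ∑ j, co x j * co (L (integralBasis K j)) i := by
  conv_lhs => rw [← (integralBasis K).sum_repr x]
  simp only [map_sum, map_smul, co, Finsupp.coe_finsetSum, Finset.sum_apply, Finsupp.smul_apply,
    smul_eq_mul]

theorem basis_int (i : Ix K) : IsIntegral ℤ (integralBasis K i) := by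
  rw [integralBasis_apply]
  exact RingOfIntegers.isIntegral_coe _

theorem co_int {x : K} : IsIntegral ℤ x ↔ ∀ i, ∃ a : ℤ, co x i = a := by
  constructor
  · intro h i
    exact ⟨_, integralBasis_repr_apply K ⟨x, h⟩ i⟩
  · intro h
    choose a ha using h
    rw [← co_sum x]
    exact IsIntegral.sum _ fun i _ => by
      rw [ha, Rat.cast_intCast]
      exact (isIntegral_intCast _).mul (basis_int i)

theorem co_mem {x : K} : x ∈ AS S K ↔ ∀ i, co x i ∈ RS S := by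
  constructor
  · rintro ⟨N, hN, h⟩ i
    obtain ⟨a, ha⟩ := co_int.1 h i
    have h2 : (N : ℚ) ≠ 0 := Nat.cast_ne_zero.2 hN.1
    rw [← Rat.cast_natCast, co_rat] at ha
    rw [show co x i = (a : ℚ) / N by rw [eq_div_iff h2, mul_comm, ha]]
    exact hN.div_mem a
  · intro h
    rw [← co_sum x]
    exact sum_mem fun i _ => mul_mem (AS.rat.2 (h i)) (AS.of_int (basis_int i))

noncomputable instance ctxAS : Ctx (RS S) (AS S K) :=
  ⟨Ix K, inferInstance,
    { toFun := fun x i => ⟨co (x : K) i, co_mem.1 x.2 i⟩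
      invFun := fun v => ⟨∑ i, ((v i : ℚ) : K) * integralBasis K i,
        sum_mem fun i _ => mul_mem (AS.rat.2 (v i).2) (AS.of_int (basis_int i))⟩
      left_inv := fun x => Subtype.ext (co_sum _)
      right_inv := fun v => funext fun i => Subtype.ext (by
        simp only [← Rat.smul_def, co]
        exact congrFun ((integralBasis K).repr_sum_self fun j => (v j : ℚ)) i) }⟩

variable {Γ Δ : Type} [Ctx (RS S) Γ] [Ctx (RS S) Δ]

variable (S) in
/-- rational valued functions that come from polynomial maps over the ring -/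
@[fun_prop]
def QF (F : Γ → ℚ) : Prop := ∃ f : Γ → RS S, PF (RS S) f ∧ ∀ g, F g = f g

variable (S) in
/-- functions with values in `K` whose coordinates are polynomial maps over the ring -/
@[fun_prop]
def KF (F : Γ → K) : Prop := ∀ i, QF S fun g => co (F g) i

namespace QF

variable {F H : Γ → ℚ}

theorem mem (hF : QF S F) (g : Γ) : F g ∈ RS S := by
  obtain ⟨f, -, e⟩ := hF
  exact e g ▸ (f g).2

@[fun_prop] theorem coe {f : Γ → RS S} (hf : PF (RS S) f) : QF S fun g => (f g : ℚ) :=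
  ⟨f, hf, fun _ => rfl⟩

@[fun_prop] theorem const {c : ℚ} (hc : c ∈ RS S) : QF S fun _ : Γ => c :=
  ⟨fun _ => ⟨c, hc⟩, PF.const _, fun _ => rfl⟩

theorem comp {F : Δ → ℚ} (hF : QF S F) {h : Γ → Δ} (hh : PF (RS S) h) :
    QF S fun g => F (h g) := by
  obtain ⟨f, hf, e⟩ := hF
  exact ⟨_, hf.comp hh, fun g => e _⟩

@[fun_prop] theorem add (hF : QF S F) (hH : QF S H) : QF S fun g => F g + H g := by
  obtain ⟨f, hf, e⟩ := hF
  obtain ⟨h, hh, e'⟩ := hH
  exact ⟨_, hf.add hh, fun g => by simp [e, e']⟩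

@[fun_prop] theorem sub (hF : QF S F) (hH : QF S H) : QF S fun g => F g - H g := by
  obtain ⟨f, hf, e⟩ := hF
  obtain ⟨h, hh, e'⟩ := hH
  exact ⟨_, hf.sub hh, fun g => by simp [e, e']⟩

@[fun_prop] theorem mul (hF : QF S F) (hH : QF S H) : QF S fun g => F g * H g := by
  obtain ⟨f, hf, e⟩ := hF
  obtain ⟨h, hh, e'⟩ := hH
  exact ⟨_, hf.mul hh, fun g => by simp [e, e']⟩

@[fun_prop] theorem neg (hF : QF S F) : QF S fun g => -F g := by
  simpa using (const (zero_mem _)).sub hF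

@[fun_prop] theorem pow (hF : QF S F) (n : ℕ) : QF S fun g => F g ^ n := by
  obtain ⟨f, hf, e⟩ := hF
  exact ⟨_, hf.pow n, fun g => by simp [e]⟩

@[fun_prop] theorem sum {σ : Type} (s : Finset σ) {F : σ → Γ → ℚ} (hF : ∀ i, QF S (F i)) :
    QF S fun g => ∑ i ∈ s, F i g := by
  choose f hf e using hF
  exact ⟨_, PF.sum s hf, fun g => by simp [e]⟩

end QF

theorem pf_AS {f : Γ → AS S K} : PF (RS S) f ↔ KF S fun g => (f g : K) :=
  ⟨fun h i => ⟨_, pf_iff.2 (h i), fun _ => rfl⟩, fun h i => by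
    obtain ⟨f', hf, e⟩ := h i
    have : (fun g => cd (RS S) (f g) i) = f' := funext fun g => Subtype.ext (e g)
    exact this ▸ pf_iff.1 hf⟩

namespace KF

variable {F H : Γ → K}

theorem mem (hF : KF S F) (g : Γ) : F g ∈ AS S K := co_mem.2 fun i => (hF i).mem g

@[fun_prop] theorem co (hF : KF S F) (i : Ix K) : QF S fun g => co (F g) i := hF i

@[fun_prop] theorem coe {f : Γ → AS S K} (hf : PF (RS S) f) : KF S fun g => (f g : K) :=
  pf_AS.1 hf

@[fun_prop] theorem const {c : K} (hc : c ∈ AS S K) : KF S fun _ : Γ => c :=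
  fun i => .const (co_mem.1 hc i)

theorem comp {F : Δ → K} (hF : KF S F) {h : Γ → Δ} (hh : PF (RS S) h) :
    KF S fun g => F (h g) := fun i => (hF i).comp hh

@[fun_prop] theorem add (hF : KF S F) (hH : KF S H) : KF S fun g => F g + H g := fun i => by
  simpa only [co_add] using (hF i).add (hH i)

@[fun_prop] theorem sub (hF : KF S F) (hH : KF S H) : KF S fun g => F g - H g := fun i => by
  simpa only [co_sub] using (hF i).sub (hH i)

@[fun_prop] theorem neg (hF : KF S F) : KF S fun g => -F g := by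
  simpa using (const (zero_mem _)).sub hF

@[fun_prop] theorem sum {σ : Type} (s : Finset σ) {F : σ → Γ → K} (hF : ∀ i, KF S (F i)) :
    KF S fun g => ∑ i ∈ s, F i g := by
  classical
  induction s using Finset.induction_on with
  | empty => simpa using const (zero_mem _)
  | insert a s ha ih => simpa [sum_insert ha] using (hF a).add ih

theorem smul {F : Γ → ℚ} (hF : QF S F) (hH : KF S H) : KF S fun g => (F g : K) * H g :=
  fun i => by simpa only [co_rat] using hF.mul (hH i)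

@[fun_prop] theorem rat {F : Γ → ℚ} (hF : QF S F) : KF S fun g => (F g : K) := by
  simpa using smul hF (const (one_mem (AS S K)))

theorem lin (L : K →ₗ[ℚ] K) (hL : ∀ j, L (integralBasis K j) ∈ AS S K) (hF : KF S F) :
    KF S fun g => L (F g) := fun i => by
  simpa only [co_lin L (F _)] using QF.sum univ fun j => (hF j).mul (.const (co_mem.1 (hL j) i))

@[fun_prop] theorem mul (hF : KF S F) (hH : KF S H) : KF S fun g => F g * H g := by
  have : ∀ g, F g * H g = ∑ j, (V3.co (F g) j : K) *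
      LinearMap.mulLeft ℚ (integralBasis K j) (H g) := fun g => by
    simp only [LinearMap.mulLeft_apply, ← mul_assoc, ← sum_mul, co_sum]
  simp only [this]
  exact sum _ fun j => smul (hF j) (lin _ (fun k =>
    AS.of_int ((basis_int j).mul (basis_int k))) hH)

@[fun_prop] theorem pow (hF : KF S F) (n : ℕ) : KF S fun g => F g ^ n := by
  induction n with
  | zero => simpa using const (one_mem _)
  | succ n ih => simpa [pow_succ] using ih.mul hF

@[fun_prop] theorem prod {σ : Type} (s : Finset σ) {F : σ → Γ → K} (hF : ∀ i, KF S (F i)) :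
    KF S fun g => ∏ i ∈ s, F i g := by
  classical
  induction s using Finset.induction_on with
  | empty => simpa using const (one_mem _)
  | insert a s ha ih => simpa [prod_insert ha] using (hF a).mul ih

theorem hom {E : Type} [FunLike E K K] [RingHomClass E K K] (σ : E) (hF : KF S F) :
    KF S fun g => σ (F g) :=
  lin (σ : K →+* K).toRatAlgHom.toLinearMap (fun j => AS.map σ (AS.of_int (basis_int j))) hF

@[fun_prop] theorem aut (σ : K ≃ₐ[ℚ] K) (hF : KF S F) : KF S fun g => σ (F g) := hom σ hF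

@[fun_prop] theorem raut (σ : K ≃+* K) (hF : KF S F) : KF S fun g => σ (F g) := hom σ hF

end KF

section PF

variable {f h : Γ → AS S K}

@[fun_prop] theorem pf_add (hf : PF (RS S) f) (hh : PF (RS S) h) : PF (RS S) fun g => f g + h g :=
  pf_AS.2 ((pf_AS.1 hf).add (pf_AS.1 hh))

@[fun_prop] theorem pf_sub (hf : PF (RS S) f) (hh : PF (RS S) h) : PF (RS S) fun g => f g - h g :=
  pf_AS.2 ((pf_AS.1 hf).sub (pf_AS.1 hh))

@[fun_prop] theorem pf_mul (hf : PF (RS S) f) (hh : PF (RS S) h) : PF (RS S) fun g => f g * h g :=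
  pf_AS.2 ((pf_AS.1 hf).mul (pf_AS.1 hh))

@[fun_prop] theorem pf_neg (hf : PF (RS S) f) : PF (RS S) fun g => -f g :=
  pf_AS.2 (pf_AS.1 hf).neg

@[fun_prop] theorem pf_pow (hf : PF (RS S) f) (n : ℕ) : PF (RS S) fun g => f g ^ n :=
  pf_AS.2 ((pf_AS.1 hf).pow n)

end PF

/-- pull back a binary relation on the rationals -/
theorem dq_two (P : ℚ → ℚ → Prop) (hP : Dio (RS S) fun z : RS S × RS S => P z.1 z.2)
    {F H : Γ → ℚ} (hF : QF S F) (hH : QF S H) : Dio (RS S) fun g => P (F g) (H g) := by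
  obtain ⟨f, hf, e⟩ := hF
  obtain ⟨h, hh, e'⟩ := hH
  exact (hP.comp (hf.mk hh)).congr fun g => by rw [e, e']

/-- pull back a predicate on the rationals -/
theorem dq_one (P : ℚ → Prop) (hP : Dio (RS S) fun z : RS S => P z)
    {F : Γ → ℚ} (hF : QF S F) : Dio (RS S) fun g => P (F g) := by
  obtain ⟨f, hf, e⟩ := hF
  exact (hP.comp hf).congr fun g => by rw [e]

/-- pull back a predicate on the field -/
theorem dk_one (P : K → Prop) (hP : Dio (RS S) fun z : AS S K => P z)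
    {F : Γ → K} (hF : KF S F) : Dio (RS S) fun g => P (F g) :=
  hP.comp (f := fun g => ⟨F g, hF.mem g⟩) (pf_AS.2 hF)

/-- pull back a binary relation on the field -/
theorem dk_two (P : K → K → Prop) (hP : Dio (RS S) fun z : AS S K × AS S K => P z.1 z.2)
    {F H : Γ → K} (hF : KF S F) (hH : KF S H) : Dio (RS S) fun g => P (F g) (H g) :=
  hP.comp (f := fun g => (⟨F g, hF.mem g⟩, ⟨H g, hH.mem g⟩)) ((pf_AS.2 hF).mk (pf_AS.2 hH))

theorem dq_ex {P : Γ → ℚ → Prop} (h : Dio (RS S) fun x : Γ × RS S => P x.1 x.2) :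
    Dio (RS S) fun g => ∃ c ∈ RS S, P g c :=
  (Dio.ex (S := fun g (c : RS S) => P g c) h).congr fun _ =>
    ⟨fun ⟨c, hc, h⟩ => ⟨⟨c, hc⟩, h⟩, fun ⟨c, h⟩ => ⟨c, c.2, h⟩⟩

theorem dq_exs {σ : Type} [Finite σ] {P : Γ → (σ → ℚ) → Prop}
    (h : Dio (RS S) fun x : Γ × (σ → RS S) => P x.1 fun i => x.2 i) :
    Dio (RS S) fun g => ∃ c : σ → ℚ, (∀ i, c i ∈ RS S) ∧ P g c :=
  (Dio.ex (S := fun g (c : σ → RS S) => P g fun i => c i) h).congr fun _ =>
    ⟨fun ⟨c, hc, h⟩ => ⟨fun i => ⟨c i, hc i⟩, h⟩, fun ⟨c, h⟩ => ⟨_, fun i => (c i).2, h⟩⟩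

theorem dk_ex {P : Γ → K → Prop} (h : Dio (RS S) fun x : Γ × AS S K => P x.1 x.2) :
    Dio (RS S) fun g => ∃ c ∈ AS S K, P g c :=
  (Dio.ex (S := fun g (c : AS S K) => P g c) h).congr fun _ =>
    ⟨fun ⟨c, hc, h⟩ => ⟨⟨c, hc⟩, h⟩, fun ⟨c, h⟩ => ⟨c, c.2, h⟩⟩

theorem dq_eq {F H : Γ → ℚ} (hF : QF S F) (hH : QF S H) : Dio (RS S) fun g => F g = H g :=
  dq_two (fun a b => a = b) ((Dio.eq PF.fst PF.snd).congr fun _ => Subtype.ext_iff.symm) hF hH

theorem dk_eq {F H : Γ → K} (hF : KF S F) (hH : KF S H) : Dio (RS S) fun g => F g = H g :=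
  (Dio.all fun i => dq_eq (hF i) (hH i)).congr fun _ => ⟨fun h _ => by rw [h], co_ext⟩

theorem dq_ne (h0 : Dio (RS S) fun z : RS S => z ≠ 0) {F H : Γ → ℚ} (hF : QF S F)
    (hH : QF S H) : Dio (RS S) fun g => F g ≠ H g :=
  (dq_one (fun a => a ≠ 0) (h0.congr fun _ => by simp) (hF.sub hH)).congr fun _ =>
    sub_ne_zero.symm

theorem dk_ne (h0 : Dio (RS S) fun z : RS S => z ≠ 0) {F H : Γ → K} (hF : KF S F)
    (hH : KF S H) : Dio (RS S) fun g => F g ≠ H g :=
  (Dio.any fun i => dq_ne h0 (hF i) (hH i)).congr fun _ =>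
    ⟨fun h => not_forall.1 (mt co_ext h), fun ⟨_, h⟩ e => h (by rw [e])⟩

theorem dq_le {F H : Γ → ℚ} (hF : QF S F) (hH : QF S H) : Dio (RS S) fun g => F g ≤ H g :=
  dq_two (fun a b => a ≤ b) (dio_le S) hF hH

theorem dq_nm (h0 : Dio (RS S) fun z : RS S => z ≠ 0) {F H : Γ → ℚ} (hF : QF S F)
    (hH : QF S H) : Dio (RS S) fun g => Nm (F g) (H g) := dq_two Nm (dio_nm h0) hF hH

theorem dq_dv {F H : Γ → ℚ} (hF : QF S F) (hH : QF S H) :
    Dio (RS S) fun g => Dv S (F g) (H g) :=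
  dq_two (Dv S) (dq_ex (dq_eq (by fun_prop) (by fun_prop))) hF hH

theorem dq_un {F : Γ → ℚ} (hF : QF S F) : Dio (RS S) fun g => Un S (F g) :=
  dq_one (Un S) (dq_ex (dq_eq (by fun_prop) (.const (one_mem _)))) hF

variable (S) in
/-- divisibility in the ring -/
def DvA (a b : K) : Prop := ∃ z ∈ AS S K, b = a * z

theorem dk_dv {F H : Γ → K} (hF : KF S F) (hH : KF S H) :
    Dio (RS S) fun g => DvA S (F g) (H g) :=
  dk_two (DvA S) (dk_ex (dk_eq (by fun_prop) (by fun_prop))) hF hH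

/-- a variable that ranges over the whole field: numerator in the ring, denominator in `RS S` -/
theorem dk_exK (h0 : Dio (RS S) fun z : RS S => z ≠ 0) {P : Γ → K → Prop}
    {P' : Γ → K → ℚ → Prop} (e : ∀ g a (D : ℚ), D ≠ 0 → (P' g ((D : K) * a) D ↔ P g a))
    (h : Dio (RS S) fun x : (Γ × AS S K) × RS S => P' x.1.1 x.1.2 x.2) :
    Dio (RS S) fun g => ∃ c : K, P g c := by
  have : Dio (RS S) fun g => ∃ a ∈ AS S K, ∃ D ∈ RS S, D ≠ 0 ∧ P' g a D :=
    dk_ex (dq_ex (.and (dq_ne h0 (by fun_prop) (.const (zero_mem _))) h))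
  refine this.congr fun g => ⟨?_, ?_⟩
  · rintro ⟨c, hc⟩
    obtain ⟨D, h1, h2⟩ := AS.frac S c
    have h3 : (D : ℚ) ≠ 0 := Nat.cast_ne_zero.2 h1
    exact ⟨((D : ℚ) : K) * c, by simpa using h2, D, natCast_mem _ _, h3, (e g c D h3).2 hc⟩
  · rintro ⟨a, -, D, -, h1, h2⟩
    refine ⟨a / D, (e g _ D h1).1 ?_⟩
    rwa [mul_div_cancel₀ _ (Rat.cast_ne_zero.2 h1)]

end Pool.Agent.MP_a59382_lc.V3

end

-- part MP_a59382_lc.V3.PellDef
section

/-! The units of relative norm one in a totally real cyclic field: definitions. -/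

set_option autoImplicit false

namespace Pool.Agent.MP_a59382_lc.V3

open Finset NumberField H18

/-- odd primes that are not congruent to plus or minus one modulo `2 ^ m` -/
def Gd (m Q : ℕ) : Prop := Q.Prime ∧ Q ≠ 2 ∧ ¬ Q ≡ 1 [MOD 2 ^ m] ∧ ¬ 2 ^ m ∣ Q + 1

/-- a totally real cyclic field of degree `2 * 2 ^ e` with the data used below -/
structure Pell (m : ℕ) (K : Type) [Field K] [NumberField K] where
  e : ℕ
  σ : K ≃ₐ[ℚ] K
  η : K
  v0 : K
  φ : K →+* ℝ
  gal : IsGalois ℚ K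
  gen : ∀ g : K ≃ₐ[ℚ] K, ∃ i : ℕ, g = σ ^ i
  ord : σ ^ (2 * 2 ^ e) = 1
  η_int : IsIntegral ℤ η
  η_neg : (σ ^ 2 ^ e) η = -η
  η_two : ∃ (k : ℕ) (y : K), IsIntegral ℤ y ∧ η * y = 2 ^ k
  η_le : ∀ g : K ≃ₐ[ℚ] K, |φ (g η)| ≤ 2
  v_int : IsIntegral ℤ v0
  v_nm : v0 * (σ ^ 2 ^ e) v0 = -1
  F1 : ∀ Q, Gd m Q → ∃ N : ℕ, 2 ≤ N ∧ ∀ a : K, IsIntegral ℤ a →
    ∃ b : K, IsIntegral ℤ b ∧ (σ ^ 2 ^ e) a = a ^ N + Q * b
  F2 : ∀ q : ℕ, q.Prime → 2 ^ m ∣ q + 1 → ∀ a : K, IsIntegral ℤ a →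
    ∃ b : K, IsIntegral ℤ b ∧ a ^ q = a + q * b

variable {m : ℕ} {K : Type} [Field K] [NumberField K]

/-- the product of the conjugates -/
noncomputable def Nr (x : K) : K := ∏ g : K ≃ₐ[ℚ] K, g x

/-- the sum of the squares of the conjugates is at most `r ^ 2` -/
def Hs (S : Set ℕ) (x : K) (r : ℚ) : Prop :=
  ∃ c ∈ RS S, (c : K) = ∑ g : K ≃ₐ[ℚ] K, g x ^ 2 ∧ c ≤ r ^ 2

/-- the coordinates of `μ` and `ρ` generate the unit ideal -/
def Prim (S : Set ℕ) (μ : K) (ρ : ℚ) : Prop :=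
  ∃ c : Ix K → ℚ, (∀ i, c i ∈ RS S) ∧ ∃ d ∈ RS S, ∑ i, c i * co μ i + d * ρ = 1

namespace Pell

variable (P : Pell m K)

/-- the automorphism of order two -/
def τ : K ≃ₐ[ℚ] K := P.σ ^ 2 ^ P.e

/-- the relative trace -/
def X (v : K) : K := v + P.τ v

/-- the admissible size parameters -/
def RR (r : ℤ) : Prop :=
  ∃ v : K, IsIntegral ℤ v ∧ v * P.τ v = -1 ∧ (r : K) * Nr (P.X P.v0) = Nr (P.X v)

/-- the admissible size parameters, as a formula over the ring -/
def RA (S : Set ℕ) (r : ℚ) : Prop :=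
  ∃ v ∈ AS S K, v * P.τ v = -1 ∧ (r : K) * Nr (P.X P.v0) = Nr (P.X v)

/-- the height of `t` is bounded by a power of the logarithm of `r` -/
def Div (S : Set ℕ) (t r : ℚ) : Prop :=
  ∃ D ∈ RS S, ∃ ρ ∈ RS S, ∃ e ∈ AS S K, ∃ μ ∈ AS S K, ∃ x ∈ AS S K,
    (D : K) = Nr ((t : K) - P.η) ∧ Dv S D ρ ∧ e * P.τ e = 1 ∧ e = 1 + ρ * μ ∧ Prim S μ ρ ∧
    x * P.τ x = 1 ∧ DvA S ((ρ : K) ^ 2) (x - 1) ∧ x ^ 2 ≠ 1 ∧ Hs S e r ∧ Hs S x r

/-- `t` is the exponent of a unit -/
def Main (S : Set ℕ) {s : ℕ} (t r : ℚ) (w : Fin s → ℚ) : Prop :=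
  ∃ ρ ∈ RS S, ∃ v ∈ AS S K, ∃ μ ∈ AS S K, ∃ x ∈ AS S K,
    v * P.τ v = -1 ∧ v ^ 2 = 1 + ρ * μ ∧ Prim S μ ρ ∧ x * P.τ x = 1 ∧
    DvA S ((ρ : K) ^ 2) (x - 1 - ρ * (t * μ)) ∧ DvA S (P.X v) (x - 1) ∧ Hs S (v ^ 2) r ∧
    Hs S x r ∧ (∀ i, Dv S (w i) ρ) ∧
    ∀ i j, i ≠ j → ∃ a ∈ RS S, ∃ b ∈ RS S, a * w i + b * w j = 1

/-- the formula of the first half -/
def PH (S : Set ℕ) {s : ℕ} (t r : ℚ) (w : Fin s → ℚ) : Prop :=
  3 ≤ t ∧ P.RA S r ∧ P.Div S t r ∧ P.Main S t r w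

/-- `v` is positive and up to sign and squares a relative norm -/
def NV (S : Set ℕ) (v : ℚ) : Prop :=
  0 ≤ v ∧ v ≠ 0 ∧ ∃ D ∈ RS S, ∃ g ∈ AS S K, D ≠ 0 ∧
    ((v : K) * D ^ 2 = g * P.τ g ∨ (v : K) * D ^ 2 = -(g * P.τ g))

end Pell

end Pool.Agent.MP_a59382_lc.V3

end
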