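import Pool.Agent.MP_a59382_lc.V3.KDef
import Pool.Agent.MP_a59382_lc.Mg.V3_PellDef
import Pool.Agent.MP_48b1c3_nt.Mg.H91_RDef

attribute [-instance] RKHS.instFunLike instCharZeroOfIsSemireal MonTypeEquivalenceMon.monMonoid
  ContinuousSemilinearMapClass.toSemilinearMapClass littleWedderburn
  IsPurelyInseparable.instOfHasExponent NormedAlgebra.toAlgebra BialgHomClass.toAlgHomClass
  Algebra.WeaklyEtale.flat AddQuantale.instAddLeftMono
  instNonUnitalAlgHomClassOfNonUnitalAlgEquivClass Module.IsNoetherian.finite NormedSpace.toModule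
  CoalgHomClass.toSemilinearMapClass BialgHomClass.toMonoidHomClass RingHomClass.toLinearMapClassRat
  ContinuousMonoidHom.instCoeOutOfMonoidHomClassOfContinuousMapClass instCoeTCOfCoe
  NormedField.toField Algebra.Smooth.flat CompletePartialOrder.toPartialOrder
  ValuationRing.isLocalRing instCoeOutOfCoeFun Algebra.IsAlgebraic.isPurelyInseparable_of_isSepClosed
  Submodule.Quotient.addCommMonoid AddQuantale.instAddRightMono CommRing.Pic.instFreeOfSubsingleton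
  KleeneAlgebra.toIdemSemiring Group.IsPerfect.subsingleton_of_isMulCommutative
  CommMonTypeEquivalenceCommMon.commMonCommMonoid Module.Free.instFaithfulSMulOfNontrivial
  SemilinearIsometryClass.toSemilinearMapClass NonUnitalAlgHomClass.toNonUnitalRingHomClass
  IdemSemiring.toCanonicallyOrderedAdd RightPreLieAlgebra.toModule RCLike.charZero_rclike
  LeftPreLieAlgebra.toModule instCoeTOfCoeDep BooleanRing.toRing
  IsOrderedCancelAddMonoid.toIsCancelAdd Fintype.decidableForallFintype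
  NonUnitalAlgHomClass.instSemilinearMapClassOfNonUnitalAlgSemiHomClassToMonoidHomRingHom
  Module.instFiniteDimensionalOfIsReflexive SetLike.GradeZero.instSemiring
  MulCharClass.toMonoidHomClass TestFunctionClass.toDFunLike IsDedekindDomain.isPrincipalIdealRing
  instFiniteMaximalSpectrumOfIsFractionRing ContDiffMapSupportedInClass.toDFunLike
  MulDistribMulActionSemiHomClass.toMonoidHomClass instIsPrincipalIdealRingOfIsSemisimpleRing
  IsometryClass.instCoeOutIsometryEquiv Algebra.IsQuadraticExtension.toFree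
  LieRinehartAlgebra.toIsScalarTower NormedDivisionRing.toDivisionRing Bialgebra.toAlgebra
  Quantale.instMulRightMono instCoeHTCTOfCoeTailOfCoeHTC AlgHomClass.linearMapClass
  ContinuousAddMonoidHom.instCoeOutOfAddMonoidHomClassOfContinuousMapClass
  IsPrincipalIdealRing.of_isNoetherianRing_of_isBezout NeZero.of_gt'
  HomeomorphClass.instCoeOutHomeomorph GeneralizedCoheytingAlgebra.toLattice
  MulSemiringActionSemiHomClass.toDistribMulActionSemiHomClass LieAdmissibleRing.instLieRing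
  IdemSemiring.toMulLeftMono IsFormallyReal.instIsReduced
  CategoryTheory.Limits.Concrete.instUniqueToTypeTerminal FunLike.toDecidableEq
  AddGroupSeminormClass.toNonnegHomClass
  FunctionField.instFiniteDimensionalSubtypeMemIntermediateFieldOfIsAlgebraic
  OmegaCompletePartialOrder.toPartialOrder CentroidHomClass.toAddMonoidHomClass
  AddGroupConeClass.toAddSubmonoidClass Invertible.toNeZero NormedRing.toRing
  IsStrictOrderedRing.toCharZero NormedCommRing.toCommRing SetLike.GradeZero.instCommRing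
  GrpTypeEquivalenceGrp.grpGroup RingEquivClass.toNonUnitalRingHomClass
  GroupConeClass.toSubmonoidClass LieAdmissibleRing.toNonUnitalNonAssocRing

-- part MP_a59382_lc.V3.SFin
section

/-! Finiteness of square classes with bounded ramification and of the solutions on the torus. -/

set_option autoImplicit false

namespace Pool.Agent.MP_a59382_lc.V3

open Finset NumberField IsDedekindDomain

variable {k : Type} [Field k] [NumberField k]

theorem sf_mul (v : HeightOneSpectrum (𝓞 k)) {x y : k} (hx : x ≠ 0) (hy : y ≠ 0) :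
    ord v (x * y) = ord v x + ord v y := by
  rw [ord, map_mul, WithZero.log_mul (by simpa using hx) (by simpa using hy), neg_add, ord, ord]

theorem sf_sq (v : HeightOneSpectrum (𝓞 k)) {x w : k} (hx : x ≠ 0) (hw : w ≠ 0) :
    Even (ord v (x * w ^ 2)) ↔ Even (ord v x) := by
  rw [sq, sf_mul v hx (mul_ne_zero hw hw), sf_mul v hw hw, Int.even_add]
  simp only [Even.add_self, iff_true]

/-- `s` is contained in finitely many square classes -/
def Cov (s : Set k) : Prop := ∃ B : Finset k, ∀ y ∈ s, ∃ b ∈ B, ∃ w, y = b * w ^ 2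

omit [NumberField k] in
theorem sf_cov {s t : Set k} (ht : Cov t) (h0 : 0 ∉ s) {Ω : Type} [Finite Ω] (f : s → Ω)
    (h : ∀ y z : s, f y = f z → ∃ u ∈ t, ∃ w : k, (y : k) * z = u * w ^ 2) : Cov s := by
  classical
  obtain ⟨B, hB⟩ := ht
  have := Fintype.ofFinite (Set.range f)
  refine ⟨(B ×ˢ univ).image fun p : k × Set.range f => p.1 * p.2.2.choose, fun y hy => ?_⟩
  have m : f ⟨y, hy⟩ ∈ Set.range f := ⟨_, rfl⟩
  obtain ⟨u, hu, w, e⟩ := h _ _ m.choose_spec.symm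
  obtain ⟨b, hb, w', rfl⟩ := hB u hu
  have z0 : (m.choose : k) ≠ 0 := fun e => h0 (e ▸ m.choose.2)
  refine ⟨_, mem_image.2 ⟨(b, ⟨_, m⟩), mem_product.2 ⟨hb, mem_univ _⟩, rfl⟩,
    w' * w / m.choose, ?_⟩
  field_simp
  linear_combination e

theorem sf_unit : Cov (Set.range fun u : (𝓞 k)ˣ => ((u : 𝓞 k) : k)) := by
  refine sf_cov (t := {1}) ⟨{1}, fun y hy => ⟨1, mem_singleton_self 1, 1, by simpa using hy⟩⟩
    (fun ⟨u, hu⟩ => by simp at hu) (Ω := Units.torsion k × (Fin (Units.rank k) → ZMod 2))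
    (fun y => ((Units.exist_unique_eq_mul_prod k y.2.choose).choose.1,
      fun i => (Units.exist_unique_eq_mul_prod k y.2.choose).choose.2 i)) fun y z e => ?_
  have h1 := (Units.exist_unique_eq_mul_prod k y.2.choose).choose_spec.1
  have h2 := (Units.exist_unique_eq_mul_prod k z.2.choose).choose_spec.1
  obtain ⟨e1, e2⟩ := Prod.ext_iff.1 e
  generalize (Units.exist_unique_eq_mul_prod k y.2.choose).choose = a at h1 e1 e2
  generalize (Units.exist_unique_eq_mul_prod k z.2.choose).choose = b at h2 e1 e2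
  have h3 : ∀ i, ∃ c, a.2 i + b.2 i = c * 2 := fun i => by
    obtain ⟨c, hc⟩ := (ZMod.intCast_eq_intCast_iff_dvd_sub _ _ 2).1 (congrFun e2 i)
    exact ⟨a.2 i + c, by push_cast at hc; linear_combination hc⟩
  choose c hc using h3
  have h4 : y.2.choose * z.2.choose = (a.1 * ∏ i, Units.fundSystem k i ^ c i) ^ 2 := by
    have e3 : a.1 = b.1 := e1
    rw [h1, h2, ← e3, mul_mul_mul_comm, ← prod_mul_distrib, mul_pow, sq, ← prod_pow]
    simp only [← zpow_add, hc, zpow_mul, zpow_ofNat]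
  refine ⟨1, rfl, ((a.1 * ∏ i, Units.fundSystem k i ^ c i : (𝓞 k)ˣ) : 𝓞 k), ?_⟩
  rw [← y.2.choose_spec, ← z.2.choose_spec, one_mul]
  have h5 := congrArg (fun u : (𝓞 k)ˣ => algebraMap (𝓞 k) k u) h4
  simp only [Units.val_mul, Units.val_pow_eq_pow_val, map_mul, map_pow] at h5
  simpa only [Units.val_mul, map_mul] using h5

theorem sf_even : Cov {y : k | y ≠ 0 ∧ ∀ v, Even (ord v y)} := by
  have h1 : ∀ y : {y : k | y ≠ 0 ∧ ∀ v, Even (ord v y)}, ∃ (D : k) (a : 𝓞 k)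
      (I : nonZeroDivisors (Ideal (𝓞 k))), D ≠ 0 ∧ (a : k) = y * D ^ 2 ∧
        Ideal.span {a} = (I : Ideal (𝓞 k)) ^ 2 := by
    rintro ⟨y, y0, hy⟩
    obtain ⟨D, D0, N, hN, h⟩ := AS.frac ∅ y
    have h2 : (N : k) * D ≠ 0 := mul_ne_zero (Nat.cast_ne_zero.2 hN.1) (Nat.cast_ne_zero.2 D0)
    obtain ⟨a, ha⟩ : ∃ a : 𝓞 k, (a : k) = y * (N * D) ^ 2 :=
      ⟨⟨_, h.mul ((isIntegral_natCast N).mul (isIntegral_natCast D))⟩,
        show (N : k) * (D * y) * (N * D) = _ by ring⟩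
    have a0 : a ≠ 0 := fun e => mul_ne_zero y0 (pow_ne_zero 2 h2) (by rw [← ha, e]; rfl)
    have s0 : Ideal.span {a} ≠ 0 := by simpa only [Submodule.zero_eq_bot, ne_eq, Submodule.span_eq_bot, Set.mem_singleton_iff, forall_eq] using a0
    obtain ⟨J, hJ⟩ := Associates.is_pow_of_dvd_count (Associates.mk_ne_zero.2 s0) (k := 2)
      fun p hp => by
        obtain ⟨p, rfl⟩ := Associates.mk_surjective p
        have h3 := (Associates.irreducible_mk.1 hp).prime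
        have h4 := (sf_sq ⟨p, Ideal.isPrime_of_prime h3, h3.ne_zero⟩ y0 h2).2 (hy _)
        rw [← ha, ord, HeightOneSpectrum.valuation_of_algebraMap,
          HeightOneSpectrum.intValuation_if_neg _ a0, WithZero.log_exp, neg_neg,
          Int.even_coe_nat] at h4
        exact h4.two_dvd
    obtain ⟨J, rfl⟩ := Associates.mk_surjective J
    rw [← Associates.mk_pow, Associates.mk_eq_mk_iff_associated, associated_iff_eq] at hJ
    exact ⟨N * D, a, ⟨J, mem_nonZeroDivisors_of_ne_zero fun e => s0 (by simp only [hJ, e, Submodule.zero_eq_bot, ne_eq, OfNat.ofNat_ne_zero, not_false_eq_true, Submodule.bot_pow])⟩, h2, ha, hJ⟩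
  choose D a I D0 ha hI using h1
  refine sf_cov sf_unit (fun h => h.1 rfl) (fun y => ClassGroup.mk0 (I y)) fun y z e => ?_
  obtain ⟨p, q, p0, q0, e⟩ := ClassGroup.mk0_eq_mk0_iff.1 e
  have h2 := congrArg (· ^ 2) e
  simp only [mul_pow, ← hI, Ideal.span_singleton_pow, Ideal.span_singleton_mul_span_singleton,
    Ideal.span_singleton_eq_span_singleton] at h2
  obtain ⟨u, hu⟩ := h2.symm
  have h3 : (q : k) ^ 2 * a z * (u : 𝓞 k) = p ^ 2 * a y := by
    simpa only [map_mul, map_pow] using congrArg (algebraMap (𝓞 k) k) hu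
  have p1 : (p : k) ≠ 0 := by simpa using p0
  refine ⟨_, ⟨u, rfl⟩, q * D z * z / (p * D y), ?_⟩
  have := D0 y
  rw [ha, ha] at h3
  field_simp
  linear_combination -(z : k) * h3

theorem sf_sel {F : Finset ℕ} (hF : 0 ∉ F) : Cov {y : k | y ≠ 0 ∧ ∀ v : HeightOneSpectrum (𝓞 k),
    (∀ p ∈ F, (p : 𝓞 k) ∉ v.asIdeal) → Even (ord v y)} := by
  have h1 : {v : HeightOneSpectrum (𝓞 k) | ∃ p ∈ F, (p : 𝓞 k) ∈ v.asIdeal}.Finite := by
    refine (F.finite_toSet.biUnion fun p hp => Ideal.finite_factors (I := Ideal.span {(p : 𝓞 k)})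
      (by simpa only [Submodule.zero_eq_bot, ne_eq, Submodule.span_eq_bot, Set.mem_singleton_iff, forall_eq, Nat.cast_eq_zero, imp_false] using fun e : p = 0 => hF (e ▸ hp))).subset ?_
    rintro v ⟨p, hp, h⟩
    exact Set.mem_biUnion hp (Ideal.dvd_span_singleton.2 h)
  have := h1.to_subtype
  refine sf_cov sf_even (fun h => h.1 rfl)
    (Ω := {v : HeightOneSpectrum (𝓞 k) | ∃ p ∈ F, (p : 𝓞 k) ∈ v.asIdeal} → Prop)
    (fun y v => Even (ord v.1 (y : k))) fun y z e =>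
      ⟨y * z, ⟨mul_ne_zero y.2.1 z.2.1, fun v => ?_⟩, 1, by simp⟩
  rw [sf_mul v y.2.1 z.2.1, Int.even_add]
  by_cases h : ∃ p ∈ F, (p : 𝓞 k) ∈ v.asIdeal
  · exact iff_of_eq (congrFun e ⟨v, h⟩)
  · push Not at h
    exact iff_of_true (y.2.2 v h) (z.2.2 v h)

theorem s_sel {F : Finset ℕ} (hF : 0 ∉ F) : ∃ Y : Finset (𝓞 k), (∀ y ∈ Y, Adq F y) ∧
    ∀ y : k, (∀ v : HeightOneSpectrum (𝓞 k), (∀ p ∈ F, (p : 𝓞 k) ∉ v.asIdeal) → Even (ord v y)) →
      (∃ (w : k) (c : 𝓞 k), y * w ^ 2 = 1 + 8 * c) → ∃ y₀ ∈ Y, ∃ w : k, w ≠ 0 ∧ y = y₀ * w ^ 2 := by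
  classical
  obtain ⟨B, hB⟩ := sf_sel (k := k) hF
  have h1 : ∀ b : k, ∃ a : 𝓞 k, Adq F a ∧
      ((∃ (a : 𝓞 k) (w : k), Adq F a ∧ b = a * w ^ 2) → ∃ w : k, b = a * w ^ 2) := fun b => by
    by_cases h : ∃ (a : 𝓞 k) (w : k), Adq F a ∧ b = a * w ^ 2
    · obtain ⟨a, w, h1, h2⟩ := h
      exact ⟨a, h1, fun _ => ⟨w, h2⟩⟩
    · exact ⟨1, ⟨one_ne_zero, by simp, fun v _ => by simp only [ord, map_one, WithZero.log_one, neg_zero, Even.zero]⟩, fun h' => absurd h' h⟩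
  choose a ha ha' using h1
  refine ⟨B.image a, fun y hy => ?_, fun y hy ⟨w, c, e⟩ => ?_⟩
  · obtain ⟨b, -, rfl⟩ := mem_image.1 hy
    exact ha b
  have e' : ((1 + 8 * c : 𝓞 k) : k) = y * w ^ 2 := by
    rw [e]
    exact (map_add _ _ _).trans (by rw [map_one, map_mul, map_ofNat])
  have c1 : y * w ^ 2 ≠ 0 := fun e1 => by
    have h2 : ((-1 / 8 : ℚ) : k) = c := by
      push_cast
      linear_combination 1 / 8 * e - 1 / 8 * e1
    exact (AS.rat (S := ∅)).1 (h2 ▸ AS.coe c) 2 Nat.prime_two (by norm_num)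
  have y0 := left_ne_zero_of_mul c1
  have w0 : w ≠ 0 := fun e => c1 (by simp [e])
  obtain ⟨b, hb, z, rfl⟩ := hB y ⟨y0, hy⟩
  have z0 : z ≠ 0 := fun e => y0 (by simp [e])
  obtain ⟨t, ht⟩ := ha' b ⟨1 + 8 * c, 1 / (z * w), ⟨fun e1 => c1 (by rw [← e', e1]; rfl), by simp,
    fun v hv => e' ▸ (sf_sq v y0 w0).2 (hy v hv)⟩, by rw [e']; field_simp⟩
  refine ⟨a b, mem_image_of_mem _ hb, t * z, mul_ne_zero (fun e => y0 ?_) z0, ?_⟩
  · rw [ht, e]
    simp
  · rw [mul_pow, ← mul_assoc, ← ht]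

theorem sf_le {F : Finset ℕ} {v : AbsoluteValue k ℝ} (hv : IsFinitePlace v)
    (h : ∀ p ∈ F, v p = 1) {x : k} (hx : x ∈ AS F k) : v x ≤ 1 := by
  obtain ⟨N, hN, hx⟩ := hx
  have h1 : v ((N : ℚ) : k) = 1 := H26.abv_rat v (Nat.cast_ne_zero.2 hN.1) fun p hp e =>
    h p (hN.2 p hp (by_contra fun hd => e (by
      have := Fact.mk hp
      rw [padicValRat.of_nat, padicValNat.eq_zero_of_not_dvd hd, Nat.cast_zero])))
  obtain ⟨w, rfl⟩ := hv
  have h2 : place (FinitePlace.embedding w) (N * x) ≤ 1 := FinitePlace.norm_le_one k w ⟨_, hx⟩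
  rwa [map_mul, ← Rat.cast_natCast, h1, one_mul] at h2

theorem sf_fin' {L : Type} [Field L] [NumberField L] {F : Finset ℕ} (hF : 0 ∉ F) :
    {x : L | x ≠ 0 ∧ x ∈ AS F L ∧ x⁻¹ ∈ AS F L ∧ ∃ w : L, x + 1 = w ^ 2}.Finite := by
  have n0 : ((2 * ∏ p ∈ F, p : ℕ) : L) ≠ 0 := Nat.cast_ne_zero.2
    (mul_ne_zero two_ne_zero (prod_ne_zero_iff.2 fun p hp e => hF (e ▸ hp)))
  have hf := Height.AdmissibleAbsValues.hasFiniteMulSupport n0
  refine ((H26.unit_finite (NumberField.finite_setOfPred_logHeight₁_le _) hf.toFinset).image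
    fun u => -4 * (u * (1 - u))).subset ?_
  rintro x ⟨x0, h1, h2, w, h3⟩
  have h4 : -4 * ((1 + w) / 2 * (1 - (1 + w) / 2)) = x := by linear_combination -h3
  generalize (1 + w) / 2 = u at h4
  refine ⟨u, ⟨fun e => x0 (by rw [← h4, e]; simp), fun e => x0 (by rw [← h4, e]; simp),
    fun v hv => ?_⟩, h4⟩
  have hv' := Height.AdmissibleAbsValues.isNonarchimedean v.val v.2
  have h5 : v.val ((2 * ∏ p ∈ F, p : ℕ) : L) = 1 := by simpa only [Nat.cast_mul, Nat.cast_ofNat, Nat.cast_prod, AbsoluteValue.map_mul, map_prod, Set.Finite.mem_toFinset, Function.mem_mulSupport, ne_eq, Decidable.not_not] using hv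
  have h6 : ∀ p : ℕ, p ∣ 2 * ∏ p ∈ F, p → v.val p = 1 := by
    rintro p ⟨m, hm⟩
    rw [hm, Nat.cast_mul, map_mul] at h5
    have a1 : v.val p ≤ 1 := hv'.apply_natCast_le_one
    have a2 : v.val m ≤ 1 := hv'.apply_natCast_le_one
    nlinarith only [v.val.nonneg p, h5, a1, a2]
  have h7 : v.val u * v.val (1 - u) = 1 := by
    have a0 : ∀ p ∈ F, v.val p = 1 := fun p hp => h6 p ((dvd_prod_of_mem _ hp).mul_left _)
    have a1 : v.val x = 1 := le_antisymm (sf_le v.2 a0 h1)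
      ((inv_le_one₀ (v.val.pos x0)).1 (map_inv₀ v.val x ▸ sf_le v.2 a0 h2))
    have a2 : v.val 2 = 1 := by simpa using h6 2 (dvd_mul_right _ _)
    rwa [← h4, map_mul, map_mul, show (-4 : L) = -(2 * 2) by norm_num, v.val.map_neg, map_mul,
      a2, one_mul, one_mul] at a1
  have k : ∀ a b : L, a + b = 1 → v.val a * v.val b = 1 → v.val a ≤ 1 := fun a b e1 e2 => by
    by_contra hlt
    have a1 := hv' 1 (-b)
    rw [← e1, add_neg_cancel_right, e1, map_one, v.val.map_neg, le_max_iff] at a1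
    rcases a1 with a1 | a1
    · exact hlt a1
    · nlinarith only [e2, hlt, a1]
  have a1 := k u (1 - u) (by ring) h7
  have a2 := k (1 - u) u (by ring) (by rw [mul_comm, h7])
  constructor <;> nlinarith only [v.val.nonneg u, v.val.nonneg (1 - u), h7, a1, a2]

open IntermediateField in
theorem sf_fin {F : Finset ℕ} (hF : 0 ∉ F) (δ : k) : {x : k | x ≠ 0 ∧ x ∈ AS F k ∧
    x⁻¹ ∈ AS F k ∧ ∃ w : k, x + 1 = δ * w ^ 2}.Finite := by
  obtain ⟨η, hη⟩ := IsAlgClosed.exists_pow_nat_eq (algebraMap k (AlgebraicClosure k) δ) two_pos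
  have : FiniteDimensional k k⟮η⟯ :=
    adjoin.finiteDimensional (IsIntegral.of_pow two_pos (hη ▸ isIntegral_algebraMap))
  have : NumberField k⟮η⟯ := NumberField.of_module_finite k _
  obtain ⟨θ, hθ⟩ : ∃ θ : k⟮η⟯, θ ^ 2 = algebraMap k _ δ :=
    ⟨⟨η, mem_adjoin_simple_self k η⟩, Subtype.ext (by simpa using hη)⟩
  refine ((sf_fin' (L := k⟮η⟯) hF).preimage (algebraMap k k⟮η⟯).injective.injOn).subset ?_
  rintro x ⟨x0, h1, h2, w, h3⟩
  refine ⟨by simpa using x0, AS.map _ h1, map_inv₀ (algebraMap k k⟮η⟯) x ▸ AS.map _ h2,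
    θ * algebraMap k _ w, ?_⟩
  rw [mul_pow, hθ, ← map_pow, ← map_mul, ← h3, map_add, map_one]

/-- finitely many units of the ring have `x + 1` of even order off a finite set -/
theorem s_sol {A F : Finset ℕ} (hA : 0 ∉ A) (hF : 0 ∉ F) : {x : k | x ≠ 0 ∧ x ∈ AS F k ∧
    x⁻¹ ∈ AS F k ∧ ∀ v : HeightOneSpectrum (𝓞 k),
      (∀ p ∈ A, (p : 𝓞 k) ∉ v.asIdeal) → Even (ord v (x + 1))}.Finite := by
  obtain ⟨B, hB⟩ := sf_sel (k := k) hA
  refine ((B.finite_toSet.biUnion fun δ _ => sf_fin hF δ).insert (-1)).subset ?_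
  rintro x ⟨x0, h1, h2, h3⟩
  rcases eq_or_ne (x + 1) 0 with e | e
  · exact .inl (eq_neg_of_add_eq_zero_left e)
  · obtain ⟨b, hb, w, e'⟩ := hB _ ⟨e, h3⟩
    exact .inr (Set.mem_biUnion hb ⟨x0, h1, h2, w, e'⟩)

end Pool.Agent.MP_a59382_lc.V3

end

-- part MP_a59382_lc.V3.PellA
section

/-! Congruences, norms and primes that are inert in the top quadratic step. -/

set_option autoImplicit false
set_option linter.unusedSectionVars false

namespace Pool.Agent.MP_a59382_lc.V3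

open Finset NumberField H18

variable {m : ℕ} {K : Type} [Field K] [NumberField K] {S : Set ℕ}

theorem AS.empty {x : K} : x ∈ AS ∅ K ↔ IsIntegral ℤ x := by
  refine ⟨?_, AS.of_int⟩
  rintro ⟨N, hN, h⟩
  have : N = 1 := Nat.eq_one_iff_not_exists_prime_dvd.2 fun p hp e => hN.2 p hp e
  simpa [this] using h

theorem pl_int {q : ℚ} (h : IsIntegral ℤ (q : K)) : ∃ n : ℤ, q = n := by
  have h1 : q ∈ RS ∅ := AS.rat.1 (AS.of_int h)
  exact ⟨q.num, ((Rat.den_eq_one_iff q).1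
    (Nat.eq_one_iff_not_exists_prime_dvd.2 fun p hp e => h1 p hp e)).symm⟩

namespace DvA

variable {c x y : K}

theorem mk' {z : K} (hz : z ∈ AS S K) (h : y = c * z) : DvA S c y := ⟨z, hz, h⟩

theorem zero (c : K) : DvA S c 0 := ⟨0, zero_mem _, by simp⟩

theorem add (hx : DvA S c x) (hy : DvA S c y) : DvA S c (x + y) := by
  obtain ⟨a, ha, rfl⟩ := hx
  obtain ⟨b, hb, rfl⟩ := hy
  exact ⟨a + b, add_mem ha hb, by ring⟩

theorem mul {z : K} (hz : z ∈ AS S K) (hx : DvA S c x) : DvA S c (z * x) := by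
  obtain ⟨a, ha, rfl⟩ := hx
  exact ⟨z * a, mul_mem hz ha, by ring⟩

theorem neg (hx : DvA S c x) : DvA S c (-x) := by simpa using hx.mul (neg_mem (one_mem _))

theorem sub (hx : DvA S c x) (hy : DvA S c y) : DvA S c (x - y) := by
  simpa [sub_eq_add_neg] using hx.add hy.neg

theorem sum {ι : Type} (s : Finset ι) {f : ι → K} (h : ∀ i ∈ s, DvA S c (f i)) :
    DvA S c (∑ i ∈ s, f i) :=
  Finset.sum_induction f _ (fun _ _ => add) (zero c) h

theorem trans {d : K} (h : DvA S c d) (hx : DvA S d x) : DvA S c x := by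
  obtain ⟨a, ha, rfl⟩ := hx
  simpa [mul_comm] using h.mul ha

theorem map (g : K ≃ₐ[ℚ] K) (hx : DvA S c x) : DvA S (g c) (g x) := by
  obtain ⟨a, ha, rfl⟩ := hx
  exact ⟨g a, AS.map g ha, map_mul _ _ _⟩

theorem mono {T : Set ℕ} (h : S ⊆ T) (hx : DvA S c x) : DvA T c x := by
  obtain ⟨a, ha, rfl⟩ := hx
  exact ⟨a, AS.mono h ha, rfl⟩

theorem up (hx : DvA ∅ c x) : DvA S c x := hx.mono (Set.empty_subset _)

theorem prod {ι : Type} (s : Finset ι) {f g : ι → K} (hf : ∀ i, f i ∈ AS S K)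
    (hg : ∀ i, g i ∈ AS S K) (h : ∀ i, DvA S c (f i - g i)) :
    DvA S c (∏ i ∈ s, f i - ∏ i ∈ s, g i) := by
  classical
  induction s using Finset.induction_on with
  | empty => simpa using zero c
  | insert a s ha ih =>
    rw [prod_insert ha, prod_insert ha]
    convert (ih.mul (hf a)).add ((h a).mul (prod_mem (t := s) fun i _ => hg i)) using 1
    ring

theorem pow (hx : x ∈ AS S K) (hy : y ∈ AS S K) (h : DvA S c (x - y)) (k : ℕ) :
    DvA S c (x ^ k - y ^ k) := by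
  simpa using prod (range k) (fun _ => hx) (fun _ => hy) fun _ => h

theorem rat {a b : ℚ} (h : DvA S (a : K) b) : Dv S a b := by
  obtain ⟨z, hz, e⟩ := h
  rcases eq_or_ne a 0 with rfl | h0
  · exact ⟨0, zero_mem _, by simpa using e⟩
  · have h1 : (a : K) ≠ 0 := Rat.cast_ne_zero.2 h0
    refine ⟨b / a, (AS.rat (K := K)).1 ?_, by field_simp⟩
    rwa [Rat.cast_div, e, mul_div_cancel_left₀ _ h1]

theorem int {a b : ℤ} (h : DvA ∅ (a : K) b) : a ∣ b := by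
  obtain ⟨z, hz, e⟩ := rat (S := ∅) (K := K) (a := a) (b := b) (by simpa using h)
  exact dvd_of_free (S := ∅) (fun _ _ h => h.elim) hz e

theorem nr (hx : x ∈ AS S K) (hy : y ∈ AS S K) {q : ℚ} (h : DvA S (q : K) (x - y)) :
    DvA S (q : K) (Nr x - Nr y) :=
  prod _ (fun g => AS.map g hx) (fun g => AS.map g hy) fun g => by simpa using h.map g

end DvA

theorem nr_mul (x y : K) : Nr (x * y) = Nr x * Nr y := by simp [Nr, prod_mul_distrib]

theorem nr_mem {x : K} (h : x ∈ AS S K) : Nr x ∈ AS S K := prod_mem fun g _ => AS.map g h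

theorem nr_ne {x : K} (h : x ≠ 0) : Nr x ≠ 0 := prod_ne_zero_iff.2 fun g _ => by simpa using h

theorem pl_order {v w : K} (hv : IsIntegral ℤ v) (hw : IsIntegral ℤ w) (h : v * w = 1) {M : ℤ}
    (hM : M ≠ 0) : ∃ e : ℕ, 0 < e ∧ DvA ∅ (M : K) (v ^ e - 1) := by
  have : Finite (𝓞 K ⧸ Ideal.span {(M : 𝓞 K)}) :=
    Ideal.finiteQuotientOfFreeOfNeBot _ (by simpa only [ne_eq, Submodule.span_eq_bot, Set.mem_singleton_iff, forall_eq, Int.cast_eq_zero] using hM)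
  have k : ∀ a b : ℕ, a < b → Ideal.Quotient.mk (Ideal.span {(M : 𝓞 K)}) (⟨v, hv⟩ ^ b) =
      Ideal.Quotient.mk _ (⟨v, hv⟩ ^ a) → ∃ e : ℕ, 0 < e ∧ DvA ∅ (M : K) (v ^ e - 1) := by
    intro a b hab e
    obtain ⟨c, rfl⟩ := Nat.exists_eq_add_of_lt hab
    obtain ⟨z, hz⟩ := Ideal.mem_span_singleton.1 (Ideal.Quotient.eq.1 e)
    have h1 : DvA ∅ (M : K) (v ^ (a + c + 1) - v ^ a) :=
      ⟨z, AS.coe z, by simpa using congrArg (algebraMap (𝓞 K) K) hz⟩
    refine ⟨c + 1, c.succ_pos, ?_⟩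
    convert h1.mul (pow_mem (AS.of_int hw) a) using 1
    rw [add_assoc, pow_add v a, mul_sub, ← mul_assoc, ← mul_pow, mul_comm w, h]
    simp
  obtain ⟨a, b, hne, e⟩ := Finite.exists_ne_map_eq_of_infinite fun k : ℕ =>
    Ideal.Quotient.mk (Ideal.span {(M : 𝓞 K)}) ((⟨v, hv⟩ : 𝓞 K) ^ k)
  rcases lt_or_gt_of_ne hne with h1 | h1
  · exact k a b h1 e.symm
  · exact k b a h1 e

theorem pl_cont {y : K} (hy : IsIntegral ℤ y) (h0 : y ≠ 0) : ∃ (ρ : ℕ) (μ : K), ρ ≠ 0 ∧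
    IsIntegral ℤ μ ∧ y = ρ * μ ∧ (∀ S, Prim S μ ρ) ∧ ∀ D : ℤ, DvA ∅ (D : K) y → D ∣ ρ := by
  choose a ha using co_int.1 hy
  obtain ⟨c, hc⟩ := Finset.gcd_eq_sum_mul univ a
  have h1 : univ.gcd a ≠ 0 := fun e => h0 (co_ext fun i => by
    rw [ha, Finset.gcd_eq_zero_iff.1 e i (mem_univ i)]
    simp [co])
  have h2 : ((univ.gcd a).natAbs : ℤ) = univ.gcd a := by
    rw [Int.natCast_natAbs, ← Finset.normalize_gcd, ← Int.abs_eq_normalize, abs_abs]
  have h3 := Int.natAbs_ne_zero.2 h1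
  generalize (univ.gcd a).natAbs = ρ at h2 h3
  have h4 : (ρ : ℚ) ≠ 0 := Nat.cast_ne_zero.2 h3
  have h5 : ∀ i, co (((ρ : ℚ)⁻¹ : ℚ) * y) i = (ρ : ℚ)⁻¹ * a i := fun i => by rw [co_rat, ha]
  refine ⟨ρ, ((ρ : ℚ)⁻¹ : ℚ) * y, h3, co_int.2 fun i => ?_, ?_,
    fun S => ⟨fun i => c i, fun i => intCast_mem _ _, 0, zero_mem _, ?_⟩, fun D hD => ?_⟩
  · obtain ⟨b, hb⟩ : (ρ : ℤ) ∣ a i := h2 ▸ Finset.gcd_dvd (mem_univ i)
    exact ⟨b, by rw [h5, hb]; push_cast; field_simp⟩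
  · have : (ρ : K) ≠ 0 := Nat.cast_ne_zero.2 h3
    push_cast
    field_simp
  · have h6 : (ρ : ℚ) = ∑ i, (a i : ℚ) * c i := by exact_mod_cast h2.trans hc
    simp only [h5, zero_mul, add_zero]
    rw [← inv_mul_cancel₀ h4]
    nth_rw 3 [h6]
    rw [mul_sum]
    exact sum_congr rfl fun i _ => by ring
  · obtain ⟨z, hz, e⟩ := hD
    rw [h2]
    refine Finset.dvd_gcd fun i _ => ?_
    obtain ⟨b, hb⟩ := co_int.1 (AS.empty.1 hz) i
    refine ⟨b, Int.cast_injective (α := ℚ) ?_⟩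
    rw [← ha, e, ← Rat.cast_intCast, co_rat, hb, Int.cast_mul]

theorem Prim.dv {μ : K} {ρ c : ℚ} (h : Prim S μ ρ) (hc : c ∈ RS S)
    (hd : DvA S (ρ : K) (c * μ)) : Dv S ρ c := by
  obtain ⟨a, ha, d, hd', e⟩ := h
  obtain ⟨z, hz, e'⟩ := hd
  refine ⟨∑ i, a i * co z i + d * c,
    add_mem (sum_mem fun i _ => mul_mem (ha i) (co_mem.1 hz i)) (mul_mem hd' hc), ?_⟩
  have h1 : ∀ i, c * co μ i = ρ * co z i := fun i => by rw [← co_rat, e', co_rat]
  have h2 : c * ∑ i, a i * co μ i = ρ * ∑ i, a i * co z i := by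
    rw [mul_sum, mul_sum]
    exact sum_congr rfl fun i _ => by linear_combination a i * h1 i
  linear_combination h2 - c * e

namespace Pell

variable (P : Pell m K)

include P in
theorem comm (g h : K ≃ₐ[ℚ] K) (x : K) : g (h x) = h (g x) := by
  obtain ⟨i, rfl⟩ := P.gen g
  obtain ⟨j, rfl⟩ := P.gen h
  rw [← AlgEquiv.mul_apply, ← AlgEquiv.mul_apply, pow_mul_comm]

theorem ττ (x : K) : P.τ (P.τ x) = x := by
  rw [← AlgEquiv.mul_apply, τ, ← pow_add, ← two_mul, P.ord, AlgEquiv.one_apply]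

include P in
theorem nr_eq (x : K) : ((Algebra.norm ℚ x : ℚ) : K) = Nr x := by
  have := P.gal
  exact Algebra.norm_eq_prod_automorphisms ℚ x

include P in
theorem nr_int {x : K} (h : IsIntegral ℤ x) : ∃ n : ℤ, Nr x = n := by
  obtain ⟨n, e⟩ := pl_int (P.nr_eq x ▸ AS.empty.1 (nr_mem (AS.of_int h)))
  exact ⟨n, by rw [← P.nr_eq, e, Rat.cast_intCast]⟩

include P in
theorem nr_rat {x : K} (h : x ∈ AS S K) : ∃ c ∈ RS S, Nr x = (c : ℚ) :=
  ⟨_, AS.rat.1 (P.nr_eq x ▸ nr_mem h), (P.nr_eq x).symm⟩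

theorem red {Q : ℕ} (hQ : Gd m Q) {a : K} (ha : IsIntegral ℤ a) (h : DvA ∅ (Q : K) (a * P.τ a)) :
    DvA ∅ (Q : K) a := by
  obtain ⟨N, hN, h1⟩ := P.F1 Q hQ
  have h2 : ∀ a : K, IsIntegral ℤ a → DvA ∅ (Q : K) (P.τ a - a ^ N) := fun a ha => by
    obtain ⟨b, hb, e⟩ := h1 a ha
    exact ⟨b, AS.of_int hb, by rw [τ, e]; ring⟩
  have ha' := AS.of_int (S := ∅) ha
  have h3 := (h2 _ (map_isIntegral_int P.τ ha)).add
    ((h2 a ha).pow (AS.map _ ha') (pow_mem ha' N) N)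
  have h4 := h.sub ((h2 a ha).mul ha')
  obtain ⟨k, hk⟩ : ∃ k, N * N = k + (N + 1) := ⟨N * N - (N + 1), by
    have : N + 1 ≤ N * N := by nlinarith
    omega⟩
  convert h3.add (h4.mul (pow_mem ha' k)) using 1
  rw [P.ττ, ← pow_mul, hk]
  ring

theorem free {Q : ℕ} (hQ : Gd m Q) {a c d : K} (ha : IsIntegral ℤ a) (hc : IsIntegral ℤ c)
    (hd : IsIntegral ℤ d) {k : ℕ} (h : c * a + d * P.τ a = 2 ^ k) :
    ∃ z : K, IsIntegral ℤ z ∧ DvA ∅ (Q : K) (a * z - 1) := by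
  obtain ⟨N, hN, h1⟩ := P.F1 Q hQ
  obtain ⟨b, hb, e⟩ := h1 a ha
  obtain ⟨N, rfl⟩ : ∃ M, N = M + 1 := ⟨N - 1, by omega⟩
  obtain ⟨u, w, e'⟩ : IsCoprime ((2 : ℤ) ^ k) Q := IsCoprime.pow_left
    (Nat.isCoprime_iff_coprime.2 ((Nat.coprime_primes Nat.prime_two hQ.1).2 hQ.2.1.symm))
  have e2 : (u : K) * 2 ^ k + w * Q = 1 := by exact_mod_cast congrArg (Int.cast : ℤ → K) e'
  refine ⟨u * (c + d * a ^ N), (isIntegral_intCast u).mul (hc.add (hd.mul (ha.pow N))),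
    -(w + u * d * b), AS.of_int ((isIntegral_intCast w).add
      (((isIntegral_intCast u).mul hd).mul hb)).neg, ?_⟩
  rw [τ, e] at h
  linear_combination u * h + e2

omit P in
theorem free_nr {Q : ℕ} (hQ : Q.Prime) {a z : K} (ha : IsIntegral ℤ a) (hz : IsIntegral ℤ z)
    (h : DvA ∅ (Q : K) (a * z - 1)) {n : ℤ} (e : Nr a = n) : ¬ (Q : ℤ) ∣ n := by
  rintro ⟨c, rfl⟩
  have h1 := DvA.nr (q := Q) (AS.of_int (ha.mul hz)) (one_mem _) (by simpa using h)
  have h2 : DvA ∅ (((Q : ℤ) : ℚ) : K) (Nr (a * z)) :=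
    ⟨c * Nr z, mul_mem (intCast_mem _ _) (nr_mem (AS.of_int hz)), by
      rw [nr_mul, e]; push_cast; ring⟩
  have h3 : (Q : ℤ) ∣ 1 := DvA.int (K := K) (by simpa only [Int.cast_natCast, Int.cast_one, Rat.cast_natCast, Nr, map_mul, map_one, prod_const_one, sub_sub_cancel] using h2.sub h1)
  exact hQ.one_lt.ne' (by exact_mod_cast Int.eq_one_of_dvd_one (by positivity) h3)

theorem desc (hS : ∀ Q ∈ S, Gd m Q) {x : K} (hx : x ∈ AS S K) (h : IsIntegral ℤ (x * P.τ x)) :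
    IsIntegral ℤ x := by
  obtain ⟨N, hN, h1⟩ := hx
  induction N using induction_on_primes with
  | zero => exact absurd rfl hN.1
  | one => simpa using h1
  | prime_mul p D hp ih =>
    have p0 : (p : K) ≠ 0 := Nat.cast_ne_zero.2 hp.ne_zero
    obtain ⟨b, hb, e⟩ := P.red (hS p (hN.2 p hp (dvd_mul_right _ _))) h1
      ⟨p * D ^ 2 * (x * P.τ x), AS.of_int (((isIntegral_natCast p).mul
        ((isIntegral_natCast D).pow 2)).mul h), by simp only [Nat.cast_mul, map_mul, map_natCast]; ring⟩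
    refine ih ⟨right_ne_zero_of_mul hN.1, fun q hq e => hN.2 q hq (e.mul_left _)⟩ ?_
    rw [show (D : K) * x = b from mul_left_cancel₀ p0 (by rw [← e]; push_cast; ring)]
    exact AS.empty.1 hb

theorem x_ne {v : K} (h : v * P.τ v = -1) : v ^ 2 ≠ 1 := fun e => by
  rcases mul_self_eq_one_iff.1 ((sq v).symm.trans e) with rfl | rfl <;> norm_num only [map_one, mul_one, map_neg, mul_neg] at h

theorem x_eq {v : K} (h : v * P.τ v = -1) : v ^ 2 - 1 = P.X v * v := by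
  rw [X]
  linear_combination -h

theorem x_int {v : K} (hv : IsIntegral ℤ v) : IsIntegral ℤ (P.X v) :=
  hv.add (map_isIntegral_int _ hv)

theorem x_free {v : K} (hv : IsIntegral ℤ v) (h : v * P.τ v = -1) :
    ∃ n : ℤ, Nr (P.X v) = n ∧ n ≠ 0 ∧ ∀ Q, Gd m Q → ¬ (Q : ℤ) ∣ n := by
  obtain ⟨n, e⟩ := P.nr_int (P.x_int hv)
  refine ⟨n, e, fun e' => ?_, fun Q hQ => ?_⟩
  · refine nr_ne (x := P.X v) (fun e2 => P.x_ne h ?_) (by simp [e, e'])
    rw [← sub_eq_zero, P.x_eq h, e2, zero_mul]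
  · obtain ⟨z, hz, h1⟩ := P.free hQ (hv.sub isIntegral_one) isIntegral_one.neg hv.neg (k := 1)
      (by simp only [map_sub, map_one]; linear_combination -h)
    obtain ⟨w, hw, h2⟩ := P.free hQ (hv.add isIntegral_one) isIntegral_one hv.neg (k := 1)
      (by simp only [map_add, map_one]; linear_combination -h)
    refine free_nr hQ.1 (P.x_int hv) (hv.mul (hz.mul hw)) ?_ e
    convert (h1.mul (AS.of_int ((hv.add isIntegral_one).mul hw))).add h2 using 1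
    linear_combination -(z * w) * P.x_eq h

theorem d_free {a b : ℤ} (h : IsCoprime a b) {n : ℤ} (e : Nr ((a : K) - b * P.η) = n) {Q : ℕ}
    (hQ : Gd m Q) : ¬ (Q : ℤ) ∣ n := by
  obtain ⟨i, j, h⟩ := h
  obtain ⟨k, y, hy, e'⟩ := P.η_two
  have e2 : (i : K) * a + j * b = 1 := by exact_mod_cast congrArg (Int.cast : ℤ → K) h
  have h1 := (isIntegral_intCast (B := K) a).sub ((isIntegral_intCast b).mul P.η_int)
  have h2 : IsIntegral ℤ ((i : K) * 2 ^ k) :=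
    (isIntegral_intCast i).mul ((isIntegral_natCast 2).pow k)
  have h3 := (isIntegral_intCast j).mul hy
  obtain ⟨z, hz, h4⟩ := P.free hQ h1 (h2.sub h3) (h2.add h3) (k := k + 1) (by
    simp only [map_sub, map_mul, map_intCast, τ, P.η_neg]
    linear_combination 2 ^ (k + 1) * e2 + 2 * j * b * e')
  exact free_nr hQ.1 h1 hz h4 e

theorem rr_free {r : ℤ} (h : P.RR r) : r ≠ 0 ∧ ∀ Q, Gd m Q → ¬ (Q : ℤ) ∣ r := by
  obtain ⟨v, hv, h1, e⟩ := h
  obtain ⟨n, e1, h2, h3⟩ := P.x_free hv h1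
  obtain ⟨c, e2, -, -⟩ := P.x_free P.v_int P.v_nm
  have h4 : r * c = n := by
    rw [e1, e2] at e
    exact_mod_cast e
  exact ⟨fun e => h2 (by simp [← h4, e]), fun Q hQ e => h3 Q hQ (h4 ▸ e.mul_right c)⟩

theorem ra_sound (hS : ∀ Q ∈ S, Gd m Q) {r : ℚ} (hr : r ∈ RS S) (h : P.RA S r) :
    ∃ r0 : ℤ, r = r0 ∧ P.RR r0 := by
  obtain ⟨v, hv, h1, e⟩ := h
  have hv' := P.desc hS hv (h1 ▸ isIntegral_one.neg)
  obtain ⟨n, e1, -, -⟩ := P.x_free hv' h1
  obtain ⟨c, e2, h2, h3⟩ := P.x_free P.v_int P.v_nm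
  have h4 : (n : ℚ) = c * r := by
    rw [e1, e2, mul_comm] at e
    exact_mod_cast e.symm
  obtain ⟨k, rfl⟩ := dvd_of_free (fun p _ hp => h3 p (hS p hp)) hr h4
  have h5 : r = k := mul_left_cancel₀ (Int.cast_ne_zero.2 h2) (by rw [← h4, Int.cast_mul])
  exact ⟨k, h5, v, hv', h1, by simpa [h5] using e⟩

theorem nv_even {q : ℕ} (hq : Gd m q) (k : ℕ) : ∀ (n : ℤ) (a : K), n.natAbs = k → n ≠ 0 →
    IsIntegral ℤ a → a * P.τ a = n → ¬ Od q n := by
  induction k using Nat.strong_induction_on with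
  | _ k ih =>
  intro n a hk h0 ha e ho
  have := Fact.mk hq.1
  have q0 : (q : K) ≠ 0 := Nat.cast_ne_zero.2 hq.1.ne_zero
  have q1 : (q : ℚ) ≠ 0 := Nat.cast_ne_zero.2 hq.1.ne_zero
  obtain ⟨c, hc⟩ : (q : ℤ) ∣ n := by
    by_contra hn
    simp [Od, padicValInt.eq_zero_of_not_dvd hn] at ho
  obtain ⟨b, hb, rfl⟩ := P.red hq ha ⟨c, intCast_mem _ _, by rw [e, hc]; simp⟩
  have hb' := AS.empty.1 hb
  have h1 : b * P.τ b = ((n / q ^ 2 : ℚ) : K) := by
    simp only [map_mul, map_natCast] at e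
    push_cast
    rw [← e]
    field_simp
  obtain ⟨n', hn'⟩ := pl_int (h1 ▸ hb'.mul (map_isIntegral_int P.τ hb'))
  have h2 : (n : ℚ) = q * (q * n') := by rw [← hn']; field_simp
  have h3 : n = q * (q * n') := by exact_mod_cast h2
  have h4 : n' ≠ 0 := fun e => h0 (by simp [h3, e])
  have h5 : (n' : ℚ) ≠ 0 := Int.cast_ne_zero.2 h4
  refine ih n'.natAbs ?_ n' b rfl h4 hb' (by rw [h1, hn', Rat.cast_intCast]) ?_
  · rw [← hk, h3, Int.natAbs_mul, Int.natAbs_mul, Int.natAbs_natCast]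
    have h6 := Int.natAbs_pos.2 h4
    have h7 := hq.1.two_le
    linarith only [Nat.mul_le_mul h7 (Nat.mul_le_mul_right n'.natAbs h7), h6]
  · rw [h2, od_mul hq.1 q1 (mul_ne_zero q1 h5), od_mul hq.1 q1 h5] at ho
    tauto

theorem nv_sound {S : Set ℕ} {v : ℚ} (h : P.NV S v) :
    0 < v ∧ ∀ q : ℕ, Od q v → ¬ Gd m q := by
  obtain ⟨h1, h2, D, -, g, ⟨N, hN, hg⟩, h3, h4⟩ := h
  refine ⟨lt_of_le_of_ne h1 h2.symm, fun q ho hq => ?_⟩
  have h5 : (N : ℚ) * D ≠ 0 := mul_ne_zero (Nat.cast_ne_zero.2 hN.1) h3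
  have k : ∀ w : ℚ, w ≠ 0 → Od q w → (w : K) * D ^ 2 ≠ g * P.τ g := fun w hw ho e => by
    have h6 : (N : K) * g * P.τ (N * g) = ((w * (N * D * (N * D)) : ℚ) : K) := by
      simp only [map_mul, map_natCast]
      push_cast
      linear_combination -(N : K) ^ 2 * e
    obtain ⟨n, hn⟩ := pl_int (h6 ▸ hg.mul (map_isIntegral_int P.τ hg))
    have h7 := mul_ne_zero hw (mul_ne_zero h5 h5)
    refine P.nv_even hq _ n _ rfl (fun e => h7 (by simp [hn, e])) hg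
      (by rw [h6, hn, Rat.cast_intCast]) ?_
    rw [← hn, od_mul hq.1 hw (mul_ne_zero h5 h5), od_mul hq.1 h5 h5]
    tauto
  rcases h4 with e | e
  · exact k v h2 ho e
  · exact k (-v) (neg_ne_zero.2 h2) (od_neg.2 ho) (by push_cast; linear_combination -e)

theorem nv_complete (S : Set ℕ) {y : K} (hy : IsIntegral ℤ y) {q : ℕ} (hq : q ≠ 0)
    (h : |Algebra.norm ℚ y| = q) : P.NV S q := by
  have h1 : orderOf P.σ = 2 ^ (P.e + 1) := by
    refine orderOf_eq_prime_pow (fun e => ?_) (by rw [pow_succ', P.ord])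
    obtain ⟨k, y, -, e'⟩ := P.η_two
    have h2 := P.η_neg
    rw [e, AlgEquiv.one_apply, self_eq_neg] at h2
    rw [h2, zero_mul] at e'
    exact pow_ne_zero k two_ne_zero e'.symm
  have h2 : Nr y = ∏ i ∈ range (2 ^ (P.e + 1)), (P.σ ^ i) y := by
    refine (prod_bij (fun i _ => P.σ ^ i) (fun _ _ => mem_univ _) (fun i hi j hj e => ?_)
      (fun g _ => ?_) fun _ _ => rfl).symm
    · exact pow_injOn_Iio_orderOf (h1 ▸ mem_range.1 hi) (h1 ▸ mem_range.1 hj) e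
    · obtain ⟨i, rfl⟩ := P.gen g
      exact ⟨i % orderOf P.σ, mem_range.2 (h1 ▸ Nat.mod_lt _ (h1 ▸ by positivity)),
        pow_mod_orderOf _ _⟩
  have h3 : Nr y = (∏ i ∈ range (2 ^ P.e), (P.σ ^ i) y) *
      P.τ (∏ i ∈ range (2 ^ P.e), (P.σ ^ i) y) := by
    rw [h2, pow_succ, mul_two, prod_range_add, map_prod]
    simp only [pow_add, AlgEquiv.mul_apply, τ]
  refine ⟨Nat.cast_nonneg q, Nat.cast_ne_zero.2 hq, 1, one_mem _, _,
    prod_mem (t := range (2 ^ P.e)) fun i _ => AS.map (P.σ ^ i) (AS.of_int hy), one_ne_zero, ?_⟩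
  rw [← h3, ← P.nr_eq, ← h]
  rcases abs_choice (Algebra.norm ℚ y) with e | e <;> simp [e]

theorem nv_dio {S : Set ℕ} (h0 : Dio (RS S) fun z : RS S => z ≠ 0) :
    Dio (RS S) fun z : RS S => P.NV S z := by
  unfold NV
  refine .and (dq_le ?_ ?_) (.and (dq_ne h0 ?_ ?_) (dq_ex (dk_ex (.and (dq_ne h0 ?_ ?_)
    (.or (dk_eq ?_ ?_) (dk_eq ?_ ?_))))))
  all_goals fun_prop (disch := simp)

end Pell

end Pool.Agent.MP_a59382_lc.V3

end

-- part MP_a59382_lc.V3.PellB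
section

/-! Logarithms of units, small multiplicative relations and resultants. -/

set_option autoImplicit false
set_option linter.unusedSectionVars false

namespace Pool.Agent.MP_a59382_lc.V3

open Finset NumberField H18 Polynomial

variable {m : ℕ} {K : Type} [Field K] [NumberField K] {S : Set ℕ}

theorem pl_sinh {w : ℝ} (h : w ≠ 0) : |w - w⁻¹| = 2 * Real.sinh |Real.log w| := by
  have k : ∀ w : ℝ, 0 < w → |w - w⁻¹| = 2 * Real.sinh |Real.log w| := fun w h => by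
    rw [← Real.abs_sinh, Real.sinh_log h, abs_div, abs_two]
    ring
  rcases lt_or_gt_of_ne h with h | h
  · rw [← Real.log_neg_eq_log, ← k _ (neg_pos.2 h), inv_neg, neg_sub_neg, abs_sub_comm]
  · exact k w h

theorem pl_pow {M : ℕ} (hM : 2 ≤ M) (c : ℕ) : c < M ^ c := Nat.lt_pow_self hM

theorem pl_res (e k : ℕ) : ∃ k' : ℕ, ∀ M : ℕ, 2 ≤ M → ∀ b : Fin (2 ^ e) → ℤ, b ≠ 0 →
    (∀ i, |b i| ≤ (M : ℤ) ^ k) → ∃ (R : ℤ) (p q : ℤ[X]), R ≠ 0 ∧ |R| < (M : ℤ) ^ k' ∧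
      p * (X ^ 2 ^ e + 1) + q * ofFn (2 ^ e) b = C R := by
  refine ⟨(2 * 2 ^ e).factorial + k * (2 * 2 ^ e), fun M hM b hb h => ?_⟩
  have n0 : 1 ≤ 2 ^ e := Nat.one_le_two_pow
  have d1 : (X ^ 2 ^ e + 1 : ℤ[X]).natDegree = 2 ^ e := natDegree_X_pow_add_C
  have d2 := ofFn_natDegree_lt n0 b
  have g0 : ofFn (2 ^ e) b ≠ 0 := fun e' => hb (injective_ofFn _ (e'.trans (map_zero _).symm))
  have c2 : ∀ i, |(ofFn (2 ^ e) b).coeff i| ≤ (M : ℤ) ^ k := fun i => by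
    rcases lt_or_ge i (2 ^ e) with hi | hi
    · rw [ofFn_coeff_eq_val_of_lt _ hi]
      exact h _
    · rw [ofFn_coeff_eq_zero_of_ge _ hi]
      positivity
  generalize ofFn (2 ^ e) b = γ at *
  have m1 : (1 : ℤ) ≤ (M : ℤ) ^ k := one_le_pow₀ (by omega)
  obtain ⟨p, q, -, -, e1⟩ := exists_mul_add_mul_eq_C_resultant (X ^ 2 ^ e + 1) γ le_rfl le_rfl
    (.inl (by omega))
  refine ⟨_, p, q, fun e2 => ?_, ?_, by rw [← e1]; ring⟩
  · have inj : Function.Injective (Int.castRingHom ℚ) := RingHom.injective_int _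
    have h1 := resultant_map_map (X ^ 2 ^ e + 1) γ (X ^ 2 ^ e + 1 : ℤ[X]).natDegree γ.natDegree
      (Int.castRingHom ℚ)
    rw [e2, map_zero, ← natDegree_map_eq_of_injective inj (X ^ 2 ^ e + 1),
      ← natDegree_map_eq_of_injective inj γ] at h1
    refine resultant_ne_zero _ _ ?_ h1
    have h2 : (X ^ 2 ^ e + 1 : ℤ[X]).map (Int.castRingHom ℚ) = cyclotomic (2 ^ (e + 1)) ℚ := by
      rw [cyclotomic_prime_pow_eq_geom_sum Nat.prime_two]
      simp [sum_range_succ, add_comm]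
    refine (h2 ▸ cyclotomic.irreducible_rat (by positivity)).coprime_iff_not_dvd.2 fun h3 => ?_
    have := natDegree_le_of_dvd h3 ((Polynomial.map_ne_zero_iff inj).2 g0)
    rw [natDegree_map_eq_of_injective inj, natDegree_map_eq_of_injective inj] at this
    omega
  · have c1 : ∀ i, |(X ^ 2 ^ e + 1 : ℤ[X]).coeff i| ≤ (M : ℤ) ^ k := fun i => by
      refine le_trans ?_ m1
      rw [coeff_add, coeff_X_pow, coeff_one]
      split_ifs <;> first | omega | simp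
    have h1 := Matrix.det_le (abv := AbsoluteValue.abs) (x := (M : ℤ) ^ k)
      (A := sylvester (X ^ 2 ^ e + 1) γ (X ^ 2 ^ e + 1 : ℤ[X]).natDegree γ.natDegree)
      fun i j => by
        refine Fin.addCases (fun j => ?_) (fun j => ?_) j
        · simp only [sylvester, Matrix.of_apply, Fin.addCases_left, AbsoluteValue.abs_apply]
          split_ifs
          exacts [c2 _, by simp only [abs_zero, Nat.cast_nonneg, pow_nonneg]]
        · simp only [sylvester, Matrix.of_apply, Fin.addCases_right, AbsoluteValue.abs_apply]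
          split_ifs
          exacts [c1 _, by simp only [abs_zero, Nat.cast_nonneg, pow_nonneg]]
    refine h1.trans_lt ?_
    rw [Fintype.card_fin, nsmul_eq_mul, pow_add (M : ℤ), pow_mul]
    have h2 : (X ^ 2 ^ e + 1 : ℤ[X]).natDegree + γ.natDegree ≤ 2 * 2 ^ e := by omega
    refine mul_lt_mul_of_lt_of_le_of_nonneg_of_pos ?_ (pow_le_pow_right₀ m1 h2) (by positivity)
      (by positivity)
    exact_mod_cast (Nat.factorial_le h2).trans_lt (pl_pow hM _)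

/-- `x = 1 + ρ * a` modulo `ρ ^ 2` -/
def Lin (S : Set ℕ) (ρ : ℚ) (x a : K) : Prop :=
  a ∈ AS S K ∧ DvA S ((ρ : K) ^ 2) (x - 1 - ρ * a)

theorem Lin.mul {ρ : ℚ} (hρ : ρ ∈ RS S) {x a y b : K} (hx : Lin S ρ x a) (hy : Lin S ρ y b) :
    Lin S ρ (x * y) (a + b) := by
  obtain ⟨ha, c, hc, e⟩ := hx
  obtain ⟨hb, d, hd, e'⟩ := hy
  have h : (ρ : K) ∈ AS S K := AS.rat.2 hρ
  refine ⟨add_mem ha hb, c + d + (a + ρ * c) * (b + ρ * d), add_mem (add_mem hc hd)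
    (mul_mem (add_mem ha (mul_mem h hc)) (add_mem hb (mul_mem h hd))), ?_⟩
  rw [show x = 1 + ρ * a + ρ ^ 2 * c by linear_combination e,
    show y = 1 + ρ * b + ρ ^ 2 * d by linear_combination e']
  ring

theorem Lin.prod {ρ : ℚ} (hρ : ρ ∈ RS S) {ι : Type} (s : Finset ι) {x a : ι → K}
    (h : ∀ i, Lin S ρ (x i) (a i)) : Lin S ρ (∏ i ∈ s, x i) (∑ i ∈ s, a i) := by
  classical
  induction s using Finset.induction_on with
  | empty => exact ⟨by simp, by simpa using DvA.zero _⟩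
  | insert j s hj ih =>
    rw [prod_insert hj, sum_insert hj]
    exact (h j).mul hρ ih

theorem Lin.pow {ρ : ℚ} (hρ : ρ ∈ RS S) {x a : K} (h : Lin S ρ x a) (k : ℕ) :
    Lin S ρ (x ^ k) (k * a) := by simpa using Lin.prod hρ (range k) fun _ => h

theorem Lin.map {ρ : ℚ} {x a : K} (h : Lin S ρ x a) (g : K ≃ₐ[ℚ] K) : Lin S ρ (g x) (g a) :=
  ⟨AS.map g h.1, by simpa using h.2.map g⟩

theorem Lin.uniq {ρ : ℚ} (h0 : ρ ≠ 0) {x a b : K} (h : Lin S ρ x a) (h' : Lin S ρ x b) :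
    DvA S (ρ : K) (a - b) := by
  obtain ⟨c, hc, e⟩ := h'.2.sub h.2
  exact ⟨c, hc, mul_left_cancel₀ (Rat.cast_ne_zero.2 h0) (by linear_combination e)⟩

theorem Lin.one {ρ : ℚ} {μ : K} (h : μ ∈ AS S K) : Lin S ρ (1 + ρ * μ) μ :=
  ⟨h, by simpa using DvA.zero _⟩

namespace Pell

variable (P : Pell m K)

/-- the logarithm of the absolute value of a conjugate -/
noncomputable def l (g : K ≃ₐ[ℚ] K) (x : K) : ℝ := Real.log (P.φ (g x))

theorem φ_ne (g : K ≃ₐ[ℚ] K) {x : K} (h : x ≠ 0) : P.φ (g x) ≠ 0 := by simpa using h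

theorem l_mul (g : K ≃ₐ[ℚ] K) {x y : K} (hx : x ≠ 0) (hy : y ≠ 0) :
    P.l g (x * y) = P.l g x + P.l g y := by
  rw [l, map_mul, map_mul, Real.log_mul (P.φ_ne g hx) (P.φ_ne g hy), l, l]

theorem l_pow (g : K ≃ₐ[ℚ] K) (x : K) (k : ℕ) : P.l g (x ^ k) = k * P.l g x := by simp [l]

theorem l_zpow (g : K ≃ₐ[ℚ] K) (x : K) (k : ℤ) : P.l g (x ^ k) = k * P.l g x := by
  rw [l, map_zpow₀, map_zpow₀, Real.log_zpow, l]

theorem l_prod (g : K ≃ₐ[ℚ] K) {ι : Type} (s : Finset ι) {x : ι → K} (h : ∀ i, x i ≠ 0) :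
    P.l g (∏ i ∈ s, x i) = ∑ i ∈ s, P.l g (x i) := by
  rw [l, map_prod, map_prod, Real.log_prod fun i _ => P.φ_ne g (h i)]
  rfl

theorem l_τ (g : K ≃ₐ[ℚ] K) {x : K} (h : x * P.τ x = 1) : P.l (g * P.τ) x = -P.l g x := by
  rw [l, AlgEquiv.mul_apply, eq_inv_of_mul_eq_one_right h, map_inv₀, map_inv₀, Real.log_inv, l]

theorem l_zero (g : K ≃ₐ[ℚ] K) {x : K} (h0 : x ≠ 0) (h : P.l g x = 0) : x ^ 2 = 1 := by
  refine g.injective (P.φ.injective ?_)
  rcases Real.log_eq_zero.1 h with e | e | e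
  · exact absurd e (P.φ_ne g h0)
  · simp [e]
  · simp only [map_pow, e, even_two, Even.neg_pow, one_pow, map_one]

theorem nr_abs {x : K} {n : ℚ} (h : Nr x = n) : |(n : ℝ)| = ∏ g : K ≃ₐ[ℚ] K, |P.φ (g x)| := by
  rw [← Finset.abs_prod, ← map_prod, ← Nr, h, map_ratCast]

theorem nr_sinh {x y : K} (h0 : x ≠ 0) (hy : y = x - x⁻¹) {n : ℚ} (h : Nr y = n) :
    |(n : ℝ)| = ∏ g : K ≃ₐ[ℚ] K, 2 * Real.sinh |P.l g x| := by
  rw [P.nr_abs h, hy]
  exact prod_congr rfl fun g _ => by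
    rw [map_sub, map_sub, map_inv₀, map_inv₀, pl_sinh (P.φ_ne g h0), l]

theorem v_ne {v : K} (h : v * P.τ v = -1) : v ≠ 0 := fun e => by simp [e] at h

theorem x_inv {v : K} (h : v * P.τ v = -1) : P.X v = v - v⁻¹ := by
  have := P.v_ne h
  rw [X, eq_sub_iff_add_eq]
  field_simp
  linear_combination h

theorem l_ne (g : K ≃ₐ[ℚ] K) {v : K} (h : v * P.τ v = -1) : P.l g v ≠ 0 :=
  fun e => P.x_ne h (P.l_zero g (P.v_ne h) e)

theorem v_pow {j : ℕ} (hj : Odd j) : P.v0 ^ j * P.τ (P.v0 ^ j) = -1 := by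
  rw [map_pow, ← mul_pow, τ, P.v_nm, hj.neg_one_pow]

theorem v_sq {v : K} (h : v * P.τ v = -1) : v ^ 2 * P.τ (v ^ 2) = 1 := by
  rw [map_pow, ← mul_pow, h, neg_one_sq]

theorem u_pow {x : K} (h : x * P.τ x = 1) (k : ℕ) : x ^ k * P.τ (x ^ k) = 1 := by
  rw [map_pow, ← mul_pow, h, one_pow]

theorem rr_big {M : ℕ} (hM : M ≠ 0) (B : ℤ) : ∃ r, P.RR r ∧ (M : ℤ) ∣ r - 1 ∧ B < |r| := by
  classical
  obtain ⟨c, e1, c0, -⟩ := P.x_free P.v_int P.v_nm
  have hv := AS.of_int (S := ∅) P.v_int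
  obtain ⟨e, e0, he⟩ := pl_order P.v_int (map_isIntegral_int P.τ P.v_int).neg
    (by rw [mul_neg, τ, P.v_nm, neg_neg]) (mul_ne_zero c0 (Int.natCast_ne_zero.2 hM))
  have l0 : ∀ g, 0 < |P.l g P.v0| := fun g => abs_pos.2 (P.l_ne g P.v_nm)
  obtain ⟨k, hk⟩ := exists_nat_gt (B * Real.sinh |P.l 1 P.v0| / |P.l 1 P.v0|)
  have hj : Odd (e * (2 * k) + 1) := ⟨e * k, by ring⟩
  have hi := P.v_int.pow (e * (2 * k) + 1)
  obtain ⟨n, e2, -, -⟩ := P.x_free hi (P.v_pow hj)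
  have h1 : DvA ∅ ((c * M : ℤ) : K) (P.v0 ^ (e * (2 * k) + 1) - P.v0) := by
    convert (he.pow (pow_mem hv e) (one_mem _) (2 * k)).mul hv using 1
    ring
  have h2 : DvA ∅ (((c * M : ℤ) : ℚ) : K) (P.X (P.v0 ^ (e * (2 * k) + 1)) - P.X P.v0) := by
    have h3 := h1.map P.τ
    rw [map_intCast, map_sub] at h3
    rw [Rat.cast_intCast]
    convert h1.add h3 using 1
    rw [X, X]
    ring
  have h3 := DvA.nr (AS.of_int (P.x_int hi)) (AS.of_int (P.x_int P.v_int)) h2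
  rw [e1, e2, Rat.cast_intCast, ← Int.cast_sub] at h3
  obtain ⟨y, hy⟩ := h3.int
  have h4 : n = (1 + M * y) * c := by linear_combination hy
  refine ⟨1 + M * y, ⟨_, hi, P.v_pow hj, by rw [e1, e2, h4]; push_cast; ring⟩, ⟨y, by ring⟩, ?_⟩
  have a1 := P.nr_sinh (P.v_ne P.v_nm) (P.x_inv P.v_nm) (n := c) (by simpa using e1)
  have a2 := P.nr_sinh (P.v_ne (P.v_pow hj)) (P.x_inv (P.v_pow hj)) (n := n) (by simpa using e2)
  generalize 1 + M * y = r at h4 ⊢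
  by_contra hB
  have b1 : |(r : ℝ)| ≤ B := by exact_mod_cast not_lt.1 hB
  have jk : (k : ℝ) ≤ (e * (2 * k) + 1 : ℕ) := by exact_mod_cast (by nlinarith only [e0] : k ≤ _)
  have j1 : (1 : ℝ) ≤ (e * (2 * k) + 1 : ℕ) := by exact_mod_cast (by omega : 1 ≤ _)
  simp only [l_pow, abs_mul, Nat.abs_cast] at a2
  generalize ((e * (2 * k) + 1 : ℕ) : ℝ) = j at *
  rw [h4] at a2
  push_cast at a1 a2
  rw [abs_mul, a1, ← mul_prod_erase _ _ (mem_univ 1), ← mul_prod_erase _ _ (mem_univ 1)] at a2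
  have s0 : ∀ g, 0 < 2 * Real.sinh |P.l g P.v0| := fun g => by
    have := Real.sinh_pos_iff.2 (l0 g)
    positivity
  have b2 := prod_le_prod (s := univ.erase 1) (fun g _ => (s0 g).le)
    (g := fun g => 2 * Real.sinh (j * |P.l g P.v0|)) fun g _ =>
      mul_le_mul_of_nonneg_left (Real.sinh_le_sinh.2 (le_mul_of_one_le_left (l0 g).le j1))
        zero_le_two
  have b3 := prod_pos (s := univ.erase 1) fun g _ => s0 g
  have b4 : j * |P.l 1 P.v0| ≤ Real.sinh (j * |P.l 1 P.v0|) :=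
    Real.self_le_sinh_iff.2 (by have := l0 1; positivity)
  rw [div_lt_iff₀ (l0 1)] at hk
  have b5 := mul_le_mul_of_nonneg_right jk (l0 1).le
  have b6 := mul_le_mul_of_nonneg_right b1 (s0 1).le
  have b7 : |(r : ℝ)| * (2 * Real.sinh |P.l 1 P.v0|) < 2 * Real.sinh (j * |P.l 1 P.v0|) := by
    linarith only [hk, b4, b5, b6]
  have b8 := mul_lt_mul_of_lt_of_le_of_nonneg_of_pos b7 b2
    (mul_nonneg (abs_nonneg _) (s0 1).le) (b3.trans_le b2)
  rw [← a2, mul_assoc] at b8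
  exact lt_irrefl _ b8

theorem fin : {x : K | IsIntegral ℤ x ∧ ∀ g, |P.l g x| < 1}.Finite := by
  have := P.gal
  refine (Embeddings.finite_of_norm_le K ℂ (Real.exp 1)).subset fun x hx => ⟨hx.1, fun ψ => ?_⟩
  obtain ⟨g, rfl⟩ := ComplexEmbedding.exists_comp_symm_eq_of_comp_eq (k := ℚ)
    (Complex.ofRealHom.comp P.φ) ψ (Subsingleton.elim _ _)
  have h1 := (abs_lt.1 (hx.2 g.symm)).2
  change ‖((P.φ (g.symm x) : ℝ) : ℂ)‖ ≤ _
  rw [Complex.norm_real, Real.norm_eq_abs]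
  rcases eq_or_ne (P.φ (g.symm x)) 0 with e | e
  · rw [e, abs_zero]
    positivity
  · rw [← Real.log_le_iff_le_exp (abs_pos.2 e), Real.log_abs]
    exact h1.le

theorem l_all {x : K} (h : x * P.τ x = 1) {B : ℝ}
    (hB : ∀ i : Fin (2 ^ P.e), |P.l (P.σ ^ (i : ℕ)) x| < B) (g : K ≃ₐ[ℚ] K) : |P.l g x| < B := by
  obtain ⟨i, rfl⟩ := P.gen g
  induction i using Nat.strong_induction_on with
  | _ i ih =>
  rcases lt_or_ge i (2 ^ P.e) with hi | hi
  · exact hB ⟨i, hi⟩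
  · obtain ⟨j, rfl⟩ := Nat.exists_eq_add_of_le' hi
    rw [pow_add, ← τ, P.l_τ _ h, abs_neg]
    exact ih j (by have := Nat.one_le_two_pow (n := P.e); omega)

theorem rel : ∃ k : ℕ, ∀ M L : ℕ, 2 ≤ M → L + 1 ≤ M ^ 2 → ∀ y : Option (Fin (2 ^ P.e)) → K,
    (∀ j, IsIntegral ℤ (y j) ∧ y j * P.τ (y j) = 1 ∧ ∀ g, |P.l g (y j)| ≤ L) →
      ∃ a b : Option (Fin (2 ^ P.e)) → ℕ, a ≠ b ∧ (∀ j, a j ≤ M ^ k ∧ b j ≤ M ^ k) ∧
        ∏ j, y j ^ a j = ∏ j, y j ^ b j := by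
  classical
  set n := 2 ^ P.e
  set C := P.fin.toFinset.card
  refine ⟨C + (2 * (n + 1) + 2) * n, fun M L hM hL y hy => ?_⟩
  set N := M ^ (C + (2 * (n + 1) + 2) * n) with hN
  by_contra hc
  push Not at hc
  have y0 : ∀ j, y j ≠ 0 := fun j => left_ne_zero_of_mul_eq_one (hy j).2.1
  let w : (Option (Fin n) → ℕ) → K := fun a => ∏ j, y j ^ a j
  have w1 : ∀ a, IsIntegral ℤ (w a) := fun a => IsIntegral.prod _ fun j _ => (hy j).1.pow _
  have w2 : ∀ a, w a * P.τ (w a) = 1 := fun a => by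
    rw [map_prod, ← prod_mul_distrib]
    exact prod_eq_one fun j _ => P.u_pow (hy j).2.1 _
  have w0 : ∀ a, w a ≠ 0 := fun a => left_ne_zero_of_mul_eq_one (w2 a)
  have h1 := card_le_mul_card_image_of_maps_to
    (s := Fintype.piFinset fun _ : Option (Fin n) => range (N + 1))
    (t := Fintype.piFinset fun _ : Fin n =>
      Icc (-((n + 1) * N * L : ℕ) : ℤ) ((n + 1) * N * L : ℕ))
    (f := fun a (i : Fin n) => ⌊P.l (P.σ ^ (i : ℕ)) (w a)⌋) (fun a ha => ?_) C fun b _ => ?_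
  · simp only [Fintype.card_piFinset, card_range, prod_const, card_univ, Fintype.card_option,
      Fintype.card_fin, Int.card_Icc] at h1
    have h2 : (((n + 1) * N * L : ℕ) + 1 - -((n + 1) * N * L : ℕ) : ℤ).toNat ≤
        M ^ (2 * (n + 1) + 2) * (N + 1) := by
      have h3 := Nat.mul_le_mul (pl_pow hM (2 * (n + 1))).le hL
      rw [← pow_add] at h3
      refine le_trans ?_ (Nat.mul_le_mul_right _ h3)
      rw [Int.toNat_le]
      push_cast
      have : (0 : ℤ) ≤ n * N + n * L + N + L + n := by positivity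
      linarith only [this]
    have h3 := h1.trans (Nat.mul_le_mul (pl_pow hM C).le (Nat.pow_le_pow_left h2 n))
    rw [mul_pow, ← pow_mul, ← mul_assoc, ← pow_add, ← hN, pow_succ'] at h3
    have := Nat.le_of_mul_le_mul_right h3 (by positivity)
    omega
  · refine Fintype.mem_piFinset.2 fun i => ?_
    have h2 : |P.l (P.σ ^ (i : ℕ)) (w a)| ≤ ((n + 1) * N * L : ℕ) := by
      rw [P.l_prod _ _ fun j => pow_ne_zero _ (y0 j)]
      refine (abs_sum_le_sum_abs _ _).trans ((sum_le_card_nsmul _ _ ((N : ℝ) * L)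
        fun j _ => ?_).trans (by simp only [card_univ, Fintype.card_option, Fintype.card_fin, nsmul_eq_mul, Nat.cast_add, Nat.cast_one, mul_assoc, Nat.cast_mul, Std.le_refl]))
      rw [l_pow, abs_mul, Nat.abs_cast]
      have := Nat.lt_succ_iff.1 (mem_range.1 (Fintype.mem_piFinset.1 ha j))
      exact mul_le_mul (by exact_mod_cast this) ((hy j).2.2 _) (abs_nonneg _) (by positivity)
    rw [abs_le] at h2
    exact mem_Icc.2 ⟨Int.le_floor.2 (by exact_mod_cast h2.1),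
      by exact_mod_cast (Int.floor_le _).trans h2.2⟩
  · rcases (filter (fun a => (fun i : Fin n => ⌊P.l (P.σ ^ (i : ℕ)) (w a)⌋) = b)
      (Fintype.piFinset fun _ : Option (Fin n) => range (N + 1))).eq_empty_or_nonempty with
      e | ⟨a0, h0⟩
    · simp [e]
    refine card_le_card_of_injOn (fun a => w a * P.τ (w a0)) (fun a ha => ?_) fun a ha a' ha' e => ?_
    · have h2 : w a * P.τ (w a0) * P.τ (w a * P.τ (w a0)) = 1 := by
        rw [map_mul, P.ττ]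
        linear_combination w a0 * P.τ (w a0) * w2 a + w2 a0
      refine P.fin.mem_toFinset.2 ⟨(w1 a).mul (map_isIntegral_int _ (w1 a0)),
        P.l_all h2 fun i => ?_⟩
      rw [P.l_mul _ (w0 a) (by simpa using w0 a0)]
      have h3 := P.l_τ (P.σ ^ (i : ℕ)) (w2 a0)
      rw [l, AlgEquiv.mul_apply, ← l] at h3
      rw [h3, ← sub_eq_add_neg]
      exact Int.abs_sub_lt_one_of_floor_eq_floor
        (congrFun ((mem_filter.1 ha).2.trans (mem_filter.1 h0).2.symm) i)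
    · by_contra hne
      refine hc a a' hne (fun j => ⟨?_, ?_⟩) (mul_right_cancel₀ (by simpa using w0 a0) e)
      · exact Nat.lt_succ_iff.1 (mem_range.1 (Fintype.mem_piFinset.1 (mem_filter.1 ha).1 j))
      · exact Nat.lt_succ_iff.1 (mem_range.1 (Fintype.mem_piFinset.1 (mem_filter.1 ha').1 j))

theorem hs_sound {x : K} (h : x * P.τ x = 1) {r : ℚ} (hr : Hs S x r) {L : ℕ}
    (hL : |r| ≤ 2 ^ L) (g : K ≃ₐ[ℚ] K) : |P.l g x| ≤ L := by
  obtain ⟨c, -, e, hc⟩ := hr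
  have k : ∀ g, P.l g x ≤ L := fun g => by
    have h1 : P.φ (g x) ^ 2 ≤ (r : ℝ) ^ 2 := by
      have h2 := congrArg P.φ e
      rw [map_ratCast, map_sum] at h2
      simp only [map_pow] at h2
      exact (single_le_sum (f := fun g : K ≃ₐ[ℚ] K => P.φ (g x) ^ 2) (fun _ _ => sq_nonneg _)
        (mem_univ g)).trans (h2.ge.trans (by exact_mod_cast hc))
    have h3 : |P.φ (g x)| ≤ 2 ^ L := (sq_le_sq.1 h1).trans (by exact_mod_cast hL)
    rw [l, ← Real.log_abs]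
    refine (Real.log_le_log (abs_pos.2 (P.φ_ne g (left_ne_zero_of_mul_eq_one h))) h3).trans ?_
    rw [Real.log_pow]
    exact mul_le_of_le_one_right (by positivity) (by linarith [Real.log_two_lt_d9])
  exact abs_le.2 ⟨by have := k (g * P.τ); rw [P.l_τ g h] at this; linarith, k g⟩

theorem core : ∃ k : ℕ, ∀ M L : ℕ, 2 ≤ M → L + 1 ≤ M ^ 2 → ∀ S : Set ℕ, (∀ Q ∈ S, Gd m Q) →
    ∀ (ρ r : ℚ) (x α e μ : K), ρ ∈ RS S → ρ ≠ 0 → |r| ≤ 2 ^ L → x ∈ AS S K → x * P.τ x = 1 →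
      Lin S ρ x α → Hs S x r → e ∈ AS S K → e * P.τ e = 1 → Lin S ρ e μ → Hs S e r →
      ∃ (a : ℤ) (b : Fin (2 ^ P.e) → ℤ), (a ≠ 0 ∨ b ≠ 0) ∧ |a| ≤ (M : ℤ) ^ k ∧
        (∀ i, |b i| ≤ (M : ℤ) ^ k) ∧
        DvA S (ρ : K) (a * α + ∑ i, b i * (P.σ ^ (i : ℕ)) μ) ∧
        ∀ g, a * P.l g x + ∑ i, b i * P.l g ((P.σ ^ (i : ℕ)) e) = 0 := by
  obtain ⟨k, hk⟩ := P.rel
  refine ⟨k, fun M L hM hL S hS ρ r x α e μ hρ ρ0 hr hx x1 x2 x3 he e1 e2 e3 => ?_⟩
  have e4 : ∀ g : K ≃ₐ[ℚ] K, g e * P.τ (g e) = 1 := fun g => by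
    rw [P.comm, ← map_mul, e1, map_one]
  obtain ⟨a, b, hne, h1, h2⟩ := hk M L hM hL (fun j => j.elim x fun i => (P.σ ^ (i : ℕ)) e) (by
    rintro (_ | i)
    · exact ⟨P.desc hS hx (x1 ▸ isIntegral_one), x1, P.hs_sound x1 x3 hr⟩
    · exact ⟨map_isIntegral_int _ (P.desc hS he (e1 ▸ isIntegral_one)), e4 _,
        fun g => P.hs_sound e1 e3 hr (g * _)⟩)
  have h3 : ∀ j, |(a j : ℤ) - b j| ≤ (M : ℤ) ^ k := fun j => by
    have h4 : (a j : ℤ) ≤ (M : ℤ) ^ k := by exact_mod_cast (h1 j).1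
    have h5 : (b j : ℤ) ≤ (M : ℤ) ^ k := by exact_mod_cast (h1 j).2
    rw [abs_le]
    omega
  refine ⟨(a none : ℤ) - b none, fun i => (a (some i) : ℤ) - b (some i), ?_, h3 _,
    fun i => h3 _, ?_, fun g => ?_⟩
  · by_contra hc
    push Not at hc
    refine hne (funext ?_)
    rintro (_ | i)
    · exact_mod_cast sub_eq_zero.1 hc.1
    · exact_mod_cast sub_eq_zero.1 (congrFun hc.2 i)
  · have h4 : ∀ j : Option (Fin (2 ^ P.e)), Lin S ρ (j.elim x fun i => (P.σ ^ (i : ℕ)) e)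
        (j.elim α fun i => (P.σ ^ (i : ℕ)) μ) := by
      rintro (_ | i)
      exacts [x2, e2.map _]
    have h5 := (Lin.prod hρ univ fun j => (h4 j).pow hρ (a j)).uniq ρ0
      (h2 ▸ Lin.prod hρ univ fun j => (h4 j).pow hρ (b j))
    rw [← sum_sub_distrib, Fintype.sum_option] at h5
    simpa only [Int.cast_sub, Int.cast_natCast, sub_mul, AlgEquiv.coe_pow, sum_sub_distrib, Option.elim_none, Option.elim_some] using h5
  · have h4 : ∀ (c : Option (Fin (2 ^ P.e)) → ℕ) (j : Option (Fin (2 ^ P.e))),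
        (j.elim x fun i => (P.σ ^ (i : ℕ)) e) ^ c j ≠ 0 := by
      rintro c (_ | i)
      exacts [pow_ne_zero _ (left_ne_zero_of_mul_eq_one x1),
        pow_ne_zero _ (left_ne_zero_of_mul_eq_one (e4 _))]
    have h5 := congrArg (P.l g) h2
    rw [P.l_prod g _ (h4 a), P.l_prod g _ (h4 b), ← sub_eq_zero, ← sum_sub_distrib,
      Fintype.sum_option] at h5
    simpa only [Int.cast_sub, Int.cast_natCast, sub_mul, AlgEquiv.coe_pow, sum_sub_distrib, Option.elim_none, l_pow, Option.elim_some] using h5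

theorem res (k : ℕ) : ∃ k' : ℕ, ∀ M : ℕ, 2 ≤ M → ∀ (S : Set ℕ) (ρ : ℚ) (e μ : K), ρ ∈ RS S →
    ρ ≠ 0 → e * P.τ e = 1 → Lin S ρ e μ → Prim S μ ρ → ∀ b : Fin (2 ^ P.e) → ℤ, b ≠ 0 →
      (∀ i, |b i| ≤ (M : ℤ) ^ k) → DvA S (ρ : K) (∑ i, b i * (P.σ ^ (i : ℕ)) μ) →
        ∃ R : ℤ, R ≠ 0 ∧ |R| < (M : ℤ) ^ k' ∧ Dv S ρ R := by
  obtain ⟨k', hk⟩ := pl_res P.e k
  refine ⟨k', fun M hM S ρ e μ hρ ρ0 e1 e2 hp b b0 hb hd => ?_⟩
  obtain ⟨R, p, q, R0, h1, h2⟩ := hk M hM b b0 hb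
  refine ⟨R, R0, h1, hp.dv (intCast_mem _ _) ?_⟩
  let T : Module.End ℤ K := (P.σ : K →+* K).toIntAlgHom.toLinearMap
  have t1 : ∀ (i : ℕ) (y : K), (T ^ i) y = (P.σ ^ i) y := fun i => by
    induction i with
    | zero => exact fun y => rfl
    | succ i ih => exact fun y => by rw [pow_succ, pow_succ]; exact ih _
  have t2 : ∀ (c : ℤ) (i : ℕ) (y : K), aeval T (monomial i c) y = c * (P.σ ^ i) y :=
    fun c i y => by simp [aeval_monomial, t1]
  have t3 : ∀ (p : ℤ[X]) (y : K), DvA S (ρ : K) y → DvA S (ρ : K) (aeval T p y) := fun p y hy => by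
    induction p using Polynomial.induction_on' with
    | add p q hp hq => simpa using hp.add hq
    | monomial i c =>
      rw [t2]
      exact DvA.mul (intCast_mem _ _) (by simpa only [map_ratCast] using hy.map (P.σ ^ i))
  have t4 : DvA S (ρ : K) (aeval T (Polynomial.X ^ 2 ^ P.e + 1 : ℤ[X]) μ) := by
    have h3 := (e2.map P.τ).mul hρ e2
    rw [mul_comm, e1] at h3
    have h4 : Lin S ρ (1 : K) 0 := by simpa using Lin.one (ρ := ρ) (zero_mem (AS S K))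
    simpa [t1, τ] using h3.uniq ρ0 h4
  have t5 : DvA S (ρ : K) (aeval T (ofFn (2 ^ P.e) b) μ) := by
    rw [ofFn_eq_sum_monomial, map_sum, LinearMap.sum_apply]
    simpa only [t2] using hd
  have h3 := (t3 p _ t4).add (t3 q _ t5)
  rw [← Module.End.mul_apply, ← Module.End.mul_apply, ← map_mul, ← map_mul, ← LinearMap.add_apply,
    ← map_add, h2] at h3
  simpa only [Rat.cast_intCast, eq_intCast, map_intCast, Module.End.intCast_apply, zsmul_eq_mul] using h3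

end Pell

end Pool.Agent.MP_a59382_lc.V3

end

-- part MP_a59382_lc.V3.Pell
section

/-! The formula of the first half defines integers once the size parameter is bounded. -/

set_option autoImplicit false
set_option linter.unusedSectionVars false

namespace Pool.Agent.MP_a59382_lc.V3

open Finset NumberField H18

variable {m : ℕ} {K : Type} [Field K] [NumberField K] {S : Set ℕ}

theorem pl_asym (c d : ℕ) : ∃ Z0 : ℕ, ∀ Z, Z0 ≤ Z → ∀ J : ℕ, J ^ 2 ≤ Z ^ 3 →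
    c * J + d ≤ (Z - 1) ^ 2 := by
  refine ⟨16 * c ^ 2 + d + 4, fun Z hZ J hJ => ?_⟩
  have h1 : 4 * c * J ≤ Z ^ 2 := by
    refine (Nat.pow_le_pow_iff_left two_ne_zero).1 ?_
    calc (4 * c * J) ^ 2 = 16 * c ^ 2 * J ^ 2 := by ring
      _ ≤ Z * Z ^ 3 := Nat.mul_le_mul (by omega) hJ
      _ = _ := by ring
  have h2 : 4 * d ≤ Z ^ 2 := (Nat.mul_le_mul (by omega) (by omega)).trans_eq (sq Z).symm
  obtain ⟨Y, rfl⟩ : ∃ Y, Z = Y + 4 := ⟨Z - 4, by omega⟩
  rw [show Y + 4 - 1 = Y + 3 by omega]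
  nlinarith only [hZ, h1]

theorem pl_val {q : ℕ} (hq : q.Prime) (hS : q ∉ S) {w z : ℚ} (hw : 0 < padicValRat q w)
    (hz : z ∈ RS S) : (q : ℤ) ∣ (w * z).num := by
  have := Fact.mk hq
  have w0 : w ≠ 0 := fun e => by simp [e] at hw
  rcases eq_or_ne z 0 with rfl | z0
  · simp
  · have := mem_RS.1 hz q hq hS
    exact (H26.val_pos_iff hq (mul_ne_zero w0 z0)).1 (by rw [padicValRat.mul w0 z0]; omega)

theorem pl_many {s M : ℕ} {w : Fin s → ℚ} {R : ℤ} (R0 : R ≠ 0) (hw : ∀ i, Dv S (w i) R)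
    (hc : ∀ i j, i ≠ j → ∃ a ∈ RS S, ∃ b ∈ RS S, a * w i + b * w j = 1)
    (hq : ∀ i, ∃ q : ℕ, q.Prime ∧ q ∉ S ∧ M ≤ q ∧ 0 < padicValRat q (w i)) :
    (M : ℤ) ^ s ≤ |R| := by
  choose q h1 h2 h3 h4 using hq
  have h5 : ∏ i, (q i : ℤ) ∣ R := by
    refine Fintype.prod_dvd_of_coprime (fun i j hij => ?_) fun i => ?_
    · refine Nat.isCoprime_iff_coprime.2 ((Nat.coprime_primes (h1 i) (h1 j)).2 fun e => ?_)
      obtain ⟨a, ha, b, hb, e'⟩ := hc i j hij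
      have h6 := pl_val (h1 i) (h2 i) (h4 i) ha
      have h7 := pl_val (h1 i) (h2 i) (e ▸ h4 j) hb
      rw [show w j * b = 1 - w i * a by linear_combination e'] at h7
      generalize w i * a = y at h6 h7
      have h8 : (1 - y).num = y.den - y.num := by
        have e : ((1 - y).num : ℚ) = y.den - y.num := by
          rw [← Rat.mul_den_eq_num, ← Rat.mul_den_eq_num]
          simp [sub_mul]
        exact_mod_cast e
      exact (Nat.prime_iff_prime_int.1 (h1 i)).not_isUnit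
        (y.isCoprime_num_den.isUnit_of_dvd' h6
          (by have := dvd_add h7 h6; rwa [h8, sub_add_cancel] at this))
    · obtain ⟨z, hz, e⟩ := hw i
      simpa only [← e, Rat.num_intCast] using pl_val (h1 i) (h2 i) (h4 i) hz
  calc (M : ℤ) ^ s = ∏ _i : Fin s, (M : ℤ) := by simp only [prod_const, card_univ, Fintype.card_fin]
    _ ≤ ∏ i, (q i : ℤ) := prod_le_prod (fun _ _ => by positivity) fun i _ => by exact_mod_cast h3 i
    _ ≤ _ := Int.le_of_dvd (abs_pos.2 R0) ((dvd_abs _ _).2 h5)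

namespace Pell

variable (P : Pell m K)

theorem div_sound : ∃ k : ℕ, ∀ M L : ℕ, 2 ≤ M → L + 1 ≤ M ^ 2 → ∀ S : Set ℕ, (∀ Q ∈ S, Gd m Q) →
    ∀ t r : ℚ, t ∈ RS S → 3 ≤ t → |r| ≤ 2 ^ L → P.Div S t r → t.num ≤ (M : ℤ) ^ k := by
  obtain ⟨k, hk⟩ := P.core
  obtain ⟨k', hk'⟩ := P.res k
  refine ⟨2 + k', fun M L hM hL S hS t r ht t3 hr h => ?_⟩
  obtain ⟨D, -, ρ, hρ, e, he, μ, hμ, x, hx, e1, ⟨z, hz, e2⟩, e3, rfl, hp, x1, x2, x3, s1, s2⟩ := h
  have ρ0 : ρ ≠ 0 := by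
    rintro rfl
    obtain ⟨y, -, e⟩ := x2
    exact x3 (by rw [show x = 1 by simpa [sub_eq_zero] using e, one_pow])
  obtain ⟨a, b, h0, -, hb, hd, hl⟩ := hk M L hM hL S hS ρ r x 0 _ μ hρ ρ0 hr hx x1
    ⟨zero_mem _, by simpa using x2⟩ s2 he e3 (.one hμ) s1
  have b0 : b ≠ 0 := by
    rintro rfl
    exact x3 (P.l_zero 1 (left_ne_zero_of_mul_eq_one x1)
      (by simpa [h0.resolve_right (by simp)] using hl 1))
  obtain ⟨R, R0, hR, z', hz', e4⟩ := hk' M hM S ρ _ μ hρ ρ0 e3 (.one hμ) hp b b0 hb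
    (by simpa only [AlgEquiv.coe_pow, mul_zero, zero_add] using hd)
  obtain ⟨n, hn⟩ := P.nr_int
    ((isIntegral_intCast (B := K) t.num).sub ((isIntegral_intCast (t.den : ℤ)).mul P.η_int))
  have d0 : (0 : ℚ) < t.den := Nat.cast_pos.2 t.pos
  have h1 : (n : ℚ) = t.den ^ Fintype.card (K ≃ₐ[ℚ] K) * D := by
    refine Rat.cast_injective (α := K) ?_
    have : (t.num : K) = t.den * t := by
      rw [mul_comm]
      exact_mod_cast congrArg (Rat.cast : ℚ → K) (Rat.mul_den_eq_num t).symm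
    rw [Rat.cast_intCast, ← hn, Rat.cast_mul, e1, this, Int.cast_natCast, ← mul_sub, nr_mul]
    simp only [Nr, map_natCast, prod_const, card_univ, map_sub, map_ratCast, Rat.cast_pow, Rat.cast_natCast]
  have h2 : n ∣ R := dvd_of_free
    (fun p _ hp => P.d_free t.isCoprime_num_den hn (hS p hp))
    (mul_mem (pow_mem ((Sm.den ht).div_mem 1) (Fintype.card (K ≃ₐ[ℚ] K))) (mul_mem hz hz')) (by
      rw [e4, e2, h1, Int.cast_one, one_div, inv_pow]
      field_simp)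
  have h3 : 3 * (t.den : ℝ) ≤ t.num := by
    have : 3 * (t.den : ℚ) ≤ t.num := by
      rw [← Rat.mul_den_eq_num]
      exact mul_le_mul_of_nonneg_right t3 d0.le
    exact_mod_cast this
  have d1 : (1 : ℝ) ≤ t.den := by exact_mod_cast t.pos
  have h4 : (t.num : ℝ) / 3 ≤ |(n : ℝ)| := by
    have h5 := P.nr_abs (n := n) (hn.trans (Rat.cast_intCast n).symm)
    rw [Rat.cast_intCast] at h5
    rw [h5]
    refine (le_self_pow₀ (by linarith only [h3, d1]) (Fintype.card_ne_zero (α := K ≃ₐ[ℚ] K))).trans ?_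
    rw [← card_univ, ← prod_const]
    refine prod_le_prod (fun _ _ => by linarith only [h3, d1]) fun g _ => le_trans ?_ (le_abs_self _)
    have := (abs_le.1 (P.η_le g)).2
    simp only [map_sub, map_mul, map_intCast, Int.cast_natCast, map_natCast]
    nlinarith only [h3, this]
  have h5 : t.num ≤ 3 * |n| := by
    have : (t.num : ℝ) ≤ 3 * |(n : ℝ)| := by linarith only [h4]
    exact_mod_cast this
  have h6 := Int.le_of_dvd (abs_pos.2 R0) ((abs_dvd_abs _ _).2 h2)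
  have h7 : (4 : ℤ) ≤ (M : ℤ) ^ 2 := by nlinarith only [hM]
  rw [pow_add]
  nlinarith only [abs_nonneg n, hR, h5, h6, h7]

theorem g_zpow {c y : K} (h : y ∈ AS S K ∧ y * P.τ y = 1 ∧ DvA S c (y - 1)) (k : ℤ) :
    y ^ k ∈ AS S K ∧ y ^ k * P.τ (y ^ k) = 1 ∧ DvA S c (y ^ k - 1) := by
  have k1 : ∀ (y : K) (k : ℕ), y ∈ AS S K ∧ y * P.τ y = 1 ∧ DvA S c (y - 1) →
      y ^ k ∈ AS S K ∧ y ^ k * P.τ (y ^ k) = 1 ∧ DvA S c (y ^ k - 1) := fun y k h =>
    ⟨pow_mem h.1 k, P.u_pow h.2.1 k, by simpa using h.2.2.pow h.1 (one_mem _) k⟩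
  rcases k with k | k
  · simpa only [Int.ofNat_eq_natCast, zpow_natCast, map_pow] using k1 y k h
  · rw [zpow_negSucc, ← inv_pow, ← eq_inv_of_mul_eq_one_right h.2.1]
    refine k1 _ _ ⟨AS.map _ h.1, by rw [P.ττ, mul_comm, h.2.1], ?_⟩
    convert (h.2.2.mul (AS.map P.τ h.1)).neg using 1
    linear_combination h.2.1

theorem root (hS : ∀ Q ∈ S, Gd m Q) {v x : K} (hv : v ∈ AS S K) (v1 : v * P.τ v = -1)
    (hx : x ∈ AS S K) (x1 : x * P.τ x = 1) (hd : DvA S (P.X v) (x - 1)) {a b : ℤ}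
    (hc : IsCoprime a b) (h : ∀ g, b * P.l g x = a * P.l g (v ^ 2)) : b < 3 := by
  obtain ⟨i, j, hc⟩ := hc
  obtain ⟨a1, a2, a3⟩ := P.g_zpow ⟨hx, x1, hd⟩ i
  obtain ⟨b1, b2, b3⟩ := P.g_zpow ⟨pow_mem hv 2, P.v_sq v1, v, hv, P.x_eq v1⟩ j
  have c0 : ∀ g, b * P.l g (x ^ i * (v ^ 2) ^ j) = 2 * P.l g v := fun g => by
    have h1 : (i : ℝ) * a + j * b = 1 := by exact_mod_cast hc
    have h2 := h g
    rw [P.l_mul g (left_ne_zero_of_mul_eq_one a2) (left_ne_zero_of_mul_eq_one b2), l_zpow, l_zpow]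
    rw [l_pow] at h2 ⊢
    push_cast at h2 ⊢
    linear_combination i * h2 + 2 * P.l g v * h1
  have c1 := mul_mem a1 b1
  have c2 : x ^ i * (v ^ 2) ^ j * P.τ (x ^ i * (v ^ 2) ^ j) = 1 := by
    rw [map_mul, mul_mul_mul_comm, a2, b2, one_mul]
  have c3 : DvA S (P.X v) (x ^ i * (v ^ 2) ^ j - 1) := by
    convert (b3.mul a1).add a3 using 1
    ring
  generalize x ^ i * (v ^ 2) ^ j = y at c0 c1 c2 c3
  obtain ⟨z, hz, e⟩ := c3.sub (P.g_zpow ⟨c1, c2, c3⟩ (-1)).2.2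
  rw [zpow_neg_one, sub_sub_sub_cancel_right] at e
  have y1 := P.desc hS c1 (c2 ▸ isIntegral_one)
  obtain ⟨n, hn⟩ := P.nr_int (x := y - y⁻¹)
    (y1.sub (eq_inv_of_mul_eq_one_right c2 ▸ map_isIntegral_int P.τ y1))
  obtain ⟨n', hn', -, h1⟩ := P.x_free (P.desc hS hv (v1 ▸ isIntegral_one.neg)) v1
  obtain ⟨c, hc', e'⟩ := P.nr_rat hz
  have h2 : n' ∣ n := dvd_of_free (fun p _ hp => h1 p (hS p hp)) hc' (by
    rw [e, nr_mul, hn', e'] at hn
    exact_mod_cast hn.symm)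
  have d1 := P.nr_sinh (left_ne_zero_of_mul_eq_one c2) rfl (n := n) (by simpa using hn)
  have d2 := P.nr_sinh (P.v_ne v1) (P.x_inv v1) (n := n') (by simpa using hn')
  have l0 : ∀ g, 0 < 2 * Real.sinh |P.l g y| := fun g => by
    have : P.l g y ≠ 0 := fun e => P.l_ne g v1 (by simpa [e] using c0 g)
    have := Real.sinh_pos_iff.2 (abs_pos.2 this)
    positivity
  push_cast at d1 d2
  have n0 : 0 < |n| := by
    have : 0 < |(n : ℝ)| := d1 ▸ prod_pos fun g _ => l0 g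
    exact_mod_cast this
  have h3 : |(n' : ℝ)| ≤ |(n : ℝ)| := by
    exact_mod_cast Int.le_of_dvd n0 ((abs_dvd_abs _ _).2 h2)
  by_contra hb
  have b3 : (3 : ℝ) ≤ b := by exact_mod_cast not_lt.1 hb
  refine h3.not_gt ?_
  rw [d1, d2]
  refine prod_lt_prod_of_nonempty (fun g _ => l0 g) (fun g _ => ?_) univ_nonempty
  refine mul_lt_mul_of_pos_left (Real.sinh_lt_sinh.2 ?_) two_pos
  have h4 := congrArg abs (c0 g)
  rw [abs_mul, abs_mul, abs_two, abs_of_nonneg (by linarith only [b3] : (0 : ℝ) ≤ b)] at h4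
  nlinarith only [abs_pos.2 (P.l_ne g v1), b3, h4]

theorem ph_sound : ∃ s : ℕ, ∀ S : Set ℕ, (∀ Q ∈ S, Gd m Q) → ∀ (t r : ℚ) (w : Fin s → ℚ),
    t ∈ RS S → r ∈ RS S → P.PH S t r w → ∃ r0 : ℤ, r = r0 ∧ P.RR r0 ∧ ∀ Z : ℕ,
      |r0| ≤ 2 ^ Z ^ 2 → (∀ i, ∃ q : ℕ, q.Prime ∧ q ∉ S ∧ Z < q ∧ 0 < padicValRat q (w i)) →
        ∃ n : ℤ, t = n := by
  obtain ⟨k0, hk0⟩ := P.div_sound
  obtain ⟨k, hk⟩ := P.core
  obtain ⟨s, hs⟩ := P.res (k + k0 + 1)
  refine ⟨s, fun S hS t r w ht hr ⟨t3, h1, h2, h3⟩ => ?_⟩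
  obtain ⟨r, rfl, h4⟩ := P.ra_sound hS hr h1
  refine ⟨r, rfl, h4, fun Z hZ hq => ?_⟩
  have hM : 2 ≤ max 2 (Z + 1) := le_max_left _ _
  have hL : Z ^ 2 + 1 ≤ max 2 (Z + 1) ^ 2 :=
    le_trans (by nlinarith [Nat.zero_le Z]) (Nat.pow_le_pow_left (le_max_right _ _) 2)
  replace hq : ∀ i, ∃ q : ℕ, q.Prime ∧ q ∉ S ∧ max 2 (Z + 1) ≤ q ∧ 0 < padicValRat q (w i) :=
    fun i => (hq i).imp fun q h => ⟨h.1, h.2.1, max_le h.1.two_le h.2.2.1, h.2.2.2⟩
  generalize max 2 (Z + 1) = M at hM hL hq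
  have hZ' : |(r : ℚ)| ≤ 2 ^ Z ^ 2 := by exact_mod_cast hZ
  have t1 := hk0 M _ hM hL S hS t r ht t3 hZ' h2
  obtain ⟨ρ, hρ, v, hv, μ, hμ, x, hx, v1, v2, hp, x1, x2, x3, s1, s2, w1, w2⟩ := h3
  have ρ0 : ρ ≠ 0 := fun e => P.x_ne v1 (by simp [v2, e])
  have v3 : Lin S ρ (v ^ 2) μ := v2 ▸ .one hμ
  obtain ⟨a, b, h0, ha, hb, hd, hl⟩ := hk M _ hM hL S hS ρ r x _ _ μ hρ ρ0 hZ' hx x1
    ⟨mul_mem (AS.rat.2 ht) hμ, x2⟩ s2 (pow_mem hv 2) (P.v_sq v1) v3 s1
  have t2 : 3 * (t.den : ℤ) ≤ t.num := by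
    have : 3 * (t.den : ℚ) ≤ t.num := by
      rw [← Rat.mul_den_eq_num]
      exact mul_le_mul_of_nonneg_right t3 (Nat.cast_nonneg _)
    exact_mod_cast this
  have d0 : (0 : ℤ) < t.den := Nat.cast_pos.2 t.pos
  let o : Fin (2 ^ P.e) := ⟨0, Nat.two_pow_pos _⟩
  have hγ : (fun i => t.den * b i + Pi.single (M := fun _ => ℤ) o (a * t.num) i) = 0 := by
    by_contra hγ
    refine (hs M hM S ρ _ μ hρ ρ0 (P.v_sq v1) v3 hp _ hγ (fun i => ?_) ?_).elim
      fun R ⟨R0, hR, z, hz, e⟩ => hR.not_ge (pl_many R0 (fun i => ?_) w2 hq)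
    rotate_right
    · obtain ⟨y, hy, e'⟩ := w1 i
      exact ⟨y * z, mul_mem hy hz, by rw [e, e', mul_assoc]⟩
    · have m0 : (0 : ℤ) ≤ (M : ℤ) ^ k := by positivity
      have b1 : |t.den * b i| ≤ (M : ℤ) ^ k0 * M ^ k := by
        rw [abs_mul, abs_of_pos d0]
        exact mul_le_mul (by omega) (hb i) (abs_nonneg _) (by positivity)
      have b2 : |Pi.single (M := fun _ => ℤ) o (a * t.num) i| ≤ (M : ℤ) ^ k * M ^ k0 := by
        rw [Pi.single_apply]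
        split_ifs
        · rw [abs_mul, abs_of_pos (by omega : 0 < t.num)]
          exact mul_le_mul ha t1 (by omega) m0
        · simpa only [abs_zero] using by positivity
      refine (abs_add_le _ _).trans ?_
      have b3 : (0 : ℤ) ≤ (M : ℤ) ^ k * M ^ k0 := by positivity
      rw [pow_succ, pow_add]
      nlinarith only [hM, b1, b2, b3]
    · have : (t.num : K) = t * t.den := by
        exact_mod_cast congrArg (Rat.cast : ℚ → K) (Rat.mul_den_eq_num t).symm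
      convert hd.mul (natCast_mem _ t.den) using 1
      simp only [Pi.single_apply, Int.cast_add, Int.cast_mul, Int.cast_ite, Int.cast_zero, add_mul,
        ite_mul, zero_mul, sum_add_distrib, sum_ite_eq', mem_univ, if_true, mul_add, mul_sum, this,
        Int.cast_natCast, mul_assoc, o, pow_zero, AlgEquiv.one_apply]
      ring
  have b1 : ∀ i, i ≠ o → b i = 0 := fun i hi => by
    simpa [hi, t.den_nz] using congrFun hγ i
  have b2 : t.den * b o + a * t.num = 0 := by simpa only [Pi.single_eq_same, Pi.zero_apply] using congrFun hγ o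
  have a0 : a ≠ 0 := by
    rintro rfl
    refine h0.resolve_left (by simp) (funext fun i => ?_)
    rcases eq_or_ne i o with rfl | hi
    · simpa [t.den_nz] using b2
    · exact b1 i hi
  have h5 := P.root hS hv v1 hx x1 x3 t.isCoprime_num_den fun g => by
    have h6 := hl g
    rw [sum_eq_single o (fun i _ hi => by simp [b1 i hi]) (by simp)] at h6
    have h7 : (t.den : ℝ) * b o + a * t.num = 0 := by exact_mod_cast b2
    refine mul_left_cancel₀ (Int.cast_ne_zero.2 a0 : (a : ℝ) ≠ 0) ?_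
    simp only [o, pow_zero, AlgEquiv.one_apply] at h6 h7
    push_cast
    linear_combination t.den * h6 - P.l g (v ^ 2) * h7
  have h6 : ¬ 2 ∣ t.den := fun h => (hS 2 (ht 2 Nat.prime_two h)).2.1 rfl
  exact ⟨t.num, ((Rat.den_eq_one_iff t).1 (by omega)).symm⟩

theorem hs_pow : ∃ h c : ℕ, ∀ (S : Set ℕ) (k : ℕ) (r : ℤ), 2 ^ (h * k + c) ≤ |r| →
    Hs S (P.v0 ^ k) r := by
  have := P.gal
  obtain ⟨h, hh⟩ := exists_nat_gt (∑ g : K ≃ₐ[ℚ] K, |P.φ (g P.v0)|)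
  refine ⟨h, Fintype.card (K ≃ₐ[ℚ] K), fun S k r hr => ?_⟩
  have e : ((Algebra.trace ℚ K ((P.v0 ^ k) ^ 2) : ℚ) : K) = ∑ g : K ≃ₐ[ℚ] K, g (P.v0 ^ k) ^ 2 :=
    (trace_eq_sum_automorphisms (K := ℚ) ((P.v0 ^ k) ^ 2)).trans
      (sum_congr rfl fun g _ => map_pow g _ 2)
  refine ⟨_, AS.rat.1 (e ▸ sum_mem fun g _ =>
    pow_mem (AS.map g (AS.of_int (P.v_int.pow k))) 2), e, ?_⟩
  have h1 := congrArg P.φ e
  rw [map_ratCast, map_sum] at h1
  rw [← Rat.cast_le (K := ℝ), h1]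
  have h2 : (2 : ℝ) ^ (h * k + Fintype.card (K ≃ₐ[ℚ] K)) ≤ |(r : ℝ)| := by exact_mod_cast hr
  refine (sum_le_card_nsmul _ _ (((2 : ℝ) ^ (h * k)) ^ 2) fun g _ => ?_).trans ?_
  · rw [map_pow, ← sq_abs, map_pow, map_pow, abs_pow, pow_mul]
    have h3 : |P.φ (g P.v0)| ≤ 2 ^ h :=
      (single_le_sum (f := fun g : K ≃ₐ[ℚ] K => |P.φ (g P.v0)|) (fun _ _ => abs_nonneg _)
        (mem_univ g)).trans (hh.le.trans (by exact_mod_cast Nat.lt_two_pow_self.le))
    gcongr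
  · push_cast
    rw [← sq_abs (r : ℝ), card_univ, nsmul_eq_mul]
    refine le_trans ?_ (pow_le_pow_left₀ (by positivity) h2 2)
    rw [pow_add, mul_pow, mul_comm]
    gcongr
    exact_mod_cast Nat.lt_two_pow_self.le.trans (Nat.le_self_pow two_ne_zero _)

theorem v_tor {k : ℕ} (hk : k ≠ 0) : (P.v0 ^ k) ^ 2 ≠ 1 := fun e => by
  have := congrArg (P.l 1) e
  rw [l_pow, l_pow] at this
  exact P.l_ne 1 P.v_nm (by simpa [hk, l] using this)

theorem div_complete {t : ℕ} (ht : 3 ≤ t) : ∃ d : ℕ, ∀ (S : Set ℕ) (r : ℤ), 2 ^ d ≤ |r| →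
    P.Div S t r := by
  obtain ⟨h, c, hc⟩ := P.hs_pow
  obtain ⟨D, hD⟩ := P.nr_int ((isIntegral_natCast (B := K) t).sub P.η_int)
  have D0 : D ≠ 0 := by
    rintro rfl
    refine nr_ne (sub_ne_zero.2 fun e => ?_) (by simpa using hD)
    have h1 := (abs_le.1 (P.η_le 1)).2
    rw [← e, map_natCast, map_natCast] at h1
    have : (3 : ℝ) ≤ t := by exact_mod_cast ht
    linarith only [h1, this]
  obtain ⟨j, j0, hj⟩ := pl_order P.v_int (map_isIntegral_int P.τ P.v_int).neg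
    (by rw [mul_neg, τ, P.v_nm, neg_neg]) D0
  have hv := (P.v_int.pow j).pow 2
  obtain ⟨ρ, μ, ρ0, hμ, e, hp, hd⟩ := pl_cont (hv.sub isIntegral_one)
    (sub_ne_zero.2 (P.v_tor j0.ne'))
  obtain ⟨z, hz⟩ := hd D (by simpa using hj.pow (AS.of_int (P.v_int.pow j)) (one_mem _) 2)
  have e1 : (P.v0 ^ j) ^ 2 = 1 + ((ρ : ℚ) : K) * μ := by push_cast; linear_combination e
  have e2 : (P.v0 ^ j) ^ 2 * P.τ ((P.v0 ^ j) ^ 2) = 1 := by
    rw [pow_right_comm]
    exact P.u_pow (P.v_sq P.v_nm) j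
  refine ⟨h * (j * 2 * ρ) + c, fun S r hr => ⟨D, intCast_mem _ _, ρ, natCast_mem _ _, _,
    AS.of_int hv, μ, AS.of_int hμ, _, AS.of_int (hv.pow ρ), by simpa using hD.symm,
    ⟨z, intCast_mem _ _, by exact_mod_cast hz⟩, e2, e1, hp S, P.u_pow e2 ρ, ?_, ?_, ?_, ?_⟩⟩
  · have h1 := ((Lin.one (S := S) (ρ := ρ) (AS.of_int hμ)).pow (natCast_mem _ _) ρ).2
    rw [← e1] at h1
    convert h1.add ⟨μ, AS.of_int hμ, rfl⟩ using 1
    push_cast
    ring
  · simpa only [pow_mul] using P.v_tor (k := j * 2 * ρ) (by positivity)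
  · rw [← pow_mul]
    refine hc S _ r (le_trans (pow_le_pow_right₀ one_le_two ?_) hr)
    have := Nat.le_mul_of_pos_right (j * 2) (Nat.pos_of_ne_zero ρ0)
    gcongr
  · rw [← pow_mul, ← pow_mul, ← mul_assoc]
    exact hc S _ r hr

theorem ph_complete (s : ℕ) {t : ℕ} (ht : 3 ≤ t) : ∃ Z0 : ℕ, ∀ Z, Z0 ≤ Z →
    ∀ (S : Set ℕ) (q : Fin s → ℕ) (J : ℕ) (r : ℤ), Function.Injective q →
      (∀ i, (q i).Prime ∧ 2 ^ m ∣ q i + 1 ∧ q i - 1 ∣ 2 * J) → Odd J → J ^ 2 ≤ Z ^ 3 →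
      P.RR r → 2 ^ (Z - 1) ^ 2 < |r| → P.PH S t r fun i => (q i : ℚ) := by
  obtain ⟨h, c, hc⟩ := P.hs_pow
  obtain ⟨d, hd⟩ := P.div_complete ht
  obtain ⟨Z0, hZ⟩ := pl_asym (h * 2 * t) (c + d)
  refine ⟨Z0, fun Z h0 S q J r hq h1 hJ h2 ⟨u, u1, u2, u3⟩ hr => ?_⟩
  have h3 : ∀ a, a ≤ h * 2 * t * J + (c + d) → 2 ^ a ≤ |r| := fun a ha =>
    (pow_le_pow_right₀ one_le_two (ha.trans (hZ Z h0 J h2))).trans hr.le
  have v1 := P.v_pow hJ
  have hv := P.v_int.pow J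
  obtain ⟨ρ, μ, ρ0, hμ, e, hp, hq'⟩ := pl_cont ((hv.pow 2).sub isIntegral_one)
    (sub_ne_zero.2 (P.x_ne v1))
  have e1 : (P.v0 ^ J) ^ 2 = 1 + ((ρ : ℚ) : K) * μ := by push_cast; linear_combination e
  refine ⟨by exact_mod_cast ht, ⟨u, AS.of_int u1, u2, by simpa using u3⟩, hd S r (h3 d (by omega)),
    ρ, natCast_mem _ _, _, AS.of_int hv, μ, AS.of_int hμ, _, AS.of_int ((hv.pow 2).pow t), v1, e1,
    hp S, P.u_pow (P.v_sq v1) t, ?_, ?_, ?_, ?_, fun i => ?_, fun i j hij => ?_⟩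
  · simpa [e1] using ((Lin.one (S := S) (ρ := ρ) (AS.of_int hμ)).pow (natCast_mem _ _) t).2
  · simpa using DvA.pow (AS.of_int (hv.pow 2)) (one_mem _) ⟨_, AS.of_int hv, P.x_eq v1⟩ t
  · rw [← pow_mul]
    refine hc S _ r (h3 _ ?_)
    have := Nat.le_mul_of_pos_right (h * (J * 2)) (by omega : 0 < t)
    linarith only [this]
  · rw [← pow_mul, ← pow_mul]
    exact hc S _ r (h3 _ (by linarith only []))
  · obtain ⟨p1, p2, k, hk⟩ := h1 i
    obtain ⟨b, hb, e2⟩ := P.F2 _ p1 p2 _ P.v_int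
    have h4 : DvA ∅ (((q i : ℕ) : ℤ) : K) (P.v0 ^ (q i - 1) - 1) := by
      refine ⟨_, AS.of_int (hb.mul (map_isIntegral_int P.τ P.v_int)).neg, ?_⟩
      have h5 : P.v0 * P.τ P.v0 = -1 := P.v_nm
      rw [← Nat.sub_add_cancel p1.one_le, pow_succ, Nat.sub_add_cancel p1.one_le] at e2
      push_cast
      linear_combination -P.τ P.v0 * e2 + (P.v0 ^ (q i - 1) - 1) * h5
    obtain ⟨z, hz⟩ := hq' (q i) (by
      rw [← pow_mul, mul_comm J, hk, pow_mul]
      simpa only [Int.cast_natCast, one_pow] using h4.pow (AS.of_int (P.v_int.pow _)) (one_mem _) k)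
    exact ⟨z, intCast_mem _ _, show (ρ : ℚ) = q i * z by exact_mod_cast hz⟩
  · obtain ⟨a, b, e⟩ := Nat.isCoprime_iff_coprime.2
      ((Nat.coprime_primes (h1 i).1 (h1 j).1).2 (hq.ne hij))
    exact ⟨a, intCast_mem _ _, b, intCast_mem _ _,
      show (a : ℚ) * q i + b * q j = 1 by exact_mod_cast e⟩

end Pell

@[fun_prop] theorem KF.nr {Γ : Type} [Ctx (RS S) Γ] {F : Γ → K} (hF : KF S F) :
    KF S fun g => Nr (F g) := KF.prod _ fun g => hF.aut g

theorem hs_dio {Γ : Type} [Ctx (RS S) Γ] {F : Γ → K} {H : Γ → ℚ} (hF : KF S F) (hH : QF S H) :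
    Dio (RS S) fun g => Hs S (F g) (H g) := by
  have : Dio (RS S) fun z : AS S K × RS S => Hs S (z.1 : K) z.2 :=
    dq_ex (.and (dk_eq (by fun_prop) (.sum _ fun g => (KF.aut g (by fun_prop)).pow 2))
      (dq_le (by fun_prop) (by fun_prop)))
  obtain ⟨h, hh, e⟩ := hH
  exact (this.comp (f := fun g => (⟨F g, hF.mem g⟩, h g)) ((pf_AS.2 hF).mk hh)).congr
    fun g => by rw [e]

theorem prim_dio {Γ : Type} [Ctx (RS S) Γ] {F : Γ → K} {H : Γ → ℚ} (hF : KF S F) (hH : QF S H) :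
    Dio (RS S) fun g => Prim S (F g) (H g) := by
  have : Dio (RS S) fun z : AS S K × RS S => Prim S (z.1 : K) z.2 :=
    dq_exs (dq_ex (dq_eq (by fun_prop) (.const (one_mem _))))
  obtain ⟨h, hh, e⟩ := hH
  exact (this.comp (f := fun g => (⟨F g, hF.mem g⟩, h g)) ((pf_AS.2 hF).mk hh)).congr
    fun g => by rw [e]

theorem Pell.ph_dio (P : Pell m K) {S : Set ℕ} (h0 : Dio (RS S) fun z : RS S => z ≠ 0) (s : ℕ) :
    Dio (RS S) fun z : (RS S × RS S) × (Fin s → RS S) =>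
      P.PH S z.1.1 z.1.2 fun i => (z.2 i : ℚ) := by
  have hη : P.η ∈ AS S K := AS.of_int P.η_int
  have hv : Nr (P.v0 + P.τ P.v0) ∈ AS S K := nr_mem (AS.of_int (P.x_int P.v_int))
  have co : Dio (RS S) fun z : Fin s → RS S => ∀ i j, i ≠ j →
      ∃ a ∈ RS S, ∃ b ∈ RS S, a * z i + b * z j = 1 :=
    (Dio.all (σ := {p : Fin s × Fin s // p.1 ≠ p.2}) (S := fun p (z : Fin s → RS S) =>
      ∃ a ∈ RS S, ∃ b ∈ RS S, a * z p.1.1 + b * z p.1.2 = 1) fun p =>
        dq_ex (dq_ex (dq_eq (by fun_prop) (.const (one_mem _))))).congr fun z =>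
          ⟨fun h p => h _ _ p.2, fun h i j hij => h ⟨(i, j), hij⟩⟩
  unfold Pell.PH Pell.RA Pell.Div Pell.Main Pell.X
  refine .and (dq_le ?_ ?_) (.and (dk_ex (.and (dk_eq ?_ ?_) (dk_eq ?_ ?_))) (.and
    (dq_ex (dq_ex (dk_ex (dk_ex (dk_ex (.and (dk_eq ?_ ?_) (.and (dq_dv ?_ ?_) (.and (dk_eq ?_ ?_)
      (.and (dk_eq ?_ ?_) (.and (prim_dio ?_ ?_) (.and (dk_eq ?_ ?_) (.and (dk_dv ?_ ?_)
      (.and (dk_ne h0 ?_ ?_) (.and (hs_dio ?_ ?_) (hs_dio ?_ ?_)))))))))))))))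
    (dq_ex (dk_ex (dk_ex (dk_ex (.and (dk_eq ?_ ?_) (.and (dk_eq ?_ ?_) (.and (prim_dio ?_ ?_)
      (.and (dk_eq ?_ ?_) (.and (dk_dv ?_ ?_) (.and (dk_dv ?_ ?_) (.and (hs_dio ?_ ?_)
      (.and (hs_dio ?_ ?_) (.and (.all fun i => dq_dv ?_ ?_) (co.comp ?_))))))))))))))))
  all_goals fun_prop (disch := first | assumption | simp)

end Pool.Agent.MP_a59382_lc.V3

end

-- part MP_a59382_lc.V3.TTow
section

/-! Norm classes in towers of quadratic extensions. -/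

set_option autoImplicit false

namespace Pool.Agent.MP_a59382_lc.V3

open NumberField IsDedekindDomain Pool.Agent.MP_48b1c3_nt.H91

/-- the extension by a square root of `y` is harmless at `p` -/
def Good {k : Type} [Field k] (p : ℕ) (y : k) : Prop :=
  (p ≠ 2 ∧ ∃ (c : k) (y' : 𝓞 k), (y' : k) = c ^ 2 * y ∧ IsCoprime y' (p : 𝓞 k)) ∨
    (p = 2 ∧ ∃ c : 𝓞 k, y = 1 + 8 * (c : k))

theorem t_pp {R : Type} [CommRing R] {p q : ℕ} (hp : p.Prime) (hq : q.Prime) (h : p ≠ q)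
    (i j : ℕ) : IsCoprime ((p ^ i : ℕ) : R) ((q ^ j : ℕ) : R) :=
  Nat.Coprime.cast (Nat.coprime_pow_primes i j hp hq h)

/-- gluing of classes modulo prime powers -/
theorem t_crt {R : Type} [CommRing R] {M : ℕ} (hM : 0 < M) (f : ℕ → R) :
    ∃ z : R, ∀ p e : ℕ, p.Prime → p ^ e ∣ M → ((p ^ e : ℕ) : R) ∣ z - f p := by
  obtain ⟨z, hz⟩ := Ideal.exists_forall_sub_mem_ideal (ι := M.primeFactors)
    (I := fun p => Ideal.span {((p.1 ^ M.factorization p.1 : ℕ) : R)})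
    (fun p q h => (Ideal.isCoprime_span_singleton_iff _ _).2
      (t_pp (Nat.prime_of_mem_primeFactors p.2) (Nat.prime_of_mem_primeFactors q.2)
        (fun e => h (Subtype.ext e)) _ _)) fun p => f p.1
  refine ⟨z, fun p e hp he => ?_⟩
  rcases Nat.eq_zero_or_pos e with rfl | h0
  · simp only [pow_zero, Nat.cast_one, isUnit_one, IsUnit.dvd]
  have h1 : p ∈ M.primeFactors :=
    Nat.mem_primeFactors.2 ⟨hp, (dvd_pow_self p h0.ne').trans he, hM.ne'⟩
  exact (Nat.cast_dvd_cast (pow_dvd_pow p ((hp.pow_dvd_iff_le_factorization hM.ne').1 he))).trans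
    (Ideal.mem_span_singleton.1 (hz ⟨p, h1⟩))

/-- divisibility is tested on prime powers -/
theorem t_dvd {R : Type} [CommRing R] {M : ℕ} (hM : 0 < M) {x : R}
    (h : ∀ p e : ℕ, p.Prime → 0 < e → p ^ e ∣ M → ((p ^ e : ℕ) : R) ∣ x) : (M : R) ∣ x := by
  have h1 : (M : R) = ∏ p ∈ M.primeFactors, ((p ^ M.factorization p : ℕ) : R) := by
    rw [← Nat.cast_prod]
    exact congrArg _ (Nat.prod_factorization_pow_eq_self hM.ne').symm
  rw [h1]
  refine Finset.prod_dvd_of_coprime (fun p hp q hq hpq => t_pp (Nat.prime_of_mem_primeFactors hp)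
    (Nat.prime_of_mem_primeFactors hq) hpq _ _) fun p hp => ?_
  exact h p _ (Nat.prime_of_mem_primeFactors hp)
    ((Nat.prime_of_mem_primeFactors hp).factorization_pos_of_dvd hM.ne'
      (Nat.dvd_of_mem_primeFactors hp)) (Nat.ordProj_dvd M p)

theorem t_bij {R : Type} [CommRing R] [Finite R] {n : R} (hn : IsNilpotent n) (c : R) :
    ∃ b, b + n * b ^ 2 = c := by
  refine Finite.surjective_of_injective (f := fun b : R => b + n * b ^ 2) (fun b b' h => ?_) c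
  have h1 : IsUnit (1 + n * (b + b')) :=
    ((Commute.all _ _).isNilpotent_mul_right hn).isUnit_one_add
  have h2 : (1 + n * (b + b')) * (b - b') = 0 := by
    dsimp only at h
    linear_combination h
  exact sub_eq_zero.1 (h1.mul_right_eq_zero.1 h2)

theorem t_root {R : Type} [CommRing R] [Finite R] {n : R} (hn : IsNilpotent n) (j : ℕ) :
    ∀ c : R, ∃ b, (1 + 2 * n * b) ^ 2 ^ j = 1 + 2 ^ j * (2 * n) * c := by
  induction j with
  | zero => exact fun c => ⟨c, by ring⟩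
  | succ j ih =>
    intro c
    obtain ⟨d, hd⟩ := t_bij ((Commute.all ((2 : R) ^ j) n).isNilpotent_mul_left hn) c
    obtain ⟨b, hb⟩ := ih d
    refine ⟨b, ?_⟩
    rw [pow_succ, pow_mul, hb, ← hd]
    ring

theorem t_qf {R : Type} [CommRing R] [Finite R] (h2 : IsUnit (2 : R)) {y a : R} (hy : IsUnit y)
    (ha : IsUnit a) : ∃ x b : R, x ^ 2 - y * b ^ 2 = a := by
  have h1 : ∀ m : MaximalSpectrum R, ∃ x b : R, x ^ 2 - y * b ^ 2 - a ∈ m.asIdeal := fun m => by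
    have := m.isMaximal
    let _ := Ideal.Quotient.field m.asIdeal
    have : Finite (R ⧸ m.asIdeal) := Finite.of_surjective _ Ideal.Quotient.mk_surjective
    let _ := Fintype.ofFinite (R ⧸ m.asIdeal)
    have hc : ringChar (R ⧸ m.asIdeal) ≠ 2 := fun h => by
      have h3 := (h2.map (Ideal.Quotient.mk m.asIdeal)).ne_zero
      rw [map_ofNat] at h3
      exact h3 (by exact_mod_cast (ringChar.spec (R ⧸ m.asIdeal) 2).2 (h ▸ dvd_rfl))
    have hy' : -Ideal.Quotient.mk m.asIdeal y ≠ 0 := neg_ne_zero.2 (hy.map _).ne_zero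
    obtain ⟨x, b, h⟩ := FiniteField.exists_root_sum_quadratic
      (f := Polynomial.X ^ 2 - Polynomial.C (Ideal.Quotient.mk m.asIdeal a))
      (g := Polynomial.C (-Ideal.Quotient.mk m.asIdeal y) * Polynomial.X ^ 2)
      (Polynomial.degree_X_pow_sub_C two_pos _) (Polynomial.degree_C_mul_X_pow 2 hy')
      (FiniteField.odd_card_of_char_ne_two hc)
    obtain ⟨x, rfl⟩ := Ideal.Quotient.mk_surjective x
    obtain ⟨b, rfl⟩ := Ideal.Quotient.mk_surjective b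
    refine ⟨x, b, Ideal.Quotient.eq_zero_iff_mem.1 ?_⟩
    simp only [Polynomial.eval_sub, Polynomial.eval_pow, Polynomial.eval_X, Polynomial.eval_C,
      Polynomial.eval_mul] at h
    simp only [map_sub, map_mul, map_pow]
    linear_combination h
  choose x b hxb using h1
  have hI : Pairwise (Function.onFun IsCoprime fun m : MaximalSpectrum R => m.asIdeal) :=
    fun _ _ h => MaximalSpectrum.isCoprime_of_ne h
  obtain ⟨X, hX⟩ := Ideal.exists_forall_sub_mem_ideal hI x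
  obtain ⟨B, hB⟩ := Ideal.exists_forall_sub_mem_ideal hI b
  have hn : IsNilpotent (X ^ 2 - y * B ^ 2 - a) := nilpotent_iff_mem_prime.2 fun J hJ => by
    let m : MaximalSpectrum R := ⟨J, inferInstance⟩
    have e : X ^ 2 - y * B ^ 2 - a = (x m ^ 2 - y * b m ^ 2 - a) + (X + x m) * (X - x m) -
      y * (B + b m) * (B - b m) := by ring
    rw [e]
    exact sub_mem (add_mem (hxb m) (Ideal.mul_mem_left _ _ (hX m))) (Ideal.mul_mem_left _ _ (hB m))
  obtain ⟨u, hu⟩ := (hn.isUnit_add_right_of_commute ha (Commute.all _ _)).exists_right_inv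
  obtain ⟨v, hv⟩ := (h2.pow 2).exists_right_inv
  obtain ⟨d, hd⟩ := t_root ((Commute.all _ (-u)).isNilpotent_mul_right hn) 1 v
  generalize 1 + 2 * ((X ^ 2 - y * B ^ 2 - a) * -u) * d = s at hd
  refine ⟨s * X, s * B, ?_⟩
  linear_combination (X ^ 2 - y * B ^ 2) * hd - (X ^ 2 - y * B ^ 2 - a) * hu -
    (X ^ 2 - y * B ^ 2 - a) * u * (X ^ 2 - y * B ^ 2) * hv

variable {k Ω : Type} [Field k] [NumberField k] [Field Ω] [NumberField Ω] [Algebra k Ω]

theorem t_desc {E : Type} [Field E] [CharZero E] [Algebra k E] {q : ℕ} {x : 𝓞 k}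
    (h : (q : 𝓞 E) ∣ algebraMap (𝓞 k) (𝓞 E) x) : (q : 𝓞 k) ∣ x := by
  obtain ⟨c, hc⟩ := h
  have h1 : algebraMap k E x = q * (c : E) := congrArg (fun z : 𝓞 E => (z : E)) hc
  rcases Nat.eq_zero_or_pos q with rfl | hq
  · rw [Nat.cast_zero, zero_mul, map_eq_zero] at h1
    rw [show x = 0 from RingOfIntegers.ext h1]
    exact dvd_zero _
  have h2 : (q : k) ≠ 0 := Nat.cast_ne_zero.2 hq.ne'
  have h3 : algebraMap k E (x / q) = c := by
    rw [map_div₀, h1, map_natCast, mul_div_cancel_left₀ _ (Nat.cast_ne_zero.2 hq.ne')]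
  have h4 : IsIntegral ℤ ((x : k) / q) :=
    (isIntegral_algebraMap_iff (algebraMap k E).injective).1 (h3 ▸ c.2)
  refine ⟨⟨_, h4⟩, RingOfIntegers.ext ?_⟩
  change (x : k) = q * (x / q)
  rw [mul_div_cancel₀ _ h2]

theorem t_congr {q : ℕ} {P P' : 𝓞 Ω} (h : (q : 𝓞 Ω) ∣ P - P') :
    (q : 𝓞 k) ∣ RingOfIntegers.norm k P - RingOfIntegers.norm k P' := by
  have := Module.Finite.of_restrictScalars_finite ℚ k Ω
  have h1 : ∀ P : 𝓞 Ω, algebraMap (𝓞 k) (𝓞 (AlgebraicClosure k)) (RingOfIntegers.norm k P) =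
      ∏ σ : Ω →ₐ[k] AlgebraicClosure k, RingOfIntegers.mapRingHom σ.toRingHom P := fun P => by
    refine RingOfIntegers.ext ?_
    rw [RingOfIntegers.coe_eq_algebraMap (∏ σ, _), map_prod]
    exact Algebra.norm_eq_prod_embeddings k (AlgebraicClosure k) (P : Ω)
  refine t_desc (E := AlgebraicClosure k) ?_
  rw [map_sub, h1, h1, ← Ideal.mem_span_singleton, ← Ideal.Quotient.eq, map_prod, map_prod]
  refine Finset.prod_congr rfl fun σ _ => ?_
  rw [Ideal.Quotient.eq, Ideal.mem_span_singleton, ← map_sub]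
  simpa using map_dvd (RingOfIntegers.mapRingHom σ.toRingHom) h

theorem t_nm (P : 𝓞 Ω) : nm (RingOfIntegers.norm k P) = nm P := by
  have := Module.Finite.of_restrictScalars_finite ℚ k Ω
  refine Int.cast_injective (α := ℚ) ?_
  rw [Algebra.coe_norm_int, Algebra.coe_norm_int, RingOfIntegers.coe_norm, Algebra.norm_norm]

theorem t_cop_nm {q : ℕ} {a : 𝓞 k} : IsCoprime a (q : 𝓞 k) ↔ (nm a).natAbs.Coprime q := by
  rw [← Ideal.isCoprime_span_singleton_iff, Ideal.isCoprime_iff_sup_eq,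
    ← Ideal.absNorm_span_singleton]
  exact cop_iff

theorem t_cop {q : ℕ} {P : 𝓞 Ω} (h : IsCoprime (RingOfIntegers.norm k P) (q : 𝓞 k)) :
    IsCoprime P (q : 𝓞 Ω) := by
  rwa [t_cop_nm, t_nm, ← t_cop_nm] at h

/-- gluing of norm classes -/
theorem t_glue {q : ℕ} (hq : 0 < q) {a : 𝓞 k} (h : ∀ p e : ℕ, p.Prime → 0 < e → p ^ e ∣ q →
    ∃ P : 𝓞 Ω, ((p ^ e : ℕ) : 𝓞 k) ∣ RingOfIntegers.norm k P - a) :
    ∃ P : 𝓞 Ω, (q : 𝓞 k) ∣ RingOfIntegers.norm k P - a := by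
  have h1 : ∀ p : ℕ, ∃ P : 𝓞 Ω, ∀ e : ℕ, p.Prime → 0 < e → p ^ e ∣ q →
      ((p ^ e : ℕ) : 𝓞 k) ∣ RingOfIntegers.norm k P - a := fun p => by
    by_cases hp : p.Prime ∧ p ∣ q
    · obtain ⟨P, hP⟩ := h p _ hp.1 (hp.1.factorization_pos_of_dvd hq.ne' hp.2) (Nat.ordProj_dvd q p)
      exact ⟨P, fun e _ _ he => (Nat.cast_dvd_cast (pow_dvd_pow p
        ((hp.1.pow_dvd_iff_le_factorization hq.ne').1 he))).trans hP⟩
    · exact ⟨0, fun e h1 h2 he => absurd ⟨h1, (dvd_pow_self p h2.ne').trans he⟩ hp⟩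
  choose f hf using h1
  obtain ⟨P, hP⟩ := t_crt hq f
  refine ⟨P, t_dvd hq fun p e hp h0 he => ?_⟩
  have := dvd_add (t_congr (k := k) (hP p e hp he)) (hf p e hp h0 he)
  rwa [sub_add_sub_cancel] at this

theorem t_fin {q : ℕ} (hq : q ≠ 0) : Finite (𝓞 k ⧸ Ideal.span {(q : 𝓞 k)}) :=
  Ideal.finiteQuotientOfFreeOfNeBot _ (by simpa only [ne_eq, Submodule.span_eq_bot, Set.mem_singleton_iff, forall_eq, Nat.cast_eq_zero] using hq)

theorem t_unit {R : Type} [CommRing R] {a q : R} (h : IsCoprime a q) :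
    IsUnit (Ideal.Quotient.mk (Ideal.span {q}) a) := by
  obtain ⟨u, v, e⟩ := h
  refine IsUnit.of_mul_eq_one_right (Ideal.Quotient.mk _ u) ?_
  rw [← map_mul, ← map_one (Ideal.Quotient.mk _), Ideal.Quotient.eq, Ideal.mem_span_singleton]
  exact ⟨-v, by linear_combination e⟩

theorem t_nil {R : Type} [CommRing R] {p e : ℕ} {n : R} (h : (p : R) ∣ n) :
    IsNilpotent (Ideal.Quotient.mk (Ideal.span {((p ^ e : ℕ) : R)}) n) := by
  refine ⟨e, ?_⟩
  rw [← map_pow, Ideal.Quotient.eq_zero_iff_mem, Ideal.mem_span_singleton, Nat.cast_pow]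
  exact pow_dvd_pow_of_dvd h e

theorem t_root' {p : ℕ} (hp : p.Prime) (e j : ℕ) {n : 𝓞 k} (hn : (p : 𝓞 k) ∣ n) (c : 𝓞 k) :
    ∃ b, ((p ^ e : ℕ) : 𝓞 k) ∣ (1 + 2 * n * b) ^ 2 ^ j - (1 + 2 ^ j * (2 * n) * c) := by
  have := t_fin (k := k) (pow_ne_zero e hp.ne_zero)
  obtain ⟨b, hb⟩ := t_root (t_nil (e := e) hn) j (Ideal.Quotient.mk _ c)
  obtain ⟨b, rfl⟩ := Ideal.Quotient.mk_surjective b
  refine ⟨b, Ideal.mem_span_singleton.1 (Ideal.Quotient.eq.1 ?_)⟩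
  simpa only [map_pow, map_add, map_mul, map_one, map_ofNat] using hb

theorem t_two {R : Type} [CommRing R] {p : ℕ} (hp : p.Prime) (h2 : p ≠ 2) (i j : ℕ) :
    IsCoprime ((2 : R) ^ i) ((p ^ j : ℕ) : R) := by
  have h := t_pp (R := R) Nat.prime_two hp h2.symm i j
  rwa [Nat.cast_pow, Nat.cast_ofNat] at h

/-- an element congruent to one modulo an odd prime is a power modulo the powers of the prime -/
theorem t_pow {p : ℕ} (hp : p.Prime) (h2 : p ≠ 2) (e r : ℕ) {t : 𝓞 k} (ht : (p : 𝓞 k) ∣ t - 1) :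
    ∃ s : 𝓞 k, (p : 𝓞 k) ∣ s - 1 ∧ ((p ^ e : ℕ) : 𝓞 k) ∣ s ^ 2 ^ r - t := by
  obtain ⟨u, v, h⟩ := t_two (R := 𝓞 k) hp h2 (r + 1) e
  obtain ⟨b, c, hb⟩ := t_root' hp e r ht u
  refine ⟨1 + 2 * (t - 1) * b, ?_, c - (t - 1) * v, by linear_combination hb + (t - 1) * h⟩
  rw [add_sub_cancel_left]
  exact (ht.mul_left _).mul_right _

theorem Good.map {p : ℕ} {y : k} (h : Good p y) : Good p (algebraMap k Ω y) := by
  rcases h with ⟨h2, c, y', e, h⟩ | ⟨h2, c, e⟩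
  · refine Or.inl ⟨h2, algebraMap k Ω c, algebraMap _ _ y', ?_, ?_⟩
    · rw [← map_pow, ← map_mul, ← e]
      rfl
    · simpa using h.map (algebraMap (𝓞 k) (𝓞 Ω))
  · refine Or.inr ⟨h2, algebraMap _ _ c, ?_⟩
    rw [e, map_add, map_mul, map_one, map_ofNat]
    rfl

/-- `Ω` is generated by a square root `s` of `y` -/
def Qd (y : k) (s : Ω) : Prop :=
  s ^ 2 = algebraMap k Ω y ∧ ∀ x : Ω, ∃ a b : k, x = algebraMap k Ω a + algebraMap k Ω b * s

theorem Qd.cases {y : k} {s : Ω} (h : Qd y s) :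
    (Module.finrank k Ω = 1 ∧ IsSquare y ∧ Function.Surjective (algebraMap k Ω)) ∨
      (Module.finrank k Ω = 2 ∧ ∀ a b : k,
        Algebra.norm k (algebraMap k Ω a + algebraMap k Ω b * s) = a ^ 2 - y * b ^ 2) := by
  by_cases hs : ∃ d, algebraMap k Ω d = s
  · obtain ⟨d, rfl⟩ := hs
    have h1 : Function.Surjective (algebraMap k Ω) := fun x => by
      obtain ⟨a, b, rfl⟩ := h.2 x
      exact ⟨a + b * d, by rw [map_add, map_mul]⟩
    refine Or.inl ⟨?_, ⟨d, (algebraMap k Ω).injective (by rw [← h.1, map_mul, sq])⟩, h1⟩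
    rw [← (LinearEquiv.ofBijective (Algebra.linearMap k Ω)
      ⟨(algebraMap k Ω).injective, h1⟩).finrank_eq, Module.finrank_self]
  · have h1 : LinearIndependent k ![(1 : Ω), s] := by
      rw [LinearIndependent.pair_iff' one_ne_zero]
      exact fun a e => hs ⟨a, by rw [← e, Algebra.smul_def, mul_one]⟩
    have h2 : ⊤ ≤ Submodule.span k (Set.range ![(1 : Ω), s]) := fun x _ => by
      obtain ⟨a, b, rfl⟩ := h.2 x
      rw [← Algebra.smul_def, Algebra.algebraMap_eq_smul_one]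
      exact add_mem (Submodule.smul_mem _ _ (Submodule.subset_span ⟨0, rfl⟩))
        (Submodule.smul_mem _ _ (Submodule.subset_span ⟨1, rfl⟩))
    let B := Module.Basis.mk h1 h2
    have b0 : B 0 = 1 := Module.Basis.mk_apply _ _ _
    have b1 : B 1 = s := Module.Basis.mk_apply _ _ _
    refine Or.inr ⟨by rw [Module.finrank_eq_card_basis B, Fintype.card_fin], fun a b => ?_⟩
    have e0 : (algebraMap k Ω a + algebraMap k Ω b * s) * B 0 = a • B 0 + b • B 1 := by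
      rw [b0, b1, Algebra.smul_def, Algebra.smul_def, mul_one, mul_one]
    have e1 : (algebraMap k Ω a + algebraMap k Ω b * s) * B 1 = (b * y) • B 0 + a • B 1 := by
      rw [b0, b1, Algebra.smul_def, Algebra.smul_def, map_mul, ← h.1]
      ring
    rw [Algebra.norm_eq_matrix_det B, Matrix.det_fin_two]
    simp only [Algebra.leftMulMatrix_eq_repr_mul, e0, e1, map_add, map_smul, B.repr_self,
      Finsupp.add_apply, Finsupp.smul_apply, Finsupp.single_apply]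
    simp only [↓ reduceIte, smul_eq_mul, mul_one, Nat.succ_eq_add_one, Nat.reduceAdd, Fin.isValue, one_ne_zero, mul_zero, add_zero, zero_ne_one, zero_add]
    ring

theorem Qd.nf {y : k} {s : Ω} (h : Qd y s) (hy : y ≠ 0) (x : Ω) : Nf y (Algebra.norm k x) := by
  rcases h.cases with ⟨-, ⟨d, rfl⟩, -⟩ | ⟨-, h1⟩
  · have hd : d ≠ 0 := left_ne_zero_of_mul hy
    refine ⟨(Algebra.norm k x + 1) / 2, (Algebra.norm k x - 1) / (2 * d), ?_⟩
    field_simp
    ring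
  · obtain ⟨a, b, rfl⟩ := h.2 x
    exact ⟨a, b, h1 a b⟩

theorem Qd.ex {y : k} {s : Ω} (h : Qd y s) {a b : k} {t n : 𝓞 k} (ht : (t : k) = 2 * a)
    (hn : (n : k) = a ^ 2 - y * b ^ 2) : ∃ P : 𝓞 Ω, RingOfIntegers.norm k P = n := by
  rcases h.cases with ⟨h1, -, -⟩ | ⟨-, h1⟩
  · exact ⟨algebraMap _ _ n, by rw [RingOfIntegers.norm_algebraMap, h1, pow_one]⟩
  · have h2 : IsIntegral (𝓞 k) (algebraMap k Ω a + algebraMap k Ω b * s) := by
      refine ⟨Polynomial.X ^ 2 + (Polynomial.C (-t) * Polynomial.X + Polynomial.C n),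
        Polynomial.monic_X_pow_add (Polynomial.degree_linear_le.trans_lt (by decide)), ?_⟩
      have e : ∀ z : 𝓞 k, algebraMap (𝓞 k) Ω z = algebraMap k Ω z := fun z => rfl
      simp only [Polynomial.eval₂_add, Polynomial.eval₂_mul, Polynomial.eval₂_pow,
        Polynomial.eval₂_X, Polynomial.eval₂_C, Polynomial.eval₂_neg, map_neg, e, ht, hn, map_sub,
        map_mul, map_pow, map_ofNat, ← h.1]
      ring
    exact ⟨⟨_, isIntegral_trans (R := ℤ) _ h2⟩, RingOfIntegers.ext ((h1 a b).trans hn.symm)⟩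

theorem Qd.srj {y : k} {s : Ω} (h : Qd y s) {p : ℕ} (hp : p.Prime) (hg : Good p y) (e : ℕ)
    {a : 𝓞 k} (ha : IsCoprime a ((p ^ e : ℕ) : 𝓞 k)) :
    ∃ P : 𝓞 Ω, ((p ^ e : ℕ) : 𝓞 k) ∣ RingOfIntegers.norm k P - a := by
  have := t_fin (k := k) (pow_ne_zero e hp.ne_zero)
  rcases hg with ⟨h2, c, y', hy, hc⟩ | ⟨rfl, c, hy⟩
  · have h3 : IsUnit (2 : 𝓞 k ⧸ Ideal.span {((p ^ e : ℕ) : 𝓞 k)}) := by
      simpa only [pow_one, map_ofNat] using t_unit (t_two (R := 𝓞 k) hp h2 1 e)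
    have h4 : IsCoprime y' ((p ^ e : ℕ) : 𝓞 k) := by
      rw [Nat.cast_pow]
      exact hc.pow_right
    obtain ⟨x, b, hx⟩ := t_qf h3 (t_unit h4) (t_unit ha)
    obtain ⟨x, rfl⟩ := Ideal.Quotient.mk_surjective x
    obtain ⟨b, rfl⟩ := Ideal.Quotient.mk_surjective b
    obtain ⟨P, hP⟩ := h.ex (a := x) (b := c * b) (t := 2 * x) (n := x ^ 2 - y' * b ^ 2)
      (by rw [RingOfIntegers.coe_eq_algebraMap, map_mul, map_ofNat]) (by
        rw [RingOfIntegers.coe_eq_algebraMap] at hy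
        simp only [RingOfIntegers.coe_eq_algebraMap, map_sub, map_mul, map_pow, hy]
        ring)
    refine ⟨P, Ideal.mem_span_singleton.1 (Ideal.Quotient.eq.1 ?_)⟩
    simpa only [hP, map_pow, map_sub, map_mul] using hx
  · obtain ⟨b, hb⟩ := t_bij (t_nil (p := 2) (e := e) (n := -(2 * c)) ⟨-c, by push_cast; ring⟩)
      (Ideal.Quotient.mk _ (a - 1))
    obtain ⟨b, rfl⟩ := Ideal.Quotient.mk_surjective b
    obtain ⟨P, hP⟩ := h.ex (a := 1 + b / 2) (b := b / 2) (t := 2 + b)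
      (n := 1 + (b + -(2 * c) * b ^ 2)) (by
        rw [RingOfIntegers.coe_eq_algebraMap, map_add, map_ofNat]
        ring) (by
        simp only [RingOfIntegers.coe_eq_algebraMap, map_add, map_neg, map_mul, map_pow, hy,
          map_one, map_ofNat]
        ring)
    refine ⟨P, Ideal.mem_span_singleton.1 (Ideal.Quotient.eq.1 ?_)⟩
    rw [hP, map_add, map_add, map_mul, map_pow, hb, ← map_add, add_sub_cancel]

open IntermediateField in
theorem t_qd {y : k} {s : Ω} (hs : s ^ 2 = algebraMap k Ω y) :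
    Qd y (AdjoinSimple.gen k s : adjoin k {s}) := by
  have := Module.Finite.of_restrictScalars_finite ℚ k Ω
  refine ⟨Subtype.ext hs, fun x => ?_⟩
  have h1 : (x : Ω) ∈ Algebra.adjoin k {s} := by
    rw [← adjoin_simple_toSubalgebra_of_isAlgebraic (Algebra.IsAlgebraic.isAlgebraic s)]
    exact x.2
  suffices h : ∃ a b : k, (x : Ω) = algebraMap k Ω a + algebraMap k Ω b * s by
    obtain ⟨a, b, h⟩ := h
    exact ⟨a, b, Subtype.ext h⟩
  generalize (x : Ω) = z at h1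
  induction h1 using Algebra.adjoin_induction with
  | mem z hz => exact ⟨0, 1, by simp [Set.mem_singleton_iff.1 hz]⟩
  | algebraMap r => exact ⟨r, 0, by simp⟩
  | add _ _ _ _ h1 h2 =>
    obtain ⟨a, b, rfl⟩ := h1
    obtain ⟨c, d, rfl⟩ := h2
    exact ⟨a + c, b + d, by simp only [map_add]; ring⟩
  | mul _ _ _ _ h1 h2 =>
    obtain ⟨a, b, rfl⟩ := h1
    obtain ⟨c, d, rfl⟩ := h2
    exact ⟨a * c + b * d * y, a * d + b * c, by simp only [map_add, map_mul, ← hs]; ring⟩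

open IntermediateField in
theorem t_ins {s : Ω} {T : Set Ω} (h : adjoin k (insert s T) = ⊤) :
    adjoin (adjoin k {s}) T = ⊤ := by
  rw [← restrictScalars_eq_top_iff (K := k), adjoin_adjoin_left, Set.singleton_union, h]

theorem t_trans (k₁ : Type) [Field k₁] [NumberField k₁] [Algebra k k₁] [Algebra k₁ Ω]
    [IsScalarTower k k₁ Ω] {q : ℕ} {a : 𝓞 k} {c : 𝓞 k₁} {P : 𝓞 Ω}
    (h1 : (q : 𝓞 k) ∣ RingOfIntegers.norm k c - a)
    (h2 : (q : 𝓞 k₁) ∣ RingOfIntegers.norm k₁ P - c) :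
    (q : 𝓞 k) ∣ RingOfIntegers.norm k P - a := by
  have := Module.Finite.of_restrictScalars_finite ℚ k k₁
  have := Module.Finite.of_restrictScalars_finite ℚ k₁ Ω
  have h := dvd_add (t_congr (k := k) h2) h1
  rwa [sub_add_sub_cancel, RingOfIntegers.norm_norm] at h

theorem t_cop' {R : Type} [CommRing R] {q a b : R} (h : q ∣ b - a) (ha : IsCoprime a q) :
    IsCoprime b q := by
  obtain ⟨c, hc⟩ := h
  rw [show b = a + q * c by linear_combination hc]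
  exact ha.add_mul_left_left c

open IntermediateField in
theorem t_bot (h : adjoin k ((∅ : Finset Ω) : Set Ω) = ⊤) : Module.finrank k Ω = 1 := by
  rw [Finset.coe_empty, adjoin_empty] at h
  rw [← finrank_top', ← h, IntermediateField.finrank_bot]

open IntermediateField in
theorem t_srj (T : Finset Ω) {p : ℕ} (hp : p.Prime) (e : ℕ) :
    ∀ (k : Type) [Field k] [NumberField k] [Algebra k Ω], adjoin k (T : Set Ω) = ⊤ →
      (∀ s ∈ T, ∃ y : k, s ^ 2 = algebraMap k Ω y ∧ Good p y) → ∀ a : 𝓞 k,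
        IsCoprime a ((p ^ e : ℕ) : 𝓞 k) →
          ∃ P : 𝓞 Ω, ((p ^ e : ℕ) : 𝓞 k) ∣ RingOfIntegers.norm k P - a := by
  classical
  induction T using Finset.induction_on with
  | empty =>
    intro k _ _ _ h _ a _
    exact ⟨algebraMap _ _ a, by
      rw [RingOfIntegers.norm_algebraMap, t_bot h, pow_one, sub_self]
      exact dvd_zero _⟩
  | insert s T _ ih =>
    intro k _ _ _ h hg a ha
    obtain ⟨y, hs, hy⟩ := hg s (Finset.mem_insert_self _ _)
    obtain ⟨c, hc⟩ := (t_qd hs).srj hp hy e ha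
    rw [Finset.coe_insert] at h
    obtain ⟨P, hP⟩ := ih (adjoin k {s}) (t_ins h) (fun s' hs' => by
      obtain ⟨y', h1, h2⟩ := hg s' (Finset.mem_insert_of_mem hs')
      exact ⟨algebraMap k _ y', h1, h2.map⟩) c (t_cop (t_cop' hc ha))
    exact ⟨P, t_trans _ hc hP⟩

open IntermediateField in
theorem t_deg (T : Finset Ω) :
    ∀ (k : Type) [Field k] [NumberField k] [Algebra k Ω], adjoin k (T : Set Ω) = ⊤ →
      (∀ s ∈ T, ∃ y : k, s ^ 2 = algebraMap k Ω y) → ∃ r, Module.finrank k Ω = 2 ^ r := by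
  classical
  induction T using Finset.induction_on with
  | empty => exact fun k _ _ _ h _ => ⟨0, t_bot h⟩
  | insert s T _ ih =>
    intro k _ _ _ h hg
    obtain ⟨y, hs⟩ := hg s (Finset.mem_insert_self _ _)
    rw [Finset.coe_insert] at h
    obtain ⟨r, hr⟩ := ih (adjoin k {s}) (t_ins h) fun s' hs' => by
      obtain ⟨y', h1⟩ := hg s' (Finset.mem_insert_of_mem hs')
      exact ⟨algebraMap k _ y', h1⟩
    rw [← Module.finrank_mul_finrank k (adjoin k {s}) Ω, hr]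
    rcases (t_qd hs).cases with ⟨h1, -⟩ | ⟨h1, -⟩ <;> rw [h1]
    · exact ⟨r, one_mul _⟩
    · exact ⟨r + 1, by ring⟩

open IntermediateField in
theorem t_gen (k : Type) [Field k] [NumberField k] (Y : Finset (𝓞 k)) :
    ∃ (Ω : Type) (_ : Field Ω) (_ : NumberField Ω) (_ : Algebra k Ω) (s : 𝓞 k → Ω),
      (∀ y ∈ Y, s y ^ 2 = algebraMap k Ω y) ∧ adjoin k (s '' Y) = ⊤ := by
  classical
  choose f hf using fun y : 𝓞 k =>
    IsAlgClosed.exists_pow_nat_eq (algebraMap k (AlgebraicClosure k) y) two_pos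
  let L := adjoin k (f '' Y)
  have : FiniteDimensional k L := finiteDimensional_adjoin fun x _ => Algebra.IsIntegral.isIntegral x
  have : NumberField L := NumberField.of_module_finite k L
  let s : 𝓞 k → L := fun y => if h : y ∈ Y then ⟨f y, subset_adjoin _ _ ⟨y, h, rfl⟩⟩ else 0
  have hs : ∀ y ∈ Y, (s y : AlgebraicClosure k) = f y := fun y h => by simp only [s, dif_pos h]
  refine ⟨L, inferInstance, this, inferInstance, s, fun y h => Subtype.ext ?_, ?_⟩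
  · rw [SubmonoidClass.coe_pow, hs y h, hf]
    rfl
  · refine map_injective L.val ?_
    rw [adjoin_map, ← AlgHom.fieldRange_eq_map, fieldRange_val, Set.image_image]
    exact congrArg _ (Set.image_congr hs)

theorem t_tower (k : Type) [Field k] [NumberField k] (Y : Finset (𝓞 k)) (h0 : ∀ y ∈ Y, y ≠ 0) :
    ∃ (Ω : Type) (_ : Field Ω) (_ : NumberField Ω) (_ : Algebra k Ω) (r : ℕ),
      Module.finrank k Ω = 2 ^ r ∧
      (∀ y ∈ Y, ∀ P : 𝓞 Ω, Nf (y : k) (RingOfIntegers.norm k P : k)) ∧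
      (∀ q : ℕ, 0 < q → (∀ p : ℕ, p.Prime → p ∣ q → ∀ y ∈ Y, Good p (y : k)) →
        ∀ a : 𝓞 k, IsCoprime a (q : 𝓞 k) →
          ∃ P : 𝓞 Ω, (q : 𝓞 k) ∣ RingOfIntegers.norm k P - a) ∧
      ∀ y₁ ∈ Y, ∀ q : ℕ, 0 < q →
        (∀ p : ℕ, p.Prime → p ∣ q → ∀ y ∈ Y, y ≠ y₁ → Good p (y : k)) →
        ∀ a b : 𝓞 k, IsCoprime (a ^ 2 - y₁ * b ^ 2) (q : 𝓞 k) →
          ∃ P : 𝓞 Ω, (q : 𝓞 k) ∣ RingOfIntegers.norm k P - (a ^ 2 - y₁ * b ^ 2) := by
  classical
  obtain ⟨Ω, _, _, _, s, hs, hT⟩ := t_gen k Y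
  have := Module.Finite.of_restrictScalars_finite ℚ k Ω
  obtain ⟨r, hr⟩ := t_deg (Y.image s) k (by rwa [Finset.coe_image]) fun z hz => by
    obtain ⟨y, hy, rfl⟩ := Finset.mem_image.1 hz
    exact ⟨y, hs y hy⟩
  refine ⟨Ω, _, ‹_›, _, r, hr, fun y hy P => ?_, fun q hq hg a ha => ?_,
    fun y₁ hy q hq hg a b ha => ?_⟩
  · rw [RingOfIntegers.coe_norm,
      ← Algebra.norm_norm (S := IntermediateField.adjoin k {s y})]
    exact (t_qd (hs y hy)).nf (by simpa using h0 y hy) _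
  · refine t_glue hq fun p e hp h1 he => t_srj (Y.image s) hp e k (by rwa [Finset.coe_image])
      (fun z hz => ?_) a (ha.of_isCoprime_of_dvd_right (Nat.cast_dvd_cast he))
    obtain ⟨y, hy, rfl⟩ := Finset.mem_image.1 hz
    exact ⟨y, hs y hy, hg p hp ((dvd_pow_self p h1.ne').trans he) y hy⟩
  · obtain ⟨c, hc⟩ := (t_qd (hs y₁ hy)).ex (a := a) (b := b) (t := 2 * a)
      (n := a ^ 2 - y₁ * b ^ 2) (by rw [RingOfIntegers.coe_eq_algebraMap, map_mul, map_ofNat])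
      (by rw [RingOfIntegers.coe_eq_algebraMap, map_sub, map_mul, map_pow, map_pow])
    refine t_glue hq fun p e hp h1 he => ?_
    obtain ⟨P, hP⟩ := t_srj ((Y.erase y₁).image s) hp e _ (t_ins (k := k) (s := s y₁) (by
      rw [← Finset.coe_insert, ← Finset.image_insert, Finset.insert_erase hy, Finset.coe_image,
        hT])) (fun z hz => by
      obtain ⟨y, hy', rfl⟩ := Finset.mem_image.1 hz
      have h2 := Finset.mem_erase.1 hy'
      exact ⟨algebraMap k _ (y : k), hs y h2.2,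
        (hg p hp ((dvd_pow_self p h1.ne').trans he) y h2.2 h2.1).map⟩) c
      (t_cop (k := k) (hc ▸ ha.of_isCoprime_of_dvd_right (Nat.cast_dvd_cast he)))
    exact ⟨P, t_trans _ (by rw [hc, sub_self]; exact dvd_zero _) hP⟩

theorem t_H {r j W W₂ : ℕ} (hr : Module.finrank k Ω = 2 ^ r) (h4 : 4 ∣ W) (hW : 0 < W)
    (hW₂ : W₂ = 2 ^ j * W) (hj : r ≤ j)
    (hS : ∀ q : ℕ, 0 < q → q.Coprime W → ∀ a : 𝓞 k, IsCoprime a (q : 𝓞 k) →
      ∃ P : 𝓞 Ω, (q : 𝓞 k) ∣ RingOfIntegers.norm k P - a)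
    {P₀ : 𝓞 Ω} {a₀ : 𝓞 k} (ha : IsCoprime a₀ (W₂ : 𝓞 k))
    (h₀ : (W₂ : 𝓞 k) ∣ RingOfIntegers.norm k P₀ - a₀) :
    ∀ q : ℕ, 0 < q → W₂ ∣ q → ∀ a : 𝓞 k, IsCoprime a (q : 𝓞 k) → (W₂ : 𝓞 k) ∣ a - a₀ →
      ∃ P : 𝓞 Ω, (W : 𝓞 Ω) ∣ P - P₀ ∧ (q : 𝓞 k) ∣ RingOfIntegers.norm k P - a := by
  intro q hq hd a hc he
  have hWW : W ∣ W₂ := hW₂ ▸ Dvd.intro_left _ rfl
  have h1 : ∀ p : ℕ, ∃ P : 𝓞 Ω, p.Prime → (p ∣ W → (W : 𝓞 Ω) ∣ P - P₀) ∧
      ((p ^ q.factorization p : ℕ) : 𝓞 k) ∣ RingOfIntegers.norm k P - a := fun p => by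
    by_cases hp : p.Prime
    swap
    · exact ⟨0, fun h => absurd h hp⟩
    by_cases hpW : p ∣ W
    swap
    · obtain ⟨P, hP⟩ := hS _ (pow_pos hp.pos _) (Nat.Coprime.pow_left _
        (hp.coprime_iff_not_dvd.2 hpW)) a
          (hc.of_isCoprime_of_dvd_right (Nat.cast_dvd_cast (Nat.ordProj_dvd q p)))
      exact ⟨P, fun _ => ⟨fun h => absurd h hpW, hP⟩⟩
    obtain ⟨w, rfl⟩ := h4
    obtain ⟨i, rfl⟩ := Nat.exists_eq_add_of_le hj
    have hp2 : p ∣ 2 * w := by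
      rw [show 4 * w = 2 * (2 * w) by ring] at hpW
      rcases (Nat.Prime.dvd_mul hp).1 hpW with h | h
      · exact h.mul_right _
      · exact h
    obtain ⟨u, v, huv⟩ : IsCoprime (RingOfIntegers.norm k P₀)
        ((p ^ q.factorization p : ℕ) : 𝓞 k) := by
      rw [Nat.cast_pow]
      exact ((t_cop' h₀ ha).of_isCoprime_of_dvd_right
        (Nat.cast_dvd_cast (hpW.trans hWW))).pow_right
    obtain ⟨d, hd⟩ := dvd_sub he h₀
    obtain ⟨b, c, hb⟩ := t_root' (k := k) hp (q.factorization p) r (Nat.cast_dvd_cast hp2)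
      (2 ^ i * d * u)
    refine ⟨P₀ * algebraMap (𝓞 k) _ (1 + 2 * (2 * w : ℕ) * b), fun _ =>
      ⟨fun _ => ⟨P₀ * algebraMap _ _ b, ?_⟩, RingOfIntegers.norm k P₀ * c - W₂ * d * v, ?_⟩⟩
    · simp only [map_add, map_mul, map_one, map_ofNat, map_natCast, Nat.cast_mul, Nat.cast_ofNat]
      ring
    · rw [map_mul, RingOfIntegers.norm_algebraMap, hr]
      generalize ((p ^ q.factorization p : ℕ) : 𝓞 k) = Q at huv hb
      rw [hW₂] at hd ⊢
      push_cast at hd hb ⊢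
      linear_combination RingOfIntegers.norm k P₀ * hb - hd + 2 ^ (r + i) * (4 * w) * d * huv
  choose f hf using h1
  obtain ⟨P, hP⟩ := t_crt hq f
  refine ⟨P, t_dvd hW fun p e hp h0 he => ?_, t_dvd hq fun p e hp h0 he => ?_⟩
  · have := dvd_add (hP p e hp (he.trans (hWW.trans hd))) ((Nat.cast_dvd_cast he).trans
      ((hf p hp).1 ((dvd_pow_self p h0.ne').trans he)))
    rwa [sub_add_sub_cancel] at this
  · have := dvd_add (t_congr (k := k) (hP p e hp he)) ((Nat.cast_dvd_cast (pow_dvd_pow p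
      ((hp.pow_dvd_iff_le_factorization hq.ne').1 he))).trans (hf p hp).2)
    rwa [sub_add_sub_cancel] at this

theorem t_sq {R : Type} [CommRing R] [IsDedekindDomain R] {J : Ideal R} (I : Ideal R) :
    I ≠ ⊥ → (∀ v : HeightOneSpectrum R, J ≤ v.asIdeal → Even (multiplicity v.asIdeal I)) →
      ∃ A C : Ideal R, I = A ^ 2 * C ∧ C ⊔ J = ⊤ := by
  induction I using WellFoundedGT.induction with
  | ind I ih =>
    intro h0 h
    by_cases h1 : I ⊔ J = ⊤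
    · exact ⟨1, I, by ring, h1⟩
    obtain ⟨M, hM, hle⟩ := Ideal.exists_le_maximal _ h1
    let v : HeightOneSpectrum R :=
      ⟨M, hM.isPrime, fun e => h0 (le_bot_iff.1 (e ▸ le_sup_left.trans hle))⟩
    have hf := FiniteMultiplicity.of_prime_left v.prime h0
    have h2 : 0 < multiplicity v.asIdeal I :=
      multiplicity_pos_of_dvd (Ideal.dvd_iff_le.2 (le_sup_left.trans hle))
    obtain ⟨n, hn⟩ := h v (le_sup_right.trans hle)
    obtain ⟨I', hI⟩ : v.asIdeal ^ 2 ∣ I := pow_dvd_of_le_multiplicity (by omega)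
    clear_value v
    clear hle h1
    subst hI
    have h3 : I' ≠ ⊥ := right_ne_zero_of_mul h0
    obtain ⟨A, C, e, hC⟩ := ih I' (lt_of_le_of_ne Ideal.mul_le_right fun e =>
      v.prime.not_isUnit (isUnit_of_dvd_one ((dvd_pow_self _ two_ne_zero).trans
        (mul_right_cancel₀ h3 (e.trans (one_mul _).symm)).dvd))) h3 fun w hw => by
      have h4 := h w hw
      rw [multiplicity_mul w.prime (FiniteMultiplicity.of_prime_left w.prime h0),
        (FiniteMultiplicity.of_prime_left w.prime v.ne_bot).multiplicity_pow w.prime] at h4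
      exact (Nat.even_add.1 h4).1 (even_two_mul _)
    exact ⟨v.asIdeal * A, C, by rw [e]; ring, hC⟩

theorem t_even {p : ℕ} (hp : p ≠ 0) {y : 𝓞 k} (hy : y ≠ 0) (h : ∀ v : HeightOneSpectrum (𝓞 k),
    (p : 𝓞 k) ∈ v.asIdeal → Even (ord v (y : k))) :
    ∃ (c : k) (y' : 𝓞 k), (y' : k) = c ^ 2 * y ∧ IsCoprime y' (p : 𝓞 k) := by
  have h0 : Ideal.span {y} ≠ ⊥ := by simpa only [ne_eq, Submodule.span_eq_bot, Set.mem_singleton_iff, forall_eq] using hy
  obtain ⟨A, C, e, hC⟩ := t_sq (J := Ideal.span {(p : 𝓞 k)}) _ h0 fun v hv => by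
    have h1 := h v ((Ideal.span_singleton_le_iff_mem _).1 hv)
    have h2 : v.valuation k (y : k) = v.intValuation y := v.valuation_of_algebraMap y
    rwa [ord, h2, v.intValuation_eq_exp_neg_multiplicity hy, WithZero.log_exp,
      neg_neg, Int.even_coe_nat] at h1
  have hA : A ≠ ⊥ := fun h => h0 (by rw [e, h]; simp only [ne_eq, OfNat.ofNat_ne_zero, not_false_eq_true, Submodule.bot_pow, Submodule.bot_mul])
  have hJ : Ideal.span {(p : 𝓞 k)} ≠ ⊥ := by simpa only [ne_eq, Submodule.span_eq_bot, Set.mem_singleton_iff, forall_eq, Nat.cast_eq_zero] using hp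
  obtain ⟨d, hd⟩ := IsDedekindDomain.exists_sup_span_eq
    (Ideal.mul_le_left (I := A) (J := Ideal.span {(p : 𝓞 k)})) (mul_ne_zero hA hJ)
  obtain ⟨B, hB⟩ : A ∣ Ideal.span {d} := Ideal.dvd_iff_le.2 (le_sup_right.trans hd.le)
  have h1 : Ideal.span {(p : 𝓞 k)} ⊔ B = ⊤ := by
    rw [hB, ← Ideal.mul_sup] at hd
    exact mul_left_cancel₀ hA (hd.trans (Ideal.mul_top _).symm)
  by_cases hd0 : d = 0
  · have h2 : B = ⊥ := by
      rw [hd0, Ideal.span_singleton_zero] at hB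
      exact (mul_eq_zero.1 hB.symm).resolve_left hA
    rw [h2, sup_bot_eq, Ideal.span_singleton_eq_top] at h1
    obtain ⟨u, hu⟩ := h1.exists_left_inv
    exact ⟨1, y, by ring, 0, u, by rw [zero_mul, zero_add, hu]⟩
  obtain ⟨f, hf, g, hg, e1⟩ := Submodule.mem_sup.1 ((Ideal.eq_top_iff_one _).1 h1)
  obtain ⟨G, hG⟩ : B ∣ Ideal.span {g} := Ideal.dvd_span_singleton.2 hg
  have e2 : Ideal.span {y * g ^ 2} = Ideal.span {d ^ 2} * (C * G ^ 2) := by
    rw [← Ideal.span_singleton_mul_span_singleton, ← Ideal.span_singleton_pow,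
      ← Ideal.span_singleton_pow, e, hB, hG]
    ring
  obtain ⟨y', hy'⟩ : d ^ 2 ∣ y * g ^ 2 :=
    Ideal.mem_span_singleton.1 (Ideal.le_of_dvd ⟨_, e2⟩ (Ideal.mem_span_singleton_self _))
  refine ⟨g / d, y', ?_, ?_⟩
  · have h2 : (d : k) ≠ 0 := by simpa using hd0
    have h3 := congrArg (algebraMap (𝓞 k) k) hy'
    simp only [map_mul, map_pow] at h3
    simp only [RingOfIntegers.coe_eq_algebraMap] at h2 ⊢
    field_simp
    linear_combination -h3
  · rw [hy', ← Ideal.span_singleton_mul_span_singleton] at e2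
    rw [← Ideal.isCoprime_span_singleton_iff,
      mul_left_cancel₀ (by simpa only [Submodule.zero_eq_bot, ne_eq, Submodule.span_eq_bot, Set.mem_singleton_iff, forall_eq, OfNat.ofNat_ne_zero, not_false_eq_true, pow_eq_zero_iff] using hd0) e2]
    refine (Ideal.isCoprime_iff_sup_eq.2 hC).mul_left (IsCoprime.pow_left ?_)
    rw [Ideal.isCoprime_iff_sup_eq, Ideal.eq_top_iff_one, ← e1, add_comm]
    exact Submodule.add_mem_sup (Ideal.dvd_span_singleton.1 (hG ▸ Dvd.intro_left _ rfl)) hf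

variable {K : Type} [Field K] [NumberField K] [IsCMField K] {m : ℕ}

theorem t_adq {F : Finset ℕ} (hF : ∀ p ∈ F, p.Prime) {y : 𝓞 K} (hy : Adq F y) {p : ℕ}
    (hp : p.Prime) (hpF : p ∉ F) : Good p (y : K) := by
  by_cases h2 : p = 2
  · obtain ⟨c, hc⟩ := hy.2.1
    refine Or.inr ⟨h2, c, ?_⟩
    have h3 := congrArg (algebraMap (𝓞 K) K) hc
    simp only [map_mul, map_sub, map_one, map_ofNat] at h3
    simp only [RingOfIntegers.coe_eq_algebraMap]
    linear_combination h3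
  refine Or.inl ⟨h2, t_even hp.ne_zero hy.1 fun v hv => hy.2.2 v fun q hq h => v.isPrime.ne_top ?_⟩
  obtain ⟨a, b, e⟩ : IsCoprime (p : 𝓞 K) (q : 𝓞 K) :=
    Nat.Coprime.cast ((Nat.coprime_primes hp (hF q hq)).2 fun e => hpF (e ▸ hq))
  rw [Ideal.eq_top_iff_one, ← e]
  exact add_mem (Ideal.mul_mem_left _ _ hv) (Ideal.mul_mem_left _ _ h)

theorem t_cm (P : FK K m) {q : ℕ} (hq : Odd q) (a : 𝓞 (maximalRealSubfield K))
    (ha : IsCoprime a (q : 𝓞 (maximalRealSubfield K))) : ∃ κ : 𝓞 K,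
      (q : 𝓞 (maximalRealSubfield K)) ∣ RingOfIntegers.norm (maximalRealSubfield K) κ - a := by
  have h0 : P.θ ≠ 0 := left_ne_zero_of_mul (P.θt ▸ two_ne_zero)
  have ht : cO P.t = -P.t := by
    have h := congrArg (fun x : 𝓞 K => cO x) P.θt
    simp only [map_mul, map_ofNat, P.cθ] at h
    exact mul_left_cancel₀ h0 (by linear_combination -h + P.θt)
  obtain ⟨y, hy⟩ := (IsCMField.ringOfIntegersComplexConj_eq_self_iff K (P.θ ^ 2)).1
    ((map_pow _ _ _).trans ((congrArg (· ^ 2) P.cθ).trans (neg_sq _)))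
  obtain ⟨z, hz⟩ := (IsCMField.ringOfIntegersComplexConj_eq_self_iff K (P.t ^ 2)).1
    ((map_pow _ _ _).trans ((congrArg (· ^ 2) ht).trans (neg_sq _)))
  have h4 : y * z = 2 ^ 2 := FaithfulSMul.algebraMap_injective _ (𝓞 K) (by
    rw [map_mul, hy, hz, ← mul_pow, P.θt, map_pow, map_ofNat])
  have hθ : IsCMField.complexConj K P.θ = -P.θ := congrArg (fun x : 𝓞 K => (x : K)) P.cθ
  have h0' : (P.θ : K) ≠ 0 := by simpa using h0
  have hQ : Qd (y : maximalRealSubfield K) (P.θ : K) := by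
    refine ⟨(congrArg (fun x : 𝓞 K => (x : K)) hy).symm, fun x =>
      ⟨⟨(x + cK x) / 2, (IsCMField.complexConj_eq_self_iff K _).1 ?_⟩,
        ⟨(x - cK x) / (2 * P.θ), (IsCMField.complexConj_eq_self_iff K _).1 ?_⟩, ?_⟩⟩
    · rw [map_div₀, map_add, IsCMField.complexConj_apply_apply, map_ofNat, add_comm]
    · rw [map_div₀, map_sub, IsCMField.complexConj_apply_apply, map_mul, map_ofNat, hθ]
      field_simp
      ring
    · change x = (x + cK x) / 2 + (x - cK x) / (2 * P.θ) * P.θ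
      field_simp
      ring
  refine t_glue hq.pos fun p e hp h1 he => ?_
  have h2 : p ≠ 2 := by
    rintro rfl
    exact (Nat.not_even_iff_odd.2 hq) (even_iff_two_dvd.2 ((dvd_pow_self 2 h1.ne').trans he))
  refine hQ.srj hp (Or.inl ⟨h2, 1, y, by ring, ?_⟩) e
    (ha.of_isCoprime_of_dvd_right (Nat.cast_dvd_cast he))
  have h3 := t_two (R := 𝓞 (maximalRealSubfield K)) hp h2 2 1
  rw [pow_one, ← h4] at h3
  exact h3.of_mul_left_left

end Pool.Agent.MP_a59382_lc.V3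

end

-- part MP_a59382_lc.V3.TLoc
section

/-! Block T: gluing of congruences and the local facts on the CM field. -/

set_option autoImplicit false

namespace Pool.Agent.MP_a59382_lc.V3

open NumberField Pool.Agent.MP_48b1c3_nt.H91

/-- a property of moduli that is stable under coprime products follows from prime powers -/
theorem ta_glue {T : ℕ → Prop} (h1 : T 1) (hm : ∀ a b, a.Coprime b → T a → T b → T (a * b))
    {Q : ℕ} (hQ : 0 < Q) (h : ∀ p e : ℕ, p.Prime → p ^ e ∣ Q → T (p ^ e)) : T Q := by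
  induction Q using Nat.recOnPosPrimePosCoprime with
  | prime_pow p n hp _ => exact h p n hp dvd_rfl
  | zero => exact absurd hQ (lt_irrefl 0)
  | one => exact h1
  | coprime a b ha hb hab iha ihb =>
    exact hm a b hab (iha (by omega) fun p e hp hd => h p e hp (hd.mul_right b))
      (ihb (by omega) fun p e hp hd => h p e hp (hd.mul_left a))

theorem ta_dvd {R : Type} [CommRing R] {Q : ℕ} (hQ : 0 < Q) {x : R}
    (h : ∀ p e : ℕ, p.Prime → p ^ e ∣ Q → ((p ^ e : ℕ) : R) ∣ x) : (Q : R) ∣ x := by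
  refine ta_glue (T := fun n => (n : R) ∣ x) (by simp only [Nat.cast_one, isUnit_one, IsUnit.dvd]) (fun a b hab ha hb => ?_) hQ h
  rw [Nat.cast_mul]
  exact (Nat.Coprime.cast hab).mul_dvd ha hb

theorem ta_cop {R : Type} [CommRing R] {Q : ℕ} (hQ : 0 < Q) {x : R}
    (h : ∀ p : ℕ, p.Prime → p ∣ Q → IsCoprime x (p : R)) : IsCoprime x (Q : R) := by
  refine ta_glue (T := fun n => IsCoprime x (n : R)) (by simpa only [Nat.cast_one] using isCoprime_one_right)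
    (fun a b _ ha hb => ?_) hQ fun p e hp hd => ?_
  · rw [Nat.cast_mul]
    exact ha.mul_right hb
  · rcases Nat.eq_zero_or_pos e with rfl | he
    · simpa only [pow_zero, Nat.cast_one] using isCoprime_one_right
    · rw [Nat.cast_pow]
      exact (h p hp ((dvd_pow_self p he.ne').trans hd)).pow_right

/-- the Chinese remainder theorem for the prime powers that divide `Q` -/
theorem ta_crt {R : Type} [CommRing R] {Q : ℕ} (hQ : 0 < Q) (f : ℕ → R) :
    ∃ x, ∀ p e : ℕ, p.Prime → p ^ e ∣ Q → ((p ^ e : ℕ) : R) ∣ x - f p := by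
  refine ta_glue (T := fun n => ∃ x, ∀ p e : ℕ, p.Prime → p ^ e ∣ n → ((p ^ e : ℕ) : R) ∣ x - f p)
    ⟨0, fun p e _ hd => by simp only [Nat.dvd_one.1 hd, Nat.cast_one, zero_sub, isUnit_one, IsUnit.dvd]⟩ ?_ hQ fun p e hp _ => ⟨f p, ?_⟩
  · rintro a b hab ⟨x, hx⟩ ⟨y, hy⟩
    obtain ⟨u, v, huv⟩ := Nat.Coprime.cast (R := R) hab
    refine ⟨u * a * y + v * b * x, fun p e hp hd => ?_⟩
    by_cases ha : p ∣ a
    · have hb : (p ^ e).Coprime b :=
        Nat.Coprime.pow_left e (Nat.Coprime.coprime_dvd_left ha hab)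
      have hd' := hb.dvd_of_dvd_mul_right hd
      rw [show u * a * y + v * b * x - f p = a * (u * (y - x)) + (x - f p) by
        linear_combination x * huv]
      exact ((Nat.cast_dvd_cast hd').mul_right _).add (hx p e hp hd')
    · have hb : (p ^ e).Coprime a := Nat.Coprime.pow_left e (hp.coprime_iff_not_dvd.2 ha)
      have hd' := hb.dvd_of_dvd_mul_left hd
      rw [show u * a * y + v * b * x - f p = b * (v * (x - y)) + (y - f p) by
        linear_combination y * huv]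
      exact ((Nat.cast_dvd_cast hd').mul_right _).add (hy p e hp hd')
  · intro p' e' hp' hd
    rcases Nat.eq_zero_or_pos e' with rfl | he
    · simp only [pow_zero, Nat.cast_one, isUnit_one, IsUnit.dvd]
    · have := (Nat.prime_dvd_prime_iff_eq hp' hp).1
        (hp'.dvd_of_dvd_pow ((dvd_pow_self p' he.ne').trans hd))
      simp only [this, Nat.cast_pow, sub_self, dvd_zero]

/-- sums of one and a square are prime to `p` if `p` is three modulo four and of degree one -/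
theorem ta_sq {R : Type} [CommRing R] {p : ℕ} (hp : p % 4 = 3) {x : R} (h : (p : R) ∣ x ^ p - x) :
    IsCoprime (1 + x ^ 2) (p : R) := by
  obtain ⟨j, rfl⟩ : ∃ j, p = 4 * j + 3 := ⟨p / 4, by omega⟩
  obtain ⟨c, hc⟩ := h
  obtain ⟨d, hd⟩ : x ^ 2 + 1 ∣ (x ^ 2) ^ (2 * j + 1) + 1 ^ (2 * j + 1) :=
    Odd.add_dvd_pow_add_pow _ _ ⟨j, rfl⟩
  refine ⟨(2 * j + 1) * (x ^ 2 * d - 2), 1 - (2 * j + 1) * (c * x), ?_⟩
  push_cast at hc ⊢
  linear_combination (2 * j + 1) * x * hc - (2 * j + 1) * x ^ 2 * hd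

/-- squares of units are `2 ^ r`-th powers modulo the powers of such a prime -/
theorem ta_pow {R : Type} [CommRing R] {p : ℕ} (hp : p % 4 = 3) {u : R} (hu : IsCoprime u (p : R))
    (h : (p : R) ∣ u ^ p - u) (r e : ℕ) : ∃ s : R, ((p ^ e : ℕ) : R) ∣ s ^ 2 ^ r - u ^ 2 := by
  obtain ⟨j, rfl⟩ : ∃ j, p = 4 * j + 3 := ⟨p / 4, by omega⟩
  have h1 : ((4 * j + 3 : ℕ) : R) ∣ (u ^ 2) ^ (2 * j + 1) - 1 := by
    apply hu.symm.dvd_of_dvd_mul_left
    rwa [show u * ((u ^ 2) ^ (2 * j + 1) - 1) = u ^ (4 * j + 3) - u by ring]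
  have h2 := dvd_sub_pow_of_dvd_sub h1 e
  rw [one_pow, ← pow_mul] at h2
  generalize hN : (2 * j + 1) * (4 * j + 3) ^ e = N at h2
  have hodd : Odd N := hN ▸ Odd.mul ⟨j, rfl⟩ (Odd.pow ⟨2 * j + 1, by ring⟩)
  obtain ⟨i, t, hi⟩ : ∃ i t, 2 ^ r * i = 1 + N * t := by
    have hc : (2 ^ r).Coprime N := Nat.Coprime.pow_left r (Nat.coprime_two_left.2 hodd)
    obtain ⟨t, ht⟩ := (Nat.modEq_iff_dvd' (Nat.one_le_pow _ _ (Nat.two_pow_pos r))).1
      (Nat.ModEq.pow_totient hc).symm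
    obtain ⟨n, hn⟩ := Nat.exists_eq_succ_of_ne_zero (Nat.totient_pos.2 hodd.pos).ne'
    have h0 := Nat.one_le_pow N.totient _ (Nat.two_pow_pos r)
    exact ⟨(2 ^ r) ^ n, t, by rw [← pow_succ', ← Nat.succ_eq_add_one, ← hn]; omega⟩
  refine ⟨(u ^ 2) ^ i, ?_⟩
  rw [← pow_mul, mul_comm i, hi, pow_add, pow_one, pow_mul, Nat.cast_pow]
  have h3 := (pow_dvd_pow _ (Nat.le_succ e)).trans (h2.trans (sub_one_dvd_pow_sub_one _ t))
  rw [show u ^ 2 * ((u ^ 2) ^ N) ^ t - u ^ 2 = u ^ 2 * (((u ^ 2) ^ N) ^ t - 1) by ring]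
  exact h3.mul_left _

section Field

variable {k : Type} [Field k] [NumberField k]

theorem ta_nm_cop {a : 𝓞 k} {n : ℕ} : IsCoprime a (n : 𝓞 k) ↔ (nm a).natAbs.Coprime n := by
  rw [← cop_span, cop_iff, Ideal.absNorm_span_singleton]

theorem ta_nm_norm {Ω : Type} [Field Ω] [NumberField Ω] [Algebra k Ω] (P : 𝓞 Ω) :
    nm (RingOfIntegers.norm k P) = nm P := by
  have h1 := Algebra.coe_norm_int (RingOfIntegers.norm k P)
  have h2 := Algebra.coe_norm_int P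
  rw [RingOfIntegers.coe_norm, Algebra.norm_norm, ← h2] at h1
  exact_mod_cast h1

end Field

variable {K : Type} [Field K] [NumberField K] [IsCMField K] {m : ℕ}

theorem ta_norm (κ : 𝓞 K) :
    algebraMap _ (𝓞 K) (RingOfIntegers.norm (maximalRealSubfield K) κ) = κ * cO κ := by
  classical
  apply RingOfIntegers.ext
  have h := Algebra.norm_eq_prod_automorphisms (maximalRealSubfield K) (κ : K)
  have hc : Fintype.card (K ≃ₐ[maximalRealSubfield K] K) = 2 := by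
    rw [← Nat.card_eq_fintype_card, IsGalois.card_aut_eq_finrank,
      Algebra.IsQuadraticExtension.finrank_eq_two]
  have hu : (Finset.univ : Finset (K ≃ₐ[maximalRealSubfield K] K)) =
      {1, IsCMField.complexConj K} := by
    symm
    apply Finset.eq_univ_of_card
    rw [Finset.card_pair (IsCMField.complexConj_ne_one K).symm, hc]
  rw [hu, Finset.prod_pair (IsCMField.complexConj_ne_one K).symm] at h
  exact h

theorem ta_nonneg (P : FK K m) (a : 𝓞 K) : 0 ≤ nm a := by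
  obtain ⟨δ, hδ⟩ := P.half a
  obtain ⟨φ⟩ : Nonempty (K →+* ℂ) := inferInstance
  have h := congrArg (fun x : 𝓞 K => φ (x : K)) hδ
  simp only [map_mul, map_intCast] at h
  have h2 : φ (cO δ : 𝓞 K) = (starRingEnd ℂ) (φ (δ : K)) :=
    IsCMField.complexEmbedding_complexConj K φ δ
  rw [h2, Complex.mul_conj] at h
  have h3 : Complex.normSq (φ (δ : K)) = (nm a : ℝ) := by exact_mod_cast h
  exact_mod_cast h3 ▸ Complex.normSq_nonneg _

theorem ta_u2 (P : FK K m) : IsCoprime P.u ((2 : ℕ) : 𝓞 K) :=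
  ⟨-cO P.u, -P.t ^ 2, by push_cast; linear_combination -P.uu⟩

theorem ta_k2 (P : FK K m) : IsCoprime (1 - P.θ) ((2 : ℕ) : 𝓞 K) := by
  have := P.n3
  rw [ta_nm_cop, Nat.coprime_two_right, Int.natAbs_odd, Int.odd_iff]
  omega

theorem ta_sp (P : FK K m) {p : ℕ} (hp : Sp m p) : p % 4 = 3 := by
  obtain ⟨j, rfl⟩ : ∃ j, m = j + 4 := ⟨m - 4, by have := P.hm; omega⟩
  have h := hp.2.of_dvd (show 4 ∣ 2 ^ (j + 4) from ⟨2 ^ (j + 2), by ring⟩)
  rw [show j + 4 - 1 = j + 3 from rfl, Nat.ModEq, pow_add] at h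
  omega

theorem ta_up (P : FK K m) {p : ℕ} (hp : Sp m p) : IsCoprime P.u (p : 𝓞 K) := by
  have h := ta_sq (ta_sp P hp) (P.spe p hp (P.s * P.t))
  rw [show 1 + (P.s * P.t) ^ 2 = P.u * -cO P.u by linear_combination P.uu + P.t ^ 2 * P.ss] at h
  exact h.of_mul_left_left

theorem ta_l8 (P : FK K m) {l : ℕ} (hl : 2 ^ m ∣ l + 1) : 8 ∣ l + 1 :=
  (pow_dvd_pow 2 (show 3 ≤ m by have := P.hm; omega)).trans hl

theorem ta_lsp (P : FK K m) {l : ℕ} (hl : 2 ^ m ∣ l + 1) : ¬ Sp m l := fun h => by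
  have h1 := (h.2.dvd_iff dvd_rfl).1 hl
  have h2 := (Nat.pow_dvd_pow_iff_le_right (by norm_num : 1 < 2)).1 h1
  have := P.hm
  omega

end Pool.Agent.MP_a59382_lc.V3

end

-- part MP_a59382_lc.V3.SDef
section

/-! Solutions, markers and the linking formula: definitions. -/

set_option autoImplicit false

namespace Pool.Agent.MP_a59382_lc.V3

open Finset NumberField IsDedekindDomain Pool.Agent.MP_48b1c3_nt.H91

/-- even order at all primes not above `A`, and one modulo eight up to squares -/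
def Sel {k : Type} [Field k] [NumberField k] (A : Finset ℕ) (y : k) : Prop :=
  (∀ v : HeightOneSpectrum (𝓞 k), (∀ p ∈ A, (p : 𝓞 k) ∉ v.asIdeal) → Even (ord v y)) ∧
    ∃ (w : k) (c : 𝓞 k), y * w ^ 2 = 1 + 8 * c

/-- `y` times an element prime to `y` is a square -/
def Ev {k : Type} [Field k] (S : Set ℕ) (y : k) : Prop :=
  ∃ b ∈ AS S k, ∃ c ∈ AS S k, ∃ d ∈ AS S k, ∃ e ∈ AS S k, b ^ 2 = y * c ∧ d * y + e * c = 1

variable {K : Type} [Field K] [NumberField K] [IsCMField K] {m : ℕ}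
  {K' : Type} [Field K'] [NumberField K']

variable (K) in
/-- `Q` is a norm from all extensions `K (√y)` and a relative norm -/
def Spl (A : Finset ℕ) (Q : ℕ) : Prop :=
  (∀ y : K, Sel A y → Nf y (Q : K)) ∧ ∃ δ : K, (Q : K) = δ * cK δ

/-- `y` is a relative norm times a norm from `K (√θ)` -/
def Tw (P : FK K m) (y : K) : Prop := ∃ g : K, g ≠ 0 ∧ Nf (P.θ : K) (y * (g * cK g))

/-- the conditions on `x` that are common to solutions and links -/
def Bas (P : FK K m) (l : ℕ) (S : Set ℕ) (x : K) : Prop :=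
  x ∈ AS S K ∧ x * cK x = 1 ∧ x ≠ 1 ∧
    (∃ c ∈ AS S K, -(x + 1) * (P.u : K) ^ 2 = 2 * (1 + 8 * c)) ∧
    Tw P (-(x + 1)) ∧ Nf (-(l : K)) (-(x + 1))

/-- the solutions of level `A`, `F` -/
def Sol (P : FK K m) (l : ℕ) (A F : Finset ℕ) (x : K) : Prop :=
  Bas P l F x ∧ ∀ v : HeightOneSpectrum (𝓞 K),
    (∀ p ∈ A, (p : 𝓞 K) ∉ v.asIdeal) → Even (ord v (x + 1))

/-- the linking formula -/
def Link (P : FK K m) (P' : Pell m K') (l : ℕ) (S : Set ℕ) {s : ℕ} (x : K) (w : Fin s → ℚ) :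
    Prop :=
  Bas P l S x ∧ Ev S (-(x + 1)) ∧ ∃ a ∈ RS S, Un S a ∧ 0 ≤ a ∧ (∃ δ : K, (a : K) = δ * cK δ) ∧
    Nm l (-a) ∧ Nf (-(x + 1)) (a : K) ∧ ∀ i, Nm (-w i) a ∧ P'.NV S (w i)

/-- the formula that defines the integers from three on -/
def Phi (P : FK K m) (P' : Pell m K') (l : ℕ) (S : Set ℕ) (s : ℕ) (t : ℚ) : Prop :=
  ∃ r ∈ RS S, ∃ w : Fin s → ℚ, (∀ i, w i ∈ RS S) ∧ P'.PH S t r w ∧
    ∃ x ∈ AS S K, Link P P' l S x w ∧ DvA S (r : K) (x - 1)

/-- `r` is an admissible size that divides `x - 1` for a solution `x` -/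
def Siz (P : FK K m) (P' : Pell m K') (l : ℕ) (A F : Finset ℕ) (r : ℤ) : Prop :=
  P'.RR r ∧ ∃ x, Sol P l A F x ∧ DvA (F : Set ℕ) (r : K) (x - 1)

variable (K') in
/-- the auxiliary primes of level `Z` -/
def Aux (m s Z T : ℕ) : Prop :=
  ∃ (q : Fin s → ℕ) (J : ℕ), Function.Injective q ∧ (∀ i, (q i).Prime ∧ 2 ^ m ∣ q i + 1 ∧
    q i - 1 ∣ 2 * J ∧ T ≡ 1 [MOD q i] ∧ ∃ y : 𝓞 K', (nm y).natAbs = q i) ∧ Odd J ∧ J ^ 2 ≤ Z ^ 3

/-- one step of the construction -/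
structure Stp (P : FK K m) (P' : Pell m K') (l s k : ℕ) (A M A' : Finset ℕ) (T Z : ℕ) : Prop where
  sub : A ⊆ A'
  hA : ∀ p ∈ A', Sp m p ∧ jacobiSym p l = 1
  new : ∀ p ∈ A', p ∉ A → Spl K A p ∧ ∀ t ∈ M, jacobiSym p t = 1
  hT : Sp m T ∧ jacobiSym T l = -1
  spl : Spl K A' T
  sym : ∀ q : ℕ, q.Prime → q ≡ 1 [MOD 2 ^ m] ∨ 2 ^ m ∣ q + 1 → q ≤ Z → jacobiSym q T = 1
  up : ∀ r, Siz P P' l A' (A' ∪ M) r → |r| ≤ 2 ^ Z ^ 2
  low : ∃ r, Siz P P' l A' (A' ∪ M) r ∧ 2 ^ (Z - 1) ^ 2 < |r|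
  big : k ≤ Z
  aux : Aux K' m s Z T

/-- the inverted special primes and the markers -/
structure Des (P : FK K m) (P' : Pell m K') (l s : ℕ) where
  A : ℕ → Finset ℕ
  T : ℕ → ℕ
  Z : ℕ → ℕ
  mono : Monotone A
  hA : ∀ k, ∀ p ∈ A k, Sp m p ∧ jacobiSym p l = 1
  hT : ∀ k, Sp m (T k) ∧ jacobiSym (T k) l = -1
  new : ∀ k, ∀ p ∈ A (k + 1), p ∉ A k → Spl K (A k) p ∧ ∀ i ≤ k, jacobiSym p (T i) = 1
  spl : ∀ k, Spl K (A k) (T k)
  sym : ∀ k q : ℕ, q.Prime → q ≡ 1 [MOD 2 ^ m] ∨ 2 ^ m ∣ q + 1 → q ≤ Z k → jacobiSym q (T k) = 1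
  up : ∀ k r, Siz P P' l (A k) (A k ∪ (range k).image T) r → |r| ≤ 2 ^ Z k ^ 2
  low : ∀ k, ∃ r, Siz P P' l (A k) (A k ∪ (range k).image T) r ∧ 2 ^ (Z k - 1) ^ 2 < |r|
  big : ∀ k, k ≤ Z k
  aux : ∀ k, Aux K' m s (Z k) (T k)
  W : Set ℕ

namespace Des

variable {P : FK K m} {P' : Pell m K'} {l s : ℕ} (D : Des P P' l s)

/-- the primes inverted up to level `k` -/
def F (k : ℕ) : Finset ℕ := D.A k ∪ (range k).image D.T

/-- the set of inverted primes -/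
def S : Set ℕ := {p | (Pa m p ∧ p ∈ D.W) ∨ (∃ k, p ∈ D.A k) ∨ ∃ k, p = D.T k}

end Des

end Pool.Agent.MP_a59382_lc.V3

end
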