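import Pool.Agent.MP_a59382_lc.Mg.V3_EAn
import Pool.Agent.MP_a59382_lc.Mg.V3_SDef
import Pool.Agent.MP_a59382_lc.Mg.V3_PellDef
import Pool.Agent.MP_a59382_lc.Mg.V3_Fld
import Pool.Agent.MP_a96b63_al.V.SW

attribute [-instance] RKHS.instFunLike IdemSemiring.toCanonicallyOrderedAdd
  AddQuantale.instAddLeftMono ContinuousSemilinearMapClass.toSemilinearMapClass
  IsPurelyInseparable.isIntegral Fintype.decidableForallFintype littleWedderburn
  ContinuousMonoidHom.instCoeOutOfMonoidHomClassOfContinuousMapClass instCoeOutOfCoeFun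
  RingHomClass.toLinearMapClassRat BialgHomClass.toAlgHomClass
  instNonUnitalAlgHomClassOfNonUnitalAlgEquivClass NormedField.toField
  CoalgHomClass.toSemilinearMapClass IsOrderedMonoid.toMulLeftMono Module.IsNoetherian.finite
  AddQuantale.instAddRightMono IdemSemiring.toMulLeftMono instCoeTCOfCoe
  CompletePartialOrder.toPartialOrder instCharZeroOfIsSemireal
  SemilinearIsometryClass.toSemilinearMapClass Quantale.instMulLeftMono
  MonTypeEquivalenceMon.monMonoid Group.IsPerfect.subsingleton_of_isMulCommutative instCoeTOfCoeDep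
  NormedSpace.toModule NonUnitalAlgHomClass.toNonUnitalRingHomClass
  NonUnitalAlgHomClass.instSemilinearMapClassOfNonUnitalAlgSemiHomClassToMonoidHomRingHom
  IsometryClass.instCoeOutIsometryEquiv Finset.decidableDforallFinset TotallySeparatedSpace.t2Space
  Quantale.instMulRightMono IsOrderedCancelAddMonoid.toIsCancelAdd Algebra.WeaklyEtale.flat
  IsDedekindDomain.isPrincipalIdealRing
  ContinuousAddMonoidHom.instCoeOutOfAddMonoidHomClassOfContinuousMapClass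
  HomeomorphClass.instCoeOutHomeomorph CategoryTheory.Limits.Concrete.instUniqueToTypeTerminal
  Module.Free.instFaithfulSMulOfNontrivial Bialgebra.toAlgebra CanonicallyOrderedAdd.toMulLeftMono
  NormedDivisionRing.toDivisionRing LeftPreLieAlgebra.toModule RightPreLieAlgebra.toModule
  covariant_swap_mul_of_covariant_mul BooleanRing.toRing Multiset.decidableDforallMultiset
  KleeneAlgebra.toIdemSemiring TestFunctionClass.toDFunLike Fintype.decidableExistsFintype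
  IdemCommSemiring.toIdemSemiring LieRinehartAlgebra.toIsScalarTower
  Vector.instDecidableForallForallMemOfDecidablePred ContDiffMapSupportedInClass.toDFunLike
  Int.decidableLTLE BialgHomClass.toMonoidHomClass LieAlgebra.toModule
  Module.instFiniteDimensionalOfIsReflexive IdemCommSemiring.toCommSemiring
  AlgHomClass.linearMapClass SetLike.GradeZero.instSemiring Option.decidableForallMem
  Array.instDecidableForallForallMemOfDecidablePred Invertible.toNeZero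
  SetLike.GradeZero.instCommSemiring RingConeClass.toSubsemiringClass instCoeHTCT Int.decidableLELE
  MulSemiringActionSemiHomClass.toDistribMulActionSemiHomClass

-- part MP_a59382_lc.V3.EAlg
section

/-! The change of variables for two elements `z`. -/

set_option autoImplicit false
set_option linter.unusedSectionVars false

namespace Pool.Agent.MP_a59382_lc.V3

open Finset NumberField Filter Pool.Agent.MP_48b1c3_nt.H91

variable {K : Type} [Field K] [NumberField K] [IsCMField K]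

theorem e_H_div {n : ℕ} (hn : 0 < n) {a : 𝓞 (maximalRealSubfield K)} (h : (n : 𝓞 K) ∣ eI a) :
    (n : 𝓞 (maximalRealSubfield K)) ∣ a := by
  obtain ⟨v, hv⟩ := h
  have h1 : cO v = v := by
    have e := congrArg cO hv
    rw [cO_map, cO_mul, cO_nat] at e
    exact mul_left_cancel₀ (Nat.cast_ne_zero.2 hn.ne' : (n : 𝓞 K) ≠ 0) (e.symm.trans hv)
  obtain ⟨b, hb⟩ := (IsCMField.ringOfIntegersComplexConj_eq_self_iff K v).1 h1
  exact ⟨b, e_inj (by rw [map_mul, map_natCast, hb]; exact hv)⟩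

theorem e_H {W : ℕ} {z₀ w₁ z w : 𝓞 K} {a₀ : 𝓞 (maximalRealSubfield K)} (h0 : 0 < W)
    (h : eCg W z₀ w₁ a₀) (hz : ((2 * W : ℕ) : 𝓞 K) ∣ z - z₀) (hw : ((2 * W : ℕ) : 𝓞 K) ∣ w - w₁) :
    2 * eH z w = tr z w ∧ (W : 𝓞 (maximalRealSubfield K)) ∣ eH z w - a₀ := by
  obtain ⟨u, hu⟩ := h
  obtain ⟨s, hs⟩ := hz
  obtain ⟨t, ht⟩ := hw
  have hs' := congrArg cO hs
  have ht' := congrArg cO ht
  rw [cO_sub, cO_mul, cO_nat] at hs' ht'
  have h1 : ((2 * W : ℕ) : 𝓞 K) ∣ eI (tr z w - 2 * a₀) := by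
    refine ⟨-(u + s * cO w + z₀ * cO t + cO s * w + cO z₀ * t), ?_⟩
    rw [eI, map_sub, map_mul, map_ofNat, tr_spec]
    linear_combination -hu - cO w * hs - z₀ * ht' - w * hs' - cO z₀ * ht
  obtain ⟨b, hb⟩ := e_H_div (by omega) h1
  push_cast at hb
  have h2 : ∃ a, 2 * a = tr z w := ⟨a₀ + W * b, by linear_combination -hb⟩
  have h3 : 2 * eH z w = tr z w := by
    rw [eH, dif_pos h2]
    exact h2.choose_spec
  exact ⟨h3, b, mul_left_cancel₀ (two_ne_zero' _) (by linear_combination h3 + hb)⟩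

/-- extend `φ` to `K` (ComplexEmbedding.lift) -/
theorem e_Hnear {X Y : ℝ} {z w : 𝓞 K} {a : 𝓞 (maximalRealSubfield K)} (hX : 0 < X) (hY : 0 < Y)
    (hz : eNear 1 Y z) (hw : eNear (-1) X w) (h : 2 * a = tr z w)
    (φ : maximalRealSubfield K →+* ℂ) : ‖sc (X * Y) a φ - 1‖ ≤ 1 / 4 := by
  have hφ := ComplexEmbedding.lift_comp_algebraMap (K := K) φ
  generalize ComplexEmbedding.lift K φ = ψ at hφ
  have h1 := hz ψ
  have h2 := hw ψ
  have h3 := congrArg (fun x : 𝓞 K => ψ x) ((congrArg eI h).trans (tr_spec z w))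
  have h4 : ψ (eI a : 𝓞 K) = φ a := by
    rw [← hφ]
    rfl
  simp only [eI, map_mul, map_ofNat, map_neg, map_add] at h3
  have h5 := cO_emb ψ z
  have h6 := cO_emb ψ w
  have hX' : (X : ℂ) ≠ 0 := Complex.ofReal_ne_zero.2 hX.ne'
  have hY' : (Y : ℂ) ≠ 0 := Complex.ofReal_ne_zero.2 hY.ne'
  have h7 : 2 * φ a = -(ψ z * (starRingEnd ℂ) (ψ w) + (starRingEnd ℂ) (ψ z) * ψ w) := by
    rw [← h4, ← h5, ← h6]
    exact h3
  simp only [sc] at h1 h2 ⊢
  push_cast at h1 h2 ⊢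
  generalize hα : ψ z / Y - 1 = α at h1
  generalize hβ : ψ w / X - -1 = β at h2
  have e1 : ψ z = (α + 1) * Y := by rw [← hα]; field_simp; ring
  have e2 : ψ w = (β - 1) * X := by rw [← hβ]; field_simp; ring
  rw [e1, e2] at h7
  simp only [map_mul, map_add, map_sub, map_one, Complex.conj_ofReal] at h7
  have e3 : φ a / (X * Y) - 1 = (α + (starRingEnd ℂ) α - β - (starRingEnd ℂ) β -
      α * (starRingEnd ℂ) β - (starRingEnd ℂ) α * β) / 2 := by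
    field_simp
    linear_combination h7
  rw [e3, norm_div, Complex.norm_ofNat]
  have n1 := norm_nonneg α
  have n2 := norm_nonneg β
  have n3 : ‖α‖ * ‖β‖ ≤ 1 / 10 * (1 / 10) := mul_le_mul h1.le h2.le n2 (by norm_num)
  have n4 : ‖α + (starRingEnd ℂ) α - β - (starRingEnd ℂ) β -
      α * (starRingEnd ℂ) β - (starRingEnd ℂ) α * β‖ ≤
      ‖α‖ + ‖α‖ + ‖β‖ + ‖β‖ + ‖α‖ * ‖β‖ + ‖α‖ * ‖β‖ := by
    refine norm_sub_le_of_le (norm_sub_le_of_le (norm_sub_le_of_le (norm_sub_le_of_le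
      (norm_add_le_of_le le_rfl ?_) le_rfl) ?_) ?_) ?_ <;> simp
  linarith only [h1, h2, n3, n4]

/-- `D w = 2 (a₁ z₂ - a₂ z₁)` is equivalent to `tr z₁ w = 2 a₁` and `tr z₂ w = 2 a₂` -/
theorem e_Dw {z₁ z₂ w : 𝓞 K} {a₁ a₂ : 𝓞 (maximalRealSubfield K)} (hD : eD z₁ z₂ ≠ 0) :
    eD z₁ z₂ * w = 2 * (eI a₁ * z₂ - eI a₂ * z₁) ↔ 2 * a₁ = tr z₁ w ∧ 2 * a₂ = tr z₂ w := by
  constructor
  · intro h
    have h' := congrArg cO h
    have c2 : cO (2 : 𝓞 K) = 2 := map_ofNat _ 2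
    rw [eD, cO_mul, cO_mul, cO_sub, cO_sub, cO_mul, cO_mul, cO_mul, cO_mul, cO_cO, cO_cO, cO_map,
      cO_map, c2] at h'
    refine ⟨e_inj (mul_left_cancel₀ hD ?_), e_inj (mul_left_cancel₀ hD ?_)⟩
    · rw [tr_spec, map_mul, map_ofNat]
      rw [eD] at h ⊢
      linear_combination cO z₁ * h - z₁ * h'
    · rw [tr_spec, map_mul, map_ofNat]
      rw [eD] at h ⊢
      linear_combination cO z₂ * h - z₂ * h'
  · rintro ⟨h1, h2⟩
    have e1 := (congrArg eI h1).trans (tr_spec z₁ w)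
    have e2 := (congrArg eI h2).trans (tr_spec z₂ w)
    rw [eI, map_mul, map_ofNat] at e1 e2
    rw [eD]
    linear_combination z₁ * e2 - z₂ * e1

theorem e_eta {W : ℕ} {z₀ w₁ z₁ z₂ : 𝓞 K} {a₀ : 𝓞 (maximalRealSubfield K)} (h0 : 0 < W)
    (h : eCg W z₀ w₁ a₀) (hz : ((2 * W : ℕ) : 𝓞 K) ∣ z₁ - z₀) (hD : eD z₁ z₂ ≠ 0)
    (a₂ : 𝓞 (maximalRealSubfield K)) :
    Pe (W * (nm (eD z₁ z₂)).natAbs) (eEta W w₁ z₁ z₂ a₂) ∧
      ∀ a₁, eEta W w₁ z₁ z₂ a₂ a₁ ≠ 0 → (W : 𝓞 (maximalRealSubfield K)) ∣ a₁ - a₀ := by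
  obtain ⟨D', hD'⟩ : eD z₁ z₂ ∣ ((nm (eD z₁ z₂)).natAbs : 𝓞 K) := by
    rw [← Ideal.mem_span_singleton, ← Ideal.absNorm_span_singleton]
    exact Ideal.absNorm_mem _
  generalize (nm (eD z₁ z₂)).natAbs = N at hD'
  have key : ∀ a b : 𝓞 (maximalRealSubfield K), ((W * N : ℕ) : 𝓞 (maximalRealSubfield K)) ∣ a - b →
      (∃ w, ((2 * W : ℕ) : 𝓞 K) ∣ w - w₁ ∧ eD z₁ z₂ * w = 2 * (eI a * z₂ - eI a₂ * z₁)) →
      ∃ w, ((2 * W : ℕ) : 𝓞 K) ∣ w - w₁ ∧ eD z₁ z₂ * w = 2 * (eI b * z₂ - eI a₂ * z₁) := by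
    rintro a b ⟨c, hc⟩ ⟨w, ⟨t, ht⟩, hw⟩
    have e := congrArg eI hc
    rw [eI, eI, map_sub, map_mul, map_natCast] at e
    push_cast at e ht ⊢
    refine ⟨w - 2 * W * (D' * eI c * z₂), ⟨t - D' * eI c * z₂, by linear_combination ht⟩, ?_⟩
    linear_combination hw + 2 * z₂ * e + 2 * W * eI c * z₂ * hD'
  refine ⟨⟨fun a b hab => ?_, fun a => ?_⟩, fun a₁ h1 => ?_⟩
  · unfold eEta
    rw [propext (Iff.intro (key a b hab) (key b a (dvd_sub_comm.1 hab)))]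
  · unfold eEta
    split_ifs <;> simp
  · unfold eEta at h1
    split_ifs at h1 with h2
    · obtain ⟨w, hw, e⟩ := h2
      obtain ⟨h3, h4⟩ := e_H h0 h hz hw
      rwa [mul_left_cancel₀ (two_ne_zero' _) (((e_Dw hD).1 e).1.trans h3.symm)]
    · exact absurd rfl h1

omit [NumberField K] [IsCMField K] in
theorem e_Dbd_z {Y : ℝ} {z : 𝓞 K} (hY : 1 ≤ Y) (h : eNear 1 Y z) (φ : K →+* ℂ) :
    ‖φ z‖ ≤ 11 / 10 * Y := by
  have h1 := h φ
  have hY0 : 0 < Y := by linarith only [hY]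
  have h2 := norm_sub_norm_le (sc Y z φ) ((1 : ℝ) : ℂ)
  have h3 : ‖sc Y z φ‖ = ‖φ z‖ / Y := by
    rw [sc, norm_div, Complex.norm_real, Real.norm_of_nonneg hY0.le]
  rw [h3, Complex.norm_real, norm_one] at h2
  exact (div_le_iff₀ hY0).1 (by linarith only [h1, h2])

theorem e_Dbd_D {Y : ℝ} {z₁ z₂ : 𝓞 K} (hY : 1 ≤ Y) (h1 : eNear 1 Y z₁) (h2 : eNear 1 Y z₂)
    (φ : K →+* ℂ) : ‖φ (eD z₁ z₂ : 𝓞 K)‖ ≤ (2 * Y) ^ 2 := by
  have e : φ (eD z₁ z₂ : 𝓞 K) = φ z₁ * φ (cO z₂ : 𝓞 K) - φ (cO z₁ : 𝓞 K) * φ z₂ := by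
    simp only [eD, map_sub, map_mul]
  have n := mul_le_mul (e_Dbd_z hY h1 φ) (e_Dbd_z hY h2 φ) (norm_nonneg _) (by linarith)
  rw [e, cO_emb, cO_emb]
  refine (norm_sub_le _ _).trans ?_
  rw [norm_mul, norm_mul, Complex.norm_conj, Complex.norm_conj]
  linarith only [sq_nonneg Y, n]

theorem e_Dbd {Y : ℝ} {z₁ z₂ : 𝓞 K} (hY : 1 ≤ Y) (h1 : eNear 1 Y z₁) (h2 : eNear 1 Y z₂) :
    ((nm (eD z₁ z₂)).natAbs : ℝ) ≤ (2 * Y) ^ (2 * dg K) := by
  rw [Nat.cast_natAbs, Int.cast_abs, pow_mul]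
  exact rep_nm_le (e_Dbd_D hY h1 h2)

/-- rep_low with `A = 4 Y ^ 2` -/
theorem e_up {Y : ℝ} {z₁ z₂ : 𝓞 K} (hY : 1 ≤ Y) (h1 : eNear 1 Y z₁) (h2 : eNear 1 Y z₂)
    (hD : eD z₁ z₂ ≠ 0) (X : ℝ) (a₂ : 𝓞 (maximalRealSubfield K))
    (x y : (maximalRealSubfield K →+* ℂ) → ℂ) :
    ‖eUp X Y z₁ z₂ a₂ x - eUp X Y z₁ z₂ a₂ y‖ ≤ (2 * Y) ^ (2 * dg K + 2) * ‖x - y‖ := by
  have hY0 : 0 < Y := by linarith
  refine (pi_norm_le_iff_of_nonneg (by positivity)).2 fun φ => ?_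
  have h3 := rep_low (one_le_pow₀ (by linarith)) (Algebra.norm_ne_zero_iff.2 hD)
    (e_Dbd_D hY h1 h2) φ
  have h4 := e_Dbd_z hY h2 φ
  have h5 := norm_le_pi_norm (x - y) (φ.comp (algebraMap _ K))
  have h6 : 0 < ‖φ (eD z₁ z₂ : 𝓞 K)‖ := by
    by_contra hc
    rw [le_antisymm (not_lt.1 hc) (norm_nonneg _), zero_mul] at h3
    linarith only [h3]
  have e : (eUp X Y z₁ z₂ a₂ x - eUp X Y z₁ z₂ a₂ y) φ =
      2 * Y * (x - y) (φ.comp (algebraMap _ K)) * φ z₂ / φ (eD z₁ z₂ : 𝓞 K) := by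
    simp only [eUp, Pi.sub_apply]
    ring
  rw [e, norm_div, norm_mul, norm_mul, norm_mul, Complex.norm_ofNat, Complex.norm_real,
    Real.norm_of_nonneg hY0.le, div_le_iff₀ h6, pow_add, pow_mul]
  have h7 := mul_le_mul h5 h4 (norm_nonneg _) (norm_nonneg _)
  have h8 := norm_nonneg (x - y)
  generalize ‖x - y‖ = d at *
  have h9 : (2 * Y) ^ 2 * d * 1 ≤ (2 * Y) ^ 2 * d * (‖φ (eD z₁ z₂ : 𝓞 K)‖ * ((2 * Y) ^ 2) ^ dg K) :=
    mul_le_mul_of_nonneg_left h3 (by positivity)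
  have h10 := mul_le_mul_of_nonneg_left h7 (by positivity : 0 ≤ 2 * Y)
  have h11 : 0 ≤ Y ^ 2 * d := by positivity
  linarith only [h9, h10, h11]

theorem e_reidx_up {X Y : ℝ} {z₁ z₂ w : 𝓞 K} {a₁ a₂ : 𝓞 (maximalRealSubfield K)} (hX : X ≠ 0)
    (hY : Y ≠ 0) (hD : eD z₁ z₂ ≠ 0) (h : eD z₁ z₂ * w = 2 * (eI a₁ * z₂ - eI a₂ * z₁)) :
    eUp X Y z₁ z₂ a₂ (sc (X * Y) a₁) = sc X w := by
  funext φ
  have h1 : φ (eD z₁ z₂) ≠ 0 := (map_ne_zero φ).2 (RingOfIntegers.coe_ne_zero_iff.2 hD)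
  have h2 := congrArg (φ.comp (algebraMap (𝓞 K) K)) h
  rw [map_mul, map_mul, map_sub, map_mul, map_mul, map_ofNat] at h2
  have h3 : φ (eD z₁ z₂) * φ w = 2 * (φ (eI a₁) * φ z₂ - φ (eI a₂) * φ z₁) := h2
  have h4 : (φ.comp (algebraMap (maximalRealSubfield K) K)) a₁ = φ (eI a₁) := rfl
  have hX' : (X : ℂ) ≠ 0 := Complex.ofReal_ne_zero.2 hX
  have hY' : (Y : ℂ) ≠ 0 := Complex.ofReal_ne_zero.2 hY
  simp only [eUp, sc, h4, Complex.ofReal_mul]
  field_simp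
  linear_combination -h3

/-- for fixed `a₂` the map `w ↦ eH z₁ w` is a bijection of the supports (e_Dw, e_H, e_Hnear);
`eUp X Y z₁ z₂ a₂ (sc (X * Y) a₁) = sc X w`; finite supports by w_fin -/
theorem e_reidx {W : ℕ} {z₀ w₁ z₁ z₂ : 𝓞 K} {a₀ : 𝓞 (maximalRealSubfield K)} {X Y L₀ : ℝ}
    {ψ : ((K →+* ℂ) → ℂ) → ℝ} {om : ((maximalRealSubfield K →+* ℂ) → ℂ) → ℝ}
    {s : Finset (𝓞 (maximalRealSubfield K))} (h0 : 0 < W) (h : eCg W z₀ w₁ a₀) (hX : 1 ≤ X)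
    (hY : 1 ≤ Y) (h1 : eZ W z₀ Y z₁) (h2 : eZ W z₀ Y z₂) (hD : eD z₁ z₂ ≠ 0)
    (hψ : eTent (-1) (1 / 10) L₀ ψ) (hom : ∀ x, (∀ φ, ‖x φ - 1‖ ≤ 1 / 4) → om x = 1)
    (hs : ∀ a, ‖sc (X * Y) a‖ ≤ 2 → a ∈ s) (G₁ G₂ : 𝓞 (maximalRealSubfield K) → ℝ) :
    ∑' x, cl1 (2 * W) w₁ x * ψ (sc X x) * (G₁ (eH z₁ x) * G₂ (eH z₂ x)) =
      ∑ a₂ ∈ s, G₂ a₂ * ∑' a₁, G₁ a₁ * eEta W w₁ z₁ z₂ a₂ a₁ *
        (om (sc (X * Y) a₁) * ψ (eUp X Y z₁ z₂ a₂ (sc (X * Y) a₁))) := by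
  classical
  have X0 : 0 < X := one_pos.trans_le hX
  have Y0 : 0 < Y := one_pos.trans_le hY
  have nr : ∀ {z x : 𝓞 K}, eZ W z₀ Y z → ((2 * W : ℕ) : 𝓞 K) ∣ x - w₁ → ψ (sc X x) ≠ 0 →
      ∀ φ, ‖sc (X * Y) (eH z x) φ - 1‖ ≤ 1 / 4 := fun hz hx hp =>
    e_Hnear X0 Y0 hz.near (hψ.supp _ hp) (e_H h0 h hz.cg hx).1
  have dw : ∀ {x : 𝓞 K}, ((2 * W : ℕ) : 𝓞 K) ∣ x - w₁ →
      eD z₁ z₂ * x = 2 * (eI (eH z₁ x) * z₂ - eI (eH z₂ x) * z₁) := fun hx =>
    (e_Dw hD).2 ⟨(e_H h0 h h1.cg hx).1, (e_H h0 h h2.cg hx).1⟩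
  obtain ⟨g, hg⟩ : ∃ g : 𝓞 (maximalRealSubfield K) → 𝓞 K → ℝ, ∀ a x, g a x =
      if eH z₂ x = a then cl1 (2 * W) w₁ x * ψ (sc X x) * G₁ (eH z₁ x) else 0 := ⟨_, fun _ _ => rfl⟩
  have g0 : ∀ {a x}, g a x ≠ 0 → eH z₂ x = a ∧ ((2 * W : ℕ) : 𝓞 K) ∣ x - w₁ ∧ ψ (sc X x) ≠ 0 :=
    fun {a x} e => by
      rw [hg] at e
      obtain ⟨e1, e2⟩ := ite_ne_right_iff.1 e
      exact ⟨e1, cl1_ne.1 (left_ne_zero_of_mul (left_ne_zero_of_mul e2)),
        right_ne_zero_of_mul (left_ne_zero_of_mul e2)⟩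
  have val : ∀ {x : 𝓞 K}, ((2 * W : ℕ) : 𝓞 K) ∣ x - w₁ →
      G₁ (eH z₁ x) * eEta W w₁ z₁ z₂ (eH z₂ x) (eH z₁ x) * (om (sc (X * Y) (eH z₁ x)) *
        ψ (eUp X Y z₁ z₂ (eH z₂ x) (sc (X * Y) (eH z₁ x)))) = g (eH z₂ x) x := fun {x} hx => by
    rw [hg, if_pos rfl, e_reidx_up X0.ne' Y0.ne' hD (dw hx), eEta, if_pos ⟨x, hx, dw hx⟩, cl1,
      if_pos hx]
    by_cases hp : ψ (sc X x) = 0
    · rw [hp]
      ring
    · rw [hom _ (nr h1 hx hp)]
      ring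
  have key : ∀ a₂, ∑' a₁, G₁ a₁ * eEta W w₁ z₁ z₂ a₂ a₁ *
      (om (sc (X * Y) a₁) * ψ (eUp X Y z₁ z₂ a₂ (sc (X * Y) a₁))) = ∑' x, g a₂ x := fun a₂ => by
    refine tsum_eq_tsum_of_ne_zero_bij (fun x => eH z₁ x) (fun x y e => ?_) (fun a₁ e => ?_)
      fun x => ?_
    · obtain ⟨p1, p2, -⟩ := g0 x.2
      obtain ⟨q1, q2, -⟩ := g0 y.2
      refine Subtype.ext (mul_left_cancel₀ hD ?_)
      rw [dw p2, dw q2, p1, q1, show eH z₁ x = eH z₁ y from e]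
    · have e1 : eEta W w₁ z₁ z₂ a₂ a₁ ≠ 0 := right_ne_zero_of_mul (left_ne_zero_of_mul e)
      obtain ⟨w, hw, e2⟩ := (ite_ne_right_iff.1 e1).1
      obtain ⟨e3, e4⟩ := (e_Dw hD).1 e2
      obtain rfl : a₁ = eH z₁ w := mul_left_cancel₀ two_ne_zero (e3.trans (e_H h0 h h1.cg hw).1.symm)
      obtain rfl : a₂ = eH z₂ w := mul_left_cancel₀ two_ne_zero (e4.trans (e_H h0 h h2.cg hw).1.symm)
      exact ⟨⟨w, (val hw).symm.trans_ne e⟩, rfl⟩
    · obtain ⟨x, hx⟩ := x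
      obtain ⟨rfl, p2, -⟩ := g0 hx
      exact val p2
  obtain ⟨C, -, hC⟩ := w_fin K 2
  obtain ⟨t, -, ht⟩ := hC X hX
  have sm : ∀ a, Summable (g a) := fun a => summable_of_ne_finset_zero (s := t) fun x hx => by
    by_contra e
    refine hx (ht x ((pi_norm_le_iff_of_nonneg two_pos.le).2 fun φ => ?_))
    have e1 := hψ.supp _ (g0 e).2.2 φ
    have e2 := norm_le_norm_sub_add (sc X x φ) ((-1 : ℝ) : ℂ)
    rw [Complex.norm_real, norm_neg, norm_one] at e2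
    linarith only [e1, e2]
  simp only [key, ← tsum_mul_left]
  rw [← Summable.tsum_finsetSum fun a _ => (sm a).mul_left _]
  refine tsum_congr fun x => ?_
  simp only [hg, mul_ite, mul_zero, sum_ite_eq]
  split_ifs with hx
  · ring
  · by_contra e
    refine hx (hs _ ((pi_norm_le_iff_of_nonneg two_pos.le).2 fun φ => ?_))
    have e1 := nr h2 (cl1_ne.1 (left_ne_zero_of_mul (left_ne_zero_of_mul e)))
      (right_ne_zero_of_mul (left_ne_zero_of_mul e)) φ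
    have e2 := norm_le_norm_sub_add (sc (X * Y) (eH z₂ x) φ) 1
    rw [norm_one] at e2
    linarith only [e1, e2]

end Pool.Agent.MP_a59382_lc.V3

end

-- part MP_a59382_lc.V3.EZ
section

/-! The set of the elements `z`. -/

set_option autoImplicit false
set_option linter.unusedSectionVars false

namespace Pool.Agent.MP_a59382_lc.V3

open Finset NumberField Filter Pool.Agent.MP_48b1c3_nt.H91

variable {k : Type} [Field k] [NumberField k]

variable {K : Type} [Field K] [NumberField K] [IsCMField K]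

theorem e_lm_emb {X R : ℝ} (hX : 0 < X) {a : 𝓞 k} (h : ‖sc X a‖ ≤ R) (φ : k →+* ℂ) :
    ‖φ a‖ ≤ R * X := by
  have h1 := (norm_le_pi_norm (sc X a) φ).trans h
  rwa [sc, norm_div, Complex.norm_real, Real.norm_of_nonneg hX.le, div_le_iff₀ hX] at h1

omit [NumberField k] in
theorem e_lm_near {X c r : ℝ} (hX : 0 < X) (hc : |c| = 1) {a : 𝓞 k} {φ : k →+* ℂ}
    (h : ‖sc X a φ - (c : ℂ)‖ < r) : (1 - r) * X ≤ ‖φ a‖ ∧ ‖φ a‖ ≤ (1 + r) * X := by
  have h1 := abs_norm_sub_norm_le (sc X a φ) (c : ℂ)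
  rw [Complex.norm_real, Real.norm_eq_abs, hc, sc, norm_div, Complex.norm_real,
    Real.norm_of_nonneg hX.le] at h1
  have h2 := abs_le.1 (h1.trans h.le)
  exact ⟨(le_div_iff₀ hX).1 (by linarith only [h2]), (div_le_iff₀ hX).1 (by linarith only [h2])⟩

theorem e_lm_box {c r : ℝ} (hc : |c| = 1) (hr : r ≤ 1) {z : (k →+* ℂ) → ℂ}
    (h : ∀ φ, ‖z φ - (c : ℂ)‖ ≤ r) : ‖z‖ ≤ 2 := by
  refine (pi_norm_le_iff_of_nonneg zero_le_two).2 fun φ => ?_
  have h1 := norm_sub_norm_le (z φ) (c : ℂ)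
  rw [Complex.norm_real, Real.norm_eq_abs, hc] at h1
  linarith [h φ]

theorem e_lm_ev (C : ℝ) (n : ℕ) : ∀ᶠ X : ℝ in atTop, C * Real.log X ^ n ≤ X := by
  filter_upwards [((Real.isLittleO_pow_log_id_atTop (n := n)).const_mul_left C).bound one_pos,
    eventually_ge_atTop 0] with X h h0
  rw [one_mul, id, Real.norm_of_nonneg h0] at h
  exact (Real.le_norm_self _).trans h

theorem e_lm {lam : 𝓞 k → ℝ} (h : Lm lam) : ∃ C : ℝ, 0 < C ∧ ∀ (X : ℝ) (a : 𝓞 k), 2 ≤ X →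
    ‖sc X a‖ ≤ 2 → 0 ≤ lam a ∧ lam a ≤ C * Real.log X := by
  obtain ⟨C, hC⟩ := h
  refine ⟨(|C| + 1) * (2 * dg k + 1), by positivity, fun X a hX ha => ⟨(hC a).1, ?_⟩⟩
  have hL : 0 ≤ Real.log X := Real.log_nonneg (by linarith)
  have h0 := Real.log_natCast_nonneg (nm a).natAbs
  have h1 : Real.log (nm a).natAbs ≤ (2 * dg k + 1) * Real.log X := by
    rcases Nat.eq_zero_or_pos (nm a).natAbs with e | e
    · rw [e, Nat.cast_zero, Real.log_zero]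
      positivity
    have h2 := rep_nm_le (e_lm_emb (by linarith only [hX]) ha)
    rw [← Int.cast_abs, ← Int.natCast_natAbs, Int.cast_natCast] at h2
    have h3 : (2 * X) ^ dg k ≤ (X ^ 2) ^ dg k := pow_le_pow_left₀ (by linarith only [hX]) (by nlinarith only [hX]) _
    have h4 := Real.log_le_log (by exact_mod_cast e) (h2.trans h3)
    rw [← pow_mul, Real.log_pow] at h4
    push_cast at h4
    linarith only [hL, h4]
  calc lam a ≤ (|C| + 1) * Real.log (nm a).natAbs :=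
        (hC a).2.1.trans (mul_le_mul_of_nonneg_right (by linarith [le_abs_self C]) h0)
    _ ≤ _ := by
        rw [mul_assoc]
        exact mul_le_mul_of_nonneg_left h1 (by positivity)

theorem e_ZZ {lz : 𝓞 K → ℝ} {W : ℕ} {z₀ : 𝓞 K} {c : ℝ} (h0 : 0 < W) (hc : 0 < c) (hl : Lm lz)
    (h : Eqd lz (2 * W) z₀ c) : ∀ᶠ Y : ℝ in atTop, ∃ Z : Finset (𝓞 K), Y ^ dg K ≤ Y * #Z ∧
      ∀ z ∈ Z, lz z ≠ 0 ∧ eZ W z₀ Y z := by
  classical
  obtain ⟨L, Φ, hL, p1, p2, p3, -, p5⟩ := w_tent (k := K) (c := 1) (r := 1 / 20) (by norm_num)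
  obtain ⟨C, hC, hl'⟩ := e_lm hl
  obtain ⟨C', -, hf⟩ := w_fin K 2
  obtain ⟨θ, hθ0, hθ⟩ := e_theta K
  have hW : 0 < 2 * W := by omega
  have p3' : ∀ z, Φ z ≠ 0 → ∀ φ, ‖z φ - ((1 : ℝ) : ℂ)‖ < 1 / 10 := fun z hz φ => by
    linarith only [p3 z hz φ]
  obtain ⟨κ, hκ, eκ⟩ : ∃ κ : ℝ, 0 < κ ∧
      κ = c * (1 / ((2 * W : ℕ) : ℝ) ^ dg K) * ∫ x, Φ (emb x) := ⟨_, by positivity, rfl⟩
  filter_upwards [h 1 1 2, e_lm_ev (2 * C / κ) 1, eventually_ge_atTop 2,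
    eventually_gt_atTop (2 * ((2 * (nm θ).natAbs : ℕ) : ℝ)),
    Real.tendsto_log_atTop.eventually_ge_atTop (max (max L (2 / κ)) (2 * W : ℕ))]
    with Y h1 h2 h3 h4 h5
  have hY : 0 < Y := by linarith only [h3]
  obtain ⟨s, -, hs⟩ := hf Y (by linarith only [h3])
  have h6 := h1 (2 * W) (cl1 (2 * W) z₀) Φ hW dvd_rfl
    (by rw [pow_one]; exact (le_max_right _ _).trans h5) ((cl1_pr _ _).pe (cl1_abs _ _))
    (fun a ha => cl1_ne.1 ha) ⟨fun z => abs_le.2 ⟨by linarith only [(p1 z).1], (p1 z).2⟩,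
      fun z w => (p2 z w).trans (mul_le_mul_of_nonneg_right (by
        rw [pow_one]; exact ((le_max_left _ _).trans (le_max_left _ _)).trans h5) (norm_nonneg _)),
      fun z hz φ => by
        have a1 := p3' z hz φ
        have a2 := abs_le.1 ((abs_norm_sub_norm_le (z φ) ((1 : ℝ) : ℂ)).trans a1.le)
        have a3 := abs_le.1 ((Complex.abs_re_le_norm _).trans a1.le)
        simp only [Complex.ofReal_one, norm_one, Complex.sub_re, Complex.one_re] at a2 a3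
        exact ⟨by linarith only [a2], by linarith only [a2], fun _ => by linarith only [a3]⟩⟩
  have h7 : (fun a => mu (2 * W) (2 * W) a * cl1 (2 * W) z₀ a) = cl1 (2 * W) z₀ := funext fun a => by
    rw [mu, filter_false_of_mem fun p hp => not_not.2 (Nat.dvd_of_mem_primeFactors hp), prod_empty,
      one_mul]
  have hb : ∀ a, lz a * cl1 (2 * W) z₀ a * Φ (sc Y a) ≠ 0 → ‖sc Y a‖ ≤ 2 := fun a ha =>
    e_lm_box abs_one (by norm_num) fun φ => (p3' _ (right_ne_zero_of_mul ha) φ).le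
  rw [h7, e_av_class hW, pow_one, tsum_eq_sum (s := s.filter fun a =>
    lz a * cl1 (2 * W) z₀ a * Φ (sc Y a) ≠ 0) fun a ha => by_contra fun e =>
      ha (mem_filter.2 ⟨hs a (hb a e), e⟩)] at h6
  have hlog : 0 < Real.log Y := Real.log_pos (by linarith only [h3])
  refine ⟨s.filter fun a => lz a * cl1 (2 * W) z₀ a * Φ (sc Y a) ≠ 0, ?_, fun z hz => ?_⟩
  · generalize hZ : (s.filter fun a => lz a * cl1 (2 * W) z₀ a * Φ (sc Y a) ≠ 0) = Z at h6
    have a1 : ∑ a ∈ Z, lz a * cl1 (2 * W) z₀ a * Φ (sc Y a) ≤ #Z * (C * Real.log Y) := by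
      rw [← nsmul_eq_mul]
      refine sum_le_card_nsmul _ _ _ fun a ha => ?_
      rw [← hZ] at ha
      have b1 := hl' Y a h3 (hb a (mem_filter.1 ha).2)
      rw [mul_assoc]
      exact (mul_le_of_le_one_right b1.1
        (mul_le_one₀ (cl1_le _ _ _) (p1 _).1 (p1 _).2)).trans b1.2
    have a2 : Y ^ dg K / Real.log Y ≤ κ / 2 * Y ^ dg K := by
      rw [div_le_iff₀ hlog, mul_right_comm]
      refine le_mul_of_one_le_left (by positivity) ?_
      have := (div_le_iff₀ hκ).1 (((le_max_right _ _).trans (le_max_left _ _)).trans h5)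
      linarith only [this]
    have a3 : κ / 2 * Y ^ dg K ≤ #Z * (C * Real.log Y) := by
      have := (abs_le.1 h6).1
      rw [show c * Y ^ dg K * (1 / ((2 * W : ℕ) : ℝ) ^ dg K) * ∫ x, Φ (emb x) = κ * Y ^ dg K by
        rw [eκ]; ring] at this
      linarith only [a1, a2, this]
    have a4 : C * Real.log Y ≤ κ / 2 * Y := by
      rw [pow_one, div_mul_eq_mul_div, div_le_iff₀ hκ] at h2
      linarith only [h2]
    refine le_of_mul_le_mul_left (a3.trans ?_) (half_pos hκ)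
    exact (mul_le_mul_of_nonneg_left a4 (Nat.cast_nonneg _)).trans_eq (by ring)
  · have a1 := (mem_filter.1 hz).2
    have a2 := left_ne_zero_of_mul (left_ne_zero_of_mul a1)
    have a3 := p3' _ (right_ne_zero_of_mul a1)
    obtain ⟨C₀, hC₀⟩ := hl
    have a4 := (hC₀ z).2.2 a2
    refine ⟨a2, cl1_ne.1 (right_ne_zero_of_mul (left_ne_zero_of_mul a1)), a3, a4,
      e_cop hθ a4 fun hd => ?_⟩
    have a5 : ((nm z).natAbs : ℝ) ≤ (2 * (nm θ).natAbs : ℕ) := by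
      exact_mod_cast Nat.le_of_dvd (Nat.mul_pos two_pos (Int.natAbs_pos.2 (nm_ne hθ0))) hd
    have a6 : (Y / 2) ^ dg K ≤ |(nm z : ℝ)| := by
      rw [rep_prod]
      refine le_trans (by rw [prod_const, card_univ, Embeddings.card])
        (prod_le_prod (f := fun _ => Y / 2) (fun _ _ => by positivity) fun φ _ => ?_)
      linarith only [(e_lm_near hY abs_one (a3 φ)).1, h3]
    rw [← Int.cast_abs, ← Int.natCast_natAbs, Int.cast_natCast] at a6
    have a7 := le_self_pow₀ (show 1 ≤ Y / 2 by linarith only [h3]) (dg_pos K).ne'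
    linarith only [h4, a5, a6, a7]

variable (K) in
theorem e_part : ∃ N : ℕ, ∀ (W : ℕ) (z₀ z₁ : 𝓞 K) (Y : ℝ) (Z : Finset (𝓞 K)), 0 < Y →
    eZ W z₀ Y z₁ → (∀ z ∈ Z, eZ W z₀ Y z ∧ eD z₁ z = 0) → #Z ≤ N := by
  classical
  obtain ⟨C, -, hf⟩ := w_fin K 2
  obtain ⟨s, -, hs⟩ := hf 1 le_rfl
  refine ⟨#s, fun W z₀ z₁ Y Z hY h1 hZ => (card_le_card fun z hz => ?_).trans
    (card_image_le (f := fun e => z₁ * e))⟩
  obtain ⟨h2, h3⟩ := hZ z hz
  obtain ⟨e, rfl⟩ := h1.cop.dvd_of_dvd_mul_left ⟨cO z, (sub_eq_zero.1 h3).symm⟩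
  refine mem_image_of_mem _ (hs e ((pi_norm_le_iff_of_nonneg zero_le_two).2 fun φ => ?_))
  have a1 := (e_lm_near hY abs_one (h1.near φ)).1
  have a2 := (e_lm_near hY abs_one (h2.near φ)).2
  rw [show φ ((z₁ * e : 𝓞 K) : K) = φ z₁ * φ e by simp, norm_mul] at a2
  rw [sc, Complex.ofReal_one, div_one]
  by_contra a3
  linarith only [mul_le_mul a1 (not_le.1 a3).le zero_le_two (norm_nonneg _), hY, a2]

end Pool.Agent.MP_a59382_lc.V3

end

-- part MP_a59382_lc.V3.EOff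
section

/-! Diagonal and off-diagonal terms. -/

set_option autoImplicit false
set_option linter.unusedSectionVars false

namespace Pool.Agent.MP_a59382_lc.V3

open Finset NumberField Filter Pool.Agent.MP_48b1c3_nt.H91

variable {K : Type} [Field K] [NumberField K] [IsCMField K]

omit [IsCMField K] in
theorem e_diagM_box {L₀ : ℝ} {ψ : ((K →+* ℂ) → ℂ) → ℝ} (h : eTent (-1) (1 / 10) L₀ ψ)
    (z : (K →+* ℂ) → ℂ) (hz : ψ z ≠ 0) : ‖z‖ ≤ 2 := by
  refine (pi_norm_le_iff_of_nonneg zero_le_two).2 fun φ => ?_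
  have h1 := norm_sub_norm_le (z φ) ((-1 : ℝ) : ℂ)
  rw [Complex.norm_real, norm_neg, norm_one] at h1
  linarith [h.supp z hz φ]

theorem e_diagM_ev (C : ℝ) (n : ℕ) : ∀ᶠ X : ℝ in atTop, C * Real.log X ^ n ≤ X := by
  filter_upwards [((Real.isLittleO_pow_log_id_atTop (n := n)).const_mul_left C).bound one_pos,
    eventually_ge_atTop 0] with X h h0
  rw [one_mul, id, Real.norm_of_nonneg h0] at h
  exact (Real.le_norm_self _).trans h

variable (K) in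
theorem e_diagM : ∃ w : ℕ, ∀ (W : ℕ) (L₀ : ℝ) (ψ : ((K →+* ℂ) → ℂ) → ℝ), eBig w W →
    eTent (-1) (1 / 10) L₀ ψ → ∃ C : ℝ, 0 < C ∧ ∀ B : ℕ, ∀ᶠ X : ℝ in atTop,
      ∀ (Q : ℕ) (T : ℝ) (z : 𝓞 K), 1 ≤ T → (Q : ℝ) ≤ T ^ 4 → (Q : ℝ) ≤ Real.log X ^ B →
        IsCoprime z (cO z) → ∑' x, ψ (sc X x) * eM W Q (tr z x) ^ 2 ≤ C * T * X ^ dg K := by
  obtain ⟨w, hw⟩ := e_meanD K
  refine ⟨max w (2 * dg (maximalRealSubfield K)), fun W L₀ ψ hW hψ => ?_⟩
  obtain ⟨C₁, hC₁, h1⟩ := w_lat K 2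
  obtain ⟨C₂, hC₂, h2⟩ := w_int_bd K 2
  obtain ⟨C₃, -, h3⟩ := w_fin K 2
  have hb := e_diagM_box hψ
  have hI := (le_abs_self _).trans (h2 ψ (fun z => abs_le.2
    ⟨by linarith [(hψ.mem z).1], (hψ.mem z).2⟩) hb)
  have hI0 : 0 ≤ ∫ x, ψ (emb x) := MeasureTheory.integral_nonneg fun x => (hψ.mem _).1
  have hL := hψ.pos
  refine ⟨4 * C₂ + 1, by positivity, fun B => ?_⟩
  filter_upwards [e_diagM_ev 1 (B * 2), e_diagM_ev (C₁ * L₀) (B * 4), eventually_ge_atTop 1]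
    with X g1 g2 hX Q T z hT hQ hQ' hz
  obtain ⟨s, -, hs⟩ := h3 X hX
  have hX0 : 0 < X := by linarith only [hX]
  have hXd : 0 < X ^ dg K := by positivity
  have hsum : ∀ f : 𝓞 K → ℝ, ∑' x, f x * ψ (sc X x) = ∑ x ∈ s, f x * ψ (sc X x) := fun f =>
    tsum_eq_sum fun x hx => by_contra fun e => hx (hs x (hb _ (right_ne_zero_of_mul e)))
  have hQ0 : (0 : ℝ) ≤ Q := Nat.cast_nonneg _
  have key : ∀ D ∈ eDS W Q, ∀ D' ∈ eDS W Q,
      ∑ x ∈ s, ((∏ p ∈ D, fp p (tr z x)) * ∏ p ∈ D', fp p (tr z x)) * ψ (sc X x) ≤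
        X ^ dg K * av ((∏ p ∈ D, p) * ∏ p ∈ D', p)
          (fun x => (∏ p ∈ D, fp p (tr z x)) * ∏ p ∈ D', fp p (tr z x)) * (∫ x, ψ (emb x)) +
          C₁ * L₀ * Q ^ 2 * X ^ dg K / X := fun D hD D' hD' => by
    have a0 : ∀ D ∈ eDS W Q, 0 < ∏ p ∈ D, p ∧ ((∏ p ∈ D, p : ℕ) : ℝ) ≤ Q ∧
        Pr (∏ p ∈ D, p) (fun x => ∏ p ∈ D, fp p (tr z x)) ∧
        ∀ x, |∏ p ∈ D, fp p (tr z x)| ≤ 1 := fun D hD => by
      obtain ⟨b1, b2⟩ := e_DS_mem.1 hD
      refine ⟨prod_pos fun p hp => (b1 p hp).1.pos, by exact_mod_cast b2,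
        Pr.prod fun p hp => ((fp_pr p).map (tr z)).mono (dvd_prod_of_mem _ hp), fun x => ?_⟩
      rw [abs_prod]
      exact prod_le_one (fun _ _ => abs_nonneg _) fun p hp => fp_abs (b1 p hp).1 (by_contra fun h =>
        (b1 p hp).2 (hW p (b1 p hp).1 ((not_le.1 h).le.trans (le_max_right _ _)))) _
    obtain ⟨a1, a2, a3, a4⟩ := a0 D hD
    obtain ⟨b1, b2, b3, b4⟩ := a0 D' hD'
    have c1 : (((∏ p ∈ D, p) * ∏ p ∈ D', p : ℕ) : ℝ) ≤ Q ^ 2 := by
      rw [Nat.cast_mul, sq]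
      exact mul_le_mul a2 b2 (Nat.cast_nonneg _) hQ0
    have c2 := h1 X L₀ _ _ ψ (Nat.mul_pos a1 b1) (c1.trans ((pow_le_pow_left₀ hQ0 hQ' 2).trans
      (by rwa [one_mul, pow_mul] at g1))) hL.le
      (((a3.mono (dvd_mul_right _ _)).mul (b3.mono (dvd_mul_left _ _))).pe fun x => by
        rw [abs_mul]
        exact mul_le_one₀ (a4 x) (abs_nonneg _) (b4 x)) hψ.lip hb
    rw [hsum] at c2
    have c3 : C₁ * L₀ * (((∏ p ∈ D, p) * ∏ p ∈ D', p : ℕ) : ℝ) * X ^ dg K / X ≤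
        C₁ * L₀ * Q ^ 2 * X ^ dg K / X := by gcongr
    linarith only [(abs_le.1 c2).2, c3]
  have e1 : ∑' x, ψ (sc X x) * eM W Q (tr z x) ^ 2 = ∑ D ∈ eDS W Q, ∑ D' ∈ eDS W Q,
      ∑ x ∈ s, ((∏ p ∈ D, fp p (tr z x)) * ∏ p ∈ D', fp p (tr z x)) * ψ (sc X x) := by
    simp only [mul_comm (ψ _)]
    rw [hsum]
    simp only [sq, eM]
    simp only [sum_mul_sum]
    simp only [sum_mul]
    rw [sum_comm]
    exact sum_congr rfl fun _ _ => sum_comm
  have e2 := hw W Q T z (fun p hp h => hW p hp (h.trans (le_max_left _ _))) (by linarith only [hT]) hQ hz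
  have e3 : (#(eDS W Q) : ℝ) ≤ Q := by exact_mod_cast e_DS_card W Q
  rw [e1]
  refine (sum_le_sum fun D hD => sum_le_sum (key D hD)).trans ?_
  simp only [sum_add_distrib, sum_const, nsmul_eq_mul, ← sum_mul, ← mul_sum]
  have e4 : (#(eDS W Q) : ℝ) * (#(eDS W Q) * (C₁ * L₀ * Q ^ 2 * X ^ dg K / X)) ≤ T * X ^ dg K := by
    calc _ ≤ (Q : ℝ) * (Q * (C₁ * L₀ * Q ^ 2 * X ^ dg K / X)) := by gcongr
      _ = C₁ * L₀ * Q ^ 4 / X * X ^ dg K := by ring
      _ ≤ _ := by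
        refine mul_le_mul_of_nonneg_right (((div_le_one hX0).2 (le_trans ?_ g2)).trans hT) hXd.le
        rw [pow_mul]
        gcongr
  have e5 := mul_le_mul (mul_le_mul_of_nonneg_left e2 hXd.le) hI hI0 (by positivity)
  linarith

variable (K) in
theorem e_diag : ∃ w : ℕ, ∀ (W : ℕ) (la : 𝓞 (maximalRealSubfield K) → ℝ) (z₀ w₁ : 𝓞 K)
    (a₀ : 𝓞 (maximalRealSubfield K)) (ca L₀ : ℝ) (ψ : ((K →+* ℂ) → ℂ) → ℝ), 0 < W → eBig w W →
    Lm la → eCg W z₀ w₁ a₀ → eTent (-1) (1 / 10) L₀ ψ → ∃ C : ℝ, 0 < C ∧ ∀ B : ℕ,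
      ∀ᶠ X : ℝ in atTop, ∀ (Y T : ℝ) (Q : ℕ) (z : 𝓞 K), 1 ≤ Y → Y ≤ Real.log X ^ B → 1 ≤ T →
        (Q : ℝ) ≤ T ^ 4 → (Q : ℝ) ≤ Real.log X ^ B → eZ W z₀ Y z →
          ∑' x, cl1 (2 * W) w₁ x * ψ (sc X x) * eG la ca W Q (eH z x) ^ 2 ≤
            C * (Real.log X ^ 2 + T) * X ^ dg K := by
  obtain ⟨w, hw⟩ := e_diagM K
  refine ⟨max w 2, fun W la z₀ w₁ a₀ ca L₀ ψ h0 hW hl hc hψ => ?_⟩
  obtain ⟨C₁, hC₁, h1⟩ := hw W L₀ ψ (fun p hp h => hW p hp (h.trans (le_max_left _ _))) hψ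
  obtain ⟨C₂, hC₂, h2⟩ := e_lm hl
  obtain ⟨C₃, hC₃, h3⟩ := w_fin K 2
  have hb := e_diagM_box hψ
  have hW2 : 2 ∣ W := hW 2 Nat.prime_two (le_max_right _ _)
  refine ⟨8 * C₂ ^ 2 * C₃ + 2 * ca ^ 2 * C₁, by positivity, fun B => ?_⟩
  filter_upwards [h1 B, e_diagM_ev 1 B, eventually_ge_atTop 2] with X g1 g2 hX Y T Q z hY hY' hT
    hQ hQ' hz
  obtain ⟨s, hs1, hs⟩ := h3 X (by linarith only [hX])
  have hX0 : 0 < X := by linarith only [hX]
  have hY0 : 0 < Y := by linarith only [hY]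
  have hXd : 0 < X ^ dg K := by positivity
  have hout : ∀ x ∉ s, ψ (sc X x) = 0 := fun x hx => by_contra fun e => hx (hs x (hb _ e))
  have g3 := g1 Q T z hT hQ hQ' hz.cop
  rw [tsum_eq_sum (s := s) fun x hx => by rw [hout x hx, zero_mul]] at g3
  rw [tsum_eq_sum (s := s) fun x hx => by rw [hout x hx, mul_zero, zero_mul]]
  have hlog : Real.log (X * Y) ≤ 2 * Real.log X := by
    rw [Real.log_mul hX0.ne' hY0.ne', two_mul]
    exact add_le_add_right (Real.log_le_log hY0 (by linarith only [g2, hY'])) _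
  have key : ∀ x ∈ s, cl1 (2 * W) w₁ x * ψ (sc X x) * eG la ca W Q (eH z x) ^ 2 ≤
      8 * C₂ ^ 2 * Real.log X ^ 2 + 2 * ca ^ 2 * (ψ (sc X x) * eM W Q (tr z x) ^ 2) := fun x _ => by
    obtain ⟨m1, m2⟩ := hψ.mem (sc X x)
    by_cases e : cl1 (2 * W) w₁ x * ψ (sc X x) = 0
    · rw [e, zero_mul]
      positivity
    have a1 := (e_H h0 hc hz.cg (cl1_ne.1 (left_ne_zero_of_mul e))).1
    have a2 := e_Hnear hX0 hY0 hz.near (hψ.supp _ (right_ne_zero_of_mul e)) a1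
    obtain ⟨a3, a4⟩ := h2 (X * Y) (eH z x) (by nlinarith only [hX, hY])
      ((pi_norm_le_iff_of_nonneg zero_le_two).2 fun φ => by
        have := norm_sub_norm_le (sc (X * Y) (eH z x) φ) 1
        rw [norm_one] at this
        linarith only [a2 φ, this])
    have a5 : la (eH z x) ^ 2 ≤ (C₂ * (2 * Real.log X)) ^ 2 :=
      pow_le_pow_left₀ a3 (a4.trans (mul_le_mul_of_nonneg_left hlog hC₂.le)) 2
    rw [eG, ← e_M_two hW2, a1]
    generalize eM W Q (tr z x) = M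
    generalize la (eH z x) = l at a5
    have a6 : (l - ca * M) ^ 2 ≤ 2 * l ^ 2 + 2 * ca ^ 2 * M ^ 2 := by
      linarith only [sq_nonneg (l + ca * M)]
    calc _ ≤ ψ (sc X x) * (2 * l ^ 2 + 2 * ca ^ 2 * M ^ 2) :=
          mul_le_mul (mul_le_of_le_one_left m1 (cl1_le _ _ _)) a6 (sq_nonneg _) m1
      _ ≤ _ := by
          have := mul_le_of_le_one_left (sq_nonneg l) m2
          linarith only [a5, this]
  refine (sum_le_sum key).trans ?_
  rw [sum_add_distrib, sum_const, nsmul_eq_mul, ← mul_sum]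
  have b1 := mul_le_mul_of_nonneg_right hs1 (show 0 ≤ 8 * C₂ ^ 2 * Real.log X ^ 2 by positivity)
  have b2 := mul_le_mul_of_nonneg_left g3 (show 0 ≤ 2 * ca ^ 2 by positivity)
  have b3 : 0 ≤ 8 * C₂ ^ 2 * C₃ * T * X ^ dg K := by positivity
  have b4 : 0 ≤ 2 * ca ^ 2 * C₁ * Real.log X ^ 2 * X ^ dg K := by positivity
  linarith only [b1, b2, b3, b4]

theorem e_off_wt {L₀ L₁ M : ℝ} {ψ : ((K →+* ℂ) → ℂ) → ℝ}
    {om : ((maximalRealSubfield K →+* ℂ) → ℂ) → ℝ}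
    {u : ((maximalRealSubfield K →+* ℂ) → ℂ) → (K →+* ℂ) → ℂ} (hψ : eTent (-1) (1 / 10) L₀ ψ)
    (ho : eTent 1 (1 / 2) L₁ om) (hu : ∀ x y, ‖u x - u y‖ ≤ M * ‖x - y‖) :
    Wt 2 (L₁ + L₀ * M) fun x => om x * ψ (u x) := by
  refine ⟨fun x => ?_, fun x y => ?_, fun x hx φ => ?_⟩
  · rw [abs_of_nonneg (mul_nonneg (ho.mem _).1 (hψ.mem _).1)]
    exact mul_le_one₀ (ho.mem _).2 (hψ.mem _).1 (hψ.mem _).2
  · have h1 := mul_le_mul (ho.lip x y) (hψ.mem (u x)).2 (hψ.mem _).1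
      (mul_nonneg ho.pos.le (norm_nonneg _))
    have h2 := mul_le_mul (ho.mem y).2 ((hψ.lip (u x) (u y)).trans
      (mul_le_mul_of_nonneg_left (hu x y) hψ.pos.le)) (abs_nonneg _) zero_le_one
    rw [show om x * ψ (u x) - om y * ψ (u y) =
      (om x - om y) * ψ (u x) + om y * (ψ (u x) - ψ (u y)) by ring]
    refine (abs_add_le _ _).trans ?_
    rw [abs_mul, abs_mul, abs_of_nonneg (hψ.mem _).1, abs_of_nonneg (ho.mem _).1]
    linarith
  · have h1 := ho.supp x (left_ne_zero_of_mul hx) φ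
    have h2 := abs_le.1 (abs_norm_sub_norm_le (x φ) ((1 : ℝ) : ℂ))
    have h3 := abs_le.1 (Complex.abs_re_le_norm (x φ - ((1 : ℝ) : ℂ)))
    rw [Complex.norm_real, norm_one] at h2
    rw [Complex.sub_re, Complex.ofReal_re] at h3
    exact ⟨by linarith, by linarith, fun _ => by linarith⟩

theorem e_off {W : ℕ} {la : 𝓞 (maximalRealSubfield K) → ℝ} {z₀ w₁ : 𝓞 K}
    {a₀ : 𝓞 (maximalRealSubfield K)} {ca L₀ : ℝ} {ψ : ((K →+* ℂ) → ℂ) → ℝ} (h0 : 0 < W)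
    (hW : eBig (2 * dg (maximalRealSubfield K)) W) (hl : Lm la) (hm : eMod la W a₀ ca)
    (h : eCg W z₀ w₁ a₀) (hψ : eTent (-1) (1 / 10) L₀ ψ) (A B : ℕ) :
    ∀ᶠ X : ℝ in atTop, ∀ (Y : ℝ) (Q : ℕ) (z₁ z₂ : 𝓞 K), 1 ≤ Y → Y ≤ Real.log X ^ B →
      (Q : ℝ) ≤ Real.log X ^ B → eZ W z₀ Y z₁ → eZ W z₀ Y z₂ → eD z₁ z₂ ≠ 0 →
        (nm (eD z₁ z₂)).natAbs ≤ Q →
          |∑' x, cl1 (2 * W) w₁ x * ψ (sc X x) *
            (eG la ca W Q (eH z₁ x) * eG la ca W Q (eH z₂ x))| ≤ X ^ dg K / Real.log X ^ A := by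
  classical
  obtain ⟨L₁, om, l1, p1, p2, p3, p4, -⟩ :=
    w_tent (k := maximalRealSubfield K) (c := 1) (r := 1 / 4) (by norm_num)
  have ho : eTent 1 (1 / 2) L₁ om := ⟨l1, p1, p2, fun z hz φ => (p3 z hz φ).trans_eq (by norm_num)⟩
  obtain ⟨C₁, c1, hfin⟩ := w_fin (maximalRealSubfield K) 2
  obtain ⟨C₂, c2, hla⟩ := e_lm hl
  obtain ⟨X₀, hX₀⟩ := eventually_atTop.1
    (hm (A + (B + 1) + B * dg K + 1) ((B + 1) * (2 * dg K + 2) + 1) 2)
  have l0 := hψ.pos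
  have hsm := (Real.isLittleO_pow_log_id_atTop (n := B)).eventuallyLE
  filter_upwards [hsm, eventually_ge_atTop X₀, eventually_ge_atTop 2,
    Real.tendsto_log_atTop.eventually_ge_atTop (2 + L₁ + L₀ + C₁ * (2 * C₂ + |ca|))]
    with X hs0 hX0 hX hL Y Q z₁ z₂ Y1 YB QB h1 h2 hD hDQ
  have X0 : 0 < X := by linarith only [hX]
  have XY : X ≤ X * Y := le_mul_of_one_le_right X0.le Y1
  have YX : Y ≤ X := YB.trans ((le_abs_self _).trans (hs0.trans_eq (abs_of_pos X0)))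
  have l1' : Real.log X ≤ Real.log (X * Y) := Real.log_le_log X0 XY
  have l2' : Real.log (X * Y) ≤ 2 * Real.log X := by
    rw [Real.log_mul X0.ne' (by linarith only [Y1])]
    linarith only [Real.log_le_log (by linarith only [Y1]) YX]
  obtain ⟨s, hs, hs'⟩ := hfin (X * Y) (by linarith only [hX, XY])
  set L := Real.log X
  have cc : 0 < C₁ * (2 * C₂ + |ca|) := by positivity
  have L1 : 1 ≤ L := by linarith only [l1, l0, hL, cc]
  have L0 : 0 < L := by linarith only [l1, l0, hL, cc]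
  have YL : 2 * Y ≤ L ^ (B + 1) := by
    rw [pow_succ']
    exact mul_le_mul (by linarith only [l1, l0, hL, cc]) YB (by linarith only [Y1]) L0.le
  have lip : L₁ + L₀ * (2 * Y) ^ (2 * dg K + 2) ≤
      Real.log (X * Y) ^ ((B + 1) * (2 * dg K + 2) + 1) := by
    have e1 : (2 * Y) ^ (2 * dg K + 2) ≤ L ^ ((B + 1) * (2 * dg K + 2)) := by
      rw [pow_mul L]
      exact pow_le_pow_left₀ (by linarith only [Y1]) YL _
    have e2 : 1 ≤ L ^ ((B + 1) * (2 * dg K + 2)) := one_le_pow₀ L1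
    refine le_trans ?_ (pow_le_pow_left₀ L0.le l1' _)
    rw [pow_succ' L]
    calc _ ≤ L₁ * L ^ ((B + 1) * (2 * dg K + 2)) + L₀ * L ^ ((B + 1) * (2 * dg K + 2)) :=
          add_le_add (le_mul_of_one_le_right l1.le e2) (mul_le_mul_of_nonneg_left e1 l0.le)
      _ = (L₁ + L₀) * L ^ ((B + 1) * (2 * dg K + 2)) := by ring
      _ ≤ _ := mul_le_mul_of_nonneg_right (by linarith only [hL, cc]) (by positivity)
  have QB' : (Q : ℝ) ≤ Real.log (X * Y) ^ ((B + 1) * (2 * dg K + 2) + 1) :=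
    QB.trans ((pow_le_pow_right₀ L1 (by nlinarith only [])).trans (pow_le_pow_left₀ L0.le l1' _))
  rw [e_reidx (s := s.filter fun a => ‖sc (X * Y) a‖ ≤ 2) (om := om) h0 h (by linarith only [hX]) Y1 h1 h2 hD
    hψ (fun x hx => p4 x (by simpa only [Complex.ofReal_one, one_div] using hx)) fun a ha => mem_filter.2 ⟨hs' a ha, ha⟩]
  refine (abs_sum_le_sum_abs _ _).trans ((sum_le_card_nsmul _ _ ((2 * C₂ + |ca|) * L ^ (B + 1) *
    ((X * Y) ^ dg (maximalRealSubfield K) / L ^ (A + (B + 1) + B * dg K + 1)))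
      fun a ha => ?_).trans ?_)
  · obtain ⟨e1, e2⟩ := e_eta h0 h h1.cg hD a
    have e3 := e_off_wt hψ ho (e_up Y1 h1.near h2.near hD X a)
    have e4 := hX₀ (X * Y) (hX0.trans XY) Q _ _ _ (Int.natAbs_pos.2 (nm_ne hD)) hDQ QB' e1 e2
      ⟨e3.le, fun x y => (e3.lip x y).trans (mul_le_mul_of_nonneg_right lip (norm_nonneg _)),
        e3.supp⟩
    obtain ⟨g1, g2⟩ := hla (X * Y) a (by linarith only [hX, XY]) (mem_filter.1 ha).2
    have g3 := mul_le_mul_of_nonneg_left ((e_M_abs (Q := Q) hW a).trans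
      (QB.trans (pow_le_pow_right₀ L1 (B.le_add_right 1)))) (abs_nonneg ca)
    have g4 := mul_le_mul_of_nonneg_left
      (l2'.trans (mul_le_mul_of_nonneg_left (le_self_pow₀ L1 B.add_one_ne_zero) two_pos.le)) c2.le
    rw [abs_mul]
    refine mul_le_mul ((abs_sub _ _).trans ?_) (e4.trans ?_) (abs_nonneg _) (by positivity)
    · rw [abs_of_nonneg g1, abs_mul]
      linarith only [g2, g3, g4]
    · exact div_le_div_of_nonneg_left (by positivity) (by positivity)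
        (pow_le_pow_left₀ L0.le l1' _)
  · have e1 : (#(s.filter fun a => ‖sc (X * Y) a‖ ≤ 2) : ℝ) ≤
        C₁ * (X * Y) ^ dg (maximalRealSubfield K) :=
      (Nat.cast_le.2 (card_filter_le _ _)).trans hs
    have e2 : Y ^ dg K ≤ L ^ (B * dg K) := by
      rw [pow_mul]
      exact pow_le_pow_left₀ (by linarith only [Y1]) YB _
    have e3 : (X * Y) ^ dg (maximalRealSubfield K) * (X * Y) ^ dg (maximalRealSubfield K) =
        X ^ dg K * Y ^ dg K := by rw [← pow_add, ← two_mul, ← e_dg, mul_pow]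
    rw [nsmul_eq_mul]
    calc _ ≤ C₁ * (X * Y) ^ dg (maximalRealSubfield K) * ((2 * C₂ + |ca|) * L ^ (B + 1) *
          ((X * Y) ^ dg (maximalRealSubfield K) / L ^ (A + (B + 1) + B * dg K + 1))) :=
          mul_le_mul_of_nonneg_right e1 (by positivity)
      _ = C₁ * (2 * C₂ + |ca|) * ((X * Y) ^ dg (maximalRealSubfield K) *
          (X * Y) ^ dg (maximalRealSubfield K)) * (L ^ (B + 1) /
            L ^ (A + (B + 1) + B * dg K + 1)) := by ring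
      _ ≤ L * (X ^ dg K * L ^ (B * dg K)) * (L ^ (B + 1) / L ^ (A + (B + 1) + B * dg K + 1)) := by
          rw [e3]
          gcongr
          linarith only [l1, l0, hL]
      _ = _ := by
          field_simp
          ring

end Pool.Agent.MP_a59382_lc.V3

end

-- part MP_a59382_lc.V3.EFin
section

/-! The ternary problem: the variance argument. -/

set_option autoImplicit false

namespace Pool.Agent.MP_a59382_lc.V3

open Finset NumberField Filter Pool.Agent.MP_48b1c3_nt.H91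

theorem e_cs {α β : Type} (s : Finset α) (Z : Finset β) (l ρ : α → ℝ) (G : β → α → ℝ)
    (r : β → β → Prop) [DecidableRel r] {N : ℕ} {Λ Δ ε : ℝ} (hρ : ∀ w, 0 ≤ ρ w) (hΔ0 : 0 ≤ Δ)
    (hε0 : 0 ≤ ε) (hN : ∀ z ∈ Z, #(Z.filter (r z)) ≤ N) (hΛ : ∑ w ∈ s, ρ w * l w ^ 2 ≤ Λ)
    (hΔ : ∀ z ∈ Z, ∑ w ∈ s, ρ w * G z w ^ 2 ≤ Δ)
    (hε : ∀ z ∈ Z, ∀ z' ∈ Z, ¬ r z z' → |∑ w ∈ s, ρ w * (G z w * G z' w)| ≤ ε) :
    (∑ z ∈ Z, ∑ w ∈ s, l w * ρ w * G z w) ^ 2 ≤ Λ * (#Z * (N * Δ + #Z * ε)) := by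
  have h1 : ∑ z ∈ Z, ∑ w ∈ s, l w * ρ w * G z w = ∑ w ∈ s, l w * ρ w * ∑ z ∈ Z, G z w := by
    rw [sum_comm]
    simp only [mul_sum]
  have h2 := sum_sq_le_sum_mul_sum_of_sq_le_mul s (r := fun w => l w * ρ w * ∑ z ∈ Z, G z w)
    (f := fun w => ρ w * l w ^ 2) (g := fun w => ρ w * (∑ z ∈ Z, G z w) ^ 2)
    (fun w _ => mul_nonneg (hρ w) (sq_nonneg _)) (fun w _ => mul_nonneg (hρ w) (sq_nonneg _))
    fun w _ => le_of_eq (by ring)
  have h3 : ∑ w ∈ s, ρ w * (∑ z ∈ Z, G z w) ^ 2 =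
      ∑ z ∈ Z, ∑ z' ∈ Z, ∑ w ∈ s, ρ w * (G z w * G z' w) := by
    simp only [sq, sum_mul_sum]
    simp only [mul_sum]
    rw [sum_comm]
    exact sum_congr rfl fun z _ => sum_comm
  have h4 : ∀ z ∈ Z, ∑ z' ∈ Z, ∑ w ∈ s, ρ w * (G z w * G z' w) ≤ N * Δ + #Z * ε := by
    intro z hz
    have h5 : ∀ z' ∈ Z, ∑ w ∈ s, ρ w * (G z w * G z' w) ≤ (if r z z' then Δ else 0) + ε := by
      intro z' hz'
      split_ifs with h
      · have h6 : ∑ w ∈ s, ρ w * (G z w * G z' w) ≤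
            ∑ w ∈ s, (ρ w * G z w ^ 2 + ρ w * G z' w ^ 2) / 2 := sum_le_sum fun w _ => by
          have := mul_nonneg (hρ w) (sq_nonneg (G z w - G z' w))
          linarith only [this]
        rw [← sum_div, sum_add_distrib] at h6
        linarith only [hΔ z hz, hΔ z' hz', hε0, h6]
      · linarith [(abs_le.1 (hε z hz z' hz' h)).2]
    refine (sum_le_sum h5).trans ?_
    rw [sum_add_distrib, ← sum_filter, sum_const, sum_const, nsmul_eq_mul, nsmul_eq_mul]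
    have h7 : (#(Z.filter (r z)) : ℝ) ≤ N := by exact_mod_cast hN z hz
    linarith only [mul_le_mul_of_nonneg_right h7 hΔ0]
  have h8 := sum_le_card_nsmul _ _ _ h4
  rw [nsmul_eq_mul, ← h3] at h8
  rw [h1]
  exact h2.trans (mul_le_mul hΛ h8 (sum_nonneg fun w _ => mul_nonneg (hρ w) (sq_nonneg _))
    ((sum_nonneg fun w _ => mul_nonneg (hρ w) (sq_nonneg _)).trans hΛ))

theorem e_num {κ : ℝ} (hκ : 0 < κ) (M M' : ℝ) : ∀ᶠ L : ℝ in atTop, ∀ z P : ℝ, 0 < P →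
    L ^ 8 * P ≤ z → ¬ κ * z ≤ M * (L ^ 2 * (M' * P + z / L ^ 3)) := by
  filter_upwards [eventually_ge_atTop 1, eventually_ge_atTop (2 * M / κ),
    eventually_gt_atTop (2 * (M * M') / κ)] with L h1 h2 h3 z P hP hz h
  have h0 : 0 < L := by linarith only [h1]
  rw [div_le_iff₀ hκ] at h2
  rw [div_lt_iff₀ hκ] at h3
  have h4 : L ≤ L ^ 6 := le_self_pow₀ h1 (by norm_num)
  have h5 : 0 < L ^ 2 * P := by positivity
  have hz0 : 0 < z := lt_of_lt_of_le (by positivity) hz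
  have h6 : M * (L ^ 2 * (z / L ^ 3)) ≤ κ / 2 * z := by
    rw [show M * (L ^ 2 * (z / L ^ 3)) = M * z / L by field_simp, div_le_iff₀ h0]
    linarith only [mul_le_mul_of_nonneg_right h2 hz0.le]
  have h7 : M * M' * (L ^ 2 * P) < κ / 2 * L ^ 6 * (L ^ 2 * P) :=
    mul_lt_mul_of_pos_right (by linarith only [mul_le_mul_of_nonneg_right h4 hκ.le, h3]) h5
  have h8 : κ / 2 * (L ^ 8 * P) ≤ κ / 2 * z := mul_le_mul_of_nonneg_left hz (by positivity)
  linarith only [h, h6, h7, h8]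

variable {K : Type} [Field K] [NumberField K]

omit [NumberField K] in
theorem e_near {c X : ℝ} (hc : |c| = 1) (hX : 0 < X) {z : 𝓞 K} (h : eNear c X z) (φ : K →+* ℂ) :
    9 / 10 * X < ‖φ z‖ ∧ ‖φ z‖ < 11 / 10 * X := by
  have h1 := h φ
  have h2 : ‖sc X z φ‖ = ‖φ z‖ / X := by
    rw [sc, norm_div, Complex.norm_real, Real.norm_eq_abs, abs_of_pos hX]
  have h3 := abs_le.1 (abs_norm_sub_norm_le (sc X z φ) (c : ℂ))
  rw [h2, Complex.norm_real, Real.norm_eq_abs, hc] at h3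
  exact ⟨(lt_div_iff₀ hX).1 (by linarith), (div_lt_iff₀ hX).1 (by linarith only [h1, h3])⟩

theorem e_ne {X Y : ℝ} (hY : 0 < Y) (h : 2 * Y ≤ X) {z w : 𝓞 K} (hz : eNear 1 Y z)
    (hw : eNear (-1) X w) : (nm z).natAbs ≠ (nm w).natAbs := by
  intro e
  have h1 : |(nm z : ℝ)| = |(nm w : ℝ)| := by
    rw [← Int.cast_abs, ← Int.cast_abs, Int.abs_eq_natAbs, Int.abs_eq_natAbs, e]
  rw [rep_prod, rep_prod] at h1
  refine (prod_lt_prod_of_nonempty (fun φ _ => ?_) (fun φ _ => ?_) univ_nonempty).ne h1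
  · linarith [(e_near abs_one hY hz φ).1]
  · linarith [(e_near abs_one hY hz φ).2, (e_near (by norm_num) (by linarith only [hY, h]) hw φ).1]

theorem e_supp {c L : ℝ} {ψ : ((K →+* ℂ) → ℂ) → ℝ} (hc : |c| = 1) (h : eTent c (1 / 10) L ψ)
    {z : (K →+* ℂ) → ℂ} (hz : ψ z ≠ 0) : ‖z‖ ≤ 2 :=
  (pi_norm_le_iff_of_nonneg two_pos.le).2 fun φ => by
    have h1 := h.supp z hz φ
    have h3 := abs_le.1 (abs_norm_sub_norm_le (z φ) (c : ℂ))
    rw [Complex.norm_real, Real.norm_eq_abs, hc] at h3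
    linarith

theorem ternary (K : Type) [Field K] [NumberField K] [IsCMField K] (h4 : 4 ≤ dg K) :
    ∃ w₀ : ℕ, 0 < w₀ ∧ ∀ (W : ℕ) (lz lw : 𝓞 K → ℝ) (la : 𝓞 (maximalRealSubfield K) → ℝ)
      (z₀ w₁ : 𝓞 K) (a₀ : 𝓞 (maximalRealSubfield K)) (cz cw ca : ℝ), 0 < W → w₀ ∣ W →
      0 < cz → 0 < cw → 0 < ca → Lm lz → Lm lw → Lm la →
      Eqd lz (2 * W) z₀ cz → Eqd lw (2 * W) w₁ cw → Eqd la W a₀ ca →
      ((2 * W : ℕ) : 𝓞 K) ∣ z₀ * cO w₁ + cO z₀ * w₁ + 2 * algebraMap _ (𝓞 K) a₀ →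
      ∃ (z w : 𝓞 K) (a : 𝓞 (maximalRealSubfield K)), lz z ≠ 0 ∧ lw w ≠ 0 ∧ la a ≠ 0 ∧
        ((2 * W : ℕ) : 𝓞 K) ∣ z - z₀ ∧ ((2 * W : ℕ) : 𝓞 K) ∣ w - w₁ ∧
        (W : 𝓞 (maximalRealSubfield K)) ∣ a - a₀ ∧
        z * cO w + cO z * w + 2 * algebraMap _ (𝓞 K) a = 0 ∧ (nm z).natAbs ≠ (nm w).natAbs := by
  classical
  obtain ⟨v₁, hT⟩ := e_T K
  obtain ⟨v₂, hd⟩ := e_diag K
  obtain ⟨N, hN⟩ := e_part K
  obtain ⟨C₁, c1, hfin⟩ := w_fin K 2
  have hdg := e_dg (K := K)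
  refine ⟨(v₁ + v₂ + dg K).factorial, Nat.factorial_pos _,
    fun W lz lw la z₀ w₁ a₀ cz cw ca h0 hW hcz hcw hca lmz lmw lma ez ew ea hcg => ?_⟩
  have big : ∀ v ≤ v₁ + v₂ + dg K, eBig v W := fun v hv p hp h =>
    (Nat.dvd_factorial hp.pos (h.trans hv)).trans hW
  have h2W : 2 ∣ W := big 2 (by omega) 2 Nat.prime_two le_rfl
  by_contra hno
  obtain ⟨L₀, ψ, l0, p1, p2, p3, -, p5⟩ := w_tent (k := K) (c := -1) (r := 1 / 20) (by norm_num)
  have hψ : eTent (-1) (1 / 10) L₀ ψ :=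
    ⟨l0, p1, p2, fun z hz φ => (p3 z hz φ).trans_eq (by norm_num)⟩
  obtain ⟨c, hc, hT⟩ := hT W lw w₁ cw L₀ ψ h0 (big _ (by omega)) hcw ew hψ p5
  obtain ⟨C₃, c3, hd⟩ := hd W la z₀ w₁ a₀ ca L₀ ψ h0 (big _ (by omega)) lma hcg hψ
  obtain ⟨C₂, c2, hlw⟩ := e_lm lmw
  have hb : eBig (2 * dg (maximalRealSubfield K)) W := big _ (by omega)
  have hoff := e_off h0 hb lma (e_G h0 hb ea) hcg hψ 3 (18 * dg K)
  have t8 : Tendsto (fun X : ℝ => Real.log X ^ 8) atTop atTop :=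
    (tendsto_pow_atTop (by norm_num)).comp Real.tendsto_log_atTop
  have hsm : ∀ᶠ X : ℝ in atTop, 2 * Real.log X ^ 8 ≤ X := by
    have := (Real.isLittleO_pow_log_id_atTop (n := 8)).bound (c := 1 / 2) (by norm_num)
    filter_upwards [this, eventually_ge_atTop 0] with X h h'
    rw [id, Real.norm_eq_abs, Real.norm_eq_abs, abs_of_nonneg h'] at h
    linarith only [le_abs_self (Real.log X ^ 8), h]
  obtain ⟨X, ⟨hT, hd, hoff⟩, ⟨Z, hZ, hZ'⟩, hsm, hX, hL, hnum⟩ := ((((hT (18 * dg K)).and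
    ((hd (18 * dg K)).and hoff)).and ((t8.eventually (e_ZZ h0 hcz lmz ez)).and (hsm.and
      ((eventually_ge_atTop 2).and ((Real.tendsto_log_atTop.eventually (eventually_ge_atTop 2)).and
        (Real.tendsto_log_atTop.eventually (e_num (κ := (ca * c) ^ 2) (by positivity) (C₁ * C₂ ^ 2)
          (N * C₃ * (1 + 2 ^ dg (maximalRealSubfield K))))))))))).exists
  obtain ⟨s, hs, hs'⟩ := hfin X (by linarith only [hX])
  set L := Real.log X with hLd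
  set n := dg (maximalRealSubfield K) with hn
  set Y := L ^ 8 with hY
  have L1 : 1 ≤ L := by linarith only [hL]
  have LY : L ^ 2 ≤ Y := pow_le_pow_right₀ L1 (by norm_num)
  have Y1 : 1 ≤ Y := one_le_pow₀ L1
  have Y2 : 1 ≤ 2 * Y := by linarith only [Y1]
  have YB : Y ≤ L ^ (18 * dg K) := pow_le_pow_right₀ L1 (by omega)
  set Q := ⌊(2 * Y) ^ (2 * dg K)⌋₊ with hQ
  have Q0 : (Q : ℝ) ≤ (2 * Y) ^ (2 * dg K) := Nat.floor_le (by positivity)
  have Q1 : 1 ≤ Q := Nat.le_floor (by rw [Nat.cast_one]; exact one_le_pow₀ Y2)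
  have QT : (Q : ℝ) ≤ ((2 * Y) ^ n) ^ 4 := by
    rw [← pow_mul, show n * 4 = 2 * dg K by omega]
    exact Q0
  have QB : (Q : ℝ) ≤ L ^ (18 * dg K) := by
    refine Q0.trans ?_
    rw [show 18 * dg K = 9 * (2 * dg K) by ring, pow_mul L 9]
    refine pow_le_pow_left₀ (by positivity) ?_ _
    rw [pow_succ' L 8]
    exact mul_le_mul_of_nonneg_right hL (by positivity)
  have ρ0 : ∀ x, 0 ≤ cl1 (2 * W) w₁ x * ψ (sc X x) := fun x => mul_nonneg (cl1_nonneg _ _ _) (p1 _).1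
  have ρ1 : ∀ x, cl1 (2 * W) w₁ x * ψ (sc X x) ≤ 1 := fun x =>
    mul_le_one₀ (cl1_le _ _ _) (p1 _).1 (p1 _).2
  have ρs : ∀ x, x ∉ s → cl1 (2 * W) w₁ x * ψ (sc X x) = 0 := fun x hx => by
    rw [not_not.1 fun h => hx (hs' x (e_supp (by norm_num) hψ h)), mul_zero]
  have X0 : 0 < X ^ dg K := by positivity
  have key := e_cs s Z lw (fun x => cl1 (2 * W) w₁ x * ψ (sc X x))
    (fun z x => eG la ca W Q (eH z x)) (fun z z' => eD z z' = 0) (N := N)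
    (Λ := C₁ * X ^ dg K * (C₂ * L) ^ 2) (Δ := C₃ * (L ^ 2 + (2 * Y) ^ n) * X ^ dg K)
    (ε := X ^ dg K / L ^ 3) ρ0 (by positivity) (by positivity)
    (fun z hz => hN W z₀ z Y _ (by positivity) (hZ' z hz).2 fun z' hz' =>
      ⟨(hZ' z' (mem_filter.1 hz').1).2, (mem_filter.1 hz').2⟩) ?_ (fun z hz => ?_)
    fun z hz z' hz' hD => ?_
  · have e1 : ∀ z ∈ Z, ∑ x ∈ s, lw x * (cl1 (2 * W) w₁ x * ψ (sc X x)) * eG la ca W Q (eH z x) ≤
        -(ca * c * X ^ dg K) := fun z hz => by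
      obtain ⟨z1, z2⟩ := hZ' z hz
      have e2 := hT Q z Q1 QB z2.prime z2.cop
      rw [tsum_eq_sum (s := s) fun x hx => by rw [ρs x hx, mul_zero, zero_mul]] at e2
      have e3 := mul_le_mul_of_nonneg_left e2 hca.le
      rw [mul_sum] at e3
      rw [le_neg, ← sum_neg_distrib, mul_assoc]
      refine e3.trans_eq (sum_congr rfl fun x _ => ?_)
      by_cases g : lw x * (cl1 (2 * W) w₁ x * ψ (sc X x)) = 0
      · rw [g, zero_mul, zero_mul, mul_zero, neg_zero]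
      · obtain ⟨g1, g2⟩ := mul_ne_zero_iff.1 g
        obtain ⟨g2, g3⟩ := mul_ne_zero_iff.1 g2
        obtain ⟨g4, g5⟩ := e_H h0 hcg z2.cg (cl1_ne.1 g2)
        have g6 : la (eH z x) = 0 := not_not.1 fun g7 => hno ⟨z, x, eH z x, z1, g1, g7, z2.cg,
          cl1_ne.1 g2, g5, by
            have := tr_spec z x
            rw [← g4, map_mul, map_ofNat] at this
            linear_combination this, e_ne (by positivity) hsm z2.near (hψ.supp _ g3)⟩
        rw [eG, g6, ← g4, e_M_two h2W]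
        ring
    have e4 := sum_le_card_nsmul _ _ _ e1
    rw [nsmul_eq_mul, mul_neg, le_neg] at e4
    have Z0 : Y * Y ^ n ≤ #Z := by
      refine le_of_mul_le_mul_left (le_trans ?_ hZ) (by positivity)
      rw [← pow_succ', ← pow_succ']
      exact pow_le_pow_right₀ Y1 (by omega)
    have Z1 : (0 : ℝ) < #Z := lt_of_lt_of_le (by positivity) Z0
    have e5 := (pow_le_pow_left₀ (by positivity) e4 2).trans ((neg_sq _).le.trans key)
    refine hnum (#Z) (Y ^ n) (by positivity) Z0 ?_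
    have e6 : L ^ 2 + (2 * Y) ^ n ≤ (1 + 2 ^ n) * Y ^ n := by
      rw [mul_pow, add_mul, one_mul]
      linarith only [le_self_pow₀ Y1 (show n ≠ 0 by omega), LY]
    refine le_of_mul_le_mul_left ?_ (show 0 < #Z * (X ^ dg K) ^ 2 by positivity)
    calc _ = (#Z * (ca * c * X ^ dg K)) ^ 2 := by ring
      _ ≤ _ := e5
      _ ≤ C₁ * X ^ dg K * (C₂ * L) ^ 2 * (#Z * (N * (C₃ * ((1 + 2 ^ n) * Y ^ n) * X ^ dg K) +
          #Z * (X ^ dg K / L ^ 3))) := by gcongr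
      _ = _ := by ring
  · refine (sum_le_card_nsmul _ _ ((C₂ * L) ^ 2) fun x _ => ?_).trans ?_
    · by_cases g : ψ (sc X x) = 0
      · rw [g, mul_zero, zero_mul]
        positivity
      · obtain ⟨g1, g2⟩ := hlw X x hX (e_supp (by norm_num) hψ g)
        exact (mul_le_of_le_one_left (sq_nonneg _) (ρ1 x)).trans (pow_le_pow_left₀ g1 g2 2)
    · rw [nsmul_eq_mul]
      exact mul_le_mul_of_nonneg_right hs (sq_nonneg _)
  · have e := hd Y _ Q z Y1 YB (one_le_pow₀ Y2) QT QB (hZ' z hz).2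
    rwa [tsum_eq_sum (s := s) fun x hx => by rw [ρs x hx, zero_mul]] at e
  · have e := hoff Y Q z z' Y1 YB QB (hZ' z hz).2 (hZ' z' hz').2 hD
      (Nat.le_floor (e_Dbd Y1 (hZ' z hz).2.near (hZ' z' hz').2.near))
    rwa [tsum_eq_sum (s := s) fun x hx => by rw [ρs x hx, zero_mul]] at e

end Pool.Agent.MP_a59382_lc.V3

end

-- part MP_a59382_lc.V3.TCoreA
section

/-! Block T: solutions of the ternary equation in norms of prime elements. -/

set_option autoImplicit false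

namespace Pool.Agent.MP_a59382_lc.V3

open NumberField Pool.Agent.MP_48b1c3_nt.H91

theorem ta_glueN {k Ω : Type} [Field k] [NumberField k] [Field Ω] [NumberField Ω] [Algebra k Ω]
    {Q : ℕ} (hQ : 0 < Q) {f : ℕ → 𝓞 k} (h : ∀ p e : ℕ, p.Prime →
      ∃ P : 𝓞 Ω, ((p ^ e : ℕ) : 𝓞 k) ∣ RingOfIntegers.norm k P - f p) :
    ∃ P : 𝓞 Ω, ∀ p e : ℕ, p.Prime → p ^ e ∣ Q →
      ((p ^ e : ℕ) : 𝓞 k) ∣ RingOfIntegers.norm k P - f p := by
  obtain ⟨z, hz⟩ := ta_crt hQ f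
  obtain ⟨P, hP⟩ := t_glue (Ω := Ω) hQ (a := z) fun p e hp _ hd => by
    obtain ⟨P, hP⟩ := h p e hp
    exact ⟨P, by simpa only [Nat.cast_pow, sub_sub_sub_cancel_right] using hP.sub (hz p e hp hd)⟩
  exact ⟨P, fun p e hp hd => by simpa only [Nat.cast_pow, sub_add_sub_cancel] using ((Nat.cast_dvd_cast hd).trans hP).add (hz p e hp hd)⟩

variable {K : Type} [Field K] [NumberField K] [IsCMField K] {m : ℕ}

/-- the local classes of `z` -/
noncomputable def taZ (P : FK K m) (G : Finset ℕ) (p : ℕ) : 𝓞 K :=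
  if p = 2 then (1 - P.θ) * P.u ^ 2 else if p ∈ G then P.u ^ 2 else -1

/-- the local classes of `w` -/
noncomputable def taW (P : FK K m) (p : ℕ) : 𝓞 K := if p = 2 then 1 - P.θ else 1

theorem ta_rel (P : FK K m) (G : Finset ℕ) (p : ℕ) :
    taZ P G p * cO (taW P p) + cO (taZ P G p) * taW P p + 2 * (taW P p * cO (taW P p)) = 0 := by
  unfold taZ taW
  split_ifs
  · simp only [map_mul, map_pow]
    linear_combination (1 - P.θ) * cO (1 - P.θ) * P.usq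
  · simp only [map_one, map_pow]
    linear_combination P.usq
  · simp only [map_one, map_neg]
    ring

theorem ta_copW (P : FK K m) (p : ℕ) : IsCoprime (taW P p) (p : 𝓞 K) := by
  unfold taW
  split_ifs with h
  · exact h ▸ ta_k2 P
  · exact isCoprime_one_left

theorem ta_copZ (P : FK K m) {G : Finset ℕ} (hG : ∀ p ∈ G, IsCoprime P.u (p : 𝓞 K)) (p : ℕ) :
    IsCoprime (taZ P G p) (p : 𝓞 K) := by
  unfold taZ
  split_ifs with h h'
  · rw [h]
    exact (ta_k2 P).mul_left (ta_u2 P).pow_left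
  · exact (hG p h').pow_left
  · exact isCoprime_one_left.neg_left

theorem ta_gθ (P : FK K m) {p : ℕ} (hp : p.Prime) (h2 : p ≠ 2) : Good p (P.θ : K) := by
  refine Or.inl ⟨h2, 1, P.θ, by simp, ?_⟩
  have h := Nat.Coprime.cast (R := 𝓞 K) ((Nat.coprime_primes Nat.prime_two hp).2 h2.symm)
  rw [Nat.cast_ofNat, ← P.θt] at h
  exact h.of_mul_left_left

omit [IsCMField K] in
theorem ta_gl {l p : ℕ} (hl : l.Prime) (h8 : 8 ∣ l + 1) (hp : p.Prime) (h : p ≠ l) :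
    Good p ((-(l : 𝓞 K) : 𝓞 K) : K) := by
  by_cases h2 : p = 2
  · obtain ⟨j, hj⟩ := h8
    have hj' : (l : K) + 1 = 8 * j := by exact_mod_cast hj
    refine Or.inr ⟨h2, -(j : 𝓞 K), ?_⟩
    simp only [map_neg, map_natCast]
    linear_combination -hj'
  · exact Or.inl ⟨h2, 1, -(l : 𝓞 K), by simp,
      (Nat.Coprime.cast ((Nat.coprime_primes hl hp).2 h.symm)).neg_left⟩

/-- the tower and the classes -/
theorem ta_cls (P : FK K m) {l : ℕ} (hl : l.Prime) (hl' : 2 ^ m ∣ l + 1)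
    (hu : IsCoprime P.u (l : 𝓞 K)) {F : Finset ℕ} (hF : ∀ p ∈ F, Sp m p)
    {Y : Finset (𝓞 K)} (hY : ∀ y ∈ Y, Adq F y) :
    ∃ (Ω : Type) (_ : Field Ω) (_ : NumberField Ω) (_ : Algebra K Ω) (r : ℕ),
      Module.finrank K Ω = 2 ^ r ∧
      (∀ Q : 𝓞 Ω, (∀ y ∈ Y, Nf (y : K) (RingOfIntegers.norm K Q : K)) ∧
        Nf (P.θ : K) (RingOfIntegers.norm K Q : K) ∧ Nf (-(l : K)) (RingOfIntegers.norm K Q : K)) ∧
      (∀ q : ℕ, 0 < q → q.Coprime (2 * ∏ p ∈ insert l F, p) → ∀ a : 𝓞 K, IsCoprime a (q : 𝓞 K) →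
        ∃ Q : 𝓞 Ω, (q : 𝓞 K) ∣ RingOfIntegers.norm K Q - a) ∧
      (∀ p e : ℕ, p.Prime →
        ∃ Q : 𝓞 Ω, ((p ^ e : ℕ) : 𝓞 K) ∣ RingOfIntegers.norm K Q - taZ P (insert l F) p) ∧
      ∀ p e : ℕ, p.Prime → ∃ Q : 𝓞 Ω, ((p ^ e : ℕ) : 𝓞 K) ∣ RingOfIntegers.norm K Q - taW P p := by
  classical
  have h8 := ta_l8 P hl'
  have hl2 : l ≠ 2 := by omega
  have hy := fun p hp hpF y hy => t_adq (fun p hp => (hF p hp).1) (hY y hy) (p := p) hp hpF
  obtain ⟨Ω, _, _, _, r, hr, hN, hS, hB⟩ := t_tower K (insert P.θ (insert (-(l : 𝓞 K)) Y)) (by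
    simp only [Finset.forall_mem_insert]
    refine ⟨fun h => ?_, by simpa using hl.ne_zero, fun y h => (hY y h).1⟩
    have := P.θt
    rw [h, zero_mul] at this
    exact two_ne_zero this.symm)
  simp only [Finset.forall_mem_insert] at hN hS hB
  have hS' : ∀ q : ℕ, 0 < q → (∀ p : ℕ, p.Prime → p ∣ q → p ≠ 2 ∧ p ∉ insert l F) →
      ∀ a : 𝓞 K, IsCoprime a (q : 𝓞 K) → ∃ Q : 𝓞 Ω, (q : 𝓞 K) ∣ RingOfIntegers.norm K Q - a :=
    fun q hq h => hS q hq fun p hp hd => by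
      obtain ⟨h1, h2⟩ := h p hp hd
      rw [Finset.mem_insert, not_or] at h2
      exact ⟨ta_gθ P hp h1, ta_gl hl h8 hp h2.1, hy p hp h2.2⟩
  have hpe : ∀ {p p' e : ℕ}, p.Prime → p'.Prime → p' ∣ p ^ e → p' = p := fun hp hp' h =>
    (Nat.prime_dvd_prime_iff_eq hp' hp).1 (hp'.dvd_of_dvd_pow h)
  have h2 : ∀ (e : ℕ) (a : 𝓞 K), IsCoprime a ((2 : ℕ) : 𝓞 K) →
      ∃ Q : 𝓞 Ω, ((2 ^ e : ℕ) : 𝓞 K) ∣ RingOfIntegers.norm K Q - (1 - P.θ) * a ^ 2 := by
    intro e a ha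
    rw [show (1 - P.θ) * a ^ 2 = a ^ 2 - P.θ * a ^ 2 by ring]
    refine hB.1 _ (Nat.two_pow_pos e) (fun p hp hd => ?_) a a ?_
    · obtain rfl := hpe Nat.prime_two hp hd
      exact ⟨fun h => absurd rfl h, fun _ => ta_gl hl h8 hp hl2.symm, fun y h _ =>
        hy 2 hp (fun h => by have := ta_sp P (hF 2 h); omega) y h⟩
    · rw [show a ^ 2 - P.θ * a ^ 2 = (1 - P.θ) * a ^ 2 by ring, Nat.cast_pow]
      exact ((ta_k2 P).mul_left ha.pow_left).pow_right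
  refine ⟨Ω, inferInstance, inferInstance, inferInstance, r, hr, fun Q =>
    ⟨fun y h => hN.2.2 y h Q, hN.1 Q, by simpa only [RingOfIntegers.coe_norm, map_neg, map_natCast] using hN.2.1 Q⟩, fun q hq h => hS' q hq
      fun p hp hd => ?_, fun p e hp => ?_, fun p e hp => ?_⟩
  · have hn := hp.coprime_iff_not_dvd.1 (h.coprime_dvd_left hd)
    exact ⟨fun h => hn (h ▸ dvd_mul_right _ _),
      fun h => hn ((Finset.dvd_prod_of_mem (fun p => p) h).mul_left _)⟩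
  · unfold taZ
    split_ifs with h h'
    · exact h ▸ h2 e _ (ta_u2 P)
    · rcases Finset.mem_insert.1 h' with rfl | h'
      · rw [show P.u ^ 2 = P.u ^ 2 - -(p : 𝓞 K) * 0 ^ 2 by ring]
        refine hB.2.1 _ (pow_pos hp.pos e) (fun p' hp' hd => ?_) _ _ ?_
        · obtain rfl := hpe hp hp' hd
          exact ⟨fun _ => ta_gθ P hp h, fun h => absurd rfl h, fun y h _ =>
            hy _ hp (fun h => ta_lsp P hl' (hF _ h)) y h⟩
        · rw [show P.u ^ 2 - -(p : 𝓞 K) * 0 ^ 2 = P.u ^ 2 by ring, Nat.cast_pow]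
          exact hu.pow
      · obtain ⟨s, hs⟩ := ta_pow (ta_sp P (hF p h')) (ta_up P (hF p h')) (P.spe p (hF p h') _) r e
        exact ⟨algebraMap _ _ s, by rwa [RingOfIntegers.norm_algebraMap, hr]⟩
    · exact hS' _ (pow_pos hp.pos e) (fun p' hp' hd => hpe hp hp' hd ▸ ⟨h, h'⟩) _
        isCoprime_one_left.neg_left
  · unfold taW
    split_ifs with h
    · simpa only [h, one_pow, mul_one] using h2 e 1 isCoprime_one_left
    · exact ⟨1, by simp only [Nat.cast_pow, map_one, sub_self, dvd_zero]⟩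

/-- norms of elements in the class of a square, or of `1 - θ` times a square -/
theorem ta_res (P : FK K m) {G : Finset ℕ} {π a : 𝓞 K}
    (h2 : IsCoprime a ((2 : ℕ) : 𝓞 K)) (ha : ∀ p ∈ G, IsCoprime a (p : 𝓞 K))
    (h4 : ((2 ^ 2 : ℕ) : 𝓞 K) ∣ π - (1 - P.θ) * a ^ 2) (h : ∀ p ∈ G, (p : 𝓞 K) ∣ π - a ^ 2) :
    (nm π).natAbs % 4 = 3 ∧ ∀ p ∈ G, jacobiSym (nm π).natAbs p = 1 := by
  have h0 := Int.natAbs_of_nonneg (ta_nonneg P π)
  have hsq : nm (a ^ 2) = nm a ^ 2 := map_pow _ _ _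
  refine ⟨?_, fun p hp => ?_⟩
  · have h5 := nm_congr (m := 4) (by exact_mod_cast h4)
    rw [nm_mul, hsq] at h5
    obtain ⟨j, hj⟩ := Int.natAbs_odd.1 (Nat.coprime_two_right.1 (ta_nm_cop.1 h2))
    obtain ⟨i, hi⟩ : ∃ i, nm (1 - P.θ) = 4 * i + 3 := ⟨nm (1 - P.θ) / 4, by have := P.n3; omega⟩
    rw [hj, hi, show (4 * i + 3) * (2 * j + 1) ^ 2 = 4 * (i * (2 * j + 1) ^ 2 + 3 * (j ^ 2 + j)) + 3
      by ring] at h5
    omega
  · have h5 := nm_congr (m := p) (by exact_mod_cast h p hp)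
    rw [h0, jacobiSym.mod_left'
      (Int.emod_eq_emod_iff_emod_sub_eq_zero.2 (Int.emod_eq_zero_of_dvd h5)), hsq]
    exact jacobiSym.sq_one' (ta_nm_cop.1 (ha p hp))

theorem coreA (P : FK K m) (h4 : 4 ≤ dg K) {l : ℕ} (hl : l.Prime) (hl' : 2 ^ m ∣ l + 1)
    (hu : IsCoprime P.u (l : 𝓞 K)) {F : Finset ℕ} (hF : ∀ p ∈ F, Sp m p)
    {Y : Finset (𝓞 K)} (hY : ∀ y ∈ Y, Adq F y) {r : ℤ} (h0 : r ≠ 0)
    (hr : ((2 * l * ∏ p ∈ F, p : ℕ) : ℤ) ∣ r - 1) : ∃ z w κ : 𝓞 K,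
      (∀ π ∈ [z, w, κ], Gen Y π ∧ ∀ p ∈ insert l F, jacobiSym (nm π).natAbs p = 1) ∧
      (∀ π ∈ [z, w, κ], Nf (P.θ : K) (π : K) ∧ Nf (-(l : K)) (π : K)) ∧
      z * cO w + cO z * w + 2 * (κ * cO κ) = 0 ∧ (nm z).natAbs ≠ (nm w).natAbs ∧
      (r : 𝓞 K) ∣ z + 1 ∧ (r : 𝓞 K) ∣ w - 1 ∧
      (8 : 𝓞 K) ∣ κ * cO κ * P.u ^ 2 - z * cO w := by
  obtain ⟨Ω, _, _, _, d, hd, hN, hS, hz, hw⟩ := ta_cls P hl hl' hu hF hY
  obtain ⟨w₀, hw₀, hT⟩ := ternary K h4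
  have : IsTotallyComplex Ω := isTotallyComplex_of_algebra K Ω
  have hG : ∀ p ∈ insert l F, p.Prime ∧ p ≠ 2 := (Finset.forall_mem_insert _ _ _).2
    ⟨⟨hl, by have := ta_l8 P hl'; omega⟩, fun p hp =>
      ⟨(hF p hp).1, by have := ta_sp P (hF p hp); omega⟩⟩
  have hGu : ∀ p ∈ insert l F, IsCoprime P.u (p : 𝓞 K) :=
    (Finset.forall_mem_insert _ _ _).2 ⟨hu, fun p hp => ta_up P (hF p hp)⟩
  have hGr : ∀ p : ℕ, p.Prime → p ∣ r.natAbs → p ≠ 2 ∧ p ∉ insert l F := fun p hp hd => by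
    have hn : ¬ p ∣ 2 * l * ∏ p ∈ F, p := fun h => hp.one_lt.ne' (by
      have := (Int.natCast_dvd.2 hd).sub ((Int.natCast_dvd_natCast.2 h).trans hr)
      rw [sub_sub_cancel] at this
      exact_mod_cast Int.eq_one_of_dvd_one (by positivity) this)
    refine ⟨fun h => hn (h ▸ (dvd_mul_right _ _).mul_right _), fun h => hn ?_⟩
    rcases Finset.mem_insert.1 h with h | h
    · exact h ▸ (dvd_mul_left _ _).mul_right _
    · exact (Finset.dvd_prod_of_mem (fun p => p) h).mul_left _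
  generalize insert l F = G at *
  obtain ⟨W, hW, h8, hGW, hrW, hwW, hΩ, hK, hE⟩ : ∃ W : ℕ, 0 < W ∧ 2 ^ 3 ∣ W ∧
      2 * ∏ p ∈ G, p ∣ W ∧ r.natAbs ∣ W ∧ w₀ ∣ W ∧ BB Ω ∣ W ∧ BB K ∣ W ∧
      BB (maximalRealSubfield K) ∣ W := by
    refine ⟨∏ x ∈ {2 ^ 3, 2 * ∏ p ∈ G, p, r.natAbs, w₀, BB Ω, BB K, BB (maximalRealSubfield K)},
      x, Finset.prod_pos ?_, ?_⟩
    · simp only [Finset.forall_mem_insert, Finset.mem_singleton, forall_eq]
      exact ⟨by norm_num, mul_pos two_pos (Finset.prod_pos fun p hp => (hG p hp).1.pos),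
        Int.natAbs_pos.2 h0, hw₀, BB_pos _, BB_pos _, BB_pos _⟩
    · refine ⟨?_, ?_, ?_, ?_, ?_, ?_, ?_⟩ <;> exact Finset.dvd_prod_of_mem (fun x => x) (by simp only [Nat.reducePow, Finset.mem_insert, Finset.mem_singleton, true_or, or_true])
  have hW₂ : 0 < 2 ^ (d + 1) * W := by positivity
  have hQ : 0 < 2 * (2 ^ (d + 1) * W) := by positivity
  have hWW : W ∣ 2 ^ (d + 1) * W := dvd_mul_left _ _
  have hWQ : W ∣ 2 * (2 ^ (d + 1) * W) := hWW.mul_left _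
  have hW8 := Nat.le_of_dvd hW h8
  have hW1 := Nat.le_of_dvd hW₂ hWW
  have hW4 : 4 ∣ W := (show 4 ∣ 2 ^ 3 by norm_num).trans h8
  obtain ⟨Pz, hPz⟩ := ta_glueN hQ hz
  obtain ⟨Pw, hPw⟩ := ta_glueN hQ hw
  have hSK := fun (q : ℕ) (hq : 0 < q) (h : q.Coprime W) => hS q hq (h.coprime_dvd_right hGW)
  have hcc : ∀ {R : Type} [CommRing R] {x y q : R}, q ∣ x - y → IsCoprime y q → IsCoprime x q := by
    rintro R _ x y q ⟨c, hc⟩ h
    rw [show x = y + q * c by linear_combination hc]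
    exact h.add_mul_left_left c
  have hSE : ∀ q : ℕ, 0 < q → q.Coprime W → ∀ a : 𝓞 (maximalRealSubfield K), IsCoprime a q →
      ∃ Q : 𝓞 Ω, (q : 𝓞 (maximalRealSubfield K)) ∣ RingOfIntegers.norm _ Q - a := by
    intro q hq h a ha
    obtain ⟨κ, hκ⟩ := t_cm P (Nat.coprime_two_right.1
      (h.coprime_dvd_right ((dvd_mul_right _ _).trans hGW))) a ha
    obtain ⟨Q, hQ⟩ := hSK q hq h κ (by
      have := ta_nm_cop.1 (hcc hκ ha)
      rwa [ta_nm_norm, ← ta_nm_cop] at this)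
    have := (t_congr (k := maximalRealSubfield K) hQ).add hκ
    rw [RingOfIntegers.norm_norm, sub_add_sub_cancel] at this
    exact ⟨Q, this⟩
  have hzc := ta_cop hQ fun p hp hd => hcc (by simpa only [pow_one] using hPz p 1 hp (by simpa only [pow_one] using hd))
    (ta_copZ P hGu p)
  have hwc := ta_cop hQ fun p hp hd => hcc (by simpa only [pow_one] using hPw p 1 hp (by simpa only [pow_one] using hd))
    (ta_copW P p)
  have hac : IsCoprime (RingOfIntegers.norm (maximalRealSubfield K) Pw)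
      ((2 ^ (d + 1) * W : ℕ) : 𝓞 (maximalRealSubfield K)) := by
    have := ta_nm_cop.1 hwc
    rw [ta_nm_norm] at this
    rw [ta_nm_cop, ta_nm_norm]
    exact this.coprime_mul_left_right
  have hdE : Module.finrank (maximalRealSubfield K) Ω = 2 ^ (d + 1) := by
    rw [← Module.finrank_mul_finrank _ K Ω, hd, Algebra.IsQuadraticExtension.finrank_eq_two,
      pow_succ']
  obtain ⟨cz, hcz, Ez⟩ := sws (P₀ := Pz) (by omega) hWQ (hΩ.trans hWQ) (hK.trans hWQ) hzc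
    (t_H (j := d + 2) hd hW4 hW (by ring) (by omega) hSK hzc (by simp only [Nat.cast_mul, Nat.cast_ofNat, Nat.cast_pow, sub_self, dvd_zero]))
  obtain ⟨cw, hcw, Ew⟩ := sws (P₀ := Pw) (by omega) hWQ (hΩ.trans hWQ) (hK.trans hWQ) hwc
    (t_H (j := d + 2) hd hW4 hW (by ring) (by omega) hSK hwc (by simp only [Nat.cast_mul, Nat.cast_ofNat, Nat.cast_pow, sub_self, dvd_zero]))
  obtain ⟨ca, hca, Ea⟩ := sws (P₀ := Pw) (by omega) hWW (hΩ.trans hWW) (hE.trans hWW) hac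
    (t_H hdE hW4 hW rfl le_rfl hSE hac (by simp only [Nat.cast_mul, Nat.cast_pow, Nat.cast_ofNat, sub_self, dvd_zero]))
  have hna : ∀ Q : 𝓞 Ω, algebraMap _ (𝓞 K) (RingOfIntegers.norm (maximalRealSubfield K) Q) =
      RingOfIntegers.norm K Q * cO (RingOfIntegers.norm K Q) := fun Q => by
    rw [← ta_norm, RingOfIntegers.norm_norm]
  obtain ⟨z, w, a, lz, lw, la, dz, dw, -, he, hne⟩ := hT _ _ _ _ _ _ _ cz cw ca hW₂ (hwW.trans hWW)
    hcz hcw hca (nl_lm K W Pz).1 (nl_lm K W Pw).1 (nl_lm _ W Pw).1 Ez Ew Ea (by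
      refine ta_dvd hQ fun p e hp hd => ?_
      obtain ⟨c, hc⟩ := hPz p e hp hd
      obtain ⟨c', hc'⟩ := hPw p e hp hd
      rw [hna, eq_add_of_sub_eq' hc, eq_add_of_sub_eq' hc']
      simp only [map_add, map_mul, map_natCast]
      generalize ((p ^ e : ℕ) : 𝓞 K) = n
      exact ⟨taZ P G p * cO c' + c * cO (taW P p) + n * c * cO c' + cO (taZ P G p) * c' +
        cO c * taW P p + n * cO c * c' + 2 * (taW P p * cO c' + c' * cO (taW P p) + n * c' * cO c'),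
        by linear_combination ta_rel P G p⟩)
  obtain ⟨Qz, -, rfl⟩ := (nl_lm K W Pz).2 z lz
  obtain ⟨Qw, -, rfl⟩ := (nl_lm K W Pw).2 w lw
  obtain ⟨Qa, da, rfl⟩ := (nl_lm _ W Pw).2 a la
  obtain ⟨_, pz⟩ := (nl_lm K W Pz).1
  obtain ⟨_, pw'⟩ := (nl_lm K W Pw).1
  obtain ⟨_, pa⟩ := (nl_lm (maximalRealSubfield K) W Pw).1
  have qa := (pa _).2.2 la
  rw [ta_nm_norm, ← ta_nm_norm (k := K)] at qa
  have loc : ∀ {x x₀ : 𝓞 K} {f : ℕ → 𝓞 K}, (W : 𝓞 K) ∣ x - x₀ → (∀ p e : ℕ, p.Prime →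
      p ^ e ∣ 2 * (2 ^ (d + 1) * W) → ((p ^ e : ℕ) : 𝓞 K) ∣ x₀ - f p) → ∀ p e : ℕ, p.Prime →
        p ^ e ∣ W → ((p ^ e : ℕ) : 𝓞 K) ∣ x - f p := fun h h' p e hp hd => by
    simpa only [Nat.cast_pow, sub_add_sub_cancel] using ((Nat.cast_dvd_cast hd).trans h).add (h' p e hp (hd.trans hWQ))
  have Lz := loc ((Nat.cast_dvd_cast hWQ).trans dz) hPz
  have Lw := loc ((Nat.cast_dvd_cast hWQ).trans dw) hPw
  have La := loc (t_congr da) hPw
  rw [hna] at he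
  have nz := hN Qz
  have nw := hN Qw
  have na := hN Qa
  have qz := (pz _).2.2 lz
  have qw := (pw' _).2.2 lw
  generalize RingOfIntegers.norm K Qz = z at *
  generalize RingOfIntegers.norm K Qw = w at *
  generalize RingOfIntegers.norm K Qa = κ at *
  have hpW : ∀ p ∈ G, p ^ 1 ∣ W := fun p hp => by
    rw [pow_one]
    exact ((Finset.dvd_prod_of_mem (fun p => p) hp).mul_left _).trans hGW
  have rz := ta_res P (ta_u2 P) hGu (by simpa only [Nat.reducePow, Nat.cast_ofNat, taZ, ↓ reduceIte] using Lz 2 2 Nat.prime_two hW4)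
    fun p hp => by simpa only [pow_one, taZ, (hG p hp).2, ↓ reduceIte, hp] using Lz p 1 (hG p hp).1 (hpW p hp)
  have rw' : ∀ {x : 𝓞 K}, (∀ p e : ℕ, p.Prime → p ^ e ∣ W → ((p ^ e : ℕ) : 𝓞 K) ∣ x - taW P p) →
      _ := fun h => ta_res P (G := G) isCoprime_one_left (fun _ _ => isCoprime_one_left)
    (by simpa only [Nat.reducePow, Nat.cast_ofNat, one_pow, mul_one, taW, ↓ reduceIte] using h 2 2 Nat.prime_two hW4)
    fun p hp => by simpa only [one_pow, pow_one, taW, (hG p hp).2, ↓ reduceIte] using h p 1 (hG p hp).1 (hpW p hp)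
  have hrr : ∀ {x : 𝓞 K}, (∀ p e : ℕ, p.Prime → p ^ e ∣ W → p ≠ 2 → p ∉ G →
      ((p ^ e : ℕ) : 𝓞 K) ∣ x) → (r : 𝓞 K) ∣ x := fun h => by
    refine (Int.cast_dvd_cast (α := 𝓞 K) r r.natAbs (Int.dvd_natAbs.2 dvd_rfl)).trans ?_
    rw [Int.cast_natCast]
    refine ta_dvd (Int.natAbs_pos.2 h0) fun p e hp hd => ?_
    rcases Nat.eq_zero_or_pos e with rfl | he
    · simp
    · have := hGr p hp ((dvd_pow_self p he.ne').trans hd)
      exact h p e hp (hd.trans hrW) this.1 this.2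
  refine ⟨z, w, κ, ?_, ?_, he, hne, hrr fun p e hp hd h h' => ?_, hrr fun p e hp hd h _ => ?_, ?_⟩
  · simp only [List.forall_mem_cons, List.not_mem_nil, false_imp_iff, implies_true, and_true]
    exact ⟨⟨⟨qz, rz.1, nz.1⟩, rz.2⟩, ⟨⟨qw, (rw' Lw).1, nw.1⟩, (rw' Lw).2⟩,
      ⟨qa, (rw' La).1, na.1⟩, (rw' La).2⟩
  · simp only [List.forall_mem_cons, List.not_mem_nil, false_imp_iff, implies_true, and_true]
    exact ⟨nz.2, nw.2, na.2⟩
  · simpa only [Nat.cast_pow, taZ, h, ↓ reduceIte, h', sub_neg_eq_add] using Lz p e hp hd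
  · simpa only [Nat.cast_pow, taW, h, ↓ reduceIte] using Lw p e hp hd
  · obtain ⟨c, hc⟩ := Lz 2 3 Nat.prime_two h8
    obtain ⟨c', hc'⟩ := Lw 2 3 Nat.prime_two h8
    obtain ⟨c'', hc''⟩ := La 2 3 Nat.prime_two h8
    rw [eq_add_of_sub_eq' hc, eq_add_of_sub_eq' hc', eq_add_of_sub_eq' hc'']
    simp only [taZ, taW, if_true, map_add, map_mul, map_natCast]
    generalize 1 - P.θ = x
    exact ⟨(x * cO c'' + c'' * cO x + 8 * c'' * cO c'') * P.u ^ 2 -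
      (x * P.u ^ 2 * cO c' + c * cO x + 8 * c * cO c'), by push_cast; ring⟩

end Pool.Agent.MP_a59382_lc.V3

end

-- part MP_a59382_lc.V3.TCoreT
section

/-! Block T: prime elements with prescribed residue symbols. -/

set_option autoImplicit false

namespace Pool.Agent.MP_a59382_lc.V3

open NumberField Pool.Agent.MP_48b1c3_nt.H91

variable {K : Type} [Field K] [NumberField K] [IsCMField K] {m : ℕ}

/-- the norm is onto modulo odd primes -/
theorem tt_nm (P : FK K m) {p : ℕ} (hp : p.Prime) (h2 : p ≠ 2) (t : ℤ) :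
    ∃ u : 𝓞 K, (p : ℤ) ∣ nm u - t := by
  have := Fact.mk hp
  have hs := Algebra.TensorProduct.includeRight_surjective (R := ℤ) (S := ZMod p) (𝓞 K)
    (ZMod.ringHom_surjective _)
  obtain ⟨f, hf, h⟩ := P.unr p hp h2
  have : IsReduced (TensorProduct ℤ (ZMod p) (𝓞 K)) := ⟨fun x hx => by
    obtain ⟨a, rfl⟩ := hs x
    have h1 : Algebra.TensorProduct.includeRight (R := ℤ) (A := ZMod p) (a ^ p ^ f - a) = 0 :=
      (norm_zero_iff p _).2 (h a)
    obtain ⟨n, hn⟩ : ∃ n, p ^ f = n + 2 :=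
      ⟨p ^ f - 2, by have := Nat.one_lt_pow hf.ne' hp.one_lt; omega⟩
    rw [map_sub, map_pow, hn] at h1
    refine (IsNilpotent.isUnit_one_sub (hx.pow_succ n)).mul_right_eq_zero.1 ?_
    rw [Nat.succ_eq_add_one]
    linear_combination -h1⟩
  have : Finite (TensorProduct ℤ (ZMod p) (𝓞 K)) := Module.finite_of_finite (ZMod p)
  have hb : ¬ IsUnit ((1 : ZMod p) ⊗ₜ[ℤ] (0 : 𝓞 K)) := fun h => by
    have h1 := h.map (Algebra.norm (ZMod p))
    rw [norm_tmul, nm, Algebra.norm_zero, Int.cast_zero] at h1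
    exact not_isUnit_zero h1
  obtain ⟨x, -, h3⟩ := norm_fin hb (t : ZMod p)
  obtain ⟨u, rfl⟩ := hs x
  refine ⟨u, ?_⟩
  rw [← ZMod.intCast_zmod_eq_zero_iff_dvd, Int.cast_sub, ← norm_tmul, sub_eq_zero]
  exact h3

theorem tt_non (P : FK K m) {p : ℕ} (hp : p.Prime) (h2 : p ≠ 2) :
    ∃ u : 𝓞 K, jacobiSym (nm u) p = -1 := by
  have := Fact.mk hp
  obtain ⟨x, hx⟩ := FiniteField.exists_nonsquare (F := ZMod p) (by rwa [ZMod.ringChar_zmod_n])
  obtain ⟨t, rfl⟩ := ZMod.intCast_surjective x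
  obtain ⟨u, hu⟩ := tt_nm P hp h2 t
  exact ⟨u, by rw [jacobiSym.mod_left' (Int.emod_eq_emod_iff_emod_sub_eq_zero.2
    (Int.emod_eq_zero_of_dvd hu)), ZMod.nonsquare_iff_jacobiSym_eq_neg_one.2 hx]⟩

theorem coreT (P : FK K m) {F G₁ G₂ : Finset ℕ} (h1 : ∀ p ∈ G₁, p.Prime ∧ p ≠ 2)
    (h2 : ∀ p ∈ G₂, p.Prime ∧ p ≠ 2 ∧ p ∉ F ∧ p ∉ G₁) (hF : ∀ p ∈ F, p.Prime) {Y : Finset (𝓞 K)}
    (hY : ∀ y ∈ Y, Adq F y) : ∃ π : 𝓞 K, Gen Y π ∧ (∀ p ∈ G₁, (nm π).natAbs ≡ 1 [MOD p]) ∧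
      ∀ p ∈ G₂, jacobiSym (nm π).natAbs p = -1 := by
  obtain ⟨Ω, _, _, _, r, -, hN, hS, -⟩ := t_tower K Y fun y hy => (hY y hy).1
  have : IsTotallyComplex Ω := isTotallyComplex_of_algebra K Ω
  have hex : ∀ p : ℕ, ∃ u : 𝓞 K, IsCoprime u (p : 𝓞 K) ∧ (p = 2 → u = 1 - P.θ) ∧
      (p ∈ G₂ → jacobiSym (nm u) p = -1) ∧ (p ≠ 2 → p ∉ G₂ → u = 1) := fun p => by
    by_cases h : p ∈ G₂
    · obtain ⟨u, hu⟩ := tt_non P (h2 p h).1 (h2 p h).2.1
      have : NeZero p := ⟨(h2 p h).1.ne_zero⟩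
      exact ⟨u, ta_nm_cop.2 (by_contra fun hc => by
        rw [jacobiSym.eq_zero_iff_not_coprime.2 hc] at hu
        exact absurd hu (by decide)), fun e => absurd e (h2 p h).2.1, fun _ => hu,
        fun _ h' => absurd h h'⟩
    · exact ⟨taW P p, ta_copW P p, fun e => if_pos e, fun h' => absurd h' h, fun e _ => if_neg e⟩
  choose f fc f2 fG f1 using hex
  have hW : 0 < 2 ^ 2 * ∏ p ∈ G₁ ∪ G₂, p := mul_pos (by norm_num) (Finset.prod_pos fun p hp =>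
    (Finset.mem_union.1 hp).elim (fun h => (h1 p h).1.pos) fun h => (h2 p h).1.pos)
  obtain ⟨P₀, hP₀⟩ := ta_glueN (Ω := Ω) hW (f := f) fun p e hp => by
    by_cases h : p ≠ 2 ∧ p ∉ G₂
    · exact ⟨1, by simp only [Nat.cast_pow, map_one, f1 p h.1 h.2, sub_self, dvd_zero]⟩
    · refine hS _ (pow_pos hp.pos e) (fun p' hp' hd y hy => ?_) _
        (by rw [Nat.cast_pow]; exact (fc p).pow_right)
      obtain rfl := (Nat.prime_dvd_prime_iff_eq hp' hp).1 (hp'.dvd_of_dvd_pow hd)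
      by_cases e : p' = 2
      · obtain ⟨c, hc⟩ := (hY y hy).2.1
        exact Or.inr ⟨e, c, by rw [eq_add_of_sub_eq' hc]; simp [map_ofNat]⟩
      · exact t_adq hF (hY y hy) hp (h2 _ (by tauto)).2.2.1
  obtain ⟨Q, hQ, hpr, -⟩ := ray_prime hW (t_cop (k := K) (P := P₀) (ta_cop hW fun p hp hd => by
    obtain ⟨c, hc⟩ := hP₀ p 1 hp (by rwa [pow_one])
    rw [eq_add_of_sub_eq' hc, pow_one]
    exact (fc p).add_mul_left_left c)) 0
  rw [← ta_nm_norm (k := K)] at hpr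
  have hL : ∀ p e : ℕ, p.Prime → p ^ e ∣ 2 ^ 2 * ∏ p ∈ G₁ ∪ G₂, p →
      ((p ^ e : ℕ) : ℤ) ∣ (nm (RingOfIntegers.norm K Q)).natAbs - nm (f p) := fun p e hp hd => by
    rw [Int.natAbs_of_nonneg (ta_nonneg P _)]
    refine nm_congr ?_
    simpa only [Nat.cast_pow, Int.cast_pow, Int.cast_natCast, sub_add_sub_cancel] using ((Nat.cast_dvd_cast hd).trans (t_congr (k := K) hQ)).add (hP₀ p e hp hd)
  have hG : ∀ p ∈ G₁ ∪ G₂, p ^ 1 ∣ 2 ^ 2 * ∏ p ∈ G₁ ∪ G₂, p := fun p hp => by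
    rw [pow_one]
    exact (Finset.dvd_prod_of_mem (fun p => p) hp).mul_left _
  refine ⟨RingOfIntegers.norm K Q, ⟨hpr, ?_, fun y hy => hN y hy Q⟩, fun p hp => ?_,
    fun p hp => ?_⟩
  · have := hL 2 2 Nat.prime_two (dvd_mul_right _ _)
    rw [f2 2 rfl] at this
    have := P.n3
    omega
  · have := hL p 1 (h1 p hp).1 (hG p (Finset.mem_union_left _ hp))
    rw [f1 p (h1 p hp).2 fun h => (h2 p h).2.2.2 hp, pow_one,
      show nm (1 : 𝓞 K) = 1 from map_one _] at this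
    exact (Nat.modEq_iff_dvd.2 (by exact_mod_cast this)).symm
  · have := hL p 1 (h2 p hp).1 (hG p (Finset.mem_union_right _ hp))
    rw [pow_one] at this
    rw [jacobiSym.mod_left' (Int.emod_eq_emod_iff_emod_sub_eq_zero.2
      (Int.emod_eq_zero_of_dvd this)), fG p hp]

end Pool.Agent.MP_a59382_lc.V3

end

-- part MP_a59382_lc.V3.SB
section

/-! The construction of the inverted primes and the definition of the integers. -/

set_option autoImplicit false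

namespace Pool.Agent.MP_a59382_lc.V3

open Finset NumberField IsDedekindDomain H18 Pool.Agent.MP_48b1c3_nt.H91
  Pool.Agent.Lib.HasseMinkowski

variable {K : Type} [Field K] [NumberField K] [IsCMField K] {m : ℕ}
  {K' : Type} [Field K'] [NumberField K']

/-! the step that adds a solution -/

theorem s_stepA_dvd (a : 𝓞 K) : a ∣ ((nm a).natAbs : 𝓞 K) ∧ cO a ∣ ((nm a).natAbs : 𝓞 K) := by
  have h : a ∣ ((nm a).natAbs : 𝓞 K) := by
    have := Ideal.absNorm_mem (Ideal.span {a})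
    rwa [Ideal.absNorm_span_singleton, Ideal.mem_span_singleton] at this
  refine ⟨h, ?_⟩
  have := map_dvd (IsCMField.ringOfIntegersComplexConj K) h
  rwa [map_natCast] at this

theorem s_stepA_nm (a : 𝓞 K) : nm (cO a) = nm a :=
  Algebra.norm_eq_of_algEquiv (IsCMField.ringOfIntegersComplexConj K).toRingEquiv.toIntAlgEquiv a

omit [IsCMField K] in
theorem s_stepA_inv {S : Set ℕ} {p : ℕ} (hp : p.Prime) (hS : p ∈ S) {a : 𝓞 K}
    (h : a ∣ (p : 𝓞 K)) : ((a : K))⁻¹ ∈ AS S K := by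
  obtain ⟨b, hb⟩ := h
  refine ⟨p, ⟨hp.ne_zero, fun q hq e => (Nat.prime_dvd_prime_iff_eq hq hp).1 e ▸ hS⟩, ?_⟩
  have a0 : (a : K) ≠ 0 := fun e => by
    rw [RingOfIntegers.coe_eq_zero_iff.1 e, zero_mul] at hb
    exact hp.ne_zero (by exact_mod_cast hb)
  have e : (p : K) = a * b := by exact_mod_cast congrArg (fun x : 𝓞 K => (x : K)) hb
  rw [e, mul_right_comm, mul_inv_cancel₀ a0, one_mul]
  exact b.isIntegral_coe

theorem s_stepA_ne {z w κ : 𝓞 K} (hz : (nm z).natAbs.Prime) (hw : (nm w).natAbs.Prime)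
    (hne : (nm z).natAbs ≠ (nm w).natAbs) : z * cO w ≠ -(κ * cO κ) := fun e => by
  have h : Ideal.span {z * cO w} = Ideal.span {κ * cO κ} := by rw [e, Ideal.span_singleton_neg]
  have h2 := congrArg Ideal.absNorm h
  rw [Ideal.absNorm_span_singleton, Ideal.absNorm_span_singleton, map_mul, map_mul,
    Int.natAbs_mul, Int.natAbs_mul] at h2
  change (nm z).natAbs * (nm (cO w)).natAbs = (nm κ).natAbs * (nm (cO κ)).natAbs at h2
  rw [s_stepA_nm, s_stepA_nm] at h2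
  generalize (nm z).natAbs = a, (nm w).natAbs = b, (nm κ).natAbs = c at *
  have h3 : a ∣ c := (hz.dvd_mul.1 ⟨b, h2.symm⟩).elim id id
  obtain ⟨d, rfl⟩ := h3
  have h4 : b = a * (d * d) := Nat.eq_of_mul_eq_mul_left hz.pos (by rw [h2]; ring)
  exact hne ((Nat.prime_dvd_prime_iff_eq hz hw).1 ⟨_, h4⟩)

theorem s_stepA_sol (P : FK K m) {l : ℕ} {A F : Finset ℕ} (hF : A ⊆ F) {z w κ : 𝓞 K} {r : ℤ}
    (hp : ∀ π ∈ [z, w, κ], (nm π).natAbs.Prime ∧ (nm π).natAbs ∈ A)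
    (hn : ∀ π ∈ [z, w, κ], Nf (P.θ : K) (π : K) ∧ Nf (-(l : K)) (π : K))
    (he : z * cO w + cO z * w + 2 * (κ * cO κ) = 0) (hne : (nm z).natAbs ≠ (nm w).natAbs)
    (h1 : (r : 𝓞 K) ∣ z + 1) (h2 : (r : 𝓞 K) ∣ w - 1)
    (h8 : (8 : 𝓞 K) ∣ κ * cO κ * P.u ^ 2 - z * cO w) :
    ∃ x, Sol P l A F x ∧ DvA (F : Set ℕ) (r : K) (x - 1) := by
  obtain ⟨pz, az⟩ := hp z (by simp)
  obtain ⟨pw, aw⟩ := hp w (by simp)
  obtain ⟨pk, ak⟩ := hp κ (by simp)
  have n0 : ∀ {a : 𝓞 K}, (nm a).natAbs.Prime → (a : K) ≠ 0 ∧ cK (a : K) ≠ 0 := fun {a} h => by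
    have : (a : K) ≠ 0 := fun e => by
      rw [RingOfIntegers.coe_eq_zero_iff.1 e] at h
      simp [Nat.not_prime_zero] at h
    exact ⟨this, (map_ne_zero _).2 this⟩
  obtain ⟨z0, z0'⟩ := n0 pz
  obtain ⟨w0, w0'⟩ := n0 pw
  obtain ⟨k0, k0'⟩ := n0 pk
  have cc : ∀ a : K, cK (cK a) = a := IsCMField.complexConj_apply_apply K
  have hi : ((z : K) * cK (w : K))⁻¹ ∈ AS (F : Set ℕ) K := by
    rw [mul_inv]
    exact mul_mem (s_stepA_inv pz (hF az) (s_stepA_dvd z).1)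
      (s_stepA_inv pw (hF aw) (s_stepA_dvd w).2)
  have e : (z : K) * cK (w : K) + cK (z : K) * w + 2 * (κ * cK (κ : K)) = 0 := by
    have := congrArg (algebraMap (𝓞 K) K) he
    simp only [map_add, map_mul, map_ofNat, map_zero] at this
    exact this
  have ss : (P.s : K) ^ 2 = 2 := by
    have := congrArg (algebraMap (𝓞 K) K) P.ss
    rwa [map_pow, map_ofNat] at this
  have s0 : (P.s : K) ≠ 0 := fun e => by simp [e] at ss
  have ey : -(cK (z : K) * w * ((z : K) * cK (w : K))⁻¹ + 1) =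
      2 * (κ * cK (κ : K)) * ((z : K) * cK (w : K))⁻¹ := by
    field_simp
    linear_combination -e
  have ey' : -(cK (z : K) * w * ((z : K) * cK (w : K))⁻¹ + 1) =
      (κ * cK (κ : K) * (z * cK (w : K))) * (P.s * ((z : K) * cK (w : K))⁻¹) ^ 2 := by
    rw [ey, mul_pow, ss]
    field_simp
  have nc : ∀ {a : K}, Nf (-(l : K)) a → Nf (-(l : K)) (cK a) := fun h => by
    simpa only [map_neg, map_natCast] using s_nf_map (IsCMField.complexConj K) h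
  refine ⟨cK (z : K) * w * ((z : K) * cK (w : K))⁻¹, ⟨⟨mul_mem (AS.coe (cO z * w)) hi, ?_, ?_, ?_,
    ⟨w / κ, div_ne_zero w0 k0, ?_⟩, ?_⟩, fun v hv => ?_⟩, ?_⟩
  · simp only [map_mul, map_inv₀, cc]
    field_simp
  · intro h
    refine s_stepA_ne (κ := κ) pz pw hne (RingOfIntegers.ext ?_)
    have h' : cK (z : K) * w = z * cK (w : K) := by
      field_simp at h
      exact h
    change (z : K) * cK (w : K) = -(κ * cK (κ : K))
    linear_combination (e - h') / 2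
  · obtain ⟨d, hd⟩ := h8
    have hd' : (κ : K) * cK (κ : K) * (P.u : K) ^ 2 - z * cK (w : K) = 8 * d := by
      have := congrArg (algebraMap (𝓞 K) K) hd
      simp only [map_sub, map_mul, map_ofNat, map_pow] at this
      exact this
    refine ⟨d * ((z : K) * cK (w : K))⁻¹, mul_mem (AS.coe d) hi, ?_⟩
    rw [ey]
    field_simp
    linear_combination hd'
  · have : -(cK (z : K) * w * ((z : K) * cK (w : K))⁻¹ + 1) * ((w : K) / κ * cK ((w : K) / κ)) =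
        w * z * (P.s / z) ^ 2 := by
      rw [ey, div_pow, ss, show cK ((w : K) / κ) = cK (w : K) / cK (κ : K) from map_div₀ _ _ _]
      field_simp
    rw [this]
    exact s_nf_mul (s_nf_mul (hn w (by simp)).1 (hn z (by simp)).1) (s_nf_sq _ _)
  · rw [ey']
    exact s_nf_mul (s_nf_mul (s_nf_mul (hn κ (by simp)).2 (nc (hn κ (by simp)).2))
      (s_nf_mul (hn z (by simp)).2 (nc (hn w (by simp)).2))) (s_nf_sq _ _)
  · rw [← s_ord_neg, ey', sf_sq v (mul_ne_zero (mul_ne_zero k0 k0') (mul_ne_zero z0 w0'))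
      (mul_ne_zero s0 (inv_ne_zero (mul_ne_zero z0 w0')))]
    have nv : ∀ {a : 𝓞 K} {p : ℕ}, p ∈ A → a ∣ (p : 𝓞 K) → a ∉ v.asIdeal := fun ha hd h =>
      hv _ ha (Ideal.mem_of_dvd _ hd h)
    have h : κ * cO κ * (z * cO w) ∉ v.asIdeal := fun h =>
      (v.isPrime.mem_or_mem h).elim
        (fun h => (v.isPrime.mem_or_mem h).elim (nv ak (s_stepA_dvd κ).1) (nv ak (s_stepA_dvd κ).2))
        fun h => (v.isPrime.mem_or_mem h).elim (nv az (s_stepA_dvd z).1) (nv aw (s_stepA_dvd w).2)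
    have h' := s_ord_int h
    change ord v ((κ : K) * cK (κ : K) * (z * cK (w : K))) = 0 at h'
    rw [h']
    exact Even.zero
  · have h1' := map_dvd (IsCMField.ringOfIntegersComplexConj K) h1
    have h2' := map_dvd (IsCMField.ringOfIntegersComplexConj K) h2
    rw [map_intCast, map_add, map_one] at h1'
    rw [map_intCast, map_sub, map_one] at h2'
    obtain ⟨d, hd⟩ : (r : 𝓞 K) ∣ cO z * w - z * cO w := by
      rw [show cO z * w - z * cO w =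
        (cO z + 1) * w - (w - 1) - (z + 1) * cO w + (cO w - 1) by ring]
      exact (((h1'.mul_right _).sub h2).sub (h1.mul_right _)).add h2'
    have hd' : cK (z : K) * w - z * cK (w : K) = r * d := by
      have := congrArg (algebraMap (𝓞 K) K) hd
      simp only [map_sub, map_mul, map_intCast] at this
      exact this
    refine ⟨d * ((z : K) * cK (w : K))⁻¹, mul_mem (AS.coe d) hi, ?_⟩
    field_simp
    linear_combination hd'

theorem s_stepA (P : FK K m) (h4 : 4 ≤ dg K) (P' : Pell m K') {l : ℕ} (hl : l.Prime)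
    (hl' : 2 ^ m ∣ l + 1) (hu : IsCoprime P.u (l : 𝓞 K)) {A M : Finset ℕ}
    (hA : ∀ p ∈ A, Sp m p ∧ jacobiSym p l = 1) (hM : ∀ p ∈ M, Sp m p) (B : ℤ) :
    ∃ A', A ⊆ A' ∧ (∀ p ∈ A', Sp m p ∧ jacobiSym p l = 1) ∧
      (∀ p ∈ A', p ∉ A → Spl K A p ∧ ∀ t ∈ M, jacobiSym p t = 1) ∧
      ∃ r, Siz P P' l A' (A' ∪ M) r ∧ B < |r| := by
  have hF : ∀ p ∈ A ∪ M, Sp m p := fun p hp => (mem_union.1 hp).elim (fun h => (hA p h).1) (hM p)
  obtain ⟨Y, hY, hs⟩ := s_reps P (A := A) fun h => Nat.not_prime_zero (hA 0 h).1.1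
  obtain ⟨r, hr, h1, hB⟩ := P'.rr_big (M := 2 * l * ∏ p ∈ A ∪ M, p)
    (mul_ne_zero (mul_ne_zero two_ne_zero hl.ne_zero)
      (prod_ne_zero_iff.2 fun p hp => (hF p hp).1.ne_zero)) (max B 0)
  obtain ⟨z, w, κ, g, n, e, ne, d1, d2, d8⟩ := coreA P h4 hl hl' hu hF (hY _ subset_union_left)
    (abs_pos.1 ((le_max_right _ _).trans_lt hB)) h1
  have key : ∀ p ∈ A ∪ ([z, w, κ].map fun π => (nm π).natAbs).toFinset, p ∉ A →
      ∃ π ∈ [z, w, κ], (nm π).natAbs = p := fun p hp h =>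
    List.mem_map.1 (List.mem_toFinset.1 ((mem_union.1 hp).resolve_left h))
  refine ⟨A ∪ ([z, w, κ].map fun π => (nm π).natAbs).toFinset, subset_union_left,
    fun p hp => ?_, fun p hp h => ?_, r, ⟨hr, s_stepA_sol P subset_union_left
      (fun π h => ⟨(g π h).1.1, mem_union_right _
        (List.mem_toFinset.2 (List.mem_map.2 ⟨π, h, rfl⟩))⟩) n e ne d1 d2 d8⟩,
    (le_max_left _ _).trans_lt hB⟩
  · by_cases h : p ∈ A
    · exact hA p h
    · obtain ⟨π, hπ, rfl⟩ := key p hp h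
      exact ⟨s_gen_sp P (g π hπ).1.1 (g π hπ).1.2.1, (g π hπ).2 l (mem_insert_self _ _)⟩
  · obtain ⟨π, hπ, rfl⟩ := key p hp h
    exact ⟨hs π (g π hπ).1, fun t ht => (g π hπ).2 t (mem_insert_of_mem (mem_union_right _ ht))⟩

/-! the whole step and the recursion -/

theorem s_step_real (P' : Pell m K') : ∃ w : InfinitePlace K', w.IsReal :=
  ⟨InfinitePlace.mk (Complex.ofRealHom.comp P'.φ), _,
    ComplexEmbedding.isReal_iff.2 (RingHom.ext fun x => by simp only [ComplexEmbedding.conjugate_coe_eq, RingHom.coe_comp, Function.comp_apply, Complex.ofRealHom_eq_coe, Complex.conj_ofReal]), rfl⟩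

theorem s_step_up (P : FK K m) (P' : Pell m K') (l : ℕ) {A F : Finset ℕ}
    (hA : ∀ p ∈ A, Sp m p) (hF : ∀ p ∈ F, Sp m p) :
    ∃ Z : ℕ, ∀ r, Siz P P' l A F r → |r| ≤ 2 ^ Z ^ 2 := by
  have h0 : ∀ {B : Finset ℕ}, (∀ p ∈ B, Sp m p) → 0 ∉ B := fun h e => Nat.not_prime_zero (h 0 e).1
  have hfin : {x : K | Sol P l A F x}.Finite := by
    refine (s_sol (k := K) (h0 hA) (h0 hF)).subset fun x hx => ?_
    obtain ⟨⟨h1, h2, -⟩, h3⟩ := hx
    refine ⟨left_ne_zero_of_mul_eq_one h2, h1, ?_, h3⟩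
    rw [← eq_inv_of_mul_eq_one_right h2]
    exact AS.map _ h1
  have hb : ∀ x : K, ∃ B : ℤ, Sol P l A F x → ∀ r : ℤ, P'.RR r → DvA (F : Set ℕ) (r : K) (x - 1) →
      |r| ≤ B := fun x => by
    by_cases hx : Sol P l A F x
    · obtain ⟨B, hB⟩ := s_bound (F := (F : Set ℕ)) (sub_ne_zero.2 hx.1.2.2.1)
      exact ⟨B, fun _ r hr hd =>
        hB r (fun p _ hp => (P'.rr_free hr).2 p (s_sp_gd P (hF p hp)).1) hd⟩
    · exact ⟨0, fun h => absurd h hx⟩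
  choose B hB using hb
  obtain ⟨C, hC⟩ := (hfin.image B).bddAbove
  refine ⟨C.natAbs, fun r ⟨hr, x, hx, hd⟩ => ?_⟩
  have h1 : |r| ≤ C := (hB x hx r hr hd).trans (hC ⟨x, hx, rfl⟩)
  have h2 : C.natAbs < 2 ^ C.natAbs := Nat.lt_two_pow_self
  have h3 : 2 ^ C.natAbs ≤ 2 ^ C.natAbs ^ 2 :=
    Nat.pow_le_pow_right (by norm_num) (Nat.le_self_pow (by norm_num) _)
  have h4 : (C.natAbs : ℤ) ≤ 2 ^ C.natAbs ^ 2 := by exact_mod_cast h2.le.trans h3
  exact h1.trans (Int.le_natAbs.trans h4)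

theorem s_step (P : FK K m) (h4 : 4 ≤ dg K) (P' : Pell m K') {l : ℕ} (hl : l.Prime)
    (hl' : 2 ^ m ∣ l + 1) (hu : IsCoprime P.u (l : 𝓞 K)) (s k : ℕ) {A M : Finset ℕ}
    (hA : ∀ p ∈ A, Sp m p ∧ jacobiSym p l = 1) (hM : ∀ p ∈ M, Sp m p) :
    ∃ A' T Z, Stp P P' l s k A M A' T Z := by
  classical
  have h8 : 8 ∣ 2 ^ m := pow_dvd_pow 2 (show 3 ≤ m by have := P.hm; omega)
  have h1m : ∀ q : ℕ, q ≡ 1 [MOD 2 ^ m] → q % 8 = 1 := fun q h => h.of_dvd h8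
  have h7m : ∀ q : ℕ, 2 ^ m ∣ q + 1 → q % 8 = 7 := fun q h => by
    have := h8.trans h
    omega
  obtain ⟨Z₀, hQ⟩ := lemQ K' (s_step_real P') (M := 2 ^ m) (by positivity)
    (Dvd.dvd.trans (by norm_num) h8) s
  obtain ⟨A', sub, hA', new, r₀, hr₀, hB⟩ :=
    s_stepA P h4 P' hl hl' hu hA hM (2 ^ max k (max Z₀ l) ^ 2)
  have hex := s_step_up P P' l (A := A') (F := A' ∪ M) (fun p hp => (hA' p hp).1) fun p hp =>
    (mem_union.1 hp).elim (fun h => (hA' p h).1) (hM p)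
  obtain ⟨Z, up, hmin⟩ : ∃ Z : ℕ, (∀ r, Siz P P' l A' (A' ∪ M) r → |r| ≤ 2 ^ Z ^ 2) ∧
      ∀ Z' < Z, ¬ ∀ r, Siz P P' l A' (A' ∪ M) r → |r| ≤ 2 ^ Z' ^ 2 :=
    ⟨Nat.find hex, Nat.find_spec hex, fun Z' h => Nat.find_min hex h⟩
  have hZ : max k (max Z₀ l) < Z := lt_of_pow_lt_pow_left₀ 2 (Nat.zero_le _)
    ((pow_lt_pow_iff_right₀ (by norm_num : (1 : ℤ) < 2)).1 (hB.trans_le (up r₀ hr₀)))
  have low : ∃ r, Siz P P' l A' (A' ∪ M) r ∧ 2 ^ (Z - 1) ^ 2 < |r| := by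
    by_contra hn
    exact hmin (Z - 1) (by omega) fun r hr => not_lt.1 fun h => hn ⟨r, hr, h⟩
  obtain ⟨q, J, hq, hq', hJ, hJ'⟩ := hQ Z (by omega)
  obtain ⟨Y, hY, hY'⟩ := s_reps P (A := A') fun e => Nat.not_prime_zero (hA' 0 e).1.1
  obtain ⟨G₁, hG₁⟩ : ∃ G : Finset ℕ, ∀ p, p ∈ G ↔
      (∃ i, q i = p) ∨ p ≤ Z ∧ p.Prime ∧ p ≡ 1 [MOD 2 ^ m] :=
    ⟨univ.image q ∪ (range (Z + 1)).filter fun p => p.Prime ∧ p ≡ 1 [MOD 2 ^ m], fun p => by
      simp only [mem_union, mem_image, mem_univ, true_and, mem_filter, mem_range,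
        Nat.lt_add_one_iff]⟩
  obtain ⟨G₂, hG₂⟩ : ∃ G : Finset ℕ, ∀ p, p ∈ G ↔ p ≤ Z ∧ p.Prime ∧ 2 ^ m ∣ p + 1 :=
    ⟨(range (Z + 1)).filter fun p => p.Prime ∧ 2 ^ m ∣ p + 1, fun p => by
      simp only [mem_filter, mem_range, Nat.lt_add_one_iff]⟩
  obtain ⟨π, hπ, h1, h2⟩ := coreT P (F := A') (G₁ := G₁) (G₂ := G₂) (Y := Y)
    (fun p hp => by
      rcases (hG₁ p).1 hp with ⟨i, rfl⟩ | ⟨-, hp, h⟩
      · have := h7m _ (hq' i).2.2.1
        exact ⟨(hq' i).1, by omega⟩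
      · have := h1m _ h
        exact ⟨hp, by omega⟩)
    (fun p hp => by
      obtain ⟨hz, hp, h⟩ := (hG₂ p).1 hp
      have h7 := h7m _ h
      refine ⟨hp, by omega, fun e => ta_lsp P h (hA' p e).1, fun e => ?_⟩
      rcases (hG₁ p).1 e with ⟨i, rfl⟩ | ⟨-, -, h'⟩
      · have := (hq' i).2.1
        omega
      · have := h1m _ h'
        omega)
    (fun p hp => (hA' p hp).1.1) (hY A' Subset.rfl)
  have hT4 := hπ.2.1
  refine ⟨A', (nm π).natAbs, Z, sub, hA', new,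
    ⟨s_gen_sp P hπ.1 hT4, h2 l ((hG₂ l).2 ⟨by omega, hl, hl'⟩)⟩, hY' π hπ, ?_, up, low, by omega,
    q, J, hq, fun i => ⟨(hq' i).1, (hq' i).2.2.1, (hq' i).2.2.2.1,
      h1 _ ((hG₁ _).2 (.inl ⟨i, rfl⟩)), (hq' i).2.2.2.2⟩, hJ, hJ'⟩
  rintro p hp (h | h) hz
  · have h3 := h1m _ h
    have h5 : (((nm π).natAbs : ℕ) : ℤ) % p = 1 % p := by
      exact_mod_cast h1 p ((hG₁ p).2 (.inr ⟨hz, hp, h⟩))
    rw [jacobiSym.quadratic_reciprocity_one_mod_four (by omega) (Nat.odd_iff.2 (by omega)),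
      jacobiSym.mod_left' h5, jacobiSym.one_left]
  · have h3 := h7m _ h
    rw [jacobiSym.quadratic_reciprocity_three_mod_four (by omega) hT4,
      h2 p ((hG₂ p).2 ⟨hz, hp, h⟩), neg_neg]

theorem s_des (P : FK K m) (h4 : 4 ≤ dg K) (P' : Pell m K') {l : ℕ} (hl : l.Prime)
    (hl' : 2 ^ m ∣ l + 1) (hu : IsCoprime P.u (l : 𝓞 K)) (s : ℕ) : Nonempty (Des P P' l s) := by
  have h : ∀ (k : ℕ) (A M : Finset ℕ), (∀ p ∈ A, Sp m p ∧ jacobiSym p l = 1) → (∀ p ∈ M, Sp m p) →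
      ∃ A' T Z, Stp P P' l s k A M A' T Z := fun k _ _ => s_step P h4 P' hl hl' hu s k
  choose! A' T' Z' hG using h
  let st : ℕ → Finset ℕ × Finset ℕ := fun n =>
    Nat.rec (∅, ∅) (fun k s => (A' k s.1 s.2, insert (T' k s.1 s.2) s.2)) n
  let A : ℕ → Finset ℕ := fun k => A' k (st k).1 (st k).2
  let T : ℕ → ℕ := fun k => T' k (st k).1 (st k).2
  let Z : ℕ → ℕ := fun k => Z' k (st k).1 (st k).2
  have inv : ∀ k, (∀ p ∈ (st k).1, Sp m p ∧ jacobiSym p l = 1) ∧ ∀ p ∈ (st k).2, Sp m p :=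
    fun k => by
    induction k with
    | zero => exact ⟨fun p hp => absurd hp (notMem_empty p), fun p hp => absurd hp (notMem_empty p)⟩
    | succ k ih =>
      have g := hG k _ _ ih.1 ih.2
      refine ⟨g.hA, fun p hp => ?_⟩
      rcases mem_insert.1 hp with rfl | hp
      exacts [g.hT.1, ih.2 p hp]
  have hM : ∀ k, (st k).2 = (range k).image T := fun k => by
    induction k with
    | zero => rfl
    | succ k ih => rw [range_add_one, image_insert, ← ih]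
  have g : ∀ k, Stp P P' l s k (st k).1 ((range k).image T) (A k) (T k) (Z k) := fun k =>
    hM k ▸ hG k _ _ (inv k).1 (inv k).2
  have g' : ∀ k, Stp P P' l s (k + 1) (A k) ((range (k + 1)).image T) (A (k + 1)) (T (k + 1))
      (Z (k + 1)) := fun k => g (k + 1)
  exact ⟨⟨A, T, Z, monotone_nat_of_le_succ fun k => (g' k).sub, fun k => (g k).hA,
    fun k => (g k).hT, fun k p hp hn => ⟨((g' k).new p hp hn).1, fun i hi =>
      ((g' k).new p hp hn).2 _ (mem_image_of_mem T (mem_range.2 (Nat.lt_add_one_iff.2 hi)))⟩,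
    fun k => (g k).spl, fun k => (g k).sym, fun k => (g k).up, fun k => (g k).low,
    fun k => (g k).big, fun k => (g k).aux, ∅⟩⟩

/-! assembly -/

theorem s_phi {P : FK K m} {P' : Pell m K'} {l s : ℕ} (D : Des P P' l s) (hl : l.Prime)
    (hl' : 2 ^ m ∣ l + 1) {t : ℕ} (ht : 3 ≤ t) : Phi P P' l D.S s t := by
  obtain ⟨k, h⟩ := P'.ph_complete s ht
  obtain ⟨q, J, q1, q2, q3, q4⟩ := D.aux k
  obtain ⟨r, ⟨r1, x, x1, x2⟩, r2⟩ := D.low k
  have h1 := s_link_complete D hl hl' x1 (q := q) fun i =>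
    ⟨(q2 i).1, (q2 i).2.1, (q2 i).2.2.2⟩
  refine ⟨r, intCast_mem _ r, fun i => q i, fun i => natCast_mem _ _, h _ (D.big k) D.S q J r q1
    (fun i => ⟨(q2 i).1, (q2 i).2.1, (q2 i).2.2.1⟩) q3 q4 r1 r2, x, h1.1.1, h1, ?_⟩
  obtain ⟨z, z1, z2⟩ := x2
  exact ⟨z, AS.mono (s_FS D k) z1, by simpa using z2⟩

theorem int_dio (P : FK K m) (h4 : 4 ≤ dg K) {K' : Type} [Field K'] [NumberField K']
    (P' : Pell m K') (W : Set ℕ) : ∃ S : Set ℕ, (∀ p ∈ S, p.Prime) ∧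
      (∀ p, Pa m p → (p ∈ S ↔ p ∈ W)) ∧
      H18.Dio (RS S) fun t : RS S => t ∈ (Int.castRingHom (RS S)).range := by
  have m0 : 0 < 2 ^ m := by positivity
  obtain ⟨l, l1, hl, l2⟩ := Nat.forall_exists_prime_gt_and_modEq (nm P.u).natAbs m0.ne'
    (a := 2 ^ m - 1) (Nat.coprime_self_sub_left m0 |>.2 (Nat.coprime_one_left _))
  have hl' : 2 ^ m ∣ l + 1 := (Nat.modEq_zero_iff_dvd).1 ((l2.add_right 1).trans (by
    rw [Nat.sub_add_cancel m0]
    exact Nat.modEq_zero_iff_dvd.2 dvd_rfl))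
  have hu : IsCoprime P.u (l : 𝓞 K) := ta_nm_cop.2 (Nat.Coprime.symm
    (hl.coprime_iff_not_dvd.2 fun e => (Nat.le_of_dvd (Nat.pos_of_ne_zero fun z => by
      simpa [z] using ta_nm_cop.1 (ta_u2 P)) e).not_gt l1))
  obtain ⟨s, hs⟩ := P'.ph_sound
  obtain ⟨D, rfl⟩ : ∃ D : Des P P' l s, D.W = W :=
    (s_des P h4 P' hl hl' hu s).elim fun D => ⟨{ D with W := W }, rfl⟩
  have h0 := dio_ne hl (by have := s_l34 P hl'; omega) (s_lS D hl').1 (s_lS D hl').2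
  have h1 := s_phi_dio P P' l h0 s
  have h2 : ∀ t ∈ RS D.S, Phi P P' l D.S s t → ∃ n : ℤ, t = n := by
    rintro t ht ⟨r, hr, w, hw, e, x, -, e1, z, z1, z2⟩
    obtain ⟨r, rfl, r1, r2⟩ := hs D.S (fun _ => s_gd D) t r w ht hr e
    obtain ⟨k, k1, k2⟩ := s_link_sound D hl hl' hw e1
    rw [Rat.cast_intCast] at z2
    exact r2 _ (D.up k r ⟨r1, x, k1, z, s_desc (fun p _ hp => (P'.rr_free r1).2 p (s_gd D hp)) z1
      (z2 ▸ sub_mem k1.1.1 (one_mem _)), z2⟩) k2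
  refine ⟨D.S, fun p hp => (s_gd D hp).1, fun p hp => ⟨fun h => ?_, fun h => .inl ⟨hp, h⟩⟩, Dio.congr
    (S := fun t : RS D.S => ∃ w : RS D.S × RS D.S, Phi P P' l D.S s w.1 ∧ Phi P P' l D.S s w.2 ∧
      t = w.1 - w.2) (.ex (.and (h1.comp (by fun_prop)) (.and (h1.comp (by fun_prop))
        (.eq (by fun_prop) (by fun_prop))))) fun t => ⟨?_, ?_⟩⟩
  · have h5 : ¬ Sp m p := fun e => hp.2.2.2 (((e.2.of_dvd (pow_dvd_pow 2 (Nat.sub_le m 1))).dvd_iff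
      dvd_rfl).2 dvd_rfl)
    rcases h with h | ⟨k, h⟩ | ⟨k, rfl⟩
    exacts [h.2, (h5 (D.hA k p h).1).elim, (h5 (D.hT k).1).elim]
  · rintro ⟨n, rfl⟩
    refine ⟨(((n.toNat + 3 : ℕ) : RS D.S), (((-n).toNat + 3 : ℕ) : RS D.S)),
      s_phi D hl hl' (t := n.toNat + 3) (by omega),
      s_phi D hl hl' (t := (-n).toNat + 3) (by omega), ?_⟩
    rw [← Int.cast_natCast, ← Int.cast_natCast ((-n).toNat + 3), ← Int.cast_sub]
    exact congrArg _ (by omega)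
  · rintro ⟨⟨a, b⟩, e1, e2, rfl⟩
    obtain ⟨i, hi⟩ := h2 _ a.2 e1
    obtain ⟨j, hj⟩ := h2 _ b.2 e2
    exact ⟨i - j, Subtype.ext (by simp [hi, hj])⟩

end Pool.Agent.MP_a59382_lc.V3

end

-- part MP_a59382_lc.V3.Out
section

/-! From the definability of the integers to the pole relations. -/

set_option autoImplicit false

namespace Pool.Agent.MP_a59382_lc.V3

open Finset H26 H18

theorem dio_M_dig {u : ℕ} {c : ℕ → ℕ} (hc : ∀ j, c j < u) (k : ℕ) :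
    ∑ j ∈ range k, c j * u ^ j < u ^ k := by
  induction k with
  | zero => simp
  | succ k ih =>
    rw [sum_range_succ, pow_succ']
    calc _ < (c k + 1) * u ^ k := by linarith
      _ ≤ _ := Nat.mul_le_mul_right _ (hc k)

theorem dio_M_choose (n k : ℕ) :
    (2 ^ n + 1 + 1) ^ n / (2 ^ n + 1) ^ k % (2 ^ n + 1) = n.choose k := by
  obtain ⟨u, hu⟩ : ∃ u, u = 2 ^ n + 1 := ⟨_, rfl⟩
  have hc : ∀ j, n.choose j < u := fun j => hu ▸ Nat.lt_succ_of_le (Nat.choose_le_two_pow n j)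
  have h : (u + 1) ^ n = ∑ j ∈ range (k + (n + 1)), n.choose j * u ^ j := by
    rw [add_pow, sum_subset (range_subset_range.2 (Nat.le_add_left (n + 1) k))
      fun j _ hj => by simp [Nat.choose_eq_zero_of_lt (by simpa using hj : n < j)]]
    exact sum_congr rfl fun j _ => by simp [mul_comm]
  have h2 : ∑ j ∈ range (n + 1), n.choose (k + j) * u ^ (k + j) =
      u ^ k * (n.choose k + u * ∑ j ∈ range n, n.choose (k + (j + 1)) * u ^ j) := by
    rw [sum_range_succ', mul_add, add_comm, mul_sum, mul_sum]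
    congr 1
    · simp [mul_comm]
    · exact sum_congr rfl fun j _ => by ring
  rw [← hu, h, sum_range_add, h2, Nat.add_mul_div_left _ _ (pow_pos (Nat.zero_lt_of_lt (hc 0)) k),
    Nat.div_eq_of_lt (dio_M_dig hc k), zero_add, Nat.add_mul_mod_self_left, Nat.mod_eq_of_lt (hc k)]

theorem dio_M_fact {n r : ℕ} (hr : n * n * (n ^ n + 1) + n < r) :
    r ^ n / r.choose n = n.factorial := by
  have hf := n.factorial_pos
  refine Nat.div_eq_of_lt_le ?_ (Nat.lt_of_mul_lt_mul_left (a := n.factorial) ?_)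
  · rw [← Nat.descFactorial_eq_factorial_mul_choose]
    exact Nat.descFactorial_le_pow r n
  rw [mul_left_comm, ← Nat.descFactorial_eq_factorial_mul_choose]
  refine lt_of_lt_of_le ?_ (Nat.mul_le_mul_left _ ((Nat.pow_le_pow_left
    (by omega : r - n ≤ r + 1 - n) n).trans (Nat.pow_sub_le_descFactorial r n)))
  have h1 : n * n * (n.factorial + 1) < r :=
    lt_of_le_of_lt (by have := n.factorial_le_pow; nlinarith only [this]) hr
  have hn : n ≤ r := by omega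
  have r0 : (0 : ℝ) < r := by exact_mod_cast (by omega : 0 < r)
  have h2 := one_add_mul_le_pow (a := -((n : ℝ) / r))
    (by linarith only [div_le_one_of_le₀ (Nat.cast_le.2 hn : (n : ℝ) ≤ r) r0.le]) n
  have h3 : ((r - n : ℕ) : ℝ) = r * (1 + -((n : ℝ) / r)) := by
    rw [Nat.cast_sub hn]; field_simp; ring
  have h4 : (n.factorial : ℝ) < (n.factorial + 1) * (1 + n * -((n : ℝ) / r)) := by
    have : (n : ℝ) * n * (n.factorial + 1) / r < 1 := (div_lt_one r0).2 (by exact_mod_cast h1)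
    calc _ < (n.factorial + 1 : ℝ) - n * n * (n.factorial + 1) / r := by linarith only [this]
      _ = _ := by ring
  rw [← Nat.cast_lt (α := ℝ)]
  push_cast
  rw [h3, mul_pow, mul_left_comm, mul_comm]
  exact mul_lt_mul_of_pos_left (h4.trans_le (by gcongr)) (pow_pos r0 n)

theorem dio_M_dchoose {α : Type} {f g : (α → ℕ) → ℕ} (df : Dioph.DiophFn f)
    (dg : Dioph.DiophFn g) : Dioph.DiophFn fun v => (f v).choose (g v) := by
  have du := Dioph.add_dioph (Dioph.pow_dioph (Dioph.const_dioph 2) df) (Dioph.const_dioph 1)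
  have := Dioph.mod_dioph (Dioph.div_dioph (Dioph.pow_dioph
    (Dioph.add_dioph du (Dioph.const_dioph 1)) df) (Dioph.pow_dioph du dg)) du
  simpa only [Function.const_apply, dio_M_choose] using this

theorem dio_M_dfact {α : Type} {f : (α → ℕ) → ℕ} (df : Dioph.DiophFn f) :
    Dioph.DiophFn fun v => (f v).factorial := by
  have dr := Dioph.add_dioph (Dioph.add_dioph (Dioph.mul_dioph (Dioph.mul_dioph df df)
    (Dioph.add_dioph (Dioph.pow_dioph df df) (Dioph.const_dioph 1))) df) (Dioph.const_dioph 1)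
  have := Dioph.div_dioph (Dioph.pow_dioph dr df) (dio_M_dchoose dr df)
  simpa only [Function.const_apply, dio_M_fact (Nat.lt_succ_self _)] using this

theorem dio_M_ddesc {α : Type} {f g : (α → ℕ) → ℕ} (df : Dioph.DiophFn f)
    (dg : Dioph.DiophFn g) : Dioph.DiophFn fun v => (f v).descFactorial (g v) := by
  simpa only [Nat.descFactorial_eq_factorial_mul_choose] using
    Dioph.mul_dioph (dio_M_dfact dg) (dio_M_dchoose df dg)

theorem dio_M_ddist {α : Type} {f g : (α → ℕ) → ℕ} (df : Dioph.DiophFn f)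
    (dg : Dioph.DiophFn g) : Dioph.DiophFn fun v => ((f v : ℤ) - g v).natAbs := by
  have e : ∀ a b : ℕ, a - b + (b - a) = ((a : ℤ) - b).natAbs := fun a b => by omega
  simpa only [e] using Dioph.add_dioph (Dioph.sub_dioph df dg) (Dioph.sub_dioph dg df)

theorem dio_M_mod {a K : ℕ} (ha : a ≤ K) (hK : 3 ≤ K) : ∃ m : ℕ → ℕ,
    (K.factorial * K.factorial - 1).choose a = ∏ y ∈ range a, m y ∧ ∀ y < a, 1 < m y ∧
      K.factorial * K.factorial - 1 ≡ y [MOD m y] ∧ ∀ p, p.Prime → p ∣ m y → K < p := by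
  obtain ⟨t, ht⟩ : ∃ t, t = K.factorial := ⟨_, rfl⟩
  have t3 : 3 ≤ t := ht ▸ hK.trans K.self_le_factorial
  have hd : ∀ j, 0 < j → j ≤ K → j ∣ t := fun j h h' => ht ▸ Nat.dvd_factorial h h'
  have h1 : ∀ y < a, ∃ m, 1 < m ∧ t ∣ m + 1 ∧ (y + 1) * m + y = t * t - 1 := fun y hy => by
    obtain ⟨s, hs⟩ := hd (y + 1) y.succ_pos (by omega)
    have s0 : 0 < s := Nat.pos_of_ne_zero (by rintro rfl; omega)
    obtain ⟨m, hm⟩ : ∃ m, t * s = m + 1 := ⟨t * s - 1, by have := mul_pos (by omega : 0 < t) s0; omega⟩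
    refine ⟨m, by nlinarith only [t3, s0, hm], ⟨s, hm.symm⟩, Nat.eq_sub_of_add_eq ?_⟩
    calc _ = (y + 1) * (m + 1) := by ring
      _ = t * ((y + 1) * s) := by rw [← hm]; ring
      _ = _ := by rw [← hs]
  choose! m h1 h2 h3 using h1
  rw [← ht]
  refine ⟨m, Nat.eq_of_mul_eq_mul_left a.factorial_pos ?_, fun y hy => ⟨h1 y hy, ?_,
    fun p hp hm => not_le.1 fun h => hp.one_lt.ne' (Nat.dvd_one.1
      ((Nat.dvd_add_right hm).1 ((hd p hp.pos h).trans (h2 y hy))))⟩⟩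
  · rw [← Nat.descFactorial_eq_factorial_mul_choose, Nat.descFactorial_eq_prod_range,
      ← prod_range_add_one_eq_factorial, ← prod_mul_distrib]
    exact prod_congr rfl fun y hy => by rw [← h3 y (mem_range.1 hy), Nat.add_sub_cancel]
  · rw [← h3 y hy]
    simp [Nat.ModEq]

theorem dio_M_desc {p U W : ℕ} (hp : p.Prime) (h : p ∣ U.descFactorial W) :
    ∃ u < W, U ≡ u [MOD p] := by
  rw [Nat.descFactorial_eq_prod_range] at h
  obtain ⟨j, hj, h⟩ := (Prime.dvd_finsetProd_iff hp.prime _).1 h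
  rcases le_total j U with h' | h'
  · exact ⟨j, mem_range.1 hj, ((Nat.modEq_iff_dvd' h').2 h).symm⟩
  · exact ⟨U, h'.trans_lt (mem_range.1 hj), rfl⟩

theorem dio_M_desc' {m U W u : ℕ} (hu : u < W) (h : U ≡ u [MOD m]) : m ∣ U.descFactorial W := by
  rw [Nat.descFactorial_eq_prod_range]
  refine Dvd.dvd.trans ?_ (dvd_prod_of_mem _ (mem_range.2 hu))
  rcases le_total u U with h' | h'
  · exact (Nat.modEq_iff_dvd' h').1 h.symm
  · simp [Nat.sub_eq_zero_of_le h']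

theorem dio_M_bq (M a b : ℕ) : (∀ y < a, ∃ u v, 1 + (y + 1) * M = (u + 2) * (v + 2) ∨
    u * a = v * (1 + (y + 1) * M) + 1 ∨ b = (1 + (y + 1) * M) * u) ↔ ∃ W U V K : ℕ,
    (W + 2 + a + b + (a + 1) * M) * (W + 2 + a + b + (a + 1) * M) ≤ K ∧ ∃ q N : ℕ,
    q = K.factorial * K.factorial - 1 ∧ N = q.choose a ∧
    N ∣ U.descFactorial W ∧ N ∣ V.descFactorial W ∧
    N ∣ (((1 + (q + 1) * M : ℕ) : ℤ) - ((U + 2) * (V + 2) : ℕ)).natAbs *
      (((U * a : ℕ) : ℤ) - (V * (1 + (q + 1) * M) + 1 : ℕ)).natAbs *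
      ((b : ℤ) - ((1 + (q + 1) * M) * U : ℕ)).natAbs := by
  constructor
  · intro h
    choose! u v h using h
    obtain ⟨W, hW⟩ : ∃ W, ∀ y < a, u y < W ∧ v y < W := ⟨∑ y ∈ range a, (u y + v y) + 1,
      fun y hy => by
        have := single_le_sum (f := fun y => u y + v y) (fun _ _ => Nat.zero_le _) (mem_range.2 hy)
        omega⟩
    obtain ⟨S, hS⟩ : ∃ S, S = W + 2 + a + b + (a + 1) * M := ⟨_, rfl⟩
    have hK : a ≤ S * S ∧ 3 ≤ S * S := by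
      have : 2 ≤ S ∧ a ≤ S := by omega
      constructor <;> nlinarith only [this]
    obtain ⟨m, hN, hm⟩ := dio_M_mod hK.1 hK.2
    have hc : Set.Pairwise (range a : Finset ℕ) (Function.onFun Nat.Coprime m) := by
      have k : ∀ y y', y < y' → y' < a → (m y).Coprime (m y') := fun y y' h1 h2 =>
        Nat.Coprime.symm (Nat.coprime_of_dvd fun p hp hp1 hp2 => by
          have e := (Nat.modEq_iff_dvd' h1.le).1 (((hm y (h1.trans h2)).2.1.of_dvd hp2).symm.trans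
            ((hm y' h2).2.1.of_dvd hp1))
          have := Nat.le_of_dvd (by omega) e
          have := (hm y' h2).2.2 p hp hp1
          omega)
      intro y hy y' hy' hne
      rcases lt_or_gt_of_ne hne with h' | h'
      · exact k _ _ h' (by simpa using hy')
      · exact (k _ _ h' (by simpa using hy)).symm
    have h0 : ∀ y ∈ range a, m y ≠ 0 := fun y hy => by have := (hm y (mem_range.1 hy)).1; omega
    obtain ⟨U, hU⟩ := Nat.chineseRemainderOfFinset u m _ h0 hc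
    obtain ⟨V, hV⟩ := Nat.chineseRemainderOfFinset v m _ h0 hc
    have hd : ∀ z, (∀ y ∈ range a, m y ∣ z) → ∏ y ∈ range a, m y ∣ z := fun z =>
      prod_dvd_of_isRelPrime fun y hy y' hy' hne => Nat.coprime_iff_isRelPrime.1 (hc hy hy' hne)
    refine ⟨W, U, V, S * S, hS ▸ le_rfl, _, _, rfl, rfl, ?_⟩
    rw [hN]
    refine ⟨hd _ fun y hy => dio_M_desc' (hW y (mem_range.1 hy)).1 (hU y hy),
      hd _ fun y hy => dio_M_desc' (hW y (mem_range.1 hy)).2 (hV y hy), hd _ fun y hy => ?_⟩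
    have hq := (hm y (mem_range.1 hy)).2.1
    have h1 := hU y hy
    have h2 := hV y hy
    have k : ∀ x x' : ℕ, x' ≡ x [MOD m y] → m y ∣ ((x : ℤ) - x').natAbs := fun x x' h =>
      Int.natCast_dvd.1 h.dvd
    rcases h y (mem_range.1 hy) with e | e | e
    · refine ((k _ _ (.trans (b := (u y + 2) * (v y + 2)) (by gcongr) ?_)).mul_right _).mul_right _
      rw [← e]
      exact .symm (by gcongr)
    · refine ((k _ _ (.trans (b := v y * (1 + (y + 1) * M) + 1) (by gcongr) ?_)).mul_left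
        _).mul_right _
      rw [← e]
      exact .symm (by gcongr)
    · refine (k _ _ ?_).mul_left _
      rw [e]
      gcongr
  · rintro ⟨W, U, V, K, hK, q, N, hq, hN, h1, h2, h3⟩ y hy
    obtain ⟨S, hS⟩ : ∃ S, S = W + 2 + a + b + (a + 1) * M := ⟨_, rfl⟩
    rw [← hS] at hK
    have hn : (y + 1) * M ≤ (a + 1) * M := Nat.mul_le_mul_right _ (by omega)
    have hS2 : S + S ≤ K := by have : 2 ≤ S := by omega
                               nlinarith only [hK, this]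
    obtain ⟨m, hN', hm⟩ := dio_M_mod (a := a) (K := K) (by omega) (by omega)
    rw [← hq] at hN' hm
    obtain ⟨p, hp, hpm⟩ := Nat.exists_prime_and_dvd (hm y hy).1.ne'
    have hpN : p ∣ N := hpm.trans (hN ▸ hN' ▸ dvd_prod_of_mem _ (mem_range.2 hy))
    have hpK := (hm y hy).2.2 p hp hpm
    have e0 := (hm y hy).2.1.of_dvd hpm
    obtain ⟨u, hu, e1⟩ := dio_M_desc hp (hpN.trans h1)
    obtain ⟨v, hv, e2⟩ := dio_M_desc hp (hpN.trans h2)
    have k : ∀ {x x' z z' : ℕ}, p ∣ ((x : ℤ) - x').natAbs → x ≡ z [MOD p] → x' ≡ z' [MOD p] →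
        z ≤ S * S → z' ≤ S * S → z = z' := fun h h1 h2 h3 h4 =>
      Nat.ModEq.eq_of_lt_of_lt (h1.symm.trans
        (((Nat.modEq_iff_dvd.2 (Int.natCast_dvd.2 h)).symm).trans h2)) (by omega) (by omega)
    have b1 : S ≤ S * S := Nat.le_mul_self S
    refine ⟨u, v, ?_⟩
    rcases (hp.dvd_mul).1 (hpN.trans h3) with h | h
    · rcases (hp.dvd_mul).1 h with h | h
      · exact .inl (k h (by gcongr) (by gcongr) (by omega) (Nat.mul_le_mul (by omega) (by omega)))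
      · refine .inr (.inl (k h (by gcongr) (by gcongr) (Nat.mul_le_mul (by omega) (by omega)) ?_))
        calc _ ≤ (v + 1) * (1 + (y + 1) * M) := by nlinarith only []
          _ ≤ _ := Nat.mul_le_mul (by omega) (by omega)
    · exact .inr (.inr (k h rfl (by gcongr) (by omega) (Nat.mul_le_mul (by omega) (by omega))))

theorem dio_M_iff (M b : ℕ) {a : ℕ} (ha : 0 < a) :
    (∀ p : ℕ, p.Prime → p ≡ 1 [MOD M] → p ∣ a → p ∣ b) ↔
    ∀ y < a, ∃ u v, 1 + (y + 1) * M = (u + 2) * (v + 2) ∨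
      u * a = v * (1 + (y + 1) * M) + 1 ∨ b = (1 + (y + 1) * M) * u := by
  refine ⟨fun h y _ => ?_, fun h p hp hM hpa => ?_⟩
  · obtain ⟨n, hn⟩ : ∃ n, n = 1 + (y + 1) * M := ⟨_, rfl⟩
    have hM : n ≡ 1 [MOD M] := by simp [hn, Nat.ModEq]
    rw [← hn]
    by_cases h1 : n = 1
    · exact ⟨b, 0, .inr (.inr (by rw [h1, one_mul]))⟩
    by_cases hp : n.Prime
    · by_cases hd : n ∣ a
      · obtain ⟨u, hu⟩ := h n hp hM hd
        exact ⟨u, 0, .inr (.inr hu)⟩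
      · obtain ⟨u, -, hu⟩ := Nat.exists_mul_mod_eq_one_of_coprime
          ((Nat.Prime.coprime_iff_not_dvd hp).2 hd).symm hp.one_lt
        exact ⟨u, a * u / n, .inr (.inl (by rw [← hu, Nat.div_add_mod', mul_comm]))⟩
    · obtain ⟨u, v, hu, hv, e⟩ := (Nat.not_prime_iff_exists_mul_eq (by omega)).1 hp
      have : 2 ≤ u ∧ 2 ≤ v := by
        constructor <;> by_contra h' <;> rw [not_le] at h'
        · interval_cases u <;> omega
        · interval_cases v <;> omega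
      exact ⟨u - 2, v - 2, .inl (by rw [Nat.sub_add_cancel this.1, Nat.sub_add_cancel this.2, e])⟩
  · obtain ⟨k, hk⟩ := (Nat.modEq_iff_dvd' hp.one_le).1 hM.symm
    have h2 := hp.two_le
    have h3 := Nat.le_of_dvd ha hpa
    obtain ⟨y, rfl⟩ : ∃ y, k = y + 1 := Nat.exists_eq_succ_of_ne_zero (by rintro rfl; omega)
    have M0 : 0 < M := Nat.pos_of_ne_zero (by rintro rfl; omega)
    have e : 1 + (y + 1) * M = p := by rw [mul_comm]; omega
    obtain ⟨u, v, h⟩ := h y (by nlinarith only [h3, M0, e])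
    rw [e] at h
    rcases h with h | h | h
    · exact absurd (h ▸ hp) (Nat.not_prime_mul (by omega) (by omega))
    · exact absurd (Nat.dvd_one.1 ((Nat.dvd_add_right (Dvd.intro_left _ rfl)).1
        (h ▸ hpa.mul_left u))) hp.one_lt.ne'
    · exact ⟨u, h⟩

theorem dio_M (M : ℕ) : Dio ℤ fun v : Fin 2 → ℤ => 0 < v 0 ∧ 0 < v 1 ∧
    ∀ p : ℕ, p.Prime → p ≡ 1 [MOD M] → (p : ℤ) ∣ v 0 → (p : ℤ) ∣ v 1 := by
  have c := Dioph.const_dioph (α := Fin 2 ⊕ Fin 6)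
  have da := Dioph.proj_dioph (α := Fin 2 ⊕ Fin 6) (.inl 0)
  have db := Dioph.proj_dioph (α := Fin 2 ⊕ Fin 6) (.inl 1)
  have d := fun i => Dioph.proj_dioph (α := Fin 2 ⊕ Fin 6) (.inr i)
  have dS := Dioph.add_dioph (Dioph.add_dioph (Dioph.add_dioph (Dioph.add_dioph (d 0) (c 2)) da) db)
    (Dioph.mul_dioph (Dioph.add_dioph da (c 1)) (c M))
  have dn := Dioph.add_dioph (c 1) (Dioph.mul_dioph (Dioph.add_dioph (d 4) (c 1)) (c M))
  have h := Dioph.ex_dioph ((Dioph.le_dioph (Dioph.mul_dioph dS dS) (d 3)).inter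
    ((Dioph.eq_dioph (d 4) (Dioph.sub_dioph (Dioph.mul_dioph (dio_M_dfact (d 3))
      (dio_M_dfact (d 3))) (c 1))).inter ((Dioph.eq_dioph (d 5) (dio_M_dchoose (d 4) da)).inter
    ((Dioph.dvd_dioph (d 5) (dio_M_ddesc (d 1) (d 0))).inter
    ((Dioph.dvd_dioph (d 5) (dio_M_ddesc (d 2) (d 0))).inter (Dioph.dvd_dioph (d 5)
      (Dioph.mul_dioph (Dioph.mul_dioph (dio_M_ddist dn (Dioph.mul_dioph
        (Dioph.add_dioph (d 1) (c 2)) (Dioph.add_dioph (d 2) (c 2))))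
        (dio_M_ddist (Dioph.mul_dioph (d 1) da)
          (Dioph.add_dioph (Dioph.mul_dioph (d 2) dn) (c 1))))
        (dio_M_ddist db (Dioph.mul_dioph dn (d 1))))))))))
  have h' : Dioph ({w : Fin 2 → ℕ | 0 < w 0} ∩ ({w | 0 < w 1} ∩
      {w | 0 < w 0 → ∀ p : ℕ, p.Prime → p ≡ 1 [MOD M] → p ∣ w 0 → p ∣ w 1})) := by
    refine Dioph.ext ((Dioph.lt_dioph (Dioph.const_dioph 0) (Dioph.proj_dioph 0)).inter
      ((Dioph.lt_dioph (Dioph.const_dioph 0) (Dioph.proj_dioph 1)).inter h)) fun w =>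
      and_congr_right fun h0 => and_congr_right fun _ => ?_
    refine Iff.trans ?_ (((dio_M_iff M (w 1) h0).trans (dio_M_bq M _ _)).symm.trans
      ⟨fun h _ => h, fun h => h h0⟩)
    exact ⟨fun ⟨x, h1, h2⟩ => ⟨x 0, x 1, x 2, x 3, h1, x 4, x 5, h2⟩,
      fun ⟨W, U, V, K, h1, q, N, h2⟩ => ⟨![W, U, V, K, q, N], h1, h2⟩⟩
  refine (D2_conv h').congr fun v => ?_
  simp only [Set.mem_inter_iff, Set.mem_ofPred_eq, Fin.forall_fin_two]
  constructor
  · rintro ⟨h0, h1, h2⟩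
    refine ⟨⟨h0.le, h1.le⟩, by omega, by omega, fun _ p hp hM hd => ?_⟩
    rw [← Int.natCast_dvd_natCast, Int.toNat_of_nonneg h1.le]
    rw [← Int.natCast_dvd_natCast, Int.toNat_of_nonneg h0.le] at hd
    exact h2 p hp hM hd
  · rintro ⟨⟨h0, h1⟩, h2, h3, h4⟩
    refine ⟨by omega, by omega, fun p hp hM hd => ?_⟩
    rw [← Int.toNat_of_nonneg h1, Int.natCast_dvd_natCast]
    rw [← Int.toNat_of_nonneg h0, Int.natCast_dvd_natCast] at hd
    exact h4 h2 p hp hM hd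

theorem out_int (M : ℕ) : Dio ℤ fun w : Fin 4 → ℤ =>
    (0 < w 1 ∧ 0 < w 3 ∧ ∀ p : ℕ, p.Prime → p ≡ 1 [MOD M] → (p : ℤ) ∣ w 1 → (p : ℤ) ∣ w 3) ∧
      (∃ u : ℤ × ℤ, u.1 * w 0 + u.2 * w 1 = 1) ∧ ∃ u : ℤ × ℤ, u.1 * w 2 + u.2 * w 3 = 1 :=
  ((dio_M M).comp (f := fun (w : Fin 4 → ℤ) (i : Fin 2) => w (![1, 3] i)) (by fun_prop)).and
    (.and (.ex (.eq (by fun_prop) (by fun_prop))) (.ex (.eq (by fun_prop) (by fun_prop))))

theorem out_pole {S : Set ℕ} (M : ℕ)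
    (hZ : Dio (RS S) fun t : RS S => t ∈ (Int.castRingHom (RS S)).range) :
    Dio (RS S) fun v : Fin 2 → RS S => ∀ p : ℕ, p.Prime →
      p ≡ 1 [MOD M] → padicValRat p (v 0) < 0 → padicValRat p (v 1) < 0 := by
  have h := Dio.up (Int.castRingHom (RS S)) (RingHom.injective_int _) hZ (out_int M)
  have h2 : Dio (RS S) fun v : Fin 2 → RS S => ∃ w : Fin 4 → RS S,
      (v 0 * w 1 = w 0 ∧ v 1 * w 3 = w 2) ∧ ∃ u : Fin 4 → ℤ,
        (∀ s, w s = Int.castRingHom _ (u s)) ∧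
        (0 < u 1 ∧ 0 < u 3 ∧
          ∀ p : ℕ, p.Prime → p ≡ 1 [MOD M] → (p : ℤ) ∣ u 1 → (p : ℤ) ∣ u 3) ∧
          (∃ c : ℤ × ℤ, c.1 * u 0 + c.2 * u 1 = 1) ∧ ∃ c : ℤ × ℤ, c.1 * u 2 + c.2 * u 3 = 1 :=
    .ex (.and (.and (.eq (by fun_prop) (by fun_prop)) (.eq (by fun_prop) (by fun_prop)))
      (h.comp PF.snd))
  refine h2.congr fun v => ⟨fun hv => ?_, ?_⟩
  · obtain ⟨a, b, e⟩ : IsCoprime (v 1 : ℚ).num (v 1 : ℚ).den :=
      Int.isCoprime_iff_gcd_eq_one.2 (v 1 : ℚ).reduced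
    obtain ⟨a', b', e'⟩ : IsCoprime (v 0 : ℚ).num (v 0 : ℚ).den :=
      Int.isCoprime_iff_gcd_eq_one.2 (v 0 : ℚ).reduced
    refine ⟨fun s => Int.castRingHom _
      (![(v 0 : ℚ).num, (v 0 : ℚ).den, (v 1 : ℚ).num, (v 1 : ℚ).den] s),
      ⟨Subtype.ext ?_, Subtype.ext ?_⟩, _, fun _ => rfl,
      ⟨Int.natCast_pos.2 (v 0 : ℚ).pos, Int.natCast_pos.2 (v 1 : ℚ).pos, fun p hp hM h => ?_⟩,
      ⟨(a', b'), e'⟩, (a, b), e⟩
    · simp only [Fin.isValue, Nat.succ_eq_add_one, Nat.reduceAdd, Matrix.cons_val_one, Matrix.cons_val_zero, map_natCast, Subring.coe_mul, SubringClass.coe_natCast, Rat.mul_den_eq_num, eq_intCast, SubringClass.coe_intCast]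
    · simp only [Fin.isValue, Nat.succ_eq_add_one, Nat.reduceAdd, Matrix.cons_val, map_natCast, Subring.coe_mul, SubringClass.coe_natCast, Rat.mul_den_eq_num, eq_intCast, SubringClass.coe_intCast]
    · have h1 : p ∣ (v 0 : ℚ).den := Int.natCast_dvd_natCast.1 h
      exact Int.natCast_dvd_natCast.2
        ((val_neg_iff hp _).1 (hv p hp hM ((val_neg_iff hp _).2 h1)))
  · rintro ⟨w, ⟨e1, e2⟩, u, hu, ⟨h1, h3, h⟩, -, ⟨a, b⟩, e⟩ p hp hM h0
    have k : ∀ (x : RS S) (n d : ℤ), 0 < d → x * Int.castRingHom _ d = Int.castRingHom _ n →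
        (x : ℚ) = n / d := fun x n d hd e => by
      rw [eq_div_iff (by exact_mod_cast hd.ne')]
      simpa only [eq_intCast, Subring.coe_mul, SubringClass.coe_intCast] using congrArg Subtype.val e
    rw [hu, hu] at e1 e2
    rw [val_neg_iff hp] at h0 ⊢
    rw [k _ _ _ h1 e1, ← Rat.divInt_eq_div] at h0
    have h4 := h p hp hM ((Int.natCast_dvd_natCast.2 h0).trans (Rat.den_dvd _ _))
    rw [k _ _ _ h3 e2, ← Int.natCast_dvd_natCast, Rat.den_div_eq_of_coprime h3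
      (Int.isCoprime_iff_gcd_eq_one.1 ⟨a, b, e⟩)]
    exact h4

theorem out_main {S : Set ℕ} (M : ℕ)
    (hZ : Dio (RS S) fun t : RS S => t ∈ (Int.castRingHom (RS S)).range) :
    ∃ (n : ℕ) (f : MvPolynomial (Fin 2 ⊕ Fin n) ℤ), ∀ a b : ℚ,
      (∀ p : ℕ, p.Prime → p ∣ a.den → p ∈ S) → (∀ p : ℕ, p.Prime → p ∣ b.den → p ∈ S) →
      ((∃ z : Fin n → ℚ, (∀ (i : Fin n) (p : ℕ), p.Prime → p ∣ (z i).den → p ∈ S) ∧
          MvPolynomial.aeval (Sum.elim ![a, b] z) f = 0) ↔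
        ∀ p : ℕ, p.Prime → p ≡ 1 [MOD M] → padicValRat p a < 0 → padicValRat p b < 0) := by
  obtain ⟨n, f, h⟩ := dio_out (out_pole M hZ)
  refine ⟨n, f, fun a b ha hb => ?_⟩
  have e : (fun i => ((![⟨a, ha⟩, ⟨b, hb⟩] : Fin 2 → RS S) i : ℚ)) = ![a, b] := by
    funext i
    fin_cases i <;> rfl
  have := h ![⟨a, ha⟩, ⟨b, hb⟩]
  rw [e] at this
  exact this

end Pool.Agent.MP_a59382_lc.V3

end

-- part MP_a59382_lc.V3.Main
section

/-! The integers and the pole relations are diophantine in very big subrings of the rationals. -/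

set_option autoImplicit false

namespace Pool.Agent.MP_a59382_lc.V3

theorem main (m : ℕ) (W : Set ℕ) :
    ∃ S : Set ℕ, (∀ p ∈ S, p.Prime) ∧
      (∀ p : ℕ, p.Prime → p ≠ 2 → ¬ p ≡ 1 [MOD 2 ^ m] → ¬ 2 ^ m ∣ p + 1 → (p ∈ S ↔ p ∈ W)) ∧
      ∀ M : ℕ, ∃ (n : ℕ) (f : MvPolynomial (Fin 2 ⊕ Fin n) ℤ), ∀ a b : ℚ,
        (∀ p : ℕ, p.Prime → p ∣ a.den → p ∈ S) → (∀ p : ℕ, p.Prime → p ∣ b.den → p ∈ S) →
        ((∃ z : Fin n → ℚ, (∀ (i : Fin n) (p : ℕ), p.Prime → p ∣ (z i).den → p ∈ S) ∧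
            MvPolynomial.aeval (Sum.elim ![a, b] z) f = 0) ↔
          ∀ p : ℕ, p.Prime → p ≡ 1 [MOD M] → padicValRat p a < 0 → padicValRat p b < 0) := by
  have hm : 4 ≤ m + 3 + 1 := by omega
  obtain ⟨K, _, _, _, h4, ⟨P⟩⟩ := exists_FK hm
  obtain ⟨K', _, _, ⟨P'⟩⟩ := exists_Pell hm
  obtain ⟨S, h1, h2, h3⟩ := int_dio P h4 P' W
  have hd : 2 ^ m ∣ 2 ^ (m + 3 + 1 - 1) := pow_dvd_pow 2 (by omega)
  exact ⟨S, h1, fun p hp p2 p3 p4 => h2 p ⟨hp, p2, fun h => p3 (h.of_dvd hd),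
    fun h => p4 (hd.trans h)⟩, fun M => out_main M h3⟩

end Pool.Agent.MP_a59382_lc.V3

end

-- part MP_a59382_lc.V3.Dens
section

/-! The primes congruent to plus or minus one modulo a power of two have small upper density. -/

set_option autoImplicit false

namespace Pool.Agent.MP_a59382_lc.V3Dens

open Finset Filter Pool.Agent.MP_a96b63_al.H5

/-- the number of primes of a residue class in an interval -/
noncomputable def cnt (q c y z : ℕ) : ℝ :=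
  (((Ioc y z).filter fun p => p.Prime ∧ p ≡ c [MOD q]).card : ℝ)

theorem cnt_nonneg (q c y z : ℕ) : 0 ≤ cnt q c y z := Nat.cast_nonneg _

theorem cnt_add (q c : ℕ) {x y z : ℕ} (h1 : x ≤ y) (h2 : y ≤ z) :
    cnt q c x z = cnt q c x y + cnt q c y z := by
  unfold cnt
  rw [← Ioc_union_Ioc_eq_Ioc h1 h2, filter_union, card_union_of_disjoint, Nat.cast_add]
  refine disjoint_filter_filter (disjoint_left.2 fun a ha hb => ?_)
  rw [mem_Ioc] at ha hb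
  omega

theorem cnt_le (q c z : ℕ) : cnt q c 0 z ≤ z := by
  unfold cnt
  exact_mod_cast (card_filter_le _ _).trans (by simp)

theorem sum_apl (q c y z : ℕ) : ∑ n ∈ Ioc y z, apl q c n =
    ∑ n ∈ (Ioc y z).filter fun p => p.Prime ∧ p ≡ c [MOD q], Real.log n := by
  rw [sum_filter]
  refine sum_congr rfl fun n _ => ?_
  unfold apl lam
  by_cases h1 : n.Prime <;> by_cases h2 : n ≡ c [MOD q] <;> simp [h1, h2]

theorem cnt_lo (q c : ℕ) {y z : ℕ} (hy : 0 < y) :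
    cnt q c y z * Real.log y ≤ ∑ n ∈ Ioc y z, apl q c n := by
  rw [sum_apl, cnt, ← nsmul_eq_mul, ← sum_const]
  refine sum_le_sum fun n hn => ?_
  have := (mem_Ioc.1 (mem_filter.1 hn).1).1
  exact Real.log_le_log (by exact_mod_cast hy) (by exact_mod_cast this.le)

theorem cnt_hi (q c : ℕ) {y z : ℕ} :
    ∑ n ∈ Ioc y z, apl q c n ≤ cnt q c y z * Real.log z := by
  rw [sum_apl, cnt, ← nsmul_eq_mul, ← sum_const]
  refine sum_le_sum fun n hn => ?_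
  have := mem_Ioc.1 (mem_filter.1 hn).1
  exact Real.log_le_log (by exact_mod_cast (by omega : 0 < n)) (by exact_mod_cast this.2)

theorem block {q c : ℕ} (hq : 0 < q) (hc : c.Coprime q) {δ : ℝ} (hδ : 0 < δ) :
    ∀ᶠ x : ℕ in atTop, ∀ z : ℕ, 2 * x ≤ z + 1 → z ≤ 2 * x →
      cnt q c x z ≤ (1 / q.totient + δ) * cnt 1 0 x z := by
  filter_upwards [sw 1 1, ev_log_ge q, ev_log_ge (6 / δ + 2), eventually_ge_atTop 2]
    with x h hL1 hL2 hx z hz1 hz2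
  have hq1 : (1 : ℝ) ≤ q := by exact_mod_cast hq
  have h1 := h q c x z hq (by simpa only [pow_one] using hL1) hc le_rfl (by omega) hz2
  have h2 := h 1 0 x z one_pos (by simpa only [Nat.cast_one, pow_one] using hq1.trans hL1) (by simp) le_rfl (by omega) hz2
  simp only [pow_one, Nat.totient_one, Nat.cast_one, div_one] at h1 h2
  have hx0 : (0 : ℝ) < x := by exact_mod_cast (by omega : 0 < x)
  have hz0 : (0 : ℝ) < z := by exact_mod_cast (by omega : 0 < z)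
  have hlz : Real.log z ≤ Real.log x + 1 := by
    have : Real.log z ≤ Real.log (2 * x) := Real.log_le_log hz0 (by exact_mod_cast hz2)
    rw [Real.log_mul two_ne_zero hx0.ne'] at this
    linarith only [Real.log_two_lt_d9, this]
  have hw : (x : ℝ) ≤ 2 * ((z : ℝ) - x) := by
    have : 3 * x ≤ 2 * z := by omega
    have : (3 : ℝ) * x ≤ 2 * z := by exact_mod_cast this
    linarith only [this]
  have ht : (1 : ℝ) ≤ q.totient := by exact_mod_cast Nat.totient_pos.2 hq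
  have hU := (cnt_lo q c (z := z) (by omega : 0 < x)).trans
    (sub_le_iff_le_add'.1 (abs_le.1 h1).2)
  have hV := (abs_le.1 h2).1
  have hV' := cnt_hi 1 0 (y := x) (z := z)
  have hV0 := cnt_nonneg 1 0 x z
  have h6 : 0 < 6 / δ := by positivity
  set L := Real.log x
  set w := (z : ℝ) - x
  set U := cnt q c x z
  set V := cnt 1 0 x z
  set a : ℝ := 1 / q.totient with ha
  have ha0 : 0 < a := by positivity
  have ha1 : a ≤ 1 := by rw [ha, div_le_one (by linarith only [ht])]; exact ht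
  have hL0 : 0 < L := by linarith only [h6, hL2]
  have hw0 : 0 < w := by linarith only [hx0, hw]
  have e1 : w / q.totient = a * w := by rw [ha]; ring
  rw [e1] at hU
  have e2 : x / L ≤ 2 * w / L := by gcongr
  set r := w / L with hr
  have e3 : 2 * w / L = 2 * r := by rw [hr]; ring
  have e4 : w = r * L := by rw [hr]; field_simp
  have hr0 : 0 < r := by positivity
  have hA : U * L ≤ r * (a * L + 2) := by nlinarith only [hU, ha0, e2, e3, e4]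
  have hB : r * (L - 2) ≤ V * (L + 1) := by nlinarith only [hlz, hV, hV', hV0, e2, e3, e4]
  have hδL : 6 + 2 * δ ≤ δ * L := by
    have : δ * (6 / δ + 2) = 6 + 2 * δ := by field_simp
    nlinarith only [hδ, hL2, this]
  have hC : (a * L + 2) * (L + 1) ≤ (a + δ) * (L - 2) * L := by nlinarith only [h6, hL2, ha1, hδL]
  have hD : U * (L * (L + 1)) ≤ (a + δ) * V * (L * (L + 1)) :=
    calc U * (L * (L + 1)) = U * L * (L + 1) := by ring
      _ ≤ r * (a * L + 2) * (L + 1) := by gcongr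
      _ = r * ((a * L + 2) * (L + 1)) := by ring
      _ ≤ r * ((a + δ) * (L - 2) * L) := by gcongr
      _ = (a + δ) * L * (r * (L - 2)) := by ring
      _ ≤ (a + δ) * L * (V * (L + 1)) := by gcongr
      _ = _ := by ring
  exact le_of_mul_le_mul_right hD (by positivity)

theorem global {q c : ℕ} (hq : 0 < q) (hc : c.Coprime q) {δ : ℝ} (hδ : 0 < δ) :
    ∃ K : ℝ, ∀ N : ℕ, cnt q c 0 N ≤ (1 / q.totient + δ) * cnt 1 0 0 N + K := by
  obtain ⟨x0, h⟩ := eventually_atTop.1 (block hq hc hδ)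
  refine ⟨(2 * x0 + 2 : ℕ), fun N => ?_⟩
  have h0 : (0 : ℝ) ≤ 1 / q.totient + δ := by positivity
  induction N using Nat.strong_induction_on with
  | _ N ih =>
    by_cases hN : N ≤ 2 * x0 + 2
    · have h1 : (N : ℝ) ≤ (2 * x0 + 2 : ℕ) := by exact_mod_cast hN
      have := mul_nonneg h0 (cnt_nonneg 1 0 0 N)
      linarith only [cnt_le q c N, h1, this]
    · have h1 := ih ((N + 1) / 2) (by omega)
      have h2 := h ((N + 1) / 2) (by omega) N (by omega) (by omega)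
      rw [cnt_add q c (Nat.zero_le ((N + 1) / 2)) (by omega),
        cnt_add 1 0 (Nat.zero_le ((N + 1) / 2)) (by omega)]
      linarith only [h1, h2]

theorem cnt_one (N : ℕ) : cnt 1 0 0 N = Nat.primeCounting N := by
  unfold cnt
  rw [Nat.primeCounting, Nat.primeCounting', Nat.count_eq_card_filter_range]
  congr 2
  ext p
  simp only [mem_filter, mem_Ioc, mem_range, Nat.modEq_one, and_true]
  exact ⟨fun h => ⟨by omega, h.2⟩, fun h => ⟨⟨h.2.pos, by omega⟩, h.2⟩⟩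

/-- Two sets that agree on the odd primes outside the classes of plus and minus one modulo
`2 ^ m` differ on a set of primes of upper density at most `4 / 2 ^ m`. -/
theorem dens (m : ℕ) (S W : Set ℕ)
    (h : ∀ p : ℕ, p.Prime → p ≠ 2 → ¬ p ≡ 1 [MOD 2 ^ m] → ¬ 2 ^ m ∣ p + 1 → (p ∈ S ↔ p ∈ W))
    {δ : ℝ} (hδ : 0 < δ) : ∀ᶠ N : ℕ in atTop,
      ({p : ℕ | p ≤ N ∧ p.Prime ∧ ¬ (p ∈ S ↔ p ∈ W)}.ncard : ℝ) ≤
        (4 / 2 ^ m + δ) * Nat.primeCounting N := by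
  have hq : 0 < 2 ^ m := by positivity
  have hc : (2 ^ m - 1).Coprime (2 ^ m) := by
    have : 2 ^ m = 2 ^ m - 1 + 1 := by omega
    nth_rewrite 2 [this]
    simp only [Nat.coprime_self_add_right, Nat.coprime_one_right_eq_true]
  obtain ⟨K1, h1⟩ := global hq (Nat.coprime_one_left _) (δ := δ / 3) (by positivity)
  obtain ⟨K2, h2⟩ := global hq hc (δ := δ / 3) (by positivity)
  have ht : (1 : ℝ) / (2 ^ m : ℕ).totient ≤ 2 / 2 ^ m := by
    rcases m with _ | m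
    · norm_num
    · rw [Nat.totient_prime_pow_succ Nat.prime_two]
      apply le_of_eq
      push_cast
      field_simp
      ring
  have hπ : Tendsto (fun N : ℕ => (Nat.primeCounting N : ℝ)) atTop atTop :=
    tendsto_natCast_atTop_atTop.comp Nat.tendsto_primeCounting
  filter_upwards [hπ.eventually_ge_atTop ((1 + K1 + K2) / (δ / 3))] with N hN
  have hsub : {p : ℕ | p ≤ N ∧ p.Prime ∧ ¬ (p ∈ S ↔ p ∈ W)} ⊆
      (insert 2 (((Ioc 0 N).filter fun p => p.Prime ∧ p ≡ 1 [MOD 2 ^ m]) ∪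
        ((Ioc 0 N).filter fun p => p.Prime ∧ p ≡ 2 ^ m - 1 [MOD 2 ^ m])) : Finset ℕ) := by
    rintro p ⟨p1, p2, p3⟩
    simp only [coe_insert, coe_union, coe_filter, mem_Ioc, Set.mem_insert_iff, Set.mem_union,
      Set.mem_ofPred_eq]
    by_contra hn
    push Not at hn
    refine p3 (h p p2 hn.1 (hn.2.1 ⟨p2.pos, p1⟩ p2) fun hd => hn.2.2 ⟨p2.pos, p1⟩ p2 ?_)
    refine Nat.ModEq.add_right_cancel' 1 ?_
    rw [Nat.sub_add_cancel hq]
    exact ((Nat.modEq_zero_iff_dvd).2 hd).trans ((Nat.modEq_zero_iff_dvd).2 dvd_rfl).symm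
  have hle := Set.ncard_le_ncard hsub (Finset.finite_toSet _)
  rw [Set.ncard_coe_finset] at hle
  have hle2 := hle.trans ((card_insert_le _ _).trans (Nat.add_le_add_right (card_union_le _ _) 1))
  have hle3 : ({p : ℕ | p ≤ N ∧ p.Prime ∧ ¬ (p ∈ S ↔ p ∈ W)}.ncard : ℝ) ≤
      cnt (2 ^ m) 1 0 N + cnt (2 ^ m) (2 ^ m - 1) 0 N + 1 := by
    unfold cnt
    exact_mod_cast hle2
  have a1 := h1 N
  have a2 := h2 N
  rw [cnt_one] at a1 a2
  have hP : (0 : ℝ) ≤ Nat.primeCounting N := Nat.cast_nonneg _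
  rw [div_le_iff₀ (by positivity)] at hN
  have a3 := mul_le_mul_of_nonneg_right ht hP
  have e : (4 : ℝ) / 2 ^ m = 2 / 2 ^ m + 2 / 2 ^ m := by ring
  rw [e]
  linarith only [hN, hle3, a1, a2, a3]

end Pool.Agent.MP_a59382_lc.V3Dens

end
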