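import Pool.Agent.MP_a59382_lc.Mg.V3_AnDef
import Pool.Agent.MP_a59382_lc.V3.KDef

attribute [-instance] ContinuousSemilinearMapClass.toSemilinearMapClass
  IsPurelyInseparable.isIntegral SemilinearIsometryClass.toSemilinearMapClass littleWedderburn
  CoalgHomClass.toSemilinearMapClass AddQuantale.instAddLeftMono RKHS.instFunLike NormedField.toField
  IsDedekindDomain.isPrincipalIdealRing instIsPrincipalIdealRingOfIsSemisimpleRing
  NormedSpace.toModule BialgHomClass.toAlgHomClass instNonUnitalAlgHomClassOfNonUnitalAlgEquivClass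
  RingHomClass.toLinearMapClassNNRat Algebra.WeaklyEtale.flat LieAdmissibleAlgebra.toModule
  NonUnitalAlgHomClass.instSemilinearMapClassOfNonUnitalAlgSemiHomClassToMonoidHomRingHom
  IsOrderedCancelAddMonoid.toIsCancelAdd LeftPreLieAlgebra.toModule RingHomClass.toLinearMapClassRat
  Fintype.decidableForallFintype RightPreLieAlgebra.toModule IdemSemiring.toCanonicallyOrderedAdd
  AlgHomClass.linearMapClass NormedAlgebra.toAlgebra LieAlgebra.toModule
  MulEquivClass.toMonoidWithZeroHomClass Unique.instSubsingleton NormedDivisionRing.toDivisionRing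
  ValuationRing.instIsBezout ContinuousMonoidHom.instCoeOutOfMonoidHomClassOfContinuousMapClass
  Group.IsPerfect.subsingleton_of_isMulCommutative SubsemiringClass.addSubmonoidWithOneClass
  AddQuantale.instAddRightMono instCoeOTCOfCoeTC MulRingSeminormClass.toMonoidWithZeroHomClass

/-! Means of periodic functions on the integers of a number field; local densities. -/

set_option autoImplicit false
set_option linter.unusedSectionVars false

namespace Pool.Agent.MP_a59382_lc.V3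

open Finset NumberField Pool.Agent.MP_48b1c3_nt.H91

section Av

variable {k : Type} [Field k] [NumberField k] {k' : Type} [Field k'] [NumberField k']

/-- periodic modulo `q` -/
def Pr (q : ℕ) (f : 𝓞 k → ℝ) : Prop := ∀ a b, (q : 𝓞 k) ∣ a - b → f a = f b

theorem Pe.pr {q : ℕ} {f : 𝓞 k → ℝ} (h : Pe q f) : Pr q f := h.1

theorem Pr.pe {q : ℕ} {f : 𝓞 k → ℝ} (h : Pr q f) (h1 : ∀ a, |f a| ≤ 1) : Pe q f := ⟨h, h1⟩

theorem Pr.mono {q q' : ℕ} {f : 𝓞 k → ℝ} (h : Pr q f) (hq : q ∣ q') : Pr q' f :=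
  fun a b e => h a b ((Nat.cast_dvd_cast hq).trans e)

theorem Pr.const (q : ℕ) (c : ℝ) : Pr q fun _ : 𝓞 k => c := fun _ _ _ => rfl

theorem Pr.mul {q : ℕ} {f g : 𝓞 k → ℝ} (hf : Pr q f) (hg : Pr q g) :
    Pr q fun a => f a * g a := fun a b e => congrArg₂ (· * ·) (hf a b e) (hg a b e)

theorem Pr.comp {q : ℕ} {f : 𝓞 k → ℝ} (hf : Pr q f) (F : ℝ → ℝ) :
    Pr q fun a => F (f a) := fun a b e => congrArg F (hf a b e)

theorem Pr.prod {ι : Type} {q : ℕ} {s : Finset ι} {f : ι → 𝓞 k → ℝ} (hf : ∀ i ∈ s, Pr q (f i)) :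
    Pr q fun a => ∏ i ∈ s, f i a := fun a b e => prod_congr rfl fun i hi => hf i hi a b e

theorem Pr.sum {ι : Type} {q : ℕ} {s : Finset ι} {f : ι → 𝓞 k → ℝ} (hf : ∀ i ∈ s, Pr q (f i)) :
    Pr q fun a => ∑ i ∈ s, f i a := fun a b e => sum_congr rfl fun i hi => hf i hi a b e

theorem Pr.shift {q : ℕ} {f : 𝓞 k → ℝ} (hf : Pr q f) (t : 𝓞 k) : Pr q fun a => f (a + t) :=
  fun a b e => hf _ _ (by rwa [add_sub_add_right_eq_sub])

theorem Pr.map {q : ℕ} {f : 𝓞 k' → ℝ} (hf : Pr q f) (β : 𝓞 k →+ 𝓞 k') :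
    Pr q fun a => f (β a) := fun a b ⟨c, e⟩ => hf _ _ ⟨β c, by
  rw [← map_sub, e, ← nsmul_eq_mul, map_nsmul, nsmul_eq_mul]⟩

theorem e_dvd_el {q : ℕ} {a b : Ix k → ℤ} :
    (q : 𝓞 k) ∣ el k a - el k b ↔ ∀ i, (q : ℤ) ∣ a i - b i := by
  rw [← map_sub]
  constructor
  · rintro ⟨c, e⟩ i
    have h : a - b = (q : ℤ) • (el k).symm c := (el k).injective (by
      rw [map_smul, LinearEquiv.apply_symm_apply, e, zsmul_eq_mul, Int.cast_natCast])
    exact ⟨(el k).symm c i, congrFun h i⟩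
  · intro h
    choose c hc using h
    have h : a - b = (q : ℤ) • c := funext hc
    exact ⟨el k c, by rw [h, map_smul, zsmul_eq_mul, Int.cast_natCast]⟩

theorem e_mem_cb {q : ℕ} {a : Ix k → ℤ} : a ∈ cb (Ix k) q ↔ ∀ i, 0 ≤ a i ∧ a i < q := by
  classical
  simp only [cb, Fintype.mem_piFinset, mem_Ico]

theorem e_card_cb (q : ℕ) : #(cb (Ix k) q) = q ^ dg k := by
  classical
  rw [cb, Fintype.card_piFinset, ← card_Ix]
  simp

theorem e_av_shift {q : ℕ} (hq : 0 < q) {f : 𝓞 k → ℝ} (hf : Pr q f) (t : 𝓞 k) :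
    av q (fun a => f (a + t)) = av q f := by
  have h0 : (0 : ℤ) < q := by exact_mod_cast hq
  obtain ⟨u, rfl⟩ := (el k).surjective t
  unfold av
  congr 1
  refine sum_nbij' (fun a i => (a i + u i) % q) (fun a i => (a i - u i) % q) ?_ ?_ ?_ ?_ ?_
  · intro a _
    exact e_mem_cb.2 fun i => ⟨Int.emod_nonneg _ h0.ne', Int.emod_lt_of_pos _ h0⟩
  · intro a _
    exact e_mem_cb.2 fun i => ⟨Int.emod_nonneg _ h0.ne', Int.emod_lt_of_pos _ h0⟩
  · intro a ha
    funext i
    have := e_mem_cb.1 ha i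
    rw [Int.emod_sub_emod, add_sub_cancel_right, Int.emod_eq_of_lt this.1 this.2]
  · intro a ha
    funext i
    have := e_mem_cb.1 ha i
    rw [Int.emod_add_emod, sub_add_cancel, Int.emod_eq_of_lt this.1 this.2]
  · intro a _
    change f (el k a + el k u) = _
    rw [← map_add]
    exact hf _ _ (e_dvd_el.2 fun i => Int.dvd_self_sub_of_emod_eq rfl)

theorem e_av_const {q : ℕ} (hq : 0 < q) (c : ℝ) : av q (fun _ : 𝓞 k => c) = c := by
  have : (q : ℝ) ^ dg k ≠ 0 := by positivity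
  rw [av, sum_const, e_card_cb, nsmul_eq_mul]
  push_cast
  field_simp

theorem e_av_add (q : ℕ) (f g : 𝓞 k → ℝ) : av q (fun a => f a + g a) = av q f + av q g := by
  simp only [av, sum_add_distrib, add_div]

theorem e_av_sub (q : ℕ) (f g : 𝓞 k → ℝ) : av q (fun a => f a - g a) = av q f - av q g := by
  simp only [av, sum_sub_distrib, sub_div]

theorem e_av_cmul (q : ℕ) (c : ℝ) (f : 𝓞 k → ℝ) : av q (fun a => c * f a) = c * av q f := by
  simp only [av, ← mul_sum, mul_div_assoc]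

theorem e_av_mulc (q : ℕ) (c : ℝ) (f : 𝓞 k → ℝ) : av q (fun a => f a * c) = av q f * c := by
  simp only [mul_comm _ c, e_av_cmul]

theorem e_av_sum {ι : Type} (q : ℕ) (s : Finset ι) (f : ι → 𝓞 k → ℝ) :
    av q (fun a => ∑ i ∈ s, f i a) = ∑ i ∈ s, av q (f i) := by
  simp only [av]
  rw [sum_comm, sum_div]

theorem e_av_mono (q : ℕ) {f g : 𝓞 k → ℝ} (h : ∀ a, f a ≤ g a) : av q f ≤ av q g :=
  div_le_div_of_nonneg_right (sum_le_sum fun _ _ => h _) (by positivity)

theorem e_av_nonneg (q : ℕ) {f : 𝓞 k → ℝ} (h : ∀ a, 0 ≤ f a) : 0 ≤ av q f :=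
  div_nonneg (sum_nonneg fun _ _ => h _) (by positivity)

theorem e_av_abs {q : ℕ} (hq : 0 < q) {f : 𝓞 k → ℝ} {B : ℝ} (h : ∀ a, |f a| ≤ B) :
    |av q f| ≤ B :=
  abs_le.2 ⟨(e_av_const (k := k) hq (-B)).ge.trans (e_av_mono q fun a => (abs_le.1 (h a)).1),
    (e_av_mono q fun a => (abs_le.1 (h a)).2).trans (e_av_const hq B).le⟩

theorem e_av_comm (q q' : ℕ) (F : 𝓞 k → 𝓞 k' → ℝ) :
    av q (fun a => av q' fun b => F a b) = av q' fun b => av q fun a => F a b := by
  simp only [av, ← sum_div]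
  rw [sum_comm, div_right_comm]

theorem e_av_dvd {q q' : ℕ} (hq : q ∣ q') (h0 : 0 < q') {f : 𝓞 k → ℝ} (hf : Pr q f) :
    av q' f = av q f := by
  have hq0 : 0 < q := Nat.pos_of_dvd_of_pos hq h0
  calc av q' f = av q fun r : 𝓞 k => av q' fun s => f (s + r) := by
        simp only [e_av_shift h0 (hf.mono hq), e_av_const hq0]
    _ = av q' fun s : 𝓞 k => av q fun r => f (r + s) := by
        rw [e_av_comm]; simp only [add_comm]
    _ = av q f := by simp only [e_av_shift hq0 hf, e_av_const h0]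

theorem e_av_mul {q q' : ℕ} (hq : 0 < q) (hq' : 0 < q') (h : q.Coprime q') {f g : 𝓞 k → ℝ}
    (hf : Pr q f) (hg : Pr q' g) : av (q * q') (fun a => f a * g a) = av q f * av q' g := by
  have h0 := Nat.mul_pos hq hq'
  obtain ⟨u, v, e⟩ := (Nat.isCoprime_iff_coprime.2 h).map (Int.castRingHom (𝓞 k))
  simp only [eq_intCast, Int.cast_natCast] at e
  have h1 : ∀ s, av (q * q') (fun a => f (s + a) * g a) = av (q * q') fun a => f a * g a := by
    intro s
    rw [← e_av_shift h0 ((hf.mono (dvd_mul_right _ _)).mul (hg.mono (dvd_mul_left _ _)))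
      (s * v * q')]
    congr 1
    funext a
    rw [hf (s + a) (a + s * v * q') ⟨s * u, by linear_combination (-s) * e⟩,
      hg a (a + s * v * q') ⟨-(s * v), by ring⟩]
  calc _ = av q fun s : 𝓞 k => av (q * q') fun a => f (s + a) * g a := by
        simp only [h1, e_av_const hq]
    _ = av (q * q') fun a : 𝓞 k => av q f * g a := by
        rw [e_av_comm]; simp only [e_av_mulc, e_av_shift hq hf]
    _ = _ := by rw [e_av_cmul, e_av_dvd (dvd_mul_left _ _) h0 hg]

theorem e_av_prod {s : Finset ℕ} (hs : ∀ p ∈ s, p.Prime) {f : ℕ → 𝓞 k → ℝ}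
    (hf : ∀ p ∈ s, Pr p (f p)) :
    av (∏ p ∈ s, p) (fun a => ∏ p ∈ s, f p a) = ∏ p ∈ s, av p (f p) := by
  induction s using Finset.induction_on with
  | empty => simpa using e_av_const (k := k) one_pos 1
  | insert p s hp ih =>
    have h1 : ∀ r ∈ s, r.Prime := fun r hr => hs r (mem_insert_of_mem hr)
    have h2 : ∀ r ∈ s, Pr r (f r) := fun r hr => hf r (mem_insert_of_mem hr)
    have h3 := hs p (mem_insert_self _ _)
    simp only [prod_insert hp]
    rw [e_av_mul h3.pos (prod_pos fun r hr => (h1 r hr).pos)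
      (Nat.Coprime.prod_right fun r hr => (Nat.coprime_primes h3 (h1 r hr)).2
        fun e => hp (e ▸ hr)) (hf p (mem_insert_self _ _))
      (Pr.prod fun r hr => (h2 r hr).mono (dvd_prod_of_mem _ hr)), ih h1 h2]

/-- a class function times a product of local functions -/
theorem e_av_mul_prod {W : ℕ} (hW : 0 < W) {s : Finset ℕ} (hs : ∀ p ∈ s, p.Prime ∧ ¬ p ∣ W)
    {g : 𝓞 k → ℝ} (hg : Pr W g) {f : ℕ → 𝓞 k → ℝ} (hf : ∀ p ∈ s, Pr p (f p)) :
    av (W * ∏ p ∈ s, p) (fun a => g a * ∏ p ∈ s, f p a) = av W g * ∏ p ∈ s, av p (f p) := by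
  rw [e_av_mul hW (prod_pos fun p hp => (hs p hp).1.pos)
    (Nat.Coprime.prod_right fun p hp => ((Nat.Prime.coprime_iff_not_dvd (hs p hp).1).2
      (hs p hp).2).symm) hg (Pr.prod fun p hp => (hf p hp).mono (dvd_prod_of_mem _ hp)),
    e_av_prod (fun p hp => (hs p hp).1) hf]

theorem e_av_map {q : ℕ} (hq : 0 < q) (β : 𝓞 k →+ 𝓞 k')
    (hβ : ∀ s, ∃ r, (q : 𝓞 k') ∣ β r - s) {f : 𝓞 k' → ℝ} (hf : Pr q f) :
    av q (fun a => f (β a)) = av q f := by
  have h1 : ∀ s, av q (fun a => f (s + β a)) = av q fun a => f (β a) := fun s => by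
    obtain ⟨r, hr⟩ := hβ s
    rw [← e_av_shift hq (hf.map β) r]
    congr 1
    funext a
    refine (hf _ _ ?_).symm
    rwa [map_add, show β a + β r - (s + β a) = β r - s by ring]
  calc _ = av q fun s : 𝓞 k' => av q fun a => f (s + β a) := by simp only [h1, e_av_const hq]
    _ = av q f := by rw [e_av_comm]; simp only [e_av_shift hq hf, e_av_const hq]

open scoped Classical in
/-- the indicator of a residue class -/
noncomputable def cl1 (W : ℕ) (a₀ a : 𝓞 k) : ℝ := if (W : 𝓞 k) ∣ a - a₀ then 1 else 0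

theorem cl1_pr (W : ℕ) (a₀ : 𝓞 k) : Pr W (cl1 W a₀) := fun a b h => by
  have : (W : 𝓞 k) ∣ a - a₀ ↔ (W : 𝓞 k) ∣ b - a₀ := by
    rw [show a - a₀ = (a - b) + (b - a₀) by ring]
    exact dvd_add_right h
  by_cases h : (W : 𝓞 k) ∣ b - a₀
  · rw [cl1, cl1, if_pos h, if_pos (this.2 h)]
  · rw [cl1, cl1, if_neg h, if_neg (mt this.1 h)]

theorem cl1_nonneg (W : ℕ) (a₀ a : 𝓞 k) : 0 ≤ cl1 W a₀ a := by
  unfold cl1; split_ifs <;> norm_num

theorem cl1_le (W : ℕ) (a₀ a : 𝓞 k) : cl1 W a₀ a ≤ 1 := by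
  unfold cl1; split_ifs <;> norm_num

theorem cl1_abs (W : ℕ) (a₀ a : 𝓞 k) : |cl1 W a₀ a| ≤ 1 := by
  rw [abs_of_nonneg (cl1_nonneg _ _ _)]; exact cl1_le _ _ _

theorem cl1_ne {W : ℕ} {a₀ a : 𝓞 k} : cl1 W a₀ a ≠ 0 ↔ (W : 𝓞 k) ∣ a - a₀ := by
  unfold cl1; split_ifs with h <;> simp [h]

theorem e_av_class {W : ℕ} (hW : 0 < W) (a₀ : 𝓞 k) : av W (cl1 W a₀) = 1 / (W : ℝ) ^ dg k := by
  rw [← e_av_shift hW (cl1_pr W a₀) a₀, av, sum_eq_single 0]
  · simp [cl1]
  · intro a ha h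
    refine not_not.1 fun e => h (funext fun i => ?_)
    have h1 := cl1_ne.1 e
    rw [add_sub_cancel_right, ← sub_zero (el k a), ← map_zero (el k), e_dvd_el] at h1
    have h2 := e_mem_cb.1 ha i
    have h3 := h1 i
    rw [Pi.zero_apply, sub_zero] at h3
    exact Int.eq_zero_of_dvd_of_nonneg_of_lt h2.1 h2.2 h3
  · intro h
    exact absurd (e_mem_cb.2 fun i => ⟨le_rfl, by exact_mod_cast hW⟩) h

open scoped Classical in
/-- the indicator of a subgroup -/
noncomputable def in1 (U : AddSubgroup (𝓞 k)) (a : 𝓞 k) : ℝ := if a ∈ U then 1 else 0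

theorem in1_nonneg (U : AddSubgroup (𝓞 k)) (a : 𝓞 k) : 0 ≤ in1 U a := by
  unfold in1; split_ifs <;> norm_num

theorem in1_pr {p : ℕ} {U : AddSubgroup (𝓞 k)} (hU : ∀ a, (p : 𝓞 k) * a ∈ U) : Pr p (in1 U) := by
  rintro a b ⟨c, e⟩
  have : a ∈ U ↔ b ∈ U := by
    rw [show a = p * c + b by rw [← e]; ring]
    exact U.add_mem_cancel_left (hU c)
  by_cases h : b ∈ U
  · rw [in1, in1, if_pos h, if_pos (this.2 h)]
  · rw [in1, in1, if_neg h, if_neg (mt this.1 h)]

theorem e_av_lt {p : ℕ} (hp : p.Prime) {U V : AddSubgroup (𝓞 k)} (hU : ∀ a, (p : 𝓞 k) * a ∈ U)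
    (h : U < V) : av p (in1 U) ≤ av p (in1 V) / p := by
  classical
  obtain ⟨v, hv, hv'⟩ := SetLike.exists_of_lt h
  have key : ∀ a, ∑ j ∈ range p, in1 U (a + (j : 𝓞 k) * v) ≤ in1 V a := fun a => by
    by_cases h0 : ∃ j ∈ range p, a + (j : 𝓞 k) * v ∈ U
    · obtain ⟨j, hj, hj'⟩ := h0
      have ha : a ∈ V := by
        have := V.sub_mem (h.le hj') (V.nsmul_mem hv j)
        rwa [nsmul_eq_mul, add_sub_cancel_right] at this
      rw [sum_eq_single j, in1, in1, if_pos hj', if_pos ha]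
      · intro i hi hij
        refine if_neg fun hi' => hv' ?_
        have hc : IsCoprime ((i : ℤ) - j) p := by
          refine ((Nat.prime_iff_prime_int.1 hp).coprime_iff_not_dvd.2 fun hd => hij ?_).symm
          have := Int.eq_zero_of_abs_lt_dvd hd (abs_lt.2
            ⟨by have := mem_range.1 hj; omega, by have := mem_range.1 hi; omega⟩)
          omega
        obtain ⟨x, y, e⟩ := hc
        have e' := congrArg (Int.cast : ℤ → 𝓞 k) e
        push_cast at e'
        have := U.add_mem (U.zsmul_mem (U.sub_mem hi' hj') x) (hU (y * v))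
        rw [zsmul_eq_mul] at this
        convert this using 1
        linear_combination (-v) * e'
      · exact fun h => absurd hj h
    · exact (sum_eq_zero fun j hj => if_neg fun e => h0 ⟨j, hj, e⟩).trans_le (in1_nonneg _ _)
  have h1 := e_av_mono p key
  rw [e_av_sum] at h1
  simp only [e_av_shift hp.pos (in1_pr hU), sum_const, card_range, nsmul_eq_mul] at h1
  rw [le_div_iff₀ (by exact_mod_cast hp.pos), mul_comm]
  exact h1

theorem e_av_top {p : ℕ} (hp : p.Prime) {U : AddSubgroup (𝓞 k)} (hU : ∀ a, (p : 𝓞 k) * a ∈ U)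
    (h : U ≠ ⊤) : av p (in1 U) ≤ 1 / p := by
  have h1 := e_av_lt hp hU (lt_top_iff_ne_top.2 h)
  have h2 : in1 (⊤ : AddSubgroup (𝓞 k)) = fun _ => 1 := funext fun a => if_pos trivial
  rwa [h2, e_av_const hp.pos] at h1

theorem e_av_two {p : ℕ} (hp : p.Prime) {U V : AddSubgroup (𝓞 k)} (hU : ∀ a, (p : 𝓞 k) * a ∈ U)
    (hV : ∀ a, (p : 𝓞 k) * a ∈ V) (h1 : U ≠ ⊤) (h2 : V ≠ ⊤) (h : U ≠ V) :
    av p (in1 (U ⊓ V)) ≤ 1 / (p : ℝ) ^ 2 := by
  have h0 : (0 : ℝ) < p := by exact_mod_cast hp.pos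
  have hI : ∀ a, (p : 𝓞 k) * a ∈ U ⊓ V := fun a => ⟨hU a, hV a⟩
  rw [sq, ← div_div]
  by_cases hUV : U ≤ V
  · exact (e_av_lt hp hI (inf_lt_right.2 fun e => h (le_antisymm hUV e))).trans
      (div_le_div_of_nonneg_right (e_av_top hp hV h2) h0.le)
  · exact (e_av_lt hp hI (inf_lt_left.2 hUV)).trans
      (div_le_div_of_nonneg_right (e_av_top hp hU h1) h0.le)

variable (k) in
/-- the primes above `p` -/
noncomputable def pO (p : ℕ) : Finset (Ideal (𝓞 k)) :=
  IsDedekindDomain.primesOverFinset (Ideal.span {(p : ℤ)}) (𝓞 k)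

theorem pO_card {p : ℕ} (hp : p.Prime) : #(pO k p) ≤ dg k := by
  have h := Nat.prime_iff_prime_int.1 hp
  have : (Ideal.span {(p : ℤ)}).IsMaximal := PrincipalIdealRing.isMaximal_of_irreducible h.irreducible
  exact Ideal.card_primesOverFinset_le_finrank (𝓞 k) ℚ k
    (by simpa only [ne_eq, Submodule.span_eq_bot, Set.mem_singleton_iff, forall_eq, Int.natCast_eq_zero] using hp.ne_zero)

theorem pO_mem {p : ℕ} (hp : p.Prime) {P : Ideal (𝓞 k)} :
    P ∈ pO k p ↔ P.IsPrime ∧ (p : 𝓞 k) ∈ P := by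
  have h := Nat.prime_iff_prime_int.1 hp
  have : (Ideal.span {(p : ℤ)}).IsMaximal := PrincipalIdealRing.isMaximal_of_irreducible h.irreducible
  rw [pO, IsDedekindDomain.mem_primesOverFinset_iff
    (by simpa only [ne_eq, Submodule.span_eq_bot, Set.mem_singleton_iff, forall_eq, Int.natCast_eq_zero] using hp.ne_zero)]
  refine and_congr_right fun hP => ?_
  rw [Ideal.liesOver_span_iff hP.ne_top h]
  simp

theorem e_mem_nm {p : ℕ} (hp : p.Prime) {P : Ideal (𝓞 k)} (hP : P ∈ pO k p) {x : 𝓞 k}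
    (hx : x ∈ P) : p ∣ (nm x).natAbs := by
  obtain ⟨h1, h2⟩ := (pO_mem hp).1 hP
  by_contra h
  obtain ⟨a, b, e⟩ := (Nat.isCoprime_iff_coprime.2 ((Nat.Prime.coprime_iff_not_dvd hp).2 h)).map
    (Int.castRingHom (𝓞 k))
  simp only [eq_intCast, Int.cast_natCast] at e
  have h3 : (((nm x).natAbs : ℕ) : 𝓞 k) ∈ P := by
    have := Ideal.absNorm_mem (Ideal.span {x})
    rw [Ideal.absNorm_span_singleton] at this
    exact (Ideal.span_singleton_le_iff_mem _).2 hx this
  exact h1.ne_top ((Ideal.eq_top_iff_one _).2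
    (e ▸ P.add_mem (P.mul_mem_left _ h2) (P.mul_mem_left _ h3)))

theorem un_pr (p : ℕ) : Pr p (un p : 𝓞 k → ℝ) := by
  rintro a b ⟨c, e⟩
  have : IsCoprime a (p : 𝓞 k) ↔ IsCoprime b (p : 𝓞 k) := by
    rw [show a = b + p * c by rw [← e]; ring]
    exact IsCoprime.add_mul_left_left_iff
  by_cases h : IsCoprime b (p : 𝓞 k)
  · rw [un, un, if_pos h, if_pos (this.2 h)]
  · rw [un, un, if_neg h, if_neg (mt this.1 h)]

theorem un_nonneg (p : ℕ) (a : 𝓞 k) : 0 ≤ un p a := by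
  unfold un; split_ifs <;> norm_num

theorem un_le (p : ℕ) (a : 𝓞 k) : un p a ≤ 1 := by
  unfold un; split_ifs <;> norm_num

theorem un_sq (p : ℕ) (a : 𝓞 k) : un p a ^ 2 = un p a := by
  unfold un; split_ifs <;> norm_num

theorem un_two {p : ℕ} (hp : Odd p) (a : 𝓞 k) : un p (2 * a) = un p a := by
  obtain ⟨j, rfl⟩ := hp
  by_cases h : IsCoprime a ((2 * j + 1 : ℕ) : 𝓞 k)
  · rw [un, un, if_pos h, if_pos (IsCoprime.mul_left ⟨-(j : 𝓞 k), 1, by push_cast; ring⟩ h)]
  · rw [un, un, if_neg h, if_neg fun h' => h h'.of_mul_left_right]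

theorem e_un_le {p : ℕ} (hp : p.Prime) (a : 𝓞 k) :
    1 - un p a ≤ ∑ P ∈ pO k p, in1 P.toAddSubgroup a := by
  unfold un
  split_ifs with h
  · rw [sub_self]
    exact sum_nonneg fun _ _ => in1_nonneg _ _
  · rw [← Ideal.isCoprime_span_singleton_iff, Ideal.isCoprime_iff_sup_eq] at h
    obtain ⟨M, hM, h1⟩ := Ideal.exists_le_maximal _ h
    have h2 : M ∈ pO k p := (pO_mem hp).2 ⟨hM.isPrime,
      h1 (Ideal.mem_sup_right (Ideal.mem_span_singleton_self _))⟩
    refine le_trans ?_ (single_le_sum (fun _ _ => in1_nonneg _ _) h2)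
    rw [in1, if_pos, sub_zero]
    exact h1 (Ideal.mem_sup_left (Ideal.mem_span_singleton_self _))

theorem e_pO_mul {p : ℕ} (hp : p.Prime) {P : Ideal (𝓞 k)} (hP : P ∈ pO k p) (a : 𝓞 k) :
    (p : 𝓞 k) * a ∈ P.toAddSubgroup := P.mul_mem_right _ ((pO_mem hp).1 hP).2

theorem e_pO_top {p : ℕ} (hp : p.Prime) {P : Ideal (𝓞 k)} (hP : P ∈ pO k p) :
    P.toAddSubgroup ≠ ⊤ := fun e => ((pO_mem hp).1 hP).1.ne_top ((Ideal.eq_top_iff_one _).2 (by
  have : (1 : 𝓞 k) ∈ P.toAddSubgroup := e ▸ AddSubgroup.mem_top _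
  exact this))

theorem Vp_le {p : ℕ} (hp : 0 < p) : Vp k p ≤ 1 :=
  (e_av_mono p (un_le p)).trans (e_av_const hp 1).le

theorem Vp_ge {p : ℕ} (hp : p.Prime) : 1 - Vp k p ≤ dg k / p := by
  have h1 := e_av_mono p (e_un_le (k := k) hp)
  rw [e_av_sub, e_av_const hp.pos, e_av_sum] at h1
  refine h1.trans ((sum_le_card_nsmul _ _ _ fun P hP =>
    e_av_top hp (e_pO_mul hp hP) (e_pO_top hp hP)).trans ?_)
  rw [nsmul_eq_mul, mul_one_div]
  exact div_le_div_of_nonneg_right (by exact_mod_cast pO_card hp) (by positivity)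

theorem Vp_half {p : ℕ} (hp : p.Prime) (h : 2 * dg k ≤ p) : 1 / 2 ≤ Vp k p := by
  have h0 : (0 : ℝ) < p := by exact_mod_cast hp.pos
  have h1 : (dg k : ℝ) / p ≤ 1 / 2 := by
    rw [div_le_div_iff₀ h0 two_pos]
    have : ((2 * dg k : ℕ) : ℝ) ≤ p := by exact_mod_cast h
    push_cast at this
    linarith only [this]
  linarith only [Vp_ge (k := k) hp, h1]

/-- the normalised indicator of the units modulo `p`, minus its mean -/
noncomputable def fp (p : ℕ) (a : 𝓞 k) : ℝ := un p a / Vp k p - 1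

theorem fp_pr (p : ℕ) : Pr p (fp p : 𝓞 k → ℝ) := (un_pr p).comp fun x => x / Vp k p - 1

theorem fp_two {p : ℕ} (hp : Odd p) (a : 𝓞 k) : fp p (2 * a) = fp p a := by
  rw [fp, un_two hp, fp]

theorem fp_abs {p : ℕ} (hp : p.Prime) (h : 2 * dg k ≤ p) (a : 𝓞 k) : |fp p a| ≤ 1 := by
  have h1 := Vp_half (k := k) hp h
  have h2 : un p a / Vp k p ≤ 2 := by
    rw [div_le_iff₀ (by linarith only [h1])]
    linarith only [un_le p a, h1]
  have h3 : 0 ≤ un p a / Vp k p := div_nonneg (un_nonneg _ _) (by linarith only [h1])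
  exact abs_le.2 ⟨by rw [fp]; linarith only [h3], by rw [fp]; linarith only [h2]⟩

theorem e_av_un {p : ℕ} (hp : p.Prime) (h : 2 * dg k ≤ p) :
    av p (fun a : 𝓞 k => un p a / Vp k p) = 1 := by
  have h1 := Vp_half (k := k) hp h
  simp only [div_eq_mul_inv, e_av_mulc]
  exact mul_inv_cancel₀ (by linarith only [h1] : Vp k p ≠ 0)

theorem e_av_fp {p : ℕ} (hp : p.Prime) (h : 2 * dg k ≤ p) : av p (fp p : 𝓞 k → ℝ) = 0 := by
  have := e_av_sub (k := k) p (fun a => un p a / Vp k p) fun _ => 1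
  rw [e_av_un hp h, e_av_const hp.pos, sub_self] at this
  exact this

theorem e_av_fp_sq {p : ℕ} (hp : p.Prime) (h : 2 * dg k ≤ p) :
    av p (fun a : 𝓞 k => fp p a * fp p a) ≤ 2 * dg k / p := by
  have h1 := Vp_half (k := k) hp h
  have h0 : Vp k p ≠ 0 := by linarith only [h1]
  have e : (fun a : 𝓞 k => fp p a * fp p a) =
      fun a => (1 / Vp k p - 2) * (un p a / Vp k p) + 1 := funext fun a => by
    have := un_sq p a
    rw [fp]
    field_simp
    linear_combination this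
  rw [e, e_av_add, e_av_cmul, e_av_un hp h, e_av_const hp.pos]
  have h2 : 1 / Vp k p - 1 ≤ 2 * (1 - Vp k p) := by
    rw [sub_le_iff_le_add, div_le_iff₀ (by linarith only [h1])]
    nlinarith only [Vp_le (k := k) hp.pos, h1]
  have h3 := Vp_ge (k := k) hp
  rw [mul_div_assoc]
  linarith only [h2, h3]

/-- the local densities as a sum over subsets -/
theorem e_mu (W q : ℕ) (a : 𝓞 k) :
    mu W q a = ∑ e ∈ (q.primeFactors.filter fun p => ¬ p ∣ W).powerset, ∏ p ∈ e, fp p a := by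
  rw [← prod_one_add, mu]
  exact prod_congr rfl fun p _ => by rw [fp]; ring

end Av

section CM

variable {K : Type} [Field K] [NumberField K] [IsCMField K]

theorem cO_cO (x : 𝓞 K) : cO (cO x) = x :=
  RingOfIntegers.ext (IsCMField.complexConj_apply_apply K (x : K))

theorem cO_add (x y : 𝓞 K) : cO (x + y) = cO x + cO y := map_add _ x y

theorem cO_sub (x y : 𝓞 K) : cO (x - y) = cO x - cO y := map_sub _ x y

theorem cO_mul (x y : 𝓞 K) : cO (x * y) = cO x * cO y := map_mul _ x y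

theorem cO_neg (x : 𝓞 K) : cO (-x) = -cO x := map_neg _ x

theorem cO_one : cO (1 : 𝓞 K) = 1 := map_one _

theorem cO_int (n : ℤ) : cO (n : 𝓞 K) = n := map_intCast _ n

theorem cO_nat (n : ℕ) : cO (n : 𝓞 K) = n := map_natCast _ n

theorem cO_emb (φ : K →+* ℂ) (x : 𝓞 K) : φ (cO x : 𝓞 K) = (starRingEnd ℂ) (φ x) :=
  IsCMField.complexEmbedding_complexConj K φ x

theorem cO_map (a : 𝓞 (maximalRealSubfield K)) :
    cO (algebraMap _ (𝓞 K) a) = algebraMap _ (𝓞 K) a := AlgEquiv.commutes _ a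

theorem e_inj : Function.Injective (algebraMap (𝓞 (maximalRealSubfield K)) (𝓞 K)) :=
  FaithfulSMul.algebraMap_injective _ _

theorem e_tr_ex (z w : 𝓞 K) : ∃ a : 𝓞 (maximalRealSubfield K),
    algebraMap _ (𝓞 K) a = -(z * cO w + cO z * w) :=
  (IsCMField.ringOfIntegersComplexConj_eq_self_iff K _).1 (by
    have h1 := cO_cO z
    have h2 := cO_cO w
    simp only [map_neg, map_add, map_mul, h1, h2]
    ring)

/-- the trace form -/
noncomputable def tr (z : 𝓞 K) : 𝓞 K →+ 𝓞 (maximalRealSubfield K) :=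
  AddMonoidHom.mk' (fun w => (e_tr_ex z w).choose) fun w w' => e_inj (by
    rw [map_add, (e_tr_ex z _).choose_spec, (e_tr_ex z _).choose_spec, (e_tr_ex z _).choose_spec,
      cO_add]
    ring)

theorem tr_spec (z w : 𝓞 K) : algebraMap _ (𝓞 K) (tr z w) = -(z * cO w + cO z * w) :=
  (e_tr_ex z w).choose_spec

variable (K) in
theorem e_theta : ∃ θ : 𝓞 K, θ ≠ 0 ∧ cO θ = -θ := by
  have h : ∃ x : 𝓞 K, cO x ≠ x := by
    by_contra h
    push Not at h
    refine IsCMField.complexConj_ne_one K (AlgEquiv.ext fun x => ?_)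
    obtain ⟨a, b, -, rfl⟩ := IsFractionRing.div_surjective (A := 𝓞 K) x
    have h1 : ∀ y : 𝓞 K, IsCMField.complexConj K (algebraMap _ K y) = algebraMap _ K y :=
      fun y => congrArg (algebraMap _ K) (h y)
    rw [map_div₀, h1, h1]
    rfl
  obtain ⟨x, hx⟩ := h
  exact ⟨x - cO x, sub_ne_zero.2 hx.symm, by rw [cO_sub, cO_cO, neg_sub]⟩

/-- an element of prime norm is prime to its conjugate -/
theorem e_cop {θ z : 𝓞 K} (hθ : cO θ = -θ) (hz : (nm z).natAbs.Prime)
    (h : ¬ (nm z).natAbs ∣ 2 * (nm θ).natAbs) : IsCoprime z (cO z) := by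
  have hN : Ideal.absNorm (Ideal.span {z}) = (nm z).natAbs := Ideal.absNorm_span_singleton z
  have h1 : (Ideal.span {z}).IsPrime :=
    Ideal.isPrime_of_irreducible_absNorm (hN ▸ hz.prime.irreducible)
  have hP : Ideal.span {z} ∈ pO K (nm z).natAbs :=
    (pO_mem hz).2 ⟨h1, hN ▸ Ideal.absNorm_mem _⟩
  have h0 : Ideal.span {z} ≠ ⊥ := fun e => hz.ne_zero (by rw [← hN, e, Ideal.absNorm_bot])
  have hM := h1.isMaximal h0
  by_contra hc
  rw [← Ideal.isCoprime_span_singleton_iff, Ideal.isCoprime_iff_sup_eq] at hc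
  have h2 : cO z ∈ Ideal.span {z} := by
    rw [hM.eq_of_le hc le_sup_left]
    exact Ideal.mem_sup_right (Ideal.mem_span_singleton_self _)
  have hc' : Nat.card (𝓞 K ⧸ Ideal.span {z}) = (nm z).natAbs := by
    rw [← hN, Ideal.absNorm_apply, Submodule.cardQuot_apply]
  have : Finite (𝓞 K ⧸ Ideal.span {z}) := Nat.finite_of_card_ne_zero (hc' ▸ hz.ne_zero)
  have := Fintype.ofFinite (𝓞 K ⧸ Ideal.span {z})
  obtain ⟨n, hn⟩ := ((ZMod.ringEquivOfPrime (𝓞 K ⧸ Ideal.span {z}) hz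
    (Nat.card_eq_fintype_card.symm.trans hc')).surjective.comp (ZMod.intCast_surjective (n := _)))
    (Ideal.Quotient.mk _ θ)
  have h3 : (n : 𝓞 K) - θ ∈ Ideal.span {z} := by
    rw [← Ideal.Quotient.eq, ← hn]
    simp only [map_intCast, Function.comp_apply]
  obtain ⟨c, hc⟩ := Ideal.mem_span_singleton.1 h3
  have h4 : (n : 𝓞 K) + θ ∈ Ideal.span {z} := by
    have := congrArg cO hc
    rw [cO_sub, cO_mul, cO_int, hθ, sub_neg_eq_add] at this
    exact this ▸ Ideal.mul_mem_right _ _ h2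
  have h5 : ((2 : ℤ) : 𝓞 K) * θ ∈ Ideal.span {z} := by
    convert Ideal.sub_mem _ h4 h3 using 1
    push_cast
    ring
  rcases h1.mem_or_mem h5 with h6 | h6
  · have := e_mem_nm hz hP h6
    rw [nm_intCast, Int.natAbs_pow] at this
    exact h ((hz.dvd_of_dvd_pow this).mul_right _)
  · exact h ((e_mem_nm hz hP h6).mul_left _)

theorem e_tr_two {z : 𝓞 K} (hz : IsCoprime z (cO z)) (a : 𝓞 (maximalRealSubfield K)) :
    ∃ w, tr z w = 2 * a := by
  obtain ⟨s, t, e⟩ := hz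
  have e' := congrArg cO e
  rw [cO_add, cO_mul, cO_mul, cO_cO, cO_one] at e'
  refine ⟨-(algebraMap _ (𝓞 K) a * (cO s + t)), e_inj ?_⟩
  rw [tr_spec, cO_neg, cO_mul, cO_add, cO_cO, cO_map, map_mul, map_ofNat]
  linear_combination (algebraMap _ (𝓞 K) a) * (e + e')

theorem e_tr_onto {z : 𝓞 K} (hz : IsCoprime z (cO z)) {q : ℕ} (hq : Odd q)
    (s : 𝓞 (maximalRealSubfield K)) : ∃ r, (q : 𝓞 (maximalRealSubfield K)) ∣ tr z r - s := by
  obtain ⟨j, rfl⟩ := hq
  obtain ⟨w, hw⟩ := e_tr_two hz (s * (j + 1))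
  exact ⟨w, s, by rw [hw]; push_cast; ring⟩

/-- means of pull-backs under the trace form -/
theorem e_av_tr {z : 𝓞 K} (hz : IsCoprime z (cO z)) {q : ℕ} (hq : Odd q)
    {f : 𝓞 (maximalRealSubfield K) → ℝ} (hf : Pr q f) : av q (fun w => f (tr z w)) = av q f :=
  e_av_map hq.pos _ (e_tr_onto hz hq) hf

theorem e_dg : dg K = 2 * dg (maximalRealSubfield K) := by
  rw [dg, ← Module.finrank_mul_finrank ℚ (maximalRealSubfield K) K,
    Algebra.IsQuadraticExtension.finrank_eq_two (maximalRealSubfield K) K, mul_comm]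

theorem e_mp_aux {z : 𝓞 K} (hz : IsCoprime z (cO z)) {p : ℕ} (hp : p.Prime) (h : 2 * dg K ≤ p)
    {B : ℝ} (hB : (dg K : ℝ) ^ 2 / p ^ 2 ≤ B)
    (hc : av p (fun w => (1 - un p w) * (1 - un p (tr z w))) ≤ B) :
    |av p fun w => un p w / Vp K p * fp p (tr z w)| ≤ 4 * B := by
  have hd := e_dg (K := K)
  have h0 := dg_pos (maximalRealSubfield K)
  have ho : Odd p := hp.odd_of_ne_two (by omega)
  have h1 := Vp_half (k := K) hp h
  have h2 := Vp_half (k := maximalRealSubfield K) hp (by omega)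
  have h3 := Vp_ge (k := K) hp
  have h4 : 1 - Vp (maximalRealSubfield K) p ≤ dg K / p := (Vp_ge hp).trans
    (div_le_div_of_nonneg_right (by exact_mod_cast (by omega)) (by positivity))
  have h5 := Vp_le (k := K) hp.pos
  have h6 := Vp_le (k := maximalRealSubfield K) hp.pos
  have h7 : 0 ≤ av p fun w => (1 - un p w) * (1 - un p (tr z w)) :=
    e_av_nonneg _ fun w => mul_nonneg (by linarith only [un_le p w]) (by linarith only [un_le p (tr z w)])
  have h8 : av p (fun w => un p (tr z w)) = Vp _ p := e_av_tr hz ho (un_pr p)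
  generalize hV : Vp K p = V at *
  generalize hV' : Vp (maximalRealSubfield K) p = V' at *
  have n1 : V ≠ 0 := by linarith only [h1]
  have n2 : V' ≠ 0 := by linarith only [h2]
  have e : (fun w => un p w / V * fp p (tr z w)) = fun w =>
      1 / (V * V') * ((1 - un p w) * (1 - un p (tr z w)) + un p (tr z w) + (1 - V') * un p w - 1) :=
    funext fun w => by
      rw [fp, hV']
      field_simp
      ring
  have hu : av p (fun w : 𝓞 K => un p w) = V := hV
  rw [e, e_av_cmul, e_av_sub, e_av_add, e_av_add, e_av_cmul, h8, hu, e_av_const hp.pos, abs_mul,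
    abs_of_nonneg (by positivity)]
  have h9 : (1 - V) * (1 - V') ≤ B := by
    refine le_trans ?_ hB
    rw [← div_pow, sq]
    exact mul_le_mul h3 h4 (by linarith only [h6]) (by positivity)
  have h10 : 0 ≤ (1 - V) * (1 - V') := mul_nonneg (by linarith only [h5]) (by linarith only [h6])
  refine mul_le_mul ?_ (abs_le.2 ⟨by linarith only [h7, h9], by linarith only [hc, h10]⟩) (abs_nonneg _) (by norm_num)
  rw [div_le_iff₀ (by positivity)]
  nlinarith only [h1, h2]

/-- the local factor at an arbitrary prime -/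
theorem e_mp1 {z : 𝓞 K} (hz : IsCoprime z (cO z)) {p : ℕ} (hp : p.Prime) (h : 2 * dg K ≤ p) :
    |av p fun w => un p w / Vp K p * fp p (tr z w)| ≤ 4 * (dg K / p) := by
  have h0 : (0 : ℝ) < p := by exact_mod_cast hp.pos
  have h1 : (dg K : ℝ) / p ≤ 1 := by
    rw [div_le_one h0]
    exact_mod_cast (by omega)
  refine e_mp_aux hz hp h ?_ (le_trans (e_av_mono p (g := fun w => 1 - un p w) fun w => ?_) ?_)
  · rw [← div_pow, sq]
    exact mul_le_of_le_one_left (by positivity) h1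
  · exact mul_le_of_le_one_right (by linarith only [un_le p w]) (by linarith only [un_nonneg p (tr z w)])
  · rw [e_av_sub, e_av_const hp.pos]
    exact Vp_ge hp

/-- the local factor at a prime that does not divide the norms of `z` and `θ` -/
theorem e_mp2 {θ z : 𝓞 K} (hθ : cO θ = -θ) (hz : IsCoprime z (cO z)) {p : ℕ} (hp : p.Prime)
    (h : 2 * dg K ≤ p) (h1 : ¬ p ∣ (nm θ).natAbs) (h2 : ¬ p ∣ (nm z).natAbs) :
    |av p fun w => un p w / Vp K p * fp p (tr z w)| ≤ 4 * ((dg K : ℝ) ^ 2 / p ^ 2) := by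
  have hd := e_dg (K := K)
  have h0 := dg_pos (maximalRealSubfield K)
  have ho : Odd p := hp.odd_of_ne_two (by omega)
  refine e_mp_aux hz hp h le_rfl (le_trans (e_av_mono p (g := fun w => ∑ P ∈ pO K p,
    ∑ P' ∈ pO (maximalRealSubfield K) p,
      in1 (P.toAddSubgroup ⊓ P'.toAddSubgroup.comap (tr z)) w) fun w => ?_) ?_)
  · refine (mul_le_mul (e_un_le hp w) (e_un_le hp (tr z w)) (by linarith only [un_le p (tr z w)])
      (sum_nonneg fun _ _ => in1_nonneg _ _)).trans_eq ?_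
    rw [sum_mul_sum]
    refine sum_congr rfl fun P _ => sum_congr rfl fun P' _ => ?_
    by_cases a1 : w ∈ P.toAddSubgroup
    · by_cases a2 : tr z w ∈ P'.toAddSubgroup
      · rw [in1, in1, in1, if_pos a1, if_pos a2, if_pos ⟨a1, a2⟩, mul_one]
      · rw [in1, in1, in1, if_neg a2, mul_zero, if_neg fun h => a2 h.2]
    · rw [in1, in1, in1, if_neg a1, zero_mul, if_neg fun h => a1 h.1]
  · rw [e_av_sum]
    simp only [e_av_sum]
    refine (sum_le_card_nsmul _ _ _ fun P hP => sum_le_card_nsmul _ _ (1 / (p : ℝ) ^ 2)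
      fun P' hP' => e_av_two hp (e_pO_mul hp hP) (fun a => ?_) (e_pO_top hp hP) (fun e => ?_)
        fun e => ?_).trans ?_
    · rw [AddSubgroup.mem_comap, ← nsmul_eq_mul, map_nsmul, nsmul_eq_mul]
      exact e_pO_mul hp hP' _
    · obtain ⟨r, c, hr⟩ := e_tr_onto hz ho 1
      have h3 : r ∈ P'.toAddSubgroup.comap (tr z) := e ▸ AddSubgroup.mem_top _
      have h4 := P'.toAddSubgroup.sub_mem h3 (e_pO_mul hp hP' c)
      rw [← hr, sub_sub_cancel] at h4
      exact ((pO_mem hp).1 hP').1.ne_top ((Ideal.eq_top_iff_one _).2 h4)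
    · have h3 : tr z (θ * z) = 0 := e_inj (by rw [tr_spec, cO_mul, hθ, map_zero]; ring)
      have h4 : θ * z ∈ P.toAddSubgroup := by
        rw [e, AddSubgroup.mem_comap, h3]
        exact zero_mem _
      rcases ((pO_mem hp).1 hP).1.mem_or_mem h4 with h5 | h5
      · exact h1 (e_mem_nm hp hP h5)
      · exact h2 (e_mem_nm hp hP h5)
    · have a1 : (#(pO K p) : ℝ) ≤ dg K := by exact_mod_cast pO_card hp
      have a2 : (#(pO (maximalRealSubfield K) p) : ℝ) ≤ dg K := by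
        exact_mod_cast (pO_card hp).trans (by omega)
      rw [nsmul_eq_mul, nsmul_eq_mul, ← mul_assoc, mul_one_div, sq (dg K : ℝ)]
      exact div_le_div_of_nonneg_right (mul_le_mul a1 a2 (by positivity) (by positivity))
        (by positivity)

end CM

end Pool.Agent.MP_a59382_lc.V3
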