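import Pool.Agent.MP_a59382_lc.Mg.V3_GC

attribute [-instance] IdemSemiring.toCanonicallyOrderedAdd AddQuantale.instAddLeftMono
  covariant_swap_mul_of_covariant_mul IsOrderedMonoid.toMulLeftMono RKHS.instFunLike
  IsOrderedCancelAddMonoid.toIsCancelAdd Quantale.instMulLeftMono IdemSemiring.toMulLeftMono
  AddQuantale.instAddRightMono instCoeOTCOfCoeOut Group.IsPerfect.subsingleton_of_isMulCommutative
  AlgHom.instNonUnitalAlgHomClassOfAlgHomClass Quantale.instMulRightMono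
  CanonicallyOrderedAdd.toMulLeftMono ContinuousSemilinearMapClass.toSemilinearMapClass
  instCoeHTCTOfCoeTailOfCoeHTC MonTypeEquivalenceMon.monMonoid instCoeTOfCoeDep littleWedderburn
  LieAdmissibleAlgebra.toModule NonarchimedeanRing.toIsTopologicalRing instCoeTCOfCoe
  Valued.toUniformSpace LeftPreLieAlgebra.toModule RightPreLieAlgebra.toModule
  Submodule.Quotient.addCommMonoid IsTopologicalTorsor.toContinuousSMul
  ContDiffMapSupportedInClass.toDFunLike instNonUnitalAlgHomClassOfNonUnitalAlgEquivClass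
  TotallySeparatedSpace.t2Space Unique.instSubsingleton CoalgHomClass.toSemilinearMapClass
  SemilinearIsometryClass.toSemilinearMapClass NonarchimedeanAddGroup.toIsTopologicalAddGroup
  CanonicallyOrderedMul.toMulLeftMono ProperSMul.toContinuousSMul Valued.isTopologicalDivisionRing
  TestFunctionClass.toDFunLike LieAdmissibleAlgebra.toSMulCommClass AlgHomClass.toRingHomClass
  DenselyNormedField.toNormedField CStarAlgebra.instOrderClosedTopology
  CommMonTypeEquivalenceCommMon.commMonCommMonoid Fintype.decidableForallFintype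
  continuousSub_of_discreteTopology instCoeHTCT instCoeHTC

/-! The theorem of Siegel and Walfisz for Hecke characters with an archimedean component. -/

namespace Pool.Agent.MP_a59382_lc.V3.Gx

open Finset NumberField Filter MP_48b1c3_nt.H54 MP_48b1c3_nt.H91
open scoped ContDiff Topology

variable {K : Type} [Field K] [NumberField K]

theorem gc_root_nm (α : 𝓞 K) : (nm α : ℂ) = ∏ φ : K →+* ℂ, φ α := by
  rw [Fintype.prod_equiv (RingHom.equivRatAlgHom K ℂ) (fun φ => φ α) (fun φ => φ α) fun _ => rfl,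
    ← Algebra.norm_eq_prod_embeddings ℚ ℂ (α : K), ← Algebra.coe_norm_int]
  simp

theorem gc_root_emb {w : (K →+* ℂ) → ℂ}
    (hw : ∀ φ, w (ComplexEmbedding.conjugate φ) = (starRingEnd ℂ) (w φ)) : ∃ x, emb x = w := by
  obtain ⟨c, hc⟩ : ∃ c : Ix K → ℂ, ∀ φ, w φ = ∑ i, c i * φ (RingOfIntegers.basis K i : 𝓞 K) :=
    ⟨(canonicalEmbedding.latticeBasis K).repr w, fun φ => by
      conv_lhs => rw [← (canonicalEmbedding.latticeBasis K).sum_repr w]
      simp only [canonicalEmbedding.latticeBasis_apply, integralBasis_apply, Finset.sum_apply, Pi.smul_apply, canonicalEmbedding.apply_at, smul_eq_mul]⟩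
  refine ⟨fun i => (c i).re, funext fun φ => ?_⟩
  have h := congrArg (starRingEnd ℂ) (hw φ)
  rw [Complex.conj_conj, hc, map_sum] at h
  simp only [map_mul, ComplexEmbedding.conjugate_coe_eq, Complex.conj_conj] at h
  simp only [emb, Complex.re_eq_add_conj, div_mul_eq_mul_div, add_mul, ← sum_div, sum_add_distrib]
  rw [h, ← hc, add_self_div_two]

theorem gc_root_floor (x : ℝ) : Tendsto (fun N : ℕ => (⌊x * N⌋ : ℝ) / N) atTop (𝓝 x) := by
  refine tendsto_of_tendsto_of_tendsto_of_le_of_le' (g := fun N : ℕ => x - 1 / N)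
    (by simpa only [one_div, sub_zero] using (tendsto_one_div_atTop_nhds_zero_nat (𝕜 := ℝ)).const_sub x)
    tendsto_const_nhds ?_ ?_ <;> filter_upwards [eventually_gt_atTop 0] with N hN <;>
    have h0 : (0 : ℝ) < N := Nat.cast_pos.2 hN
  · rw [le_div_iff₀ h0, sub_mul, one_div_mul_cancel h0.ne']
    exact (Int.sub_one_lt_floor _).le
  · rw [div_le_iff₀ h0]
    exact Int.floor_le _

theorem gc_root_lim {q d : ℕ} (hq : 0 < q) {t : (K →+* ℂ) → ℝ} {m : (K →+* ℂ) → ℤ}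
    (ht : ∑ φ, t φ = 0) (h : ∀ α : 𝓞 K, (q : 𝓞 K) ∣ α - 1 → 0 < nm α → ar t m α ^ d = 1)
    {w : (K →+* ℂ) → ℂ} (hw : ∀ φ, w (ComplexEmbedding.conjugate φ) = (starRingEnd ℂ) (w φ))
    (h0 : ∀ φ, w φ ≠ 0) (hp : 0 < (∏ φ, w φ).re) : arC t m w ^ d = 1 := by
  obtain ⟨x, rfl⟩ := gc_root_emb hw
  obtain ⟨α, hα⟩ : ∃ α : ℕ → 𝓞 K, α = fun N : ℕ => 1 + q * el K fun i => ⌊x i * N⌋ := ⟨_, rfl⟩
  have q0 : (0 : ℝ) < q := Nat.cast_pos.2 hq
  have h1 : ∀ φ : K →+* ℂ, Tendsto (fun N : ℕ => φ (α N) / ((q * N : ℝ) : ℂ)) atTop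
      (𝓝 (emb x φ)) := fun φ => by
    have h2 : Tendsto (fun N : ℕ => emb (pt N fun i => ⌊x i * N⌋) φ) atTop (𝓝 (emb x φ)) :=
      tendsto_finsetSum _ fun i _ => (gc_root_floor (x i)).ofReal.mul_const _
    have h3 := ((tendsto_one_div_atTop_nhds_zero_nat (𝕜 := ℝ)).ofReal.div_const (q : ℂ)).add h2
    rw [Complex.ofReal_zero, zero_div, zero_add] at h3
    refine h3.congr fun N => ?_
    have : (q : ℂ) ≠ 0 := Nat.cast_ne_zero.2 hq.ne'
    rw [emb_pt, hα]
    push_cast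
    simp only [map_add, map_one, map_mul, map_natCast]
    rw [add_div, mul_div_mul_left _ _ this, div_div, mul_comm]
  have h2 : Tendsto (fun N : ℕ => arC t m fun φ => φ (α N) / ((q * N : ℝ) : ℂ)) atTop
      (𝓝 (arC t m (emb x))) := tendsto_finsetProd _ fun φ _ => by
    have n0 := norm_ne_zero_iff.2 (h0 φ)
    exact (((h1 φ).norm.log n0).ofReal.const_mul _).cexp.mul (((h1 φ).div (h1 φ).norm.ofReal
      (Complex.ofReal_ne_zero.2 n0)).zpow₀ _ (.inl (div_ne_zero (h0 φ)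
        (Complex.ofReal_ne_zero.2 n0))))
  have h3 := (Complex.continuous_re.tendsto _).comp (tendsto_finsetProd univ fun φ _ => h1 φ)
  refine tendsto_nhds_unique (h2.pow d) (tendsto_const_nhds.congr' ?_)
  filter_upwards [h3.eventually_const_lt hp, eventually_gt_atTop 0] with N h4 hN
  have c0 : (0 : ℝ) < q * N := mul_pos q0 (Nat.cast_pos.2 hN)
  rw [Function.comp_apply, prod_div_distrib, ← gc_root_nm, prod_const, ← Complex.ofReal_pow,
    Complex.div_ofReal_re, Complex.intCast_re, div_pos_iff_of_pos_right (pow_pos c0 _),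
    Int.cast_pos] at h4
  rw [arC_div ht m c0 fun φ => (map_ne_zero φ).2 (gc_ne (mul_pos h4 h4)).1]
  exact (h _ (by simp only [hα, add_sub_cancel_left, dvd_mul_right]) h4).symm

theorem gc_root_pow {ι : Type} [Fintype ι] (t : ι → ℝ) (m : ι → ℤ) {w : ι → ℂ}
    (h0 : ∀ φ, w φ ≠ 0) (d : ℕ) : arC t m (w ^ d) = arC t m w ^ d := by
  induction d with
  | zero => simp only [arC, pow_zero, Pi.one_apply, norm_one, Real.log_one, Complex.ofReal_zero, mul_zero, Complex.exp_zero, Complex.ofReal_one, ne_eq, one_ne_zero, not_false_eq_true, div_self, one_zpow, mul_one, prod_const_one]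
  | succ d ih =>
    rw [pow_succ, arC_mul t m (z := w ^ d) (fun φ => pow_ne_zero d (h0 φ)) h0, ih, pow_succ]

theorem gc_root {q d : ℕ} (hq : 0 < q) (hd : 0 < d) {t : (K →+* ℂ) → ℝ} {m : (K →+* ℂ) → ℤ}
    (ht : ∑ φ, t φ = 0) (h : ∀ α : 𝓞 K, (q : 𝓞 K) ∣ α - 1 → 0 < nm α → ar t m α ^ d = 1)
    {z : (K →+* ℂ) → ℂ}
    (hz : ∀ φ, z (ComplexEmbedding.conjugate φ) = (starRingEnd ℂ) (z φ)) (h0 : ∀ φ, z φ ≠ 0)
    (hp : ∀ φ, ComplexEmbedding.IsReal φ → 0 < (z φ).re ∨ Even (m φ)) : arC t m z = 1 := by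
  classical
  have hi := ComplexEmbedding.involutive_conjugate K
  obtain ⟨L, h1, h2, h3⟩ : ∃ L : (K →+* ℂ) → ℂ,
      (∀ φ, L (ComplexEmbedding.conjugate φ) = (starRingEnd ℂ) (L φ)) ∧
      (∀ φ, ComplexEmbedding.IsReal φ → Complex.exp (L φ) = ‖z φ‖) ∧
      ∀ φ, ¬ ComplexEmbedding.IsReal φ → Complex.exp (L φ) = z φ := by
    refine ⟨fun φ => if ComplexEmbedding.IsReal φ then Real.log ‖z φ‖ else
      if (InfinitePlace.mk φ).embedding = φ then Complex.log (z φ) else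
      (starRingEnd ℂ) (Complex.log (z (ComplexEmbedding.conjugate φ))), fun φ => ?_,
      fun φ hφ => ?_, fun φ hφ => ?_⟩
    · by_cases hφ : ComplexEmbedding.IsReal φ
      · simp only [ComplexEmbedding.isReal_iff.1 hφ, if_pos hφ, Complex.conj_ofReal]
      · have hne : ComplexEmbedding.conjugate φ ≠ φ := mt ComplexEmbedding.isReal_iff.2 hφ
        simp only [ComplexEmbedding.isReal_conjugate_iff, if_neg hφ,
          InfinitePlace.mk_conjugate_eq, hi φ]
        rcases InfinitePlace.embedding_mk_eq φ with e | e <;> rw [e]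
        · rw [if_neg hne.symm, if_pos rfl]
        · rw [if_pos rfl, if_neg hne, Complex.conj_conj]
    · simp only [if_pos hφ]
      rw [← Complex.ofReal_exp, Real.exp_log (norm_pos_iff.2 (h0 φ))]
    · simp only [if_neg hφ]
      split_ifs
      · exact Complex.exp_log (h0 φ)
      · rw [Complex.exp_conj, Complex.exp_log (h0 _), hz, Complex.conj_conj]
  have h4 := gc_root_lim hq ht h (w := fun φ => Complex.exp (L φ / d))
    (fun φ => by rw [h1, ← Complex.exp_conj, map_div₀, map_natCast])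
    (fun φ => Complex.exp_ne_zero _) (by
      have e : (starRingEnd ℂ) (∑ φ, L φ / d) = ∑ φ, L φ / d := by
        rw [map_sum, ← Equiv.sum_comp hi.toPerm]
        exact sum_congr rfl fun φ _ => by
          rw [Function.Involutive.coe_toPerm, h1, map_div₀, map_natCast, Complex.conj_conj]
      rw [← Complex.exp_sum, ← Complex.conj_eq_iff_re.1 e, Complex.exp_ofReal_re]
      exact Real.exp_pos _)
  rw [← gc_root_pow t m fun φ => Complex.exp_ne_zero _] at h4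
  refine (prod_congr rfl fun φ _ => ?_).trans h4
  rw [Pi.pow_apply, ← Complex.exp_nat_mul, mul_div_cancel₀ _ (Nat.cast_ne_zero.2 hd.ne')]
  by_cases hφ : ComplexEmbedding.IsReal φ
  · have n0 : (‖z φ‖ : ℂ) ≠ 0 := Complex.ofReal_ne_zero.2 (norm_ne_zero_iff.2 (h0 φ))
    have e := hz φ
    rw [ComplexEmbedding.isReal_iff.1 hφ, eq_comm, Complex.conj_eq_iff_re] at e
    rw [h2 φ hφ, Complex.norm_real, norm_norm, div_self n0, one_zpow]
    congr 1
    rcases hp φ hφ with h5 | ⟨k, hk⟩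
    · rw [← e, Complex.norm_real, Real.norm_of_nonneg h5.le,
        div_self (Complex.ofReal_ne_zero.2 h5.ne'), one_zpow]
    · have e2 : z φ / ‖z φ‖ * (z φ / ‖z φ‖) = 1 := by
        rw [div_mul_div_comm, div_eq_one_iff_eq (mul_ne_zero n0 n0), ← e, Complex.norm_real,
          Real.norm_eq_abs, ← Complex.ofReal_mul, ← Complex.ofReal_mul, abs_mul_abs_self]
      rw [hk, zpow_add₀ (div_ne_zero (h0 φ) n0), ← mul_zpow, e2, one_zpow]
  · rw [h3 φ hφ]

theorem gc_root' {q d : ℕ} (hq : 0 < q) (hd : 0 < d) {t : (K →+* ℂ) → ℝ} {m : (K →+* ℂ) → ℤ}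
    (ht : ∑ φ, t φ = 0) (h : ∀ α : 𝓞 K, (q : 𝓞 K) ∣ α - 1 → 0 < nm α → ar t m α ^ d = 1)
    {α : K} (h0 : α ≠ 0)
    (hp : ∀ φ : K →+* ℂ, ComplexEmbedding.IsReal φ → 0 < (φ α).re ∨ Even (m φ)) :
    ar t m α = 1 :=
  gc_root hq hd ht h (fun φ => ComplexEmbedding.conjugate_coe_eq φ α)
    (fun φ => (map_ne_zero φ).2 h0) hp

variable (K) in
theorem gc_geo : ∃ G : Geo K, ∀ s x, G.Φ s x ≠ 0 → Real.exp (-5) ≤ |sN K x| := by
  classical
  obtain ⟨φ, p1, p2, p3, p4, p5, p6⟩ := exists_phi K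
  obtain ⟨R, hR⟩ := p5 (Real.exp 1)
  have b0 : ∀ u : ℝ, u ≤ -12 → geoB u = 0 := fun u hu => geo_B0 (Or.inl (by linarith))
  have c0 : ∀ u : ℝ, u ≤ -12 → geoC (u / 2) * (u / 2) = 0 := fun u hu => by
    rw [geo_C0 (by linarith only [hu]), zero_mul]
  have sW : ContDiff ℝ ∞ (geoL geoB) := geo_sm geoB.contDiff b0
  have sL : ContDiff ℝ ∞ (geoL fun u => geoC (u / 2) * (u / 2)) :=
    geo_sm ((geoC.contDiff.comp (contDiff_id.div_const 2)).mul (contDiff_id.div_const 2)) c0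
  have cN : Continuous (sN K) := sN_smooth.continuous
  set F : Bool → (Ix K → ℝ) → ℝ := fun s x => if 0 < sg s * sN K x then φ x else 0 with hF
  have key : ∀ v, Test v → ∀ s x, ((φ x * geoL geoB (sg s * sN K x) : ℝ) : ℂ) *
      v (geoL (fun u => geoC (u / 2) * (u / 2)) (sN K x ^ 2)) =
        F s x * v (Real.log |sN K x|) := by
    intro v hv s x
    by_cases h : 0 < sg s * sN K x
    · have h0 : sN K x ≠ 0 := right_ne_zero_of_mul h.ne'
      have e : Real.log (sN K x ^ 2) / 2 = Real.log |sN K x| := by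
        rw [Real.log_pow, Real.log_abs]
        push_cast
        ring
      simp only [hF, geoL, if_pos h, if_pos (pow_pos (abs_pos.2 h0) 2 |>.trans_eq (sq_abs _)), e]
      rw [geo_abs s h]
      by_cases hu : Real.log |sN K x| ∈ Set.Icc (-4 : ℝ) 0
      · rw [geo_B1 hu, geo_C1 ⟨hu.1, by linarith only [hu.2]⟩, mul_one, one_mul]
      · rw [hv.2 _ hu, mul_zero]
        by_cases h5 : Real.log |sN K x| ≤ -5 ∨ 1 ≤ Real.log |sN K x|
        · rw [geo_B0 h5]
          simp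
        · have : geoC (Real.log |sN K x|) = 1 := by
            refine geoC.one_of_mem_closedBall ?_
            change |Real.log (|sN K x|) - -2| ≤ (3 : ℝ)
            rw [not_or, not_le, not_le] at h5
            exact abs_le.2 ⟨by linarith only [h5.1], by linarith [h5.2]⟩
          rw [this, one_mul, hv.2 _ hu, mul_zero]
    · simp only [hF, geoL, if_neg h]
      simp only [mul_zero, Complex.ofReal_zero, Real.log_pow, Nat.cast_ofNat, ne_eq, OfNat.ofNat_ne_zero, not_false_eq_true, mul_div_cancel_left₀, zero_mul, Real.log_abs]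
  have hρ : ∀ s, ∃ ρ : ℝ, ∀ V, Test V →
      ∫ x, (F s x : ℂ) * V (Real.log |sN K x|) = ρ * ∫ u : ℝ, V u * Real.exp u := by
    intro s
    have f0 : ∀ x, F s x ≠ 0 → φ x ≠ 0 := fun x h hc => h (by simp only [hF, hc, ite_self])
    refine geo_sym (R := R) (card_Ix K ▸ dg_pos K) ?_
      (Real.measurable_log.comp cN.abs.measurable) (fun x => ?_) (fun c x hc => ?_)
      (fun c x hc h => ?_) fun x h hl => hR x (f0 x h) ?_
    · have ho : IsOpen {x | 0 < sg s * sN K x} :=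
        isOpen_lt continuous_const (continuous_const.mul cN)
      exact ContinuousOn.measurable_piecewise (f := φ) (g := fun _ => 0)
        (s := {x | 0 < sg s * sN K x})
        (p4.continuousOn.mono fun x (hx : 0 < sg s * sN K x) => right_ne_zero_of_mul hx.ne')
        continuousOn_const ho.measurableSet
    · simp only [hF]
      split_ifs
      · exact abs_le.2 ⟨by linarith [(p1 x).1], (p1 x).2⟩
      · simp
    · simp only [hF]
      rw [p3 c x hc, sN_smul, mul_left_comm]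
      simp only [mul_pos_iff_of_pos_left (pow_pos hc (dg K))]
    · have h0 : sN K x ≠ 0 := fun h0 => f0 x h (p2 x h0)
      rw [sN_smul, Real.log_abs, Real.log_abs, Real.log_mul (pow_pos hc _).ne' h0, Real.log_pow,
        card_Ix, add_comm]
    · have h0 : sN K x ≠ 0 := fun h0 => f0 x h (p2 x h0)
      exact (Real.log_le_iff_le_exp (abs_pos.2 h0)).1 (hl.trans zero_le_one)
  choose ρ hρ using hρ
  have pos : ∀ s x, φ x * geoL geoB (sg s * sN K x) ≠ 0 → 0 < sg s * sN K x := by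
    intro s x h
    by_contra hc
    exact right_ne_zero_of_mul h (if_neg hc)
  refine ⟨⟨fun s x => φ x * geoL geoB (sg s * sN K x),
    fun x => geoL (fun u => geoC (u / 2) * (u / 2)) (sN K x ^ 2), ρ, R, fun s => ?_,
    sL.comp (sN_smooth.pow 2), fun s x hx => ?_, fun s a H hH h => ?_, fun v hv H hH α hα => ?_,
    fun v hv s => ?_⟩, fun s x h => ?_⟩
  · refine contDiff_iff_contDiffAt.2 fun x => ?_
    by_cases h0 : sN K x = 0
    · refine (contDiffAt_const (c := (0 : ℝ))).congr_of_eventuallyEq ?_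
      have ho : IsOpen {y | sg s * sN K y < Real.exp (-12)} :=
        isOpen_lt (continuous_const.mul cN) continuous_const
      have hx : x ∈ {y | sg s * sN K y < Real.exp (-12)} := by
        change sg s * sN K x < _
        rw [h0, mul_zero]
        exact Real.exp_pos _
      filter_upwards [ho.mem_nhds hx] with y hy
      rw [geo_small b0 hy, mul_zero]
    · exact (p4.contDiffAt ((isOpen_ne_fun cN continuous_const).mem_nhds h0)).mul
        (sW.comp (contDiff_const.mul sN_smooth)).contDiffAt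
  · by_contra h
    have hp := pos s x h
    refine absurd (hR x (left_ne_zero_of_mul h) ?_) (not_le.2 hx)
    have h2 := right_ne_zero_of_mul h
    rw [geoL, if_pos hp, geo_abs s hp] at h2
    refine (Real.log_le_iff_le_exp (abs_pos.2 (right_ne_zero_of_mul hp.ne'))).1 ?_
    by_contra hc
    exact h2 (geo_B0 (Or.inr (not_le.1 hc).le))
  · have hp := pos s _ h
    rw [sN_pt, ← mul_div_assoc, div_pos_iff_of_pos_right (pow_pos hH _)] at hp
    exact_mod_cast hp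
  · have hs := ((Complex.hasSum_ofReal.2 (p6 α hα)).mul_right
      (v (Real.log (|(nm α : ℝ)| / H ^ dg K))))
    rw [Complex.ofReal_one, one_mul] at hs
    refine (congrArg (fun f => HasSum f _) (funext fun u => ?_)).mpr hs
    have hu : |nm ((u : 𝓞 K) * α)| = |nm α| := by
      rw [nm, map_mul, abs_mul, Int.isUnit_iff_abs_eq.1 (u.isUnit.map (Algebra.norm ℤ)), one_mul]
    have hu' : |(nm ((u : 𝓞 K) * α) : ℝ)| = |(nm α : ℝ)| := by exact_mod_cast hu
    have e : |sN K (pt H ((el K).symm (u * α)))| = |(nm α : ℝ)| / H ^ dg K := by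
      rw [sN_pt, LinearEquiv.apply_symm_apply, abs_div, hu', abs_of_pos (pow_pos hH _)]
    have h0 : sN K (pt H ((el K).symm (u * α))) ≠ 0 := by
      rw [← abs_pos, e]
      exact div_pos (abs_pos.2 (Int.cast_ne_zero.2 (Algebra.norm_ne_zero_iff.2 hα))) (pow_pos hH _)
    have e2 : φ (pt H ((el K).symm (u * α))) = φ (pt 1 ((el K).symm (u * α))) := by
      rw [← p3 H _ hH]
      congr 1
      funext i
      simp only [pt, Pi.smul_apply, smul_eq_mul, div_one]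
      exact mul_div_cancel₀ _ hH.ne'
    simp only [key v hv, e]
    rw [← sum_mul, Fintype.sum_bool]
    simp only [hF, e2, sg, if_true, Bool.false_eq_true, if_false, Int.cast_one, Int.cast_neg,
      one_mul, neg_mul, neg_pos]
    rcases h0.lt_or_gt with h | h
    · rw [if_neg (not_lt.2 h.le), if_pos h, Complex.ofReal_zero, zero_add]
    · rw [if_pos h, if_neg (not_lt.2 h.le), Complex.ofReal_zero, add_zero]
  · simp only [key v hv s]
    exact hρ s v hv
  · have hp := pos s x h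
    have h2 := right_ne_zero_of_mul h
    rw [geoL, if_pos hp, geo_abs s hp] at h2
    refine (Real.le_log_iff_exp_le (abs_pos.2 (right_ne_zero_of_mul hp.ne'))).1 ?_
    by_contra hc
    exact h2 (geo_B0 (Or.inl (not_le.1 hc).le))

theorem gc_nice_emb0 {x : Ix K → ℝ} (w : InfinitePlace K) (h : emb x w.embedding = 0) :
    sN K x = 0 := by
  classical
  rw [← abs_eq_zero, abs_sN, mixedEmbedding.norm_eq_zero_iff]
  refine ⟨w, ?_⟩
  rw [Module.Basis.equivFun_symm_apply]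
  rcases w.isReal_or_isComplex with hw | hw
  · rw [mixedEmbedding.normAtPlace_apply_of_isReal hw, norm_eq_zero, ← Complex.ofReal_eq_zero,
      ← h, emb, Prod.fst_sum, Finset.sum_apply, Complex.ofReal_sum]
    refine sum_congr rfl fun i _ => ?_
    rw [Prod.smul_fst, Pi.smul_apply, smul_eq_mul, Complex.ofReal_mul,
      mixedEmbedding.latticeBasis_apply, mixedEmbedding.mixedEmbedding_apply_isReal,
      InfinitePlace.embedding_of_isReal_apply, integralBasis_apply]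
  · rw [mixedEmbedding.normAtPlace_apply_of_isComplex hw, norm_eq_zero, ← h, emb, Prod.snd_sum,
      Finset.sum_apply]
    refine sum_congr rfl fun i _ => ?_
    rw [Prod.smul_snd, Pi.smul_apply, Complex.real_smul, mixedEmbedding.latticeBasis_apply,
      mixedEmbedding.mixedEmbedding_apply_isComplex, integralBasis_apply]

theorem gc_nice_ne {x : Ix K → ℝ} (hx : sN K x ≠ 0) (φ : K →+* ℂ) : emb x φ ≠ 0 := by
  intro h
  refine hx (gc_nice_emb0 (InfinitePlace.mk φ) ?_)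
  rcases InfinitePlace.embedding_mk_eq φ with e | e
  · rw [e, h]
  · rw [e, ← map_zero (starRingEnd ℂ), ← h, emb, emb, map_sum]
    refine sum_congr rfl fun i _ => ?_
    rw [map_mul, Complex.conj_ofReal, ComplexEmbedding.conjugate_coe_eq]

theorem gc_nice_sm (φ : K →+* ℂ) : ContDiff ℝ ∞ fun x : Ix K → ℝ => emb x φ :=
  ContDiff.sum fun i _ =>
    (Complex.ofRealCLM.contDiff.comp (contDiff_apply ℝ ℝ i)).mul contDiff_const

theorem gc_nice_zpow {E : Type} [NormedAddCommGroup E] [NormedSpace ℝ E] {q : E → ℂ} {x : E}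
    (h : ContDiffAt ℝ ∞ q x) (h0 : q x ≠ 0) (m : ℤ) : ContDiffAt ℝ ∞ (fun y => q y ^ m) x := by
  cases m with
  | ofNat n => simpa only [Int.ofNat_eq_natCast, zpow_natCast] using h.pow n
  | negSucc n =>
    simp only [zpow_negSucc]
    exact (h.pow (n + 1)).inv (pow_ne_zero _ h0)

theorem gc_nice_p {x : Ix K → ℝ} (hx : sN K x ≠ 0) (φ : K →+* ℂ) :
    ContDiffAt ℝ ∞ (fun y : Ix K → ℝ => ((Real.log ‖emb y φ‖ : ℝ) : ℂ)) x :=
  Complex.ofRealCLM.contDiff.contDiffAt.comp x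
    (((gc_nice_sm φ).contDiffAt.norm ℂ (gc_nice_ne hx φ)).log
      (norm_ne_zero_iff.2 (gc_nice_ne hx φ)))

theorem gc_nice_q {x : Ix K → ℝ} (hx : sN K x ≠ 0) (φ : K →+* ℂ) :
    ContDiffAt ℝ ∞ (fun y : Ix K → ℝ => emb y φ / (‖emb y φ‖ : ℝ)) x := by
  have h : ContDiffAt ℝ ∞ (fun y : Ix K → ℝ => ((‖emb y φ‖ : ℝ) : ℂ)) x :=
    Complex.ofRealCLM.contDiff.contDiffAt.comp x
      ((gc_nice_sm φ).contDiffAt.norm ℂ (gc_nice_ne hx φ))
  simp only [div_eq_mul_inv]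
  exact (gc_nice_sm φ).contDiffAt.mul
    (h.inv (Complex.ofReal_ne_zero.2 (norm_ne_zero_iff.2 (gc_nice_ne hx φ))))

theorem gc_nice_q1 {z : ℂ} (hz : z ≠ 0) : ‖z / (‖z‖ : ℝ)‖ = 1 := by
  rw [norm_div, Complex.norm_real, norm_norm, div_self (norm_ne_zero_iff.2 hz)]

theorem gc_nice_a {x : Ix K → ℝ} (hx : sN K x ≠ 0) (t : (K →+* ℂ) → ℝ) (m : (K →+* ℂ) → ℤ) :
    ContDiffAt ℝ ∞ (fun y : Ix K → ℝ => arC t m (emb y)) x :=
  contDiffAt_prod fun φ _ => (contDiffAt_const.mul (gc_nice_p hx φ)).cexp.mul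
    (gc_nice_zpow (gc_nice_q hx φ)
      (norm_ne_zero_iff.1 ((gc_nice_q1 (gc_nice_ne hx φ)).trans_ne one_ne_zero)) _)

theorem gc_nice_fac {E : Type} [NormedAddCommGroup E] [NormedSpace ℝ E] {r : E → ℝ} {q : E → ℂ}
    {p' q' : E →L[ℝ] ℂ} {x : E} (hp : HasFDerivAt (fun y => (r y : ℂ)) p' x)
    (hq : HasFDerivAt q q' x) (h1 : ‖q x‖ = 1) (t : ℝ) (m : ℤ) :
    ‖Complex.exp (Complex.I * t * r x) * q x ^ m‖ = 1 ∧
    ∃ D : E →L[ℝ] ℂ, HasFDerivAt (fun y => Complex.exp (Complex.I * t * r y) * q y ^ m) D x ∧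
      ‖D‖ ≤ |t| * ‖p'‖ + |(m : ℝ)| * ‖q'‖ := by
  have h0 : q x ≠ 0 := norm_ne_zero_iff.1 (h1.trans_ne one_ne_zero)
  have e : ‖Complex.exp (Complex.I * t * r x)‖ = 1 := by
    rw [mul_assoc, ← Complex.ofReal_mul, mul_comm, Complex.norm_exp_ofReal_mul_I]
  have e2 : ∀ n : ℤ, ‖q x ^ n‖ = 1 := fun n => by rw [norm_zpow, h1, one_zpow]
  refine ⟨by rw [norm_mul, e, e2, mul_one], _, (hp.const_mul (Complex.I * t)).cexp.mul
    ((hasDerivAt_zpow m (q x) (Or.inl h0)).comp_hasFDerivAt x hq), ?_⟩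
  refine (norm_add_le _ _).trans ?_
  simp only [norm_smul, norm_mul, e, e2, Complex.norm_I, Complex.norm_real,
    Real.norm_eq_abs, Complex.norm_intCast, one_mul, mul_one]
  exact (add_comm _ _).le

theorem gc_nice_bd {E : Type} [NormedAddCommGroup E] [NormedSpace ℝ E] {U S : Set E}
    (hU : IsOpen U) (hS : IsCompact S) (hSU : S ⊆ U) {a : E → ℂ} (ha : ContDiffOn ℝ ∞ a U)
    (k : ℕ) : ∃ A : ℝ, 0 < A ∧ ∀ i ≤ k, ∀ x ∈ S, ‖iteratedFDeriv ℝ i a x‖ ≤ A := by
  have h : ∀ i : ℕ, ∃ C, ∀ x ∈ S, ‖iteratedFDeriv ℝ i a x‖ ≤ C := fun i =>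
    hS.exists_bound_of_continuousOn
      (((ha.continuousOn_iteratedFDerivWithin (by exact_mod_cast le_top) hU.uniqueDiffOn).congr
        (iteratedFDerivWithin_of_isOpen i hU).symm).mono hSU)
  choose C hC using h
  have h0 : 0 ≤ ∑ i ∈ range (k + 1), |C i| := sum_nonneg fun _ _ => abs_nonneg _
  refine ⟨1 + ∑ i ∈ range (k + 1), |C i|, by linarith, fun i hi x hx => ?_⟩
  have := single_le_sum (f := fun i => |C i|) (fun _ _ => abs_nonneg _)
    (mem_range.2 (Nat.lt_succ_of_le hi))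
  linarith only [hC i x hx, le_abs_self (C i), this]

theorem gc_nice_mul {ι : Type} [Fintype ι] {U S : Set (ι → ℝ)} (hU : IsOpen U) (hS : IsClosed S)
    (hSU : S ⊆ U) {a g : (ι → ℝ) → ℂ} (ha : ContDiffOn ℝ ∞ a U) {R A B : ℝ} {k : ℕ}
    (hg : Nice R k B g) (h0 : ∀ x, x ∉ S → g x = 0) (hA : 0 ≤ A)
    (hb : ∀ i ≤ k, ∀ x ∈ S, ‖x‖ ≤ R → ‖iteratedFDeriv ℝ i a x‖ ≤ A) :
    Nice R k (2 ^ k * A * B) fun x => a x * g x := by
  have hB : 0 ≤ B := (norm_nonneg _).trans (hg.3 0 (Nat.zero_le _) 0)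
  have ev : ∀ x, x ∉ S → (fun x => a x * g x) =ᶠ[𝓝 x] fun _ => 0 := fun x hx => by
    filter_upwards [hS.isOpen_compl.mem_nhds hx] with y hy
    rw [h0 y hy, mul_zero]
  have hz : ∀ x, R < ‖x‖ → a x * g x = 0 := fun x hx => by rw [hg.2 x hx, mul_zero]
  refine ⟨contDiff_iff_contDiffAt.2 fun x => ?_, hz, fun j hj x => ?_⟩
  · by_cases hx : x ∈ S
    · exact (ha.contDiffAt (hU.mem_nhds (hSU hx))).mul hg.1.contDiffAt
    · exact contDiffAt_const.congr_of_eventuallyEq (ev x hx)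
  by_cases hR : R < ‖x‖
  · rw [geo_van hz j hR, norm_zero]
    positivity
  by_cases hx : x ∈ S
  · rw [← iteratedFDerivWithin_of_isOpen j hU (hSU hx)]
    refine (norm_iteratedFDerivWithin_mul_le ha hg.1.contDiffOn hU.uniqueDiffOn (hSU hx)
      (by exact_mod_cast le_top)).trans ?_
    calc _ ≤ ∑ i ∈ range (j + 1), (j.choose i : ℝ) * A * B := by
          refine sum_le_sum fun i hi => ?_
          rw [iteratedFDerivWithin_of_isOpen _ hU (hSU hx),
            iteratedFDerivWithin_of_isOpen _ hU (hSU hx)]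
          have e1 := hb i ((Nat.le_of_lt_succ (mem_range.1 hi)).trans hj) x hx (not_lt.1 hR)
          have e2 := hg.3 (j - i) ((Nat.sub_le _ _).trans hj) x
          gcongr
      _ = 2 ^ j * A * B := by
          rw [← sum_mul, ← sum_mul, ← Nat.cast_sum, Nat.sum_range_choose]
          push_cast
          rfl
      _ ≤ _ := by
          have : (2 : ℝ) ^ j ≤ 2 ^ k := pow_le_pow_right₀ one_le_two hj
          gcongr
  · rw [((ev x hx).iteratedFDeriv ℝ j).eq_of_nhds, iteratedFDeriv_fun_zero, Pi.zero_apply,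
      norm_zero]
    positivity

theorem gc_nice (G : Geo K) (hG : ∀ s x, G.Φ s x ≠ 0 → Real.exp (-5) ≤ |sN K x|) :
    (∃ C : ℝ, 0 < C ∧ ∀ (T : ℝ) (t : (K →+* ℂ) → ℝ) (m : (K →+* ℂ) → ℤ) (v : ℝ → ℂ) (B : ℝ)
      (s : Bool), 1 ≤ T → Sz T t m → Test v → Db 1 B v →
        Nice G.R 1 (C * T * B) fun x => arC t m (emb x) * G.g v s x) ∧
    ∀ (t : (K →+* ℂ) → ℝ) (m : (K →+* ℂ) → ℤ) (k : ℕ), ∃ C : ℝ, 0 < C ∧
      ∀ (v : ℝ → ℂ) (B : ℝ) (s : Bool), Test v → Db k B v →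
        Nice G.R k (C * B) fun x => arC t m (emb x) * G.g v s x := by
  classical
  have cN : Continuous (sN K) := sN_smooth.continuous
  have hU : IsOpen {x | sN K x ≠ 0} := isOpen_ne_fun cN continuous_const
  have hS : IsClosed {x | Real.exp (-5) ≤ |sN K x|} := isClosed_le continuous_const cN.abs
  have hSU : {x | Real.exp (-5) ≤ |sN K x|} ⊆ {x | sN K x ≠ 0} := fun x hx =>
    abs_pos.1 ((Real.exp_pos _).trans_le hx)
  have hC : IsCompact ({x | Real.exp (-5) ≤ |sN K x|} ∩ Metric.closedBall 0 G.R) :=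
    (isCompact_closedBall _ _).inter_left hS
  have hCU := (Set.inter_subset_left (t := Metric.closedBall 0 G.R)).trans hSU
  have h0 : ∀ v s x, x ∉ {x | Real.exp (-5) ≤ |sN K x|} → G.g v s x = 0 := fun v s x hx => by
    have : G.Φ s x = 0 := by_contra fun h => hx (hG s x h)
    rw [Geo.g, this, Complex.ofReal_zero, zero_mul]
  have ha : ∀ t m, ContDiffOn ℝ ∞ (fun y : Ix K → ℝ => arC t m (emb y)) {x | sN K x ≠ 0} :=
    fun t m x hx => (gc_nice_a hx t m).contDiffWithinAt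
  refine ⟨?_, fun t m k => ?_⟩
  · obtain ⟨C, c0, hc⟩ := G.nice 1
    choose P p0 hP using fun φ : K →+* ℂ =>
      gc_nice_bd hU hC hCU (fun x hx => (gc_nice_p hx φ).contDiffWithinAt) 1
    choose Q q0 hQ using fun φ : K →+* ℂ =>
      gc_nice_bd hU hC hCU (fun x hx => (gc_nice_q hx φ).contDiffWithinAt) 1
    have s0 : 0 ≤ ∑ φ, (P φ + Q φ) := sum_nonneg fun φ _ => (add_pos (p0 φ) (q0 φ)).le
    refine ⟨2 ^ 1 * (1 + ∑ φ, (P φ + Q φ)) * C, by positivity, fun T t m v B s hT hs hv hB => ?_⟩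
    have T0 : 0 ≤ T := zero_le_one.trans hT
    rw [show 2 ^ 1 * (1 + ∑ φ, (P φ + Q φ)) * C * T * B =
      2 ^ 1 * ((1 + ∑ φ, (P φ + Q φ)) * T) * (C * B) by ring]
    refine gc_nice_mul hU hS hSU (ha t m) (hc v B s hv hB) (h0 v s) (by positivity)
      fun i hi x hx hR => ?_
    have hx' := hSU hx
    have hm : x ∈ {x | Real.exp (-5) ≤ |sN K x|} ∩ Metric.closedBall 0 G.R :=
      ⟨hx, mem_closedBall_zero_iff.2 hR⟩
    rcases Nat.le_one_iff_eq_zero_or_eq_one.1 hi with rfl | rfl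
    · rw [norm_iteratedFDeriv_zero, norm_arC t m (gc_nice_ne hx')]
      nlinarith only [s0, hT]
    · have key := fun φ : K →+* ℂ => gc_nice_fac
        ((gc_nice_p hx' φ).differentiableAt (by simp)).hasFDerivAt
        ((gc_nice_q hx' φ).differentiableAt (by simp)).hasFDerivAt
        (gc_nice_q1 (gc_nice_ne hx' φ)) (t φ) (m φ)
      choose n1 D hD hD' using key
      have hd := HasFDerivAt.finsetProd (u := univ) fun φ _ => hD φ
      rw [norm_iteratedFDeriv_one]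
      refine (congrArg norm hd.fderiv).le.trans ((norm_sum_le _ _).trans ?_)
      calc _ ≤ ∑ φ, (P φ + Q φ) * T := by
            refine sum_le_sum fun φ _ => ?_
            rw [norm_smul, norm_prod, prod_eq_one fun j _ => n1 j, one_mul]
            have e1 := hP φ 1 le_rfl x hm
            have e2 := hQ φ 1 le_rfl x hm
            rw [norm_iteratedFDeriv_one] at e1 e2
            refine (hD' φ).trans ?_
            rw [add_mul, mul_comm (P φ), mul_comm (Q φ)]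
            exact add_le_add (mul_le_mul (hs φ).1 e1 (norm_nonneg _) T0)
              (mul_le_mul (hs φ).2 e2 (norm_nonneg _) T0)
        _ ≤ _ := by
            rw [← sum_mul]
            linarith only [hT]
  · obtain ⟨C, c0, hc⟩ := G.nice k
    obtain ⟨A, a0, hA⟩ := gc_nice_bd hU hC hCU (ha t m) k
    refine ⟨2 ^ k * A * C, by positivity, fun v B s hv hB => ?_⟩
    rw [mul_assoc _ C]
    exact gc_nice_mul hU hS hSU (ha t m) (hc v B s hv hB) (h0 v s) a0.le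
      fun i hi x hx hR => hA i hi x ⟨hx, mem_closedBall_zero_iff.2 hR⟩

variable (K) in
theorem pf_ti : ∃ C : ℝ, 0 < C ∧ ∀ (q : ℕ) (f : Ideal (𝓞 K) → ℂ), PF q f →
    TI (dg K) C q (kap f) (push f) := by
  obtain ⟨C₀, p₀, h₀⟩ := main_term K 0
  obtain ⟨C₁, p₁, h₁⟩ := main_term K 1
  obtain ⟨C₂, p₂, h₂⟩ := norm_kap_le K
  refine ⟨C₀ + C₁ + C₂, by positivity, fun q f hf => ⟨(h₂ q f hf).trans (by linarith),
    fun s hs => push_summable hf.le hs, fun v B y hv hB hy => ?_, fun v B y hv hB hy => ?_,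
    fun k => ?_⟩⟩
  · have B0 : 0 ≤ B := (norm_nonneg _).trans (hB 0 le_rfl 0)
    have := h₀ q f v B y hf hv hB hy
    rw [pow_zero, mul_one, Nat.cast_zero, zero_div, sub_zero, Real.rpow_one] at this
    refine this.trans ?_
    gcongr
    linarith
  · have B0 : 0 ≤ B := (norm_nonneg _).trans (hB 0 zero_le_one 0)
    have := h₁ q f v B y hf hv hB hy
    rw [pow_one, Nat.cast_one] at this
    refine this.trans ?_
    gcongr
    linarith only [p₀, p₂]
  · obtain ⟨C, p, h⟩ := main_term K k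
    have q0 : (0 : ℝ) < q := by exact_mod_cast hf.pos
    refine ⟨C * q ^ k, by positivity, fun v B y hv hB hy => (h q f v B y hf hv hB hy).trans_eq ?_⟩
    ring

/-- periodic models of `f` divided by the archimedean character -/
def gc_ti_Mod (N : ℕ) (t : (K →+* ℂ) → ℝ) (m : (K →+* ℂ) → ℤ) (f : Ideal (𝓞 K) → ℂ)
    (η : ClassGroup (𝓞 K) → Bool → (Ix K → ℤ) → ℂ) : Prop :=
  ∀ c s, Pd N (η c s) ∧ ∀ a, 0 < sg s * nm (el K a) →
    η c s a * ar t m (el K a : 𝓞 K) = lift f (rep c) (el K a)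

/-- the coefficient of the main term -/
noncomputable def gc_ti_Lam (G : Geo K) (N : ℕ) (t : (K →+* ℂ) → ℝ) (m : (K →+* ℂ) → ℤ)
    (η : ClassGroup (𝓞 K) → Bool → (Ix K → ℤ) → ℂ) (v : ℝ → ℂ) : ℂ :=
  ∑ c, ∑ s, Ideal.absNorm (rep c) * mean N (η c s) * ∫ x, arC t m (emb x) * G.g v s x

theorem gc_ti_nz {s : Bool} {x : 𝓞 K} (hx : 0 < sg s * nm x) : x ≠ 0 := fun h0 => by
  simp [h0] at hx

theorem gc_ti_per {q : ℕ} {t : (K →+* ℂ) → ℝ} {m : (K →+* ℂ) → ℤ} {F : Ideal (𝓞 K) → ℂ}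
    (h : GC q t m F) (c : ClassGroup (𝓞 K)) (s : Bool) : ∃ η : (Ix K → ℤ) → ℂ,
      Pd (q * BB K) η ∧ ∀ a, 0 < sg s * nm (el K a) →
        η a * ar t m (el K a : 𝓞 K) = lift F (rep c) (el K a) := by
  classical
  set N : 𝓞 K := ((q * Ideal.absNorm (rep c) : ℕ) : 𝓞 K) with hN
  let P : 𝓞 K → 𝓞 K → Prop := fun x α => N ∣ α - x ∧ 0 < sg s * nm α
  let E : (𝓞 K → Prop) → ℂ := fun p =>
    if h : ∃ α, p α then lift F (rep c) h.choose / ar t m (h.choose : 𝓞 K) else 0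
  refine ⟨fun a => E (P (el K a)), ⟨fun a b => congrArg E (funext fun α => propext ?_),
    fun a => ?_⟩, fun a ha => ?_⟩
  · have : N ∣ el K (((q * BB K : ℕ) : ℤ) • b) := by
      rw [map_zsmul, zsmul_eq_mul, Int.cast_natCast]
      exact (Nat.cast_dvd_cast (mul_dvd_mul_left q (rep_dvd_BB c))).mul_right _
    simp only [P, map_add, ← sub_sub]
    exact and_congr_left' (dvd_sub_left this)
  · simp only [E]
    split_ifs with h'
    · rcases lift_cases (rep c) h'.choose with h1 | ⟨h0, -, I, -, h1⟩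
      · rw [h1.1, zero_div, norm_zero]
        exact zero_le_one
      · rw [norm_div, norm_ar t m (RingOfIntegers.coe_ne_zero_iff.2 h0), div_one, h1]
        exact h.le I
    · simp
  · have h' : ∃ α, P (el K a) α := ⟨_, by simp, ha⟩
    simp only [E, dif_pos h']
    obtain ⟨h1, h2⟩ := h'.choose_spec
    generalize h'.choose = α at h1 h2
    generalize el K a = β at h1 ha
    have hm : α - β ∈ rep c := by
      obtain ⟨t, ht⟩ := h1
      rw [ht, hN, Nat.cast_mul, mul_right_comm]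
      exact Ideal.mul_mem_left _ _ (Ideal.absNorm_mem _)
    rcases lift_cases (rep c) α with ⟨e1, m1⟩ | ⟨a0, m1, I, hI, e1⟩ <;>
      rcases lift_cases (rep c) β with ⟨e2, m2⟩ | ⟨-, m2, J, hJ, e2⟩
    · rw [e1, e2, zero_div, zero_mul]
    · exact absurd (by simpa using add_mem hm m2) (m1.resolve_left (gc_ti_nz h2))
    · exact absurd (by simpa using sub_mem m1 hm) (m2.resolve_left (gc_ti_nz ha))
    · have n0 : ar t m (α : K) ≠ 0 := norm_ne_zero_iff.1 (by
        rw [norm_ar t m (RingOfIntegers.coe_ne_zero_iff.2 a0)]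
        exact one_ne_zero)
      rw [e1, e2, div_mul_eq_mul_div, div_eq_iff n0]
      refine h.per I J _ α β hI hJ h1 ?_
      have := mul_pos h2 ha
      cases s <;> simpa only [gt_iff_lt, sg, Bool.false_eq_true, ↓ reduceIte, Int.reduceNeg, neg_mul, one_mul, mul_neg, neg_neg] using this

theorem gc_ti_congr (G : Geo K) {t : (K →+* ℂ) → ℝ} (ht : ∑ φ, t φ = 0) (m : (K →+* ℂ) → ℤ)
    (v : ℝ → ℂ) (s : Bool) {H : ℝ} (hH : 0 < H) {η η' : (Ix K → ℤ) → ℂ}
    (h : ∀ a, 0 < sg s * nm (el K a) → η a * ar t m (el K a : 𝓞 K) = η' a) :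
    ls η (fun x => arC t m (emb x) * G.g v s x) H = ls η' (G.g v s) H := by
  refine tsum_congr fun a => ?_
  by_cases h0 : G.Φ s (pt H a) = 0
  · simp [Geo.g, h0]
  · have h1 := G.sgn s a H hH h0
    have h2 : ((el K a : 𝓞 K) : K) ≠ 0 := RingOfIntegers.coe_ne_zero_iff.2 (gc_ti_nz h1)
    rw [← h a h1, ← mul_assoc, funext (emb_pt H a),
      arC_div ht m hH fun φ => (map_ne_zero φ).2 h2]
    rfl

theorem gc_ti_eta (G : Geo K) (k : ℕ) : ∃ C : ℝ, 0 < C ∧ ∀ (N : ℕ) (t : (K →+* ℂ) → ℝ)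
    (m : (K →+* ℂ) → ℤ) (f : Ideal (𝓞 K) → ℂ) (η : ClassGroup (𝓞 K) → Bool → (Ix K → ℤ) → ℂ)
    (v : ℝ → ℂ) (D y : ℝ), 0 < N → ∑ φ, t φ = 0 → gc_ti_Mod N t m f η → Test v →
      (∀ s, Nice G.R k D fun x => arC t m (emb x) * G.g v s x) → 1 ≤ y →
        ‖sm (push f) v y - gc_ti_Lam G N t m η v * y‖ ≤
          C * D * (N : ℝ) ^ k * y ^ (1 - (k : ℝ) / dg K) := by
  obtain ⟨C₁, p₁, h₁⟩ := ls_main (Ix K) G.R k
  have hB0 : (0 : ℝ) < BB K := by exact_mod_cast BB_pos K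
  refine ⟨Fintype.card (ClassGroup (𝓞 K)) * (2 * (C₁ * BB K)), by positivity,
    fun N t m f η v D y hN ht hη hv hD hy => ?_⟩
  have B0 : 0 ≤ D := (norm_nonneg _).trans ((hD true).bd 0 k.zero_le 0)
  have y0 : 0 < y := by linarith only [hy]
  have n0 : (0 : ℝ) < dg K := by exact_mod_cast dg_pos K
  rw [G.decomp f hv y0, gc_ti_Lam, sum_mul, ← sum_sub_distrib]
  refine (norm_sum_le_of_le _ (n := fun _ => 2 * (C₁ * BB K * D * (N : ℝ) ^ k *
    y ^ (1 - (k : ℝ) / dg K))) fun c _ => ?_).trans (by simp only [mul_assoc, sum_const, card_univ, nsmul_eq_mul, Std.le_refl])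
  rw [sum_mul, ← sum_sub_distrib]
  refine (norm_sum_le_of_le _ (n := fun _ => C₁ * BB K * D * (N : ℝ) ^ k *
    y ^ (1 - (k : ℝ) / dg K)) fun s _ => ?_).trans (by simp only [Fintype.univ_bool, sum_const, mem_singleton, Bool.true_eq_false, not_false_eq_true, card_insert_of_notMem, card_singleton, Nat.reduceAdd, nsmul_eq_mul, Nat.cast_ofNat, Std.le_refl])
  have H1 := one_le_Hc hy c
  have Hp := Hc_pow y0.le c
  have key := h₁ _ _ N _ _ (hD s) H1 hN (hη c s).1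
  rw [card_Ix, gc_ti_congr G ht m v s (by linarith only [H1]) (hη c s).2, ← Complex.ofReal_pow, Hp] at key
  have e : (Ideal.absNorm (rep c) : ℂ) * mean N (η c s) *
      (∫ x, arC t m (emb x) * G.g v s x) * y =
      mean N (η c s) * ((y * Ideal.absNorm (rep c) : ℝ) : ℂ) *
        ∫ x, arC t m (emb x) * G.g v s x := by
    push_cast
    ring
  have b1 : (Ideal.absNorm (rep c) : ℝ) ≤ BB K := by
    exact_mod_cast Nat.le_of_dvd (BB_pos K) (rep_dvd_BB c)
  have b2 : y ^ ((k : ℝ) / dg K) ≤ Hc y c ^ k := by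
    have b3 : (1 : ℝ) ≤ Ideal.absNorm (rep c) := by exact_mod_cast dec_norm_pos c
    rw [Hc, ← Real.rpow_natCast, ← Real.rpow_mul (by positivity), one_div_mul_eq_div]
    exact Real.rpow_le_rpow y0.le (le_mul_of_one_le_right y0.le b3) (by positivity)
  rw [e, Real.rpow_sub y0, Real.rpow_one, ← mul_div_assoc, le_div_iff₀ (by positivity)]
  refine ((mul_le_mul_of_nonneg_left b2 (norm_nonneg _)).trans key).trans ?_
  calc _ ≤ C₁ * D * (N : ℝ) ^ k * (y * BB K) := by gcongr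
    _ = _ := by ring

theorem gc_ti_lim (G : Geo K) {N : ℕ} {t : (K →+* ℂ) → ℝ} {m : (K →+* ℂ) → ℤ}
    {f : Ideal (𝓞 K) → ℂ} {η : ClassGroup (𝓞 K) → Bool → (Ix K → ℤ) → ℂ} {v : ℝ → ℂ} {D : ℝ}
    (hN : 0 < N) (ht : ∑ φ, t φ = 0) (h : gc_ti_Mod N t m f η) (hv : Test v)
    (hD : ∀ s, Nice G.R 1 D fun x => arC t m (emb x) * G.g v s x) :
    Tendsto (fun y : ℝ => sm (push f) v y / y) atTop (𝓝 (gc_ti_Lam G N t m η v)) := by
  obtain ⟨C, -, hC⟩ := gc_ti_eta G 1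
  have n0 : (0 : ℝ) < dg K := by exact_mod_cast dg_pos K
  rw [tendsto_iff_norm_sub_tendsto_zero]
  have l := (tendsto_rpow_neg_atTop (y := 1 / (dg K : ℝ)) (by positivity)).const_mul (C * D * N)
  rw [mul_zero] at l
  refine squeeze_zero' (Eventually.of_forall fun _ => norm_nonneg _) ?_ l
  filter_upwards [eventually_ge_atTop 1] with y hy
  have y0 : 0 < y := by linarith only [hy]
  have key := hC N t m f η v D y hN ht h hv hD hy
  have y1 : (y : ℂ) ≠ 0 := by exact_mod_cast y0.ne'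
  rw [div_sub' y1, norm_div, Complex.norm_real, Real.norm_of_nonneg y0.le, div_le_iff₀ y0,
    mul_comm (y : ℂ)]
  refine key.trans (le_of_eq ?_)
  rw [sub_eq_add_neg, Real.rpow_add y0, Real.rpow_one, pow_one, Nat.cast_one]
  ring

theorem gc_ti_zero (G : Geo K) {q : ℕ} {t : (K →+* ℂ) → ℝ} {m : (K →+* ℂ) → ℤ}
    {F : Ideal (𝓞 K) → ℂ} {η : ClassGroup (𝓞 K) → Bool → (Ix K → ℤ) → ℂ} {v : ℝ → ℂ} {D : ℝ}
    (h : GC q t m F) (hB : BB K ∣ q) (hp : NP q F) (hη : gc_ti_Mod (q * BB K) t m F η)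
    (hv : Test v) (hD : ∀ s, Nice G.R 1 D fun x => arC t m (emb x) * G.g v s x) :
    gc_ti_Lam G (q * BB K) t m η v = 0 := by
  classical
  obtain ⟨I, hI, hc, h1⟩ := hp
  have m0 : 0 < Ideal.absNorm I := Nat.pos_of_ne_zero fun h => hI (Ideal.absNorm_eq_zero_iff.1 h)
  have m1 : (0 : ℝ) < Ideal.absNorm I := by exact_mod_cast m0
  have m2 : (Ideal.absNorm I : ℂ) ≠ 0 := by exact_mod_cast m0.ne'
  have hN := mul_pos h.pos (BB_pos K)
  have hq : IsUnit (Ideal.Quotient.mk I q) := by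
    obtain ⟨i, hi, j, hj, e⟩ := Submodule.mem_sup.1 ((Ideal.eq_top_iff_one _).1 hc)
    obtain ⟨c, rfl⟩ := Ideal.mem_span_singleton'.1 hj
    refine IsUnit.of_mul_eq_one_right (Ideal.Quotient.mk I c) ?_
    rw [← map_mul, ← map_one (Ideal.Quotient.mk I), ← e, map_add,
      Ideal.Quotient.eq_zero_iff_mem.2 hi, zero_add]
  have hu : IsUnit (Ideal.Quotient.mk I (q * BB K : ℕ)) := by
    rw [Nat.cast_mul, map_mul]
    exact hq.mul (isUnit_of_dvd_unit (map_dvd _ (Nat.cast_dvd_cast hB)) hq)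
  have tm := fun c s => typeI_mean hN hI hu (hη c s).1
  have l₀ := gc_ti_lim G hN h.sum hη hv hD
  have l₁ := gc_ti_lim G (mul_pos hN m0) h.sum (f := F)
    (fun c s => ⟨(tm c s).1, (hη c s).2⟩) hv hD
  have l₂ := gc_ti_lim G (mul_pos hN m0) h.sum (f := fun J => if I ∣ J then F J else 0)
    (fun c s => ⟨(tm c s).2.1, fun a ha => by
      rw [ite_mul, zero_mul, (hη c s).2 a ha]
      obtain ⟨h1, -⟩ | ⟨-, -, A, h1, h2⟩ := lift_cases (rep c) (el K a)
      · simp [h1]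
      · have cop : IsCoprime I (rep c) := Ideal.isCoprime_iff_sup_eq.2 <| top_le_iff.1 <|
          hc.ge.trans <| sup_le_sup_left ((Ideal.span_singleton_le_iff_mem _).2 <| by
            obtain ⟨d, rfl⟩ := (rep_dvd_BB c).trans hB
            rw [Nat.cast_mul]
            exact Ideal.mul_mem_right _ _ (Ideal.absNorm_mem _)) _
        rw [h2, h2, ← Ideal.dvd_span_singleton, ← h1]
        exact if_congr ⟨cop.dvd_of_dvd_mul_right, fun h => h.mul_right _⟩ rfl rfl⟩) hv hD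
  have l₃ := (l₁.comp (tendsto_id.atTop_div_const m1)).const_mul (F I / Ideal.absNorm I)
  have e := tendsto_nhds_unique l₂ (l₃.congr' (by
    filter_upwards [eventually_ge_atTop 0] with y hy
    rw [typeI_dvd h.mul hI _ hy]
    simp only [Function.comp, id]
    push_cast
    rw [div_mul_div_comm, mul_div_cancel₀ _ m2]))
  rw [tendsto_nhds_unique l₀ l₁]
  by_contra hk
  refine h1 (mul_right_cancel₀ hk ?_)
  rw [one_mul, ← mul_div_cancel₀ (F I) m2, mul_assoc, ← e]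
  simp only [gc_ti_Lam, mul_sum, ← fun c s => (tm c s).2.2]
  exact sum_congr rfl fun c _ => sum_congr rfl fun s _ => by ring

theorem gc_ti_triv (G : Geo K) : ∃ C : ℝ, 0 < C ∧ ∀ (f : Ideal (𝓞 K) → ℂ) (v : ℝ → ℂ) (B y : ℝ),
    (∀ I, ‖f I‖ ≤ 1) → Test v → Db 0 B v → 1 ≤ y → ‖sm (push f) v y‖ ≤ C * B * y := by
  obtain ⟨C₁, p₁, h₁⟩ := ls_triv (Ix K) G.R
  obtain ⟨C₂, p₂, h₂⟩ := G.nice 0
  have hB0 : (0 : ℝ) < BB K := by exact_mod_cast BB_pos K
  refine ⟨Fintype.card (ClassGroup (𝓞 K)) * (2 * (C₁ * C₂ * BB K)), by positivity,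
    fun f v B y hf hv hB hy => ?_⟩
  have B0 : 0 ≤ B := (norm_nonneg _).trans (hB 0 le_rfl 0)
  have y0 : 0 < y := by linarith
  rw [G.decomp f hv y0]
  refine (norm_sum_le_of_le _ (n := fun _ => 2 * (C₁ * C₂ * BB K * B * y))
    fun c _ => ?_).trans (by simp only [mul_assoc, sum_const, card_univ, nsmul_eq_mul, Std.le_refl])
  refine (norm_sum_le_of_le _ (n := fun _ => C₁ * C₂ * BB K * B * y)
    fun s _ => ?_).trans (by simp only [Fintype.univ_bool, sum_const, mem_singleton, Bool.true_eq_false, not_false_eq_true, card_insert_of_notMem, card_singleton, Nat.reduceAdd, nsmul_eq_mul, Nat.cast_ofNat, Std.le_refl])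
  have key := h₁ 0 _ _ _ (fun a => lift f (rep c) (el K a)) (h₂ v B s hv hB) (one_le_Hc hy c)
    fun a => by
      obtain ⟨h1, -⟩ | ⟨-, -, A, -, h2⟩ := lift_cases (rep c) (el K a)
      · rw [h1, norm_zero]
        exact zero_le_one
      · rw [h2]
        exact hf A
  rw [card_Ix, Hc_pow y0.le] at key
  have b1 : (Ideal.absNorm (rep c) : ℝ) ≤ BB K := by
    exact_mod_cast Nat.le_of_dvd (BB_pos K) (rep_dvd_BB c)
  refine key.trans ?_
  calc _ ≤ C₁ * (C₂ * B) * (y * BB K) := by gcongr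
    _ = _ := by ring

variable (K) in
theorem gc_ti : ∃ C : ℝ, 0 < C ∧ ∀ (q : ℕ) (T : ℝ) (t : (K →+* ℂ) → ℝ) (m : (K →+* ℂ) → ℤ)
    (F : Ideal (𝓞 K) → ℂ), GC q t m F → BB K ∣ q → NP q F → 1 ≤ T → Sz T t m →
      TI (dg K) C (q * T) 0 (push F) := by
  obtain ⟨G, hG⟩ := gc_geo K
  obtain ⟨⟨C₂, p₂, h₂⟩, h₃⟩ := gc_nice G hG
  obtain ⟨C₀, p₀, h₀⟩ := gc_ti_triv G
  obtain ⟨C₁, p₁, h₁⟩ := gc_ti_eta G 1
  have hB0 : (0 : ℝ) < BB K := by exact_mod_cast BB_pos K
  have p₃ : 0 < C₁ * C₂ * BB K := by positivity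
  refine ⟨C₀ + C₁ * C₂ * BB K, by positivity, fun q T t m F h hB hp hT hS => ?_⟩
  choose η hη using gc_ti_per h
  have hN := mul_pos h.pos (BB_pos K)
  have q0 : (0 : ℝ) < q := by exact_mod_cast h.pos
  have hz : ∀ v, Test v → gc_ti_Lam G (q * BB K) t m η v = 0 := fun v hv => by
    obtain ⟨B, -, hB'⟩ := Test.db hv 1
    exact gc_ti_zero G h hB hp hη hv fun s => h₂ T t m v B s hT hS hv hB'
  have he : ∀ v y, er 0 (push F) v y = ‖sm (push F) v y‖ := fun v y => by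
    rw [er, zero_mul, zero_mul, sub_zero]
  refine ⟨by rw [norm_zero]; positivity, fun s hs => push_summable h.le hs,
    fun v B y hv hB hy => ?_, fun v B y hv hB hy => ?_, fun k => ?_⟩
  · have B0 : 0 ≤ B := (norm_nonneg _).trans (hB 0 le_rfl 0)
    rw [he]
    refine (h₀ F v B y h.le hv hB hy).trans ?_
    gcongr
    linarith only [p₃]
  · have B0 : 0 ≤ B := (norm_nonneg _).trans (hB 0 zero_le_one 0)
    have key := h₁ _ t m F η v _ y hN h.sum hη hv (fun s => h₂ T t m v B s hT hS hv hB) hy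
    rw [hz v hv, zero_mul, sub_zero, pow_one, Nat.cast_one] at key
    rw [he]
    refine key.trans ?_
    calc _ = C₁ * C₂ * BB K * B * (q * T) * y ^ (1 - (1 : ℝ) / dg K) := by
          push_cast
          ring
      _ ≤ _ := by
          gcongr
          linarith only [p₀]
  · obtain ⟨C₄, p₄, h₄⟩ := gc_ti_eta G k
    obtain ⟨C₅, p₅, h₅⟩ := h₃ t m k
    refine ⟨C₄ * C₅ * (q * BB K) ^ k, by positivity, fun v B y hv hB hy => ?_⟩
    have key := h₄ _ t m F η v _ y hN h.sum hη hv (fun s => h₅ v B s hv hB) hy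
    rw [hz v hv, zero_mul, sub_zero] at key
    rw [he]
    refine key.trans_eq ?_
    push_cast
    ring

/-- the error terms of the continuation -/
noncomputable def ti_diff_err (κ : ℂ) (a : ℕ → ℂ) (j : ℕ) (s : ℂ) : ℂ :=
  Complex.exp (-s * j) * (sm a (cont_vs s) (Real.exp j) - κ * (Real.exp j : ℝ) * cont_I s)

theorem ti_diff_eq (κ : ℂ) (a : ℕ → ℂ) :
    aE κ a = fun s => κ * cont_A s + ∑' j, ti_diff_err κ a j s := rfl

theorem ti_diff_err_diff (κ : ℂ) (a : ℕ → ℂ) (j : ℕ) :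
    Differentiable ℂ (ti_diff_err κ a j) := by
  have := cont_I_diff
  unfold ti_diff_err sm cont_vs
  fun_prop

theorem ti_diff_le {κ : ℂ} {a : ℕ → ℂ} {j : ℕ} {s : ℂ} {X e : ℝ}
    (h : er κ a (cont_vs s) (Real.exp j) ≤ X * Real.exp j ^ e) :
    ‖ti_diff_err κ a j s‖ ≤ X * Real.exp (j * (e - s.re)) := by
  rw [ti_diff_err, norm_mul, Complex.norm_exp]
  refine (mul_le_mul_of_nonneg_left h (Real.exp_pos _).le).trans (le_of_eq ?_)
  rw [← Real.exp_mul, show (j : ℝ) * (e - s.re) = (-s * j).re + j * e by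
      simp only [neg_mul, Complex.neg_re, Complex.mul_re, Complex.natCast_re, Complex.natCast_im]
      ring, Real.exp_add]
  ring

theorem ti_diff_ball {d : ℕ} (hd : 0 < d) {C P : ℝ} {κ : ℂ} {a : ℕ → ℂ} (h : TI d C P κ a)
    (N : ℕ) : ∃ D : ℝ, ∀ s : ℂ, ‖s‖ ≤ N → ∀ j : ℕ,
      ‖ti_diff_err κ a j s‖ ≤ D * Real.exp (-1) ^ j := by
  obtain ⟨C', hC, h1⟩ := h.all ((N + 2) * d)
  obtain ⟨B, hB, hv⟩ := cont_vs_db ((N + 2) * d)
  refine ⟨C' * (B * (1 + N) ^ ((N + 2) * d) * Real.exp (4 * N)), fun s hs j => ?_⟩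
  refine (ti_diff_le (h1 _ _ _ (cont_vs_test s) (hv s)
    (Real.one_le_exp (Nat.cast_nonneg j)))).trans ?_
  have h2 := (Complex.abs_re_le_norm s).trans hs
  have h3 : (d : ℝ) ≠ 0 := Nat.cast_ne_zero.2 hd.ne'
  have h4 : 1 - (((N + 2) * d : ℕ) : ℝ) / d - s.re ≤ -1 := by
    rw [Nat.cast_mul, mul_div_cancel_right₀ _ h3]
    push_cast
    linarith only [neg_abs_le s.re, h2]
  rw [← Real.exp_nat_mul]
  gcongr

theorem ti_diff {d : ℕ} (hd : 0 < d) {C P : ℝ} {κ : ℂ} {a : ℕ → ℂ} (h : TI d C P κ a) :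
    Differentiable ℂ (aE κ a) := by
  rw [ti_diff_eq]
  refine (cont_A_diff.const_mul _).add fun s => ?_
  obtain ⟨N, hN⟩ := exists_nat_gt ‖s‖
  obtain ⟨D, hb⟩ := ti_diff_ball hd h N
  exact (Complex.differentiableOn_tsum_of_summable_norm
    ((cont_geom (by norm_num)).mul_left D)
    (fun j => (ti_diff_err_diff κ a j).differentiableOn) Metric.isOpen_ball
    (fun j w hw => hb w (mem_ball_zero_iff.1 hw).le j)).differentiableAt
      (Metric.isOpen_ball.mem_nhds (mem_ball_zero_iff.2 hN))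

theorem ti_spec {d : ℕ} (hd : 0 < d) {C P : ℝ} {κ : ℂ} {a : ℕ → ℂ} (h : TI d C P κ a) {s : ℂ}
    (hs : 1 < s.re) : LSeries a s = κ / (s - 1) + aE κ a s := by
  have hx : ‖Complex.exp (1 - s)‖ < 1 := by
    rw [Complex.norm_exp, Real.exp_lt_one_iff, Complex.sub_re, Complex.one_re]
    linarith only [hs]
  have hx1 : 1 - Complex.exp (1 - s) ≠ 0 := by
    intro e
    rw [← sub_eq_zero.1 e, norm_one] at hx
    exact lt_irrefl _ hx
  have hs1 : s ≠ 1 := by
    rintro rfl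
    simp at hs
  obtain ⟨N, hN⟩ := exists_nat_gt ‖s‖
  obtain ⟨D, hb⟩ := ti_diff_ball hd h N
  have t1 := (Summable.of_norm_bounded ((cont_geom (by norm_num)).mul_left D)
    (hb s hN.le)).hasSum.tendsto_sum_nat
  have t2 := (cont_tendsto (h.sum s hs)).sub
    (((hasSum_geometric_of_norm_lt_one hx).mul_left (κ * cont_I s)).tendsto_sum_nat)
  have t3 := tendsto_nhds_unique t1 (t2.congr fun J => by
    rw [← sum_sub_distrib]
    refine sum_congr rfl fun j _ => ?_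
    rw [ti_diff_err, ← Complex.exp_nat_mul, Complex.ofReal_exp, Complex.ofReal_natCast,
      show (j : ℂ) * (1 - s) = -s * j + j by ring, Complex.exp_add]
    ring)
  rw [ti_diff_eq]
  beta_reduce
  rw [t3, cont_I_A hs1]
  field_simp
  ring

theorem ti_near {d : ℕ} (hd : 0 < d) (C : ℝ) {η : ℝ} (h0 : 0 < η) (h1 : η ≤ 1) :
    ∃ D r : ℝ, 0 < D ∧ 0 < r ∧ r ≤ 1 / 2 ∧ ∀ (P : ℝ) (κ : ℂ) (a : ℕ → ℂ), 1 ≤ P → TI d C P κ a →
      ∀ s : ℂ, 1 - r ≤ s.re → s.re ≤ 4 → ‖aE κ a s‖ ≤ D * (P * (|s.im| + 2)) ^ η := by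
  obtain ⟨B₀, hB₀, b₀⟩ := cont_vs_db 0
  obtain ⟨B₁, hB₁, b₁⟩ := cont_vs_db 1
  have hn : (1 : ℝ) ≤ d := Nat.one_le_cast.2 hd
  have hr : 0 < η / d / 2 := by positivity
  have hr' : η / d / 2 ≤ 1 / 2 := by
    have := div_le_self h0.le hn
    linarith only [h1, this]
  have hg := cont_geom (neg_neg_of_pos hr)
  have hT : 0 ≤ ∑' j : ℕ, Real.exp (-(η / d / 2)) ^ j := tsum_nonneg fun j => by positivity
  obtain ⟨c, hc, hCc⟩ : ∃ c : ℝ, 0 < c ∧ C ≤ c := ⟨|C| + 1, by positivity, by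
    linarith only [le_abs_self C]⟩
  obtain ⟨E, hE, hE'⟩ : ∃ E : ℝ, 0 < E ∧ E = c * (B₀ + B₁) * Real.exp 16 :=
    ⟨_, by positivity, rfl⟩
  refine ⟨c * (Real.exp 6 * 2) + E * 3 * ∑' j : ℕ, Real.exp (-(η / d / 2)) ^ j, η / d / 2,
    by positivity, hr, hr', fun P κ a q1 hf' s s1 s2 => ?_⟩
  have q0 : 0 ≤ P := zero_le_one.trans q1
  have hf := hf'.mono hCc q0 le_rfl
  have s3 : |s.re| ≤ 4 := abs_le.2 ⟨by linarith only [hr', s1], s2⟩
  have s5 : 0 ≤ |s.im| + 2 := by positivity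
  have s4 : (1 + ‖s‖) ^ η ≤ 3 * (|s.im| + 2) ^ η := by
    calc (1 + ‖s‖) ^ η ≤ (3 * (|s.im| + 2)) ^ η :=
          Real.rpow_le_rpow (by positivity)
            (by linarith only [Complex.norm_le_abs_re_add_abs_im s, abs_nonneg s.im, s3]) h0.le
      _ = 3 ^ η * (|s.im| + 2) ^ η := Real.mul_rpow (by norm_num) s5
      _ ≤ _ := mul_le_mul_of_nonneg_right (Real.rpow_le_self_of_one_le (by norm_num) h1)
          (Real.rpow_nonneg s5 _)
  have s6 : Real.exp (4 * |s.re|) ≤ Real.exp 16 := Real.exp_le_exp.2 (by linarith only [s3])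
  have h3 : ∀ j : ℕ, ‖ti_diff_err κ a j s‖ ≤ E * 3 *
      (P ^ η * (|s.im| + 2) ^ η) * Real.exp (-(η / d / 2)) ^ j := by
    intro j
    have y1 : 1 ≤ Real.exp j := Real.one_le_exp (Nat.cast_nonneg j)
    have a₀ : ‖ti_diff_err κ a j s‖ ≤ E * Real.exp (j * (1 - s.re)) := by
      have z := hf.zero _ _ _ (cont_vs_test s) (b₀ s) y1
      rw [pow_zero, mul_one] at z
      refine (ti_diff_le (e := 1) (by rwa [Real.rpow_one])).trans ?_
      rw [hE', mul_assoc c (B₀ + B₁)]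
      gcongr
      linarith only [hB₁]
    have a₁ : ‖ti_diff_err κ a j s‖ ≤ E * ((1 + ‖s‖) * (P *
        Real.exp (j * (1 - 1 / d - s.re)))) := by
      refine (ti_diff_le (hf.one _ _ _ (cont_vs_test s) (b₁ s) y1)).trans ?_
      calc _ = c * B₁ * Real.exp (4 * |s.re|) * ((1 + ‖s‖) * (P *
            Real.exp (j * (1 - 1 / d - s.re)))) := by ring
        _ ≤ _ := by
          rw [hE']
          gcongr
          linarith only [hB₀]
    refine (lbound_min h0 h1 (norm_nonneg _) a₁ a₀).trans ?_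
    rw [Real.mul_rpow hE.le (by positivity), Real.mul_rpow hE.le (by positivity),
      Real.mul_rpow (x := 1 + ‖s‖) (by positivity) (by positivity),
      Real.mul_rpow (x := P) q0 (by positivity),
      ← Real.exp_mul, ← Real.exp_mul, ← Real.exp_nat_mul]
    have e1 : E ^ η * E ^ (1 - η) = E := by
      rw [← Real.rpow_add hE, add_sub_cancel, Real.rpow_one]
    have e2 : Real.exp (j * (1 - 1 / d - s.re) * η) * Real.exp (j * (1 - s.re) * (1 - η)) ≤
        Real.exp (j * -(η / d / 2)) := by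
      rw [← Real.exp_add, Real.exp_le_exp, show j * (1 - 1 / d - s.re) * η +
        j * (1 - s.re) * (1 - η) = (j : ℝ) * (1 - s.re - η / d) by ring]
      exact mul_le_mul_of_nonneg_left (by linarith only [s1]) (Nat.cast_nonneg j)
    calc _ = E ^ η * E ^ (1 - η) *
          ((1 + ‖s‖) ^ η * P ^ η) * (Real.exp (j * (1 - 1 / d - s.re) * η) *
            Real.exp (j * (1 - s.re) * (1 - η))) := by ring
      _ ≤ E * (3 * (|s.im| + 2) ^ η * P ^ η) * Real.exp (j * -(η / d / 2)) := by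
          rw [e1]
          gcongr
      _ = _ := by ring
  have h4 := tsum_of_norm_bounded (hg.hasSum.mul_left _) h3
  have h5 : ‖κ * cont_A s‖ ≤ c * (Real.exp 6 * 2) := by
    rw [norm_mul]
    exact mul_le_mul hf.le (cont_A_le (by linarith only [hr', s1]) s2) (norm_nonneg _) hc.le
  have h6 : 1 ≤ P ^ η * (|s.im| + 2) ^ η :=
    one_le_mul_of_one_le_of_one_le (Real.one_le_rpow q1 h0.le)
      (Real.one_le_rpow (by linarith only [abs_nonneg s.im]) h0.le)
  have h7 := mul_le_mul_of_nonneg_left h6 (show 0 ≤ c * (Real.exp 6 * 2) by positivity)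
  rw [ti_diff_eq, Real.mul_rpow q0 s5]
  refine (norm_add_le _ _).trans ?_
  calc _ ≤ c * (Real.exp 6 * 2) * (P ^ η * (|s.im| + 2) ^ η) + E * 3 *
        (P ^ η * (|s.im| + 2) ^ η) * ∑' j : ℕ, Real.exp (-(η / d / 2)) ^ j := by linarith only [h4, h5, h7]
    _ = _ := by ring

theorem ti_lb_sum {b : ℕ → ℂ} (h : ∀ s : ℂ, 1 < s.re → LSeriesSummable b s) (k : ℕ) (s : ℂ)
    (hs : 1 < s.re) : LSeriesSummable (fun n => (Real.log n : ℂ) ^ k * b n) s := by
  induction k generalizing s with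
  | zero => simpa using h s hs
  | succ k ih =>
    have h1 := LSeries.abscissaOfAbsConv_le_of_forall_lt_LSeriesSummable (x := 1)
      (f := fun n => (Real.log n : ℂ) ^ k * b n) fun y hy => ih y (by simpa using hy)
    have := LSeriesSummable_logMul_of_lt_re (s := s) (h1.trans_lt (by exact_mod_cast hs))
    convert this using 2 with n
    rw [LSeries.logMul, Complex.natCast_log]
    ring

theorem ti_lb {d : ℕ} (hd : 0 < d) (C : ℝ) (k : ℕ) : ∃ D : ℝ, 0 < D ∧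
    ∀ (P : ℝ) (κ : ℂ) (a : ℕ → ℂ), 1 ≤ P → TI d C P κ a → LB k (D * √P) fun n => a n - κ := by
  obtain ⟨D, r, hD, r0, r1, H⟩ := ti_near hd C (η := 1 / 2) (by norm_num) (by norm_num)
  obtain ⟨E, hE, HE⟩ := MP_a96b63_al.H5.zH_le (η := 1 / 2) (by norm_num) (by norm_num)
  obtain ⟨ρ, ρ0, ρ1, ρ2⟩ : ∃ ρ : ℝ, 0 < ρ ∧ ρ ≤ r ∧ ρ ≤ 1 / 40 :=
    ⟨min r (1 / 40), by positivity, min_le_left _ _, min_le_right _ _⟩
  refine ⟨k.factorial * (2 * D + 2 * |C| * E) / ρ ^ k, by positivity, fun P κ a hP h => ?_⟩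
  have e0 : (fun n => a n - κ) = a - κ • (1 : ℕ → ℂ) := by
    funext n
    simp
  have hs0 : ∀ s : ℂ, 1 < s.re → LSeriesSummable (fun n => a n - κ) s := fun s hs =>
    e0 ▸ (h.sum s hs).sub ((LSeriesSummable_one_iff.2 hs).smul κ)
  refine ⟨ti_lb_sum hs0 k, fun s hs1 hs2 => ?_⟩
  have fd : Differentiable ℂ fun z => aE κ a z - κ * MP_a96b63_al.H5.zH z :=
    (ti_diff hd h).sub (MP_a96b63_al.H5.zH_diff.const_mul κ)
  have hy := abs_nonneg s.im
  have p1 : 1 ≤ √P := Real.one_le_sqrt.2 hP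
  have k2 := MP_a96b63_al.H5.abs_iter k ρ0 (by linarith only [ρ2]) fd hs1 hs2
    (M := (2 * D + 2 * |C| * E) * (√P * √(|s.im| + 2))) fun z a1 a2 a3 => by
      have b1 := H P κ a hP h z (by linarith only [ρ1, a1]) a2
      have b2 := HE z (by linarith only [ρ2, a1]) a2
      rw [← Real.sqrt_eq_rpow] at b1 b2
      rw [Real.sqrt_mul (by linarith only [ρ0, ρ2, hP])] at b1
      have b3 : √(|z.im| + 2) ≤ 2 * √(|s.im| + 2) := by
        rw [Real.sqrt_le_iff, mul_pow, Real.sq_sqrt (by linarith only [ρ0, ρ2, hy])]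
        exact ⟨by positivity, by linarith only [abs_sub_abs_le_abs_sub z.im s.im, hy, a3]⟩
      have b4 : ‖κ‖ * ‖MP_a96b63_al.H5.zH z‖ ≤ |C| * (E * (√P * (2 * √(|s.im| + 2)))) := by
        refine mul_le_mul (h.le.trans (le_abs_self C)) (b2.trans ?_) (norm_nonneg _) (abs_nonneg _)
        exact mul_le_mul_of_nonneg_left (b3.trans (le_mul_of_one_le_left (by positivity) p1)) hE.le
      have b5 : D * (√P * √(|z.im| + 2)) ≤ D * (√P * (2 * √(|s.im| + 2))) := by gcongr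
      refine (norm_sub_le _ _).trans ?_
      rw [norm_mul]
      linarith only [b1, b4, b5]
  have hev : (fun z => aE κ a z - κ * MP_a96b63_al.H5.zH z) =ᶠ[nhds s]
      LSeries fun n => a n - κ := by
    filter_upwards [(isOpen_lt continuous_const Complex.continuous_re).mem_nhds hs1] with z hz
    have z1 : z ≠ 1 := fun e => by simp [e] at hz
    rw [e0, LSeries_sub (h.sum z hz) ((LSeriesSummable_one_iff.2 hz).smul κ), LSeries_smul,
      LSeries_one_eq_riemannZeta hz, ti_spec hd h hz, MP_a96b63_al.H5.zeta_eq_zH z1]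
    ring
  have habs : LSeries.abscissaOfAbsConv (fun n => a n - κ) < s.re := by
    refine lt_of_le_of_lt (b := ((1 : ℝ) : EReal)) ?_ (by exact_mod_cast hs1)
    exact LSeries.abscissaOfAbsConv_le_of_forall_lt_LSeriesSummable fun y hy =>
      hs0 y (by simpa using hy)
  have k3 := congrArg norm (hev.iteratedDeriv_eq k)
  rw [LSeries_iteratedDeriv k habs, norm_mul, norm_pow, norm_neg, norm_one, one_pow, one_mul] at k3
  have e : (LSeries.logMul^[k] fun n => a n - κ) =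
      fun n : ℕ => (Real.log n : ℂ) ^ k * (a n - κ) := by
    funext n
    rw [logder_iter, Complex.natCast_log]
  rw [← e, ← k3]
  refine k2.trans_eq ?_
  ring

variable (K) in
theorem gc_count : ∃ c : ℝ, 0 < c ∧ ∀ y : ℕ,
    ∑ n ∈ Icc 1 y, (push (fun _ : Ideal (𝓞 K) => 1) n).re ≤ c * y := by
  obtain ⟨C, hC, H⟩ := pf_ti K
  obtain ⟨D, hD, HD⟩ := ti_lb (dg_pos K) C 0
  obtain ⟨E, hE, HE⟩ := MP_a96b63_al.H5.riesz
  have h := H 1 _ pf_one
  obtain ⟨h1, h2⟩ := HD _ _ _ (by simp) h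
  simp only [pow_zero, one_mul, Nat.cast_one, Real.sqrt_one, mul_one] at h1 h2
  refine ⟨4 * (E * D) + 4 * C, by positivity, fun y => ?_⟩
  rcases y.eq_zero_or_pos with rfl | hy
  · simp
  have y0 : (0 : ℝ) < y := by exact_mod_cast hy
  have h3 := (Complex.re_le_norm _).trans (HE _ _ h1 h2 (2 * y))
  rw [MP_a96b63_al.H5.Rz, Complex.re_sum] at h3
  generalize kap (fun _ : Ideal (𝓞 K) => (1 : ℂ)) = κ at h h3
  have hκ : κ.re ≤ C := (Complex.re_le_norm _).trans h.le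
  have p0 : ∀ n, 0 ≤ (push (fun _ : Ideal (𝓞 K) => 1) n).re := fun n => by
    rcases eq_or_ne n 0 with rfl | hn
    · simp
    · simp only [push_apply _ hn, sum_const, nsmul_eq_mul, mul_one, Complex.natCast_re, Nat.cast_nonneg]
  generalize push (fun _ : Ideal (𝓞 K) => (1 : ℂ)) = a at h3 p0 ⊢
  have h4 : ∑ n ∈ Icc 1 (2 * y), ((if n ≤ y then (a n).re else 0) * y - C * (2 * y)) ≤
      ∑ n ∈ Icc 1 (2 * y), ((a n - κ) * (((2 * y : ℕ) : ℂ) - n)).re := by
    refine sum_le_sum fun n hn => ?_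
    have n1 : (n : ℝ) ≤ 2 * y := by exact_mod_cast (mem_Icc.1 hn).2
    have n0 : (0 : ℝ) ≤ n := Nat.cast_nonneg n
    have e : ((a n - κ) * (((2 * y : ℕ) : ℂ) - n)).re = ((a n).re - κ.re) * (2 * y - n) := by
      simp
    have b1 : κ.re * (2 * y - n) ≤ C * (2 * y) :=
      mul_le_mul hκ (by linarith only []) (by linarith only [n1]) hC.le
    have b2 : (if n ≤ y then (a n).re else 0) * y ≤ (a n).re * (2 * y - n) := by
      split_ifs with hn
      · have : (n : ℝ) ≤ y := by exact_mod_cast hn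
        exact mul_le_mul_of_nonneg_left (by linarith only [this]) (p0 n)
      · rw [zero_mul]
        exact mul_nonneg (p0 n) (by linarith only [n1])
    rw [e]
    linarith only [b1, b2]
  have e : (Icc 1 (2 * y)).filter (· ≤ y) = Icc 1 y := by
    ext n
    simp only [mem_filter, mem_Icc]
    omega
  rw [sum_sub_distrib, ← sum_mul, ← sum_filter, e, sum_const, Nat.card_Icc, nsmul_eq_mul] at h4
  simp only [Nat.add_sub_cancel, Nat.cast_mul, Nat.cast_ofNat] at h3 h4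
  refine le_of_mul_le_mul_right ?_ y0
  linarith only [h3, h4]

theorem lb_abs_scale {η P y t : ℝ} (h0 : 0 < η) (h1 : η ≤ 1) (hP : 1 ≤ P)
    (h : |t| ≤ 2 * |y| + 2) : (P * (|t| + 2)) ^ η ≤ 2 * (P * (|y| + 2)) ^ η := by
  refine MP_a96b63_al.H5.nzeta_two h0 h1 (by positivity) ?_
  have : P * (|t| + 2) ≤ P * (2 * (|y| + 2)) := by gcongr; linarith
  linarith

theorem lb_abs_ge {η P : ℝ} (h0 : 0 < η) (hP : 1 ≤ P) (y : ℝ) :
    P ^ η ≤ (P * (|y| + 2)) ^ η := by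
  refine Real.rpow_le_rpow (by positivity) ?_ h0.le
  have : P * 1 ≤ P * (|y| + 2) := by gcongr; linarith [abs_nonneg y]
  linarith

theorem lb_abs_up {d : ℕ} (hd : 0 < d) (C : ℝ) {η : ℝ} (h0 : 0 < η) (h1 : η ≤ 1) :
    ∃ D r : ℝ, 0 < D ∧ 0 < r ∧ r ≤ 1 ∧ ∀ (P : ℝ) (κ : ℂ) (a : ℕ → ℂ), 1 ≤ P → TI d C P κ a →
      ∀ (y : ℝ) (z : ℂ), 1 - r ≤ z.re → z.re ≤ 4 → |z.im| ≤ 2 * |y| + 2 →
        ‖aE κ a z‖ ≤ D * (P * (|y| + 2)) ^ η := by
  obtain ⟨D, r, hD, hr, hr1, H⟩ := ti_near hd C h0 h1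
  refine ⟨2 * D, r, by positivity, hr, by linarith only [hr1], fun P κ a hP h y z a1 a2 a3 =>
    (H P κ a hP h z a1 a2).trans ?_⟩
  have := mul_le_mul_of_nonneg_left (lb_abs_scale h0 h1 hP a3) hD.le
  linarith only [this]

variable (K) in
theorem lb_abs_low (C : ℝ) {η c : ℝ} (h0 : 0 < η) (h1 : η ≤ 1) (hc : 0 < c) : ∃ E : ℝ, 0 < E ∧
    ∀ (P : ℝ) (F : Ideal (𝓞 K) → ℂ) (κ : ℂ), 1 ≤ P → F ⊤ = 1 → (∀ I J, F (I * J) = F I * F J) →
      (∀ I, ‖F I‖ ≤ 1) → TI (dg K) C P 0 (push F) → TI (dg K) C P κ (push (F * F)) →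
      (κ = 0 ∨ c / P ^ η ≤ ‖aE 0 (push F) 1‖) → ∀ x y : ℝ, 0 < x → x ≤ 1 → x ^ 3 ≤
        E * ((P * (|y| + 2)) ^ η) ^ 2 * ‖aE 0 (push F) (1 + x + Complex.I * y)‖ ^ 4 := by
  obtain ⟨C₁, r, hC₁, hr, hr1, H1⟩ := lb_abs_up (dg_pos K) C h0 h1
  obtain ⟨C₀, hC₀, H0⟩ := LSeries_le K
  obtain ⟨D, hD'⟩ : ∃ D : ℝ, D = 2 * C₁ / r := ⟨_, rfl⟩
  have hD : 0 < D := by rw [hD']; positivity
  obtain ⟨a, ha0, ha1, ha2⟩ := MP_a96b63_al.H5.nabs_min (4 * D) one_pos (by positivity) hc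
  obtain ⟨G, hG⟩ : ∃ G : ℝ, G = C₁ + |C| / a := ⟨_, rfl⟩
  have hG0 : 0 < G := by rw [hG]; positivity
  refine ⟨16 * a / c ^ 4 + C₀ ^ 4 / a + C₀ ^ 3 * G, by positivity,
    fun P F κ hP f1 fm fl T1 T2 hκ x y hx0 hx1 => ?_⟩
  obtain ⟨-, HL⟩ := MP_a96b63_al.H5.abs_lip hr hr1 hC₁ (aE 0 (push F)) y _
    (ti_diff (dg_pos K) T1) fun z a1 a2 a3 =>
      H1 P 0 _ hP T1 y z a1 a2 (MP_a96b63_al.H5.nchi_im a3)
  have hqU := lb_abs_ge h0 hP y
  have hq : 1 ≤ P ^ η := Real.one_le_rpow hP h0.le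
  have H3 := H1 P κ _ hP T2 y
  obtain ⟨U, hU⟩ : ∃ U : ℝ, U = (P * (|y| + 2)) ^ η := ⟨_, rfl⟩
  rw [← hU] at HL hqU H3 ⊢
  rw [← hD'] at HL
  have hy := abs_nonneg y
  have hU1 : 1 ≤ U := hq.trans hqU
  have hU0 : 0 < U := by linarith only [hq, hqU]
  have hU2 : U ≤ U ^ 2 := by nlinarith only [hq, hqU]
  have haU : a / U ^ 2 ≤ 1 := by
    rw [div_le_one (by positivity)]; linarith only [ha1, hq, hqU, hU2]
  have hs1 : 1 < ((1 : ℂ) + x + Complex.I * y).re := by simpa using hx0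
  have hsp : LSeries (push F) (1 + x + Complex.I * y) = aE 0 (push F) (1 + x + Complex.I * y) := by
    rw [ti_spec (dg_pos K) T1 hs1, zero_div, zero_add]
  obtain ⟨L, hL⟩ : ∃ L : ℝ, L = ‖aE 0 (push F) (1 + x + Complex.I * y)‖ := ⟨_, rfl⟩
  have hL0 : 0 ≤ L := hL ▸ norm_nonneg _
  rw [← hL]
  have t1 : 0 ≤ 16 * a / c ^ 4 * U ^ 2 * L ^ 4 := by positivity
  have t2 : 0 ≤ C₀ ^ 4 / a * U ^ 2 * L ^ 4 := by positivity
  have t3 : 0 ≤ C₀ ^ 3 * G * U ^ 2 * L ^ 4 := by positivity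
  rw [add_mul, add_mul, add_mul, add_mul]
  rcases le_total (a / U ^ 2) x with hxa | hxa
  · obtain ⟨i1, i2⟩ := logder_inv f1 fm fl
    have i3 := congrArg norm (i2 _ hs1)
    have i4 : ‖LSeries (pushM F) (1 + x + Complex.I * y)‖ ≤ C₀ / x := by
      refine (H0 _ i1 _ hs1 (by simp; linarith only [hx1])).trans (le_of_eq ?_)
      simp
    rw [norm_mul, norm_one, hsp, ← hL] at i3
    have i5 := mul_le_mul_of_nonneg_right i4 hL0
    rw [i3, div_mul_eq_mul_div, one_le_div hx0, ← div_le_iff₀' hC₀] at i5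
    have k3 : C₀ ^ 4 / a * U ^ 2 * (x / C₀) ^ 4 ≤ C₀ ^ 4 / a * U ^ 2 * L ^ 4 := by gcongr
    have k4 : C₀ ^ 4 / a * U ^ 2 * (x / C₀) ^ 4 = x / (a / U ^ 2) * x ^ 3 := by field_simp
    have k5 : 1 * x ^ 3 ≤ x / (a / U ^ 2) * x ^ 3 := by
      gcongr
      exact (one_le_div (by positivity)).2 hxa
    linarith only [t1, t3, k3, k4, k5]
  by_cases hcase : κ ≠ 0 ∧ |y| ≤ a / U ^ 2
  · have k1 := hκ.resolve_left hcase.1
    have k2 := HL 1 (1 + x + Complex.I * y) (by simp only [Complex.one_re, tsub_le_iff_right, le_add_iff_nonneg_right]; linarith only [hr]) (by simp)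
      (by simpa using hcase.2.trans haU) (by simp; linarith only [hr, hx0]) (by simp; linarith only [hx1]) (by simp)
    have k3 : ‖(1 : ℂ) + x + Complex.I * y - 1‖ ≤ 2 * (a / U ^ 2) := by
      have := Complex.norm_le_abs_re_add_abs_im ((1 : ℂ) + x + Complex.I * y - 1)
      have e1 : ((1 : ℂ) + x + Complex.I * y - 1).re = x := by simp
      have e2 : ((1 : ℂ) + x + Complex.I * y - 1).im = y := by simp
      rw [e1, e2, abs_of_pos hx0] at this
      linarith only [hcase.2, hxa, this]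
    have k4 : D * U * ‖(1 : ℂ) + x + Complex.I * y - 1‖ ≤ c / 2 / U := by
      calc _ ≤ D * U * (2 * (a / U ^ 2)) := by gcongr
        _ = (4 * D * a) / 2 / U := by field_simp; ring
        _ ≤ _ := by gcongr
    have k5 : c / U ≤ c / P ^ η := by gcongr
    have k6 := norm_sub_le (aE 0 (push F) (1 + x + Complex.I * y))
      (aE 0 (push F) (1 + x + Complex.I * y) - aE 0 (push F) 1)
    rw [sub_sub_cancel, ← hL] at k6
    have k7 : c / U = c / 2 / U + c / 2 / U := by ring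
    have k8 : c / 2 / U ≤ L := by linarith only [k1, k2, k4, k5, k6, k7]
    have k9 : 16 * a / c ^ 4 * U ^ 2 * (c / 2 / U) ^ 4 ≤ 16 * a / c ^ 4 * U ^ 2 * L ^ 4 := by
      gcongr
    have e : 16 * a / c ^ 4 * U ^ 2 * (c / 2 / U) ^ 4 = a / U ^ 2 := by field_simp; ring
    have e' : x ^ 3 ≤ x := pow_le_of_le_one hx0.le hx1 (by norm_num)
    linarith only [t2, t3, hxa, k9, e, e']
  · have hre : ((1 : ℂ) + x + 2 * Complex.I * y).re = 1 + x := by simp
    have him : ((1 : ℂ) + x + 2 * Complex.I * y).im = 2 * y := by simp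
    have hab : |2 * y| ≤ 2 * |y| + 2 := by rw [abs_mul, abs_two]; linarith only []
    have k1 : ‖LSeries (push (F * F)) (1 + x + 2 * Complex.I * y)‖ ≤ G * U ^ 2 := by
      rw [ti_spec (dg_pos K) T2 (by rw [hre]; linarith only [hx0]), hG, add_mul, add_comm (C₁ * _)]
      refine (norm_add_le _ _).trans (add_le_add ?_ ?_)
      · by_cases h3 : κ = 0
        · rw [h3, zero_div, norm_zero]
          positivity
        have hy2 : a / U ^ 2 < |y| := not_le.1 fun hc => hcase ⟨h3, hc⟩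
        have e1 : |y| ≤ ‖(1 : ℂ) + x + 2 * Complex.I * y - 1‖ := by
          have := Complex.abs_im_le_norm ((1 : ℂ) + x + 2 * Complex.I * y - 1)
          rw [Complex.sub_im, him, Complex.one_im, sub_zero, abs_mul, abs_two] at this
          linarith only [hy, this]
        rw [norm_div]
        calc _ ≤ |C| / (a / U ^ 2) :=
              div_le_div₀ (abs_nonneg C) (T2.le.trans (le_abs_self C)) (by positivity)
                (hy2.le.trans e1)
          _ = _ := by field_simp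
      · have e4 : C₁ * U ≤ C₁ * U ^ 2 := by gcongr
        exact (H3 _ (by rw [hre]; linarith only [hr, hx0]) (by rw [hre]; linarith only [hx1]) (by rwa [him])).trans e4
    have k2 : ‖LSeries (push fun _ : Ideal (𝓞 K) => 1) (1 + x)‖ ≤ C₀ / x := by
      simpa using H0 (fun _ => 1) (fun _ => by simp) (1 + x) (by simpa using hx0)
        (by simp; linarith only [hx1])
    have k3 := three_four_one f1 fm fl hx0 y
    rw [hsp, ← hL] at k3
    have e1 : ‖LSeries (push fun _ : Ideal (𝓞 K) => 1) (1 + x)‖ ^ 3 * L ^ 4 *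
        ‖LSeries (push (F * F)) (1 + x + 2 * Complex.I * y)‖ ≤
        (C₀ / x) ^ 3 * L ^ 4 * (G * U ^ 2) := by gcongr
    have e2 : (C₀ / x) ^ 3 * L ^ 4 * (G * U ^ 2) = C₀ ^ 3 * G * U ^ 2 * L ^ 4 / x ^ 3 := by
      field_simp
    have e3 := (one_le_div (by positivity)).1 (e2 ▸ le_trans k3 e1)
    linarith only [t1, t2, e3]

theorem lb_abs_sum {b : ℕ → ℂ} (hb : ∀ s : ℂ, 1 < s.re → LSeriesSummable b s) (k : ℕ) :
    ∀ s : ℂ, 1 < s.re → LSeriesSummable (LSeries.logMul^[k] b) s := by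
  induction k with
  | zero => exact hb
  | succ k ih =>
    intro s hs
    rw [Function.iterate_succ_apply']
    refine LSeriesSummable_logMul_of_lt_re ?_
    refine lt_of_le_of_lt (b := ((1 : ℝ) : EReal)) ?_ (by exact_mod_cast hs)
    exact LSeries.abscissaOfAbsConv_le_of_forall_lt_LSeriesSummable fun y hy =>
      ih y (by simpa using hy)

variable (K) in
theorem lb_abs (k : ℕ) (C : ℝ) : ∃ η : ℝ, 0 < η ∧ ∀ c : ℝ, 0 < c → ∃ D : ℝ, 0 < D ∧
    ∀ (P : ℝ) (F : Ideal (𝓞 K) → ℂ) (κ : ℂ), 1 ≤ P → F ⊤ = 1 → (∀ I J, F (I * J) = F I * F J) →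
      (∀ I, ‖F I‖ ≤ 1) → TI (dg K) C P 0 (push F) → TI (dg K) C P κ (push (F * F)) →
      (κ = 0 ∨ c / P ^ η ≤ ‖aE 0 (push F) 1‖) → LB k (D * √P) (pushL F) := by
  obtain ⟨η, h0, h1, hη⟩ : ∃ η : ℝ, 0 < η ∧ η ≤ 1 ∧ η * ((7 * (k + 1) : ℕ) : ℝ) = 1 / 2 := by
    refine ⟨1 / (14 * (k + 1)), by positivity, ?_, by push_cast; field_simp; ring⟩
    rw [div_le_one (by positivity)]
    linarith [(k.cast_nonneg : (0 : ℝ) ≤ k)]
  refine ⟨η, h0, fun c hc => ?_⟩
  obtain ⟨D, r, hD, hr, hr1, HD⟩ := lb_abs_up (dg_pos K) C h0 h1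
  obtain ⟨E, hE, HE⟩ := lb_abs_low K C h0 h1 hc
  obtain ⟨C', hC, H⟩ := MP_a96b63_al.H5.abs_log k hr hr1 hD hE
  refine ⟨C', hC, fun P F κ hP f1 fm fl T1 T2 hκ => ?_⟩
  have e : LSeries.logMul^[k] (pushL F) = fun n : ℕ => (Real.log n : ℂ) ^ k * pushL F n := by
    funext n
    rw [logder_iter, Complex.natCast_log]
  refine ⟨fun s hs => e ▸ lb_abs_sum (fun s hs => pushL_summable fl hs) k s hs,
    fun s hs1 hs2 => ?_⟩
  have key := H (aE 0 (push F)) s _ (ti_diff (dg_pos K) T1)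
    ((Real.one_le_rpow hP h0.le).trans (lb_abs_ge h0 hP s.im)) hs1 hs2
    (fun z a1 a2 a3 => HD P 0 _ hP T1 s.im z a1 a2 (MP_a96b63_al.H5.nchi_im a3))
    fun x => HE P F κ hP f1 fm fl T1 T2 hκ x s.im
  have hQ := push_P f1 fm fl
  have hv : ∀ w : ℂ, 1 < w.re → LSeries (push F) w = aE 0 (push F) w := fun w hw => by
    rw [ti_spec (dg_pos K) T1 hw, zero_div, zero_add]
  have ho : IsOpen {z : ℂ | 1 < z.re} := isOpen_lt continuous_const Complex.continuous_re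
  have hev : (fun z => -deriv (aE 0 (push F)) z / aE 0 (push F) z) =ᶠ[nhds s]
      LSeries (pushL F) := by
    filter_upwards [ho.mem_nhds hs1] with z hz
    have e1 : LSeries (push F) =ᶠ[nhds z] aE 0 (push F) :=
      mem_of_superset (ho.mem_nhds hz) fun w hw => hv w hw
    have e2 : aE 0 (push F) z ≠ 0 :=
      hv z hz ▸ right_ne_zero_of_mul_eq_one ((logder_inv f1 fm fl).2 z hz)
    rw [← e1.deriv_eq, LSeries_deriv ((siegel_abs hQ).trans_lt (by exact_mod_cast hz)), neg_neg,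
      div_eq_iff e2, ← hv z hz,
      ← ArithmeticFunction.LSeries_mul' (pushL_summable fl hz) (hQ.sum z hz), ← hQ.der]
    refine LSeries_congr (fun {n} _ => ?_) z
    rw [LSeries.logMul, ArithmeticFunction.pmul_apply, logder_lg, Complex.natCast_log]
  have habs : LSeries.abscissaOfAbsConv (pushL F) < s.re := by
    refine lt_of_le_of_lt (b := ((1 : ℝ) : EReal)) ?_ (by exact_mod_cast hs1)
    exact LSeries.abscissaOfAbsConv_le_of_forall_lt_LSeriesSummable fun y hy =>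
      pushL_summable fl (by simpa using hy)
  rw [hev.iteratedDeriv_eq k, LSeries_iteratedDeriv k habs, norm_mul, norm_pow, norm_neg, norm_one,
    one_pow, one_mul, e, ← Real.rpow_natCast, ← Real.rpow_mul (by positivity), hη,
    ← Real.sqrt_eq_rpow, Real.sqrt_mul (by positivity), ← mul_assoc] at key
  exact key

theorem lb_zeta_low {Z A : ℂ → ℂ} {ρ C₀ D η r : ℝ} (hρ : 0 < ρ) (hC : 0 < C₀) (hD : 0 < D)
    (h0 : 0 < η) (h1 : η ≤ 1) (hr : 0 < r) (hA : Continuous A)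
    (hZ : ∀ s : ℂ, 1 < s.re → Z s = ρ / (s - 1) + A s)
    (H : ∀ s : ℂ, 1 - r ≤ s.re → s.re ≤ 4 → ‖A s‖ ≤ D * (|s.im| + 2) ^ η)
    (hup : ∀ s : ℂ, 1 < s.re → s.re ≤ 2 → ‖Z s‖ ≤ C₀ / (s.re - 1))
    (hlo : ∀ s : ℂ, 1 < s.re → s.re ≤ 2 → 1 ≤ C₀ / (s.re - 1) * ‖Z s‖)
    (h341 : ∀ x y : ℝ, 0 < x → 1 ≤ ‖Z (1 + x)‖ ^ 3 * ‖Z (1 + x + Complex.I * y)‖ ^ 4 *
      ‖Z (1 + x + 2 * Complex.I * y)‖) :
    ∃ E : ℝ, 0 < E ∧ ∀ x y : ℝ, 0 < x → x ≤ 1 → x ^ 3 ≤ E * ((|y| + 2) ^ η) ^ 2 *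
      ‖(ρ + (1 + x + Complex.I * y - 1) * A (1 + x + Complex.I * y)) /
        ((|y| + 2 : ℝ) : ℂ)‖ ^ 4 := by
  have hc : ContinuousAt (fun s : ℂ => (s - 1) * A s) 1 := by fun_prop
  obtain ⟨ε, ε0, hε⟩ := Metric.continuousAt_iff.1 hc (ρ / 2) (half_pos hρ)
  obtain ⟨δ, δ0, δ1, δ2⟩ := MP_a96b63_al.H5.nabs_min 3 one_pos (by norm_num) ε0
  obtain ⟨m, m0, m1, m2⟩ := MP_a96b63_al.H5.nabs_min C₀ (half_pos hρ) hC (mul_pos δ0 δ0)
  obtain ⟨F, F0, hF⟩ : ∃ F : ℝ, 0 < F ∧ F = C₀ ^ 3 * (3 / δ) ^ 4 * (ρ / δ + 2 * D) :=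
    ⟨_, by positivity, rfl⟩
  refine ⟨(3 / m) ^ 4 + F, by positivity, fun x y x0 x1 => ?_⟩
  have hy := abs_nonneg y
  obtain ⟨U, hU⟩ : ∃ U : ℝ, U = (|y| + 2) ^ η := ⟨_, rfl⟩
  have U1 : 1 ≤ U := hU ▸ Real.one_le_rpow (by linarith only [hy]) h0.le
  have U2 : 1 ≤ U ^ 2 := one_le_pow₀ U1
  have n0 : ∀ c : ℝ, ((1 : ℂ) + x + Complex.I * c).re = 1 + x := fun c => by simp
  have n1 : ∀ c : ℝ, |c| ≤ ‖(1 : ℂ) + x + Complex.I * c - 1‖ := fun c => by
    simpa only [Complex.sub_im, Complex.add_im, Complex.one_im, Complex.ofReal_im, add_zero, Complex.mul_im, Complex.I_re, mul_zero, Complex.I_im, Complex.ofReal_re, one_mul, zero_add, sub_zero] using Complex.abs_im_le_norm ((1 : ℂ) + x + Complex.I * c - 1)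
  have n2 : x ≤ ‖(1 : ℂ) + x + Complex.I * y - 1‖ := by
    simpa only [Complex.sub_re, Complex.add_re, Complex.one_re, Complex.ofReal_re, Complex.mul_re, Complex.I_re, zero_mul, Complex.I_im, Complex.ofReal_im, mul_zero, sub_self, add_zero, add_sub_cancel_left] using Complex.re_le_norm ((1 : ℂ) + x + Complex.I * y - 1)
  have n3 : ‖(1 : ℂ) + x + Complex.I * y - 1‖ ≤ x + |y| := by
    simpa only [Complex.sub_re, Complex.add_re, Complex.one_re, Complex.ofReal_re, Complex.mul_re, Complex.I_re, zero_mul, Complex.I_im, Complex.ofReal_im, mul_zero, sub_self, add_zero, add_sub_cancel_left, abs_of_pos x0, Complex.sub_im, Complex.add_im, Complex.one_im, Complex.mul_im, one_mul, zero_add, sub_zero] using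
      Complex.norm_le_abs_re_add_abs_im ((1 : ℂ) + x + Complex.I * y - 1)
  have n4 := n1 y
  have z1 := hZ (1 + x + Complex.I * y) (by rw [n0]; linarith only [x0])
  have z2 := hlo (1 + x + Complex.I * y) (by rw [n0]; linarith only [x0]) (by rw [n0]; linarith only [x1])
  have k4 := h341 x y x0
  rw [n0, add_sub_cancel_left] at z2
  generalize (1 : ℂ) + x + Complex.I * y = s at n2 n3 n4 z1 z2 k4 ⊢
  have s0 : s - 1 ≠ 0 := norm_pos_iff.1 (x0.trans_le n2)
  have e0 : ‖(ρ : ℂ) + (s - 1) * A s‖ = ‖s - 1‖ * ‖Z s‖ := by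
    rw [← norm_mul, z1, mul_add, mul_div_cancel₀ _ s0]
  rw [← hU, norm_div, Complex.norm_real, Real.norm_of_nonneg (by linarith only [hy])]
  obtain ⟨B, hB⟩ : ∃ B : ℝ, B = ‖(ρ : ℂ) + (s - 1) * A s‖ / (|y| + 2) := ⟨_, rfl⟩
  have B0 : 0 ≤ B := by rw [hB]; positivity
  rw [← hB, add_mul, add_mul]
  rcases le_total |y| δ with h | h
  · have k1 : m ≤ ‖(ρ : ℂ) + (s - 1) * A s‖ := by
      rcases le_total x δ with hx | hx
      · have a1 := hε (x := s) (by rw [dist_eq_norm]; linarith only [δ0, δ2, n3, h, hx])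
        rw [sub_self, zero_mul, dist_zero_right] at a1
        have a2 := norm_sub_le ((ρ : ℂ) + (s - 1) * A s) ((s - 1) * A s)
        rw [add_sub_cancel_right, Complex.norm_real, Real.norm_of_nonneg hρ.le] at a2
        linarith only [m1, a1, a2]
      · rw [div_mul_eq_mul_div, one_le_div x0] at z2
        have a1 : δ * δ ≤ ‖s - 1‖ * (C₀ * ‖Z s‖) :=
          mul_le_mul (hx.trans n2) (hx.trans z2) δ0.le (norm_nonneg _)
        rw [e0]
        refine le_of_mul_le_mul_left ?_ hC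
        linarith only [m2, a1]
    have k2 : 1 ≤ 3 / m * B := by
      rw [hB, div_mul_div_comm, one_le_div (by positivity)]
      nlinarith only [δ1, m0, h, k1]
    have k3 : 1 ≤ (3 / m) ^ 4 * B ^ 4 := by
      rw [← mul_pow]
      exact one_le_pow₀ k2
    have k5 : x ^ 3 ≤ 1 := pow_le_one₀ x0.le x1
    have k6 : 0 ≤ F * U ^ 2 * B ^ 4 := by positivity
    have k7 := mul_le_mul_of_nonneg_left U2 (zero_le_one.trans k3)
    linarith only [k3, k5, k6, k7]
  · have k1 : ‖Z s‖ ≤ 3 / δ * B := by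
      rw [hB, e0, div_mul_div_comm, le_div_iff₀ (by positivity)]
      have a1 : δ * (|y| + 2) ≤ 3 * ‖s - 1‖ := by nlinarith only [δ1, hy, n4, h]
      have a2 := mul_le_mul_of_nonneg_left a1 (norm_nonneg (Z s))
      linarith only [a2]
    have k2 : ‖Z (1 + x)‖ ≤ C₀ / x := by
      simpa using hup (1 + x) (by simpa using x0) (by simp; linarith only [x1])
    have k3 : ‖Z (1 + x + 2 * Complex.I * y)‖ ≤ (ρ / δ + 2 * D) * U ^ 2 := by
      have e : (1 : ℂ) + x + 2 * Complex.I * y = 1 + x + Complex.I * (2 * y : ℝ) := by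
        push_cast
        ring
      have a1 : |2 * y| = 2 * |y| := by rw [abs_mul, abs_two]
      have a2 := H (1 + x + Complex.I * (2 * y : ℝ)) (by rw [n0]; linarith only [hr, x0])
        (by rw [n0]; linarith only [x1])
      have a3 : ((1 : ℂ) + x + Complex.I * (2 * y : ℝ)).im = 2 * y := by simp
      have a4 := MP_a96b63_al.H5.nzeta_two h0 h1 (t := |2 * y| + 2) (Y := |y| + 2)
        (by positivity) (by linarith only [a1])
      have a5 : ‖(ρ : ℂ) / ((1 : ℂ) + x + Complex.I * (2 * y : ℝ) - 1)‖ ≤ ρ / δ := by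
        rw [norm_div, Complex.norm_real, Real.norm_of_nonneg hρ.le]
        exact div_le_div_of_nonneg_left hρ.le δ0 (by linarith only [n1 (2 * y), δ0, h, a1])
      rw [a3] at a2
      rw [← hU] at a4
      rw [e, hZ _ (by rw [n0]; linarith only [x0])]
      refine (norm_add_le _ _).trans ?_
      have a6 := mul_le_mul_of_nonneg_left a4 hD.le
      have a7 := mul_le_mul_of_nonneg_left U2 (div_pos hρ δ0).le
      have a8 : D * U ≤ D * U ^ 2 := mul_le_mul_of_nonneg_left (by nlinarith only [U2]) hD.le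
      linarith only [a2, a5, a6, a7, a8]
    have k5 : 1 ≤ (C₀ / x) ^ 3 * (3 / δ * B) ^ 4 * ((ρ / δ + 2 * D) * U ^ 2) :=
      k4.trans (by gcongr)
    have k6 : (C₀ / x) ^ 3 * (3 / δ * B) ^ 4 * ((ρ / δ + 2 * D) * U ^ 2) =
        F * U ^ 2 * B ^ 4 / x ^ 3 := by
      rw [hF, div_pow C₀, mul_pow]
      ring
    rw [k6, one_le_div (by positivity)] at k5
    have k7 : 0 ≤ (3 / m) ^ 4 * U ^ 2 * B ^ 4 := by positivity
    linarith only [k5, k7]

theorem lb_zeta_sum {b : ℕ → ℂ} (hb : ∀ s : ℂ, 1 < s.re → LSeriesSummable b s) (k : ℕ) (s : ℂ)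
    (hs : 1 < s.re) : LSeriesSummable (fun n => (Real.log n : ℂ) ^ k * b n) s := by
  induction k generalizing s with
  | zero => simpa using hb s hs
  | succ k ih =>
    have h1 := LSeries.abscissaOfAbsConv_le_of_forall_lt_LSeriesSummable (x := 1)
      (f := fun n => (Real.log n : ℂ) ^ k * b n) fun y hy => ih y (by simpa using hy)
    have := LSeriesSummable_logMul_of_lt_re (s := s) (h1.trans_lt (by exact_mod_cast hs))
    convert this using 2 with n
    rw [LSeries.logMul, Complex.natCast_log]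
    ring

variable (K) in
theorem lb_zeta_der {z : ℂ} (hz : 1 < z.re) :
    LSeries (push fun _ : Ideal (𝓞 K) => 1) z ≠ 0 ∧
      deriv (LSeries (push fun _ : Ideal (𝓞 K) => 1)) z =
        -(LSeries (pushL fun _ : Ideal (𝓞 K) => 1) z *
          LSeries (push fun _ : Ideal (𝓞 K) => 1) z) := by
  have hP := siegel_P1 K
  have hf : ∀ I : Ideal (𝓞 K), ‖(fun _ : Ideal (𝓞 K) => (1 : ℂ)) I‖ ≤ 1 := fun _ => by simp
  refine ⟨right_ne_zero_of_mul_eq_one
    ((logder_inv rfl (fun _ _ => (one_mul _).symm) hf).2 z hz), ?_⟩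
  rw [LSeries_deriv ((siegel_abs hP).trans_lt (by exact_mod_cast hz)),
    ← ArithmeticFunction.LSeries_mul' (pushL_summable hf hz) (hP.sum z hz), ← hP.der, neg_inj]
  refine LSeries_congr (fun {n} _ => ?_) z
  rw [LSeries.logMul, ArithmeticFunction.pmul_apply, logder_lg, Complex.natCast_log]

variable (K) in
theorem lb_zeta (k : ℕ) : ∃ D : ℝ, 0 < D ∧ LB k D fun n => (lamK K n : ℂ) - 1 := by
  obtain ⟨η, h0, h1, hη⟩ : ∃ η : ℝ, 0 < η ∧ η ≤ 1 ∧ η * ((7 * (k + 1) : ℕ) : ℝ) = 1 / 2 := by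
    refine ⟨1 / (14 * (k + 1)), by positivity, ?_, ?_⟩
    · rw [div_le_one (by positivity)]
      linarith [(Nat.cast_nonneg k : (0 : ℝ) ≤ k)]
    · push_cast
      field_simp
      ring
  have hf : ∀ I : Ideal (𝓞 K), ‖(fun _ : Ideal (𝓞 K) => (1 : ℂ)) I‖ ≤ 1 := fun _ => by simp
  have hm : ∀ I J : Ideal (𝓞 K), (fun _ : Ideal (𝓞 K) => (1 : ℂ)) (I * J) =
      (fun _ : Ideal (𝓞 K) => (1 : ℂ)) I * (fun _ : Ideal (𝓞 K) => (1 : ℂ)) J :=
    fun _ _ => (one_mul _).symm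
  obtain ⟨ρ, hρ, hκ⟩ := kap_one K
  obtain ⟨C₁, -, hT⟩ := pf_ti K
  have hTI := hT 1 _ pf_one
  rw [hκ, Nat.cast_one] at hTI
  obtain ⟨D, r, hD, r0, r1, HD⟩ := ti_near (dg_pos K) C₁ h0 h1
  have HA := HD 1 _ _ le_rfl hTI
  simp only [one_mul] at HA
  have hA := ti_diff (dg_pos K) hTI
  have hZ := fun s hs => ti_spec (dg_pos K) hTI (s := s) hs
  obtain ⟨C₀, hC₀, H0⟩ := LSeries_le K
  generalize aE (ρ : ℂ) (push fun _ : Ideal (𝓞 K) => (1 : ℂ)) = A at HA hA hZ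
  obtain ⟨E, hE, HE⟩ := lb_zeta_low hρ hC₀ hD h0 h1 r0 hA.continuous hZ HA (H0 _ hf)
    (fun s a1 a2 => by
      obtain ⟨i1, i2⟩ := logder_inv rfl hm hf
      have i3 := congrArg norm (i2 s a1)
      rw [norm_mul, norm_one] at i3
      exact i3.ge.trans (mul_le_mul_of_nonneg_right (H0 _ i1 s a1 a2) (norm_nonneg _)))
    (fun x y hx => by
      have := three_four_one rfl hm hf hx y
      rwa [show ((fun _ => 1) * fun _ => 1 : Ideal (𝓞 K) → ℂ) = fun _ => 1 from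
        funext fun _ => one_mul 1] at this)
  obtain ⟨C, hC, H⟩ := MP_a96b63_al.H5.zH_le h0 h1
  have t0 : 0 < η / 20 := by positivity
  have t1 : η / 20 ≤ 1 := by linarith only [h1, r0, r1]
  obtain ⟨C', hC', H'⟩ := MP_a96b63_al.H5.abs_log k r0 (by linarith only [r0, r1]) (D := ρ + 6 * D)
    (by positivity) hE
  have eL : ((pushL fun _ : Ideal (𝓞 K) => (1 : ℂ)) : ℕ → ℂ) = fun n => (lamK K n : ℂ) :=
    funext fun n => (pushL_norm (K := K) (fun _ => 1) n).trans (mul_one _)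
  have hsL : ∀ s : ℂ, 1 < s.re → LSeriesSummable (fun n => (lamK K n : ℂ)) s := fun s hs =>
    eL ▸ pushL_summable hf hs
  have hsum : ∀ s : ℂ, 1 < s.re → LSeriesSummable (fun n => (lamK K n : ℂ) - 1) s :=
    fun s hs => (hsL s hs).sub (LSeriesSummable_one_iff.2 hs)
  refine ⟨C' + k.factorial * (2 * C) / (η / 20) ^ k, by positivity, lb_zeta_sum hsum k,
    fun s hs1 hs2 => ?_⟩
  have hy := abs_nonneg s.im
  obtain ⟨U, hU⟩ : ∃ U : ℝ, U = (|s.im| + 2) ^ η := ⟨_, rfl⟩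
  have U1 : 1 ≤ U := hU ▸ Real.one_le_rpow (by linarith only [r0, r1, hy]) h0.le
  have U2 : U ^ (7 * (k + 1)) = √(|s.im| + 2) := by
    rw [hU, ← Real.rpow_natCast, ← Real.rpow_mul (by linarith only [r0, r1, hy]), hη, Real.sqrt_eq_rpow]
  have U3 : U ≤ √(|s.im| + 2) := U2 ▸ le_self_pow₀ U1 (by omega)
  have Y0 : ((|s.im| + 2 : ℝ) : ℂ) ≠ 0 := Complex.ofReal_ne_zero.2 (by linarith only [r0, r1, hy])
  obtain ⟨g, hg⟩ : ∃ g : ℂ → ℂ, g = fun z => (ρ : ℂ) + (z - 1) * A z := ⟨_, rfl⟩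
  have gd : Differentiable ℂ g := by
    rw [hg]
    fun_prop
  have ge : ∀ z : ℂ, 1 < z.re → g z = (z - 1) * LSeries (push fun _ : Ideal (𝓞 K) => 1) z := by
    intro z hz
    have z1 : z - 1 ≠ 0 := sub_ne_zero.2 fun e => by simp [e] at hz
    rw [hZ z hz, mul_add, mul_div_cancel₀ _ z1, hg]
  obtain ⟨f, hf'⟩ : ∃ f : ℂ → ℂ, f = fun z => g z / ((|s.im| + 2 : ℝ) : ℂ) := ⟨_, rfl⟩
  have fd : Differentiable ℂ f := hf' ▸ gd.div_const _
  have im1 : ∀ z : ℂ, |z.im - s.im| ≤ 2 → |z.im| ≤ |s.im| + 2 := fun z hz => by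
    linarith only [abs_sub_abs_le_abs_sub z.im s.im, hz]
  have im2 : ∀ z : ℂ, |z.im - s.im| ≤ 2 → (|z.im| + 2) ^ η ≤ 2 * U := fun z a3 =>
    hU ▸ MP_a96b63_al.H5.nzeta_two h0 h1 (by positivity) (by linarith only [im1 z a3, hy])
  have b1 : ∀ z : ℂ, 1 - η / 20 ≤ z.re → z.re ≤ 4 → |z.im - s.im| ≤ 2 →
      ‖MP_a96b63_al.H5.zH z‖ ≤ 2 * C * U := fun z a1 a2 a3 => by
    linarith only [H z a1 a2, mul_le_mul_of_nonneg_left (im2 z a3) hC.le]
  have k1 := H' f s U fd U1 hs1 hs2 (fun z a1 a2 a3 => by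
    have a4 : ‖z - 1‖ ≤ 3 * (|s.im| + 2) := by
      have := Complex.norm_le_abs_re_add_abs_im (z - 1)
      simp only [Complex.sub_re, Complex.one_re, Complex.sub_im, Complex.one_im, sub_zero] at this
      linarith only [im1 z a3, (abs_le.2 ⟨by linarith only [r0, r1, a1], by linarith only [a2]⟩ : |z.re - 1| ≤ 3), r0, r1, hy, this]
    have a5 := mul_le_mul a4 ((HA z a1 a2).trans (mul_le_mul_of_nonneg_left (im2 z a3) hD.le))
      (norm_nonneg _) (by positivity)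
    have a6 : ρ * 1 ≤ ρ * (U * (|s.im| + 2)) :=
      mul_le_mul_of_nonneg_left (one_le_mul_of_one_le_of_one_le U1 (by linarith only [r0, r1, hy])) hρ.le
    rw [hf', hg]
    beta_reduce
    rw [norm_div, Complex.norm_real, Real.norm_of_nonneg (by linarith only [r0, r1, hy]), div_le_iff₀ (by linarith only [r0, r1, hy])]
    refine (norm_add_le _ _).trans ?_
    rw [Complex.norm_real, Real.norm_of_nonneg hρ.le, norm_mul]
    linarith only [a5, a6]) (fun x x0 x1 => by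
      rw [hf', hg, hU]
      exact HE x s.im x0 x1)
  have k2 := MP_a96b63_al.H5.abs_iter k t0 t1 MP_a96b63_al.H5.zH_diff hs1 hs2 b1
  have ho : IsOpen {z : ℂ | 1 < z.re} := isOpen_lt continuous_const Complex.continuous_re
  have hev : (fun z => -deriv f z / f z - MP_a96b63_al.H5.zH z) =ᶠ[nhds s]
      LSeries fun n : ℕ => (lamK K n : ℂ) - 1 := by
    filter_upwards [ho.mem_nhds hs1] with z hz
    have z1 : z ≠ 1 := fun e => by simp [e] at hz
    have z3 := sub_ne_zero.2 z1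
    obtain ⟨z2, z4⟩ := lb_zeta_der K hz
    have d0 := (LSeries_hasDerivAt (s := z) ((siegel_abs (siegel_P1 K)).trans_lt
      (by exact_mod_cast hz))).differentiableAt.hasDerivAt
    have d1 : deriv g z = 1 * LSeries (push fun _ : Ideal (𝓞 K) => 1) z +
        (z - 1) * deriv (LSeries (push fun _ : Ideal (𝓞 K) => 1)) z :=
      ((((hasDerivAt_id z).sub_const 1).mul d0).congr_of_eventuallyEq
        (by filter_upwards [ho.mem_nhds hz] with w hw using ge w hw)).deriv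
    have d2 : LSeries (fun n : ℕ => (lamK K n : ℂ) - 1) z =
        LSeries (fun n : ℕ => (lamK K n : ℂ)) z - LSeries 1 z :=
      LSeries_sub (hsL z hz) (LSeriesSummable_one_iff.2 hz)
    rw [d2, LSeries_one_eq_riemannZeta hz, MP_a96b63_al.H5.zeta_eq_zH z1, hf', deriv_div_const,
      d1, z4, eL]
    beta_reduce
    rw [ge z hz]
    field_simp
    ring
  have habs : LSeries.abscissaOfAbsConv (fun n : ℕ => (lamK K n : ℂ) - 1) < s.re := by
    refine lt_of_le_of_lt (b := ((1 : ℝ) : EReal)) ?_ (by exact_mod_cast hs1)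
    exact LSeries.abscissaOfAbsConv_le_of_forall_lt_LSeriesSummable fun y hy =>
      hsum y (by simpa using hy)
  have f0 : f s ≠ 0 := by
    rw [hf']
    refine div_ne_zero ?_ Y0
    rw [ge s hs1]
    exact mul_ne_zero (sub_ne_zero.2 fun e => by simp [e] at hs1) (lb_zeta_der K hs1).1
  have an : AnalyticAt ℂ (fun z => -deriv f z / f z) s :=
    (fd.analyticAt s).deriv.fun_neg.fun_div (fd.analyticAt s) f0
  have k3 := congrArg norm (hev.iteratedDeriv_eq k)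
  rw [LSeries_iteratedDeriv k habs, norm_mul, norm_pow, norm_neg, norm_one, one_pow, one_mul,
    iteratedDeriv_fun_sub an.contDiffAt (MP_a96b63_al.H5.zH_diff.analyticAt s).contDiffAt] at k3
  have e : (LSeries.logMul^[k] fun n : ℕ => (lamK K n : ℂ) - 1) =
      fun n : ℕ => (Real.log n : ℂ) ^ k * ((lamK K n : ℂ) - 1) := by
    funext n
    rw [logder_iter, Complex.natCast_log]
  rw [← e, ← k3, add_mul]
  refine (norm_sub_le _ _).trans (add_le_add (U2 ▸ k1) (k2.trans ?_))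
  rw [div_mul_eq_mul_div, mul_assoc (k.factorial : ℝ)]
  gcongr

theorem sharpC_part (A B : ℕ) {c M : ℝ} (hc : 0 ≤ c) (hM : 0 ≤ M) {x m j : ℕ} {L : ℝ}
    (hL : L = Real.log x) (L1 : 1 ≤ L) (x2 : 2 ≤ x) (m1 : (m : ℝ) * L ^ (A + 1) ≤ x)
    (m3 : (x : ℝ) ≤ 2 * m * L ^ (A + 1)) (m0 : 0 < m) (j1 : m ≤ j) (j2 : j ≤ x) {u : ℕ → ℝ}
    (hu : ∀ n, -c ≤ u n)
    (hR : ∀ i : ℕ, |∑ n ∈ Icc 1 i, Real.log n ^ (2 * A + B + 2) * u n * ((i : ℝ) - n)| ≤
      M * L ^ B * (i : ℝ) ^ 2) :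
    |∑ n ∈ Icc 1 j, Real.log n ^ (2 * A + B + 2) * u n| ≤
      (c * 2 ^ (2 * A + B + 2) + 16 * M) * x * L ^ (A + B + 1) := by
  have L0 : 0 < L := by linarith only [L1]
  have m0' : (0 : ℝ) < m := by exact_mod_cast m0
  have x2' : (2 : ℝ) ≤ x := by exact_mod_cast x2
  have a := MP_a96b63_al.H5.differ (fun n => Real.log n ^ (2 * A + B + 2) * u n)
    (y := j) (m := m) m0 j1 (H := c * (2 * L) ^ (2 * A + B + 2))
    (ρ := M * L ^ B * (2 * x) ^ 2) (fun n hn => ?_) (by positivity) fun i _ i2 => ?_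
  · refine a.trans ?_
    have b1 : m * (c * (2 * L) ^ (2 * A + B + 2)) ≤
        c * 2 ^ (2 * A + B + 2) * x * L ^ (A + B + 1) := by
      calc _ = c * 2 ^ (2 * A + B + 2) * (m * L ^ (A + 1)) * L ^ (A + B + 1) := by ring
        _ ≤ _ := by gcongr
    have b2 : 2 * (M * L ^ B * (2 * x) ^ 2) / m ≤ 16 * M * x * L ^ (A + B + 1) := by
      rw [div_le_iff₀ m0']
      calc _ = 8 * M * L ^ B * x * x := by ring
        _ ≤ 8 * M * L ^ B * x * (2 * m * L ^ (A + 1)) := by gcongr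
        _ = _ := by ring
    rw [add_mul, add_mul]
    linarith only [b1, b2]
  · have l0 := Real.log_natCast_nonneg n
    have l1 : Real.log n ≤ 2 * L := by
      rcases Nat.eq_zero_or_pos n with rfl | n0
      · simp [L0.le]
      · have : (n : ℝ) ≤ x ^ 2 := by
          have : (n : ℝ) ≤ 2 * x := by exact_mod_cast (by omega : n ≤ 2 * x)
          nlinarith only [x2', this]
        have := Real.log_le_log (by exact_mod_cast n0) this
        rw [Real.log_pow, ← hL] at this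
        exact_mod_cast this
    have l2 : Real.log n ^ (2 * A + B + 2) ≤ (2 * L) ^ (2 * A + B + 2) := by gcongr
    have l3 := mul_le_mul_of_nonneg_left (hu n) (pow_nonneg l0 (2 * A + B + 2))
    have l4 := mul_le_mul_of_nonneg_left l2 hc
    linarith only [l3, l4]
  · refine (hR i).trans ?_
    have : (i : ℝ) ≤ 2 * x := by exact_mod_cast (by omega : i ≤ 2 * x)
    gcongr

theorem sharpC_real (A B : ℕ) {c M : ℝ} (hc : 0 ≤ c) (hM : 0 ≤ M) : ∀ᶠ x : ℕ in atTop,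
    ∀ u : ℕ → ℝ, (∀ n, -c ≤ u n) → (∀ y : ℕ, |∑ n ∈ Icc 1 y, u n| ≤ 3 * c * y) →
      (∀ i : ℕ, |∑ n ∈ Icc 1 i, Real.log n ^ (2 * A + B + 2) * u n * ((i : ℝ) - n)| ≤
        M * Real.log x ^ B * (i : ℝ) ^ 2) → ∀ y : ℕ, y ≤ x →
        |∑ n ∈ Icc 1 y, u n| ≤ x / Real.log x ^ A := by
  obtain ⟨k, hk⟩ : ∃ k, k = 2 * A + B + 2 := ⟨_, rfl⟩
  obtain ⟨C, hC⟩ : ∃ C : ℝ, C = c * 2 ^ k + 16 * M := ⟨_, rfl⟩
  have C0 : 0 ≤ C := by rw [hC]; positivity
  filter_upwards [MP_a96b63_al.H5.ev_log (A + 1) (c := 2) (r := 1 / 2) (by norm_num),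
    MP_a96b63_al.H5.ev_log_ge 1, MP_a96b63_al.H5.ev_log_ge (6 * c),
    MP_a96b63_al.H5.ev_log_ge (4 * 2 ^ k * C), eventually_ge_atTop 2] with x h2 h3 h4 h5 h6
    u hu h0 hR y hy
  obtain ⟨L, hL⟩ : ∃ L, L = Real.log x := ⟨_, rfl⟩
  rw [← hL] at h2 h3 h4 h5 hR ⊢
  rw [← Real.sqrt_eq_rpow] at h2
  have x2 : (2 : ℝ) ≤ x := by exact_mod_cast h6
  have L0 : 0 < L := by linarith only [h3]
  have LA0 : 0 < L ^ (A + 1) := by positivity
  have s1 : 1 ≤ √(x : ℝ) := Real.one_le_sqrt.2 (by linarith only [x2])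
  have s2 : √(x : ℝ) * √(x : ℝ) = x := Real.mul_self_sqrt (by linarith only [x2])
  have s3 : √(x : ℝ) ≤ x := by nlinarith only [s1, s2]
  obtain ⟨m, hm⟩ : ∃ m, m = ⌊x / L ^ (A + 1)⌋₊ := ⟨_, rfl⟩
  have m1 : (m : ℝ) * L ^ (A + 1) ≤ x :=
    (le_div_iff₀ LA0).1 (hm ▸ Nat.floor_le (by positivity))
  have m2 : x < (m + 1 : ℝ) * L ^ (A + 1) :=
    (div_lt_iff₀ LA0).1 (hm ▸ Nat.lt_floor_add_one _)
  have m3 : (x : ℝ) ≤ 2 * m * L ^ (A + 1) := by linarith only [h2, s3, m2]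
  have m4 : √(x : ℝ) ≤ m := by
    have b : √(x : ℝ) * √(x : ℝ) ≤ √(x : ℝ) * m := by
      have := mul_le_mul_of_nonneg_left h2 (Nat.cast_nonneg (α := ℝ) m)
      linarith only [h2, s2, s3, m2, this]
    exact le_of_mul_le_mul_left b (by linarith only [h2, LA0])
  have m0 : 0 < m := by
    have : (0 : ℝ) < m := by linarith only [h2, LA0, m4]
    exact_mod_cast this
  have m5 : L / 2 ≤ Real.log m := by
    rw [hL, ← Real.log_sqrt (by linarith only [x2])]
    exact Real.log_le_log (by linarith only [h2, LA0]) m4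
  have t0 : ∀ z : ℕ, z ≤ m → |∑ n ∈ Icc 1 z, u n| ≤ x / L ^ A / 2 := fun z hz => by
    refine (h0 z).trans ?_
    have z1 : (z : ℝ) ≤ m := by exact_mod_cast hz
    rw [le_div_iff₀ two_pos, le_div_iff₀ (by positivity)]
    calc _ = 6 * c * (z * L ^ A) := by ring
      _ ≤ L * (m * L ^ A) := by gcongr
      _ = m * L ^ (A + 1) := by ring
      _ ≤ _ := m1
  have t1 : 0 ≤ x / L ^ A := by positivity
  rcases le_total y m with hym | hym
  · linarith only [t0 y hym, t1]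
  have hl : ∀ a b : ℕ, m ≤ a → a ≤ b → Real.log a ≤ Real.log b := fun a b ha hb =>
    Real.log_le_log (by exact_mod_cast m0.trans_le ha) (by exact_mod_cast hb)
  have hp : ∀ n : ℕ, m ≤ n → 0 < Real.log n := fun n hn => by linarith only [hl m n le_rfl hn, h3, m5]
  have h1 : ∀ j : ℕ, m ≤ j → j ≤ x →
      |∑ n ∈ Ioc 0 j, Real.log n ^ k * u n| ≤ C * x * L ^ (A + B + 1) := fun j j1 j2 => by
    rw [hC, hk]
    exact sharpC_part A B hc hM hL h3 h6 m1 m3 m0 j1 j2 hu hR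
  have a := MP_a96b63_al.H5.nswb_abel (fun n => Real.log n ^ k * u n)
    (fun n => (Real.log n ^ k)⁻¹) hym
    (B := 2 * (C * x * L ^ (A + B + 1))) (fun j j1 j2 => ?_) (fun n hn => ?_)
    (by have := hp y hym; positivity)
  · rw [sum_congr rfl (g := u) fun n hn => by
      have := hp n (mem_Ioc.1 hn).1.le
      field_simp] at a
    have b : 2 * (C * x * L ^ (A + B + 1)) * (Real.log m ^ k)⁻¹ ≤ x / L ^ A / 2 := by
      calc _ ≤ 2 * (C * x * L ^ (A + B + 1)) * ((L / 2) ^ k)⁻¹ := by gcongr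
        _ = 4 * 2 ^ k * C / L * (x / L ^ A / 2) := by
            rw [div_pow, hk]
            field_simp
            ring
        _ ≤ _ := mul_le_of_le_one_left (by positivity) ((div_le_one L0).2 h5)
    have e : ∑ n ∈ Icc 1 y, u n = ∑ n ∈ Icc 1 m, u n + ∑ n ∈ Ioc m y, u n :=
      (sum_Ioc_consecutive u (Nat.zero_le m) hym).symm
    rw [e]
    refine (abs_add_le _ _).trans ?_
    linarith only [t0 m le_rfl, a, b]
  · have b1 := abs_le.1 (h1 m le_rfl (hym.trans hy))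
    have b2 := abs_le.1 (h1 j j1 (j2.trans hy))
    rw [← sum_Ioc_consecutive _ (Nat.zero_le m) j1] at b2
    rw [abs_le]
    constructor <;> linarith only [b1, b2]
  · have b1 := hp n hn
    have b2 := hl n (n + 1) hn (by omega)
    gcongr

theorem sharpC (A B : ℕ) : ∃ k : ℕ, ∀ c : ℝ, ∀ᶠ x : ℕ in atTop,
    ∀ (a : ℕ → ℂ) (r : ℕ → ℝ) (ρ : ℝ), (∀ n, ‖a n‖ ≤ r n) → |ρ| ≤ c →
      (∀ y : ℕ, ∑ n ∈ Icc 1 y, r n ≤ c * y) → LB k (c * Real.log x ^ B) a →
      LB k (c * Real.log x ^ B) (fun n => (r n : ℂ) - ρ) → ∀ y : ℕ, y ≤ x →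
        ‖∑ n ∈ Icc 1 y, a n‖ ≤ x / Real.log x ^ A ∧
          |∑ n ∈ Icc 1 y, r n - ρ * y| ≤ x / Real.log x ^ A := by
  obtain ⟨C, hC, H⟩ := MP_a96b63_al.H5.riesz
  refine ⟨2 * (A + 1) + B + 2, fun c => ?_⟩
  rcases lt_or_ge c 0 with hc | hc
  · exact Eventually.of_forall fun x a r ρ _ h => absurd ((abs_nonneg ρ).trans h) (not_le.2 hc)
  filter_upwards [sharpC_real (A + 1) B hc (M := 2 * C * c) (by positivity),
    MP_a96b63_al.H5.ev_log_ge 2] with x h1 h2 a r ρ ha hρ hr b1 b2 y hy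
  have key : ∀ w : ℂ, ‖w‖ ≤ 1 →
      |∑ n ∈ Icc 1 y, (r n - ρ + (w * a n).re)| ≤ x / Real.log x ^ (A + 1) := fun w hw => by
    have a1 : ∀ n, |(w * a n).re| ≤ r n := fun n => by
      refine (Complex.abs_re_le_norm _).trans ?_
      rw [norm_mul]
      exact (mul_le_of_le_one_left (norm_nonneg _) hw).trans (ha n)
    have a2 := abs_le.1 hρ
    refine h1 _ (fun n => by linarith only [(abs_le.1 (a1 n)).1, a2]) (fun z => ?_) (fun i => ?_) y hy
    · refine (abs_sum_le_sum_abs _ _).trans ((sum_le_sum (g := fun n => 2 * r n + c)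
        fun n _ => ?_).trans ?_)
      · have a3 := abs_le.1 (a1 n)
        rw [abs_le]
        constructor <;> linarith only [a2, a3]
      · rw [sum_add_distrib, ← mul_sum, sum_const, Nat.card_Icc, Nat.add_sub_cancel, nsmul_eq_mul]
        linarith only [hr z]
    · have c1 := H _ _ b1.1 b1.2 i
      have c2 := H _ _ b2.1 b2.2 i
      have e : ∑ n ∈ Icc 1 i, Real.log n ^ (2 * (A + 1) + B + 2) * (r n - ρ + (w * a n).re) *
          ((i : ℝ) - n) = (MP_a96b63_al.H5.Rz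
            (fun n => (Real.log n : ℂ) ^ (2 * (A + 1) + B + 2) * ((r n : ℂ) - ρ)) i +
          w * MP_a96b63_al.H5.Rz
            (fun n => (Real.log n : ℂ) ^ (2 * (A + 1) + B + 2) * a n) i).re := by
        rw [MP_a96b63_al.H5.Rz, MP_a96b63_al.H5.Rz, mul_sum, ← sum_add_distrib, Complex.re_sum]
        refine sum_congr rfl fun n _ => ?_
        rw [show (Real.log n : ℂ) ^ (2 * (A + 1) + B + 2) * ((r n : ℂ) - ρ) * ((i : ℂ) - n) +
            w * ((Real.log n : ℂ) ^ (2 * (A + 1) + B + 2) * a n * ((i : ℂ) - n)) =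
            ((Real.log n ^ (2 * (A + 1) + B + 2) * ((i : ℝ) - n) : ℝ) : ℂ) *
              (((r n - ρ : ℝ) : ℂ) + w * a n) by
              simp only [Complex.ofReal_mul, Complex.ofReal_pow, Complex.ofReal_sub,
                Complex.ofReal_natCast]
              ring, Complex.re_ofReal_mul, Complex.add_re, Complex.ofReal_re]
        ring
      rw [e]
      refine (Complex.abs_re_le_norm _).trans ((norm_add_le _ _).trans ?_)
      rw [norm_mul]
      have c3 := (mul_le_of_le_one_left (norm_nonneg _) hw).trans c1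
      linarith only [c2, c3]
  have L0 : 0 < Real.log x := by linarith
  have t : 2 * (x / Real.log x ^ (A + 1)) ≤ x / Real.log x ^ A := by
    calc _ = 2 / Real.log x * (x / Real.log x ^ A) := by field_simp; ring
      _ ≤ _ := mul_le_of_le_one_left (by positivity) ((div_le_one L0).2 h2)
  have k0 := key 0 (by simp)
  simp only [zero_mul, Complex.zero_re, add_zero] at k0
  obtain ⟨w, w1, w2⟩ := Complex.exists_norm_eq_mul_self (∑ n ∈ Icc 1 y, a n)
  have k1 := key w w1.le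
  rw [sum_add_distrib, ← Complex.re_sum, ← mul_sum, ← w2, Complex.ofReal_re] at k1
  have k2 := abs_le.1 k0
  refine ⟨by linarith only [(abs_le.1 k1).2, t, k2], ?_⟩
  rw [sum_sub_distrib, sum_const, Nat.card_Icc, Nat.add_sub_cancel, nsmul_eq_mul, mul_comm] at k0
  linarith [abs_nonneg (∑ n ∈ Icc 1 y, r n - ρ * y)]

theorem gc_rep_cop {a b : ℕ} {I : Ideal (𝓞 K)} (h : Cop b I) (hab : a ∣ b) : Cop a I :=
  cop_iff.2 ((cop_iff.1 h).coprime_dvd_right hab)

theorem gc_rep_eq {q q' : ℕ} {F F' : Ideal (𝓞 K) → ℂ} (h : HC q F) (h' : HC q' F')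
    (hB : BB K ∣ q) (hr : Rl F) (hr' : Rl F') (hk : kap (F * F') ≠ 0) {I : Ideal (𝓞 K)}
    (hI : I ≠ ⊥) (hc : Cop q I) (hc' : Cop q' I) : F I = F' I := by
  have e := dichotomy (h.mul' h') (hB.mul_right _) hk hI
    (cop_iff.2 ((cop_iff.1 hc).mul_right (cop_iff.1 hc')))
  have e1 := congrArg Complex.re e
  rw [Pi.mul_apply, Complex.mul_re, hr I hI, zero_mul, sub_zero, Complex.one_re] at e1
  have a1 := abs_le.1 ((Complex.abs_re_le_norm _).trans (h.le I))
  have a2 := abs_le.1 ((Complex.abs_re_le_norm _).trans (h'.le I))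
  refine Complex.ext ?_ ((hr I hI).trans (hr' I hI).symm)
  refine sub_eq_zero.1 (pow_eq_zero_iff two_ne_zero |>.1 (le_antisymm ?_ (sq_nonneg _)))
  linarith only [mul_nonneg (sub_nonneg.2 a1.2) (neg_le_iff_add_nonneg.1 a1.1), mul_nonneg (sub_nonneg.2 a2.2) (neg_le_iff_add_nonneg.1 a2.1), e1]

theorem gc_rep_bot {q : ℕ} {F : Ideal (𝓞 K) → ℂ} (h : HC q F) (hk : kap F = 0) : F ⊥ = 0 := by
  by_contra h0
  obtain ⟨ρ, hρ, e⟩ := kap_one (K := K)
  have e1 : F = fun _ => 1 := funext fun J => mul_left_cancel₀ h0 (by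
    rw [← h.mul, Ideal.bot_mul, mul_one])
  rw [e1, e] at hk
  exact hρ.ne' (Complex.ofReal_eq_zero.1 hk)

variable (K) in
theorem gc_rep {η : ℝ} (hη : 0 < η) : ∃ c : ℝ, 0 < c ∧ ∀ (q : ℕ) (F : Ideal (𝓞 K) → ℂ),
    HC q F → BB K ∣ q → Rl F → NP q F → ∃ (q₀ : ℕ) (F₀ : Ideal (𝓞 K) → ℂ), q₀ ≤ q ∧ HC q₀ F₀ ∧
      kap F₀ = 0 ∧ (∀ I, I ≠ ⊥ → Cop q.factorial I → F I = F₀ I) ∧
        c / (q₀ : ℝ) ^ η ≤ ‖Ent F₀ 1‖ := by
  let A : ℕ × (Ideal (𝓞 K) → ℂ) → Prop := fun p =>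
    HC p.1 p.2 ∧ BB K ∣ p.1 ∧ Rl p.2 ∧ kap p.2 = 0
  let S : Set (ℕ × (Ideal (𝓞 K) → ℂ)) :=
    {p | A p ∧ ∀ p', A p' → kap (p.2 * p'.2) ≠ 0 → p.1 ≤ p'.1}
  have hS : Fam S := by
    refine ⟨fun p hp => ⟨hp.1.1, hp.1.2.1, hp.1.2.2.2⟩, fun p hp => (Set.finite_singleton p).subset ?_⟩
    rintro p' ⟨hp', hk⟩
    have e : p'.1 = p.1 := le_antisymm (hp'.2 p hp.1 (by rwa [mul_comm])) (hp.2 p' hp'.1 hk)
    refine Prod.ext e (funext fun I => ?_)
    rcases eq_or_ne I ⊥ with rfl | hI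
    · rw [gc_rep_bot hp.1.1 hp.1.2.2.2, gc_rep_bot hp'.1.1 hp'.1.2.2.2]
    by_cases hc : Cop p.1 I
    · exact (gc_rep_eq hp.1.1 hp'.1.1 hp.1.2.1 hp.1.2.2.1 hp'.1.2.2.1 hk hI hc (e ▸ hc)).symm
    · rw [not_not.1 fun h => hc (hp.1.1.cop I h), not_not.1 fun h => hc (e ▸ hp'.1.1.cop I h)]
  obtain ⟨c, hc, hs⟩ := siegelK hS hη
  have key : ∀ (q : ℕ) (F : Ideal (𝓞 K) → ℂ), A (q, F) →
      ∃ p ∈ S, p.1 ≤ q ∧ ∀ I, I ≠ ⊥ → Cop q.factorial I → F I = p.2 I := by
    intro q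
    induction q using Nat.strong_induction_on with
    | _ q ih =>
      intro F hF
      by_cases hm : (q, F) ∈ S
      · exact ⟨_, hm, le_rfl, fun _ _ _ => rfl⟩
      obtain ⟨p', hp', hk, hl⟩ : ∃ p', A p' ∧ kap (F * p'.2) ≠ 0 ∧ p'.1 < q := by
        by_contra hn
        exact hm ⟨hF, fun p' h1 h2 => not_lt.1 fun h3 => hn ⟨p', h1, h2, h3⟩⟩
      obtain ⟨p, hp, h1, h2⟩ := ih p'.1 hl p'.2 hp'
      refine ⟨p, hp, h1.trans hl.le, fun I hI hC => ?_⟩
      rw [← h2 I hI (gc_rep_cop hC (Nat.factorial_dvd_factorial hl.le))]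
      exact gc_rep_eq hF.1 hp'.1 hF.2.1 hF.2.2.1 hp'.2.2.1 hk hI
        (gc_rep_cop hC (Nat.dvd_factorial hF.1.pos le_rfl))
        (gc_rep_cop hC (Nat.dvd_factorial hp'.1.pos hl.le))
  refine ⟨c, hc, fun q F h hB hr ⟨I, hI, hC, h1⟩ => ?_⟩
  obtain ⟨p, hp, h2, h3⟩ := key q F ⟨h, hB, hr, not_not.1 fun hk => h1 (dichotomy h hB hk hI hC)⟩
  exact ⟨p.1, p.2, h2, hp.1.1, hp.1.2.2.2, h3, hs p hp hp.1.2.2.1⟩

theorem gc_cmp_prime {F F' : Ideal (𝓞 K) → ℂ} {p : ℕ} (hp : p.Prime) :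
    pushP F p - pushL F' p = ∑ I ∈ idN K p, (Real.log p : ℂ) * (F I - F' I) := by
  rw [pushP, if_pos hp, pushL, push_apply _ hp.ne_zero, push_apply _ hp.ne_zero, mul_sum,
    ← sum_sub_distrib]
  refine sum_congr rfl fun I hI => ?_
  have h := (mem_idN K).1 hI
  have h1 : Prime I := Ideal.prime_of_isPrime
    (fun e => hp.ne_zero (h ▸ Ideal.absNorm_eq_zero_iff.2 e))
    (Ideal.isPrime_of_irreducible_absNorm (h ▸ hp))
  rw [← h, ← arith_lam_pow h1 one_ne_zero, pow_one, mul_sub]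

theorem gc_cmp {N : ℕ} (hN : 0 < N) {F F' : Ideal (𝓞 K) → ℂ} (h : ∀ I, ‖F I‖ ≤ 1)
    (h' : ∀ I, ‖F' I‖ ≤ 1) (e : ∀ I, I ≠ ⊥ → Cop N I → F I = F' I) (y : ℕ) :
    ‖∑ n ∈ Icc 1 y, pushP F n - ∑ n ∈ Icc 1 y, pushL F' n‖ ≤
      dg K * (2 * #N.primeFactors + 2 * √(y : ℝ)) * Real.log y := by
  rcases Nat.eq_zero_or_pos y with rfl | hy
  · simp
  have d0 : (0 : ℝ) ≤ dg K := Nat.cast_nonneg _
  have l0 : 0 ≤ Real.log y := Real.log_natCast_nonneg y
  have key : ∀ n ∈ Icc 1 y, ‖pushP F n - pushL F' n‖ ≤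
      dg K * (MP_a96b63_al.H5.vm n - MP_a96b63_al.H5.lam n) +
        if n ∈ N.primeFactors then dg K * 2 * Real.log y else 0 := by
    intro n hn
    have s0 := mul_nonneg d0 (sub_nonneg.2 (MP_a96b63_al.H5.lam_le_vm n))
    by_cases hp : n.Prime
    · rw [gc_cmp_prime hp]
      refine le_add_of_nonneg_of_le s0 ?_
      split_ifs with hm
      · have h1 := lamK_le (K := K) n
        rw [lamK_prime hp, ArithmeticFunction.vonMangoldt_apply_prime hp] at h1
        have h2 : Real.log n ≤ Real.log y :=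
          Real.log_le_log (Nat.cast_pos.2 hp.pos) (Nat.cast_le.2 (mem_Icc.1 hn).2)
        have h3 := mul_le_mul_of_nonneg_left h2 d0
        refine (norm_sum_le _ _).trans ((sum_le_card_nsmul _ _ (Real.log n * 2) fun I _ => ?_).trans ?_)
        · rw [norm_mul, Complex.norm_real, Real.norm_of_nonneg (Real.log_natCast_nonneg n)]
          refine mul_le_mul_of_nonneg_left ((norm_sub_le _ _).trans ?_) (Real.log_natCast_nonneg n)
          linarith only [h I, h' I]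
        · rw [nsmul_eq_mul]
          linarith only [h1, h3]
      · refine (norm_eq_zero.2 (sum_eq_zero fun I hI => ?_)).le
        have h1 := (mem_idN K).1 hI
        rw [e I (siegel_ne_bot hp.ne_zero hI) (cop_iff.2 (h1 ▸ hp.coprime_iff_not_dvd.2 fun hd =>
          hm (Nat.mem_primeFactors.2 ⟨hp, hd, hN.ne'⟩))), sub_self, mul_zero]
    · rw [pushP, if_neg hp, zero_sub, norm_neg, if_neg fun hm => hp (Nat.prime_of_mem_primeFactors hm),
        add_zero, MP_a96b63_al.H5.lam, if_neg hp, sub_zero]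
      exact (norm_pushL_le h' n).trans (lamK_le n)
  rw [← sum_sub_distrib]
  refine (norm_sum_le _ _).trans ((sum_le_sum key).trans ?_)
  rw [sum_add_distrib, ← mul_sum, ← sum_filter, sum_const, nsmul_eq_mul]
  have h1 := mul_le_mul_of_nonneg_left (MP_a96b63_al.H5.sum_vm_sub_lam hy) d0
  have h2 : (#{n ∈ Icc 1 y | n ∈ N.primeFactors} : ℝ) ≤ #N.primeFactors :=
    Nat.cast_le.2 (card_le_card fun n hn => (mem_filter.1 hn).2)
  have h3 := mul_le_mul_of_nonneg_right h2 (mul_nonneg (mul_nonneg d0 zero_le_two) l0)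
  rw [show Icc 1 y = Ioc 0 y from rfl] at *
  linarith only [h1, h3]

theorem swP_cheb (y : ℕ) : ∑ d ∈ Icc 1 y, lamK K d ≤ dg K * (Real.log 4 + 4) * y := by
  refine (sum_le_sum fun d _ => lamK_le d).trans ?_
  rw [← mul_sum, mul_assoc]
  have := Chebyshev.psi_le_const_mul_self (x := y) y.cast_nonneg
  rw [Chebyshev.psi, Nat.floor_natCast] at this
  exact mul_le_mul_of_nonneg_left this (Nat.cast_nonneg _)

theorem swP_fac (q : ℕ) : #q.factorial.primeFactors ≤ q := by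
  refine (card_le_card (t := Icc 1 q) fun p hp => ?_).trans (by simp only [Nat.card_Icc, add_tsub_cancel_right, Std.le_refl])
  obtain ⟨h1, h2, -⟩ := Nat.mem_primeFactors.1 hp
  exact mem_Icc.2 ⟨h1.one_lt.le, h1.dvd_factorial.1 h2⟩

theorem swP_cop {q : ℕ} (hq : 0 < q) {I : Ideal (𝓞 K)} (h : Cop q.factorial I) : Cop q I :=
  cop_iff.2 ((cop_iff.1 h).coprime_dvd_right (Nat.dvd_factorial hq le_rfl))

theorem swP_hc [IsTotallyComplex K] {q : ℕ} {t : (K →+* ℂ) → ℝ} {m : (K →+* ℂ) → ℤ}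
    {F : Ideal (𝓞 K) → ℂ} (h : GC q t m F) (h2 : ¬ NP q (F * F)) : HC q F ∧ Rl F := by
  have h3 : ∀ I, I ≠ ⊥ → Cop q I → F I * F I = 1 := fun I a b =>
    not_not.1 fun g => h2 ⟨I, a, b, g⟩
  refine ⟨h.hc fun α hα => gc_root' h.pos two_pos h.sum (fun β b1 b2 => ?_) hα fun φ hφ =>
    absurd hφ (IsTotallyComplex.complexEmbedding_not_isReal φ), fun I hI => ?_⟩
  · rw [← h.span b1 b2, sq]
    refine h3 _ (mt Ideal.span_singleton_eq_bot.1 fun e => by simp [e] at b2) ?_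
    obtain ⟨c, hc⟩ := b1
    rw [Cop, ← Ideal.isCoprime_iff_sup_eq, Ideal.isCoprime_span_singleton_iff]
    exact ⟨1, -c, by linear_combination hc⟩
  · by_cases h0 : F I = 0
    · simp [h0]
    rcases mul_self_eq_one_iff.1 (h3 I hI (h.cop I h0)) with h1 | h1 <;> simp [h1]

open scoped Classical in
variable (K) in
/-- sums over the ideals of prime norm -/
theorem swH (A B : ℕ) : ∀ᶠ x : ℕ in atTop,
    ∀ (q : ℕ) (t : (K →+* ℂ) → ℝ) (m : (K →+* ℂ) → ℤ) (F : Ideal (𝓞 K) → ℂ), GC q t m F →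
      (¬ NP q (F * F) → HC q F ∧ Rl F) →
      BB K ∣ q → (q : ℝ) ≤ Real.log x ^ B → Sz (Real.log x ^ B) t m → ∀ y : ℕ, y ≤ x →
        ‖∑ n ∈ Icc 1 y, pushP F n - if NP q F then 0 else (y : ℂ)‖ ≤ x / Real.log x ^ A := by
  obtain ⟨k, hk⟩ := sharpC (A + 1) B
  obtain ⟨C₁, c1, h₁⟩ := pf_ti K
  obtain ⟨C₂, c2, h₂⟩ := gc_ti K
  obtain ⟨η, hη, hl⟩ := lb_abs K k (C₁ + C₂)
  obtain ⟨c, hc, hr⟩ := gc_rep K hη
  obtain ⟨D, d0, hb⟩ := hl c hc
  obtain ⟨D', d1, hz⟩ := lb_zeta K k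
  have n0 : (0 : ℝ) ≤ dg K * (Real.log 4 + 4) := by positivity
  filter_upwards [hk (dg K * (Real.log 4 + 4) + 1 + 2 * D + D'), MP_a96b63_al.H5.ev_log_ge 2,
    MP_a96b63_al.H5.ev_log (A + B + 1) (c := 8 * dg K) one_half_pos, eventually_ge_atTop 1]
    with x hx hL hs x1 q t m F h hH hB hq hT y hy
  obtain ⟨L, eL⟩ : ∃ L, L = Real.log x := ⟨_, rfl⟩
  rw [← eL] at hx hL hs hq hT ⊢
  have T1 : 1 ≤ L ^ B := one_le_pow₀ (by linarith only [hL])
  have q1 : (1 : ℝ) ≤ q := Nat.one_le_cast.2 h.pos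
  have key0 := fun (a : ℕ → ℂ) (f1 : ∀ n, ‖a n‖ ≤ lamK K n) (l1 : LB k (2 * D * L ^ B) a) =>
    hx a (lamK K) 1 f1 (by rw [abs_one]; linarith only [d0, d1, n0])
      (fun z => (swP_cheb z).trans (by gcongr; linarith only [d0, d1]))
      (l1.mono (by gcongr; linarith only [d1, n0])) (by simpa only [Complex.ofReal_one] using hz.mono (by nlinarith only [d0, d1, n0, T1])) y hy
  have key : ∀ f : Ideal (𝓞 K) → ℂ, (∀ I, ‖f I‖ ≤ 1) → LB k (2 * D * L ^ B) (pushL f) →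
      ‖∑ n ∈ Icc 1 y, pushL f n‖ ≤ x / L ^ (A + 1) := fun f f1 l1 =>
    (key0 _ (norm_pushL_le f1) l1).1
  have pnt := (key0 (fun _ => 0) (fun n => by simpa only [norm_zero] using lamK_nonneg n)
    ⟨fun s _ => by
      simp only [mul_zero]
      exact LSeriesSummable_zero, fun s _ _ => by
      simp only [mul_zero]
      rw [show (fun _ : ℕ => (0 : ℂ)) = 0 from rfl, LSeries_zero, Pi.zero_apply, norm_zero]
      positivity⟩).2
  obtain ⟨f, f1, f2, f3⟩ : ∃ f : Ideal (𝓞 K) → ℂ, (∀ I, ‖f I‖ ≤ 1) ∧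
      (∀ I, I ≠ ⊥ → Cop q.factorial I → F I = f I) ∧
      ‖∑ n ∈ Icc 1 y, pushL f n - if NP q F then 0 else (y : ℂ)‖ ≤ x / L ^ (A + 1) := by
    by_cases hN : NP q F
    swap
    · refine ⟨fun _ => 1, fun _ => by simp, fun I a b => not_not.1 fun g =>
        hN ⟨I, a, swP_cop h.pos b, g⟩, ?_⟩
      have e : ∀ n, pushL (fun _ : Ideal (𝓞 K) => 1) n = lamK K n := fun n => by
        simpa using pushL_norm (K := K) (fun _ => 1) n
      simp only [e, if_neg hN]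
      rw [one_mul, ← Real.norm_eq_abs, ← Complex.norm_real] at pnt
      simpa only [ge_iff_le, Complex.ofReal_sub, Complex.ofReal_sum, Complex.ofReal_natCast] using pnt
    simp only [if_pos hN, sub_zero]
    by_cases h2 : NP q (F * F)
    · have a1 : 1 ≤ q * (L ^ B + L ^ B) := one_le_mul_of_one_le_of_one_le q1 (by linarith only [T1])
      refine ⟨F, h.le, fun _ _ _ => rfl, key F h.le ((hb _ F 0 a1 h.one h.mul h.le
        ((h₂ q _ t m F h hB hN T1 hT).mono (by linarith only [c1]) (by positivity) (by gcongr; linarith only [T1]))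
        ((h₂ q _ _ _ _ (h.mul' h) hB h2 (by linarith only [T1]) (hT.add hT)).mono (by linarith only [c1])
          (by positivity) le_rfl) (Or.inl rfl)).mono ?_)⟩
      have : √(q * (L ^ B + L ^ B)) ≤ 2 * L ^ B :=
        Real.sqrt_le_iff.2 ⟨by positivity, by nlinarith only [hq]⟩
      calc _ ≤ D * (2 * L ^ B) := by gcongr
        _ = _ := by ring
    · obtain ⟨a1, a2⟩ := hH h2
      obtain ⟨q₀, F₀, b1, b2, b3, b4, b5⟩ := hr q F a1 hB a2 hN
      have b6 : (1 : ℝ) ≤ q₀ := Nat.one_le_cast.2 b2.pos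
      have b7 := h₁ q₀ _ b2.toPF
      rw [← aE_ent b2.toPF, b3] at b5
      rw [b3] at b7
      refine ⟨F₀, b2.le, b4, key F₀ b2.le ((hb _ F₀ _ b6 b2.one b2.mul b2.le
        (b7.mono (by linarith only [c2]) (by positivity) le_rfl)
        ((h₁ q₀ _ (b2.mul_same b2).toPF).mono (by linarith only [c2]) (by positivity) le_rfl)
        (Or.inr b5)).mono ?_)⟩
      have b8 : (q₀ : ℝ) ≤ q := Nat.cast_le.2 b1
      have : √(q₀ : ℝ) ≤ L ^ B :=
        (Real.sqrt_le_iff.2 ⟨by positivity, by nlinarith only [b6]⟩).trans (b8.trans hq)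
      gcongr
      linarith only [d0]
  have L0 : 0 < L := by linarith only [hL]
  have g1 := gc_cmp q.factorial_pos h.le f1 f2 y
  have y1 : (y : ℝ) ≤ x := Nat.cast_le.2 hy
  have s1 : 1 ≤ √(x : ℝ) := Real.one_le_sqrt.2 (Nat.one_le_cast.2 x1)
  have g2 : Real.log y ≤ L := by
    rcases Nat.eq_zero_or_pos y with rfl | y0
    · simpa only [CharP.cast_eq_zero, Real.log_zero] using L0.le
    · exact eL ▸ Real.log_le_log (Nat.cast_pos.2 y0) y1
  have g3 : (#q.factorial.primeFactors : ℝ) ≤ L ^ B := (Nat.cast_le.2 (swP_fac q)).trans hq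
  have g4 : 2 * (#q.factorial.primeFactors : ℝ) + 2 * √(y : ℝ) ≤ 4 * (L ^ B * √(x : ℝ)) := by
    have := Real.sqrt_le_sqrt y1
    linarith only [mul_nonneg (sub_nonneg.2 T1) (sub_nonneg.2 s1), T1, s1, g3, this]
  have g5 : dg K * (4 * (L ^ B * √(x : ℝ))) * L ≤ x / L ^ A / 2 := by
    rw [← Real.sqrt_eq_rpow] at hs
    rw [div_div, le_div_iff₀ (by positivity)]
    calc _ = 8 * dg K * L ^ (A + B + 1) * √(x : ℝ) := by ring
      _ ≤ √(x : ℝ) * √(x : ℝ) := by gcongr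
      _ = _ := Real.mul_self_sqrt (Nat.cast_nonneg x)
  have g6 : x / L ^ (A + 1) ≤ x / L ^ A / 2 := by
    rw [pow_succ, ← div_div]
    gcongr
  have g7 := Real.log_natCast_nonneg y
  rw [← sub_add_sub_cancel _ (∑ n ∈ Icc 1 y, pushL f n)]
  refine (norm_add_le _ _).trans ?_
  have g8 : dg K * (2 * (#q.factorial.primeFactors : ℝ) + 2 * √(y : ℝ)) * Real.log y ≤
      dg K * (4 * (L ^ B * √(x : ℝ))) * L := by gcongr
  linarith only [f3, g1, g5, g6, g8]

open scoped Classical in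
variable (K) in
theorem swP [IsTotallyComplex K] (A B : ℕ) : ∀ᶠ x : ℕ in atTop,
    ∀ (q : ℕ) (t : (K →+* ℂ) → ℝ) (m : (K →+* ℂ) → ℤ) (F : Ideal (𝓞 K) → ℂ), GC q t m F →
      BB K ∣ q → (q : ℝ) ≤ Real.log x ^ B → Sz (Real.log x ^ B) t m → ∀ y : ℕ, y ≤ x →
        ‖∑ n ∈ Icc 1 y, pushP F n - if NP q F then 0 else (y : ℂ)‖ ≤ x / Real.log x ^ A :=
  (swH K A B).mono fun _ hx q t m F h => hx q t m F h (swP_hc h)

variable (K) in
theorem kq_le : ∃ C : ℝ, 0 < C ∧ ∀ q : ℕ, 0 < q → |kq K q| ≤ C := by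
  obtain ⟨C, hC, h⟩ := norm_kap_le K
  exact ⟨C, hC, fun q hq => (Complex.abs_re_le_norm _).trans (h q _ (hc_dir hq 1).toPF)⟩

theorem swI_re (n : ℕ) : (((push (fun _ : Ideal (𝓞 K) => 1) n).re : ℝ) : ℂ) =
    push (fun _ : Ideal (𝓞 K) => 1) n := by
  rcases eq_or_ne n 0 with rfl | h
  · simp
  · simp [push_apply _ h]

open scoped Classical in
theorem swI_dir (q : ℕ) (I : Ideal (𝓞 K)) :
    dir K (1 : DirichletCharacter ℂ q) I = if Cop q I then 1 else 0 := by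
  rw [dir, cop_iff, ← ZMod.isUnit_iff_coprime]
  split_ifs with h
  · exact MulChar.one_apply h
  · exact MulChar.map_nonunit _ h

open scoped Classical in
variable (K) in
/-- sums over all ideals -/
theorem swI (A B : ℕ) : ∀ᶠ x : ℕ in atTop,
    ∀ (q : ℕ) (t : (K →+* ℂ) → ℝ) (m : (K →+* ℂ) → ℤ) (F : Ideal (𝓞 K) → ℂ), GC q t m F →
      BB K ∣ q → (q : ℝ) ≤ Real.log x ^ B → Sz (Real.log x ^ B) t m → ∀ y : ℕ, y ≤ x →
        ‖∑ n ∈ Icc 1 y, push F n - if NP q F then 0 else (kq K q * y : ℂ)‖ ≤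
          x / Real.log x ^ A := by
  obtain ⟨k, hk⟩ := sharpC A B
  obtain ⟨C₁, c1, h₁⟩ := pf_ti K
  obtain ⟨C₂, -, h₂⟩ := gc_ti K
  obtain ⟨D₁, d1, e₁⟩ := ti_lb (dg_pos K) C₁ k
  obtain ⟨D₂, d2, e₂⟩ := ti_lb (dg_pos K) C₂ k
  obtain ⟨c₀, c0, h₀⟩ := gc_count K
  obtain ⟨ρ, r0, eρ⟩ := kap_one K
  have t1 := h₁ 1 _ pf_one
  have r1 : ρ ≤ C₁ := by
    have := t1.le
    rwa [eρ, Complex.norm_real, Real.norm_of_nonneg r0.le] at this
  filter_upwards [hk (c₀ + 2 * C₁ + D₁ + D₂), MP_a96b63_al.H5.ev_log_ge 1] with x hx hL q t m F h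
    hB hq hT y hy
  have T1 : 1 ≤ Real.log x ^ B := one_le_pow₀ hL
  have q1 : (1 : ℝ) ≤ q := Nat.one_le_cast.2 h.pos
  have key : ∀ (f : Ideal (𝓞 K) → ℂ) (κ : ℂ), (∀ I, ‖f I‖ ≤ 1) → ‖κ‖ ≤ C₁ →
      LB k ((D₁ + D₂) * Real.log x ^ B) (fun n => push f n - κ) →
      ‖∑ n ∈ Icc 1 y, push f n - κ * y‖ ≤ x / Real.log x ^ A := fun f κ f1 k1 l1 => by
    have := (hx (fun n => push f n - κ) (fun n => (push (fun _ : Ideal (𝓞 K) => 1) n).re + C₁)
      (ρ + C₁) (fun n => (norm_sub_le _ _).trans (add_le_add (norm_push_le_one f1 n) k1))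
      (by rw [abs_of_pos (by linarith only [c1, r0])]; linarith only [d1, d2, c0, r1]) (fun z => ?_) (l1.mono (by gcongr; linarith only [c1, c0]))
      ?_ y hy).1
    · rwa [sum_sub_distrib, sum_const, Nat.card_Icc, add_tsub_cancel_right, nsmul_eq_mul,
        mul_comm] at this
    · rw [sum_add_distrib, sum_const, Nat.card_Icc, add_tsub_cancel_right, nsmul_eq_mul]
      have z0 : (0 : ℝ) ≤ z := z.cast_nonneg
      linarith only [h₀ z, mul_nonneg z0 (add_pos (add_pos c1 d1) d2).le]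
    · have := (e₁ _ _ _ (by simp) t1).mono (M' := (c₀ + 2 * C₁ + D₁ + D₂) * Real.log x ^ B) (by
        rw [Nat.cast_one, Real.sqrt_one]
        gcongr
        linarith only [c1, d2, c0])
      convert this using 2 with n
      rw [eρ, Complex.ofReal_add, Complex.ofReal_add, swI_re, add_sub_add_right_eq_sub]
  split_ifs with hN
  · have := key F 0 h.le (by simpa only [norm_zero] using c1.le) ((e₂ _ _ _ (one_le_mul_of_one_le_of_one_le q1 T1)
      (h₂ q _ t m F h hB hN T1 hT)).mono ?_)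
    · rwa [zero_mul] at this
    · have : √(q * Real.log x ^ B) ≤ Real.log x ^ B :=
        Real.sqrt_le_iff.2 ⟨by positivity, by rw [sq]; gcongr⟩
      gcongr
      linarith only [d1]
  · have hd := hc_dir (K := K) h.pos (1 : DirichletCharacter ℂ q)
    have e : (kq K q : ℂ) = kap (dir K (1 : DirichletCharacter ℂ q)) := by
      refine Complex.ext rfl ?_
      rw [Complex.ofReal_im, kap_real hd.toPF fun I _ => ?_]
      rw [swI_dir]
      split_ifs <;> simp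
    have e' : ∀ n ∈ Icc 1 y, push F n = push (dir K (1 : DirichletCharacter ℂ q)) n := by
      intro n hn
      have n0 : n ≠ 0 := Nat.one_le_iff_ne_zero.1 (mem_Icc.1 hn).1
      rw [push_apply _ n0, push_apply _ n0]
      refine sum_congr rfl fun I hI => ?_
      rw [swI_dir]
      split_ifs with hc
      · exact not_not.1 fun g => hN ⟨I, siegel_ne_bot n0 hI, hc, g⟩
      · exact not_not.1 fun g => hc (h.cop I g)
    rw [sum_congr rfl e', e]
    refine key _ _ hd.le (h₁ q _ hd.toPF).le ((e₁ _ _ _ q1 (h₁ q _ hd.toPF)).mono ?_)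
    have : √(q : ℝ) ≤ Real.log x ^ B :=
      (Real.sqrt_le_iff.2 ⟨by positivity, by nlinarith only [q1]⟩).trans hq
    gcongr
    linarith only [d2]

end Pool.Agent.MP_a59382_lc.V3.Gx
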