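import Pool.Agent.MP_a59382_lc.Mg.V3_AnDef
import Pool.Agent.MP_48b1c3_nt.Mg.H91_TypeI
import Pool.Agent.MP_48b1c3_nt.Mg.H91_Rep

attribute [-instance] IsOrderedCancelAddMonoid.toIsCancelAdd
  AlgHom.instNonUnitalAlgHomClassOfAlgHomClass Group.IsPerfect.subsingleton_of_isMulCommutative
  SemilinearIsometryClass.toSemilinearMapClass CoalgHomClass.toSemilinearMapClass
  AddQuantale.instAddLeftMono RKHS.instFunLike AlgHom.instContinuousLinearMapClassOfAlgHomClass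
  PositiveLinearMap.instContinuousLinearMapClassComplexOfLinearMapClassOfOrderHomClass
  NormedDivisionRing.toDivisionRing IdemSemiring.toCanonicallyOrderedAdd
  instNonUnitalAlgHomClassOfNonUnitalAlgEquivClass continuousSub_of_discreteTopology
  CompactSpace.sigmaCompact NonarchimedeanAddGroup.toIsTopologicalAddGroup
  NonUnitalAlgHomClass.instLinearMapClass instCharZeroOfIsSemireal DenselyNormedField.toNormedField
  CategoryTheory.Limits.Concrete.instUniqueToTypeTerminal AddQuantale.instAddRightMono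
  RingHomClass.toLinearMapClassRat Valued.toUniformSpace AlgHomClass.linearMapClass
  NonUnitalAlgHomClass.instSemilinearMapClassOfNonUnitalAlgSemiHomClassToMonoidHomRingHom
  littleWedderburn SemilinearIsometryClass.toContinuousSemilinearMapClass
  TestFunctionClass.toDFunLike

/-! Lattice sums and means of periodic functions. -/

set_option autoImplicit false

namespace Pool.Agent.MP_a59382_lc.V3

open Finset NumberField Filter Pool.Agent.MP_48b1c3_nt.H91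

variable {k : Type} [Field k] [NumberField k]

theorem w_emb (X : ℝ) (a : Ix k → ℤ) : emb (pt X a) = sc X (el k a) := by
  funext φ
  simp only [emb, sc, pt, el, Module.Basis.equivFun_symm_apply, map_sum, zsmul_eq_mul, sum_div]
  refine sum_congr rfl fun i _ => ?_
  simp only [map_mul, map_intCast]
  push_cast
  ring

theorem w_emb_bd_eq (x : Ix k → ℝ) :
    emb x = (canonicalEmbedding.latticeBasis k).equivFunL.symm fun i => (x i : ℂ) := by
  funext φ
  change _ = (canonicalEmbedding.latticeBasis k).equivFun.symm (fun i => (x i : ℂ)) φ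
  simp only [emb, Module.Basis.equivFun_symm_apply, canonicalEmbedding.latticeBasis_apply, integralBasis_apply, Complex.coe_smul, Finset.sum_apply, Pi.smul_apply, canonicalEmbedding.apply_at, Complex.real_smul]

theorem w_emb_bd_nm (x y : Ix k → ℝ) :
    ‖(fun i => (x i : ℂ)) - fun i => (y i : ℂ)‖ = ‖x - y‖ := by
  simp only [Pi.norm_def]
  congr 2
  funext i
  rw [Pi.sub_apply, Pi.sub_apply, ← Complex.ofReal_sub, Complex.nnnorm_real]

variable (k) in
theorem w_emb_bd : ∃ C : ℝ, 1 ≤ C ∧ ∀ x y : Ix k → ℝ,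
    ‖emb x - emb y‖ ≤ C * ‖x - y‖ ∧ ‖x - y‖ ≤ C * ‖emb x - emb y‖ := by
  set e := (canonicalEmbedding.latticeBasis k).equivFunL
  set A := ‖(e : ((k →+* ℂ) → ℂ) →L[ℂ] Ix k → ℂ)‖
  set B := ‖(e.symm : (Ix k → ℂ) →L[ℂ] (k →+* ℂ) → ℂ)‖
  have hA : 0 ≤ A := ContinuousLinearMap.opNorm_nonneg _
  have hB : 0 ≤ B := ContinuousLinearMap.opNorm_nonneg _
  refine ⟨1 + A + B, by linarith, fun x y => ?_⟩
  rw [w_emb_bd_eq, w_emb_bd_eq, ← map_sub, ← w_emb_bd_nm]
  set v := (fun i => (x i : ℂ)) - fun i => (y i : ℂ)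
  have h1 : ‖e.symm v‖ ≤ B * ‖v‖ := (e.symm : (Ix k → ℂ) →L[ℂ] (k →+* ℂ) → ℂ).le_opNorm v
  have h2 : ‖e (e.symm v)‖ ≤ A * ‖e.symm v‖ :=
    (e : ((k →+* ℂ) → ℂ) →L[ℂ] Ix k → ℂ).le_opNorm _
  rw [e.apply_symm_apply] at h2
  have h3 := norm_nonneg v
  have h4 := norm_nonneg (e.symm v)
  constructor <;> nlinarith only [hA, h1, h3, hB, h2, h4]

theorem w_fin_zero : emb (0 : Ix k → ℝ) = 0 := by
  funext φ
  simp [emb]

variable (k) in
theorem w_fin_le : ∃ C : ℝ, 1 ≤ C ∧ ∀ x : Ix k → ℝ, ‖x‖ ≤ C * ‖emb x‖ := by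
  obtain ⟨C, hC, h⟩ := w_emb_bd k
  exact ⟨C, hC, fun x => by simpa only [sub_zero, w_fin_zero] using (h x 0).2⟩

variable (k) in
theorem w_fin (R : ℝ) : ∃ C : ℝ, 0 < C ∧ ∀ X : ℝ, 1 ≤ X → ∃ s : Finset (𝓞 k),
    (#s : ℝ) ≤ C * X ^ dg k ∧ ∀ a, ‖sc X a‖ ≤ R → a ∈ s := by
  classical
  obtain ⟨C, hC, h⟩ := w_fin_le k
  refine ⟨(2 * |C * R| + 1) ^ dg k, by positivity, fun X hX =>
    ⟨(lat1_box (Ix k) (C * R) X).image (el k), ?_, fun a ha => ?_⟩⟩
  · have h1 := lat1_card (ι := Ix k) (C * R) hX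
    rw [card_Ix] at h1
    exact le_trans (by exact_mod_cast card_image_le) h1
  · refine mem_image.2 ⟨(el k).symm a, ?_, by simp⟩
    refine lat1_mem (g := fun x => if ‖x‖ ≤ C * R then 1 else 0)
      (fun x hx => if_neg (not_le.2 hx)) (by linarith) ?_
    have h1 := h (pt X ((el k).symm a))
    rw [w_emb, LinearEquiv.apply_symm_apply] at h1
    rw [if_pos (h1.trans (mul_le_mul_of_nonneg_left ha (by linarith)))]
    exact one_ne_zero

theorem w_lat_ls (ι : Type) [Fintype ι] (R : ℝ) : ∃ C : ℝ, 0 < C ∧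
    ∀ (M H : ℝ) (q : ℕ) (g : (ι → ℝ) → ℂ) (η : (ι → ℤ) → ℂ), 0 ≤ M →
      (∀ x y, ‖g x - g y‖ ≤ M * ‖x - y‖) → (∀ x, R < ‖x‖ → g x = 0) → 0 < q → (q : ℝ) ≤ H →
      Pd q η → ‖ls η g H - mean q η * (H : ℂ) ^ Fintype.card ι * ∫ x, g x‖ ≤
        C * M * q * H ^ Fintype.card ι / H := by
  obtain ⟨C, hC, h⟩ := lat2_riem ι (|R| + 1)
  refine ⟨C, hC, fun M H q g η hM hl hs hq hHq hη => ?_⟩
  have q0 : (0 : ℝ) < q := by exact_mod_cast hq
  have H0 : 0 < H := q0.trans_le hHq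
  set n := Fintype.card ι with hn
  have hcb : ((cb ι q).card : ℝ) = q ^ n := by simp only [cb, Fintype.card_piFinset, Int.card_Ico, sub_zero, Int.toNat_natCast, prod_const, card_univ, Nat.cast_pow, hn]
  have hH' : 1 ≤ H / q := (one_le_div q0).2 hHq
  have hc : Continuous g := (LipschitzWith.of_dist_le_mul (K := ⟨M, hM⟩) fun x y => by
    rw [dist_eq_norm, dist_eq_norm]; exact hl x y).continuous
  have e1 : ls η g H - mean q η * (H : ℂ) ^ n * ∫ x, g x = ∑ r ∈ cb ι q, η r *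
      (ls 1 (fun x => g (x + pt H r)) (H / q) -
        ((H / q : ℝ) : ℂ) ^ n * ∫ x, g (x + pt H r)) := by
    simp only [mul_sub, sum_sub_distrib, MeasureTheory.integral_add_right_eq_self, ← sum_mul]
    congr 1
    · rw [ls, lat2_split hq (ls_summable hs H0 η)]
      refine sum_congr rfl fun r _ => ?_
      rw [ls, ← tsum_mul_left]
      refine tsum_congr fun b => ?_
      rw [hη.1, Pi.one_apply, one_mul]
      congr 2
      ext i
      simp only [pt, Pi.add_apply, Pi.smul_apply, smul_eq_mul]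
      push_cast
      field_simp
      ring
    · rw [mean]
      push_cast
      ring
  have e2 : ∀ r ∈ cb ι q, ∀ x, |R| + 1 < ‖x‖ → g (x + pt H r) = 0 := fun r hr x hx => hs _ <| by
    have h3 : ‖pt H r‖ ≤ 1 := (pi_norm_le_iff_of_nonneg zero_le_one).2 fun i => by
      simp only [cb, Fintype.mem_piFinset, mem_Ico] at hr
      have h4 : (0 : ℝ) ≤ r i := by exact_mod_cast (hr i).1
      have h5 : (r i : ℝ) ≤ q := by exact_mod_cast (hr i).2.le
      rw [pt, Real.norm_of_nonneg (by positivity), div_le_one H0]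
      linarith only [hHq, h5]
    have h6 := norm_sub_le (x + pt H r) (pt H r)
    rw [add_sub_cancel_right] at h6
    linarith only [le_abs_self R, hx, h3, h6]
  rw [e1]
  refine (norm_sum_le _ _).trans ?_
  refine (sum_le_card_nsmul _ _ (C * (M * (1 / (H / q))) * (H / q) ^ n) fun r hr => ?_).trans
    (le_of_eq ?_)
  · refine le_trans ?_ (h (H / q) _ (fun x => g (x + pt H r))
      (hc.comp (continuous_id.add continuous_const)) (e2 r hr) hH' (by positivity) fun x y hxy => ?_)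
    · rw [norm_mul]
      exact mul_le_of_le_one_left (norm_nonneg _) (hη.2 r)
    · refine (hl _ _).trans ?_
      rw [add_sub_add_right_eq_sub]
      exact mul_le_mul_of_nonneg_left hxy hM
  · rw [nsmul_eq_mul, hcb, div_pow]
    field_simp

variable (k) in
theorem w_lat (R : ℝ) : ∃ C : ℝ, 0 < C ∧ ∀ (X L : ℝ) (q : ℕ) (η : 𝓞 k → ℝ)
    (Φ : ((k →+* ℂ) → ℂ) → ℝ), 0 < q → (q : ℝ) ≤ X → 0 ≤ L → Pe q η →
      (∀ z w, |Φ z - Φ w| ≤ L * ‖z - w‖) → (∀ z, Φ z ≠ 0 → ‖z‖ ≤ R) →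
        |∑' a, η a * Φ (sc X a) - X ^ dg k * av q η * ∫ x, Φ (emb x)| ≤
          C * L * q * X ^ dg k / X := by
  obtain ⟨D, hD, hb⟩ := w_emb_bd k
  obtain ⟨C, hC, h⟩ := w_lat_ls (Ix k) (D * |R|)
  have D0 : 0 < D := by linarith
  refine ⟨C * D, by positivity, fun X L q η Φ hq hX hL hη hl hs => ?_⟩
  have e0 : emb (0 : Ix k → ℝ) = 0 := by
    funext φ
    simp [emb]
  have h1 := h (L * D) X q (fun x => (Φ (emb x) : ℂ)) (fun a => (η (el k a) : ℂ)) (by positivity)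
    (fun x y => by
      rw [← Complex.ofReal_sub, Complex.norm_real, Real.norm_eq_abs, mul_assoc]
      exact (hl _ _).trans (mul_le_mul_of_nonneg_left (hb x y).1 hL))
    (fun x hx => by
      by_contra h0
      have h2 := hs _ fun h => h0 (by rw [h, Complex.ofReal_zero])
      have h3 := (hb x 0).2
      rw [e0, sub_zero, sub_zero] at h3
      have h4 := mul_le_mul_of_nonneg_left (h2.trans (le_abs_self R)) D0.le
      linarith only [hx, h3, h4]) hq hX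
    ⟨fun a b => by
      refine congrArg Complex.ofReal (hη.1 _ _ ⟨el k b, ?_⟩)
      rw [map_add, map_zsmul, add_sub_cancel_left, zsmul_eq_mul, Int.cast_natCast],
      fun a => by rw [Complex.norm_real, Real.norm_eq_abs]; exact hη.2 _⟩
  have e : ((∑' a, η a * Φ (sc X a) - X ^ dg k * av q η * ∫ x, Φ (emb x) : ℝ) : ℂ) =
      ls (fun a => (η (el k a) : ℂ)) (fun x => (Φ (emb x) : ℂ)) X -
        mean q (fun a => (η (el k a) : ℂ)) * (X : ℂ) ^ Fintype.card (Ix k) *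
          ∫ x, (Φ (emb x) : ℂ) := by
    rw [ls, mean, av, card_Ix, integral_complex_ofReal, ← (el k).toEquiv.tsum_eq]
    push_cast
    simp only [w_emb, LinearEquiv.coe_toEquiv]
    ring
  rw [← e, Complex.norm_real, Real.norm_eq_abs, card_Ix] at h1
  exact h1.trans (le_of_eq (by ring))

variable (k) in
theorem w_int_bd (R : ℝ) : ∃ C : ℝ, 0 < C ∧ ∀ Φ : ((k →+* ℂ) → ℂ) → ℝ, (∀ z, |Φ z| ≤ 1) →
    (∀ z, Φ z ≠ 0 → ‖z‖ ≤ R) → |∫ x, Φ (emb x)| ≤ C := by
  obtain ⟨C, hC, h⟩ := w_fin_le k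
  refine ⟨MeasureTheory.volume.real (Metric.closedBall (0 : Ix k → ℝ) (C * R)) + 1,
    by positivity, fun Φ h1 h2 => ?_⟩
  rw [← MeasureTheory.setIntegral_eq_integral_of_forall_compl_eq_zero
    (s := Metric.closedBall (0 : Ix k → ℝ) (C * R)) fun x hx => by
      by_contra h0
      exact hx (mem_closedBall_zero_iff.2
        ((h x).trans (mul_le_mul_of_nonneg_left (h2 _ h0) (by linarith))))]
  have h3 := MeasureTheory.norm_setIntegral_le_of_norm_le_const (μ := MeasureTheory.volume)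
    (f := fun x : Ix k → ℝ => Φ (emb x)) (C := 1)
    (MeasureTheory.measure_closedBall_lt_top (x := (0 : Ix k → ℝ)) (r := C * R))
    fun x _ => h1 _
  rw [Real.norm_eq_abs] at h3
  linarith

theorem w_tent_pt (c : ℝ) : ∃ x : Ix k → ℝ, emb x = fun _ => (c : ℂ) := by
  refine ⟨c • pt 1 ((el k).symm 1), ?_⟩
  have h := w_emb (k := k) 1 ((el k).symm 1)
  rw [LinearEquiv.apply_symm_apply] at h
  funext φ
  have h1 := congrFun h φ
  simp only [emb, sc] at h1 ⊢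
  simp only [Pi.smul_apply, smul_eq_mul, Complex.ofReal_mul, mul_assoc, ← mul_sum, h1]
  simp

/-- a weight concentrated near a point all of whose coordinates are the real number `c` -/
theorem w_tent {c r : ℝ} (hr : 0 < r) : ∃ (L : ℝ) (Φ : ((k →+* ℂ) → ℂ) → ℝ), 0 < L ∧
    (∀ z, 0 ≤ Φ z ∧ Φ z ≤ 1) ∧ (∀ z w, |Φ z - Φ w| ≤ L * ‖z - w‖) ∧
    (∀ z, Φ z ≠ 0 → ∀ φ, ‖z φ - (c : ℂ)‖ < 2 * r) ∧
    (∀ z, (∀ φ, ‖z φ - (c : ℂ)‖ ≤ r) → Φ z = 1) ∧
    0 < ∫ x, Φ (emb x) := by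
  set u : (k →+* ℂ) → ℂ := fun _ => (c : ℂ) with hu
  set Φ : ((k →+* ℂ) → ℂ) → ℝ := fun z => max 0 (min 1 (2 - ‖z - u‖ / r)) with hΦ
  have hs : ∀ z, Φ z ≠ 0 → ‖z - u‖ < 2 * r := fun z hz => by
    by_contra h0
    refine hz (max_eq_left (min_le_of_right_le ?_))
    rw [sub_nonpos, le_div_iff₀ hr]
    exact not_lt.1 h0
  have ho : ∀ z, ‖z - u‖ ≤ r → Φ z = 1 := fun z hz => by
    have : ‖z - u‖ / r ≤ 1 := (div_le_one hr).2 hz
    simp only [hΦ]
    rw [min_eq_left (by linarith), max_eq_right zero_le_one]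
  obtain ⟨C, hC, h⟩ := w_emb_bd k
  obtain ⟨x₀, hx⟩ := w_tent_pt (k := k) c
  refine ⟨1 / r, Φ, by positivity, fun z => ⟨le_max_left _ _, max_le zero_le_one (min_le_left _ _)⟩,
    fun z w => ?_, fun z hz φ => (norm_le_pi_norm (z - u) φ).trans_lt (hs z hz),
    fun z hz => ho z ((pi_norm_le_iff_of_nonneg hr.le).2 hz), ?_⟩
  · have h1 := abs_max_sub_max_le_max 0 (min 1 (2 - ‖z - u‖ / r)) 0 (min 1 (2 - ‖w - u‖ / r))
    have h2 := abs_min_sub_min_le_max 1 (2 - ‖z - u‖ / r) 1 (2 - ‖w - u‖ / r)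
    have h3 := abs_norm_sub_norm_le (w - u) (z - u)
    rw [sub_sub_sub_cancel_right, norm_sub_rev w z] at h3
    simp only [sub_self, abs_zero, abs_nonneg, sup_of_le_right] at h1 h2
    refine h1.trans (h2.trans ?_)
    rw [sub_sub_sub_cancel_left, ← sub_div, abs_div, abs_of_pos hr, one_div_mul_eq_div]
    gcongr
  · have hc : Continuous (emb (k := k)) :=
      (LipschitzWith.of_dist_le_mul (K := C.toNNReal) fun x y => by
        rw [dist_eq_norm, dist_eq_norm, Real.coe_toNNReal _ (by linarith only [hC])]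
        exact (h x y).1).continuous
    refine Continuous.integral_pos_of_hasCompactSupport_nonneg_nonzero (x := x₀)
      (by simp only [hΦ]; fun_prop) ?_ (fun x => le_max_left _ _) ?_
    · refine HasCompactSupport.intro (isCompact_closedBall x₀ (C * (2 * r))) fun x hx' => ?_
      by_contra h0
      refine hx' (mem_closedBall_iff_norm.2 ((h x x₀).2.trans ?_))
      rw [hx]
      exact mul_le_mul_of_nonneg_left (hs _ h0).le (by linarith only [hC])
    · rw [hx, ho _ (by simpa only [hu, sub_self, norm_zero] using hr.le)]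
      exact one_ne_zero

theorem w_cb_dvd {q : ℕ} (x : Ix k → ℤ) : (q : 𝓞 k) ∣ el k x ↔ ∀ i, (q : ℤ) ∣ x i := by
  constructor
  · rintro ⟨y, hy⟩ i
    have e : x = (q : ℤ) • (el k).symm y := by
      apply (el k).injective
      rw [map_smul, LinearEquiv.apply_symm_apply, hy, zsmul_eq_mul, Int.cast_natCast]
    exact ⟨(el k).symm y i, by rw [e]; rfl⟩
  · intro h
    choose z hz using h
    have e : x = (q : ℤ) • z := funext fun i => hz i
    exact ⟨el k z, by rw [e, map_smul, zsmul_eq_mul, Int.cast_natCast]⟩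

theorem w_cb {q : ℕ} (hq : 0 < q) (a : 𝓞 k) :
    ∃! b, b ∈ cb (Ix k) q ∧ (q : 𝓞 k) ∣ a - el k b := by
  obtain ⟨c, rfl⟩ := (el k).surjective a
  have h0 : (0 : ℤ) < q := by exact_mod_cast hq
  refine ⟨fun i => c i % q, ⟨?_, ?_⟩, ?_⟩
  · simp only [cb, Fintype.mem_piFinset, mem_Ico]
    exact fun i => ⟨Int.emod_nonneg _ h0.ne', Int.emod_lt_of_pos _ h0⟩
  · rw [← map_sub, w_cb_dvd]
    exact fun i => Int.dvd_self_sub_of_emod_eq rfl
  · rintro b ⟨hb, hd⟩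
    rw [← map_sub, w_cb_dvd] at hd
    simp only [cb, Fintype.mem_piFinset, mem_Ico] at hb
    funext i
    have h1 : c i ≡ b i [ZMOD q] := (Int.modEq_iff_dvd.2 (hd i)).symm
    rw [h1.eq, Int.emod_eq_of_lt (hb i).1 (hb i).2]

theorem w_cb_card (q : ℕ) : #(cb (Ix k) q) = q ^ dg k := by
  simp [cb, card_Ix]

theorem w_cb_sum {q : ℕ} (hq : 0 < q) {ι : Type} {T : Finset ι} {g : ι → 𝓞 k}
    (hg : ∀ a, ∃! t, t ∈ T ∧ (q : 𝓞 k) ∣ a - g t) {η : 𝓞 k → ℝ}
    (h : ∀ a b, (q : 𝓞 k) ∣ a - b → η a = η b) :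
    ∑ a ∈ cb (Ix k) q, η (el k a) = ∑ t ∈ T, η (g t) := by
  choose u hu hu' using hg
  choose v hv hv' using w_cb (k := k) hq
  refine sum_nbij' (fun a => u (el k a)) (fun t => v (g t)) (fun a _ => (hu _).1)
    (fun t _ => (hv _).1) (fun a ha => (hv' _ a ⟨ha, ?_⟩).symm)
    (fun t ht => (hu' _ t ⟨ht, ?_⟩).symm) fun a _ => h _ _ (hu _).2
  · exact dvd_sub_comm.1 (hu _).2
  · exact dvd_sub_comm.1 (hv _).2

theorem w_av_le {q : ℕ} {η : 𝓞 k → ℝ} (h : ∀ a, |η a| ≤ 1) : |av q η| ≤ 1 := by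
  have h0 : (0 : ℝ) ≤ (q : ℝ) ^ dg k := by positivity
  rw [av, abs_div, abs_of_nonneg h0]
  refine div_le_one_of_le₀ ((abs_sum_le_sum_abs _ _).trans ?_) h0
  refine (sum_le_card_nsmul _ _ 1 fun a _ => h _).trans_eq ?_
  rw [w_cb_card, nsmul_eq_mul, mul_one, Nat.cast_pow]

theorem w_av_mul {q q' : ℕ} (hq : q ∣ q') (h0 : 0 < q') {η : 𝓞 k → ℝ}
    (h : ∀ a b, (q : 𝓞 k) ∣ a - b → η a = η b) : av q' η = av q η := by
  obtain ⟨r, rfl⟩ := hq
  have hq : 0 < q := Nat.pos_of_mul_pos_right h0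
  have hr : 0 < r := Nat.pos_of_mul_pos_left h0
  have hq0 : (q : 𝓞 k) ≠ 0 := by exact_mod_cast hq.ne'
  have hg : ∀ a, ∃! t, t ∈ cb (Ix k) q ×ˢ cb (Ix k) r ∧
      ((q * r : ℕ) : 𝓞 k) ∣ a - (el k t.1 + q * el k t.2) := fun a => by
    obtain ⟨b, ⟨hb, a', ha'⟩, hb'⟩ := w_cb hq a
    obtain ⟨c, ⟨hc, hd⟩, hc'⟩ := w_cb hr a'
    have e : ∀ c, a - (el k b + q * el k c) = q * (a' - el k c) := fun c => by
      linear_combination ha'
    refine ⟨(b, c), ⟨mem_product.2 ⟨hb, hc⟩, ?_⟩, ?_⟩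
    · rw [e, Nat.cast_mul]
      exact mul_dvd_mul_left _ hd
    · rintro ⟨b', c'⟩ ⟨hm, hd'⟩
      rw [mem_product] at hm
      rw [Nat.cast_mul] at hd'
      have e1 : b' = b := hb' b' ⟨hm.1, by
        have := ((dvd_mul_right _ _).trans hd').add (dvd_mul_right (q : 𝓞 k) (el k c'))
        rwa [show a - (el k b' + q * el k c') + q * el k c' = a - el k b' by ring] at this⟩
      subst e1
      rw [e, mul_dvd_mul_iff_left hq0] at hd'
      rw [hc' c' ⟨hm.2, hd'⟩]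
  have hs := w_cb_sum h0 hg (η := η) fun a b hab =>
    h a b ((Nat.cast_dvd_cast (dvd_mul_right q r)).trans hab)
  have e : ∀ b c : Ix k → ℤ, η (el k b + q * el k c) = η (el k b) := fun b c =>
    h _ _ ⟨el k c, by ring⟩
  have hr' : (r : ℝ) ^ dg k ≠ 0 := by positivity
  rw [av, av, hs, sum_product]
  simp only [e, sum_const, w_cb_card, nsmul_eq_mul]
  rw [← mul_sum, Nat.cast_mul, mul_pow, Nat.cast_pow, mul_comm ((q : ℝ) ^ _),
    mul_div_mul_left _ _ hr']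

theorem w_av_cop {q q' : ℕ} (hq : 0 < q) (hq' : 0 < q') (hc : q.Coprime q') {η η' : 𝓞 k → ℝ}
    (h : ∀ a b, (q : 𝓞 k) ∣ a - b → η a = η b) (h' : ∀ a b, (q' : 𝓞 k) ∣ a - b → η' a = η' b) :
    av (q * q') (fun a => η a * η' a) = av q η * av q' η' := by
  have hc' : IsCoprime (q : 𝓞 k) (q' : 𝓞 k) := Nat.Coprime.cast hc
  obtain ⟨u, v, huv⟩ := id hc'
  have e1 : ∀ a b c : 𝓞 k, (q : 𝓞 k) ∣ a - (v * q' * b + u * q * c) ↔ (q : 𝓞 k) ∣ a - b :=
    fun a b c => by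
      rw [show a - (v * q' * b + u * q * c) = a - b + q * (u * (b - c)) by
        linear_combination (-b) * huv]
      exact dvd_add_left (dvd_mul_right _ _)
  have e2 : ∀ a b c : 𝓞 k, (q' : 𝓞 k) ∣ a - (v * q' * b + u * q * c) ↔ (q' : 𝓞 k) ∣ a - c :=
    fun a b c => by
      rw [show a - (v * q' * b + u * q * c) = a - c + q' * (v * (c - b)) by
        linear_combination (-c) * huv]
      exact dvd_add_left (dvd_mul_right _ _)
  have hg : ∀ a, ∃! t, t ∈ cb (Ix k) q ×ˢ cb (Ix k) q' ∧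
      ((q * q' : ℕ) : 𝓞 k) ∣ a - (v * q' * el k t.1 + u * q * el k t.2) := fun a => by
    obtain ⟨b, ⟨hb, hd⟩, hb'⟩ := w_cb hq a
    obtain ⟨c, ⟨hc, hd'⟩, hc''⟩ := w_cb hq' a
    refine ⟨(b, c), ⟨mem_product.2 ⟨hb, hc⟩, ?_⟩, ?_⟩
    · rw [Nat.cast_mul]
      exact hc'.mul_dvd ((e1 _ _ _).2 hd) ((e2 _ _ _).2 hd')
    · rintro ⟨b', c'⟩ ⟨hm, hd''⟩
      rw [mem_product] at hm
      rw [Nat.cast_mul] at hd''
      rw [hb' b' ⟨hm.1, (e1 _ _ _).1 ((dvd_mul_right _ _).trans hd'')⟩,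
        hc'' c' ⟨hm.2, (e2 _ _ _).1 ((dvd_mul_left _ _).trans hd'')⟩]
  have hs := w_cb_sum (Nat.mul_pos hq hq') hg (η := fun a => η a * η' a) fun a b hab => by
    rw [Nat.cast_mul] at hab
    rw [h a b ((dvd_mul_right _ _).trans hab), h' a b ((dvd_mul_left _ _).trans hab)]
  have f1 : ∀ b c : 𝓞 k, η (v * q' * b + u * q * c) = η b := fun b c =>
    (h _ _ ((e1 _ _ _).2 (by rw [sub_self]; exact dvd_zero _))).symm
  have f2 : ∀ b c : 𝓞 k, η' (v * q' * b + u * q * c) = η' c := fun b c =>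
    (h' _ _ ((e2 _ _ _).2 (by rw [sub_self]; exact dvd_zero _))).symm
  rw [av, av, av, hs, sum_product]
  simp only [f1, f2]
  rw [← sum_mul_sum, Nat.cast_mul, mul_pow, mul_div_mul_comm]

omit [NumberField k] in
theorem w_av_prod_per {W : ℕ} {D : Finset ℕ} {η : 𝓞 k → ℝ} {f : ℕ → 𝓞 k → ℝ}
    (h : ∀ a b, (W : 𝓞 k) ∣ a - b → η a = η b)
    (hf : ∀ p ∈ D, ∀ a b, (p : 𝓞 k) ∣ a - b → f p a = f p b) (a b : 𝓞 k)
    (hab : ((W * ∏ p ∈ D, p : ℕ) : 𝓞 k) ∣ a - b) :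
    η a * ∏ p ∈ D, f p a = η b * ∏ p ∈ D, f p b := by
  rw [h a b ((Nat.cast_dvd_cast (dvd_mul_right _ _)).trans hab)]
  refine congrArg _ (prod_congr rfl fun p hp => hf p hp a b ?_)
  exact (Nat.cast_dvd_cast ((dvd_prod_of_mem _ hp).mul_left W)).trans hab

theorem w_av_prod_cop {W : ℕ} {D : Finset ℕ} (hD : ∀ p ∈ D, p.Prime ∧ ¬ p ∣ W) :
    W.Coprime (∏ p ∈ D, p) :=
  Nat.Coprime.prod_right fun p hp => ((hD p hp).1.coprime_iff_not_dvd.2 (hD p hp).2).symm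

theorem w_av_prod_aux {W : ℕ} (h0 : 0 < W) {η : 𝓞 k → ℝ} {f : ℕ → 𝓞 k → ℝ}
    (h : ∀ a b, (W : 𝓞 k) ∣ a - b → η a = η b) (D : Finset ℕ) :
    (∀ p ∈ D, p.Prime ∧ ¬ p ∣ W) →
      (∀ p ∈ D, ∀ a b, (p : 𝓞 k) ∣ a - b → f p a = f p b) →
        av (W * ∏ p ∈ D, p) (fun a => η a * ∏ p ∈ D, f p a) = av W η * ∏ p ∈ D, av p (f p) := by
  induction D using Finset.induction_on with
  | empty => intro _ _; simp
  | insert p D hp ih =>
    intro hD hf
    have hD' : ∀ r ∈ D, r.Prime ∧ ¬ r ∣ W := fun r hr => hD r (mem_insert_of_mem hr)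
    have hf' : ∀ r ∈ D, ∀ a b, (r : 𝓞 k) ∣ a - b → f r a = f r b :=
      fun r hr => hf r (mem_insert_of_mem hr)
    have hpp := hD p (mem_insert_self _ _)
    have hc : (W * ∏ r ∈ D, r).Coprime p :=
      Nat.Coprime.mul_left (hpp.1.coprime_iff_not_dvd.2 hpp.2).symm
        (Nat.Coprime.prod_left fun r hr => (Nat.coprime_primes (hD' r hr).1 hpp.1).2
          fun e => hp (e ▸ hr))
    have hpos : 0 < W * ∏ r ∈ D, r := Nat.mul_pos h0 (prod_pos fun r hr => (hD' r hr).1.pos)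
    have := w_av_cop hpos hpp.1.pos hc (w_av_prod_per h hf') (hf p (mem_insert_self _ _))
    simp only [prod_insert hp]
    rw [ih hD' hf'] at this
    rw [mul_comm p, ← mul_assoc W, mul_comm (av p _), ← mul_assoc, ← this]
    exact congrArg _ (funext fun a => by ring)

theorem w_av_prod {W q : ℕ} (h0 : 0 < q) (hW : W ∣ q) {D : Finset ℕ}
    (hD : ∀ p ∈ D, p.Prime ∧ p ∣ q ∧ ¬ p ∣ W) {η : 𝓞 k → ℝ} {f : ℕ → 𝓞 k → ℝ}
    (h : ∀ a b, (W : 𝓞 k) ∣ a - b → η a = η b)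
    (hf : ∀ p ∈ D, ∀ a b, (p : 𝓞 k) ∣ a - b → f p a = f p b) :
    av q (fun a => η a * ∏ p ∈ D, f p a) = av W η * ∏ p ∈ D, av p (f p) := by
  have hD' : ∀ p ∈ D, p.Prime ∧ ¬ p ∣ W := fun p hp => ⟨(hD p hp).1, (hD p hp).2.2⟩
  have hd : W * ∏ p ∈ D, p ∣ q := (w_av_prod_cop hD').mul_dvd_of_dvd_of_dvd hW
    (Finset.prod_primes_dvd q (fun p hp => (hD p hp).1.prime) fun p hp => (hD p hp).2.1)
  rw [w_av_mul hd h0 (w_av_prod_per h hf),
    w_av_prod_aux (Nat.pos_of_dvd_of_pos hW h0) h D hD' hf]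

open scoped Classical in
theorem w_av_class {q : ℕ} (hq : 0 < q) (b : 𝓞 k) :
    av q (fun a => if (q : 𝓞 k) ∣ a - b then 1 else 0) = 1 / (q : ℝ) ^ dg k := by
  obtain ⟨c, ⟨hc, hd⟩, hc'⟩ := w_cb hq b
  rw [av, sum_eq_single_of_mem c hc fun a ha hne =>
    if_neg fun h => hne (hc' a ⟨ha, dvd_sub_comm.1 h⟩), if_pos (dvd_sub_comm.1 hd)]

omit [NumberField k] in
theorem w_un_per_cop {q : ℕ} {a b : 𝓞 k} (hab : (q : 𝓞 k) ∣ a - b)
    (h : IsCoprime b (q : 𝓞 k)) : IsCoprime a (q : 𝓞 k) := by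
  obtain ⟨c, hc⟩ := hab
  rw [show a = b + q * c by linear_combination hc]
  exact h.add_mul_left_left c

theorem w_un_per (q : ℕ) : Pe q (un (k := k) q) := by
  refine ⟨fun a b hab => ?_, fun a => ?_⟩
  · unfold un
    rw [propext ⟨w_un_per_cop (dvd_sub_comm.1 hab), w_un_per_cop hab⟩]
  · unfold un
    split_ifs <;> simp

theorem w_Vp {p : ℕ} (hp : 0 < p) : 1 / (p : ℝ) ^ dg k ≤ Vp k p ∧ Vp k p ≤ 1 := by
  refine ⟨?_, (le_abs_self _).trans (w_av_le (w_un_per p).2)⟩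
  rw [← w_av_class hp (1 : 𝓞 k), Vp, av, av]
  refine div_le_div_of_nonneg_right (sum_le_sum fun a _ => ?_) (by positivity)
  unfold un
  split_ifs with h1 h2
  exacts [le_rfl, (h2 (w_un_per_cop h1 isCoprime_one_left)).elim, zero_le_one, le_rfl]

omit [NumberField k] in
theorem w_mu_cop {a : 𝓞 k} (q : ℕ) : 0 < q → (∀ p, p.Prime → p ∣ q → IsCoprime a (p : 𝓞 k)) →
    IsCoprime a (q : 𝓞 k) := by
  induction q using induction_on_primes with
  | zero => exact fun h => absurd h (lt_irrefl 0)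
  | one => exact fun _ _ => by rw [Nat.cast_one]; exact isCoprime_one_right
  | prime_mul p n hp ih =>
    intro h0 h
    rw [Nat.cast_mul]
    exact (h p hp (dvd_mul_right _ _)).mul_right
      (ih (Nat.pos_of_mul_pos_left h0) fun r hr hn => h r hr (hn.mul_left p))

theorem w_mu {W q : ℕ} (hq : 0 < q) {a : 𝓞 k} (ha : IsCoprime a (W : 𝓞 k)) :
    mu W q a = un q a / ∏ p ∈ q.primeFactors.filter fun p => ¬ p ∣ W, Vp k p := by
  rw [mu, prod_div_distrib]
  congr 1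
  by_cases h : IsCoprime a (q : 𝓞 k)
  · rw [un, if_pos h]
    refine prod_eq_one fun p hp => if_pos ?_
    exact h.of_isCoprime_of_dvd_right
      (Nat.cast_dvd_cast (Nat.dvd_of_mem_primeFactors (mem_filter.1 hp).1))
  · rw [un, if_neg h]
    by_contra hne
    refine h (w_mu_cop q hq fun p hp hpq => ?_)
    by_cases hw : p ∣ W
    · exact ha.of_isCoprime_of_dvd_right (Nat.cast_dvd_cast hw)
    · by_contra hc
      exact hne (prod_eq_zero (mem_filter.2 ⟨Nat.mem_primeFactors.2 ⟨hp, hpq, hq.ne'⟩, hw⟩)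
        (if_neg hc))

end Pool.Agent.MP_a59382_lc.V3
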