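import Pool.Agent.MP_a59382_lc.Mg.V3_WAlg
import Pool.Agent.MP_a59382_lc.Mg.V3_WLat
import Pool.Agent.MP_a96b63_al.V.SW

attribute [-instance] IdemSemiring.toCanonicallyOrderedAdd AddQuantale.instAddLeftMono
  IdemSemiring.toMulLeftMono RKHS.instFunLike IsOrderedMonoid.toMulLeftMono littleWedderburn
  Quantale.instMulLeftMono IsOrderedCancelAddMonoid.toIsCancelAdd AddQuantale.instAddRightMono
  NormedField.toField MonTypeEquivalenceMon.monMonoid covariant_swap_mul_of_covariant_mul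
  Group.IsPerfect.subsingleton_of_isMulCommutative instCoeOutOfCoeFun instCoeTCOfCoe
  ContinuousMonoidHom.instCoeOutOfMonoidHomClassOfContinuousMapClass Fintype.decidableExistsFintype
  TotallySeparatedSpace.t2Space Quantale.instMulRightMono instCoeTOfCoeDep
  CanonicallyOrderedAdd.toMulLeftMono instCoeHTCTOfCoeTailOfCoeHTC
  CompletePartialOrder.toPartialOrder NormedAlgebra.toAlgebra NormedDivisionRing.toDivisionRing
  IsometryClass.instCoeOutIsometryEquiv IdemCommSemiring.toCommSemiring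

/-! Equidistribution of norms of primes. -/

set_option autoImplicit false

namespace Pool.Agent.MP_a59382_lc.V3

open Finset NumberField NumberField.Units Filter Pool.Agent.MP_48b1c3_nt.H91

variable {k Ω : Type} [Field k] [NumberField k] [Field Ω] [NumberField Ω] [Algebra k Ω]

open scoped Classical in
/-- sums over the ideals of norm `n` in the class -/
noncomputable def cS (wt : Ideal (𝓞 Ω) → ℝ) (W : ℕ) (P₀ : 𝓞 Ω) (g : 𝓞 k → ℂ) (n : ℕ) : ℂ :=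
  ∑ I ∈ (idN Ω n).filter (Cl W P₀), wt I * g (rn k (gen W P₀ I))

theorem w_unfold_one {W e : ℕ} {P₀ : 𝓞 Ω} (hP : IsCoprime P₀ (W : 𝓞 Ω))
    {T : Finset (𝓞 k)ˣ} (hT : Unf (Gam k Ω W) e T) {g f : 𝓞 k → ℝ}
    (hg : (Function.support g).Finite) {I : Ideal (𝓞 Ω)} (hI : Cl W P₀ I)
    (h1 : ∀ a, (∃ P, Gn W P₀ P ∧ I = Ideal.span {P} ∧ rn k P = a) → f a = g a)
    (h2 : ∀ a, f a ≠ 0 → ∃ P, Gn W P₀ P ∧ I = Ideal.span {P} ∧ rn k P = a) :
    ∑' a, f a =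
      ∑ γ ∈ T, ∑' b, g (((ue e b : (𝓞 k)ˣ) : 𝓞 k) * ((γ : 𝓞 k) * rn k (gen W P₀ I))) := by
  obtain ⟨⟨g1, g2⟩, g3⟩ := gen_spec hI
  generalize gen W P₀ I = G at g1 g2 g3
  have h0 : rn k G ≠ 0 := fun h => by
    rw [← w_nm_rn (k := k), h, nm, Algebra.norm_zero] at g2
    exact lt_irrefl _ g2
  have hm : ∀ p : T × (Fin (rank k) → ℤ), ue e p.2 * p.1 ∈ Gam k Ω W := fun p =>
    mul_mem (hT.lat _) (hT.mem _ p.1.2)
  let φ : T × (Fin (rank k) → ℤ) → 𝓞 k := fun p =>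
    ((ue e p.2 : (𝓞 k)ˣ) : 𝓞 k) * (((p.1 : (𝓞 k)ˣ) : 𝓞 k) * rn k G)
  have hφ : Function.Injective φ := fun p p' h => by
    have h3 : ue e p.2 * p.1 = ue e p'.2 * p'.1 := Units.ext (mul_right_cancel₀ h0 (by
      rw [Units.val_mul, Units.val_mul, mul_assoc, mul_assoc]
      exact h))
    have h4 := (hT.bij _ (hm p)).unique (y₁ := (p.1, p.2)) (y₂ := (p'.1, p'.2)) ⟨p.1.2, rfl⟩
      ⟨p'.1.2, h3⟩
    exact Prod.ext (Subtype.ext (Prod.mk.inj h4).1) (Prod.mk.inj h4).2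
  have e1 : ∀ p, f (φ p) = g (φ p) := fun p => h1 _ (by
    obtain ⟨u, ⟨u1, u2⟩, u3⟩ := hm p
    refine ⟨u * G, ⟨?_, ?_⟩, ?_, ?_⟩
    · rw [show u * G - P₀ = (u - 1) * G + (G - P₀) by ring]
      exact (u1.mul_right _).add g1
    · rw [nm_mul]
      exact mul_pos u2 g2
    · rw [Ideal.span_singleton_mul_left_unit u.isUnit, g3]
    · refine (map_mul _ _ _).trans ?_
      rw [show RingOfIntegers.norm k (u : 𝓞 Ω) = _ from u3, Units.val_mul, mul_assoc])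
  have e2 : Function.support f ⊆ Set.range φ := fun a ha => by
    obtain ⟨P, ⟨p1, p2⟩, p3, rfl⟩ := h2 a ha
    obtain ⟨u, rfl⟩ := Ideal.span_singleton_eq_span_singleton.1 (g3.symm.trans p3)
    have h3 : IsCoprime (W : 𝓞 Ω) G := by
      obtain ⟨c, hc⟩ := g1
      rw [show G = P₀ + W * c by linear_combination hc]
      exact (hP.add_mul_left_left c).symm
    have h4 : Units.map (RingOfIntegers.norm k) u ∈ Gam k Ω W := by
      refine ⟨u, ⟨h3.dvd_of_dvd_mul_left ?_, ?_⟩, rfl⟩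
      · rw [show G * (u - 1) = G * u - P₀ - (G - P₀) by ring]
        exact p1.sub g1
      · rw [nm_mul] at p2
        exact (pos_iff_pos_of_mul_pos p2).1 g2
    obtain ⟨p, ⟨q1, q2⟩, -⟩ := hT.bij _ h4
    refine ⟨(⟨p.1, q1⟩, p.2), ?_⟩
    change (ue e p.2 : 𝓞 k) * (p.1 * rn k G) = RingOfIntegers.norm k (G * (u : 𝓞 Ω))
    rw [← mul_assoc, ← Units.val_mul, ← q2, map_mul, mul_comm]
    rfl
  have e3 : Summable fun p => g (φ p) := (summable_of_hasFiniteSupport hg).comp_injective hφ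
  rw [← hφ.tsum_eq e2, tsum_congr e1, e3.tsum_prod, tsum_fintype, ← Finset.sum_coe_sort T]

theorem w_unfold (wt : Ideal (𝓞 Ω) → ℝ) {W e : ℕ} {P₀ : 𝓞 Ω} (hP : IsCoprime P₀ (W : 𝓞 Ω))
    {T : Finset (𝓞 k)ˣ} (hT : Unf (Gam k Ω W) e T) {g : 𝓞 k → ℝ}
    (hg : (Function.support g).Finite) {z : ℕ} (h : ∀ a, g a ≠ 0 → 0 < nm a ∧ nm a ≤ z) :
    ((∑' a, nl k wt W P₀ a * g a : ℝ) : ℂ) = ∑ n ∈ Ioc 0 z, cS wt W P₀
      (fun a => ∑ γ ∈ T, ((∑' b, g (((ue e b : (𝓞 k)ˣ) : 𝓞 k) * ((γ : 𝓞 k) * a)) : ℝ) : ℂ)) n := by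
  classical
  let f : Ideal (𝓞 Ω) → 𝓞 k → ℝ := fun I a =>
    if ∃ P, Gn W P₀ P ∧ I = Ideal.span {P} ∧ rn k P = a then g a else 0
  have hs : ∀ I, Summable fun a => wt I * f I a := fun I =>
    (summable_of_hasFiniteSupport (hg.subset fun a ha h0 => ha (by
      simp only [f, h0, ite_self]))).mul_left _
  have h1 : ∀ a, nl k wt W P₀ a * g a =
      ∑ n ∈ Ioc 0 z, ∑ I ∈ (idN Ω n).filter (Cl W P₀), wt I * f I a := fun a => by
    by_cases ha : g a = 0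
    · simp only [f, ha, ite_self, mul_zero, sum_const_zero]
    obtain ⟨a1, a2⟩ := h a ha
    rw [sum_eq_single_of_mem (nm a).natAbs (mem_Ioc.2 ⟨by omega, by omega⟩), nl, sum_mul,
      sum_filter, sum_filter]
    · refine sum_congr rfl fun I _ => ?_
      by_cases h2 : ∃ P, Gn W P₀ P ∧ I = Ideal.span {P} ∧ rn k P = a
      · obtain ⟨P, p1, p2, p3⟩ := id h2
        simp only [f, if_pos h2]
        rw [if_pos ⟨P, p2, p1.1, p3⟩, if_pos ⟨P, p1, p2⟩]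
      · simp only [f, if_neg h2, mul_zero, ite_self]
        exact if_neg fun ⟨P, p1, p2, p3⟩ =>
          h2 ⟨P, ⟨p2, by rwa [← w_nm_rn (k := k), show rn k P = a from p3]⟩, p1, p3⟩
    · refine fun n _ hn => sum_eq_zero fun I hI => mul_eq_zero_of_right _ (if_neg ?_)
      rintro ⟨P, -, rfl, rfl⟩
      rw [mem_filter, mem_idN, Ideal.absNorm_span_singleton] at hI
      exact hn (by rw [w_nm_rn, ← hI.1])
  rw [tsum_congr h1, Summable.tsum_finsetSum fun n _ => summable_sum fun I _ => hs I,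
    Complex.ofReal_sum]
  refine sum_congr rfl fun n _ => ?_
  rw [Summable.tsum_finsetSum fun I _ => hs I, Complex.ofReal_sum, cS]
  refine sum_congr (by congr) fun I hI => ?_
  rw [tsum_mul_left, w_unfold_one hP hT hg (mem_filter.1 hI).2 (fun a ha => if_pos ha)
    fun a ha => by_contra fun h0 => ha (if_neg h0), Complex.ofReal_mul, Complex.ofReal_sum]

theorem w_ray_ne {W : ℕ} {P₀ P : 𝓞 Ω} (h : Gn W P₀ P) : P ≠ 0 := fun e => by
  have := h.2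
  simp [e, nm] at this

open scoped Classical in
theorem w_ray {W : ℕ} (hW : 0 < W) : ∃ (ι : Type) (_ : Fintype ι) (ξ : ι → Ideal (𝓞 Ω) → ℂ),
    Nonempty ι ∧ (∀ i, HC W (ξ i)) ∧ (∀ i I, I ≠ ⊥ → Cop W I → ‖ξ i I‖ = 1) ∧
    (∃ i, ∀ I, I ≠ ⊥ → Cop W I → ξ i I = 1) ∧ ∀ (P₀ P₁ : 𝓞 Ω), IsCoprime P₀ (W : 𝓞 Ω) →
      Gn W P₀ P₁ → ∀ (wt : Ideal (𝓞 Ω) → ℝ) (F : Ideal (𝓞 Ω) → ℂ) (y z : ℕ),
        Fintype.card ι * ∑ n ∈ Ioc y z, ∑ I ∈ (idN Ω n).filter (Cl W P₀), wt I * F I =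
          ∑ i, (ξ i (Ideal.span {P₁}))⁻¹ * sI wt (ξ i * F) y z := by
  obtain ⟨ι, hι, ξ, h1, h2, ⟨i0, h3⟩, h4⟩ := ray_fam (K := Ω) hW
  refine ⟨ι, hι, ξ, ⟨i0⟩, h1, h2, ⟨i0, h3⟩, fun P₀ P₁ hP hG wt F y z => ?_⟩
  simp only [sI, mul_sum]
  rw [sum_comm (s := univ)]
  refine sum_congr rfl fun n _ => ?_
  rw [sum_comm (s := univ), sum_filter]
  refine sum_congr rfl fun I _ => ?_
  rw [sum_congr rfl (g := fun i => (ξ i (Ideal.span {P₁}))⁻¹ * ξ i I * (wt I * F I)) fun i _ => by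
    rw [Pi.mul_apply]
    ring, ← sum_mul, h4 I _ (mt Ideal.span_singleton_eq_bot.1 (w_ray_ne hG))
    (cop_congr hG.1 (cop_span.2 hP)), ← w_cl_ray hP hG]
  split_ifs <;> simp only [zero_mul]

theorem w_sharp_key {ι : Type} [Fintype ι] [Nonempty ι] {S κ : ℂ} {c s μ : ι → ℂ} {E : ℝ}
    (hκ : ‖κ‖ ≤ 1) (hc : ∀ i, ‖c i‖ = 1) (hS : (Fintype.card ι : ℂ) * S = ∑ i, (c i)⁻¹ * s i)
    (h : ∀ i, ‖s i - μ i‖ ≤ E) :
    ‖κ * S - κ * ((∑ i, (c i)⁻¹ * μ i) / Fintype.card ι)‖ ≤ E := by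
  have N0 : (0 : ℝ) < Fintype.card ι := by exact_mod_cast Fintype.card_pos
  have N1 : (Fintype.card ι : ℂ) ≠ 0 := by exact_mod_cast Fintype.card_ne_zero
  have e : S - (∑ i, (c i)⁻¹ * μ i) / Fintype.card ι =
      (∑ i, (c i)⁻¹ * (s i - μ i)) / Fintype.card ι := by
    simp only [mul_sub, sum_sub_distrib]
    rw [← hS, sub_div, mul_div_cancel_left₀ _ N1]
  rw [← mul_sub, norm_mul, e]
  refine (mul_le_of_le_one_left (norm_nonneg _) hκ).trans ?_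
  rw [norm_div, Complex.norm_natCast, div_le_iff₀ N0]
  refine (norm_sum_le _ _).trans ((sum_le_card_nsmul _ _ E fun i _ => ?_).trans_eq ?_)
  · rw [norm_mul, norm_inv, hc, inv_one, one_mul]
    exact h i
  · rw [card_univ, nsmul_eq_mul, mul_comm]

open scoped Classical in
theorem w_sharp_cS {W q : ℕ} (hq : 0 < q) (hW : W ∣ q) {ψ : 𝓞 k → ℂ} (hψ : Ch q ψ)
    {t : (k →+* ℂ) → ℝ} {m : (k →+* ℂ) → ℤ} {F : Ideal (𝓞 Ω) → ℂ}
    (hm : ∀ I J, F (I * J) = F I * F J) (hc : ∀ I, F I ≠ 0 → Cop q I)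
    (hF : ∀ P : 𝓞 Ω, Gn W 1 P → IsCoprime P (q : 𝓞 Ω) → F (Ideal.span {P}) = Ps ψ t m (rn k P))
    {P₀ P₁ : 𝓞 Ω} (h1 : Gn W P₀ P₁) (h2 : IsCoprime P₁ (q : 𝓞 Ω))
    (h3 : F (Ideal.span {P₁}) ≠ 0) (wt : Ideal (𝓞 Ω) → ℝ) (y z : ℕ) :
    ∑ n ∈ Ioc y z, cS wt W P₀ (Ps ψ t m) n = Ps ψ t m (rn k P₁) / F (Ideal.span {P₁}) *
      ∑ n ∈ Ioc y z, ∑ I ∈ (idN Ω n).filter (Cl W P₀), wt I * F I := by
  simp only [cS, mul_sum]
  refine sum_congr rfl fun n _ => sum_congr rfl fun I hI => ?_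
  obtain ⟨g1, g2⟩ := gen_spec (mem_filter.1 hI).2
  rw [mul_left_comm]
  congr 1
  generalize gen W P₀ I = P at g1 g2
  subst g2
  by_cases h : IsCoprime P (q : 𝓞 Ω)
  · rw [div_mul_eq_mul_div, eq_div_iff h3]
    linear_combination (w_const hq hW hψ hm hF g1 h1 h h2).symm
  · rw [Ps, hψ.zero _ (mt w_cop_rn.1 h), zero_mul,
      not_not.1 fun g => h (cop_span.1 (hc _ g)), mul_zero]

theorem w_sharp_le {q : ℕ} {ψ : 𝓞 k → ℂ} (hψ : Ch q ψ) (t : (k →+* ℂ) → ℝ) (m : (k →+* ℂ) → ℤ)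
    {P : 𝓞 Ω} (h0 : 0 < nm P) (h : IsCoprime P (q : 𝓞 Ω)) : ‖Ps ψ t m (rn k P)‖ = 1 := by
  rw [Ps, norm_mul, hψ.unit _ (w_cop_rn.2 h), one_mul]
  refine norm_ar t m (sc_ne one_ne_zero fun e => ?_)
  rw [← w_nm_rn (k := k), e] at h0
  simp [nm] at h0

open scoped Classical in
variable (k) in
theorem w_sharp {wt : Ideal (𝓞 Ω) → ℝ} {α : ℕ → ℝ} (hG : GS wt α) {W : ℕ} (hW : 0 < W)
    {P₀ : 𝓞 Ω} (hP : IsCoprime P₀ (W : 𝓞 Ω)) : ∃ ν : ℕ → ℝ, (∀ q, 0 < ν q) ∧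
      ∀ (A B : ℕ) (R : ℝ), ∀ᶠ x : ℝ in atTop, ∀ (q : ℕ) (ψ : 𝓞 k → ℂ) (t : (k →+* ℂ) → ℝ)
        (m : (k →+* ℂ) → ℤ) (P₁ : 𝓞 Ω) (y z : ℕ), 0 < q → BB Ω ∣ q → W ∣ q →
          (q : ℝ) ≤ Real.log x ^ B → Ch q ψ → ∑ φ, t φ = 0 → Sz (Real.log x ^ B) t m →
          (∀ γ ∈ Gam k Ω W, Ps ψ t m (γ : (𝓞 k)ˣ) = 1) → Gn W P₀ P₁ → IsCoprime P₁ (q : 𝓞 Ω) →
          x ≤ y → y ≤ z → z ≤ R * x →
            ‖∑ n ∈ Ioc y z, cS wt W P₀ (Ps ψ t m) n - (if Tv Ω q W (Ps ψ t m) then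
              Ps ψ t m (rn k P₁) * (α q * ν q : ℝ) else 0) * ((z : ℂ) - y)‖ ≤
                x / Real.log x ^ A := by
  obtain ⟨ι, _, ξ, _, h1, h2, ⟨i0, h3⟩, h4⟩ := w_ray (Ω := Ω) hW
  obtain ⟨o, ho⟩ : ∃ o : ℕ → Ideal (𝓞 Ω) → ℂ, ∀ q, o q = fun I => if Cop q I then 1 else 0 :=
    ⟨_, fun _ => rfl⟩
  have N0 : (0 : ℝ) < Fintype.card ι := by exact_mod_cast Fintype.card_pos
  refine ⟨fun q => if W ∣ q then #{i | ¬ NP q (ξ i * o q)} / Fintype.card ι else 1, fun q => ?_,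
    fun A B R => ?_⟩
  · beta_reduce
    split_ifs with h
    · refine div_pos (Nat.cast_pos.2 (card_pos.2 ⟨i0, mem_filter.2 ⟨mem_univ _, ?_⟩⟩)) N0
      rintro ⟨I, i1, i2, i3⟩
      exact i3 (by rw [Pi.mul_apply, h3 I i1 (i2.mono h), ho, one_mul]; exact if_pos i2)
    · exact one_pos
  filter_upwards [hG A B R] with x hx q ψ t m P₁ y z q0 hB hWq hq hψ ht hT hΓ p1 p2 y1 y2 y3
  have b0 : Ideal.span {P₁} ≠ ⊥ := mt Ideal.span_singleton_eq_bot.1 (w_ray_ne p1)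
  have b1 : Cop q (Ideal.span {P₁}) := cop_span.2 p2
  have key : ∀ (t' : (Ω →+* ℂ) → ℝ) (m' : (Ω →+* ℂ) → ℤ) (F : Ideal (𝓞 Ω) → ℂ), GC q t' m' F →
      Sz (Real.log x ^ B) t' m' → ‖F (Ideal.span {P₁})‖ = 1 → (∀ P : 𝓞 Ω, Gn W 1 P →
        IsCoprime P (q : 𝓞 Ω) → F (Ideal.span {P}) = Ps ψ t m (rn k P)) →
      ‖∑ n ∈ Ioc y z, cS wt W P₀ (Ps ψ t m) n - Ps ψ t m (rn k P₁) / F (Ideal.span {P₁}) *
        ((∑ i, (ξ i (Ideal.span {P₁}))⁻¹ * if NP q (ξ i * F) then 0 else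
          ((α q * ((z : ℝ) - y) : ℝ) : ℂ)) / Fintype.card ι)‖ ≤ x / Real.log x ^ A := by
    intro t' m' F f1 f2 f3 f4
    rw [w_sharp_cS q0 hWq hψ f1.mul f1.cop f4 p1 p2 (norm_ne_zero_iff.1 (f3 ▸ one_ne_zero))]
    refine w_sharp_key (by rw [norm_div, f3, w_sharp_le hψ t m p1.2 p2, div_one])
      (fun i => h2 i _ b0 (b1.mono hWq)) (h4 P₀ P₁ hP p1 wt F y z) fun i => ?_
    have := hx q t' m' _ y z hB hq f2 (w_gc_mul hWq (h1 i) f1) y1 y2 y3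
    split_ifs with hn
    · rw [sub_zero]
      exact this.1 hn
    · exact this.2 hn
  split_ifs with hv
  · have e1 : o q (Ideal.span {P₁}) = 1 := by
      rw [ho]
      exact if_pos b1
    refine le_of_eq_of_le ?_ (key 0 0 (o q) (ho q ▸ w_gc_one q0) (fun φ => by
      simpa only [Pi.zero_apply, abs_zero, Int.cast_zero, and_self] using (Nat.cast_nonneg q).trans hq) (by rw [e1, norm_one]) fun P g1 g2 => by
        rw [hv P g1 g2, ho]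
        exact if_pos (cop_span.2 g2))
    rw [e1, div_one, sum_congr rfl (g := fun i => if ¬ NP q (ξ i * o q) then
      ((α q * ((z : ℝ) - y) : ℝ) : ℂ) else 0) fun i _ => ?_, ← sum_filter, sum_const, nsmul_eq_mul]
    · refine congrArg (fun u => ‖_ - u‖) ?_
      push_cast
      ring
    · by_cases hn : NP q (ξ i * o q)
      · rw [if_pos hn, if_neg (not_not.2 hn), mul_zero]
      · have e2 : (ξ i * o q) (Ideal.span {P₁}) = 1 := not_not.1 fun g => hn ⟨_, b0, b1, g⟩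
        rw [Pi.mul_apply, e1, mul_one] at e2
        rw [if_neg hn, if_pos hn, e2, inv_one, one_mul]
  · obtain ⟨F, f1, f2, f3⟩ := w_gc q0 hWq hψ ht hΓ
    refine le_of_eq_of_le ?_ (key _ _ F f1 (fun φ => hT _) (f2 _ b0 b1) f3)
    obtain ⟨P, g1, g2, g3⟩ : ∃ P : 𝓞 Ω, Gn W 1 P ∧ IsCoprime P (q : 𝓞 Ω) ∧
        Ps ψ t m (rn k P) ≠ 1 := by
      by_contra hc
      exact hv fun P g1 g2 => not_not.1 fun g3 => hc ⟨P, g1, g2, g3⟩
    rw [sum_eq_zero (s := univ) fun i _ => ?_, zero_div, mul_zero, zero_mul]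
    rw [if_pos ⟨_, mt Ideal.span_singleton_eq_bot.1 (w_ray_ne g1), cop_span.2 g2, by
      rwa [Pi.mul_apply, w_hc_one (h1 i) g1, one_mul, f3 P g1 g2]⟩, mul_zero]

theorem w_rad {u : ℕ → ℂ} {κ : ℂ} {c : ℝ → ℂ} {y z : ℕ} {E T Y : ℝ} (hy : 0 < y) (hyz : y ≤ z)
    (hY : 0 < Y) (h : ∀ j : ℕ, y ≤ j → j ≤ z → ‖∑ n ∈ Ioc y j, u n - κ * ((j : ℂ) - y)‖ ≤ E)
    (hc : ∀ v, ‖c v‖ ≤ T) (hl : ∀ v v', ‖c v - c v'‖ ≤ T * |v - v'|) :
    ‖∑ n ∈ Ioc y z, c (Real.log (n / Y)) * u n - κ * ∑ n ∈ Ioc y z, c (Real.log (n / Y))‖ ≤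
      E * T * (1 + Real.log (z / y)) := by
  have hE : 0 ≤ E := (norm_nonneg _).trans (h y le_rfl hyz)
  have y0 : (0 : ℝ) < y := Nat.cast_pos.2 hy
  have h1 := Pool.Agent.MP_a96b63_al.H5.abel (fun n => u n - κ)
    (fun n => c (Real.log (n / Y))) hyz (B := E) fun j h1 h2 => by
      rw [sum_sub_distrib, sum_const, Nat.card_Ioc, nsmul_eq_mul, Nat.cast_sub h1, mul_comm]
      exact h j h1 h2
  have h2 : ∑ n ∈ Ico y z, ‖c (Real.log (((n + 1 : ℕ) : ℝ) / Y)) - c (Real.log (n / Y))‖ ≤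
      T * Real.log (z / y) := by
    have z0 : (0 : ℝ) < z := y0.trans_le (Nat.cast_le.2 hyz)
    rw [Real.log_div z0.ne' y0.ne', ← sum_Ico_sub (fun n : ℕ => Real.log n) hyz, mul_sum]
    refine sum_le_sum fun n hn => (hl _ _).trans (le_of_eq ?_)
    have n0 : (0 : ℝ) < n := y0.trans_le (Nat.cast_le.2 (mem_Ico.1 hn).1)
    have n1 : (n : ℝ) ≤ (n + 1 : ℕ) := Nat.cast_le.2 n.le_succ
    rw [Real.log_div (n0.trans_le n1).ne' hY.ne', Real.log_div n0.ne' hY.ne', sub_sub_sub_cancel_right,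
      abs_of_nonneg (sub_nonneg.2 (Real.log_le_log n0 n1))]
  rw [mul_sum, ← sum_sub_distrib]
  refine (le_of_eq (congrArg _ (sum_congr rfl fun n _ => by ring))).trans (h1.trans ?_)
  rw [mul_assoc, mul_add T, mul_one]
  exact mul_le_mul_of_nonneg_left (add_le_add (hc _) h2) hE

variable (k) in
/-- the radial sums -/
noncomputable def rS (R X : ℝ) (c : ℝ → ℂ) (u : ℕ → ℂ) : ℂ :=
  ∑ n ∈ Ioc 0 ⌊(R * X) ^ dg k⌋₊, c (Real.log (n / X ^ dg k)) * u n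

theorem w_one_mul {q : ℕ} {ψ : 𝓞 k → ℂ} (hψ : Ch q ψ) (t : (k →+* ℂ) → ℝ)
    (m : (k →+* ℂ) → ℤ) {a b : 𝓞 k} (ha : a ≠ 0) (hb : b ≠ 0) :
    Ps ψ t m (a * b) = Ps ψ t m a * Ps ψ t m b := by
  rw [Ps, Ps, Ps, hψ.mul, ar_sc_mul t m ha hb]
  ring

theorem w_one_cS (wt : Ideal (𝓞 Ω) → ℝ) (W : ℕ) (P₀ : 𝓞 Ω) {q : ℕ} {ψ : 𝓞 k → ℂ} (hψ : Ch q ψ)
    (t : (k →+* ℂ) → ℝ) (m : (k →+* ℂ) → ℤ) (T : Finset (𝓞 k)ˣ) (n : ℕ) :
    cS wt W P₀ (fun a => ∑ γ ∈ T, Ps ψ t m ((γ : 𝓞 k) * a)) n =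
      (∑ γ ∈ T, Ps ψ t m (γ : 𝓞 k)) * cS wt W P₀ (Ps ψ t m) n := by
  classical
  rw [cS, cS, mul_sum]
  refine sum_congr rfl fun I hI => ?_
  have h1 : rn k (gen W P₀ I) ≠ 0 := fun e => by
    have h2 := (gen_spec (mem_filter.1 hI).2).1.2
    rw [← w_nm_rn (k := k), e] at h2
    simp [nm] at h2
  rw [mul_left_comm, sum_mul]
  exact congrArg _ (sum_congr rfl fun γ _ => w_one_mul hψ t m γ.ne_zero h1)

open scoped Classical in
variable (k) in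
theorem w_one {wt : Ideal (𝓞 Ω) → ℝ} {α : ℕ → ℝ} (hG : GS wt α) {W : ℕ} (hW : 0 < W)
    {P₀ : 𝓞 Ω} (hP : IsCoprime P₀ (W : 𝓞 Ω)) : ∃ ν : ℕ → ℝ, (∀ q, 0 < ν q) ∧
      ∀ (A B : ℕ) (R : ℝ), 1 ≤ R → ∀ᶠ X : ℝ in atTop, ∀ (q e : ℕ) (ψ : 𝓞 k → ℂ)
        (t : (k →+* ℂ) → ℝ) (m : (k →+* ℂ) → ℤ) (P₁ : 𝓞 Ω) (T : Finset (𝓞 k)ˣ) (c : ℝ → ℂ),
          0 < q → BB Ω ∣ q → W ∣ q → (q : ℝ) ≤ Real.log X ^ B → Ch q ψ → ∑ φ, t φ = 0 →
          Sz (Real.log X ^ B) t m → Unf (Gam k Ω W) e T →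
          (∀ i, Ps ψ t m (fundSystem k i ^ e : (𝓞 k)ˣ) = 1) → Gn W P₀ P₁ →
          IsCoprime P₁ (q : 𝓞 Ω) → (∀ v, ‖c v‖ ≤ Real.log X ^ B) →
          (∀ v v', ‖c v - c v'‖ ≤ Real.log X ^ B * |v - v'|) →
          (∀ v, c v ≠ 0 → |v| ≤ dg k * Real.log R) →
            ‖rS k R X c (cS wt W P₀ fun a => ∑ γ ∈ T, Ps ψ t m ((γ : 𝓞 k) * a)) -
              (if Tv Ω q W (Ps ψ t m) then #T * Ps ψ t m (rn k P₁) * (α q * ν q : ℝ) else 0) *
                rS k R X c 1‖ ≤ #T * (X ^ dg k / Real.log X ^ A) := by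
  obtain ⟨ν, hν, H⟩ := w_sharp k hG hW hP
  refine ⟨ν, hν, fun A B R hR => ?_⟩
  have hd := dg_pos k
  have r1 : 1 ≤ R ^ dg k := one_le_pow₀ hR
  have r0 : 0 < 2 * R ^ dg k := by positivity
  have hx : Tendsto (fun X : ℝ => X ^ dg k / (2 * R ^ dg k)) atTop atTop :=
    (tendsto_pow_atTop hd.ne').atTop_div_const r0
  filter_upwards [hx.eventually (H (2 * (A + B + 1)) (2 * B) (2 * R ^ dg k * R ^ dg k)),
    hx.eventually_ge_atTop 1, eventually_ge_atTop 1, Real.tendsto_log_atTop.eventually_ge_atTop 4,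
    Real.tendsto_log_atTop.eventually_ge_atTop (2 * Real.log (2 * R ^ dg k)),
    Real.tendsto_log_atTop.eventually_ge_atTop (1 + Real.log (2 * R ^ dg k * R ^ dg k))] with
    X H x1 X1 l1 l2 l3 q e ψ t m P₁ T c q0 q1 q2 q3 hψ ht hs hT he p1 p2 c1 c2 c3
  have X0 : 0 < X ^ dg k := by positivity
  have l0 : 0 < Real.log X := by linarith only [l1]
  have hE : 0 ≤ X ^ dg k / Real.log X ^ A := by positivity
  simp only [rS, w_one_cS wt W P₀ hψ t m T, Pi.one_apply, mul_one]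
  by_cases hΓ : ∀ γ ∈ Gam k Ω W, Ps ψ t m (γ : (𝓞 k)ˣ) = 1
  swap
  · push Not at hΓ
    have h1 := hT.orth (fun γ => Ps ψ t m (γ : 𝓞 k))
      (fun a b => w_one_mul hψ t m a.ne_zero b.ne_zero)
      (by rw [Units.val_one, Ps, hψ.one, ar_one, mul_one]) he hΓ
    obtain ⟨γ, ⟨u, u1, u2⟩, h2⟩ := hΓ
    rw [h1, if_neg fun h3 => h2 (u2 ▸ h3 u u1 ⟨(u⁻¹ : (𝓞 Ω)ˣ), 0, by simp⟩)]
    simp only [zero_mul, mul_zero, sum_const_zero, sub_zero, norm_zero]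
    positivity
  rw [sum_congr rfl fun γ hγ => hΓ γ (hT.mem γ hγ), sum_const, nsmul_eq_mul, mul_one]
  generalize hxx : X ^ dg k / (2 * R ^ dg k) = x at H x1
  have e1 : X ^ dg k = 2 * R ^ dg k * x := by rw [← hxx]; field_simp
  have l4 : Real.log X ≤ Real.log x ^ 2 := by
    have h1 : Real.log x = dg k * Real.log X - Real.log (2 * R ^ dg k) := by
      rw [← hxx, Real.log_div X0.ne' r0.ne', Real.log_pow]
    have h2 : (1 : ℝ) ≤ dg k := Nat.one_le_cast.2 hd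
    have h3 : Real.log X / 2 ≤ Real.log x := by nlinarith only [l1, l2, h1, h2]
    nlinarith only [l1, h3]
  have l5 : ∀ n, Real.log X ^ n ≤ Real.log x ^ (2 * n) := fun n => by
    rw [pow_mul]
    exact pow_le_pow_left₀ l0.le l4 n
  have y1 : x ≤ ⌈x⌉₊ := Nat.le_ceil x
  have y2 : (⌈x⌉₊ : ℝ) < 2 * x := by linarith only [Nat.ceil_lt_add_one (zero_le_one.trans x1), x1]
  have y0 : 0 < ⌈x⌉₊ := Nat.ceil_pos.2 (by linarith only [x1])
  have e2 : (R * X) ^ dg k = 2 * R ^ dg k * R ^ dg k * x := by rw [mul_pow, e1]; ring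
  have z1 : (⌊(R * X) ^ dg k⌋₊ : ℝ) ≤ 2 * R ^ dg k * R ^ dg k * x :=
    e2 ▸ Nat.floor_le (by positivity)
  have yz : ⌈x⌉₊ ≤ ⌊(R * X) ^ dg k⌋₊ := Nat.le_floor (by
    rw [e2]
    nlinarith only [mul_le_mul r1 r1 zero_le_one (zero_le_one.trans r1), y2])
  generalize ⌊(R * X) ^ dg k⌋₊ = z at *
  generalize ⌈x⌉₊ = y at *
  have hv : ∀ n ∈ Ioc 0 y, c (Real.log (n / X ^ dg k)) = 0 := fun n hn => by
    by_contra h1
    have h2 := (abs_le.1 (c3 _ h1)).1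
    have n0 : (0 : ℝ) < n := Nat.cast_pos.2 (mem_Ioc.1 hn).1
    have n1 : (n : ℝ) ≤ y := Nat.cast_le.2 (mem_Ioc.1 hn).2
    rw [← Real.log_pow, ← Real.log_inv, Real.log_le_log_iff (by positivity) (by positivity),
      le_div_iff₀ X0, e1, inv_mul_le_iff₀ (by positivity)] at h2
    nlinarith only [r1, y2, h2, n1]
  have hs' : ∀ f : ℕ → ℂ, ∑ n ∈ Ioc 0 z, c (Real.log (n / X ^ dg k)) * f n =
      ∑ n ∈ Ioc y z, c (Real.log (n / X ^ dg k)) * f n := fun f => by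
    rw [← sum_Ioc_consecutive _ y.zero_le yz, sum_eq_zero fun n hn => by rw [hv n hn, zero_mul],
      zero_add]
  have h1 := w_rad y0 yz X0 (fun j j1 j2 => H q ψ t m P₁ y j q0 q1 q2 (q3.trans (l5 B)) hψ ht
    (fun φ => ⟨(hs φ).1.trans (l5 B), (hs φ).2.trans (l5 B)⟩) hΓ p1 p2 y1 j1
    ((Nat.cast_le.2 j2).trans z1)) c1 c2
  have h2 := hs' 1
  simp only [Pi.one_apply, mul_one] at h2
  have h3 : x / Real.log x ^ (2 * (A + B + 1)) * Real.log X ^ B * (1 + Real.log (z / y)) ≤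
      X ^ dg k / Real.log X ^ A := by
    have y3 : (0 : ℝ) < y := Nat.cast_pos.2 y0
    have h4 : Real.log (z / y) ≤ Real.log (2 * R ^ dg k * R ^ dg k) :=
      Real.log_le_log (div_pos (y3.trans_le (Nat.cast_le.2 yz)) y3)
        ((div_le_iff₀ y3).2 (z1.trans (mul_le_mul_of_nonneg_left y1 (by positivity))))
    have h5 : x / Real.log x ^ (2 * (A + B + 1)) ≤ X ^ dg k / Real.log X ^ (A + B + 1) :=
      div_le_div₀ X0.le (by nlinarith only [r1, x1, e1]) (by positivity) (l5 _)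
    calc _ ≤ x / Real.log x ^ (2 * (A + B + 1)) * Real.log X ^ B * Real.log X :=
          mul_le_mul_of_nonneg_left (by linarith only [l3, h4]) (mul_nonneg (div_nonneg (by linarith only [x1])
            ((pow_nonneg l0.le _).trans (l5 _))) (by positivity))
      _ ≤ X ^ dg k / Real.log X ^ (A + B + 1) * Real.log X ^ B * Real.log X := by gcongr
      _ = _ := by field_simp; ring
  rw [hs', h2]
  refine (le_of_eq ?_).trans (mul_le_mul_of_nonneg_left (h1.trans h3) (Nat.cast_nonneg #T))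
  rw [← Complex.norm_natCast, ← norm_mul, mul_sub]
  congr 2
  · rw [mul_sum]
    exact sum_congr rfl fun n _ => by ring
  · generalize ∑ n ∈ Ioc y z, c (Real.log (n / X ^ dg k)) = S
    split_ifs <;> ring

open scoped Classical in
/-- the pointwise approximation of the unfolded weight -/
theorem w_app {R L T ε X : ℝ} {e q : ℕ} (he : Even e) (hX : 0 < X) (hε : 0 ≤ ε)
    (hq : ∀ b, (q : 𝓞 k) ∣ (ue e b : (𝓞 k)ˣ) - 1) {η : 𝓞 k → ℝ} (hη : Pe q η)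
    {Φ : ((k →+* ℂ) → ℂ) → ℝ} (hΦ : Wt R L Φ) {J : Type} {s : Finset J}
    {t : J → (k →+* ℂ) → ℝ} {m : J → (k →+* ℂ) → ℤ} {c : J → ℝ → ℂ} (h : Ex R e T ε Φ s t m c)
    {a : 𝓞 k} (ha : a ≠ 0) :
    ‖((∑' b, η ((ue e b : (𝓞 k)ˣ) * a) * Φ (sc X ((ue e b : (𝓞 k)ˣ) * a)) : ℝ) : ℂ) -
      ∑ j ∈ s, c j (Real.log (|(nm a : ℝ)| / X ^ dg k)) *
        ((if TP a then (η a : ℂ) else 0) * ar (t j) (m j) (sc 1 a))‖ ≤ ε := by
  by_cases hT : TP a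
  · have e1 : ∀ b, η ((ue e b : (𝓞 k)ˣ) * a) = η a := fun b => hη.1 _ _ (by
      rw [show ((ue e b : (𝓞 k)ˣ) : 𝓞 k) * a - a = ((ue e b : (𝓞 k)ˣ) - 1) * a by ring]
      exact (hq b).mul_right a)
    have e2 : ∑ j ∈ s, c j (Real.log (|(nm a : ℝ)| / X ^ dg k)) *
        ((η a : ℂ) * ar (t j) (m j) (sc 1 a)) = (η a : ℂ) *
          ∑ j ∈ s, c j (Real.log (|(nm a : ℝ)| / X ^ dg k)) * ar (t j) (m j) (sc 1 a) := by
      rw [mul_sum]
      exact sum_congr rfl fun j _ => mul_left_comm _ _ _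
    simp only [e1, if_pos hT]
    rw [tsum_mul_left, Complex.ofReal_mul, e2, ← mul_sub, norm_mul, Complex.norm_real,
      Real.norm_eq_abs]
    exact (mul_le_mul (hη.2 a) (h.app X hX a hT) (norm_nonneg _) one_pos.le).trans_eq (one_mul ε)
  · have e1 : ∀ b, Φ (sc X ((ue e b : (𝓞 k)ˣ) * a)) = 0 := fun b => by
      by_contra h0
      refine hT ((w_tp_ue he b a).1 ⟨mul_ne_zero (Units.ne_zero _) ha, fun φ hφ => ?_⟩)
      have h1 := (hΦ.supp _ h0 φ).2.2 hφ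
      rw [sc, Complex.div_ofReal_re] at h1
      exact (div_pos_iff_of_pos_right hX).1 h1
    simp only [e1, if_neg hT, mul_zero, zero_mul, tsum_zero, sum_const_zero, Complex.ofReal_zero,
      sub_zero, norm_zero]
    exact hε

theorem w_exp_fin {q : ℕ} (hq : 0 < q) {ι : Type} [Fintype ι] {ψ : ι → 𝓞 k → ℂ}
    (h : ∀ a b, IsCoprime b (q : 𝓞 k) → (((q : 𝓞 k) ∣ a - b →
      ∑ i, (ψ i b)⁻¹ * ψ i a = Fintype.card ι) ∧
        (¬ (q : 𝓞 k) ∣ a - b → ∑ i, (ψ i b)⁻¹ * ψ i a = 0)))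
    {η : 𝓞 k → ℝ} (hη : Pe q η) (hc : ∀ a, η a ≠ 0 → IsCoprime a (q : 𝓞 k)) (a : 𝓞 k) :
    ∑ b ∈ cb (Ix k) q, (η (el k b) : ℂ) * ∑ i, (ψ i (el k b))⁻¹ * ψ i a =
      η a * Fintype.card ι := by
  obtain ⟨b, ⟨h1, h2⟩, h3⟩ := w_cb hq a
  rw [sum_eq_single_of_mem b h1, ← hη.1 _ _ h2]
  · by_cases h0 : η a = 0
    · rw [h0, Complex.ofReal_zero, zero_mul, zero_mul]
    · rw [(h a _ (hc _ (hη.1 _ _ h2 ▸ h0))).1 h2]
  · intro b' h4 h5
    by_cases h0 : η (el k b') = 0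
    · rw [h0, Complex.ofReal_zero, zero_mul]
    · rw [(h a _ (hc _ h0)).2 fun h6 => h5 (h3 b' ⟨h4, h6⟩), mul_zero]

open scoped Classical in
theorem w_exp_sign {a : 𝓞 k} (ha : a ≠ 0) :
    ∑ s ∈ (Rr k).powerset, ar 0 (sgm s) (sc 1 a) = if TP a then 2 ^ #(Rr k) else 0 := by
  obtain ⟨-, h1, h2⟩ := w_sign ha
  by_cases hT : TP a
  · rw [if_pos hT, sum_congr rfl fun s hs => h1 hT s (mem_powerset.1 hs), sum_const,
      card_powerset, nsmul_one, Nat.cast_pow, Nat.cast_ofNat]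
  · rw [if_neg hT, h2 hT]

open scoped Classical in
/-- the expansion in characters -/
theorem w_exp {q : ℕ} (hq : 0 < q) {ι : Type} [Fintype ι] [Nonempty ι] {ψ : ι → 𝓞 k → ℂ}
    (h : ∀ a b, IsCoprime b (q : 𝓞 k) → (((q : 𝓞 k) ∣ a - b →
      ∑ i, (ψ i b)⁻¹ * ψ i a = Fintype.card ι) ∧
        (¬ (q : 𝓞 k) ∣ a - b → ∑ i, (ψ i b)⁻¹ * ψ i a = 0)))
    {η : 𝓞 k → ℝ} (hη : Pe q η) (hc : ∀ a, η a ≠ 0 → IsCoprime a (q : 𝓞 k))
    (t : (k →+* ℂ) → ℝ) (m : (k →+* ℂ) → ℤ) {a : 𝓞 k} (ha : a ≠ 0) :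
    (if TP a then (η a : ℂ) else 0) * ar t m (sc 1 a) =
      ∑ b ∈ cb (Ix k) q, ∑ i, ∑ s ∈ (Rr k).powerset,
        η (el k b) * (ψ i (el k b))⁻¹ / (Fintype.card ι * 2 ^ #(Rr k)) *
          Ps (ψ i) t (m + sgm s) a := by
  have e1 : ∀ s, ar t (m + sgm s) (sc 1 a) = ar t m (sc 1 a) * ar 0 (sgm s) (sc 1 a) := fun s => by
    rw [← ar_add t 0 m (sgm s) (sc_ne one_ne_zero ha), add_zero]
  have e2 : ∀ b, ∑ i, ∑ s ∈ (Rr k).powerset,
      η (el k b) * (ψ i (el k b))⁻¹ / (Fintype.card ι * 2 ^ #(Rr k)) * Ps (ψ i) t (m + sgm s) a =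
        (η (el k b) * ∑ i, (ψ i (el k b))⁻¹ * ψ i a) * ((ar t m (sc 1 a) *
          ∑ s ∈ (Rr k).powerset, ar 0 (sgm s) (sc 1 a)) / (Fintype.card ι * 2 ^ #(Rr k))) :=
    fun b => by
      rw [mul_sum, sum_mul]
      refine sum_congr rfl fun i _ => ?_
      rw [mul_sum, sum_div, mul_sum]
      refine sum_congr rfl fun s _ => ?_
      rw [Ps, e1]
      ring
  have hN : (Fintype.card ι : ℂ) ≠ 0 := Nat.cast_ne_zero.2 Fintype.card_ne_zero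
  have h2 : (2 : ℂ) ^ #(Rr k) ≠ 0 := pow_ne_zero _ two_ne_zero
  rw [sum_congr rfl fun b _ => e2 b, ← sum_mul, w_exp_fin hq h hη hc, w_exp_sign ha]
  split_ifs
  · field_simp
  · simp only [mul_zero, zero_mul, zero_div]

/-- the statement of the lemma on roots -/
def Root (k : Type) [Field k] [NumberField k] : Prop :=
  ∀ (t : (k →+* ℂ) → ℝ) (m : (k →+* ℂ) → ℤ), ∑ φ, t φ = 0 →
    (∀ φ, ComplexEmbedding.IsReal φ → m φ = 0) → ∀ q d : ℕ, 0 < q → 0 < d →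
      (∀ a : 𝓞 k, a ≠ 0 → (q : 𝓞 k) ∣ a - 1 → ar t m (sc 1 a) ^ d = 1) → Tr t m

open scoped Classical in
/-- the functional in the main term -/
noncomputable def II (R X : ℝ) {J : Type} (s : Finset J) (t : J → (k →+* ℂ) → ℝ)
    (m : J → (k →+* ℂ) → ℤ) (c : J → ℝ → ℂ) : ℂ :=
  ∑ j ∈ s.filter fun j => Tr (t j) (m j), rS k R X (c j) 1

/-- the sums of `lam` against all test functions are multiples of the functional -/
def Mn (lam : 𝓞 k → ℝ) (W₂ D : ℕ) (a₀ : 𝓞 k) (β : ℕ → ℝ) : Prop :=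
  ∀ (A B : ℕ) (R : ℝ), 1 ≤ R → ∃ A' : ℕ, ∀ B' : ℕ, ∀ᶠ X : ℝ in atTop, ∀ (q : ℕ) (η : 𝓞 k → ℝ)
    (Φ : ((k →+* ℂ) → ℂ) → ℝ) (L : ℝ) (J : Type) (s : Finset J) (t : J → (k →+* ℂ) → ℝ)
    (m : J → (k →+* ℂ) → ℤ) (c : J → ℝ → ℂ), 0 < q → W₂ ∣ q → (q : ℝ) ≤ Real.log X ^ B →
      Pe q η → (∀ a, η a ≠ 0 → (W₂ : 𝓞 k) ∣ a - a₀ ∧ IsCoprime a (q : 𝓞 k)) → Wt R L Φ →
      Ex R (ex k D q) (Real.log X ^ B') (1 / Real.log X ^ A') Φ s t m c →
        ‖((∑' a, lam a * (η a * Φ (sc X a)) : ℝ) : ℂ) -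
          (β q * ∑ b ∈ cb (Ix k) q, η (el k b) : ℝ) * II R X s t m c‖ ≤
            X ^ dg k / Real.log X ^ A

theorem w_core_supp {R L X : ℝ} (hR : 1 ≤ R) (hX : 0 < X) {Φ : ((k →+* ℂ) → ℂ) → ℝ}
    (hΦ : Wt R L Φ) {a : 𝓞 k} (ha : Φ (sc X a) ≠ 0) :
    ‖sc X a‖ ≤ R ∧ 0 < nm a ∧ nm a ≤ ⌊(R * X) ^ dg k⌋₊ := by
  have h := hΦ.supp _ ha
  have h0 : 0 < nm a := by
    refine w_tp_nm ⟨?_, fun φ hφ => ?_⟩
    · rintro rfl
      obtain ⟨φ⟩ : Nonempty (k →+* ℂ) := inferInstance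
      have h1 := (h φ).1
      simp only [sc, map_zero, zero_div, norm_zero] at h1
      exact absurd h1 (not_le.2 (by positivity))
    · have h1 := (h φ).2.2 hφ
      rw [sc, Complex.div_ofReal_re] at h1
      exact (div_pos_iff_of_pos_right hX).1 h1
  refine ⟨(pi_norm_le_iff_of_nonneg (by positivity)).2 fun φ => (h φ).2.1, h0, ?_⟩
  have h1 : |(nm a : ℝ)| ≤ (R * X) ^ dg k := by
    rw [rep_prod, dg, ← Embeddings.card k ℂ, ← card_univ, ← prod_const]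
    refine prod_le_prod (fun _ _ => norm_nonneg _) fun φ _ => ?_
    have h2 := (h φ).2.1
    rwa [sc, norm_div, Complex.norm_real, Real.norm_of_nonneg hX.le, div_le_iff₀ hX] at h2
  obtain ⟨n, hn⟩ := Int.eq_ofNat_of_zero_le h0.le
  rw [hn] at h1 ⊢
  exact_mod_cast Nat.le_floor (by simpa only [Int.cast_natCast, Nat.abs_cast] using h1)

open scoped Classical in
theorem w_core_err {wt : Ideal (𝓞 Ω) → ℝ} {W : ℕ} {P₀ : 𝓞 Ω} {R X ε C : ℝ} (hε : 0 ≤ ε)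
    (hC : ∑ n ∈ Ioc 0 ⌊(R * X) ^ dg k⌋₊, ∑ I ∈ idN Ω n, |wt I| ≤ C) (T : Finset (𝓞 k)ˣ)
    {P : Type} (K : Finset P) (cc : P → ℝ → ℂ) (co : P → ℂ) (F : P → 𝓞 k → ℂ) (U : 𝓞 k → ℂ)
    (h : ∀ a, a ≠ 0 →
      ‖U a - ∑ p ∈ K, cc p (Real.log (|(nm a : ℝ)| / X ^ dg k)) * (co p * F p a)‖ ≤ ε) :
    ‖∑ n ∈ Ioc 0 ⌊(R * X) ^ dg k⌋₊, cS wt W P₀ (fun a => ∑ γ ∈ T, U ((γ : 𝓞 k) * a)) n -
      ∑ p ∈ K, co p * rS k R X (cc p) (cS wt W P₀ fun a => ∑ γ ∈ T, F p ((γ : 𝓞 k) * a))‖ ≤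
        C * (#T * ε) := by
  have e : ∑ p ∈ K, co p * rS k R X (cc p) (cS wt W P₀ fun a => ∑ γ ∈ T, F p ((γ : 𝓞 k) * a)) =
      ∑ n ∈ Ioc 0 ⌊(R * X) ^ dg k⌋₊, ∑ I ∈ (idN Ω n).filter (Cl W P₀), wt I * ∑ γ ∈ T, ∑ p ∈ K,
        cc p (Real.log (n / X ^ dg k)) * (co p * F p ((γ : 𝓞 k) * rn k (gen W P₀ I))) := by
    simp only [rS, cS, mul_sum]
    rw [sum_comm]
    refine sum_congr rfl fun n _ => ?_
    rw [sum_comm]
    refine sum_congr rfl fun I _ => ?_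
    rw [sum_comm]
    refine sum_congr rfl fun γ _ => sum_congr rfl fun p _ => by ring
  rw [e, ← sum_sub_distrib]
  refine (norm_sum_le _ _).trans (le_trans ?_ (mul_le_mul_of_nonneg_right hC (by positivity)))
  rw [sum_mul]
  refine sum_le_sum fun n _ => ?_
  rw [cS, ← sum_sub_distrib, sum_mul]
  refine (norm_sum_le _ _).trans (le_trans (sum_le_sum fun I hI => ?_)
    (sum_le_sum_of_subset_of_nonneg (filter_subset (Cl W P₀) _) fun _ _ _ => by positivity))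
  obtain ⟨h1, h2⟩ := mem_filter.1 hI
  obtain ⟨⟨-, h3⟩, h4⟩ := gen_spec h2
  rw [← mul_sub, norm_mul, Complex.norm_real, Real.norm_eq_abs, ← sum_sub_distrib]
  refine mul_le_mul_of_nonneg_left ((norm_sum_le _ _).trans ?_) (abs_nonneg _)
  rw [← nsmul_eq_mul]
  refine sum_le_card_nsmul _ _ _ fun γ _ => ?_
  have h5 : (nm ((γ : 𝓞 k) * rn k (gen W P₀ I))).natAbs = n := by
    rw [nm_mul, Int.natAbs_mul, w_nm_rn, Int.isUnit_iff_natAbs_eq.1 (γ.isUnit.map (Algebra.norm ℤ)),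
      one_mul, ← Ideal.absNorm_span_singleton, ← h4, (mem_idN Ω).1 h1]
  have h6 := h ((γ : 𝓞 k) * rn k (gen W P₀ I)) (mul_ne_zero γ.ne_zero fun e => by
    rw [← w_nm_rn (k := k), e] at h3
    simp [nm] at h3)
  rwa [← Int.cast_abs, ← Int.natCast_natAbs, h5, Int.cast_natCast] at h6

theorem w_core_add (ψ : 𝓞 k → ℂ) (t : (k →+* ℂ) → ℝ) (m m' : (k →+* ℂ) → ℤ) {a : 𝓞 k}
    (ha : a ≠ 0) : Ps ψ t (m + m') a = ar t m (sc 1 a) * Ps ψ 0 m' a := by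
  have h := ar_add t 0 m m' (sc_ne one_ne_zero ha)
  rw [add_zero] at h
  rw [Ps, Ps, h]
  ring

open scoped Classical in
theorem w_core_val {W W₂ q : ℕ} (hq : 0 < q) (hW : W ∣ W₂) (hW' : W₂ ∣ q) {P₀ P₁ : 𝓞 Ω}
    {a₀ : 𝓞 k} (hH : ∀ a : 𝓞 k, TP a → IsCoprime a (q : 𝓞 k) → (W₂ : 𝓞 k) ∣ a - a₀ →
      ∃ P : 𝓞 Ω, (W : 𝓞 Ω) ∣ P - P₀ ∧ (q : 𝓞 k) ∣ rn k P - a ∧ TP (rn k P))
    (h1 : Gn W P₀ P₁) (h2 : IsCoprime P₁ (q : 𝓞 Ω)) {ψ : 𝓞 k → ℂ} (hψ : Ch q ψ)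
    {S : Finset (k →+* ℂ)} (hS : S ⊆ Rr k) (hT : Tv Ω q W (Ps ψ 0 (sgm S))) {b : 𝓞 k}
    (h3 : (W₂ : 𝓞 k) ∣ b - a₀) (h4 : IsCoprime b (q : 𝓞 k)) :
    Ps ψ 0 (sgm S) (rn k P₁) = ψ b := by
  obtain ⟨a, ha, c, hc⟩ := w_tp_ex hq b
  have h5 : IsCoprime a (q : 𝓞 k) := by
    rw [show a = b + q * c by linear_combination hc]
    exact h4.add_mul_left_left c
  obtain ⟨P, p1, ⟨d, hd⟩, p3⟩ := hH a ha h5 (by
    rw [show a - a₀ = q * c + (b - a₀) by linear_combination hc]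
    exact ((Nat.cast_dvd_cast hW').mul_right c).add h3)
  have h6 : IsCoprime P (q : 𝓞 Ω) := (w_cop_rn (k := k)).1 (by
    rw [show rn k P = a + q * d by linear_combination hd]
    exact h5.add_mul_left_left d)
  have h7 := w_const hq (hW.trans hW') hψ (t := 0) (m := sgm S)
    (F := fun I : Ideal (𝓞 Ω) => if Cop q I then (1 : ℂ) else 0) (w_gc_one hq).mul
    (fun P g1 g2 => by rw [if_pos (cop_span.2 g2), hT P g1 g2]) (P := P)
    ⟨p1, w_nm_rn (k := k) P ▸ w_tp_nm p3⟩ h1 h6 h2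
  rw [if_pos (cop_span.2 h6), if_pos (cop_span.2 h2), one_mul, one_mul] at h7
  rw [h7, Ps, (w_sign p3.1).2.1 p3 S hS, mul_one]
  exact hψ.per _ _ ⟨d + c, by linear_combination hd + hc⟩

theorem w_core_unit {q e : ℕ} (he : Even e) {ψ : 𝓞 k → ℂ} (hψ : Ch q ψ) {t : (k →+* ℂ) → ℝ}
    {m : (k →+* ℂ) → ℤ} {S : Finset (k →+* ℂ)} (hS : S ⊆ Rr k) {u : (𝓞 k)ˣ}
    (h1 : (q : 𝓞 k) ∣ (u ^ e : (𝓞 k)ˣ) - 1) (h2 : ar t m (sc 1 (u ^ e : (𝓞 k)ˣ)) = 1) :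
    Ps ψ t (m + sgm S) (u ^ e : (𝓞 k)ˣ) = 1 := by
  rw [w_core_add _ _ _ _ (Units.ne_zero _), h2, one_mul, Ps, hψ.per _ _ h1, hψ.one, one_mul]
  obtain ⟨n, rfl⟩ := he
  rw [pow_add, Units.val_mul, ar_sc_mul _ _ (Units.ne_zero _) (Units.ne_zero _), ← sq]
  exact (w_sign (Units.ne_zero _)).1 S hS

open scoped Classical in
theorem w_core_pt (hr : Root k) {wt : Ideal (𝓞 Ω) → ℝ} {W W₂ q e : ℕ} (hq : 0 < q) (hW : W ∣ W₂)
    (hW' : W₂ ∣ q) {P₀ P₁ : 𝓞 Ω} (hP : IsCoprime P₀ (W : 𝓞 Ω)) {a₀ : 𝓞 k}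
    (hH : ∀ a : 𝓞 k, TP a → IsCoprime a (q : 𝓞 k) → (W₂ : 𝓞 k) ∣ a - a₀ →
      ∃ P : 𝓞 Ω, (W : 𝓞 Ω) ∣ P - P₀ ∧ (q : 𝓞 k) ∣ rn k P - a ∧ TP (rn k P))
    (h1 : Gn W P₀ P₁) (h2 : IsCoprime P₁ (q : 𝓞 Ω)) (he : Even e)
    (hu : ∀ b, (q : 𝓞 k) ∣ (ue e b : (𝓞 k)ˣ) - 1) {T : Finset (𝓞 k)ˣ} (hT : Unf (Gam k Ω W) e T)
    {ι : Type} [Fintype ι] [Nonempty ι] {ψ : ι → 𝓞 k → ℂ} (hψ : ∀ i, Ch q (ψ i))
    (ho : ∀ a b, IsCoprime b (q : 𝓞 k) → (((q : 𝓞 k) ∣ a - b →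
      ∑ i, (ψ i b)⁻¹ * ψ i a = Fintype.card ι) ∧
        (¬ (q : 𝓞 k) ∣ a - b → ∑ i, (ψ i b)⁻¹ * ψ i a = 0)))
    {η : 𝓞 k → ℝ} (hη : Pe q η) (hc : ∀ a, η a ≠ 0 → (W₂ : 𝓞 k) ∣ a - a₀ ∧ IsCoprime a (q : 𝓞 k))
    {R L X M ε C E κ : ℝ} (hR : 1 ≤ R) (hX : 1 ≤ X) (hε : 0 ≤ ε)
    {Φ : ((k →+* ℂ) → ℂ) → ℝ} (hΦ : Wt R L Φ) {J : Type} {s : Finset J}
    {t : J → (k →+* ℂ) → ℝ} {m : J → (k →+* ℂ) → ℤ} {c : J → ℝ → ℂ} (hx : Ex R e M ε Φ s t m c)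
    (hC : ∑ n ∈ Ioc 0 ⌊(R * X) ^ dg k⌋₊, ∑ I ∈ idN Ω n, |wt I| ≤ C)
    (h : ∀ j ∈ s, ∀ i, ∀ S ⊆ Rr k,
      ‖rS k R X (c j) (cS wt W P₀ fun a => ∑ γ ∈ T, Ps (ψ i) (t j) (m j + sgm S) ((γ : 𝓞 k) * a)) -
        (if Tv Ω q W (Ps (ψ i) (t j) (m j + sgm S)) then
          #T * Ps (ψ i) (t j) (m j + sgm S) (rn k P₁) * κ else 0) * rS k R X (c j) 1‖ ≤ E) :
    ‖((∑' a, nl k wt W P₀ a * (η a * Φ (sc X a)) : ℝ) : ℂ) -
      (#T * κ * (∑ i, ∑ S ∈ (Rr k).powerset, if Tv Ω q W (Ps (ψ i) 0 (sgm S)) then 1 else 0) /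
        (Fintype.card ι * 2 ^ #(Rr k)) * ∑ b ∈ cb (Ix k) q, η (el k b) : ℝ) * II R X s t m c‖ ≤
          C * (#T * ε) + #s * q ^ dg k * E := by
  have X0 : 0 < X := by positivity
  obtain ⟨C', -, hf⟩ := w_fin k R
  obtain ⟨s', -, hs'⟩ := hf X hX
  rw [w_unfold wt hP hT (z := ⌊(R * X) ^ dg k⌋₊) (s'.finite_toSet.subset fun a ha =>
    hs' a (w_core_supp hR X0 hΦ (right_ne_zero_of_mul ha)).1)
    fun a ha => (w_core_supp hR X0 hΦ (right_ne_zero_of_mul ha)).2]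
  let K := s ×ˢ cb (Ix k) q ×ˢ (univ : Finset ι) ×ˢ (Rr k).powerset
  let co : J × (Ix k → ℤ) × ι × Finset (k →+* ℂ) → ℂ := fun p =>
    η (el k p.2.1) * (ψ p.2.2.1 (el k p.2.1))⁻¹ / (Fintype.card ι * 2 ^ #(Rr k))
  have h3 := w_core_err (W := W) (P₀ := P₀) hε hC T K (fun p => c p.1) co
    (fun p => Ps (ψ p.2.2.1) (t p.1) (m p.1 + sgm p.2.2.2))
    (fun a => ((∑' b, η ((ue e b : (𝓞 k)ˣ) * a) * Φ (sc X ((ue e b : (𝓞 k)ˣ) * a)) : ℝ) : ℂ))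
    fun a ha => by
      have h4 := w_app he X0 hε hu hη hΦ hx ha
      simp only [w_exp hq ho hη (fun a h => (hc a h).2) _ _ ha, mul_sum] at h4
      simpa only [K, co, sum_product] using h4
  have N0 : (0 : ℝ) < Fintype.card ι * 2 ^ #(Rr k) := by
    have := Fintype.card_pos (α := ι)
    positivity
  have h0 : rn k P₁ ≠ 0 := fun e => by
    have h4 := h1.2
    rw [← w_nm_rn (k := k), e] at h4
    simp [nm] at h4
  have e1 : ((#T * κ * (∑ i, ∑ S ∈ (Rr k).powerset,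
      if Tv Ω q W (Ps (ψ i) 0 (sgm S)) then 1 else 0) / (Fintype.card ι * 2 ^ #(Rr k)) *
        ∑ b ∈ cb (Ix k) q, η (el k b) : ℝ) : ℂ) * II R X s t m c =
      ∑ p ∈ K, co p * ((if Tv Ω q W (Ps (ψ p.2.2.1) (t p.1) (m p.1 + sgm p.2.2.2)) then
        #T * Ps (ψ p.2.2.1) (t p.1) (m p.1 + sgm p.2.2.2) (rn k P₁) * κ else 0) *
          rS k R X (c p.1) 1) := by
    simp only [K, co, sum_product]
    rw [II, sum_filter, mul_sum]
    refine sum_congr rfl fun j _ => ?_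
    push_cast
    rw [mul_sum, sum_mul]
    refine sum_congr rfl fun b _ => ?_
    simp only [mul_sum, sum_div, sum_mul]
    refine sum_congr rfl fun i _ => sum_congr rfl fun S hS => ?_
    have hS' := mem_powerset.1 hS
    by_cases h4 : η (el k b) = 0
    · simp only [h4, Complex.ofReal_zero, mul_zero, mul_ite, zero_mul, ite_self, zero_div, ite_mul]
    rw [w_tv hq (hW.trans hW') (hψ i) (hx.sum j) (hx.real j) hS'
      fun d hd => hr _ _ (hx.sum j) (hx.real j) q d hq hd]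
    by_cases h5 : Tr (t j) (m j)
    · by_cases h6 : Tv Ω q W (Ps (ψ i) 0 (sgm S))
      · have h7 : ψ i (el k b) ≠ 0 := norm_ne_zero_iff.1 (by
          rw [(hψ i).unit _ (hc _ h4).2]
          exact one_ne_zero)
        rw [if_pos h5, if_pos h6, if_pos ⟨h5, h6⟩, w_core_add _ _ _ _ h0, h5 _ h0,
          w_core_val hq hW hW' hH h1 h2 (hψ i) hS' h6 (hc _ h4).1 (hc _ h4).2]
        push_cast
        field_simp
      · simp [h6]
    · simp only [h5, ↓ reduceIte, mul_zero, false_and, zero_mul]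
  rw [e1]
  refine (norm_sub_le_norm_sub_add_norm_sub _ _ _).trans (add_le_add h3 ?_)
  rw [← sum_sub_distrib]
  refine (norm_sum_le _ _).trans ((sum_le_card_nsmul _ _
    (E / (Fintype.card ι * 2 ^ #(Rr k))) fun p hp => ?_).trans_eq ?_)
  · simp only [K, mem_product, mem_powerset] at hp
    have h4 : ‖(ψ p.2.2.1 (el k p.2.1))⁻¹‖ ≤ 1 := by
      by_cases h5 : IsCoprime (el k p.2.1) (q : 𝓞 k)
      · rw [norm_inv, (hψ _).unit _ h5, inv_one]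
      · simp [(hψ _).zero _ h5]
    have h5 : ‖co p‖ ≤ 1 / (Fintype.card ι * 2 ^ #(Rr k)) := by
      simp only [co, norm_div, norm_mul, Complex.norm_real, Real.norm_eq_abs, Complex.norm_natCast,
        norm_pow, Complex.norm_ofNat]
      exact div_le_div_of_nonneg_right (mul_le_one₀ (hη.2 _) (norm_nonneg _) h4) N0.le
    rw [← mul_sub, norm_mul, div_eq_mul_one_div E, mul_comm E]
    exact mul_le_mul h5 (h _ hp.1 _ _ hp.2.2.2) (norm_nonneg _) (by positivity)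
  · simp only [K, card_product, card_powerset, card_univ, cb, Fintype.card_piFinset, prod_const,
      card_Ix, Int.card_Ico, sub_zero, Int.toNat_natCast, nsmul_eq_mul]
    push_cast
    field_simp

theorem w_core (hr : Root k) {wt : Ideal (𝓞 Ω) → ℝ} {α : ℕ → ℝ} (hG : GS wt α)
    (hw : ∃ C : ℝ, ∀ z : ℕ, ∑ n ∈ Ioc 0 z, ∑ I ∈ idN Ω n, |wt I| ≤ C * z) {W W₂ D : ℕ}
    (hW : W ∣ W₂) (h0 : 0 < W₂) (hB : BB Ω ∣ W₂) (hD : 0 < D) (hD' : Module.finrank k Ω ∣ D)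
    {P₀ : 𝓞 Ω} (hP : IsCoprime P₀ (W : 𝓞 Ω)) {a₀ : 𝓞 k}
    (hH : ∀ q : ℕ, 0 < q → W₂ ∣ q → ∀ a : 𝓞 k, TP a → IsCoprime a (q : 𝓞 k) →
      (W₂ : 𝓞 k) ∣ a - a₀ →
        ∃ P : 𝓞 Ω, (W : 𝓞 Ω) ∣ P - P₀ ∧ (q : 𝓞 k) ∣ rn k P - a ∧ TP (rn k P)) :
    ∃ β : ℕ → ℝ, (∀ q, 0 < q → W₂ ∣ q → 0 < α q → 0 < β q) ∧ Mn (nl k wt W P₀) W₂ D a₀ β := by
  classical
  obtain ⟨ν, hν, hone⟩ := w_one k hG (Nat.pos_of_dvd_of_pos hW h0) hP
  obtain ⟨C, hC⟩ := hw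
  have hT : ∀ q, ∃ T, 0 < q → W₂ ∣ q → Unf (Gam k Ω W) (ex k D q) T := fun q => by
    by_cases h : 0 < q ∧ W₂ ∣ q
    · obtain ⟨T, hT⟩ := w_unf (Gam k Ω W) (w_ex (k := k) hD h.1).1
        (w_ex_mem hD' h.1 (hW.trans h.2))
      exact ⟨T, fun _ _ => hT⟩
    · exact ⟨∅, fun h1 h2 => absurd ⟨h1, h2⟩ h⟩
  choose T hT using hT
  choose ι _ ψ c1 c2 c3 using fun q : ℕ => w_chars (k := k) (Nat.succ_pos q)
  refine ⟨fun q => #(T q) * (α q * ν q) * (∑ i, ∑ S ∈ (Rr k).powerset,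
    if Tv Ω q W (Ps (ψ (q - 1) i) 0 (sgm S)) then 1 else 0) /
      (Fintype.card (ι (q - 1)) * 2 ^ #(Rr k)), fun q q0 q1 ha => ?_, fun A B R hR => ?_⟩
  · obtain ⟨q, rfl⟩ := Nat.exists_eq_succ_of_ne_zero q0.ne'
    obtain ⟨i, hi⟩ := c2 q
    have h1 : 0 < #(T q.succ) := (hT _ q0 q1).ne.card_pos
    have h2 : 0 < Fintype.card (ι q) := Fintype.card_pos_iff.2 ⟨i⟩
    have h3 := hν q.succ
    refine div_pos (mul_pos (by positivity) (sum_pos' (fun _ _ => by positivity) ⟨i, mem_univ _,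
      sum_pos' (fun _ _ => by positivity) ⟨∅, empty_mem_powerset _, ?_⟩⟩))
      (mul_pos (Nat.cast_pos.2 h2) (by positivity))
    rw [if_pos]
    · exact one_pos
    · intro P _ g2
      have h4 := hi _ ((w_cop_rn (k := k)).2 g2)
      simpa [Ps, ar, sgm] using h4
  refine ⟨A + 1 + 1 + (B * dg k * rank k + 1), fun B' => ?_⟩
  have hl := fun c : ℝ => Real.tendsto_log_atTop.eventually_ge_atTop c
  filter_upwards [hone (A + 1 + B' + B * dg k + (B * dg k * rank k + 1)) (B + B' + 1) R hR,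
    eventually_ge_atTop 1, hl 2, hl (|C| * R ^ dg k), hl (torsionOrder k * (2 * D) ^ rank k)]
    with X h1 hX l2 l3 l4 q η Φ L J s t m c q0 q1 q2 hη hc hΦ hx
  obtain ⟨q, rfl⟩ := Nat.exists_eq_succ_of_ne_zero q0.ne'
  obtain ⟨P₁, p1, p2⟩ := w_P1 q0 (hW.trans q1) hP
  obtain ⟨-, e2, e3, e4, e5⟩ := w_ex (k := k) hD q0
  have : Nonempty (ι q) := (c2 q).elim fun i _ => ⟨i⟩
  set l := Real.log X
  have l1 : 1 ≤ l := by linarith only [l2]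
  have m1 : l ^ B' ≤ l ^ (B + B' + 1) := pow_le_pow_right₀ l1 (by omega)
  have m2 : l ^ B' + 1 ≤ l ^ (B + B' + 1) := by
    have h2 : 1 ≤ l ^ B' := one_le_pow₀ l1
    refine le_trans ?_ (pow_le_pow_right₀ l1 (show B' + 1 ≤ B + B' + 1 by omega))
    rw [pow_succ]
    nlinarith only [l2, h2]
  refine (w_core_pt hr q0 hW q1 hP (hH _ q0 q1) p1 p2 e2 e5 (hT _ q0 q1) (c1 q) (c3 q) hη hc hR hX
    (by positivity) hΦ hx (hC _) fun j hj i S hS => h1 _ _ _ _ _ _ _ _ q0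
      (hB.trans q1) (hW.trans q1) (q2.trans (pow_le_pow_right₀ l1 (by omega))) (c1 q i) (hx.sum j)
      (fun φ => ⟨(hx.sz j hj φ).1.trans m1, ?_⟩) (hT _ q0 q1)
      (fun i' => w_core_unit e2 (c1 q i) hS (e4 i') (hx.unit j i')) p1 p2
      (fun v => (hx.bd j v).trans m1)
      (fun v v' => (hx.lip j v v').trans (mul_le_mul_of_nonneg_right m1 (abs_nonneg _)))
      (hx.supp j)).trans ?_
  · rw [Pi.add_apply, Int.cast_add]
    refine (abs_add_le _ _).trans (le_trans (add_le_add (hx.sz j hj φ).2 ?_) m2)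
    rw [sgm]
    split_ifs <;> simp
  have m3 : ((q.succ : ℕ) : ℝ) ^ dg k ≤ l ^ (B * dg k) := by
    rw [pow_mul]
    exact pow_le_pow_left₀ (Nat.cast_nonneg _) q2 _
  have m4 : (#(T q.succ) : ℝ) ≤ l ^ (B * dg k * rank k + 1) := by
    have h2 : (#(T q.succ) : ℝ) ≤ torsionOrder k * (2 * D * ((q.succ : ℕ) : ℝ) ^ dg k) ^ rank k := by
      exact_mod_cast (hT _ q0 q1).card.trans
        (Nat.mul_le_mul_left _ (Nat.pow_le_pow_left e3 _))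
    rw [mul_pow, ← mul_assoc] at h2
    rw [pow_succ', pow_mul l]
    exact h2.trans (mul_le_mul l4 (pow_le_pow_left₀ (by positivity) m3 _) (by positivity)
      (by positivity))
  have m5 : C * (⌊(R * X) ^ dg k⌋₊ : ℝ) ≤ l * X ^ dg k := by
    refine (mul_le_mul (le_abs_self C) (Nat.floor_le (by positivity)) (by positivity)
      (abs_nonneg _)).trans ?_
    rw [mul_pow, ← mul_assoc]
    exact mul_le_mul_of_nonneg_right l3 (by positivity)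
  have m6 := hx.card
  have m7 : X ^ dg k / l ^ (A + 1) + X ^ dg k / l ^ (A + 1) ≤ X ^ dg k / l ^ A := by
    rw [← add_div, div_le_div_iff₀ (by positivity) (by positivity), pow_succ]
    nlinarith only [show 0 ≤ X ^ dg k * l ^ A by positivity, l2]
  refine (add_le_add ?_ ?_).trans m7
  · refine (mul_le_mul m5 (mul_le_mul_of_nonneg_right m4 (by positivity)) (by positivity)
      (by positivity)).trans_eq ?_
    field_simp
    ring
  · refine (mul_le_mul (mul_le_mul m6 m3 (by positivity) (by positivity))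
      (mul_le_mul_of_nonneg_right m4 (by positivity)) (by positivity) (by positivity)).trans_eq ?_
    field_simp
    ring

variable (Ω) in
theorem w_cheb_pw : ∃ C : ℝ, ∀ z : ℕ, ∑ n ∈ Ioc 0 z, ∑ I ∈ idN Ω n, |pw I| ≤ C * z := by
  refine ⟨dg Ω * (Real.log 4 + 4), fun z => ?_⟩
  have h1 := Chebyshev.psi_le_const_mul_self (Nat.cast_nonneg (α := ℝ) z)
  rw [Chebyshev.psi, Nat.floor_natCast] at h1
  rw [mul_assoc]
  refine le_trans ?_ (mul_le_mul_of_nonneg_left h1 (Nat.cast_nonneg _))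
  rw [mul_sum]
  refine sum_le_sum fun n _ => le_trans ?_ (lamK_le n)
  by_cases hn : n.Prime
  · rw [lamK_prime hn, ← nsmul_eq_mul, ← sum_const]
    refine le_of_eq (sum_congr rfl fun I hI => ?_)
    rw [pw, (mem_idN Ω).1 hI, if_pos hn, abs_of_nonneg (Real.log_natCast_nonneg n)]
  · rw [sum_eq_zero fun I hI => by rw [pw, (mem_idN Ω).1 hI, if_neg hn, abs_zero]]
    exact lamK_nonneg n

variable (Ω) in
theorem w_cheb_one : ∃ C : ℝ, ∀ z : ℕ, ∑ n ∈ Ioc 0 z, ∑ _I ∈ idN Ω n, |(1 : ℝ)| ≤ C * z := by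
  classical
  obtain ⟨C, hC⟩ := ((NumberField.Ideal.tendsto_norm_le_div_atTop Ω).comp
    tendsto_natCast_atTop_atTop).bddAbove_range
  refine ⟨C, fun z => ?_⟩
  rcases z.eq_zero_or_pos with rfl | hz
  · simp
  have h1 := hC ⟨z, rfl⟩
  rw [Function.comp, div_le_iff₀ (Nat.cast_pos.2 hz)] at h1
  refine le_trans ?_ h1
  simp only [abs_one, sum_const, nsmul_eq_mul, mul_one]
  rw [← Nat.cast_sum, Nat.cast_le, ← card_biUnion fun a _ b _ hab => disjoint_left.2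
    fun I h2 h3 => hab (((mem_idN Ω).1 h2).symm.trans ((mem_idN Ω).1 h3)), ← Nat.card_eq_finsetCard]
  have : Finite {I : Ideal (𝓞 Ω) // (Ideal.absNorm I : ℝ) ≤ z} := by
    simp only [Nat.cast_le]
    exact (Ideal.finite_setOfPred_absNorm_le z).to_subtype
  refine Nat.card_le_card_of_injective (fun I => ⟨I.1, ?_⟩) fun I J h => Subtype.ext ?_
  · obtain ⟨n, h2, h3⟩ := mem_biUnion.1 I.2
    rw [(mem_idN Ω).1 h3]
    exact Nat.cast_le.2 (mem_Ioc.1 h2).2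
  · exact Subtype.mk.inj h

open scoped Classical in
theorem w_nl_self (W : ℕ) (a₀ : 𝓞 k) {a : 𝓞 k} (ha : a ≠ 0) :
    nl k (fun _ => 1) W a₀ a = if (W : 𝓞 k) ∣ a - a₀ then 1 else 0 := by
  have hs : ∀ a : 𝓞 k, RingOfIntegers.norm k a = a := fun a => RingOfIntegers.ext (by
    rw [RingOfIntegers.coe_norm]
    simp)
  rw [nl]
  split_ifs with h
  · refine sum_eq_single_of_mem (Ideal.span {a}) (mem_filter.2
      ⟨(mem_idN k).2 (Ideal.absNorm_span_singleton a), a, rfl, h, hs a⟩) fun I hI hne => ?_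
    obtain ⟨-, P, p1, -, p2⟩ := mem_filter.1 hI
    exact absurd (by rw [p1, ← p2, hs]) hne
  · refine sum_eq_zero fun I hI => ?_
    obtain ⟨-, P, -, p1, p2⟩ := mem_filter.1 hI
    exact absurd (by rwa [← p2, hs]) h

theorem w_R {R L : ℝ} {Φ : ((k →+* ℂ) → ℂ) → ℝ} (h : Wt R L Φ) : Wt (max R 1) L Φ := by
  refine ⟨h.le, h.lip, fun z hz φ => ?_⟩
  obtain ⟨h1, h2, h3⟩ := h.supp z hz φ
  refine ⟨?_, h2.trans (le_max_left _ _), h3⟩
  by_cases hR : 0 < R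
  · exact (one_div_le_one_div_of_le hR (le_max_left _ _)).trans h1
  · exfalso
    have hz0 : z = 0 := funext fun φ' =>
      norm_le_zero_iff.1 ((h.supp z hz φ').2.1.trans (not_lt.1 hR))
    have hp : 0 < |Φ z| := abs_pos.2 hz
    have hL : 0 < |L| + 1 := by positivity
    have hδ : 0 < |Φ z| / (|L| + 1) := div_pos hp hL
    have hn : ‖((|Φ z| / (|L| + 1) : ℝ) : ℂ)‖ = |Φ z| / (|L| + 1) := by
      rw [Complex.norm_real, Real.norm_eq_abs, abs_of_pos hδ]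
    have hw : Φ (fun _ => ((|Φ z| / (|L| + 1) : ℝ) : ℂ)) = 0 := by
      by_contra h0
      have h4 := (h.supp _ h0 φ).2.1
      rw [hn] at h4
      exact hR (hδ.trans_le h4)
    have h5 := h.lip z fun _ => ((|Φ z| / (|L| + 1) : ℝ) : ℂ)
    have h6 : ‖z - fun _ => ((|Φ z| / (|L| + 1) : ℝ) : ℂ)‖ ≤ |Φ z| / (|L| + 1) := by
      rw [pi_norm_le_iff_of_nonneg hδ.le]
      intro i
      rw [Pi.sub_apply, congrFun hz0 i, Pi.zero_apply, zero_sub, norm_neg, hn]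
    rw [hw, sub_zero] at h5
    have h7 : |Φ z| ≤ |L| * (|Φ z| / (|L| + 1)) :=
      h5.trans ((mul_le_mul_of_nonneg_right (le_abs_self L) (norm_nonneg _)).trans
        (mul_le_mul_of_nonneg_left h6 (abs_nonneg L)))
    rw [← mul_div_assoc, le_div_iff₀ hL] at h7
    linarith only [hp, h7]

theorem Ex.mono {R T T' ε ε' : ℝ} {e : ℕ} {Φ : ((k →+* ℂ) → ℂ) → ℝ} {J : Type} {s : Finset J}
    {t : J → (k →+* ℂ) → ℝ} {m : J → (k →+* ℂ) → ℤ} {c : J → ℝ → ℂ} (h : Ex R e T ε Φ s t m c)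
    (hT : T ≤ T') (hε : ε ≤ ε') : Ex R e T' ε' Φ s t m c where
  card := h.card.trans hT
  sz j hj φ := ⟨(h.sz j hj φ).1.trans hT, (h.sz j hj φ).2.trans hT⟩
  sum := h.sum
  real := h.real
  unit := h.unit
  bd j u := (h.bd j u).trans hT
  lip j u u' := (h.lip j u u').trans (mul_le_mul_of_nonneg_right hT (abs_nonneg _))
  supp := h.supp
  app X hX a ha := (h.app X hX a ha).trans hε

/-- comparison of the sums of `lam` with the integral -/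
def Cr (lam : 𝓞 k → ℝ) (W₂ : ℕ) (a₀ : 𝓞 k) (β β' : ℕ → ℝ) : Prop :=
  ∀ (A B : ℕ) (R : ℝ), ∀ᶠ X : ℝ in atTop, ∀ (q : ℕ) (η : 𝓞 k → ℝ) (Φ : ((k →+* ℂ) → ℂ) → ℝ),
    0 < q → W₂ ∣ q → (q : ℝ) ≤ Real.log X ^ B → Pe q η → (∀ a, η a ≠ 0 → (W₂ : 𝓞 k) ∣ a - a₀) →
      Wt R (Real.log X ^ B) Φ →
        |β' q * ∑' a, lam a * η a * Φ (sc X a) -
          β q * (X ^ dg k * av q (fun a => un q a * η a) * ∫ x, Φ (emb x))| ≤
            (|β q| + |β' q|) * (X ^ dg k / Real.log X ^ A)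

theorem w_cross_ev (c : ℝ) (n : ℕ) : ∀ᶠ X : ℝ in atTop, c * Real.log X ^ n < X := by
  have h := (Real.isLittleO_pow_log_id_atTop (n := n)).const_mul_left c
  filter_upwards [h.bound (show (0 : ℝ) < 1 / 2 by norm_num), eventually_gt_atTop 0] with X h1 h2
  rw [id, Real.norm_eq_abs, Real.norm_eq_abs, abs_of_pos h2] at h1
  linarith [le_abs_self (c * Real.log X ^ n)]

theorem w_cross_M {C l : ℝ} {D d B A q e : ℕ} (hC : 0 < C) (hD : 0 < D) (h2 : 2 ≤ l)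
    (hl : 2 * C * D ≤ l) (hq : (q : ℝ) ≤ l ^ B) (he : e ≤ 2 * D * q ^ d) : ∃ M : ℕ, 0 < M ∧
      C * l ^ B * (M : ℝ) ^ (2 * d) ≤ l ^ (1 + B + 2 * (2 * (1 + B * d + B + A)) * (2 * d)) ∧
      C * e * l ^ B / √(M : ℝ) ≤ 1 / l ^ A := by
  have l0 : 0 < l := by linarith only [h2]
  have n1 : l ≤ (⌈l⌉₊ : ℝ) := Nat.le_ceil l
  have n2 : (⌈l⌉₊ : ℝ) ≤ l ^ 2 := by
    have := (Nat.ceil_lt_add_one l0.le).le
    nlinarith only [h2, this]
  have hD1 : (1 : ℝ) ≤ D := by exact_mod_cast hD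
  generalize hN : 1 + B * d + B + A = N
  refine ⟨⌈l⌉₊ ^ (2 * N), pow_pos (Nat.ceil_pos.2 l0) _, ?_, ?_⟩
  · rw [pow_add, pow_add, pow_one, pow_mul l (2 * (2 * N)), pow_mul l 2, Nat.cast_pow]
    have c1 : C ≤ l := by nlinarith only [h2, hl, hD1]
    gcongr
  · have s : √((⌈l⌉₊ ^ (2 * N) : ℕ) : ℝ) = (⌈l⌉₊ : ℝ) ^ N := by
      rw [Nat.cast_pow, pow_mul', Real.sqrt_sq (by positivity)]
    have e1 : (e : ℝ) ≤ 2 * D * (l ^ B) ^ d := by
      have : (e : ℝ) ≤ 2 * D * (q : ℝ) ^ d := by exact_mod_cast he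
      exact this.trans (by gcongr)
    rw [s, div_le_div_iff₀ (pow_pos (l0.trans_le n1) _) (pow_pos l0 _), one_mul]
    calc C * e * l ^ B * l ^ A ≤ C * (2 * D * (l ^ B) ^ d) * l ^ B * l ^ A := by gcongr
      _ = 2 * C * D * (l ^ B) ^ d * l ^ B * l ^ A := by ring
      _ ≤ l * (l ^ B) ^ d * l ^ B * l ^ A := by gcongr
      _ = l ^ N := by rw [← hN]; ring
      _ ≤ _ := by gcongr

theorem w_cross_fin {S S' V b b' σ E E' : ℝ} {I : ℂ} (h : ‖(S : ℂ) - (b * σ : ℝ) * I‖ ≤ E)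
    (h' : ‖(S' : ℂ) - (b' * σ : ℝ) * I‖ ≤ E) (h3 : |S' - V| ≤ E) (hE : 2 * E ≤ E') :
    |b' * S - b * V| ≤ (|b| + |b'|) * E' := by
  have e : ((b' * S - b * S' : ℝ) : ℂ) =
      (b' : ℂ) * (S - (b * σ : ℝ) * I) - (b : ℂ) * (S' - (b' * σ : ℝ) * I) := by
    push_cast
    ring
  have h1 : |b' * S - b * S'| ≤ |b'| * E + |b| * E := by
    rw [← Real.norm_eq_abs, ← Complex.norm_real, e]
    refine (norm_sub_le _ _).trans ?_
    rw [norm_mul, norm_mul, Complex.norm_real, Complex.norm_real, Real.norm_eq_abs,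
      Real.norm_eq_abs]
    gcongr
  have h2 : |b * (S' - V)| ≤ |b| * E := by
    rw [abs_mul]
    gcongr
  have h4 := abs_add_le (b' * S - b * S') (b * (S' - V))
  rw [show b' * S - b * S' + b * (S' - V) = b' * S - b * V by ring] at h4
  have h5 : 0 ≤ |b'| * E := mul_nonneg (abs_nonneg _) ((abs_nonneg _).trans h3)
  have h6 : (|b| + |b'|) * (2 * E) ≤ (|b| + |b'|) * E' := by gcongr
  linarith

theorem w_cross_big {R X : ℝ} (hR : 0 < R) (hX : R ≤ X) {a : 𝓞 k}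
    (h : ∀ φ, 1 / R ≤ ‖sc X a φ‖) : X / R ≤ |(nm a : ℝ)| := by
  have X0 : 0 < X := hR.trans_le hX
  have h1 : 1 ≤ X / R := (one_le_div hR).2 hX
  have h2 : ∀ φ : k →+* ℂ, X / R ≤ ‖φ a‖ := fun φ => by
    have := h φ
    rw [sc, norm_div, Complex.norm_real, Real.norm_eq_abs, abs_of_pos X0, le_div_iff₀ X0] at this
    rwa [div_eq_inv_mul, ← one_div]
  calc X / R ≤ (X / R) ^ dg k := le_self_pow₀ h1 Module.finrank_pos.ne'
    _ = ∏ _φ : k →+* ℂ, X / R := by rw [prod_const, card_univ, Embeddings.card]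
    _ ≤ _ := by
      rw [rep_prod]
      exact prod_le_prod (fun _ _ => by positivity) fun φ _ => h2 φ

theorem w_cross {lam : 𝓞 k → ℝ} (hl : Lm lam) {W₂ D : ℕ} (hD : 0 < D) {a₀ : 𝓞 k}
    {β β' : ℕ → ℝ} (h : Mn lam W₂ D a₀ β) (h' : Mn (nl k (fun _ => 1) W₂ a₀) W₂ D a₀ β') :
    Cr lam W₂ a₀ β β' := by
  intro A B R₀
  have hR : 1 ≤ max R₀ 1 := le_max_right _ _
  have hW : ∀ (L : ℝ) (Φ : ((k →+* ℂ) → ℂ) → ℝ), Wt R₀ L Φ → Wt (max R₀ 1) L Φ := fun _ _ => w_R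
  generalize max R₀ 1 = R at hR hW
  have R0 : 0 < R := by linarith only [hR]
  obtain ⟨A₁, h⟩ := h (A + 1) B R hR
  obtain ⟨A₂, h'⟩ := h' (A + 1) B R hR
  obtain ⟨C, hC, ha⟩ := w_arch k hR
  obtain ⟨C', hC', hb⟩ := w_lat k R
  obtain ⟨C₀, hl⟩ := hl
  filter_upwards [h (1 + B + 2 * (2 * (1 + B * dg k + B + (A₁ + A₂))) * (2 * dg k)),
    h' (1 + B + 2 * (2 * (1 + B * dg k + B + (A₁ + A₂))) * (2 * dg k)),
    Real.tendsto_log_atTop.eventually_ge_atTop 2,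
    Real.tendsto_log_atTop.eventually_ge_atTop (2 * C * D), w_cross_ev R B,
    w_cross_ev C' (B + B + (A + 1))] with X h h' l2 lC x1 x2 q η Φ hq hWq hqB hη hs hΦ
  replace hΦ := hW _ _ hΦ
  generalize Real.log X = l at *
  have l1 : 1 ≤ l := by linarith only [l2]
  have l0 : 0 < l := by linarith only [l2]
  have lB : 1 ≤ l ^ B := one_le_pow₀ l1
  have RX : R ≤ X := by nlinarith only [hR, x1, lB]
  have X0 : 0 < X := R0.trans_le RX
  have qX : (q : ℝ) < X / R := by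
    rw [lt_div_iff₀' R0]
    exact (mul_le_mul_of_nonneg_left hqB R0.le).trans_lt x1
  obtain ⟨e0, e1, e2, -⟩ := w_ex (k := k) hD hq
  obtain ⟨M, M0, M1, M2⟩ := w_cross_M (A := A₁ + A₂) hC hD l2 lC hqB e2
  obtain ⟨J, s, t, m, c, hE⟩ := ha _ M _ Φ e0 e1 M0 lB hΦ
  have p1 : Pe q fun a => un q a * η a := by
    refine ⟨fun a b hab => congrArg₂ (· * ·) ((w_un_per q).1 a b hab) (hη.1 a b hab), fun a => ?_⟩
    rw [abs_mul]
    exact mul_le_one₀ ((w_un_per q).2 a) (abs_nonneg _) (hη.2 a)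
  have p2 : ∀ a, un q a * η a ≠ 0 → (W₂ : 𝓞 k) ∣ a - a₀ ∧ IsCoprime a (q : 𝓞 k) := fun a h0 =>
    ⟨hs a (right_ne_zero_of_mul h0), by
      by_contra h1
      exact left_ne_zero_of_mul h0 (if_neg h1)⟩
  have a1 : ∀ i j : ℕ, i ≤ j → 1 / l ^ j ≤ 1 / l ^ i := fun i j hij =>
    one_div_le_one_div_of_le (pow_pos l0 _) (pow_le_pow_right₀ l1 hij)
  have b1 := h q _ Φ _ J s t m c hq hWq hqB p1 p2 hΦ
    (hE.mono M1 (M2.trans (a1 _ _ (Nat.le_add_right _ _))))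
  have b2 := h' q _ Φ _ J s t m c hq hWq hqB p1 p2 hΦ
    (hE.mono M1 (M2.trans (a1 _ _ (Nat.le_add_left _ _))))
  have b3 := hb X (l ^ B) q _ Φ hq (qX.le.trans (div_le_self X0.le hR)) (by positivity) p1 hΦ.lip
    fun z hz => (pi_norm_le_iff_of_nonneg R0.le).2 fun φ => (hΦ.supp z hz φ).2.1
  have big : ∀ a, Φ (sc X a) ≠ 0 → (q : ℝ) < |(nm a : ℝ)| := fun a h0 =>
    qX.trans_le (w_cross_big R0 RX fun φ => (hΦ.supp _ h0 φ).1)
  have s1 : ∀ a, lam a * (un q a * η a * Φ (sc X a)) = lam a * η a * Φ (sc X a) := fun a => by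
    by_cases h0 : Φ (sc X a) = 0
    · rw [h0, mul_zero, mul_zero, mul_zero]
    by_cases h1 : lam a = 0
    · rw [h1, zero_mul, zero_mul, zero_mul]
    have h2 : q < (nm a).natAbs := by
      have := big a h0
      rw [← Int.cast_abs, ← Int.natCast_natAbs] at this
      exact_mod_cast this
    have h3 : IsCoprime a (q : 𝓞 k) := by
      refine cop_span.1 (cop_iff.2 ?_)
      rw [Ideal.absNorm_span_singleton]
      exact (Nat.Prime.coprime_iff_not_dvd ((hl a).2.2 h1)).2 (Nat.not_dvd_of_pos_of_lt hq h2)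
    rw [un, if_pos h3, one_mul, mul_assoc]
  have s2 : ∀ a, nl k (fun _ => 1) W₂ a₀ a * (un q a * η a * Φ (sc X a)) =
      un q a * η a * Φ (sc X a) := fun a => by
    by_cases h0 : Φ (sc X a) = 0
    · rw [h0, mul_zero, mul_zero]
    by_cases h1 : un q a * η a = 0
    · rw [h1, zero_mul, mul_zero]
    have h2 : a ≠ 0 := by
      rintro rfl
      have := big 0 h0
      rw [show nm (0 : 𝓞 k) = 0 from Algebra.norm_zero, Int.cast_zero, abs_zero] at this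
      exact this.not_ge (Nat.cast_nonneg q)
    rw [w_nl_self W₂ a₀ h2, if_pos (p2 a h1).1, one_mul]
  simp only [s1] at b1
  simp only [s2] at b2
  refine w_cross_fin b1 b2 (b3.trans ?_) ?_
  · rw [div_le_div_iff₀ X0 (pow_pos l0 _)]
    calc C' * l ^ B * q * X ^ dg k * l ^ (A + 1)
        ≤ C' * l ^ B * l ^ B * X ^ dg k * l ^ (A + 1) := by gcongr
      _ = X ^ dg k * (C' * l ^ (B + B + (A + 1))) := by ring
      _ ≤ _ := by gcongr
  · rw [pow_succ, ← div_div, mul_div_assoc', div_le_iff₀ l0, mul_comm]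
    gcongr

theorem w_norm_real {c a C : ℝ} (hc : 0 < c) (ha : 0 < a) (hC : 0 < C) : ∃ K : ℝ, 0 < K ∧
    ∀ P σ s₀ s y ε : ℝ, 0 < P → P ≤ 1 → 0 ≤ ε → K * ε ≤ P → |s₀ - c * a| ≤ (c + 1) * ε →
      |σ * s₀ - P * a| ≤ (1 + |σ|) * ε → |y| ≤ C → |σ * s - y| ≤ (1 + |σ|) * ε →
        |P * s - c * y| * P ≤ K * ε := by
  obtain ⟨C₁, hC₁⟩ : ∃ x, x = 2 * (a + 1) / (c * a) := ⟨_, rfl⟩
  obtain ⟨C₂, hC₂⟩ : ∃ x, x = (1 + C₁ * (c + 2)) / a := ⟨_, rfl⟩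
  have p1 : 0 < C₁ := hC₁ ▸ by positivity
  have p2 : 0 < C₂ := hC₂ ▸ by positivity
  have p0 : 0 < 2 * (c + 2) / (c * a) := by positivity
  have p3 : 0 < C₂ * (2 * c * (C + 1 + C₁)) + c * (1 + C₁) := by positivity
  refine ⟨1 + 2 * (c + 2) / (c * a) + 2 * C₂ + (C₂ * (2 * c * (C + 1 + C₁)) + c * (1 + C₁)),
    by positivity, fun P σ s₀ s y ε hP hP1 hε hK h0 h1 hy h2 => ?_⟩
  have q0 := mul_nonneg p0.le hε
  have q2 := mul_nonneg p2.le hε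
  have q3 := mul_nonneg p3.le hε
  have e1 : ε ≤ 1 := by linarith only [hP1, hK, q0, q2, q3]
  have e2 : (c + 2) * ε ≤ c * a / 2 := by
    have : 2 * (c + 2) / (c * a) * ε ≤ 1 := by linarith only [hP1, hε, hK, q2, q3]
    rw [div_mul_eq_mul_div, div_le_one (by positivity)] at this
    linarith only [this]
  have e3 : C₂ * ε ≤ P / 2 := by linarith only [hε, hK, q0, q3]
  have s0 := abs_nonneg σ
  have f1 : |σ * c - P| * a ≤ ε + |σ| * ((c + 2) * ε) := by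
    have g1 : (σ * c - P) * a = (σ * s₀ - P * a) - σ * (s₀ - c * a) := by ring
    rw [← abs_of_pos ha, ← abs_mul, g1]
    refine (abs_sub _ _).trans ?_
    rw [abs_mul]
    linarith only [mul_le_mul_of_nonneg_left h0 s0, h1]
  have f2 : |σ| ≤ C₁ := by
    have g1 : |σ| * c ≤ |σ * c - P| + 1 := by
      have := abs_add_le (σ * c - P) P
      rw [sub_add_cancel, abs_mul, abs_of_pos hc, abs_of_pos hP] at this
      linarith only [hP1, this]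
    rw [hC₁, le_div_iff₀ (by positivity)]
    linarith only [mul_le_mul_of_nonneg_right g1 ha.le, mul_le_mul_of_nonneg_left e2 s0, hP1, hK, q0, q2, q3, f1]
  have f3 : |σ * c - P| ≤ C₂ * ε := by
    rw [hC₂, div_mul_eq_mul_div, le_div_iff₀ ha]
    linarith only [mul_le_mul_of_nonneg_right f2 (mul_nonneg (by linarith only [hc] : 0 ≤ c + 2) hε), f1]
  have f4 : (1 + |σ|) * ε ≤ (1 + C₁) * ε := mul_le_mul_of_nonneg_right (by linarith only [f2]) hε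
  have f5 : |s| * P ≤ 2 * c * (C + 1 + C₁) := by
    have g1 : |σ * s| ≤ C + 1 + C₁ := by
      have := abs_add_le (σ * s - y) y
      rw [sub_add_cancel] at this
      linarith only [mul_le_mul_of_nonneg_left e1 (by linarith only [p1] : 0 ≤ 1 + C₁), hy, h2, f4, this]
    have g2 : P / 2 ≤ |σ| * c := by
      have := (abs_le.1 f3).1
      linarith only [mul_le_mul_of_nonneg_right (le_abs_self σ) hc.le, hε, hK, q0, q3, this]
    rw [abs_mul] at g1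
    linarith only [mul_le_mul_of_nonneg_left g2 (abs_nonneg s), mul_le_mul_of_nonneg_left g1 hc.le]
  have f6 : |P * s - c * y| ≤ C₂ * ε * |s| + c * ((1 + C₁) * ε) := by
    rw [show P * s - c * y = c * (σ * s - y) - (σ * c - P) * s by ring]
    refine (abs_sub _ _).trans ?_
    rw [abs_mul, abs_mul, abs_of_pos hc]
    linarith only [mul_le_mul_of_nonneg_left (h2.trans f4) hc.le, mul_le_mul_of_nonneg_right f3 (abs_nonneg s)]
  have f7 : 0 ≤ c * ((1 + C₁) * ε) := by positivity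
  linarith only [mul_le_mul_of_nonneg_right f6 hP.le, mul_le_mul_of_nonneg_left f5 q2, mul_le_mul_of_nonneg_left hP1 f7, hε, q0, q2]

theorem w_norm_div {β β' S N y t : ℝ} (hβ : 0 < β) (hN : 0 < N)
    (h : |β' * S - β * (N * y)| ≤ (|β| + |β'|) * (N / t)) :
    |β' / β * (S / N) - y| ≤ (1 + |β' / β|) * (1 / t) := by
  have e : β' / β * (S / N) - y = (β' * S - β * (N * y)) / (β * N) := by field_simp
  rw [e, abs_div, abs_of_pos (mul_pos hβ hN), div_le_iff₀ (mul_pos hβ hN)]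
  refine h.trans_eq ?_
  rw [abs_div, abs_of_pos hβ]
  field_simp

theorem w_norm_div' {β β' S N y t : ℝ} (hβ : 0 < β) (hβ' : 0 < β') (hN : 0 < N)
    (h : |β' * S - β * (N * y)| ≤ (|β| + |β'|) * (N / t)) :
    |S / N - β / β' * y| ≤ (β / β' + 1) * (1 / t) := by
  have e : S / N - β / β' * y = (β' * S - β * (N * y)) / (β' * N) := by field_simp
  rw [e, abs_div, abs_of_pos (mul_pos hβ' hN), div_le_iff₀ (mul_pos hβ' hN)]
  refine h.trans_eq ?_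
  rw [abs_of_pos hβ, abs_of_pos hβ']
  field_simp

theorem w_norm_P {W q : ℕ} (hq : 0 < q) :
    1 / (q : ℝ) ^ dg k ≤ ∏ p ∈ q.primeFactors.filter fun p => ¬ p ∣ W, Vp k p ∧
      ∏ p ∈ q.primeFactors.filter fun p => ¬ p ∣ W, Vp k p ≤ 1 := by
  have hp : ∀ p ∈ q.primeFactors.filter fun p => ¬ p ∣ W, 0 < p := fun p hp =>
    (Nat.prime_of_mem_primeFactors (mem_filter.1 hp).1).pos
  refine ⟨le_trans ?_ (prod_le_prod (f := fun p : ℕ => 1 / (p : ℝ) ^ dg k)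
    (fun p _ => by positivity) fun p h => (w_Vp (hp p h)).1),
    prod_le_one (fun p h => le_trans (by positivity) (w_Vp (hp p h)).1)
      fun p h => (w_Vp (hp p h)).2⟩
  rw [prod_div_distrib, prod_const_one, prod_pow, ← Nat.cast_prod]
  have h1 := Nat.le_of_dvd hq ((prod_dvd_prod_of_subset _ _ (fun p => p)
    (filter_subset (fun p => ¬ p ∣ W) _)).trans (Nat.prod_primeFactors_dvd q))
  have h2 : 0 < ∏ p ∈ q.primeFactors.filter fun p => ¬ p ∣ W, p := prod_pos hp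
  gcongr

theorem w_norm {lam : 𝓞 k → ℝ} (hl : ∀ a, 0 ≤ lam a) {W₂ : ℕ} (h0 : 0 < W₂) {a₀ : 𝓞 k}
    (ha : IsCoprime a₀ (W₂ : 𝓞 k)) {β β' : ℕ → ℝ} (hβ : ∀ q, 0 < q → W₂ ∣ q → 0 < β q)
    (h : Cr lam W₂ a₀ β β') : ∃ c, 0 < c ∧ Eqd lam W₂ a₀ c := by
  classical
  obtain ⟨L₀, Φ₀, -, t1, t2, t3, -, t4⟩ := w_tent (k := k) (c := 1) (r := 1 / 4) (by norm_num)
  have w0 : ∀ L, L₀ ≤ L → Wt 2 L Φ₀ := fun L hL => by
    refine ⟨fun z => abs_le.2 ⟨by linarith only [(t1 z).1], (t1 z).2⟩, fun z w =>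
      (t2 z w).trans (mul_le_mul_of_nonneg_right hL (norm_nonneg _)), fun z hz φ => ?_⟩
    have u1 := t3 z hz φ
    have u2 := abs_norm_sub_norm_le (z φ) ((1 : ℝ) : ℂ)
    have u3 := (abs_le.1 (Complex.abs_re_le_norm (z φ - ((1 : ℝ) : ℂ)))).1
    rw [Complex.norm_real, norm_one, abs_le] at u2
    rw [Complex.sub_re, Complex.ofReal_re] at u3
    exact ⟨by linarith only [u2.1, u1], by linarith [u2.2], fun _ => by linarith⟩
  obtain ⟨η₀, hη⟩ : ∃ η : 𝓞 k → ℝ, η = fun a => if (W₂ : 𝓞 k) ∣ a - a₀ then 1 else 0 := ⟨_, rfl⟩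
  have e0 : ∀ a b, (W₂ : 𝓞 k) ∣ a - b → η₀ a = η₀ b := fun a b hab => by
    simp only [hη]
    rw [show a - a₀ = a - b + (b - a₀) by ring, dvd_add_right hab]
  have e1 : ∀ q, W₂ ∣ q → Pe q η₀ := fun q hq =>
    ⟨fun a b hab => e0 a b ((Nat.cast_dvd_cast hq).trans hab), fun a => by
      simp only [hη]
      split_ifs <;> simp⟩
  have e2 : ∀ a, η₀ a ≠ 0 → (W₂ : 𝓞 k) ∣ a - a₀ := fun a h => by
    by_contra h1
    exact h (hη ▸ if_neg h1)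
  have e3 : ∀ a, 0 ≤ η₀ a := fun a => by
    simp only [hη]
    split_ifs <;> simp
  have P0 : ∀ q, 0 < q → 0 < ∏ p ∈ q.primeFactors.filter fun p => ¬ p ∣ W₂, Vp k p := fun q hq =>
    lt_of_lt_of_le (by positivity) (w_norm_P hq).1
  have e4 : ∀ q, 0 < q → W₂ ∣ q → av q (fun a => un q a * η₀ a) =
      (∏ p ∈ q.primeFactors.filter fun p => ¬ p ∣ W₂, Vp k p) * (1 / (W₂ : ℝ) ^ dg k) :=
    fun q hq hW => by
      rw [← w_av_class h0 a₀, ← hη, mul_comm]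
      refine Eq.trans (congrArg _ (funext fun a => ?_)) (w_av_prod hq hW (f := un)
        (fun p hp => ⟨Nat.prime_of_mem_primeFactors (mem_filter.1 hp).1,
          Nat.dvd_of_mem_primeFactors (mem_filter.1 hp).1, (mem_filter.1 hp).2⟩) e0
        fun p _ => (w_un_per p).1)
      by_cases h1 : η₀ a = 0
      · rw [h1, mul_zero, zero_mul]
      have h2 := w_mu hq (w_un_per_cop (e2 a h1) ha)
      rw [mu, prod_div_distrib, div_left_inj' (P0 q hq).ne'] at h2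
      rw [h2, mul_comm]
  have e5 : av W₂ (fun a => un W₂ a * η₀ a) = 1 / (W₂ : ℝ) ^ dg k := by
    rw [e4 W₂ h0 dvd_rfl, filter_false_of_mem fun p hp h => h (Nat.dvd_of_mem_primeFactors hp),
      prod_empty, one_mul]
  obtain ⟨a, hα⟩ : ∃ a, a = 1 / (W₂ : ℝ) ^ dg k * ∫ x, Φ₀ (emb x) := ⟨_, rfl⟩
  have a0 : 0 < a := hα ▸ by positivity
  have b0 := hβ W₂ h0 dvd_rfl
  have ev := fun c : ℝ => Real.tendsto_log_atTop.eventually_ge_atTop c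
  have b1 : 0 < β' W₂ := by
    by_contra hn
    obtain ⟨X, x1, x2, x3, x4, x5, x6⟩ := ((h 1 1 2).and ((ev W₂).and ((ev L₀).and
      ((ev 1).and ((ev ((|β W₂| + |β' W₂| + 1) / (β W₂ * a))).and
        (eventually_gt_atTop 0)))))).exists
    have y := x1 W₂ η₀ Φ₀ h0 dvd_rfl (by rwa [pow_one]) (e1 _ dvd_rfl) e2
      (w0 _ (by rwa [pow_one]))
    have s0 : 0 ≤ ∑' a, lam a * η₀ a * Φ₀ (sc X a) :=
      tsum_nonneg fun a => mul_nonneg (mul_nonneg (hl a) (e3 a)) (t1 _).1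
    have N0 : 0 < X ^ dg k := by positivity
    rw [e5, mul_assoc, ← hα, pow_one, ← mul_div_assoc, le_div_iff₀ (by linarith only [x4])] at y
    rw [div_le_iff₀ (mul_pos b0 a0)] at x5
    have y1 : β W₂ * (X ^ dg k * a) ≤
        |β' W₂ * ∑' a, lam a * η₀ a * Φ₀ (sc X a) - β W₂ * (X ^ dg k * a)| := by
      refine le_trans ?_ (neg_le_abs _)
      linarith only [mul_nonneg (neg_nonneg.2 (not_lt.1 hn)) s0]
    linarith only [mul_le_mul_of_nonneg_right y1 (by linarith only [x4] : 0 ≤ Real.log X), mul_le_mul_of_nonneg_right x5 N0.le, y, N0]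
  refine ⟨β W₂ / β' W₂, div_pos b0 b1, fun A B R => ?_⟩
  obtain ⟨C, hC, hI⟩ := w_int_bd (k := k) R
  obtain ⟨K, hK, hr⟩ := w_norm_real (div_pos b0 b1) a0 hC
  filter_upwards [h (A + 2 * (B * dg k) + 1) (B + 1) 2, h (A + 2 * (B * dg k) + 1) B R, ev W₂,
    ev L₀, ev 1, ev K, eventually_gt_atTop 0] with X x1 x2 x3 x4 x5 x6 x7 q η Φ hq hW hqB hη hs hΦ
  have N0 : 0 < X ^ dg k := by positivity
  generalize Real.log X = l at *
  have l0 : 0 < l := by linarith only [x5]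
  have l1 : l ≤ l ^ (B + 1) := le_self_pow₀ x5 (Nat.succ_ne_zero B)
  have y0 := x1 W₂ η₀ Φ₀ h0 dvd_rfl (x3.trans l1) (e1 _ dvd_rfl) e2 (w0 _ (x4.trans l1))
  have y1 := x1 q η₀ Φ₀ hq hW (hqB.trans (pow_le_pow_right₀ x5 (Nat.le_succ B))) (e1 _ hW) e2
    (w0 _ (x4.trans l1))
  have y2 := x2 q η Φ hq hW hqB hη hs hΦ
  rw [e5, mul_assoc, ← hα] at y0
  rw [e4 q hq hW, mul_assoc, mul_assoc, ← hα] at y1
  rw [mul_assoc] at y2
  have m1 : av q (fun a => mu W₂ q a * η a) = av q (fun a => un q a * η a) /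
      ∏ p ∈ q.primeFactors.filter fun p => ¬ p ∣ W₂, Vp k p := by
    rw [av, av, div_right_comm]
    congr 1
    rw [sum_div]
    refine sum_congr rfl fun b _ => ?_
    by_cases h1 : η (el k b) = 0
    · rw [h1, mul_zero, mul_zero, zero_div]
    rw [w_mu hq (w_un_per_cop (hs _ h1) ha), div_mul_eq_mul_div]
  obtain ⟨P1, P2⟩ := w_norm_P (k := k) (W := W₂) hq
  have P3 := P0 q hq
  rw [m1]
  generalize ∏ p ∈ q.primeFactors.filter fun p => ¬ p ∣ W₂, Vp k p = P at *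
  have P4 : 1 ≤ P * l ^ (B * dg k) := by
    rw [div_le_iff₀ (by positivity)] at P1
    refine P1.trans (mul_le_mul_of_nonneg_left ?_ P3.le)
    rw [pow_mul]
    gcongr
  have T0 : 0 < l ^ (B * dg k) := by positivity
  have T1 : 1 ≤ l ^ (B * dg k) := one_le_pow₀ x5
  have A1 : 1 ≤ l ^ A := one_le_pow₀ x5
  have k1 : K * (1 / l ^ (A + 2 * (B * dg k) + 1)) ≤ P * P / l ^ A := by
    rw [mul_one_div, div_le_div_iff₀ (by positivity) (by positivity)]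
    calc K * l ^ A ≤ l * l ^ A * (1 * 1) := by rw [mul_one, mul_one]; gcongr
      _ ≤ l * l ^ A * ((P * l ^ (B * dg k)) * (P * l ^ (B * dg k))) := by gcongr
      _ = _ := by ring
  have hy : |av q (fun a => un q a * η a) * ∫ x, Φ (emb x)| ≤ C := by
    by_cases hR : 0 ≤ R
    · rw [abs_mul]
      refine (mul_le_of_le_one_left (abs_nonneg _) (w_av_le fun a => ?_)).trans
        (hI Φ hΦ.le fun z hz => (pi_norm_le_iff_of_nonneg hR).2 fun φ => (hΦ.supp z hz φ).2.1)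
      rw [abs_mul]
      exact mul_le_one₀ ((w_un_per q).2 a) (abs_nonneg _) (hη.2 a)
    · have : ∀ z, Φ z = 0 := fun z => by
        by_contra hz
        obtain ⟨φ⟩ : Nonempty (k →+* ℂ) := inferInstance
        exact hR ((norm_nonneg _).trans (hΦ.supp z hz φ).2.1)
      simp only [this, MeasureTheory.integral_zero, mul_zero, abs_zero]
      exact hC.le
  have z := (hr P _ _ _ _ _ P3 P2 (by positivity) (k1.trans ((div_le_self (by positivity) A1).trans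
    (mul_le_of_le_one_left P3.le P2))) (w_norm_div' b0 b1 N0 y0) (w_norm_div (hβ q hq hW) N0 y1) hy
      (w_norm_div (hβ q hq hW) N0 y2)).trans k1
  generalize ∑' a, lam a * η a * Φ (sc X a) = S at *
  generalize av q (fun a => un q a * η a) = v at *
  generalize ∫ x, Φ (emb x) = I at *
  generalize X ^ dg k = N at *
  have e : S - β W₂ / β' W₂ * N * (v / P) * I =
      N / P * (P * (S / N) - β W₂ / β' W₂ * (v * I)) := by field_simp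
  rw [e, abs_mul, abs_of_pos (div_pos N0 P3)]
  rw [← div_mul_eq_mul_div, mul_le_mul_iff_left₀ P3] at z
  refine (mul_le_mul_of_nonneg_left z (div_pos N0 P3).le).trans_eq ?_
  field_simp

theorem nl_lm (k : Type) {Ω : Type} [Field k] [NumberField k] [Field Ω] [NumberField Ω]
    [Algebra k Ω] (W : ℕ) (P₀ : 𝓞 Ω) : Lm (nl k pw W P₀) ∧ ∀ a, nl k pw W P₀ a ≠ 0 →
      ∃ P : 𝓞 Ω, (W : 𝓞 Ω) ∣ P - P₀ ∧ RingOfIntegers.norm k P = a := by
  classical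
  refine ⟨⟨2 ^ dg Ω, fun a => ?_⟩, fun a ha => ?_⟩
  · have h0 := Real.log_natCast_nonneg (nm a).natAbs
    rw [nl, sum_congr rfl (g := fun _ => if (nm a).natAbs.Prime then
      Real.log (nm a).natAbs else 0) fun I hI => by
        rw [pw, (mem_idN Ω).1 (mem_filter.1 hI).1], sum_const, nsmul_eq_mul]
    split_ifs with hp
    · refine ⟨by positivity, mul_le_mul_of_nonneg_right ?_ h0, fun _ => hp⟩
      have h1 := card_idN_le (K := Ω) hp.ne_zero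
      rw [tau, hp.divisors, card_pair hp.one_lt.ne, Nat.cast_ofNat] at h1
      exact (Nat.cast_le.2 (card_filter_le _ _)).trans h1
    · rw [mul_zero]
      exact ⟨le_rfl, by positivity, fun h => absurd rfl h⟩
  · obtain ⟨I, hI, -⟩ := exists_ne_zero_of_sum_ne_zero ha
    obtain ⟨-, P, -, p1, p2⟩ := mem_filter.1 hI
    exact ⟨P, p1, p2⟩

theorem w_sws [IsTotallyComplex Ω] (hr : Root k) (g1 : GS (k := Ω) pw fun _ => 1)
    (g2 : ∃ α, GS (k := k) (fun _ => 1) α) {W W₂ : ℕ} {P₀ : 𝓞 Ω} {a₀ : 𝓞 k} (h1 : 1 < W₂)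
    (hW : W ∣ W₂) (hΩ : BB Ω ∣ W₂) (hk : BB k ∣ W₂) (ha : IsCoprime a₀ (W₂ : 𝓞 k))
    (hH : ∀ q : ℕ, 0 < q → W₂ ∣ q → ∀ a : 𝓞 k, IsCoprime a (q : 𝓞 k) → (W₂ : 𝓞 k) ∣ a - a₀ →
      ∃ P : 𝓞 Ω, (W : 𝓞 Ω) ∣ P - P₀ ∧ (q : 𝓞 k) ∣ RingOfIntegers.norm k P - a) :
    ∃ c, 0 < c ∧ Eqd (nl k pw W P₀) W₂ a₀ c := by
  obtain ⟨α, g2⟩ := g2
  have h0 : 0 < W₂ := by omega
  have hD : 0 < Module.finrank k Ω := Module.finrank_pos
  have hP : IsCoprime P₀ (W : 𝓞 Ω) := by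
    obtain ⟨P, ⟨c, hc⟩, ⟨d, hd⟩⟩ := hH W₂ h0 dvd_rfl a₀ ha (by simp)
    have h2 : IsCoprime (rn k P) (W₂ : 𝓞 k) := by
      rw [show rn k P = a₀ + W₂ * d by linear_combination hd]
      exact ha.add_mul_left_left d
    have h3 := (w_cop_rn.1 h2).of_isCoprime_of_dvd_right (Nat.cast_dvd_cast hW)
    rw [show P₀ = P + W * (-c) by linear_combination -hc]
    exact h3.add_mul_left_left _
  obtain ⟨β, hβ, b1⟩ := w_core (a₀ := a₀) hr g1 (w_cheb_pw Ω) hW h0 hΩ hD dvd_rfl hP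
    fun q hq hq' a _ hc ha' => by
      obtain ⟨P, p1, p2⟩ := hH q hq hq' a hc ha'
      refine ⟨P, p1, p2, w_tp_rn ?_⟩
      rintro rfl
      have h2 : IsCoprime (rn k (0 : 𝓞 Ω)) (q : 𝓞 k) := by
        obtain ⟨d, hd⟩ := p2
        rw [show rn k (0 : 𝓞 Ω) = a + q * d by linear_combination hd]
        exact hc.add_mul_left_left d
      have h3 := cop_iff.1 (cop_span.2 (w_cop_rn.1 h2))
      have h4 := Nat.le_of_dvd hq hq'
      simp only [Submodule.span_zero_singleton, Ideal.absNorm_bot, Nat.coprime_zero_left] at h3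
      omega
  have hs : ∀ a : 𝓞 k, rn k a = a := fun a => RingOfIntegers.ext (by
    rw [RingOfIntegers.coe_norm]
    simp)
  obtain ⟨β', -, b2⟩ := w_core (Ω := k) (a₀ := a₀) hr g2 (w_cheb_one k) dvd_rfl h0 hk hD
    (by simp) ha fun q _ _ a h2 _ h3 => ⟨a, h3, by rw [hs]; simp, by rwa [hs]⟩
  obtain ⟨C, hC⟩ := (nl_lm k W P₀).1
  exact w_norm (fun a => (hC a).1) h0 ha (fun q q0 q1 => hβ q q0 q1 one_pos)
    (w_cross (nl_lm k W P₀).1 hD b1 b2)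

end Pool.Agent.MP_a59382_lc.V3
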