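import Pool.Agent.MP_a59382_lc.Mg.V3_SDef
import Pool.Agent.MP_a59382_lc.Mg.V3_GCSW
import Pool.Agent.MP_48b1c3_nt.Mg.H91_Dir
import Pool.Agent.MP_48b1c3_nt.Mg.H91_RDef
import Pool.Agent.MP_a59382_lc.Mg.V3_AnDef
import Pool.Agent.MP_a59382_lc.Mg.V3_WCore
import Pool.Agent.MP_a59382_lc.Mg.V3_WLat
import Pool.Agent.MP_a59382_lc.Mg.V3_EAv

attribute [-instance] IdemSemiring.toCanonicallyOrderedAdd AddQuantale.instAddLeftMono
  RKHS.instFunLike Module.FaithfullyFlat.faithfulSMul Fintype.decidableForallFintype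
  ContinuousSemilinearMapClass.toSemilinearMapClass IdemSemiring.toMulLeftMono
  instCharZeroOfIsSemireal littleWedderburn MonTypeEquivalenceMon.monMonoid
  NonUnitalAlgHomClass.instLinearMapClass NonUnitalAlgHomClass.toNonUnitalRingHomClass
  IsPurelyInseparable.isIntegral Quantale.instMulLeftMono AddQuantale.instAddRightMono
  ContinuousMonoidHom.instCoeOutOfMonoidHomClassOfContinuousMapClass
  CompletePartialOrder.toPartialOrder RingHomClass.toLinearMapClassRat NormedField.toField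
  IsOrderedCancelMonoid.toIsOrderedMonoid instCoeTCOfCoe BialgHomClass.toAlgHomClass
  instCoeOutOfCoeFun CoalgHomClass.toSemilinearMapClass instCoeTOfCoeDep Quantale.instMulRightMono
  IsOrderedCancelAddMonoid.toIsCancelAdd RCLike.charZero_rclike BialgHomClass.toMonoidHomClass
  SemilinearIsometryClass.toSemilinearMapClass IdemSemiring.toMulRightMono
  NonUnitalAlgHomClass.instSemilinearMapClassOfNonUnitalAlgSemiHomClassToMonoidHomRingHom
  TotallySeparatedSpace.t2Space instNonUnitalAlgHomClassOfNonUnitalAlgEquivClass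
  GrpTypeEquivalenceGrp.grpGroup Nontrivial.to_nonempty Module.Free.instFaithfulSMulOfNontrivial
  WithZero.instDistrib isCyclic_subgroup_units Finset.decidableDforallFinset NormedAlgebra.toAlgebra
  CanonicallyOrderedAdd.toMulLeftMono KleeneAlgebra.toIdemSemiring BooleanRing.toRing
  WithZero.instSemiring Zero.instNonempty IsometryClass.instCoeOutIsometryEquiv
  TestFunctionClass.toDFunLike Multiset.decidableDforallMultiset
  LinearOrderedCommMonoidWithZero.toIsOrderedMonoid IdemCommSemiring.toIdemSemiring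
  ContDiffMapSupportedInClass.toDFunLike instCoeHTCTOfCoeTailOfCoeHTC
  Vector.instDecidableForallForallMemOfDecidablePred bot_nonempty
  ContinuousAddMonoidHom.instCoeOutOfAddMonoidHomClassOfContinuousMapClass
  HomeomorphClass.instCoeOutHomeomorph AlgHomClass.linearMapClass NormedDivisionRing.toDivisionRing
  Int.decidableLTLE AddCommMonoid.toAddCommSemigroup
  Array.instDecidableForallForallMemOfDecidablePred Module.Invertible.instFaithfulSMul
  Option.decidableForallMem forall_prop_decidable IsRightCancelMul.mulRightStrictMono_of_mulRightMono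
  Submodule.Quotient.addCommMonoid Subsingleton.to_isAddTorsionFree IdemCommSemiring.toCommSemiring
  NeZero.of_gt' MulCharClass.toMonoidHomClass
  Valuation.IsRankOneDiscrete.instIsCyclicSubtypeUnitsMemSubgroupValueGroupOfClass
  GeneralizedCoheytingAlgebra.toLattice AddTorsor.nonempty OmegaCompletePartialOrder.toPartialOrder

-- part MP_a59382_lc.V3.SA
section

/-! Local properties of the solutions, soundness and completeness of the link. -/

set_option autoImplicit false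

namespace Pool.Agent.MP_a59382_lc.V3

open Finset NumberField IsDedekindDomain H18 Pool.Agent.MP_48b1c3_nt.H91
  Pool.Agent.Lib.HasseMinkowski

section Gen

variable {k : Type} [Field k] [NumberField k]

/-! norm forms and valuations in any number field -/

omit [NumberField k] in
theorem s_nf_mul {d x y : k} (hx : Nf d x) (hy : Nf d y) : Nf d (x * y) := by
  obtain ⟨a, b, rfl⟩ := hx
  obtain ⟨c, e, rfl⟩ := hy
  exact ⟨a * c + d * b * e, a * e + b * c, by ring⟩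

omit [NumberField k] in
theorem s_nf_sq (d w : k) : Nf d (w ^ 2) := by
  exact ⟨w, 0, by ring⟩

omit [NumberField k] in
theorem s_nf_cls {d x w : k} (hw : w ≠ 0) (h : Nf d x) : Nf (d * w ^ 2) x := by
  obtain ⟨a, b, rfl⟩ := h
  exact ⟨a, b / w, by field_simp⟩

omit [NumberField k] in
theorem s_nf_map {E : Type} [FunLike E k k] [RingHomClass E k k] (σ : E) {d x : k} (h : Nf d x) :
    Nf (σ d) (σ x) := by
  obtain ⟨a, b, rfl⟩ := h
  exact ⟨σ a, σ b, by simp only [map_sub, map_mul, map_pow]⟩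

theorem s_nf_symm {d x : k} (hx : x ≠ 0) (h : Nf d x) : Nf x d := by
  obtain ⟨a, b, rfl⟩ := h
  rcases eq_or_ne b 0 with rfl | hb
  · have ha : a ≠ 0 := fun e => hx (by simp [e])
    exact ⟨(d + 1) / 2, (d - 1) / (2 * a), by field_simp; ring⟩
  · exact ⟨a / b, 1 / b, by field_simp; ring⟩

theorem s_ord_neg (v : HeightOneSpectrum (𝓞 k)) (x : k) : ord v (-x) = ord v x := by
  rw [ord, ord, Valuation.map_neg]

theorem s_ord_pos {v : HeightOneSpectrum (𝓞 k)} {x : k} (hx : x ≠ 0) :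
    0 < ord v x ↔ v.valuation k x < 1 := by
  rw [ord, neg_pos, WithZero.log_lt_iff_lt_exp (by simpa using hx), WithZero.exp_zero]

theorem s_ord_int {v : HeightOneSpectrum (𝓞 k)} {a : 𝓞 k} (h : a ∉ v.asIdeal) :
    ord v (a : k) = 0 := by
  have : v.valuation k (a : k) = 1 := (v.valuation_eq_one_iff_notMem (K := k)).2 h
  rw [ord, this, WithZero.log_one, neg_zero]

theorem s_mem_le {v : HeightOneSpectrum (𝓞 k)} {x : k} : 0 ≤ ord v x ↔ v.valuation k x ≤ 1 := by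
  rcases eq_or_ne x 0 with rfl | hx
  · simp only [ord, map_zero, WithZero.log_zero, neg_zero, Std.le_refl, zero_le]
  · rw [ord, neg_nonneg, WithZero.log_le_iff_le_exp (by simpa using hx), WithZero.exp_zero]

theorem s_mem_int (v : HeightOneSpectrum (𝓞 k)) {x : k} (h : IsIntegral ℤ x) :
    v.valuation k x ≤ 1 :=
  v.valuation_le_one (K := k) (⟨x, h⟩ : 𝓞 k)

theorem s_mem_nat {v : HeightOneSpectrum (𝓞 k)} {N : ℕ} (h : (N : 𝓞 k) ∉ v.asIdeal) :
    v.valuation k (N : k) = 1 := by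
  rw [← map_natCast (algebraMap (𝓞 k) k)]
  exact (v.valuation_eq_one_iff_notMem (K := k)).2 h

omit [NumberField k] in
theorem s_mem_sm {S : Set ℕ} {v : HeightOneSpectrum (𝓞 k)}
    (hv : ∀ p ∈ S, (p : 𝓞 k) ∉ v.asIdeal) (N : ℕ) : Sm S N → (N : 𝓞 k) ∉ v.asIdeal := by
  induction N using induction_on_primes with
  | zero => exact fun h => absurd rfl h.1
  | one => exact fun _ h => v.isPrime.ne_top ((Ideal.eq_top_iff_one _).2 (by simpa only [Nat.cast_one] using h))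
  | prime_mul p n hp ih =>
    intro h e
    rw [Nat.cast_mul] at e
    exact (v.isPrime.mem_or_mem e).elim (hv p (h.2 p hp (dvd_mul_right _ _)))
      (ih ⟨right_ne_zero_of_mul h.1, fun q hq e => h.2 q hq (e.mul_left _)⟩)

theorem s_mem_split {S : Set ℕ} (hS : ∀ p ∈ S, p.Prime) (D : ℕ) :
    D ≠ 0 → ∃ N M, D = N * M ∧ Sm S N ∧ ∀ p ∈ S, ¬ p ∣ M := by
  induction D using induction_on_primes with
  | zero => exact fun h => absurd rfl h
  | one => exact fun _ => ⟨1, 1, rfl, .one S, fun p hp => (hS p hp).not_dvd_one⟩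
  | prime_mul p n hp ih =>
    intro h
    obtain ⟨N, M, rfl, hN, hM⟩ := ih (right_ne_zero_of_mul h)
    by_cases hpS : p ∈ S
    · exact ⟨p * N, M, (mul_assoc _ _ _).symm, Sm.mul ⟨hp.ne_zero, fun q hq e =>
        (Nat.prime_dvd_prime_iff_eq hq hp).1 e ▸ hpS⟩ hN, hM⟩
    · refine ⟨N, p * M, mul_left_comm _ _ _, hN, fun q hq e => ?_⟩
      exact ((hS q hq).dvd_mul.1 e).elim
        (fun e => hpS ((Nat.prime_dvd_prime_iff_eq (hS q hq) hp).1 e ▸ hq)) (hM q hq)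

theorem s_mem {S : Set ℕ} (hS : ∀ p ∈ S, p.Prime) {x : k} : x ∈ AS S k ↔
    ∀ v : HeightOneSpectrum (𝓞 k), (∀ p ∈ S, (p : 𝓞 k) ∉ v.asIdeal) → 0 ≤ ord v x := by
  constructor
  · rintro ⟨N, hN, h⟩ v hv
    have := s_mem_int v h
    rwa [map_mul, s_mem_nat (s_mem_sm hv N hN), one_mul, ← s_mem_le] at this
  · intro h
    obtain ⟨D, D0, hD⟩ := AS.frac ∅ x
    obtain ⟨N, M, rfl, hN, hM⟩ := s_mem_split hS D D0
    obtain ⟨a, ha⟩ := HeightOneSpectrum.mem_integers_of_valuation_le_one (R := 𝓞 k) k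
      ((N : k) * x) fun v => by
        by_cases hv : ∀ p ∈ S, (p : 𝓞 k) ∉ v.asIdeal
        · rw [map_mul]
          exact mul_le_one' (s_mem_int v (isIntegral_natCast N)) (s_mem_le.1 (h v hv))
        · push Not at hv
          obtain ⟨p, hp, hv⟩ := hv
          obtain ⟨a, b, e⟩ : IsCoprime (p : 𝓞 k) (M : 𝓞 k) :=
            Nat.Coprime.cast ((hS p hp).coprime_iff_not_dvd.2 (hM p hp))
          have h1 : (M : 𝓞 k) ∉ v.asIdeal := fun h2 =>
            v.isPrime.ne_top ((Ideal.eq_top_iff_one _).2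
              (e ▸ add_mem (v.asIdeal.mul_mem_left a hv) (v.asIdeal.mul_mem_left b h2)))
          have := s_mem_int v (AS.empty.1 hD)
          rwa [Nat.cast_mul, mul_comm (N : k), mul_assoc, map_mul, s_mem_nat h1, one_mul] at this
    exact ⟨N, hN, ha ▸ a.isIntegral_coe⟩

theorem s_desc {S F : Set ℕ} {r : ℤ} (hr : ∀ p : ℕ, p.Prime → p ∈ S → ¬ (p : ℤ) ∣ r) {z : k}
    (hz : z ∈ AS S k) (h : (r : k) * z ∈ AS F k) : z ∈ AS F k := by
  obtain ⟨N, hN, hz⟩ := hz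
  obtain ⟨a, b, e⟩ : IsCoprime (N : ℤ) r := Int.isCoprime_iff_gcd_eq_one.2
    (Nat.eq_one_iff_not_exists_prime_dvd.2 fun p hp e => by
      have e' : (p : ℤ) ∣ (Int.gcd (N : ℤ) r : ℕ) := Int.natCast_dvd_natCast.2 e
      exact hr p hp (hN.2 p hp (Int.natCast_dvd_natCast.1 (e'.trans (Int.gcd_dvd_left _ _))))
        (e'.trans (Int.gcd_dvd_right _ _)))
  have e' : (a : k) * N + b * r = 1 := by exact_mod_cast e
  rw [show z = a * (N * z) + b * (r * z) by linear_combination -z * e']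
  exact add_mem (mul_mem (intCast_mem _ a) (AS.of_int hz)) (mul_mem (intCast_mem _ b) h)

theorem s_ns {v : HeightOneSpectrum (𝓞 k)} {d : k} {d₀ : 𝓞 k} (h : v.valuation k (d - d₀) < 1)
    (hn : ∀ a : 𝓞 k, a ^ 2 - d₀ ∉ v.asIdeal) {x : k} (hx : Nf d x) : Even (ord v x) := by
  have hsq : ∀ w : k, w ≠ 0 → Even (ord v (w ^ 2)) := fun w hw => by
    rw [sq, sf_mul v hw hw]
    exact ⟨_, rfl⟩
  rcases eq_or_ne x 0 with rfl | x0
  · simp only [ord, map_zero, WithZero.log_zero, neg_zero, Even.zero]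
  obtain ⟨a, b, rfl⟩ := hx
  rcases eq_or_ne b 0 with rfl | hb
  · have ha : a ≠ 0 := fun e => x0 (by simp [e])
    simpa only [ne_eq, OfNat.ofNat_ne_zero, not_false_eq_true, zero_pow, mul_zero, sub_zero] using hsq a ha
  have e : a ^ 2 - d * b ^ 2 = ((a / b) ^ 2 - d) * b ^ 2 := by field_simp
  rw [e] at x0 ⊢
  rw [sf_sq v (left_ne_zero_of_mul x0) hb]
  generalize a / b = t
  have hd : v.valuation k d ≤ 1 := by
    rw [← sub_add_cancel d d₀]
    exact (v.valuation k).map_add_le h.le (v.valuation_le_one d₀)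
  rcases le_or_gt (v.valuation k t) 1 with ht | ht
  · obtain ⟨c, hc⟩ := HeightOneSpectrum.exists_valuation_sub_lt_of_integer v ht 1
    have h1 : v.valuation k (algebraMap (𝓞 k) k (c ^ 2 - d₀)) = 1 :=
      (v.valuation_eq_one_iff_notMem (K := k)).2 (hn c)
    have h2 : v.valuation k ((algebraMap (𝓞 k) k c - t) * (algebraMap (𝓞 k) k c + t) +
        (d - d₀)) < 1 := by
      refine (v.valuation k).map_add_lt ?_ h
      rw [map_mul]
      exact mul_lt_one_of_lt_of_le hc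
        ((v.valuation k).map_add_le (v.valuation_le_one c) ht)
    have h3 := (v.valuation k).map_sub_eq_of_lt_left (h2.trans_eq h1.symm)
    rw [h1, show algebraMap (𝓞 k) k (c ^ 2 - d₀) -
      ((algebraMap (𝓞 k) k c - t) * (algebraMap (𝓞 k) k c + t) + (d - d₀)) = t ^ 2 - d by
        rw [map_sub (algebraMap (𝓞 k) k), map_pow (algebraMap (𝓞 k) k)]
        show _ - (d₀ : k) - _ = _
        ring] at h3
    simp only [ord, h3, WithZero.log_one, neg_zero, Even.zero]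
  · have h1 : v.valuation k d < v.valuation k (t ^ 2) := by
      rw [map_pow]
      exact hd.trans_lt (one_lt_pow₀ ht two_ne_zero)
    rw [ord, (v.valuation k).map_sub_eq_of_lt_left h1]
    exact hsq t fun e => by simp [e] at ht

/-! conjugates, the square condition, finiteness -/

theorem s_gal_le {v w : HeightOneSpectrum (𝓞 k)} {a b : 𝓞 k} (hb : b ≠ 0)
    (h : ∀ n : ℕ, b ∈ w.asIdeal ^ n → a ∈ v.asIdeal ^ n) : v.intValuation a ≤ w.intValuation b := by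
  have e := w.intValuation_if_neg hb
  rw [e]
  exact (v.intValuation_le_pow_iff_mem a _).2 (h _ ((w.intValuation_le_pow_iff_mem b _).1 e.le))

theorem s_gal (σ : k ≃+* k) (v : HeightOneSpectrum (𝓞 k)) : ∃ v' : HeightOneSpectrum (𝓞 k),
    (∀ a : 𝓞 k, a ∈ v'.asIdeal ↔ RingOfIntegers.mapRingEquiv σ a ∈ v.asIdeal) ∧
      ∀ x : k, ord v (σ x) = ord v' x := by
  obtain ⟨τ, hτ⟩ : ∃ τ, τ = RingOfIntegers.mapRingEquiv σ := ⟨_, rfl⟩
  have h1 : ∀ a : 𝓞 k, σ (algebraMap (𝓞 k) k a) = algebraMap (𝓞 k) k (τ a) := fun a => by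
    rw [hτ]
    rfl
  rw [← hτ]
  obtain ⟨v', hv⟩ : ∃ v' : HeightOneSpectrum (𝓞 k), v'.asIdeal = v.asIdeal.map τ.symm :=
    ⟨HeightOneSpectrum.comap (τ : 𝓞 k →+* 𝓞 k) τ.surjective v, (Ideal.map_symm τ).symm⟩
  have h2 : ∀ (n : ℕ) (a : 𝓞 k), a ∈ v'.asIdeal ^ n ↔ τ a ∈ v.asIdeal ^ n := fun n a => by
    rw [hv, ← Ideal.map_pow, Ideal.map_symm, Ideal.mem_comap]
  have h3 : ∀ a : 𝓞 k, v.valuation k (σ (algebraMap (𝓞 k) k a)) =
      v'.valuation k (algebraMap (𝓞 k) k a) := fun a => by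
    rw [h1, v.valuation_of_algebraMap, v'.valuation_of_algebraMap]
    by_cases h0 : a = 0
    · simp only [h0, map_zero]
    exact le_antisymm (s_gal_le h0 fun n => (h2 n a).1)
      (s_gal_le (by simpa using h0) fun n => (h2 n a).2)
  refine ⟨v', fun a => by simpa using h2 1 a, fun x => ?_⟩
  obtain ⟨a, b, -, rfl⟩ := IsFractionRing.div_surjective (A := 𝓞 k) x
  rw [ord, ord, map_div₀, map_div₀, map_div₀, h3, h3]

theorem s_sel_map (σ : k ≃+* k) {A : Finset ℕ} {y : k} (h : Sel A y) : Sel A (σ y) := by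
  obtain ⟨h1, w, c, e⟩ := h
  refine ⟨fun v hv => ?_, σ w, RingOfIntegers.mapRingEquiv σ c, ?_⟩
  · obtain ⟨v', h2, h3⟩ := s_gal σ v
    rw [h3]
    exact h1 v' fun p hp h => hv p hp (by simpa using (h2 _).1 h)
  · simpa [map_ofNat] using congrArg σ e

theorem s_ev_sound_le {v : HeightOneSpectrum (𝓞 k)} {x : k} (h : 0 ≤ ord v x) :
    v.valuation k x ≤ 1 := by
  by_cases h0 : v.valuation k x = 0
  · rw [h0]
    exact zero_le
  exact (WithZero.log_le_iff_le_exp (a := (0 : ℤ)) h0).1 (neg_nonneg.1 h)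

theorem s_ev_sound {S : Set ℕ} (hS : ∀ p ∈ S, p.Prime) {y : k} (hy : y ∈ AS S k) (h : Ev S y)
    (v : HeightOneSpectrum (𝓞 k)) (hv : ∀ p ∈ S, (p : 𝓞 k) ∉ v.asIdeal) : Even (ord v y) := by
  obtain ⟨b, -, c, hc, d, hd, e, he, h1, h2⟩ := h
  have y1 := (s_mem hS).1 hy v hv
  have c1 := (s_mem hS).1 hc v hv
  rcases y1.eq_or_lt with y2 | y2
  · exact y2 ▸ Even.zero
  have y0 : y ≠ 0 := fun e => by simp [e, ord] at y2
  have h3 : v.valuation k (d * y) < 1 := by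
    rw [map_mul]
    exact (mul_le_of_le_one_left' (s_ev_sound_le ((s_mem hS).1 hd v hv))).trans_lt
      ((s_ord_pos y0).1 y2)
  have h4 : ¬ v.valuation k c < 1 := fun h => by
    have h5 : v.valuation k (e * c) < 1 := by
      rw [map_mul]
      exact (mul_le_of_le_one_left' (s_ev_sound_le ((s_mem hS).1 he v hv))).trans_lt h
    have h6 := Valuation.map_add_lt _ h3 h5
    rw [h2, map_one] at h6
    exact lt_irrefl _ h6
  have c0 : c ≠ 0 := fun e => h4 (by simp [e])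
  have b0 : b ≠ 0 := fun e => mul_ne_zero y0 c0 (by rw [← h1, e]; ring)
  have h5 := sf_mul v y0 c0
  rw [← h1, sq, sf_mul v b0 b0, ← c1.antisymm (not_lt.1 (mt (s_ord_pos c0).1 h4)), add_zero] at h5
  exact ⟨_, h5.symm⟩

theorem s_ev_complete_split (S : Set ℕ) (n : ℕ) : n ≠ 0 → ∃ a b : ℕ, n = a * b ∧ Sm S a ∧
    ∀ q ∈ S, q.Prime → ¬ q ∣ b := by
  induction n using induction_on_primes with
  | zero => exact fun h => absurd rfl h
  | one => exact fun _ => ⟨1, 1, rfl, .one S, fun q _ hq h => hq.one_lt.ne' (Nat.dvd_one.1 h)⟩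
  | prime_mul p n hp ih =>
    intro h
    obtain ⟨a, b, rfl, ha, hb⟩ := ih (right_ne_zero_of_mul h)
    by_cases hS : p ∈ S
    · exact ⟨p * a, b, by ring, Sm.mul ⟨hp.ne_zero, fun q hq e =>
        (Nat.prime_dvd_prime_iff_eq hq hp).1 e ▸ hS⟩ ha, hb⟩
    · exact ⟨a, p * b, by ring, ha, fun q h1 hq e => ((Nat.Prime.dvd_mul hq).1 e).elim
        (fun e => hS ((Nat.prime_dvd_prime_iff_eq hq hp).1 e ▸ h1)) (hb q h1 hq)⟩

theorem s_ev_complete {S : Set ℕ} (hS : ∀ p ∈ S, p.Prime) {y : k} (hy : y ∈ AS S k) (h0 : y ≠ 0)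
    (h : ∀ v : HeightOneSpectrum (𝓞 k), (∀ p ∈ S, (p : 𝓞 k) ∉ v.asIdeal) → Even (ord v y)) :
    Ev S y := by
  obtain ⟨N, hN, hi⟩ := id hy
  have N0 : (N : k) ≠ 0 := Nat.cast_ne_zero.2 hN.1
  obtain ⟨a, ha⟩ : ∃ a : 𝓞 k, (a : k) = y * N ^ 2 :=
    ⟨⟨_, hi.mul (isIntegral_natCast N)⟩, show (N : k) * y * N = _ by ring⟩
  have a0 : a ≠ 0 := fun e => mul_ne_zero h0 (pow_ne_zero 2 N0) (by rw [← ha, e]; rfl)
  obtain ⟨n, p, e, hn, hp⟩ := s_ev_complete_split S (Ideal.absNorm (Ideal.span {a}))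
    (by simpa only [Ideal.absNorm_span_singleton, ne_eq, Int.natAbs_eq_zero, Algebra.norm_eq_zero_iff] using a0)
  have p0 : p ≠ 0 := by
    rintro rfl
    simp only [Ideal.absNorm_span_singleton, mul_zero, Int.natAbs_eq_zero, Algebra.norm_eq_zero_iff, a0] at e
  obtain ⟨c, y', e1, α, β, e2⟩ := t_even p0 a0 fun v hv => by
    rw [ha, sf_sq v h0 N0]
    refine h v fun q hq h1 => v.isPrime.ne_top ?_
    obtain ⟨s, t, e⟩ : IsCoprime (q : 𝓞 k) (p : 𝓞 k) :=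
      Nat.Coprime.cast (((hS q hq).coprime_iff_not_dvd).2 (hp q hq (hS q hq)))
    rw [Ideal.eq_top_iff_one, ← e]
    exact add_mem (Ideal.mul_mem_left _ _ h1) (Ideal.mul_mem_left _ _ hv)
  obtain ⟨z, hz⟩ := Ideal.mem_span_singleton.1 (Ideal.absNorm_mem (Ideal.span {a}))
  have n0 : (n : k) ≠ 0 := Nat.cast_ne_zero.2 hn.1
  have e3 : (n : k) * p = y * N ^ 2 * z := by
    rw [← ha]
    rw [e] at hz
    simpa only [map_mul, map_natCast, Nat.cast_mul] using congrArg (algebraMap (𝓞 k) k) hz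
  have e4 : (α : k) * y' + β * p = 1 := by
    simpa only [map_mul, map_natCast, map_add, map_one] using congrArg (algebraMap (𝓞 k) k) e2
  have e5 : (c * N * y) ^ 2 = y * y' := by rw [e1, ha]; ring
  refine ⟨c * N * y, (s_mem hS).2 fun v hv => ?_, y', AS.coe _, β * z * N ^ 2 * (n : k)⁻¹,
    mul_mem (mul_mem (mul_mem (AS.coe _) (AS.coe _)) (pow_mem (natCast_mem _ _) _))
      ⟨n, hn, by rw [mul_inv_cancel₀ n0]; exact isIntegral_one⟩, α, AS.coe _, e5, ?_⟩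
  · by_cases b0 : c * N * y = 0
    · simp [b0, ord]
    have h1 := (s_mem hS).1 (mul_mem hy (AS.coe y')) v hv
    rw [← e5, sq, sf_mul v b0 b0] at h1
    omega
  · field_simp
    linear_combination (n : k) * e4 - β * e3

theorem s_level {A : ℕ → Finset ℕ} (hm : Monotone A) (hA : ∀ j, ∀ p ∈ A j, p.Prime) {y : k}
    (h : ∀ v : HeightOneSpectrum (𝓞 k), (∀ j, ∀ p ∈ A j, (p : 𝓞 k) ∉ v.asIdeal) → Even (ord v y)) :
    ∃ j, ∀ v : HeightOneSpectrum (𝓞 k), (∀ p ∈ A j, (p : 𝓞 k) ∉ v.asIdeal) → Even (ord v y) := by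
  have _ := hA
  have h1 : {v : HeightOneSpectrum (𝓞 k) | ¬ Even (ord v y)}.Finite := by
    obtain ⟨a, b, hb, rfl⟩ := IsFractionRing.div_surjective (A := 𝓞 k) y
    have b0 : b ≠ 0 := nonZeroDivisors.ne_zero hb
    by_cases a0 : a = 0
    · simp only [ord, a0, map_zero, zero_div, WithZero.log_zero, neg_zero, Even.zero, not_true_eq_false, Set.ofPred_false, Set.finite_empty]
    refine (Ideal.finite_factors (I := Ideal.span {a * b}) (by simp only [Submodule.zero_eq_bot, ne_eq, Submodule.span_eq_bot, Set.mem_singleton_iff, forall_eq, mul_eq_zero, a0, b0, or_self, not_false_eq_true])).subset fun v hv => ?_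
    by_contra h2
    have h3 : a * b ∉ v.asIdeal := fun e => h2 (Ideal.dvd_span_singleton.2 e)
    have h4 : (b : k) ≠ 0 := by simpa using b0
    have h5 : (algebraMap (𝓞 k) k a / algebraMap (𝓞 k) k b) ≠ 0 :=
      div_ne_zero (by simpa using a0) h4
    refine hv ((sf_sq v h5 h4).1 ?_)
    have h6 : algebraMap (𝓞 k) k a / algebraMap (𝓞 k) k b * (b : k) ^ 2 = ((a * b : 𝓞 k) : k) := by
      simp only [RingOfIntegers.coe_eq_algebraMap, map_mul] at h4 ⊢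
      field_simp
    rw [h6, s_ord_int h3]
    exact Even.zero
  have h2 : ∀ v : HeightOneSpectrum (𝓞 k), ∃ j, ¬ Even (ord v y) →
      ∃ p ∈ A j, (p : 𝓞 k) ∈ v.asIdeal := fun v => by
    by_contra h3
    push Not at h3
    exact (h3 0).1 (h v fun j => (h3 j).2)
  choose f hf using h2
  obtain ⟨j, hj⟩ := (h1.image f).bddAbove
  refine ⟨j, fun v hv => by_contra fun h3 => ?_⟩
  obtain ⟨p, hp, e⟩ := hf v h3
  exact hv p (hm (hj ⟨v, h3, rfl⟩) hp) e

theorem s_bound {F : Set ℕ} {y : k} (h0 : y ≠ 0) : ∃ B : ℤ, ∀ r : ℤ,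
    (∀ p : ℕ, p.Prime → p ∈ F → ¬ (p : ℤ) ∣ r) → DvA F (r : k) y → |r| ≤ B := by
  obtain ⟨i, hi⟩ : ∃ i, co y i ≠ 0 := by
    by_contra h
    push Not at h
    exact h0 (co_ext fun i => by rw [h i]; simp [co])
  refine ⟨|(co y i).num|, fun r hr ⟨z, hz, e⟩ => ?_⟩
  have h1 : co y i = r * co z i := by rw [e, ← Rat.cast_intCast, co_rat]
  have h2 : r ∣ (co y i).num := dvd_of_free hr
    (mul_mem (co_mem.1 hz i) (natCast_mem (RS F) (co y i).den))
    (by rw [← mul_assoc, ← h1, Rat.mul_den_eq_num])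
  exact Int.le_of_dvd (abs_pos.2 (Rat.num_ne_zero.2 hi)) ((abs_dvd_abs _ _).2 h2)

end Gen

variable {K : Type} [Field K] [NumberField K] [IsCMField K] {m : ℕ}
  {K' : Type} [Field K'] [NumberField K']

/-! the primes of `K` -/

theorem s_pa_gd (P : FK K m) {p : ℕ} (h : Pa m p) : Gd m p := by
  have e : 2 ^ (m - 1) ∣ 2 ^ m := pow_dvd_pow 2 (by have := P.hm; omega)
  exact ⟨h.1, h.2.1, fun k => h.2.2.1 (k.of_dvd e), fun k => h.2.2.2 (e.trans k)⟩

theorem s_sp_gd (P : FK K m) {p : ℕ} (h : Sp m p) : Gd m p ∧ p % 8 = 7 := by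
  have h8 : 8 ∣ 2 ^ m := pow_dvd_pow 2 (show 3 ≤ m by have := P.hm; omega)
  have h7 : 8 ∣ 2 ^ (m - 1) := pow_dvd_pow 2 (show 3 ≤ m - 1 by have := P.hm; omega)
  have h1 : 8 ∣ p + 1 := (h.2.dvd_iff h8).2 h7
  refine ⟨⟨h.1, by omega, fun k => ?_, fun k => ta_lsp P k h⟩, by omega⟩
  have := k.of_dvd h8
  rw [Nat.ModEq] at this
  omega

omit [IsCMField K] in
theorem s_ord_rat_nmem {Q : ℕ} (hQ : Q.Prime) {v : HeightOneSpectrum (𝓞 K)}
    (hv : (Q : 𝓞 K) ∈ v.asIdeal) {u : ℤ} (hu : ¬ (Q : ℤ) ∣ u) : (u : 𝓞 K) ∉ v.asIdeal := fun h => by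
  obtain ⟨a, b, e⟩ := Int.isCoprime_iff_gcd_eq_one.2
    (Pool.Agent.Lib.HasseMinkowski.gcd_eq_one hQ hu)
  have e1 : (a : 𝓞 K) * u + b * Q = 1 := by exact_mod_cast congrArg (Int.cast : ℤ → 𝓞 K) e
  exact v.isPrime.ne_top ((Ideal.eq_top_iff_one _).2
    (e1 ▸ add_mem (Ideal.mul_mem_left _ _ h) (Ideal.mul_mem_left _ _ hv)))

omit [IsCMField K] in
theorem s_ord_rat_two {Q : ℕ} (hQ : Q.Prime) (h2 : Q ≠ 2) {v : HeightOneSpectrum (𝓞 K)}
    (hv : (Q : 𝓞 K) ∈ v.asIdeal) : (2 : 𝓞 K) ∉ v.asIdeal := by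
  have := s_ord_rat_nmem hQ hv (u := 2) fun h =>
    h2 ((Nat.prime_dvd_prime_iff_eq hQ Nat.prime_two).1 (by exact_mod_cast h))
  exact_mod_cast this

theorem s_ord_rat_one (P : FK K m) {Q : ℕ} (hQ : Q.Prime) (h2 : Q ≠ 2)
    {v : HeightOneSpectrum (𝓞 K)} (hv : (Q : 𝓞 K) ∈ v.asIdeal) : ord v (Q : K) = 1 := by
  obtain ⟨f, hf, h⟩ := P.unr Q hQ h2
  obtain ⟨π, hπ⟩ := v.intValuation_exists_uniformizer
  have o1 : ord v (π : K) = 1 := by
    rw [ord, HeightOneSpectrum.valuation_of_algebraMap, hπ, WithZero.log_exp, neg_neg]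
  have π0 : (π : K) ≠ 0 := fun e => by simp [e, ord] at o1
  have πv : π ∈ v.asIdeal := by
    by_contra k
    rw [s_ord_int k] at o1
    omega
  obtain ⟨n, hn⟩ : ∃ n, Q ^ f = n + 2 :=
    ⟨Q ^ f - 2, by have := Nat.one_lt_pow hf.ne' hQ.one_lt; omega⟩
  obtain ⟨c, hc⟩ := h π
  have u1 : π ^ (n + 1) - 1 ∉ v.asIdeal := fun k =>
    v.isPrime.ne_top ((Ideal.eq_top_iff_one _).2 (by
      simpa only [sub_sub_cancel] using sub_mem (v.asIdeal.pow_mem_of_mem πv (n + 1) n.succ_pos) k))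
  have u0 : ((π ^ (n + 1) - 1 : 𝓞 K) : K) ≠ 0 := fun e =>
    u1 (by rw [RingOfIntegers.coe_eq_zero_iff.1 e]; exact zero_mem _)
  have e : (π : K) * ((π ^ (n + 1) - 1 : 𝓞 K) : K) = (Q : K) * c := by
    have e1 : π * (π ^ (n + 1) - 1) = Q * c := by rw [← hc, hn]; ring
    simpa only [map_mul, map_natCast] using congrArg (algebraMap (𝓞 K) K) e1
  have Q0 : (Q : K) ≠ 0 := Nat.cast_ne_zero.2 hQ.ne_zero
  have c0 : (c : K) ≠ 0 := fun k => mul_ne_zero π0 u0 (by rw [e, k, mul_zero])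
  have o2 := congrArg (ord v) e
  rw [sf_mul v π0 u0, sf_mul v Q0 c0, o1, s_ord_int u1] at o2
  have o3 : 0 ≤ ord v (c : K) := (s_mem (S := ∅) (by simp)).1 (AS.coe c) v (by simp)
  have o4 : 0 < ord v (Q : K) := (s_ord_pos Q0).2 (by
    simpa only [map_natCast] using (v.valuation_lt_one_iff_mem (K := K) (Q : 𝓞 K)).2 hv)
  omega

theorem s_ord_rat_int (P : FK K m) {Q : ℕ} (hQ : Q.Prime) (h2 : Q ≠ 2)
    {v : HeightOneSpectrum (𝓞 K)} (hv : (Q : 𝓞 K) ∈ v.asIdeal) {a : ℤ} (ha : a ≠ 0) :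
    ord v (a : K) = padicValInt Q a := by
  obtain ⟨k, u, rfl, hu⟩ := Pool.Agent.Lib.HasseMinkowski.exists_decomp hQ ha
  have Q0 : (Q : K) ≠ 0 := Nat.cast_ne_zero.2 hQ.ne_zero
  have u0 : (u : K) ≠ 0 := Int.cast_ne_zero.2 (right_ne_zero_of_mul ha)
  have h3 : ∀ j : ℕ, ord v ((Q : K) ^ j) = j := fun j => by
    induction j with
    | zero => simp [ord]
    | succ j ih => rw [pow_succ, sf_mul v (pow_ne_zero _ Q0) Q0, ih, s_ord_rat_one P hQ h2 hv,
        Nat.cast_succ]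
  have h4 : ord v (u : K) = 0 := by
    simpa only [map_intCast] using s_ord_int (s_ord_rat_nmem hQ hv hu)
  rw [Pool.Agent.Lib.HasseMinkowski.val_decomp hQ k hu, Int.cast_mul, Int.cast_pow,
    Int.cast_natCast, sf_mul v (pow_ne_zero _ Q0) u0, h3, h4, add_zero]

theorem s_ord_rat (P : FK K m) {Q : ℕ} (hQ : Q.Prime) (h2 : Q ≠ 2) {v : HeightOneSpectrum (𝓞 K)}
    (hv : (Q : 𝓞 K) ∈ v.asIdeal) (a : ℚ) : ord v (a : K) = padicValRat Q a := by
  rcases eq_or_ne a 0 with rfl | ha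
  · simp [ord]
  have d0 : (a.den : ℤ) ≠ 0 := by exact_mod_cast a.den_nz
  have e : (a : K) * ((a.den : ℤ) : K) = (a.num : K) := by
    exact_mod_cast congrArg (Rat.cast : ℚ → K) (Rat.mul_den_eq_num a)
  have o := congrArg (ord v) e
  rw [sf_mul v (Rat.cast_ne_zero.2 ha) (Int.cast_ne_zero.2 d0), s_ord_rat_int P hQ h2 hv d0,
    s_ord_rat_int P hQ h2 hv (Rat.num_ne_zero.2 ha), padicValInt.of_nat] at o
  rw [padicValRat_def]
  omega

theorem s_pa_ord (P : FK K m) {Q : ℕ} (hQ : Pa m Q) {v : HeightOneSpectrum (𝓞 K)}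
    (hv : (Q : 𝓞 K) ∈ v.asIdeal) (x : K) : ord v (cK x) = ord v x := by
  obtain ⟨i, -, -, h⟩ := P.pas Q hQ
  obtain ⟨v', h1, h2⟩ := s_gal (IsCMField.complexConj K).toRingEquiv v
  have e : v' = v := HeightOneSpectrum.ext (Ideal.ext fun a => (h1 a).trans (by
    have h3 : cO a - a ^ Q ^ i ∈ v.asIdeal := Ideal.mem_of_dvd _ (h a) hv
    refine Iff.trans (b := a ^ Q ^ i ∈ v.asIdeal) ⟨fun k : cO a ∈ v.asIdeal => ?_, fun k => ?_⟩
      (v.isPrime.pow_mem_iff_mem _ (pow_pos hQ.1.pos i))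
    · simpa using sub_mem k h3
    · show cO a ∈ v.asIdeal
      simpa using add_mem h3 k))
  exact e ▸ h2 x

theorem s_pa_tw_ns (P : FK K m) {Q : ℕ} (hQ : Pa m Q) {v : HeightOneSpectrum (𝓞 K)}
    (hv : (Q : 𝓞 K) ∈ v.asIdeal) (a : 𝓞 K) : a ^ 2 - P.θ ∉ v.asIdeal := fun ha => by
  obtain ⟨i, -, h4, h⟩ := P.pas Q hQ
  have := v.isPrime
  obtain ⟨j, hj⟩ : ∃ j, Q ^ i = 4 * j + 1 := ⟨Q ^ i / 4, by omega⟩
  have c : ∀ b : 𝓞 K, Ideal.Quotient.mk v.asIdeal (cO b) =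
      Ideal.Quotient.mk v.asIdeal b ^ (4 * j + 1) := fun b => by
    rw [← map_pow, ← hj]
    exact Ideal.Quotient.eq.2 (Ideal.mem_of_dvd _ (h b) hv)
  have t0 : (2 : 𝓞 K ⧸ v.asIdeal) ≠ 0 := fun e =>
    s_ord_rat_two hQ.1 hQ.2.1 hv (Ideal.Quotient.eq_zero_iff_mem.1 (by rw [map_ofNat, e]))
  have e1 : Ideal.Quotient.mk v.asIdeal a ^ 2 = Ideal.Quotient.mk v.asIdeal P.θ := by
    rw [← map_pow]
    exact Ideal.Quotient.eq.2 ha
  have e2 := c P.θ
  rw [P.cθ, map_neg, ← e1] at e2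
  have e3 := c (cO a)
  rw [c a, show cO (cO a) = a from
    RingOfIntegers.ext (IsCMField.complexConj_apply_apply K (a : K))] at e3
  have e4 := congrArg (Ideal.Quotient.mk v.asIdeal) P.θt
  rw [map_mul, map_ofNat, ← e1] at e4
  generalize Ideal.Quotient.mk v.asIdeal a = A at e2 e3 e4
  have A0 : A ≠ 0 := fun e => t0 (by rw [← e4, e]; ring)
  have e5 : A ^ (8 * j) = -1 := mul_left_cancel₀ (pow_ne_zero 2 A0) (by linear_combination -e2)
  have e6 : (A ^ (4 * j + 1)) ^ (4 * j + 1) = A * (A ^ (8 * j) * ((A ^ (8 * j)) ^ 2) ^ j) := by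
    simp only [← pow_mul, ← pow_add, ← pow_succ']
    congr 1
    ring
  rw [e6, e5, neg_one_sq, one_pow] at e3
  exact mul_ne_zero t0 A0 (by linear_combination e3)

theorem s_pa_tw (P : FK K m) {Q : ℕ} (hQ : Pa m Q) {v : HeightOneSpectrum (𝓞 K)}
    (hv : (Q : 𝓞 K) ∈ v.asIdeal) {y : K} (h : Tw P y) : Even (ord v y) := by
  obtain ⟨g, g0, h⟩ := h
  rcases eq_or_ne y 0 with rfl | y0
  · simp only [ord, map_zero, WithZero.log_zero, neg_zero, Even.zero]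
  have c0 : cK g ≠ 0 := by simpa using g0
  have h1 := s_ns (v := v) (d₀ := P.θ) (by simp) (s_pa_tw_ns P hQ hv) h
  rw [sf_mul v y0 (mul_ne_zero g0 c0), sf_mul v g0 c0, s_pa_ord P hQ hv, Int.even_add] at h1
  exact h1.2 ⟨_, rfl⟩

theorem s_sp_ns (P : FK K m) {Q : ℕ} (hQ : Sp m Q) {v : HeightOneSpectrum (𝓞 K)}
    (hv : (Q : 𝓞 K) ∈ v.asIdeal) {d : ℤ} (hd : jacobiSym d Q = -1) (a : 𝓞 K) :
    a ^ 2 - (d : 𝓞 K) ∉ v.asIdeal := fun ha => by
  have := v.isPrime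
  have := Fact.mk hQ.1
  have h7 := (s_sp_gd P hQ).2
  have t0 : (2 : 𝓞 K ⧸ v.asIdeal) ≠ 0 := fun e =>
    s_ord_rat_two hQ.1 (by omega) hv (Ideal.Quotient.eq_zero_iff_mem.1 (by rw [map_ofNat, e]))
  have e0 := legendreSym.eq_pow Q d
  rw [jacobiSym.legendreSym.to_jacobiSym, hd] at e0
  have e1 : (Q : ℤ) ∣ d ^ (Q / 2) + 1 := (ZMod.intCast_zmod_eq_zero_iff_dvd _ _).1 (by
    push_cast at e0 ⊢
    rw [← e0, neg_add_cancel])
  have e2 : (Q : 𝓞 K) ∣ (d : 𝓞 K) ^ (Q / 2) + 1 := by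
    exact_mod_cast Int.cast_dvd_cast (α := 𝓞 K) _ _ e1
  have e3 := Ideal.Quotient.eq_zero_iff_mem.2 (Ideal.mem_of_dvd _ e2 hv)
  have e4 := Ideal.Quotient.eq.2 ha
  have e5 := Ideal.Quotient.eq.2 (Ideal.mem_of_dvd _ (P.spe Q hQ a) hv)
  rw [map_add, map_pow, map_one, ← e4, map_pow] at e3
  rw [map_pow] at e5
  generalize Ideal.Quotient.mk v.asIdeal a = A at e3 e5
  obtain ⟨j, rfl⟩ : ∃ j, Q = 2 * (j + 1) + 1 := ⟨Q / 2 - 1, by omega⟩
  rw [show (2 * (j + 1) + 1) / 2 = j + 1 by omega] at e3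
  have A0 : A ≠ 0 := fun e => by simp [e] at e3
  exact mul_ne_zero t0 A0 (by linear_combination A * e3 - e5)

theorem s_sp_even (P : FK K m) {Q : ℕ} (hQ : Sp m Q) {v : HeightOneSpectrum (𝓞 K)}
    (hv : (Q : 𝓞 K) ∈ v.asIdeal) {d : ℚ} (h0 : d ≠ 0) (h1 : ¬ Od Q d) (h2 : lg Q d = -1) {x : K}
    (hx : Nf (d : K) x) : Even (ord v x) := by
  obtain ⟨k, u, e, hu⟩ := Pool.Agent.Lib.HasseMinkowski.exists_decomp hQ.1 (iq_ne h0)
  rw [od_iq hQ.1 h0, e, Pool.Agent.Lib.HasseMinkowski.val_decomp hQ.1 k hu,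
    Nat.not_odd_iff_even] at h1
  rw [lg, e, Pool.Agent.Lib.HasseMinkowski.lam_decomp hQ.1 k hu] at h2
  obtain ⟨j, rfl⟩ := h1
  have Q0 : (Q : K) ^ j ≠ 0 := pow_ne_zero _ (Nat.cast_ne_zero.2 hQ.1.ne_zero)
  have d0 : (d.den : K) ≠ 0 := Nat.cast_ne_zero.2 d.den_nz
  have e1 : (d : K) * (d.den : K) ^ 2 = (Q : K) ^ (j + j) * u := by
    have e2 := iq_cast d
    rw [e] at e2
    exact_mod_cast congrArg (Rat.cast : ℚ → K) e2.symm
  have h3 := s_nf_cls (div_ne_zero d0 Q0) hx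
  rw [show (d : K) * (d.den / (Q : K) ^ j) ^ 2 = u by field_simp; linear_combination e1] at h3
  exact s_ns (d₀ := (u : 𝓞 K)) (by simp) (s_sp_ns P hQ hv h2) h3

/-! splitting and visibility -/

theorem s_gen_sp (P : FK K m) {π : 𝓞 K} (h : (nm π).natAbs.Prime) (h4 : (nm π).natAbs % 4 = 3) :
    Sp m (nm π).natAbs := by
  by_contra h1
  have h2 : Nat.card (𝓞 K ⧸ Ideal.span {π}) = (nm π).natAbs := Ideal.absNorm_span_singleton π
  generalize (nm π).natAbs = Q at *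
  have := Fact.mk h
  have : Finite (𝓞 K ⧸ Ideal.span {π}) := Nat.finite_of_card_ne_zero (h2 ▸ h.ne_zero)
  have := Fintype.ofFinite (𝓞 K ⧸ Ideal.span {π})
  let f : 𝓞 K →+* ZMod Q := (ZMod.ringEquivOfPrime _ h
    (Nat.card_eq_fintype_card.symm.trans h2)).symm.toRingHom.comp (Ideal.Quotient.mk _)
  obtain ⟨i, -, hi⟩ := P.fix Q h (by omega) (fun e => by
    have := e.of_dvd (pow_dvd_pow 2 (show 2 ≤ m by have := P.hm; omega))
    rw [Nat.ModEq] at this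
    omega) h1
  have h3 := map_dvd f (hi P.θ)
  rw [map_natCast, ZMod.natCast_self, zero_dvd_iff, map_sub, map_pow, ZMod.pow_card_pow, P.cθ,
    map_neg] at h3
  have h5 := congrArg f P.θt
  rw [map_mul, map_ofNat] at h5
  have h6 : ((4 : ℕ) : ZMod Q) = 0 := by
    push_cast
    linear_combination -f P.t * h3 - 2 * h5
  have h7 := (ZMod.natCast_eq_zero_iff _ _).1 h6
  have h8 := Nat.le_of_dvd (by norm_num) h7
  obtain rfl : Q = 3 := by omega
  omega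

theorem s_reps (P : FK K m) {A : Finset ℕ} (hA : 0 ∉ A) : ∃ Y : Finset (𝓞 K),
    (∀ F, A ⊆ F → ∀ y ∈ Y, Adq F y) ∧ ∀ π, Gen Y π → Spl K A (nm π).natAbs := by
  obtain ⟨Y, h1, h2⟩ := s_sel (k := K) hA
  refine ⟨Y, fun F hF y hy => ⟨(h1 y hy).1, (h1 y hy).2.1,
    fun v hv => (h1 y hy).2.2 v fun p hp => hv p (hF hp)⟩, fun π hπ => ?_⟩
  have h3 : (((nm π).natAbs : ℕ) : K) = (nm π : ℤ) := by
    rw [← Int.cast_natCast, Int.natAbs_of_nonneg (ta_nonneg P π)]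
  refine ⟨fun y hy => ?_, ?_⟩
  · have := P.gal
    have h4 := Algebra.norm_eq_prod_automorphisms ℚ (π : K)
    rw [← Algebra.coe_norm_int, map_intCast] at h4
    rw [h3, h4]
    refine Finset.prod_induction _ (Nf y) (fun _ _ => s_nf_mul)
      (by simpa using s_nf_sq y 1) fun σ _ => ?_
    have h5 := s_sel_map σ.symm.toRingEquiv hy
    obtain ⟨y₀, h6, w, h7, h8⟩ := h2 _ h5.1 h5.2
    have h9 := s_nf_map σ (s_nf_cls h7 (hπ.2.2 y₀ h6))
    rw [← h8] at h9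
    simpa using h9
  · obtain ⟨δ, hδ⟩ := P.half π
    refine ⟨δ, ?_⟩
    rw [h3]
    simpa using (congrArg (fun x : 𝓞 K => (x : K)) hδ).symm

theorem s_spl_mono {A B : Finset ℕ} (h : A ⊆ B) {Q : ℕ} (hQ : Spl K B Q) : Spl K A Q :=
  ⟨fun y hy => hQ.1 y ⟨fun v hv => hy.1 v fun p hp => hv p (h hp), hy.2⟩, hQ.2⟩

theorem s_vis (P : FK K m) {A : Finset ℕ} {Q : ℕ} (hQ : Sp m Q) (hs : Spl K A Q) {x : K}
    (hx : x * cK x = 1) (hy : Sel A (-(x + 1))) {v : HeightOneSpectrum (𝓞 K)}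
    (hv : (Q : 𝓞 K) ∈ v.asIdeal) : ord v x = 0 := by
  have h4 := ta_sp P hQ
  have h1 : ∀ z : K, z ≠ 0 → Sel A (-(z + 1)) → ord v z ≤ 0 := fun z z0 hz => by
    refine not_lt.1 fun h => ?_
    have h2 := s_ns (v := v) (d := -(z + 1)) (d₀ := ((-1 : ℤ) : 𝓞 K))
      (by simpa only [neg_add_rev, Int.reduceNeg, Int.cast_neg, Int.cast_one, map_neg, map_one, sub_neg_eq_add, neg_add_cancel_comm, Valuation.map_neg] using (s_ord_pos z0).1 h) (s_sp_ns P hQ hv (by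
        rw [jacobiSym.at_neg_one (Nat.odd_iff.2 (by omega)), ZMod.χ₄_nat_three_mod_four h4]))
      (hs.1 _ hz)
    rw [← Rat.cast_natCast, s_ord_rat P hQ.1 (by omega) hv, padicValRat.self hQ.1.one_lt] at h2
    exact absurd h2 (by decide)
  have h2 := h1 x (left_ne_zero_of_mul_eq_one hx) hy
  have h3 := h1 (cK x) (right_ne_zero_of_mul_eq_one hx)
    (by simpa using s_sel_map (IsCMField.complexConj K).toRingEquiv hy)
  have h5 := sf_mul v (left_ne_zero_of_mul_eq_one hx) (right_ne_zero_of_mul_eq_one hx)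
  rw [hx, show ord v (1 : K) = 0 by simp [ord]] at h5
  omega

theorem s_bas_mono {P : FK K m} {l : ℕ} {S S' : Set ℕ} (h : S ⊆ S') {x : K} (hx : Bas P l S x) :
    Bas P l S' x := by
  obtain ⟨h1, h2, h3, ⟨c, h4, h5⟩, h6⟩ := hx
  exact ⟨AS.mono h h1, h2, h3, ⟨c, AS.mono h h4, h5⟩, h6⟩

theorem s_bas_sel {P : FK K m} {l : ℕ} {S : Set ℕ} (h2 : 2 ∉ S) {x : K} (hx : Bas P l S x) :
    x + 1 ≠ 0 ∧ ∃ (w : K) (c : 𝓞 K), -(x + 1) * w ^ 2 = 1 + 8 * c := by
  obtain ⟨-, -, -, ⟨c, ⟨N, hN, h4⟩, h5⟩, -⟩ := hx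
  obtain ⟨j, hj⟩ := Int.eight_dvd_sq_sub_one_of_odd (k := (N : ℤ)) (by
    rw [Int.odd_coe_nat, ← Nat.not_even_iff_odd, even_iff_two_dvd]
    exact fun e => h2 (hN.2 2 Nat.prime_two e))
  have h6 : (N : K) ^ 2 - 1 = 8 * j := by exact_mod_cast congrArg (Int.cast : ℤ → K) hj
  have h7 := congrArg (algebraMap (𝓞 K) K) P.ss
  rw [map_pow, map_ofNat, ← RingOfIntegers.coe_eq_algebraMap] at h7
  obtain ⟨d, hd⟩ : ∃ d : 𝓞 K, (d : K) = N * c := ⟨⟨_, h4⟩, rfl⟩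
  have h8 : -(x + 1) * (P.u * N * P.s / 2) ^ 2 = 1 + 8 * ((j + N * d : 𝓞 K) : K) := by
    rw [RingOfIntegers.coe_eq_algebraMap (_ + _), map_add, map_mul, map_intCast, map_natCast,
      ← RingOfIntegers.coe_eq_algebraMap, hd]
    linear_combination (-(x + 1) * P.u ^ 2 * N ^ 2 / 4) * h7 + (N ^ 2 / 2 : K) * h5 + h6
  refine ⟨fun e => ?_, _, _, h8⟩
  rw [e, neg_zero, zero_mul] at h8
  have h9 : IsCoprime (0 : 𝓞 K) ((2 : ℕ) : 𝓞 K) := ⟨0, -4 * (j + N * d), by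
    apply RingOfIntegers.coe_injective
    rw [map_add, map_mul, map_mul, map_mul, map_neg, map_natCast, map_ofNat, map_zero, map_one]
    rw [RingOfIntegers.coe_eq_algebraMap] at h8
    rw [Nat.cast_ofNat]
    linear_combination h8⟩
  rw [ta_nm_cop] at h9
  simp at h9

theorem s_bas_desc {P : FK K m} {l : ℕ} {S F : Set ℕ} (h2 : 2 ∉ S) {x : K} (hx : Bas P l S x)
    (hF : x ∈ AS F K) : Bas P l F x := by
  obtain ⟨-, h1, h3, ⟨c, h4, h5⟩, h6⟩ := hx
  refine ⟨hF, h1, h3, ⟨c, s_desc (r := 16) (fun p hp hS e => h2 ?_) h4 ?_, h5⟩, h6⟩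
  · rwa [← (Nat.prime_dvd_prime_iff_eq hp Nat.prime_two).1
      (hp.dvd_of_dvd_pow (n := 4) (by exact_mod_cast e))]
  · rw [show ((16 : ℤ) : K) * c = -(x + 1) * (P.u : K) ^ 2 - (1 + 1) by
      push_cast; linear_combination -h5]
    exact sub_mem (mul_mem (neg_mem (add_mem hF (one_mem _))) (pow_mem (AS.coe _) _))
      (add_mem (one_mem _) (one_mem _))

/-! the formula is diophantine -/

omit [NumberField K] [IsCMField K] in
theorem s_phi_dio_sq {d x w : K} (hw : w ≠ 0) : Nf d (w ^ 2 * x) ↔ Nf d x := by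
  constructor
  · rintro ⟨a, b, h⟩
    refine ⟨a / w, b / w, ?_⟩
    field_simp
    linear_combination h
  · rintro ⟨a, b, h⟩
    exact ⟨w * a, w * b, by rw [h]; ring⟩

theorem s_phi_dio_ck (D : ℚ) (a : K) : cK ((D : K) * a) = D * cK a := by
  simp only [cK, map_mul, map_ratCast]

theorem s_phi_dio_kf {S : Set ℕ} {Γ : Type} [Ctx (RS S) Γ] {F : Γ → K} (hF : KF S F) :
    KF S fun g => cK (F g) := KF.hom (IsCMField.complexConj K) hF

omit [IsCMField K] in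
theorem s_phi_dio_nf {S : Set ℕ} (h0 : Dio (RS S) fun z : RS S => z ≠ 0) {Γ : Type}
    [Ctx (RS S) Γ] {F H : Γ → K} (hF : KF S F) (hH : KF S H) :
    Dio (RS S) fun g => Nf (F g) (H g) := by
  refine dk_two Nf ?_ hF hH
  refine dk_exK h0 (P := fun (z : AS S K × AS S K) a => ∃ b : K, (z.2 : K) = a ^ 2 - z.1 * b ^ 2)
    (P' := fun z a D => ∃ b : K, (z.2 : K) * (D : K) ^ 2 = a ^ 2 - z.1 * b ^ 2) ?_ ?_
  · intro z a D hD
    have h1 : (D : K) ≠ 0 := Rat.cast_ne_zero.2 hD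
    constructor
    · rintro ⟨b, h⟩
      refine ⟨b / D, ?_⟩
      field_simp
      linear_combination h
    · rintro ⟨b, h⟩
      exact ⟨D * b, by rw [h]; ring⟩
  · refine dk_exK h0 (P := fun (x : ((AS S K × AS S K) × AS S K) × RS S) b =>
      (x.1.1.2 : K) * ((x.2 : ℚ) : K) ^ 2 = (x.1.2 : K) ^ 2 - x.1.1.1 * b ^ 2)
      (P' := fun x b E => (x.1.1.2 : K) * ((x.2 : ℚ) : K) ^ 2 * (E : K) ^ 2 =
        (x.1.2 : K) ^ 2 * (E : K) ^ 2 - x.1.1.1 * b ^ 2) ?_ (dk_eq (by fun_prop) (by fun_prop))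
    intro x b E hE
    have h1 : ((E : K)) ^ 2 ≠ 0 := pow_ne_zero 2 (Rat.cast_ne_zero.2 hE)
    constructor
    · intro h
      apply mul_right_cancel₀ h1
      linear_combination h
    · intro h
      linear_combination (E : K) ^ 2 * h

theorem s_phi_dio_tw (P : FK K m) {S : Set ℕ} (h0 : Dio (RS S) fun z : RS S => z ≠ 0) {Γ : Type}
    [Ctx (RS S) Γ] {F : Γ → K} (hF : KF S F) : Dio (RS S) fun g => Tw P (F g) := by
  refine dk_one (Tw P) ?_ hF
  refine dk_exK h0 (P := fun (z : AS S K) g => g ≠ 0 ∧ Nf (P.θ : K) (z * (g * cK g)))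
    (P' := fun z g _ => g ≠ 0 ∧ Nf (P.θ : K) (z * (g * cK g))) ?_ ?_
  · intro z a D hD
    have h1 : (D : K) ≠ 0 := Rat.cast_ne_zero.2 hD
    have e : (z : K) * ((D : K) * a * cK ((D : K) * a)) = (D : K) ^ 2 * (z * (a * cK a)) := by
      rw [s_phi_dio_ck]; ring
    simp only [e, s_phi_dio_sq h1, ne_eq, mul_eq_zero, h1, false_or]
  · have h2 : KF S fun x : (AS S K × AS S K) × RS S => (x.1.2 : K) := by fun_prop
    exact .and (dk_ne h0 h2 (.const (zero_mem _))) (s_phi_dio_nf h0 (.const (AS.coe _))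
      (KF.mul (by fun_prop) (h2.mul (s_phi_dio_kf h2))))

theorem s_phi_dio_rn {S : Set ℕ} (h0 : Dio (RS S) fun z : RS S => z ≠ 0) {Γ : Type}
    [Ctx (RS S) Γ] {F : Γ → K} (hF : KF S F) :
    Dio (RS S) fun g => ∃ δ : K, F g = δ * cK δ := by
  refine dk_one (fun y => ∃ δ : K, y = δ * cK δ) ?_ hF
  refine dk_exK h0 (P := fun (z : AS S K) g => (z : K) = g * cK g)
    (P' := fun z g D => (z : K) * (D : K) ^ 2 = g * cK g) ?_ ?_
  · intro z a D hD
    have h1 : ((D : K)) ^ 2 ≠ 0 := pow_ne_zero 2 (Rat.cast_ne_zero.2 hD)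
    simp only [s_phi_dio_ck]
    constructor
    · intro h
      apply mul_right_cancel₀ h1
      linear_combination h
    · intro h
      linear_combination (D : K) ^ 2 * h
  · have h2 : KF S fun x : (AS S K × AS S K) × RS S => (x.1.2 : K) := by fun_prop
    exact dk_eq (by fun_prop) (h2.mul (s_phi_dio_kf h2))

omit [IsCMField K] in
theorem s_phi_dio_ev {S : Set ℕ} {Γ : Type} [Ctx (RS S) Γ] {F : Γ → K} (hF : KF S F) :
    Dio (RS S) fun g => Ev S (F g) := by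
  refine dk_one (Ev S) ?_ hF
  unfold Ev
  exact dk_ex (dk_ex (dk_ex (dk_ex (.and (dk_eq (by fun_prop) (by fun_prop))
    (dk_eq (by fun_prop) (.const (one_mem _)))))))

theorem s_phi_dio_bas (P : FK K m) (l : ℕ) {S : Set ℕ} (h0 : Dio (RS S) fun z : RS S => z ≠ 0)
    {Γ : Type} [Ctx (RS S) Γ] {F : Γ → K} (hF : KF S F) :
    Dio (RS S) fun g => Bas P l S (F g) := by
  refine dk_one (Bas P l S) ?_ hF
  have h1 : KF S fun x : AS S K => (x : K) := by fun_prop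
  have h2 : KF S fun x : AS S K => -((x : K) + 1) := (h1.add (.const (one_mem _))).neg
  have hu : (P.u : K) ∈ AS S K := AS.coe _
  have h3 : Dio (RS S) fun x : AS S K =>
      ∃ c ∈ AS S K, -((x : K) + 1) * (P.u : K) ^ 2 = 2 * (1 + 8 * c) := by
    refine dk_ex (dk_eq ((h2.comp PF.fst).mul (.const (pow_mem hu 2))) ?_)
    exact (KF.const (ofNat_mem _ 2)).mul ((KF.const (one_mem _)).add
      ((KF.const (ofNat_mem _ 8)).mul (by fun_prop)))
  refine ((dk_eq (h1.mul (s_phi_dio_kf h1)) (.const (one_mem _))).and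
    ((dk_ne h0 h1 (.const (one_mem _))).and (h3.and ((s_phi_dio_tw P h0 h2).and
      (s_phi_dio_nf h0 (.const (neg_mem (natCast_mem (AS S K) l))) h2))))).congr fun x => ?_
  exact ⟨fun h => h.2, fun h => ⟨x.2, h⟩⟩

theorem s_phi_dio_link (P : FK K m) (P' : Pell m K') (l : ℕ) {S : Set ℕ}
    (h0 : Dio (RS S) fun z : RS S => z ≠ 0) (s : ℕ) :
    Dio (RS S) fun z : AS S K × (Fin s → RS S) => Link P P' l S (z.1 : K) fun i => (z.2 i : ℚ) := by
  have h1 : KF S fun z : AS S K × (Fin s → RS S) => (z.1 : K) := by fun_prop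
  have h2 : KF S fun z : AS S K × (Fin s → RS S) => -((z.1 : K) + 1) :=
    (h1.add (.const (one_mem _))).neg
  have h3 : QF S fun z : (AS S K × (Fin s → RS S)) × RS S => (z.2 : ℚ) := by fun_prop
  unfold Link
  refine .and (s_phi_dio_bas P l h0 h1) (.and (s_phi_dio_ev h2) (dq_ex (.and (dq_un h3)
    (.and (dq_le (.const (zero_mem _)) h3) (.and (s_phi_dio_rn h0 (KF.rat h3))
    (.and (dq_nm h0 (.const (natCast_mem _ l)) h3.neg)
    (.and (s_phi_dio_nf h0 (h2.comp PF.fst) (KF.rat h3)) (.all fun i => ?_))))))))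
  have h4 : QF S fun z : (AS S K × (Fin s → RS S)) × RS S => (z.1.2 i : ℚ) := by fun_prop
  exact .and (dq_nm h0 h4.neg h3) (dq_one (P'.NV S) (P'.nv_dio h0) h4)

theorem s_phi_dio (P : FK K m) (P' : Pell m K') (l : ℕ) {S : Set ℕ}
    (h0 : Dio (RS S) fun z : RS S => z ≠ 0) (s : ℕ) :
    Dio (RS S) fun t : RS S => Phi P P' l S s t := by
  unfold Phi
  refine dq_ex (dq_exs (.and (P'.ph_dio h0 s) (dk_ex (.and ?_ (dk_dv (by fun_prop) ?_)))))
  · exact (s_phi_dio_link P P' l h0 s).comp (f := fun x : ((RS S × RS S) × (Fin s → RS S)) × AS S K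
      => (x.2, x.1.2)) (by fun_prop)
  · exact KF.sub (by fun_prop) (.const (one_mem _))

section Des

variable {P : FK K m} {P' : Pell m K'} {l s : ℕ}

theorem s_gd (D : Des P P' l s) {p : ℕ} (h : p ∈ D.S) : Gd m p := by
  rcases h with h | ⟨k, h⟩ | ⟨k, rfl⟩
  exacts [s_pa_gd P h.1, (s_sp_gd P (D.hA k p h).1).1, (s_sp_gd P (D.hT k).1).1]

theorem s_FS (D : Des P P' l s) (k : ℕ) : (D.F k : Set ℕ) ⊆ D.S := fun p hp => by
  rcases mem_union.1 (mem_coe.1 hp) with h | h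
  · exact .inr (.inl ⟨k, h⟩)
  · obtain ⟨j, -, rfl⟩ := mem_image.1 h
    exact .inr (.inr ⟨j, rfl⟩)

/-! soundness of the link -/

theorem s_l34 (P : FK K m) (hl' : 2 ^ m ∣ l + 1) : l % 4 = 3 := by
  have := ta_l8 P hl'
  omega

theorem s_lS (D : Des P P' l s) (hl' : 2 ^ m ∣ l + 1) : 2 ∉ D.S ∧ l ∉ D.S :=
  ⟨fun h => (s_gd D h).2.1 rfl, fun h => (s_gd D h).2.2.2 hl'⟩

theorem s_recip {p q : ℕ} (hp : p % 4 = 3) (hq : q % 4 = 3) :
    jacobiSym p q = -jacobiSym q p := jacobiSym.quadratic_reciprocity_three_mod_four hp hq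

theorem s_lgneg {p : ℕ} (hp : p.Prime) (h4 : p % 4 = 3) {z : ℚ} (hz : z ≠ 0) :
    lg p (-z) = -lg p z := by
  have h := lg_int hp (a := -1) (not_dvd_neg_one hp)
  rw [jacobiSym.at_neg_one (Nat.odd_iff.2 (by omega)), ZMod.χ₄_nat_three_mod_four h4] at h
  rw [← neg_one_mul, lg_mul hp (by norm_num) hz, show (-1 : ℚ) = ((-1 : ℤ) : ℚ) by norm_num, h]
  ring

theorem s_nm_symm {d z : ℚ} (h : Nm d z) : Nm z d := by
  obtain ⟨r, a, b, h0, e⟩ := h
  exact ⟨r, b, a, by tauto, by linarith⟩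

omit [IsCMField K] in
theorem s_sel_mono {A B : Finset ℕ} (h : A ⊆ B) {y : K} (hy : Sel A y) : Sel B y :=
  ⟨fun v hv => hy.1 v fun p hp => hv p (h hp), hy.2⟩

theorem s_marker (D : Des P P' l s) (hl : l.Prime) (hl' : 2 ^ m ∣ l + 1) {y : K} {j : ℕ}
    (hy : Sel (D.A j) y) {a : ℚ} (ha : a ∈ RS D.S) (hu : Un D.S a) (h0 : 0 ≤ a)
    (h1 : ∃ δ : K, (a : K) = δ * cK δ) (h2 : Nm l (-a)) (h3 : Nf y (a : K)) :
    ∃ k, Sel (D.A k) y ∧ Od (D.T k) a := by
  classical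
  obtain ⟨a0, a1⟩ := un_val ha hu
  have l4 := s_l34 P hl'
  have l0 : (l : ℚ) ≠ 0 := Nat.cast_ne_zero.2 hl.ne_zero
  have oT : ∀ p : ℕ, p.Prime → Od p a → ∃ k, p = D.T k := fun p hp ho => by
    have hS : p ∈ D.S := by_contra fun e => by
      rw [Od, a1 p hp e] at ho
      simp at ho
    rcases hS with ⟨h, -⟩ | ⟨k, h⟩ | h
    · obtain ⟨δ, e⟩ := h1
      obtain ⟨I, hI, hp'⟩ := Ideal.exists_le_maximal (Ideal.span {(p : 𝓞 K)}) fun e => by
        have h5 := ta_nm_cop.1 (show IsCoprime (p : 𝓞 K) (p : 𝓞 K) from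
          isCoprime_self.2 (Ideal.span_singleton_eq_top.1 e))
        rw [← Int.cast_natCast, nm_intCast, Int.natAbs_pow, Int.natAbs_natCast,
          Nat.coprime_pow_left_iff Module.finrank_pos, Nat.coprime_self] at h5
        exact hp.one_lt.ne' h5
      have hv : (p : 𝓞 K) ∈ I := hp' (Ideal.mem_span_singleton_self _)
      have d0 : δ ≠ 0 := fun z => a0 (by simpa [z] using e)
      let v : HeightOneSpectrum (𝓞 K) := ⟨I, hI.isPrime, fun z => hp.ne_zero (by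
        simpa only [z, Submodule.mem_bot, Nat.cast_eq_zero] using hv)⟩
      have h4 := s_ord_rat P hp h.2.1 (v := v) hv a
      rw [e, sf_mul v d0 (by simpa using d0), s_pa_ord P h hv] at h4
      rw [Od, ← h4, Int.odd_iff] at ho
      omega
    · obtain ⟨h4, h5⟩ := D.hA k p h
      have p8 := (s_sp_gd P h4).2
      have pl : p ≠ l := fun e => ta_lsp P hl' (e ▸ h4)
      have h6 := nm_lg h2 l0 (neg_ne_zero.2 a0) hp (by omega) (od_neg.2 ho)
        fun e => pl (lk_od hp hl e)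
      rw [← Int.cast_natCast, lg_int hp (not_dvd_prime hp hl pl), s_recip l4 (by omega), h5] at h6
      omega
    · exact h
  have la : lg l a = -1 := by
    have h4 := nm_lg (s_nm_symm h2) (neg_ne_zero.2 a0) l0 hl (by omega) (by
      have := Fact.mk hl
      rw [Od, padicValRat.self hl.one_lt]
      exact odd_one) (by
      rw [od_neg, Od, a1 l hl (s_lS D hl').2]
      simp)
    rw [s_lgneg hl l4 a0] at h4
    omega
  have lT : ∀ k, lam l (D.T k) = -1 := fun k => by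
    rw [lam_unit hl (not_dvd_prime hl (D.hT k).1.1 fun e => ta_lsp P hl' (e ▸ (D.hT k).1))]
    exact (D.hT k).2
  by_contra hn
  have ex : ∃ j, Sel (D.A j) y := ⟨j, hy⟩
  have lt : ∀ k, Od (D.T k) a → k < Nat.find ex := fun k hk => not_le.1 fun e =>
    hn ⟨k, s_sel_mono (D.mono e) (Nat.find_spec ex), hk⟩
  rcases h : Nat.find ex with _ | i
  · have h4 : lg l a = 1 := mul_ind _ (lam_mul hl) (lam_sq hl) a0 (fun e => absurd h0 e.not_ge)
      fun p hp ho => by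
        obtain ⟨k, rfl⟩ := oT p hp ho
        have := lt k ho
        omega
    omega
  have h4 := Nat.find_spec ex
  have h5 := Nat.find_min ex (m := i) (by omega)
  rw [h] at h4
  obtain ⟨v, hv, ho⟩ : ∃ v : HeightOneSpectrum (𝓞 K), (∀ p ∈ D.A i, (p : 𝓞 K) ∉ v.asIdeal) ∧
      ¬ Even (ord v y) := by
    by_contra e
    push Not at e
    exact h5 ⟨e, h4.2⟩
  obtain ⟨Q, hQ, hQv⟩ : ∃ Q ∈ D.A (i + 1), (Q : 𝓞 K) ∈ v.asIdeal := by
    by_contra e
    push Not at e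
    exact ho (h4.1 v e)
  obtain ⟨q1, q2⟩ := D.hA _ Q hQ
  have q3 := (D.new i Q hQ fun e => hv Q e hQv).2
  have q8 := (s_sp_gd P q1).2
  have qT : ∀ k, Q ≠ D.T k := fun k e => by
    have := (D.hT k).2
    rw [← e] at this
    omega
  have qa : lg Q a = 1 := (lg_pm q1.1 a0).resolve_right fun e => ho (s_sp_even P q1 hQv a0
    (fun e' => (oT Q q1.1 e').elim qT) e (s_nf_symm (Rat.cast_ne_zero.2 a0) h3))
  have h6 := mul_ind (fun n => lam Q n * lam l n)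
    (fun b c hb hc => by rw [lam_mul q1.1 b c hb hc, lam_mul hl b c hb hc]; ring)
    (fun b hb => by rw [mul_mul_mul_comm, lam_sq q1.1 b hb, lam_sq hl b hb, one_mul]) a0
    (fun e => absurd h0 e.not_ge) fun p hp ho => by
      obtain ⟨k, rfl⟩ := oT p hp ho
      have := lt k ho
      have t8 := (s_sp_gd P (D.hT k).1).2
      rw [lT, lam_unit q1.1 (not_dvd_prime q1.1 hp (qT k)), s_recip (by omega) (by omega),
        q3 k (by omega)]
      rfl
  rw [show lam Q (iq a) = 1 from qa, show lam l (iq a) = -1 from la] at h6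
  omega

theorem s_spl_out (D : Des P P' l s) (k : ℕ) {Q : ℕ} (hQ : (∃ j, Q ∈ D.A j) ∨ ∃ j, Q = D.T j)
    (hF : Q ∉ D.F k) : Sp m Q ∧ Spl K (D.A k) Q := by
  rcases hQ with ⟨j, hj⟩ | ⟨j, rfl⟩
  · refine ⟨(D.hA j Q hj).1, ?_⟩
    induction j with
    | zero => exact absurd (mem_union_left _ (D.mono (Nat.zero_le k) hj)) hF
    | succ j ih =>
      by_cases h : Q ∈ D.A j
      · exact ih h
      · exact s_spl_mono (D.mono (not_lt.1 fun e => hF (mem_union_left _ (D.mono e hj))))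
          (D.new j Q hj h).1
  · exact ⟨(D.hT j).1, s_spl_mono (D.mono (not_lt.1 fun e => hF (mem_union_right _
      (mem_image_of_mem _ (mem_range.2 e))))) (D.spl j)⟩

theorem s_link_sound (D : Des P P' l s) (hl : l.Prime) (hl' : 2 ^ m ∣ l + 1) {x : K}
    {w : Fin s → ℚ} (hw : ∀ i, w i ∈ RS D.S) (h : Link P P' l D.S x w) :
    ∃ k, Sol P l (D.A k) (D.F k) x ∧
      ∀ i, ∃ q : ℕ, q.Prime ∧ q ∉ D.S ∧ D.Z k < q ∧ 0 < padicValRat q (w i) := by
  obtain ⟨hb, he, a, ha, hu, h0, h1, h2, h3, h4⟩ := h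
  have S2 := (s_lS D hl').1
  have hS : ∀ p ∈ D.S, p.Prime := fun p hp => (s_gd D hp).1
  have l4 := s_l34 P hl'
  obtain ⟨j, hj⟩ := s_level D.mono (fun j p hp => (D.hA j p hp).1.1) (y := -(x + 1)) fun v hv => by
    by_cases e : ∀ p ∈ D.S, (p : 𝓞 K) ∉ v.asIdeal
    · exact s_ev_sound hS (neg_mem (add_mem hb.1 (one_mem _))) he v e
    push Not at e
    obtain ⟨p, ⟨h, -⟩ | ⟨j, h⟩ | ⟨j, rfl⟩, hp⟩ := e
    · exact s_pa_tw P h hp hb.2.2.2.2.1
    · exact absurd hp (hv j p h)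
    obtain ⟨t1, t2⟩ := D.hT j
    have t8 := (s_sp_gd P t1).2
    have tl : D.T j ≠ l := fun e => ta_lsp P hl' (e ▸ t1)
    have l0 : (l : ℚ) ≠ 0 := Nat.cast_ne_zero.2 hl.ne_zero
    refine s_sp_even P t1 hp (neg_ne_zero.2 l0) (fun e => tl (lk_od t1.1 hl (od_neg.1 e))) ?_
      (by simpa using hb.2.2.2.2.2)
    rw [s_lgneg t1.1 (by omega) l0, ← Int.cast_natCast, lg_int t1.1 (not_dvd_prime t1.1 hl tl),
      s_recip l4 (by omega), t2]
    rfl
  obtain ⟨k, k1, k2⟩ := s_marker D hl hl' ⟨hj, (s_bas_sel S2 hb).2⟩ ha hu h0 h1 h2 h3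
  have x0 := left_ne_zero_of_mul_eq_one hb.2.1
  refine ⟨k, ⟨s_bas_desc S2 hb ((s_mem fun p hp => hS p (s_FS D k hp)).2 fun v hv => ?_),
    fun v hv => s_ord_neg v (x + 1) ▸ k1.1 v hv⟩, fun i => ?_⟩
  · by_cases e : ∀ p ∈ D.S, (p : 𝓞 K) ∉ v.asIdeal
    · exact (s_mem hS).1 hb.1 v e
    push Not at e
    obtain ⟨p, ⟨h, -⟩ | h, hp⟩ := e
    · have h5 := sf_mul v x0 (right_ne_zero_of_mul_eq_one hb.2.1)
      rw [hb.2.1, s_pa_ord P h hp, show ord v (1 : K) = 0 by simp [ord]] at h5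
      omega
    · obtain ⟨h5, h6⟩ := s_spl_out D k h fun e => hv p e hp
      exact (s_vis P h5 h6 hb.2.1 k1 hp).ge
  obtain ⟨t1, -⟩ := D.hT k
  obtain ⟨tg, t8⟩ := s_sp_gd P t1
  obtain ⟨w0, w1⟩ := P'.nv_sound (h4 i).2
  have h5 := nm_lg (h4 i).1 (neg_ne_zero.2 w0.ne') (un_val ha hu).1 t1.1 tg.2.1 k2
    fun e => w1 _ (od_neg.1 e) tg
  rw [s_lgneg t1.1 (by omega) w0.ne'] at h5
  by_contra hn
  have h6 : lg (D.T k) (w i) = 1 := mul_ind _ (lam_mul t1.1) (lam_sq t1.1) w0.ne'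
    (fun e => absurd w0 e.not_gt) fun q hq ho => by
      have g := w1 q ho
      rw [lam_unit t1.1 (not_dvd_prime t1.1 hq fun e => g (e ▸ tg))]
      rcases eq_or_ne q 2 with rfl | q2
      · rw [Nat.cast_ofNat, jacobiSym.at_two (Nat.odd_iff.2 (by omega)),
          ZMod.χ₈_nat_eq_if_mod_eight, if_neg (by omega), if_pos (by omega)]
      have qS : q ∉ D.S := fun e => g (s_gd D e)
      refine D.sym k q hq (by_contra fun e => g ⟨hq, q2, fun e' => e (.inl e'),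
        fun e' => e (.inr e')⟩) (not_lt.1 fun e => hn ⟨q, hq, qS, e, ?_⟩)
      have := mem_RS.1 (hw i) q hq qS
      rw [Od, Int.odd_iff] at ho
      omega
  omega

/-! completeness of the link -/

theorem s_link_complete_nd {p n : ℕ} (hp : p.Prime) (hn : n.Prime) (h : p ≠ n) :
    ¬ (p : ℤ) ∣ (n : ℤ) := fun e =>
  h ((Nat.prime_dvd_prime_iff_eq hp hn).1 (Int.natCast_dvd_natCast.1 e))

theorem s_link_complete_neg {p : ℕ} (h : p % 4 = 3) (a : ℤ) :
    jacobiSym (-a) p = -jacobiSym a p := by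
  rw [jacobiSym.neg a (Nat.odd_iff.2 (by omega)), ZMod.χ₄_nat_three_mod_four h, neg_one_mul]

theorem s_link_complete_nm {p n : ℕ} (hp : p.Prime) (hn : n.Prime) (h : p ≠ n) (hp4 : p % 4 = 3)
    (hn4 : n % 4 = 3) (hj : jacobiSym p n = 1) : Nm p (-n) ∧ Nm (-n) p := by
  have p0 : (0 : ℚ) < p := by exact_mod_cast hp.pos
  have n0 : (0 : ℚ) < n := by exact_mod_cast hn.pos
  have e1 : lg n p = 1 := by
    have := lg_int hn (s_link_complete_nd hn hp h.symm)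
    rw [Int.cast_natCast] at this
    rw [this, hj]
  have e2 : lg p (-n) = 1 := by
    have := lg_int hp (a := -n) fun e => s_link_complete_nd hp hn h (dvd_neg.1 e)
    rw [Int.cast_neg, Int.cast_natCast] at this
    rw [this, s_link_complete_neg hp4, jacobiSym.quadratic_reciprocity_three_mod_four hn4 hp4, hj]
    rfl
  constructor
  · refine nm_of p0.ne' (neg_ne_zero.2 n0.ne') (.inl p0) (fun r hr _ ho => ?_) fun r hr _ ho => ?_
    · obtain rfl := lk_od hr hn (od_neg.1 ho)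
      exact ⟨fun e => h (lk_od hr hp e).symm, e1⟩
    · obtain rfl := lk_od hr hp ho
      exact e2
  · refine nm_of (neg_ne_zero.2 n0.ne') p0.ne' (.inr p0) (fun r hr _ ho => ?_) fun r hr _ ho => ?_
    · obtain rfl := lk_od hr hp ho
      exact ⟨fun e => h (lk_od hr hn (od_neg.1 e)), e2⟩
    · obtain rfl := lk_od hr hn (od_neg.1 ho)
      exact e1

theorem s_link_complete_four (P : FK K m) {n : ℕ} (h : 2 ^ m ∣ n + 1) : n % 4 = 3 := by
  have h1 : 2 ^ 2 ∣ n + 1 := (pow_dvd_pow 2 (by have := P.hm; omega)).trans h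
  omega

theorem s_link_complete (D : Des P P' l s) (hl : l.Prime) (hl' : 2 ^ m ∣ l + 1) {k : ℕ} {x : K}
    (hx : Sol P l (D.A k) (D.F k) x) {q : Fin s → ℕ} (hq : ∀ i, (q i).Prime ∧ 2 ^ m ∣ q i + 1 ∧
      D.T k ≡ 1 [MOD q i] ∧ ∃ y : 𝓞 K', (nm y).natAbs = q i) :
    Link P P' l D.S x fun i => (q i : ℚ) := by
  have hb : Bas P l D.S x := s_bas_mono (s_FS D k) hx.1
  have h2 : 2 ∉ D.S := fun h => (s_gd D h).2.1 rfl
  have hS : ∀ p ∈ D.S, p.Prime := fun p hp => (s_gd D hp).1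
  obtain ⟨h0, hw⟩ := s_bas_sel h2 hb
  obtain ⟨hT, hj⟩ := D.hT k
  have hT4 : D.T k % 4 = 3 := by
    have := (s_sp_gd P hT).2
    omega
  have hl4 := s_link_complete_four P hl'
  have hne : ∀ n, 2 ^ m ∣ n + 1 → D.T k ≠ n := fun n hn e => ta_lsp P hn (e ▸ hT)
  have hsel : Sel (D.A k) (-(x + 1)) := ⟨fun v hv => by rw [s_ord_neg]; exact hx.2 v hv, hw⟩
  obtain ⟨ha, hu⟩ := un_of_val (S := D.S) (z := (D.T k : ℚ)) (by exact_mod_cast hT.1.ne_zero)
    fun p hp hpS => by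
      have : ¬ p ∣ D.T k := fun e =>
        hpS (.inr (.inr ⟨k, (Nat.prime_dvd_prime_iff_eq hp hT.1).1 e⟩))
      rw [padicValRat.of_nat, padicValNat.eq_zero_of_not_dvd this, Nat.cast_zero]
  refine ⟨hb, s_ev_complete hS (neg_mem (add_mem hb.1 (one_mem _))) (neg_ne_zero.2 h0)
    fun v hv => hsel.1 v fun p hp => hv p (.inr (.inl ⟨k, hp⟩)), D.T k, ha, hu, Nat.cast_nonneg _,
    ?_, ?_, ?_, fun i => ?_⟩
  · rw [Rat.cast_natCast]
    exact (D.spl k).2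
  · refine (s_link_complete_nm hl hT.1 (hne l hl').symm hl4 hT4 ?_).1
    rw [jacobiSym.quadratic_reciprocity_three_mod_four hl4 hT4, hj]
    rfl
  · rw [Rat.cast_natCast]
    exact (D.spl k).1 _ hsel
  · obtain ⟨h1, h3, h4, y, hy⟩ := hq i
    refine ⟨(s_link_complete_nm hT.1 h1 (hne _ h3) hT4 (s_link_complete_four P h3) ?_).2,
      P'.nv_complete D.S y.isIntegral_coe h1.ne_zero ?_⟩
    · rw [jacobiSym.mod_left' (a₂ := 1) (by exact_mod_cast h4), jacobiSym.one_left]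
    · rw [← Algebra.coe_norm_int, ← hy, Nat.cast_natAbs, Int.cast_abs]

end Des

end Pool.Agent.MP_a59382_lc.V3

end

-- part MP_a59382_lc.V3.LemQ
section

/-! Many primes `q` that are norms, with all `q - 1` dividing a small number. -/

set_option autoImplicit false

namespace Pool.Agent.MP_a59382_lc.V3

open Finset NumberField Filter Pool.Agent.MP_48b1c3_nt.H91

theorem q_pig (P Ω : Finset ℕ) (a : ℕ → ℝ) {G : ℝ} {L s : ℕ} (ha : ∀ n ∈ Ω, a n ≤ G)
    (hG : 0 ≤ G) (h : ∀ r ∈ P, ∀ n ∈ Ω, a n ≠ 0 → r ∣ n - 1 →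
      ∃ k < L, Odd k ∧ 0 < r ∧ n - 1 = 2 * r * k)
    (hs : G * (L * s : ℕ) < ∑ r ∈ P, ∑ n ∈ Ω.filter fun n => r ∣ n - 1, a n) :
    ∃ k < L, Odd k ∧ ∃ r q : Fin s → ℕ, Function.Injective q ∧
      ∀ i, r i ∈ P ∧ q i ∈ Ω ∧ a (q i) ≠ 0 ∧ q i - 1 = 2 * r i * k := by
  classical
  obtain ⟨T, hT⟩ : ∃ T : Finset (ℕ × ℕ),
      T = (P ×ˢ Ω).filter fun p => p.1 ∣ p.2 - 1 ∧ a p.2 ≠ 0 := ⟨_, rfl⟩
  have m : ∀ p ∈ T, p.1 ∈ P ∧ p.2 ∈ Ω ∧ a p.2 ≠ 0 ∧ (p.2 - 1) / (2 * p.1) < L ∧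
      Odd ((p.2 - 1) / (2 * p.1)) ∧ p.2 - 1 = 2 * p.1 * ((p.2 - 1) / (2 * p.1)) := fun p hp => by
    rw [hT, mem_filter, mem_product] at hp
    obtain ⟨k, k1, k2, k3, k4⟩ := h _ hp.1.1 _ hp.1.2 hp.2.2 hp.2.1
    rw [k4, Nat.mul_div_cancel_left _ (by omega)]
    exact ⟨hp.1.1, hp.1.2, hp.2.2, k1, k2, rfl⟩
  have e : ∑ r ∈ P, ∑ n ∈ Ω.filter (fun n => r ∣ n - 1), a n = ∑ p ∈ T, a p.2 := by
    rw [hT, ← filter_filter, sum_filter_ne_zero, sum_filter, sum_product]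
    simp only [sum_filter]
  have c : L * s < #T := by
    have h1 := sum_le_card_nsmul T (fun p => a p.2) G fun p hp => ha _ (m p hp).2.1
    rw [← e, nsmul_eq_mul, mul_comm] at h1
    exact_mod_cast lt_of_mul_lt_mul_left (hs.trans_le h1) hG
  obtain ⟨k, k1, k2⟩ := exists_lt_card_fiber_of_mul_lt_card_of_maps_to (s := T) (t := range L)
    (f := fun p => (p.2 - 1) / (2 * p.1)) (n := s) (fun p hp => mem_range.2 (m p hp).2.2.2.1)
    (by rwa [card_range])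
  obtain ⟨p0, hp0⟩ := card_pos.1 ((Nat.zero_le s).trans_lt k2)
  have ko : Odd k := (mem_filter.1 hp0).2 ▸ (m p0 (mem_filter.1 hp0).1).2.2.2.2.1
  obtain ⟨g⟩ := Function.Embedding.nonempty_of_card_le (α := Fin s)
    (β := T.filter fun p => (p.2 - 1) / (2 * p.1) = k)
    (by rw [Fintype.card_fin, Fintype.card_coe]; exact k2.le)
  have m' : ∀ i, (g i).1.1 ∈ P ∧ (g i).1.2 ∈ Ω ∧ a (g i).1.2 ≠ 0 ∧
      (g i).1.2 - 1 = 2 * (g i).1.1 * k := fun i => by
    obtain ⟨h1, h2⟩ := mem_filter.1 (g i).2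
    obtain ⟨a1, a2, a3, -, -, a4⟩ := m _ h1
    exact ⟨a1, a2, a3, by rwa [h2] at a4⟩
  refine ⟨k, mem_range.1 k1, ko, fun i => (g i).1.1, fun i => (g i).1.2, fun i j hij => ?_, m'⟩
  refine g.injective (Subtype.ext (Prod.ext ?_ hij))
  have h1 := (m' i).2.2.2
  have h2 := (m' j).2.2.2
  dsimp only at hij
  rw [hij, h2] at h1
  have := Nat.eq_of_mul_eq_mul_right ko.pos h1
  omega

theorem q_primes (C : ℝ) : ∀ᶠ T : ℕ in atTop,
    C * T ^ 3 ≤ #((Ioc (T ^ 2) (T ^ 4)).filter Nat.Prime) := by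
  filter_upwards [MP_a96b63_al.H5.ev_log 1 (c := 18 + 8 * |C|) one_pos,
    MP_a96b63_al.H5.ev_log_ge 1, eventually_ge_atTop 1] with T h1 h2 h3
  have T1 : (1 : ℝ) ≤ T := by exact_mod_cast h3
  rw [pow_one, Real.rpow_one] at h1
  have h4 := Chebyshev.pi_ge (T ^ 4)
  have h5 : Nat.primeCounting (T ^ 4) ≤ #((Ioc (T ^ 2) (T ^ 4)).filter Nat.Prime) + T ^ 2 := by
    rw [Nat.primeCounting, Nat.primeCounting', Nat.count_eq_card_filter_range]
    refine (card_le_card (t := (Ioc (T ^ 2) (T ^ 4)).filter Nat.Prime ∪ Ioc 0 (T ^ 2))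
      fun p hp => ?_).trans ((card_union_le _ _).trans (by rw [Nat.card_Ioc, Nat.sub_zero]))
    obtain ⟨a, b⟩ := mem_filter.1 hp
    have := mem_range.1 a
    have := b.pos
    simp only [mem_union, mem_filter, mem_Ioc, b, and_true]
    omega
  have h6 : Real.log (T ^ 4 + 1) ≤ 1 + 4 * Real.log T := by
    have : (1 : ℝ) ≤ T ^ 4 := one_le_pow₀ T1
    refine (Real.log_le_log (by positivity) (by linarith only [this] : _ ≤ 2 * (T : ℝ) ^ 4)).trans ?_
    rw [Real.log_mul two_ne_zero (by positivity), Real.log_pow]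
    push_cast
    linarith only [Real.log_two_lt_d9]
  have h7 : (Nat.primeCounting (T ^ 4) : ℝ) ≤
    #((Ioc (T ^ 2) (T ^ 4)).filter Nat.Prime) + T ^ 2 := by exact_mod_cast h5
  rw [Nat.cast_pow, Real.log_pow, div_le_iff₀ (by positivity)] at h4
  generalize (#((Ioc (T ^ 2) (T ^ 4)).filter Nat.Prime) : ℝ) = N at *
  generalize Real.log T = L at *
  refine le_of_mul_le_mul_right ?_ (by positivity : 0 < 4 * L)
  have h8 : (T : ℝ) ^ 2 ≤ T ^ 3 := pow_le_pow_right₀ T1 (by norm_num)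
  have h9 : (1 : ℝ) ≤ T ^ 3 := one_le_pow₀ T1
  have a1 := mul_le_mul_of_nonneg_right h7 (by positivity : 0 ≤ 4 * L)
  have a2 := mul_le_mul_of_nonneg_right h1 (by positivity : 0 ≤ (T : ℝ) ^ 3)
  have a3 := mul_le_mul_of_nonneg_right (le_abs_self C) (by positivity : 0 ≤ (T : ℝ) ^ 3 * L)
  have a4 := mul_le_mul_of_nonneg_right h8 (by positivity : 0 ≤ L)
  have a5 := mul_le_mul_of_nonneg_right h9 (by positivity : 0 ≤ L)
  have a6 := mul_le_mul_of_nonneg_left (by linarith only [Real.log_two_gt_d9] : 1 / 2 ≤ Real.log 2)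
    (by positivity : 0 ≤ (T : ℝ) ^ 4)
  push_cast at h4
  linarith

variable {K : Type} [Field K] [NumberField K]

theorem q_norm {M : ℕ} {β : 𝓞 K} {I : Ideal (𝓞 K)} (h : Ray M I (Ideal.span {β})) :
    ∃ y : 𝓞 K, (nm y).natAbs = Ideal.absNorm I := by
  obtain ⟨α, γ, -, -, h3, h4⟩ := h
  rw [Ideal.span_singleton_mul_span_singleton] at h4
  obtain ⟨y, hy⟩ : γ ∣ α * β := Ideal.span_singleton_le_span_singleton.1 (h4 ▸ Ideal.mul_le_left)
  rw [hy, ← Ideal.span_singleton_mul_span_singleton] at h4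
  refine ⟨y, ?_⟩
  rw [← mul_left_cancel₀ (mt Ideal.span_singleton_eq_bot.1 (ne_of_nm h3).2) h4,
    Ideal.absNorm_span_singleton]

open scoped Classical in
/-- the weight of the primes that are norms from a ray class -/
noncomputable def q_w (M : ℕ) (J : Ideal (𝓞 K)) (n : ℕ) : ℝ :=
  if n.Prime then Real.log n * #((idN K n).filter fun I => Ray M I J) else 0

theorem q_cls {M : ℕ} (hM : 0 < M) (hD : DD K ∣ M) (hB : BB K ∣ M) {J : Ideal (𝓞 K)}
    (h0 : J ≠ ⊥) (hJ : Cop M J) : ∃ h : ℝ, 1 ≤ h ∧ ∀ᶠ x : ℕ in atTop, ∀ r : ℕ, r.Prime →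
      M * Ideal.absNorm J < r → (M * r : ℝ) ≤ Real.log x ^ 5 → ∀ y ≤ x,
        ((x : ℝ) - y) / (h * r) - 2 * (x / Real.log x ^ 5) ≤
          ∑ n ∈ (Ioc y x).filter fun n => r ∣ n - 1, q_w M J n := by
  classical
  obtain ⟨ι, _, ξ, h1, h2, ⟨i0, h3⟩, h4⟩ := ray_fam (K := K) hM
  have c1 : (1 : ℝ) ≤ Fintype.card ι := Nat.one_le_cast.2 (Fintype.card_pos_iff.2 ⟨i0⟩)
  refine ⟨_, c1, ?_⟩
  filter_upwards [Gx.swH K 5 5, MP_a96b63_al.H5.ev_log_ge 1] with x hx L1 r hr r1 r2 y hy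
  have : NeZero r := ⟨hr.ne_zero⟩
  have J0 : 0 < Ideal.absNorm J := Nat.pos_of_ne_zero (mt Ideal.absNorm_eq_zero_iff.1 h0)
  have r3 : ∀ d, d ∣ M * Ideal.absNorm J → ¬ r ∣ d := fun d a b =>
    (Nat.le_of_dvd (mul_pos hM J0) (b.trans a)).not_gt r1
  obtain ⟨t, -, ht⟩ := Nat.exists_mul_mod_eq_one_of_coprime
    (hr.coprime_iff_not_dvd.2 (r3 _ (dvd_mul_left _ _))).symm hr.one_lt
  have ht' : Ideal.absNorm J * t ≡ 1 [MOD r] := by
    rw [Nat.ModEq, ht, Nat.mod_eq_of_lt hr.one_lt]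
  obtain ⟨I, i1, i2, i3, i4⟩ := dir_key (K := K) (t := t) hr (r3 _ (hD.mul_right _)) hM
    (r3 _ (dvd_mul_right _ _)) fun h => hr.one_lt.ne' (Nat.eq_one_of_dvd_coprimes (dir_cop ht')
      (h.mul_left _) dvd_rfl)
  have i5 : Ideal.absNorm (J * I) ≡ 1 [MOD r] := by
    rw [map_mul]
    exact (i3.mul_left _).trans ht'
  have i6 : Cop (M * r) (J * I) := cop_iff.2 ((cop_iff.1 (cop_mul.2 ⟨hJ,
    cop_iff.2 (dir_cop i2)⟩)).mul_right (dir_cop i5))
  obtain ⟨E, hE⟩ : ∃ E, E = x / Real.log x ^ 5 := ⟨_, rfl⟩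
  rw [← hE] at hx ⊢
  have y0 : (0 : ℝ) ≤ x - y := sub_nonneg.2 (Nat.cast_le.2 hy)
  have e2 : ∀ p : ι × DirichletCharacter ℂ r,
      (if Gx.NP (M * r) (ξ p.1 * dir K p.2) then 0 else (x : ℝ) - y) - 2 * E ≤
        ((ξ p.1 J)⁻¹ * ∑ n ∈ Ioc y x, Gx.pushP (ξ p.1 * dir K p.2) n).re := fun ⟨i, χ⟩ => by
    have hF : HC (M * r) (ξ i * dir K χ) := (h1 i).mul' (hc_dir hr.pos χ)
    have key := hx _ 0 0 _ (Gx.gc_of_hc hF) (fun h => ⟨hF, fun I hI => by
        by_cases g : (ξ i * dir K χ) I = 0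
        · rw [g, Complex.zero_im]
        rcases mul_self_eq_one_iff.1 (not_not.1 fun g' => h ⟨I, hI, hF.cop I g, g'⟩) with e | e <;>
          simp [e]⟩) (hB.mul_right r) (by rwa [Nat.cast_mul])
      (fun φ => by simpa only [Pi.zero_apply, abs_zero, Int.cast_zero, and_self] using by positivity)
    have k2 := (norm_sub_le _ _).trans ((add_le_add (key x le_rfl) (key y hy)).trans
      (two_mul E).ge)
    have e0 : ∀ j, Icc 1 j = Ioc 0 j := fun j => rfl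
    rw [e0, e0, ← sum_Ioc_consecutive _ (Nat.zero_le y) hy, sub_sub_sub_comm,
      add_sub_cancel_left] at k2
    dsimp only
    split_ifs at k2 ⊢ with hn
    · rw [sub_zero, sub_zero, ← one_mul ‖_‖, ← inv_one, ← h2 i _ h0 hJ, ← norm_inv,
        ← norm_mul] at k2
      linarith only [(abs_le.1 ((Complex.abs_re_le_norm _).trans k2)).1]
    · have a1 : (ξ i * dir K χ) (J * I) = 1 :=
        not_not.1 fun g => hn ⟨_, mul_ne_zero h0 i1, i6, g⟩
      rw [Pi.mul_apply, (h1 i).mul, i4 _ _ (h1 i) dvd_rfl, dir, dir_one χ i5, mul_one,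
        mul_one] at a1
      rw [a1, inv_one, one_mul]
      have h5 := (abs_le.1 ((Complex.abs_re_le_norm _).trans k2)).1
      rw [Complex.sub_re, Complex.sub_re, Complex.natCast_re, Complex.natCast_re] at h5
      linarith only [h5]
  have e1 : ∑ p : ι × DirichletCharacter ℂ r,
      (ξ p.1 J)⁻¹ * ∑ n ∈ Ioc y x, Gx.pushP (ξ p.1 * dir K p.2) n =
        ((Fintype.card ι * r.totient *
          ∑ n ∈ (Ioc y x).filter fun n => r ∣ n - 1, q_w M J n : ℝ) : ℂ) := by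
    simp only [mul_sum]
    rw [sum_comm, sum_filter, Complex.ofReal_sum]
    refine sum_congr rfl fun n hn => ?_
    have n1 : 1 ≤ n := by have := (mem_Ioc.1 hn).1; omega
    by_cases hp : n.Prime
    swap
    · simp only [Gx.pushP, hp, ↓ reduceIte, mul_zero, sum_const_zero, q_w, ite_self, Complex.ofReal_zero]
    have e : ∀ p : ι × DirichletCharacter ℂ r, (ξ p.1 J)⁻¹ * Gx.pushP (ξ p.1 * dir K p.2) n =
        Real.log n * ((∑ I ∈ idN K n, (ξ p.1 J)⁻¹ * ξ p.1 I) * p.2 n) := fun p => by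
      rw [Gx.pushP, if_pos hp, mul_left_comm, ← mul_sum, ← push_apply _ hp.ne_zero, mul_assoc,
        ← push_mul_norm _ fun n : ℕ => p.2 n]
      rfl
    simp only [e]
    rw [← mul_sum, Fintype.sum_prod_type]
    dsimp only
    rw [← sum_mul_sum, sum_comm, DirichletCharacter.sum_characters_eq,
      ← Nat.cast_one (R := ZMod r)]
    simp only [h4 _ J h0 hJ, ZMod.natCast_eq_natCast_iff, Nat.ModEq.comm (a := n),
      Nat.modEq_iff_dvd' n1, q_w, if_pos hp]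
    rw [← sum_filter, sum_const, nsmul_eq_mul]
    split_ifs
    · push_cast
      ring
    · simp only [Complex.natCast_log, mul_zero, Complex.ofReal_zero]
  have e3 := sum_le_sum fun p (_ : p ∈ univ) => e2 p
  rw [← Complex.re_sum, e1, Complex.ofReal_re, sum_sub_distrib, sum_const, card_univ,
    Fintype.card_prod, nsmul_eq_mul, ← Nat.card_eq_fintype_card (α := DirichletCharacter ℂ r),
    DirichletCharacter.card_eq_totient_of_hasEnoughRootsOfUnity, Nat.cast_mul] at e3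
  have e4 := single_le_sum (f := fun p : ι × DirichletCharacter ℂ r =>
    if Gx.NP (M * r) (ξ p.1 * dir K p.2) then 0 else (x : ℝ) - y)
    (fun i _ => by split_ifs <;> linarith only [y0]) (mem_univ (i0, 1))
  rw [if_neg fun ⟨I, i1, i2, i3⟩ => i3 (by
    rw [Pi.mul_apply, h3 I i1 (i2.mono (dvd_mul_right _ _)), one_mul, dir]
    exact MulChar.one_apply ((ZMod.isUnit_iff_coprime _ _).2
      (cop_iff.1 (i2.mono (dvd_mul_left _ _)))))] at e4
  have t0 : (0 : ℝ) < r.totient := Nat.cast_pos.2 (Nat.totient_pos.2 hr.pos)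
  have t1 : (r.totient : ℝ) ≤ r := Nat.cast_le.2 (Nat.totient_le r)
  have e5 : ((x : ℝ) - y) / (Fintype.card ι * r) ≤ (x - y) / (Fintype.card ι * r.totient) := by
    gcongr
  refine (sub_le_sub_right e5 _).trans ?_
  rw [sub_le_iff_le_add, div_le_iff₀' (by positivity)]
  linarith only [e3, e4]

theorem lemQ (k : Type) [Field k] [NumberField k] (hk : ∃ w : InfinitePlace k, w.IsReal) {M : ℕ}
    (hM : 0 < M) (h4 : 4 ∣ M) (s : ℕ) : ∃ Z₀ : ℕ, ∀ Z, Z₀ ≤ Z → ∃ (q : Fin s → ℕ) (J : ℕ),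
      Function.Injective q ∧ (∀ i, (q i).Prime ∧ Z < q i ∧ M ∣ q i + 1 ∧ q i - 1 ∣ 2 * J ∧
        ∃ y : 𝓞 k, (nm y).natAbs = q i) ∧ Odd J ∧ J ^ 2 ≤ Z ^ 3 := by
  classical
  have hN : 0 < M * (DD k * BB k) := mul_pos hM (mul_pos (DD_pos k) (BB_pos k))
  obtain ⟨β, b1, b2⟩ := exists_neg hk hN
  have i0 : Ideal.span {β} ≠ ⊥ := mt Ideal.span_singleton_eq_bot.1 fun h => by simp [h, nm] at b2
  have h0 := cop_congr b1 (cop_span.2 isCoprime_one_left)
  have a0 : M * (DD k * BB k) ∣ Ideal.absNorm (Ideal.span {β}) + 1 := by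
    have := nm_congr (m := (M * (DD k * BB k) : ℕ)) (a := β) (b := 1) (by rwa [Int.cast_natCast])
    rw [show nm (1 : 𝓞 k) = 1 from map_one _] at this
    rw [← Int.natCast_dvd_natCast, Ideal.absNorm_span_singleton, Nat.cast_add, Int.natCast_natAbs,
      abs_of_neg b2, Nat.cast_one, neg_add_eq_sub]
    exact dvd_sub_comm.1 this
  obtain ⟨h, h1, hc⟩ := q_cls hN ((dvd_mul_right _ _).mul_left _) ((dvd_mul_left _ _).mul_left _)
    i0 h0
  have a1 := dvd_mul_right M (DD k * BB k)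
  generalize M * (DD k * BB k) = N at *
  obtain ⟨c, hc0⟩ : ∃ c : ℝ, c = 4 * 2 ^ dg k * s * h + 1 := ⟨_, rfl⟩
  have t2 : Tendsto (fun Z : ℕ => 2 * Z) atTop atTop := tendsto_id.const_mul_atTop' two_pos
  refine eventually_atTop.1 ((t2.eventually (hc.and (((tendsto_nat_ceil_atTop.comp
    (Real.tendsto_log_atTop.comp tendsto_natCast_atTop_atTop)).eventually (q_primes c)).and
      ((MP_a96b63_al.H5.ev_log (8 * s + 2) (c := 2 * 2 ^ (8 * s + 2)) one_pos).and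
        (MP_a96b63_al.H5.ev_log_ge (128 * h + 16 * N + (N * Ideal.absNorm (Ideal.span {β}) : ℕ) +
          2)))))).mono fun Z ⟨k1, k2, k3, k4⟩ => ?_)
  dsimp only [Function.comp] at k2
  have lg : ∀ n ∈ Ioc Z (2 * Z), Real.log n ≤ Real.log (2 * Z : ℕ) := fun n hn =>
    Real.log_le_log (Nat.cast_pos.2 (by have := (mem_Ioc.1 hn).1; omega))
      (Nat.cast_le.2 (mem_Ioc.1 hn).2)
  generalize Real.log (2 * Z : ℕ) = L at *
  have n0 : (0 : ℝ) ≤ N := Nat.cast_nonneg _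
  have n1 : (0 : ℝ) ≤ (N * Ideal.absNorm (Ideal.span {β}) : ℕ) := Nat.cast_nonneg _
  have T1 := Nat.le_ceil L
  have T2 : (⌈L⌉₊ : ℝ) ≤ 2 * L := by linarith [Nat.ceil_lt_add_one (by linarith : 0 ≤ L)]
  generalize ⌈L⌉₊ = T at *
  have T3 : 2 ≤ T := by exact_mod_cast (by linarith : (2 : ℝ) ≤ T)
  have T0 : (0 : ℝ) < T := by linarith
  have L0 : 0 < L := by linarith
  have T4 : T ^ (8 * s + 2) ≤ Z := by
    have : (T : ℝ) ^ (8 * s + 2) ≤ (2 * L) ^ (8 * s + 2) := by gcongr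
    rw [Real.rpow_one, Nat.cast_mul, Nat.cast_ofNat] at k3
    rw [mul_pow] at this
    exact_mod_cast (by linarith only [k3, this] : (T : ℝ) ^ (8 * s + 2) ≤ Z)
  have T5 : T ^ 2 ≤ Z := (Nat.pow_le_pow_right (by omega) (by omega)).trans T4
  have T6 : T ≤ T ^ 2 := Nat.le_self_pow two_ne_zero T
  have T7 : (T : ℝ) ^ 4 ≤ 16 * L ^ 4 :=
    (pow_le_pow_left₀ T0.le T2 4).trans (le_of_eq (by ring))
  have Z0 : (0 : ℝ) < Z := Nat.cast_pos.2 (by omega)
  have mP : ∀ r ∈ (Ioc (T ^ 2) (T ^ 4)).filter Nat.Prime, r.Prime ∧ T ^ 2 < r ∧ r ≤ T ^ 4 :=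
    fun r hr => ⟨(mem_filter.1 hr).2, mem_Ioc.1 (mem_filter.1 hr).1⟩
  have mW : ∀ n, q_w N (Ideal.span {β}) n ≠ 0 → n.Prime ∧ N ∣ n + 1 ∧
      ∃ y : 𝓞 k, (nm y).natAbs = n := fun n hn => by
    unfold q_w at hn
    split_ifs at hn with hp
    · obtain ⟨I, hI⟩ := card_ne_zero.1 (Nat.cast_ne_zero.1 (right_ne_zero_of_mul hn))
      obtain ⟨e1, e2⟩ := mem_filter.1 hI
      rw [← (mem_idN k).1 e1]
      exact ⟨(mem_idN k).1 e1 ▸ hp, ((e2.norm.add_right 1).dvd_iff dvd_rfl).2 a0, q_norm e2⟩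
    · exact absurd rfl hn
  obtain ⟨j, c1, c2, r, q, c3, c4⟩ := q_pig ((Ioc (T ^ 2) (T ^ 4)).filter Nat.Prime)
    (Ioc Z (2 * Z)) (q_w N (Ideal.span {β})) (G := 2 ^ dg k * T) (L := Z / T ^ 2 + 1) (s := s)
    (fun n hn => by
      unfold q_w
      split_ifs with hp
      · have h5 := card_idN_le (K := k) hp.ne_zero
        rw [tau, hp.divisors, card_pair hp.one_lt.ne, Nat.cast_ofNat] at h5
        rw [mul_comm]
        exact mul_le_mul ((Nat.cast_le.2 (card_filter_le _ _)).trans h5) ((lg n hn).trans T1)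
          (Real.log_natCast_nonneg n) (by positivity)
      · positivity) (by positivity) (fun r hr n hn h5 ⟨t, ht⟩ => by
      obtain ⟨h6, h9, -⟩ := mW n h5
      obtain ⟨p1, p2, -⟩ := mP r hr
      obtain ⟨j, hj⟩ := p1.odd_of_ne_two (by omega)
      obtain ⟨u, hu⟩ := (h4.trans a1).trans h9
      have h10 := h6.two_le
      have h8 := (mem_Ioc.1 hn).2
      obtain ⟨k, rfl⟩ : Even t := by
        by_contra h
        obtain ⟨v, hv⟩ := Odd.mul ⟨j, hj⟩ (Nat.not_even_iff_odd.1 h)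
        omega
      refine ⟨k, Nat.lt_succ_of_le ((Nat.le_div_iff_mul_le (by omega)).2 ?_), ?_, p1.pos,
        by rw [ht]; ring⟩
      · have := Nat.mul_le_mul_left k p2.le
        have : r * (k + k) = 2 * (k * r) := by ring
        omega
      · by_contra h
        obtain ⟨v, rfl⟩ := Nat.not_odd_iff_even.1 h
        have : r * (v + v + (v + v)) = 4 * (r * v) := by ring
        omega) (by
      have b3 : ∀ r ∈ (Ioc (T ^ 2) (T ^ 4)).filter Nat.Prime, (Z : ℝ) / (2 * h * T ^ 4) ≤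
          ∑ n ∈ (Ioc Z (2 * Z)).filter fun n => r ∣ n - 1, q_w N (Ideal.span {β}) n :=
        fun r hr => by
          obtain ⟨p1, p2, p3⟩ := mP r hr
          have p4 : (r : ℝ) ≤ T ^ 4 := by exact_mod_cast p3
          have p5 : (0 : ℝ) < r := Nat.cast_pos.2 p1.pos
          refine le_trans ?_ (k1 r p1 (lt_of_le_of_lt (le_trans ?_ T6) p2) ?_ Z (by omega))
          · have g1 : (Z : ℝ) / (h * T ^ 4) ≤ Z / (h * r) := by gcongr
            have g2 : (Z : ℝ) / L ^ 5 ≤ Z / (8 * h * T ^ 4) := by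
              gcongr
              calc _ ≤ 8 * h * (16 * L ^ 4) := by gcongr
                _ = 128 * h * L ^ 4 := by ring
                _ ≤ L * L ^ 4 := by gcongr; linarith
                _ = _ := by ring
            have g3 : (Z : ℝ) / (2 * h * T ^ 4) = Z / (h * T ^ 4) - 4 * (Z / (8 * h * T ^ 4)) := by
              field_simp
              ring
            push_cast
            rw [g3, mul_div_assoc, two_mul (Z : ℝ), add_sub_cancel_right]
            linarith only [g1, g2]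
          · exact_mod_cast (by linarith : ((N * Ideal.absNorm (Ideal.span {β}) : ℕ) : ℝ) ≤ T)
          · calc _ ≤ N * (16 * L ^ 4) := by gcongr; linarith only [T7, p4]
              _ = 16 * N * L ^ 4 := by ring
              _ ≤ L * L ^ 4 := by gcongr; linarith
              _ = _ := by ring
      refine lt_of_lt_of_le ?_ (card_nsmul_le_sum _ _ _ b3)
      have b4 : ((Z / T ^ 2 + 1 : ℕ) : ℝ) ≤ 2 * (Z / T ^ 2) := by
        have g1 : ((Z / T ^ 2 : ℕ) : ℝ) ≤ Z / (T ^ 2 : ℕ) := Nat.cast_div_le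
        have g2 : (1 : ℝ) ≤ Z / T ^ 2 := (one_le_div (by positivity)).2 (by exact_mod_cast T5)
        rw [Nat.cast_pow] at g1
        rw [Nat.cast_succ]
        linarith only [g1, g2]
      rw [nsmul_eq_mul, Nat.cast_mul]
      calc _ ≤ 2 ^ dg k * T * (2 * ((Z : ℝ) / T ^ 2) * s) := by gcongr
        _ = (c - 1) * (Z / (2 * h * T)) := by rw [hc0]; field_simp; ring
        _ < c * (Z / (2 * h * T)) := by gcongr; linarith only []
        _ = c * T ^ 3 * (Z / (2 * h * T ^ 4)) := by field_simp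
        _ ≤ _ := by gcongr)
  refine ⟨q, j * ∏ i, r i, c3, fun i => ?_, c2.mul ?_, ?_⟩
  · obtain ⟨-, e1, e2, e3⟩ := c4 i
    obtain ⟨h6, h9, h7⟩ := mW _ e2
    refine ⟨h6, (mem_Ioc.1 e1).1, a1.trans h9, ?_, h7⟩
    rw [e3, mul_right_comm, ← mul_assoc]
    exact Nat.mul_dvd_mul_left _ (dvd_prod_of_mem _ (mem_univ i))
  · refine prod_induction _ Odd (fun _ _ => Odd.mul) odd_one fun i _ => ?_
    obtain ⟨p1, p2, -⟩ := mP _ (c4 i).1
    exact p1.odd_of_ne_two (by omega)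
  · have h3 : ∏ i, r i ≤ (T ^ 4) ^ s := by
      simpa only [card_univ, Fintype.card_fin] using prod_le_pow_card univ r _ fun i _ => (mP _ (c4 i).1).2.2
    have h5 : j ≤ Z := (Nat.le_of_lt_succ c1).trans (Nat.div_le_self _ _)
    calc _ ≤ (Z * (T ^ 4) ^ s) ^ 2 := by gcongr
      _ = Z ^ 2 * T ^ (8 * s) := by ring
      _ ≤ Z ^ 2 * Z := by
        gcongr
        exact (Nat.pow_le_pow_right (by omega) (by omega)).trans T4
      _ = _ := by ring

end Pool.Agent.MP_a59382_lc.V3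

end

-- part MP_a59382_lc.V3.G
section

/-! Block G: prime and ideal sums of Hecke characters, primes in ray classes. -/

namespace Pool.Agent.MP_a59382_lc.V3

open Finset NumberField Filter Pool.Agent.MP_48b1c3_nt.H91

variable {k : Type} [Field k] [NumberField k]

theorem g_ar (t : (k →+* ℂ) → ℝ) (m : (k →+* ℂ) → ℤ) (a : 𝓞 k) :
    ar t m (sc 1 a) = Gx.ar t m a := by
  simp only [ar, sc, Gx.ar, Gx.arC, Complex.ofReal_one, div_one, Complex.ofReal_mul, mul_assoc]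

theorem g_gc {q : ℕ} {t : (k →+* ℂ) → ℝ} {m : (k →+* ℂ) → ℤ} {F : Ideal (𝓞 k) → ℂ}
    (h : GC q t m F) : Gx.GC q t m F :=
  ⟨h.pos, h.sum, h.le, h.one, h.mul, h.cop, fun a a' b α α' h1 h2 h3 h4 => by
    rw [← g_ar, ← g_ar]
    exact h.per a a' b α α' h1 h2 h3 h4⟩

open scoped Classical in
theorem g_gs {wt : Ideal (𝓞 k) → ℝ} {α : ℕ → ℝ} {b : (Ideal (𝓞 k) → ℂ) → ℕ → ℂ}
    (hb : ∀ (F : Ideal (𝓞 k) → ℂ) (n : ℕ), n ≠ 0 → ∑ I ∈ idN k n, (wt I : ℂ) * F I = b F n)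
    (h : ∀ A B : ℕ, ∀ᶠ x : ℕ in atTop,
      ∀ (q : ℕ) (t : (k →+* ℂ) → ℝ) (m : (k →+* ℂ) → ℤ) (F : Ideal (𝓞 k) → ℂ), Gx.GC q t m F →
        BB k ∣ q → (q : ℝ) ≤ Real.log x ^ B → Gx.Sz (Real.log x ^ B) t m → ∀ y : ℕ, y ≤ x →
          ‖∑ n ∈ Icc 1 y, b F n - if Gx.NP q F then 0 else (α q * y : ℂ)‖ ≤
            x / Real.log x ^ A) : GS wt α := by
  intro A B R
  obtain ⟨N, hN⟩ := eventually_atTop.1 (h (A + 1) B)
  filter_upwards [eventually_ge_atTop (N : ℝ), eventually_gt_atTop 0,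
    Real.tendsto_log_atTop.eventually_ge_atTop (2 * |R| + 1)] with x x1 x0 hL q t m F y z hB hq hT
    hF h1 h2 h3
  have y1 : (y : ℝ) ≤ z := Nat.cast_le.2 h2
  have l1 : Real.log x ≤ Real.log z := Real.log_le_log x0 (h1.trans y1)
  have r0 := abs_nonneg R
  have L0 : 0 < Real.log x := by linarith only [hL, r0]
  have l2 : Real.log x ^ B ≤ Real.log z ^ B := by gcongr
  have key := hN z (by exact_mod_cast x1.trans (h1.trans y1)) q t m F (g_gc hF) hB (hq.trans l2)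
    (Gx.Sz.mono hT l2)
  have e : sI wt F y z = ∑ n ∈ Icc 1 z, b F n - ∑ n ∈ Icc 1 y, b F n := by
    have e0 : ∀ j, Icc 1 j = Ioc 0 j := fun j => rfl
    rw [e0, e0, ← sum_Ioc_consecutive _ (Nat.zero_le y) h2, add_sub_cancel_left]
    exact sum_congr rfl fun n hn => hb F n (by have := (mem_Ioc.1 hn).1; omega)
  have k1 : z / Real.log z ^ (A + 1) + z / Real.log z ^ (A + 1) ≤ x / Real.log x ^ A := by
    have z1 : (z : ℝ) ≤ |R| * x := h3.trans (by gcongr; exact le_abs_self R)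
    calc _ ≤ |R| * x / Real.log x ^ (A + 1) + |R| * x / Real.log x ^ (A + 1) := by gcongr
      _ = 2 * |R| / Real.log x * (x / Real.log x ^ A) := by
          field_simp
          ring
      _ ≤ _ := mul_le_of_le_one_left (by positivity) ((div_le_one L0).2 (by linarith only [hL]))
  have k2 := (norm_sub_le _ _).trans ((add_le_add (key z le_rfl) (key y h2)).trans k1)
  rw [e]
  refine ⟨fun hn => ?_, fun hn => ?_⟩
  · rwa [if_pos (show Gx.NP q F from hn), if_pos (show Gx.NP q F from hn), sub_zero,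
      sub_zero] at k2
  · rw [if_neg (show ¬ Gx.NP q F from hn), if_neg (show ¬ Gx.NP q F from hn)] at k2
    refine le_of_eq_of_le (congrArg _ ?_) k2
    push_cast
    ring

theorem g_pw (F : Ideal (𝓞 k) → ℂ) (n : ℕ) (hn : n ≠ 0) :
    ∑ I ∈ idN k n, pw I * F I = Gx.pushP F n := by
  rw [Gx.pushP, push_apply _ hn, mul_sum, sum_congr rfl (g := fun I =>
    ((if n.Prime then Real.log n else 0 : ℝ) : ℂ) * F I) fun I hI => by
      rw [pw, (mem_idN k).1 hI]]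
  split_ifs <;> simp

theorem gs_prime (k : Type) [Field k] [NumberField k] [IsTotallyComplex k] :
    GS (k := k) pw fun _ => 1 :=
  g_gs g_pw fun A B => by simpa only [Complex.ofReal_one, one_mul, eventually_atTop] using Gx.swP k A B

theorem gs_one (k : Type) [Field k] [NumberField k] : ∃ α, GS (k := k) (fun _ => 1) α :=
  ⟨Gx.kq k, g_gs (b := fun F n => push F n) (fun F n hn => by simp [push_apply _ hn]) (Gx.swI k)⟩

theorem root {k : Type} [Field k] [NumberField k] {t : (k →+* ℂ) → ℝ} {m : (k →+* ℂ) → ℤ}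
    (ht : ∑ φ, t φ = 0) (hm : ∀ φ, ComplexEmbedding.IsReal φ → m φ = 0) {q d : ℕ} (hq : 0 < q)
    (hd : 0 < d) (h : ∀ a : 𝓞 k, a ≠ 0 → (q : 𝓞 k) ∣ a - 1 → ar t m (sc 1 a) ^ d = 1)
    {a : 𝓞 k} (ha : a ≠ 0) : ar t m (sc 1 a) = 1 := by
  rw [g_ar]
  exact Gx.gc_root' hq hd ht (fun b b1 b2 => g_ar t m b ▸ h b (fun e => by simp [e] at b2) b1)
    (RingOfIntegers.coe_ne_zero_iff.2 ha) fun φ hφ => Or.inr (hm φ hφ ▸ Even.zero)

theorem g_adj {W N : ℕ} (hN : 0 < N) {a : 𝓞 k} (ha : IsCoprime a (W : 𝓞 k)) :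
    ∃ b : 𝓞 k, (W : 𝓞 k) ∣ b - a ∧ Cop (W * N) (Ideal.span {b}) := by
  obtain ⟨M, hM⟩ : ∃ M, M = ∏ p ∈ N.primeFactors.filter fun p => ¬ p ∣ W, p := ⟨_, rfl⟩
  have c1 : M.Coprime W := hM ▸ Nat.Coprime.prod_left fun p hp =>
    (Nat.prime_of_mem_primeFactors (mem_filter.1 hp).1).coprime_iff_not_dvd.2 (mem_filter.1 hp).2
  obtain ⟨u, v, huv⟩ : IsCoprime (M : 𝓞 k) (W : 𝓞 k) := c1.cast
  have d1 : (W : 𝓞 k) ∣ a * u * M + v * W - a := ⟨v - a * v, by linear_combination a * huv⟩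
  have d2 : (M : 𝓞 k) ∣ a * u * M + v * W - 1 := ⟨a * u - u, by linear_combination huv⟩
  have c2 := cop_iff.1 (cop_congr d1 (cop_span.2 ha))
  have c3 := cop_iff.1 (cop_congr d2 (cop_span.2 isCoprime_one_left))
  refine ⟨_, d1, cop_iff.2 (c2.mul_right (Nat.Coprime.symm ?_))⟩
  refine Nat.coprime_of_dvd fun p p1 p2 p3 => ?_
  by_cases h : p ∣ W
  · exact p1.one_lt.ne' (Nat.eq_one_of_dvd_coprimes c2 p3 h)
  · exact p1.one_lt.ne' (Nat.eq_one_of_dvd_coprimes c3 p3 (hM ▸ dvd_prod_of_mem _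
      (mem_filter.2 ⟨Nat.mem_primeFactors.2 ⟨p1, p2, hN.ne'⟩, h⟩)))

theorem g_gen {q : ℕ} {I : Ideal (𝓞 k)} {b : 𝓞 k} (h : Ray q I (Ideal.span {b})) :
    ∃ P : 𝓞 k, (q : 𝓞 k) ∣ P - b ∧ I = Ideal.span {P} := by
  obtain ⟨α, β, h1, h2, h3, h4⟩ := h
  rw [Ideal.span_singleton_mul_span_singleton] at h4
  obtain ⟨P, hP⟩ : β ∣ α * b := Ideal.mem_span_singleton.1
    (Ideal.mul_le_left (I := Ideal.span {β}) (J := I) (h4 ▸ Ideal.mem_span_singleton_self _))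
  refine ⟨P, (cop_span.1 h1).symm.dvd_of_dvd_mul_left ?_, ?_⟩
  · rw [mul_sub, ← hP, ← sub_mul]
    exact h2.mul_right _
  · rw [hP, ← Ideal.span_singleton_mul_span_singleton] at h4
    exact (mul_left_cancel₀ (mt Ideal.span_singleton_eq_bot.1 (ne_of_nm h3).2) h4).symm

theorem ray_prime {k : Type} [Field k] [NumberField k] [IsTotallyComplex k] {W : ℕ} (hW : 0 < W)
    {a : 𝓞 k} (ha : IsCoprime a (W : 𝓞 k)) (N : ℕ) :
    ∃ P : 𝓞 k, (W : 𝓞 k) ∣ P - a ∧ (nm P).natAbs.Prime ∧ N < (nm P).natAbs := by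
  classical
  obtain ⟨b, b1, b2⟩ := g_adj (mul_pos two_pos (BB_pos k)) ha
  obtain ⟨q, hq⟩ : ∃ q, q = W * (2 * BB k) := ⟨_, rfl⟩
  rw [← hq] at b2
  have q0 : 0 < q := hq ▸ mul_pos hW (mul_pos two_pos (BB_pos k))
  have b0 : Ideal.span {b} ≠ ⊥ := fun e => by
    have := cop_iff.1 b2
    rw [e, Ideal.absNorm_bot, Nat.coprime_zero_left, hq] at this
    have := Nat.eq_one_of_mul_eq_one_left this
    omega
  obtain ⟨ι, _, ξ, h1, h2, ⟨i0, h3⟩, h4⟩ := ray_fam (K := k) q0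
  by_contra hc
  push Not at hc
  have s0 : ∀ n, N < n → ∑ i, (ξ i (Ideal.span {b}))⁻¹ * Gx.pushP (ξ i) n = 0 := fun n hn => by
    simp only [Gx.pushP]
    split_ifs with hp
    · simp only [push_apply _ hp.ne_zero, mul_sum]
      rw [sum_comm]
      refine sum_eq_zero fun I hI => ?_
      simp only [mul_left_comm _ (Real.log n : ℂ)]
      rw [← mul_sum, h4 I _ b0 b2, if_neg, mul_zero]
      intro hr
      obtain ⟨P, p1, rfl⟩ := g_gen hr
      have p2 : (nm P).natAbs = n := (Ideal.absNorm_span_singleton P).symm.trans ((mem_idN k).1 hI)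
      refine (hc P ?_ (p2 ▸ hp)).not_gt (p2 ▸ hn)
      rw [← sub_add_sub_cancel P b a]
      exact dvd_add ((Nat.cast_dvd_cast (hq ▸ dvd_mul_right W _)).trans p1) b1
    · simp only [mul_zero, sum_const_zero]
  obtain ⟨S, hS⟩ : ∃ S : ℝ, S = ‖∑ n ∈ Icc 1 N, ∑ i, (ξ i (Ideal.span {b}))⁻¹ *
    Gx.pushP (ξ i) n‖ := ⟨_, rfl⟩
  obtain ⟨x, x1, x2, x3, x4, x5⟩ := ((Gx.swP k 1 1).and ((MP_a96b63_al.H5.ev_log_ge q).and
    ((MP_a96b63_al.H5.ev_log_ge (2 * Fintype.card ι + 1)).and ((eventually_ge_atTop N).and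
      (tendsto_natCast_atTop_atTop.eventually_gt_atTop (2 * S)))))).exists
  have c0 : (0 : ℝ) ≤ Fintype.card ι := Nat.cast_nonneg _
  have L0 : 0 < Real.log x := by linarith only [x3]
  have x0 : (0 : ℝ) ≤ x := Nat.cast_nonneg _
  have e1 : ∑ n ∈ Icc 1 N, ∑ i, (ξ i (Ideal.span {b}))⁻¹ * Gx.pushP (ξ i) n =
      ∑ i, (ξ i (Ideal.span {b}))⁻¹ * ∑ n ∈ Icc 1 x, Gx.pushP (ξ i) n := by
    simp only [mul_sum]
    rw [sum_comm (s := univ)]
    exact sum_subset (Icc_subset_Icc_right x4) fun n n1 n2 => s0 n (by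
      rw [mem_Icc] at n1 n2
      omega)
  have e2 : ∀ i, (if Gx.NP q (ξ i) then 0 else (x : ℝ)) - x / Real.log x ≤
      ((ξ i (Ideal.span {b}))⁻¹ * ∑ n ∈ Icc 1 x, Gx.pushP (ξ i) n).re := fun i => by
    have := x1 q 0 0 (ξ i) (Gx.gc_of_hc (h1 i)) (hq ▸ (dvd_mul_left _ 2).mul_left W)
      (by rwa [pow_one]) (fun φ => by simpa only [Pi.zero_apply, abs_zero, pow_one, Int.cast_zero, and_self] using L0.le) x le_rfl
    rw [pow_one] at this
    split_ifs at this ⊢ with hn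
    · rw [sub_zero, ← one_mul ‖_‖, ← inv_one, ← h2 i _ b0 b2, ← norm_inv, ← norm_mul] at this
      linarith only [(abs_le.1 ((Complex.abs_re_le_norm _).trans this)).1]
    · rw [show ξ i (Ideal.span {b}) = 1 from not_not.1 fun g => hn ⟨_, b0, b2, g⟩, inv_one,
        one_mul]
      have h5 := (abs_le.1 ((Complex.abs_re_le_norm _).trans this)).1
      rw [Complex.sub_re, Complex.natCast_re] at h5
      linarith only [h5]
  have e3 := sum_le_sum fun i (_ : i ∈ univ) => e2 i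
  rw [← Complex.re_sum, ← e1, sum_sub_distrib, sum_const, card_univ, nsmul_eq_mul] at e3
  have e4 := single_le_sum (f := fun i => if Gx.NP q (ξ i) then 0 else (x : ℝ))
    (fun i _ => by split_ifs <;> linarith only []) (mem_univ i0)
  rw [if_neg fun ⟨I, i1, i2, i3⟩ => i3 (h3 I i1 i2)] at e4
  have e5 : Fintype.card ι * (x / Real.log x) ≤ x / 2 := by
    rw [← mul_div_assoc, div_le_iff₀ L0]
    nlinarith only [x3]
  linarith only [hS ▸ Complex.re_le_norm _, x5, e3, e4, e5]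

end Pool.Agent.MP_a59382_lc.V3

end

-- part MP_a59382_lc.V3.W
section

/-! Equidistribution of norms of primes: the final statement. -/

set_option autoImplicit false

namespace Pool.Agent.MP_a59382_lc.V3

open Finset NumberField Filter Pool.Agent.MP_48b1c3_nt.H91

theorem sws {k Ω : Type} [Field k] [NumberField k] [Field Ω] [NumberField Ω] [Algebra k Ω]
    [IsTotallyComplex Ω] {W W₂ : ℕ} {P₀ : 𝓞 Ω} {a₀ : 𝓞 k} (h1 : 1 < W₂) (hW : W ∣ W₂)
    (hΩ : BB Ω ∣ W₂) (hk : BB k ∣ W₂) (ha : IsCoprime a₀ (W₂ : 𝓞 k))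
    (hH : ∀ q : ℕ, 0 < q → W₂ ∣ q → ∀ a : 𝓞 k, IsCoprime a (q : 𝓞 k) → (W₂ : 𝓞 k) ∣ a - a₀ →
      ∃ P : 𝓞 Ω, (W : 𝓞 Ω) ∣ P - P₀ ∧ (q : 𝓞 k) ∣ RingOfIntegers.norm k P - a) :
    ∃ c, 0 < c ∧ Eqd (nl k pw W P₀) W₂ a₀ c :=
  w_sws (fun _ _ ht hm _ _ hq hd h _ ha => root ht hm hq hd h ha) (gs_prime Ω) (gs_one k)
    h1 hW hΩ hk ha hH

end Pool.Agent.MP_a59382_lc.V3

end

-- part MP_a59382_lc.V3.EDef
section

/-! Definitions for the ternary problem. -/

set_option autoImplicit false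

namespace Pool.Agent.MP_a59382_lc.V3

open Finset NumberField Filter Pool.Agent.MP_48b1c3_nt.H91

section General

variable {k : Type} [Field k] [NumberField k]

/-- sets of primes not dividing `W` with product at most `Q` -/
def eDS (W Q : ℕ) : Finset (Finset ℕ) :=
  ((Icc 1 Q).filter fun p => p.Prime ∧ ¬ p ∣ W).powerset.filter fun D => ∏ p ∈ D, p ≤ Q

/-- the truncated model -/
noncomputable def eM (W Q : ℕ) (a : 𝓞 k) : ℝ := ∑ D ∈ eDS W Q, ∏ p ∈ D, fp p a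

/-- the weight minus its model -/
noncomputable def eG (lam : 𝓞 k → ℝ) (c : ℝ) (W Q : ℕ) (a : 𝓞 k) : ℝ := lam a - c * eM W Q a

/-- all primes up to `w` divide `W` -/
def eBig (w W : ℕ) : Prop := ∀ p : ℕ, p.Prime → p ≤ w → p ∣ W

/-- all conjugates of `z / X` are close to `c` -/
def eNear (c X : ℝ) (z : 𝓞 k) : Prop := ∀ φ, ‖sc X z φ - (c : ℂ)‖ < 1 / 10

/-- weights concentrated near the point with all coordinates `c` -/
structure eTent (c r L : ℝ) (Φ : ((k →+* ℂ) → ℂ) → ℝ) : Prop where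
  pos : 0 < L
  mem : ∀ z, 0 ≤ Φ z ∧ Φ z ≤ 1
  lip : ∀ z w, |Φ z - Φ w| ≤ L * ‖z - w‖
  supp : ∀ z, Φ z ≠ 0 → ∀ φ, ‖z φ - (c : ℂ)‖ < r

/-- the weight is close to its model on periodic functions of small period -/
def eMod (lam : 𝓞 k → ℝ) (W : ℕ) (a₀ : 𝓞 k) (c : ℝ) : Prop :=
  ∀ (A B : ℕ) (R : ℝ), ∀ᶠ X : ℝ in atTop, ∀ (Q m : ℕ) (η : 𝓞 k → ℝ)
    (Φ : ((k →+* ℂ) → ℂ) → ℝ), 0 < m → m ≤ Q → (Q : ℝ) ≤ Real.log X ^ B → Pe (W * m) η →
      (∀ a, η a ≠ 0 → (W : 𝓞 k) ∣ a - a₀) → Wt R (Real.log X ^ B) Φ →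
        |∑' a, eG lam c W Q a * η a * Φ (sc X a)| ≤ X ^ dg k / Real.log X ^ A

end General

variable {K : Type} [Field K] [NumberField K] [IsCMField K]

omit [NumberField K] [IsCMField K] in
/-- the inclusion of the integers of the real subfield -/
noncomputable abbrev eI (a : 𝓞 (maximalRealSubfield K)) : 𝓞 K := algebraMap _ (𝓞 K) a

open scoped Classical in
/-- one half of `tr z w` -/
noncomputable def eH (z w : 𝓞 K) : 𝓞 (maximalRealSubfield K) :=
  if h : ∃ a, 2 * a = tr z w then h.choose else 0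

/-- the determinant -/
noncomputable def eD (z₁ z₂ : 𝓞 K) : 𝓞 K := z₁ * cO z₂ - cO z₁ * z₂

open scoped Classical in
/-- the congruence condition on `a₁` for fixed `a₂` -/
noncomputable def eEta (W : ℕ) (w₁ z₁ z₂ : 𝓞 K) (a₂ a₁ : 𝓞 (maximalRealSubfield K)) : ℝ :=
  if ∃ w, ((2 * W : ℕ) : 𝓞 K) ∣ w - w₁ ∧ eD z₁ z₂ * w = 2 * (eI a₁ * z₂ - eI a₂ * z₁) then 1
  else 0

/-- the vector `w / X` as a function of the vector `a₁ / (X Y)` -/
noncomputable def eUp (X Y : ℝ) (z₁ z₂ : 𝓞 K) (a₂ : 𝓞 (maximalRealSubfield K))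
    (x : (maximalRealSubfield K →+* ℂ) → ℂ) : (K →+* ℂ) → ℂ := fun φ =>
  2 * (Y * x (φ.comp (algebraMap _ K)) * φ z₂ - φ (eI a₂) / X * φ z₁) / φ (eD z₁ z₂)

/-- the congruence between the three classes -/
def eCg (W : ℕ) (z₀ w₁ : 𝓞 K) (a₀ : 𝓞 (maximalRealSubfield K)) : Prop :=
  ((2 * W : ℕ) : 𝓞 K) ∣ z₀ * cO w₁ + cO z₀ * w₁ + 2 * algebraMap _ (𝓞 K) a₀

/-- the elements `z` that are used: class of `z₀`, size `Y`, prime norm, prime to the conjugate -/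
structure eZ (W : ℕ) (z₀ : 𝓞 K) (Y : ℝ) (z : 𝓞 K) : Prop where
  cg : ((2 * W : ℕ) : 𝓞 K) ∣ z - z₀
  near : eNear 1 Y z
  prime : (nm z).natAbs.Prime
  cop : IsCoprime z (cO z)

end Pool.Agent.MP_a59382_lc.V3

end

-- part MP_a59382_lc.V3.EMod
section

/-! The truncated model and its means. -/

set_option autoImplicit false
set_option linter.unusedSectionVars false

namespace Pool.Agent.MP_a59382_lc.V3

open Finset NumberField Filter Pool.Agent.MP_48b1c3_nt.H91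

theorem eBig.lt {P W p : ℕ} (h : eBig P W) (hp : p.Prime) (e : ¬ p ∣ W) : P < p :=
  lt_of_not_ge fun l => e (h p hp l)

theorem eBig.mono {W P P' : ℕ} (h : eBig P W) (h' : P' ≤ P) : eBig P' W :=
  fun p hp e => h p hp (e.trans h')

theorem eBig.of_dvd {W P : ℕ} (h : P.factorial ∣ W) : eBig P W := fun _ hp l =>
  (hp.dvd_factorial.2 l).trans h

theorem e_DS_mem {W Q : ℕ} {D : Finset ℕ} :
    D ∈ eDS W Q ↔ (∀ p ∈ D, p.Prime ∧ ¬ p ∣ W) ∧ ∏ p ∈ D, p ≤ Q := by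
  rw [eDS, mem_filter, mem_powerset]
  refine ⟨fun h => ⟨fun p hp => (mem_filter.1 (h.1 hp)).2, h.2⟩, fun h => ⟨fun p hp =>
    mem_filter.2 ⟨mem_Icc.2 ⟨(h.1 p hp).1.pos, (Nat.le_of_dvd (prod_pos fun p hp =>
      (h.1 p hp).1.pos) (dvd_prod_of_mem _ hp)).trans h.2⟩, h.1 p hp⟩, h.2⟩⟩

theorem eDS_pos {W Q : ℕ} {D : Finset ℕ} (h : D ∈ eDS W Q) : 0 < ∏ p ∈ D, p :=
  prod_pos fun p hp => ((e_DS_mem.1 h).1 p hp).1.pos

theorem eDS_sum {W Q : ℕ} {g : ℕ → ℝ} (hg : ∀ n, 0 ≤ g n) :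
    ∑ D ∈ eDS W Q, g (∏ p ∈ D, p) ≤ ∑ n ∈ Icc 1 Q, g n := by
  rw [← sum_image (g := fun D : Finset ℕ => ∏ p ∈ D, p) fun D h D' h' e => by
    have e' := congrArg Nat.primeFactors e
    rwa [Nat.primeFactors_prod fun p hp => ((e_DS_mem.1 h).1 p hp).1,
      Nat.primeFactors_prod fun p hp => ((e_DS_mem.1 h').1 p hp).1] at e']
  refine sum_le_sum_of_subset_of_nonneg (fun n hn => ?_) fun n _ _ => hg n
  obtain ⟨D, h, rfl⟩ := mem_image.1 hn
  exact mem_Icc.2 ⟨eDS_pos h, (e_DS_mem.1 h).2⟩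

theorem eDS_card (W Q : ℕ) : (#(eDS W Q) : ℝ) ≤ Q := by
  simpa only [Nat.cast_le, sum_const, nsmul_eq_mul, mul_one, Nat.card_Icc, add_tsub_cancel_right] using eDS_sum (W := W) (Q := Q) (g := fun _ => 1) fun _ => zero_le_one

theorem e_DS_card (W Q : ℕ) : #(eDS W Q) ≤ Q := by
  exact_mod_cast eDS_card W Q

section Av

variable {k : Type} [Field k] [NumberField k]

/-- the product of the local factors -/
noncomputable def fD (D : Finset ℕ) (a : 𝓞 k) : ℝ := ∏ p ∈ D, fp p a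

theorem eM_eq (W Q : ℕ) (a : 𝓞 k) : eM W Q a = ∑ D ∈ eDS W Q, fD D a := rfl

theorem fD_pr (D : Finset ℕ) : Pr (∏ p ∈ D, p) (fD D : 𝓞 k → ℝ) :=
  Pr.prod fun p hp => (fp_pr p).mono (dvd_prod_of_mem _ hp)

theorem fD_abs {W Q : ℕ} (hW : eBig (2 * dg k) W) {D : Finset ℕ} (h : D ∈ eDS W Q) (a : 𝓞 k) :
    |fD D a| ≤ 1 := by
  rw [fD, abs_prod]
  exact prod_le_one (fun _ _ => abs_nonneg _) fun p hp =>
    fp_abs ((e_DS_mem.1 h).1 p hp).1 (hW.lt ((e_DS_mem.1 h).1 p hp).1 ((e_DS_mem.1 h).1 p hp).2).le a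

theorem fD_two {W Q : ℕ} (hW : 2 ∣ W) {D : Finset ℕ} (h : D ∈ eDS W Q) (a : 𝓞 k) :
    fD D (2 * a) = fD D a :=
  prod_congr rfl fun p hp => fp_two (((e_DS_mem.1 h).1 p hp).1.odd_of_ne_two fun e =>
    ((e_DS_mem.1 h).1 p hp).2 (e ▸ hW)) a

theorem e_M_two {W Q : ℕ} (hW : 2 ∣ W) (a : 𝓞 k) : eM W Q (2 * a) = eM W Q a :=
  sum_congr rfl fun _ h => fD_two hW h a

theorem e_M_abs {W Q : ℕ} (hW : eBig (2 * dg k) W) (a : 𝓞 k) : |eM W Q a| ≤ Q :=
  (abs_sum_le_sum_abs _ _).trans ((sum_le_card_nsmul _ _ _ fun _ h => fD_abs hW h a).trans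
    (by simpa only [nsmul_eq_mul, mul_one, Nat.cast_le] using eDS_card W Q))

theorem e_av_zero {q p : ℕ} (hq : 0 < q) (hp : p.Prime) (h : ¬ p ∣ q) {η f : 𝓞 k → ℝ}
    (hη : Pr q η) (hf : Pr p f) (h0 : av p f = 0) : av (q * p) (fun a => η a * f a) = 0 := by
  rw [e_av_mul hq hp.pos ((Nat.coprime_comm.1 ((Nat.Prime.coprime_iff_not_dvd hp).2 h))) hη hf, h0,
    mul_zero]

theorem e_meanG {W Q m : ℕ} (h0 : 0 < W) (hW : eBig (2 * dg k) W) (hm : 0 < m) (hQ : m ≤ Q)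
    {η : 𝓞 k → ℝ} (hη : Pr (W * m) η) :
    ∑ D ∈ eDS W Q, av (W * m * ∏ p ∈ D, p) (fun a => (∏ p ∈ D, fp p a) * η a) =
      av (W * m) fun a => mu W (W * m) a * η a := by
  classical
  have hq := Nat.mul_pos h0 hm
  generalize hq' : W * m = q at hq hη ⊢
  simp only [e_mu, sum_mul, e_av_sum]
  symm
  refine sum_subset_zero_on_sdiff (fun D h => ?_) (fun D h => ?_) fun D h => ?_
  · have h1 := mem_powerset.1 h
    refine e_DS_mem.2 ⟨fun p hp => ⟨Nat.prime_of_mem_primeFactors (mem_filter.1 (h1 hp)).1,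
      (mem_filter.1 (h1 hp)).2⟩, (Nat.le_of_dvd hm ((prod_dvd_prod_of_subset _ _ _
        fun p hp => ?_).trans (Nat.prod_primeFactors_dvd m))).trans hQ⟩
    have h2 := mem_filter.1 (h1 hp)
    rw [← hq', Nat.primeFactors_mul h0.ne' hm.ne', mem_union] at h2
    exact h2.1.resolve_left fun e => h2.2 (Nat.dvd_of_mem_primeFactors e)
  · obtain ⟨h1, h2⟩ := mem_sdiff.1 h
    obtain ⟨p, hp, hp'⟩ := not_subset.1 (mt mem_powerset.2 h2)
    have h3 := (e_DS_mem.1 h1).1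
    have h4 : ¬ p ∣ q := fun e => hp' (mem_filter.2 ⟨Nat.mem_primeFactors.2 ⟨(h3 p hp).1, e,
      hq.ne'⟩, (h3 p hp).2⟩)
    simp only [mul_comm _ (η _), ← prod_erase_mul D _ hp, ← mul_assoc]
    refine e_av_zero (Nat.mul_pos hq (prod_pos fun r hr => (h3 r (mem_of_mem_erase hr)).1.pos))
      (h3 p hp).1 (fun e => ?_) ((hη.mono (dvd_mul_right _ _)).mul
        ((fD_pr _).mono (dvd_mul_left _ _))) (fp_pr p)
        (e_av_fp (h3 p hp).1 (hW.lt (h3 p hp).1 (h3 p hp).2).le)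
    rcases (h3 p hp).1.dvd_mul.1 e with e | e
    · exact h4 e
    · obtain ⟨r, hr, e⟩ := (h3 p hp).1.prime.exists_mem_finset_dvd e
      exact ne_of_mem_erase hr ((Nat.prime_dvd_prime_iff_eq (h3 p hp).1
        (h3 r (mem_of_mem_erase hr)).1).1 e).symm
  · have h1 := mem_powerset.1 h
    have h2 : ∏ p ∈ D, p ∣ q := (prod_dvd_prod_of_subset _ _ _
      (h1.trans (filter_subset _ _))).trans (Nat.prod_primeFactors_dvd q)
    exact (e_av_dvd (dvd_mul_right _ _) (Nat.mul_pos hq (Nat.pos_of_dvd_of_pos h2 hq))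
      (((fD_pr D).mono h2).mul hη)).symm

theorem e_orth {W Q : ℕ} {D D' : Finset ℕ} (h : D ∈ eDS W Q) (h' : D' ∈ eDS W Q)
    {f : ℕ → 𝓞 k → ℝ} (hf : ∀ p, Pr p (f p)) (h0 : ∀ p ∈ D, av p (f p) = 0) (hD : ¬ D ⊆ D') :
    av ((∏ p ∈ D', p) * ∏ p ∈ D, p) (fun a => (∏ p ∈ D', f p a) * ∏ p ∈ D, f p a) = 0 := by
  classical
  obtain ⟨p, hp, hp'⟩ := not_subset.1 hD
  have h3 := (e_DS_mem.1 h).1
  simp only [← prod_erase_mul D _ hp, ← mul_assoc]
  refine e_av_zero (Nat.mul_pos (eDS_pos h') (prod_pos fun r hr =>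
    (h3 r (mem_of_mem_erase hr)).1.pos)) (h3 p hp).1 (fun e => ?_)
      ((Pr.prod fun r hr => (hf r).mono ((dvd_prod_of_mem _ hr).mul_right _)).mul
        (Pr.prod fun r hr => (hf r).mono ((dvd_prod_of_mem _ hr).mul_left _))) (hf p) (h0 p hp)
  rcases (h3 p hp).1.dvd_mul.1 e with e | e
  · obtain ⟨r, hr, e⟩ := (h3 p hp).1.prime.exists_mem_finset_dvd e
    exact hp' (((Nat.prime_dvd_prime_iff_eq (h3 p hp).1 ((e_DS_mem.1 h').1 r hr).1).1 e) ▸ hr)
  · obtain ⟨r, hr, e⟩ := (h3 p hp).1.prime.exists_mem_finset_dvd e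
    exact ne_of_mem_erase hr ((Nat.prime_dvd_prime_iff_eq (h3 p hp).1
      (h3 r (mem_of_mem_erase hr)).1).1 e).symm

theorem e_sum4_tel (Q : ℕ) : ∑ n ∈ Icc 1 Q, √√(n : ℝ) / n ≤ 4 * √√(Q : ℝ) := by
  induction Q with
  | zero => simp
  | succ n ih =>
    rw [sum_Icc_succ_top (by omega)]
    have h4 : ∀ x : ℝ, 0 ≤ x → √√x ^ 4 = x := fun x hx => by
      rw [show 4 = 2 * 2 from rfl, pow_mul, Real.sq_sqrt (Real.sqrt_nonneg _), Real.sq_sqrt hx]
    have h1 := h4 (n + 1 : ℕ) (by positivity)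
    have h2 := h4 n (by positivity)
    have h3 : √√(n : ℝ) ≤ √√((n + 1 : ℕ) : ℝ) := by gcongr; omega
    have h5 : 0 ≤ √√(n : ℝ) := Real.sqrt_nonneg _
    have h6 : 0 < √√((n + 1 : ℕ) : ℝ) := by positivity
    generalize √√((n + 1 : ℕ) : ℝ) = a at *
    generalize √√(n : ℝ) = b at *
    have h7 : a / ((n + 1 : ℕ) : ℝ) ≤ 4 * (a - b) := by
      have h8 : a ^ 4 - b ^ 4 = 1 := by rw [h1, h2]; push_cast; ring
      have h9 : a ^ 2 * b + a * b ^ 2 + b ^ 3 ≤ a ^ 2 * a + a * a ^ 2 + a ^ 3 := by gcongr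
      rw [← h1, div_le_iff₀ (by positivity)]
      nlinarith only [mul_le_mul_of_nonneg_left h9 (mul_nonneg h6.le (sub_nonneg.2 h3)), h6, h8]
    linarith only [ih, h7]

theorem e_sum4 {c W Q : ℕ} {T : ℝ} (hW : eBig (c ^ 4) W) (hT : 0 ≤ T) (hQ : (Q : ℝ) ≤ T ^ 4) :
    ∑ D ∈ eDS W Q, ∏ p ∈ D, ((c : ℝ) / p) ≤ 4 * T := by
  refine le_trans (sum_le_sum fun D h => ?_) ((eDS_sum (g := fun n => √√(n : ℝ) / n)
    fun n => by positivity).trans ((e_sum4_tel Q).trans ?_))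
  · rw [prod_div_distrib, prod_const, ← Nat.cast_prod]
    refine div_le_div_of_nonneg_right (Real.le_sqrt_of_sq_le (Real.le_sqrt_of_sq_le ?_))
      (by positivity)
    rw [← pow_mul, ← pow_mul, mul_comm, pow_mul, ← prod_const]
    exact_mod_cast prod_le_prod' fun p hp => (hW.lt ((e_DS_mem.1 h).1 p hp).1
      ((e_DS_mem.1 h).1 p hp).2).le
  · refine mul_le_mul_of_nonneg_left (Real.sqrt_le_iff.2 ⟨hT, Real.sqrt_le_iff.2
      ⟨by positivity, hQ.trans_eq (by ring)⟩⟩) (by norm_num)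

theorem e_half_abs {W Q P : ℕ} (hQ : 0 < Q) {m : ℕ → ℝ} {n : ℕ} {c : ℝ} (hc : 0 ≤ c) (hP : 0 < P)
    (hcP : 6 * c ≤ P) (hW : eBig P W) (h1 : ∀ p, p.Prime → ¬ p ∣ W → |m p| ≤ c / p)
    (h2 : ∀ p, p.Prime → ¬ p ∣ W → p ≠ n → |m p| ≤ c / p ^ 2) :
    1 / 2 ≤ ∑ D ∈ eDS W Q, ∏ p ∈ D, m p := by
  classical
  set s := (Icc 1 Q).filter fun p => p.Prime ∧ ¬ p ∣ W with hs
  have h0 : (0 : ℝ) < P := by exact_mod_cast hP
  have he : (∅ : Finset ℕ) ∈ eDS W Q := e_DS_mem.2 ⟨by simp, hQ⟩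
  have a1 : ∑ p ∈ s, |m p| ≤ 1 / 3 := by
    have b1 : ∑ p ∈ s.erase n, |m p| ≤ c / P := by
      refine (sum_le_sum (g := fun p : ℕ => c * ((p : ℝ) ^ 2)⁻¹) fun p hp => ?_).trans ?_
      · have := (mem_filter.1 (mem_of_mem_erase hp)).2
        exact h2 p this.1 this.2 (ne_of_mem_erase hp)
      · rw [← mul_sum, div_eq_mul_inv]
        refine mul_le_mul_of_nonneg_left ((sum_le_sum_of_subset_of_nonneg
          (t := Ioc P (max P Q)) (fun p hp => ?_) fun _ _ _ => by positivity).trans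
            ((sum_Ioc_inv_sq_le_sub hP.ne' (le_max_left _ _)).trans (sub_le_self _
              (by positivity)))) hc
        have := mem_filter.1 (mem_of_mem_erase hp)
        exact mem_Ioc.2 ⟨hW.lt this.2.1 this.2.2, le_max_of_le_right
          (mem_Icc.1 this.1).2⟩
    have b2 : c / P ≤ 1 / 6 := by rw [div_le_div_iff₀ h0 (by norm_num)]; linarith only [hcP]
    by_cases hn : n ∈ s
    · have b3 := (mem_filter.1 hn).2
      have b4 : c / n ≤ c / P := div_le_div_of_nonneg_left hc h0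
        (by exact_mod_cast (hW.lt b3.1 b3.2).le)
      rw [← sum_erase_add _ _ hn]
      linarith only [h1 n b3.1 b3.2, b1, b2, b4]
    · rw [erase_eq_of_notMem hn] at b1
      linarith only [b1, b2]
  have a2 : ∑ D ∈ eDS W Q, ∏ p ∈ D, |m p| ≤ 3 / 2 := by
    refine (sum_le_sum_of_subset_of_nonneg (t := s.powerset) (filter_subset _ _)
      fun _ _ _ => prod_nonneg fun _ _ => abs_nonneg _).trans ?_
    rw [← prod_one_add]
    exact (Real.prod_one_add_le_exp_sum _ fun _ => abs_nonneg _).trans ((Real.exp_le_exp.2 a1).trans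
      ((Real.exp_bound_div_one_sub_of_interval (by norm_num) (by norm_num)).trans (by norm_num)))
  rw [← sum_erase_add _ _ he] at a2 ⊢
  have a3 : -∑ D ∈ (eDS W Q).erase ∅, ∏ p ∈ D, |m p| ≤ ∑ D ∈ (eDS W Q).erase ∅, ∏ p ∈ D, m p := by
    rw [← sum_neg_distrib]
    exact sum_le_sum fun D _ => by rw [← abs_prod]; exact neg_abs_le _
  simp only [prod_empty] at a2 ⊢
  linarith only [a2, a3]

theorem e_half (C : ℝ) : ∃ w : ℕ, ∀ (W Q l : ℕ) (m : ℕ → ℝ), eBig w W → 1 ≤ Q →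
    (∀ p : ℕ, p.Prime → ¬ p ∣ W → |m p| ≤ C / p ∧ (p ≠ l → |m p| ≤ C / p ^ 2)) →
      1 / 2 ≤ ∑ D ∈ eDS W Q, ∏ p ∈ D, m p :=
  ⟨⌈6 * |C|⌉₊ + 1, fun _ _ l _ hW hQ h => e_half_abs hQ (n := l) (abs_nonneg C) (Nat.succ_pos _)
    ((Nat.le_ceil _).trans (by simp only [Nat.succ_eq_add_one, Nat.cast_add, Nat.cast_one, le_add_iff_nonneg_right, zero_le_one])) hW
    (fun p hp e => (h p hp e).1.trans (by gcongr; exact le_abs_self C))
    fun p hp e e' => ((h p hp e).2 e').trans (by gcongr; exact le_abs_self C)⟩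

end Av

section CM

variable {K : Type} [Field K] [NumberField K] [IsCMField K]

theorem e_big {W : ℕ} (hW : eBig (2 * dg K) W) : eBig (2 * dg (maximalRealSubfield K)) W :=
  hW.mono (by rw [e_dg (K := K)]; omega)

theorem e_odd {W p : ℕ} (hW : eBig (2 * dg K) W) (hp : p.Prime) (h : ¬ p ∣ W) : Odd p :=
  hp.odd_of_ne_two (by have := hW.lt hp h; have := dg_pos K; omega)

variable (K) in
theorem e_meanD : ∃ w : ℕ, ∀ (W Q : ℕ) (T : ℝ) (z : 𝓞 K), eBig w W → 0 ≤ T → (Q : ℝ) ≤ T ^ 4 →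
    IsCoprime z (cO z) → ∑ D ∈ eDS W Q, ∑ D' ∈ eDS W Q, av ((∏ p ∈ D, p) * ∏ p ∈ D', p)
      (fun x => (∏ p ∈ D, fp p (tr z x)) * ∏ p ∈ D', fp p (tr z x)) ≤ 4 * T := by
  refine ⟨2 * dg K + dg K ^ 4, fun W Q T z hw hT hQ hz => ?_⟩
  have hW : eBig (2 * dg K) W := hw.mono (Nat.le_add_right _ _)
  refine le_trans (sum_le_sum fun D h => ?_) (e_sum4 (hw.mono (Nat.le_add_left _ _)) hT hQ)
  have h0 : ∀ D ∈ eDS W Q, ∀ p ∈ D, av p (fun w => fp p (tr z w)) = 0 := fun D h p hp => by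
    have := (e_DS_mem.1 h).1 p hp
    rw [e_av_tr hz (e_odd hW this.1 this.2) (fp_pr p),
      e_av_fp this.1 ((e_big hW).lt this.1 this.2).le]
  have hf : ∀ p, Pr p fun w => fp p (tr z w) := fun p => (fp_pr p).map _
  rw [sum_eq_single_of_mem D h fun D' h' e => ?_]
  · refine (e_av_dvd (dvd_mul_right _ _) (Nat.mul_pos (eDS_pos h) (eDS_pos h))
      (((fD_pr D).map (tr z)).mul ((fD_pr D).map (tr z)))).trans_le ?_
    simp only [fD, ← prod_mul_distrib]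
    rw [e_av_prod (fun p hp => ((e_DS_mem.1 h).1 p hp).1) fun p _ => (hf p).mul (hf p)]
    refine prod_le_prod (fun p _ => e_av_nonneg _ fun _ => mul_self_nonneg _) fun p hp => ?_
    have := (e_DS_mem.1 h).1 p hp
    rw [e_av_tr hz (e_odd hW this.1 this.2) ((fp_pr p).mul (fp_pr p)), e_dg (K := K)]
    push_cast
    exact e_av_fp_sq this.1 ((e_big hW).lt this.1 this.2).le
  · by_cases h1 : D' ⊆ D
    · simp only [mul_comm (∏ p ∈ D, p), mul_comm (∏ p ∈ D, fp p _)]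
      exact e_orth h h' hf (h0 D h) fun h2 => e (h1.antisymm h2)
    · exact e_orth h' h hf (h0 D' h') h1

variable (K) in
theorem e_meanT : ∃ w : ℕ, ∀ (W Q : ℕ) (z w₁ : 𝓞 K), 0 < W → eBig w W → 1 ≤ Q →
    (nm z).natAbs.Prime → IsCoprime z (cO z) → 1 / 2 / ((2 * W : ℕ) : ℝ) ^ dg K ≤
      ∑ D ∈ eDS W Q, av (2 * W * ∏ p ∈ D, p) fun x => mu (2 * W) (2 * W * ∏ p ∈ D, p) x *
        (cl1 (2 * W) w₁ x * ∏ p ∈ D, fp p (tr z x)) := by
  obtain ⟨θ, h0, hθ⟩ := e_theta K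
  refine ⟨24 * dg K ^ 2 + (nm θ).natAbs, fun W Q z w₁ hW0 hw hQ hz' hz => ?_⟩
  have hW : eBig (24 * dg K ^ 2) W := hw.mono (Nat.le_add_right _ _)
  have hθW : ∀ p, p.Prime → ¬ p ∣ W → ¬ p ∣ (nm θ).natAbs := fun p hp h e =>
    h (hw p hp ((Nat.le_of_dvd (Int.natAbs_pos.2 (Algebra.norm_ne_zero_iff.2 h0)) e).trans
      (Nat.le_add_left _ _)))
  have hd := dg_pos K
  have hW1 : eBig (2 * dg K) W := hW.mono (by nlinarith only [])
  have h2 : ∀ p, p.Prime → ¬ p ∣ W → ¬ p ∣ 2 * W := fun p hp h e =>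
    (hp.dvd_mul.1 e).elim (fun e => by
      have := hW1.lt hp h
      have := Nat.le_of_dvd two_pos e
      omega) h
  have h1 := e_half_abs (W := W) hQ (m := fun p => av p fun w => un p w / Vp K p * fp p (tr z w))
    (n := (nm z).natAbs) (c := 4 * dg K ^ 2) (by positivity) (by positivity)
    (by push_cast; linarith only []) hW (fun p hp h => (e_mp1 hz hp (hW1.lt hp h).le).trans (by
      have : (1 : ℝ) ≤ dg K := by exact_mod_cast hd
      rw [mul_div_assoc]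
      gcongr
      nlinarith only [this])) fun p hp h e => (e_mp2 hθ hz hp (hW1.lt hp h).le (hθW p hp h)
        fun e' => e ((Nat.prime_dvd_prime_iff_eq hp hz').1 e')).trans_eq (mul_div_assoc _ _ _).symm
  refine (div_le_div_of_nonneg_right h1 (by positivity)).trans_eq ?_
  rw [sum_div]
  refine sum_congr rfl fun D h => ?_
  have h3 := (e_DS_mem.1 h).1
  have h4 : (2 * W * ∏ p ∈ D, p).primeFactors.filter (fun p => ¬ p ∣ 2 * W) = D := by
    ext p
    rw [mem_filter, Nat.primeFactors_mul (by omega) (eDS_pos h).ne', mem_union,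
      Nat.primeFactors_prod fun p hp => (h3 p hp).1]
    exact ⟨fun a => a.1.resolve_left fun b => a.2 (Nat.dvd_of_mem_primeFactors b),
      fun a => ⟨Or.inr a, h2 p (h3 p a).1 (h3 p a).2⟩⟩
  simp only [mu, h4, mul_left_comm _ (cl1 _ _ _), ← prod_mul_distrib]
  rw [e_av_mul_prod (by omega) (fun p hp => ⟨(h3 p hp).1, h2 p (h3 p hp).1 (h3 p hp).2⟩)
    (cl1_pr _ _) fun p _ => ((un_pr p).comp fun x => x / Vp K p).mul ((fp_pr p).map _),
    e_av_class (by omega)]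
  ring

end CM

end Pool.Agent.MP_a59382_lc.V3

end

-- part MP_a59382_lc.V3.EAn
section

/-! The model against the weights. -/

set_option autoImplicit false
set_option linter.unusedSectionVars false

namespace Pool.Agent.MP_a59382_lc.V3

open Finset NumberField Filter Pool.Agent.MP_48b1c3_nt.H91

section General

variable {k : Type} [Field k] [NumberField k]

theorem e_ev (C : ℝ) (n : ℕ) : ∀ᶠ X : ℝ in atTop, C * Real.log X ^ n ≤ X := by
  filter_upwards [((Real.isLittleO_pow_log_id_atTop (n := n)).const_mul_left C).eventuallyLE,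
    eventually_ge_atTop 0] with X h1 h2
  exact (le_abs_self _).trans (h1.trans_eq (abs_of_nonneg h2))

theorem e_evl (C : ℝ) : ∀ᶠ X : ℝ in atTop, C ≤ Real.log X :=
  Real.tendsto_log_atTop.eventually_ge_atTop C

theorem e_smb {X R : ℝ} (hX : 1 ≤ X) {Φ : ((k →+* ℂ) → ℂ) → ℝ} (h : ∀ z, Φ z ≠ 0 → ‖z‖ ≤ R)
    (g : 𝓞 k → ℝ) : Summable fun a => g a * Φ (sc X a) := by
  obtain ⟨C, -, hC⟩ := w_fin k R
  obtain ⟨s, -, hs⟩ := hC X hX
  exact summable_of_ne_finset_zero (s := s) fun a ha => by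
    rw [not_not.1 fun e => ha (hs a (h _ e)), mul_zero]

theorem Wt.norm {R L : ℝ} {Φ : ((k →+* ℂ) → ℂ) → ℝ} (h : Wt R L Φ) (z : (k →+* ℂ) → ℂ)
    (e : Φ z ≠ 0) : ‖z‖ ≤ R :=
  (pi_norm_le_iff_of_nonempty _).2 fun φ => (h.supp z e φ).2.1

theorem Wt.mono {R L L' : ℝ} {Φ : ((k →+* ℂ) → ℂ) → ℝ} (h : Wt R L Φ) (e : L ≤ L') : Wt R L' Φ :=
  ⟨h.le, fun z w => (h.lip z w).trans (mul_le_mul_of_nonneg_right e (norm_nonneg _)), h.supp⟩

theorem e_sum_err {ι : Type} {s : Finset ι} {f g : ι → ℝ} {E N : ℝ} (hE : 0 ≤ E)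
    (hs : (#s : ℝ) ≤ N) (h : ∀ i ∈ s, |f i - g i| ≤ E) : |∑ i ∈ s, f i - ∑ i ∈ s, g i| ≤ N * E := by
  rw [← sum_sub_distrib]
  exact (abs_sum_le_sum_abs _ _).trans ((sum_le_card_nsmul _ _ _ h).trans
    (by rw [nsmul_eq_mul]; exact mul_le_mul_of_nonneg_right hs hE))

theorem e_G {lam : 𝓞 k → ℝ} {W : ℕ} {a₀ : 𝓞 k} {c : ℝ} (h0 : 0 < W) (hW : eBig (2 * dg k) W)
    (h : Eqd lam W a₀ c) : eMod lam W a₀ c := by
  intro A B R
  obtain ⟨C, hC0, hC⟩ := w_lat k R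
  filter_upwards [h (A + 1) (B + 1) R, e_ev (2 * |c| * C * W) (4 * B + A), e_ev W (2 * B),
    e_evl 2, e_evl W, eventually_ge_atTop 1] with X h1 h2 h3 h4 h5 hX Q m η Φ hm hQ hB hη hs hΦ
  set L := Real.log X
  have hm' : (m : ℝ) ≤ L ^ B := le_trans (by exact_mod_cast hQ) hB
  have hL : 0 < L := by linarith only [h4]
  have a1 := h1 (W * m) η Φ (Nat.mul_pos h0 hm) (dvd_mul_right _ _) (by
    rw [pow_succ']; push_cast; gcongr) hη hs (hΦ.mono (pow_le_pow_right₀ (by linarith only [h4]) (by omega)))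
  have a2 := e_sum_err (s := eDS W Q) (f := fun D => ∑' a, fD D a * η a * Φ (sc X a))
    (g := fun D => X ^ dg k * av (W * m * ∏ p ∈ D, p) (fun a => fD D a * η a) * ∫ x, Φ (emb x))
    (E := C * L ^ B * (W * L ^ (2 * B)) * X ^ dg k / X) (by positivity) ((eDS_card W Q).trans hB)
    fun D hD => by
      have b1 : ((W * m * ∏ p ∈ D, p : ℕ) : ℝ) ≤ W * L ^ (2 * B) := by
        have : ((∏ p ∈ D, p : ℕ) : ℝ) ≤ L ^ B :=
          le_trans (by exact_mod_cast (e_DS_mem.1 hD).2) hB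
        rw [Nat.cast_mul, Nat.cast_mul, mul_assoc, two_mul, pow_add]
        gcongr
      refine (hC X _ _ _ Φ (Nat.mul_pos (Nat.mul_pos h0 hm) (eDS_pos hD)) (b1.trans h3)
        (by positivity) ((((fD_pr D).mono (dvd_mul_left _ _)).mul
          (hη.pr.mono (dvd_mul_right _ _))).pe fun a => ?_) hΦ.lip hΦ.norm).trans (by gcongr)
      rw [abs_mul]
      exact mul_le_one₀ (fD_abs hW hD a) (abs_nonneg _) (hη.2 a)
  have a0 : ∑ D ∈ eDS W Q, av (W * m * ∏ p ∈ D, p) (fun a => fD D a * η a) = _ :=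
    e_meanG h0 hW hm hQ hη.pr
  rw [← sum_mul, ← mul_sum, a0, ← Summable.tsum_finsetSum fun D _ => e_smb hX hΦ.norm _] at a2
  have a3 : ∑' a, eG lam c W Q a * η a * Φ (sc X a) = ∑' a, lam a * η a * Φ (sc X a) -
      c * ∑' a, ∑ D ∈ eDS W Q, fD D a * η a * Φ (sc X a) := by
    rw [← tsum_mul_left, ← Summable.tsum_sub (e_smb hX hΦ.norm _)
      ((summable_sum fun D _ => e_smb hX hΦ.norm _).mul_left c)]
    refine tsum_congr fun a => ?_
    rw [← sum_mul, ← sum_mul, eG, eM_eq]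
    ring
  have a4 : X ^ dg k / L ^ (A + 1) ≤ X ^ dg k / L ^ A / 2 := by
    rw [div_div, pow_succ]
    gcongr
  have a5 : |c| * (L ^ B * (C * L ^ B * (W * L ^ (2 * B)) * X ^ dg k / X)) ≤
      X ^ dg k / L ^ A / 2 := by
    rw [div_div, le_div_iff₀ (by positivity)]
    calc _ = 2 * |c| * C * W * L ^ (4 * B + A) / X * X ^ dg k := by ring
      _ ≤ 1 * X ^ dg k := by gcongr; exact (div_le_one (by positivity)).2 h2
      _ = _ := one_mul _
  have a6 := mul_le_mul_of_nonneg_left a2 (abs_nonneg c)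
  rw [← abs_mul] at a6
  rw [a3]
  refine le_trans (le_of_eq ?_) ((abs_sub _ _).trans ((add_le_add (a1.trans a4)
    (a6.trans a5)).trans_eq (add_halves _)))
  congr 1
  ring

end General

variable {K : Type} [Field K] [NumberField K] [IsCMField K]

omit [IsCMField K] in
theorem e_T_norm {L₀ : ℝ} {ψ : ((K →+* ℂ) → ℂ) → ℝ} (h : eTent (-1) (1 / 10) L₀ ψ)
    {z : (K →+* ℂ) → ℂ} (hz : ψ z ≠ 0) (φ : K →+* ℂ) : 1 / 2 ≤ ‖z φ‖ ∧ ‖z φ‖ ≤ 2 := by
  have h1 := h.supp z hz φ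
  have h2 := abs_norm_sub_norm_le (z φ) ((-1 : ℝ) : ℂ)
  rw [Complex.norm_real, norm_neg, norm_one, abs_le] at h2
  constructor <;> linarith [h2.1, h2.2]

variable (K) in
/-- `Eqd` for each `D` with `q = 2 W ∏ D`, `e_meanT`, at most `Q` error terms -/
theorem e_T : ∃ w : ℕ, ∀ (W : ℕ) (lw : 𝓞 K → ℝ) (w₁ : 𝓞 K) (cw L₀ : ℝ)
    (ψ : ((K →+* ℂ) → ℂ) → ℝ), 0 < W → eBig w W → 0 < cw → Eqd lw (2 * W) w₁ cw →
    eTent (-1) (1 / 10) L₀ ψ → 0 < ∫ x, ψ (emb x) → ∃ c : ℝ, 0 < c ∧ ∀ B : ℕ,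
      ∀ᶠ X : ℝ in atTop, ∀ (Q : ℕ) (z : 𝓞 K), 1 ≤ Q → (Q : ℝ) ≤ Real.log X ^ B →
        (nm z).natAbs.Prime → IsCoprime z (cO z) → c * X ^ dg K ≤
          ∑' x, lw x * (cl1 (2 * W) w₁ x * ψ (sc X x)) * eM W Q (tr z x) := by
  obtain ⟨w, hw⟩ := e_meanT K
  obtain ⟨C, -, hC⟩ := w_fin K 2
  refine ⟨w + 2 * dg (maximalRealSubfield K), fun W lw w₁ cw L₀ ψ h0 hW hc hE hψ hI => ?_⟩
  generalize hI' : ∫ x, ψ (emb x) = I at hI
  have hV : (0 : ℝ) < ((2 * W : ℕ) : ℝ) ^ dg K := by positivity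
  generalize hc' : cw * I * (1 / 2 / ((2 * W : ℕ) : ℝ) ^ dg K) / 2 = c
  have hc0 : 0 < c := hc' ▸ by positivity
  refine ⟨c, hc0, fun B => ?_⟩
  filter_upwards [hE (B + 1) (B + 1) 2, eventually_ge_atTop (1 : ℝ),
    Real.tendsto_log_atTop.eventually_ge_atTop (1 + (2 * W : ℕ) + L₀ + 1 / c)] with X hX h1 hL
  intro Q z hQ1 hQ hp hz
  obtain ⟨s, -, hs⟩ := hC X h1
  have hL0 := hψ.pos
  have hci : 0 < 1 / c := by positivity
  have hW0 : (0 : ℝ) ≤ (2 * W : ℕ) := Nat.cast_nonneg _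
  generalize Real.log X = L at hX hL hQ
  have hL1 : 1 ≤ L := by linarith only [hL0, hci, hL]
  have hB := one_le_pow₀ (n := B) hL1
  have hXd : 0 < X ^ dg K := by positivity
  have hWt : Wt 2 (L ^ (B + 1)) ψ := ⟨fun z => abs_le.2 ⟨by linarith only [(hψ.mem z).1], (hψ.mem z).2⟩,
    fun z w => (hψ.lip z w).trans (mul_le_mul_of_nonneg_right
      (le_trans (by linarith only [hci, hL]) (le_self_pow₀ hL1 (Nat.succ_ne_zero B))) (norm_nonneg _)),
    fun z hz φ => ⟨(e_T_norm hψ hz φ).1, (e_T_norm hψ hz φ).2,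
      fun h => absurd h (IsTotallyComplex.complexEmbedding_not_isReal φ)⟩⟩
  have key : ∀ D ∈ eDS W Q, cw * X ^ dg K * av (2 * W * ∏ p ∈ D, p) (fun x =>
      mu (2 * W) (2 * W * ∏ p ∈ D, p) x * (cl1 (2 * W) w₁ x * ∏ p ∈ D, fp p (tr z x))) * I -
        X ^ dg K / L ^ (B + 1) ≤
      ∑' x, lw x * (cl1 (2 * W) w₁ x * ∏ p ∈ D, fp p (tr z x)) * ψ (sc X x) := by
    intro D hD
    obtain ⟨hD1, hD2⟩ := e_DS_mem.1 hD
    have := hX (2 * W * ∏ p ∈ D, p) (fun x => cl1 (2 * W) w₁ x * ∏ p ∈ D, fp p (tr z x)) ψ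
      (mul_pos (by omega) (prod_pos fun p hp => (hD1 p hp).1.pos)) (dvd_mul_right _ _) (by
        rw [Nat.cast_mul, pow_succ']
        exact mul_le_mul (by linarith only [hL0, hci, hL]) ((Nat.cast_le.2 hD2).trans hQ) (Nat.cast_nonneg _)
          (by linarith only [hL0, hci, hL]))
      (Pr.pe (((cl1_pr _ _).mono (dvd_mul_right _ _)).mul (Pr.prod fun p hp =>
        ((fp_pr p).map (tr z)).mono ((dvd_prod_of_mem (fun p => p) hp).mul_left _))) fun a => by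
          rw [abs_mul, abs_prod]
          exact mul_le_one₀ (cl1_abs _ _ _) (prod_nonneg fun _ _ => abs_nonneg _)
            (prod_le_one (fun _ _ => abs_nonneg _) fun p hp => fp_abs (hD1 p hp).1
              (by_contra fun h => (hD1 p hp).2 (hW p (hD1 p hp).1 (by omega))) _))
      (fun a ha => cl1_ne.1 (left_ne_zero_of_mul ha)) hWt
    rw [hI'] at this
    linarith only [(abs_le.1 this).1]
  have hsum : ∑' x, lw x * (cl1 (2 * W) w₁ x * ψ (sc X x)) * eM W Q (tr z x) = ∑ D ∈ eDS W Q,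
      ∑' x, lw x * (cl1 (2 * W) w₁ x * ∏ p ∈ D, fp p (tr z x)) * ψ (sc X x) := by
    rw [← Summable.tsum_finsetSum fun D _ => summable_of_ne_finset_zero (s := s) fun a ha => by
      rw [of_not_not fun h => ha (hs a ((pi_norm_le_iff_of_nonneg zero_le_two).2
        fun φ => (e_T_norm hψ h φ).2)), mul_zero]]
    refine tsum_congr fun x => ?_
    rw [eM, mul_sum]
    exact sum_congr rfl fun D _ => by ring
  have h2 := sum_le_sum key
  rw [sum_sub_distrib, ← sum_mul, ← mul_sum, sum_const, nsmul_eq_mul, ← hsum] at h2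
  have h3 := mul_le_mul_of_nonneg_left (hw W Q z w₁ h0 (fun p hp h => hW p hp (by omega)) hQ1 hp hz)
    (show 0 ≤ cw * X ^ dg K * I by positivity)
  have h4 : (#(eDS W Q) : ℝ) * (X ^ dg K / L ^ (B + 1)) ≤ c * X ^ dg K := by
    rw [← mul_div_assoc, div_le_iff₀ (by positivity), mul_right_comm, pow_succ']
    refine mul_le_mul_of_nonneg_right (((Nat.cast_le.2 (e_DS_card W Q)).trans hQ).trans ?_) hXd.le
    have : 1 ≤ c * L := by
      rw [← div_le_iff₀' hc0]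
      linarith only [hL0, hL]
    rw [← mul_assoc]
    exact le_mul_of_one_le_left (by linarith only [hB]) this
  have h5 : cw * X ^ dg K * I * (1 / 2 / ((2 * W : ℕ) : ℝ) ^ dg K) = 2 * (c * X ^ dg K) := by
    rw [← hc']
    ring
  linarith only [h2, h3, h4, h5]

end Pool.Agent.MP_a59382_lc.V3

end
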