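import Pool.Agent.MP_48b1c3_nt.Mg.H91_LogDer
import Pool.Agent.MP_a96b63_al.V.SW

/-! Hecke characters with an archimedean component: definitions and algebra. -/

namespace Pool.Agent.MP_a59382_lc.V3.Gx

open Finset NumberField Filter MP_48b1c3_nt.H54 MP_48b1c3_nt.H91
open scoped ContDiff Topology

section Arch

variable {ι : Type} [Fintype ι]

/-- the character `∏ |z φ| ^ (i t φ) (z φ / |z φ|) ^ m φ` -/
noncomputable def arC (t : ι → ℝ) (m : ι → ℤ) (z : ι → ℂ) : ℂ :=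
  ∏ φ, Complex.exp (Complex.I * t φ * Real.log ‖z φ‖) * (z φ / ‖z φ‖) ^ m φ

/-- the parameters are bounded by `T` -/
def Sz (T : ℝ) (t : ι → ℝ) (m : ι → ℤ) : Prop := ∀ φ, |t φ| ≤ T ∧ |(m φ : ℝ)| ≤ T

theorem arC_zero (z : ι → ℂ) : arC 0 0 z = 1 := by simp [arC]

theorem norm_arC (t : ι → ℝ) (m : ι → ℤ) {z : ι → ℂ} (hz : ∀ φ, z φ ≠ 0) : ‖arC t m z‖ = 1 := by
  rw [arC, norm_prod]
  refine prod_eq_one fun φ _ => ?_
  rw [norm_mul, norm_zpow, norm_div, Complex.norm_real, norm_norm,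
    div_self (norm_ne_zero_iff.2 (hz φ)), one_zpow, mul_one, mul_assoc, ← Complex.ofReal_mul,
    mul_comm, Complex.norm_exp_ofReal_mul_I]

theorem arC_add (t t' : ι → ℝ) (m m' : ι → ℤ) {z : ι → ℂ} (hz : ∀ φ, z φ ≠ 0) :
    arC (t + t') (m + m') z = arC t m z * arC t' m' z := by
  rw [arC, arC, arC, ← prod_mul_distrib]
  refine prod_congr rfl fun φ _ => ?_
  have h : z φ / ‖z φ‖ ≠ 0 :=
    div_ne_zero (hz φ) (Complex.ofReal_ne_zero.2 (norm_ne_zero_iff.2 (hz φ)))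
  rw [Pi.add_apply, Pi.add_apply, zpow_add₀ h, Complex.ofReal_add, mul_add, add_mul,
    Complex.exp_add]
  ring

theorem arC_mul (t : ι → ℝ) (m : ι → ℤ) {z w : ι → ℂ} (hz : ∀ φ, z φ ≠ 0) (hw : ∀ φ, w φ ≠ 0) :
    arC t m (z * w) = arC t m z * arC t m w := by
  rw [arC, arC, arC, ← prod_mul_distrib]
  refine prod_congr rfl fun φ _ => ?_
  rw [Pi.mul_apply, norm_mul, Real.log_mul (norm_ne_zero_iff.2 (hz φ)) (norm_ne_zero_iff.2 (hw φ)),
    Complex.ofReal_add, mul_add, Complex.exp_add, Complex.ofReal_mul, ← div_mul_div_comm, mul_zpow]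
  ring

theorem arC_const {t : ι → ℝ} (ht : ∑ φ, t φ = 0) (m : ι → ℤ) {c : ℝ} (hc : 0 < c) :
    arC t m (fun _ => c) = 1 := by
  have h : ((c : ℂ) / ‖(c : ℂ)‖) = 1 := by
    rw [Complex.norm_real, Real.norm_of_nonneg hc.le, div_self (Complex.ofReal_ne_zero.2 hc.ne')]
  simp only [arC, h, one_zpow, mul_one]
  rw [← Complex.exp_sum, ← sum_mul, ← mul_sum, ← Complex.ofReal_sum, ht]
  simp

theorem arC_div {t : ι → ℝ} (ht : ∑ φ, t φ = 0) (m : ι → ℤ) {c : ℝ} (hc : 0 < c) {z : ι → ℂ}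
    (hz : ∀ φ, z φ ≠ 0) : arC t m (fun φ => z φ / c) = arC t m z := by
  have h := arC_mul t m hz (w := fun _ => ((c⁻¹ : ℝ) : ℂ))
    fun _ => Complex.ofReal_ne_zero.2 (inv_pos.2 hc).ne'
  rw [arC_const ht m (inv_pos.2 hc), mul_one] at h
  rw [← h]
  congr 1
  funext φ
  simp [div_eq_mul_inv]

omit [Fintype ι] in
theorem Sz.add {T T' : ℝ} {t t' : ι → ℝ} {m m' : ι → ℤ} (h : Sz T t m) (h' : Sz T' t' m') :
    Sz (T + T') (t + t') (m + m') := fun φ =>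
  ⟨(abs_add_le _ _).trans (add_le_add (h φ).1 (h' φ).1), by
    rw [Pi.add_apply, Int.cast_add]
    exact (abs_add_le _ _).trans (add_le_add (h φ).2 (h' φ).2)⟩

omit [Fintype ι] in
theorem Sz.mono {T T' : ℝ} {t : ι → ℝ} {m : ι → ℤ} (h : Sz T t m) (h' : T ≤ T') : Sz T' t m :=
  fun φ => ⟨(h φ).1.trans h', (h φ).2.trans h'⟩

end Arch

variable {K : Type} [Field K] [NumberField K]

/-- the archimedean character on the field -/
noncomputable def ar (t : (K →+* ℂ) → ℝ) (m : (K →+* ℂ) → ℤ) (α : K) : ℂ :=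
  arC t m fun φ => φ α

theorem ar_zero (α : K) : ar 0 0 α = 1 := arC_zero _

theorem norm_ar (t : (K →+* ℂ) → ℝ) (m : (K →+* ℂ) → ℤ) {α : K} (h : α ≠ 0) : ‖ar t m α‖ = 1 :=
  norm_arC t m fun φ => (map_ne_zero φ).2 h

theorem ar_add (t t' : (K →+* ℂ) → ℝ) (m m' : (K →+* ℂ) → ℤ) {α : K} (h : α ≠ 0) :
    ar (t + t') (m + m') α = ar t m α * ar t' m' α :=
  arC_add t t' m m' fun φ => (map_ne_zero φ).2 h

theorem ar_mul (t : (K →+* ℂ) → ℝ) (m : (K →+* ℂ) → ℤ) {α β : K} (h : α ≠ 0) (h' : β ≠ 0) :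
    ar t m (α * β) = ar t m α * ar t m β := by
  rw [ar, ar, ar, ← arC_mul t m (fun φ => (map_ne_zero φ).2 h) fun φ => (map_ne_zero φ).2 h']
  congr 1
  funext φ
  exact map_mul φ α β

theorem ar_one (t : (K →+* ℂ) → ℝ) (m : (K →+* ℂ) → ℤ) : ar t m 1 = 1 := by simp [ar, arC]

theorem ar_pow (t : (K →+* ℂ) → ℝ) (m : (K →+* ℂ) → ℤ) {α : K} (h : α ≠ 0) (j : ℕ) :
    ar t m (α ^ j) = ar t m α ^ j := by
  induction j with
  | zero => rw [pow_zero, pow_zero, ar_one]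
  | succ j ih => rw [pow_succ, pow_succ, ar_mul t m (pow_ne_zero j h) h, ih]

/-- Hecke characters modulo `q` with archimedean component `ar t m` -/
structure GC (q : ℕ) (t : (K →+* ℂ) → ℝ) (m : (K →+* ℂ) → ℤ) (F : Ideal (𝓞 K) → ℂ) : Prop where
  pos : 0 < q
  sum : ∑ φ, t φ = 0
  le : ∀ I, ‖F I‖ ≤ 1
  one : F ⊤ = 1
  mul : ∀ I J, F (I * J) = F I * F J
  cop : ∀ I, F I ≠ 0 → Cop q I
  per : ∀ (a a' b : Ideal (𝓞 K)) (α α' : 𝓞 K), a * b = Ideal.span {α} →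
    a' * b = Ideal.span {α'} → ((q * Ideal.absNorm b : ℕ) : 𝓞 K) ∣ α - α' → 0 < nm α * nm α' →
      F a * ar t m α' = F a' * ar t m α

/-- not principal -/
def NP (q : ℕ) (F : Ideal (𝓞 K) → ℂ) : Prop := ∃ I, I ≠ ⊥ ∧ Cop q I ∧ F I ≠ 1

theorem gc_ne {α α' : 𝓞 K} (h : 0 < nm α * nm α') : (α : K) ≠ 0 ∧ (α' : K) ≠ 0 := by
  constructor <;> intro e <;> rw [RingOfIntegers.coe_eq_zero_iff] at e <;> simp [e] at h

theorem GC.mul' {q : ℕ} {t t' : (K →+* ℂ) → ℝ} {m m' : (K →+* ℂ) → ℤ}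
    {F F' : Ideal (𝓞 K) → ℂ} (h : GC q t m F) (h' : GC q t' m' F') :
    GC q (t + t') (m + m') (F * F') where
  pos := h.pos
  sum := by simp only [Pi.add_apply, sum_add_distrib, h.sum, h'.sum, add_zero]
  le I := by
    rw [Pi.mul_apply, norm_mul]
    exact mul_le_one₀ (h.le I) (norm_nonneg _) (h'.le I)
  one := by rw [Pi.mul_apply, h.one, h'.one, mul_one]
  mul I J := by
    simp only [Pi.mul_apply, h.mul, h'.mul]
    ring
  cop I hI := h.cop I (left_ne_zero_of_mul hI)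
  per a a' b α α' h1 h2 h3 h4 := by
    rw [ar_add _ _ _ _ (gc_ne h4).1, ar_add _ _ _ _ (gc_ne h4).2, Pi.mul_apply, Pi.mul_apply,
      mul_mul_mul_comm, h.per a a' b α α' h1 h2 h3 h4, h'.per a a' b α α' h1 h2 h3 h4,
      mul_mul_mul_comm]

theorem GC.mul_hc {q W : ℕ} {t : (K →+* ℂ) → ℝ} {m : (K →+* ℂ) → ℤ} {F ξ : Ideal (𝓞 K) → ℂ}
    (h : GC q t m F) (h' : HC W ξ) (hW : W ∣ q) : GC q t m (F * ξ) where
  pos := h.pos
  sum := h.sum
  le I := by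
    rw [Pi.mul_apply, norm_mul]
    exact mul_le_one₀ (h.le I) (norm_nonneg _) (h'.le I)
  one := by rw [Pi.mul_apply, h.one, h'.one, mul_one]
  mul I J := by
    simp only [Pi.mul_apply, h.mul, h'.mul]
    ring
  cop I hI := h.cop I (left_ne_zero_of_mul hI)
  per a a' b α α' h1 h2 h3 h4 := by
    rw [Pi.mul_apply, Pi.mul_apply, mul_right_comm, h.per a a' b α α' h1 h2 h3 h4,
      (h'.toPF.mono hW h.pos).per a a' b α α' h1 h2 h3 h4, mul_right_comm]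

theorem gc_of_hc {q : ℕ} {F : Ideal (𝓞 K) → ℂ} (h : HC q F) : GC q 0 0 F :=
  ⟨h.pos, by simp, h.le, h.one, h.mul, h.cop, fun a a' b α α' h1 h2 h3 h4 => by
    rw [ar_zero, ar_zero, h.per a a' b α α' h1 h2 h3 h4]⟩

theorem GC.hc {q : ℕ} {t : (K →+* ℂ) → ℝ} {m : (K →+* ℂ) → ℤ} {F : Ideal (𝓞 K) → ℂ}
    (h : GC q t m F) (h1 : ∀ α : K, α ≠ 0 → ar t m α = 1) : HC q F :=
  ⟨⟨h.pos, h.le, fun a a' b α α' p1 p2 p3 p4 => by
    have := h.per a a' b α α' p1 p2 p3 p4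
    rwa [h1 _ (gc_ne p4).1, h1 _ (gc_ne p4).2, mul_one, mul_one] at this⟩, h.one, h.mul, h.cop⟩

theorem GC.span {q : ℕ} {t : (K →+* ℂ) → ℝ} {m : (K →+* ℂ) → ℤ} {F : Ideal (𝓞 K) → ℂ}
    (h : GC q t m F) {α : 𝓞 K} (h1 : (q : 𝓞 K) ∣ α - 1) (h2 : 0 < nm α) :
    F (Ideal.span {α}) = ar t m α := by
  have := h.per (Ideal.span {α}) ⊤ ⊤ α 1 (Ideal.mul_top _)
    (by rw [Ideal.mul_top, Ideal.span_singleton_one]) (by simpa using h1) (by simpa using h2)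
  rwa [h.one, one_mul, show ((1 : 𝓞 K) : K) = 1 from rfl, ar_one, mul_one] at this

/-- sums over the ideals of prime norm, weighted by the logarithm of the norm -/
noncomputable def pushP (F : Ideal (𝓞 K) → ℂ) (n : ℕ) : ℂ :=
  if n.Prime then Real.log n * push F n else 0

variable (K) in
/-- the density of the ideals prime to `q` -/
noncomputable def kq (q : ℕ) : ℝ := (kap (dir K (1 : DirichletCharacter ℂ q))).re

/-- the embeddings in real lattice coordinates -/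
noncomputable def emb (x : Ix K → ℝ) (φ : K →+* ℂ) : ℂ :=
  ∑ i, x i * φ (RingOfIntegers.basis K i : 𝓞 K)

theorem emb_pt (H : ℝ) (a : Ix K → ℤ) (φ : K →+* ℂ) :
    emb (pt H a) φ = φ (el K a : 𝓞 K) / H := by
  simp only [emb, pt, el, Module.Basis.equivFun_symm_apply, map_sum, zsmul_eq_mul, sum_div]
  refine sum_congr rfl fun i _ => ?_
  simp only [map_mul, map_intCast]
  push_cast
  ring

/-- the error term of a smoothed sum -/
noncomputable def er (κ : ℂ) (a : ℕ → ℂ) (v : ℝ → ℂ) (y : ℝ) : ℝ :=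
  ‖sm a v y - κ * y * ∫ u : ℝ, v u * Real.exp u‖

/-- information on smoothed sums: mean value `κ`, conductor `P` -/
structure TI (d : ℕ) (C P : ℝ) (κ : ℂ) (a : ℕ → ℂ) : Prop where
  le : ‖κ‖ ≤ C
  sum : ∀ s : ℂ, 1 < s.re → LSeriesSummable a s
  zero : ∀ (v : ℝ → ℂ) (B y : ℝ), Test v → Db 0 B v → 1 ≤ y → er κ a v y ≤ C * B * y
  one : ∀ (v : ℝ → ℂ) (B y : ℝ), Test v → Db 1 B v → 1 ≤ y →
    er κ a v y ≤ C * B * P * y ^ (1 - (1 : ℝ) / d)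
  all : ∀ k : ℕ, ∃ C' : ℝ, 0 < C' ∧ ∀ (v : ℝ → ℂ) (B y : ℝ), Test v → Db k B v → 1 ≤ y →
    er κ a v y ≤ C' * B * y ^ (1 - (k : ℝ) / d)

theorem TI.mono {d : ℕ} {C C' P P' : ℝ} {κ : ℂ} {a : ℕ → ℂ} (h : TI d C P κ a) (hC : C ≤ C')
    (h0 : 0 ≤ P) (hP : P ≤ P') : TI d C' P' κ a := by
  have c0 : 0 ≤ C := (norm_nonneg _).trans h.le
  refine ⟨h.le.trans hC, h.sum, fun v B y h1 h2 h3 => (h.zero v B y h1 h2 h3).trans ?_,
    fun v B y h1 h2 h3 => (h.one v B y h1 h2 h3).trans ?_, h.all⟩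
  · have B0 : 0 ≤ B := (norm_nonneg _).trans (h2 0 le_rfl 0)
    gcongr
  · have B0 : 0 ≤ B := (norm_nonneg _).trans (h2 0 zero_le_one 0)
    have c1 := c0.trans hC
    gcongr

/-- the entire function `L(s) - κ / (s - 1)` -/
noncomputable def aE (κ : ℂ) (a : ℕ → ℂ) (s : ℂ) : ℂ :=
  κ * cont_A s + ∑' j : ℕ, Complex.exp (-s * j) *
    (sm a (cont_vs s) (Real.exp j) - κ * (Real.exp j : ℝ) * cont_I s)

theorem aE_ent {q : ℕ} {f : Ideal (𝓞 K) → ℂ} (h : PF q f) : aE (kap f) (push f) = Ent f :=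
  (cont_Ent_eq h).symm

/-- bounds for the derivatives of an L-series to the right of the line `re s = 1` -/
def LB (k : ℕ) (M : ℝ) (b : ℕ → ℂ) : Prop :=
  (∀ s : ℂ, 1 < s.re → LSeriesSummable (fun n => (Real.log n : ℂ) ^ k * b n) s) ∧
    ∀ s : ℂ, 1 < s.re → s.re ≤ 2 →
      ‖LSeries (fun n => (Real.log n : ℂ) ^ k * b n) s‖ ≤ M * √(|s.im| + 2)

theorem LB.mono {k : ℕ} {M M' : ℝ} {b : ℕ → ℂ} (h : LB k M b) (hM : M ≤ M') : LB k M' b :=
  ⟨h.1, fun s h1 h2 => (h.2 s h1 h2).trans (by gcongr)⟩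

end Pool.Agent.MP_a59382_lc.V3.Gx
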