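import Pool.Agent.MP_a59382_lc.Mg.V3_AnDef
import Pool.Agent.MP_48b1c3_nt.Mg.H91_Rep

attribute [-instance] RKHS.instFunLike AddQuantale.instAddLeftMono MonTypeEquivalenceMon.monMonoid
  littleWedderburn instCoeTCOfCoe ContinuousSemilinearMapClass.toSemilinearMapClass
  instCoeOutOfCoeFun ContinuousMonoidHom.instCoeOutOfMonoidHomClassOfContinuousMapClass
  NonUnitalAlgHomClass.toNonUnitalRingHomClass IdemSemiring.toCanonicallyOrderedAdd
  CommMonTypeEquivalenceCommMon.commMonCommMonoid NonUnitalAlgHomClass.instLinearMapClass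
  MonoidWithZero.toMulZeroOneClass CompletePartialOrder.toPartialOrder
  Group.IsPerfect.subsingleton_of_isMulCommutative AddQuantale.instAddRightMono
  instCoeHTCTOfCoeTailOfCoeHTC instCoeTOfCoeDep RingHomClass.toLinearMapClassRat
  instNonUnitalAlgHomClassOfNonUnitalAlgEquivClass IsPurelyInseparable.instOfHasExponent
  CoalgHomClass.toSemilinearMapClass DenselyNormedField.toNormedField Fintype.decidableExistsFintype
  BialgHomClass.toAlgHomClass IdemSemiring.toMulLeftMono instCharZeroOfIsSemireal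
  IsOrderedCancelAddMonoid.toIsCancelAdd IsometryClass.instCoeOutIsometryEquiv
  SemilinearIsometryClass.toSemilinearMapClass TestFunctionClass.toDFunLike
  instIsRightCancelAddOfAddRightReflectLE KleeneAlgebra.toIdemSemiring
  ContinuousAddMonoidHom.instCoeOutOfAddMonoidHomClassOfContinuousMapClass
  NumberField.Units.instCoeHTCUnitsRingOfIntegers
  NonUnitalAlgHomClass.instSemilinearMapClassOfNonUnitalAlgSemiHomClassToMonoidHomRingHom
  LinearOrder.toDecidableEq NormedAlgebra.toAlgebra BialgHomClass.toMonoidHomClass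
  CategoryTheory.Limits.Concrete.instUniqueToTypeTerminal Quantale.instMulRightMono
  HomeomorphClass.instCoeOutHomeomorph ContDiffMapSupportedInClass.toDFunLike
  LieAdmissibleAlgebra.toModule Algebra.WeaklyEtale.flat Fintype.decidableForallFintype
  LieAdmissibleAlgebra.toIsScalarTower NormedDivisionRing.toDivisionRing
  GrpTypeEquivalenceGrp.grpGroup LieAlgebra.toModule BooleanRing.toRing RCLike.charZero_rclike
  NonUnitalNonAssocSemiring.toDistrib SetLike.GradeZero.instCommMonoid instCoeHTC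
  RightPreLieAlgebra.toModule OreLocalization.instRing LeftPreLieAlgebra.toModule
  IsOrderedMonoid.toMulLeftMono RightPreLieAlgebra.toIsScalarTower instCoeHTCT
  NormedCommRing.toCommRing

-- part MP_a59382_lc.V3.WArch
section

/-! Expansion of a weight, summed over a lattice of units, in archimedean characters. -/

set_option autoImplicit false

namespace Pool.Agent.MP_a59382_lc.V3

open Finset NumberField NumberField.Units Filter Pool.Agent.MP_48b1c3_nt.H91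

variable {k : Type} [Field k] [NumberField k]

theorem ar_mul (t : (k →+* ℂ) → ℝ) (m : (k →+* ℂ) → ℤ) {z w : (k →+* ℂ) → ℂ}
    (hz : ∀ φ, z φ ≠ 0) (hw : ∀ φ, w φ ≠ 0) : ar t m (z * w) = ar t m z * ar t m w := by
  unfold ar
  rw [← prod_mul_distrib]
  refine prod_congr rfl fun φ _ => ?_
  rw [Pi.mul_apply, norm_mul, Real.log_mul (norm_ne_zero_iff.2 (hz φ)) (norm_ne_zero_iff.2 (hw φ)),
    mul_add, Complex.ofReal_add, mul_add, Complex.exp_add, Complex.ofReal_mul ‖z φ‖,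
    mul_div_mul_comm, mul_zpow]
  ring

theorem norm_ar (t : (k →+* ℂ) → ℝ) (m : (k →+* ℂ) → ℤ) {z : (k →+* ℂ) → ℂ}
    (hz : ∀ φ, z φ ≠ 0) : ‖ar t m z‖ = 1 := by
  unfold ar
  rw [norm_prod]
  refine prod_eq_one fun φ _ => ?_
  rw [norm_mul, norm_zpow, norm_div, Complex.norm_real, norm_norm,
    div_self (norm_ne_zero_iff.2 (hz φ)), one_zpow, mul_one, mul_comm,
    Complex.norm_exp_ofReal_mul_I]

theorem ar_add (t t' : (k →+* ℂ) → ℝ) (m m' : (k →+* ℂ) → ℤ) {z : (k →+* ℂ) → ℂ}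
    (hz : ∀ φ, z φ ≠ 0) : ar (t + t') (m + m') z = ar t m z * ar t' m' z := by
  unfold ar
  rw [← prod_mul_distrib]
  refine prod_congr rfl fun φ _ => ?_
  have h : z φ / (‖z φ‖ : ℂ) ≠ 0 :=
    div_ne_zero (hz φ) (Complex.ofReal_ne_zero.2 (norm_ne_zero_iff.2 (hz φ)))
  rw [Pi.add_apply, Pi.add_apply, add_mul, Complex.ofReal_add, mul_add, Complex.exp_add,
    zpow_add₀ h]
  ring

theorem ar_one (t : (k →+* ℂ) → ℝ) (m : (k →+* ℂ) → ℤ) : ar t m (sc 1 1) = 1 := by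
  unfold ar
  refine prod_eq_one fun φ _ => ?_
  simp only [sc, map_one, Complex.ofReal_one, ne_eq, one_ne_zero, not_false_eq_true, div_self, norm_one, Real.log_one, mul_zero, Complex.ofReal_zero, Complex.exp_zero, one_zpow, mul_one]

theorem sc_ne {X : ℝ} (hX : X ≠ 0) {a : 𝓞 k} (ha : a ≠ 0) (φ : k →+* ℂ) : sc X a φ ≠ 0 :=
  div_ne_zero ((map_ne_zero φ).2 (RingOfIntegers.coe_ne_zero_iff.2 ha))
    (Complex.ofReal_ne_zero.2 hX)

theorem ar_sc_mul (t : (k →+* ℂ) → ℝ) (m : (k →+* ℂ) → ℤ) {a b : 𝓞 k} (ha : a ≠ 0)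
    (hb : b ≠ 0) : ar t m (sc 1 (a * b)) = ar t m (sc 1 a) * ar t m (sc 1 b) := by
  rw [← ar_mul t m (sc_ne one_ne_zero ha) (sc_ne one_ne_zero hb)]
  congr 1
  funext φ
  simp [sc]

theorem ar_scale {t : (k →+* ℂ) → ℝ} (ht : ∑ φ, t φ = 0) (m : (k →+* ℂ) → ℤ) {X : ℝ}
    (hX : 0 < X) {a : 𝓞 k} (ha : a ≠ 0) : ar t m (sc X a) = ar t m (sc 1 a) := by
  have hX' : (X : ℂ) ≠ 0 := Complex.ofReal_ne_zero.2 hX.ne'
  have h1 : sc X a = sc 1 a * fun _ => ((X⁻¹ : ℝ) : ℂ) := by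
    funext φ
    simp [sc, div_eq_mul_inv]
  have h2 : ar t m (fun _ => ((X⁻¹ : ℝ) : ℂ)) = 1 := by
    unfold ar
    have h3 : ((X⁻¹ : ℝ) : ℂ) / (‖((X⁻¹ : ℝ) : ℂ)‖ : ℝ) = 1 := by
      rw [Complex.norm_real, Real.norm_of_nonneg (inv_pos.2 hX).le,
        div_self (Complex.ofReal_ne_zero.2 (inv_pos.2 hX).ne')]
    simp only [h3, one_zpow, mul_one]
    rw [← Complex.exp_sum, ← mul_sum, ← Complex.ofReal_sum, ← sum_mul, ht, zero_mul,
      Complex.ofReal_zero, mul_zero, Complex.exp_zero]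
  rw [h1, ar_mul t m (sc_ne one_ne_zero ha)
    (fun _ => Complex.ofReal_ne_zero.2 (inv_pos.2 hX).ne'), h2, mul_one]

theorem w_fejer_zero : ec 0 = 1 := by simp [ec]

theorem w_fejer_geo (M : ℕ) (t : ℝ) :
    (∑ a ∈ range M, ec (a * t)) * (ec t - 1) = ec (M * t) - 1 := by
  induction M with
  | zero => simp [w_fejer_zero]
  | succ n ih => rw [sum_range_succ, add_mul, ih, Nat.cast_succ, add_mul, one_mul, ec_add]; ring

theorem w_fejer_low (t : ℝ) : 4 * |t - round t| ≤ ‖ec t - 1‖ := by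
  have := norm_ec_sub_one (abs_sub_round t)
  rwa [sub_eq_add_neg, ec_add, ← Int.cast_neg, ec_int, mul_one, Int.cast_neg,
    ← sub_eq_add_neg] at this

theorem w_fejer_orth {M a b : ℕ} (ha : a < M) (hb : b < M) :
    ∑ j ∈ range M, ec (j * (((b : ℝ) - a) / M)) = if a = b then (M : ℂ) else 0 := by
  have M0 : (0 : ℝ) < M := Nat.cast_pos.2 (by omega)
  split_ifs with h
  · simp [h, w_fejer_zero]
  have h1 := w_fejer_geo M (((b : ℝ) - a) / M)
  rw [mul_div_cancel₀ _ M0.ne', ← Int.cast_natCast b, ← Int.cast_natCast a, ← Int.cast_sub, ec_int,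
    sub_self, mul_eq_zero, Int.cast_sub, Int.cast_natCast, Int.cast_natCast] at h1
  refine h1.resolve_right fun h2 => h ?_
  have h3 := w_fejer_low (((b : ℝ) - a) / M)
  rw [h2, norm_zero] at h3
  have h4 := sub_eq_zero.1 (abs_nonpos_iff.1 (nonpos_of_mul_nonpos_right h3 four_pos))
  generalize round (((b : ℝ) - a) / M) = r at h4
  rw [div_eq_iff M0.ne'] at h4
  have h5 : (b : ℤ) - a = r * M := by exact_mod_cast h4
  have h6 : (b : ℤ) - a = 0 := Int.eq_zero_of_abs_lt_dvd ⟨r, by rw [h5, mul_comm]⟩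
    (abs_lt.2 ⟨by omega, by omega⟩ : |(b : ℤ) - a| < M)
  omega

theorem w_fejer_sq (M : ℕ) (t : ℝ) : ((‖∑ a ∈ range M, ec (a * t)‖ ^ 2 : ℝ) : ℂ) =
    ∑ p ∈ range M ×ˢ range M, ec (((p.1 : ℝ) - p.2) * t) := by
  have h : ∀ s : ℝ, (starRingEnd ℂ) (ec s) = ec (-s) := fun s => by
    rw [ec, ec, ← Complex.exp_conj]
    simp [map_ofNat]
  rw [Complex.ofReal_pow, ← Complex.mul_conj', map_sum, sum_mul_sum, sum_product]
  simp only [h, ← ec_add, sub_eq_add_neg, add_mul, neg_mul]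

theorem w_fejer_one {M : ℕ} (hM : 0 < M) : ∃ (c : ℤ → Fin M → ℂ) (κ : ℝ → Fin M → ℝ),
    (∀ f, ∑ j, ‖c f j‖ ≤ 1) ∧ (∀ x j, 0 ≤ κ x j) ∧ (∀ x, ∑ j, κ x j = 1) ∧
      (∀ x, ∑ j, κ x j * |x - (j : ℕ) / M - round (x - (j : ℕ) / M)| ≤ 1 / √(M : ℝ)) ∧
      ∀ x j, (κ x j : ℂ) = ∑ f ∈ Icc (-(M : ℤ)) M, c f j * ec (f * x) := by
  have M0 : (0 : ℝ) < M := Nat.cast_pos.2 hM
  have M1 : (M : ℂ) ≠ 0 := Nat.cast_ne_zero.2 hM.ne'
  obtain ⟨κ, hκ⟩ : ∃ κ : ℝ → Fin M → ℝ, ∀ x j,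
    κ x j = ‖∑ a ∈ range M, ec (a * (x - (j : ℕ) / M))‖ ^ 2 / M ^ 2 := ⟨_, fun _ _ => rfl⟩
  have k0 : ∀ x j, 0 ≤ κ x j := fun x j => by rw [hκ]; positivity
  have k1 : ∀ x, ∑ j, κ x j = 1 := fun x => by
    refine Complex.ofReal_injective ?_
    simp only [hκ, Complex.ofReal_sum, Complex.ofReal_div, w_fejer_sq, ← sum_div]
    rw [Fin.sum_univ_eq_sum_range fun j => ∑ p ∈ range M ×ˢ range M,
      ec (((p.1 : ℝ) - p.2) * (x - (j : ℕ) / M)), sum_comm, sum_congr rfl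
        (g := fun p => if p.1 = p.2 then (M : ℂ) else 0) fun p hp => ?_, sum_product]
    · simp only [sum_ite_eq]
      rw [sum_congr rfl fun a ha => if_pos ha, sum_const, card_range, nsmul_eq_mul]
      push_cast
      field_simp
    · obtain ⟨h1, h2⟩ := mem_product.1 hp
      have e : ∀ j : ℕ, ec (((p.1 : ℝ) - p.2) * (x - j / M)) =
          ec (((p.1 : ℝ) - p.2) * x) * ec (j * (((p.2 : ℝ) - p.1) / M)) := fun j => by
        rw [← ec_add]
        congr 1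
        ring
      simp only [e, ← mul_sum, w_fejer_orth (mem_range.1 h1) (mem_range.1 h2)]
      split_ifs with h
      · rw [h, sub_self, zero_mul, w_fejer_zero, one_mul]
      · exact mul_zero _
  refine ⟨fun f j => (#((range M ×ˢ range M).filter fun p => (p.1 : ℤ) - p.2 = f) / M ^ 2 : ℝ) *
    ec (-(f * ((j : ℕ) / M))), κ, fun f => ?_, k0, k1, fun x => ?_, fun x j => ?_⟩
  · simp only [norm_mul, norm_ec, mul_one, sum_const, card_univ, Fintype.card_fin, nsmul_eq_mul]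
    have : #((range M ×ˢ range M).filter fun p => (p.1 : ℤ) - p.2 = f) ≤ #(range M) :=
      card_le_card_of_injOn Prod.fst (fun p hp => (mem_product.1 (mem_filter.1 hp).1).1)
        fun p hp q hq e => Prod.ext e (by
          have h1 := (mem_filter.1 hp).2
          have h2 := (mem_filter.1 hq).2
          omega)
    rw [card_range] at this
    rw [Complex.norm_real, Real.norm_of_nonneg (by positivity), ← mul_div_assoc,
      div_le_one (by positivity), sq]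
    gcongr
  · have s0 : 0 < √(M : ℝ) := Real.sqrt_pos.2 M0
    have s1 : √(M : ℝ) ^ 2 = M := Real.sq_sqrt M0.le
    have h : ∀ j : Fin M, κ x j * |x - (j : ℕ) / M - round (x - (j : ℕ) / M)| ≤
        κ x j * (1 / (2 * √(M : ℝ))) + 1 / (2 * √(M : ℝ)) / M := fun j => by
      have h1 := congrArg norm (w_fejer_geo M (x - (j : ℕ) / M))
      have h2 := w_fejer_low (x - (j : ℕ) / M)
      have h3 := norm_sub_le (ec (M * (x - (j : ℕ) / M))) 1
      have h0 := abs_nonneg (x - (j : ℕ) / M - round (x - (j : ℕ) / M))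
      rw [norm_mul] at h1
      rw [norm_ec, norm_one, ← h1] at h3
      rw [hκ]
      have h4 := norm_nonneg (∑ a ∈ range M, ec (a * (x - (j : ℕ) / M)))
      generalize ‖∑ a ∈ range M, ec (a * (x - (j : ℕ) / M))‖ = S at *
      generalize |x - (j : ℕ) / M - round (x - (j : ℕ) / M)| = d at *
      have h5 : S * d ≤ 1 := by linarith only [mul_le_mul_of_nonneg_left h2 h4, h3]
      have h6 : (S * d) ^ 2 ≤ 1 := pow_le_one₀ (mul_nonneg h4 h0) h5
      generalize √(M : ℝ) = r at *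
      rw [← s1, ← sub_nonneg]
      have : S ^ 2 / (r ^ 2) ^ 2 * (1 / (2 * r)) + 1 / (2 * r) / r ^ 2 - S ^ 2 / (r ^ 2) ^ 2 * d =
          ((S - r * (S * d)) ^ 2 + r ^ 2 * (1 - (S * d) ^ 2)) / (2 * r ^ 5) := by
        field_simp
        ring
      rw [this]
      have := sub_nonneg.2 h6
      positivity
    refine (sum_le_sum fun j _ => h j).trans (le_of_eq ?_)
    rw [sum_add_distrib, ← sum_mul, k1, sum_const, card_univ, Fintype.card_fin, nsmul_eq_mul]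
    field_simp
    ring
  · have h := sum_fiberwise_of_maps_to' (s := range M ×ˢ range M) (t := Icc (-(M : ℤ)) M)
      (g := fun p => (p.1 : ℤ) - p.2) (fun p hp => by
        have h1 := mem_range.1 (mem_product.1 hp).1
        have h2 := mem_range.1 (mem_product.1 hp).2
        exact mem_Icc.2 ⟨by omega, by omega⟩) fun f : ℤ => ec (f * (x - (j : ℕ) / M))
    simp only [Int.cast_sub, Int.cast_natCast] at h
    rw [hκ, Complex.ofReal_div, w_fejer_sq, ← h, sum_div]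
    refine sum_congr rfl fun f _ => ?_
    rw [sum_const, nsmul_eq_mul, mul_assoc, ← ec_add, mul_sub, neg_add_eq_sub]
    push_cast
    ring

theorem w_fejer (ι : Type) [Fintype ι] [DecidableEq ι] {M : ℕ} (hM : 0 < M) :
    ∃ (P : Type) (_ : Fintype P) (p : P → ι → ℝ) (a : (ι → ℤ) → P → ℂ),
      (∀ f, ∑ j, ‖a f j‖ ≤ 1) ∧ ∀ (h : (ι → ℝ) → ℂ) (L : ℝ), 0 ≤ L →
        (∀ (x : ι → ℝ) (b : ι → ℤ), h (x + fun i => (b i : ℝ)) = h x) →
        (∀ x y, ‖h x - h y‖ ≤ L * ‖x - y‖) → ∀ x,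
          ‖h x - ∑ f ∈ Fintype.piFinset fun _ : ι => Icc (-(M : ℤ)) M,
            (∑ j, a f j * h (p j)) * ec (∑ i, f i * x i)‖ ≤ Fintype.card ι * L / √(M : ℝ) := by
  obtain ⟨c, κ, c1, k0, k1, k2, k3⟩ := w_fejer_one hM
  refine ⟨ι → Fin M, inferInstance, fun j i => (j i : ℕ) / M, fun f j => ∏ i, c (f i) (j i),
    fun f => ?_, fun h L L0 hp hl x => ?_⟩
  · simp only [norm_prod]
    rw [← Fintype.piFinset_univ, ← prod_univ_sum (fun _ => univ) fun i j => ‖c (f i) j‖]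
    exact prod_le_one (fun i _ => sum_nonneg fun _ _ => norm_nonneg _) fun i _ => c1 _
  have e0 : ∀ g : ι → ℝ, ec (∑ i, g i) = ∏ i, ec (g i) := fun g => by
    simp only [ec, ← Complex.exp_sum, ← mul_sum, Complex.ofReal_sum]
  have e1 : ∑ j : ι → Fin M, ∏ i, κ (x i) (j i) = 1 := by
    rw [← Fintype.piFinset_univ, ← prod_univ_sum fun _ => univ]
    exact prod_eq_one fun i _ => k1 _
  have e2 : ∑ f ∈ Fintype.piFinset fun _ : ι => Icc (-(M : ℤ)) M,
      (∑ j : ι → Fin M, (∏ i, c (f i) (j i)) * h fun i => (j i : ℕ) / M) * ec (∑ i, f i * x i) =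
        ∑ j : ι → Fin M, (∏ i, κ (x i) (j i) : ℝ) * h fun i => (j i : ℕ) / M := by
    simp only [sum_mul, e0]
    rw [sum_comm]
    refine sum_congr rfl fun j _ => ?_
    simp only [Complex.ofReal_prod, k3]
    rw [prod_univ_sum, sum_mul]
    refine sum_congr rfl fun f _ => ?_
    rw [prod_mul_distrib, mul_right_comm]
  obtain ⟨d, hd⟩ : ∃ d : ι → Fin M → ℝ, ∀ i j,
    d i j = |x i - (j : ℕ) / M - round (x i - (j : ℕ) / M)| := ⟨_, fun _ _ => rfl⟩
  have d0 : ∀ i j, 0 ≤ d i j := fun i j => hd i j ▸ abs_nonneg _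
  have e3 : ∀ j : ι → Fin M, ‖h x - h fun i => (j i : ℕ) / M‖ ≤ L * ∑ i, d i (j i) := fun j => by
    rw [← hp (fun i => (j i : ℕ) / M) fun i => round (x i - (j i : ℕ) / M)]
    refine (hl _ _).trans (mul_le_mul_of_nonneg_left ?_ L0)
    refine (pi_norm_le_iff_of_nonneg (sum_nonneg fun i _ => d0 _ _)).2 fun i => ?_
    refine le_trans (le_of_eq ?_) (single_le_sum (f := fun i => d i (j i)) (fun i _ => d0 _ _)
      (mem_univ i))
    simp only [hd, Pi.sub_apply, Pi.add_apply, Real.norm_eq_abs, sub_sub]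
  have e4 : ∀ i₀, ∑ j : ι → Fin M, (∏ i, κ (x i) (j i)) * d i₀ (j i₀) ≤ 1 / √(M : ℝ) := fun i₀ => by
    have e : ∀ j : ι → Fin M, (∏ i, κ (x i) (j i)) * d i₀ (j i₀) =
        ∏ i, κ (x i) (j i) * if i = i₀ then d i (j i) else 1 := fun j => by
      rw [prod_mul_distrib, prod_ite_eq', if_pos (mem_univ _)]
    simp only [e]
    rw [← Fintype.piFinset_univ, ← prod_univ_sum (fun _ => univ)
      fun i j => κ (x i) j * if i = i₀ then d i j else 1, prod_eq_single i₀ (fun i _ hi => by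
        simp only [if_neg hi, mul_one, k1]) fun hi => absurd (mem_univ _) hi]
    simp only [if_true, hd]
    exact k2 _
  have e5 : h x = ∑ j : ι → Fin M, (∏ i, κ (x i) (j i) : ℝ) * h x := by
    rw [← sum_mul, ← Complex.ofReal_sum, e1, Complex.ofReal_one, one_mul]
  rw [e2, e5, ← sum_sub_distrib]
  calc _ ≤ ∑ j : ι → Fin M, (∏ i, κ (x i) (j i)) * (L * ∑ i, d i (j i)) := by
        refine (norm_sum_le _ _).trans (sum_le_sum fun j _ => ?_)
        have := prod_nonneg fun i (_ : i ∈ univ) => k0 (x i) (j i)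
        rw [← mul_sub, norm_mul, Complex.norm_real, Real.norm_of_nonneg this]
        exact mul_le_mul_of_nonneg_left (e3 j) this
    _ = L * ∑ i₀, ∑ j : ι → Fin M, (∏ i, κ (x i) (j i)) * d i₀ (j i₀) := by
        rw [sum_comm, mul_sum]
        exact sum_congr rfl fun j _ => by rw [← mul_sum, mul_left_comm]
    _ ≤ L * ∑ _i : ι, 1 / √(M : ℝ) := by gcongr with i; exact e4 i
    _ = _ := by
        rw [sum_const, card_univ, nsmul_eq_mul]
        ring

/-- totally positive integers -/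
def TP (a : 𝓞 k) : Prop := a ≠ 0 ∧ ∀ φ : k →+* ℂ, ComplexEmbedding.IsReal φ → 0 < (φ a).re

/-- the lattice of the `e`-th powers of the fundamental units -/
noncomputable def ue (e : ℕ) (b : Fin (rank k) → ℤ) : (𝓞 k)ˣ :=
  ∏ i, fundSystem k i ^ ((e : ℤ) * b i)

variable (k) in
/-- the index set of the coordinates on the torus -/
abbrev Tx : Type := Fin (rank k) ⊕ {φ : k →+* ℂ // ¬ ComplexEmbedding.IsReal φ}

open scoped Classical in
/-- logarithms of the fundamental units -/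
noncomputable def Lg (i : Fin (rank k)) (φ : k →+* ℂ) : ℂ :=
  if ComplexEmbedding.IsReal φ then (Real.log ‖φ (fundSystem k i : 𝓞 k)‖ : ℝ)
  else Complex.log (φ (fundSystem k i : 𝓞 k))

open scoped Classical in
/-- the point with logarithmic norm `u` and torus coordinates `x` -/
noncomputable def pp (e : ℕ) (u : ℝ) (x : Tx k → ℝ) : (k →+* ℂ) → ℂ := fun φ =>
  Complex.exp ((u / dg k : ℝ) + ∑ i, (e * x (Sum.inl i) : ℝ) * Lg i φ +
    if h : ComplexEmbedding.IsReal φ then 0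
    else 2 * Real.pi * Complex.I * (x (Sum.inr ⟨φ, h⟩) : ℝ))

theorem w_pp_shift_ne (i : Fin (rank k)) (φ : k →+* ℂ) :
    φ ((fundSystem k i : 𝓞 k) : k) ≠ 0 :=
  (map_ne_zero φ).2 (RingOfIntegers.coe_ne_zero_iff.2 (fundSystem k i).ne_zero)

theorem w_pp_shift_exp {e : ℕ} (he : Even e) (n : ℤ) (i : Fin (rank k)) (φ : k →+* ℂ) :
    Complex.exp ((((e : ℤ) * n : ℤ) : ℂ) * Lg i φ) =
      φ ((fundSystem k i : 𝓞 k) : k) ^ ((e : ℤ) * n) := by
  have h0 := w_pp_shift_ne i φ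
  rw [Complex.exp_int_mul]
  unfold Lg
  split_ifs with h
  · rw [← Complex.ofReal_exp, Real.exp_log (norm_pos_iff.2 h0), ← h.coe_embedding_apply,
      Complex.norm_real, ← Complex.ofReal_zpow, ← Complex.ofReal_zpow, Real.norm_eq_abs,
      Even.zpow_abs (Even.mul_right (Int.even_coe_nat e |>.2 he) n)]
  · rw [Complex.exp_log h0]

theorem w_pp_shift_ue (e : ℕ) (b : Fin (rank k) → ℤ) (φ : k →+* ℂ) :
    sc 1 (ue e b : (𝓞 k)ˣ) φ = ∏ i, φ ((fundSystem k i : 𝓞 k) : k) ^ ((e : ℤ) * b i) := by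
  let g : (𝓞 k)ˣ →* ℂ := ((φ.comp (algebraMap (𝓞 k) k)).toMonoidHom).comp (Units.coeHom (𝓞 k))
  have hg : ∀ v : (𝓞 k)ˣ, g v = φ ((v : 𝓞 k) : k) := fun v => rfl
  unfold sc ue
  rw [Complex.ofReal_one, div_one, ← hg, map_prod]
  refine prod_congr rfl fun i _ => ?_
  rw [map_zpow, hg]

theorem w_pp_shift {e : ℕ} (he : Even e) (u : ℝ) (x : Tx k → ℝ) (b : Tx k → ℤ) :
    pp e u (x + fun i => (b i : ℝ)) = sc 1 (ue e fun i => b (Sum.inl i) : (𝓞 k)ˣ) * pp e u x := by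
  funext φ
  rw [Pi.mul_apply, w_pp_shift_ue]
  simp only [← w_pp_shift_exp he]
  unfold pp
  rw [← Complex.exp_sum, ← Complex.exp_add]
  have h1 : ∑ i, ((e * (x + fun i => (b i : ℝ)) (Sum.inl i) : ℝ) : ℂ) * Lg i φ =
      ∑ i, ((((e : ℤ) * b (Sum.inl i) : ℤ) : ℂ) * Lg i φ) +
        ∑ i, ((e * x (Sum.inl i) : ℝ) : ℂ) * Lg i φ := by
    rw [← sum_add_distrib]
    refine sum_congr rfl fun i _ => ?_
    rw [Pi.add_apply]
    push_cast
    ring
  rw [h1]
  split_ifs with h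
  · congr 1
    ring
  · rw [Complex.exp_eq_exp_iff_exists_int]
    refine ⟨b (Sum.inr ⟨φ, h⟩), ?_⟩
    rw [Pi.add_apply]
    push_cast
    ring

theorem w_pp_surj_span (v : InfinitePlace k → ℝ) (hv : ∑ w, (w.mult : ℝ) * v w = 0) :
    ∃ c : Fin (rank k) → ℝ, ∀ w : InfinitePlace k,
      v w = ∑ i, c i * Real.log (w ((fundSystem k i : 𝓞 k) : k)) := by
  classical
  let B := basisOfIsMaxRank (isMaxRank_fundSystem k)
  let y : dirichletUnitTheorem.logSpace k := fun w => (w.1.mult : ℝ) * v w.1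
  refine ⟨fun i => B.repr y i, ?_⟩
  have h1 : ∀ w : InfinitePlace k, w ≠ dirichletUnitTheorem.w₀ →
      v w = ∑ i, B.repr y i * Real.log (w ((fundSystem k i : 𝓞 k) : k)) := by
    intro w hw
    have h2 := congrFun (B.sum_repr y) ⟨w, hw⟩
    rw [Finset.sum_apply] at h2
    refine mul_left_cancel₀ (InfinitePlace.mult_coe_ne_zero (w := w)) ?_
    rw [mul_sum]
    refine h2.symm.trans (sum_congr rfl fun i _ => ?_)
    rw [Pi.smul_apply, basisOfIsMaxRank_apply, dirichletUnitTheorem.logEmbedding_component,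
      smul_eq_mul]
    ring
  intro w
  by_cases hw : w = dirichletUnitTheorem.w₀
  · have h3 : ∑ w : InfinitePlace k, (w.mult : ℝ) *
        (v w - ∑ i, B.repr y i * Real.log (w ((fundSystem k i : 𝓞 k) : k))) = 0 := by
      simp only [mul_sub, mul_sum]
      rw [sum_sub_distrib, hv, sum_comm, zero_sub, neg_eq_zero]
      refine sum_eq_zero fun i _ => ?_
      have h4 := sum_mult_mul_log (fundSystem k i)
      rw [← mul_zero (B.repr y i), ← h4, mul_sum]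
      exact sum_congr rfl fun w _ => by ring
    rw [sum_eq_single w (fun w' _ hw' => by rw [← h1 w' (hw ▸ hw'), sub_self, mul_zero])
      (fun h => absurd (mem_univ _) h)] at h3
    exact sub_eq_zero.1 ((mul_eq_zero.1 h3).resolve_left InfinitePlace.mult_coe_ne_zero)
  · exact h1 w hw

theorem w_pp_surj_re (i : Fin (rank k)) (φ : k →+* ℂ) :
    (Lg i φ).re = Real.log ‖φ ((fundSystem k i : 𝓞 k) : k)‖ := by
  unfold Lg
  split_ifs
  · rw [Complex.ofReal_re]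
  · rw [Complex.log_re]

theorem w_pp_surj {e : ℕ} (he : 0 < e) {X : ℝ} (hX : 0 < X) {a : 𝓞 k} (ha : TP a) :
    ∃ x, sc X a = pp e (Real.log (|(nm a : ℝ)| / X ^ dg k)) x := by
  classical
  have ha0 : (a : k) ≠ 0 := RingOfIntegers.coe_ne_zero_iff.2 ha.1
  have hn : |(nm a : ℝ)| ≠ 0 := abs_ne_zero.2 (Int.cast_ne_zero.2 (nm_ne ha.1))
  have hd : (dg k : ℝ) ≠ 0 := Nat.cast_ne_zero.2 Module.finrank_pos.ne'
  have he' : (e : ℝ) ≠ 0 := Nat.cast_ne_zero.2 he.ne'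
  have hp : ∀ w : InfinitePlace k, w (a : k) ≠ 0 := fun w => (InfinitePlace.pos_iff.2 ha0).ne'
  have h1 : ∑ w : InfinitePlace k, (w.mult : ℝ) * Real.log (w (a : k)) =
      Real.log |(nm a : ℝ)| := by
    have h := congr_arg Real.log (InfinitePlace.prod_eq_abs_norm (a : k))
    rw [Real.log_prod fun w _ => pow_ne_zero _ (hp w), ← Algebra.coe_norm_int] at h
    simp only [Real.log_pow] at h
    rw [h]
    push_cast
    rfl
  have h2 : ∑ w : InfinitePlace k, (w.mult : ℝ) = dg k := by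
    rw [← Nat.cast_sum, InfinitePlace.sum_mult_eq]
  obtain ⟨c, hc⟩ := w_pp_surj_span (fun w : InfinitePlace k =>
      Real.log (w (a : k)) - Real.log X - Real.log (|(nm a : ℝ)| / X ^ dg k) / dg k) (by
    simp only [mul_sub]
    rw [sum_sub_distrib, sum_sub_distrib, h1, ← sum_mul, ← sum_mul, h2,
      Real.log_div hn (pow_ne_zero _ hX.ne'), Real.log_pow, mul_div_cancel₀ _ hd]
    ring)
  refine ⟨Sum.elim (fun i => c i / e) fun φ =>
    ((sc X a φ.1).arg - (∑ i, (c i : ℂ) * Lg i φ.1).im) / (2 * Real.pi), ?_⟩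
  funext φ
  have hz := sc_ne hX.ne' ha.1 φ
  have h3 : Real.log ‖sc X a φ‖ = Real.log (|(nm a : ℝ)| / X ^ dg k) / dg k +
      (∑ i, (c i : ℂ) * Lg i φ).re := by
    have h4 := hc (InfinitePlace.mk φ)
    simp only [InfinitePlace.apply] at h4
    rw [Complex.re_sum]
    simp only [Complex.re_ofReal_mul, w_pp_surj_re]
    rw [← h4, sc, norm_div, Real.log_div (norm_ne_zero_iff.2 ((map_ne_zero φ).2 ha0))
      (norm_ne_zero_iff.2 (Complex.ofReal_ne_zero.2 hX.ne')), Complex.norm_real,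
      Real.norm_of_nonneg hX.le]
    ring
  unfold pp
  simp only [Sum.elim_inl, Sum.elim_inr, mul_div_cancel₀ _ he']
  refine (Complex.exp_log hz).symm.trans (congrArg Complex.exp ?_)
  split_ifs with h
  · have h5 : (sc X a φ).arg = 0 := by
      have h6 := ha.2 φ h
      rw [← h.coe_embedding_apply, Complex.ofReal_re] at h6
      rw [sc, ← h.coe_embedding_apply, ← Complex.ofReal_div]
      exact Complex.arg_ofReal_of_nonneg (div_pos h6 hX).le
    have h7 : (∑ i, (c i : ℂ) * Lg i φ).im = 0 := by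
      rw [Complex.im_sum]
      refine sum_eq_zero fun i _ => ?_
      rw [Lg, if_pos h, ← Complex.ofReal_mul, Complex.ofReal_im]
    refine Complex.ext ?_ ?_
    · rw [Complex.log_re, h3, add_zero, Complex.add_re, Complex.ofReal_re]
    · rw [Complex.log_im, h5, add_zero, Complex.add_im, Complex.ofReal_im, h7, add_zero]
  · have h8 : ∀ s : ℝ, 2 * (Real.pi : ℂ) * Complex.I * ((s / (2 * Real.pi) : ℝ) : ℂ) =
        (s : ℂ) * Complex.I := by
      intro s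
      have := Complex.ofReal_ne_zero.2 Real.pi_ne_zero
      push_cast
      field_simp
    rw [h8]
    refine Complex.ext ?_ ?_
    · rw [Complex.log_re, h3, Complex.add_re, Complex.add_re, Complex.ofReal_re,
        Complex.re_ofReal_mul, Complex.I_re, mul_zero, add_zero]
    · rw [Complex.log_im, Complex.add_im, Complex.add_im, Complex.ofReal_im,
        Complex.im_ofReal_mul, Complex.I_im]
      ring

open scoped Classical in
variable (k) in
theorem w_pp_char_dual : ∃ τ : Fin (rank k) → (k →+* ℂ) → ℝ, (∀ i, ∑ φ, τ i φ = 0) ∧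
    ∀ i j, ∑ φ, τ i φ * Real.log ‖φ (fundSystem k j : 𝓞 k)‖ = if i = j then 1 else 0 := by
  let B := (basisUnitLattice k).ofZLatticeBasis ℝ (unitLattice k)
  let c : Fin (rank k) → InfinitePlace k → ℝ := fun i w =>
    if h : w ≠ dirichletUnitTheorem.w₀ then B.repr (Pi.single ⟨w, h⟩ 1) i else 0
  let D : ℝ := ∑ w : InfinitePlace k, (w.mult : ℝ)
  have hD : D ≠ 0 := by
    refine (sum_pos (fun w _ => ?_) univ_nonempty).ne'
    exact_mod_cast InfinitePlace.mult_pos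
  let g : Fin (rank k) → InfinitePlace k → ℝ := fun i w =>
    w.mult * (c i w - (∑ w, (w.mult : ℝ) * c i w) / D)
  have key : ∀ i (F : (k →+* ℂ) → ℝ),
      ∑ φ, (∑ w : InfinitePlace k, if φ = w.embedding then g i w else 0) * F φ =
        ∑ w : InfinitePlace k, g i w * F w.embedding := by
    intro i F
    simp_rw [sum_mul]
    rw [sum_comm]
    refine sum_congr rfl fun w _ => ?_
    simp
  refine ⟨fun i φ => ∑ w : InfinitePlace k, if φ = w.embedding then g i w else 0, fun i => ?_,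
    fun i j => ?_⟩
  · have h := key i fun _ => 1
    simp only [mul_one] at h
    rw [h]
    simp only [g, mul_sub, sum_sub_distrib]
    rw [← sum_mul, mul_div_cancel₀ _ hD, sub_self]
  · rw [key]
    have h0 := sum_mult_mul_log (fundSystem k j)
    have e1 : ∀ w : InfinitePlace k, ‖w.embedding ((fundSystem k j : 𝓞 k) : k)‖ =
        w ((fundSystem k j : 𝓞 k) : k) := fun w => w.norm_embedding_eq _
    have e2 : ∑ w : InfinitePlace k, g i w * Real.log ‖w.embedding ((fundSystem k j : 𝓞 k) : k)‖ =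
        ∑ w : InfinitePlace k, c i w * (w.mult * Real.log (w ((fundSystem k j : 𝓞 k) : k))) -
          (∑ w, (w.mult : ℝ) * c i w) / D *
            ∑ w : InfinitePlace k, w.mult * Real.log (w ((fundSystem k j : 𝓞 k) : k)) := by
      rw [mul_sum, ← sum_sub_distrib]
      refine sum_congr rfl fun w _ => ?_
      rw [e1]
      simp only [g]
      ring
    have e3 : logEmbedding k (Additive.ofMul (fundSystem k j)) = B j := by
      rw [logEmbedding_fundSystem, Module.Basis.ofZLatticeBasis_apply]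
    have e4 : B j = ∑ w, (B j w) • Pi.single w (1 : ℝ) := pi_eq_sum_univ' _
    have e5 : B.repr (B j) i = ∑ w, B j w * B.repr (Pi.single w 1) i := by
      conv_lhs => rw [e4]
      simp only [ne_eq, map_sum, map_smul, Finsupp.coe_finsetSum, Finsupp.coe_smul, Finset.sum_apply, Pi.smul_apply, smul_eq_mul]
    rw [e2]
    have h0' : ∑ w : InfinitePlace k, w.mult * Real.log (w ((fundSystem k j : 𝓞 k) : k)) = 0 := h0
    rw [h0', mul_zero, sub_zero,
      Fintype.sum_eq_add_sum_subtype_ne _ (dirichletUnitTheorem.w₀ : InfinitePlace k)]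
    have e6 : B.repr (B j) i = if i = j then 1 else 0 := by
      rw [B.repr_self, Finsupp.single_apply]
      simp only [eq_comm]
    rw [← e6, e5]
    simp only [c, ne_eq, not_true_eq_false, dite_false, zero_mul, zero_add]
    refine sum_congr rfl fun w _ => ?_
    rw [dif_pos w.2, ← e3, mul_comm]
    rfl

theorem w_pp_char_re (i : Fin (rank k)) (φ : k →+* ℂ) :
    (Lg i φ).re = Real.log ‖φ (fundSystem k i : 𝓞 k)‖ := by
  unfold Lg
  split_ifs
  · exact Complex.ofReal_re _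
  · exact Complex.log_re _

theorem w_pp_char_im (i : Fin (rank k)) (φ : k →+* ℂ) : |(Lg i φ).im| ≤ Real.pi := by
  unfold Lg
  split_ifs
  · rw [Complex.ofReal_im, abs_zero]
    exact Real.pi_pos.le
  · rw [Complex.log_im]
    exact Complex.abs_arg_le_pi _

theorem w_pp_char_exp (t : (k →+* ℂ) → ℝ) (m : (k →+* ℂ) → ℤ) (w : (k →+* ℂ) → ℂ) :
    ar t m (fun φ => Complex.exp (w φ)) =
      Complex.exp (Complex.I * (∑ φ, (t φ * (w φ).re + m φ * (w φ).im) : ℝ)) := by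
  unfold ar
  rw [Complex.ofReal_sum, mul_sum, Complex.exp_sum]
  refine prod_congr rfl fun φ _ => ?_
  have h : Complex.exp (w φ) / (‖Complex.exp (w φ)‖ : ℝ) =
      Complex.exp (Complex.I * (w φ).im) := by
    rw [Complex.norm_exp, Complex.ofReal_exp, ← Complex.exp_sub]
    congr 1
    have := Complex.re_add_im (w φ)
    linear_combination -this
  rw [h, Complex.norm_exp, Real.log_exp, ← Complex.exp_int_mul, ← Complex.exp_add]
  congr 1
  push_cast
  ring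

open scoped Classical in
variable (k) in
theorem w_pp_char : ∃ C : ℝ, 0 < C ∧ ∀ e : ℕ, 0 < e → ∀ f : Tx k → ℤ,
    ∃ (t : (k →+* ℂ) → ℝ) (m : (k →+* ℂ) → ℤ), ∑ φ, t φ = 0 ∧
      (∀ φ, ComplexEmbedding.IsReal φ → m φ = 0) ∧
      (∀ M : ℝ, 0 ≤ M → (∀ i, |(f i : ℝ)| ≤ M) → Sz (C * M) t m) ∧
      ∀ u x, ar t m (pp e u x) = ec (∑ i, f i * x i) := by
  obtain ⟨τ, h0, h1⟩ := w_pp_char_dual k
  let S : ℝ := ∑ φ, ∑ i, |τ i φ|
  have hS : 0 ≤ S := sum_nonneg fun _ _ => sum_nonneg fun _ _ => abs_nonneg _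
  let G : ℝ := 2 * Real.pi + Fintype.card (k →+* ℂ) * Real.pi
  have hG : 0 ≤ G := by positivity
  refine ⟨1 + G * S, by positivity, fun e he f => ?_⟩
  let m : (k →+* ℂ) → ℤ := fun φ =>
    if h : ComplexEmbedding.IsReal φ then 0 else f (Sum.inr ⟨φ, h⟩)
  let y : Fin (rank k) → ℝ := fun i =>
    2 * Real.pi * f (Sum.inl i) / e - ∑ φ, m φ * (Lg i φ).im
  have he' : (1 : ℝ) ≤ e := by exact_mod_cast he
  refine ⟨fun φ => ∑ i, y i * τ i φ, m, ?_, fun φ h => dif_pos h, fun M hM hf => ?_,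
    fun u x => ?_⟩
  · rw [sum_comm]
    exact sum_eq_zero fun i _ => by rw [← mul_sum, h0, mul_zero]
  · have hm : ∀ φ, |(m φ : ℝ)| ≤ M := by
      intro φ
      simp only [m]
      split_ifs
      · simpa only [Int.cast_zero, abs_zero] using hM
      · exact hf _
    have hy : ∀ i, |y i| ≤ G * M := by
      intro i
      have a1 : |2 * Real.pi * f (Sum.inl i) / e| ≤ 2 * Real.pi * M := by
        rw [abs_div, abs_mul, abs_of_pos (by positivity : 0 < 2 * Real.pi),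
          abs_of_pos (by positivity : (0 : ℝ) < e)]
        refine (div_le_self (by positivity) he').trans ?_
        exact mul_le_mul_of_nonneg_left (hf _) (by positivity)
      have a2 : |∑ φ, m φ * (Lg i φ).im| ≤ Fintype.card (k →+* ℂ) * (M * Real.pi) := by
        refine (abs_sum_le_sum_abs _ _).trans ?_
        rw [← nsmul_eq_mul, ← card_univ]
        refine sum_le_card_nsmul _ _ _ fun φ _ => ?_
        rw [abs_mul]
        exact mul_le_mul (hm φ) (w_pp_char_im i φ) (abs_nonneg _) hM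
      refine (abs_sub _ _).trans ((add_le_add a1 a2).trans (le_of_eq ?_))
      simp only [G]
      ring
    intro φ
    have hGS : 0 ≤ G * S * M := by positivity
    refine ⟨(abs_sum_le_sum_abs _ _).trans ?_, (hm φ).trans (by linarith only [hGS])⟩
    have a3 : ∑ i, |y i * τ i φ| ≤ G * M * ∑ i, |τ i φ| := by
      rw [mul_sum]
      refine sum_le_sum fun i _ => ?_
      rw [abs_mul]
      exact mul_le_mul_of_nonneg_right (hy i) (abs_nonneg _)
    have a4 : ∑ i, |τ i φ| ≤ S :=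
      single_le_sum (f := fun φ => ∑ i, |τ i φ|)
        (fun _ _ => sum_nonneg fun _ _ => abs_nonneg _) (mem_univ φ)
    have a5 := mul_le_mul_of_nonneg_left a4 (mul_nonneg hG hM)
    linarith only [hM, a3, a5]
  · let v : (k →+* ℂ) → ℝ := fun φ =>
      if h : ComplexEmbedding.IsReal φ then 0 else 2 * Real.pi * x (Sum.inr ⟨φ, h⟩)
    let w : (k →+* ℂ) → ℂ := fun φ => (u / dg k : ℝ) + ∑ i, (e * x (Sum.inl i) : ℝ) * Lg i φ +
      if h : ComplexEmbedding.IsReal φ then 0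
      else 2 * Real.pi * Complex.I * (x (Sum.inr ⟨φ, h⟩) : ℝ)
    have hre : ∀ φ, (w φ).re = u / dg k +
        ∑ i, e * x (Sum.inl i) * Real.log ‖φ (fundSystem k i : 𝓞 k)‖ := by
      intro φ
      simp only [w, Complex.add_re, Complex.ofReal_re, Complex.re_sum, Complex.re_ofReal_mul,
        w_pp_char_re]
      split_ifs <;> simp only [Complex.zero_re, add_zero, Complex.mul_re, Complex.re_ofNat, Complex.ofReal_re, Complex.im_ofNat, Complex.ofReal_im, mul_zero, sub_zero, Complex.I_re, Complex.mul_im, zero_mul, Complex.I_im, mul_one, sub_self]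
    have him : ∀ φ, (w φ).im = ∑ i, e * x (Sum.inl i) * (Lg i φ).im + v φ := by
      intro φ
      simp only [w, v, Complex.add_im, Complex.ofReal_im, Complex.im_sum, Complex.im_ofReal_mul,
        zero_add]
      split_ifs <;> simp only [Complex.zero_im, add_zero, Complex.mul_im, Complex.mul_re, Complex.re_ofNat, Complex.ofReal_re, Complex.im_ofNat, Complex.ofReal_im, mul_zero, sub_zero, Complex.I_re, zero_mul, Complex.I_im, mul_one, sub_self, zero_add]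
    have b0 : ∑ φ, ∑ i, y i * τ i φ = 0 := by
      rw [sum_comm]
      exact sum_eq_zero fun i _ => by rw [← mul_sum, h0, mul_zero]
    have b1 : ∀ j, ∑ φ, (∑ i, y i * τ i φ) * Real.log ‖φ (fundSystem k j : 𝓞 k)‖ = y j := by
      intro j
      simp_rw [sum_mul, mul_assoc]
      rw [sum_comm]
      simp_rw [← mul_sum, h1]
      simp only [mul_ite, mul_one, mul_zero, sum_ite_eq', mem_univ, ↓ reduceIte]
    have b2 : ∑ φ, (∑ i, y i * τ i φ) * (w φ).re = ∑ j, e * x (Sum.inl j) * y j := by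
      simp_rw [hre, mul_add, sum_add_distrib]
      rw [← sum_mul, b0, zero_mul, zero_add]
      simp_rw [mul_sum]
      rw [sum_comm]
      refine sum_congr rfl fun j _ => ?_
      rw [← b1 j, mul_sum]
      refine sum_congr rfl fun φ _ => ?_
      ring
    have b3 : ∑ φ, (m φ : ℝ) * v φ = 2 * Real.pi *
        ∑ φ : {φ : k →+* ℂ // ¬ ComplexEmbedding.IsReal φ}, f (Sum.inr φ) * x (Sum.inr φ) := by
      rw [mul_sum, ← Fintype.sum_subtype_add_sum_subtype ComplexEmbedding.IsReal,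
        sum_eq_zero fun φ _ => by simp only [v]; rw [dif_pos φ.2, mul_zero], zero_add]
      refine sum_congr rfl fun φ _ => ?_
      simp only [m, v]
      rw [dif_neg φ.2, dif_neg φ.2]
      ring
    have b4 : ∑ φ, (m φ : ℝ) * (w φ).im = ∑ j, e * x (Sum.inl j) * ∑ φ, m φ * (Lg j φ).im +
        ∑ φ, (m φ : ℝ) * v φ := by
      simp_rw [him, mul_add, sum_add_distrib, mul_sum]
      rw [sum_comm]
      congr 1
      refine sum_congr rfl fun j _ => sum_congr rfl fun φ _ => ?_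
      ring
    have b5 : ∑ φ, ((∑ i, y i * τ i φ) * (w φ).re + m φ * (w φ).im) =
        2 * Real.pi * ∑ i, f i * x i := by
      rw [sum_add_distrib, b2, b4, b3, Fintype.sum_sum_type, mul_add, ← add_assoc,
        ← sum_add_distrib, mul_sum univ fun i => (f (Sum.inl i) : ℝ) * x (Sum.inl i)]
      congr 1
      refine sum_congr rfl fun j _ => ?_
      simp only [y]
      field_simp
      ring
    change ar _ m (fun φ => Complex.exp (w φ)) = _
    rw [w_pp_char_exp, b5, ec]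
    congr 1
    push_cast
    ring

/-- the weight summed over the lattice of units -/
noncomputable def ph (Φ : ((k →+* ℂ) → ℂ) → ℝ) (e : ℕ) (u : ℝ) (x : Tx k → ℝ) : ℝ :=
  ∑' b : Fin (rank k) → ℤ, Φ (sc 1 (ue e b : (𝓞 k)ˣ) * pp e u x)

theorem w_ph_re (i : Fin (rank k)) (φ : k →+* ℂ) :
    (Lg i φ).re = Real.log ‖φ (fundSystem k i : 𝓞 k)‖ := by
  rw [Lg]
  split_ifs
  exacts [Complex.ofReal_re _, Complex.log_re _]

theorem w_ph_sum (i : Fin (rank k)) : ∑ φ : k →+* ℂ, (Lg i φ).re = 0 := by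
  classical
  rw [← sum_mult_mul_log (fundSystem k i), ← sum_fiberwise univ InfinitePlace.mk]
  refine sum_congr rfl fun w _ => ?_
  rw [sum_congr rfl (g := fun _ => Real.log (w (fundSystem k i : 𝓞 k))) fun φ hφ => by
    rw [w_ph_re, ← (mem_filter.1 hφ).2, InfinitePlace.apply], sum_const,
    InfinitePlace.card_filter_mk_eq, nsmul_eq_mul]

variable (k) in
theorem w_ph_inv : ∃ C : ℝ, 0 ≤ C ∧ ∀ (y : Fin (rank k) → ℝ) (B : ℝ), 0 ≤ B →
    (∀ φ, |∑ i, y i * (Lg i φ).re| ≤ B) → ∀ i, |y i| ≤ C * B := by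
  classical
  let A : (Fin (rank k) → ℝ) →ₗ[ℝ] (k →+* ℂ) → ℝ :=
    (Matrix.of fun φ i => (Lg i φ).re).mulVecLin
  have hA : ∀ y φ, A y φ = ∑ i, y i * (Lg i φ).re := fun y φ => by
    simp only [A, Matrix.mulVecBilin_apply, Matrix.mulVec, dotProduct, Matrix.of_apply, mul_comm]
  obtain ⟨C, -, hC⟩ := A.exists_antilipschitzWith (LinearMap.ker_eq_bot'.2 fun y hy => by
    refine funext (Fintype.linearIndependent_iff.1
      ((basisUnitLattice k).ofZLatticeBasis ℝ).linearIndependent y (funext fun w => ?_))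
    have h1 := congrFun hy w.1.embedding
    rw [hA] at h1
    simp only [Finset.sum_apply, Pi.smul_apply, Module.Basis.ofZLatticeBasis_apply,
      ← logEmbedding_fundSystem, dirichletUnitTheorem.logEmbedding_component, smul_eq_mul,
      mul_left_comm _ (w.1.mult : ℝ), ← mul_sum, Pi.zero_apply]
    simp only [w_ph_re, InfinitePlace.norm_embedding_eq, Pi.zero_apply] at h1
    exact mul_eq_zero_of_right _ h1)
  refine ⟨C, C.2, fun y B hB h i => (norm_le_pi_norm y i).trans ?_⟩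
  refine (hC.le_mul_norm (map_zero A) y).trans (mul_le_mul_of_nonneg_left ?_ C.2)
  exact (pi_norm_le_iff_of_nonneg hB).2 fun φ => by rw [hA]; exact h φ

theorem w_ph_supp {R L : ℝ} (hR : 1 ≤ R) {Φ : ((k →+* ℂ) → ℂ) → ℝ} (hΦ : Wt R L Φ) {e : ℕ}
    {u : ℝ} {x : Tx k → ℝ} (h : Φ (pp e u x) ≠ 0) : |u| ≤ dg k * Real.log R ∧
      ∀ φ, |∑ i, e * x (Sum.inl i) * (Lg i φ).re| ≤ 2 * Real.log R := by
  have d0 : (0 : ℝ) < dg k := Nat.cast_pos.2 Module.finrank_pos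
  have h1 : ∀ φ, |u / dg k + ∑ i, e * x (Sum.inl i) * (Lg i φ).re| ≤ Real.log R := fun φ => by
    obtain ⟨h2, h3, -⟩ := hΦ.supp _ h φ
    have h4 : ‖pp e u x φ‖ = Real.exp (u / dg k + ∑ i, e * x (Sum.inl i) * (Lg i φ).re) := by
      rw [pp, Complex.norm_exp]
      congr 1
      simp only [Complex.add_re, Complex.ofReal_re, Complex.re_sum, Complex.re_ofReal_mul]
      split_ifs <;> simp only [Complex.zero_re, add_zero, Complex.mul_re, Complex.re_ofNat, Complex.ofReal_re, Complex.im_ofNat, Complex.ofReal_im, mul_zero, sub_zero, Complex.I_re, Complex.mul_im, zero_mul, Complex.I_im, mul_one, sub_self]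
    rw [h4] at h2 h3
    refine abs_le.2 ⟨?_, (Real.le_log_iff_exp_le (by linarith only [hR])).2 h3⟩
    rw [← Real.log_inv, Real.log_le_iff_le_exp (by positivity), ← one_div]
    exact h2
  have h2 : |u| ≤ dg k * Real.log R := by
    have h3 : u = ∑ φ : k →+* ℂ, (u / dg k + ∑ i, e * x (Sum.inl i) * (Lg i φ).re) := by
      rw [sum_add_distrib, sum_comm]
      simp only [← mul_sum, w_ph_sum, mul_zero, sum_const_zero, add_zero, sum_const, card_univ,
        Embeddings.card k ℂ, nsmul_eq_mul]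
      field_simp
    rw [h3]
    refine (abs_sum_le_sum_abs _ _).trans ((sum_le_card_nsmul _ _ _ fun φ _ => h1 φ).trans ?_)
    rw [card_univ, Embeddings.card k ℂ, nsmul_eq_mul]
  refine ⟨h2, fun φ => ?_⟩
  have h3 : |u / dg k| ≤ Real.log R := by
    rwa [abs_div, abs_of_pos d0, div_le_iff₀' d0]
  have h4 := h1 φ
  rw [abs_le] at h3 h4 ⊢
  constructor <;> linarith only [h3.1, h3.2, h4.1, h4.2]

open scoped Classical in
variable (k) in
theorem w_ph_lip {R : ℝ} (hR : 1 ≤ R) : ∃ C : ℝ, 0 < C ∧ ∀ (e : ℕ) (L : ℝ)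
    (Φ : ((k →+* ℂ) → ℂ) → ℝ), 0 < e → 1 ≤ L → Wt R L Φ → ∀ u u' x x',
      |Φ (pp e u x) - Φ (pp e u' x')| ≤ C * L * (|u - u'| + e * ‖x - x'‖) := by
  obtain ⟨C, hC⟩ : ∃ C : ℝ, C = 1 + ∑ φ : k →+* ℂ, ∑ i, ‖Lg i φ‖ + 2 * Real.pi := ⟨_, rfl⟩
  have s0 : 0 ≤ ∑ φ : k →+* ℂ, ∑ i, ‖Lg i φ‖ := by positivity
  have C1 : 1 ≤ C := by linarith [Real.pi_pos]
  refine ⟨2 * R * C, by positivity, fun e L Φ he hL hΦ => ?_⟩
  have k1 : ∀ u u' x x', Φ (pp e u x) ≠ 0 → C * (|u - u'| + e * ‖x - x'‖) ≤ 1 →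
      |Φ (pp e u x) - Φ (pp e u' x')| ≤ 2 * R * C * L * (|u - u'| + e * ‖x - x'‖) := by
    intro u u' x x' h0 h1
    have e1 : (1 : ℝ) ≤ e := by exact_mod_cast he
    have d1 : (1 : ℝ) ≤ dg k := by exact_mod_cast Module.finrank_pos
    have n0 := norm_nonneg (x - x')
    have a0 := abs_nonneg (u - u')
    have x1 : ∀ j, |x' j - x j| ≤ ‖x - x'‖ := fun j => by
      rw [abs_sub_comm]
      exact norm_le_pi_norm (x - x') j
    refine (hΦ.lip _ _).trans ?_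
    rw [mul_comm _ L, mul_assoc]
    refine mul_le_mul_of_nonneg_left ((pi_norm_le_iff_of_nonneg (by positivity)).2 fun φ => ?_)
      (by linarith only [hL])
    obtain ⟨w, hw, h2⟩ : ∃ w : ℂ, pp e u' x' φ = pp e u x φ * Complex.exp w ∧
        ‖w‖ ≤ C * (|u - u'| + e * ‖x - x'‖) := by
      refine ⟨((u' - u) / dg k : ℝ) + ∑ i, (e * (x' (Sum.inl i) - x (Sum.inl i)) : ℝ) * Lg i φ +
        if h : ComplexEmbedding.IsReal φ then 0 else 2 * Real.pi * Complex.I *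
          (x' (Sum.inr ⟨φ, h⟩) - x (Sum.inr ⟨φ, h⟩) : ℝ), ?_, ?_⟩
      · rw [pp, pp, ← Complex.exp_add]
        congr 1
        simp only [mul_sub, sub_mul, Complex.ofReal_sub, sum_sub_distrib, sub_div]
        split_ifs <;> ring
      · have b1 : ‖(((u' - u) / dg k : ℝ) : ℂ)‖ ≤ |u - u'| := by
          rw [Complex.norm_real, Real.norm_eq_abs, abs_div, abs_sub_comm, Nat.abs_cast]
          exact div_le_self a0 d1
        have b2 : ‖∑ i, (e * (x' (Sum.inl i) - x (Sum.inl i)) : ℝ) * Lg i φ‖ ≤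
            e * ‖x - x'‖ * ∑ φ : k →+* ℂ, ∑ i, ‖Lg i φ‖ := by
          refine (norm_sum_le _ _).trans (le_trans ?_ (mul_le_mul_of_nonneg_left (single_le_sum
            (f := fun φ : k →+* ℂ => ∑ i, ‖Lg i φ‖) (fun _ _ => by positivity) (mem_univ φ))
            (by positivity)))
          rw [mul_sum]
          refine sum_le_sum fun i _ => ?_
          rw [norm_mul, Complex.norm_real, Real.norm_eq_abs, abs_mul, Nat.abs_cast]
          have := x1 (Sum.inl i)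
          gcongr
        have b3 : ‖(if h : ComplexEmbedding.IsReal φ then 0 else 2 * Real.pi * Complex.I *
            (x' (Sum.inr ⟨φ, h⟩) - x (Sum.inr ⟨φ, h⟩) : ℝ) : ℂ)‖ ≤
              2 * Real.pi * (e * ‖x - x'‖) := by
          split_ifs with h
          · rw [norm_zero]
            positivity
          · rw [norm_mul, norm_mul, norm_mul, Complex.norm_I, Complex.norm_real, Complex.norm_real,
              Real.norm_eq_abs, Real.norm_eq_abs, abs_of_pos Real.pi_pos, Complex.norm_two, mul_one]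
            exact mul_le_mul_of_nonneg_left ((x1 _).trans (le_mul_of_one_le_left n0 e1))
              (by positivity)
        refine (norm_add_le_of_le (norm_add_le_of_le b1 b2) b3).trans ?_
        have b4 : 0 ≤ e * ‖x - x'‖ := by positivity
        have b5 := mul_nonneg a0 s0
        have b6 := mul_nonneg a0 Real.pi_pos.le
        rw [hC]
        linarith only [b4, b5, b6]
    rw [Pi.sub_apply, hw, ← mul_one_sub, norm_mul, norm_sub_rev]
    have h3 := (Complex.norm_exp_sub_one_le (h2.trans h1)).trans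
      (mul_le_mul_of_nonneg_left h2 zero_le_two)
    exact (mul_le_mul (hΦ.supp _ h0 φ).2.1 h3 (norm_nonneg _) (by linarith only [hR])).trans_eq (by ring)
  intro u u' x x'
  have δ0 : 0 ≤ |u - u'| + e * ‖x - x'‖ := by positivity
  rcases le_total (C * (|u - u'| + e * ‖x - x'‖)) 1 with h1 | h1
  · by_cases h2 : Φ (pp e u x) = 0
    · by_cases h3 : Φ (pp e u' x') = 0
      · rw [h2, h3, sub_zero, abs_zero]
        positivity
      · rw [abs_sub_comm, abs_sub_comm u, norm_sub_rev]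
        exact k1 _ _ _ _ h3 (by rwa [abs_sub_comm, norm_sub_rev])
    · exact k1 _ _ _ _ h2 h1
  · refine (abs_sub _ _).trans ((add_le_add (hΦ.le _) (hΦ.le _)).trans ?_)
    have h2 : 1 ≤ R * L * (C * (|u - u'| + e * ‖x - x'‖)) :=
      one_le_mul_of_one_le_of_one_le (one_le_mul_of_one_le_of_one_le hR hL) h1
    linarith only [h2]

open scoped Classical in
variable (k) in
theorem w_ph {R : ℝ} (hR : 1 ≤ R) : ∃ C : ℝ, 0 < C ∧ ∀ (e : ℕ) (L : ℝ)
    (Φ : ((k →+* ℂ) → ℂ) → ℝ), 0 < e → Even e → 1 ≤ L → Wt R L Φ →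
      (∀ u x, |ph Φ e u x| ≤ C) ∧
      (∀ u u' x x', |ph Φ e u x - ph Φ e u' x'| ≤ C * L * (|u - u'| + e * ‖x - x'‖)) ∧
      (∀ u x (b : Tx k → ℤ), ph Φ e u (x + fun i => (b i : ℝ)) = ph Φ e u x) ∧
      ∀ u x, ph Φ e u x ≠ 0 → |u| ≤ dg k * Real.log R := by
  obtain ⟨C, C0, hC⟩ := w_ph_inv k
  obtain ⟨D, D0, hD⟩ := w_ph_lip k hR
  have r0 : 0 ≤ 2 * Real.log R := mul_nonneg zero_le_two (Real.log_nonneg hR)
  obtain ⟨N, hN⟩ := exists_nat_ge (C * (2 * Real.log R))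
  obtain ⟨M, hM⟩ : ∃ M : ℕ, M = (2 * N + 2) ^ rank k := ⟨_, rfl⟩
  have M0 : (0 : ℝ) < M := by rw [hM]; positivity
  refine ⟨M + 2 * M * D, by positivity, fun e L Φ he he' hL hΦ => ?_⟩
  let sh : (Fin (rank k) → ℤ) → Tx k → ℝ := fun b i => (Sum.elim b (fun _ => 0) i : ℤ)
  have h1 : ∀ u x b, sc 1 (ue e b : (𝓞 k)ˣ) * pp e u x = pp e u (x + sh b) := fun u x b =>
    (w_pp_shift he' u x (Sum.elim b fun _ => 0)).symm
  let s : (Tx k → ℝ) → Finset (Fin (rank k) → ℤ) := fun x => Fintype.piFinset fun i =>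
    Icc (-N - 1 - ⌊x (Sum.inl i)⌋) (N - ⌊x (Sum.inl i)⌋)
  have h2 : ∀ x, #(s x) = M := fun x => by
    rw [hM, Fintype.card_piFinset, prod_congr rfl (g := fun _ => 2 * N + 2) fun i _ => by
      rw [Int.card_Icc]; omega]
    simp only [prod_const, card_univ, Fintype.card_fin]
  have h3 : ∀ u x t, s x ⊆ t → ph Φ e u x = ∑ b ∈ t, Φ (pp e u (x + sh b)) := fun u x t ht => by
    simp only [ph, h1]
    refine tsum_eq_sum fun b hb => by_contra fun h => hb (ht (Fintype.mem_piFinset.2 fun i => ?_))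
    have h4 := (hC (fun i => e * (x + sh b) (Sum.inl i)) _ r0 (w_ph_supp hR hΦ h).2 i).trans hN
    have e1 : (1 : ℝ) ≤ e := by exact_mod_cast he
    rw [abs_mul, Nat.abs_cast] at h4
    have h5 : |x (Sum.inl i) + b i| ≤ N := (le_mul_of_one_le_left (abs_nonneg _) e1).trans h4
    have h6 := Int.floor_le (x (Sum.inl i))
    have h7 := Int.lt_floor_add_one (x (Sum.inl i))
    rw [abs_le] at h5
    rw [mem_Icc, ← Int.cast_le (R := ℝ), ← Int.cast_le (R := ℝ)]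
    push_cast
    constructor <;> linarith only [h5.1, h5.2, h7, h6]
  refine ⟨fun u x => ?_, fun u u' x x' => ?_, fun u x b => ?_, fun u x h => ?_⟩
  · rw [h3 u x _ Subset.rfl]
    refine (abs_sum_le_sum_abs _ _).trans ((sum_le_card_nsmul _ _ 1 fun b _ => hΦ.le _).trans ?_)
    rw [h2, nsmul_eq_mul, mul_one]
    exact le_add_of_nonneg_right (by positivity)
  · rw [h3 u x _ (subset_union_left (s₂ := s x')), h3 u' x' _ (subset_union_right (s₁ := s x)),
      ← sum_sub_distrib]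
    refine (abs_sum_le_sum_abs _ _).trans ((sum_le_card_nsmul _ _
      (D * L * (|u - u'| + e * ‖x - x'‖)) fun b _ => ?_).trans ?_)
    · simpa only [add_sub_add_right_eq_sub] using hD e L Φ he hL hΦ u u' (x + sh b) (x' + sh b)
    · have h4 : (#(s x ∪ s x') : ℝ) ≤ 2 * M := by
        exact_mod_cast (card_union_le _ _).trans (by rw [h2, h2, two_mul])
      have h5 : 0 ≤ L * (|u - u'| + e * ‖x - x'‖) := by positivity
      rw [nsmul_eq_mul, mul_assoc D, ← mul_assoc, mul_assoc _ L]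
      exact mul_le_mul_of_nonneg_right ((mul_le_mul_of_nonneg_right h4 D0.le).trans
        (le_add_of_nonneg_left M0.le)) h5
  · refine Eq.trans (tsum_congr fun c => ?_) ((Equiv.addLeft fun i => b (Sum.inl i)).tsum_eq
      fun c => Φ (sc 1 ((ue e c : (𝓞 k)ˣ) : 𝓞 k) * pp e u x))
    have h4 := w_pp_shift he' u x (b + Sum.elim c fun _ => 0)
    rw [h1, add_assoc]
    refine congrArg Φ (Eq.trans (congrArg (fun y => pp e u (x + y)) (funext fun i => ?_)) h4)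
    exact (Int.cast_add _ _).symm
  · rw [h3 u x _ Subset.rfl] at h
    obtain ⟨b, -, hb⟩ := exists_ne_zero_of_sum_ne_zero h
    exact (w_ph_supp hR hΦ hb).1

/-- an expansion of the sum of `Φ` over the lattice of units, of size `T` and accuracy `ε` -/
structure Ex (R : ℝ) (e : ℕ) (T ε : ℝ) (Φ : ((k →+* ℂ) → ℂ) → ℝ) {J : Type} (s : Finset J)
    (t : J → (k →+* ℂ) → ℝ) (m : J → (k →+* ℂ) → ℤ) (c : J → ℝ → ℂ) : Prop where
  card : (#s : ℝ) ≤ T
  sz : ∀ j, j ∈ s → Sz T (t j) (m j)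
  sum : ∀ j, ∑ φ, t j φ = 0
  real : ∀ j φ, ComplexEmbedding.IsReal φ → m j φ = 0
  unit : ∀ j i, ar (t j) (m j) (sc 1 (fundSystem k i ^ e : (𝓞 k)ˣ)) = 1
  bd : ∀ j u, ‖c j u‖ ≤ T
  lip : ∀ j u u', ‖c j u - c j u'‖ ≤ T * |u - u'|
  supp : ∀ j u, c j u ≠ 0 → |u| ≤ dg k * Real.log R
  app : ∀ X : ℝ, 0 < X → ∀ a : 𝓞 k, TP a →
    ‖((∑' b, Φ (sc X ((ue e b : (𝓞 k)ˣ) * a)) : ℝ) : ℂ) -
      ∑ j ∈ s, c j (Real.log (|(nm a : ℝ)| / X ^ dg k)) * ar (t j) (m j) (sc 1 a)‖ ≤ ε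

open scoped Classical in
variable (k) in
theorem w_arch_card : Fintype.card (Tx k) ≤ 2 * dg k := by
  have h1 : rank k ≤ dg k := by
    have h := InfinitePlace.card_add_two_mul_card_eq_rank k
    have h' := InfinitePlace.card_eq_nrRealPlaces_add_nrComplexPlaces k
    unfold rank dg
    omega
  have h2 : Fintype.card {φ : k →+* ℂ // ¬ ComplexEmbedding.IsReal φ} ≤ dg k :=
    (Fintype.card_subtype_le _).trans (Embeddings.card k ℂ).le
  rw [Fintype.card_sum, Fintype.card_fin]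
  omega

theorem w_arch_zero (e : ℕ) : pp (k := k) e 0 0 = 1 := by
  funext φ
  unfold pp
  split_ifs <;> simp only [zero_div, Complex.ofReal_zero, Pi.zero_apply, mul_zero, zero_mul, sum_const_zero, add_zero, Complex.exp_zero, Pi.one_apply]

open scoped Classical in
theorem w_arch_unit {e : ℕ} (he : Even e) (i : Fin (rank k)) :
    sc 1 (fundSystem k i ^ e : (𝓞 k)ˣ) =
      pp e 0 fun j => ((Pi.single (Sum.inl i) 1 : Tx k → ℤ) j : ℝ) := by
  have h := w_pp_shift he 0 (0 : Tx k → ℝ) (Pi.single (Sum.inl i) 1)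
  rw [zero_add, w_arch_zero, mul_one] at h
  rw [h]
  congr 2
  unfold ue
  rw [prod_eq_single i (fun j _ hj => by simp [hj]) (by simp only [mem_univ, not_true_eq_false, Pi.single_eq_same, mul_one, zpow_natCast, IsEmpty.forall_iff])]
  simp

variable (k) in
theorem w_arch {R : ℝ} (hR : 1 ≤ R) : ∃ C : ℝ, 0 < C ∧ ∀ (e M : ℕ) (L : ℝ)
    (Φ : ((k →+* ℂ) → ℂ) → ℝ), 0 < e → Even e → 0 < M → 1 ≤ L → Wt R L Φ →
      ∃ (J : Type) (s : Finset J) (t : J → (k →+* ℂ) → ℝ) (m : J → (k →+* ℂ) → ℤ)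
        (c : J → ℝ → ℂ), Ex R e (C * L * (M : ℝ) ^ (2 * dg k)) (C * e * L / √(M : ℝ)) Φ s t m c := by
  classical
  obtain ⟨C₁, hC₁, h₁⟩ := w_pp_char k
  obtain ⟨C₂, hC₂, h₂⟩ := w_ph k hR
  have hd : 1 ≤ dg k := Module.finrank_pos
  have hd' : (1 : ℝ) ≤ dg k := by exact_mod_cast hd
  obtain ⟨C, hC0, hC1, hC2, hC3⟩ : ∃ C : ℝ, 0 < C ∧ C₁ ≤ C ∧ 2 * dg k * C₂ ≤ C ∧
      3 ^ (2 * dg k) ≤ C := by
    have : (0 : ℝ) < 3 ^ (2 * dg k) := by positivity
    have : 0 < 2 * dg k * C₂ := by positivity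
    exact ⟨C₁ + 2 * dg k * C₂ + 3 ^ (2 * dg k), by positivity, by linarith, by linarith,
      by linarith⟩
  have hC4 : C₂ ≤ C := le_trans (le_mul_of_one_le_left hC₂.le (by linarith)) hC2
  refine ⟨C, hC0, fun e M L Φ he he2 hM hL hΦ => ?_⟩
  choose t m ht hm hsz har using h₁ e he
  obtain ⟨p1, p2, p3, p4⟩ := h₂ e L Φ he he2 hL hΦ
  obtain ⟨P, _, p, a, ha, hF⟩ := w_fejer (Tx k) hM
  have hM' : (1 : ℝ) ≤ M := by exact_mod_cast hM
  have hMp : (M : ℝ) ≤ (M : ℝ) ^ (2 * dg k) := le_self_pow₀ hM' (by omega)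
  have hT : ∀ B : ℝ, B ≤ C * L → 0 ≤ B → B * M ≤ C * L * (M : ℝ) ^ (2 * dg k) := fun B hB _ =>
    mul_le_mul hB hMp (by positivity) (by positivity)
  have hCL : C ≤ C * L := le_mul_of_one_le_right hC0.le hL
  have hc : ∀ (f : Tx k → ℤ) (g : P → ℝ) (B : ℝ), 0 ≤ B → (∀ j, |g j| ≤ B) →
      ‖∑ j, a f j * (g j : ℂ)‖ ≤ B := by
    intro f g B hB hg
    refine (norm_sum_le _ _).trans (le_trans ?_ (mul_le_of_le_one_left hB (ha f)))
    rw [sum_mul]
    refine sum_le_sum fun j _ => ?_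
    rw [norm_mul, Complex.norm_real, Real.norm_eq_abs]
    exact mul_le_mul_of_nonneg_left (hg j) (norm_nonneg _)
  refine ⟨Tx k → ℤ, Fintype.piFinset fun _ => Icc (-(M : ℤ)) M, t, m,
    fun f u => ∑ j, a f j * (ph Φ e u (p j) : ℂ), ?_, fun f hf => ?_, ht, hm, fun f i => ?_,
    fun f u => ?_, fun f u u' => ?_, fun f u h => ?_, fun X hX b hb => ?_⟩
  · have e1 : #(Fintype.piFinset fun _ : Tx k => Icc (-(M : ℤ)) M) ≤ (3 * M) ^ (2 * dg k) := by
      rw [Fintype.card_piFinset, prod_const, card_univ, Int.card_Icc]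
      exact (Nat.pow_le_pow_left (by omega) _).trans
        (Nat.pow_le_pow_right (by omega) (w_arch_card k))
    have e2 : ((#(Fintype.piFinset fun _ : Tx k => Icc (-(M : ℤ)) M) : ℕ) : ℝ) ≤
        3 ^ (2 * dg k) * (M : ℝ) ^ (2 * dg k) := by
      rw [← mul_pow]
      exact_mod_cast e1
    exact e2.trans (mul_le_mul_of_nonneg_right (hC3.trans hCL) (by positivity))
  · have e1 := hsz f M (by positivity) fun i => by
      have := mem_Icc.1 (Fintype.mem_piFinset.1 hf i)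
      exact_mod_cast abs_le.2 this
    have e2 := hT C₁ (hC1.trans hCL) hC₁.le
    exact fun φ => ⟨(e1 φ).1.trans e2, (e1 φ).2.trans e2⟩
  · rw [w_arch_unit he2, har, ← ec_int (∑ j, f j * (Pi.single (Sum.inl i) 1 : Tx k → ℤ) j)]
    push_cast
    rfl
  · refine (hc f _ C₂ hC₂.le fun j => p1 u _).trans (le_trans ?_ (hT C₂ (hC4.trans hCL) hC₂.le))
    exact le_mul_of_one_le_right hC₂.le hM'
  · have e1 : ∑ j, a f j * (ph Φ e u (p j) : ℂ) - ∑ j, a f j * (ph Φ e u' (p j) : ℂ) =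
        ∑ j, a f j * ((ph Φ e u (p j) - ph Φ e u' (p j) : ℝ) : ℂ) := by
      rw [← sum_sub_distrib]
      refine sum_congr rfl fun j _ => ?_
      push_cast
      ring
    rw [e1]
    have hL0 : 0 ≤ C₂ * L := by positivity
    refine (hc f _ (C₂ * L * |u - u'|) (by positivity) fun j => ?_).trans ?_
    · simpa only [sub_self, norm_zero, mul_zero, add_zero] using p2 u u' (p j) (p j)
    · refine mul_le_mul_of_nonneg_right (le_trans ?_ (hT (C₂ * L)
        (mul_le_mul_of_nonneg_right hC4 (by linarith only [hL])) hL0)) (abs_nonneg _)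
      exact le_mul_of_one_le_right hL0 hM'
  · obtain ⟨j, -, hj⟩ := exists_ne_zero_of_sum_ne_zero h
    exact p4 u (p j) fun h0 => hj (by rw [h0]; simp)
  · obtain ⟨x, hx⟩ := w_pp_surj he hX hb
    set u := Real.log (|(nm b : ℝ)| / X ^ dg k)
    have e1 : ∑' n, Φ (sc X ((ue e n : (𝓞 k)ˣ) * b)) = ph Φ e u x := by
      unfold ph
      refine tsum_congr fun n => ?_
      rw [← hx]
      congr 1
      funext φ
      simp [sc, mul_div_assoc]
    have e2 : ∀ f, ar (t f) (m f) (sc 1 b) = ec (∑ i, f i * x i) := fun f => by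
      rw [← ar_scale (ht f) (m f) hX hb.1, hx, har]
    simp_rw [e1, e2]
    have hL0 : 0 ≤ C₂ * L * e := by positivity
    refine (hF (fun x => (ph Φ e u x : ℂ)) (C₂ * L * e) hL0
      (fun x n => by simp only [p3]) (fun x y => ?_) x).trans ?_
    · rw [← Complex.ofReal_sub, Complex.norm_real, Real.norm_eq_abs]
      simpa only [mul_assoc, sub_self, abs_zero, zero_add] using p2 u u x y
    · refine div_le_div_of_nonneg_right ?_ (Real.sqrt_nonneg _)
      have e3 : (Fintype.card (Tx k) : ℝ) ≤ 2 * dg k := by exact_mod_cast w_arch_card k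
      have e4 : 0 ≤ L * e := by positivity
      calc (Fintype.card (Tx k) : ℝ) * (C₂ * L * e) ≤ 2 * dg k * (C₂ * L * e) :=
            mul_le_mul_of_nonneg_right e3 hL0
        _ = 2 * dg k * C₂ * (L * e) := by ring
        _ ≤ C * (L * e) := mul_le_mul_of_nonneg_right hC2 e4
        _ = C * e * L := by ring

end Pool.Agent.MP_a59382_lc.V3

end

-- part MP_a59382_lc.V3.WAlg
section

/-! Characters of a number field pulled back along the norm from an extension. -/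

set_option autoImplicit false

namespace Pool.Agent.MP_a59382_lc.V3

open Finset NumberField NumberField.Units Filter Pool.Agent.MP_48b1c3_nt.H91

variable {k Ω : Type} [Field k] [NumberField k] [Field Ω] [NumberField Ω] [Algebra k Ω]

variable (k) in
/-- the relative norm -/
noncomputable abbrev rn (P : 𝓞 Ω) : 𝓞 k := RingOfIntegers.norm k P

variable (k) in
/-- restriction of embeddings -/
def res (φ : Ω →+* ℂ) : k →+* ℂ := φ.comp (algebraMap k Ω)

/-- characters of the units modulo `q` -/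
structure Ch (q : ℕ) (ψ : 𝓞 k → ℂ) : Prop where
  one : ψ 1 = 1
  mul : ∀ a b, ψ (a * b) = ψ a * ψ b
  per : ∀ a b, (q : 𝓞 k) ∣ a - b → ψ a = ψ b
  unit : ∀ a, IsCoprime a (q : 𝓞 k) → ‖ψ a‖ = 1
  zero : ∀ a, ¬ IsCoprime a (q : 𝓞 k) → ψ a = 0

/-- the product of a finite and an archimedean character -/
noncomputable def Ps (ψ : 𝓞 k → ℂ) (t : (k →+* ℂ) → ℝ) (m : (k →+* ℂ) → ℤ) (a : 𝓞 k) : ℂ :=
  ψ a * ar t m (sc 1 a)

/-- elements of positive norm in the class of `P₀` modulo `W` -/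
def Gn (W : ℕ) (P₀ P : 𝓞 Ω) : Prop := (W : 𝓞 Ω) ∣ P - P₀ ∧ 0 < nm P

/-- ideals with such a generator -/
def Cl (W : ℕ) (P₀ : 𝓞 Ω) (I : Ideal (𝓞 Ω)) : Prop := ∃ P, Gn W P₀ P ∧ I = Ideal.span {P}

open scoped Classical in
/-- a chosen generator -/
noncomputable def gen (W : ℕ) (P₀ : 𝓞 Ω) (I : Ideal (𝓞 Ω)) : 𝓞 Ω :=
  if h : Cl W P₀ I then h.choose else 0

omit [NumberField Ω] in
theorem gen_spec {W : ℕ} {P₀ : 𝓞 Ω} {I : Ideal (𝓞 Ω)} (h : Cl W P₀ I) :
    Gn W P₀ (gen W P₀ I) ∧ I = Ideal.span {gen W P₀ I} := by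
  rw [gen, dif_pos h]
  exact h.choose_spec

variable (k Ω) in
/-- the norms of the units that are one modulo `W` and have positive norm -/
def Gam (W : ℕ) : Subgroup (𝓞 k)ˣ where
  carrier := {γ | ∃ u : (𝓞 Ω)ˣ, Gn W 1 (u : 𝓞 Ω) ∧ rn k (u : 𝓞 Ω) = γ}
  one_mem' := ⟨1, ⟨by simp, by simp only [nm, Units.val_one, map_one, zero_lt_one]⟩, by simp⟩
  mul_mem' := by
    rintro a b ⟨u, ⟨h1, h2⟩, h3⟩ ⟨v, ⟨h4, h5⟩, h6⟩
    refine ⟨u * v, ⟨?_, ?_⟩, ?_⟩
    · rw [show ((u * v : (𝓞 Ω)ˣ) : 𝓞 Ω) - 1 = u * (v - 1) + (u - 1) by push_cast; ring]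
      exact (h4.mul_left _).add h1
    · rw [Units.val_mul, nm_mul]
      exact mul_pos h2 h5
    · rw [Units.val_mul, Units.val_mul, ← h3, ← h6]
      exact map_mul _ _ _
  inv_mem' := by
    rintro a ⟨u, ⟨h1, h2⟩, h3⟩
    have e : ((u⁻¹ : (𝓞 Ω)ˣ) : 𝓞 Ω) * u = 1 := u.inv_mul
    refine ⟨u⁻¹, ⟨?_, ?_⟩, ?_⟩
    · rw [show ((u⁻¹ : (𝓞 Ω)ˣ) : 𝓞 Ω) - 1 = -(u⁻¹ : (𝓞 Ω)ˣ) * (u - 1) by
        linear_combination e]
      exact h1.mul_left _
    · have h4 : nm ((u⁻¹ : (𝓞 Ω)ˣ) : 𝓞 Ω) * nm (u : 𝓞 Ω) = 1 := by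
        rw [← nm_mul, e]
        exact map_one _
      exact (pos_iff_pos_of_mul_pos (h4 ▸ one_pos)).2 h2
    · refine Units.eq_inv_of_mul_eq_one_right ?_
      rw [← h3]
      exact (map_mul (RingOfIntegers.norm k) _ _).symm.trans (by rw [e]; exact map_one _)

variable (Ω) in
/-- `Ψ` is trivial on the norms of the elements that are one modulo `W` -/
def Tv (q W : ℕ) (Ψ : 𝓞 k → ℂ) : Prop :=
  ∀ P : 𝓞 Ω, Gn W 1 P → IsCoprime P (q : 𝓞 Ω) → Ψ (rn k P) = 1

/-- the archimedean character is trivial -/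
def Tr (t : (k →+* ℂ) → ℝ) (m : (k →+* ℂ) → ℤ) : Prop :=
  ∀ a : 𝓞 k, a ≠ 0 → ar t m (sc 1 a) = 1

open scoped Classical in
/-- the exponents of a sign character -/
noncomputable def sgm (s : Finset (k →+* ℂ)) (φ : k →+* ℂ) : ℤ := if φ ∈ s then 1 else 0

open scoped Classical in
variable (k) in
/-- the real embeddings -/
noncomputable def Rr : Finset (k →+* ℂ) := univ.filter ComplexEmbedding.IsReal

variable (k) in
/-- the exponent of the lattice of units -/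
noncomputable def ex (D q : ℕ) : ℕ := 2 * D * Nat.card (𝓞 k ⧸ Ideal.span {(q : 𝓞 k)})ˣ

/-- `T` represents the cosets in `Γ` of the lattice of units -/
structure Unf (Γ : Subgroup (𝓞 k)ˣ) (e : ℕ) (T : Finset (𝓞 k)ˣ) : Prop where
  ne : T.Nonempty
  mem : ∀ γ ∈ T, γ ∈ Γ
  lat : ∀ b, ue e b ∈ Γ
  card : #T ≤ torsionOrder k * e ^ rank k
  bij : ∀ γ ∈ Γ, ∃! p : (𝓞 k)ˣ × (Fin (rank k) → ℤ), p.1 ∈ T ∧ γ = ue e p.2 * p.1
  orth : ∀ χ : (𝓞 k)ˣ → ℂ, (∀ a b, χ (a * b) = χ a * χ b) → χ 1 = 1 →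
    (∀ i, χ (fundSystem k i ^ e) = 1) → (∃ γ ∈ Γ, χ γ ≠ 1) → ∑ γ ∈ T, χ γ = 0

theorem w_unf_add (e : ℕ) (b b' : Fin (rank k) → ℤ) : ue e (b + b') = ue e b * ue e b' := by
  unfold ue
  rw [← prod_mul_distrib]
  exact prod_congr rfl fun i _ => by rw [Pi.add_apply, mul_add, zpow_add]

theorem w_unf_zero (e : ℕ) : ue e (0 : Fin (rank k) → ℤ) = 1 := by
  simp only [ue, Pi.zero_apply, mul_zero, zpow_ofNat, pow_zero, prod_const_one]

theorem w_unf_pow (e : ℕ) (b : Fin (rank k) → ℤ) :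
    ue e b = ∏ i, (fundSystem k i ^ e) ^ b i := by
  unfold ue
  exact prod_congr rfl fun i _ => by rw [zpow_mul, zpow_natCast]

theorem w_unf_split (e : ℕ) (b r : Fin (rank k) → ℤ) (ζ : (𝓞 k)ˣ) :
    ue e b * (ζ * ∏ i, fundSystem k i ^ r i) = ζ * ∏ i, fundSystem k i ^ ((e : ℤ) * b i + r i) := by
  unfold ue
  rw [mul_left_comm, ← prod_mul_distrib]
  simp only [zpow_add]

theorem w_unf (Γ : Subgroup (𝓞 k)ˣ) {e : ℕ} (he : 0 < e) (h : ∀ i, fundSystem k i ^ e ∈ Γ) :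
    ∃ T, Unf Γ e T := by
  classical
  have := Fintype.ofFinite (torsion k)
  have he' : (0 : ℤ) < e := by exact_mod_cast he
  let S : Finset (torsion k × (Fin (rank k) → ℤ)) :=
    univ ×ˢ Fintype.piFinset fun _ => Ico (0 : ℤ) e
  let g : torsion k × (Fin (rank k) → ℤ) → (𝓞 k)ˣ := fun p => p.1 * ∏ i, fundSystem k i ^ p.2 i
  let T := (S.image g).filter (· ∈ Γ)
  have lat : ∀ b, ue e b ∈ Γ := fun b => by
    rw [w_unf_pow]
    exact Γ.prod_mem fun i _ => Γ.zpow_mem (h i) _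
  have mem : ∀ γ ∈ T, γ ∈ Γ := fun γ hγ => (mem_filter.1 hγ).2
  have bij : ∀ γ ∈ Γ, ∃! p : (𝓞 k)ˣ × (Fin (rank k) → ℤ), p.1 ∈ T ∧ γ = ue e p.2 * p.1 := by
    intro γ hγ
    obtain ⟨⟨ζ, n⟩, h1, h2⟩ := exist_unique_eq_mul_prod k γ
    have h3 : γ = ue e (fun i => n i / e) * g (ζ, fun i => n i % e) := by
      simp only [g]
      rw [w_unf_split]
      simpa only [Int.mul_ediv_add_emod] using h1
    refine ⟨(g (ζ, fun i => n i % e), fun i => n i / e), ⟨mem_filter.2 ⟨mem_image_of_mem g ?_, ?_⟩,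
      h3⟩, ?_⟩
    · exact mem_product.2 ⟨mem_univ _, Fintype.mem_piFinset.2 fun i =>
        mem_Ico.2 ⟨Int.emod_nonneg _ he'.ne', Int.emod_lt_of_pos _ he'⟩⟩
    · exact (Γ.mul_mem_cancel_left (lat _)).1 (h3 ▸ hγ)
    · rintro ⟨γ', b⟩ ⟨h4, h5⟩
      obtain ⟨⟨ζ', r⟩, h6, rfl⟩ := mem_image.1 (mem_filter.1 h4).1
      have h7 := h2 (ζ', fun i => (e : ℤ) * b i + r i) (h5.trans (w_unf_split e b r ζ'))
      obtain ⟨rfl, rfl⟩ := Prod.ext_iff.1 h7
      have h8 := fun i => mem_Ico.1 (Fintype.mem_piFinset.1 (mem_product.1 h6).2 i)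
      have h9 : ∀ i, ((e : ℤ) * b i + r i) % e = r i := fun i => by
        rw [add_comm, Int.add_mul_emod_self_left, Int.emod_eq_of_lt (h8 i).1 (h8 i).2]
      have h10 : ∀ i, ((e : ℤ) * b i + r i) / e = b i := fun i => by
        rw [add_comm, Int.add_mul_ediv_left _ _ he'.ne', Int.ediv_eq_zero_of_lt (h8 i).1 (h8 i).2,
          zero_add]
      simp only [h9, h10]
  refine ⟨T, ?_, mem, lat, ?_, bij, fun χ hm h1 hχ ⟨γ₀, hγ₀, hne⟩ => ?_⟩
  · obtain ⟨p, hp, -⟩ := bij 1 Γ.one_mem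
    exact ⟨p.1, hp.1⟩
  · refine (card_filter_le _ _).trans (card_image_le.trans (le_of_eq ?_))
    rw [card_product, card_univ, Fintype.card_piFinset, prod_const, card_univ, Fintype.card_fin,
      Int.card_Ico, sub_zero, Int.toNat_natCast, torsionOrder, Nat.card_eq_fintype_card]
  · let χ' : (𝓞 k)ˣ →* ℂ := ⟨⟨χ, h1⟩, hm⟩
    have hu : ∀ b, χ (ue e b) = 1 := fun b => by
      rw [w_unf_pow]
      change χ' _ = 1
      rw [map_prod]
      exact prod_eq_one fun i _ => by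
        rw [map_zpow, show χ' (fundSystem k i ^ e) = 1 from hχ i, one_zpow]
    have hex : ∀ γ : (𝓞 k)ˣ, ∃ p : (𝓞 k)ˣ × (Fin (rank k) → ℤ), γ ∈ T →
        p.1 ∈ T ∧ γ₀ * γ = ue e p.2 * p.1 := fun γ => by
      by_cases hγ : γ ∈ T
      · obtain ⟨p, hp, -⟩ := bij _ (Γ.mul_mem hγ₀ (mem γ hγ))
        exact ⟨p, fun _ => hp⟩
      · exact ⟨(1, 0), fun h => absurd h hγ⟩
    choose σ hσ using hex
    have hinj : Set.InjOn (fun γ => (σ γ).1) T := by
      intro a ha b hb hab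
      have h2 := (hσ a ha).2
      have h3 := (hσ b hb).2
      simp only at hab
      have h4 : a = ue e ((σ a).2 - (σ b).2) * b := by
        apply mul_left_cancel (a := γ₀)
        rw [mul_left_comm, h3, ← mul_assoc, ← w_unf_add, sub_add_cancel, h2, hab]
      have h5 := (bij a (mem a ha)).unique (y₁ := (a, 0)) (y₂ := (b, (σ a).2 - (σ b).2))
        ⟨ha, by rw [w_unf_zero, one_mul]⟩ ⟨hb, h4⟩
      exact congrArg Prod.fst h5
    have him : T.image (fun γ => (σ γ).1) = T :=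
      eq_of_subset_of_card_le (image_subset_iff.2 fun γ hγ => (hσ γ hγ).1)
        (card_image_of_injOn hinj).ge
    have h6 : ∑ γ ∈ T, χ γ = χ γ₀ * ∑ γ ∈ T, χ γ := by
      conv_lhs => rw [← him, sum_image hinj]
      rw [mul_sum]
      exact sum_congr rfl fun γ hγ => by rw [← hm, (hσ γ hγ).2, hm, hu, one_mul]
    have h7 : (χ γ₀ - 1) * ∑ γ ∈ T, χ γ = 0 := by linear_combination -h6
    exact (mul_eq_zero.1 h7).resolve_left (sub_ne_zero.2 hne)

omit [NumberField k] in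
theorem w_chars_unit {q : ℕ} (a : 𝓞 k) :
    IsCoprime a (q : 𝓞 k) ↔ IsUnit (Ideal.Quotient.mk (Ideal.span {(q : 𝓞 k)}) a) := by
  constructor
  · rintro ⟨u, v, h⟩
    refine IsUnit.of_mul_eq_one_right (Ideal.Quotient.mk _ u) ?_
    rw [← map_mul, ← map_one (Ideal.Quotient.mk _), Ideal.Quotient.eq, Ideal.mem_span_singleton]
    exact ⟨-v, by linear_combination h⟩
  · intro h
    obtain ⟨b, hb⟩ := h.exists_left_inv
    obtain ⟨b, rfl⟩ := Ideal.Quotient.mk_surjective b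
    rw [← map_mul, ← map_one (Ideal.Quotient.mk _), Ideal.Quotient.eq,
      Ideal.mem_span_singleton] at hb
    obtain ⟨c, hc⟩ := hb
    exact ⟨b, -c, by linear_combination hc⟩

theorem w_chars {q : ℕ} (hq : 0 < q) : ∃ (ι : Type) (_ : Fintype ι) (ψ : ι → 𝓞 k → ℂ),
    (∀ i, Ch q (ψ i)) ∧ (∃ i, ∀ a, IsCoprime a (q : 𝓞 k) → ψ i a = 1) ∧
      ∀ a b, IsCoprime b (q : 𝓞 k) → (((q : 𝓞 k) ∣ a - b →
        ∑ i, (ψ i b)⁻¹ * ψ i a = Fintype.card ι) ∧
          (¬ (q : 𝓞 k) ∣ a - b → ∑ i, (ψ i b)⁻¹ * ψ i a = 0)) := by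
  classical
  have : Finite (𝓞 k ⧸ Ideal.span {(q : 𝓞 k)}) :=
    Ideal.finiteQuotientOfFreeOfNeBot _ (mt Ideal.span_singleton_eq_bot.1
      (Nat.cast_ne_zero.2 hq.ne'))
  obtain ⟨ι, hι, φ, h1, h2, h3, ⟨i0, h4⟩, h5⟩ :=
    fam_abs (R := (𝓞 k ⧸ Ideal.span {(q : 𝓞 k)})ˣ) Group.isUnit
  let g : ι → (𝓞 k ⧸ Ideal.span {(q : 𝓞 k)}) → ℂ := fun i r =>
    if h : IsUnit r then φ i h.unit else 0
  have gu : ∀ i (u : (𝓞 k ⧸ Ideal.span {(q : 𝓞 k)})ˣ), g i u = φ i u := fun i u => by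
    simp only [g, dif_pos u.isUnit, IsUnit.unit_of_val_units]
  have g0 : ∀ i r, ¬ IsUnit r → g i r = 0 := fun i r h => dif_neg h
  have he : ∀ a b : 𝓞 k, (q : 𝓞 k) ∣ a - b ↔ Ideal.Quotient.mk (Ideal.span {(q : 𝓞 k)}) a =
      Ideal.Quotient.mk _ b := fun a b => by rw [Ideal.Quotient.eq, Ideal.mem_span_singleton]
  refine ⟨ι, hι, fun i a => g i (Ideal.Quotient.mk _ a), fun i => ⟨?_, fun a b => ?_,
    fun a b h => ?_, fun a h => ?_, fun a h => g0 i _ (mt (w_chars_unit a).2 h)⟩,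
    ⟨i0, fun a h => ?_⟩, fun a b hb => ?_⟩
  · beta_reduce
    rw [map_one]
    exact (gu i 1).trans (h1 i)
  · beta_reduce
    rw [map_mul]
    generalize Ideal.Quotient.mk (Ideal.span {(q : 𝓞 k)}) a = r
    generalize Ideal.Quotient.mk (Ideal.span {(q : 𝓞 k)}) b = s
    by_cases hr : IsUnit r
    · by_cases hs : IsUnit s
      · obtain ⟨u, rfl⟩ := hr
        obtain ⟨v, rfl⟩ := hs
        rw [← Units.val_mul, gu, gu, gu, h2]
      · rw [g0 i s hs, g0 i _ fun h => hs (isUnit_of_mul_isUnit_right h), mul_zero]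
    · rw [g0 i r hr, g0 i _ fun h => hr (isUnit_of_mul_isUnit_left h), zero_mul]
  · exact congrArg (g i) ((he a b).1 h)
  · obtain ⟨u, hu⟩ := (w_chars_unit a).1 h
    beta_reduce
    rw [← hu, gu, h3]
  · obtain ⟨u, hu⟩ := (w_chars_unit a).1 h
    beta_reduce
    rw [← hu, gu, h4]
  · obtain ⟨v, hv⟩ := (w_chars_unit b).1 hb
    rw [he]
    beta_reduce
    rw [← hv]
    generalize Ideal.Quotient.mk (Ideal.span {(q : 𝓞 k)}) a = r
    refine ⟨?_, fun h => ?_⟩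
    · rintro rfl
      simp only [gu]
      rw [h5, if_pos rfl]
    · by_cases hr : IsUnit r
      · obtain ⟨u, rfl⟩ := hr
        simp only [gu]
        rw [h5, if_neg fun e => h (by rw [e])]
      · simp only [g0 _ r hr, mul_zero, sum_const_zero]

omit [NumberField k] in
theorem w_sign_real {φ : k →+* ℂ} (hφ : ComplexEmbedding.IsReal φ) {x : k} (hx : x ≠ 0) :
    (0 < (φ x).re → φ x / ‖φ x‖ = 1) ∧ (¬ 0 < (φ x).re → φ x / ‖φ x‖ = -1) := by
  have h0 : hφ.embedding x ≠ 0 := (map_ne_zero _).2 hx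
  rw [← hφ.coe_embedding_apply x]
  generalize hφ.embedding x = r at h0
  have h1 : (r : ℂ) ≠ 0 := Complex.ofReal_ne_zero.2 h0
  rw [Complex.ofReal_re, Complex.norm_real, Real.norm_eq_abs]
  refine ⟨fun h => ?_, fun h => ?_⟩
  · rw [abs_of_pos h, div_self h1]
  · rw [abs_of_nonpos (not_lt.1 h), Complex.ofReal_neg, div_neg, div_self h1]

theorem w_sign_ar (a : 𝓞 k) (s : Finset (k →+* ℂ)) :
    ar 0 (sgm s) (sc 1 a) = ∏ φ ∈ s, φ a / ‖φ a‖ := by
  classical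
  rw [ar, ← prod_subset (subset_univ s) fun φ _ h => by simp [sgm, h]]
  exact prod_congr rfl fun φ h => by simp [sgm, h, sc]

theorem w_sign {a : 𝓞 k} (ha : a ≠ 0) :
    (∀ s ⊆ Rr k, ar 0 (sgm s) (sc 1 a) ^ 2 = 1) ∧
    (TP a → ∀ s ⊆ Rr k, ar 0 (sgm s) (sc 1 a) = 1) ∧
    (¬ TP a → ∑ s ∈ (Rr k).powerset, ar 0 (sgm s) (sc 1 a) = 0) := by
  classical
  have h0 : (a : k) ≠ 0 := RingOfIntegers.coe_ne_zero_iff.2 ha
  have hR : ∀ φ, φ ∈ Rr k ↔ ComplexEmbedding.IsReal φ := fun φ => by simp [Rr]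
  simp only [w_sign_ar]
  refine ⟨fun s hs => ?_, fun h s hs => prod_eq_one fun φ hφ => ?_, fun h => ?_⟩
  · rw [← prod_pow]
    refine prod_eq_one fun φ hφ => ?_
    have h1 := w_sign_real ((hR φ).1 (hs hφ)) h0
    by_cases h : 0 < (φ a).re
    · rw [h1.1 h, one_pow]
    · rw [h1.2 h, neg_one_sq]
  · exact (w_sign_real ((hR φ).1 (hs hφ)) h0).1 (h.2 φ ((hR φ).1 (hs hφ)))
  · rw [← prod_one_add]
    obtain ⟨φ, h1⟩ := not_forall.1 fun h' => h ⟨ha, h'⟩
    obtain ⟨h1, h2⟩ := Classical.not_imp.1 h1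
    refine prod_eq_zero ((hR φ).2 h1) ?_
    rw [(w_sign_real h1 h0).2 h2, add_neg_cancel]

open scoped Classical in
theorem w_nm_rn_fib (φ : k →+* ℂ) :
    (∀ x : Ω, φ (Algebra.norm k x) = ∏ ψ ∈ univ.filter fun ψ : Ω →+* ℂ => res k ψ = φ, ψ x) ∧
      #(univ.filter fun ψ : Ω →+* ℂ => res k ψ = φ) = Module.finrank k Ω := by
  let _ : Algebra k ℂ := φ.toAlgebra
  have hi : Function.Injective fun σ : Ω →ₐ[k] ℂ => σ.toRingHom := fun _ _ h =>
    AlgHom.ext fun x => RingHom.congr_fun h x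
  have he : (univ.filter fun ψ : Ω →+* ℂ => res k ψ = φ) =
      univ.image fun σ : Ω →ₐ[k] ℂ => σ.toRingHom := by
    ext ψ
    simp only [mem_filter, mem_univ, true_and, mem_image]
    constructor
    · intro h
      exact ⟨⟨ψ, fun a => RingHom.congr_fun h a⟩, rfl⟩
    · rintro ⟨σ, rfl⟩
      exact RingHom.ext fun a => σ.commutes a
  rw [he]
  refine ⟨fun x => ?_, ?_⟩
  · rw [prod_image fun _ _ _ _ h => hi h]
    exact Algebra.norm_eq_prod_embeddings k ℂ x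
  · rw [card_image_of_injective _ hi, card_univ]
    exact AlgHom.card k Ω ℂ

theorem w_nm_rn (P : 𝓞 Ω) : nm (rn k P) = nm P := by
  have h : ((nm (rn k P) : ℤ) : ℚ) = (nm P : ℤ) := by
    rw [nm, nm, Algebra.coe_norm_int, Algebra.coe_norm_int, RingOfIntegers.coe_norm,
      Algebra.norm_norm]
  exact_mod_cast h

theorem w_cop_rn {q : ℕ} {P : 𝓞 Ω} :
    IsCoprime (rn k P) (q : 𝓞 k) ↔ IsCoprime P (q : 𝓞 Ω) := by
  rw [← cop_span, ← cop_span, cop_iff, cop_iff, Ideal.absNorm_span_singleton,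
    Ideal.absNorm_span_singleton]
  have h := w_nm_rn (k := k) P
  rw [nm, nm] at h
  rw [h]

theorem w_rn_congr_prod {R ι : Type} [CommRing R] {c : R} (s : Finset ι) {f g : ι → R}
    (h : ∀ i, c ∣ f i - g i) : c ∣ ∏ i ∈ s, f i - ∏ i ∈ s, g i := by
  classical
  induction s using Finset.induction_on with
  | empty => simp
  | insert a s ha ih =>
    rw [prod_insert ha, prod_insert ha, show f a * ∏ i ∈ s, f i - g a * ∏ i ∈ s, g i =
      f a * (∏ i ∈ s, f i - ∏ i ∈ s, g i) + (f a - g a) * ∏ i ∈ s, g i by ring]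
    exact (ih.mul_left _).add ((h a).mul_right _)

theorem w_rn_congr {q : ℕ} {P P' : 𝓞 Ω} (h : (q : 𝓞 Ω) ∣ P - P') :
    (q : 𝓞 k) ∣ rn k P - rn k P' := by
  classical
  rcases Nat.eq_zero_or_pos q with rfl | hq
  · rw [Nat.cast_zero, zero_dvd_iff, sub_eq_zero] at h
    rw [h, sub_self]
    exact dvd_zero _
  obtain ⟨φ⟩ : Nonempty (k →+* ℂ) := inferInstance
  let e : (Ω →+* ℂ) → 𝓞 Ω →+* integralClosure ℤ ℂ := fun ψ =>
    (ψ.comp (algebraMap (𝓞 Ω) Ω)).codRestrict (integralClosure ℤ ℂ) fun x =>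
      (RingOfIntegers.isIntegral_coe x).map ψ.toIntAlgHom
  obtain ⟨y, hy⟩ := w_rn_congr_prod (c := (q : integralClosure ℤ ℂ))
    (univ.filter fun ψ : Ω →+* ℂ => res k ψ = φ) (f := fun ψ => e ψ P) (g := fun ψ => e ψ P')
    fun ψ => by
      have h1 := map_dvd (e ψ) h
      rwa [map_natCast, map_sub] at h1
  have h2 : φ (Algebra.norm k (P : Ω)) - φ (Algebra.norm k (P' : Ω)) = q * (y : ℂ) := by
    have h3 := congrArg (integralClosure ℤ ℂ).val hy
    rw [map_sub, map_prod, map_prod, map_mul, map_natCast] at h3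
    rw [(w_nm_rn_fib φ).1, (w_nm_rn_fib φ).1]
    exact h3
  have hq' : (q : ℂ) ≠ 0 := Nat.cast_ne_zero.2 hq.ne'
  have hq'' : (q : k) ≠ 0 := Nat.cast_ne_zero.2 hq.ne'
  have h4 : IsIntegral ℤ ((Algebra.norm k (P : Ω) - Algebra.norm k (P' : Ω)) / (q : k)) := by
    rw [← isIntegral_algHom_iff φ.toIntAlgHom φ.injective]
    have h5 : φ.toIntAlgHom ((Algebra.norm k (P : Ω) - Algebra.norm k (P' : Ω)) / (q : k)) =
        (y : ℂ) := by
      change φ _ = _
      rw [map_div₀, map_sub, map_natCast, h2, mul_div_cancel_left₀ _ hq']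
    rw [h5]
    exact y.2
  refine ⟨⟨_, h4⟩, RingOfIntegers.ext ?_⟩
  change Algebra.norm k (P : Ω) - Algebra.norm k (P' : Ω) =
    algebraMap (𝓞 k) k q * ((Algebra.norm k (P : Ω) - Algebra.norm k (P' : Ω)) / (q : k))
  rw [map_natCast, mul_div_cancel₀ _ hq'']

theorem w_ar_norm (t : (k →+* ℂ) → ℝ) (m : (k →+* ℂ) → ℤ) {P : 𝓞 Ω} (hP : P ≠ 0) :
    ar (fun φ => t (res k φ)) (fun φ => m (res k φ)) (sc 1 P) = ar t m (sc 1 (rn k P)) := by
  classical
  have h0 : ∀ ψ : Ω →+* ℂ, ψ (P : Ω) ≠ 0 := fun ψ =>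
    (map_ne_zero ψ).2 (RingOfIntegers.coe_ne_zero_iff.2 hP)
  simp only [ar, sc, Complex.ofReal_one, div_one]
  rw [← prod_fiberwise univ (res k)]
  refine prod_congr rfl fun φ _ => ?_
  rw [RingOfIntegers.coe_norm, (w_nm_rn_fib φ).1, norm_prod,
    Real.log_prod fun ψ _ => norm_ne_zero_iff.2 (h0 ψ), mul_sum, Complex.ofReal_sum, mul_sum,
    Complex.exp_sum, Complex.ofReal_prod, ← prod_div_distrib, ← prod_zpow, ← prod_mul_distrib]
  refine prod_congr rfl fun ψ hψ => ?_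
  rw [(mem_filter.1 hψ).2]

theorem w_sum_res (t : (k →+* ℂ) → ℝ) :
    ∑ φ : Ω →+* ℂ, t (res k φ) = Module.finrank k Ω * ∑ φ, t φ := by
  classical
  rw [← sum_fiberwise univ (res k), mul_sum]
  refine sum_congr rfl fun φ _ => ?_
  rw [sum_congr rfl fun ψ hψ => congrArg t (mem_filter.1 hψ).2, sum_const, (w_nm_rn_fib φ).2,
    nsmul_eq_mul]

theorem w_tp_rn [IsTotallyComplex Ω] {P : 𝓞 Ω} (hP : P ≠ 0) : TP (rn k P) := by
  classical
  have h0 : ∀ ψ : Ω →+* ℂ, ψ (P : Ω) ≠ 0 := fun ψ =>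
    (map_ne_zero ψ).2 (RingOfIntegers.coe_ne_zero_iff.2 hP)
  refine ⟨fun h => nm_ne hP ?_, fun φ hφ => ?_⟩
  · rw [← w_nm_rn (k := k), h]
    exact Algebra.norm_zero
  have h1 : ∏ ψ ∈ univ.filter fun ψ : Ω →+* ℂ => res k ψ = φ,
      ψ (P : Ω) / (‖ψ (P : Ω)‖ : ℂ) = 1 := by
    refine prod_involution (fun ψ _ => ComplexEmbedding.conjugate ψ) (fun ψ _ => ?_)
      (fun ψ _ _ h => ?_) (fun ψ hψ => ?_) fun ψ _ => ComplexEmbedding.involutive_conjugate Ω ψ
    · have h2 : (‖ψ (P : Ω)‖ : ℂ) ≠ 0 := Complex.ofReal_ne_zero.2 (norm_ne_zero_iff.2 (h0 ψ))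
      rw [ComplexEmbedding.conjugate_coe_eq, Complex.norm_conj, div_mul_div_comm,
        Complex.mul_conj', ← sq, div_self (pow_ne_zero 2 h2)]
    · exact IsTotallyComplex.complexEmbedding_not_isReal ψ (ComplexEmbedding.isReal_iff.2 h)
    · refine mem_filter.2 ⟨mem_univ _, ?_⟩
      rw [res, ComplexEmbedding.conjugate_comp]
      exact (congrArg ComplexEmbedding.conjugate (mem_filter.1 hψ).2).trans
        (ComplexEmbedding.isReal_iff.1 hφ)
  rw [prod_div_distrib, div_eq_one_iff_eq (prod_ne_zero_iff.2 fun ψ _ =>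
    Complex.ofReal_ne_zero.2 (norm_ne_zero_iff.2 (h0 ψ))), ← Complex.ofReal_prod] at h1
  rw [RingOfIntegers.coe_norm, (w_nm_rn_fib φ).1, h1, Complex.ofReal_re]
  exact prod_pos fun ψ _ => norm_pos_iff.2 (h0 ψ)

theorem w_tp_nm {a : 𝓞 k} (ha : TP a) : 0 < nm a := by
  classical
  have h0 : (a : k) ≠ 0 := RingOfIntegers.coe_ne_zero_iff.2 ha.1
  have hn : ∀ φ : k →+* ℂ, ((‖φ a‖ : ℝ) : ℂ) ≠ 0 := fun φ =>
    Complex.ofReal_ne_zero.2 (norm_ne_zero_iff.2 ((map_ne_zero φ).2 h0))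
  have h1 : ∏ φ : k →+* ℂ, φ a / ‖φ a‖ = 1 := by
    rw [← prod_filter_mul_prod_filter_not univ ComplexEmbedding.IsReal,
      prod_eq_one fun φ hφ => (w_sign_real (mem_filter.1 hφ).2 h0).1 (ha.2 φ (mem_filter.1 hφ).2),
      one_mul]
    refine prod_involution (fun φ _ => ComplexEmbedding.conjugate φ) (fun φ _ => ?_)
      (fun φ hφ _ h => (mem_filter.1 hφ).2 (ComplexEmbedding.isReal_iff.2 h))
      (fun φ hφ => mem_filter.2 ⟨mem_univ _, fun h => (mem_filter.1 hφ).2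
        (ComplexEmbedding.isReal_conjugate_iff.1 h)⟩) fun φ _ => star_star φ
    rw [ComplexEmbedding.conjugate_coe_eq, RCLike.norm_conj, div_mul_div_comm,
      Complex.mul_conj, Complex.normSq_eq_norm_sq, Complex.ofReal_pow, sq,
      div_self (mul_ne_zero (hn φ) (hn φ))]
  have h2 := Algebra.norm_eq_prod_embeddings ℚ ℂ (a : k)
  rw [← Algebra.coe_norm_int, ← Fintype.prod_equiv (RingHom.equivRatAlgHom k ℂ)
    (fun φ => φ a) (fun φ => φ a) fun _ => rfl] at h2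
  rw [prod_div_distrib, div_eq_one_iff_eq (prod_ne_zero_iff.2 fun φ _ => hn φ), ← h2,
    ← Complex.ofReal_prod, map_intCast, ← Complex.ofReal_intCast, Complex.ofReal_inj] at h1
  have h3 : (0 : ℝ) < nm a := h1 ▸ prod_pos fun φ _ => norm_pos_iff.2 ((map_ne_zero φ).2 h0)
  exact_mod_cast h3

theorem w_tp_ex {q : ℕ} (hq : 0 < q) (a : 𝓞 k) : ∃ b, TP b ∧ (q : 𝓞 k) ∣ b - a := by
  obtain ⟨t, ht⟩ := exists_nat_gt (∑ φ : k →+* ℂ, ‖φ a‖)
  have h : ∀ φ : k →+* ℂ, 0 < (φ (a + q * t : 𝓞 k)).re := fun φ => by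
    have h1 : ‖φ a‖ ≤ ∑ φ : k →+* ℂ, ‖φ a‖ :=
      single_le_sum (f := fun φ : k →+* ℂ => ‖φ a‖) (fun _ _ => norm_nonneg _) (mem_univ φ)
    have h2 := (abs_le.1 (Complex.abs_re_le_norm (φ a))).1
    have h3 : (1 : ℝ) * t ≤ q * t := mul_le_mul_of_nonneg_right (Nat.one_le_cast.2 hq) t.cast_nonneg
    have h4 : φ (a + q * t : 𝓞 k) = φ a + ((q * t : ℝ) : ℂ) := by
      change φ (algebraMap (𝓞 k) k _) = φ (algebraMap (𝓞 k) k _) + _
      rw [map_add, map_add, map_mul, map_mul, map_natCast, map_natCast, map_natCast, map_natCast]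
      push_cast
      rfl
    rw [h4, Complex.add_re, Complex.ofReal_re]
    linarith only [ht, h1, h2, h3]
  refine ⟨a + q * t, ⟨fun h0 => ?_, fun φ _ => h φ⟩, t, by ring⟩
  obtain ⟨φ⟩ : Nonempty (k →+* ℂ) := inferInstance
  have h1 := h φ
  rw [h0] at h1
  simp at h1

theorem w_tp_ue_mul (n c : ℕ) (b : Fin (rank k) → ℤ) : ue (c * n) b = ue c b ^ n := by
  unfold ue
  rw [← prod_pow]
  refine prod_congr rfl fun i _ => ?_
  rw [← zpow_natCast, ← zpow_mul]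
  congr 1
  push_cast
  ring

theorem w_tp_ue {e : ℕ} (he : Even e) (b : Fin (rank k) → ℤ) (a : 𝓞 k) :
    TP (((ue e b : (𝓞 k)ˣ) : 𝓞 k) * a) ↔ TP a := by
  obtain ⟨c, rfl⟩ := he
  rw [← mul_two, w_tp_ue_mul]
  generalize ue c b = v
  unfold TP
  refine and_congr (by simp) (forall₂_congr fun φ hφ => ?_)
  have h1 : ∀ x : k, (φ x).re = hφ.embedding x := fun x => by
    rw [← hφ.coe_embedding_apply, Complex.ofReal_re]
  have h2 : hφ.embedding ((v : 𝓞 k) : k) ≠ 0 := by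
    rw [map_ne_zero]
    exact coe_ne_zero v
  rw [h1, h1]
  push_cast
  rw [map_mul, map_pow]
  exact mul_pos_iff_of_pos_left (by positivity)

omit [NumberField k] in
theorem w_ex_pow (q : ℕ) (u : (𝓞 k)ˣ) :
    (q : 𝓞 k) ∣ (u ^ Nat.card (𝓞 k ⧸ Ideal.span {(q : 𝓞 k)})ˣ : (𝓞 k)ˣ) - 1 := by
  rw [← Ideal.mem_span_singleton, ← Ideal.Quotient.eq, map_one]
  have h := pow_card_eq_one'
    (x := Units.map (Ideal.Quotient.mk (Ideal.span {(q : 𝓞 k)})).toMonoidHom u)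
  rw [← map_pow] at h
  exact congrArg Units.val h

theorem w_ex {D q : ℕ} (hD : 0 < D) (hq : 0 < q) : 0 < ex k D q ∧ Even (ex k D q) ∧
    ex k D q ≤ 2 * D * q ^ dg k ∧
    (∀ i, (q : 𝓞 k) ∣ (fundSystem k i ^ ex k D q : (𝓞 k)ˣ) - 1) ∧
    ∀ b, (q : 𝓞 k) ∣ (ue (ex k D q) b : (𝓞 k)ˣ) - 1 := by
  have h1 : Nat.card (𝓞 k ⧸ Ideal.span {(q : 𝓞 k)}) = q ^ dg k := by
    rw [← Submodule.cardQuot_apply, ← Ideal.absNorm_apply, Ideal.absNorm_span_natCast,
      RingOfIntegers.rank]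
  have h2 : Finite (𝓞 k ⧸ Ideal.span {(q : 𝓞 k)}) :=
    Nat.finite_of_card_ne_zero (by rw [h1]; positivity)
  refine ⟨?_, ⟨D * Nat.card (𝓞 k ⧸ Ideal.span {(q : 𝓞 k)})ˣ, by unfold ex; ring⟩, ?_, fun i => ?_,
    fun b => ?_⟩
  · exact mul_pos (by omega) Nat.card_pos
  · refine Nat.mul_le_mul_left _ ?_
    rw [← h1]
    exact Nat.card_le_card_of_injective _ Units.val_injective
  · rw [ex, pow_mul]
    exact w_ex_pow q _
  · rw [ex, w_tp_ue_mul]
    exact w_ex_pow q _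

theorem w_ex_mem {D q W : ℕ} (hD : Module.finrank k Ω ∣ D) (hq : 0 < q) (hW : W ∣ q)
    (i : Fin (rank k)) : fundSystem k i ^ ex k D q ∈ Gam k Ω W := by
  obtain ⟨D, rfl⟩ := hD
  let N := Nat.card (𝓞 k ⧸ Ideal.span {(q : 𝓞 k)})ˣ
  let f : (𝓞 k)ˣ →* (𝓞 Ω)ˣ := Units.map (algebraMap (𝓞 k) (𝓞 Ω)).toMonoidHom
  have hf : ∀ u, (f u : 𝓞 Ω) = algebraMap (𝓞 k) (𝓞 Ω) u := fun _ => rfl
  refine ⟨f ((fundSystem k i ^ (2 * D)) ^ N), ⟨?_, ?_⟩, ?_⟩
  · have h := map_dvd (algebraMap (𝓞 k) (𝓞 Ω))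
      ((Nat.cast_dvd_cast hW).trans (w_ex_pow q (fundSystem k i ^ (2 * D))))
    rwa [map_natCast, map_sub, map_one] at h
  · rw [show (fundSystem k i ^ (2 * D)) ^ N = fundSystem k i ^ (D * N) * fundSystem k i ^ (D * N) by
      rw [← pow_mul, ← pow_add]; congr 1; ring, map_mul, Units.val_mul, nm_mul]
    exact mul_self_pos.2 (nm_ne (Units.ne_zero _))
  · rw [hf, rn, RingOfIntegers.norm_algebraMap, ← Units.val_pow_eq_pow_val, ← pow_mul, ← pow_mul]
    congr 2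
    unfold ex
    ring

theorem w_ext_baer {T B : Type} [CommGroup T] [CommGroup B] (π : T →* B)
    (h : Function.Injective π) (χ : T →* Circle) : ∃ F : B →* Circle, ∀ x, F (π x) = χ x := by
  let _ : DivisibleBy (Additive Circle) ℕ := divisibleByOfSMulRightSurj _ _ fun {n} hn z =>
    ⟨Additive.ofMul (Circle.exp (Complex.arg (Additive.toMul z : Circle) / n)), by
      apply Additive.toMul.injective
      rw [toMul_nsmul, toMul_ofMul, ← Circle.exp_nsmul, nsmul_eq_mul,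
        mul_div_cancel₀ _ (Nat.cast_ne_zero.2 hn), Circle.exp_arg]⟩
  let _ : DivisibleBy (Additive Circle) ℤ := AddGroup.divisibleByIntOfDivisibleByNat _
  obtain ⟨F, hF⟩ := (Module.Baer.of_divisible (Additive Circle)).extension_property_addMonoidHom
    (MonoidHom.toAdditive π) h (MonoidHom.toAdditive χ)
  exact ⟨MonoidHom.toAdditive.symm F, fun x =>
    congrArg Additive.toMul (DFunLike.congr_fun hF (Additive.ofMul x))⟩

theorem w_ext {M : Type} [CommMonoid M] [IsCancelMul M] (S : Submonoid M) (χ : M → ℂ)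
    (h1 : ∀ a ∈ S, ‖χ a‖ = 1) (hm : ∀ a ∈ S, ∀ b ∈ S, χ (a * b) = χ a * χ b) :
    ∃ F : M → ℂ, (∀ a, ‖F a‖ = 1) ∧ F 1 = 1 ∧ (∀ a b, F (a * b) = F a * F b) ∧
      ∀ a ∈ S, F a = χ a := by
  let c : S → Circle := fun a => ⟨χ a, mem_sphere_zero_iff_norm.2 (h1 a a.2)⟩
  have cm : ∀ a b, c (a * b) = c a * c b := fun a b => Subtype.ext (hm a a.2 b b.2)
  let χ' : S →* Circle := ⟨⟨c, mul_left_cancel (a := c 1) (by rw [← cm, mul_one, mul_one])⟩, cm⟩
  let ι : S →* Algebra.GrothendieckGroup M := Algebra.GrothendieckGroup.of.comp S.subtype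
  have hl : ∀ {G : Type} [CommGroup G] (f : S →* G) (a : S),
      Algebra.GrothendieckGroup.lift f (Algebra.GrothendieckGroup.of a) = f a := fun f a =>
    DFunLike.congr_fun (Algebra.GrothendieckGroup.lift.symm_apply_apply f) a
  obtain ⟨F, hF⟩ := w_ext_baer (Algebra.GrothendieckGroup.lift ι)
    ((injective_iff_map_eq_one _).2 fun x hx => by
      rw [Algebra.GrothendieckGroup.lift_apply, div_eq_one] at hx
      have h2 := Subtype.ext (Algebra.GrothendieckGroup.of_injective hx)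
      have h3 := Algebra.GrothendieckGroup.lift_apply (Algebra.GrothendieckGroup.of (M := S)) x
      rw [h2, div_self'] at h3
      exact (DFunLike.congr_fun (Algebra.GrothendieckGroup.lift.apply_symm_apply
        (MonoidHom.id _)) x).symm.trans h3)
    (Algebra.GrothendieckGroup.lift χ')
  refine ⟨fun a => F (Algebra.GrothendieckGroup.of a), fun a => Circle.norm_coe _, ?_,
    fun a b => ?_, fun a ha => ?_⟩
  · beta_reduce
    rw [map_one, map_one, Circle.coe_one]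
  · beta_reduce
    rw [map_mul, map_mul, Circle.coe_mul]
  · have h2 := hF (Algebra.GrothendieckGroup.of ⟨a, ha⟩)
    rw [hl, hl] at h2
    exact congrArg Subtype.val h2

theorem w_inv {q : ℕ} (hq : 0 < q) {P : 𝓞 Ω} (h0 : 0 < nm P) (hP : IsCoprime P (q : 𝓞 Ω)) :
    ∃ P' : 𝓞 Ω, 0 < nm P' ∧ IsCoprime P' (q : 𝓞 Ω) ∧ (q : 𝓞 Ω) ∣ P * P' - 1 := by
  have _ := h0
  obtain ⟨s, r, h⟩ := hP
  obtain ⟨s', ⟨d, hd⟩, h4⟩ := exists_pos s hq
  exact ⟨s', h4, ⟨P, r - P * d, by linear_combination h + P * hd⟩,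
    ⟨P * d - r, by linear_combination h + P * hd⟩⟩

theorem w_P1_split (W : ℕ) : ∀ q : ℕ, 0 < q → ∃ n r : ℕ, W.Coprime r ∧ q ∣ W ^ n * r := by
  intro q
  induction q using Nat.strong_induction_on with
  | _ q ih =>
    intro hq
    by_cases h : W.Coprime q
    · exact ⟨0, q, h, by simp⟩
    · obtain ⟨c, hc⟩ := Nat.gcd_dvd_right W q
      have c0 : 0 < c := Nat.pos_of_mul_pos_left (hc ▸ hq)
      have g1 : 1 < W.gcd q := by
        have := Nat.gcd_pos_of_pos_right W hq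
        have h' : W.gcd q ≠ 1 := h
        omega
      obtain ⟨n, r, h1, h2⟩ := ih c (by nlinarith) c0
      refine ⟨n + 1, r, h1, ?_⟩
      rw [hc, pow_succ', mul_assoc]
      exact mul_dvd_mul (Nat.gcd_dvd_left W q) h2

theorem w_P1 {W q : ℕ} (hq : 0 < q) (hW : W ∣ q) {P₀ : 𝓞 Ω} (hP : IsCoprime P₀ (W : 𝓞 Ω)) :
    ∃ P₁, Gn W P₀ P₁ ∧ IsCoprime P₁ (q : 𝓞 Ω) := by
  obtain ⟨n, r, h1, h2⟩ := w_P1_split W q hq
  obtain ⟨a, b, hab⟩ : IsCoprime (W : 𝓞 Ω) (r : 𝓞 Ω) := h1.cast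
  obtain ⟨P, ⟨d, hd⟩, h4⟩ := exists_pos (P₀ * b * (r : 𝓞 Ω) + a * (W : 𝓞 Ω)) hq
  obtain ⟨c, hc⟩ : (W : 𝓞 Ω) ∣ (q : 𝓞 Ω) := Nat.cast_dvd_cast hW
  have e1 : (W : 𝓞 Ω) ∣ P₀ * b * r + a * W - P₀ := ⟨a - P₀ * a, by linear_combination P₀ * hab⟩
  have e2 : (r : 𝓞 Ω) ∣ P₀ * b * r + a * W - 1 := ⟨P₀ * b - b, by linear_combination hab⟩
  have c1 := cop_span.1 (cop_congr e1 (cop_span.2 hP))
  have c2 := cop_span.1 (cop_congr e2 (cop_span.2 isCoprime_one_left))
  have c3 : IsCoprime (P₀ * b * r + a * W) (q : 𝓞 Ω) :=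
    ((c1.pow_right (n := n)).mul_right c2).of_isCoprime_of_dvd_right
      (by exact_mod_cast Nat.cast_dvd_cast (α := 𝓞 Ω) h2)
  refine ⟨P, ⟨?_, h4⟩, cop_span.1 (cop_congr ⟨d, hd⟩ (cop_span.2 c3))⟩
  rw [show P - P₀ = W * (c * d) + (P₀ * b * r + a * W - P₀) by linear_combination hd + d * hc]
  exact (dvd_mul_right _ _).add e1

theorem w_elt_per {q : ℕ} (hq : 0 < q) {a a' b : Ideal (𝓞 Ω)} {α α' : 𝓞 Ω}
    (h1 : a * b = Ideal.span {α}) (h2 : a' * b = Ideal.span {α'})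
    (h3 : ((q * Ideal.absNorm b : ℕ) : 𝓞 Ω) ∣ α - α') (h4 : 0 < nm α * nm α') (h5 : Cop q a') :
    ∃ γ γ' : 𝓞 Ω, IsCoprime γ' q ∧ (q : 𝓞 Ω) ∣ γ - γ' ∧ 0 < nm γ * nm γ' ∧ α * γ' = α' * γ := by
  have b0 : b ≠ ⊥ := by
    rintro rfl
    rw [Ideal.mul_bot, eq_comm, Ideal.span_singleton_eq_bot] at h1
    exact (ne_of_nm h4).1 h1
  have n0 : ((Ideal.absNorm b : ℕ) : 𝓞 Ω) ≠ 0 :=
    Nat.cast_ne_zero.2 fun h => b0 (Ideal.absNorm_eq_zero_iff.1 h)
  obtain ⟨d, hd⟩ := dec_ex (Ideal.absNorm_mem b)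
  obtain ⟨t, c, t0, hc, ht⟩ := exists_cop hq (b := d) (by
    rintro rfl
    rw [Ideal.bot_mul, eq_comm, Ideal.span_singleton_eq_bot] at hd
    exact n0 hd)
  have key : ∀ {a : Ideal (𝓞 Ω)} {α : 𝓞 Ω}, a * b = Ideal.span {α} →
      ∃ γ, t * α = (Ideal.absNorm b : ℕ) * γ ∧ Ideal.span {γ} = a * c := fun {a α} h => by
    have e : Ideal.span {t * α} = Ideal.span {((Ideal.absNorm b : ℕ) : 𝓞 Ω)} * (a * c) := by
      rw [← Ideal.span_singleton_mul_span_singleton, ht, ← h, ← hd]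
      ring
    obtain ⟨γ, hγ⟩ : ((Ideal.absNorm b : ℕ) : 𝓞 Ω) ∣ t * α :=
      Ideal.span_singleton_le_span_singleton.1 (e ▸ Ideal.mul_le_left)
    refine ⟨γ, hγ, mul_left_cancel₀ (mt Ideal.span_singleton_eq_bot.1 n0) ?_⟩
    rw [← e, hγ, Ideal.span_singleton_mul_span_singleton]
  obtain ⟨γ, g1, -⟩ := key h1
  obtain ⟨γ', g3, g4⟩ := key h2
  obtain ⟨s, hs⟩ := h3
  refine ⟨γ, γ', cop_span.1 (g4 ▸ cop_mul.2 ⟨h5, hc⟩), ⟨t * s, mul_left_cancel₀ n0 ?_⟩, ?_,
    mul_left_cancel₀ n0 (by linear_combination α' * g1 - α * g3)⟩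
  · push_cast at hs
    linear_combination t * hs - g1 + g3
  · have e1 := congrArg nm g1
    have e2 := congrArg nm g3
    rw [nm_mul, nm_mul] at e1 e2
    have e3 := mul_pos (mul_self_pos.2 (nm_ne t0)) h4
    rw [mul_mul_mul_comm, e1, e2, mul_mul_mul_comm] at e3
    exact (mul_pos_iff_of_pos_left (mul_self_pos.2 (nm_ne n0))).1 e3

theorem w_elt {q : ℕ} (hq : 0 < q) {a a' b : Ideal (𝓞 Ω)} {α α' : 𝓞 Ω}
    (h1 : a * b = Ideal.span {α}) (h2 : a' * b = Ideal.span {α'})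
    (h3 : ((q * Ideal.absNorm b : ℕ) : 𝓞 Ω) ∣ α - α') (h4 : 0 < nm α * nm α') (h5 : Cop q a') :
    ∃ β β' : 𝓞 Ω, Gn q 1 β ∧ Gn q 1 β' ∧ β * α' = β' * α := by
  obtain ⟨γ, γ', a1, a2, a3, a4⟩ := w_elt_per hq h1 h2 h3 h4 h5
  have p0 : 0 < nm (γ' * γ') := by
    rw [nm_mul]
    exact mul_self_pos.2 (right_ne_zero_of_mul a3.ne')
  obtain ⟨g, g1, -, g3⟩ := w_inv hq p0 (a1.mul_left a1)
  refine ⟨γ * γ' * g, γ' * γ' * g, ⟨?_, ?_⟩, ⟨g3, ?_⟩, by linear_combination -γ' * g * a4⟩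
  · rw [show γ * γ' * g - 1 = (γ - γ') * (γ' * g) + (γ' * γ' * g - 1) by ring]
    exact (a2.mul_right _).add g3
  · rw [nm_mul, nm_mul]
    exact mul_pos a3 g1
  · rw [nm_mul]
    exact mul_pos p0 g1

theorem w_cl_ray {W : ℕ} {P₀ P₁ : 𝓞 Ω} (hP : IsCoprime P₀ (W : 𝓞 Ω)) (h1 : Gn W P₀ P₁)
    (I : Ideal (𝓞 Ω)) : Cl W P₀ I ↔ Ray W I (Ideal.span {P₁}) := by
  constructor
  · rintro ⟨P, ⟨a1, a2⟩, rfl⟩
    refine ⟨P, P₁, cop_congr h1.1 (cop_span.2 hP), ?_, mul_pos a2 h1.2, mul_comm _ _⟩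
    rw [show P - P₁ = (P - P₀) - (P₁ - P₀) by ring]
    exact a1.sub h1.1
  · rintro ⟨α, β, a1, a2, a3, a4⟩
    have b0 := (ne_of_nm a3).2
    rw [Ideal.span_singleton_mul_span_singleton] at a4
    obtain ⟨P, hP'⟩ : β ∣ α * P₁ :=
      Ideal.span_singleton_le_span_singleton.1 (a4 ▸ Ideal.mul_le_left)
    refine ⟨P, ⟨?_, ?_⟩, mul_left_cancel₀ (mt Ideal.span_singleton_eq_bot.1 b0) ?_⟩
    · rw [show P - P₀ = (P - P₁) + (P₁ - P₀) by ring]
      refine Dvd.dvd.add ((cop_span.1 a1).symm.dvd_of_dvd_mul_left ?_) h1.1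
      rw [show β * (P - P₁) = (α - β) * P₁ by linear_combination -hP']
      exact a2.mul_right _
    · have e := congrArg nm hP'
      rw [nm_mul, nm_mul] at e
      have e2 := mul_pos a3 h1.2
      rw [mul_right_comm, e, mul_right_comm] at e2
      exact (mul_pos_iff_of_pos_left (mul_self_pos.2 (nm_ne b0))).1 e2
    · rw [← a4, hP', Ideal.span_singleton_mul_span_singleton]

theorem w_hc_one {W : ℕ} {ξ : Ideal (𝓞 Ω) → ℂ} (h : HC W ξ) {P : 𝓞 Ω} (hP : Gn W 1 P) :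
    ξ (Ideal.span {P}) = 1 := by
  rw [← h.one]
  refine h.per _ ⊤ ⊤ P 1 (Ideal.mul_top _) (by simp) (by simpa only [Ideal.absNorm_top, mul_one] using hP.1) ?_
  rw [show nm (1 : 𝓞 Ω) = 1 from map_one _, mul_one]
  exact hP.2

theorem w_gc_mul {W q : ℕ} (hW : W ∣ q) {t : (Ω →+* ℂ) → ℝ} {m : (Ω →+* ℂ) → ℤ}
    {ξ F : Ideal (𝓞 Ω) → ℂ} (hξ : HC W ξ) (hF : GC q t m F) : GC q t m (ξ * F) := by
  refine ⟨hF.pos, hF.sum, fun I => ?_, ?_, fun I J => ?_,
    fun I h => hF.cop I (right_ne_zero_of_mul h), fun a a' b α α' h1 h2 h3 h4 => ?_⟩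
  · rw [Pi.mul_apply, norm_mul]
    exact mul_le_one₀ (hξ.le I) (norm_nonneg _) (hF.le I)
  · rw [Pi.mul_apply, hF.one, hξ.one, mul_one]
  · simp only [Pi.mul_apply]
    rw [hF.mul, hξ.mul, mul_mul_mul_comm]
  · simp only [Pi.mul_apply]
    rw [mul_assoc, hF.per a a' b α α' h1 h2 h3 h4,
      (hξ.toPF.mono hW hF.pos).per a a' b α α' h1 h2 h3 h4, mul_assoc]

open scoped Classical in
theorem w_gc_one {q : ℕ} (hq : 0 < q) :
    GC q 0 0 fun I : Ideal (𝓞 Ω) => if Cop q I then (1 : ℂ) else 0 := by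
  refine ⟨hq, by simp, fun I => ?_, if_pos (top_sup_eq _), fun I J => ?_,
    fun I h => not_not.1 fun g => h (if_neg g), fun a a' b α α' h1 h2 h3 h4 => ?_⟩
  · split_ifs <;> simp
  · rw [cop_mul]
    by_cases hI : Cop q I <;> by_cases hJ : Cop q J <;> simp [hI, hJ]
  · have e : Cop q a ↔ Cop q a' :=
      ⟨fun h => (ray_of_per hq h2 h1 (dvd_sub_comm.1 h3) (mul_comm (nm α) _ ▸ h4) h).cop h,
        fun h => (ray_of_per hq h1 h2 h3 h4 h).cop h⟩
    simp [ar, e]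

theorem w_gc_ne {P : 𝓞 Ω} (h : 0 < nm P) : P ≠ 0 ∧ rn k P ≠ 0 := by
  constructor
  · rintro rfl
    simp [nm] at h
  · intro e
    rw [← w_nm_rn (k := k), e] at h
    simp [nm] at h

theorem w_gc_ps {q : ℕ} {ψ : 𝓞 k → ℂ} (hψ : Ch q ψ) (t : (k →+* ℂ) → ℝ) (m : (k →+* ℂ) → ℤ)
    {P P' : 𝓞 Ω} (h : 0 < nm P) (h' : 0 < nm P') :
    Ps ψ t m (rn k (P * P')) = Ps ψ t m (rn k P) * Ps ψ t m (rn k P') := by
  rw [Ps, Ps, Ps, show rn k (P * P') = rn k P * rn k P' from map_mul _ _ _, hψ.mul,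
    ar_sc_mul t m (w_gc_ne h).2 (w_gc_ne h').2]
  ring

theorem w_gc_gn {W : ℕ} {P P' : 𝓞 Ω} (h : Gn W 1 P) (h' : Gn W 1 P') : Gn W 1 (P * P') := by
  refine ⟨?_, by rw [nm_mul]; exact mul_pos h.2 h'.2⟩
  rw [show P * P' - 1 = P * (P' - 1) + (P - 1) by ring]
  exact (h'.1.mul_left _).add h.1

theorem w_gc {W q : ℕ} (hq : 0 < q) (hW : W ∣ q) {ψ : 𝓞 k → ℂ} (hψ : Ch q ψ)
    {t : (k →+* ℂ) → ℝ} (ht : ∑ φ, t φ = 0) {m : (k →+* ℂ) → ℤ}
    (h : ∀ γ ∈ Gam k Ω W, Ps ψ t m (γ : (𝓞 k)ˣ) = 1) :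
    ∃ F : Ideal (𝓞 Ω) → ℂ, GC q (fun φ => t (res k φ)) (fun φ => m (res k φ)) F ∧
      (∀ I, I ≠ ⊥ → Cop q I → ‖F I‖ = 1) ∧
      ∀ P : 𝓞 Ω, Gn W 1 P → IsCoprime P (q : 𝓞 Ω) → F (Ideal.span {P}) = Ps ψ t m (rn k P) := by
  classical
  have wd : ∀ {P P' : 𝓞 Ω}, Gn W 1 P → Gn W 1 P' → Ideal.span {P} = Ideal.span {P'} →
      Ps ψ t m (rn k P') = Ps ψ t m (rn k P) := by
    intro P P' h1 h2 e
    obtain ⟨u, rfl⟩ := Ideal.span_singleton_eq_span_singleton.1 e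
    have hu : Gn W 1 (u : 𝓞 Ω) := by
      refine ⟨?_, ?_⟩
      · rw [show (u : 𝓞 Ω) - 1 = (P * u - 1) - u * (P - 1) by ring]
        exact h2.1.sub (h1.1.mul_left _)
      · have := h2.2
        rw [nm_mul] at this
        exact (mul_pos_iff_of_pos_left h1.2).1 this
    rw [w_gc_ps hψ t m h1.2 hu.2, show Ps ψ t m (rn k (u : 𝓞 Ω)) = 1 from
      h (Units.map (RingOfIntegers.norm k) u) ⟨u, hu, rfl⟩, mul_one]
  let S : Submonoid (Mq Ω q) :=
    { carrier := {I | Cl W 1 I.1}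
      one_mem' := ⟨1, ⟨by simp, by simp only [nm, map_one, zero_lt_one]⟩, by simp⟩
      mul_mem' := by
        rintro a b ⟨P, h1, h2⟩ ⟨P', h3, h4⟩
        exact ⟨P * P', w_gc_gn h1 h3, by
          rw [Submonoid.coe_mul, h2, h4, Ideal.span_singleton_mul_span_singleton]⟩ }
  have : IsCancelMul (Mq Ω q) :=
    { mul_left_cancel := fun a _ _ e => Subtype.ext (mul_left_cancel₀ a.2.1 (congrArg Subtype.val e))
      mul_right_cancel := fun a _ _ e =>
        Subtype.ext (mul_right_cancel₀ a.2.1 (congrArg Subtype.val e)) }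
  obtain ⟨F, f1, f2, f3, f4⟩ := w_ext S (fun I => Ps ψ t m (rn k (gen W 1 I.1))) (fun a ha => by
      obtain ⟨h1, h2⟩ := gen_spec ha
      rw [Ps, norm_mul, hψ.unit _ (w_cop_rn.2 (cop_span.1 (h2 ▸ a.2.2))),
        norm_ar t m (sc_ne one_ne_zero (w_gc_ne h1.2).2), mul_one])
    (fun a ha b hb => by
      obtain ⟨h1, h2⟩ := gen_spec ha
      obtain ⟨h3, h4⟩ := gen_spec hb
      obtain ⟨h5, h6⟩ := gen_spec (S.mul_mem ha hb)
      rw [← w_gc_ps hψ t m h1.2 h3.2]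
      exact wd (w_gc_gn h1 h3) h5 (by
        rw [← h6, ← Ideal.span_singleton_mul_span_singleton, ← h2, ← h4]; rfl))
  obtain ⟨G, e1, e2⟩ : ∃ G : Ideal (𝓞 Ω) → ℂ, (∀ I (h : I ∈ Mq Ω q), G I = F ⟨I, h⟩) ∧
      ∀ I, I ∉ Mq Ω q → G I = 0 :=
    ⟨fun I => if h : I ∈ Mq Ω q then F ⟨I, h⟩ else 0, fun I h => dif_pos h, fun I h => dif_neg h⟩
  have g3 : ∀ P : 𝓞 Ω, Gn W 1 P → IsCoprime P (q : 𝓞 Ω) →
      G (Ideal.span {P}) = Ps ψ t m (rn k P) := fun P h1 h2 => by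
    have h3 : Ideal.span {P} ∈ Mq Ω q :=
      ⟨mt Ideal.span_singleton_eq_bot.1 (w_gc_ne (k := k) h1.2).1, cop_span.2 h2⟩
    have h4 : Cl W 1 (Ideal.span {P}) := ⟨P, h1, rfl⟩
    rw [e1 _ h3, f4 ⟨_, h3⟩ h4]
    exact wd h1 (gen_spec h4).1 (gen_spec h4).2
  have gm : ∀ I J, G (I * J) = G I * G J := fun I J => by
    by_cases h : I ∈ Mq Ω q ∧ J ∈ Mq Ω q
    · rw [e1 _ (mul_mem h.1 h.2), e1 _ h.1, e1 _ h.2, ← f3]
      rfl
    · rw [e2 _ fun g => h ⟨⟨left_ne_zero_of_mul g.1, (cop_mul.1 g.2).1⟩,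
        ⟨right_ne_zero_of_mul g.1, (cop_mul.1 g.2).2⟩⟩, eq_comm, mul_eq_zero]
      exact (not_and_or.1 h).imp (e2 I) (e2 J)
  refine ⟨G, ⟨hq, by rw [w_sum_res, ht, mul_zero], fun I => ?_, ?_, gm,
    fun I h => (not_not.1 fun g => h (e2 I g) : I ∈ Mq Ω q).2, fun a a' b α α' p1 p2 p3 p4 => ?_⟩,
    fun I a b => by rw [e1 I ⟨a, b⟩, f1], g3⟩
  · by_cases h : I ∈ Mq Ω q
    · rw [e1 I h, f1]
    · rw [e2 I h, norm_zero]
      exact zero_le_one
  · rw [← Ideal.one_eq_top, e1 _ (one_mem _)]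
    exact f2
  by_cases h5 : Cop q a'
  · obtain ⟨β, β', b1, b2, b3⟩ := w_elt hq p1 p2 p3 p4 h5
    obtain ⟨n1, n2⟩ := ne_of_nm p4
    have b0 : b ≠ ⊥ := by
      rintro rfl
      rw [Ideal.mul_bot, eq_comm, Ideal.span_singleton_eq_bot] at p1
      exact n1 p1
    have key : ∀ {β : 𝓞 Ω}, Gn q 1 β → G (Ideal.span {β}) =
        ar (fun φ => t (res k φ)) (fun φ => m (res k φ)) (sc 1 β) := fun {β} hβ => by
      rw [g3 β ⟨(Nat.cast_dvd_cast hW).trans hβ.1, hβ.2⟩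
        (cop_span.1 (cop_congr hβ.1 (cop_span.2 isCoprime_one_left))), Ps,
        hψ.per _ _ (w_rn_congr hβ.1), show rn k (1 : 𝓞 Ω) = 1 from map_one _, hψ.one, one_mul,
        w_ar_norm t m (w_gc_ne (k := k) hβ.2).1]
    have c1 : Ideal.span {β} * a' = Ideal.span {β'} * a := mul_right_cancel₀ b0 (by
      rw [mul_assoc, mul_assoc, p1, p2, Ideal.span_singleton_mul_span_singleton,
        Ideal.span_singleton_mul_span_singleton, b3])
    have c2 := congrArg G c1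
    rw [gm, gm, key b1, key b2] at c2
    have c3 := congrArg (fun x => ar (fun φ => t (res k φ)) (fun φ => m (res k φ)) (sc 1 x)) b3
    simp only [ar_sc_mul _ _ (w_gc_ne (k := k) b1.2).1 n2,
      ar_sc_mul _ _ (w_gc_ne (k := k) b2.2).1 n1] at c3
    have c4 : ar (fun φ => t (res k φ)) (fun φ => m (res k φ)) (sc 1 β') ≠ 0 :=
      norm_ne_zero_iff.1 (by
        rw [norm_ar _ _ (sc_ne one_ne_zero (w_gc_ne (k := k) b2.2).1)]; exact one_ne_zero)
    refine mul_left_cancel₀ c4 ?_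
    linear_combination G a' * c3 -
      ar (fun φ => t (res k φ)) (fun φ => m (res k φ)) (sc 1 α') * c2
  · rw [e2 a' fun g => h5 g.2, e2 a fun g => h5
      ((ray_of_per hq p2 p1 (dvd_sub_comm.1 p3) (mul_comm (nm α) _ ▸ p4) g.2).cop g.2),
      zero_mul, zero_mul]

theorem w_const {W q : ℕ} (hq : 0 < q) (hW : W ∣ q) {ψ : 𝓞 k → ℂ} (hψ : Ch q ψ)
    {t : (k →+* ℂ) → ℝ} {m : (k →+* ℂ) → ℤ} {F : Ideal (𝓞 Ω) → ℂ}
    (hm : ∀ I J, F (I * J) = F I * F J)
    (hF : ∀ P : 𝓞 Ω, Gn W 1 P → IsCoprime P (q : 𝓞 Ω) → F (Ideal.span {P}) = Ps ψ t m (rn k P))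
    {P₀ P P' : 𝓞 Ω} (h : Gn W P₀ P) (h' : Gn W P₀ P') (hc : IsCoprime P (q : 𝓞 Ω))
    (hc' : IsCoprime P' (q : 𝓞 Ω)) :
    F (Ideal.span {P}) * Ps ψ t m (rn k P') = F (Ideal.span {P'}) * Ps ψ t m (rn k P) := by
  obtain ⟨Q, q1, q2, q3⟩ := w_inv hq h'.2 hc'
  have q4 : (W : 𝓞 Ω) ∣ P' * Q - 1 := (Nat.cast_dvd_cast hW).trans q3
  have n0 : ∀ {A : 𝓞 Ω}, 0 < nm A → rn k A ≠ 0 := fun {A} hA e => by
    rw [← w_nm_rn (k := k), e] at hA
    simp [nm] at hA
  have key : ∀ {A : 𝓞 Ω}, Gn W P₀ A → IsCoprime A (q : 𝓞 Ω) →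
      F (Ideal.span {A}) * F (Ideal.span {Q}) = Ps ψ t m (rn k A) * Ps ψ t m (rn k Q) :=
    fun {A} hA hB => by
      rw [← hm, Ideal.span_singleton_mul_span_singleton, hF (A * Q) ⟨?_, ?_⟩ (hB.mul_left q2),
        show rn k (A * Q) = rn k A * rn k Q from map_mul _ _ _, Ps, Ps, Ps, hψ.mul,
        ar_sc_mul t m (n0 hA.2) (n0 q1), mul_mul_mul_comm]
      · rw [show A * Q - 1 = ((A - P₀) - (P' - P₀)) * Q + (P' * Q - 1) by ring]
        exact ((hA.1.sub h'.1).mul_right _).add q4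
      · rw [nm_mul]
        exact mul_pos hA.2 q1
  have nz : ∀ {A : 𝓞 Ω}, 0 < nm A → IsCoprime A (q : 𝓞 Ω) → Ps ψ t m (rn k A) ≠ 0 :=
    fun {A} hA hB => by
      rw [← norm_ne_zero_iff, Ps, norm_mul, hψ.unit _ (w_cop_rn.2 hB),
        norm_ar t m (sc_ne one_ne_zero (n0 hA)), one_mul]
      exact one_ne_zero
  have e1 := key h hc
  have e2 := key h' hc'
  refine mul_right_cancel₀ (b := F (Ideal.span {Q}))
    (right_ne_zero_of_mul (e2 ▸ mul_ne_zero (nz h'.2 hc') (nz q1 q2))) ?_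
  linear_combination Ps ψ t m (rn k P') * e1 - Ps ψ t m (rn k P) * e2

theorem w_tv_pow (t : (k →+* ℂ) → ℝ) (m : (k →+* ℂ) → ℤ) {a : 𝓞 k} (ha : a ≠ 0) (n : ℕ) :
    ar t m (sc 1 (a ^ n)) = ar t m (sc 1 a) ^ n := by
  induction n with
  | zero => rw [pow_zero, pow_zero, ar_one]
  | succ n ih => rw [pow_succ, pow_succ, ar_sc_mul t m (pow_ne_zero _ ha) ha, ih]

theorem w_tv {W q : ℕ} (hq : 0 < q) (hW : W ∣ q) {ψ : 𝓞 k → ℂ} (hψ : Ch q ψ)
    {t : (k →+* ℂ) → ℝ} (ht : ∑ φ, t φ = 0) {m : (k →+* ℂ) → ℤ}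
    (hm : ∀ φ, ComplexEmbedding.IsReal φ → m φ = 0) {s : Finset (k →+* ℂ)} (hs : s ⊆ Rr k)
    (hroot : ∀ d : ℕ, 0 < d → (∀ a : 𝓞 k, a ≠ 0 → (q : 𝓞 k) ∣ a - 1 → ar t m (sc 1 a) ^ d = 1) →
      Tr t m) :
    Tv Ω q W (Ps ψ t (m + sgm s)) ↔ Tr t m ∧ Tv Ω q W (Ps ψ 0 (sgm s)) := by
  have e : ∀ {a : 𝓞 k}, a ≠ 0 →
      Ps ψ t (m + sgm s) a = ar t m (sc 1 a) * Ps ψ 0 (sgm s) a := fun {a} ha => by
    have := ar_add t 0 m (sgm s) (sc_ne one_ne_zero ha)
    rw [add_zero] at this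
    rw [Ps, Ps, this]
    ring
  have e' : Tr t m → (Tv Ω q W (Ps ψ t (m + sgm s)) ↔ Tv Ω q W (Ps ψ 0 (sgm s))) := fun h =>
    forall_congr' fun P => forall_congr' fun hP => by
      rw [e (w_gc_ne hP.2).2, h _ (w_gc_ne hP.2).2, one_mul]
  refine ⟨fun h => ?_, fun h => (e' h.1).2 h.2⟩
  have h1 : Tr t m := hroot (2 * Module.finrank k Ω) (mul_pos two_pos Module.finrank_pos)
    fun a ha h2 => by
      have h3 : (q : 𝓞 Ω) ∣ algebraMap (𝓞 k) (𝓞 Ω) (a ^ 2) - 1 := by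
        have := map_dvd (algebraMap (𝓞 k) (𝓞 Ω)) (h2.trans (sub_one_dvd_pow_sub_one a 2))
        rwa [map_natCast, map_sub, map_one] at this
      have h4 : rn k (algebraMap (𝓞 k) (𝓞 Ω) (a ^ 2)) = a ^ (2 * Module.finrank k Ω) := by
        rw [pow_mul]
        exact RingOfIntegers.norm_algebraMap k _
      have h5 := h _ ⟨(Nat.cast_dvd_cast hW).trans h3, by
          rw [← w_nm_rn (k := k), h4, mul_comm, pow_mul, sq, nm_mul]
          exact mul_self_pos.2 (nm_ne (pow_ne_zero _ ha))⟩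
        (cop_span.1 (cop_congr h3 (cop_span.2 isCoprime_one_left)))
      rwa [h4, e (pow_ne_zero _ ha), Ps, hψ.per _ _ (h2.trans (sub_one_dvd_pow_sub_one a _)),
        hψ.one, w_tv_pow _ _ ha, w_tv_pow _ _ ha, pow_mul (ar 0 _ _), (w_sign ha).1 s hs, one_pow,
        mul_one, mul_one] at h5
  exact ⟨h1, (e' h1).1 h⟩

end Pool.Agent.MP_a59382_lc.V3

end
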